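import Pool.Agent.Lib.MP_1c105c_an.Lift

/-! MP_1c105c_an: the inverse branches and their index words (row ABS). -/

set_option autoImplicit false

open Filter Topology Set Polynomial

namespace Pool.Agent.Imp

/-- The rectangle `0 < Re u < η`, `α < Im u < β`. -/
def Rect (η α β : ℝ) : Set ℂ := {u | 0 < u.re ∧ u.re < η ∧ α < u.im ∧ u.im < β}

theorem rect_sub (η α β : ℝ) : Rect η α β ⊆ HP := fun _ hu => hu.1

theorem rect_preconnected (η α β : ℝ) : IsPreconnected (Rect η α β) := by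
  have h : Rect η α β = Complex.reLm ⁻¹' Set.Ioo 0 η ∩ Complex.imLm ⁻¹' Set.Ioo α β := by
    ext u
    simp [Rect, and_assoc]
  rw [h]
  exact (((convex_Ioo 0 η).linear_preimage Complex.reLm).inter
    ((convex_Ioo α β).linear_preimage Complex.imLm)).isPreconnected

theorem rect_nonempty {η α β : ℝ} (hη : 0 < η) (hαβ : α < β) : (Rect η α β).Nonempty := by
  refine ⟨⟨η / 2, (α + β) / 2⟩, ?_, ?_, ?_, ?_⟩ <;> simp <;> linarith

/-- The box data. -/
structure Box (f : ℂ[X]) (P : ℂ → ℂ) (b : ℂ) (r η α β : ℝ) : Prop where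
  hr : 0 < r
  hη : 0 < η
  hαβ : α < β
  maps : ∀ u ∈ Rect η α β, P u ∈ Metric.ball b r
  crit₁ : ∀ c, f.derivative.eval c = 0 → f.eval c ∉ Metric.ball b (2 * r)
  crit₂ : ∀ c, f.derivative.eval c = 0 → f.eval (f.eval c) ∉ Metric.ball b (2 * r)

/-- `g` is a univalent inverse branch of `f^n` with index `j`. -/
def Univ (f : ℂ[X]) (P : ℂ → ℂ) (b : ℂ) (r η α β : ℝ) (n j : ℕ) (g : ℂ → ℂ) : Prop :=
  DifferentiableOn ℂ g (Metric.ball b (2 * r)) ∧
  (∀ z ∈ Metric.ball b (2 * r), (fun w => f.eval w)^[n] (g z) = z) ∧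
  ∀ u ∈ Rect η α β, g (P u) = P ((u + j * Complex.I) / (f.natDegree : ℂ) ^ n)

theorem per_nat {f : ℂ[X]} {P : ℂ → ℂ} (hP : Half f P) (u : ℂ) (a : ℕ) :
    P (u + a * Complex.I) = P u := by
  induction a with
  | zero => simp
  | succ a ih =>
    have : u + ((a + 1 : ℕ) : ℂ) * Complex.I = (u + a * Complex.I) + Complex.I := by
      push_cast; ring
    rw [this, hP.per, ih]

theorem ball_sub {b : ℂ} {r : ℝ} (hr : 0 < r) : Metric.ball b r ⊆ Metric.ball b (2 * r) :=
  Metric.ball_subset_ball (by linarith)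

theorem div_mem_HP {d : ℕ} (hd : 2 ≤ d) {u : ℂ} (hu : 0 < u.re) (j n : ℕ) :
    (u + j * Complex.I) / (d : ℂ) ^ n ∈ HP := by
  have hpos : (0 : ℝ) < (d : ℝ) ^ n := by positivity
  have h : ((u + j * Complex.I) / (d : ℂ) ^ n) = (u + j * Complex.I) / (((d : ℝ) ^ n : ℝ) : ℂ) := by
    push_cast; rfl
  change 0 < ((u + j * Complex.I) / (d : ℂ) ^ n).re
  rw [h, Complex.div_ofReal_re]
  apply div_pos _ hpos
  simpa using hu

section
variable {f : ℂ[X]} {P : ℂ → ℂ} {b : ℂ} {r η α β : ℝ}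

theorem univ_disj (hd : 2 ≤ f.natDegree) (hP : Half f P) (hB : Box f P b r η α β)
    {n j j' : ℕ} {g g' : ℂ → ℂ} (hg : Univ f P b r η α β n j g) (hg' : Univ f P b r η α β n j' g')
    (hj : j < f.natDegree ^ n) (hj' : j' < f.natDegree ^ n) {z z' : ℂ}
    (hz : z ∈ Metric.ball b (2 * r)) (hz' : z' ∈ Metric.ball b (2 * r)) (h : g z = g' z') :
    j = j' := by
  have hzz : z = z' := by rw [← hg.2.1 z hz, ← hg'.2.1 z' hz', h]
  subst hzz
  have hev : ∀ w, (f.comp^[n] X).eval w = (fun w => f.eval w)^[n] w := by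
    intro w
    rw [Polynomial.iterate_comp_eval]
    simp
  have heq : Set.EqOn g g' (Metric.ball b (2 * r)) := by
    refine uniq (f.comp^[n] X) _ g g' (convex_ball b (2 * r)).isPreconnected hg.1.continuousOn
      hg'.1.continuousOn ?_ ?_ z hz h
    · intro y hy
      rw [hev, hev, hg.2.1 y hy, hg'.2.1 y hy]
    · intro y hy h0
      have hn : Metric.ball b (2 * r) ∈ 𝓝 y := Metric.isOpen_ball.mem_nhds hy
      have hdg := ((hg.1 y hy).differentiableAt hn).hasDerivAt
      have h1 : HasDerivAt (fun y => (f.comp^[n] X).eval (g y))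
          ((f.comp^[n] X).derivative.eval (g y) * deriv g y) y :=
        ((f.comp^[n] X).hasDerivAt (g y)).comp y hdg
      have h2 : HasDerivAt (fun y : ℂ => y) ((f.comp^[n] X).derivative.eval (g y) * deriv g y) y := by
        refine h1.congr_of_eventuallyEq ?_
        filter_upwards [hn] with x hx
        rw [hev, hg.2.1 x hx]
      have h3 := h2.unique (hasDerivAt_id' y)
      rw [h0, zero_mul] at h3
      exact zero_ne_one h3
  obtain ⟨u, hu⟩ := rect_nonempty hB.hη hB.hαβ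
  have h1 := heq (ball_sub hB.hr (hB.maps u hu))
  rw [hg.2.2 u hu, hg'.2.2 u hu] at h1
  obtain ⟨m, hm⟩ := hP.inj _ (div_mem_HP hd hu.1 j n) _ (div_mem_HP hd hu.1 j' n) h1
  have hne : (f.natDegree : ℂ) ^ n ≠ 0 := by
    apply pow_ne_zero
    exact_mod_cast (by omega : f.natDegree ≠ 0)
  have h2 : (j : ℂ) = j' + m * (f.natDegree : ℂ) ^ n := by
    have h3 : ((u + j * Complex.I) / (f.natDegree : ℂ) ^ n) * (f.natDegree : ℂ) ^ n =
        ((u + j' * Complex.I) / (f.natDegree : ℂ) ^ n + m * Complex.I) * (f.natDegree : ℂ) ^ n := by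
      rw [hm]
    rw [add_mul, div_mul_cancel₀ _ hne, div_mul_cancel₀ _ hne] at h3
    have h4 : ((j : ℂ) - (j' + m * (f.natDegree : ℂ) ^ n)) * Complex.I = 0 := by
      linear_combination h3
    have h5 := (mul_eq_zero.mp h4).resolve_right Complex.I_ne_zero
    exact sub_eq_zero.mp h5
  have h6 : (j : ℤ) = j' + m * (f.natDegree : ℤ) ^ n := by exact_mod_cast h2
  have hD : (0 : ℤ) < (f.natDegree : ℤ) ^ n := by positivity
  have hj1 : (j : ℤ) < (f.natDegree : ℤ) ^ n := by exact_mod_cast hj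
  have hj1' : (j' : ℤ) < (f.natDegree : ℤ) ^ n := by exact_mod_cast hj'
  have hm0 : m = 0 := by
    by_contra hm0
    rcases lt_or_gt_of_ne hm0 with h7 | h7
    · have : m * (f.natDegree : ℤ) ^ n ≤ -1 * (f.natDegree : ℤ) ^ n :=
        mul_le_mul_of_nonneg_right (by omega) hD.le
      have : (0 : ℤ) ≤ j := by positivity
      linarith
    · have : 1 * (f.natDegree : ℤ) ^ n ≤ m * (f.natDegree : ℤ) ^ n :=
        mul_le_mul_of_nonneg_right (by omega) hD.le
      have : (0 : ℤ) ≤ j' := by positivity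
      linarith
  rw [hm0] at h6
  have : (j : ℤ) = j' := by simpa using h6
  exact_mod_cast this

open Classical in
/-- The critical indices of level `k`. -/
noncomputable def Wset (f : ℂ[X]) (P : ℂ → ℂ) (b : ℂ) (r η α β : ℝ) (k : ℕ) : Finset ℕ :=
  (Finset.range (f.natDegree ^ k)).filter fun j => ∃ g, Univ f P b r η α β k j g ∧
    ∃ c, f.derivative.eval c = 0 ∧ ∃ z ∈ Metric.ball b (2 * r), g z = f.eval c

theorem mem_Wset {k j : ℕ} : j ∈ Wset f P b r η α β k ↔ j < f.natDegree ^ k ∧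
    ∃ g, Univ f P b r η α β k j g ∧
    ∃ c, f.derivative.eval c = 0 ∧ ∃ z ∈ Metric.ball b (2 * r), g z = f.eval c := by
  simp [Wset]

theorem derivative_ne (hd : 2 ≤ f.natDegree) : f.derivative ≠ 0 := by
  intro h
  have := Polynomial.derivative_eq_zero.mp h
  omega

theorem Wset_card (hd : 2 ≤ f.natDegree) (hP : Half f P) (hB : Box f P b r η α β) (k : ℕ) :
    (Wset f P b r η α β k).card ≤ f.natDegree - 1 := by
  classical
  have hc : ∀ j ∈ Wset f P b r η α β k, ∃ c, f.derivative.eval c = 0 ∧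
      ∃ g, Univ f P b r η α β k j g ∧ ∃ z ∈ Metric.ball b (2 * r), g z = f.eval c := by
    intro j hj
    obtain ⟨_, g, hg, c, hc, z, hz, h⟩ := mem_Wset.mp hj
    exact ⟨c, hc, g, hg, z, hz, h⟩
  choose! c hc using hc
  have h1 : (Wset f P b r η α β k).card ≤ f.derivative.roots.toFinset.card := by
    apply Finset.card_le_card_of_injOn c
    · intro j hj
      rw [Finset.mem_coe, Multiset.mem_toFinset, Polynomial.mem_roots (derivative_ne hd)]
      exact (hc j hj).1
    · intro j hj j' hj' hcc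
      obtain ⟨_, g, hg, z, hz, h⟩ := hc j hj
      obtain ⟨_, g', hg', z', hz', h'⟩ := hc j' hj'
      refine univ_disj hd hP hB hg hg' (mem_Wset.mp hj).1 (mem_Wset.mp hj').1 hz hz' ?_
      rw [h, h', hcc]
  refine h1.trans ((Multiset.toFinset_card_le _).trans ((Polynomial.card_roots' _).trans ?_))
  exact Polynomial.natDegree_derivative_le f

theorem Wset_zero (hB : Box f P b r η α β) : Wset f P b r η α β 0 = ∅ := by
  rw [Finset.eq_empty_iff_forall_notMem]
  intro j hj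
  obtain ⟨_, g, hg, c, hc, z, hz, h⟩ := mem_Wset.mp hj
  have h1 := hg.2.1 z hz
  simp only [Function.iterate_zero, id_eq] at h1
  exact hB.crit₁ c hc (by rw [← h, h1]; exact hz)

theorem Wset_one (hB : Box f P b r η α β) : Wset f P b r η α β 1 = ∅ := by
  rw [Finset.eq_empty_iff_forall_notMem]
  intro j hj
  obtain ⟨_, g, hg, c, hc, z, hz, h⟩ := mem_Wset.mp hj
  have h1 := hg.2.1 z hz
  simp only [Function.iterate_one] at h1
  exact hB.crit₂ c hc (by rw [← h, h1]; exact hz)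

theorem semi_pow (hd : 2 ≤ f.natDegree) (hP : Half f P) {u : ℂ} (hu : 0 < u.re) (j n : ℕ) :
    f.eval (P ((u + j * Complex.I) / (f.natDegree : ℂ) ^ (n + 1))) =
      P ((u + (j % f.natDegree ^ n : ℕ) * Complex.I) / (f.natDegree : ℂ) ^ n) := by
  have hne0 : (f.natDegree : ℂ) ≠ 0 := by exact_mod_cast (by omega : f.natDegree ≠ 0)
  have hne : (f.natDegree : ℂ) ^ n ≠ 0 := pow_ne_zero _ hne0
  rw [hP.semi _ (div_mem_HP hd hu j (n + 1))]
  have h1 : (j : ℂ) = (j % f.natDegree ^ n : ℕ) + (f.natDegree : ℂ) ^ n * (j / f.natDegree ^ n : ℕ) := by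
    have := Nat.mod_add_div j (f.natDegree ^ n)
    exact_mod_cast this.symm
  have h2 : (f.natDegree : ℂ) * ((u + j * Complex.I) / (f.natDegree : ℂ) ^ (n + 1)) =
      (u + (j % f.natDegree ^ n : ℕ) * Complex.I) / (f.natDegree : ℂ) ^ n +
        (j / f.natDegree ^ n : ℕ) * Complex.I := by
    conv_lhs => rw [h1]
    field_simp
    ring
  rw [h2, per_nat hP]

/-- The univalent indices. -/
theorem exists_univ (hd : 2 ≤ f.natDegree) (hP : Half f P) (hB : Box f P b r η α β) :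
    ∀ n j : ℕ, j < f.natDegree ^ n → (∀ k < n, j % f.natDegree ^ k ∉ Wset f P b r η α β k) →
      ∃ g, Univ f P b r η α β n j g := by
  intro n
  induction n with
  | zero =>
    intro j hj _
    have hj0 : j = 0 := by simpa using hj
    subst hj0
    refine ⟨fun z => z, differentiableOn_id, fun z _ => rfl, fun u _ => ?_⟩
    simp
  | succ n ih =>
    intro j hj hk
    have hDpos : 0 < f.natDegree ^ n := by positivity
    obtain ⟨g, hg⟩ := ih (j % f.natDegree ^ n) (Nat.mod_lt _ hDpos) (by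
      intro k hkn
      rw [Nat.mod_mod_of_dvd j (pow_dvd_pow _ hkn.le)]
      exact hk k (by omega))
    have hcv : ∀ z ∈ Metric.ball b (2 * r), ∀ c, f.derivative.eval c = 0 → f.eval c ≠ g z := by
      intro z hz c hc h
      exact hk n (by omega) (mem_Wset.mpr ⟨Nat.mod_lt _ hDpos, g, hg, c, hc, z, hz, h.symm⟩)
    obtain ⟨u₀, hu₀⟩ := rect_nonempty hB.hη hB.hαβ
    have hz₀ : P u₀ ∈ Metric.ball b (2 * r) := ball_sub hB.hr (hB.maps u₀ hu₀)
    obtain ⟨h, hh1, hh2, hh3⟩ := lift f b (2 * r) g hg.1 hcv (P u₀) hz₀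
      (P ((u₀ + j * Complex.I) / (f.natDegree : ℂ) ^ (n + 1))) (by
        rw [semi_pow hd hP hu₀.1, hg.2.2 u₀ hu₀])
    refine ⟨h, hh1, ?_, ?_⟩
    · intro z hz
      rw [Function.iterate_succ_apply, hh2 z hz, hg.2.1 z hz]
    · have hPc : ContinuousOn P (Rect η α β) := hP.diff.continuousOn.mono (rect_sub η α β)
      have := uniq f (Rect η α β) (fun u => h (P u))
        (fun u => P ((u + j * Complex.I) / (f.natDegree : ℂ) ^ (n + 1)))
        (rect_preconnected η α β)
        (hh1.continuousOn.comp hPc fun u hu => ball_sub hB.hr (hB.maps u hu))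
        (hP.diff.continuousOn.comp (by fun_prop) fun u hu => div_mem_HP hd hu.1 j (n + 1))
        (by
          intro u hu
          rw [hh2 _ (ball_sub hB.hr (hB.maps u hu)), semi_pow hd hP hu.1, hg.2.2 u hu])
        (by
          intro u hu h0
          exact hcv _ (ball_sub hB.hr (hB.maps u hu)) _ h0
            (hh2 _ (ball_sub hB.hr (hB.maps u hu)))) u₀ hu₀ hh3
      intro u hu
      exact this hu

/-! ### Escape radius -/

theorem exists_escape (hd : 2 ≤ f.natDegree) : ∃ R₀ : ℝ, ∀ w : ℂ, R₀ ≤ ‖w‖ → ‖w‖ ≤ ‖f.eval w‖ := by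
  have hdeg : 0 < f.divX.degree := by
    rw [← Polynomial.natDegree_pos_iff_degree_pos, Polynomial.natDegree_divX_eq_natDegree_tsub_one]
    omega
  have ht := Polynomial.tendsto_norm_atTop f.divX hdeg (l := Bornology.cobounded ℂ)
    (z := fun w => w) tendsto_norm_cobounded_atTop
  have h2 := (ht.eventually (eventually_ge_atTop 2)).and
    ((tendsto_norm_cobounded_atTop (E := ℂ)).eventually (eventually_ge_atTop ‖f.coeff 0‖))
  obtain ⟨R₀, hR₀⟩ : ∃ R₀ : ℝ, ∀ w : ℂ, R₀ ≤ ‖w‖ → 2 ≤ ‖f.divX.eval w‖ ∧ ‖f.coeff 0‖ ≤ ‖w‖ := by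
    rw [← comap_norm_atTop, Filter.eventually_comap, Filter.eventually_atTop] at h2
    obtain ⟨a, ha⟩ := h2
    exact ⟨a, fun w hw => ha _ hw w rfl⟩
  refine ⟨R₀, fun w hw => ?_⟩
  obtain ⟨h1, h3⟩ := hR₀ w hw
  have h4 : f.eval w = f.divX.eval w * w + f.coeff 0 := by
    conv_lhs => rw [← Polynomial.divX_mul_X_add f]
    simp
  have h5 : ‖f.divX.eval w * w‖ ≤ ‖f.eval w‖ + ‖f.coeff 0‖ := by
    have : f.divX.eval w * w = f.eval w - f.coeff 0 := by rw [h4]; ring
    rw [this]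
    exact norm_sub_le _ _
  rw [norm_mul] at h5
  have h6 : 2 * ‖w‖ ≤ ‖f.divX.eval w‖ * ‖w‖ := mul_le_mul_of_nonneg_right h1 (norm_nonneg _)
  linarith

theorem exists_bound (hd : 2 ≤ f.natDegree) (ρ₀ : ℝ) : ∃ R : ℝ, ∀ (n : ℕ) (w : ℂ),
    ‖(fun w => f.eval w)^[n] w‖ ≤ ρ₀ → ‖w‖ ≤ R := by
  obtain ⟨R₀, hR₀⟩ := exists_escape hd
  refine ⟨max R₀ ρ₀, ?_⟩
  intro n w hw
  by_contra hlt
  rw [not_le] at hlt
  have key : ∀ n : ℕ, ‖w‖ ≤ ‖(fun w => f.eval w)^[n] w‖ := by
    intro n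
    induction n with
    | zero => simp
    | succ n ih =>
      rw [Function.iterate_succ_apply']
      exact ih.trans (hR₀ _ (((le_max_left _ _).trans hlt.le).trans ih))
  exact absurd ((key n).trans hw) (not_le.mpr ((le_max_right _ _).trans_lt hlt))

open Classical in
/-- The indices with a large branch. -/
noncomputable def Bset (f : ℂ[X]) (P : ℂ → ℂ) (b : ℂ) (r η α β δ : ℝ) (n : ℕ) : Finset ℕ :=
  (Finset.range (f.natDegree ^ n)).filter fun j => ∃ g, Univ f P b r η α β n j g ∧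
    ∃ z ∈ Metric.ball b r, ∃ z' ∈ Metric.ball b r, δ ≤ ‖g z - g z'‖

theorem mem_Bset {δ : ℝ} {n j : ℕ} : j ∈ Bset f P b r η α β δ n ↔ j < f.natDegree ^ n ∧
    ∃ g, Univ f P b r η α β n j g ∧
    ∃ z ∈ Metric.ball b r, ∃ z' ∈ Metric.ball b r, δ ≤ ‖g z - g z'‖ := by
  simp [Bset]

theorem Bset_card (hA : AreaStatement) (hd : 2 ≤ f.natDegree) (hP : Half f P)
    (hB : Box f P b r η α β) {δ : ℝ} (hδ : 0 < δ) :
    ∃ M : ℕ, ∀ n, (Bset f P b r η α β δ n).card ≤ M := by
  obtain ⟨R, hR⟩ := exists_bound hd (‖b‖ + 2 * r)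
  refine ⟨⌈4 * R ^ 2 / δ ^ 2⌉₊, fun n => ?_⟩
  have hc : ∀ j ∈ Bset f P b r η α β δ n, ∃ g, Univ f P b r η α β n j g ∧
      ∃ z ∈ Metric.ball b r, ∃ z' ∈ Metric.ball b r, δ ≤ ‖g z - g z'‖ :=
    fun j hj => (mem_Bset.mp hj).2
  choose! g hg using hc
  have h1 := hA ℕ (Bset f P b r η α β δ n) g b r R δ hB.hr hδ
    (fun i hi => (hg i hi).1.1)
    (fun i hi x hx y hy hxy => by
      have h2 := (hg i hi).1.2.1
      rw [← h2 x hx, ← h2 y hy, hxy])
    (fun i hi j hj hij => by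
      rw [Set.disjoint_left]
      rintro _ ⟨x, hx, rfl⟩ ⟨y, hy, hxy⟩
      exact hij (univ_disj hd hP hB (hg i hi).1 (hg j hj).1 (mem_Bset.mp hi).1
        (mem_Bset.mp hj).1 hx hy hxy.symm))
    (fun i hi z hz => by
      refine hR n _ ?_
      rw [(hg i hi).1.2.1 z hz]
      have h3 : ‖z - b‖ < 2 * r := by rwa [← dist_eq_norm, ← Metric.mem_ball]
      have h4 : ‖z‖ ≤ ‖z - b‖ + ‖b‖ := by
        have := norm_add_le (z - b) b
        simpa using this
      linarith)
    (fun i hi => (hg i hi).2)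
  exact_mod_cast h1.trans (Nat.le_ceil _)

theorem osc_of_univ (hd : 2 ≤ f.natDegree) (hB : Box f P b r η α β)
    {δ : ℝ} {n j : ℕ} {g : ℂ → ℂ} (hg : Univ f P b r η α β n j g)
    (hs : ∀ z ∈ Metric.ball b r, ∀ z' ∈ Metric.ball b r, ‖g z - g z'‖ ≤ δ)
    {t : ℝ} (ht : t ∈ Set.Ioo α β) : Osc P δ ((t + j) / f.natDegree ^ n) := by
  have hne0 : (f.natDegree : ℂ) ≠ 0 := by exact_mod_cast (by omega : f.natDegree ≠ 0)
  have hne : (f.natDegree : ℂ) ^ n ≠ 0 := pow_ne_zero _ hne0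
  have hpos : (0 : ℝ) < (f.natDegree : ℝ) ^ n := by
    have : (0 : ℝ) < f.natDegree := by exact_mod_cast (by omega : 0 < f.natDegree)
    positivity
  set N : Set ℂ := {v | ((f.natDegree : ℂ) ^ n * v - j * Complex.I).re < η ∧
    α < ((f.natDegree : ℂ) ^ n * v - j * Complex.I).im ∧
    ((f.natDegree : ℂ) ^ n * v - j * Complex.I).im < β} with hN
  have hNo : IsOpen N := by
    have hc : Continuous fun v : ℂ => (f.natDegree : ℂ) ^ n * v - j * Complex.I := by fun_prop
    exact ((isOpen_lt (Complex.continuous_re.comp hc) continuous_const).inter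
      ((isOpen_lt continuous_const (Complex.continuous_im.comp hc)).inter
        (isOpen_lt (Complex.continuous_im.comp hc) continuous_const)))
  have hmem : (((t + j) / f.natDegree ^ n : ℝ) : ℂ) * Complex.I ∈ N := by
    have h1 : (f.natDegree : ℂ) ^ n * ((((t + j) / f.natDegree ^ n : ℝ) : ℂ) * Complex.I) -
        j * Complex.I = t * Complex.I := by
      push_cast
      field_simp
      ring
    rw [hN, Set.mem_ofPred_eq, h1]
    refine ⟨?_, ?_, ?_⟩
    · simpa using hB.hη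
    · simpa using ht.1
    · simpa using ht.2
  refine ⟨N, hNo.mem_nhds hmem, ?_⟩
  have key : ∀ v ∈ N ∩ HP, ∃ z ∈ Metric.ball b r, P v = g z := by
    rintro v ⟨hv, hv0⟩
    have hu : (f.natDegree : ℂ) ^ n * v - j * Complex.I ∈ Rect η α β := by
      refine ⟨?_, hv⟩
      have h2 : ((f.natDegree : ℂ) ^ n * v - j * Complex.I).re = (f.natDegree : ℝ) ^ n * v.re := by
        have h3 : (f.natDegree : ℂ) ^ n = (((f.natDegree : ℝ) ^ n : ℝ) : ℂ) := by push_cast; rfl
        rw [h3, Complex.sub_re, Complex.re_ofReal_mul]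
        simp
      rw [h2]
      exact mul_pos hpos hv0
    refine ⟨P ((f.natDegree : ℂ) ^ n * v - j * Complex.I), hB.maps _ hu, ?_⟩
    rw [hg.2.2 _ hu]
    congr 1
    field_simp
    ring
  intro u hu v hv
  obtain ⟨z, hz, h1⟩ := key u hu
  obtain ⟨z', hz', h2⟩ := key v hv
  rw [h1, h2]
  exact hs z hz z' hz'

end

/-- A box exists. -/
theorem exists_box (hE : ExcStatement) (hI : InvStatement) {f : ℂ[X]} {P : ℂ → ℂ}
    (hd : 2 ≤ f.natDegree) (hP : Half f P) (h : ∃ (t : ℝ) (z : ℂ), HasLim P t z) :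
    ∃ (b : ℂ) (r η α β : ℝ), 0 ≤ α ∧ β ≤ 1 ∧ Box f P b r η α β := by
  classical
  obtain ⟨t, z, ht, hz⟩ := hE f P hd hP h
    (f.derivative.roots.toFinset.image (fun c => f.eval c) ∪
      f.derivative.roots.toFinset.image (fun c => f.eval (f.eval c)))
  set E := f.derivative.roots.toFinset.image (fun c => f.eval c) ∪
      f.derivative.roots.toFinset.image (fun c => f.eval (f.eval c)) with hEdef
  obtain ⟨hI1, -, -, -, -⟩ := hI f P hd hP
  -- shift to `[0, 1)`
  have hshift : ∀ (n : ℕ) (t : ℝ), HasLim P (t + n) z ↔ HasLim P t z := by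
    intro n
    induction n with
    | zero => intro t; simp
    | succ n ih =>
      intro t
      have : t + ((n + 1 : ℕ) : ℝ) = (t + n) + 1 := by push_cast; ring
      rw [this, hI1, ih]
  obtain ⟨t₀, ht0, ht1, ht₀⟩ : ∃ t₀ : ℝ, 0 ≤ t₀ ∧ t₀ < 1 ∧ HasLim P t₀ z := by
    refine ⟨Int.fract t, Int.fract_nonneg t, Int.fract_lt_one t, ?_⟩
    rcases le_or_gt 0 ⌊t⌋ with h0 | h0
    · obtain ⟨n, hn⟩ := Int.eq_ofNat_of_zero_le h0
      have h1 : t = Int.fract t + n := by
        have := Int.floor_add_fract t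
        rw [hn] at this
        simp only [Int.cast_natCast] at this
        linarith
      rw [h1] at ht
      exact (hshift n _).mp ht
    · obtain ⟨n, hn⟩ := Int.eq_ofNat_of_zero_le (by omega : 0 ≤ -⌊t⌋)
      have h1 : Int.fract t = t + n := by
        have h2 := Int.floor_add_fract t
        have h3 : (-⌊t⌋ : ℤ) = (n : ℤ) := hn
        have h4 : -(⌊t⌋ : ℝ) = (n : ℝ) := by exact_mod_cast h3
        linarith
      rw [h1]
      exact (hshift n t).mpr ht
  -- the ball
  have hEc : (↑E : Set ℂ)ᶜ ∈ 𝓝 z :=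
    (E.finite_toSet.isClosed.isOpen_compl).mem_nhds (by simpa using hz)
  obtain ⟨ε, hε, hball⟩ := Metric.mem_nhds_iff.mp hEc
  have hev := ht₀.eventually (Metric.ball_mem_nhds z (by positivity : 0 < ε / 2))
  rw [eventually_nhdsWithin_iff, Metric.eventually_nhds_iff] at hev
  obtain ⟨ε', hε', hev⟩ := hev
  refine ⟨z, ε / 2, ε' / 2, t₀, min 1 (t₀ + ε' / 2), ht0, min_le_left _ _, ?_⟩
  refine ⟨by positivity, by positivity, ?_, ?_, ?_, ?_⟩
  · exact lt_min ht1 (by linarith)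
  · intro u hu
    refine hev ?_ hu.1
    have h1 : u.im < t₀ + ε' / 2 := hu.2.2.2.trans_le (min_le_right _ _)
    rw [dist_eq_norm]
    refine (Complex.norm_le_abs_re_add_abs_im _).trans_lt ?_
    have h2 : (u - t₀ * Complex.I).re = u.re := by simp
    have h3 : (u - t₀ * Complex.I).im = u.im - t₀ := by simp
    rw [h2, h3, abs_of_pos hu.1, abs_of_pos (by linarith [hu.2.2.1])]
    linarith [hu.2.1]
  · intro c hc hmem
    have h2 : 2 * (ε / 2) = ε := by ring
    rw [h2] at hmem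
    refine hball hmem ?_
    rw [Finset.mem_coe, hEdef, Finset.mem_union]
    left
    exact Finset.mem_image.mpr ⟨c, by
      rw [Multiset.mem_toFinset, Polynomial.mem_roots (derivative_ne hd)]; exact hc, rfl⟩
  · intro c hc hmem
    have h2 : 2 * (ε / 2) = ε := by ring
    rw [h2] at hmem
    refine hball hmem ?_
    rw [Finset.mem_coe, hEdef, Finset.mem_union]
    right
    exact Finset.mem_image.mpr ⟨c, by
      rw [Multiset.mem_toFinset, Polynomial.mem_roots (derivative_ne hd)]; exact hc, rfl⟩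

/-- Row ABS. -/
theorem abs (hE : ExcStatement) (hI : InvStatement) (hA : AreaStatement) : AbsStatement := by
  intro f P hd hP h
  obtain ⟨b, r, η, α, β, hα, hβ, hB⟩ := exists_box hE hI hd hP h
  refine ⟨α, β, Wset f P b r η α β, hα, hB.hαβ, hβ, Wset_zero hB, Wset_one hB,
    Wset_card hd hP hB, ?_⟩
  intro δ hδ
  obtain ⟨M, hM⟩ := Bset_card hA hd hP hB hδ
  refine ⟨M, Bset f P b r η α β δ, hM, ?_⟩
  intro n j hj hjB hjW t ht
  obtain ⟨g, hg⟩ := exists_univ hd hP hB n j hj hjW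
  refine osc_of_univ hd hB hg ?_ ht
  intro z hz z' hz'
  by_contra hlt
  rw [not_le] at hlt
  exact hjB (mem_Bset.mpr ⟨hj, g, hg, z, hz, z', hz', hlt.le⟩)

end Pool.Agent.Imp
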