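import Pool.Agent.Lib.MP_1c105c_an.Defs2

/-! MP_1c105c_an: row ABS2. -/

set_option autoImplicit false

open Filter Topology Set Polynomial

namespace Pool.Agent.Imp

theorem exists_rect {P : ℂ → ℂ} {t : ℝ} {z : ℂ} (h : HasLim P t z) {ε : ℝ} (hε : 0 < ε) :
    ∃ η : ℝ, 0 < η ∧ ∀ u ∈ Rect η t (t + η), P u ∈ Metric.ball z ε := by
  have hev := h.eventually (Metric.ball_mem_nhds z hε)
  rw [eventually_nhdsWithin_iff, Metric.eventually_nhds_iff] at hev
  obtain ⟨ε', hε', hev⟩ := hev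
  refine ⟨ε' / 2, by positivity, fun u hu => hev ?_ hu.1⟩
  rw [dist_eq_norm]
  refine (Complex.norm_le_abs_re_add_abs_im _).trans_lt ?_
  have h2 : (u - t * Complex.I).re = u.re := by simp
  have h3 : (u - t * Complex.I).im = u.im - t := by simp
  rw [h2, h3, abs_of_pos hu.1, abs_of_pos (by linarith [hu.2.2.1])]
  linarith [hu.2.1, hu.2.2.2]

theorem rect_mono {η η' α β α' β' : ℝ} (h : η' ≤ η) (h1 : α ≤ α') (h2 : β' ≤ β) :
    Rect η' α' β' ⊆ Rect η α β := fun _ hu =>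
  ⟨hu.1, hu.2.1.trans_le h, h1.trans_lt hu.2.2.1, hu.2.2.2.trans_le h2⟩

theorem exists_shift (hI : InvStatement) {f : ℂ[X]} {P : ℂ → ℂ} (hd : 2 ≤ f.natDegree)
    (hP : Half f P) {t : ℝ} {z : ℂ} (ht : HasLim P t z) :
    ∃ t₀ : ℝ, 0 ≤ t₀ ∧ t₀ < 1 ∧ HasLim P t₀ z := by
  obtain ⟨hI1, -, -, -, -⟩ := hI f P hd hP
  have hshift : ∀ (n : ℕ) (t : ℝ), HasLim P (t + n) z ↔ HasLim P t z := by
    intro n
    induction n with
    | zero => intro t; simp
    | succ n ih =>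
      intro t
      have : t + ((n + 1 : ℕ) : ℝ) = (t + n) + 1 := by push_cast; ring
      rw [this, hI1, ih]
  refine ⟨Int.fract t, Int.fract_nonneg t, Int.fract_lt_one t, ?_⟩
  rcases le_or_gt 0 ⌊t⌋ with h0 | h0
  · obtain ⟨n, hn⟩ := Int.eq_ofNat_of_zero_le h0
    have h1 : t = Int.fract t + n := by
      have := Int.floor_add_fract t
      rw [hn] at this
      simp only [Int.cast_natCast] at this
      linarith
    rw [h1] at ht
    exact (hshift n _).mp ht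
  · obtain ⟨n, hn⟩ := Int.eq_ofNat_of_zero_le (by omega : 0 ≤ -⌊t⌋)
    have h1 : Int.fract t = t + n := by
      have h2 := Int.floor_add_fract t
      have h3 : (-⌊t⌋ : ℤ) = (n : ℤ) := hn
      have h4 : -(⌊t⌋ : ℝ) = (n : ℝ) := by exact_mod_cast h3
      linarith
    rw [h1]
    exact (hshift n t).mpr ht

section
variable {f : ℂ[X]} {P : ℂ → ℂ} {b : ℂ} {r η α β : ℝ}

theorem univ_nhds (hd : 2 ≤ f.natDegree) (hη : 0 < η) {n j : ℕ} {g : ℂ → ℂ}
    (hg : Univ f P b r η α β n j g) {t : ℝ} (ht : t ∈ Set.Ioo α β) :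
    ∃ N ∈ 𝓝 ((((t + j) / f.natDegree ^ n : ℝ) : ℂ) * Complex.I), ∀ v ∈ N ∩ HP,
      ∃ u ∈ Rect η α β, P v = g (P u) := by
  have hne0 : (f.natDegree : ℂ) ≠ 0 := by exact_mod_cast (by omega : f.natDegree ≠ 0)
  have hne : (f.natDegree : ℂ) ^ n ≠ 0 := pow_ne_zero _ hne0
  have hpos : (0 : ℝ) < (f.natDegree : ℝ) ^ n := by
    have : (0 : ℝ) < f.natDegree := by exact_mod_cast (by omega : 0 < f.natDegree)
    positivity
  set N : Set ℂ := {v | ((f.natDegree : ℂ) ^ n * v - j * Complex.I).re < η ∧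
    α < ((f.natDegree : ℂ) ^ n * v - j * Complex.I).im ∧
    ((f.natDegree : ℂ) ^ n * v - j * Complex.I).im < β} with hN
  have hNo : IsOpen N := by
    have hc : Continuous fun v : ℂ => (f.natDegree : ℂ) ^ n * v - j * Complex.I := by fun_prop
    exact ((isOpen_lt (Complex.continuous_re.comp hc) continuous_const).inter
      ((isOpen_lt continuous_const (Complex.continuous_im.comp hc)).inter
        (isOpen_lt (Complex.continuous_im.comp hc) continuous_const)))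
  have hmem : (((t + j) / f.natDegree ^ n : ℝ) : ℂ) * Complex.I ∈ N := by
    have h1 : (f.natDegree : ℂ) ^ n * ((((t + j) / f.natDegree ^ n : ℝ) : ℂ) * Complex.I) -
        j * Complex.I = t * Complex.I := by
      push_cast
      field_simp
      ring
    rw [hN, Set.mem_ofPred_eq, h1]
    refine ⟨?_, ?_, ?_⟩
    · simpa using hη
    · simpa using ht.1
    · simpa using ht.2
  refine ⟨N, hNo.mem_nhds hmem, ?_⟩
  rintro v ⟨hv, hv0⟩
  have hu : (f.natDegree : ℂ) ^ n * v - j * Complex.I ∈ Rect η α β := by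
    refine ⟨?_, hv⟩
    have h2 : ((f.natDegree : ℂ) ^ n * v - j * Complex.I).re = (f.natDegree : ℝ) ^ n * v.re := by
      have h3 : (f.natDegree : ℂ) ^ n = (((f.natDegree : ℝ) ^ n : ℝ) : ℂ) := by push_cast; rfl
      rw [h3, Complex.sub_re, Complex.re_ofReal_mul]
      simp
    rw [h2]
    exact mul_pos hpos hv0
  refine ⟨(f.natDegree : ℂ) ^ n * v - j * Complex.I, hu, ?_⟩
  rw [hg.2.2 _ hu]
  congr 1
  field_simp
  ring

theorem julia_iterate (hJ2 : ∀ w, f.eval w ∈ julia f ↔ w ∈ julia f) (n : ℕ) (w : ℂ) :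
    (fun w => f.eval w)^[n] w ∈ julia f ↔ w ∈ julia f := by
  induction n generalizing w with
  | zero => simp
  | succ n ih => rw [Function.iterate_succ_apply, ih, hJ2]

theorem loc_of_univ (hd : 2 ≤ f.natDegree) (hη : 0 < η)
    (hJ2 : ∀ w, f.eval w ∈ julia f ↔ w ∈ julia f)
    {δ : ℝ} {n j : ℕ} {g : ℂ → ℂ} (hg : Univ f P b r η α β n j g)
    {z₁ : ℂ} {ρ : ℝ} {E : Set ℂ} (hρ : 0 < ρ) (hb : Metric.ball z₁ (2 * ρ) ⊆ Metric.ball b r)
    (hr : 0 < r)
    (hmaps : ∀ u ∈ Rect η α β, P u ∈ Metric.ball z₁ ρ) (hE : E ⊆ Metric.ball b r)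
    (hEc : IsPreconnected E) (hEJ : E ⊆ julia f) (hJE : Metric.ball z₁ (2 * ρ) ∩ julia f ⊆ E)
    (hs : ∀ z ∈ Metric.ball b r, ∀ z' ∈ Metric.ball b r, ‖g z - g z'‖ ≤ δ)
    {t : ℝ} (ht : t ∈ Set.Ioo α β) : Loc f P δ ((t + j) / f.natDegree ^ n) := by
  obtain ⟨N, hN, hNP⟩ := univ_nhds hd hη hg ht
  have hbr : Metric.ball b r ⊆ Metric.ball b (2 * r) := ball_sub hr
  have hcl : Metric.closedBall z₁ ρ ⊆ Metric.ball z₁ (2 * ρ) :=
    Metric.closedBall_subset_ball (by linarith)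
  have hanal : AnalyticOnNhd ℂ g (Metric.ball b (2 * r)) :=
    hg.1.analyticOnNhd Metric.isOpen_ball
  have hopen : IsOpen (g '' Metric.ball z₁ (2 * ρ)) := by
    rcases hanal.is_constant_or_isOpen (convex_ball b (2 * r)).isPreconnected with ⟨w, hw⟩ | h
    · exfalso
      have h1 : b ∈ Metric.ball b (2 * r) := Metric.mem_ball_self (by linarith)
      have h2 : b + r ∈ Metric.ball b (2 * r) := by
        rw [Metric.mem_ball, dist_eq_norm]
        simp only [add_sub_cancel_left, Complex.norm_real, Real.norm_eq_abs, abs_of_pos hr]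
        linarith
      have h3 := hg.2.1 b h1
      have h4 := hg.2.1 (b + r) h2
      rw [hw b h1] at h3
      rw [hw (b + r) h2, h3] at h4
      have h5 : (r : ℂ) = 0 := by linear_combination -h4
      exact hr.ne' (by exact_mod_cast h5)
    · exact h _ (hb.trans hbr) Metric.isOpen_ball
  refine ⟨N, hN, g '' Metric.ball z₁ (2 * ρ), g '' Metric.closedBall z₁ ρ, g '' E, hopen,
    ?_, image_mono hcl, ?_, ?_, ?_, ?_, ?_, ?_⟩
  · exact (isCompact_closedBall z₁ ρ).image_of_continuousOn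
      (hg.1.continuousOn.mono (hcl.trans (hb.trans hbr)))
  · intro v hv
    obtain ⟨u, hu, h1⟩ := hNP v hv
    rw [h1]
    exact ⟨P u, Metric.ball_subset_closedBall (hmaps u hu), rfl⟩
  · rintro _ ⟨y, hy, rfl⟩ _ ⟨y', hy', rfl⟩
    exact hs y (hb (hcl hy)) y' (hb (hcl hy'))
  · exact hEc.image g (hg.1.continuousOn.mono (hE.trans hbr))
  · rintro _ ⟨y, hy, rfl⟩
    rw [← julia_iterate hJ2 n, hg.2.1 y (hbr (hE hy))]
    exact hEJ hy
  · rintro _ ⟨⟨y, hy, rfl⟩, hyJ⟩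
    rw [← julia_iterate hJ2 n, hg.2.1 y (hbr (hb hy))] at hyJ
    exact ⟨y, hJE ⟨hy, hyJ⟩, rfl⟩
  · rintro _ ⟨y, hy, rfl⟩ _ ⟨y', hy', rfl⟩
    exact hs y (hE hy) y' (hE hy')

end

/-- Row ABS2. -/
theorem abs2 (hE : ExcStatement) (hI : InvStatement) (hA : AreaStatement) (hJ : JulStatement)
    (hX : ExaStatement) (hN : IntStatement) : Abs2Statement := by
  classical
  intro f P hd hP hinf hex hden
  obtain ⟨-, -, hJ2, -, hJ5⟩ := hJ f P hd hP
  -- the first box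
  obtain ⟨t, z, ht, hz⟩ := hE f P hd hP hex
    (f.derivative.roots.toFinset.image (fun c => f.eval c) ∪
      f.derivative.roots.toFinset.image (fun c => f.eval (f.eval c)))
  set E := f.derivative.roots.toFinset.image (fun c => f.eval c) ∪
      f.derivative.roots.toFinset.image (fun c => f.eval (f.eval c)) with hEdef
  have hEc : (↑E : Set ℂ)ᶜ ∈ 𝓝 z :=
    (E.finite_toSet.isClosed.isOpen_compl).mem_nhds (by simpa using hz)
  obtain ⟨ε, hε, hball⟩ := Metric.mem_nhds_iff.mp hEc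
  obtain ⟨r, hr, hεr⟩ : ∃ r : ℝ, 0 < r ∧ 2 * r = ε := ⟨ε / 2, by positivity, by ring⟩
  have hcr : ∀ c, f.derivative.eval c = 0 → c ∈ f.derivative.roots.toFinset := by
    intro c hc
    rw [Multiset.mem_toFinset, Polynomial.mem_roots (derivative_ne hd)]
    exact hc
  have hcrit₁ : ∀ c, f.derivative.eval c = 0 → f.eval c ∉ Metric.ball z (2 * r) := by
    intro c hc hmem
    rw [hεr] at hmem
    refine hball hmem ?_
    rw [Finset.mem_coe, hEdef, Finset.mem_union]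
    exact Or.inl (Finset.mem_image.mpr ⟨c, hcr c hc, rfl⟩)
  have hcrit₂ : ∀ c, f.derivative.eval c = 0 → f.eval (f.eval c) ∉ Metric.ball z (2 * r) := by
    intro c hc hmem
    rw [hεr] at hmem
    refine hball hmem ?_
    rw [Finset.mem_coe, hEdef, Finset.mem_union]
    exact Or.inr (Finset.mem_image.mpr ⟨c, hcr c hc, rfl⟩)
  obtain ⟨η, hη, hrect⟩ := exists_rect ht (by positivity : 0 < r / 2)
  -- the continuum
  obtain ⟨hXc, hXp, hXJ, hXe⟩ := hX f P hd hP hinf t (t + η) (by linarith)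
  have hEA : EA P t (t + η) ⊆ Metric.closedBall z (r / 2) := by
    obtain ⟨k, hk⟩ := exists_nat_one_div_lt hη
    refine (iInter_subset _ k).trans (closure_minimal ?_ Metric.isClosed_closedBall)
    rintro _ ⟨u, hu, rfl⟩
    exact Metric.ball_subset_closedBall (hrect u (rect_mono hk.le le_rfl le_rfl hu))
  have hEAb : EA P t (t + η) ⊆ Metric.ball z r :=
    hEA.trans (Metric.closedBall_subset_ball (by linarith))
  have hdR : (1 : ℝ) < f.natDegree := by exact_mod_cast (by omega : 1 < f.natDegree)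
  obtain ⟨n, hn⟩ : ∃ n : ℕ, 1 < (f.natDegree : ℝ) ^ n * (t + η - t) := by
    obtain ⟨n, hn⟩ := pow_unbounded_of_one_lt (1 / η) hdR
    refine ⟨n, ?_⟩
    rw [add_sub_cancel_left]
    rwa [div_lt_iff₀ hη] at hn
  have hev : ∀ w, (f.comp^[n] X).eval w = (fun w => f.eval w)^[n] w := by
    intro w
    rw [Polynomial.iterate_comp_eval]
    simp
  have hdegF : 1 ≤ (f.comp^[n] X).natDegree := by
    rw [Polynomial.natDegree_iterate_comp, natDegree_X, mul_one]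
    exact Nat.one_le_pow _ _ (by omega)
  have hderF : (f.comp^[n] X).derivative ≠ 0 := by
    intro h0
    have := Polynomial.derivative_eq_zero.mp h0
    omega
  obtain ⟨O₂, hO₂, ⟨x₂, hx₂⟩, hO₂E⟩ := hN (f.comp^[n] X) (julia f) (EA P t (t + η)) hdegF
    (fun w => by rw [hev, julia_iterate hJ2]) hXc.isClosed
    (fun y hy => by
      obtain ⟨x, hx, hxy⟩ := hXe n hn hy
      exact ⟨x, hx, by rw [hev]; exact hxy⟩)
    (by
      obtain ⟨t', y, hy, hyE⟩ := hE f P hd hP hex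
        ((f.comp^[n] X).derivative.roots.toFinset.image (fun c => (f.comp^[n] X).eval c))
      refine ⟨y, hJ5 t' y hy, fun c hc h => hyE (Finset.mem_image.mpr ⟨c, ?_, h⟩)⟩
      rw [Multiset.mem_toFinset, Polynomial.mem_roots hderF]
      exact hc)
  -- the second box
  obtain ⟨t₁', z₁, ht₁', hz₁⟩ := hden O₂ hO₂ ⟨x₂, hx₂⟩
  obtain ⟨t₁, ht0, ht1, ht₁⟩ := exists_shift hI hd hP ht₁'
  have hz₁E : z₁ ∈ EA P t (t + η) := hO₂E ⟨hz₁, hJ5 _ _ ht₁⟩
  obtain ⟨ρ', hρ', hρb⟩ := Metric.mem_nhds_iff.mp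
    ((hO₂.inter Metric.isOpen_ball).mem_nhds ⟨hz₁, hEAb hz₁E⟩)
  obtain ⟨ρ, hρ, hρρ⟩ : ∃ ρ : ℝ, 0 < ρ ∧ 2 * ρ = ρ' := ⟨ρ' / 2, by positivity, by ring⟩
  rw [← hρρ] at hρb
  obtain ⟨η₁, hη₁, hrect₁⟩ := exists_rect ht₁ hρ
  set β₁ := min 1 (t₁ + η₁) with hβ₁
  have hmaps : ∀ u ∈ Rect η₁ t₁ β₁, P u ∈ Metric.ball z₁ ρ := fun u hu =>
    hrect₁ u (rect_mono le_rfl le_rfl (min_le_right _ _) hu)
  have hbb : Metric.ball z₁ (2 * ρ) ⊆ Metric.ball z r := fun x hx => (hρb hx).2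
  have hB : Box f P z r η₁ t₁ β₁ :=
    ⟨hr, hη₁, lt_min ht1 (by linarith), fun u hu =>
      hbb (Metric.ball_subset_ball (by linarith) (hmaps u hu)), hcrit₁, hcrit₂⟩
  refine ⟨t₁, β₁, Wset f P z r η₁ t₁ β₁, ht0, hB.hαβ, min_le_left _ _, Wset_zero hB,
    Wset_one hB, Wset_card hd hP hB, ?_⟩
  intro δ hδ
  obtain ⟨M, hM⟩ := Bset_card hA hd hP hB hδ
  refine ⟨M, Bset f P z r η₁ t₁ β₁ δ, hM, ?_⟩
  intro n j hj hjB hjW s hs
  obtain ⟨g, hg⟩ := exists_univ hd hP hB n j hj hjW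
  refine loc_of_univ hd hη₁ hJ2 hg hρ hbb hr hmaps hEAb hXp hXJ
    (fun x hx => hO₂E ⟨(hρb hx.1).1, hx.2⟩) ?_ hs
  intro y hy y' hy'
  by_contra hlt
  rw [not_le] at hlt
  exact hjB (mem_Bset.mpr ⟨hj, g, hg, y, hy, y', hy', hlt.le⟩)

end Pool.Agent.Imp
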