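import Pool.Agent.Lib.MP_1c105c_an.Defs

/-! Row INV: invariance of the limits at the boundary. -/

set_option autoImplicit false

open Filter Topology Set Polynomial

namespace Pool.Agent.Imp

namespace Inv

theorem tend {φ : ℂ → ℂ} (hc : Continuous φ) (hm : MapsTo φ HP HP) {a b : ℂ} (hab : φ a = b) :
    Tendsto φ (𝓝[HP] a) (𝓝[HP] b) := by
  subst hab
  exact hc.continuousWithinAt.tendsto_nhdsWithin hm

theorem lim_shift {P : ℂ → ℂ} (hper : ∀ u, P (u + Complex.I) = P u) (t : ℝ) (z : ℂ) :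
    HasLim P (t + 1) z ↔ HasLim P t z := by
  constructor
  · intro h
    have h1 : Tendsto (fun u : ℂ => u + Complex.I) (𝓝[HP] ((t : ℂ) * Complex.I))
        (𝓝[HP] (((t + 1 : ℝ) : ℂ) * Complex.I)) := by
      refine tend (by fun_prop) ?_ ?_
      · intro u hu
        have hu' : 0 < u.re := hu
        change 0 < (u + Complex.I).re
        simpa using hu'
      · push_cast
        ring
    exact (h.comp h1).congr fun u => hper u
  · intro h
    have h1 : Tendsto (fun u : ℂ => u - Complex.I) (𝓝[HP] (((t + 1 : ℝ) : ℂ) * Complex.I))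
        (𝓝[HP] ((t : ℂ) * Complex.I)) := by
      refine tend (by fun_prop) ?_ ?_
      · intro u hu
        have hu' : 0 < u.re := hu
        change 0 < (u - Complex.I).re
        simpa using hu'
      · push_cast
        ring
    refine (Tendsto.comp h h1).congr fun u => ?_
    change P (u - Complex.I) = P u
    rw [← hper (u - Complex.I), sub_add_cancel]

theorem osc_shift {P : ℂ → ℂ} (hper : ∀ u, P (u + Complex.I) = P u) (δ t : ℝ) :
    Osc P δ (t + 1) ↔ Osc P δ t := by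
  constructor
  · rintro ⟨N, hN, h⟩
    refine ⟨(fun u : ℂ => u + Complex.I) ⁻¹' N, ?_, ?_⟩
    · refine (show Continuous fun u : ℂ => u + Complex.I by fun_prop).continuousAt.preimage_mem_nhds
        ?_
      convert hN using 2
      push_cast
      ring
    · rintro u ⟨hu1, hu2⟩ v ⟨hv1, hv2⟩
      rw [← hper u, ← hper v]
      refine h _ ⟨hu1, ?_⟩ _ ⟨hv1, ?_⟩
      · have h0 : 0 < u.re := hu2
        change 0 < (u + Complex.I).re
        simpa using h0
      · have h0 : 0 < v.re := hv2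
        change 0 < (v + Complex.I).re
        simpa using h0
  · rintro ⟨N, hN, h⟩
    refine ⟨(fun u : ℂ => u - Complex.I) ⁻¹' N, ?_, ?_⟩
    · refine (show Continuous fun u : ℂ => u - Complex.I by fun_prop).continuousAt.preimage_mem_nhds
        ?_
      convert hN using 2
      push_cast
      ring
    · rintro u ⟨hu1, hu2⟩ v ⟨hv1, hv2⟩
      rw [← sub_add_cancel u Complex.I, ← sub_add_cancel v Complex.I, hper, hper]
      refine h _ ⟨hu1, ?_⟩ _ ⟨hv1, ?_⟩
      · have h0 : 0 < u.re := hu2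
        change 0 < (u - Complex.I).re
        simpa using h0
      · have h0 : 0 < v.re := hv2
        change 0 < (v - Complex.I).re
        simpa using h0

theorem lim_mul {f : ℂ[X]} {P : ℂ → ℂ} (hf : 2 ≤ f.natDegree) (hP : Half f P) (t : ℝ) (z : ℂ)
    (h : HasLim P t z) : HasLim P (f.natDegree * t) (f.eval z) := by
  have hd : (0 : ℝ) < (f.natDegree : ℝ) := by exact_mod_cast (by omega : 0 < f.natDegree)
  have hdc : (f.natDegree : ℂ) ≠ 0 := by exact_mod_cast hd.ne'
  have hm : ∀ u ∈ HP, u / (f.natDegree : ℂ) ∈ HP := by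
    intro u hu
    change 0 < (u / (f.natDegree : ℂ)).re
    rw [Complex.div_natCast_re]
    exact div_pos hu hd
  have h1 : Tendsto (fun u : ℂ => u / (f.natDegree : ℂ))
      (𝓝[HP] (((f.natDegree * t : ℝ) : ℂ) * Complex.I)) (𝓝[HP] ((t : ℂ) * Complex.I)) := by
    refine tend (by fun_prop) hm ?_
    push_cast
    field_simp
  have h2 : Tendsto (fun u => f.eval (P (u / (f.natDegree : ℂ))))
      (𝓝[HP] (((f.natDegree * t : ℝ) : ℂ) * Complex.I)) (𝓝 (f.eval z)) :=
    (f.continuous.tendsto z).comp (h.comp h1)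
  refine h2.congr' ?_
  filter_upwards [self_mem_nhdsWithin] with u hu
  rw [hP.semi _ (hm u hu), mul_div_cancel₀ _ hdc]

theorem prod_ge {ε : ℝ} (hε : 0 < ε) (w : ℂ) (s : Multiset ℂ) (h : ∀ a ∈ s, ε ≤ ‖w - a‖) :
    ε ^ (Multiset.card s) ≤ (s.map fun a => ‖w - a‖).prod := by
  induction s using Multiset.induction_on with
  | empty => simp
  | cons a s ih =>
    rw [Multiset.card_cons, Multiset.map_cons, Multiset.prod_cons, pow_succ, mul_comm]
    exact mul_le_mul (h a (Multiset.mem_cons_self a s))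
      (ih fun b hb => h b (Multiset.mem_cons_of_mem hb)) (by positivity) (norm_nonneg _)

theorem eval_norm (g : ℂ[X]) (w : ℂ) :
    ‖g.eval w‖ = ‖g.leadingCoeff‖ * (g.roots.map fun a => ‖w - a‖).prod := by
  have h := (IsAlgClosed.splits g).eq_prod_roots
  conv_lhs => rw [h]
  rw [eval_mul, eval_C, eval_multiset_prod, norm_mul, Multiset.map_map]
  congr 1
  have : ∀ s : Multiset ℂ, ‖(s.map ((fun p : ℂ[X] => p.eval w) ∘ fun a => X - C a)).prod‖ =
      (s.map fun a => ‖w - a‖).prod := by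
    intro s
    induction s using Multiset.induction_on with
    | empty => simp
    | cons a s ih =>
      rw [Multiset.map_cons, Multiset.prod_cons, norm_mul, ih, Multiset.map_cons,
        Multiset.prod_cons]
      simp
  exact this _

/-- near a root -/
theorem near_root {f : ℂ[X]} (hf : 2 ≤ f.natDegree) (z : ℂ) {ε : ℝ} (hε : 0 < ε) :
    ∃ η : ℝ, 0 < η ∧ ∀ w : ℂ, ‖f.eval w - z‖ < η →
      ∃ a, f.eval a = z ∧ a ∈ (f - C z).roots.toFinset ∧ ‖w - a‖ < ε := by
  have hg : (f - C z) ≠ 0 := by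
    intro h
    have := congrArg natDegree h
    rw [natDegree_sub_C, natDegree_zero] at this
    omega
  have hl : 0 < ‖(f - C z).leadingCoeff‖ := norm_pos_iff.2 (leadingCoeff_ne_zero.2 hg)
  refine ⟨‖(f - C z).leadingCoeff‖ * ε ^ (Multiset.card (f - C z).roots), by positivity, ?_⟩
  intro w hw
  by_contra hcon
  have h1 : ∀ a ∈ (f - C z).roots, ε ≤ ‖w - a‖ := by
    intro a ha
    by_contra h
    push Not at h
    refine hcon ⟨a, ?_, Multiset.mem_toFinset.2 ha, h⟩
    have := (mem_roots hg).1 ha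
    rw [IsRoot.def, eval_sub, eval_C] at this
    exact sub_eq_zero.1 this
  have h2 := prod_ge hε w _ h1
  have h3 := eval_norm (f - C z) w
  rw [eval_sub, eval_C] at h3
  rw [h3] at hw
  exact absurd hw (not_lt.2 (mul_le_mul_of_nonneg_left h2 hl.le))

/-- a finite set is separated -/
theorem sep (Z : Finset ℂ) : ∃ ε : ℝ, 0 < ε ∧ ∀ a ∈ Z, ∀ b ∈ Z, a ≠ b → 2 * ε ≤ ‖a - b‖ := by
  classical
  by_cases hS : ((Z ×ˢ Z).filter fun p => p.1 ≠ p.2).Nonempty
  · obtain ⟨p, hp, hmin⟩ := Finset.exists_min_image _ (fun p : ℂ × ℂ => ‖p.1 - p.2‖) hS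
    have hp2 := (Finset.mem_filter.1 hp).2
    refine ⟨‖p.1 - p.2‖ / 2, half_pos (norm_pos_iff.2 (sub_ne_zero.2 hp2)), ?_⟩
    intro a ha b hb hab
    have := hmin (a, b) (Finset.mem_filter.2 ⟨Finset.mem_product.2 ⟨ha, hb⟩, hab⟩)
    linarith
  · refine ⟨1, one_pos, fun a ha b hb hab => ?_⟩
    exact absurd ⟨(a, b), Finset.mem_filter.2 ⟨Finset.mem_product.2 ⟨ha, hb⟩, hab⟩⟩ hS

theorem bdy_mem_closure (t : ℝ) : (t : ℂ) * Complex.I ∈ closure HP := by
  rw [Metric.mem_closure_iff]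
  intro ε hε
  refine ⟨(t : ℂ) * Complex.I + ((ε / 2 : ℝ) : ℂ), ?_, ?_⟩
  · change 0 < ((t : ℂ) * Complex.I + ((ε / 2 : ℝ) : ℂ)).re
    simp
    exact hε
  · rw [dist_eq_norm, sub_add_cancel_left, norm_neg, Complex.norm_real, Real.norm_eq_abs,
      abs_of_pos (half_pos hε)]
    linarith

theorem convex_HP : Convex ℝ HP := convex_halfSpace_re_gt 0

theorem lim_div {f : ℂ[X]} {P : ℂ → ℂ} (hf : 2 ≤ f.natDegree) (hP : Half f P) (t : ℝ) (z : ℂ)
    (h : HasLim P (f.natDegree * t) z) : ∃ z', f.eval z' = z ∧ HasLim P t z' := by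
  have hd : (0 : ℝ) < (f.natDegree : ℝ) := by exact_mod_cast (by omega : 0 < f.natDegree)
  have hm : ∀ u ∈ HP, (f.natDegree : ℂ) * u ∈ HP := by
    intro u hu
    have hu' : 0 < u.re := hu
    change 0 < ((f.natDegree : ℂ) * u).re
    have e : ((f.natDegree : ℂ) * u).re = (f.natDegree : ℝ) * u.re := by simp
    rw [e]
    exact mul_pos hd hu'
  have h1 : Tendsto (fun u : ℂ => (f.natDegree : ℂ) * u) (𝓝[HP] ((t : ℂ) * Complex.I))
      (𝓝[HP] (((f.natDegree * t : ℝ) : ℂ) * Complex.I)) := by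
    refine tend (by fun_prop) hm ?_
    push_cast
    ring
  have h2 : Tendsto (fun u => f.eval (P u)) (𝓝[HP] ((t : ℂ) * Complex.I)) (𝓝 z) := by
    refine (Tendsto.comp h h1).congr' ?_
    filter_upwards [self_mem_nhdsWithin] with u hu
    exact (hP.semi u hu).symm
  -- small half balls are mapped near the roots
  have key : ∀ ε : ℝ, 0 < ε → ∃ r : ℝ, 0 < r ∧
      ∀ u ∈ Metric.ball ((t : ℂ) * Complex.I) r ∩ HP,
        ∃ a, f.eval a = z ∧ a ∈ (f - C z).roots.toFinset ∧ ‖P u - a‖ < ε := by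
    intro ε hε
    obtain ⟨η, hη, hnear⟩ := near_root hf z hε
    have h3 := h2.eventually (Metric.ball_mem_nhds z hη)
    rw [eventually_iff, Metric.mem_nhdsWithin_iff] at h3
    obtain ⟨r, hr, hr2⟩ := h3
    refine ⟨r, hr, fun u hu => hnear _ ?_⟩
    have := hr2 hu
    change dist (f.eval (P u)) z < η at this
    rwa [dist_eq_norm] at this
  obtain ⟨ε, hε, hsep⟩ := sep (f - C z).roots.toFinset
  obtain ⟨r, hr, hr2⟩ := key ε hε
  have hne : (Metric.ball ((t : ℂ) * Complex.I) r ∩ HP).Nonempty := by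
    obtain ⟨u, hu, hd'⟩ := Metric.mem_closure_iff.1 (bdy_mem_closure t) r hr
    exact ⟨u, by rw [Metric.mem_ball, dist_comm]; exact hd', hu⟩
  obtain ⟨u₀, hu₀⟩ := hne
  obtain ⟨a, ha1, ha2, ha3⟩ := hr2 u₀ hu₀
  have hconn : IsPreconnected (P '' (Metric.ball ((t : ℂ) * Complex.I) r ∩ HP)) := by
    refine IsPreconnected.image ?_ P ?_
    · exact ((convex_ball _ _).inter convex_HP).isPreconnected
    · exact hP.diff.continuousOn.mono inter_subset_right
  have hsub : P '' (Metric.ball ((t : ℂ) * Complex.I) r ∩ HP) ⊆ Metric.ball a ε := by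
    refine IsPreconnected.subset_left_of_subset_union Metric.isOpen_ball
      (v := ⋃ b ∈ {b | b ∈ (f - C z).roots.toFinset ∧ b ≠ a}, Metric.ball b ε)
      (isOpen_biUnion fun _ _ => Metric.isOpen_ball) ?_ ?_ ?_ hconn
    · rw [Set.disjoint_left]
      intro w hw hw2
      simp only [mem_iUnion] at hw2
      obtain ⟨b, ⟨hb1, hb2⟩, hwb⟩ := hw2
      have := hsep a ha2 b hb1 hb2.symm
      rw [Metric.mem_ball, dist_eq_norm] at hw hwb
      have h4 : ‖a - b‖ ≤ ‖w - a‖ + ‖w - b‖ := by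
        calc ‖a - b‖ = ‖(w - b) - (w - a)‖ := by ring_nf
          _ ≤ ‖w - b‖ + ‖w - a‖ := norm_sub_le _ _
          _ = _ := add_comm _ _
      linarith
    · rintro _ ⟨u, hu, rfl⟩
      obtain ⟨b, -, hb2, hb3⟩ := hr2 u hu
      by_cases hba : b = a
      · left
        rw [Metric.mem_ball, dist_eq_norm, ← hba]
        exact hb3
      · right
        simp only [mem_iUnion]
        exact ⟨b, ⟨hb2, hba⟩, by rw [Metric.mem_ball, dist_eq_norm]; exact hb3⟩
    · exact ⟨P u₀, ⟨u₀, hu₀, rfl⟩, by rw [Metric.mem_ball, dist_eq_norm]; exact ha3⟩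
  refine ⟨a, ha1, ?_⟩
  change Tendsto P (𝓝[HP] ((t : ℂ) * Complex.I)) (𝓝 a)
  rw [Metric.tendsto_nhdsWithin_nhds]
  intro ε' hε'
  obtain ⟨r', hr', hr2'⟩ := key (min ε ε') (lt_min hε hε')
  refine ⟨min r r', lt_min hr hr', fun u hu hdu => ?_⟩
  have hu1 : u ∈ Metric.ball ((t : ℂ) * Complex.I) r ∩ HP :=
    ⟨by rw [Metric.mem_ball]; exact hdu.trans_le (min_le_left _ _), hu⟩
  have hu2 : u ∈ Metric.ball ((t : ℂ) * Complex.I) r' ∩ HP :=
    ⟨by rw [Metric.mem_ball]; exact hdu.trans_le (min_le_right _ _), hu⟩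
  obtain ⟨b, -, hb2, hb3⟩ := hr2' u hu2
  have h5 : ‖P u - a‖ < ε := by
    have := hsub ⟨u, hu1, rfl⟩
    rwa [Metric.mem_ball, dist_eq_norm] at this
  have hba : b = a := by
    by_contra hba
    have := hsep a ha2 b hb2 (Ne.symm hba)
    have h4 : ‖a - b‖ ≤ ‖P u - a‖ + ‖P u - b‖ := by
      calc ‖a - b‖ = ‖(P u - b) - (P u - a)‖ := by ring_nf
        _ ≤ ‖P u - b‖ + ‖P u - a‖ := norm_sub_le _ _
        _ = _ := add_comm _ _
    have h6 := hb3.trans_le (min_le_left ε ε')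
    linarith
  rw [dist_eq_norm, ← hba]
  exact hb3.trans_le (min_le_right _ _)

theorem lim_iff (P : ℂ → ℂ) (t : ℝ) :
    (∃ z, HasLim P t z) ↔ ∀ δ : ℝ, 0 < δ → Osc P δ t := by
  haveI : NeBot (𝓝[HP] ((t : ℂ) * Complex.I)) := mem_closure_iff_nhdsWithin_neBot.1
    (bdy_mem_closure t)
  constructor
  · rintro ⟨z, hz⟩ δ hδ
    have h1 := hz.eventually (Metric.ball_mem_nhds z (half_pos hδ))
    rw [eventually_iff, mem_nhdsWithin_iff_exists_mem_nhds_inter] at h1
    obtain ⟨N, hN, hN2⟩ := h1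
    refine ⟨N, hN, fun u hu v hv => ?_⟩
    have h2 := hN2 hu
    have h3 := hN2 hv
    change dist (P u) z < δ / 2 at h2
    change dist (P v) z < δ / 2 at h3
    rw [dist_eq_norm] at h2 h3
    calc ‖P u - P v‖ = ‖(P u - z) - (P v - z)‖ := by ring_nf
      _ ≤ ‖P u - z‖ + ‖P v - z‖ := norm_sub_le _ _
      _ ≤ δ := by linarith
  · intro h
    refine (cauchy_map_iff_exists_tendsto).1 ?_
    rw [Metric.cauchy_iff]
    refine ⟨inferInstance, fun ε hε => ?_⟩
    obtain ⟨N, hN, hN2⟩ := h (ε / 2) (half_pos hε)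
    refine ⟨P '' (N ∩ HP), image_mem_map (inter_mem (mem_nhdsWithin_of_mem_nhds hN) self_mem_nhdsWithin), ?_⟩
    rintro _ ⟨u, hu, rfl⟩ _ ⟨v, hv, rfl⟩
    rw [dist_eq_norm]
    exact (hN2 u hu v hv).trans_lt (half_lt_self hε)

end Inv

/-- Row INV. -/
theorem inv : InvStatement := by
  intro f P hf hP
  exact ⟨fun t z => Inv.lim_shift hP.per t z, fun δ t => Inv.osc_shift hP.per δ t,
    fun t z h => Inv.lim_mul hf hP t z h, fun t z h => Inv.lim_div hf hP t z h,
    fun t => Inv.lim_iff P t⟩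

end Pool.Agent.Imp
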