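import Pool.Agent.Lib.MP_1c105c_an.Defs8

/-! MP_1c105c_an, row SEP: many separated cells. -/

set_option autoImplicit false

open Filter Topology Set Polynomial

namespace Pool.Agent.Imp

namespace Sep27

/-- the image of a half line under a proper map is closed -/
theorem closed_ray {g : ℝ → ℂ} {s₂ : ℝ} (hg : ContinuousOn g (Set.Ici s₂))
    (hinf : ∀ R : ℝ, ∃ M : ℝ, ∀ s, M ≤ s → R ≤ ‖g s‖) : IsClosed (g '' Set.Ici s₂) := by
  refine isClosed_of_closure_subset fun z hz => ?_
  obtain ⟨M, hM⟩ := hinf (‖z‖ + 1)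
  have h1 : z ∈ closure (g '' Set.Icc s₂ M) := by
    rw [Metric.mem_closure_iff] at hz ⊢
    intro ε hε
    obtain ⟨_, ⟨s, hs, rfl⟩, hd⟩ := hz (min ε 1) (lt_min hε one_pos)
    refine ⟨g s, ⟨s, ⟨hs, ?_⟩, rfl⟩, hd.trans_le (min_le_left _ _)⟩
    by_contra h
    push Not at h
    have h2 := hM s h.le
    have h3 : dist z (g s) < 1 := hd.trans_le (min_le_right _ _)
    rw [dist_comm, dist_eq_norm] at h3
    have h4 := norm_sub_norm_le (g s) z
    linarith
  have h2 : IsClosed (g '' Set.Icc s₂ M) :=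
    (isCompact_Icc.image_of_continuousOn (hg.mono fun s hs => hs.1)).isClosed
  exact Set.image_mono (fun s hs => hs.1) (h2.closure_subset h1)

section

variable {f : ℂ[X]} {P : ℂ → ℂ}

theorem per_nat (hH : Half f P) (j : ℕ) (u : ℂ) : P (u + j * Complex.I) = P u := by
  induction j with
  | zero => simp
  | succ j ih =>
    have h1 : u + ((j + 1 : ℕ) : ℂ) * Complex.I = (u + j * Complex.I) + Complex.I := by
      push_cast; ring
    rw [h1, hH.per, ih]

theorem semi_iter (hd : 2 ≤ f.natDegree) (hH : Half f P) (m : ℕ) :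
    ∀ u ∈ HP, (fun w => f.eval w)^[m] (P u) = P ((f.natDegree : ℂ) ^ m * u) := by
  induction m with
  | zero => intro u _; simp
  | succ m ih =>
    intro u hu
    rw [Function.iterate_succ_apply]
    have h1 : (f.natDegree : ℂ) * u ∈ HP := by
      change 0 < ((f.natDegree : ℂ) * u).re
      have h2 : ((f.natDegree : ℂ) * u).re = f.natDegree * u.re := by simp
      rw [h2]
      have h3 : 0 < u.re := hu
      positivity
    change (fun w => f.eval w)^[m] (f.eval (P u)) = _
    rw [hH.semi u hu, ih _ h1]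
    congr 1
    ring

/-- the ray of angle `θ` in the component -/
theorem ray_mem (hH : Half f P) {θ η t₀ s₂ : ℝ} {A : Set ℂ} {v : ℂ}
    (hA : ArcData f P θ v η t₀ s₂ A) {s : ℝ} (hs : 0 < s) :
    P (s + θ * Complex.I) ∈ V0 P θ η t₀ s₂ A := by
  have hcont : ContinuousOn (fun s : ℝ => P (s + θ * Complex.I)) (Set.Ioi 0) := by
    refine hH.diff.continuousOn.comp (by fun_prop) fun s hs => ?_
    change 0 < ((s : ℂ) + θ * Complex.I).re
    simpa using hs
  have hpre : IsPreconnected ((fun s : ℝ => P (s + θ * Complex.I)) '' Set.Ioi 0) :=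
    isPreconnected_Ioi.image _ hcont
  have hη := hA.hη
  have hsub : (fun s : ℝ => P (s + θ * Complex.I)) '' Set.Ioi 0 ⊆
      (A ∪ (fun s : ℝ => P (s + t₀ * Complex.I)) '' Set.Ici s₂)ᶜ := by
    rintro _ ⟨s, hs, rfl⟩ h
    rcases h with h | ⟨s', hs', h⟩
    · exact hA.ray s hs h
    · have hs0 : 0 < s' := hη.trans (hA.hs.trans_le hs')
      obtain ⟨j, hj⟩ := hH.inj _ (by change 0 < ((s' : ℂ) + t₀ * Complex.I).re; simpa using hs0) _
        (by change 0 < ((s : ℂ) + θ * Complex.I).re; simpa using hs) h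
      have h1 := congrArg Complex.im hj
      simp at h1
      have h2 := hA.t1
      have h3 := hA.t2
      rw [h1] at h2 h3
      have h4 : (0 : ℝ) < j := by linarith
      have h5 : (j : ℝ) < 1 := by linarith
      have h6 : 0 < j := by exact_mod_cast h4
      have h7 : j < 1 := by exact_mod_cast h5
      omega
  exact hpre.subset_connectedComponentIn ⟨η / 2, by simpa using hη, rfl⟩ hsub ⟨s, hs, rfl⟩

/-- the rays in the components of the preimage -/
theorem ray_mem_Cc (hd : 2 ≤ f.natDegree) (hH : Half f P) {θ η t₀ s₂ : ℝ} {A : Set ℂ} {v : ℂ}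
    (hA : ArcData f P θ v η t₀ s₂ A) (n j : ℕ) {s : ℝ} (hs : 0 < s) :
    P (s + (((θ + j) / (f.natDegree : ℝ) ^ n : ℝ) : ℂ) * Complex.I) ∈
      Cc f P θ η t₀ s₂ A n j := by
  have hD0 : (0 : ℝ) < (f.natDegree : ℝ) ^ n := by positivity
  have hD0c : (f.natDegree : ℂ) ^ n ≠ 0 := by
    have : (f.natDegree : ℂ) ≠ 0 := by
      exact_mod_cast (show f.natDegree ≠ 0 by omega)
    exact pow_ne_zero _ this
  set y : ℝ := (θ + j) / (f.natDegree : ℝ) ^ n with hy
  have hcont : ContinuousOn (fun s : ℝ => P (s + (y : ℂ) * Complex.I)) (Set.Ioi 0) := by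
    refine hH.diff.continuousOn.comp (by fun_prop) fun s hs => ?_
    change 0 < ((s : ℂ) + (y : ℂ) * Complex.I).re
    simpa using hs
  have hpre : IsPreconnected ((fun s : ℝ => P (s + (y : ℂ) * Complex.I)) '' Set.Ioi 0) :=
    isPreconnected_Ioi.image _ hcont
  have hη := hA.hη
  have hsub : (fun s : ℝ => P (s + (y : ℂ) * Complex.I)) '' Set.Ioi 0 ⊆
      (fun w => f.eval w)^[n] ⁻¹' V0 P θ η t₀ s₂ A := by
    rintro _ ⟨s, hs, rfl⟩
    change (fun w => f.eval w)^[n] (P (s + (y : ℂ) * Complex.I)) ∈ V0 P θ η t₀ s₂ A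
    rw [semi_iter hd hH n _ (by change 0 < ((s : ℂ) + (y : ℂ) * Complex.I).re; simpa using hs)]
    have h1 : (f.natDegree : ℂ) ^ n * ((s : ℂ) + (y : ℂ) * Complex.I) =
        (((f.natDegree : ℝ) ^ n * s : ℝ) : ℂ) + θ * Complex.I + j * Complex.I := by
      rw [hy]
      push_cast
      field_simp
      ring
    rw [h1, per_nat hH]
    exact ray_mem hH hA (mul_pos hD0 hs)
  refine hpre.subset_connectedComponentIn ⟨η / 2 / (f.natDegree : ℝ) ^ n, ?_, ?_⟩ hsub ⟨s, hs, rfl⟩
  · change 0 < η / 2 / (f.natDegree : ℝ) ^ n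
    positivity
  · change P _ = P _
    congr 1
    rw [hy]
    push_cast
    field_simp

end

/-- the polynomial of the iterate -/
theorem exists_iter (f : ℂ[X]) (m : ℕ) :
    ∃ F : ℂ[X], F.natDegree = f.natDegree ^ m ∧ ∀ z, F.eval z = (fun w => f.eval w)^[m] z := by
  refine ⟨f.comp^[m] X, ?_, fun z => ?_⟩
  · rw [natDegree_iterate_comp, natDegree_X, mul_one]
  · rw [iterate_comp_eval, eval_X]

/-- preimages of compact sets under polynomials are compact -/
theorem preimage_cpt {F : ℂ[X]} (hF : 1 ≤ F.natDegree) {A : Set ℂ} (hA : IsCompact A) :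
    IsCompact ((fun z => F.eval z) ⁻¹' A) := by
  have hcont : Continuous fun z => F.eval z := F.continuous
  refine Metric.isCompact_of_isClosed_isBounded (hA.isClosed.preimage hcont) ?_
  have h1 : Tendsto (fun z : ℂ => ‖F.eval z‖) (Bornology.cobounded ℂ) atTop :=
    F.tendsto_norm_atTop (natDegree_pos_iff_degree_pos.1 hF) tendsto_norm_cobounded_atTop
  obtain ⟨R, hR⟩ := hA.isBounded.exists_norm_le
  rw [Bornology.isBounded_def]
  filter_upwards [h1.eventually_gt_atTop R] with z hz hmem
  exact absurd (hR _ hmem) (not_le.2 hz)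

/-- the component of a preimage of a connected compact set meets every fibre -/
theorem comp_root (deg : DegStatement) {F : ℂ[X]} (hF : 1 ≤ F.natDegree) {A : Set ℂ}
    (hA : IsCompact A) (hpre : IsPreconnected A) {b v : ℂ} (hb : F.eval b ∈ A) (hv : v ∈ A) :
    ∃ z ∈ connectedComponentIn ((fun z => F.eval z) ⁻¹' A) b, F.eval z = v := by
  classical
  by_contra hcon
  push Not at hcon
  set B := (fun z => F.eval z) ⁻¹' A with hB
  have hBc : IsCompact B := preimage_cpt hF hA
  have : CompactSpace B := isCompact_iff_compactSpace.1 hBc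
  have hbB : b ∈ B := hb
  have hFv : F - C v ≠ 0 := by
    intro h
    have h1 : F = C v := by rw [← sub_eq_zero]; exact h
    rw [h1, natDegree_C] at hF
    omega
  have hFb : F - C (F.eval b) ≠ 0 := by
    intro h
    have h1 : F = C (F.eval b) := by rw [← sub_eq_zero]; exact h
    rw [h1, natDegree_C] at hF
    omega
  -- a clopen set which avoids the roots
  have hclo : ∀ z ∈ (F - C v).roots.toFinset, ∃ s : Set B, IsClopen s ∧ (⟨b, hbB⟩ : B) ∈ s ∧
      ∀ y ∈ s, (y : ℂ) ≠ z := by
    intro z hz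
    rw [Multiset.mem_toFinset, mem_roots hFv, IsRoot.def, eval_sub, eval_C, sub_eq_zero] at hz
    have hzB : z ∈ B := by
      change F.eval z ∈ A
      rw [hz]; exact hv
    have h1 : (⟨z, hzB⟩ : B) ∉ connectedComponent (⟨b, hbB⟩ : B) := by
      intro h
      refine hcon z ?_ hz
      rw [connectedComponentIn_eq_image hbB]
      exact ⟨_, h, rfl⟩
    rw [connectedComponent_eq_iInter_isClopen, Set.mem_iInter] at h1
    push Not at h1
    obtain ⟨⟨s, hs1, hs2⟩, h2⟩ := h1
    refine ⟨s, hs1, hs2, fun y hy hyz => h2 ?_⟩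
    have h3 : y = ⟨z, hzB⟩ := Subtype.ext hyz
    rwa [h3] at hy
  choose! s hs1 hs2 hs3 using hclo
  set O : Set B := ⋂ z ∈ (F - C v).roots.toFinset, s z with hO
  have hOc : IsClopen O := isClopen_biInter_finset fun z hz => hs1 z hz
  have hbO : (⟨b, hbB⟩ : B) ∈ O := Set.mem_iInter₂.2 fun z hz => hs2 z hz
  have hOv : ∀ y ∈ O, F.eval (y : ℂ) ≠ v := by
    intro y hy h
    have h1 : (y : ℂ) ∈ (F - C v).roots.toFinset := by
      rw [Multiset.mem_toFinset, mem_roots hFv, IsRoot.def, eval_sub, eval_C, sub_eq_zero]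
      exact h
    exact hs3 _ h1 y (Set.mem_iInter₂.1 hy _ h1) rfl
  have hc1 : IsCompact (Subtype.val '' O : Set ℂ) :=
    hOc.isClosed.isCompact.image continuous_subtype_val
  have hc2 : IsCompact (Subtype.val '' Oᶜ : Set ℂ) :=
    hOc.compl.isClosed.isCompact.image continuous_subtype_val
  have hdisj : Disjoint (Subtype.val '' O : Set ℂ) (Subtype.val '' Oᶜ) :=
    (Set.disjoint_image_iff Subtype.val_injective).2 disjoint_compl_right
  obtain ⟨O₁, O₂, ho1, ho2, hs1', hs2', hd'⟩ := SeparatedNhds.of_isCompact_isCompact hc1 hc2 hdisj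
  have key := deg F A O₁ O₂ hF hpre ho1 ho2 (by
    intro z hz
    by_cases h : (⟨z, hz⟩ : B) ∈ O
    · exact Or.inl (hs1' ⟨_, h, rfl⟩)
    · exact Or.inr (hs2' ⟨_, h, rfl⟩)) (by
    intro z _ h1 h2
    exact Set.disjoint_left.1 hd' h1 h2) (F.eval b) hb v hv (Classical.decPred _)
  have h1 : ((F - C v).roots.filter (· ∈ O₁)).card = 0 := by
    rw [Multiset.card_eq_zero, Multiset.filter_eq_nil]
    intro z hz hz1
    rw [mem_roots hFv, IsRoot.def, eval_sub, eval_C, sub_eq_zero] at hz
    have hzB : z ∈ B := by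
      change F.eval z ∈ A
      rw [hz]; exact hv
    have h2 : (⟨z, hzB⟩ : B) ∈ O := by
      by_contra h
      exact Set.disjoint_left.1 hd' hz1 (hs2' ⟨_, h, rfl⟩)
    exact hOv _ h2 hz
  rw [h1, Multiset.card_eq_zero, Multiset.filter_eq_nil] at key
  refine key b ?_ (hs1' ⟨_, hbO, rfl⟩)
  rw [mem_roots hFb, IsRoot.def, eval_sub, eval_C, sub_self]

/-- the number of distinct points over a critical value -/
theorem card_fibre {f : ℂ[X]} (hd : 2 ≤ f.natDegree) {c : ℂ} (hc : f.derivative.eval c = 0)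
    (n : ℕ) : ∃ Z : Finset ℂ, Z.card ≤ (f.natDegree - 1) * f.natDegree ^ n ∧
      ∀ z, (fun w => f.eval w)^[n + 1] z = f.eval c → z ∈ Z := by
  classical
  obtain ⟨G, hGd, hG⟩ := exists_iter f n
  have hfc : f - C (f.eval c) ≠ 0 := by
    intro h
    have h1 : f = C (f.eval c) := by rw [← sub_eq_zero]; exact h
    rw [h1, natDegree_C] at hd
    omega
  have hGd1 : 1 ≤ G.natDegree := by rw [hGd]; exact Nat.one_le_pow _ _ (by omega)
  set Y := (f - C (f.eval c)).roots.toFinset with hY
  have hYc : Y.card ≤ f.natDegree - 1 := by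
    have h1 : 1 < (f - C (f.eval c)).rootMultiplicity c := by
      rw [one_lt_rootMultiplicity_iff_isRoot hfc]
      constructor
      · rw [IsRoot.def, eval_sub, eval_C, sub_self]
      · rw [IsRoot.def, derivative_sub, derivative_C, sub_zero, hc]
    rw [← count_roots] at h1
    have h2 : c ∈ (f - C (f.eval c)).roots := Multiset.count_pos.1 (by omega)
    have h3 : Y ⊆ ((f - C (f.eval c)).roots.erase c).toFinset := by
      intro y hy
      rw [hY, Multiset.mem_toFinset] at hy
      rw [Multiset.mem_toFinset]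
      by_cases h : y = c
      · rw [h]
        apply Multiset.count_pos.1
        rw [Multiset.count_erase_self]
        omega
      · exact (Multiset.mem_erase_of_ne h).2 hy
    have h4 := (Finset.card_le_card h3).trans (Multiset.toFinset_card_le _)
    rw [Multiset.card_erase_of_mem h2] at h4
    have h5 : Multiset.card (f - C (f.eval c)).roots ≤ f.natDegree := by
      have h6 := card_roots' (f - C (f.eval c))
      rwa [natDegree_sub_C] at h6
    exact h4.trans (Nat.pred_le_pred h5)
  refine ⟨Y.biUnion fun y => (G - C y).roots.toFinset, ?_, ?_⟩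
  · calc (Y.biUnion fun y => (G - C y).roots.toFinset).card
        ≤ ∑ y ∈ Y, ((G - C y).roots.toFinset).card := Finset.card_biUnion_le
      _ ≤ ∑ y ∈ Y, f.natDegree ^ n := by
          refine Finset.sum_le_sum fun y _ => ?_
          refine (Multiset.toFinset_card_le _).trans ?_
          have h6 := card_roots' (G - C y)
          rwa [natDegree_sub_C, hGd] at h6
      _ = Y.card * f.natDegree ^ n := by rw [Finset.sum_const, smul_eq_mul]
      _ ≤ _ := Nat.mul_le_mul_right _ hYc
  · intro z hz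
    rw [Function.iterate_succ_apply'] at hz
    rw [Finset.mem_biUnion]
    refine ⟨(fun w => f.eval w)^[n] z, ?_, ?_⟩
    · rw [hY, Multiset.mem_toFinset, mem_roots hfc, IsRoot.def, eval_sub, eval_C, sub_eq_zero]
      exact hz
    · have h1 : G - C ((fun w => f.eval w)^[n] z) ≠ 0 := by
        intro h
        have h1 : G = C ((fun w => f.eval w)^[n] z) := by rw [← sub_eq_zero]; exact h
        rw [h1, natDegree_C] at hGd1
        omega
      rw [Multiset.mem_toFinset, mem_roots h1, IsRoot.def, eval_sub, eval_C, sub_eq_zero, hG]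

/-- the combinatorics -/
theorem comb {α : Type} (D M : ℕ) (E : ℕ → α) (Z : Finset α) (hZ : Z.card + M ≤ D) (hM : 1 ≤ M)
    (hE : ∀ a < D, E a ∈ Z) :
    ∃ S : Finset ℕ, (∀ j ∈ S, j < D) ∧ M + 1 ≤ S.card ∧
      ∀ j ∈ S, ∀ k ∈ S, k < j → ∃ a b, j = a + 1 ∧ a < b ∧ b < D ∧ E a = E b := by
  classical
  set N := (Finset.range D).filter fun a => ∃ b, a < b ∧ b < D ∧ E a = E b with hN
  set L := (Finset.range D).filter fun a => ¬ ∃ b, a < b ∧ b < D ∧ E a = E b with hL
  have hLc : L.card ≤ Z.card := by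
    refine Finset.card_le_card_of_injOn E (fun a ha => ?_) ?_
    · rw [hL, Finset.coe_filter] at ha
      exact hE a (Finset.mem_range.1 ha.1)
    · intro a ha b hb hab
      rw [hL, Finset.coe_filter] at ha hb
      rcases lt_trichotomy a b with h | h | h
      · exact absurd ⟨b, h, Finset.mem_range.1 hb.1, hab⟩ ha.2
      · exact h
      · exact absurd ⟨a, h, Finset.mem_range.1 ha.1, hab.symm⟩ hb.2
  have hsum : N.card + L.card = D := by
    rw [hN, hL, Finset.card_filter_add_card_filter_not, Finset.card_range]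
  have hNM : M ≤ N.card := by omega
  refine ⟨insert 0 (N.image (· + 1)), ?_, ?_, ?_⟩
  · intro j hj
    rw [Finset.mem_insert, Finset.mem_image] at hj
    rcases hj with rfl | ⟨a, ha, rfl⟩
    · omega
    · rw [hN, Finset.mem_filter] at ha
      obtain ⟨_, b, h1, h2, _⟩ := ha
      omega
  · rw [Finset.card_insert_of_notMem, Finset.card_image_of_injective _ (add_left_injective 1)]
    · omega
    · rw [Finset.mem_image]
      rintro ⟨a, _, h⟩
      omega
  · intro j hj k _ hkj
    rw [Finset.mem_insert, Finset.mem_image] at hj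
    rcases hj with rfl | ⟨a, ha, rfl⟩
    · omega
    · rw [hN, Finset.mem_filter] at ha
      obtain ⟨_, b, h1, h2, h3⟩ := ha
      exact ⟨a, b, rfl, h1, h2, h3⟩

end Sep27

open Sep27 in
/-- **SEP** -/
theorem sep (deg : DegStatement) (crs : CrsStatement) : SepStatement := by
  classical
  intro f P hd hH hinf θ c η t₀ s₂ A hc hA n
  obtain ⟨F, hFd, hF⟩ := exists_iter f (n + 1)
  have hF1 : 1 ≤ F.natDegree := by rw [hFd]; exact Nat.one_le_pow _ _ (by omega)
  obtain ⟨Z, hZc, hZ⟩ := card_fibre hd hc n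
  set B := (fun z => F.eval z) ⁻¹' A with hB
  set D : ℝ := (f.natDegree : ℝ) ^ (n + 1) with hD
  have hd0 : (0 : ℝ) < f.natDegree := by
    have : (0 : ℕ) < f.natDegree := by omega
    exact_mod_cast this
  have hD0 : 0 < D := by positivity
  have hDc : (f.natDegree : ℂ) ^ (n + 1) = (D : ℂ) := by rw [hD]; push_cast; rfl
  have hDc0 : (D : ℂ) ≠ 0 := by exact_mod_cast hD0.ne'
  have hs20 : 0 < s₂ := hA.hη.trans hA.hs
  have hσ : 0 < s₂ / D := by positivity
  set b : ℕ → ℂ := fun a => P (((s₂ / D : ℝ) : ℂ) + (((t₀ + a) / D : ℝ) : ℂ) * Complex.I) with hb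
  -- the image of a point of the tail
  have hFP : ∀ (s : ℝ) (a : ℕ), 0 < s →
      F.eval (P ((s : ℂ) + (((t₀ + a) / D : ℝ) : ℂ) * Complex.I)) =
        P (((D * s : ℝ) : ℂ) + t₀ * Complex.I) := by
    intro s a hs
    rw [hF, semi_iter hd hH (n + 1) _ (by
      change 0 < ((s : ℂ) + (((t₀ + a) / D : ℝ) : ℂ) * Complex.I).re
      simpa using hs)]
    have h1 : (f.natDegree : ℂ) ^ (n + 1) * ((s : ℂ) + (((t₀ + a) / D : ℝ) : ℂ) * Complex.I) =
        ((D * s : ℝ) : ℂ) + t₀ * Complex.I + a * Complex.I := by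
      rw [hDc]
      push_cast
      field_simp
      ring
    rw [h1, per_nat hH]
  have hFb : ∀ a, F.eval (b a) ∈ A := by
    intro a
    rw [hb]
    rw [hFP _ a hσ]
    have h1 : D * (s₂ / D) = s₂ := by field_simp
    rw [h1]
    exact hA.base
  -- the components
  set E : ℕ → Set ℂ := fun a => connectedComponentIn B (b a) with hE
  obtain ⟨S, hS1, hS2, hS3⟩ := comb (f.natDegree ^ (n + 1)) (f.natDegree ^ n) E
    (Z.image fun z => connectedComponentIn B z) (by
      refine (Nat.add_le_add_right (Finset.card_image_le.trans hZc) _).trans (le_of_eq ?_)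
      have h1 : (f.natDegree - 1) * f.natDegree ^ n + f.natDegree ^ n =
          (f.natDegree - 1 + 1) * f.natDegree ^ n := by ring
      rw [h1, Nat.sub_add_cancel (by omega), pow_succ, mul_comm])
    (Nat.one_le_pow _ _ (by omega)) (by
      intro a _
      obtain ⟨z, hz1, hz2⟩ := comp_root deg hF1 hA.cpt hA.pre (hFb a) hA.mem
      rw [Finset.mem_image]
      refine ⟨z, hZ z (by rw [← hF]; exact hz2), ?_⟩
      exact (connectedComponentIn_eq hz1).symm)
  refine ⟨S, hS1, hS2, ?_⟩
  -- the separation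
  have hmain : ∀ j ∈ S, ∀ k ∈ S, k < j →
      Cc f P θ η t₀ s₂ A (n + 1) j ≠ Cc f P θ η t₀ s₂ A (n + 1) k := by
    intro j hj k hk hkj heq
    obtain ⟨a, a', rfl, haa, haD, hEE⟩ := hS3 j hj k hk hkj
    set O := Cc f P θ η t₀ s₂ A (n + 1) (a + 1) with hO
    have hcontray : ContinuousOn (fun s : ℝ => P (s + t₀ * Complex.I)) (Set.Ici s₂) := by
      refine hH.diff.continuousOn.comp (by fun_prop) fun s hs => ?_
      change 0 < ((s : ℂ) + t₀ * Complex.I).re
      have h1 : s₂ ≤ s := hs
      simpa using hs20.trans_le h1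
    have hV0 : IsOpen (V0 P θ η t₀ s₂ A) := by
      refine IsOpen.connectedComponentIn ?_
      refine (hA.cpt.isClosed.union (closed_ray hcontray fun R => ?_)).isOpen_compl
      obtain ⟨M, hM⟩ := hinf R
      refine ⟨M, fun s hs => hM _ ?_⟩
      simpa using hs
    have hV0sub : V0 P θ η t₀ s₂ A ⊆
        (A ∪ (fun s : ℝ => P (s + t₀ * Complex.I)) '' Set.Ici s₂)ᶜ :=
      connectedComponentIn_subset _ _
    have hOsub : O ⊆ (fun w => f.eval w)^[n + 1] ⁻¹' V0 P θ η t₀ s₂ A :=
      connectedComponentIn_subset _ _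
    have hOopen : IsOpen O := by
      refine IsOpen.connectedComponentIn ?_
      have h1 : Continuous fun z => F.eval z := F.continuous
      have h2 : (fun w => f.eval w)^[n + 1] = fun z => F.eval z := by
        funext z
        rw [hF]
      rw [h2]
      exact hV0.preimage h1
    have hEsub : E a ⊆ B := connectedComponentIn_subset _ _
    -- the tails of the rays of the cut are not in `O`
    have htail : ∀ (a : ℕ) (s : ℝ), s₂ / D ≤ s →
        P ((s : ℂ) + (((t₀ + a) / D : ℝ) : ℂ) * Complex.I) ∉ O := by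
      intro a s hs h
      have h1 := hV0sub (hOsub h)
      apply h1
      right
      refine ⟨D * s, ?_, ?_⟩
      · change s₂ ≤ D * s
        rw [div_le_iff₀ hD0] at hs
        linarith
      · rw [← hF, hFP s a (hσ.trans_le hs)]
    refine crs f P hd hH hinf O (E a) (s₂ / D) ((θ + k) / D) ((t₀ + a) / D)
      ((θ + (a + 1 : ℕ)) / D) ((t₀ + a') / D) hOopen isPreconnected_connectedComponentIn
      isPreconnected_connectedComponentIn ?_ hσ ?_ ?_ ?_ ?_ ?_ ?_ ?_ ?_ ?_
    · rw [Set.disjoint_left]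
      intro z hz1 hz2
      have h1 := hV0sub (hOsub hz1)
      apply h1
      left
      rw [← hF]
      exact hEsub hz2
    · apply div_lt_div_of_pos_right _ hD0
      have h1 := hA.t1
      have h2 : (k : ℝ) ≤ a := by
        have : k ≤ a := by omega
        exact_mod_cast this
      linarith
    · apply div_lt_div_of_pos_right _ hD0
      have h1 := hA.t2
      push_cast
      linarith
    · apply div_lt_div_of_pos_right _ hD0
      have h1 := hA.t1
      have h2 : ((a + 1 : ℕ) : ℝ) ≤ a' := by exact_mod_cast haa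
      linarith
    · rw [div_add_one hD0.ne']
      apply div_lt_div_of_pos_right _ hD0
      have h1 := hA.t2
      have h2 : (a' : ℝ) + 1 ≤ D := by
        rw [hD]
        exact_mod_cast haD
      have h3 : (0 : ℝ) ≤ k := Nat.cast_nonneg k
      linarith
    · intro s hs
      constructor
      · rw [heq]
        exact ray_mem_Cc hd hH hA (n + 1) k (hσ.trans_le hs)
      · exact ray_mem_Cc hd hH hA (n + 1) (a + 1) (hσ.trans_le hs)
    · intro s hs
      exact ⟨htail a s hs, htail a' s hs⟩
    · exact mem_connectedComponentIn (hFb a)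
    · rw [hEE]
      exact mem_connectedComponentIn (hFb a')
    · intro u hu h
      have hu0 : 0 < u.re := hσ.trans hu
      have h1 : F.eval (P u) ∈ A := hEsub h
      rw [hF, semi_iter hd hH (n + 1) u hu0] at h1
      refine hA.low _ ?_ h1
      rw [hDc]
      have h2 : ((D : ℂ) * u).re = D * u.re := by simp
      rw [h2]
      rw [div_lt_iff₀ hD0] at hu
      linarith
  intro j hj k hk hjk
  rcases lt_or_gt_of_ne hjk with h | h
  · exact (hmain k hk j hj h).symm
  · exact hmain j hj k hk h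

end Pool.Agent.Imp
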