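import Pool.Agent.Lib.MP_1c105c_an.Defs10
import Pool.Agent.Lib.MP_1c105c_an.Sep
import Pool.Agent.Lib.MP_1c105c_an.Inv

/-! MP_1c105c_an, row ACC: one access to a fixed point gives many accesses to its preimages. -/

set_option autoImplicit false

open Filter Topology Set Polynomial

namespace Pool.Agent.Imp

namespace Acc92

theorem pol_ne {F : ℂ[X]} (hF : 1 ≤ F.natDegree) (w : ℂ) : F - C w ≠ 0 := by
  intro h0
  have := congrArg natDegree h0
  rw [natDegree_sub_C, natDegree_zero] at this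
  omega

theorem mem_rt {F : ℂ[X]} (hF : 1 ≤ F.natDegree) {w z : ℂ} :
    z ∈ (F - C w).roots ↔ F.eval z = w := by
  rw [mem_roots (pol_ne hF w), IsRoot.def, eval_sub, eval_C, sub_eq_zero]

/-- the iterate as a polynomial -/
noncomputable def It (G : ℂ[X]) (n : ℕ) : ℂ[X] := G.comp^[n] X

theorem It_eval (G : ℂ[X]) (n : ℕ) (w : ℂ) : (It G n).eval w = (fun w => G.eval w)^[n] w := by
  rw [It, Polynomial.iterate_comp_eval]
  simp

theorem It_deg (G : ℂ[X]) (n : ℕ) : (It G n).natDegree = G.natDegree ^ n := by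
  rw [It, Polynomial.natDegree_iterate_comp, natDegree_X, mul_one]

theorem It_succ (G : ℂ[X]) (n : ℕ) : It G (n + 1) = G.comp (It G n) := by
  rw [It, Function.iterate_succ_apply']
  rfl

theorem It_add (G : ℂ[X]) (m n : ℕ) : It G (m + n) = (It G m).comp (It G n) := by
  induction m with
  | zero =>
    rw [zero_add]
    change _ = (X : ℂ[X]).comp _
    rw [X_comp]
  | succ m ih =>
    have : m + 1 + n = (m + n) + 1 := by omega
    rw [this, It_succ, ih, It_succ, comp_assoc]

theorem It_deg_pos {G : ℂ[X]} (hd : 2 ≤ G.natDegree) (n : ℕ) : 1 ≤ (It G n).natDegree := by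
  rw [It_deg]
  exact Nat.one_le_pow _ _ (by omega)

/-- the roots of a composition -/
theorem roots_comp {G F : ℂ[X]} (hG : 1 ≤ G.natDegree) (hF : 1 ≤ F.natDegree) (w : ℂ) :
    (G.comp F - C w).roots = (G - C w).roots.bind fun a => (F - C a).roots := by
  have h1 : Multiset.card (G - C w).roots = (G - C w).natDegree :=
    (splits_iff_card_roots).1 (IsAlgClosed.splits _)
  have h2 := C_leadingCoeff_mul_prod_multiset_X_sub_C h1
  have h3 : G.comp F - C w = (G - C w).comp F := by rw [sub_comp, C_comp]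
  have hl : (G - C w).leadingCoeff ≠ 0 := leadingCoeff_ne_zero.2 (pol_ne hG w)
  rw [h3]
  conv_lhs => rw [← h2]
  rw [mul_comp, C_comp, roots_C_mul _ hl, multiset_prod_comp, Multiset.map_map,
    roots_multiset_prod]
  · rw [Multiset.bind_map]
    refine Multiset.bind_congr fun a _ => ?_
    simp
  · rw [Multiset.mem_map]
    rintro ⟨a, -, ha⟩
    have : F - C a = 0 := by simpa using ha
    exact pol_ne hF a this

theorem card_bind (Δ : Set ℂ) (dec : DecidablePred (· ∈ Δ)) (N : ℕ) (g : ℂ → Multiset ℂ)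
    (hg : ∀ a ∈ Δ, N ≤ ((g a).filter (· ∈ Δ)).card) (s : Multiset ℂ) :
    (s.filter (· ∈ Δ)).card * N ≤ ((s.bind g).filter (· ∈ Δ)).card := by
  induction s using Multiset.induction_on with
  | empty => simp
  | cons a s ih =>
    rw [Multiset.cons_bind, Multiset.filter_add, Multiset.card_add]
    by_cases h : a ∈ Δ
    · rw [Multiset.filter_cons_of_pos _ h, Multiset.card_cons, add_mul, one_mul, add_comm]
      exact add_le_add (hg a h) ih
    · rw [Multiset.filter_cons_of_neg _ h]
      exact ih.trans (Nat.le_add_left _ _)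

/-- many roots of the iterates in the piece -/
theorem grow (deg : DegStatement) {G : ℂ[X]} {Δ : Set ℂ} {c : ℂ} (hd : 2 ≤ G.natDegree)
    (hP : Pc G Δ) (hc : c ∈ Δ) (hc' : G.derivative.eval c = 0) (dec : DecidablePred (· ∈ Δ))
    (n : ℕ) : ∀ w ∈ Δ, 2 ^ n ≤ ((It G n - C w).roots.filter (· ∈ Δ)).card := by
  have h1 : ∀ w ∈ Δ, 2 ≤ ((G - C w).roots.filter (· ∈ Δ)).card := by
    intro w hw
    have ho : IsOpen {z | z ∉ Δ ∧ G.eval z ∈ Δ} := hP.rel 1
    rw [deg G Δ Δ {z | z ∉ Δ ∧ G.eval z ∈ Δ} (by omega) hP.pre hP.op ho (by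
      intro z hz
      by_cases h : z ∈ Δ
      · exact Or.inl h
      · exact Or.inr ⟨h, hz⟩) (fun z _ hz hz' => hz'.1 hz) w hw (G.eval c) (hP.inv c hc) dec]
    have h2 : 1 < (G - C (G.eval c)).rootMultiplicity c := by
      rw [one_lt_rootMultiplicity_iff_isRoot (pol_ne (by omega) _)]
      constructor
      · rw [IsRoot.def, eval_sub, eval_C, sub_self]
      · rw [IsRoot.def, derivative_sub, derivative_C, sub_zero, hc']
    have h3 := Multiset.count_le_card c ((G - C (G.eval c)).roots.filter (· ∈ Δ))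
    rw [Multiset.count_filter_of_pos hc, count_roots] at h3
    omega
  induction n with
  | zero =>
    intro w hw
    change 1 ≤ (((X : ℂ[X]) - C w).roots.filter (· ∈ Δ)).card
    rw [roots_X_sub_C, Multiset.filter_singleton, if_pos hw, Multiset.card_singleton]
  | succ n ih =>
    intro w hw
    rw [It_succ, roots_comp (by omega) (It_deg_pos hd n), pow_succ, mul_comm]
    refine le_trans ?_ (card_bind Δ dec (2 ^ n) (fun a => (It G n - C a).roots) ih _)
    exact Nat.mul_le_mul_right _ (h1 w hw)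

/-- the derivative of the iterates at a fixed point -/
theorem deriv_fix {G : ℂ[X]} {q : ℂ} (hq : G.eval q = q) (hq' : G.derivative.eval q ≠ 0)
    (m : ℕ) : (It G m).eval q = q ∧ (It G m).derivative.eval q ≠ 0 := by
  induction m with
  | zero =>
    change (X : ℂ[X]).eval q = q ∧ (derivative (X : ℂ[X])).eval q ≠ 0
    simp
  | succ m ih =>
    rw [It_succ]
    refine ⟨by rw [eval_comp, ih.1, hq], ?_⟩
    rw [derivative_comp, eval_mul, eval_comp, ih.1]
    exact mul_ne_zero ih.2 hq'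

/-- bounded multiplicities -/
theorem mult_le {G : ℂ[X]} (hd : 2 ≤ G.natDegree) {q : ℂ} (hq : G.eval q = q)
    (hq' : G.derivative.eval q ≠ 0) {J n : ℕ} (hJ : J ≤ n) {a : ℂ}
    (ha : (It G J).eval a = q) : (It G n - C q).rootMultiplicity a ≤ G.natDegree ^ J := by
  obtain ⟨m, rfl⟩ := Nat.exists_eq_add_of_le' hJ
  obtain ⟨h1, h2⟩ := deriv_fix hq hq' m
  obtain ⟨H, hH⟩ : X - C q ∣ It G m - C q := by
    rw [dvd_iff_isRoot, IsRoot.def, eval_sub, eval_C, h1, sub_self]
  have h3 : H.eval q ≠ 0 := by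
    have h4 := congrArg (fun p => p.derivative.eval q) hH
    simp only [derivative_sub, derivative_C, sub_zero, derivative_mul, derivative_X, one_mul,
      eval_add, eval_mul, eval_sub, eval_X, eval_C, sub_self, zero_mul, add_zero] at h4
    rwa [← h4]
  have h5 : It G (m + J) - C q = (It G J - C q) * H.comp (It G J) := by
    have h6 : It G (m + J) - C q = (It G m - C q).comp (It G J) := by
      rw [It_add, sub_comp, C_comp]
    rw [h6, hH, mul_comp, sub_comp, X_comp, C_comp]
  have h6 : (H.comp (It G J)).rootMultiplicity a = 0 := by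
    refine rootMultiplicity_eq_zero ?_
    rw [IsRoot.def, eval_comp, ha]
    exact h3
  have h7 : (It G J - C q) * H.comp (It G J) ≠ 0 := by
    rw [← h5]
    exact pol_ne (It_deg_pos hd _) q
  rw [h5, rootMultiplicity_mul h7, h6, add_zero, ← count_roots]
  refine (Multiset.count_le_card _ _).trans ((card_roots' _).trans ?_)
  rw [natDegree_sub_C, It_deg]

/-- the access to a preimage -/
theorem acs (deg : DegStatement) {G : ℂ[X]} {Δ : Set ℂ} (hP : Pc G Δ) {F : ℂ[X]} {n : ℕ}
    (hF : 1 ≤ F.natDegree) (hFe : ∀ z, F.eval z = (fun w => G.eval w)^[n] z) {q r : ℂ}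
    {κ : Set ℂ} (hκc : IsCompact κ) (hκp : IsPreconnected κ) (hq : q ∈ κ) (hκ : κ ⊆ Δ ∪ {q})
    (hqΔ : q ∉ Δ) {y : ℂ} (hy : y ∈ Δ) (hyκ : F.eval y ∈ κ) {W V : Set ℂ} (hW : IsOpen W)
    (hV : IsOpen V) (hWV : Disjoint W V) (hsub : ∀ z, F.eval z ∈ κ → z ∈ W ∪ V)
    (hyW : y ∈ W) (hr : ∀ z ∈ W, F.eval z = q → z = r) : Acs Δ r := by
  set B : Set ℂ := (fun z => F.eval z) ⁻¹' κ with hB
  have hBc : IsCompact B := Sep27.preimage_cpt hF hκc
  have hcs : CompactSpace B := isCompact_iff_compactSpace.1 hBc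
  have hyB : y ∈ B := hyκ
  set E : Set ℂ := connectedComponentIn B y with hE
  have hEc : IsCompact E := by
    rw [hE, connectedComponentIn_eq_image hyB]
    exact isClosed_connectedComponent.isCompact.image continuous_subtype_val
  have hEp : IsPreconnected E := isPreconnected_connectedComponentIn
  have hyE : y ∈ E := mem_connectedComponentIn hyB
  have hEB : E ⊆ B := connectedComponentIn_subset _ _
  have hEW : E ⊆ W := hEp.subset_left_of_subset_union hW hV hWV
    (fun z hz => hsub z (hEB hz)) ⟨y, hyE, hyW⟩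
  obtain ⟨r', hr'E, hr'q⟩ := Sep27.comp_root deg hF hκc hκp hyκ hq
  obtain rfl : r' = r := hr r' (hEW hr'E) hr'q
  have hinv : ∀ z ∈ Δ, F.eval z ∈ Δ := by
    intro z hz
    rw [hFe]
    have : ∀ k : ℕ, (fun w => G.eval w)^[k] z ∈ Δ := by
      intro k
      induction k with
      | zero => exact hz
      | succ k ih =>
        rw [Function.iterate_succ_apply']
        exact hP.inv _ ih
    exact this n
  have hrΔ : r' ∉ Δ := fun h => hqΔ (by rw [← hr'q]; exact hinv r' h)
  set O₂ : Set ℂ := {z | z ∉ Δ ∧ (fun w => G.eval w)^[n] z ∈ Δ} with hO₂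
  have hO₂o : IsOpen O₂ := hP.rel n
  have hκ' : (E ∩ Δ) ∪ {r'} = E \ O₂ := by
    ext z
    constructor
    · rintro (⟨h1, h2⟩ | h1)
      · exact ⟨h1, fun h3 => h3.1 h2⟩
      · rw [mem_singleton_iff] at h1
        rw [h1]
        refine ⟨hr'E, fun h3 => hqΔ ?_⟩
        rw [← hr'q, hFe]
        exact h3.2
    · rintro ⟨h1, h2⟩
      rcases hκ (hEB h1 : F.eval z ∈ κ) with h3 | h3
      · left
        refine ⟨h1, ?_⟩
        by_contra h4
        exact h2 ⟨h4, by rw [← hFe]; exact h3⟩
      · right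
        exact hr z (hEW h1) h3
  refine ⟨(E ∩ Δ) ∪ {r'}, ?_, ?_, Or.inr rfl, ?_, ⟨y, Or.inl ⟨hyE, hy⟩, hy⟩⟩
  · rw [hκ']
    exact hEc.diff hO₂o
  · have hcl : IsClosed ((E ∩ Δ) ∪ {r'}) := by
      rw [hκ']
      exact (hEc.diff hO₂o).isClosed
    rw [isPreconnected_iff_subset_of_fully_disjoint_closed hcl]
    -- one of the two parts contains `r`
    have key : ∀ u v : Set ℂ, IsClosed u → IsClosed v → (E ∩ Δ) ∪ {r'} ⊆ u ∪ v →
        Disjoint u v → r' ∈ u → (E ∩ Δ) ∪ {r'} ⊆ u := by
      intro u v hu hv huv hd hru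
      by_contra hcon
      rw [not_subset] at hcon
      obtain ⟨z, hz, hzu⟩ := hcon
      have hzv : z ∈ v := (huv hz).resolve_left hzu
      have hA : IsClosed (((E ∩ Δ) ∪ {r'}) ∩ v) := hcl.inter hv
      have hzΔ : z ∈ E ∩ Δ := by
        rcases hz with h | h
        · exact h
        · rw [mem_singleton_iff] at h
          rw [h] at hzu
          exact absurd hru hzu
      obtain ⟨x, hxE, ⟨hxΔ, hxu⟩, hxA⟩ := hEp (Δ ∩ uᶜ) (((E ∩ Δ) ∪ {r'}) ∩ v)ᶜ
        (hP.op.inter hu.isOpen_compl) hA.isOpen_compl (by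
          intro x hx
          by_cases h : x ∈ ((E ∩ Δ) ∪ {r'}) ∩ v
          · left
            have hxu : x ∉ u := fun h' => Set.disjoint_left.1 hd h' h.2
            rcases h.1 with h1 | h1
            · exact ⟨h1.2, hxu⟩
            · rw [mem_singleton_iff] at h1
              rw [h1] at hxu
              exact absurd hru hxu
          · exact Or.inr h) ⟨z, hzΔ.1, hzΔ.2, hzu⟩
        ⟨r', hr'E, fun h => Set.disjoint_left.1 hd hru h.2⟩
      have hx : x ∈ (E ∩ Δ) ∪ {r'} := Or.inl ⟨hxE, hxΔ⟩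
      exact hxA ⟨hx, (huv hx).resolve_left hxu⟩
    intro u v hu hv huv hd
    rcases huv (Or.inr rfl : r' ∈ (E ∩ Δ) ∪ {r'}) with h | h
    · exact Or.inl (key u v hu hv huv hd h)
    · exact Or.inr (key v u hv hu (huv.trans (union_comm u v).subset) hd.symm h)
  · rintro z (h | h)
    · exact Or.inl h.2
    · exact Or.inr h

theorem card_cover (S : Finset ℂ) (Q : ℂ → Set ℂ) (dec : ∀ i, DecidablePred (· ∈ Q i))
    (ρ : Multiset ℂ) (h : ∀ y ∈ ρ, ∃ a ∈ S, y ∈ Q a) :
    ρ.card ≤ ∑ a ∈ S, (ρ.filter (· ∈ Q a)).card := by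
  classical
  induction ρ using Multiset.induction_on with
  | empty => simp
  | cons y ρ ih =>
    have h1 : ∀ i, ((y ::ₘ ρ).filter (· ∈ Q i)).card =
        (if y ∈ Q i then 1 else 0) + (ρ.filter (· ∈ Q i)).card := by
      intro i
      by_cases h : y ∈ Q i
      · rw [Multiset.filter_cons_of_pos _ h, Multiset.card_cons, if_pos h, add_comm]
      · rw [Multiset.filter_cons_of_neg _ h, if_neg h, zero_add]
    rw [Finset.sum_congr rfl fun i _ => h1 i, Finset.sum_add_distrib, Multiset.card_cons, add_comm]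
    refine add_le_add ?_ (ih fun y hy => h y (Multiset.mem_cons_of_mem hy))
    obtain ⟨a, ha, hya⟩ := h y (Multiset.mem_cons_self y ρ)
    calc 1 = if y ∈ Q a then 1 else 0 := (if_pos hya).symm
      _ ≤ _ := Finset.single_le_sum (f := fun i => if y ∈ Q i then 1 else 0)
        (fun i _ => Nat.zero_le _) ha

end Acc92

open Acc92

/-- Row ACC. -/
theorem acc (deg : DegStatement) : AccStatement := by
  classical
  intro G Δ c q hd hP hc hc' hq hqΔ hq' hS M
  set T : Set ℂ := {q' | Acs Δ q' ∧ ∃ n : ℕ, (fun w => G.eval w)^[n] q' = q} with hT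
  suffices hinf : T.Infinite by
    obtain ⟨S, hST, hcard⟩ := hinf.exists_subset_card_eq M
    exact ⟨S, hcard.ge, fun q' hq' => hST hq'⟩
  intro hfin
  -- a common time
  obtain ⟨J, hJ⟩ : ∃ J : ℕ, ∀ a ∈ T, ∀ n ≥ J, (It G n).eval a = q := by
    choose! N hN using fun a (ha : a ∈ T) => ha.2
    refine ⟨∑ a ∈ hfin.toFinset, N a, fun a ha n hn => ?_⟩
    have h1 : N a ≤ n := (Finset.single_le_sum (f := N) (fun _ _ => Nat.zero_le _)
      (hfin.mem_toFinset.2 ha)).trans hn
    obtain ⟨m, rfl⟩ := Nat.exists_eq_add_of_le' h1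
    rw [It_add, eval_comp, It_eval G (N a), hN a ha]
    exact (deriv_fix hq hq' m).1
  set B : ℕ := hfin.toFinset.card * G.natDegree ^ J with hB
  set n : ℕ := J + B + 1 with hn
  have hnJ : J ≤ n := by omega
  have hBn : B < 2 ^ n := lt_of_lt_of_le (by omega : B < n) Nat.lt_two_pow_self.le
  set F : ℂ[X] := It G n with hF
  have hF1 : 1 ≤ F.natDegree := It_deg_pos hd n
  have hF2 : 2 ≤ F.natDegree := by
    rw [hF, It_deg]
    calc 2 ≤ G.natDegree := hd
      _ = G.natDegree ^ 1 := (pow_one _).symm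
      _ ≤ G.natDegree ^ n := Nat.pow_le_pow_right (by omega) (by omega)
  obtain ⟨ε, hε, hsep⟩ := Inv.sep (F - C q).roots.toFinset
  obtain ⟨ρ, hρ, hnear⟩ := Inv.near_root hF2 q hε
  obtain ⟨κ, hκc, hκp, hqκ, hκΔ, ⟨w, hwκ, hwΔ⟩, hκρ⟩ := hS ρ hρ
  -- the other balls
  set Z := (F - C q).roots.toFinset with hZ
  have hmemZ : ∀ a, a ∈ Z ↔ F.eval a = q := fun a => by
    rw [hZ, Multiset.mem_toFinset, mem_rt hF1]
  set V : ℂ → Set ℂ := fun a => ⋃ b ∈ Z.erase a, Metric.ball b ε with hV
  have hVo : ∀ a, IsOpen (V a) := fun a => isOpen_biUnion fun b _ => Metric.isOpen_ball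
  have hVd : ∀ a ∈ Z, Disjoint (Metric.ball a ε) (V a) := by
    intro a ha
    rw [Set.disjoint_left]
    intro z hz hz'
    obtain ⟨b, hb, hzb⟩ := mem_iUnion₂.1 hz'
    rw [Finset.mem_erase] at hb
    have h1 := hsep a ha b hb.2 hb.1.symm
    have h2 : dist a b < ε + ε := (dist_triangle_left a b z).trans_lt (add_lt_add
      (by rw [← Metric.mem_ball]; exact hz) (by rw [← Metric.mem_ball]; exact hzb))
    rw [dist_eq_norm] at h2
    linarith
  have hcov : ∀ a ∈ Z, ∀ z, F.eval z ∈ Metric.ball q ρ → z ∈ Metric.ball a ε ∪ V a := by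
    intro a ha z hz
    rw [Metric.mem_ball, dist_eq_norm] at hz
    obtain ⟨b, -, hb, hzb⟩ := hnear z hz
    by_cases h : b = a
    · left
      rw [Metric.mem_ball, dist_eq_norm, ← h]
      exact hzb
    · right
      refine mem_iUnion₂.2 ⟨b, Finset.mem_erase.2 ⟨h, hb⟩, ?_⟩
      rw [Metric.mem_ball, dist_eq_norm]
      exact hzb
  have honly : ∀ a ∈ Z, ∀ z ∈ Metric.ball a ε, F.eval z = q → z = a := by
    intro a ha z hz hzq
    by_contra hne
    have h1 := hsep z ((hmemZ z).2 hzq) a ha hne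
    rw [Metric.mem_ball, dist_eq_norm] at hz
    linarith
  -- the roots in the piece are near points of `T`
  have hpts : ∀ y ∈ (F - C w).roots.filter (· ∈ Δ), ∃ a ∈ hfin.toFinset,
      y ∈ Metric.ball a ε := by
    intro y hy
    rw [Multiset.mem_filter, mem_rt hF1] at hy
    obtain ⟨hyw, hyΔ⟩ := hy
    have h1 : ‖F.eval y - q‖ < ρ := by
      rw [hyw, ← dist_eq_norm, ← Metric.mem_ball]
      exact hκρ hwκ
    obtain ⟨a, haq, ha, hya⟩ := hnear y h1
    have hya' : y ∈ Metric.ball a ε := by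
      rw [Metric.mem_ball, dist_eq_norm]
      exact hya
    refine ⟨a, hfin.mem_toFinset.2 ⟨?_, n, by rw [← It_eval]; exact haq⟩, hya'⟩
    exact acs deg hP hF1 (It_eval G n) hκc hκp hqκ hκΔ hqΔ hyΔ (by rw [hyw]; exact hwκ)
      Metric.isOpen_ball (hVo a) (hVd a ha) (fun z hz => hcov a ha z (hκρ hz)) hya'
      (honly a ha)
  have hcount : ∀ a ∈ hfin.toFinset,
      (((F - C w).roots.filter (· ∈ Δ)).filter (· ∈ Metric.ball a ε)).card ≤
        G.natDegree ^ J := by
    intro a ha
    have haT := hfin.mem_toFinset.1 ha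
    have haq : F.eval a = q := hJ a haT n hnJ
    have haZ : a ∈ Z := (hmemZ a).2 haq
    have h1 : (((F - C w).roots.filter (· ∈ Δ)).filter (· ∈ Metric.ball a ε)).card ≤
        ((F - C w).roots.filter (· ∈ Metric.ball a ε)).card :=
      Multiset.card_le_card (Multiset.filter_le_filter _ (Multiset.filter_le _ _))
    refine h1.trans ?_
    rw [deg F (Metric.ball q ρ) (Metric.ball a ε) (V a) hF1 (convex_ball q ρ).isPreconnected
      Metric.isOpen_ball (hVo a) (hcov a haZ)
      (fun z _ hz hz' => Set.disjoint_left.1 (hVd a haZ) hz hz') w (hκρ hwκ) q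
      (Metric.mem_ball_self hρ)]
    have h2 : (F - C q).roots.filter (· ∈ Metric.ball a ε) =
        (F - C q).roots.filter (· = a) := by
      refine Multiset.filter_congr fun z hz => ?_
      rw [mem_rt hF1] at hz
      constructor
      · intro h
        exact honly a haZ z h hz
      · intro h
        rw [h]
        exact Metric.mem_ball_self hε
    rw [h2, Multiset.filter_eq', Multiset.card_replicate, count_roots]
    exact mult_le hd hq hq' hnJ (hJ a haT J le_rfl)
  have h1 := grow deg hd hP hc hc' (Classical.decPred _) n w hwΔ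
  have h2 := card_cover hfin.toFinset (fun a => Metric.ball a ε) (fun _ => Classical.decPred _)
    ((F - C w).roots.filter (· ∈ Δ)) hpts
  have h3 : ∑ a ∈ hfin.toFinset,
      (((F - C w).roots.filter (· ∈ Δ)).filter (· ∈ Metric.ball a ε)).card ≤ B := by
    rw [hB, ← smul_eq_mul, ← Finset.sum_const]
    exact Finset.sum_le_sum hcount
  have h4 := h1.trans (h2.trans h3)
  omega

end Pool.Agent.Imp
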