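import Pool.Agent.Lib.MP_1c105c_an.Defs6

/-! MP_1c105c_an, row REP: if all fixed points are repelling, two rays land together. -/

set_option autoImplicit false

open Filter Topology Set Polynomial

namespace Pool.Agent.Imp

namespace Rep

lemma per_nat {P : ℂ → ℂ} (h : ∀ u, P (u + Complex.I) = P u) (n : ℕ) (u : ℂ) :
    P (u + n * Complex.I) = P u := by
  induction n with
  | zero => simp
  | succ n ih =>
    have : u + ((n + 1 : ℕ) : ℂ) * Complex.I = (u + n * Complex.I) + Complex.I := by
      push_cast; ring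
    rw [this, h, ih]

lemma per_int {P : ℂ → ℂ} (h : ∀ u, P (u + Complex.I) = P u) (m : ℤ) (u : ℂ) :
    P (u + m * Complex.I) = P u := by
  obtain ⟨n, rfl | rfl⟩ := m.eq_nat_or_neg
  · exact_mod_cast per_nat h n u
  · have h1 := per_nat h n (u + ((-(n : ℤ) : ℤ) : ℂ) * Complex.I)
    have h2 : u + ((-(n : ℤ) : ℤ) : ℂ) * Complex.I + (n : ℂ) * Complex.I = u := by
      push_cast; ring
    rw [h2] at h1
    exact h1.symm

/-- Landing is invariant under integer translations. -/
lemma land_add {P : ℂ → ℂ} (h : ∀ u, P (u + Complex.I) = P u) {t : ℝ} {z : ℂ} (m : ℤ)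
    (hl : Land P (t + m) z) : Land P t z := by
  unfold Land at hl ⊢
  refine hl.congr fun s => ?_
  have h2 : (s : ℂ) + ((t + m : ℝ) : ℂ) * Complex.I
      = ((s : ℂ) + (t : ℂ) * Complex.I) + (m : ℂ) * Complex.I := by
    push_cast; ring
  rw [h2, per_int h]

/-- The image of a landing ray lands. -/
lemma land_mul {f : ℂ[X]} {P : ℂ → ℂ} (hd : 2 ≤ f.natDegree) (hP : Half f P) {t : ℝ} {z : ℂ}
    (hl : Land P t z) : Land P (f.natDegree * t) (f.eval z) := by
  unfold Land at hl ⊢
  have hd0 : (0 : ℝ) < f.natDegree := by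
    have : 0 < f.natDegree := by omega
    exact_mod_cast this
  have hd1 : (f.natDegree : ℂ) ≠ 0 := by
    have : f.natDegree ≠ 0 := by omega
    exact_mod_cast this
  have h1 : Tendsto (fun s : ℝ => s / f.natDegree) (𝓝[>] 0) (𝓝[>] 0) := by
    rw [tendsto_nhdsWithin_iff]
    constructor
    · have : Tendsto (fun s : ℝ => s / f.natDegree) (𝓝 0) (𝓝 (0 / f.natDegree)) :=
        tendsto_id.div_const _
      rw [zero_div] at this
      exact this.mono_left nhdsWithin_le_nhds
    · filter_upwards [self_mem_nhdsWithin] with s hs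
      exact div_pos hs hd0
  have h2 := (f.continuous.tendsto z).comp (hl.comp h1)
  refine h2.congr' ?_
  filter_upwards [self_mem_nhdsWithin] with s hs
  have hs0 : (0 : ℝ) < s := hs
  have h3 := hP.semi (((s / f.natDegree : ℝ) : ℂ) + (t : ℂ) * Complex.I) (by
    simp only [HP, mem_ofPred_eq, Complex.add_re, Complex.ofReal_re, Complex.mul_re,
      Complex.ofReal_im, Complex.I_re, Complex.I_im]
    have := div_pos hs0 hd0
    linarith)
  simp only [Function.comp]
  rw [h3]
  congr 1
  push_cast
  field_simp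

lemma land_unique {P : ℂ → ℂ} {t : ℝ} {z w : ℂ} (h1 : Land P t z) (h2 : Land P t w) : z = w :=
  tendsto_nhds_unique h1 h2

/-- If all fixed points are simple, there are `d` of them. -/
lemma card_fixed {f : ℂ[X]} (hd : 2 ≤ f.natDegree)
    (h : ∀ z, f.eval z = z → f.derivative.eval z ≠ 1) :
    (f - X).roots.toFinset.card = f.natDegree := by
  have hX : (X : ℂ[X]).natDegree = 1 := natDegree_X
  have hdeg : (f - X).natDegree = f.natDegree := by
    rw [natDegree_sub_eq_left_of_natDegree_lt]
    rw [hX]; omega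
  have hne : f - X ≠ 0 := by
    intro h0
    rw [h0, natDegree_zero] at hdeg
    omega
  have hroots : Multiset.card (f - X).roots = f.natDegree := by
    rw [← hdeg]
    exact (IsAlgClosed.splits (f - X)).natDegree_eq_card_roots.symm
  rw [← hroots]
  refine Multiset.toFinset_card_of_nodup ?_
  rw [Multiset.nodup_iff_count_le_one]
  intro z
  rw [count_roots]
  by_contra hlt
  have hlt' : 1 < (f - X).rootMultiplicity z := by omega
  rw [one_lt_rootMultiplicity_iff_isRoot hne] at hlt'
  obtain ⟨h1, h2⟩ := hlt'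
  have h1' : f.eval z = z := by
    have := h1
    simp only [IsRoot, eval_sub, eval_X] at this
    exact sub_eq_zero.mp this
  refine h z h1' ?_
  have := h2
  simp only [IsRoot, derivative_sub, derivative_X, eval_sub, eval_one] at this
  exact sub_eq_zero.mp this

end Rep

/-- REP: if all fixed points are repelling, two rays land together. -/
theorem rep (del : DelStatement) : RepStatement := by
  intro f P hd hP hinf hfix
  by_contra hno
  push Not at hno
  have hd1 : 0 < f.natDegree - 1 := by omega
  -- each fixed point is the landing point of a ray with fixed angle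
  have key : ∀ z : ℂ, f.eval z = z → ∃ (t : ℝ) (m : ℤ), Land P t z ∧
      (f.natDegree : ℝ) * t = t + m := by
    intro z hz
    obtain ⟨t, ht⟩ := del f P hd hP hinf z hz (hfix z hz)
    have h2 : Land P (f.natDegree * t) z := by
      have := Rep.land_mul hd hP ht
      rwa [hz] at this
    have h3 : ¬ ∀ m : ℤ, (f.natDegree : ℝ) * t ≠ t + m := fun hm => hno z ⟨t, _, ht, h2, hm⟩
    push Not at h3
    obtain ⟨m, hm⟩ := h3
    exact ⟨t, m, ht, hm⟩
  choose! T M hT hM using key
  have hcard : (f - X).roots.toFinset.card = f.natDegree := by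
    refine Rep.card_fixed hd fun z hz h1 => ?_
    have := hfix z hz
    rw [h1] at this
    simp at this
  have hmem : ∀ z, z ∈ (f - X).roots.toFinset → f.eval z = z := by
    intro z hz
    rw [Multiset.mem_toFinset] at hz
    have := isRoot_of_mem_roots hz
    simp only [IsRoot, eval_sub, eval_X] at this
    exact sub_eq_zero.mp this
  have hmaps : ∀ z ∈ (f - X).roots.toFinset,
      (M z % ((f.natDegree - 1 : ℕ) : ℤ)).toNat ∈ Finset.range (f.natDegree - 1) := by
    intro z _
    rw [Finset.mem_range]
    have h0 : (0 : ℤ) < ((f.natDegree - 1 : ℕ) : ℤ) := by exact_mod_cast hd1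
    have h1 := Int.emod_nonneg (M z) h0.ne'
    have h2 := Int.emod_lt_of_pos (M z) h0
    omega
  have hlt : (Finset.range (f.natDegree - 1)).card < (f - X).roots.toFinset.card := by
    rw [hcard, Finset.card_range]; omega
  obtain ⟨z, hz, w, hw, hzw, heq⟩ := Finset.exists_ne_map_eq_of_card_lt_of_maps_to hlt hmaps
  have h0 : (0 : ℤ) < ((f.natDegree - 1 : ℕ) : ℤ) := by exact_mod_cast hd1
  have hmod : M z % ((f.natDegree - 1 : ℕ) : ℤ) = M w % ((f.natDegree - 1 : ℕ) : ℤ) := by
    have h1 := Int.emod_nonneg (M z) h0.ne'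
    have h2 := Int.emod_nonneg (M w) h0.ne'
    omega
  obtain ⟨k, hk⟩ : ((f.natDegree - 1 : ℕ) : ℤ) ∣ M z - M w :=
    Int.ModEq.dvd (show M w ≡ M z [ZMOD _] from hmod.symm)
  have hTz := hM z (hmem z hz)
  have hTw := hM w (hmem w hw)
  have hc : (((f.natDegree - 1 : ℕ) : ℤ) : ℝ) = (f.natDegree : ℝ) - 1 := by
    rw [Nat.cast_sub (by omega)]; push_cast; ring
  have hdpos : (0 : ℝ) < (f.natDegree : ℝ) - 1 := by
    rw [← hc]; exact_mod_cast hd1
  have hk' : (M z : ℝ) - M w = ((f.natDegree : ℝ) - 1) * k := by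
    have := congrArg (fun x : ℤ => (x : ℝ)) hk
    simp only [Int.cast_sub, Int.cast_mul] at this
    rw [this, hc]
  have hT2 : T z = T w + k := by
    have : ((f.natDegree : ℝ) - 1) * (T z - (T w + k)) = 0 := by linarith
    rcases mul_eq_zero.mp this with h | h
    · exact absurd h hdpos.ne'
    · linarith
  have hl := hT z (hmem z hz)
  rw [hT2] at hl
  exact hzw (Rep.land_unique (Rep.land_add hP.per k hl) (hT w (hmem w hw)))

/-- The same with the unused row FIX. -/
theorem rep' (_fix : FixStatement) (del : DelStatement) : RepStatement := rep del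


end Pool.Agent.Imp
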