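import Pool.Agent.Lib.MP_1c105c_an.Defs6
import Pool.Agent.Lib.MP_1c105c_an.Rep

/-! MP_1c105c_an, row NR: if no two rays land together, there is only one periodic point that is
not repelling, and it is a fixed point. -/

set_option autoImplicit false

open Filter Topology Set Polynomial

namespace Pool.Agent.Imp

/-- SNA: the snail lemma. -/
def SnaStatement : Prop :=
  ∀ (f : ℂ[X]) (P : ℂ → ℂ), 2 ≤ f.natDegree → Half f P → ∀ (t : ℝ) (k : ℤ) (z₀ : ℂ),
    f.natDegree * t = t + k → Land P t z₀ →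
    1 < ‖f.derivative.eval z₀‖ ∨ f.derivative.eval z₀ = 1

/-- NR: if no two rays land together, there is a fixed point `α` with multiplier of modulus at
most one, and all other periodic points are simple zeros of `f^n(z) - z` and landing points of
exactly one ray, with fixed angle for `f^n` (from FIX, DEL). -/
def NrStatement : Prop :=
  ∀ (f : ℂ[X]) (P : ℂ → ℂ), 2 ≤ f.natDegree → Half f P →
    (∀ R : ℝ, ∃ M : ℝ, ∀ u : ℂ, M ≤ u.re → R ≤ ‖P u‖) → (∀ z, ¬ Bi P z) →
    ∃ α, f.eval α = α ∧ ‖f.derivative.eval α‖ ≤ 1 ∧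
      ∀ n : ℕ, 1 ≤ n → ∀ z, z ≠ α → (fun w => f.eval w)^[n] z = z →
        deriv (fun w => f.eval w)^[n] z ≠ 1 ∧
        (∃ (t : ℝ) (k : ℤ), (f.natDegree : ℝ) ^ n * t = t + k ∧ Land P t z) ∧
        ∀ t t' : ℝ, Land P t z → Land P t' z → ∃ m : ℤ, t' = t + m

/-- NR2: the same with repelling periodic points (from NR, SNA). -/
def Nr2Statement : Prop :=
  ∀ (f : ℂ[X]) (P : ℂ → ℂ), 2 ≤ f.natDegree → Half f P →
    (∀ R : ℝ, ∃ M : ℝ, ∀ u : ℂ, M ≤ u.re → R ≤ ‖P u‖) → (∀ z, ¬ Bi P z) →
    ∃ α, f.eval α = α ∧ ‖f.derivative.eval α‖ ≤ 1 ∧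
      ∀ n : ℕ, 1 ≤ n → ∀ z, z ≠ α → (fun w => f.eval w)^[n] z = z →
        1 < ‖deriv (fun w => f.eval w)^[n] z‖ ∧
        (∃ (t : ℝ) (k : ℤ), (f.natDegree : ℝ) ^ n * t = t + k ∧ Land P t z) ∧
        ∀ t t' : ℝ, Land P t z → Land P t' z → ∃ m : ℤ, t' = t + m

namespace Nr

/-- The iterate as a polynomial. -/
noncomputable def It (f : ℂ[X]) (n : ℕ) : ℂ[X] := f.comp^[n] X

lemma it_eval (f : ℂ[X]) (n : ℕ) (z : ℂ) : (It f n).eval z = (fun w => f.eval w)^[n] z := by
  rw [It, iterate_comp_eval, eval_X]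

lemma it_deg (f : ℂ[X]) (n : ℕ) : (It f n).natDegree = f.natDegree ^ n := by
  rw [It, natDegree_iterate_comp, natDegree_X, mul_one]

lemma it_one (f : ℂ[X]) : It f 1 = f := by
  rw [It, Function.iterate_one, comp_X]

lemma it_fun (f : ℂ[X]) (n : ℕ) : (fun w => (It f n).eval w) = (fun w => f.eval w)^[n] :=
  funext fun z => it_eval f n z

lemma it_deriv (f : ℂ[X]) (n : ℕ) (z : ℂ) :
    (It f n).derivative.eval z = deriv (fun w => f.eval w)^[n] z := by
  rw [← it_fun, Polynomial.deriv]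

lemma deg_two {f : ℂ[X]} (hd : 2 ≤ f.natDegree) {n : ℕ} (hn : 1 ≤ n) :
    2 ≤ (It f n).natDegree := by
  rw [it_deg]
  calc 2 ≤ f.natDegree := hd
    _ = f.natDegree ^ 1 := (pow_one _).symm
    _ ≤ f.natDegree ^ n := Nat.pow_le_pow_right (by omega) hn

lemma it_deriv_fixed (f : ℂ[X]) (n : ℕ) {z : ℂ} (hz : f.eval z = z) :
    (It f n).derivative.eval z = f.derivative.eval z ^ n := by
  rw [it_deriv]
  exact (HasDerivAt.iterate z (f.hasDerivAt z) hz n).deriv

lemma it_filled (f : ℂ[X]) {n : ℕ} (hn : 1 ≤ n) : filledJulia (It f n) = filledJulia f := by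
  ext z
  simp only [filledJulia, mem_ofPred_eq, it_fun, ← Function.iterate_mul]
  constructor
  · rintro ⟨R, hR⟩
    have hb : ∀ r : ℕ, ∃ C : ℝ, ∀ w ∈ Metric.closedBall (0 : ℂ) R,
        ‖(fun w => f.eval w)^[r] w‖ ≤ C := by
      intro r
      have hc : Continuous (fun w => f.eval w)^[r] := f.continuous.iterate r
      exact (isCompact_closedBall (0 : ℂ) R).exists_bound_of_continuousOn hc.continuousOn
    choose C hC using hb
    refine ⟨∑ r ∈ Finset.range n, |C r|, fun j => ?_⟩
    have h1 : j = j % n + n * (j / n) := (Nat.mod_add_div j n).symm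
    have h2 : (fun w => f.eval w)^[j] z
        = (fun w => f.eval w)^[j % n] ((fun w => f.eval w)^[n * (j / n)] z) := by
      rw [← Function.iterate_add_apply, ← h1]
    have h3 : j % n ∈ Finset.range n := Finset.mem_range.2 (Nat.mod_lt j (by omega))
    rw [h2]
    have h4 := hC (j % n) ((fun w => f.eval w)^[n * (j / n)] z) (by
      rw [mem_closedBall_zero_iff]
      exact hR (j / n))
    calc _ ≤ C (j % n) := h4
      _ ≤ |C (j % n)| := le_abs_self _
      _ ≤ ∑ r ∈ Finset.range n, |C r| :=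
        Finset.single_le_sum (f := fun r => |C r|) (fun _ _ => abs_nonneg _) h3
  · rintro ⟨R, hR⟩
    exact ⟨R, fun k => hR (n * k)⟩

lemma it_half {f : ℂ[X]} {P : ℂ → ℂ} (hd : 2 ≤ f.natDegree) (hP : Half f P) {n : ℕ}
    (hn : 1 ≤ n) : Half (It f n) P := by
  refine ⟨hP.diff, hP.inj, hP.per, ?_, ?_, hP.bdd⟩
  · rw [it_filled f hn]; exact hP.range
  · intro u hu
    rw [it_eval, it_deg]
    have key : ∀ m : ℕ, (fun w => f.eval w)^[m] (P u) = P ((f.natDegree : ℂ) ^ m * u) := by
      intro m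
      induction m with
      | zero => simp
      | succ m ih =>
        rw [Function.iterate_succ_apply', ih]
        have h1 : (f.natDegree : ℂ) ^ m * u ∈ HP := by
          have h2 : (0 : ℝ) < (f.natDegree : ℝ) ^ m := by
            have : 0 < f.natDegree := by omega
            positivity
          have h3 : ((f.natDegree : ℂ) ^ m * u).re = (f.natDegree : ℝ) ^ m * u.re := by
            have : (f.natDegree : ℂ) ^ m = (((f.natDegree : ℝ) ^ m : ℝ) : ℂ) := by push_cast; rfl
            rw [this, Complex.re_ofReal_mul]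
          change 0 < ((f.natDegree : ℂ) ^ m * u).re
          rw [h3]
          exact mul_pos h2 hu
        show f.eval (P ((f.natDegree : ℂ) ^ m * u)) = _
        rw [hP.semi _ h1]
        congr 1
        ring
    rw [key n]
    push_cast
    rfl

/-- Rays that land at the same point have the same angle modulo integers. -/
lemma uniq_ray {P : ℂ → ℂ} (hno : ∀ z, ¬ Bi P z) {t t' : ℝ} {z : ℂ} (h : Land P t z)
    (h' : Land P t' z) : ∃ m : ℤ, t' = t + m := by
  by_contra hm
  push Not at hm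
  exact hno z ⟨t, t', h, h', hm⟩

/-- For one polynomial: the `d - 1` landing points and one more fixed point. -/
lemma roots_eq (fix : FixStatement) {f : ℂ[X]} {P : ℂ → ℂ} (hd : 2 ≤ f.natDegree)
    (hP : Half f P) (hno : ∀ z, ¬ Bi P z) :
    ∃ (S : Finset ℂ) (α : ℂ), (f - X).roots = α ::ₘ S.val ∧
      (∀ z ∈ S, ∃ (t : ℝ) (k : ℤ), (f.natDegree : ℝ) * t = t + k ∧ Land P t z) ∧
      ∀ (z : ℂ) (t : ℝ), f.eval z = z → Land P t z → z ∈ S := by
  have hD1 : 0 < f.natDegree - 1 := by omega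
  have hc : (((f.natDegree - 1 : ℕ) : ℤ) : ℝ) = (f.natDegree : ℝ) - 1 := by
    rw [Nat.cast_sub (by omega)]; push_cast; ring
  have hdpos : (0 : ℝ) < (f.natDegree : ℝ) - 1 := by
    rw [← hc]; exact_mod_cast hD1
  have hray : ∀ k : ℕ, ∃ z, f.eval z = z ∧ Land P ((k : ℝ) / ((f.natDegree : ℝ) - 1)) z := by
    intro k
    refine fix f P hd hP _ (k : ℤ) ?_
    field_simp
    push_cast
    ring
  choose Z hZf hZl using hray
  have hinj : Set.InjOn Z (Finset.range (f.natDegree - 1) : Set ℕ) := by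
    intro a ha b hb hab
    rw [Finset.coe_range, mem_Iio] at ha hb
    have h1 := hZl a
    have h2 := hZl b
    rw [← hab] at h2
    obtain ⟨m, hm⟩ := uniq_ray hno h1 h2
    rw [div_eq_iff hdpos.ne', add_mul, div_mul_cancel₀ _ hdpos.ne'] at hm
    have h3 : ((b : ℤ) : ℝ) = ((a : ℤ) + m * ((f.natDegree - 1 : ℕ) : ℤ) : ℤ) := by
      push_cast
      push_cast at hc
      rw [hc]
      linarith
    have h4 : (b : ℤ) = (a : ℤ) + m * ((f.natDegree - 1 : ℕ) : ℤ) := by exact_mod_cast h3
    have h5 : (b : ℤ) % ((f.natDegree - 1 : ℕ) : ℤ) = (a : ℤ) % ((f.natDegree - 1 : ℕ) : ℤ) := by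
      rw [h4, Int.add_mul_emod_self_right]
    rw [Int.emod_eq_of_lt (by omega) (by exact_mod_cast hb),
      Int.emod_eq_of_lt (by omega) (by exact_mod_cast ha)] at h5
    exact_mod_cast h5.symm
  set S : Finset ℂ := (Finset.range (f.natDegree - 1)).image Z with hS
  have hScard : S.card = f.natDegree - 1 := by
    rw [hS, Finset.card_image_of_injOn hinj, Finset.card_range]
  have hX : (X : ℂ[X]).natDegree = 1 := natDegree_X
  have hdeg : (f - X).natDegree = f.natDegree := by
    rw [natDegree_sub_eq_left_of_natDegree_lt]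
    rw [hX]; omega
  have hne : f - X ≠ 0 := by
    intro h0
    rw [h0, natDegree_zero] at hdeg
    omega
  have hroots : Multiset.card (f - X).roots = f.natDegree := by
    conv_rhs => rw [← hdeg]
    exact (IsAlgClosed.splits (f - X)).natDegree_eq_card_roots.symm
  have hle : S.val ≤ (f - X).roots := by
    rw [Multiset.le_iff_subset S.nodup]
    intro z hz
    have hz' : z ∈ S := hz
    rw [hS, Finset.mem_image] at hz'
    obtain ⟨k, -, rfl⟩ := hz'
    rw [mem_roots hne]
    simp only [IsRoot, eval_sub, eval_X, hZf k, sub_self]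
  obtain ⟨α, hα⟩ : ∃ α, (f - X).roots - S.val = {α} := by
    rw [← Multiset.card_eq_one, Multiset.card_sub hle, hroots]
    have : Multiset.card S.val = f.natDegree - 1 := hScard
    omega
  refine ⟨S, α, ?_, ?_, ?_⟩
  · have h1 := tsub_add_cancel_of_le hle
    rw [← h1, hα, Multiset.singleton_add]
  · intro z hz
    rw [hS, Finset.mem_image] at hz
    obtain ⟨k, -, rfl⟩ := hz
    refine ⟨_, (k : ℤ), ?_, hZl k⟩
    field_simp
    push_cast
    ring
  · intro z t hz hl
    have h2 : Land P (f.natDegree * t) z := by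
      have := Rep.land_mul hd hP hl
      rwa [hz] at this
    obtain ⟨m, hm⟩ := uniq_ray hno hl h2
    have h0 : (0 : ℤ) < ((f.natDegree - 1 : ℕ) : ℤ) := by exact_mod_cast hD1
    set k : ℕ := (m % ((f.natDegree - 1 : ℕ) : ℤ)).toNat with hk
    set q : ℤ := m / ((f.natDegree - 1 : ℕ) : ℤ) with hq
    have h1 := Int.emod_nonneg m h0.ne'
    have h3 := Int.emod_lt_of_pos m h0
    have h4 : m = (k : ℤ) + ((f.natDegree - 1 : ℕ) : ℤ) * q := by
      rw [hk, Int.toNat_of_nonneg h1, hq]
      exact (Int.emod_add_mul_ediv m _).symm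
    have h5 : t = (k : ℝ) / ((f.natDegree : ℝ) - 1) + q := by
      have h6 : (m : ℝ) = (k : ℝ) + ((f.natDegree : ℝ) - 1) * q := by
        have := congrArg (fun x : ℤ => (x : ℝ)) h4
        simp only [Int.cast_add, Int.cast_mul] at this
        rw [this, hc]
        push_cast
        ring
      have h7 : ((f.natDegree : ℝ) - 1) * t = m := by linarith
      rw [eq_comm, div_add' _ _ _ hdpos.ne', div_eq_iff hdpos.ne']
      linarith
    rw [h5] at hl
    have h8 := Rep.land_add hP.per q hl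
    rw [Rep.land_unique h8 (hZl k), hS, Finset.mem_image]
    exact ⟨k, Finset.mem_range.2 (by omega), rfl⟩

/-- Simple zeros. -/
lemma deriv_one_iff {f : ℂ[X]} (hne : f - X ≠ 0) {z : ℂ} (hz : f.eval z = z) :
    f.derivative.eval z = 1 ↔ 1 < (f - X).roots.count z := by
  rw [count_roots, one_lt_rootMultiplicity_iff_isRoot hne]
  simp only [IsRoot, derivative_sub, derivative_X, eval_sub, eval_one, eval_X, hz, sub_self,
    true_and]
  exact sub_eq_zero.symm

end Nr

/-- NR. -/
theorem nr (fix : FixStatement) (del : DelStatement) : NrStatement := by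
  intro f P hd hP hinf hno
  have hne : ∀ n, 1 ≤ n → Nr.It f n - X ≠ 0 := by
    intro n hn h0
    have hD := Nr.deg_two hd hn
    have hdeg : (Nr.It f n - X).natDegree = (Nr.It f n).natDegree := by
      rw [natDegree_sub_eq_left_of_natDegree_lt]
      rw [natDegree_X]; omega
    rw [h0, natDegree_zero] at hdeg
    omega
  obtain ⟨S₁, α, hr₁, hS₁, hm₁⟩ := Nr.roots_eq fix hd hP hno
  have hne₁ : f - X ≠ 0 := by
    have := hne 1 le_rfl
    rwa [Nr.it_one] at this
  have hαf : f.eval α = α := by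
    have h1 : α ∈ (f - X).roots := by rw [hr₁]; exact Multiset.mem_cons_self _ _
    rw [mem_roots hne₁] at h1
    simp only [IsRoot, eval_sub, eval_X] at h1
    exact sub_eq_zero.mp h1
  -- if a ray lands at `α`, the multiplier is one
  have hα1 : ∀ t, Land P t α → f.derivative.eval α = 1 := by
    intro t ht
    rw [Nr.deriv_one_iff hne₁ hαf, hr₁, Multiset.count_cons_self]
    have h2 : α ∈ S₁ := hm₁ α t hαf ht
    have h3 : 0 < Multiset.count α S₁.val := Multiset.count_pos.2 h2
    omega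
  refine ⟨α, hαf, ?_, ?_⟩
  · by_contra hlt
    push Not at hlt
    obtain ⟨t, ht⟩ := del f P hd hP hinf α hαf hlt
    rw [hα1 t ht] at hlt
    simp at hlt
  · intro n hn z hz hfz
    have hD := Nr.deg_two hd hn
    have hH := Nr.it_half hd hP hn
    obtain ⟨S, β, hr, hS, hm⟩ := Nr.roots_eq fix hD hH hno
    have hαn : (Nr.It f n).eval α = α := by
      rw [Nr.it_eval]
      exact Function.iterate_fixed (f := fun w => f.eval w) hαf n
    have hzn : (Nr.It f n).eval z = z := by rw [Nr.it_eval]; exact hfz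
    have hβ : β = α := by
      by_cases hαS : α ∈ S
      · obtain ⟨t, k, -, ht⟩ := hS α hαS
        have h1 : (Nr.It f n).derivative.eval α = 1 := by
          rw [Nr.it_deriv_fixed f n hαf, hα1 t ht, one_pow]
        rw [Nr.deriv_one_iff (hne n hn) hαn, hr] at h1
        by_contra hβ
        rw [Multiset.count_cons_of_ne (Ne.symm hβ)] at h1
        have h2 := Multiset.nodup_iff_count_le_one.1 S.nodup α
        omega
      · have h1 : α ∈ (Nr.It f n - X).roots := by
          rw [mem_roots (hne n hn)]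
          simp only [IsRoot, eval_sub, eval_X, hαn, sub_self]
        rw [hr, Multiset.mem_cons] at h1
        rcases h1 with h1 | h1
        · exact h1.symm
        · exact absurd h1 hαS
    rw [hβ] at hr
    have hzS : z ∈ S := by
      have h1 : z ∈ (Nr.It f n - X).roots := by
        rw [mem_roots (hne n hn)]
        simp only [IsRoot, eval_sub, eval_X, hzn, sub_self]
      rw [hr, Multiset.mem_cons] at h1
      rcases h1 with h1 | h1
      · exact absurd h1 hz
      · exact h1
    refine ⟨?_, ?_, ?_⟩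
    · intro h1
      rw [← Nr.it_deriv, Nr.deriv_one_iff (hne n hn) hzn, hr, Multiset.count_cons_of_ne hz] at h1
      have h2 := Multiset.nodup_iff_count_le_one.1 S.nodup z
      omega
    · obtain ⟨t, k, htk, ht⟩ := hS z hzS
      refine ⟨t, k, ?_, ht⟩
      rw [Nr.it_deg] at htk
      push_cast at htk
      exact htk
    · intro t t' h h'
      exact Nr.uniq_ray hno h h'

/-- NR2. -/
theorem nr2 (nr : NrStatement) (sna : SnaStatement) : Nr2Statement := by
  intro f P hd hP hinf hno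
  obtain ⟨α, hα, hα1, h⟩ := nr f P hd hP hinf hno
  refine ⟨α, hα, hα1, fun n hn z hz hfz => ?_⟩
  obtain ⟨h1, ⟨t, k, htk, ht⟩, h3⟩ := h n hn z hz hfz
  refine ⟨?_, ⟨t, k, htk, ht⟩, h3⟩
  have h4 := sna (Nr.It f n) P (Nr.deg_two hd hn) (Nr.it_half hd hP hn) t k z (by
    rw [Nr.it_deg]; push_cast; exact htk) ht
  rw [Nr.it_deriv] at h4
  rcases h4 with h4 | h4
  · exact h4
  · exact absurd h4 h1

/-- NR3: the final form in the half plane model: there is exactly one non-repelling periodic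
point, a fixed point, and all the others are landing points of exactly one ray. -/
def Nr3Statement : Prop :=
  ∀ (f : ℂ[X]) (P : ℂ → ℂ), 2 ≤ f.natDegree → Half f P →
    (∀ R : ℝ, ∃ M : ℝ, ∀ u : ℂ, M ≤ u.re → R ≤ ‖P u‖) → (¬ ∃ z, Bi P z) →
    ∃ α, f.eval α = α ∧ ‖f.derivative.eval α‖ ≤ 1 ∧
      ∀ (n : ℕ) (z : ℂ), 1 ≤ n → (fun w => f.eval w)^[n] z = z → z ≠ α →
        1 < ‖deriv (fun w => f.eval w)^[n] z‖ ∧
        ∃! θ : ℝ, θ ∈ Set.Ico (0 : ℝ) 1 ∧ Land P θ z

/-- NR3. -/
theorem nr3 (fix : FixStatement) (del : DelStatement) (sna : SnaStatement) : Nr3Statement := by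
  intro f P hd hP hinf hno
  obtain ⟨α, hα, hα1, h⟩ := nr2 (nr fix del) sna f P hd hP hinf (fun z hz => hno ⟨z, hz⟩)
  refine ⟨α, hα, hα1, fun n z hn hfz hz => ?_⟩
  obtain ⟨h1, ⟨t, k, -, ht⟩, h3⟩ := h n hn z hz hfz
  refine ⟨h1, Int.fract t, ⟨⟨Int.fract_nonneg t, Int.fract_lt_one t⟩, ?_⟩, ?_⟩
  · have h4 : Int.fract t + (⌊t⌋ : ℤ) = t := Int.fract_add_floor t
    rw [← h4] at ht
    exact Rep.land_add hP.per _ ht
  · rintro θ ⟨hθ, hl⟩
    obtain ⟨m, hm⟩ := h3 t θ ht hl
    have h5 : Int.fract θ = Int.fract t := by rw [hm, Int.fract_add_intCast]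
    rw [← h5]
    exact (Int.fract_eq_self.2 ⟨hθ.1, hθ.2⟩).symm

end Pool.Agent.Imp
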