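import Pool.Agent.Lib.MP_1c105c_an.Defs15
import Pool.Agent.Lib.MP_1c105c_an.Nr

/-! MP_1c105c_an: a ray that does not accumulate at a point of `K` misses a neighbourhood of it
(ACF). -/

set_option autoImplicit false

open Filter Topology Set Polynomial

namespace Pool.Agent.Imp

/-- ACF. -/
theorem acf : AcfStatement := by
  intro f P hd hP hinf α s hα hs
  obtain ⟨R, hR⟩ := hα
  -- near the end of the ray
  obtain ⟨ρ₁, hρ₁0, ε, hε, hεw⟩ : ∃ ρ₁ : ℝ, 0 < ρ₁ ∧ ∃ ε : ℝ, 0 < ε ∧ ∀ x : ℝ, 0 < x → x < ε →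
      P (x + s * Complex.I) ∉ Metric.ball α ρ₁ := by
    have h1 : ¬ MapClusterPt α (𝓝[>] (0 : ℝ)) fun x : ℝ => P (x + s * Complex.I) := hs
    rw [mapClusterPt_iff_frequently] at h1
    push Not at h1
    obtain ⟨V, hV, h2⟩ := h1
    obtain ⟨ρ, hρ, hρV⟩ := Metric.mem_nhds_iff.1 hV
    obtain ⟨ε, hε, h3⟩ := mem_nhdsGT_iff_exists_Ioo_subset.1 h2
    exact ⟨ρ, hρ, ε, hε, fun x hx hxe hmem => h3 ⟨hx, hxe⟩ (hρV hmem)⟩
  -- away from the end of the ray
  obtain ⟨M, hM⟩ := hinf (R + 2)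
  have hd1 : (1 : ℝ) < f.natDegree := by
    have : 1 < f.natDegree := by omega
    exact_mod_cast this
  obtain ⟨n, hn1, hnM⟩ : ∃ n : ℕ, 1 ≤ n ∧ M ≤ (f.natDegree : ℝ) ^ n * ε := by
    obtain ⟨n, hn⟩ := pow_unbounded_of_one_lt (M / ε) hd1
    refine ⟨n + 1, by omega, ?_⟩
    rw [div_lt_iff₀ hε] at hn
    have h1 : (f.natDegree : ℝ) ^ n * ε ≤ (f.natDegree : ℝ) ^ (n + 1) * ε := by
      refine mul_le_mul_of_nonneg_right ?_ hε.le
      exact pow_le_pow_right₀ hd1.le (by omega)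
    linarith
  have hcont : ContinuousAt (fun z => (Nr.It f n).eval z) α := (Nr.It f n).continuous.continuousAt
  obtain ⟨ρ₂, hρ₂, hρ₂'⟩ := Metric.continuousAt_iff.1 hcont 1 one_pos
  refine ⟨min ρ₁ ρ₂, lt_min hρ₁0 hρ₂, fun x hx hmem => ?_⟩
  rcases lt_or_ge x ε with hxe | hxe
  · exact hεw x hx hxe (Metric.ball_subset_ball (min_le_left _ _) hmem)
  · have h1 : dist (P (x + s * Complex.I)) α < ρ₂ :=
      (Metric.mem_ball.1 hmem).trans_le (min_le_right _ _)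
    have h2 := hρ₂' h1
    have hu : (x : ℂ) + s * Complex.I ∈ HP := by
      show 0 < ((x : ℂ) + s * Complex.I).re
      simpa using hx
    have h3 := (Nr.it_half hd hP hn1).semi _ hu
    rw [h3, Nr.it_eval, Nr.it_deg, dist_eq_norm] at h2
    have h4 := hM (((f.natDegree ^ n : ℕ) : ℂ) * ((x : ℂ) + s * Complex.I)) (by
      rw [← Complex.ofReal_natCast, Complex.re_ofReal_mul]
      have h5 : ((x : ℂ) + s * Complex.I).re = x := by simp
      rw [h5]
      push_cast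
      have h6 : (f.natDegree : ℝ) ^ n * ε ≤ (f.natDegree : ℝ) ^ n * x :=
        mul_le_mul_of_nonneg_left hxe (by positivity)
      linarith)
    have h5 := norm_sub_norm_le (P (((f.natDegree ^ n : ℕ) : ℂ) * ((x : ℂ) + s * Complex.I)))
      ((fun w => f.eval w)^[n] α)
    have h6 := hR n
    linarith

end Pool.Agent.Imp
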