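import Pool.Agent.Lib.MP_1c105c_an.Defs

/-! Row BAI: if every ray lands, some impression is trivial. -/

set_option autoImplicit false

open Filter Topology Set

namespace Pool.Agent.Imp

namespace Bai

/-- the boundary points on whose ray `P` varies by at most `ε` below the height `1 / (n + 1)` -/
def cl (P : ℂ → ℂ) (ε : ℝ) (n : ℕ) : Set ℝ :=
  {t | ∀ s s' : ℝ, 0 < s → s ≤ 1 / (n + 1) → 0 < s' → s' ≤ 1 / (n + 1) →
    ‖P (s + t * Complex.I) - P (s' + t * Complex.I)‖ ≤ ε}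

theorem mem_HP {s t : ℝ} (hs : 0 < s) : (s : ℂ) + t * Complex.I ∈ HP := by
  simp [HP, hs]

theorem cont_line {P : ℂ → ℂ} (hP : ContinuousOn P HP) {s : ℝ} (hs : 0 < s) :
    Continuous fun t : ℝ => P (s + t * Complex.I) := by
  have h1 : Continuous fun t : ℝ => (s : ℂ) + t * Complex.I := by fun_prop
  exact hP.comp_continuous h1 fun t => mem_HP hs

theorem isClosed_cl {P : ℂ → ℂ} (hP : ContinuousOn P HP) (ε : ℝ) (n : ℕ) :
    IsClosed (cl P ε n) := by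
  have h : cl P ε n = ⋂ (s : ℝ) (s' : ℝ) (_ : 0 < s) (_ : s ≤ 1 / (n + 1)) (_ : 0 < s')
      (_ : s' ≤ 1 / (n + 1)),
      {t : ℝ | ‖P (s + t * Complex.I) - P (s' + t * Complex.I)‖ ≤ ε} := by
    ext t
    simp only [cl, mem_iInter]
    exact Iff.rfl
  rw [h]
  refine isClosed_iInter fun s => isClosed_iInter fun s' => isClosed_iInter fun h1 =>
    isClosed_iInter fun _ => isClosed_iInter fun h2 => isClosed_iInter fun _ => ?_
  exact isClosed_le ((cont_line hP h1).sub (cont_line hP h2)).norm continuous_const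

theorem iUnion_cl {P : ℂ → ℂ}
    (hl : ∀ t : ℝ, ∃ z, Tendsto (fun s : ℝ => P (s + t * Complex.I)) (𝓝[>] 0) (𝓝 z))
    {ε : ℝ} (hε : 0 < ε) : ⋃ n, cl P ε n = univ := by
  rw [eq_univ_iff_forall]
  intro t
  obtain ⟨z, hz⟩ := hl t
  have h1 : ∀ᶠ s : ℝ in 𝓝[>] 0, ‖P (s + t * Complex.I) - z‖ < ε / 2 := by
    have := (Metric.tendsto_nhds.1 hz) (ε / 2) (by positivity)
    simpa [dist_eq_norm] using this
  rw [eventually_nhdsWithin_iff, Metric.eventually_nhds_iff] at h1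
  obtain ⟨η, hη, h2⟩ := h1
  obtain ⟨n, hn⟩ := exists_nat_one_div_lt hη
  have h3 : ∀ s : ℝ, 0 < s → s ≤ 1 / (n + 1) → ‖P (s + t * Complex.I) - z‖ < ε / 2 := by
    intro s hs hs'
    refine h2 ?_ hs
    rw [Real.dist_eq, sub_zero, abs_of_pos hs]
    exact lt_of_le_of_lt hs' hn
  refine mem_iUnion.2 ⟨n, fun s s' a1 a2 a3 a4 => ?_⟩
  have e : P (s + t * Complex.I) - P (s' + t * Complex.I) =
      (P (s + t * Complex.I) - z) - (P (s' + t * Complex.I) - z) := by ring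
  rw [e]
  have h4 := norm_sub_le (P (s + t * Complex.I) - z) (P (s' + t * Complex.I) - z)
  have h5 := h3 s a1 a2
  have h6 := h3 s' a3 a4
  linarith

theorem neBot (t : ℝ) : (𝓝[HP] ((t : ℂ) * Complex.I)).NeBot := by
  rw [← mem_closure_iff_nhdsWithin_neBot, Metric.mem_closure_iff]
  intro ε hε
  refine ⟨((ε / 2 : ℝ) : ℂ) + t * Complex.I, mem_HP (by positivity), ?_⟩
  rw [dist_eq_norm]
  have e : (t : ℂ) * Complex.I - (((ε / 2 : ℝ) : ℂ) + t * Complex.I) = ((-(ε / 2) : ℝ) : ℂ) := by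
    push_cast; ring
  rw [e, Complex.norm_real, Real.norm_eq_abs, abs_neg, abs_of_pos (by positivity)]
  linarith

theorem small {P : ℂ → ℂ} (hP : ContinuousOn P HP) {ε : ℝ} (hε : 0 < ε) {t : ℝ} {n : ℕ}
    (ht : t ∈ interior (cl P ε n)) :
    ∃ N ∈ 𝓝[HP] ((t : ℂ) * Complex.I), ∀ u ∈ N, ∀ v ∈ N, ‖P u - P v‖ ≤ 4 * ε := by
  rw [mem_interior_iff_mem_nhds] at ht
  set s₀ : ℝ := 1 / (n + 1) with hs₀
  have hs₀pos : 0 < s₀ := by rw [hs₀]; positivity
  have h1 : ∀ᶠ t' : ℝ in 𝓝 t, ‖P (s₀ + t' * Complex.I) - P (s₀ + t * Complex.I)‖ < ε := by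
    have := (Metric.tendsto_nhds.1 ((cont_line hP hs₀pos).tendsto t)) ε hε
    simpa [dist_eq_norm] using this
  have h2 : ∀ᶠ t' : ℝ in 𝓝 t, t' ∈ cl P ε n ∧
      ‖P (s₀ + t' * Complex.I) - P (s₀ + t * Complex.I)‖ < ε := Filter.Eventually.and ht h1
  have him : Tendsto (fun u : ℂ => u.im) (𝓝[HP] ((t : ℂ) * Complex.I)) (𝓝 t) := by
    have h := (Complex.continuous_im.tendsto ((t : ℂ) * Complex.I))
    have e : ((t : ℂ) * Complex.I).im = t := by simp
    rw [e] at h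
    exact h.mono_left nhdsWithin_le_nhds
  have hre : Tendsto (fun u : ℂ => u.re) (𝓝[HP] ((t : ℂ) * Complex.I)) (𝓝 0) := by
    have h := (Complex.continuous_re.tendsto ((t : ℂ) * Complex.I))
    have e : ((t : ℂ) * Complex.I).re = 0 := by simp
    rw [e] at h
    exact h.mono_left nhdsWithin_le_nhds
  have h3 : ∀ᶠ u in 𝓝[HP] ((t : ℂ) * Complex.I), u ∈ HP ∧ u.re < s₀ ∧ u.im ∈ cl P ε n ∧
      ‖P (s₀ + u.im * Complex.I) - P (s₀ + t * Complex.I)‖ < ε := by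
    filter_upwards [self_mem_nhdsWithin, hre.eventually_lt_const hs₀pos, him.eventually h2]
      with u a1 a2 a3
    exact ⟨a1, a2, a3.1, a3.2⟩
  refine ⟨_, h3, ?_⟩
  have key : ∀ u : ℂ, u ∈ HP → u.re < s₀ → u.im ∈ cl P ε n →
      ‖P (s₀ + u.im * Complex.I) - P (s₀ + t * Complex.I)‖ < ε →
      ‖P u - P (s₀ + t * Complex.I)‖ ≤ 2 * ε := by
    intro u a1 a2 a3 a4
    have a1' : 0 < u.re := a1
    have b1 := a3 u.re s₀ a1' (by rw [← hs₀]; exact a2.le) hs₀pos (le_of_eq hs₀)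
    rw [Complex.re_add_im] at b1
    have e : P u - P (s₀ + t * Complex.I) = (P u - P (s₀ + u.im * Complex.I)) +
        (P (s₀ + u.im * Complex.I) - P (s₀ + t * Complex.I)) := by ring
    rw [e]
    refine (norm_add_le _ _).trans ?_
    linarith
  rintro u ⟨u1, u2, u3, u4⟩ v ⟨v1, v2, v3, v4⟩
  have hu := key u u1 u2 u3 u4
  have hv := key v v1 v2 v3 v4
  have e : P u - P v = (P u - P (s₀ + t * Complex.I)) - (P v - P (s₀ + t * Complex.I)) := by ring
  rw [e]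
  refine (norm_sub_le _ _).trans ?_
  linarith

end Bai

theorem bai : BaireStatement := by
  intro P hP hl
  have h1 : ∀ k : ℕ, Dense (⋃ n, interior (Bai.cl P (1 / ((k : ℝ) + 1)) n)) := fun k =>
    dense_iUnion_interior_of_closed (fun n => Bai.isClosed_cl hP _ n)
      (Bai.iUnion_cl hl (by positivity))
  have h2 : Dense (⋂ k : ℕ, ⋃ n, interior (Bai.cl P (1 / ((k : ℝ) + 1)) n)) :=
    dense_iInter_of_isOpen (fun k => isOpen_iUnion fun n => isOpen_interior) h1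
  obtain ⟨t, ht⟩ := h2.nonempty
  refine ⟨t, ?_⟩
  have hne : (𝓝[HP] ((t : ℂ) * Complex.I)).NeBot := Bai.neBot t
  have hc : Cauchy (map P (𝓝[HP] ((t : ℂ) * Complex.I))) := by
    rw [Metric.cauchy_iff]
    refine ⟨hne.map P, fun ε hε => ?_⟩
    obtain ⟨k, hk⟩ := exists_nat_one_div_lt (show 0 < ε / 4 by positivity)
    have htk := mem_iInter.1 ht k
    obtain ⟨n, hn⟩ := mem_iUnion.1 htk
    obtain ⟨N, hN, hN2⟩ := Bai.small hP (by positivity) hn
    refine ⟨P '' N, image_mem_map hN, ?_⟩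
    rintro _ ⟨u, hu, rfl⟩ _ ⟨v, hv, rfl⟩
    rw [dist_eq_norm]
    have h3 := hN2 u hu v hv
    linarith
  obtain ⟨z, hz⟩ := cauchy_map_iff_exists_tendsto.1 hc
  exact ⟨z, hz⟩

end Pool.Agent.Imp
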