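import Pool.Agent.Lib.MP_1c105c_an.Defs3

/-! MP_1c105c_an: small impressions give small oscillation (row IMPR). -/

set_option autoImplicit false

open Filter Topology Set Polynomial

namespace Pool.Agent.Imp

namespace Impr

/-- `exp (2 π u)` carries the half plane at `i θ` to the outside of the disc at `exp (2 π i θ)`. -/
theorem tendsto_expo (θ : ℝ) :
    Tendsto (fun u : ℂ => Complex.exp (2 * Real.pi * u)) (𝓝[HP] ((θ : ℂ) * Complex.I))
      (𝓝[{w : ℂ | 1 < ‖w‖}] Complex.exp (2 * Real.pi * θ * Complex.I)) := by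
  refine tendsto_nhdsWithin_iff.2 ⟨?_, ?_⟩
  · have h : Continuous (fun u : ℂ => Complex.exp (2 * Real.pi * u)) := by fun_prop
    have h2 := (h.tendsto ((θ : ℂ) * Complex.I)).mono_left
      (nhdsWithin_le_nhds (s := HP))
    have e : (2 * Real.pi * ((θ : ℂ) * Complex.I) : ℂ) = 2 * Real.pi * θ * Complex.I := by ring
    simpa only [e] using h2
  · filter_upwards [self_mem_nhdsWithin] with u hu
    have hu' : 0 < u.re := hu
    have hre : (2 * Real.pi * u : ℂ).re = 2 * Real.pi * u.re := by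
      have : (2 * Real.pi * u : ℂ) = ((2 * Real.pi : ℝ) : ℂ) * u := by push_cast; ring
      rw [this, Complex.re_ofReal_mul]
    show 1 < ‖Complex.exp (2 * Real.pi * u)‖
    rw [Complex.norm_exp, hre]
    exact Real.one_lt_exp_iff.2 (by positivity)

/-- A point with `1 < ‖w‖ ≤ e` is `exp (2 π u)` with `0 < Re u ≤ 1`. -/
theorem exists_param (w : ℂ) (h : 1 < ‖w‖) (h2 : ‖w‖ ≤ Real.exp 1) :
    ∃ u : ℂ, 0 < u.re ∧ u.re ≤ 1 ∧ Complex.exp (2 * Real.pi * u) = w := by
  have hw : w ≠ 0 := by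
    intro h0
    rw [h0, norm_zero] at h
    linarith
  have hpi : (0 : ℝ) < 2 * Real.pi := by positivity
  refine ⟨((2 * Real.pi)⁻¹ : ℝ) * Complex.log w, ?_, ?_, ?_⟩
  · rw [Complex.re_ofReal_mul, Complex.log_re]
    exact mul_pos (inv_pos.2 hpi) (Real.log_pos h)
  · rw [Complex.re_ofReal_mul, Complex.log_re]
    have h3 : Real.log ‖w‖ ≤ 1 := by
      have := Real.log_le_log (by linarith) h2
      rwa [Real.log_exp] at this
    have h4 : (2 * Real.pi)⁻¹ ≤ 1 := by
      refine inv_le_one_of_one_le₀ ?_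
      have := Real.pi_gt_three
      linarith
    have h5 : 0 ≤ Real.log ‖w‖ := Real.log_nonneg h.le
    calc (2 * Real.pi)⁻¹ * Real.log ‖w‖ ≤ 1 * Real.log ‖w‖ :=
          mul_le_mul_of_nonneg_right h4 h5
      _ ≤ 1 := by linarith
  · have e : (2 * Real.pi * (((2 * Real.pi)⁻¹ : ℝ) * Complex.log w) : ℂ) = Complex.log w := by
      have hpi' : (Real.pi : ℂ) ≠ 0 := by exact_mod_cast Real.pi_ne_zero
      push_cast
      field_simp
    rw [e, Complex.exp_log hw]

/-- `ψ` is bounded near the circle. -/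
theorem eventually_bdd (ψ : ℂ → ℂ) (R : ℝ)
    (hR : ∀ u : ℂ, 0 < u.re → u.re ≤ 1 → ‖ψ (Complex.exp (2 * Real.pi * u))‖ ≤ R) (θ : ℝ) :
    ∀ᶠ w in 𝓝[{w : ℂ | 1 < ‖w‖}] Complex.exp (2 * Real.pi * θ * Complex.I),
      ψ w ∈ Metric.closedBall (0 : ℂ) R := by
  have h1 : ‖Complex.exp (2 * Real.pi * θ * Complex.I)‖ = 1 := by
    have e : (2 * Real.pi * θ * Complex.I : ℂ) = ((2 * Real.pi * θ : ℝ) : ℂ) * Complex.I := by
      push_cast; ring
    rw [e, Complex.norm_exp_ofReal_mul_I]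
  have h2 : ∀ᶠ w in 𝓝 (Complex.exp (2 * Real.pi * θ * Complex.I)), ‖w‖ < Real.exp 1 := by
    refine (continuous_norm.tendsto _).eventually_lt_const ?_
    rw [h1]
    exact Real.one_lt_exp_iff.2 one_pos
  filter_upwards [self_mem_nhdsWithin, mem_nhdsWithin_of_mem_nhds h2] with w hw hw2
  obtain ⟨u, hu1, hu2, hu3⟩ := exists_param w hw (le_of_lt hw2)
  have := hR u hu1 hu2
  rw [hu3] at this
  simpa using this

end Impr

/-- IMP: small impressions give small oscillation. -/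
theorem imp (half : HalfStatement) : ImpStatement := by
  intro f ψ hd hψ θ δ hδ hdiam
  obtain ⟨hP, -, -⟩ := half f ψ hd hψ
  obtain ⟨R, hR⟩ := hP.bdd
  have hbd : Bornology.IsBounded (impression ψ θ) := by
    refine (Metric.isBounded_closedBall (x := (0 : ℂ)) (r := R)).subset ?_
    intro z hz
    obtain ⟨U, hU, hUz⟩ := mapClusterPt_iff_ultrafilter.1 hz
    exact Metric.isClosed_closedBall.mem_of_tendsto hUz
      (hU (Impr.eventually_bdd ψ R hR θ))
  by_contra hosc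
  set P : ℂ → ℂ := fun u => ψ (Complex.exp (2 * Real.pi * u)) with hPdef
  set F : Filter ℂ := 𝓝[HP] ((θ : ℂ) * Complex.I) with hF
  set S : Set (ℂ × ℂ) := {p | δ < ‖P p.1 - P p.2‖} with hS
  have hne : NeBot ((F ×ˢ F) ⊓ 𝓟 S) := by
    rw [← frequently_mem_iff_neBot]
    intro hev
    apply hosc
    obtain ⟨A, hA, hAA⟩ := (mem_prod_same_iff (la := F)).1 hev
    obtain ⟨N, hN, hNA⟩ := mem_nhdsWithin_iff_exists_mem_nhds_inter.1 hA
    refine ⟨N, hN, fun u hu v hv => ?_⟩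
    have := hAA (mk_mem_prod (hNA hu) (hNA hv))
    simpa [hS] using this
  obtain ⟨U, hU⟩ := Ultrafilter.exists_le ((F ×ˢ F) ⊓ 𝓟 S)
  have hU1 : (U : Filter (ℂ × ℂ)) ≤ F ×ˢ F := hU.trans inf_le_left
  have hU2 : S ∈ (U : Filter (ℂ × ℂ)) := hU (mem_inf_of_right (mem_principal_self S))
  have hfst : Tendsto Prod.fst (U : Filter (ℂ × ℂ)) F := tendsto_fst.mono_left hU1
  have hsnd : Tendsto Prod.snd (U : Filter (ℂ × ℂ)) F := tendsto_snd.mono_left hU1
  have hexp := Impr.tendsto_expo θ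
  have hb := Impr.eventually_bdd ψ R hR θ
  have key : ∀ g : ℂ × ℂ → ℂ, Tendsto g (U : Filter (ℂ × ℂ)) F →
      ∃ z ∈ impression ψ θ, Tendsto (fun p => P (g p)) (U : Filter (ℂ × ℂ)) (𝓝 z) := by
    intro g hg
    have hge := hexp.comp hg
    have hcb := hge.eventually hb
    have hle : ((U.map fun p => P (g p) : Ultrafilter ℂ) : Filter ℂ) ≤
        𝓟 (Metric.closedBall (0 : ℂ) R) := by
      rw [le_principal_iff]
      exact hcb
    obtain ⟨z, -, hz⟩ := (isCompact_closedBall (0 : ℂ) R).ultrafilter_le_nhds _ hle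
    refine ⟨z, ?_, hz⟩
    refine mapClusterPt_iff_ultrafilter.2 ⟨U.map (fun p => Complex.exp (2 * Real.pi * g p)), ?_, ?_⟩
    · exact hge
    · exact hz
  obtain ⟨z, hz, hz2⟩ := key Prod.fst hfst
  obtain ⟨z', hz', hz2'⟩ := key Prod.snd hsnd
  have hlim : Tendsto (fun p : ℂ × ℂ => ‖P p.1 - P p.2‖) (U : Filter (ℂ × ℂ)) (𝓝 ‖z - z'‖) :=
    (hz2.sub hz2').norm
  have h1 : δ ≤ ‖z - z'‖ := by
    refine ge_of_tendsto hlim ?_
    filter_upwards [hU2] with p hp
    exact le_of_lt hp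
  have h2 := Metric.dist_le_diam_of_mem hbd hz hz'
  rw [dist_eq_norm] at h2
  linarith

end Pool.Agent.Imp
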