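import Pool.Agent.Lib.MP_1c105c_an.Defs4
import Pool.Agent.Lib.MP_1c105c_an.Bai
import Pool.Agent.Lib.MP_1c105c_an.Impr

/-! MP_1c105c_an: if no impression is small, the rays of all angles outside a meagre set
oscillate. -/

set_option autoImplicit false

open Filter Topology Set Polynomial

namespace Pool.Agent.Imp

/-- The accumulation set of the external ray of angle `θ`. -/
def accumulation (ψ : ℂ → ℂ) (θ : ℝ) : Set ℂ :=
  {z | MapClusterPt z (𝓝[>] (1 : ℝ))
    (fun r : ℝ => ψ (r * Complex.exp (2 * Real.pi * θ * Complex.I)))}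

namespace Mea

/-- `exp (2 π s)` tends to `1` from above. -/
theorem tendsto_exp : Tendsto (fun s : ℝ => Real.exp (2 * Real.pi * s)) (𝓝[>] 0) (𝓝[>] 1) := by
  refine tendsto_nhdsWithin_iff.2 ⟨?_, ?_⟩
  · have h2 : Continuous fun s : ℝ => Real.exp (2 * Real.pi * s) := by fun_prop
    have h3 := h2.tendsto 0
    simp only [mul_zero, Real.exp_zero] at h3
    exact h3.mono_left nhdsWithin_le_nhds
  · filter_upwards [self_mem_nhdsWithin] with s hs
    have hs' : (0 : ℝ) < s := hs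
    exact Real.one_lt_exp_iff.2 (by positivity)

theorem eq_ray (ψ : ℂ → ℂ) (θ s : ℝ) :
    ψ ((Real.exp (2 * Real.pi * s) : ℝ) * Complex.exp (2 * Real.pi * θ * Complex.I)) =
      ψ (Complex.exp (2 * Real.pi * ((s : ℂ) + θ * Complex.I))) := by
  congr 1
  rw [Complex.ofReal_exp, ← Complex.exp_add]
  congr 1
  push_cast
  ring

end Mea

/-- If the oscillation is nowhere at most `c`, the accumulation sets of the rays of all angles
outside a meagre set have diameter at least `c / 4`. -/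
theorem mea (half : HalfStatement) (f : ℂ[X]) (ψ : ℂ → ℂ) (hd : 2 ≤ f.natDegree)
    (hψ : IsInverseBoettcher f ψ) (c : ℝ) (hc : 0 < c)
    (hno : ∀ t : ℝ, ¬ Osc (fun u => ψ (Complex.exp (2 * Real.pi * u))) c t) :
    {θ : ℝ | c / 4 ≤ Metric.diam (accumulation ψ θ)} ∈ residual ℝ := by
  obtain ⟨hP, -, -⟩ := half f ψ hd hψ
  obtain ⟨R, hR⟩ := hP.bdd
  set P : ℂ → ℂ := fun u => ψ (Complex.exp (2 * Real.pi * u)) with hPdef
  have hPc : ContinuousOn P HP := hP.diff.continuousOn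
  have hε : 0 < c / 4 := by positivity
  -- the sets of the angles with small oscillation below a height are closed without interior
  have hint : ∀ n : ℕ, interior (Bai.cl P (c / 4) n) = ∅ := by
    intro n
    rw [eq_empty_iff_forall_notMem]
    intro t ht
    obtain ⟨N, hN, hN2⟩ := Bai.small hPc hε ht
    obtain ⟨N', hN', hNN⟩ := mem_nhdsWithin_iff_exists_mem_nhds_inter.1 hN
    refine hno t ⟨N', hN', fun u hu v hv => ?_⟩
    have := hN2 u (hNN hu) v (hNN hv)
    linarith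
  have hres : (⋂ n : ℕ, (Bai.cl P (c / 4) n)ᶜ) ∈ residual ℝ := by
    refine countable_iInter_mem.2 fun n => ?_
    refine residual_of_dense_open (Bai.isClosed_cl hPc _ n).isOpen_compl ?_
    exact interior_eq_empty_iff_dense_compl.1 (hint n)
  refine mem_of_superset hres fun θ hθ => ?_
  -- the accumulation set is bounded
  have hbdP : ∀ s : ℝ, 0 < s → s ≤ 1 → ‖P ((s : ℂ) + θ * Complex.I)‖ ≤ R := by
    intro s hs hs1
    refine hR _ ?_ ?_
    · simpa using hs
    · simpa using hs1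
  have hev1 : ∀ᶠ s : ℝ in 𝓝[>] 0, s ≤ 1 := by
    refine mem_nhdsWithin_of_mem_nhds ?_
    exact Iic_mem_nhds one_pos
  have hev : ∀ᶠ s : ℝ in 𝓝[>] 0, P ((s : ℂ) + θ * Complex.I) ∈ Metric.closedBall (0 : ℂ) R := by
    filter_upwards [self_mem_nhdsWithin, hev1] with s hs hs1
    simpa using hbdP s hs hs1
  have hevr : ∀ᶠ r : ℝ in 𝓝[>] 1,
      ψ (r * Complex.exp (2 * Real.pi * θ * Complex.I)) ∈ Metric.closedBall (0 : ℂ) R := by
    have h2 : ∀ᶠ r : ℝ in 𝓝[>] 1, r < Real.exp (2 * Real.pi * 1) := by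
      refine mem_nhdsWithin_of_mem_nhds (Iio_mem_nhds ?_)
      exact Real.one_lt_exp_iff.2 (by positivity)
    filter_upwards [self_mem_nhdsWithin, h2] with r hr hr2
    have hr' : (1 : ℝ) < r := hr
    have hpi : (0 : ℝ) < 2 * Real.pi := by positivity
    set s : ℝ := (2 * Real.pi)⁻¹ * Real.log r with hs
    have hrs : Real.exp (2 * Real.pi * s) = r := by
      rw [hs, ← mul_assoc, mul_inv_cancel₀ hpi.ne', one_mul, Real.exp_log (by linarith)]
    have hs0 : 0 < s := mul_pos (inv_pos.2 hpi) (Real.log_pos hr')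
    have hs1 : s ≤ 1 := by
      have h3 : Real.log r < 2 * Real.pi * 1 := by
        rw [Real.log_lt_iff_lt_exp (by linarith)]
        exact hr2
      rw [hs, inv_mul_le_iff₀ hpi]
      exact h3.le
    have h4 := Mea.eq_ray ψ θ s
    rw [hrs] at h4
    rw [h4]
    simpa using hbdP s hs0 hs1
  have hbd : Bornology.IsBounded (accumulation ψ θ) := by
    refine (Metric.isBounded_closedBall (x := (0 : ℂ)) (r := R)).subset ?_
    intro z hz
    obtain ⟨U, hU, hUz⟩ := mapClusterPt_iff_ultrafilter.1 hz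
    exact Metric.isClosed_closedBall.mem_of_tendsto hUz (hU hevr)
  -- two points of the accumulation set
  set F : Filter ℝ := 𝓝[>] (0 : ℝ) with hF
  set S : Set (ℝ × ℝ) :=
    {p | c / 4 < ‖P ((p.1 : ℂ) + θ * Complex.I) - P ((p.2 : ℂ) + θ * Complex.I)‖} with hS
  have hne : NeBot ((F ×ˢ F) ⊓ 𝓟 S) := by
    rw [← frequently_mem_iff_neBot]
    intro hevS
    obtain ⟨A, hA, hAA⟩ := (mem_prod_same_iff (la := F)).1 hevS
    obtain ⟨η, hη, hηA⟩ := mem_nhdsGT_iff_exists_Ioo_subset.1 hA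
    have hη' : (0 : ℝ) < η := hη
    obtain ⟨n, hn⟩ := exists_nat_one_div_lt hη'
    refine mem_iInter.1 hθ n fun s s' h1 h2 h3 h4 => ?_
    have h5 := hAA (mk_mem_prod (hηA ⟨h1, lt_of_le_of_lt h2 hn⟩)
      (hηA ⟨h3, lt_of_le_of_lt h4 hn⟩))
    simpa [hS] using h5
  obtain ⟨U, hU⟩ := Ultrafilter.exists_le ((F ×ˢ F) ⊓ 𝓟 S)
  have hU1 : (U : Filter (ℝ × ℝ)) ≤ F ×ˢ F := hU.trans inf_le_left
  have hU2 : S ∈ (U : Filter (ℝ × ℝ)) := hU (mem_inf_of_right (mem_principal_self S))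
  have key : ∀ g : ℝ × ℝ → ℝ, Tendsto g (U : Filter (ℝ × ℝ)) F →
      ∃ z ∈ accumulation ψ θ,
        Tendsto (fun p => P ((g p : ℂ) + θ * Complex.I)) (U : Filter (ℝ × ℝ)) (𝓝 z) := by
    intro g hg
    have hcb := hg.eventually hev
    have hle : ((U.map fun p => P ((g p : ℂ) + θ * Complex.I) : Ultrafilter ℂ) : Filter ℂ) ≤
        𝓟 (Metric.closedBall (0 : ℂ) R) := by
      rw [le_principal_iff]
      exact hcb
    obtain ⟨z, -, hz⟩ := (isCompact_closedBall (0 : ℂ) R).ultrafilter_le_nhds _ hle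
    refine ⟨z, ?_, hz⟩
    refine mapClusterPt_iff_ultrafilter.2 ⟨U.map (fun p => Real.exp (2 * Real.pi * g p)), ?_, ?_⟩
    · exact Mea.tendsto_exp.comp hg
    · show Tendsto (fun r : ℝ => ψ (r * Complex.exp (2 * Real.pi * θ * Complex.I)))
        (map (fun p => Real.exp (2 * Real.pi * g p)) (U : Filter (ℝ × ℝ))) (𝓝 z)
      rw [tendsto_map'_iff]
      refine Tendsto.congr (fun p => ?_) hz
      exact (Mea.eq_ray ψ θ (g p)).symm
  obtain ⟨z, hz, hz2⟩ := key Prod.fst (tendsto_fst.mono_left hU1)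
  obtain ⟨z', hz', hz2'⟩ := key Prod.snd (tendsto_snd.mono_left hU1)
  have hlim : Tendsto (fun p : ℝ × ℝ =>
      ‖P ((p.1 : ℂ) + θ * Complex.I) - P ((p.2 : ℂ) + θ * Complex.I)‖)
      (U : Filter (ℝ × ℝ)) (𝓝 ‖z - z'‖) := (hz2.sub hz2').norm
  have h1 : c / 4 ≤ ‖z - z'‖ := by
    refine ge_of_tendsto hlim ?_
    filter_upwards [hU2] with p hp
    exact le_of_lt hp
  have h2 := Metric.dist_le_diam_of_mem hbd hz hz'
  rw [dist_eq_norm] at h2
  exact h1.trans h2

end Pool.Agent.Imp
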