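import Pool.Agent.Lib.MP_1c105c_an.Defs15
import Pool.Agent.Lib.MP_1c105c_an.Mea

/-! MP_1c105c_an, row ACL: the accumulation set in the two coordinates. -/

set_option autoImplicit false

open Filter Topology Set Polynomial

namespace Pool.Agent.Imp

theorem acl : AclStatement := by
  intro ψ θ z
  constructor
  · intro h
    have h2 : Tendsto (fun r : ℝ => Real.log r / (2 * Real.pi)) (𝓝[>] 1) (𝓝[>] 0) := by
      refine tendsto_nhdsWithin_iff.2 ⟨?_, ?_⟩
      · have hc : Tendsto (fun r : ℝ => Real.log r / (2 * Real.pi)) (𝓝 1)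
            (𝓝 (Real.log 1 / (2 * Real.pi))) :=
          (Real.continuousAt_log one_ne_zero).tendsto.div_const _
        rw [Real.log_one, zero_div] at hc
        exact hc.mono_left nhdsWithin_le_nhds
      · filter_upwards [self_mem_nhdsWithin] with r hr
        have hr' : (1 : ℝ) < r := hr
        exact div_pos (Real.log_pos hr') (by positivity)
    refine MapClusterPt.of_comp h2 (h.congrFun ?_)
    filter_upwards [self_mem_nhdsWithin] with r hr
    have hr' : (1 : ℝ) < r := hr
    have h3 := Mea.eq_ray ψ θ (Real.log r / (2 * Real.pi))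
    have h4 : Real.exp (2 * Real.pi * (Real.log r / (2 * Real.pi))) = r := by
      rw [mul_div_cancel₀ _ (by positivity : (2 * Real.pi : ℝ) ≠ 0),
        Real.exp_log (by linarith)]
    rw [h4] at h3
    exact h3
  · intro h
    refine MapClusterPt.of_comp Mea.tendsto_exp (h.congrFun ?_)
    refine Filter.Eventually.of_forall fun s => ?_
    exact (Mea.eq_ray ψ θ s).symm

end Pool.Agent.Imp
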