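import Pool.Agent.Lib.MP_1c105c_an.Defs2

/-! MP_1c105c_an, row INF: `P u = ψ (exp (2 π u))` tends to infinity with `Re u`. -/

set_option autoImplicit false

open Filter Topology Set Polynomial

namespace Pool.Agent.Imp

theorem inf : InfStatement := by
  intro f ψ h R
  have h1 : ∀ᶠ w in Bornology.cobounded ℂ, R ≤ ‖ψ w‖ :=
    (tendsto_norm_cobounded_atTop.comp h.tendsto).eventually (eventually_ge_atTop R)
  rw [← comap_norm_atTop, eventually_comap, eventually_atTop] at h1
  obtain ⟨K, hK⟩ := h1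
  refine ⟨max K 0, fun u hu => hK ‖Complex.exp (2 * Real.pi * u)‖ ?_ _ rfl⟩
  have hre : (2 * (Real.pi : ℂ) * u).re = 2 * Real.pi * u.re := by
    have h2 : 2 * (Real.pi : ℂ) * u = ((2 * Real.pi : ℝ) : ℂ) * u := by push_cast; ring
    rw [h2, Complex.re_ofReal_mul]
  rw [Complex.norm_exp, hre]
  have hu0 : 0 ≤ u.re := le_trans (le_max_right _ _) hu
  have hKu : K ≤ u.re := le_trans (le_max_left _ _) hu
  have hpi : (3 : ℝ) < Real.pi := Real.pi_gt_three
  have h3 : u.re ≤ 2 * Real.pi * u.re := by nlinarith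
  have h4 := Real.add_one_le_exp (2 * Real.pi * u.re)
  linarith

end Pool.Agent.Imp
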