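import Pool.Agent.Lib.MP_1c105c_an.Defs2

/-! JUL: the Julia set is compact, completely invariant, and contains all boundary limits. -/

set_option autoImplicit false

open Filter Topology Set Polynomial

namespace Pool.Agent.Imp

namespace Jul

lemma escape (f : ℂ[X]) (hd : 2 ≤ f.natDegree) :
    ∃ R : ℝ, 1 ≤ R ∧ ∀ w : ℂ, R < ‖w‖ → 2 * ‖w‖ ≤ ‖f.eval w‖ := by
  have hg : 0 < f.divX.degree := by
    have h1 : f.divX.natDegree = f.natDegree - 1 := natDegree_divX_eq_natDegree_tsub_one
    exact natDegree_pos_iff_degree_pos.mp (by omega)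
  have ht : Tendsto (fun w : ℂ => ‖f.divX.eval w‖) (Bornology.cobounded ℂ) atTop :=
    f.divX.tendsto_norm_atTop hg tendsto_norm_cobounded_atTop
  have he := ht.eventually_ge_atTop 3
  rw [(Filter.hasBasis_cobounded_norm (E := ℂ)).eventually_iff] at he
  obtain ⟨R, -, hR⟩ := he
  refine ⟨max (max R 1) ‖f.coeff 0‖, le_trans (le_max_right _ _) (le_max_left _ _),
    fun w hw => ?_⟩
  have h1 : R ≤ ‖w‖ := ((le_max_left _ _).trans (le_max_left _ _)).trans hw.le
  have h2 : ‖f.coeff 0‖ ≤ ‖w‖ := (le_max_right _ _).trans hw.le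
  have h3 : (3 : ℝ) ≤ ‖f.divX.eval w‖ := hR h1
  have h4 : f.eval w = f.divX.eval w * w + f.coeff 0 := by
    conv_lhs => rw [← divX_mul_X_add f]
    simp
  rw [h4]
  have h5 : ‖f.divX.eval w * w‖ ≤ ‖f.divX.eval w * w + f.coeff 0‖ + ‖f.coeff 0‖ := by
    calc ‖f.divX.eval w * w‖ = ‖(f.divX.eval w * w + f.coeff 0) - f.coeff 0‖ := by
          rw [add_sub_cancel_right]
      _ ≤ _ := norm_sub_le _ _
  rw [norm_mul] at h5
  nlinarith [norm_nonneg w]

lemma filledJulia_eq (f : ℂ[X]) {R : ℝ} (hR1 : 1 ≤ R)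
    (hR : ∀ w : ℂ, R < ‖w‖ → 2 * ‖w‖ ≤ ‖f.eval w‖) :
    filledJulia f = {z | ∀ n : ℕ, ‖(fun w => f.eval w)^[n] z‖ ≤ R} := by
  ext z
  constructor
  · rintro ⟨B, hB⟩ n
    by_contra hn
    rw [not_le] at hn
    have key : ∀ k : ℕ,
        2 ^ k * ‖(fun w => f.eval w)^[n] z‖ ≤ ‖(fun w => f.eval w)^[n + k] z‖ := by
      intro k
      induction k with
      | zero => simp
      | succ k ih =>
        have h1 : R < ‖(fun w => f.eval w)^[n + k] z‖ := by
          refine lt_of_lt_of_le hn (le_trans ?_ ih)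
          have : (1 : ℝ) ≤ 2 ^ k := one_le_pow₀ (by norm_num)
          nlinarith [norm_nonneg ((fun w => f.eval w)^[n] z)]
        have h2 := hR _ h1
        rw [← add_assoc, Function.iterate_succ_apply', pow_succ]
        nlinarith
    obtain ⟨k, hk⟩ := pow_unbounded_of_one_lt B (by norm_num : (1 : ℝ) < 2)
    have h3 := key k
    have h4 := hB (n + k)
    have h5 : (1 : ℝ) ≤ ‖(fun w => f.eval w)^[n] z‖ := by linarith
    have h6 : (0 : ℝ) < 2 ^ k := by positivity
    nlinarith
  · intro h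
    exact ⟨R, h⟩

lemma closed (f : ℂ[X]) (hd : 2 ≤ f.natDegree) : IsClosed (filledJulia f) := by
  obtain ⟨R, hR1, hR⟩ := escape f hd
  rw [filledJulia_eq f hR1 hR, setOf_forall]
  exact isClosed_iInter fun n =>
    isClosed_le ((f.continuous.iterate n).norm) continuous_const

lemma bounded (f : ℂ[X]) (hd : 2 ≤ f.natDegree) : Bornology.IsBounded (filledJulia f) := by
  obtain ⟨R, hR1, hR⟩ := escape f hd
  rw [filledJulia_eq f hR1 hR]
  refine (Metric.isBounded_closedBall (x := (0 : ℂ)) (r := R)).subset ?_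
  intro z hz
  have := hz 0
  rw [mem_closedBall_zero_iff]
  simpa using this

lemma inv_filled (f : ℂ[X]) (w : ℂ) : f.eval w ∈ filledJulia f ↔ w ∈ filledJulia f := by
  constructor
  · rintro ⟨R, hR⟩
    refine ⟨max R ‖w‖, fun n => ?_⟩
    cases n with
    | zero => simp
    | succ n =>
      rw [Function.iterate_succ_apply]
      exact (hR n).trans (le_max_left _ _)
  · rintro ⟨R, hR⟩
    refine ⟨R, fun n => ?_⟩
    have := hR (n + 1)
    rwa [Function.iterate_succ_apply] at this

lemma openMap {F : ℂ → ℂ} {U : Set ℂ} (hU : IsOpen U) (hc : IsPreconnected U)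
    (hF : DifferentiableOn ℂ F U) (hn : ∃ a ∈ U, ∃ b ∈ U, F a ≠ F b) :
    ∀ s ⊆ U, IsOpen s → IsOpen (F '' s) := by
  rcases (hF.analyticOnNhd hU).is_constant_or_isOpen hc with ⟨w, hw⟩ | h
  · obtain ⟨a, ha, b, hb, hab⟩ := hn
    exact absurd ((hw a ha).trans (hw b hb).symm) hab
  · exact h

lemma poly_open (f : ℂ[X]) (hd : 2 ≤ f.natDegree) : IsOpenMap (fun w => f.eval w) := by
  have hn : ∃ a ∈ (univ : Set ℂ), ∃ b ∈ (univ : Set ℂ), f.eval a ≠ f.eval b := by
    by_contra hcon
    push Not at hcon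
    have : f = C (f.eval 0) := by
      apply Polynomial.funext
      intro r
      rw [eval_C]
      exact hcon r (mem_univ _) 0 (mem_univ _)
    rw [this, natDegree_C] at hd
    omega
  intro s hs
  exact openMap isOpen_univ isPreconnected_univ f.differentiable.differentiableOn hn s
    (subset_univ _) hs

lemma inv_julia (f : ℂ[X]) (hd : 2 ≤ f.natDegree) (w : ℂ) :
    f.eval w ∈ julia f ↔ w ∈ julia f := by
  have h := (poly_open f hd).preimage_frontier_eq_frontier_preimage f.continuous (filledJulia f)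
  have h2 : (fun w => f.eval w) ⁻¹' filledJulia f = filledJulia f := by
    ext v
    exact inv_filled f v
  rw [h2] at h
  have h3 : w ∈ (fun w => f.eval w) ⁻¹' frontier (filledJulia f) ↔
      w ∈ frontier (filledJulia f) := by rw [h]
  exact h3

lemma isOpen_HP : IsOpen HP := isOpen_lt continuous_const Complex.continuous_re

lemma half_open {f : ℂ[X]} {P : ℂ → ℂ} (hP : Half f P) :
    ∀ s ⊆ HP, IsOpen s → IsOpen (P '' s) := by
  have h1 : (1 : ℂ) ∈ HP := by simp [HP]
  have h2 : (2 : ℂ) ∈ HP := by simp [HP]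
  refine openMap isOpen_HP (convex_halfSpace_re_gt 0).isPreconnected hP.diff
    ⟨1, h1, 2, h2, fun h => ?_⟩
  obtain ⟨j, hj⟩ := hP.inj 1 h1 2 h2 h
  have := congrArg Complex.re hj
  simp at this

lemma lim_julia {f : ℂ[X]} {P : ℂ → ℂ} (hd : 2 ≤ f.natDegree) (hP : Half f P) (u : ℕ → ℂ)
    (z : ℂ) (hu : ∀ n, u n ∈ HP) (hre : Tendsto (fun n => (u n).re) atTop (𝓝 0))
    (hz : Tendsto (fun n => P (u n)) atTop (𝓝 z)) : z ∈ julia f := by
  rw [julia, frontier_eq_closure_inter_closure]
  constructor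
  · apply subset_closure
    by_contra hzK
    have hz2 : z ∈ P '' HP := by rw [hP.range]; exact hzK
    obtain ⟨v, hv, rfl⟩ := hz2
    have hv' : 0 < v.re := hv
    let s : Set ℂ := {w | v.re / 2 < w.re}
    have hs : s ⊆ HP := by
      intro w hw
      have hw' : v.re / 2 < w.re := hw
      show 0 < w.re
      linarith
    have hso : IsOpen s := isOpen_lt continuous_const Complex.continuous_re
    have hvs : v ∈ s := by
      show v.re / 2 < v.re
      linarith
    have hev := hz.eventually ((half_open hP s hs hso).mem_nhds ⟨v, hvs, rfl⟩)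
    have hev2 := hre.eventually (gt_mem_nhds (half_pos hv'))
    obtain ⟨n, ⟨w, hw, hwn⟩, hn2⟩ := (hev.and hev2).exists
    obtain ⟨j, hj⟩ := hP.inj (u n) (hu n) w (hs hw) hwn.symm
    have h3 := congrArg Complex.re hj
    have hw' : v.re / 2 < w.re := hw
    simp at h3
    linarith
  · apply mem_closure_of_tendsto hz
    refine Eventually.of_forall fun n => ?_
    rw [← hP.range]
    exact ⟨u n, hu n, rfl⟩

end Jul

open Jul in
theorem jul : JulStatement := by
  intro f P hd hP
  refine ⟨closed f hd, bounded f hd, inv_julia f hd, lim_julia hd hP, ?_⟩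
  intro t z hz
  let u : ℕ → ℂ := fun n => ((1 / ((n : ℝ) + 1) : ℝ) : ℂ) + (t : ℂ) * Complex.I
  have hre : ∀ n, (u n).re = 1 / ((n : ℝ) + 1) := by
    intro n
    simp only [u, Complex.add_re, Complex.ofReal_re, Complex.mul_re, Complex.I_re,
      Complex.ofReal_im, Complex.I_im]
    ring
  have hu : ∀ n, u n ∈ HP := by
    intro n
    show 0 < (u n).re
    rw [hre]
    positivity
  refine lim_julia hd hP u z hu ?_ ?_
  · simp only [hre]
    exact tendsto_one_div_add_atTop_nhds_zero_nat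
  · have h1 : Tendsto u atTop (𝓝 ((t : ℂ) * Complex.I)) := by
      have h2 : Tendsto (fun n : ℕ => ((1 / ((n : ℝ) + 1) : ℝ) : ℂ)) atTop
          (𝓝 ((0 : ℝ) : ℂ)) :=
        (Complex.continuous_ofReal.tendsto 0).comp tendsto_one_div_add_atTop_nhds_zero_nat
      have h3 := h2.add_const ((t : ℂ) * Complex.I)
      rw [Complex.ofReal_zero, zero_add] at h3
      exact h3
    exact hz.comp (tendsto_nhdsWithin_iff.mpr ⟨h1, Eventually.of_forall hu⟩)

end Pool.Agent.Imp
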