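import Pool.Agent.Lib.MP_1c105c_an.Defs

/-! Row HALF: from the inverse Böttcher map to the half plane model. -/

set_option autoImplicit false

open Filter Topology Set Polynomial

namespace Pool.Agent.Imp

namespace HalfRow

/-- the covering of the ring by the half plane -/
noncomputable def E (u : ℂ) : ℂ := Complex.exp (2 * Real.pi * u)

/-- the exterior of the disc -/
def S : Set ℂ := {w | 1 < ‖w‖}

theorem two_pi_ne : (2 * (Real.pi : ℂ)) ≠ 0 :=
  mul_ne_zero two_ne_zero (Complex.ofReal_ne_zero.mpr Real.pi_ne_zero)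

theorem norm_E (u : ℂ) : ‖E u‖ = Real.exp (2 * Real.pi * u.re) := by
  unfold E
  rw [Complex.norm_exp]
  have : (2 * (Real.pi : ℂ) * u) = ((2 * Real.pi : ℝ) : ℂ) * u := by push_cast; ring
  rw [this, Complex.re_ofReal_mul]

theorem mem_S_iff (u : ℂ) : E u ∈ S ↔ u ∈ HP := by
  show 1 < ‖E u‖ ↔ 0 < u.re
  rw [norm_E, Real.one_lt_exp_iff]
  exact mul_pos_iff_of_pos_left Real.two_pi_pos

theorem preimage_S : E ⁻¹' S = HP := Set.ext mem_S_iff

theorem E_surj : E '' HP = S := by
  ext w
  constructor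
  · rintro ⟨u, hu, rfl⟩
    exact (mem_S_iff u).mpr hu
  · intro hw
    have hw0 : w ≠ 0 := by
      rintro rfl
      have : (1 : ℝ) < ‖(0 : ℂ)‖ := hw
      rw [norm_zero] at this
      linarith
    have he : E (Complex.log w / (2 * Real.pi)) = w := by
      unfold E
      rw [mul_div_cancel₀ _ two_pi_ne, Complex.exp_log hw0]
    refine ⟨Complex.log w / (2 * Real.pi), ?_, he⟩
    rw [← mem_S_iff, he]
    exact hw

theorem E_pow (u : ℂ) (n : ℕ) : E u ^ n = E (n * u) := by
  unfold E
  rw [← Complex.exp_nat_mul]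
  congr 1
  ring

theorem E_per (u : ℂ) : E (u + Complex.I) = E u := by
  unfold E
  rw [show 2 * (Real.pi : ℂ) * (u + Complex.I) = 2 * Real.pi * u + 2 * Real.pi * Complex.I by ring,
    Complex.exp_add, Complex.exp_two_pi_mul_I, mul_one]

theorem E_eq {u v : ℂ} (h : E u = E v) : ∃ j : ℤ, u = v + j * Complex.I := by
  obtain ⟨n, hn⟩ := Complex.exp_eq_exp_iff_exists_int.mp h
  refine ⟨n, ?_⟩
  refine mul_left_cancel₀ two_pi_ne ?_
  rw [hn]
  ring

theorem E_deriv (u : ℂ) : HasStrictDerivAt E (E u * (2 * Real.pi)) u := by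
  have h : HasStrictDerivAt (fun u : ℂ => 2 * (Real.pi : ℂ) * u) (2 * Real.pi) u := by
    have := (hasStrictDerivAt_id u).const_mul (2 * (Real.pi : ℂ))
    rwa [mul_one] at this
  exact h.cexp

theorem E_diff : Differentiable ℂ E := fun u => (E_deriv u).hasDerivAt.differentiableAt

theorem E_cont : Continuous E := E_diff.continuous

theorem map_nhds (u : ℂ) : map E (𝓝 u) = 𝓝 (E u) :=
  (E_deriv u).map_nhds_eq (mul_ne_zero (Complex.exp_ne_zero _) two_pi_ne)

theorem map_within (u : ℂ) : map E (𝓝[HP] u) = 𝓝[S] (E u) := by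
  unfold nhdsWithin
  rw [← preimage_S, Filter.map_inf_principal_preimage, map_nhds]

/-- escape radius -/
theorem escape (f : ℂ[X]) (hf : 2 ≤ f.natDegree) (R₀ : ℝ) :
    ∃ R, R₀ ≤ R ∧ ∀ z : ℂ, R < ‖z‖ → R < ‖f.eval z‖ := by
  have hq : 0 < f.divX.degree := by
    rw [← natDegree_pos_iff_degree_pos, natDegree_divX_eq_natDegree_tsub_one]
    omega
  have ht : Tendsto (fun x : ℂ => ‖f.divX.eval x‖) (comap norm atTop) atTop :=
    f.divX.tendsto_norm_atTop hq tendsto_comap
  have h2 : ∀ᶠ x : ℂ in comap norm atTop, 2 ≤ ‖f.divX.eval x‖ := ht.eventually_ge_atTop 2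
  rw [eventually_comap, eventually_atTop] at h2
  obtain ⟨A, hA⟩ := h2
  refine ⟨max (max A R₀) ‖f.coeff 0‖, (le_max_right A R₀).trans (le_max_left _ _), ?_⟩
  intro z hz
  have h3 : A ≤ ‖z‖ := ((le_max_left A R₀).trans (le_max_left _ _)).trans hz.le
  have h4 : 2 ≤ ‖f.divX.eval z‖ := hA ‖z‖ h3 z rfl
  have h5 : ‖f.coeff 0‖ ≤ ‖z‖ := (le_max_right _ _).trans hz.le
  have e : f.eval z = f.divX.eval z * z + f.coeff 0 := by
    conv_lhs => rw [← f.divX_mul_X_add]
    rw [eval_add, eval_mul, eval_X, eval_C]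
  have h6 : ‖f.divX.eval z‖ * ‖z‖ ≤ ‖f.eval z‖ + ‖f.coeff 0‖ := by
    have e' : f.divX.eval z * z = f.eval z - f.coeff 0 := by rw [e]; ring
    rw [← norm_mul, e']
    exact norm_sub_le _ _
  have h7 : 2 * ‖z‖ ≤ ‖f.divX.eval z‖ * ‖z‖ := mul_le_mul_of_nonneg_right h4 (norm_nonneg z)
  linarith

end HalfRow

open HalfRow

/-- Row HALF. -/
theorem half : HalfStatement := by
  intro f ψ hf h
  have hP : (fun u => ψ (Complex.exp (2 * Real.pi * u))) = fun u => ψ (E u) := rfl
  rw [hP]
  refine ⟨?_, ?_, ?_⟩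
  · have hsemi : ∀ u ∈ HP, f.eval (ψ (E u)) = ψ (E (f.natDegree * u)) := by
      intro u hu
      rw [h.semiconj _ ((mem_S_iff u).mpr hu), E_pow]
    have hd1 : (1 : ℝ) < f.natDegree := by exact_mod_cast (show 1 < f.natDegree by omega)
    have hmul : ∀ (n : ℕ) (u : ℂ), u ∈ HP → ((f.natDegree : ℂ) ^ n * u) ∈ HP := by
      intro n u hu
      show 0 < ((f.natDegree : ℂ) ^ n * u).re
      have e : ((f.natDegree : ℂ) ^ n * u) = (((f.natDegree : ℝ) ^ n : ℝ) : ℂ) * u := by
        push_cast; ring
      rw [e, Complex.re_ofReal_mul]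
      exact mul_pos (pow_pos (by linarith) n) hu
    have hiter : ∀ (n : ℕ) (u : ℂ), u ∈ HP →
        (fun w => f.eval w)^[n] (ψ (E u)) = ψ (E ((f.natDegree : ℂ) ^ n * u)) := by
      intro n u hu
      induction n with
      | zero => rw [Function.iterate_zero, id, pow_zero, one_mul]
      | succ n ih =>
        rw [Function.iterate_succ_apply', ih, hsemi _ (hmul n u hu)]
        congr 2
        ring
    refine ⟨?_, ?_, ?_, ?_, hsemi, ?_⟩
    · exact h.differentiableOn.comp E_diff.differentiableOn fun u hu => (mem_S_iff u).mpr hu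
    · intro u hu v hv huv
      exact E_eq (h.injOn ((mem_S_iff u).mpr hu) ((mem_S_iff v).mpr hv) huv)
    · intro u
      show ψ (E (u + Complex.I)) = ψ (E u)
      rw [E_per]
    · rw [← h.image_eq]
      show (fun u => ψ (E u)) '' HP = ψ '' S
      rw [← E_surj, Set.image_image]
    · -- boundedness
      have hK : IsCompact ({w : ℂ | Real.exp (2 * Real.pi) ≤ ‖w‖} ∩
          Metric.closedBall 0 (Real.exp (2 * Real.pi * f.natDegree))) :=
        (isCompact_closedBall _ _).inter_left (isClosed_le continuous_const continuous_norm)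
      have hKS : ({w : ℂ | Real.exp (2 * Real.pi) ≤ ‖w‖} ∩
          Metric.closedBall 0 (Real.exp (2 * Real.pi * f.natDegree))) ⊆ {w : ℂ | 1 < ‖w‖} := by
        rintro w ⟨hw, _⟩
        exact lt_of_lt_of_le (Real.one_lt_exp_iff.mpr Real.two_pi_pos) hw
      obtain ⟨R₀, hR₀⟩ := hK.exists_bound_of_continuousOn
        (h.differentiableOn.continuousOn.mono hKS)
      obtain ⟨R, hR, hesc⟩ := escape f hf R₀
      refine ⟨R, fun u hu0 hu1 => ?_⟩
      by_contra hcon
      rw [not_le] at hcon
      have hesc' : ∀ n : ℕ, R < ‖(fun w => f.eval w)^[n] (ψ (E u))‖ := by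
        intro n
        induction n with
        | zero => exact hcon
        | succ n ih =>
          rw [Function.iterate_succ_apply']
          exact hesc _ ih
      -- the level at which the ring is reached
      have hex : ∃ n : ℕ, 1 ≤ (f.natDegree : ℝ) ^ n * u.re := by
        obtain ⟨n, hn⟩ := pow_unbounded_of_one_lt (1 / u.re) hd1
        refine ⟨n, ?_⟩
        rw [div_lt_iff₀ hu0] at hn
        exact hn.le
      obtain ⟨n, hn1, hn2⟩ : ∃ n : ℕ, 1 ≤ (f.natDegree : ℝ) ^ n * u.re ∧
          (f.natDegree : ℝ) ^ n * u.re ≤ f.natDegree := by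
        classical
        have hs := Nat.find_spec hex
        refine ⟨Nat.find hex, hs, ?_⟩
        rcases Nat.eq_zero_or_pos (Nat.find hex) with h0 | h0
        · rw [h0, pow_zero, one_mul]
          linarith
        · have hm := Nat.find_min hex (m := Nat.find hex - 1) (by omega)
          rw [not_le] at hm
          have e : (f.natDegree : ℝ) ^ (Nat.find hex) =
              f.natDegree * (f.natDegree : ℝ) ^ (Nat.find hex - 1) := by
            rw [← pow_succ']
            congr 1
            omega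
          rw [e, mul_assoc]
          have : (f.natDegree : ℝ) * ((f.natDegree : ℝ) ^ (Nat.find hex - 1) * u.re) ≤
              f.natDegree * 1 := mul_le_mul_of_nonneg_left hm.le (by linarith)
          linarith
      have hre : ((f.natDegree : ℂ) ^ n * u).re = (f.natDegree : ℝ) ^ n * u.re := by
        have e : ((f.natDegree : ℂ) ^ n * u) = (((f.natDegree : ℝ) ^ n : ℝ) : ℂ) * u := by
          push_cast; ring
        rw [e, Complex.re_ofReal_mul]
      have hb := hR₀ (E ((f.natDegree : ℂ) ^ n * u)) ⟨by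
          show Real.exp (2 * Real.pi) ≤ ‖E ((f.natDegree : ℂ) ^ n * u)‖
          rw [norm_E, hre, Real.exp_le_exp]
          nlinarith [Real.two_pi_pos], by
          rw [mem_closedBall_zero_iff, norm_E, hre, Real.exp_le_exp]
          exact mul_le_mul_of_nonneg_left hn2 Real.two_pi_pos.le⟩
      have := hesc' n
      rw [hiter n u hu0] at this
      linarith
  · intro θ
    have he : Complex.exp (2 * Real.pi * θ * Complex.I) = E ((θ : ℂ) * Complex.I) := by
      unfold E
      congr 1
      ring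
    unfold TrivialImpression HasLim
    rw [he]
    refine exists_congr fun z => ?_
    show Tendsto ψ (𝓝[S] E ((θ : ℂ) * Complex.I)) (𝓝 z) ↔ _
    rw [← map_within, tendsto_map'_iff]
    rfl
  · rintro θ ⟨z, hz⟩
    refine ⟨z, ?_⟩
    have ht : Tendsto (fun s : ℝ => Real.exp (2 * Real.pi * s)) (𝓝[>] 0) (𝓝[>] 1) := by
      refine tendsto_nhdsWithin_iff.mpr ⟨?_, ?_⟩
      · have hc : Continuous fun s : ℝ => Real.exp (2 * Real.pi * s) := by fun_prop
        have := hc.tendsto 0
        rw [mul_zero, Real.exp_zero] at this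
        exact this.mono_left nhdsWithin_le_nhds
      · filter_upwards [self_mem_nhdsWithin] with s hs
        show 1 < Real.exp (2 * Real.pi * s)
        rw [Real.one_lt_exp_iff]
        exact mul_pos Real.two_pi_pos hs
    refine (hz.comp ht).congr fun s => ?_
    show ψ ((Real.exp (2 * Real.pi * s) : ℝ) * Complex.exp (2 * Real.pi * θ * Complex.I)) =
      ψ (E (s + θ * Complex.I))
    congr 1
    unfold E
    rw [Complex.ofReal_exp, ← Complex.exp_add]
    congr 1
    push_cast
    ring

end Pool.Agent.Imp
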