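import Pool.Agent.Lib.MP_1c105c_an.Defs7
import Pool.Agent.Lib.MP_1c105c_an.Impr
import Pool.Agent.Lib.MP_1c105c_an.Half

/-! MP_1c105c_an: a neighbourhood of an impression contains the image of a rectangle (NBR). -/

set_option autoImplicit false

open Filter Topology Set Polynomial

namespace Pool.Agent.Imp

/-- NBR: a neighbourhood of an impression contains the image of a rectangle. -/
theorem nbr (half : HalfStatement) : NbrStatement := by
  intro f ψ hd hψ θ V hV hsub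
  obtain ⟨hP, -, -⟩ := half f ψ hd hψ
  obtain ⟨R, hR⟩ := hP.bdd
  have hcpt : IsCompact (Metric.closedBall (0 : ℂ) R \ V) :=
    (isCompact_closedBall (0 : ℂ) R).diff hV
  have hdis : Disjoint (𝓝ˢ (Metric.closedBall (0 : ℂ) R \ V))
      (map ψ (𝓝[{w : ℂ | 1 < ‖w‖}] Complex.exp (2 * Real.pi * θ * Complex.I))) := by
    refine hcpt.disjoint_nhdsSet_left.2 fun z hz => ?_
    by_contra h
    have hcl : ClusterPt z
        (map ψ (𝓝[{w : ℂ | 1 < ‖w‖}] Complex.exp (2 * Real.pi * θ * Complex.I))) := by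
      rw [ClusterPt, neBot_iff]
      exact fun h0 => h (disjoint_iff.2 h0)
    exact hz.2 (hsub hcl)
  obtain ⟨O, hO, T, hT, hOT⟩ := Filter.disjoint_iff.1 hdis
  obtain ⟨O', hO'1, hO'2, hO'3⟩ := mem_nhdsSet_iff_exists.1 hO
  have hTR : ψ ⁻¹' (T ∩ Metric.closedBall (0 : ℂ) R) ∈
      𝓝[{w : ℂ | 1 < ‖w‖}] Complex.exp (2 * Real.pi * θ * Complex.I) :=
    inter_mem hT (Impr.eventually_bdd ψ R hR θ)
  obtain ⟨N, hN, hNT⟩ := mem_nhdsWithin_iff_exists_mem_nhds_inter.1 (Impr.tendsto_expo θ hTR)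
  obtain ⟨r, hr, hrN⟩ := Metric.mem_nhds_iff.1 hN
  have him : (fun u => ψ (Complex.exp (2 * Real.pi * u))) '' Rect (r / 2) (θ - r / 2) (θ + r / 2) ⊆
      T ∩ Metric.closedBall (0 : ℂ) R := by
    rintro _ ⟨u, hu, rfl⟩
    obtain ⟨hu1, hu2, hu3, hu4⟩ := hu
    refine hNT ⟨hrN ?_, hu1⟩
    rw [Metric.mem_ball, dist_eq_norm]
    refine (Complex.norm_le_abs_re_add_abs_im _).trans_lt ?_
    have e1 : (u - θ * Complex.I).re = u.re := by simp
    have e2 : (u - θ * Complex.I).im = u.im - θ := by simp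
    rw [e1, e2, abs_of_pos hu1]
    have : |u.im - θ| < r / 2 := abs_lt.2 ⟨by linarith, by linarith⟩
    linarith
  have hclR : closure ((fun u => ψ (Complex.exp (2 * Real.pi * u))) ''
      Rect (r / 2) (θ - r / 2) (θ + r / 2)) ⊆ Metric.closedBall (0 : ℂ) R :=
    closure_minimal (him.trans inter_subset_right) Metric.isClosed_closedBall
  have hclO : closure ((fun u => ψ (Complex.exp (2 * Real.pi * u))) ''
      Rect (r / 2) (θ - r / 2) (θ + r / 2)) ⊆ O'ᶜ :=
    closure_minimal (fun z hz hzO => hOT.le_bot ⟨hO'3 hzO, (him hz).1⟩) hO'1.isClosed_compl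
  refine ⟨r / 2, θ - r / 2, θ + r / 2, by linarith, by linarith, by linarith,
    (isCompact_closedBall (0 : ℂ) R).of_isClosed_subset isClosed_closure hclR, fun z hz => ?_⟩
  by_contra hzV
  exact hclO hz (hO'2 ⟨hclR hz, hzV⟩)

/-- NBR, unconditional. -/
theorem nbr' : NbrStatement := nbr Imp.half

end Pool.Agent.Imp
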