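import Pool.Agent.Lib.MP_1c105c_an.Defs8
import Pool.Agent.Lib.MP_1c105c_an.Nbr
import Pool.Agent.Lib.MP_1c105c_an.Inf
import Pool.Agent.Lib.MP_1c105c_an.Jul

/-! MP_1c105c_an: construction of the cut (PTH). -/

set_option autoImplicit false

open Filter Topology Set Polynomial

namespace Pool.Agent.Imp

namespace Pth

variable {f : ℂ[X]} {P : ℂ → ℂ}

theorem per_nat (hP : Half f P) (u : ℂ) (m : ℕ) : P (u + m * Complex.I) = P u := by
  induction m with
  | zero => simp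
  | succ k ih =>
    have e : u + ((k + 1 : ℕ) : ℂ) * Complex.I = (u + k * Complex.I) + Complex.I := by
      push_cast
      ring
    rw [e, hP.per, ih]

theorem per_int (hP : Half f P) (u : ℂ) (m : ℤ) : P (u + m * Complex.I) = P u := by
  obtain ⟨n, rfl | rfl⟩ := m.eq_nat_or_neg
  · exact_mod_cast per_nat hP u n
  · have h := per_nat hP (u + ((-(n : ℤ) : ℤ) : ℂ) * Complex.I) n
    rw [← h]
    congr 1
    push_cast
    ring

theorem re_eq (hP : Half f P) {u v : ℂ} (hu : 0 < u.re) (hv : 0 < v.re) (h : P u = P v) :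
    u.re = v.re ∧ ∃ m : ℤ, u.im = v.im + m := by
  obtain ⟨j, hj⟩ := hP.inj u hu v hv h
  refine ⟨?_, j, ?_⟩
  · have := congrArg Complex.re hj
    simpa using this
  · have := congrArg Complex.im hj
    simpa using this

theorem ray_re (s t : ℝ) : ((s : ℂ) + t * Complex.I).re = s := by simp

theorem ray_im (s t : ℝ) : ((s : ℂ) + t * Complex.I).im = t := by simp

theorem ray_cont (hP : Half f P) (t : ℝ) :
    ContinuousOn (fun s : ℝ => P (s + t * Complex.I)) (Set.Ioi 0) := by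
  refine hP.diff.continuousOn.comp (by fun_prop) fun s hs => ?_
  show 0 < ((s : ℂ) + t * Complex.I).re
  rw [ray_re]
  exact hs

/-- The closed ray. -/
theorem closed_ray (hP : Half f P) (hinf : ∀ R : ℝ, ∃ M : ℝ, ∀ u : ℂ, M ≤ u.re → R ≤ ‖P u‖)
    (t η : ℝ) (hη : 0 < η) : IsClosed ((fun s : ℝ => P (s + t * Complex.I)) '' Set.Ici η) := by
  refine isClosed_of_closure_subset fun z hz => ?_
  obtain ⟨M, hM⟩ := hinf (‖z‖ + 1)
  have h1 : Metric.ball z 1 ∩ ((fun s : ℝ => P (s + t * Complex.I)) '' Set.Ici η) ⊆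
      (fun s : ℝ => P (s + t * Complex.I)) '' Set.Icc η M := by
    rintro _ ⟨h2, s, hs, rfl⟩
    refine ⟨s, ⟨hs, ?_⟩, rfl⟩
    by_contra hsM
    have h3 := hM ((s : ℂ) + t * Complex.I) (by rw [ray_re]; linarith)
    have h4 : ‖P (s + t * Complex.I) - z‖ < 1 := by
      rw [← dist_eq_norm]
      exact h2
    have h5 := norm_le_norm_add_norm_sub' (P (s + t * Complex.I)) z
    linarith
  have h2 : IsCompact ((fun s : ℝ => P (s + t * Complex.I)) '' Set.Icc η M) :=
    isCompact_Icc.image_of_continuousOn ((ray_cont hP t).mono fun s hs =>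
      lt_of_lt_of_le hη hs.1)
  have h3 := (Metric.isOpen_ball (x := z) (ε := 1)).inter_closure
    (t := (fun s : ℝ => P (s + t * Complex.I)) '' Set.Ici η) ⟨Metric.mem_ball_self one_pos, hz⟩
  have h4 := closure_minimal h1 h2.isClosed h3
  obtain ⟨s, hs, hs2⟩ := h4
  exact ⟨s, hs.1, hs2⟩

/-- Assembly of the cut. -/
theorem asm (hP : Half f P) (hinf : ∀ R : ℝ, ∃ M : ℝ, ∀ u : ℂ, M ≤ u.re → R ≤ ‖P u‖) (θ : ℝ)
    (v : ℂ) (B : Set ℂ) (hB : IsCompact B) (hB2 : IsPreconnected B) (hv : v ∈ B) (u : ℂ)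
    (hu : 0 < u.re) (huB : P u ∈ B) (η₀ α β : ℝ) (hη₀ : 0 < η₀) (hα : α < θ) (hβ : θ < β)
    (hcell : Disjoint B (closure (P '' Rect η₀ α β)))
    (hray : ∀ s : ℝ, 0 < s → P (s + θ * Complex.I) ∉ B) :
    ∃ (η t₀ s₂ : ℝ) (A' : Set ℂ), ArcData f P θ v η t₀ s₂ A' := by
  obtain ⟨R, hR⟩ := hB.isBounded.exists_norm_le
  obtain ⟨M, hM⟩ := hinf (R + 1)
  let η : ℝ := min (min η₀ (u.re / 2)) (min (θ - α) (β - θ))
  have e1 : η ≤ η₀ := (min_le_left _ _).trans (min_le_left _ _)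
  have e2 : η ≤ u.re / 2 := (min_le_left _ _).trans (min_le_right _ _)
  have e3 : η ≤ θ - α := (min_le_right _ _).trans (min_le_left _ _)
  have e4 : η ≤ β - θ := (min_le_right _ _).trans (min_le_right _ _)
  have hη : 0 < η := lt_min (lt_min hη₀ (half_pos hu)) (lt_min (sub_pos.2 hα) (sub_pos.2 hβ))
  let s₂ : ℝ := max M u.re + 1
  have g1 : M < s₂ := (le_max_left _ _).trans_lt (lt_add_one _)
  have g2 : u.re < s₂ := (le_max_right _ _).trans_lt (lt_add_one _)
  let t₀ : ℝ := θ + Int.fract (u.im - θ)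
  have ht : P (u.re + t₀ * Complex.I) = P u := by
    have h1 : (u.re : ℂ) + t₀ * Complex.I = u + ((-⌊u.im - θ⌋ : ℤ) : ℂ) * Complex.I := by
      have h2 : t₀ = u.im - ⌊u.im - θ⌋ := by
        show θ + Int.fract (u.im - θ) = _
        rw [Int.fract]
        ring
      apply Complex.ext
      · simp
      · simp [h2]
        ring
    rw [h1, per_int hP]
  have ht0 : Int.fract (u.im - θ) ≠ 0 := by
    intro h0
    refine hray u.re hu ?_
    have h1 : t₀ = θ := by
      show θ + Int.fract (u.im - θ) = θ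
      rw [h0, add_zero]
    rw [← h1, ht]
    exact huB
  have ht1 : θ < t₀ := by
    have := lt_of_le_of_ne (Int.fract_nonneg (u.im - θ)) (Ne.symm ht0)
    show θ < θ + _
    linarith
  have ht2 : t₀ < θ + 1 := by
    have := Int.fract_lt_one (u.im - θ)
    show θ + _ < θ + 1
    linarith
  let g : ℝ → ℂ := fun s => P (s + t₀ * Complex.I)
  have hsub : Rect η (θ - η) (θ + η) ⊆ Rect η₀ α β := by
    rintro w ⟨w1, w2, w3, w4⟩
    exact ⟨w1, by linarith, by linarith, by linarith⟩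
  have hcl : closure (P '' Rect η (θ - η) (θ + η)) ⊆ (P '' {w | u.re / 2 < w.re})ᶜ := by
    refine closure_minimal ?_ (Jul.half_open hP _ (fun w hw => ?_)
      (isOpen_lt continuous_const Complex.continuous_re)).isClosed_compl
    · rintro _ ⟨w, hw, rfl⟩ ⟨w', hw', hww⟩
      have hw'' : u.re / 2 < w'.re := hw'
      have h1 := (re_eq hP (u := w') (v := w) (by linarith) hw.1 hww).1
      have h2 := hw.2.1
      linarith
    · have hw'' : u.re / 2 < w.re := hw
      show 0 < w.re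
      linarith
  refine ⟨η, t₀, s₂, B ∪ g '' Set.Icc u.re s₂, ⟨hη, by linarith, ht1, ht2, ?_, ?_, Or.inl hv, ?_,
    ?_, ?_, ?_⟩⟩
  · exact hB.union (isCompact_Icc.image_of_continuousOn ((ray_cont hP t₀).mono fun s hs =>
      lt_of_lt_of_le hu hs.1))
  · refine IsPreconnected.union (P u) huB ⟨u.re, ⟨le_rfl, g2.le⟩, ht⟩ hB2 ?_
    exact isPreconnected_Icc.image _ ((ray_cont hP t₀).mono fun s hs => lt_of_lt_of_le hu hs.1)
  · exact Or.inr ⟨s₂, ⟨g2.le, le_rfl⟩, rfl⟩
  · rintro w hw (h1 | ⟨s, hs, h1⟩)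
    · have h2 := hM w (by linarith)
      have h3 := hR _ h1
      linarith
    · have h2 := (re_eq hP (u := (s : ℂ) + t₀ * Complex.I) (v := w)
        (by rw [ray_re]; linarith [hs.1]) (by linarith) h1).1
      rw [ray_re] at h2
      linarith [hs.2]
  · rw [Set.disjoint_union_left]
    refine ⟨hcell.mono_right (closure_mono (Set.image_mono hsub)), ?_⟩
    rw [Set.disjoint_left]
    rintro _ ⟨s, hs, rfl⟩ h1
    refine hcl h1 ⟨(s : ℂ) + t₀ * Complex.I, ?_, rfl⟩
    show u.re / 2 < ((s : ℂ) + t₀ * Complex.I).re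
    rw [ray_re]
    linarith [hs.1]
  · rintro s hs (h1 | ⟨s', hs', h1⟩)
    · exact hray s hs h1
    · obtain ⟨-, m, h2⟩ := re_eq hP (u := (s' : ℂ) + t₀ * Complex.I)
        (v := (s : ℂ) + θ * Complex.I) (by rw [ray_re]; linarith [hs'.1])
        (by rw [ray_re]; exact hs) h1
      rw [ray_im, ray_im] at h2
      have h3 : (0 : ℝ) < m := by linarith
      have h4 : (m : ℝ) < 1 := by linarith
      have h5 : 0 < m := by exact_mod_cast h3
      have h6 : m < 1 := by exact_mod_cast h4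
      omega

end Pth

open Pth in
/-- PTH: construction of the cut. -/
theorem pth : PthStatement := by
  intro f ψ hd hψ θ v A hv hA hbd hdis hvA
  obtain ⟨hP, -, -⟩ := half f ψ hd hψ
  have hinf := inf f ψ hψ
  obtain ⟨-, hKb, -, -, -⟩ := jul f _ hd hP
  have hIc : IsClosed (impression ψ θ) := isClosed_setOfPred_clusterPt
  obtain ⟨a, haA, haK⟩ : ∃ a ∈ A, a ∉ filledJulia f := by
    by_contra h
    push Not at h
    exact hbd (hKb.subset h)
  obtain ⟨P, hPdef⟩ : ∃ P : ℂ → ℂ, P = fun u => ψ (Complex.exp (2 * Real.pi * u)) := ⟨_, rfl⟩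
  rw [← hPdef] at hP ⊢
  have hinf' : ∀ R : ℝ, ∃ M : ℝ, ∀ u : ℂ, M ≤ u.re → R ≤ ‖P u‖ := by
    rw [hPdef]
    exact hinf
  have ha2 : a ∈ P '' HP := by
    rw [hP.range]
    exact haK
  have hAsub : A ⊆ (impression ψ θ)ᶜ := fun z hz h2 => (Set.disjoint_left.1 hdis) hz h2
  have hΩo : IsOpen (connectedComponentIn (impression ψ θ)ᶜ v) :=
    hIc.isOpen_compl.connectedComponentIn
  have hAΩ : A ⊆ connectedComponentIn (impression ψ θ)ᶜ v :=
    hA.subset_connectedComponentIn hvA hAsub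
  have hΩc : IsConnected (connectedComponentIn (impression ψ θ)ᶜ v) :=
    isConnected_connectedComponentIn_iff.2 (hAsub hvA)
  have hΩp := (hΩo.isConnected_iff_isPathConnected).1 hΩc
  obtain ⟨γ, hγ⟩ := hΩp.joinedIn v (hAΩ hvA) a (hAΩ haA)
  have hγI : ∀ t, γ t ∉ impression ψ θ := fun t => connectedComponentIn_subset _ _ (hγ t)
  obtain ⟨η₀, α, β, hη₀, hα, hβ, -, hV⟩ := nbr' f ψ hd hψ θ (Set.range γ)ᶜ
    (isCompact_range γ.continuous).isClosed.isOpen_compl
    (fun z hz => by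
      rintro ⟨t, rfl⟩
      exact hγI t hz)
  rw [← hPdef] at hV
  have hS := closed_ray hP hinf' θ (η₀ / 2) (half_pos hη₀)
  have hSP : (fun s : ℝ => P (s + θ * Complex.I)) '' Set.Ici (η₀ / 2) ⊆ P '' HP := by
    rintro _ ⟨s, hs, rfl⟩
    refine ⟨_, ?_, rfl⟩
    show 0 < ((s : ℂ) + θ * Complex.I).re
    rw [ray_re]
    have : η₀ / 2 ≤ s := hs
    linarith
  have hPo : IsOpen (P '' HP) := Jul.half_open hP HP subset_rfl Jul.isOpen_HP
  obtain ⟨l, hl, hl2⟩ : ∃ l : unitInterval, γ l ∈ P '' HP ∧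
      ∀ m ≤ l, γ m ∉ (fun s : ℝ => P (s + θ * Complex.I)) '' Set.Ici (η₀ / 2) := by
    let T : Set unitInterval :=
      γ ⁻¹' ((fun s : ℝ => P (s + θ * Complex.I)) '' Set.Ici (η₀ / 2))
    have hT : IsClosed T := hS.preimage γ.continuous
    rcases T.eq_empty_or_nonempty with h0 | h0
    · refine ⟨1, ?_, fun m _ hm => ?_⟩
      · rw [γ.target]
        exact ha2
      · have : m ∈ T := hm
        rw [h0] at this
        exact this
    · obtain ⟨L, hL⟩ := hT.isCompact.exists_isLeast h0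
      have hL0 : (0 : unitInterval) < L := by
        rw [unitInterval.pos_iff_ne_zero]
        rintro rfl
        have h1 : γ 0 ∈ P '' HP := hSP hL.1
        rw [γ.source, hP.range] at h1
        exact h1 hv
      have h1 : γ ⁻¹' (P '' HP) ∈ 𝓝 L := (hPo.preimage γ.continuous).mem_nhds (hSP hL.1)
      obtain ⟨l₀, hl₀, h2⟩ := exists_Ioc_subset_of_mem_nhds h1 ⟨0, hL0⟩
      obtain ⟨l, h3, h4⟩ := exists_between hl₀
      exact ⟨l, h2 ⟨h3, h4.le⟩, fun m hm h5 => not_le.2 (hm.trans_lt h4) (hL.2 h5)⟩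
  obtain ⟨u, hu, hul⟩ := hl
  have hBsub : γ '' Set.Iic l ⊆ Set.range γ := Set.image_subset_range _ _
  have hcell : Disjoint (γ '' Set.Iic l) (closure (P '' Rect η₀ α β)) := by
    rw [Set.disjoint_left]
    exact fun z hz hz2 => hV hz2 (hBsub hz)
  refine asm hP hinf' θ v (γ '' Set.Iic l) (isClosed_Iic.isCompact.image γ.continuous)
    (isPreconnected_Iic.image _ γ.continuous.continuousOn) ⟨0, unitInterval.nonneg', γ.source⟩ u hu
    ⟨l, Set.mem_Iic.2 le_rfl, hul.symm⟩ η₀ α β hη₀ hα hβ hcell fun s hs h => ?_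
  rcases lt_or_ge s η₀ with h1 | h1
  · refine (Set.disjoint_left.1 hcell) h (subset_closure ⟨_, ⟨?_, ?_, ?_, ?_⟩, rfl⟩)
    · rw [ray_re]
      exact hs
    · rw [ray_re]
      exact h1
    · rw [ray_im]
      exact hα
    · rw [ray_im]
      exact hβ
  · obtain ⟨m, hm, hm2⟩ := h
    refine hl2 m hm ⟨s, ?_, hm2.symm⟩
    show η₀ / 2 ≤ s
    linarith

end Pool.Agent.Imp
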