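import Pool.Agent.Lib.MP_1c105c_an.Defs15
import Pool.Agent.Lib.MP_1c105c_an.Pth

/-! MP_1c105c_an, row ACP: preimages of accumulation points of rays. -/

set_option autoImplicit false

open Filter Topology Set Polynomial

namespace Pool.Agent.Imp

namespace Acp74

/-- A polynomial of positive degree is open. -/
theorem poly_open {f : ℂ[X]} (hf : 2 ≤ f.natDegree) {U : Set ℂ} (hU : IsOpen U) :
    IsOpen ((fun z => f.eval z) '' U) := by
  have han : AnalyticOnNhd ℂ (fun z : ℂ => f.eval z) Set.univ := fun z _ =>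
    f.differentiable.analyticAt z
  rcases han.is_constant_or_isOpen isPreconnected_univ with ⟨w, hw⟩ | h
  · exfalso
    have h1 : f = C w := by
      refine Polynomial.funext fun z => ?_
      rw [eval_C]
      exact hw z (mem_univ z)
    rw [h1, natDegree_C] at hf
    omega
  · exact h U (subset_univ U) hU

/-- The filled Julia set is backward invariant. -/
theorem back {f : ℂ[X]} {y : ℂ} (h : y ∈ filledJulia f) : f.eval y ∈ filledJulia f := by
  obtain ⟨R, hR⟩ := h
  exact ⟨R, fun n => by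
    have := hR (n + 1)
    rwa [Function.iterate_succ_apply] at this⟩

end Acp74

open Acp74

theorem acp : AcpStatement := by
  intro f P hf hP s w w' hw hw'
  have hd : (0 : ℝ) < (f.natDegree : ℝ) := by exact_mod_cast (by omega : 0 < f.natDegree)
  by_contra hcon
  push Not at hcon
  -- the rays of the angles `(s + r) / d` stay away from `w'`
  have h1 : ∀ r ∈ Finset.range f.natDegree, ∃ U ∈ 𝓝 w', ∀ᶠ x : ℝ in 𝓝[>] (0 : ℝ),
      P (x + (((s + r) / f.natDegree : ℝ) : ℂ) * Complex.I) ∉ U := by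
    intro r _
    have h2 := hcon ((s + r) / f.natDegree) (r : ℤ) (by
      push_cast
      field_simp)
    have h3 : ¬ MapClusterPt w' (𝓝[>] (0 : ℝ)) fun x : ℝ =>
        P (x + (((s + r) / f.natDegree : ℝ) : ℂ) * Complex.I) := h2
    rw [mapClusterPt_iff_frequently] at h3
    push Not at h3
    obtain ⟨U, hU, hx⟩ := h3
    exact ⟨U, hU, hx⟩
  choose! U hU hx using h1
  obtain ⟨V, hV⟩ : ∃ V : Set ℂ, V = ⋂ r ∈ Finset.range f.natDegree, U r := ⟨_, rfl⟩
  have hVn : V ∈ 𝓝 w' := by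
    rw [hV, Filter.biInter_finset_mem]
    exact hU
  have hVx : ∀ᶠ x : ℝ in 𝓝[>] (0 : ℝ), ∀ r ∈ Finset.range f.natDegree,
      P (x + (((s + r) / f.natDegree : ℝ) : ℂ) * Complex.I) ∉ V := by
    rw [Filter.eventually_all_finset]
    intro r hr
    filter_upwards [hx r hr] with x h hxV
    refine h ?_
    rw [hV] at hxV
    exact (mem_iInter₂.1 hxV) r hr
  have hdiv : Tendsto (fun x : ℝ => x / f.natDegree) (𝓝[>] (0 : ℝ)) (𝓝[>] (0 : ℝ)) := by
    refine tendsto_nhdsWithin_iff.2 ⟨?_, ?_⟩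
    · have : Tendsto (fun x : ℝ => x / f.natDegree) (𝓝 (0 : ℝ)) (𝓝 (0 / f.natDegree)) :=
        (continuous_id.div_const _).tendsto 0
      rw [zero_div] at this
      exact this.mono_left nhdsWithin_le_nhds
    · filter_upwards [self_mem_nhdsWithin] with x hx0
      exact div_pos hx0 hd
  have hVd := hdiv.eventually hVx
  obtain ⟨O, hOV, hO, hwO⟩ := mem_nhds_iff.1 hVn
  have himg : (fun z => f.eval z) '' O ∈ 𝓝 w := by
    refine (poly_open hf hO).mem_nhds ?_
    exact ⟨w', hwO, hw'⟩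
  have hfreq : ∃ᶠ x : ℝ in 𝓝[>] (0 : ℝ), P (x + (s : ℂ) * Complex.I) ∈ (fun z => f.eval z) '' O :=
    mapClusterPt_iff_frequently.1 hw _ himg
  have hpos : ∀ᶠ x : ℝ in 𝓝[>] (0 : ℝ), x ∈ Set.Ioi (0 : ℝ) := self_mem_nhdsWithin
  obtain ⟨x, ⟨y, hyO, hy⟩, hx0, hxV⟩ := (hfreq.and_eventually (hpos.and hVd)).exists
  have hx0' : 0 < x := hx0
  have hre : ((x : ℂ) + (s : ℂ) * Complex.I).re = x := by simp
  have hxHP : (x : ℂ) + (s : ℂ) * Complex.I ∈ HP := by
    change 0 < ((x : ℂ) + (s : ℂ) * Complex.I).re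
    rw [hre]
    exact hx0'
  -- `y` is on one of the rays
  have hyK : y ∈ (filledJulia f)ᶜ := by
    intro hyK
    have h2 := back hyK
    have h3 : P (x + (s : ℂ) * Complex.I) ∈ (filledJulia f)ᶜ := by
      rw [← hP.range]
      exact ⟨_, hxHP, rfl⟩
    exact h3 (by rw [← hy]; exact h2)
  rw [← hP.range] at hyK
  obtain ⟨u, hu, rfl⟩ := hyK
  have hu' : 0 < u.re := hu
  have h4 : P (f.natDegree * u) = P (x + (s : ℂ) * Complex.I) := by
    rw [← hP.semi u hu]
    exact hy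
  have h5 : (f.natDegree : ℂ) * u ∈ HP := by
    show 0 < ((f.natDegree : ℂ) * u).re
    have e : ((f.natDegree : ℂ) * u).re = (f.natDegree : ℝ) * u.re := by simp
    rw [e]
    exact mul_pos hd hu'
  obtain ⟨j, hj⟩ := hP.inj _ h5 _ hxHP h4
  have hdZ : (0 : ℤ) < (f.natDegree : ℤ) := by exact_mod_cast (by omega : 0 < f.natDegree)
  obtain ⟨r, hr⟩ : ∃ r : ℕ, (r : ℤ) = j % (f.natDegree : ℤ) :=
    ⟨(j % (f.natDegree : ℤ)).toNat, Int.toNat_of_nonneg (Int.emod_nonneg _ hdZ.ne')⟩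
  have hrd : r ∈ Finset.range f.natDegree := by
    rw [Finset.mem_range]
    have := Int.emod_lt_of_pos j hdZ
    omega
  have hdC : (f.natDegree : ℂ) ≠ 0 := by
    exact_mod_cast hd.ne'
  have h6 : u = ((x / f.natDegree : ℝ) : ℂ) + (((s + r) / f.natDegree : ℝ) : ℂ) * Complex.I +
      ((j / (f.natDegree : ℤ) : ℤ) : ℂ) * Complex.I := by
    have e1 : (j : ℂ) = r + (f.natDegree : ℂ) * ((j / (f.natDegree : ℤ) : ℤ) : ℂ) := by
      have e2 : j = r + (f.natDegree : ℤ) * (j / (f.natDegree : ℤ)) := by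
        rw [hr]
        exact (Int.emod_add_mul_ediv j _).symm
      exact_mod_cast congrArg (Int.cast : ℤ → ℂ) e2
    refine mul_left_cancel₀ hdC ?_
    rw [hj, e1]
    push_cast
    field_simp
    ring
  have h7 : P u = P (((x / f.natDegree : ℝ) : ℂ) +
      (((s + r) / f.natDegree : ℝ) : ℂ) * Complex.I) := by
    conv_lhs => rw [h6]
    exact Pth.per_int hP _ _
  refine hxV r hrd ?_
  rw [← h7]
  exact hOV hyO

end Pool.Agent.Imp
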