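import Pool.Agent.Lib.MP_1c105c_an.Defs

/-! MP_1c105c_an: lifting through a polynomial (rows LIFT, UNI). -/

set_option autoImplicit false

open Filter Topology Set Polynomial

namespace Pool.Agent.Imp

/-- A continuous lift of a differentiable function through a polynomial is differentiable. -/
theorem differentiableAt_lift {f : ℂ[X]} {g h : ℂ → ℂ} {z : ℂ} (hh : ContinuousAt h z)
    (hg : DifferentiableAt ℂ g z) (hfh : ∀ᶠ y in 𝓝 z, f.eval (h y) = g y)
    (hne : f.derivative.eval (h z) ≠ 0) : DifferentiableAt ℂ h z := by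
  have hs := (f.hasStrictDerivAt (h z)).hasStrictFDerivAt_equiv hne
  have hl := hs.eventually_left_inverse
  have h1 : ∀ᶠ y in 𝓝 z, hs.localInverse _ _ _ (g y) = h y := by
    filter_upwards [hh.eventually hl, hfh] with y hy hy2
    rw [← hy2]
    exact hy
  have h2 : DifferentiableAt ℂ (hs.localInverse _ _ _) (g z) := by
    have := hs.to_localInverse.hasFDerivAt.differentiableAt
    rwa [hfh.self_of_nhds] at this
  exact (h2.comp z hg).congr_of_eventuallyEq (h1.mono fun y hy => hy.symm)

theorem lift : LiftStatement := by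
  intro f b ρ g hg hcv z₀ hz₀ w hw
  have hconv : Convex ℝ (Metric.ball b ρ) := convex_ball b ρ
  have : ContractibleSpace (Metric.ball b ρ) := hconv.contractibleSpace ⟨z₀, hz₀⟩
  have : LocallyPathConnectedSpace (Metric.ball b ρ) := hconv.locallyPathConnectedSpace
  have cov := f.isCoveringMapOn_eval
  let G : C(Metric.ball b ρ, ℂ) := ⟨fun z => g z, hg.continuousOn.domRestrict⟩
  obtain ⟨F, ⟨hF0, hF⟩, -⟩ := cov.existsUnique_continuousMap_lifts (A := Metric.ball b ρ) G
    (a₀ := ⟨z₀, hz₀⟩) (e₀ := w) hw (by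
      intro a
      rintro ⟨c, hc, hca⟩
      exact hcv a a.2 c hc hca)
  classical
  let h : ℂ → ℂ := fun z => if hz : z ∈ Metric.ball b ρ then F ⟨z, hz⟩ else 0
  have hh : ∀ (z : ℂ) (hz : z ∈ Metric.ball b ρ), h z = F ⟨z, hz⟩ := fun z hz => dif_pos hz
  have hcont : ContinuousOn h (Metric.ball b ρ) := by
    rw [continuousOn_iff_continuous_domRestrict]
    have : (Metric.ball b ρ).domRestrict h = F := by
      ext ⟨z, hz⟩
      exact hh z hz
    rw [this]
    exact F.continuous
  have heq : ∀ z ∈ Metric.ball b ρ, f.eval (h z) = g z := by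
    intro z hz
    rw [hh z hz]
    exact congrFun hF ⟨z, hz⟩
  refine ⟨h, ?_, heq, ?_⟩
  · intro z hz
    have hn : Metric.ball b ρ ∈ 𝓝 z := Metric.isOpen_ball.mem_nhds hz
    refine (differentiableAt_lift (hcont.continuousAt hn) ((hg z hz).differentiableAt hn)
      (Filter.eventually_of_mem hn heq) ?_).differentiableWithinAt
    intro h0
    exact hcv z hz _ h0 (heq z hz)
  · rw [hh z₀ hz₀]
    exact hF0

theorem uniq : UniqStatement := by
  intro F S h₁ h₂ hS hc₁ hc₂ heq hne z₀ hz₀ h0
  -- work in the subtype `S`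
  have : PreconnectedSpace S := isPreconnected_iff_preconnectedSpace.mp hS
  have hcl : IsClosed {x : S | h₁ x = h₂ x} :=
    isClosed_eq hc₁.domRestrict hc₂.domRestrict
  have hop : IsOpen {x : S | h₁ x = h₂ x} := by
    rw [isOpen_iff_mem_nhds]
    intro x hx
    have hx' : h₁ x = h₂ x := hx
    have hs := (F.hasStrictDerivAt (h₁ x)).hasStrictFDerivAt_equiv (hne x x.2)
    have hl := hs.eventually_left_inverse
    have c1 : ContinuousAt (S.domRestrict h₁) x := hc₁.domRestrict.continuousAt
    have c2 : ContinuousAt (S.domRestrict h₂) x := hc₂.domRestrict.continuousAt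
    have e1 := c1.eventually hl
    have hl2 : ∀ᶠ y in 𝓝 (S.domRestrict h₂ x), hs.localInverse _ _ _ (F.eval y) = y := by
      have : S.domRestrict h₂ x = h₁ x := hx'.symm
      rw [this]
      exact hl
    have e2 := c2.eventually hl2
    filter_upwards [e1, e2] with y hy1 hy2
    have hy1' : hs.localInverse _ _ _ (F.eval (h₁ y)) = h₁ y := hy1
    have hy2' : hs.localInverse _ _ _ (F.eval (h₂ y)) = h₂ y := hy2
    change h₁ y = h₂ y
    rw [← hy1', ← hy2', heq y y.2]
  have huniv := IsClopen.eq_univ ⟨hcl, hop⟩ ⟨⟨z₀, hz₀⟩, h0⟩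
  intro z hz
  have : (⟨z, hz⟩ : S) ∈ {x : S | h₁ x = h₂ x} := huniv ▸ mem_univ _
  exact this

end Pool.Agent.Imp
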