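import Pool.Agent.Lib.MP_1c105c_an.Defs8

/-! MP_1c105c_an: the number of roots in a relatively open and closed set is constant. -/

set_option autoImplicit false

open Filter Topology Set Polynomial

namespace Pool.Agent.Imp

namespace Deg71

/-- an enumeration of the roots of `F - C w` -/
theorem exists_enum (F : ℂ[X]) (w : ℂ) : ∃ r : Fin F.natDegree → ℂ,
    (Finset.univ : Finset (Fin F.natDegree)).val.map r = (F - C w).roots := by
  have h1 : Multiset.card (F - C w).roots = F.natDegree := by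
    rw [← natDegree_sub_C (p := F) (a := w)]
    exact ((splits_iff_card_roots).1 (IsAlgClosed.splits _))
  generalize (F - C w).roots = s at h1 ⊢
  generalize F.natDegree = d at h1 ⊢
  obtain ⟨l, rfl⟩ := Quot.exists_rep s
  have h2 : l.length = d := h1
  subst h2
  refine ⟨l.get, ?_⟩
  rw [Fin.univ_val_map, List.ofFn_get]
  rfl

theorem lc_sub {F : ℂ[X]} (hF : 1 ≤ F.natDegree) (w : ℂ) :
    (F - C w).leadingCoeff = F.leadingCoeff := by
  apply leadingCoeff_sub_of_degree_lt
  refine lt_of_le_of_lt degree_C_le ?_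
  exact natDegree_pos_iff_degree_pos.1 hF

theorem eval_enum {F : ℂ[X]} (hF : 1 ≤ F.natDegree) (w : ℂ) (r : Fin F.natDegree → ℂ)
    (hr : (Finset.univ : Finset (Fin F.natDegree)).val.map r = (F - C w).roots) (z : ℂ) :
    F.eval z - w = F.leadingCoeff * ∏ i, (z - r i) := by
  have h1 : Multiset.card (F - C w).roots = (F - C w).natDegree :=
    (splits_iff_card_roots).1 (IsAlgClosed.splits _)
  have h2 := C_leadingCoeff_mul_prod_multiset_X_sub_C h1
  rw [lc_sub hF, ← hr, Multiset.map_map] at h2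
  have h3 := congrArg (eval z) h2
  rw [eval_mul, eval_C, eval_sub, eval_C] at h3
  rw [← h3]
  congr 1
  change eval z (∏ i, (X - C (r i))) = _
  rw [eval_prod]
  simp

theorem roots_enum {F : ℂ[X]} (hF : 1 ≤ F.natDegree) (w : ℂ) (a : Fin F.natDegree → ℂ)
    (h : ∀ z : ℂ, F.eval z - w = F.leadingCoeff * ∏ i, (z - a i)) :
    (Finset.univ : Finset (Fin F.natDegree)).val.map a = (F - C w).roots := by
  have hF0 : F ≠ 0 := by
    rintro rfl
    simp at hF
  have hl : F.leadingCoeff ≠ 0 := leadingCoeff_ne_zero.2 hF0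
  have h1 : F - C w = C F.leadingCoeff *
      ((((Finset.univ : Finset (Fin F.natDegree)).val.map a).map fun b => X - C b).prod) := by
    apply Polynomial.funext
    intro z
    rw [eval_sub, eval_C, h z, eval_mul, eval_C, Multiset.map_map]
    congr 1
    change _ = eval z (∏ i, (X - C (a i)))
    rw [eval_prod]
    simp
  rw [h1, roots_C_mul _ hl, roots_multiset_prod_X_sub_C]

theorem eval_root {F : ℂ[X]} (hF : 1 ≤ F.natDegree) (w : ℂ) (r : Fin F.natDegree → ℂ)
    (hr : (Finset.univ : Finset (Fin F.natDegree)).val.map r = (F - C w).roots)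
    (i : Fin F.natDegree) : F.eval (r i) = w := by
  have h1 := eval_enum hF w r hr (r i)
  rw [Finset.prod_eq_zero (Finset.mem_univ i) (sub_self _), mul_zero] at h1
  exact sub_eq_zero.1 h1

theorem count_enum (F : ℂ[X]) (w : ℂ) (r : Fin F.natDegree → ℂ)
    (hr : (Finset.univ : Finset (Fin F.natDegree)).val.map r = (F - C w).roots)
    (O : Set ℂ) (dec : DecidablePred (· ∈ O)) :
    Multiset.card ((F - C w).roots.filter (· ∈ O)) =
      (Finset.univ.filter fun i => r i ∈ O).card := by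
  rw [← hr, Multiset.filter_map, Multiset.card_map]
  rfl

/-- the fibres over a bounded set are in a compact set -/
theorem exists_cpt {F : ℂ[X]} (hF : 1 ≤ F.natDegree) (M : ℝ) :
    ∃ k : Set ℂ, IsCompact k ∧ ∀ z, ‖F.eval z‖ ≤ M → z ∈ k := by
  have h1 : Tendsto (fun z : ℂ => ‖F.eval z‖) (cocompact ℂ) atTop :=
    F.tendsto_norm_atTop (natDegree_pos_iff_degree_pos.1 hF) tendsto_norm_cocompact_atTop
  have h2 := h1.eventually_gt_atTop M
  obtain ⟨k, hk, h3⟩ := mem_cocompact.1 h2
  refine ⟨k, hk, fun z hz => ?_⟩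
  by_contra h4
  exact absurd (h3 h4) (not_lt.2 hz)

/-- local constancy -/
theorem loc {F : ℂ[X]} {W O₁ O₂ : Set ℂ} (hF : 1 ≤ F.natDegree) (hO₁ : IsOpen O₁)
    (hO₂ : IsOpen O₂) (h12 : ∀ z, F.eval z ∈ W → z ∈ O₁ ∪ O₂)
    (hd : ∀ z, F.eval z ∈ W → z ∈ O₁ → z ∉ O₂) (dec : DecidablePred (· ∈ O₁))
    {w₀ : ℂ} (hw₀ : w₀ ∈ W) :
    ∀ᶠ w in 𝓝[W] w₀, Multiset.card ((F - C w).roots.filter (· ∈ O₁)) =
      Multiset.card ((F - C w₀).roots.filter (· ∈ O₁)) := by
  by_contra hcon
  rw [not_eventually] at hcon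
  obtain ⟨u, hu, hne⟩ := exists_seq_forall_of_frequently
    (hcon.and_eventually self_mem_nhdsWithin)
  have hu0 : Tendsto u atTop (𝓝 w₀) := hu.mono_right nhdsWithin_le_nhds
  choose r hr using fun n => exists_enum F (u n)
  obtain ⟨M, hM⟩ : ∃ M : ℝ, ∀ n, ‖u n‖ ≤ M := by
    obtain ⟨M, hM⟩ := (Metric.isBounded_range_of_tendsto u hu0).exists_norm_le
    exact ⟨M, fun n => hM _ ⟨n, rfl⟩⟩
  obtain ⟨k, hk, hk1⟩ := exists_cpt hF M
  obtain ⟨a, _, φ, hφ, ha⟩ := (isCompact_univ_pi fun _ : Fin F.natDegree => hk).tendsto_subseq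
    (x := r) (fun n i _ => hk1 _ (by rw [eval_root hF _ _ (hr n)]; exact hM n))
  have hai : ∀ i, Tendsto (fun n => r (φ n) i) atTop (𝓝 (a i)) := fun i =>
    (tendsto_pi_nhds.1 ha) i
  have hφu : Tendsto (fun n => u (φ n)) atTop (𝓝 w₀) := hu0.comp hφ.tendsto_atTop
  have hroots := roots_enum hF w₀ a (by
    intro z
    have h1 : Tendsto (fun n => F.eval z - u (φ n)) atTop (𝓝 (F.eval z - w₀)) :=
      tendsto_const_nhds.sub hφu
    have h2 : Tendsto (fun n => F.leadingCoeff * ∏ i, (z - r (φ n) i)) atTop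
        (𝓝 (F.leadingCoeff * ∏ i, (z - a i))) :=
      tendsto_const_nhds.mul (tendsto_finsetProd _ fun i _ => tendsto_const_nhds.sub (hai i))
    refine tendsto_nhds_unique h1 (h2.congr fun n => ?_)
    exact (eval_enum hF _ _ (hr (φ n)) z).symm)
  have hW : ∀ n, u n ∈ W := fun n => (hne n).2
  have hev : ∀ i, ∀ᶠ n in atTop, (r (φ n) i ∈ O₁ ↔ a i ∈ O₁) := by
    intro i
    have h1 : F.eval (a i) = w₀ := eval_root hF _ _ hroots i
    rcases h12 (a i) (by rw [h1]; exact hw₀) with h2 | h2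
    · filter_upwards [(hai i).eventually (hO₁.mem_nhds h2)] with n hn
      exact ⟨fun _ => h2, fun _ => hn⟩
    · filter_upwards [(hai i).eventually (hO₂.mem_nhds h2)] with n hn
      constructor
      · intro h3
        exact absurd hn (hd _ (by rw [eval_root hF _ _ (hr (φ n))]; exact hW _) h3)
      · intro h3
        exact absurd h2 (hd _ (by rw [h1]; exact hw₀) h3)
  obtain ⟨n, hn⟩ := (eventually_all.2 hev).exists
  apply (hne (φ n)).1
  rw [count_enum F _ _ (hr (φ n)) O₁ dec, count_enum F _ _ hroots O₁ dec]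
  congr 1
  ext i
  simp only [Finset.mem_filter, Finset.mem_univ, true_and]
  exact hn i

end Deg71

open Deg71

/-- Row DEG. -/
theorem deg : DegStatement := by
  intro F W O₁ O₂ hF hW hO₁ hO₂ h12 hd w hw w' hw' dec
  have hc : ContinuousOn (fun w : ℂ => Multiset.card ((F - C w).roots.filter (· ∈ O₁))) W := by
    intro w₀ hw₀
    exact tendsto_const_nhds.congr' ((loc hF hO₁ hO₂ h12 hd dec hw₀).mono fun _ h => h.symm)
  exact hW.constant hc hw hw'

end Pool.Agent.Imp
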