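import Pool.Agent.Lib.MP_1c105c_an.Defs9
import Pool.Agent.Lib.MP_1c105c_an.Deg

/-! MP_1c105c_an, ORB: the points in all filled impressions are mapped to such points. -/

set_option autoImplicit false

open Filter Topology Set Polynomial

namespace Pool.Agent.Imp

namespace Orb94

theorem impression_closed (ψ : ℂ → ℂ) (θ : ℝ) : IsClosed (impression ψ θ) :=
  isClosed_setOfPred_clusterPt

/-- The map sends the impression of `t` to that of `d t`. -/
theorem impression_map {f : ℂ[X]} {ψ : ℂ → ℂ} (hd : 2 ≤ f.natDegree)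
    (hψ : IsInverseBoettcher f ψ) (t : ℝ) {z : ℂ} (hz : z ∈ impression ψ t) :
    f.eval z ∈ impression ψ (f.natDegree * t) := by
  have hz' : MapClusterPt z (𝓝[{w : ℂ | 1 < ‖w‖}] Complex.exp (2 * Real.pi * t * Complex.I)) ψ := hz
  have h1 : MapClusterPt (f.eval z)
      (𝓝[{w : ℂ | 1 < ‖w‖}] Complex.exp (2 * Real.pi * t * Complex.I))
      ((fun w => f.eval w) ∘ ψ) :=
    hz'.continuousAt_comp f.continuous.continuousAt
  have h2 : ∀ w : ℂ, 1 < ‖w‖ → 1 < ‖w ^ f.natDegree‖ := fun w hw => by
    rw [norm_pow]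
    exact one_lt_pow₀ hw (by omega)
  have h3 : Tendsto (fun w : ℂ => w ^ f.natDegree)
      (𝓝[{w : ℂ | 1 < ‖w‖}] Complex.exp (2 * Real.pi * t * Complex.I))
      (𝓝[{w : ℂ | 1 < ‖w‖}] Complex.exp (2 * Real.pi * (f.natDegree * t : ℝ) * Complex.I)) := by
    refine tendsto_nhdsWithin_iff.2 ⟨?_, ?_⟩
    · have h4 : Complex.exp (2 * Real.pi * (f.natDegree * t : ℝ) * Complex.I) =
          Complex.exp (2 * Real.pi * t * Complex.I) ^ f.natDegree := by
        rw [← Complex.exp_nat_mul]
        congr 1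
        push_cast
        ring
      rw [h4]
      exact ((continuous_pow f.natDegree).tendsto _).mono_left nhdsWithin_le_nhds
    · exact eventually_nhdsWithin_of_forall fun w hw => h2 w hw
  have h5 : map ((fun w => f.eval w) ∘ ψ)
      (𝓝[{w : ℂ | 1 < ‖w‖}] Complex.exp (2 * Real.pi * t * Complex.I)) =
      map ψ (map (fun w : ℂ => w ^ f.natDegree)
        (𝓝[{w : ℂ | 1 < ‖w‖}] Complex.exp (2 * Real.pi * t * Complex.I))) := by
    rw [Filter.map_map]
    exact Filter.map_congr (eventually_nhdsWithin_of_forall fun w hw => hψ.semiconj w hw)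
  have h6 : ClusterPt (f.eval z) (map ((fun w => f.eval w) ∘ ψ)
      (𝓝[{w : ℂ | 1 < ‖w‖}] Complex.exp (2 * Real.pi * t * Complex.I))) := h1
  rw [h5] at h6
  exact h6.mono (Filter.map_mono h3)

/-- Unbounded preimages. -/
theorem unbounded (f : ℂ[X]) (hd : 1 ≤ f.natDegree) (Ω : Set ℂ) (hΩ : IsOpen Ω)
    (hc : IsPreconnected Ω) (hu : ¬ Bornology.IsBounded Ω) (v : ℂ) (hv : f.eval v ∈ Ω) :
    ¬ Bornology.IsBounded (connectedComponentIn ((fun w => f.eval w) ⁻¹' Ω) v) := by
  classical
  set F : Set ℂ := (fun w => f.eval w) ⁻¹' Ω with hF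
  have hFo : IsOpen F := hΩ.preimage f.continuous
  set C := connectedComponentIn F v with hC
  have hvC : v ∈ C := mem_connectedComponentIn hv
  have hCo : IsOpen C := hFo.connectedComponentIn
  have hOo : IsOpen (F \ C) := by
    have h1 : F \ C = ⋃ z ∈ F \ C, connectedComponentIn F z := by
      refine Subset.antisymm (fun z hz => mem_biUnion hz (mem_connectedComponentIn hz.1)) ?_
      refine iUnion₂_subset fun z hz y hy => ⟨connectedComponentIn_subset F z hy, fun hy' => ?_⟩
      have h2 : connectedComponentIn F z = connectedComponentIn F y := connectedComponentIn_eq hy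
      have h3 : C = connectedComponentIn F y := connectedComponentIn_eq hy'
      exact hz.2 (by rw [h3, ← h2]; exact mem_connectedComponentIn hz.1)
    rw [h1]
    exact isOpen_biUnion fun z _ => hFo.connectedComponentIn
  have key : ∀ w ∈ Ω, ∃ z ∈ C, f.eval z = w := by
    intro w hw
    have h1 := deg f Ω C (F \ C) hd hc hCo hOo
      (fun z hz => (em (z ∈ C)).imp id fun h => ⟨hz, h⟩) (fun z _ h h' => h'.2 h) _ hv w hw
      (fun z => Classical.dec _)
    have hne : ∀ u : ℂ, f - Polynomial.C u ≠ 0 := fun u h0 => by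
      have h2 : f = Polynomial.C u := sub_eq_zero.1 h0
      rw [h2, natDegree_C] at hd
      omega
    have h2 : v ∈ (f - Polynomial.C (f.eval v)).roots.filter (· ∈ C) := by
      rw [Multiset.mem_filter]
      refine ⟨(mem_roots (hne _)).2 ?_, hvC⟩
      rw [IsRoot.def, eval_sub, eval_C, sub_self]
    have h3 : 0 < ((f - Polynomial.C (f.eval v)).roots.filter (· ∈ C)).card :=
      Multiset.card_pos_iff_exists_mem.2 ⟨v, h2⟩
    have h4 : 0 < ((f - Polynomial.C w).roots.filter (· ∈ C)).card := by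
      rw [← h1]
      exact h3
    obtain ⟨z, hz⟩ := Multiset.card_pos_iff_exists_mem.1 h4
    rw [Multiset.mem_filter, mem_roots (hne _), IsRoot.def, eval_sub, eval_C, sub_eq_zero] at hz
    exact ⟨z, hz.2, hz.1⟩
  intro hb
  refine hu ((hb.isCompact_closure.image f.continuous).isBounded.subset fun w hw => ?_)
  obtain ⟨z, hz, rfl⟩ := key w hw
  exact ⟨z, subset_closure hz, rfl⟩

end Orb94

open Orb94 in
/-- ORB. -/
theorem orb : OrbStatement := by
  intro f ψ hd hψ v hv θ A hA hAu hvA
  by_contra hne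
  have hX : A ⊆ (impression ψ θ)ᶜ := fun z hz hz' => hne ⟨z, hz, hz'⟩
  set Ω := connectedComponentIn (impression ψ θ)ᶜ (f.eval v) with hΩ
  have hAΩ : A ⊆ Ω := hA.subset_connectedComponentIn hvA hX
  have hΩo : IsOpen Ω := (impression_closed ψ θ).isOpen_compl.connectedComponentIn
  have hu := unbounded f (by omega) Ω hΩo isPreconnected_connectedComponentIn
    (fun h => hAu (h.subset hAΩ)) v (hAΩ hvA)
  have hd0 : (f.natDegree : ℝ) ≠ 0 := by
    have : f.natDegree ≠ 0 := by omega
    exact_mod_cast this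
  obtain ⟨z, hz, hz'⟩ := hv (θ / f.natDegree) _ isPreconnected_connectedComponentIn hu
    (mem_connectedComponentIn (show v ∈ (fun w => f.eval w) ⁻¹' Ω from hAΩ hvA))
  have h1 := impression_map hd hψ _ hz'
  rw [mul_div_cancel₀ _ hd0] at h1
  have h2 : f.eval z ∈ Ω := connectedComponentIn_subset ((fun w => f.eval w) ⁻¹' Ω) v hz
  exact connectedComponentIn_subset _ _ h2 h1

end Pool.Agent.Imp
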