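import Pool.Agent.Lib.MP_1c105c_an.Defs7
import Pool.Agent.Lib.MP_1c105c_an.Jul
import Pool.Agent.Lib.MP_5011cf_an.Bloch

/-! UCO: inverse branches of high iterates contract away from the interior of `K`. -/

set_option autoImplicit false

open Filter Topology Set Polynomial

namespace Pool.Agent.Imp

namespace Uco

open Pool.Agent.Lib.MP_5011cf_an

/-- the image of a connected set covered by finitely many pieces of small diameter is small -/
theorem chain {Q : Set ℂ} (hQ : IsPreconnected Q) (T : Finset ℂ) {r δ : ℝ} (hδ : 0 ≤ δ)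
    (hcov : ∀ x ∈ Q, ∃ t ∈ T, x ∈ Metric.ball t r) {h : ℂ → ℂ} (hc : ContinuousOn h Q)
    (hosc : ∀ t ∈ T, ∀ x ∈ Metric.ball t r, x ∈ Q → ‖h x - h t‖ ≤ δ) {a b : ℂ} (ha : a ∈ Q)
    (hb : b ∈ Q) : ‖h a - h b‖ ≤ T.card * (2 * δ) := by
  let φ : ℂ → ℝ := fun x => ‖h x - h b‖
  have hφc : ContinuousOn φ Q := (hc.sub continuousOn_const).norm
  have h1 : Icc (φ b) (φ a) ⊆ φ '' Q :=
    (hQ.image φ hφc).Icc_subset (mem_image_of_mem φ hb) (mem_image_of_mem φ ha)
  have h2 : φ '' Q ⊆ ⋃ t ∈ T, Icc (φ t - δ) (φ t + δ) := by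
    rintro _ ⟨x, hx, rfl⟩
    obtain ⟨t, ht, hxt⟩ := hcov x hx
    refine mem_biUnion ht ?_
    have h3 := hosc t ht x hxt hx
    have h4 : |φ x - φ t| ≤ ‖h x - h t‖ := by
      refine (abs_norm_sub_norm_le (h x - h b) (h t - h b)).trans (le_of_eq ?_)
      congr 1
      ring
    have h5 := abs_le.1 (h4.trans h3)
    exact ⟨by linarith [h5.1], by linarith [h5.2]⟩
  have h0 : φ b = 0 := by simp [φ]
  have hfin : (MeasureTheory.volume (⋃ t ∈ T, Icc (φ t - δ) (φ t + δ))) ≤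
      ENNReal.ofReal (T.card * (2 * δ)) := by
    refine (MeasureTheory.measure_biUnion_finset_le T _).trans ?_
    have h6 : ∀ t ∈ T, MeasureTheory.volume (Icc (φ t - δ) (φ t + δ)) =
        ENNReal.ofReal (2 * δ) := by
      intro t _
      rw [Real.volume_Icc]
      congr 1
      ring
    rw [Finset.sum_congr rfl h6, Finset.sum_const, nsmul_eq_mul,
      ENNReal.ofReal_mul (Nat.cast_nonneg _), ENNReal.ofReal_natCast]
  have h7 : ENNReal.ofReal (φ a) ≤ ENNReal.ofReal (T.card * (2 * δ)) := by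
    have h8 := (MeasureTheory.measure_mono (μ := MeasureTheory.volume) (h1.trans h2)).trans hfin
    rw [Real.volume_Icc, h0, sub_zero] at h8
    exact h8
  exact (ENNReal.ofReal_le_ofReal_iff (by positivity)).1 h7

/-- rescaling to the unit disc -/
theorem resc {h : ℂ → ℂ} {p : ℂ} {ρ : ℝ} (hρ : 0 < ρ)
    (hd : DifferentiableOn ℂ h (Metric.ball p ρ)) (hi : InjOn h (Metric.ball p ρ)) :
    DifferentiableOn ℂ (fun ζ => h (p + ρ * ζ)) (Metric.ball 0 1) ∧
    InjOn (fun ζ => h (p + ρ * ζ)) (Metric.ball 0 1) ∧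
    ∀ ζ ∈ Metric.ball (0 : ℂ) 1, deriv (fun ζ => h (p + ρ * ζ)) ζ = deriv h (p + ρ * ζ) * ρ := by
  have hmap : ∀ ζ ∈ Metric.ball (0 : ℂ) 1, p + ρ * ζ ∈ Metric.ball p ρ := by
    intro ζ hζ
    rw [mem_ball_zero_iff] at hζ
    rw [mem_ball_iff_norm, add_sub_cancel_left, norm_mul, Complex.norm_real,
      Real.norm_of_nonneg hρ.le]
    nlinarith
  have hder : ∀ ζ ∈ Metric.ball (0 : ℂ) 1,
      HasDerivAt (fun ζ => h (p + ρ * ζ)) (deriv h (p + ρ * ζ) * ρ) ζ := by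
    intro ζ hζ
    have e1 : HasDerivAt h (deriv h (p + ρ * ζ)) (p + ρ * ζ) :=
      (hd.differentiableAt (Metric.isOpen_ball.mem_nhds (hmap ζ hζ))).hasDerivAt
    have e2 : HasDerivAt (fun ζ : ℂ => p + ρ * ζ) (ρ : ℂ) ζ := by
      simpa using ((hasDerivAt_id ζ).const_mul (ρ : ℂ)).const_add p
    exact e1.comp ζ e2
  refine ⟨fun ζ hζ => (hder ζ hζ).differentiableAt.differentiableWithinAt, ?_,
    fun ζ hζ => (hder ζ hζ).deriv⟩
  intro x hx y hy hxy
  have h1 := hi (hmap x hx) (hmap y hy) hxy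
  have h2 : (ρ : ℂ) ≠ 0 := by exact_mod_cast hρ.ne'
  exact mul_left_cancel₀ h2 (add_left_cancel h1)

/-- the covering theorem on a ball -/
theorem cover {h : ℂ → ℂ} {p : ℂ} {ρ : ℝ} (hρ : 0 < ρ)
    (hd : DifferentiableOn ℂ h (Metric.ball p ρ)) (hi : InjOn h (Metric.ball p ρ)) {w : ℂ}
    (hw : ‖w - h p‖ < 1 / 64 * (‖deriv h p‖ * ρ)) : ∃ y ∈ Metric.ball p ρ, h y = w := by
  obtain ⟨h1, h2, h3⟩ := resc hρ hd hi
  have h4 := h3 0 (Metric.mem_ball_self one_pos)
  rw [mul_zero, add_zero] at h4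
  obtain ⟨ζ, hζ, hζw⟩ := koebe_cover h1 h2 (w := w) (by
    rw [h4, norm_mul, Complex.norm_real, Real.norm_of_nonneg hρ.le, mul_zero, add_zero]
    exact hw)
  refine ⟨p + ρ * ζ, ?_, hζw⟩
  rw [mem_ball_zero_iff] at hζ
  rw [mem_ball_iff_norm, add_sub_cancel_left, norm_mul, Complex.norm_real,
    Real.norm_of_nonneg hρ.le]
  nlinarith

/-- the distortion theorem on a ball -/
theorem dist {h : ℂ → ℂ} {p : ℂ} {ρ : ℝ} (hρ : 0 < ρ)
    (hd : DifferentiableOn ℂ h (Metric.ball p ρ)) (hi : InjOn h (Metric.ball p ρ)) {q : ℂ}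
    (hq : q ∈ Metric.ball p (ρ / 2)) : ‖deriv h q‖ ≤ ‖deriv h p‖ * Real.exp 65536 := by
  obtain ⟨h1, h2, h3⟩ := resc hρ hd hi
  have hρ' : (ρ : ℂ) ≠ 0 := by exact_mod_cast hρ.ne'
  have hn : ‖(q - p) / (ρ : ℂ)‖ ≤ 1 / 2 := by
    rw [norm_div, Complex.norm_real, Real.norm_of_nonneg hρ.le, div_le_iff₀ hρ]
    rw [mem_ball_iff_norm] at hq
    linarith
  have h5 := harnack h1 h2 (z := 0) (w := (q - p) / ρ) (by simp) (by
    rw [sub_zero, norm_zero]
    linarith)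
  rw [h3 0 (Metric.mem_ball_self one_pos), h3 _ (by
    rw [mem_ball_zero_iff]
    linarith), mul_zero, add_zero, norm_mul, norm_mul, Complex.norm_real,
    Real.norm_of_nonneg hρ.le] at h5
  have h6 : p + ρ * ((q - p) / ρ) = q := by
    field_simp
    ring
  rw [h6] at h5
  have h7 : ‖deriv h q‖ * ρ ≤ (‖deriv h p‖ * Real.exp 65536) * ρ := by linarith
  exact le_of_mul_le_mul_right h7 hρ

/-- oscillation on a ball -/
theorem osc {h : ℂ → ℂ} {p : ℂ} {ρ : ℝ} (hρ : 0 < ρ)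
    (hd : DifferentiableOn ℂ h (Metric.ball p ρ)) (hi : InjOn h (Metric.ball p ρ)) {c : ℝ}
    (hc : ‖deriv h p‖ ≤ c) {q : ℂ} (hq : q ∈ Metric.ball p (ρ / 2)) :
    ‖h q - h p‖ ≤ c * Real.exp 65536 * ρ := by
  have h1 := (convex_ball p (ρ / 2)).norm_image_sub_le_of_norm_deriv_le (𝕜 := ℂ)
    (f := h) (C := c * Real.exp 65536) (x := p) (y := q) (fun x hx => ?_) (fun x hx => ?_)
    (Metric.mem_ball_self (by positivity)) hq
  · refine h1.trans ?_
    have h2 : ‖q - p‖ ≤ ρ := by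
      rw [mem_ball_iff_norm] at hq
      linarith
    have h3 : 0 ≤ c * Real.exp 65536 := mul_nonneg ((norm_nonneg _).trans hc) (Real.exp_nonneg _)
    exact mul_le_mul_of_nonneg_left h2 h3
  · refine hd.differentiableAt (Metric.isOpen_ball.mem_nhds ?_)
    exact Metric.ball_subset_ball (by linarith) hx
  · exact (dist hρ hd hi hx).trans (mul_le_mul_of_nonneg_right hc (Real.exp_nonneg _))

/-- the orbits of the points outside of `K` tend to infinity -/
theorem escapes {f : ℂ[X]} (hd : 2 ≤ f.natDegree) {x : ℂ} (hx : x ∉ filledJulia f) (B : ℝ) :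
    ∃ N : ℕ, ∀ n : ℕ, N ≤ n → B < ‖(fun w => f.eval w)^[n] x‖ := by
  obtain ⟨R, hR1, hR⟩ := Jul.escape f hd
  rw [Jul.filledJulia_eq f hR1 hR] at hx
  simp only [mem_ofPred_eq, not_forall, not_le] at hx
  obtain ⟨n₀, hn₀⟩ := hx
  have key : ∀ k : ℕ,
      2 ^ k * ‖(fun w => f.eval w)^[n₀] x‖ ≤ ‖(fun w => f.eval w)^[n₀ + k] x‖ := by
    intro k
    induction k with
    | zero => simp
    | succ k ih =>
      have h1 : R < ‖(fun w => f.eval w)^[n₀ + k] x‖ := by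
        refine lt_of_lt_of_le hn₀ (le_trans ?_ ih)
        have : (1 : ℝ) ≤ 2 ^ k := one_le_pow₀ (by norm_num)
        nlinarith [norm_nonneg ((fun w => f.eval w)^[n₀] x)]
      have h2 := hR _ h1
      rw [← add_assoc, Function.iterate_succ_apply', pow_succ]
      nlinarith
  obtain ⟨k, hk⟩ := pow_unbounded_of_one_lt B (by norm_num : (1 : ℝ) < 2)
  refine ⟨n₀ + k, fun n hn => ?_⟩
  obtain ⟨m, rfl⟩ := Nat.exists_eq_add_of_le hn
  have h3 := key (k + m)
  rw [← add_assoc] at h3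
  have h5 : (1 : ℝ) ≤ ‖(fun w => f.eval w)^[n₀] x‖ := by linarith
  have h6 : (2 : ℝ) ^ k ≤ 2 ^ (k + m) := pow_le_pow_right₀ (by norm_num) (by omega)
  have h7 : (0 : ℝ) < 2 ^ (k + m) := by positivity
  nlinarith

theorem iter_filled {f : ℂ[X]} (n : ℕ) (w : ℂ) :
    (fun w => f.eval w)^[n] w ∈ filledJulia f ↔ w ∈ filledJulia f := by
  induction n generalizing w with
  | zero => rfl
  | succ n ih => rw [Function.iterate_succ_apply, ih, Jul.inv_filled]

theorem iter_julia {f : ℂ[X]} (hd : 2 ≤ f.natDegree) (n : ℕ) (w : ℂ) :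
    (fun w => f.eval w)^[n] w ∈ julia f ↔ w ∈ julia f := by
  induction n generalizing w with
  | zero => rfl
  | succ n ih => rw [Function.iterate_succ_apply, ih, Jul.inv_julia f hd]

theorem injOn_of {F h : ℂ → ℂ} {V : Set ℂ} (hF : ∀ z ∈ V, F (h z) = z) : InjOn h V := by
  intro a ha b hb hab
  rw [← hF a ha, hab, hF b hb]

/-- the derivatives of the branches tend to zero uniformly on `Q` -/
theorem small {f : ℂ[X]} (hd : 2 ≤ f.natDegree) {V Q : Set ℂ} (hQ : IsCompact Q)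
    (hQV : Q ⊆ V) (hK : Disjoint Q (interior (filledJulia f))) {ρ : ℝ} (hρ : 0 < ρ)
    (hball : ∀ p ∈ Q, Metric.ball p ρ ⊆ V) {c : ℝ} (hc : 0 < c) :
    ∃ N : ℕ, ∀ n : ℕ, N ≤ n → ∀ h : ℂ → ℂ, DifferentiableOn ℂ h V →
      (∀ z ∈ V, (fun w => f.eval w)^[n] (h z) = z) → ∀ p ∈ Q, ‖deriv h p‖ ≤ c := by
  by_contra hcon
  push Not at hcon
  choose n hn h hh1 hh2 p hp hpc using hcon
  -- the points are bounded
  obtain ⟨ρ₀, hρ₀⟩ := hQ.isBounded.exists_norm_le
  obtain ⟨R, hR⟩ := exists_bound hd ρ₀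
  have hx : ∀ k, h k (p k) ∈ Metric.closedBall (0 : ℂ) R := by
    intro k
    rw [mem_closedBall_zero_iff]
    refine hR (n k) _ ?_
    rw [hh2 k _ (hQV (hp k))]
    exact hρ₀ _ (hp k)
  obtain ⟨x, -, φ, hφ, hlim⟩ := (isCompact_closedBall (0 : ℂ) R).tendsto_subseq hx
  -- the limit is in the closure of the complement of `K`
  have hcl : ∀ k, h k (p k) ∈ closure (filledJulia f)ᶜ := by
    intro k
    by_cases hk : p k ∈ filledJulia f
    · have h1 : p k ∈ julia f := by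
        rw [julia, (Jul.closed f hd).frontier_eq]
        exact ⟨hk, fun h2 => disjoint_left.1 hK (hp k) h2⟩
      have h2 : h k (p k) ∈ julia f := by
        rw [← iter_julia hd (n k), hh2 k _ (hQV (hp k))]
        exact h1
      rw [julia, frontier_eq_closure_inter_closure] at h2
      exact h2.2
    · refine subset_closure fun h1 => hk ?_
      rw [← hh2 k _ (hQV (hp k)), iter_filled]
      exact h1
  have hxc : x ∈ closure (filledJulia f)ᶜ :=
    isClosed_closure.mem_of_tendsto hlim (Eventually.of_forall fun k => hcl _)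
  set c₂ : ℝ := 1 / 64 * (c * ρ) with hc₂
  have hc₂0 : 0 < c₂ := by positivity
  obtain ⟨x', hx', hxx'⟩ := Metric.mem_closure_iff.1 hxc (c₂ / 2) (by positivity)
  obtain ⟨N, hN⟩ := escapes hd hx' (ρ₀ + ρ)
  have h1 : ∀ᶠ k in atTop, Dist.dist (h (φ k) (p (φ k))) x < c₂ / 2 :=
    (Metric.tendsto_nhds.1 hlim) _ (by positivity)
  obtain ⟨k, hk1, hk2⟩ := (h1.and (eventually_ge_atTop N)).exists
  have hkn : N ≤ n (φ k) := hk2.trans ((hφ.id_le k).trans (hn (φ k)))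
  have hsub := hball _ (hp (φ k))
  obtain ⟨y, hy, hyx⟩ := cover hρ ((hh1 (φ k)).mono hsub)
    ((injOn_of (hh2 (φ k))).mono hsub) (w := x') (by
      have h2 : ‖x' - h (φ k) (p (φ k))‖ < c₂ := by
        rw [← dist_eq_norm]
        have h3 := dist_triangle x' x (h (φ k) (p (φ k)))
        rw [dist_comm x' x, dist_comm x (h (φ k) (p (φ k)))] at h3
        linarith
      refine h2.trans ?_
      rw [hc₂]
      have h3 := mul_lt_mul_of_pos_right (hpc (φ k)) hρ
      linarith)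
  have h2 := hN _ hkn
  rw [← hyx, hh2 (φ k) _ (hsub hy)] at h2
  have h3 : ‖y‖ ≤ ρ₀ + ρ := by
    rw [mem_ball_iff_norm] at hy
    have h4 : ‖y‖ ≤ ‖y - p (φ k)‖ + ‖p (φ k)‖ := norm_le_norm_sub_add _ _
    have h5 := hρ₀ _ (hp (φ k))
    linarith
  linarith

end Uco

open Uco in
/-- **Row UCO.** -/
theorem uco : UcoStatement := by
  intro f P hd _ _ V Q hV hQ hQc hQV hK ε hε
  obtain ⟨ρ, hρ, hsub⟩ := hQ.exists_thickening_subset_open hV hQV
  have hball : ∀ p ∈ Q, Metric.ball p ρ ⊆ V := fun p hp =>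
    (Metric.ball_subset_thickening hp ρ).trans hsub
  obtain ⟨T, hTQ, hTf, hT⟩ := hQ.finite_cover_balls (e := ρ / 2) (by positivity)
  set T' : Finset ℂ := hTf.toFinset with hT'
  set c : ℝ := ε / ((T'.card + 1) * (2 * (Real.exp 65536 * ρ))) with hc
  have hpos : 0 < ((T'.card : ℝ) + 1) * (2 * (Real.exp 65536 * ρ)) := by positivity
  have hc0 : 0 < c := by positivity
  obtain ⟨N, hN⟩ := small hd hQ hQV hK hρ hball hc0
  refine ⟨N, fun n hn h hh1 hh2 a ha b hb => ?_⟩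
  have h1 := hN n hn h hh1 hh2
  have h2 := chain hQc T' (r := ρ / 2) (δ := c * Real.exp 65536 * ρ) (by positivity)
    (fun x hx => by
      obtain ⟨t, ht, hxt⟩ := mem_iUnion₂.1 (hT hx)
      exact ⟨t, hTf.mem_toFinset.2 ht, hxt⟩) (hh1.continuousOn.mono hQV)
    (fun t ht x hx _ => by
      have htQ : t ∈ Q := hTQ (hTf.mem_toFinset.1 ht)
      exact osc hρ (hh1.mono (hball t htQ)) ((injOn_of hh2).mono (hball t htQ)) (h1 t htQ) hx)
    ha hb
  refine h2.trans ?_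
  have h3 : c * (((T'.card : ℝ) + 1) * (2 * (Real.exp 65536 * ρ))) = ε :=
    div_mul_cancel₀ _ hpos.ne'
  have h4 : 0 ≤ c * (2 * (Real.exp 65536 * ρ)) := by positivity
  nlinarith

end Pool.Agent.Imp
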