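import Pool.Agent.Lib.MP_1c105c_an.Defs9
import Pool.Agent.Lib.MP_1c105c_an.Lift
import Pool.Agent.Lib.MP_1c105c_an.Nr
import Pool.Agent.Lib.MP_1c105c_an.Orb
import Pool.Agent.Lib.MP_1c105c_an.Uco

/-! MP_1c105c_an, row ALP: the nonrepelling fixed points are in the filled impressions. -/

set_option autoImplicit false

open Filter Topology Set Polynomial

namespace Pool.Agent.Imp

namespace Alp64

/-- the critical points of the iterates -/
theorem crit (f : ℂ[X]) (n : ℕ) (c : ℂ) (h : (Nr.It f n).derivative.eval c = 0) :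
    ∃ k, k < n ∧ f.derivative.eval ((fun w => f.eval w)^[k] c) = 0 := by
  induction n with
  | zero =>
    exfalso
    rw [Nr.It, Function.iterate_zero, id, derivative_X, eval_one] at h
    exact one_ne_zero h
  | succ n ih =>
    have h1 : Nr.It f (n + 1) = f.comp (Nr.It f n) := by
      rw [Nr.It, Function.iterate_succ_apply']
      rfl
    rw [h1, derivative_comp, eval_mul, eval_comp, Nr.it_eval] at h
    rcases mul_eq_zero.1 h with h2 | h2
    · obtain ⟨k, hk, hk'⟩ := ih h2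
      exact ⟨k, by omega, hk'⟩
    · exact ⟨n, by omega, h2⟩

/-- the critical values of the iterates -/
theorem crit_val (f : ℂ[X]) {Ω : Set ℂ}
    (hΩ : ∀ c, f.derivative.eval c = 0 → ∀ n : ℕ, (fun w => f.eval w)^[n + 1] c ∉ Ω) (n : ℕ)
    {z : ℂ} (hz : z ∈ Ω) (c : ℂ) (h : (Nr.It f n).derivative.eval c = 0) :
    (Nr.It f n).eval c ≠ z := by
  obtain ⟨k, hk, hk'⟩ := crit f n c h
  intro h1
  have h2 := hΩ _ hk' (n - k - 1)
  rw [← Function.iterate_add_apply, show n - k - 1 + 1 + k = n by omega, ← Nr.it_eval, h1] at h2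
  exact h2 hz

/-- a branch of the inverse of the iterate on a ball -/
theorem branch (f : ℂ[X]) {Ω : Set ℂ}
    (hΩ : ∀ c, f.derivative.eval c = 0 → ∀ n : ℕ, (fun w => f.eval w)^[n + 1] c ∉ Ω) (n : ℕ)
    {x : ℂ} {ρ : ℝ} (hb : Metric.ball x ρ ⊆ Ω) {y w : ℂ} (hy : y ∈ Metric.ball x ρ)
    (hw : (Nr.It f n).eval w = y) :
    ∃ h : ℂ → ℂ, DifferentiableOn ℂ h (Metric.ball x ρ) ∧
      (∀ z ∈ Metric.ball x ρ, (Nr.It f n).eval (h z) = z) ∧ h y = w ∧
      ∀ z ∈ Metric.ball x ρ, (Nr.It f n).derivative.eval (h z) * deriv h z = 1 := by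
  obtain ⟨h, hd, hF, hy'⟩ := lift (Nr.It f n) x ρ (fun z => z) differentiableOn_id
    (fun z hz c hc => crit_val f hΩ n (hb hz) c hc) y hy w hw
  refine ⟨h, hd, hF, hy', fun z hz => ?_⟩
  have h1 := (hd.differentiableAt (Metric.isOpen_ball.mem_nhds hz)).hasDerivAt
  have h2 := ((Nr.It f n).hasDerivAt (h z)).comp z h1
  have h3 : HasDerivAt (fun z : ℂ => z) ((Nr.It f n).derivative.eval (h z) * deriv h z) z := by
    refine h2.congr_of_eventuallyEq ?_
    filter_upwards [Metric.isOpen_ball.mem_nhds hz] with y hy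
    exact (hF y hy).symm
  exact h3.unique (hasDerivAt_id z)

/-- `x` has preimages under all iterates at which the derivatives are bounded by `M` -/
def Good (f : ℂ[X]) (M : ℝ) (x : ℂ) : Prop :=
  ∀ n : ℕ, ∃ w, (Nr.It f n).eval w = x ∧ ‖(Nr.It f n).derivative.eval w‖ ≤ M

theorem step (f : ℂ[X]) {Ω : Set ℂ}
    (hΩ : ∀ c, f.derivative.eval c = 0 → ∀ n : ℕ, (fun w => f.eval w)^[n + 1] c ∉ Ω)
    {x y : ℂ} {r M : ℝ} (hr : 0 < r) (hb : Metric.ball x (2 * r) ⊆ Ω)
    (hy : y ∈ Metric.ball x r) (h : Good f M y) : Good f (M * Real.exp 65536) x := by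
  intro n
  obtain ⟨w, hw, hM⟩ := h n
  have hy2 : y ∈ Metric.ball x (2 * r) := Metric.ball_subset_ball (by linarith) hy
  obtain ⟨g, hd, hF, hgy, hder⟩ := branch f hΩ n hb hy2 hw
  have hx : x ∈ Metric.ball x (2 * r) := Metric.mem_ball_self (by positivity)
  refine ⟨g x, hF x hx, ?_⟩
  have h1 := Uco.dist (by positivity : 0 < 2 * r) hd (Uco.injOn_of (F := fun w => (Nr.It f n).eval w) hF)
    (by rwa [mul_div_cancel_left₀ _ two_ne_zero] : y ∈ Metric.ball x (2 * r / 2))
  have h2 := congrArg norm (hder x hx)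
  have h3 := congrArg norm (hder y hy2)
  rw [norm_mul, norm_one] at h2 h3
  rw [hgy] at h3
  set A := ‖(Nr.It f n).derivative.eval (g x)‖ with hA
  set B := ‖(Nr.It f n).derivative.eval w‖ with hB
  set a := ‖deriv g x‖ with ha
  set b := ‖deriv g y‖ with hb'
  have hE := Real.exp_pos 65536
  set E := Real.exp 65536 with hEdef
  have hA0 : 0 ≤ A := norm_nonneg _
  have hB0 : 0 ≤ B := norm_nonneg _
  have hb0 : 0 ≤ b := norm_nonneg _
  -- A = A * (B * b) ≤ A * B * (a * E) = B * E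
  calc A = A * (B * b) := by rw [h3, mul_one]
    _ = (A * B) * b := by ring
    _ ≤ (A * B) * (a * E) := mul_le_mul_of_nonneg_left h1 (by positivity)
    _ = (A * a) * (B * E) := by ring
    _ = B * E := by rw [h2, one_mul]
    _ ≤ M * E := mul_le_mul_of_nonneg_right hM hE.le

end Alp64

open Alp64 in
/-- Row ALP (second copy). -/
theorem alp64 : AlpStatement := by
  intro f ψ hd hψ θ hcrit α hα hα1 A hA hAu hαA
  by_contra hne
  have hX : A ⊆ (impression ψ θ)ᶜ := fun z hz hz' => hne ⟨z, hz, hz'⟩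
  set Ω := connectedComponentIn (impression ψ θ)ᶜ α with hΩ
  have hΩo : IsOpen Ω := (Orb94.impression_closed ψ θ).isOpen_compl.connectedComponentIn
  have hΩc : IsPreconnected Ω := isPreconnected_connectedComponentIn
  have hαX : α ∈ (impression ψ θ)ᶜ := hX hαA
  have hαΩ : α ∈ Ω := mem_connectedComponentIn hαX
  have hAΩ : A ⊆ Ω := hA.subset_connectedComponentIn hαA hX
  have hΩu : ¬ Bornology.IsBounded Ω := fun h => hAu (h.subset hAΩ)
  have hΩX : ∀ z ∈ Ω, z ∉ impression ψ θ := fun z hz => connectedComponentIn_subset _ _ hz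
  have hcv : ∀ c, f.derivative.eval c = 0 → ∀ n : ℕ, (fun w => f.eval w)^[n + 1] c ∉ Ω := by
    intro c hc n hmem
    obtain ⟨z, hz, hz'⟩ := hcrit c hc n Ω hΩc hΩu hmem
    exact hΩX z hz hz'
  -- the set of the good points
  have hball : ∀ x ∈ Ω, ∃ r : ℝ, 0 < r ∧ Metric.ball x (3 * r) ⊆ Ω := by
    intro x hx
    obtain ⟨r, hr, hr'⟩ := Metric.isOpen_iff.1 hΩo x hx
    exact ⟨r / 3, by positivity, by rwa [mul_div_cancel₀ _ (by norm_num : (3 : ℝ) ≠ 0)]⟩
  set G : Set ℂ := {x | x ∈ Ω ∧ ∃ M, Good f M x} with hG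
  have hGo : IsOpen G := by
    rw [Metric.isOpen_iff]
    rintro y ⟨hy, M, hM⟩
    obtain ⟨r, hr, hr'⟩ := hball y hy
    refine ⟨r, hr, fun x hx => ?_⟩
    have hx' : dist x y < r := hx
    refine ⟨hr' (Metric.ball_subset_ball (by linarith) hx), _, step f hcv hr (fun z hz => hr' ?_)
      (by rw [Metric.mem_ball, dist_comm]; exact hx') hM⟩
    have hz' : dist z x < 2 * r := hz
    rw [Metric.mem_ball]
    linarith [dist_triangle z x y]
  have hNo : IsOpen (Ω \ G) := by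
    rw [Metric.isOpen_iff]
    rintro x ⟨hx, hxG⟩
    obtain ⟨r, hr, hr'⟩ := hball x hx
    refine ⟨r, hr, fun y hy => ⟨hr' (Metric.ball_subset_ball (by linarith) hy), ?_⟩⟩
    rintro ⟨-, M, hM⟩
    exact hxG ⟨hx, _, step f hcv hr ((Metric.ball_subset_ball (by linarith)).trans hr') hy hM⟩
  have hαG : α ∈ G := by
    refine ⟨hαΩ, 1, fun n => ⟨α, ?_, ?_⟩⟩
    · rw [Nr.it_eval]
      exact Function.iterate_fixed hα n
    · rw [Nr.it_deriv_fixed f n hα, norm_pow]
      exact pow_le_one₀ (norm_nonneg _) hα1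
  have hΩG : Ω ⊆ G := by
    intro x hx
    by_contra hxG
    obtain ⟨z, -, hz1, hz2⟩ := hΩc G (Ω \ G) hGo hNo (fun z hz => by
      by_cases h : z ∈ G
      · exact Or.inl h
      · exact Or.inr ⟨hz, h⟩) ⟨α, hαΩ, hαG⟩ ⟨x, hx, hx, hxG⟩
    exact hz2.2 hz1
  -- a point outside the filled Julia set
  obtain ⟨z, hz, hzK⟩ : ∃ z ∈ Ω, z ∉ filledJulia f := by
    by_contra hcon
    push Not at hcon
    exact hΩu ((Jul.bounded f hd).subset hcon)
  obtain ⟨-, M, hM⟩ := hΩG hz
  have hM' : Good f (max M 1) z := fun n => by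
    obtain ⟨w, h1, h2⟩ := hM n
    exact ⟨w, h1, h2.trans (le_max_left _ _)⟩
  have hM0 : 0 < max M 1 := lt_max_of_lt_right one_pos
  obtain ⟨r, hr, hr'⟩ := hball z hz
  obtain ⟨N, hN⟩ := Uco.small hd (V := Metric.ball z (3 * r)) (Q := {z}) isCompact_singleton
    (by rintro _ rfl; exact Metric.mem_ball_self (by positivity))
    (Set.disjoint_singleton_left.2 fun h => hzK (interior_subset h))
    (by positivity : 0 < 3 * r) (by rintro _ rfl; exact Subset.rfl)
    (by positivity : 0 < 1 / (2 * max M 1))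
  obtain ⟨w, hw, hw'⟩ := hM' N
  have hzb : z ∈ Metric.ball z (3 * r) := Metric.mem_ball_self (by positivity)
  obtain ⟨g, hgd, hF, hgz, hder⟩ := branch f hcv N hr' hzb hw
  have h1 := hN N le_rfl g hgd (fun y hy => by rw [← Nr.it_eval]; exact hF y hy) z rfl
  have h2 := congrArg norm (hder z hzb)
  rw [norm_mul, norm_one, hgz] at h2
  have h3 : (1 : ℝ) ≤ max M 1 * (1 / (2 * max M 1)) :=
    h2.symm.le.trans (mul_le_mul hw' h1 (norm_nonneg _) hM0.le)
  rw [mul_one_div, div_mul_cancel_right₀ hM0.ne'] at h3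
  norm_num at h3

end Pool.Agent.Imp
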