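import Pool.Agent.Lib.MP_1c105c_an.Defs13
import Pool.Agent.Lib.MP_1c105c_an.Alp

/-! MP_1c105c_an, row ALC: an indifferent fixed point in the Julia set is in the closure of the
critical orbits. -/

set_option autoImplicit false

open Filter Topology Set Polynomial

namespace Pool.Agent.Imp

/-- Row ALC. -/
theorem alc : AlcStatement := by
  intro f α hd hα hα1 hαJ
  by_contra hne
  obtain ⟨r, hr, hb⟩ := Metric.isOpen_iff.1
    (isClosed_closure (s := postcritical f)).isOpen_compl α hne
  have hΩ : ∀ c, f.derivative.eval c = 0 → ∀ n : ℕ,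
      (fun w => f.eval w)^[n + 1] c ∉ (closure (postcritical f))ᶜ := fun c hc n h =>
    h (subset_closure ⟨c, n, hc, rfl⟩)
  have hαb : α ∈ Metric.ball α r := Metric.mem_ball_self hr
  obtain ⟨N, hN⟩ := Uco.small hd (V := Metric.ball α r) (Q := {α}) isCompact_singleton
    (Set.singleton_subset_iff.2 hαb) (Set.disjoint_singleton_left.2 fun h => hαJ.2 h) hr
    (by rintro _ rfl; exact Subset.rfl) (c := 1 / 2) (by norm_num)
  obtain ⟨g, hg, hF, hgα, hder⟩ := Alp64.branch f hΩ N hb hαb
    (show (Nr.It f N).eval α = α by rw [Nr.it_eval]; exact Function.iterate_fixed hα N)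
  have h1 := hN N le_rfl g hg (fun y hy => by rw [← Nr.it_eval]; exact hF y hy) α rfl
  have h2 := congrArg norm (hder α hαb)
  rw [norm_mul, norm_one, hgα, Nr.it_deriv_fixed f N hα, norm_pow] at h2
  have h3 : ‖f.derivative.eval α‖ ^ N * ‖deriv g α‖ ≤ 1 * (1 / 2) :=
    mul_le_mul (pow_le_one₀ (norm_nonneg _) hα1) h1 (norm_nonneg _) zero_le_one
  rw [h2] at h3
  norm_num at h3

end Pool.Agent.Imp
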