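import Pool.Agent.Lib.MP_1c105c_an.Defs3

/-! MP_1c105c_an, row APP: every point of the Julia set is a limit of values `P u`, `Re u → 0`. -/

set_option autoImplicit false

open Filter Topology Set Polynomial

namespace Pool.Agent.Imp

namespace App94

theorem per_nat {P : ℂ → ℂ} (hper : ∀ u, P (u + Complex.I) = P u) (u : ℂ) (n : ℕ) :
    P (u + n * Complex.I) = P u := by
  induction n with
  | zero => rw [Nat.cast_zero, zero_mul, add_zero]
  | succ n ih =>
    have h : u + ((n + 1 : ℕ) : ℂ) * Complex.I = (u + n * Complex.I) + Complex.I := by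
      push_cast
      ring
    rw [h, hper, ih]

theorem per_int {P : ℂ → ℂ} (hper : ∀ u, P (u + Complex.I) = P u) (u : ℂ) (n : ℤ) :
    P (u + n * Complex.I) = P u := by
  obtain ⟨m, rfl | rfl⟩ := n.eq_nat_or_neg
  · exact_mod_cast per_nat hper u m
  · have h := per_nat hper (u + ((-(m : ℤ) : ℤ) : ℂ) * Complex.I) m
    have h2 : u + ((-(m : ℤ) : ℤ) : ℂ) * Complex.I + m * Complex.I = u := by
      push_cast
      ring
    rw [h2] at h
    exact h.symm

/-- The imaginary part can be moved to `[0, 1)`. -/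
theorem norm_im {P : ℂ → ℂ} (hper : ∀ u, P (u + Complex.I) = P u) (u : ℂ) :
    ∃ v : ℂ, v.re = u.re ∧ 0 ≤ v.im ∧ v.im ≤ 1 ∧ P v = P u := by
  refine ⟨u + ((-⌊u.im⌋ : ℤ) : ℂ) * Complex.I, ?_, ?_, ?_, per_int hper u _⟩
  · simp
  · have h := Int.floor_le u.im
    simp only [Int.cast_neg, Complex.add_im, Complex.mul_im, Complex.neg_re, Complex.intCast_re,
      Complex.I_im, mul_one, Complex.neg_im, Complex.intCast_im, Complex.I_re, mul_zero, add_zero]
    linarith
  · have h := Int.lt_floor_add_one u.im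
    simp only [Int.cast_neg, Complex.add_im, Complex.mul_im, Complex.neg_re, Complex.intCast_re,
      Complex.I_im, mul_one, Complex.neg_im, Complex.intCast_im, Complex.I_re, mul_zero, add_zero]
    linarith

end App94

/-- **Row APP.** -/
theorem app (jul : JulStatement) : AppStatement := by
  intro f P hd hP hinf z hz ε s hε hs
  obtain ⟨hK, -, -, -, -⟩ := jul f P hd hP
  have hzK : z ∈ filledJulia f := hK.frontier_subset hz
  obtain ⟨M, hM⟩ := hinf (‖z‖ + 1)
  set C : Set ℂ := Complex.re ⁻¹' Set.Icc s M ∩ Complex.im ⁻¹' Set.Icc 0 1 with hC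
  have hCc : IsCompact C := by
    have h : C = Set.Icc s M ×ℂ Set.Icc 0 1 := rfl
    rw [h]
    exact isCompact_Icc.reProdIm isCompact_Icc
  have hCH : C ⊆ HP := fun u hu => lt_of_lt_of_le hs hu.1.1
  have hPC : IsCompact (P '' C) := hCc.image_of_continuousOn (hP.diff.continuousOn.mono hCH)
  have hzC : z ∉ P '' C := by
    rintro ⟨u, hu, rfl⟩
    have h : P u ∈ (filledJulia f)ᶜ := by
      rw [← hP.range]
      exact ⟨u, hCH hu, rfl⟩
    exact h hzK
  obtain ⟨δ, hδ, hδC⟩ := Metric.isOpen_iff.1 hPC.isClosed.isOpen_compl z hzC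
  have hz' : z ∈ closure (filledJulia f)ᶜ := by
    rw [julia, frontier_eq_closure_inter_closure] at hz
    exact hz.2
  obtain ⟨w, hw, hwz⟩ := Metric.mem_closure_iff.1 hz' (min ε (min δ 1)) (by positivity)
  rw [← hP.range] at hw
  obtain ⟨u₀, hu₀, rfl⟩ := hw
  obtain ⟨u, hre, him0, him1, hPu⟩ := App94.norm_im hP.per u₀
  rw [← hPu, dist_comm, Complex.dist_eq] at hwz
  have hre0 : 0 < u.re := by
    rw [hre]
    exact hu₀
  refine ⟨u, hre0, ?_, lt_of_lt_of_le hwz (min_le_left _ _)⟩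
  by_contra hcon
  have hs' : s ≤ u.re := not_lt.1 hcon
  by_cases hM' : u.re ≤ M
  · have h1 : P u ∈ (P '' C)ᶜ := hδC (by
      rw [Metric.mem_ball, Complex.dist_eq]
      exact lt_of_lt_of_le hwz ((min_le_right _ _).trans (min_le_left _ _)))
    exact h1 ⟨u, ⟨⟨hs', hM'⟩, ⟨him0, him1⟩⟩, rfl⟩
  · have h1 := hM u (not_le.1 hM').le
    have h2 : ‖P u - z‖ < 1 := lt_of_lt_of_le hwz ((min_le_right _ _).trans (min_le_right _ _))
    have h3 : ‖P u‖ ≤ ‖P u - z‖ + ‖z‖ := by
      have := norm_add_le (P u - z) z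
      rwa [sub_add_cancel] at this
    linarith

end Pool.Agent.Imp
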