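import Pool.Agent.Lib.MP_1c105c_an.Dns

/-! MP_1c105c_an: if the critical orbits are not dense in the Julia set, all angles whose orbit
visits a certain arc infinitely often are good. -/

set_option autoImplicit false

open Filter Topology Set Polynomial

namespace Pool.Agent.Imp

/-- ARC: if the orbits of the critical values are not dense in the Julia set and almost all
angles are good, then for some open arc all angles whose orbit visits the arc infinitely often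
are good. -/
theorem arc {f : ℂ[X]} {ψ : ℂ → ℂ} (hd : 2 ≤ f.natDegree) (hψ : IsInverseBoettcher f ψ)
    (hdim : dimH (goodAngles f ψ)ᶜ < 1) (hy : ¬ julia f ⊆ closure (postcritical f)) :
    ∃ a b : ℝ, a < b ∧ ∀ θ : ℝ, (∀ N : ℕ, ∃ (n : ℕ) (m : ℤ), N ≤ n ∧
      a < (f.natDegree : ℝ) ^ n * θ + m ∧ (f.natDegree : ℝ) ^ n * θ + m < b) →
      θ ∈ goodAngles f ψ := by
  obtain ⟨hP, -, -⟩ := half f ψ hd hψ
  set P : ℂ → ℂ := fun u => ψ (Complex.exp (2 * Real.pi * u)) with hPdef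
  obtain ⟨hKc, -, hJ2, -, hJ5⟩ := jul f P hd hP
  obtain ⟨-, hper, -, hend⟩ := loc jul f P hd hP
  have hlimiff : ∀ (θ : ℝ) (z : ℂ),
      Tendsto ψ (𝓝[{w : ℂ | 1 < ‖w‖}] Complex.exp (2 * Real.pi * θ * Complex.I)) (𝓝 z) ↔
        HasLim P θ z := fun θ z => Main2.lim_iff ψ θ z
  have hnull : MeasureTheory.volume (goodAngles f ψ)ᶜ = 0 := Main2.null_of_dimH hdim
  have hlim : ∃ (t : ℝ) (z : ℂ), HasLim P t z := by
    obtain ⟨t, ht⟩ : (goodAngles f ψ).Nonempty := by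
      by_contra hne
      rw [Set.not_nonempty_iff_eq_empty] at hne
      rw [hne, compl_empty, Real.volume_univ] at hnull
      exact ENNReal.top_ne_zero hnull
    obtain ⟨z, hz, -⟩ := ht
    exact ⟨t, z, (hlimiff t z).1 hz⟩
  have htwo : ∃ x₀ ∈ filledJulia f, ∃ x₁ ∈ filledJulia f, x₀ ≠ x₁ := by
    obtain ⟨t, z, hz, -⟩ := exc inv f P hd hP hlim ∅
    obtain ⟨t', z', hz', hne⟩ := exc inv f P hd hP hlim {z}
    refine ⟨z, hKc.frontier_subset (hJ5 t z hz), z', hKc.frontier_subset (hJ5 t' z' hz'),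
      fun he => hne ?_⟩
    rw [he]
    exact Finset.mem_singleton_self _
  obtain ⟨y, hyJ, hyPC⟩ := Set.not_subset.1 hy
  obtain ⟨t₀, ⟨z', hz', hcik'⟩, z, hzO, hz⟩ := den half jul f ψ hd hψ htwo (goodAngles f ψ)
    (fun t ht => by
      obtain ⟨z, hz, -⟩ := ht
      exact ⟨z, hz⟩) hnull _ isClosed_closure.isOpen_compl ⟨y, hyPC, hyJ⟩
  have := Main2.neBot t₀
  have hzz : z' = z := tendsto_nhds_unique hz' hz
  rw [hzz] at hcik'
  obtain ⟨hzJ, hcik⟩ := hcik'
  have ht₀ : HasLim P t₀ z := (hlimiff t₀ z).1 hz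
  obtain ⟨r', hr', hball⟩ := Metric.isOpen_iff.1 isClosed_closure.isOpen_compl z hzO
  obtain ⟨r, hr, hrr⟩ : ∃ r : ℝ, 0 < r ∧ 2 * r = r' := ⟨r' / 2, by positivity, by ring⟩
  rw [← hrr] at hball
  have hpc : ∀ (c : ℂ) (n : ℕ), f.derivative.eval c = 0 →
      (fun w => f.eval w)^[n + 1] c ∉ Metric.ball z (2 * r) := fun c n hc hmem =>
    hball hmem (subset_closure ⟨c, n, hc, rfl⟩)
  obtain ⟨Y, hYJ, hYc, hYn, hYs⟩ := hcik (r / 2) (by positivity)
  obtain ⟨U, hU, hzU, hUY⟩ := mem_nhdsWithin.mp hYn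
  obtain ⟨ρ', hρ', hρb⟩ := Metric.isOpen_iff.1 (hU.inter Metric.isOpen_ball) z
    ⟨hzU, Metric.mem_ball_self hr⟩
  obtain ⟨ρ, hρ, hρρ⟩ : ∃ ρ : ℝ, 0 < ρ ∧ 2 * ρ = ρ' := ⟨ρ' / 2, by positivity, by ring⟩
  rw [← hρρ] at hρb
  obtain ⟨η, hη, hrect⟩ := exists_rect ht₀ hρ
  have hbb : Metric.ball z (2 * ρ) ⊆ Metric.ball z r := fun x hx => (hρb hx).2
  have hB : Box f P z r η t₀ (t₀ + η) :=
    ⟨hr, hη, by linarith, fun u hu => hbb (Metric.ball_subset_ball (by linarith) (hrect u hu)),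
      fun c hc => by simpa using hpc c 0 hc, fun c hc => by simpa using hpc c 1 hc⟩
  have hW : ∀ k, Wset f P z r η t₀ (t₀ + η) k = ∅ := by
    intro k
    rw [Finset.eq_empty_iff_forall_notMem]
    intro j hj
    obtain ⟨-, g, hg, c, hc, x, hx, hgx⟩ := mem_Wset.1 hj
    refine hpc c k hc ?_
    rw [Function.iterate_succ_apply]
    show (fun w => f.eval w)^[k] (f.eval c) ∈ _
    rw [← hgx, hg.2.1 x hx]
    exact hx
  have hzint : Disjoint ({z} : Set ℂ) (interior (filledJulia f)) := by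
    rw [Set.disjoint_singleton_left]
    exact hzJ.2
  have hd0 : (0 : ℝ) < f.natDegree := by exact_mod_cast (by omega : 0 < f.natDegree)
  refine ⟨t₀, t₀ + η, by linarith, fun θ hθ => ?_⟩
  suffices hloc : ∀ δ : ℝ, 0 < δ → Loc f P δ θ by
    obtain ⟨z₁, hz₁, hz₂⟩ := hend θ hloc
    exact ⟨z₁, (hlimiff θ z₁).2 hz₁, hz₂⟩
  intro δ hδ
  obtain ⟨N, hN⟩ := Uco.small hd (V := Metric.ball z (2 * r)) (Q := {z}) isCompact_singleton
    (by
      rw [Set.singleton_subset_iff]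
      exact Metric.mem_ball_self (by positivity)) hzint (ρ := 2 * r) (by positivity)
    (by
      intro p hp
      rw [Set.mem_singleton_iff] at hp
      rw [hp]) (c := δ / 2 / (Real.exp 65536 * (2 * r))) (by positivity)
  obtain ⟨n, M, hnN, h1, h2⟩ := hθ N
  set D : ℤ := (f.natDegree : ℤ) ^ n with hD
  have hDpos : 0 < D := by
    rw [hD]
    have : (0 : ℤ) < f.natDegree := by exact_mod_cast (by omega : 0 < f.natDegree)
    positivity
  have hj0 : 0 ≤ (-M) % D := Int.emod_nonneg _ hDpos.ne'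
  have hjD : (-M) % D < D := Int.emod_lt_of_pos _ hDpos
  obtain ⟨j, hj⟩ : ∃ j : ℕ, (j : ℤ) = (-M) % D := ⟨((-M) % D).toNat, Int.toNat_of_nonneg hj0⟩
  have hjlt : j < f.natDegree ^ n := by
    have : (j : ℤ) < D := by rw [hj]; exact hjD
    rw [hD] at this
    exact_mod_cast this
  obtain ⟨g, hg⟩ := exists_univ hd hP hB n j hjlt (fun k _ => by
    rw [hW k]
    exact Finset.notMem_empty _)
  have hginj : InjOn g (Metric.ball z (2 * r)) := Uco.injOn_of hg.2.1
  have hgd := hN n hnN g hg.1 hg.2.1 z rfl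
  have hosc : ∀ x ∈ Metric.ball z r, ‖g x - g z‖ ≤ δ / 2 := by
    intro x hx
    have h3 := Uco.osc (by positivity : 0 < 2 * r) hg.1 hginj hgd (q := x) (by
      rwa [mul_div_cancel_left₀ r (by norm_num : (2 : ℝ) ≠ 0)])
    refine h3.trans (le_of_eq ?_)
    have : Real.exp 65536 ≠ 0 := (Real.exp_pos _).ne'
    field_simp
  have hL := loc_of_univ hd hη hJ2 hg hρ hbb hr hrect
    (fun x hx => by
      rw [mem_ball_iff_norm]
      exact (hYs x hx).trans_lt (by linarith)) hYc hYJ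
    (fun x hx => hUY ⟨(hρb hx.1).1, hx.2⟩)
    (fun x hx x' hx' => by
      have h3 := hosc x hx
      have h4 := hosc x' hx'
      have h5 : ‖g x - g x'‖ ≤ ‖g x - g z‖ + ‖g x' - g z‖ := by
        have := norm_sub_le (g x - g z) (g x' - g z)
        simpa using this
      linarith : ∀ x ∈ Metric.ball z r, ∀ x' ∈ Metric.ball z r, ‖g x - g x'‖ ≤ δ)
    (t := (f.natDegree : ℝ) ^ n * θ + M) ⟨h1, h2⟩
  have hθ' : θ = ((f.natDegree : ℝ) ^ n * θ + M + j) / (f.natDegree : ℝ) ^ n +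
      (((-M) / D : ℤ) : ℝ) := by
    have h3 : D * ((-M) / D) + (-M) % D = -M := Int.mul_ediv_add_emod _ _
    have h4 : ((D : ℤ) : ℝ) * (((-M) / D : ℤ) : ℝ) + (j : ℝ) = -(M : ℝ) := by
      rw [← hj] at h3
      exact_mod_cast h3
    have h5 : ((D : ℤ) : ℝ) = (f.natDegree : ℝ) ^ n := by
      rw [hD]
      push_cast
      ring
    rw [h5] at h4
    have hne : (f.natDegree : ℝ) ^ n ≠ 0 := by positivity
    field_simp
    linarith
  rw [hθ', loc_int (hper δ)]
  exact hL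

end Pool.Agent.Imp
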