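import Pool.Agent.Lib.MP_1c105c_an.Defs

/-! MP_1c105c_an, row AREA: few large disjoint univalent images (helper9). -/

set_option autoImplicit false

open MeasureTheory Set Metric Filter Topology
open scoped ENNReal

namespace Pool.Agent.Imp.AreaAux

/-- The mean of `‖h‖ ^ 2` on a circle. -/
theorem circle_ge {h : ℂ → ℂ} {s : ℝ} (hs : 0 < s) (hd : DiffContOnCl ℂ h (ball 0 s)) :
    ENNReal.ofReal (2 * Real.pi * ‖h 0‖ ^ 2) ≤
      ∫⁻ θ in Ioo (-Real.pi) Real.pi,
        ENNReal.ofReal (‖h (s * (Real.cos θ + Real.sin θ * Complex.I))‖ ^ 2) := by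
  have hcirc : ∀ θ : ℝ, (s : ℂ) * (Real.cos θ + Real.sin θ * Complex.I) = circleMap 0 s θ := by
    intro θ
    rw [circleMap_zero, Complex.exp_mul_I]
    push_cast
    ring
  have hmem : ∀ θ : ℝ, circleMap 0 s θ ∈ closedBall (0 : ℂ) s := fun θ =>
    circleMap_mem_closedBall 0 hs.le θ
  have hcont : ContinuousOn h (closedBall 0 s) := by
    have := hd.continuousOn
    rwa [closure_ball _ hs.ne'] at this
  have hc1 : Continuous fun θ : ℝ => h (circleMap 0 s θ) :=
    hcont.comp_continuous (continuous_circleMap 0 s) hmem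
  have hd2 : DiffContOnCl ℂ (fun z => h z ^ 2) (ball 0 |s|) := by
    rw [abs_of_pos hs]
    have h2 : (fun z => h z ^ 2) = fun z => h z • h z := by
      funext z
      rw [smul_eq_mul, sq]
    rw [h2]
    exact hd.smul hd
  have hav := hd2.circleAverage
  rw [Real.circleAverage_eq_integral_add (-Real.pi)] at hav
  have hint : (∫ θ in (0 : ℝ)..2 * Real.pi, h (circleMap 0 s (θ + -Real.pi)) ^ 2) =
      ∫ θ in (-Real.pi)..Real.pi, h (circleMap 0 s θ) ^ 2 := by
    rw [intervalIntegral.integral_comp_add_right (fun θ => h (circleMap 0 s θ) ^ 2)]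
    congr 1 <;> ring
  rw [hint] at hav
  have hpi : (0 : ℝ) < 2 * Real.pi := by positivity
  have hle : 2 * Real.pi * ‖h 0‖ ^ 2 ≤ ∫ θ in (-Real.pi)..Real.pi, ‖h (circleMap 0 s θ)‖ ^ 2 := by
    have h1 : ‖h 0‖ ^ 2 = (2 * Real.pi)⁻¹ * ‖∫ θ in (-Real.pi)..Real.pi, h (circleMap 0 s θ) ^ 2‖ := by
      rw [← norm_pow, ← hav, norm_smul, Real.norm_of_nonneg (by positivity)]
    have h2 : ‖∫ θ in (-Real.pi)..Real.pi, h (circleMap 0 s θ) ^ 2‖ ≤
        ∫ θ in (-Real.pi)..Real.pi, ‖h (circleMap 0 s θ) ^ 2‖ :=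
      intervalIntegral.norm_integral_le_integral_norm (by linarith [Real.pi_pos])
    simp only [norm_pow] at h2
    rw [h1, ← mul_assoc, mul_inv_cancel₀ hpi.ne', one_mul]
    exact h2
  have heq : (∫ θ in (-Real.pi)..Real.pi, ‖h (circleMap 0 s θ)‖ ^ 2) =
      ∫ θ in Ioo (-Real.pi) Real.pi, ‖h (circleMap 0 s θ)‖ ^ 2 := by
    rw [intervalIntegral.integral_of_le (by linarith [Real.pi_pos]),
      integral_Ioc_eq_integral_Ioo]
  rw [heq] at hle
  refine (ENNReal.ofReal_le_ofReal hle).trans ?_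
  rw [ofReal_integral_eq_lintegral_ofReal]
  · simp only [hcirc]
    exact le_rfl
  · exact ((hc1.norm.pow 2).integrableOn_Icc (a := -Real.pi) (b := Real.pi)).mono_set
      Ioo_subset_Icc_self
  · exact Eventually.of_forall fun θ => by positivity

/-- The sub-mean value property of `‖h‖ ^ 2` on a ball around `0`. -/
theorem ball_ge {h : ℂ → ℂ} {ρ : ℝ} (hρ : 0 < ρ) (hd : DifferentiableOn ℂ h (ball 0 ρ)) :
    ENNReal.ofReal (Real.pi * ρ ^ 2 * ‖h 0‖ ^ 2) ≤
      ∫⁻ z in ball (0 : ℂ) ρ, ENNReal.ofReal (‖h z‖ ^ 2) := by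
  rw [← lintegral_indicator measurableSet_ball, ← Complex.lintegral_comp_polarCoord_symm]
  have hT : polarCoord.target = Ioi (0 : ℝ) ×ˢ Ioo (-Real.pi) Real.pi := rfl
  rw [hT]
  have hsub : Ioo (0 : ℝ) ρ ×ˢ Ioo (-Real.pi) Real.pi ⊆
      Ioi (0 : ℝ) ×ˢ Ioo (-Real.pi) Real.pi := by
    rintro ⟨a, b⟩ ⟨ha, hb⟩
    exact ⟨ha.1, hb⟩
  refine le_trans ?_ (lintegral_mono_set hsub)
  have hcong : ∫⁻ p in Ioo (0 : ℝ) ρ ×ˢ Ioo (-Real.pi) Real.pi, ENNReal.ofReal p.1 •
      (ball (0 : ℂ) ρ).indicator (fun z => ENNReal.ofReal (‖h z‖ ^ 2))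
        (Complex.polarCoord.symm p) =
      ∫⁻ p in Ioo (0 : ℝ) ρ ×ˢ Ioo (-Real.pi) Real.pi, ENNReal.ofReal p.1 *
        ENNReal.ofReal (‖h (p.1 * (Real.cos p.2 + Real.sin p.2 * Complex.I))‖ ^ 2) := by
    refine setLIntegral_congr_fun (measurableSet_Ioo.prod measurableSet_Ioo) fun p hp => ?_
    have hp0 : 0 < p.1 := hp.1.1
    have hin : Complex.polarCoord.symm p ∈ ball (0 : ℂ) ρ := by
      rw [mem_ball_zero_iff, Complex.norm_polarCoord_symm, abs_of_pos hp0]
      exact hp.1.2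
    rw [indicator_of_mem hin, Complex.polarCoord_symm_apply, smul_eq_mul]
  rw [hcong]
  have hmc : ContinuousOn (fun p : ℝ × ℝ => ENNReal.ofReal p.1 *
        ENNReal.ofReal (‖h (p.1 * (Real.cos p.2 + Real.sin p.2 * Complex.I))‖ ^ 2))
      (Ioo (0 : ℝ) ρ ×ˢ Ioo (-Real.pi) Real.pi) := by
    have h1 : ContinuousOn (fun p : ℝ × ℝ => h (p.1 * (Real.cos p.2 + Real.sin p.2 * Complex.I)))
        (Ioo (0 : ℝ) ρ ×ˢ Ioo (-Real.pi) Real.pi) := by
      refine hd.continuousOn.comp (by fun_prop) fun p hp => ?_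
      rw [mem_ball_zero_iff]
      have := Complex.norm_polarCoord_symm p
      rw [Complex.polarCoord_symm_apply, abs_of_pos hp.1.1] at this
      rw [this]
      exact hp.1.2
    have h2 : (fun p : ℝ × ℝ => ENNReal.ofReal p.1 *
        ENNReal.ofReal (‖h (p.1 * (Real.cos p.2 + Real.sin p.2 * Complex.I))‖ ^ 2)) =
        fun p : ℝ × ℝ => ENNReal.ofReal
          (‖h (p.1 * (Real.cos p.2 + Real.sin p.2 * Complex.I))‖ ^ 2 * p.1) := by
      funext p
      rw [mul_comm, ← ENNReal.ofReal_mul (by positivity)]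
    rw [h2]
    exact ENNReal.continuous_ofReal.comp_continuousOn ((h1.norm.pow 2).mul continuousOn_fst)
  rw [Measure.volume_eq_prod, ← Measure.prod_restrict, lintegral_prod _
    (by
      rw [Measure.prod_restrict]
      exact hmc.aemeasurable (measurableSet_Ioo.prod measurableSet_Ioo))]
  have hstep : ∫⁻ s in Ioo (0 : ℝ) ρ, ENNReal.ofReal s * ENNReal.ofReal (2 * Real.pi * ‖h 0‖ ^ 2) ≤
      ∫⁻ s in Ioo (0 : ℝ) ρ, ∫⁻ θ in Ioo (-Real.pi) Real.pi, ENNReal.ofReal s *
        ENNReal.ofReal (‖h (s * (Real.cos θ + Real.sin θ * Complex.I))‖ ^ 2) := by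
    refine setLIntegral_mono' measurableSet_Ioo fun s hs => ?_
    rw [lintegral_const_mul' _ _ ENNReal.ofReal_ne_top]
    gcongr
    refine circle_ge hs.1 ?_
    refine DifferentiableOn.diffContOnCl ?_
    rw [closure_ball _ hs.1.ne']
    exact hd.mono (closedBall_subset_ball hs.2)
  refine le_trans (le_of_eq ?_) hstep
  rw [lintegral_mul_const' _ _ ENNReal.ofReal_ne_top]
  have hs : ∫⁻ s in Ioo (0 : ℝ) ρ, ENNReal.ofReal s = ENNReal.ofReal (ρ ^ 2 / 2) := by
    rw [← ofReal_integral_eq_lintegral_ofReal]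
    · congr 1
      rw [← integral_Ioc_eq_integral_Ioo, ← intervalIntegral.integral_of_le hρ.le, integral_id]
      ring
    · exact (continuous_id.integrableOn_Icc (a := (0 : ℝ)) (b := ρ)).mono_set Ioo_subset_Icc_self
    · exact (ae_restrict_iff' measurableSet_Ioo).mpr (Eventually.of_forall fun s hs => hs.1.le)
  rw [hs, ← ENNReal.ofReal_mul (by positivity)]
  congr 1
  ring

/-- The sub-mean value property of `‖h‖ ^ 2`. -/
theorem ball_ge' {h : ℂ → ℂ} {ρ : ℝ} {c : ℂ} (hρ : 0 < ρ) (hd : DifferentiableOn ℂ h (ball c ρ)) :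
    ENNReal.ofReal (Real.pi * ρ ^ 2 * ‖h c‖ ^ 2) ≤
      ∫⁻ z in ball c ρ, ENNReal.ofReal (‖h z‖ ^ 2) := by
  have hd0 : DifferentiableOn ℂ (fun z => h (c + z)) (ball 0 ρ) := by
    refine hd.comp (by fun_prop) fun z hz => ?_
    rw [mem_ball, dist_eq_norm, add_sub_cancel_left]
    rwa [mem_ball_zero_iff] at hz
  have h1 := ball_ge hρ hd0
  simp only [add_zero] at h1
  refine h1.trans (le_of_eq ?_)
  have hmp : MeasurePreserving (fun z : ℂ => c + z) volume volume := measurePreserving_add_left volume c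
  have hpre : (fun z : ℂ => c + z) ⁻¹' ball c ρ = ball 0 ρ := by
    ext z
    rw [mem_preimage, mem_ball, dist_eq_norm, add_sub_cancel_left, mem_ball_zero_iff]
  rw [← hpre]
  exact hmp.setLIntegral_comp_preimage_emb (measurableEmbedding_addLeft c)
    (fun z => ENNReal.ofReal (‖h z‖ ^ 2)) (ball c ρ)

/-- The determinant of multiplication by a complex number. -/
theorem det_mul (p : ℂ) : (((ContinuousLinearMap.toSpanSingleton ℂ p).restrictScalars ℝ :
    ℂ →L[ℝ] ℂ)).det = ‖p‖ ^ 2 := by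
  have h : (((ContinuousLinearMap.toSpanSingleton ℂ p).restrictScalars ℝ : ℂ →L[ℝ] ℂ)).det =
      LinearMap.det ((((ContinuousLinearMap.toSpanSingleton ℂ p).restrictScalars ℝ :
        ℂ →L[ℝ] ℂ)) : ℂ →ₗ[ℝ] ℂ) := rfl
  rw [h, ← LinearMap.det_toMatrix Complex.basisOneI, Matrix.det_fin_two]
  simp only [LinearMap.toMatrix_apply, Complex.coe_basisOneI, Complex.coe_basisOneI_repr,
    ContinuousLinearMap.coe_coe, ContinuousLinearMap.coe_restrictScalars',
    ContinuousLinearMap.toSpanSingleton_apply]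
  rw [← Complex.normSq_eq_norm_sq, Complex.normSq_apply]
  simp

/-- The area formula for a univalent function. -/
theorem area_eq {g : ℂ → ℂ} {U : Set ℂ} (hU : IsOpen U) (hd : DifferentiableOn ℂ g U)
    (hi : InjOn g U) : ∫⁻ z in U, ENNReal.ofReal (‖deriv g z‖ ^ 2) = volume (g '' U) := by
  have h1 := lintegral_abs_det_fderiv_eq_addHaar_image volume hU.measurableSet
    (f := g) (f' := fun z => (ContinuousLinearMap.toSpanSingleton ℂ (deriv g z)).restrictScalars ℝ)
    (fun z hz => ((hd.differentiableAt (hU.mem_nhds hz)).hasDerivAt.hasFDerivAt.restrictScalars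
      ℝ).hasFDerivWithinAt) hi
  rw [← h1]
  refine setLIntegral_congr_fun hU.measurableSet fun _ _ => ?_
  rw [det_mul, abs_of_nonneg (by positivity)]

theorem meas_image {g : ℂ → ℂ} {U : Set ℂ} (hU : IsOpen U) (hd : DifferentiableOn ℂ g U)
    (hi : InjOn g U) : MeasurableSet (g '' U) :=
  measurable_image_of_fderivWithin hU.measurableSet
    (fun z hz => ((hd.differentiableAt (hU.mem_nhds hz)).hasDerivAt.hasFDerivAt.restrictScalars
      ℝ).hasFDerivWithinAt) hi

/-- A large univalent image has large area. -/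
theorem area_large {g : ℂ → ℂ} {b : ℂ} {r δ : ℝ} (hr : 0 < r) (hδ : 0 < δ)
    (hd : DifferentiableOn ℂ g (ball b (2 * r))) (hi : InjOn g (ball b (2 * r)))
    {z z' : ℂ} (hz : z ∈ ball b r) (hz' : z' ∈ ball b r) (hzz : δ ≤ ‖g z - g z'‖) :
    ENNReal.ofReal (Real.pi * δ ^ 2 / 4) ≤ volume (g '' ball b (2 * r)) := by
  rw [← area_eq isOpen_ball hd hi]
  by_contra hc
  push Not at hc
  -- a bound of the derivative
  have hdd : DifferentiableOn ℂ (deriv g) (ball b (2 * r)) := hd.deriv isOpen_ball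
  have hb : ∀ w ∈ ball b r, ‖deriv g w‖ < δ / (2 * r) := by
    intro w hw
    have hsub : ball w r ⊆ ball b (2 * r) := by
      intro x hx
      rw [mem_ball] at hx hw ⊢
      linarith [dist_triangle x w b]
    have h1 := (ball_ge' hr (hdd.mono hsub)).trans (lintegral_mono_set hsub)
    have h2 := h1.trans_lt hc
    rw [ENNReal.ofReal_lt_ofReal_iff (by positivity)] at h2
    have h3 : (‖deriv g w‖ * r) ^ 2 < (δ / 2) ^ 2 := by
      have hpi := Real.pi_pos
      have h4 : Real.pi * ((‖deriv g w‖ * r) ^ 2) < Real.pi * ((δ / 2) ^ 2) := by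
        calc Real.pi * ((‖deriv g w‖ * r) ^ 2) = Real.pi * r ^ 2 * ‖deriv g w‖ ^ 2 := by ring
          _ < Real.pi * δ ^ 2 / 4 := h2
          _ = Real.pi * ((δ / 2) ^ 2) := by ring
      exact lt_of_mul_lt_mul_left h4 hpi.le
    have h5 := lt_of_pow_lt_pow_left₀ 2 (by positivity) h3
    rw [lt_div_iff₀ (by positivity)]
    linarith
  have hlip : ‖g z - g z'‖ < δ := by
    by_cases hne : z = z'
    · rw [hne, sub_self, norm_zero]
      exact hδ
    · have h1 : ‖g z - g z'‖ ≤ δ / (2 * r) * ‖z - z'‖ :=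
        (convex_ball b r).norm_image_sub_le_of_norm_deriv_le
          (fun w hw => hd.differentiableAt (isOpen_ball.mem_nhds
            (ball_subset_ball (by linarith) hw))) (fun w hw => (hb w hw).le) hz' hz
      have h2 : ‖z - z'‖ < 2 * r := by
        rw [← dist_eq_norm]
        rw [mem_ball] at hz hz'
        linarith [dist_triangle_right z z' b]
      calc ‖g z - g z'‖ ≤ δ / (2 * r) * ‖z - z'‖ := h1
        _ < δ / (2 * r) * (2 * r) := by gcongr
        _ = δ := by field_simp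
  linarith

end AreaAux

open AreaAux in
theorem area : AreaStatement := by
  intro ι s g b r R δ hr hδ hd hi hdis hR hlarge
  rcases s.eq_empty_or_nonempty with rfl | ⟨i0, hi0⟩
  · simp only [Finset.card_empty, Nat.cast_zero]
    positivity
  have hR0 : 0 ≤ R := (norm_nonneg _).trans (hR i0 hi0 b (mem_ball_self (by linarith)))
  set B := ball b (2 * r) with hB
  have h1 : ∀ i ∈ s, ENNReal.ofReal (Real.pi * δ ^ 2 / 4) ≤ volume (g i '' B) := by
    intro i his
    obtain ⟨z, hz, z', hz', hzz⟩ := hlarge i his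
    exact area_large hr hδ (hd i his) (hi i his) hz hz' hzz
  have h2 : volume (⋃ i ∈ s, g i '' B) = ∑ i ∈ s, volume (g i '' B) :=
    measure_biUnion_finset (fun i his j hjs hij => hdis i his j hjs hij)
      (fun i his => meas_image isOpen_ball (hd i his) (hi i his))
  have h3 : volume (⋃ i ∈ s, g i '' B) ≤ volume (closedBall (0 : ℂ) R) := by
    refine measure_mono (iUnion₂_subset fun i his => ?_)
    rintro _ ⟨z, hz, rfl⟩
    rw [mem_closedBall_zero_iff]
    exact hR i his z hz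
  rw [Complex.volume_closedBall] at h3
  have h4 : (s.card : ℝ≥0∞) * ENNReal.ofReal (Real.pi * δ ^ 2 / 4) ≤
      ENNReal.ofReal R ^ 2 * NNReal.pi := by
    calc (s.card : ℝ≥0∞) * ENNReal.ofReal (Real.pi * δ ^ 2 / 4)
        = ∑ i ∈ s, ENNReal.ofReal (Real.pi * δ ^ 2 / 4) := by
          rw [Finset.sum_const, nsmul_eq_mul]
      _ ≤ ∑ i ∈ s, volume (g i '' B) := Finset.sum_le_sum h1
      _ = volume (⋃ i ∈ s, g i '' B) := h2.symm
      _ ≤ _ := h3
  have h5 : (s.card : ℝ) * (Real.pi * δ ^ 2 / 4) ≤ R ^ 2 * Real.pi := by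
    have h6 : ENNReal.ofReal ((s.card : ℝ) * (Real.pi * δ ^ 2 / 4)) ≤
        ENNReal.ofReal (R ^ 2 * Real.pi) := by
      rw [ENNReal.ofReal_mul (by positivity), ENNReal.ofReal_natCast, ENNReal.ofReal_mul
        (by positivity), ENNReal.ofReal_pow hR0]
      refine h4.trans (le_of_eq ?_)
      congr 1
      rw [ENNReal.ofReal, ← NNReal.coe_real_pi, Real.toNNReal_coe]
    exact (ENNReal.ofReal_le_ofReal_iff (by positivity)).mp h6
  rw [le_div_iff₀ (by positivity)]
  have hpi := Real.pi_pos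
  have h7 : Real.pi * ((s.card : ℝ) * δ ^ 2) ≤ Real.pi * (4 * R ^ 2) := by linarith
  exact le_of_mul_le_mul_left h7 hpi

end Pool.Agent.Imp
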