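import Pool.Agent.Lib.MP_1c105c_an.Defs10
import Pool.Agent.Lib.MP_1c105c_an.Jul

/-! MP_1c105c_an, row ATA, first half: a critical point in the piece of an attracting fixed
point. -/

set_option autoImplicit false

open Filter Topology Set Polynomial

namespace Pool.Agent.Imp

namespace AtaCrit

/-- The iterates keep the piece. -/
lemma iter_mem {G : ℂ[X]} {Δ : Set ℂ} (hΔ : Pc G Δ) (n : ℕ) {z : ℂ} (hz : z ∈ Δ) :
    (fun w => G.eval w)^[n] z ∈ Δ := by
  induction n with
  | zero => exact hz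
  | succ n ih =>
    rw [Function.iterate_succ_apply']
    exact hΔ.inv _ ih

/-- No critical points of iterates. -/
lemma it_deriv_ne {G : ℂ[X]} {Δ : Set ℂ} (hΔ : Pc G Δ)
    (hne : ∀ z ∈ Δ, G.derivative.eval z ≠ 0) (n : ℕ) {z : ℂ} (hz : z ∈ Δ) :
    (Nr.It G n).derivative.eval z ≠ 0 := by
  have key : ∀ n : ℕ, ∃ a : ℂ, a ≠ 0 ∧ HasDerivAt (fun w => G.eval w)^[n] a z := by
    intro n
    induction n with
    | zero =>
      exact ⟨1, one_ne_zero, by simpa using hasDerivAt_id z⟩
    | succ n ih =>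
      obtain ⟨a, ha, hda⟩ := ih
      refine ⟨G.derivative.eval ((fun w => G.eval w)^[n] z) * a,
        mul_ne_zero (hne _ (iter_mem hΔ n hz)) ha, ?_⟩
      rw [Function.iterate_succ']
      exact HasDerivAt.comp z (G.hasDerivAt _) hda
  obtain ⟨a, ha, hda⟩ := key n
  rw [Nr.it_deriv, hda.deriv]
  exact ha

/-- Pieces are bounded. -/
lemma bounded {G : ℂ[X]} (hd : 2 ≤ G.natDegree) : ∃ R : ℝ, ∀ z ∈ filledJulia G, ‖z‖ ≤ R :=
  (Jul.bounded G hd).exists_norm_le

end AtaCrit

theorem ata_crit (lft2 : Lft2Statement) : ∀ (f : ℂ[X]) (α : ℂ) (Δ : Set ℂ), 2 ≤ f.natDegree →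
    Pc f Δ → α ∈ Δ → f.eval α = α → ‖f.derivative.eval α‖ < 1 →
    ∃ c ∈ Δ, f.derivative.eval c = 0 := by
  intro f α Δ hd hΔ hα hfα hlt
  by_contra hcon
  push Not at hcon
  obtain ⟨r, hr, hball⟩ := Metric.isOpen_iff.1 hΔ.op α hα
  obtain ⟨R, hR⟩ := AtaCrit.bounded hd
  have hne : f.derivative.eval α ≠ 0 := hcon α hα
  have hpos : 0 < ‖f.derivative.eval α‖ := norm_pos_iff.2 hne
  -- inverse branches of the iterates
  have hkey : ∀ n : ℕ, ‖f.derivative.eval α‖⁻¹ ^ n ≤ R / (r / 2) := by
    intro n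
    have hdeg : 1 ≤ (Nr.It f n).natDegree := by
      rw [Nr.it_deg]
      exact Nat.one_le_pow _ _ (by omega)
    have hrel : IsOpen {z | z ∉ Δ ∧ (Nr.It f n).eval z ∈ Δ} := by
      have := hΔ.rel n
      simpa only [Nr.it_eval] using this
    have hfix : (Nr.It f n).eval α = α := by
      rw [Nr.it_eval]
      exact Function.iterate_fixed hfα n
    obtain ⟨h, hh, hval, h0⟩ := lft2 (Nr.It f n) Δ hdeg hΔ.op hrel
      (fun z hz _ => AtaCrit.it_deriv_ne hΔ hcon n hz) α r hball α (Metric.mem_ball_self hr) α hα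
      hfix
    have hα' : Metric.ball α r ∈ 𝓝 α := Metric.ball_mem_nhds α hr
    have hdh : HasDerivAt h (deriv h α) α := ((hh α (Metric.mem_ball_self hr)).differentiableAt
      hα').hasDerivAt
    have hcomp : HasDerivAt (fun z => (Nr.It f n).eval (h z))
        ((Nr.It f n).derivative.eval (h α) * deriv h α) α :=
      HasDerivAt.comp α ((Nr.It f n).hasDerivAt (h α)) hdh
    have hid : HasDerivAt (fun z => (Nr.It f n).eval (h z)) 1 α :=
      (hasDerivAt_id α).congr_of_eventuallyEq (Filter.eventually_of_mem hα' fun z hz =>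
        (hval z hz).2)
    have hmul : f.derivative.eval α ^ n * deriv h α = 1 := by
      rw [← Nr.it_deriv_fixed f n hfα]
      have := hcomp.unique hid
      rwa [h0] at this
    have hbd : ‖deriv h α‖ ≤ R / (r / 2) := by
      refine Complex.norm_deriv_le_of_forall_mem_sphere_norm_le (by positivity) ?_ ?_
      · refine DifferentiableOn.diffContOnCl ?_
        refine hh.mono ?_
        rw [closure_ball _ (by positivity)]
        exact Metric.closedBall_subset_ball (by linarith)
      · intro z hz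
        refine hR _ (hΔ.sub (hval z ?_).1)
        rw [mem_sphere_iff_norm] at hz
        rw [Metric.mem_ball, dist_eq_norm, hz]
        linarith
    have hnorm : ‖deriv h α‖ = ‖f.derivative.eval α‖⁻¹ ^ n := by
      have := congrArg norm hmul
      rw [norm_mul, norm_pow, norm_one] at this
      rw [inv_pow]
      exact eq_inv_of_mul_eq_one_right this
    rw [← hnorm]
    exact hbd
  have htop : Tendsto (fun n : ℕ => ‖f.derivative.eval α‖⁻¹ ^ n) atTop atTop :=
    tendsto_pow_atTop_atTop_of_one_lt ((one_lt_inv₀ hpos).2 hlt)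
  obtain ⟨n, hn⟩ := (htop.eventually_gt_atTop (R / (r / 2))).exists
  exact absurd (hkey n) (not_le.2 hn)

end Pool.Agent.Imp
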