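import Pool.Agent.Lib.MP_1c105c_an.Defs6

/-! MP_1c105c_an, row KOE: the linearization at a repelling fixed point (helper27). -/

set_option autoImplicit false

open Filter Topology Set Polynomial

namespace Pool.Agent.Imp

namespace Koe

/-- the map in the coordinate centred at the fixed point -/
noncomputable def G (f : ℂ[X]) (z₀ z : ℂ) : ℂ := f.eval (z₀ + z) - z₀

theorem G_diff (f : ℂ[X]) (z₀ : ℂ) : Differentiable ℂ (G f z₀) := by
  intro z
  unfold G
  exact ((f.differentiable.comp (differentiable_id.const_add z₀)).sub_const z₀) z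

theorem G_zero {f : ℂ[X]} {z₀ : ℂ} (hfix : f.eval z₀ = z₀) : G f z₀ 0 = 0 := by
  unfold G
  rw [add_zero, hfix, sub_self]

theorem G_deriv (f : ℂ[X]) (z₀ : ℂ) : HasDerivAt (G f z₀) (f.derivative.eval z₀) 0 := by
  have h1 : HasDerivAt (fun z : ℂ => z₀ + z) 1 0 := (hasDerivAt_id (0 : ℂ)).const_add z₀
  have h2 : HasDerivAt (fun z => f.eval z) (f.derivative.eval z₀) (z₀ + 0) := by
    have := f.hasDerivAt (z₀ + 0)
    rwa [add_zero] at this ⊢
  have h3 := (h2.comp (0 : ℂ) h1).sub_const z₀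
  rw [mul_one] at h3
  exact h3

/-- the second order estimate -/
theorem quad (f : ℂ[X]) (z₀ : ℂ) (hfix : f.eval z₀ = z₀) : ∃ C : ℝ, 0 < C ∧ ∀ z : ℂ, ‖z‖ ≤ 1 →
    ‖G f z₀ z - f.derivative.eval z₀ * z‖ ≤ C * ‖z‖ ^ 2 := by
  set p : ℂ[X] := taylor z₀ f - C z₀ - C (f.derivative.eval z₀) * X with hp
  have h0 : p.coeff 0 = 0 := by
    rw [hp]
    simp [taylor_coeff_zero, hfix]
  have h1 : p.coeff 1 = 0 := by
    rw [hp]
    simp [taylor_coeff_one, coeff_C]
  have hdvd : X ^ 2 ∣ p := by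
    rw [X_pow_dvd_iff]
    intro d hd
    interval_cases d
    · exact h0
    · exact h1
  obtain ⟨q, hq⟩ := hdvd
  obtain ⟨C, hC⟩ := (isCompact_closedBall (0 : ℂ) 1).exists_bound_of_continuousOn
    (q.continuous.continuousOn)
  refine ⟨max C 1, lt_max_of_lt_right one_pos, fun z hz => ?_⟩
  have h2 : G f z₀ z - f.derivative.eval z₀ * z = z ^ 2 * q.eval z := by
    have h3 : p.eval z = z ^ 2 * q.eval z := by rw [hq]; simp
    rw [← h3, hp]
    simp only [eval_sub, eval_mul, eval_C, eval_X, taylor_eval, G]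
    rw [add_comm z z₀]
  rw [h2, norm_mul, norm_pow, mul_comm]
  refine mul_le_mul_of_nonneg_right ?_ (by positivity)
  exact (hC z (by rwa [mem_closedBall_zero_iff])).trans (le_max_left _ _)

/-- the transform of the bound -/
theorem beta_step {L C M a a' : ℝ} (hL : 1 < L) (hM : M = C / (L - 1)) (hC : 0 < C)
    (ha : 0 ≤ a) (ha' : 0 ≤ a') (h : a' ≤ L * a + C * a ^ 2) :
    a' / (1 + M * a') ≤ L * (a / (1 + M * a)) := by
  have hM0 : 0 < M := by rw [hM]; exact div_pos hC (by linarith)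
  have h1 : 0 < 1 + M * a := by positivity
  have h1' : 0 < 1 + M * a' := by positivity
  rw [← mul_div_assoc, div_le_div_iff₀ h1' h1]
  have hMC : M * (L - 1) = C := by
    rw [hM]
    field_simp
    have : L - 1 ≠ 0 := by linarith
    field_simp
  rcases le_total a' a with h2 | h2
  · have h3 : a' ≤ L * a := h2.trans (by nlinarith)
    have h4 : 0 ≤ M * a * a' := by positivity
    nlinarith
  · have h3 : C * a ^ 2 ≤ C * (a * a') := by
      refine mul_le_mul_of_nonneg_left ?_ hC.le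
      nlinarith
    have h4 : C * (a * a') = M * (L - 1) * (a * a') := by rw [hMC]
    nlinarith

theorem beta_inv {M a b : ℝ} (hM : 0 < M) (ha : 0 ≤ a) (hb : M * b ≤ 1 / 2)
    (h : a / (1 + M * a) ≤ b) : a ≤ 2 * b := by
  have h1 : 0 < 1 + M * a := by positivity
  rw [div_le_iff₀ h1] at h
  nlinarith

variable {f : ℂ[X]} {z₀ : ℂ} {C M r : ℝ}

/-- the iterates stay bounded -/
theorem bdd (hrep : 1 < ‖f.derivative.eval z₀‖) (hC : 0 < C)
    (hq : ∀ z : ℂ, ‖z‖ ≤ 1 → ‖G f z₀ z - f.derivative.eval z₀ * z‖ ≤ C * ‖z‖ ^ 2)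
    (hM : M = C / (‖f.derivative.eval z₀‖ - 1)) (hr1 : M * r ≤ 1 / 2) (hr2 : 2 * r ≤ 1)
    (n : ℕ) : ∀ z : ℂ, ‖f.derivative.eval z₀‖ ^ n * ‖z‖ ≤ r →
      ‖(G f z₀)^[n] z‖ / (1 + M * ‖(G f z₀)^[n] z‖) ≤ ‖f.derivative.eval z₀‖ ^ n * ‖z‖ ∧
      ‖(G f z₀)^[n] z‖ ≤ 2 * r := by
  have hM0 : 0 < M := by rw [hM]; exact div_pos hC (by linarith)
  set L := ‖f.derivative.eval z₀‖ with hL
  have hfin : ∀ (n : ℕ) (z : ℂ), L ^ n * ‖z‖ ≤ r →
      ‖(G f z₀)^[n] z‖ / (1 + M * ‖(G f z₀)^[n] z‖) ≤ L ^ n * ‖z‖ →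
      ‖(G f z₀)^[n] z‖ ≤ 2 * r := by
    intro n z hz h
    have h1 := beta_inv hM0 (norm_nonneg _)
      ((mul_le_mul_of_nonneg_left hz hM0.le).trans hr1) h
    linarith
  induction n with
  | zero =>
    intro z hz
    have h1 : ‖(G f z₀)^[0] z‖ / (1 + M * ‖(G f z₀)^[0] z‖) ≤ L ^ 0 * ‖z‖ := by
      simp only [Function.iterate_zero, id, pow_zero, one_mul]
      refine div_le_self (norm_nonneg _) ?_
      have : 0 ≤ M * ‖z‖ := by positivity
      linarith
    exact ⟨h1, hfin 0 z hz h1⟩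
  | succ n ih =>
    intro z hz
    have hz' : L ^ n * ‖z‖ ≤ r := by
      refine le_trans ?_ hz
      rw [pow_succ]
      have : 0 ≤ L ^ n * ‖z‖ := by positivity
      nlinarith
    obtain ⟨h1, h2⟩ := ih z hz'
    have h3 : ‖(G f z₀)^[n + 1] z‖ ≤ L * ‖(G f z₀)^[n] z‖ + C * ‖(G f z₀)^[n] z‖ ^ 2 := by
      rw [Function.iterate_succ_apply']
      have h4 := hq ((G f z₀)^[n] z) (h2.trans hr2)
      have h5 := norm_add_le (G f z₀ ((G f z₀)^[n] z) - f.derivative.eval z₀ * (G f z₀)^[n] z)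
        (f.derivative.eval z₀ * (G f z₀)^[n] z)
      rw [sub_add_cancel, norm_mul] at h5
      rw [← hL] at h5
      linarith
    have h4 := beta_step hrep hM hC (norm_nonneg _) (norm_nonneg _) h3
    have h5 : ‖(G f z₀)^[n + 1] z‖ / (1 + M * ‖(G f z₀)^[n + 1] z‖) ≤ L ^ (n + 1) * ‖z‖ := by
      refine h4.trans ?_
      rw [pow_succ, mul_comm (L ^ n) L, mul_assoc]
      exact mul_le_mul_of_nonneg_left h1 (by linarith)
    exact ⟨h5, hfin (n + 1) z hz h5⟩

/-- the approximations of the linearization -/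
noncomputable def chi (f : ℂ[X]) (z₀ : ℂ) (n : ℕ) (w : ℂ) : ℂ :=
  (G f z₀)^[n] (w / f.derivative.eval z₀ ^ n)

theorem chi_diff (f : ℂ[X]) (z₀ : ℂ) (n : ℕ) : Differentiable ℂ (chi f z₀ n) := by
  unfold chi
  exact ((G_diff f z₀).iterate n).comp (differentiable_id.div_const _)

theorem chi_zero (hfix : f.eval z₀ = z₀) (n : ℕ) : chi f z₀ n 0 = 0 := by
  unfold chi
  rw [zero_div]
  exact Function.iterate_fixed (G_zero hfix) n

theorem chi_deriv (hfix : f.eval z₀ = z₀) (hrep : 1 < ‖f.derivative.eval z₀‖) (n : ℕ) :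
    HasDerivAt (chi f z₀ n) 1 0 := by
  have hL0 : f.derivative.eval z₀ ≠ 0 := by
    intro h
    rw [h, norm_zero] at hrep
    linarith
  have h1 : HasDerivAt (G f z₀)^[n] (f.derivative.eval z₀ ^ n) 0 :=
    HasDerivAt.iterate 0 (G_deriv f z₀) (G_zero hfix) n
  have h2 : HasDerivAt (fun w : ℂ => w / f.derivative.eval z₀ ^ n)
      (1 / f.derivative.eval z₀ ^ n) 0 := (hasDerivAt_id (0 : ℂ)).div_const _
  have h3 : HasDerivAt (G f z₀)^[n] (f.derivative.eval z₀ ^ n)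
      ((0 : ℂ) / f.derivative.eval z₀ ^ n) := by rwa [zero_div]
  have h4 := h3.comp (0 : ℂ) h2
  rwa [mul_one_div_cancel (pow_ne_zero n hL0)] at h4

theorem chi_succ (hrep : 1 < ‖f.derivative.eval z₀‖) (n : ℕ) (w : ℂ) :
    G f z₀ (chi f z₀ n w) = chi f z₀ (n + 1) (f.derivative.eval z₀ * w) := by
  have hL0 : f.derivative.eval z₀ ≠ 0 := by
    intro h
    rw [h, norm_zero] at hrep
    linarith
  unfold chi
  rw [Function.iterate_succ_apply', pow_succ', mul_div_mul_left _ _ hL0]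

theorem chi_bdd (hrep : 1 < ‖f.derivative.eval z₀‖) (hC : 0 < C)
    (hq : ∀ z : ℂ, ‖z‖ ≤ 1 → ‖G f z₀ z - f.derivative.eval z₀ * z‖ ≤ C * ‖z‖ ^ 2)
    (hM : M = C / (‖f.derivative.eval z₀‖ - 1)) (hr1 : M * r ≤ 1 / 2) (hr2 : 2 * r ≤ 1)
    (n : ℕ) {w : ℂ} (hw : ‖w‖ ≤ r) : ‖chi f z₀ n w‖ ≤ 2 * r := by
  refine (bdd hrep hC hq hM hr1 hr2 n _ ?_).2
  rw [norm_div, norm_pow]
  have : 0 < ‖f.derivative.eval z₀‖ ^ n := by positivity
  rw [mul_div_cancel₀ _ this.ne']
  exact hw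

/-- the increments -/
theorem chi_step (hrep : 1 < ‖f.derivative.eval z₀‖) (hC : 0 < C)
    (hq : ∀ z : ℂ, ‖z‖ ≤ 1 → ‖G f z₀ z - f.derivative.eval z₀ * z‖ ≤ C * ‖z‖ ^ 2)
    (hM : M = C / (‖f.derivative.eval z₀‖ - 1)) (hr0 : 0 < r) (hr1 : M * r ≤ 1 / 2)
    (hr2 : 2 * r ≤ 1) (hr3 : C * r < 1 / 2)
    (n : ℕ) {w : ℂ} (hw : ‖w‖ < r / 4) :
    dist (chi f z₀ n w) (chi f z₀ (n + 1) w) ≤
      8 * (C * r ^ 2) * (1 / ‖f.derivative.eval z₀‖) ^ n := by
  set Λ := f.derivative.eval z₀ with hΛ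
  set L := ‖Λ‖ with hL
  have hL0 : 0 < L := by linarith
  have hΛ0 : Λ ≠ 0 := norm_pos_iff.1 hL0
  have hLn : 0 < L ^ n := by positivity
  have hLn1 : 1 ≤ L ^ n := one_le_pow₀ hrep.le
  have hLn2 : 1 ≤ L ^ (n + 1) := one_le_pow₀ hrep.le
  set w' : ℂ := Λ ^ n * G f z₀ (w / Λ ^ (n + 1)) with hw'
  have h1 : chi f z₀ (n + 1) w = chi f z₀ n w' := by
    unfold chi
    rw [Function.iterate_succ_apply, ← hΛ, hw', mul_div_cancel_left₀ _ (pow_ne_zero n hΛ0)]
  have hsm : ‖w / Λ ^ (n + 1)‖ ≤ ‖w‖ := by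
    rw [norm_div, norm_pow]
    exact div_le_self (norm_nonneg _) hLn2
  have h2 : ‖w' - w‖ ≤ C * r ^ 2 * (1 / L) ^ n := by
    have h3 : w' - w = Λ ^ n * (G f z₀ (w / Λ ^ (n + 1)) - Λ * (w / Λ ^ (n + 1))) := by
      rw [hw', mul_sub]
      congr 1
      rw [pow_succ]
      field_simp
    rw [h3, norm_mul, norm_pow, ← hL]
    have h4 := hq (w / Λ ^ (n + 1)) (by linarith)
    calc L ^ n * ‖G f z₀ (w / Λ ^ (n + 1)) - Λ * (w / Λ ^ (n + 1))‖
        ≤ L ^ n * (C * ‖w / Λ ^ (n + 1)‖ ^ 2) := mul_le_mul_of_nonneg_left h4 hLn.le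
      _ = C * ‖w‖ ^ 2 * (L ^ n / (L ^ (n + 1)) ^ 2) := by
          rw [norm_div, norm_pow, ← hL]
          field_simp
      _ ≤ C * r ^ 2 * (1 / L) ^ n := by
          refine mul_le_mul ?_ ?_ (by positivity) (by positivity)
          · refine mul_le_mul_of_nonneg_left ?_ hC.le
            exact pow_le_pow_left₀ (norm_nonneg _) (by linarith) 2
          · rw [div_pow, one_pow, div_le_div_iff₀ (by positivity) hLn, one_mul]
            have : L ^ n * L ^ n ≤ L ^ (n + 1) * L ^ (n + 1) := by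
              have h5 : L ^ n ≤ L ^ (n + 1) := pow_le_pow_right₀ hrep.le (Nat.le_succ n)
              nlinarith
            rw [sq]
            exact this
  have h3 : ‖w' - w‖ < r / 2 := by
    refine lt_of_le_of_lt h2 ?_
    have h4 : (1 / L) ^ n ≤ 1 := pow_le_one₀ (by positivity) (by
      rw [div_le_one hL0]
      exact hrep.le)
    calc C * r ^ 2 * (1 / L) ^ n ≤ C * r ^ 2 * 1 :=
          mul_le_mul_of_nonneg_left h4 (by positivity)
      _ = (C * r) * r := by ring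
      _ < 1 / 2 * r := mul_lt_mul_of_pos_right hr3 hr0
      _ = r / 2 := by ring
  have h4 : MapsTo (chi f z₀ n) (Metric.ball w (r / 2))
      (Metric.closedBall (chi f z₀ n w) (4 * r)) := by
    intro v hv
    rw [Metric.mem_ball, dist_eq_norm] at hv
    rw [Metric.mem_closedBall, dist_eq_norm]
    have hv' : ‖v‖ ≤ r := by
      have := norm_add_le (v - w) w
      rw [sub_add_cancel] at this
      linarith
    have h5 := chi_bdd hrep hC hq hM hr1 hr2 n hv'
    have h6 := chi_bdd hrep hC hq hM hr1 hr2 n (w := w) (by linarith)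
    have h7 := norm_sub_le (chi f z₀ n v) (chi f z₀ n w)
    linarith
  have h5 := Complex.dist_le_div_mul_dist_of_mapsTo_ball (chi_diff f z₀ n).differentiableOn h4
    (z := w') (by rwa [Metric.mem_ball, dist_eq_norm])
  rw [h1, dist_comm]
  refine h5.trans ?_
  have h6 : 4 * r / (r / 2) = 8 := by
    field_simp
    norm_num
  rw [h6, dist_eq_norm, mul_assoc]
  exact mul_le_mul_of_nonneg_left h2 (by norm_num)

end Koe

open Koe in
/-- Row KOE. -/
theorem koe : KoeStatement := by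
  intro f z₀ hfix hrep
  obtain ⟨C, hC, hq⟩ := quad f z₀ hfix
  set Λ := f.derivative.eval z₀ with hΛ
  set L := ‖Λ‖ with hL
  have hL0 : 0 < L := by linarith
  set M := C / (L - 1) with hM
  have hM0 : 0 < M := div_pos hC (by linarith)
  set r : ℝ := 1 / (2 * (M + C + 1)) with hr
  have hr0 : 0 < r := by positivity
  have hr1 : M * r ≤ 1 / 2 := by
    rw [hr, mul_one_div, div_le_div_iff₀ (by positivity) (by norm_num)]
    linarith
  have hr2 : 2 * r ≤ 1 := by
    rw [hr, mul_one_div, div_le_one (by positivity)]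
    linarith
  have hr3 : C * r < 1 / 2 := by
    rw [hr, mul_one_div, div_lt_div_iff₀ (by positivity) (by norm_num)]
    linarith
  set K : ℝ := 8 * (C * r ^ 2) with hK
  have hinv : 1 / L < 1 := by
    rw [div_lt_one hL0]
    exact hrep
  have hstep : ∀ w ∈ Metric.ball (0 : ℂ) (r / 4), ∀ n : ℕ,
      dist (chi f z₀ n w) (chi f z₀ (n + 1) w) ≤ K * (1 / L) ^ n := by
    intro w hw n
    rw [mem_ball_zero_iff] at hw
    exact chi_step hrep hC hq hM hr0 hr1 hr2 hr3 n hw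
  have hex : ∀ w : ℂ, ∃ y : ℂ, w ∈ Metric.ball (0 : ℂ) (r / 4) →
      Tendsto (fun n => chi f z₀ n w) atTop (𝓝 y) := by
    intro w
    by_cases hw : w ∈ Metric.ball (0 : ℂ) (r / 4)
    · obtain ⟨y, hy⟩ := cauchySeq_tendsto_of_complete
        (cauchySeq_of_le_geometric (1 / L) K hinv (hstep w hw))
      exact ⟨y, fun _ => hy⟩
    · exact ⟨0, fun h => absurd h hw⟩
  choose χ hχ using hex
  have hunif : TendstoUniformlyOn (fun n => chi f z₀ n) χ atTop (Metric.ball (0 : ℂ) (r / 4)) := by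
    rw [Metric.tendstoUniformlyOn_iff]
    intro ε hε
    have h1 : Tendsto (fun n : ℕ => K * (1 / L) ^ n / (1 - 1 / L)) atTop (𝓝 0) := by
      have h2 := (tendsto_pow_atTop_nhds_zero_of_lt_one (by positivity : (0 : ℝ) ≤ 1 / L)
        hinv).const_mul K
      have h3 := h2.div_const (1 - 1 / L)
      rwa [mul_zero, zero_div] at h3
    filter_upwards [h1.eventually_lt_const hε] with n hn w hw
    rw [dist_comm]
    exact (dist_le_of_le_geometric_of_tendsto (1 / L) K hinv (hstep w hw) (hχ w hw) n).trans_lt hn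
  have hloc := hunif.tendstoLocallyUniformlyOn
  have hdn : ∀ᶠ n : ℕ in atTop, DifferentiableOn ℂ (chi f z₀ n) (Metric.ball (0 : ℂ) (r / 4)) :=
    Eventually.of_forall fun n => (chi_diff f z₀ n).differentiableOn
  have hχd : DifferentiableOn ℂ χ (Metric.ball (0 : ℂ) (r / 4)) :=
    hloc.differentiableOn hdn Metric.isOpen_ball
  have h0 : (0 : ℂ) ∈ Metric.ball (0 : ℂ) (r / 4) := Metric.mem_ball_self (by positivity)
  have hχ0 : χ 0 = 0 := by
    refine tendsto_nhds_unique (hχ 0 h0) ?_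
    simp only [chi_zero hfix]
    exact tendsto_const_nhds
  have hχ1 : deriv χ 0 = 1 := by
    refine tendsto_nhds_unique ((hloc.deriv hdn Metric.isOpen_ball).tendsto_at h0) ?_
    have h1 : (fun n : ℕ => (deriv ∘ fun n => chi f z₀ n) n 0) = fun _ => (1 : ℂ) := by
      funext n
      exact (chi_deriv hfix hrep n).deriv
    rw [h1]
    exact tendsto_const_nhds
  have hfun : ∀ w, ‖Λ * w‖ < r / 4 → G f z₀ (χ w) = χ (Λ * w) := by
    intro w hw
    have hw1 : Λ * w ∈ Metric.ball (0 : ℂ) (r / 4) := by rwa [mem_ball_zero_iff]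
    have hw2 : w ∈ Metric.ball (0 : ℂ) (r / 4) := by
      rw [mem_ball_zero_iff]
      refine lt_of_le_of_lt ?_ hw
      rw [norm_mul]
      exact le_mul_of_one_le_left (norm_nonneg _) hrep.le
    have h1 := ((G_diff f z₀).continuous.tendsto (χ w)).comp (hχ w hw2)
    have h2 := (hχ _ hw1).comp (tendsto_add_atTop_nat 1)
    refine tendsto_nhds_unique h1 (h2.congr fun n => ?_)
    exact (chi_succ hrep n w).symm
  have han : AnalyticAt ℂ χ 0 := hχd.analyticAt (Metric.isOpen_ball.mem_nhds h0)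
  have hstr : HasStrictDerivAt χ 1 0 := by
    have := han.hasStrictDerivAt
    rwa [hχ1] at this
  have hinj := hstr.eventually_left_inverse one_ne_zero
  have hcont : ContinuousAt (deriv χ) 0 := han.deriv.continuousAt
  have hne : ∀ᶠ w in 𝓝 (0 : ℂ), deriv χ w ≠ 0 :=
    hcont.eventually_ne (by rw [hχ1]; exact one_ne_zero)
  obtain ⟨ε, hε, hball⟩ := Metric.eventually_nhds_iff_ball.1 (hinj.and hne)
  set ρ := min ε (r / 4) with hρ
  have hρ0 : 0 < ρ := lt_min hε (by positivity)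
  have hsub : Metric.ball (0 : ℂ) ρ ⊆ Metric.ball 0 (r / 4) :=
    Metric.ball_subset_ball (min_le_right _ _)
  have hsub' : Metric.ball (0 : ℂ) ρ ⊆ Metric.ball 0 ε :=
    Metric.ball_subset_ball (min_le_left _ _)
  refine ⟨ρ, fun w => z₀ + χ w, hρ0, (hχd.mono hsub).const_add z₀, ?_, ?_, ?_, ?_⟩
  · intro w hw w' hw' h
    have h1 : χ w = χ w' := add_left_cancel h
    have h2 := (hball w (hsub' hw)).1
    have h3 := (hball w' (hsub' hw')).1
    rw [← h2, ← h3, h1]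
  · intro w hw
    rw [deriv_const_add]
    exact (hball w (hsub' hw)).2
  · change z₀ + χ 0 = z₀
    rw [hχ0, add_zero]
  · intro w hw
    have h1 := hfun w (hw.trans_le (min_le_right _ _))
    change f.eval (z₀ + χ w) = z₀ + χ (Λ * w)
    rw [← h1]
    unfold G
    ring

end Pool.Agent.Imp
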