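import Pool.Agent.Lib.MP_1c105c_an.Defs10
import Pool.Agent.Lib.MP_1c105c_an.Alp
import Pool.Agent.Lib.MP_1c105c_an.AtaCrit
import Pool.Agent.Lib.MP_1c105c_an.Koe
import Pool.Agent.Lib.MP_1c105c_an.Lift
import Pool.Agent.Lib.MP_1c105c_an.Uco

/-! MP_1c105c_an, row ATA: attracting fixed points have an access to another fixed point. -/

set_option autoImplicit false

open Filter Topology Set Polynomial

namespace Pool.Agent.Imp

namespace Ata

/-- lifting of a path through `f` inside of a piece -/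
theorem step (f : ℂ[X]) {Δ E : Set ℂ} (hΔo : IsOpen Δ)
    (hrel : IsOpen {z | z ∉ Δ ∧ f.eval z ∈ Δ})
    (hE : ∀ c, f.derivative.eval c = 0 → f.eval c ∈ E)
    (hEf : ∀ z ∈ E, f.eval z ∈ E) {g : ℝ → ℂ} (hg : Continuous g)
    (hgV : ∀ t, g t ∈ Δ ∧ g t ∉ E) {w : ℂ} (hw : w ∈ Δ) (hw' : f.eval w = g 0) :
    ∃ g' : ℝ → ℂ, Continuous g' ∧ (∀ t, f.eval (g' t) = g t) ∧ g' 0 = w ∧
      ∀ t, g' t ∈ Δ ∧ g' t ∉ E := by
  have cov := f.isCoveringMapOn_eval
  obtain ⟨F, ⟨hF0, hF⟩, -⟩ := cov.existsUnique_continuousMap_lifts (A := ℝ) ⟨g, hg⟩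
    (a₀ := 0) (e₀ := w) hw' (by
      intro a
      rintro ⟨c, hc, hca⟩
      refine (hgV a).2 ?_
      have h1 : f.eval c = g a := hca
      rw [← h1]
      exact hE c hc)
  have hF' : ∀ t, f.eval (F t) = g t := fun t => congrFun hF t
  refine ⟨F, F.continuous, hF', hF0, ?_⟩
  have hcl : IsClopen {t : ℝ | F t ∈ Δ} := by
    refine ⟨?_, hΔo.preimage F.continuous⟩
    have h1 : {t : ℝ | F t ∈ Δ} = (F ⁻¹' {z | z ∉ Δ ∧ f.eval z ∈ Δ})ᶜ := by
      ext t
      simp only [mem_ofPred_eq, mem_compl_iff, mem_preimage, hF' t, (hgV t).1, and_true, not_not]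
    rw [h1]
    exact (hrel.preimage F.continuous).isClosed_compl
  have huniv : {t : ℝ | F t ∈ Δ} = univ := hcl.eq_univ ⟨0, by
    change F 0 ∈ Δ
    rw [hF0]
    exact hw⟩
  intro t
  have h1 : t ∈ {t : ℝ | F t ∈ Δ} := by
    rw [huniv]
    exact mem_univ t
  refine ⟨h1, fun h => (hgV t).2 ?_⟩
  rw [← hF' t]
  exact hEf _ h

/-- the sequence of the lifts -/
theorem seq (f : ℂ[X]) {Δ E : Set ℂ} (hΔo : IsOpen Δ)
    (hrel : IsOpen {z | z ∉ Δ ∧ f.eval z ∈ Δ})
    (hE : ∀ c, f.derivative.eval c = 0 → f.eval c ∈ E)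
    (hEf : ∀ z ∈ E, f.eval z ∈ E) {γ : ℝ → ℂ} (hγ : Continuous γ)
    (hγV : ∀ t, γ t ∈ Δ ∧ γ t ∉ E) (h10 : f.eval (γ 1) = γ 0) :
    ∃ g : ℕ → ℝ → ℂ, g 0 = γ ∧ (∀ n, Continuous (g n)) ∧ (∀ n t, g n t ∈ Δ ∧ g n t ∉ E) ∧
      (∀ n t, f.eval (g (n + 1) t) = g n t) ∧ ∀ n, g (n + 1) 0 = g n 1 := by
  have hnx : ∀ s : {g : ℝ → ℂ // Continuous g ∧ (∀ t, g t ∈ Δ ∧ g t ∉ E) ∧
      f.eval (g 1) = g 0}, ∃ s' : {g : ℝ → ℂ // Continuous g ∧ (∀ t, g t ∈ Δ ∧ g t ∉ E) ∧
      f.eval (g 1) = g 0}, (∀ t, f.eval (s'.1 t) = s.1 t) ∧ s'.1 0 = s.1 1 := by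
    rintro ⟨g, hg, hgV, hg10⟩
    obtain ⟨g', h1, h2, h3, h4⟩ := step f hΔo hrel hE hEf hg hgV (hgV 1).1 hg10
    exact ⟨⟨g', h1, h4, by rw [h2 1, h3]⟩, h2, h3⟩
  choose nx hnx1 hnx2 using hnx
  refine ⟨fun n => (nx^[n] ⟨γ, hγ, hγV, h10⟩).1, rfl, fun n => (nx^[n] _).2.1,
    fun n => (nx^[n] _).2.2.1, fun n t => ?_, fun n => ?_⟩
  · change f.eval ((nx^[n + 1] ⟨γ, hγ, hγV, h10⟩).1 t) = _
    rw [Function.iterate_succ_apply']
    exact hnx1 _ t
  · change (nx^[n + 1] ⟨γ, hγ, hγV, h10⟩).1 0 = _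
    rw [Function.iterate_succ_apply']
    exact hnx2 _

/-- the derivatives of the branches are small -/
theorem small (f : ℂ[X]) {Δ : Set ℂ} {α : ℂ} (hb : Bornology.IsBounded Δ)
    (hlim : ∀ z ∈ Δ, Tendsto (fun n => (fun w => f.eval w)^[n] z) atTop (𝓝 α)) {Q : Set ℂ}
    {ρ : ℝ} (hρ : 0 < ρ) (hα : ∀ p ∈ Q, 2 * ρ ≤ dist p α) {c : ℝ} (hc : 0 < c) :
    ∃ N : ℕ, ∀ n : ℕ, N ≤ n → ∀ p ∈ Q, ∀ h : ℂ → ℂ, DifferentiableOn ℂ h (Metric.ball p ρ) →
      (∀ z ∈ Metric.ball p ρ, h z ∈ Δ ∧ (fun w => f.eval w)^[n] (h z) = z) →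
      ‖deriv h p‖ ≤ c := by
  by_contra hcon
  push Not at hcon
  choose n hn p hp h hh1 hh2 hpc using hcon
  have hx : ∀ k, h k (p k) ∈ closure Δ := fun k =>
    subset_closure (hh2 k _ (Metric.mem_ball_self hρ)).1
  obtain ⟨x, -, φ, hφ, hl⟩ := hb.isCompact_closure.tendsto_subseq hx
  set c₂ : ℝ := 1 / 64 * (c * ρ) with hc₂
  have hc₂0 : 0 < c₂ := by positivity
  have h1 : ∀ᶠ k in atTop, Dist.dist (h (φ k) (p (φ k))) x < c₂ / 2 :=
    (Metric.tendsto_nhds.1 hl) _ (by positivity)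
  obtain ⟨k₀, hk₀⟩ := h1.exists
  set x' := h (φ k₀) (p (φ k₀)) with hx'
  have hx'Δ : x' ∈ Δ := (hh2 (φ k₀) _ (Metric.mem_ball_self hρ)).1
  obtain ⟨N, hN⟩ := (Metric.tendsto_atTop.1 (hlim x' hx'Δ)) ρ hρ
  obtain ⟨k, hk1, hk2⟩ := (h1.and (eventually_ge_atTop N)).exists
  have hkn : N ≤ n (φ k) := hk2.trans ((hφ.id_le k).trans (hn (φ k)))
  obtain ⟨y, hy, hyx⟩ := Uco.cover hρ (hh1 (φ k))
    (Uco.injOn_of (F := (fun w => f.eval w)^[n (φ k)]) (fun z hz => (hh2 (φ k) z hz).2))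
    (w := x') (by
      have h2 : ‖x' - h (φ k) (p (φ k))‖ < c₂ := by
        rw [← dist_eq_norm]
        have h3 := dist_triangle x' x (h (φ k) (p (φ k)))
        rw [dist_comm x (h (φ k) (p (φ k)))] at h3
        linarith
      refine h2.trans ?_
      rw [hc₂]
      have h3 := mul_lt_mul_of_pos_right (hpc (φ k)) hρ
      linarith)
  have h2 := hN _ hkn
  rw [← hyx, (hh2 (φ k) y hy).2] at h2
  have h3 := hα _ (hp (φ k))
  have h4 := dist_triangle (p (φ k)) y α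
  rw [dist_comm (p (φ k)) y] at h4
  have h5 : dist y (p (φ k)) < ρ := hy
  linarith

/-- a branch with values in the piece -/
theorem branch (f : ℂ[X]) {Δ E : Set ℂ} (hΔo : IsOpen Δ)
    (hrel : ∀ n : ℕ, IsOpen {z | z ∉ Δ ∧ (fun w => f.eval w)^[n] z ∈ Δ})
    (hE : ∀ c, f.derivative.eval c = 0 → ∀ n : ℕ, (fun w => f.eval w)^[n + 1] c ∈ E) (n : ℕ)
    {x : ℂ} {ρ : ℝ} (hb : Metric.ball x ρ ⊆ Δ \ E) {y w : ℂ} (hy : y ∈ Metric.ball x ρ)
    (hw : (fun w => f.eval w)^[n] w = y) (hwΔ : w ∈ Δ) :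
    ∃ h : ℂ → ℂ, DifferentiableOn ℂ h (Metric.ball x ρ) ∧
      (∀ z ∈ Metric.ball x ρ, h z ∈ Δ ∧ (fun w => f.eval w)^[n] (h z) = z) ∧ h y = w ∧
      ∀ z ∈ Metric.ball x ρ, (Nr.It f n).derivative.eval (h z) ≠ 0 := by
  obtain ⟨h, h1, h2, h3, h4⟩ := Alp64.branch f (Ω := Δ \ E)
    (fun c hc n hmem => hmem.2 (hE c hc n)) n hb hy (by rw [Nr.it_eval]; exact hw)
  refine ⟨h, h1, fun z hz => ⟨?_, by rw [← Nr.it_eval]; exact h2 z hz⟩, h3, fun z hz h0 => ?_⟩
  · by_contra hcon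
    have hc : IsPreconnected (Metric.ball x ρ) := (convex_ball x ρ).isPreconnected
    have him : IsPreconnected (h '' Metric.ball x ρ) := hc.image h h1.continuousOn
    obtain ⟨u, -, hu1, hu2⟩ := him Δ {z | z ∉ Δ ∧ (fun w => f.eval w)^[n] z ∈ Δ} hΔo (hrel n)
      (by
        rintro _ ⟨v, hv, rfl⟩
        by_cases hvΔ : h v ∈ Δ
        · exact Or.inl hvΔ
        · refine Or.inr ⟨hvΔ, ?_⟩
          rw [← Nr.it_eval, h2 v hv]
          exact (hb hv).1) ⟨h y, mem_image_of_mem h hy, by rw [h3]; exact hwΔ⟩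
      ⟨h z, mem_image_of_mem h hz, hcon, by
        rw [← Nr.it_eval, h2 z hz]
        exact (hb hz).1⟩
    exact hu2.1 hu1
  · have h5 := h4 z hz
    rw [h0, zero_mul] at h5
    exact zero_ne_one h5

/-- the oscillation of the lift on a short interval -/
theorem osc (f : ℂ[X]) {Δ E : Set ℂ} (hΔo : IsOpen Δ)
    (hrel : ∀ n : ℕ, IsOpen {z | z ∉ Δ ∧ (fun w => f.eval w)^[n] z ∈ Δ})
    (hE : ∀ c, f.derivative.eval c = 0 → ∀ n : ℕ, (fun w => f.eval w)^[n + 1] c ∈ E) (n : ℕ)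
    {γ g : ℝ → ℂ} (hγ : Continuous γ) (hg : Continuous g)
    (hFg : ∀ t, (fun w => f.eval w)^[n] (g t) = γ t) (hgΔ : ∀ t, g t ∈ Δ) {a b : ℝ}
    (hab : a ≤ b) {ρ c : ℝ} (hρ : 0 < ρ) (hb : Metric.ball (γ a) ρ ⊆ Δ \ E)
    (hsh : ∀ s ∈ Icc a b, γ s ∈ Metric.ball (γ a) (ρ / 2))
    (hc : ∀ h : ℂ → ℂ, DifferentiableOn ℂ h (Metric.ball (γ a) ρ) →
      (∀ z ∈ Metric.ball (γ a) ρ, h z ∈ Δ ∧ (fun w => f.eval w)^[n] (h z) = z) →
      ‖deriv h (γ a)‖ ≤ c) : ‖g b - g a‖ ≤ c * Real.exp 65536 * ρ := by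
  obtain ⟨h, h1, h2, h3, h4⟩ := branch f hΔo hrel hE n hb (Metric.mem_ball_self hρ) (hFg a)
    (hgΔ a)
  have hsh' : ∀ s ∈ Icc a b, γ s ∈ Metric.ball (γ a) ρ := fun s hs =>
    Metric.ball_subset_ball (by linarith) (hsh s hs)
  have hS : IsPreconnected ((fun s : ℝ => (s : ℂ)) '' Icc a b) :=
    isPreconnected_Icc.image _ Complex.continuous_ofReal.continuousOn
  have key := uniq (Nr.It f n) ((fun s : ℝ => (s : ℂ)) '' Icc a b) (fun z => h (γ z.re))
    (fun z => g z.re) hS (by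
      refine h1.continuousOn.comp (hγ.comp Complex.continuous_re).continuousOn ?_
      rintro _ ⟨s, hs, rfl⟩
      change γ (s : ℂ).re ∈ _
      rw [Complex.ofReal_re]
      exact hsh' s hs) (hg.comp Complex.continuous_re).continuousOn (by
      rintro _ ⟨s, hs, rfl⟩
      simp only [Complex.ofReal_re]
      rw [Nr.it_eval, Nr.it_eval, (h2 _ (hsh' s hs)).2, hFg]) (by
      rintro _ ⟨s, hs, rfl⟩
      simp only [Complex.ofReal_re]
      exact h4 _ (hsh' s hs)) (a : ℂ) ⟨a, ⟨le_rfl, hab⟩, rfl⟩ (by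
      simp only [Complex.ofReal_re]
      exact h3)
  have h5 := key (x := (b : ℂ)) ⟨b, ⟨hab, le_rfl⟩, rfl⟩
  simp only [Complex.ofReal_re] at h5
  rw [← h5, ← h3]
  exact Uco.osc hρ h1 (Uco.injOn_of (F := (fun w => f.eval w)^[n]) fun z hz => (h2 z hz).2)
    (hc h h1 h2) (hsh b ⟨hab, le_rfl⟩)

/-- the lifts are short -/
theorem diam (f : ℂ[X]) {Δ E : Set ℂ} {α : ℂ} (hΔo : IsOpen Δ) (hΔb : Bornology.IsBounded Δ)
    (hrel : ∀ n : ℕ, IsOpen {z | z ∉ Δ ∧ (fun w => f.eval w)^[n] z ∈ Δ})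
    (hV : IsOpen (Δ \ E)) (hαE : α ∈ E)
    (hE : ∀ c, f.derivative.eval c = 0 → ∀ n : ℕ, (fun w => f.eval w)^[n + 1] c ∈ E)
    (hlim : ∀ z ∈ Δ, Tendsto (fun n => (fun w => f.eval w)^[n] z) atTop (𝓝 α))
    {g : ℕ → ℝ → ℂ} (hg : ∀ n, Continuous (g n)) (hgV : ∀ n t, g n t ∈ Δ ∧ g n t ∉ E)
    (hfg : ∀ n t, f.eval (g (n + 1) t) = g n t) {ε : ℝ} (hε : 0 < ε) :
    ∃ N : ℕ, ∀ n ≥ N, ∀ s ∈ Icc (0 : ℝ) 1, ‖g n s - g n 0‖ ≤ ε := by
  have hFg : ∀ n t, (fun w => f.eval w)^[n] (g n t) = g 0 t := by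
    intro n
    induction n with
    | zero => intro t; rfl
    | succ n ih =>
      intro t
      rw [Function.iterate_succ_apply, hfg n t, ih t]
  have hQ : IsCompact (g 0 '' Icc (0 : ℝ) 1) := isCompact_Icc.image (hg 0)
  have hQV : g 0 '' Icc (0 : ℝ) 1 ⊆ Δ \ E := by
    rintro _ ⟨t, -, rfl⟩
    exact hgV 0 t
  obtain ⟨ρ', hρ', hsub⟩ := hQ.exists_thickening_subset_open hV hQV
  have hball' : ∀ p ∈ g 0 '' Icc (0 : ℝ) 1, Metric.ball p ρ' ⊆ Δ \ E := fun p hp =>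
    (Metric.ball_subset_thickening hp ρ').trans hsub
  set ρ : ℝ := ρ' / 2 with hρdef
  have hρ : 0 < ρ := by positivity
  have hball : ∀ p ∈ g 0 '' Icc (0 : ℝ) 1, Metric.ball p ρ ⊆ Δ \ E := fun p hp =>
    (Metric.ball_subset_ball (by rw [hρdef]; linarith)).trans (hball' p hp)
  have hα : ∀ p ∈ g 0 '' Icc (0 : ℝ) 1, 2 * ρ ≤ dist p α := by
    intro p hp
    by_contra hcon
    push Not at hcon
    have h1 : α ∈ Metric.ball p ρ' := by
      rw [Metric.mem_ball, dist_comm]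
      rw [hρdef] at hcon
      linarith
    exact (hball' p hp h1).2 hαE
  obtain ⟨δ, hδ, hδ'⟩ := Metric.uniformContinuousOn_iff.1
    (isCompact_Icc.uniformContinuousOn_of_continuous (s := Icc (0 : ℝ) 1) (hg 0).continuousOn)
    (ρ / 2) (by positivity)
  obtain ⟨m, hm⟩ := exists_nat_gt (1 / δ)
  have hm0 : (0 : ℝ) < m := lt_trans (by positivity) hm
  have hm1 : 1 / (m : ℝ) < δ := by
    rw [div_lt_iff₀ hm0]
    rw [div_lt_iff₀ hδ] at hm
    linarith
  have hexp := Real.exp_pos 65536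
  set c : ℝ := ε / (m * (Real.exp 65536 * ρ)) with hc
  have hc0 : 0 < c := by positivity
  have hcC : (m : ℝ) * (c * Real.exp 65536 * ρ) = ε := by
    rw [hc]
    field_simp
  obtain ⟨N, hN⟩ := small f hΔb hlim hρ hα hc0
  refine ⟨N, fun n hn s hs => ?_⟩
  have key : ∀ j : ℕ, j ≤ m → ∀ s ∈ Icc (0 : ℝ) (j / m),
      ‖g n s - g n 0‖ ≤ j * (c * Real.exp 65536 * ρ) := by
    intro j
    induction j with
    | zero =>
      intro _ s hs
      have h1 : s = 0 := by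
        have h2 := hs.2
        rw [Nat.cast_zero, zero_div] at h2
        exact le_antisymm h2 hs.1
      rw [h1, sub_self, norm_zero, Nat.cast_zero, zero_mul]
    | succ j ih =>
      intro hj s hs
      have hC0 : 0 ≤ c * Real.exp 65536 * ρ := by positivity
      have hcast : ((j + 1 : ℕ) : ℝ) = (j : ℝ) + 1 := by push_cast; ring
      rcases le_total s ((j : ℝ) / m) with hsj | hsj
      · refine (ih (by omega) s ⟨hs.1, hsj⟩).trans ?_
        rw [hcast]
        nlinarith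
      · have hj0 : (0 : ℝ) ≤ (j : ℝ) / m := by positivity
        have hj1 : ((j : ℝ) + 1) / m ≤ 1 := by
          rw [div_le_one hm0]
          exact_mod_cast hj
        have hs2 : s ≤ ((j : ℝ) + 1) / m := by
          rw [← hcast]
          exact hs.2
        have hja : (j : ℝ) / m ∈ Icc (0 : ℝ) 1 := ⟨hj0, hsj.trans (hs2.trans hj1)⟩
        have h1 := osc f hΔo hrel hE n (hg 0) (hg n) (hFg n) (fun t => (hgV n t).1) hsj hρ
          (hball _ (mem_image_of_mem _ hja)) (fun r hr => by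
            refine hδ' r ⟨hj0.trans hr.1, hr.2.trans (hs2.trans hj1)⟩ _ hja ?_
            rw [Real.dist_eq, abs_of_nonneg (by linarith [hr.1])]
            have h2 : ((j : ℝ) + 1) / m = (j : ℝ) / m + 1 / m := by ring
            linarith [hr.2]) (fun h hh1 hh2 => hN n hn _ (mem_image_of_mem _ hja) h hh1 hh2)
        have h2 := ih (by omega) _ ⟨hj0, le_rfl⟩
        have h3 : g n s - g n 0 = (g n s - g n ((j : ℝ) / m)) + (g n ((j : ℝ) / m) - g n 0) := by
          ring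
        rw [h3, hcast]
        refine (norm_add_le _ _).trans ?_
        linarith
  have h1 := key m le_rfl s (by rw [div_self hm0.ne']; exact hs)
  rwa [hcC] at h1

/-- backward orbits with small steps converge to a fixed point -/
theorem conv (f : ℂ[X]) (hd : 2 ≤ f.natDegree) {y : ℕ → ℂ} {K : Set ℂ}
    (hK : Bornology.IsBounded K) (hy : ∀ n, y n ∈ K) (hf : ∀ n, f.eval (y (n + 1)) = y n)
    (hs : Tendsto (fun n => y (n + 1) - y n) atTop (𝓝 0)) :
    ∃ q, f.eval q = q ∧ Tendsto y atTop (𝓝 q) := by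
  have hfin : {z : ℂ | f.eval z = z}.Finite := by
    have hne : f - X ≠ 0 := by
      intro h0
      have h1 : f = X := sub_eq_zero.1 h0
      rw [h1, natDegree_X] at hd
      omega
    refine (f - X).roots.toFinset.finite_toSet.subset fun z hz => ?_
    rw [Finset.mem_coe, Multiset.mem_toFinset, mem_roots hne, IsRoot, eval_sub, eval_X]
    exact sub_eq_zero.2 hz
  have key : ∀ (φ : ℕ → ℕ) (x : ℂ), Tendsto φ atTop atTop → Tendsto (y ∘ φ) atTop (𝓝 x) →
      f.eval x = x := by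
    intro φ x hφ hx
    have h1 : Tendsto (fun k => y (φ k + 1)) atTop (𝓝 x) := by
      have h2 := (hs.comp hφ).add hx
      rw [zero_add] at h2
      refine h2.congr fun k => ?_
      simp only [Function.comp_apply]
      ring
    have h3 : Tendsto (fun k => f.eval (y (φ k + 1))) atTop (𝓝 (f.eval x)) :=
      (f.continuous.tendsto x).comp h1
    have h4 : Tendsto (fun k => f.eval (y (φ k + 1))) atTop (𝓝 x) := by
      refine hx.congr fun k => ?_
      rw [hf]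
      rfl
    exact tendsto_nhds_unique h3 h4
  obtain ⟨q, -, φ, hφ, hl⟩ := tendsto_subseq_of_bounded hK hy
  have hq : f.eval q = q := key φ q hφ.tendsto_atTop hl
  refine ⟨q, hq, ?_⟩
  obtain ⟨ε₀, hε₀, hε₀'⟩ : ∃ ε₀ : ℝ, 0 < ε₀ ∧ ∀ z, f.eval z = z → dist z q < ε₀ → z = q := by
    have h1 : IsClosed ({z : ℂ | f.eval z = z} \ {q}) := (hfin.subset sdiff_subset).isClosed
    obtain ⟨ε, hε, hε'⟩ := Metric.isOpen_iff.1 h1.isOpen_compl q (fun h => h.2 rfl)
    refine ⟨ε, hε, fun z hz hzq => ?_⟩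
    by_contra hne
    exact hε' hzq ⟨hz, hne⟩
  rw [Metric.tendsto_atTop]
  intro ε₁ hε₁
  set ε : ℝ := min ε₁ ε₀ / 2 with hε
  have hε0 : 0 < ε := by
    have := lt_min hε₁ hε₀
    positivity
  have hεε₁ : ε < ε₁ := by
    have := min_le_left ε₁ ε₀
    have := lt_min hε₁ hε₀
    rw [hε]
    linarith
  have hεε₀ : ε < ε₀ := by
    have := min_le_right ε₁ ε₀
    have := lt_min hε₁ hε₀
    rw [hε]
    linarith
  -- the annulus
  obtain ⟨N₁, hN₁⟩ : ∃ N₁, ∀ n ≥ N₁, ¬ (dist (y n) q ≤ ε ∧ ε / 2 ≤ dist (y n) q) := by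
    by_contra hcon
    push Not at hcon
    have hfr : ∃ᶠ n in atTop, dist (y n) q ≤ ε ∧ ε / 2 ≤ dist (y n) q := by
      rw [frequently_atTop]
      intro a
      obtain ⟨b, hb, hb'⟩ := hcon a
      exact ⟨b, hb, hb'⟩
    obtain ⟨φ', hφ', hφA⟩ := extraction_of_frequently_atTop hfr
    have hKc : IsCompact (Metric.closedBall q ε) := isCompact_closedBall q ε
    obtain ⟨x, hx, ψ, hψ, hlx⟩ := hKc.tendsto_subseq (x := fun k => y (φ' k))
      (fun k => (hφA k).1)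
    have h1 := key (φ' ∘ ψ) x (hφ'.tendsto_atTop.comp hψ.tendsto_atTop) hlx
    have h2 := hε₀' x h1 (lt_of_le_of_lt hx hεε₀)
    have h3 : ε / 2 ≤ dist x q :=
      ge_of_tendsto (hlx.dist tendsto_const_nhds) (Eventually.of_forall fun k => (hφA (ψ k)).2)
    rw [h2, dist_self] at h3
    linarith
  obtain ⟨N₂, hN₂⟩ := (Metric.tendsto_atTop.1 hs) (ε / 2) (by positivity)
  obtain ⟨k, hk1, hk2⟩ := (((Metric.tendsto_nhds.1 hl) (ε / 2) (by positivity)).and
    (eventually_ge_atTop (max N₁ N₂))).exists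
  have hk3 : max N₁ N₂ ≤ φ k := hk2.trans (hφ.id_le k)
  have hind : ∀ j : ℕ, dist (y (φ k + j)) q < ε / 2 := by
    intro j
    induction j with
    | zero => exact hk1
    | succ j ih =>
      have h1 := hN₁ (φ k + (j + 1)) (by
        have := le_max_left N₁ N₂
        omega)
      have h2 := hN₂ (φ k + j) (by
        have := le_max_right N₁ N₂
        change N₂ ≤ φ k + j
        omega)
      rw [dist_zero_right, ← dist_eq_norm] at h2
      by_contra hcon
      push Not at hcon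
      refine h1 ⟨?_, hcon⟩
      have h3 := dist_triangle (y (φ k + (j + 1))) (y (φ k + j)) q
      rw [← add_assoc] at h3 ⊢
      linarith
  refine ⟨φ k, fun n hn => ?_⟩
  obtain ⟨j, rfl⟩ := Nat.exists_eq_add_of_le hn
  have := hind j
  linarith

/-- a ball without a countable set is path connected -/
theorem joined {E : Set ℂ} (hE : E.Countable) (x : ℂ) {r : ℝ} (hr : 0 < r) :
    IsPathConnected (Metric.ball x r \ E) := by
  have h1 : ((OpenPartialHomeomorph.univBall x r : OpenPartialHomeomorph ℂ ℂ) ⁻¹' E).Countable :=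
    hE.preimage_of_injOn (by
      have h2 := (OpenPartialHomeomorph.univBall x r : OpenPartialHomeomorph ℂ ℂ).injOn
      rw [OpenPartialHomeomorph.univBall_source] at h2
      exact h2.mono (subset_univ _))
  have h2 := (h1.isPathConnected_compl_of_one_lt_rank (by simp)).image
    (OpenPartialHomeomorph.continuous_univBall x r)
  have h4 : (OpenPartialHomeomorph.univBall x r : OpenPartialHomeomorph ℂ ℂ) ''
      ((OpenPartialHomeomorph.univBall x r : OpenPartialHomeomorph ℂ ℂ) ⁻¹' E)ᶜ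
      = Metric.ball x r \ E := by
    ext z
    constructor
    · rintro ⟨w, hw, rfl⟩
      refine ⟨?_, hw⟩
      have h5 := (OpenPartialHomeomorph.univBall x r : OpenPartialHomeomorph ℂ ℂ).map_source
        (x := w) (by rw [OpenPartialHomeomorph.univBall_source]; exact mem_univ _)
      rwa [OpenPartialHomeomorph.univBall_target x hr] at h5
    · rintro ⟨hz, hzE⟩
      have h5 := (OpenPartialHomeomorph.univBall x r : OpenPartialHomeomorph ℂ ℂ).right_inv
        (x := z) (by rw [OpenPartialHomeomorph.univBall_target x hr]; exact hz)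
      refine ⟨_, ?_, h5⟩
      rw [mem_compl_iff, mem_preimage, h5]
      exact hzE
  rwa [h4] at h2

/-- the small continua -/
theorem sacs {Δ : Set ℂ} {q : ℂ} {g : ℕ → ℝ → ℂ} (hg : ∀ n, Continuous (g n))
    (hgΔ : ∀ n t, g n t ∈ Δ) (hglue : ∀ n, g (n + 1) 0 = g n 1)
    (hlim : Tendsto (fun n => g n 0) atTop (𝓝 q))
    (hsh : ∀ ε : ℝ, 0 < ε → ∃ N : ℕ, ∀ n ≥ N, ∀ s ∈ Icc (0 : ℝ) 1, ‖g n s - g n 0‖ ≤ ε) :
    SAcs Δ q := by
  have hS : ∀ ε : ℝ, 0 < ε → ∃ N : ℕ, ∀ n ≥ N, ∀ s ∈ Icc (0 : ℝ) 1, dist (g n s) q < ε := by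
    intro ε hε
    obtain ⟨N₁, h1⟩ := hsh (ε / 2) (by positivity)
    obtain ⟨N₂, h2⟩ := (Metric.tendsto_atTop.1 hlim) (ε / 2) (by positivity)
    refine ⟨max N₁ N₂, fun n hn s hs => ?_⟩
    have h3 := h1 n ((le_max_left _ _).trans hn) s hs
    have h4 := h2 n ((le_max_right _ _).trans hn)
    rw [← dist_eq_norm] at h3
    linarith [dist_triangle (g n s) (g n 0) q]
  intro ρ hρ
  obtain ⟨N, hN⟩ := hS ρ hρ
  set S : ℕ → Set ℂ := fun n => g (N + n) '' Icc (0 : ℝ) 1 with hSdef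
  have h0 : (0 : ℝ) ∈ Icc (0 : ℝ) 1 := ⟨le_rfl, zero_le_one⟩
  have h1 : (1 : ℝ) ∈ Icc (0 : ℝ) 1 := ⟨zero_le_one, le_rfl⟩
  have hsub : {q} ∪ ⋃ n, S n ⊆ Metric.ball q ρ := by
    rintro z (hz | hz)
    · rw [hz]
      exact Metric.mem_ball_self hρ
    · obtain ⟨n, s, hs, rfl⟩ := mem_iUnion.1 hz
      exact hN _ (Nat.le_add_right _ _) s hs
  have hcl : IsClosed ({q} ∪ ⋃ n, S n) := by
    refine isClosed_of_closure_subset fun z hz => ?_
    by_cases hzq : z = q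
    · exact Or.inl hzq
    · have hd : 0 < dist z q := dist_pos.2 hzq
      obtain ⟨M, hM⟩ := hS (dist z q / 2) (by positivity)
      have hc : IsClosed ((⋃ n ∈ Finset.range M, S n) ∪ Metric.closedBall q (dist z q / 2)) := by
        refine IsClosed.union ?_ Metric.isClosed_closedBall
        refine Set.Finite.isClosed_biUnion (Finset.range M).finite_toSet fun n _ => ?_
        exact (isCompact_Icc.image (hg _)).isClosed
      have h2 : {q} ∪ ⋃ n, S n ⊆
          (⋃ n ∈ Finset.range M, S n) ∪ Metric.closedBall q (dist z q / 2) := by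
        rintro w (hw | hw)
        · refine Or.inr ?_
          rw [hw]
          exact Metric.mem_closedBall_self (by positivity)
        · obtain ⟨n, hn⟩ := mem_iUnion.1 hw
          by_cases hnM : n < M
          · exact Or.inl (mem_biUnion (Finset.mem_range.2 hnM) hn)
          · obtain ⟨s, hs, rfl⟩ := hn
            exact Or.inr (hM _ (by omega) s hs).le
      rcases closure_minimal h2 hc hz with h3 | h3
      · obtain ⟨n, -, hn⟩ := mem_iUnion₂.1 h3
        exact Or.inr (mem_iUnion.2 ⟨n, hn⟩)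
      · rw [Metric.mem_closedBall] at h3
        linarith
  have hpre : IsPreconnected (⋃ n, S n) := by
    refine IsPreconnected.iUnion_of_chain (fun n => isPreconnected_Icc.image _ (hg _).continuousOn)
      fun n => ⟨g (N + n) 1, mem_image_of_mem _ h1, 0, h0, ?_⟩
    change g (N + (n + 1)) 0 = _
    exact hglue (N + n)
  refine ⟨{q} ∪ ⋃ n, S n, Metric.isCompact_of_isClosed_isBounded hcl
    (Metric.isBounded_ball.subset hsub), ?_, Or.inl rfl, ?_, ?_, hsub⟩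
  · refine hpre.subset_closure subset_union_right ?_
    rintro z (hz | hz)
    · rw [hz]
      refine mem_closure_of_tendsto (hlim.comp (tendsto_add_atTop_nat N)) ?_
      refine Eventually.of_forall fun n => mem_iUnion.2 ⟨n, 0, h0, ?_⟩
      change g (N + n) 0 = g (n + N) 0
      rw [add_comm]
    · exact subset_closure hz
  · rintro z (hz | hz)
    · exact Or.inr hz
    · obtain ⟨n, s, -, rfl⟩ := mem_iUnion.1 hz
      exact Or.inl (hgΔ _ _)
  · exact ⟨g (N + 0) 0, Or.inr (mem_iUnion.2 ⟨0, 0, h0, rfl⟩), hgΔ _ _⟩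

/-- the orbits of the critical values, and the fixed point -/
def Cr (f : ℂ[X]) (α : ℂ) : Set ℂ :=
  {α} ∪ ⋃ c ∈ {c : ℂ | f.derivative.eval c = 0}, range fun k : ℕ => (fun w => f.eval w)^[k + 1] c

theorem crit_finite {f : ℂ[X]} (hd : 2 ≤ f.natDegree) :
    {c : ℂ | f.derivative.eval c = 0}.Finite := by
  have hne : f.derivative ≠ 0 := by
    intro h0
    have h1 := derivative_eq_zero.1 h0
    omega
  refine f.derivative.roots.toFinset.finite_toSet.subset fun z hz => ?_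
  rw [Finset.mem_coe, Multiset.mem_toFinset, mem_roots hne]
  exact hz

theorem cr_countable {f : ℂ[X]} (hd : 2 ≤ f.natDegree) (α : ℂ) : (Cr f α).Countable :=
  (countable_singleton α).union
    ((crit_finite hd).countable.biUnion fun _ _ => countable_range _)

theorem cr_mem {f : ℂ[X]} (α : ℂ) {c : ℂ} (hc : f.derivative.eval c = 0) (n : ℕ) :
    (fun w => f.eval w)^[n + 1] c ∈ Cr f α :=
  Or.inr (mem_biUnion (show c ∈ {c : ℂ | f.derivative.eval c = 0} from hc) ⟨n, rfl⟩)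

theorem cr_map {f : ℂ[X]} {α : ℂ} (hα : f.eval α = α) {z : ℂ} (hz : z ∈ Cr f α) :
    f.eval z ∈ Cr f α := by
  rcases hz with hz | hz
  · rw [hz, hα]
    exact Or.inl rfl
  · obtain ⟨c, hc, k, rfl⟩ := mem_iUnion₂.1 hz
    have h1 := cr_mem α hc (k + 1)
    rw [Function.iterate_succ_apply'] at h1
    exact h1

theorem cr_open {f : ℂ[X]} (hd : 2 ≤ f.natDegree) {α : ℂ} {Δ : Set ℂ} (hΔo : IsOpen Δ)
    (hlim : ∀ z ∈ Δ, Tendsto (fun n => (fun w => f.eval w)^[n] z) atTop (𝓝 α)) :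
    IsOpen (Δ \ Cr f α) := by
  have h1 : Δ \ Cr f α = (({α} ∪ Δᶜ) ∪ ⋃ c ∈ {c : ℂ | f.derivative.eval c = 0},
      ((insert α (range fun k : ℕ => (fun w => f.eval w)^[k + 1] c)) ∪ Δᶜ))ᶜ := by
    ext z
    simp only [Cr, Set.mem_sdiff, mem_union, mem_compl_iff, mem_iUnion, mem_insert_iff,
      mem_singleton_iff, not_or, not_exists, not_not]
    constructor
    · rintro ⟨h1, h2, h3⟩
      exact ⟨⟨h2, h1⟩, fun c hc => ⟨⟨h2, h3 c hc⟩, h1⟩⟩
    · rintro ⟨⟨h1, h2⟩, h3⟩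
      exact ⟨h2, h1, fun c hc => (h3 c hc).1.2⟩
  rw [h1]
  refine IsClosed.isOpen_compl (self := ?_)
  refine (isClosed_singleton.union hΔo.isClosed_compl).union ?_
  refine (crit_finite hd).isClosed_biUnion fun c hc => ?_
  by_cases hex : ∃ k : ℕ, (fun w => f.eval w)^[k + 1] c ∈ Δ
  · obtain ⟨k, hk⟩ := hex
    refine IsClosed.union ?_ hΔo.isClosed_compl
    have h2 : Tendsto (fun n => (fun w => f.eval w)^[n + 1] c) atTop (𝓝 α) := by
      have h3 := hlim _ hk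
      refine (tendsto_add_atTop_iff_nat k).1 ?_
      refine h3.congr fun n => ?_
      rw [← Function.iterate_add_apply, show n + (k + 1) = n + k + 1 by omega]
    exact (h2.isCompact_insert_range).isClosed
  · push Not at hex
    have h2 : insert α (range fun k : ℕ => (fun w => f.eval w)^[k + 1] c) ∪ Δᶜ = {α} ∪ Δᶜ := by
      ext z
      constructor
      · rintro ((h3 | ⟨k, rfl⟩) | h3)
        · exact Or.inl h3
        · exact Or.inr (hex k)
        · exact Or.inr h3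
      · rintro (h3 | h3)
        · exact Or.inl (Or.inl h3)
        · exact Or.inr h3
    rw [h2]
    exact isClosed_singleton.union hΔo.isClosed_compl

/-- the local contraction -/
theorem contr (f : ℂ[X]) {α : ℂ} (hα : f.eval α = α) (hlam : ‖f.derivative.eval α‖ < 1) :
    ∃ r μ : ℝ, 0 < r ∧ 0 ≤ μ ∧ μ < 1 ∧
      ∀ z ∈ Metric.ball α r, dist (f.eval z) α ≤ μ * dist z α := by
  obtain ⟨C, hC, hq⟩ := Koe.quad f α hα
  set L := ‖f.derivative.eval α‖ with hL
  have hL0 : 0 ≤ L := norm_nonneg _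
  have h1L : 0 < 1 - L := by linarith
  refine ⟨min 1 ((1 - L) / (2 * C)), (1 + L) / 2, lt_min one_pos (by positivity), by positivity,
    by linarith, fun z hz => ?_⟩
  rw [mem_ball_iff_norm] at hz
  have hz1 : ‖z - α‖ < 1 := lt_of_lt_of_le hz (min_le_left _ _)
  have hz2 : ‖z - α‖ < (1 - L) / (2 * C) := lt_of_lt_of_le hz (min_le_right _ _)
  rw [lt_div_iff₀ (by positivity)] at hz2
  have h2 := hq (z - α) hz1.le
  have h3 : Koe.G f α (z - α) = f.eval z - α := by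
    rw [Koe.G, add_sub_cancel]
  rw [h3] at h2
  rw [dist_eq_norm, dist_eq_norm]
  have h4 : ‖f.eval z - α‖ ≤ L * ‖z - α‖ + C * ‖z - α‖ ^ 2 := by
    have h5 : f.eval z - α = f.derivative.eval α * (z - α) +
        (f.eval z - α - f.derivative.eval α * (z - α)) := by ring
    rw [h5]
    refine (norm_add_le _ _).trans ?_
    rw [norm_mul]
    linarith
  have h6 : 0 ≤ ‖z - α‖ := norm_nonneg _
  nlinarith

end Ata

open Ata in
/-- **Row ATA, the access half.** -/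
theorem ata_acc (f : ℂ[X]) (hd : 2 ≤ f.natDegree) {α : ℂ} (hα : f.eval α = α) {Δ : Set ℂ}
    {r μ : ℝ} (hP : Pc f Δ) (hr : 0 < r) (hμ0 : 0 ≤ μ) (hμ : μ < 1)
    (hcon : ∀ z ∈ Metric.ball α r, dist (f.eval z) α ≤ μ * dist z α)
    (hsub : Metric.ball α r ⊆ Δ)
    (hbas : ∀ z ∈ Δ, ∃ n : ℕ, (fun w => f.eval w)^[n] z ∈ Metric.ball α r) :
    ∃ q, f.eval q = q ∧ q ≠ α ∧ SAcs Δ q := by
  have hit : ∀ (j : ℕ), ∀ z ∈ Metric.ball α r,
      dist ((fun w => f.eval w)^[j] z) α ≤ μ ^ j * dist z α := by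
    intro j
    induction j with
    | zero => intro z _; simp
    | succ j ih =>
      intro z hz
      have h1 := ih z hz
      have h2 : μ ^ j * dist z α ≤ dist z α := by
        have h3 : μ ^ j ≤ 1 := pow_le_one₀ hμ0 hμ.le
        have h4 : 0 ≤ dist z α := dist_nonneg
        nlinarith
      have hz' : dist z α < r := hz
      have h5 := hcon _ (show (fun w => f.eval w)^[j] z ∈ Metric.ball α r from
        lt_of_le_of_lt (h1.trans h2) hz')
      rw [Function.iterate_succ_apply', pow_succ']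
      refine h5.trans ?_
      rw [mul_assoc]
      exact mul_le_mul_of_nonneg_left h1 hμ0
  have hpow : Tendsto (fun j : ℕ => μ ^ j) atTop (𝓝 0) :=
    tendsto_pow_atTop_nhds_zero_of_lt_one hμ0 hμ
  have hlim : ∀ z ∈ Δ, Tendsto (fun n => (fun w => f.eval w)^[n] z) atTop (𝓝 α) := by
    intro z hz
    obtain ⟨n₀, hn₀⟩ := hbas z hz
    refine (tendsto_add_atTop_iff_nat n₀).1 ?_
    rw [tendsto_iff_dist_tendsto_zero]
    refine squeeze_zero (fun _ => dist_nonneg) (fun j => ?_)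
      (by simpa using hpow.mul_const (dist ((fun w => f.eval w)^[n₀] z) α))
    rw [Function.iterate_add_apply]
    exact hit j _ hn₀
  set E := Cr f α with hE
  have hV : IsOpen (Δ \ E) := cr_open hd hP.op hlim
  have hEc : E.Countable := cr_countable hd α
  -- the base points
  have hE2 : (E ∪ {z | f.eval z ∈ E}).Countable := by
    refine hEc.union ?_
    have h1 : {z | f.eval z ∈ E} = ⋃ e ∈ E, {z | f.eval z = e} := by
      ext z
      simp
    rw [h1]
    refine hEc.biUnion fun e _ => Set.Finite.countable ?_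
    have hne : f - C e ≠ 0 := by
      intro h0
      have h1 : f = C e := sub_eq_zero.1 h0
      rw [h1, natDegree_C] at hd
      omega
    refine (f - C e).roots.toFinset.finite_toSet.subset fun z hz => ?_
    rw [Finset.mem_coe, Multiset.mem_toFinset, mem_roots hne, IsRoot, eval_sub, eval_C]
    exact sub_eq_zero.2 hz
  obtain ⟨w₁, hw₁, hw₁E⟩ := (joined hE2 α hr).nonempty
  simp only [mem_union, not_or] at hw₁E
  have hw₀ : f.eval w₁ ∈ Metric.ball α r := by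
    have h1 := hcon w₁ hw₁
    have h2 : dist w₁ α < r := hw₁
    have h3 : 0 ≤ dist w₁ α := dist_nonneg
    rw [Metric.mem_ball]
    nlinarith
  obtain ⟨γ, hγ⟩ := (joined hEc α hr).joinedIn (f.eval w₁) ⟨hw₀, hw₁E.2⟩ w₁ ⟨hw₁, hw₁E.1⟩
  have hγV : ∀ t : ℝ, γ.extend t ∈ Δ ∧ γ.extend t ∉ E := by
    intro t
    have h1 : γ.extend t ∈ range γ := by
      rw [← γ.extend_range]
      exact mem_range_self t
    obtain ⟨s, hs⟩ := h1
    have h2 := hγ s
    rw [← hs]
    exact ⟨hsub h2.1, h2.2⟩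
  have hrel1 : IsOpen {z | z ∉ Δ ∧ f.eval z ∈ Δ} := hP.rel 1
  obtain ⟨g, hg0, hgc, hgV, hfg, hglue⟩ := seq f hP.op hrel1
    (fun c hc => cr_mem α hc 0) (fun z hz => cr_map hα hz) (γ := γ.extend)
    γ.continuous_extend hγV (by rw [γ.extend_zero, γ.extend_one])
  have hΔb : Bornology.IsBounded Δ := (Jul.bounded f hd).subset hP.sub
  have hsh : ∀ ε : ℝ, 0 < ε → ∃ N : ℕ, ∀ n ≥ N, ∀ s ∈ Icc (0 : ℝ) 1, ‖g n s - g n 0‖ ≤ ε :=
    fun ε hε => diam f hP.op hΔb hP.rel hV (Or.inl rfl) (fun c hc n => cr_mem α hc n) hlim hgc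
      hgV hfg hε
  obtain ⟨q, hq, hyq⟩ := conv f hd (y := fun n => g n 0) hΔb (fun n => (hgV n 0).1)
    (fun n => hfg n 0) (by
      rw [Metric.tendsto_atTop]
      intro ε hε
      obtain ⟨N, hN⟩ := hsh (ε / 2) (by positivity)
      refine ⟨N, fun n hn => ?_⟩
      rw [dist_zero_right, hglue n]
      have := hN n hn 1 ⟨zero_le_one, le_rfl⟩
      linarith)
  refine ⟨q, hq, ?_, sacs hgc (fun n t => (hgV n t).1) hglue hyq hsh⟩
  rintro rfl
  obtain ⟨N, hN⟩ := (Metric.tendsto_atTop.1 hyq) r hr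
  have hback : ∀ j : ℕ, (fun w => f.eval w)^[j] (g (N + j) 0) = g N 0 := by
    intro j
    induction j with
    | zero => rfl
    | succ j ih =>
      rw [Function.iterate_succ_apply, ← add_assoc, hfg (N + j) 0, ih]
  have h1 : ∀ j : ℕ, dist (g N 0) q ≤ μ ^ j * r := by
    intro j
    have h2 := hit j (g (N + j) 0) (hN _ (Nat.le_add_right _ _))
    rw [hback j] at h2
    refine h2.trans (mul_le_mul_of_nonneg_left ?_ (pow_nonneg hμ0 j))
    exact (hN _ (Nat.le_add_right _ _)).le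
  have h2 : dist (g N 0) q ≤ 0 := by
    refine ge_of_tendsto (by simpa using hpow.mul_const r) (Eventually.of_forall h1)
  have h3 : g N 0 = q := dist_le_zero.1 h2
  exact (hgV N 0).2 (h3 ▸ Or.inl rfl)

/-- Row ATA from BAS and the critical point half. -/
theorem ata_of (bas : BasStatement) (crit : ∀ (f : ℂ[X]) (α : ℂ) (Δ : Set ℂ),
    2 ≤ f.natDegree → Pc f Δ → α ∈ Δ → f.eval α = α → ‖f.derivative.eval α‖ < 1 →
    ∃ c ∈ Δ, f.derivative.eval c = 0) : AtaStatement := by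
  intro f α hd hα hlam
  obtain ⟨r, μ, hr, hμ0, hμ, hcon⟩ := Ata.contr f hα hlam
  have hαb : α ∈ Metric.ball α r := Metric.mem_ball_self hr
  obtain ⟨Δ, hP, hsub, hbas, -⟩ := bas f (Metric.ball α r) (Metric.ball α r) α
    Metric.isOpen_ball Metric.isBounded_ball (fun z hz => by
      have h1 := hcon z hz
      have h2 : dist z α < r := hz
      have h3 : 0 ≤ dist z α := dist_nonneg
      rw [Metric.mem_ball]
      nlinarith) (convex_ball α r).isPreconnected Subset.rfl hαb (by rw [hα]; exact hαb)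
  exact ⟨Δ, hP, hsub hαb, crit f α Δ hd hP (hsub hαb) hα hlam,
    ata_acc f hd hα hP hr hμ0 hμ hcon hsub hbas⟩

/-- **Row ATA.** -/
theorem ata (bas : BasStatement) (lft2 : Lft2Statement) : AtaStatement :=
  ata_of bas fun f α Δ hd hP hα hfix hlam => ata_crit lft2 f α Δ hd hP hα hfix hlam

end Pool.Agent.Imp
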