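import Pool.Agent.Lib.MP_1c105c_an.Defs10

/-! MP_1c105c_an, row BAS: the component of the basin of an invariant open set. -/

set_option autoImplicit false

open Filter Topology Set Polynomial

namespace Pool.Agent.Imp

theorem bas : BasStatement := by
  intro G U S x₀ hU hbd hinv hS hSU hx hGx
  set F : ℂ → ℂ := fun w => G.eval w with hF
  have hFc : Continuous F := G.continuous
  have hFn : ∀ n : ℕ, Continuous (F^[n]) := fun n => hFc.iterate n
  set B : Set ℂ := ⋃ n : ℕ, F^[n] ⁻¹' U with hB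
  have hBo : IsOpen B := isOpen_iUnion fun n => hU.preimage (hFn n)
  have hmem : ∀ z, z ∈ B ↔ ∃ n : ℕ, F^[n] z ∈ U := fun z => by
    rw [hB, mem_iUnion]
    exact Iff.rfl
  have hUB : U ⊆ B := fun z hz => (hmem z).2 ⟨0, hz⟩
  have hUn : ∀ (m : ℕ) (z : ℂ), z ∈ U → F^[m] z ∈ U := by
    intro m
    induction m with
    | zero => exact fun z hz => hz
    | succ m ih =>
      intro z hz
      rw [Function.iterate_succ_apply]
      exact ih _ (hinv z hz)
  have hBf : ∀ (k : ℕ) (z : ℂ), z ∈ B → F^[k] z ∈ B := by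
    intro k z hz
    obtain ⟨n, hn⟩ := (hmem z).1 hz
    refine (hmem _).2 ⟨n, ?_⟩
    rw [← Function.iterate_add_apply, Nat.add_comm, Function.iterate_add_apply]
    exact hUn k _ hn
  have hBb : ∀ (k : ℕ) (z : ℂ), F^[k] z ∈ B → z ∈ B := by
    intro k z hz
    obtain ⟨n, hn⟩ := (hmem _).1 hz
    refine (hmem z).2 ⟨n + k, ?_⟩
    rw [Function.iterate_add_apply]
    exact hn
  set Δ : Set ℂ := connectedComponentIn B x₀ with hΔ
  have hΔB : Δ ⊆ B := connectedComponentIn_subset B x₀
  have hSΔ : S ⊆ Δ := hS.subset_connectedComponentIn hx (hSU.trans hUB)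
  -- a preconnected subset of the basin which meets the component lies in it
  have hin : ∀ (T : Set ℂ) (t : ℂ), IsPreconnected T → T ⊆ B → t ∈ T → t ∈ Δ → T ⊆ Δ := by
    intro T t hT hTB htT htΔ
    have h := hT.subset_connectedComponentIn htT hTB
    rw [← connectedComponentIn_eq htΔ] at h
    exact h
  refine ⟨Δ, ⟨hBo.connectedComponentIn, isPreconnected_connectedComponentIn, ?_, ?_, ?_⟩,
    hSΔ, fun z hz => (hmem z).1 (hΔB hz), ?_⟩
  · intro z hz
    obtain ⟨n, hn⟩ := (hmem z).1 (hΔB hz)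
    obtain ⟨R, hR⟩ := hbd.exists_norm_le
    have hR0 : 0 ≤ R := (norm_nonneg _).trans (hR _ hn)
    refine ⟨R + ∑ i ∈ Finset.range n, ‖F^[i] z‖, fun m => ?_⟩
    rcases lt_or_ge m n with h | h
    · have h1 : ‖F^[m] z‖ ≤ ∑ i ∈ Finset.range n, ‖F^[i] z‖ :=
        Finset.single_le_sum (f := fun i => ‖F^[i] z‖) (fun i _ => norm_nonneg _)
          (Finset.mem_range.2 h)
      exact h1.trans (le_add_of_nonneg_left hR0)
    · obtain ⟨k, rfl⟩ := Nat.exists_eq_add_of_le h
      have h1 : F^[n + k] z ∈ U := by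
        rw [Nat.add_comm, Function.iterate_add_apply]
        exact hUn k _ hn
      exact (hR _ h1).trans
        (le_add_of_nonneg_right (Finset.sum_nonneg fun i _ => norm_nonneg _))
  · intro z hz
    have h1 : F '' Δ ⊆ Δ := by
      refine hin (F '' Δ) (F x₀)
        (isPreconnected_connectedComponentIn.image F hFc.continuousOn) ?_
        ⟨x₀, hSΔ hx, rfl⟩ (hSΔ hGx)
      rintro _ ⟨w, hw, rfl⟩
      exact hBf 1 w (hΔB hw)
    exact h1 ⟨z, hz, rfl⟩
  · intro n
    rw [isOpen_iff_mem_nhds]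
    rintro z ⟨hz, hzn⟩
    have hzB : z ∈ B := hBb n z (hΔB hzn)
    have hCo : IsOpen (connectedComponentIn B z) := hBo.connectedComponentIn
    have hzC : z ∈ connectedComponentIn B z := mem_connectedComponentIn hzB
    refine Filter.mem_of_superset (hCo.mem_nhds hzC) fun y hy => ⟨fun hyΔ => hz ?_, ?_⟩
    · exact hin (connectedComponentIn B z) y isPreconnected_connectedComponentIn
        (connectedComponentIn_subset B z) hy hyΔ hzC
    · have h1 : F^[n] '' connectedComponentIn B z ⊆ Δ := by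
        refine hin _ (F^[n] z)
          (isPreconnected_connectedComponentIn.image _ (hFn n).continuousOn) ?_
          ⟨z, hzC, rfl⟩ hzn
        rintro _ ⟨w, hw, rfl⟩
        exact hBf n w (connectedComponentIn_subset B z hw)
      exact h1 ⟨y, hy, rfl⟩
  · rintro T hTU hT ⟨t, htT, htΔ⟩
    exact hin T t hT (hTU.trans hUB) htT htΔ

end Pool.Agent.Imp
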