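import Pool.Agent.Lib.MP_1c105c_an.Defs4

/-! MP_1c105c_an: two rays that land together give small oscillation (row BIA). -/

set_option autoImplicit false

open Filter Topology Set Polynomial

namespace Pool.Agent.Imp

namespace Bia60

variable {P : ℂ → ℂ}

theorem per_nat (hper : ∀ u, P (u + Complex.I) = P u) (n : ℕ) (u : ℂ) :
    P (u + n * Complex.I) = P u := by
  induction n with
  | zero => simp
  | succ n ih =>
    have h : u + ((n + 1 : ℕ) : ℂ) * Complex.I = (u + n * Complex.I) + Complex.I := by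
      push_cast
      ring
    rw [h, hper, ih]

theorem per_int (hper : ∀ u, P (u + Complex.I) = P u) (m : ℤ) (u : ℂ) :
    P (u + m * Complex.I) = P u := by
  obtain ⟨n, rfl | rfl⟩ := m.eq_nat_or_neg
  · have h := per_nat hper n u
    exact_mod_cast h
  · have h := per_nat hper n (u - n * Complex.I)
    rw [sub_add_cancel] at h
    rw [h]
    congr 1
    push_cast
    ring

theorem per_ray (hper : ∀ u, P (u + Complex.I) = P u) (m : ℤ) (s t : ℝ) :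
    P (s + ((t + m : ℝ) : ℂ) * Complex.I) = P (s + (t : ℂ) * Complex.I) := by
  rw [← per_int hper m (s + t * Complex.I)]
  congr 1
  push_cast
  ring

theorem land_shift (hper : ∀ u, P (u + Complex.I) = P u) (m : ℤ) {t : ℝ} {z : ℂ}
    (h : Land P t z) : Land P (t + m) z := by
  unfold Land at h ⊢
  exact h.congr fun s => (per_ray hper m s t).symm

theorem land_unique {t : ℝ} {z w : ℂ} (h : Land P t z) (h' : Land P t w) : z = w :=
  tendsto_nhds_unique h h'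

/-! ### Integers in an interval -/

theorem mem_ints {x y : ℝ} {J : ℤ} : J ∈ Finset.Ioo ⌊x⌋ ⌈y⌉ ↔ x < J ∧ (J : ℝ) < y := by
  rw [Finset.mem_Ioo, Int.floor_lt, Int.lt_ceil]

theorem card_ints (x y : ℝ) : y - x - 1 ≤ ((Finset.Ioo ⌊x⌋ ⌈y⌉).card : ℝ) := by
  rw [Int.card_Ioo]
  have h1 : (⌈y⌉ - ⌊x⌋ - 1 : ℤ) ≤ ((⌈y⌉ - ⌊x⌋ - 1).toNat : ℤ) := Int.self_le_toNat _
  have h2 : ((⌈y⌉ - ⌊x⌋ - 1 : ℤ) : ℝ) ≤ (((⌈y⌉ - ⌊x⌋ - 1).toNat : ℤ) : ℝ) := by
    exact_mod_cast h1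
  push_cast at h2
  have h3 := Int.le_ceil y
  have h4 := Int.floor_le x
  linarith

/-- the residue of an integer -/
def rs (N : ℕ) (J : ℤ) : ℕ := (J % (N : ℤ)).toNat

theorem rs_cast {N : ℕ} (hN : 0 < N) (J : ℤ) : ((rs N J : ℕ) : ℤ) = J % N :=
  Int.toNat_of_nonneg (Int.emod_nonneg J (by omega))

theorem rs_lt {N : ℕ} (hN : 0 < N) (J : ℤ) : rs N J < N := by
  have h1 := rs_cast hN J
  have h2 := Int.emod_lt_of_pos J (show (0 : ℤ) < N by omega)
  omega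

theorem rs_eq {N : ℕ} (hN : 0 < N) (J : ℤ) (a : ℝ) :
    (a + J) / (N : ℝ) = (a + (rs N J : ℕ)) / N + ((J / (N : ℤ) : ℤ) : ℝ) := by
  have h1 := Int.mul_ediv_add_emod J N
  rw [← rs_cast hN J] at h1
  have h2 : (J : ℝ) = (N : ℝ) * ((J / (N : ℤ) : ℤ) : ℝ) + ((rs N J : ℕ) : ℝ) := by
    exact_mod_cast h1.symm
  have h3 : (N : ℝ) ≠ 0 := by
    have : (0 : ℝ) < N := by exact_mod_cast hN
    exact this.ne'
  rw [h2]
  field_simp
  ring

theorem rs_inj {N : ℕ} (hN : 0 < N) {J J' : ℤ} (h : rs N J = rs N J')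
    (hJ : |(J : ℝ) - J'| < N) : J = J' := by
  have h1 := rs_cast hN J
  have h2 := rs_cast hN J'
  rw [h] at h1
  have h3 : J % (N : ℤ) = J' % N := h1.symm.trans h2
  have h4 : (N : ℤ) ∣ J - J' := Int.ModEq.dvd (show J' ≡ J [ZMOD N] from h3.symm)
  have h5 : |J - J'| < N := by exact_mod_cast hJ
  have h6 : J - J' = 0 := by
    by_contra hne
    have h7 := Int.le_of_dvd (abs_pos.2 hne) ((dvd_abs _ _).2 h4)
    omega
  omega

/-- the partner of a point of the chord -/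
theorem partner {f : ℂ[X]} (nc : NcStatement) (hd : 2 ≤ f.natDegree) (hH : Half f P)
    (hinf : ∀ R : ℝ, ∃ M : ℝ, ∀ u : ℂ, M ≤ u.re → R ≤ ‖P u‖) {a₀ b₀ : ℝ} {w₀ : ℂ}
    (hb1 : b₀ < a₀ + 1) (h1 : Land P a₀ w₀) (h2 : Land P b₀ w₀)
    {α : ℝ} (hα : a₀ < α) (hα' : α < b₀) {w : ℂ} (hw : w ≠ w₀) (hαl : Land P α w) {β : ℝ}
    (hβl : Land P β w) : ∃ m : ℤ, a₀ < β + m ∧ β + m < b₀ := by
  refine ⟨-⌊β - a₀⌋, ?_⟩
  have h3 : Land P (β + ((-⌊β - a₀⌋ : ℤ) : ℝ)) w := land_shift hH.per _ hβl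
  have e1 := Int.floor_le (β - a₀)
  have e2 := Int.lt_floor_add_one (β - a₀)
  set y : ℝ := β + ((-⌊β - a₀⌋ : ℤ) : ℝ) with hy
  have hy1 : a₀ ≤ y := by
    rw [hy]
    push_cast
    linarith
  have hy2 : y < a₀ + 1 := by
    rw [hy]
    push_cast
    linarith
  have n1 : y ≠ a₀ := by
    intro h
    rw [h] at h3
    exact hw (land_unique h3 h1)
  have n2 : y ≠ b₀ := by
    intro h
    rw [h] at h3
    exact hw (land_unique h3 h2)
  refine ⟨lt_of_le_of_ne hy1 (Ne.symm n1), ?_⟩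
  by_contra hlt
  have h4 : b₀ < y := lt_of_le_of_ne (not_lt.1 hlt) (Ne.symm n2)
  exact nc f P hd hH hinf a₀ b₀ α y w₀ w h1 h2 hαl h3 (Ne.symm hw) hα hα' h4 hy2

/-- the control of a ray -/
theorem ray {κ l₀ s₁ s₀ N t : ℝ} {w : ℂ} (hN : 0 < N) (hs₁ : 0 < s₁) (hN1 : 1 / N ≤ s₀)
    (hl : 1 ≤ N * l₀)
    (h1 : ∀ s : ℝ, 0 < s → s * N ≤ s₁ → ‖P (s + t * Complex.I) - w‖ ≤ κ)
    (h2 : ∀ s s' : ℝ, 1 ≤ s * N → s ≤ l₀ → 1 ≤ s' * N → s' ≤ l₀ →
      ‖P (s + t * Complex.I) - P (s' + t * Complex.I)‖ ≤ κ)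
    (h3 : ∀ u v : ℂ, 0 < u.re → u.re ≤ s₀ → min s₁ 1 * u.re ≤ v.re → v.re ≤ u.re →
      |u.im - v.im| ≤ u.re → ‖P u - P v‖ ≤ κ) (s : ℝ) (hs : 0 < s) (hs' : s ≤ l₀) :
    ‖P (s + t * Complex.I) - w‖ ≤ 3 * κ := by
  have hκ : 0 ≤ κ := (norm_nonneg _).trans (h1 (s₁ / N) (div_pos hs₁ hN) (by
    rw [div_mul_cancel₀ _ hN.ne']))
  have hre : ∀ s : ℝ, ((s : ℂ) + (t : ℂ) * Complex.I).re = s := fun s => by simp
  have him : ∀ s : ℝ, ((s : ℂ) + (t : ℂ) * Complex.I).im = t := fun s => by simp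
  have hN0 : 0 < 1 / N := by positivity
  have hm0 : 0 < min s₁ 1 := lt_min hs₁ one_pos
  -- below the height 1 / N
  have h4 : ∀ s : ℝ, min s₁ 1 * (1 / N) ≤ s → s ≤ 1 / N →
      ‖P ((1 / N : ℝ) + t * Complex.I) - P (s + t * Complex.I)‖ ≤ κ := by
    intro s hs1 hs2
    refine h3 _ _ ?_ ?_ ?_ ?_ ?_
    · rw [hre]
      exact hN0
    · rw [hre]
      exact hN1
    · rw [hre, hre]
      exact hs1
    · rw [hre, hre]
      exact hs2
    · rw [him, him, hre, sub_self, abs_zero]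
      exact hN0.le
  have h5 : ‖P ((min s₁ 1 * (1 / N) : ℝ) + t * Complex.I) - w‖ ≤ κ := by
    refine h1 _ (mul_pos hm0 hN0) ?_
    rw [mul_assoc, one_div, inv_mul_cancel₀ hN.ne', mul_one]
    exact min_le_left _ _
  have h6 : ‖P ((1 / N : ℝ) + t * Complex.I) - w‖ ≤ 2 * κ := by
    have h7 := h4 (min s₁ 1 * (1 / N)) le_rfl (by
      have := mul_le_mul_of_nonneg_right (min_le_right s₁ 1) hN0.le
      linarith)
    have h8 := norm_sub_le_norm_sub_add_norm_sub (P ((1 / N : ℝ) + t * Complex.I))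
      (P ((min s₁ 1 * (1 / N) : ℝ) + t * Complex.I)) w
    linarith
  rcases le_or_gt (1 / N) s with h | h
  · have h7 := h2 s (1 / N) (by
      rw [div_le_iff₀ hN] at h
      linarith) hs' (by rw [one_div, inv_mul_cancel₀ hN.ne']) (by
      rw [div_le_iff₀ hN]
      linarith [mul_comm N l₀])
    have h8 := norm_sub_le_norm_sub_add_norm_sub (P (s + t * Complex.I))
      (P ((1 / N : ℝ) + t * Complex.I)) w
    linarith
  · rcases le_or_gt (min s₁ 1 * (1 / N)) s with h' | h'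
    · have h7 := h4 s h' h.le
      rw [norm_sub_rev] at h7
      have h8 := norm_sub_le_norm_sub_add_norm_sub (P (s + t * Complex.I))
        (P ((1 / N : ℝ) + t * Complex.I)) w
      linarith
    · have h7 := h1 s hs (by
        have h9 : s ≤ min s₁ 1 * (1 / N) := h'.le
        have h10 : s * N ≤ min s₁ 1 * (1 / N) * N := mul_le_mul_of_nonneg_right h9 hN.le
        rw [mul_assoc, one_div, inv_mul_cancel₀ hN.ne', mul_one] at h10
        exact h10.trans (min_le_left _ _))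
      linarith

/-- a pair of controlled rays gives small oscillation -/
theorem osc_of {f : ℂ[X]} (jac : JacStatement) (hd : 2 ≤ f.natDegree) (hH : Half f P)
    (hinf : ∀ R : ℝ, ∃ M : ℝ, ∀ u : ℂ, M ≤ u.re → R ≤ ‖P u‖) {κ l₀ s₀ α β : ℝ} {w : ℂ}
    (hκ : 0 < κ) (hl : 0 < l₀) (hl1 : l₀ ≤ 1 / 4) (hls : l₀ ≤ s₀) (hαβ : α < β)
    (hβ : β ≤ α + l₀) (h1 : Land P α w) (h2 : Land P β w)
    (c1 : ∀ s : ℝ, 0 < s → s ≤ l₀ → ‖P (s + α * Complex.I) - w‖ ≤ 3 * κ)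
    (c2 : ∀ s : ℝ, 0 < s → s ≤ l₀ → ‖P (s + β * Complex.I) - w‖ ≤ 3 * κ)
    (h3 : ∀ u v : ℂ, 0 < u.re → u.re ≤ s₀ → 1 * u.re ≤ v.re → v.re ≤ u.re →
      |u.im - v.im| ≤ u.re → ‖P u - P v‖ ≤ κ) : ∃ t : ℝ, Osc P (10 * κ) t := by
  have key := jac f P hd hH hinf α β l₀ (5 * κ) w hαβ (by linarith) hl (by linarith) h1 h2
    (fun s hs hs' => ⟨by linarith [c1 s hs hs'], by linarith [c2 s hs hs']⟩) (by
      intro τ hτ
      have hre : ∀ t : ℝ, ((l₀ : ℂ) + (t : ℂ) * Complex.I).re = l₀ := fun t => by simp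
      have him : ∀ t : ℝ, ((l₀ : ℂ) + (t : ℂ) * Complex.I).im = t := fun t => by simp
      have h4 := h3 (l₀ + α * Complex.I) (l₀ + τ * Complex.I) (by rw [hre]; exact hl)
        (by rw [hre]; exact hls) (by rw [hre, hre, one_mul]) (by rw [hre, hre]) (by
          rw [him, him, hre, abs_le]
          constructor <;> linarith [hτ.1, hτ.2])
      have h5 := c1 l₀ hl le_rfl
      have h6 := norm_sub_le_norm_sub_add_norm_sub (P (l₀ + τ * Complex.I))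
        (P (l₀ + α * Complex.I)) w
      rw [norm_sub_rev] at h4
      linarith)
  refine ⟨(α + β) / 2, {u : ℂ | u.re < l₀ ∧ α < u.im ∧ u.im < β}, ?_, ?_⟩
  · have ho : IsOpen {u : ℂ | u.re < l₀ ∧ α < u.im ∧ u.im < β} :=
      (isOpen_lt Complex.continuous_re continuous_const).inter
        ((isOpen_lt continuous_const Complex.continuous_im).inter
          (isOpen_lt Complex.continuous_im continuous_const))
    refine ho.mem_nhds ⟨?_, ?_, ?_⟩
    · simpa using hl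
    · have : (((((α + β) / 2 : ℝ) : ℂ)) * Complex.I).im = (α + β) / 2 := by simp
      rw [this]
      linarith
    · have : (((((α + β) / 2 : ℝ) : ℂ)) * Complex.I).im = (α + β) / 2 := by simp
      rw [this]
      linarith
  · rintro u ⟨⟨hu1, hu2, hu3⟩, hu⟩ v ⟨⟨hv1, hv2, hv3⟩, hv⟩
    have h7 := key u hu hu1 hu2 hu3
    have h8 := key v hv hv1 hv2 hv3
    have h9 := norm_sub_le_norm_sub_add_norm_sub (P u) w (P v)
    rw [norm_sub_rev w (P v)] at h9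
    linarith

/-- The ray piece of the index `J` is long. -/
def Bad (P : ℂ → ℂ) (κ l₀ N c : ℝ) (J : ℤ) : Prop :=
  ∃ s s' : ℝ, 1 ≤ s * N ∧ s ≤ l₀ ∧ 1 ≤ s' * N ∧ s' ≤ l₀ ∧
    κ < ‖P (s + ((c + J) / N : ℝ) * Complex.I) - P (s' + ((c + J) / N : ℝ) * Complex.I)‖

theorem not_bad {κ l₀ N c : ℝ} {J : ℤ} (h : ¬ Bad P κ l₀ N c J) (s s' : ℝ) (h1 : 1 ≤ s * N)
    (h2 : s ≤ l₀) (h3 : 1 ≤ s' * N) (h4 : s' ≤ l₀) :
    ‖P (s + ((c + J) / N : ℝ) * Complex.I) - P (s' + ((c + J) / N : ℝ) * Complex.I)‖ ≤ κ := by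
  by_contra h5
  exact h ⟨s, s', h1, h2, h3, h4, not_le.1 h5⟩

end Bia60

open Bia60 in
/-- **Row BIA.** -/
theorem bia (bin : BinStatement) (uns : UnsStatement) (nc : NcStatement) (cnt : CntStatement)
    (sho : ShoStatement) (len : LenStatement) (hyp : HypStatement) (jac : JacStatement) :
    BiaStatement := by
  intro f P hd hH hinf hbi δ hδ
  classical
  obtain ⟨κ, hκd⟩ : ∃ κ : ℝ, κ = δ / 16 := ⟨_, rfl⟩
  have hκ : 0 < κ := by
    rw [hκd]
    positivity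
  obtain ⟨l₁, hl₁, hlen⟩ := len f P hd hH κ (1 / 8) hκ (by norm_num)
  obtain ⟨s₂, hs₂, hhyp1⟩ := hyp f P hd hH κ 1 hκ one_pos
  obtain ⟨a₀, b₀, w₀, hab, hab', hla, hlb⟩ := sho f P hd hH hinf hbi (min (min l₁ s₂) (1 / 4))
    (lt_min (lt_min hl₁ hs₂) (by norm_num))
  obtain ⟨l₀, hl₀⟩ : ∃ l₀ : ℝ, l₀ = b₀ - a₀ := ⟨_, rfl⟩
  have hl : 0 < l₀ := by linarith
  have hll : l₀ ≤ min (min l₁ s₂) (1 / 4) := by linarith
  have hl1 : l₀ ≤ l₁ := hll.trans ((min_le_left _ _).trans (min_le_left _ _))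
  have hl2 : l₀ ≤ s₂ := hll.trans ((min_le_left _ _).trans (min_le_right _ _))
  have hl4 : l₀ ≤ 1 / 4 := hll.trans (min_le_right _ _)
  obtain ⟨d, hdd⟩ : ∃ d : ℕ, d = f.natDegree := ⟨_, rfl⟩
  rw [← hdd] at hd hlen
  have hd1 : (1 : ℝ) < d := by exact_mod_cast (show 1 < d by omega)
  have hd0 : (0 : ℝ) < d := by linarith
  obtain ⟨m₀, hm₀⟩ := pow_unbounded_of_one_lt (8 * d / l₀) hd1
  -- the base pair
  have hder : f.derivative ≠ 0 := by
    intro h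
    have h1 := Polynomial.natDegree_eq_zero_of_derivative_eq_zero h
    omega
  obtain ⟨z, ⟨a, b, hza, hzb, hne⟩, hzE⟩ := bin f P (hdd ▸ hd) hH hbi
    ((Finset.range m₀).biUnion fun k =>
      f.derivative.roots.toFinset.image fun c => (fun w => f.eval w)^[k + 1] c)
  obtain ⟨s₁, W, hs₁, hW0, hWc, huns⟩ := uns f P (hdd ▸ hd) hH m₀ a b z hza hzb hne (by
    intro c hc k hk h
    apply hzE
    rw [Finset.mem_biUnion]
    refine ⟨k, Finset.mem_range.2 hk, Finset.mem_image.2 ⟨c, ?_, h⟩⟩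
    rw [Multiset.mem_toFinset, Polynomial.mem_roots hder]
    exact hc)
  obtain ⟨M, B, hB, huns⟩ := huns κ hκ
  obtain ⟨s₃, hs₃, hhyp2⟩ := hyp f P (hdd ▸ hd) hH κ (min s₁ 1) hκ (lt_min hs₁ one_pos)
  rw [← hdd] at hWc huns
  obtain ⟨n, hn⟩ := pow_unbounded_of_one_lt (max (8 * (M + 4) / l₀) (1 / s₃)) hd1
  obtain ⟨w, hwinj, hw⟩ := huns n
  obtain ⟨N, hN⟩ : ∃ N : ℕ, N = d ^ n := ⟨_, rfl⟩
  have hNr : (d : ℝ) ^ n = (N : ℝ) := by
    rw [hN]
    push_cast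
    rfl
  have hNpos : 0 < N := by
    rw [hN]
    exact pow_pos (by omega) n
  have hNr0 : (0 : ℝ) < N := by exact_mod_cast hNpos
  have hlen' := fun c : ℝ => hlen c a₀ b₀ n
  rw [← hN] at hwinj
  simp only [← hN] at hw
  simp only [hNr] at hw hn hlen'
  have hn1 : 8 * ((M : ℝ) + 4) < N * l₀ := by
    have h1 := (le_max_left _ _).trans_lt hn
    rwa [div_lt_iff₀ hl] at h1
  have hn2 : 1 / (N : ℝ) ≤ s₃ := by
    have h1 := (le_max_right _ _).trans_lt hn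
    rw [div_lt_iff₀ hs₃] at h1
    rw [div_le_iff₀ hNr0]
    linarith
  have hM0 : (0 : ℝ) ≤ M := Nat.cast_nonneg M
  have hNl : 1 ≤ (N : ℝ) * l₀ := by linarith
  -- the indices of the `a`-rays in the chord
  obtain ⟨T, hT⟩ : ∃ T : Finset ℤ, T = Finset.Ioo ⌊a₀ * N - a⌋ ⌈b₀ * N - a⌉ := ⟨_, rfl⟩
  have hTm : ∀ J : ℤ, J ∈ T ↔ a₀ < (a + J) / N ∧ (a + J) / N < b₀ := by
    intro J
    rw [hT, mem_ints, lt_div_iff₀ hNr0, div_lt_iff₀ hNr0]
    constructor <;> rintro ⟨h1, h2⟩ <;> constructor <;> linarith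
  have hTc : (N : ℝ) * l₀ - 1 ≤ (T.card : ℝ) := by
    have h1 := card_ints (a₀ * N - a) (b₀ * N - a)
    rw [← hT] at h1
    have h2 : b₀ * N - a - (a₀ * N - a) = N * l₀ := by
      rw [hl₀]
      ring
    linarith
  have hTi : ∀ J ∈ T, ∀ J' ∈ T, rs N J = rs N J' → J = J' := by
    intro J hJ J' hJ' h
    refine rs_inj hNpos h ?_
    obtain ⟨h1, h2⟩ := (hTm J).1 hJ
    obtain ⟨h3, h4⟩ := (hTm J').1 hJ'
    rw [lt_div_iff₀ hNr0] at h1 h3
    rw [div_lt_iff₀ hNr0] at h2 h4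
    have h5 : (b₀ - a₀) * N < N := by
      have h6 : b₀ - a₀ < 1 := by linarith
      have h7 := mul_lt_mul_of_pos_right h6 hNr0
      linarith
    rw [abs_lt]
    constructor <;> linarith
  -- the rays of an index
  have hA : ∀ J : ℤ, Reg d W n (rs N J) → Land P ((a + J) / N) (w (rs N J)) ∧
      (rs N J ∉ B n → ∀ s : ℝ, 0 < s → s * N ≤ s₁ →
        ‖P (s + ((a + J) / N : ℝ) * Complex.I) - w (rs N J)‖ ≤ κ) := by
    intro J hJ
    obtain ⟨j', h1, h2, h3⟩ := hw (rs N J) (rs_lt hNpos J) hJ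
    rw [rs_eq hNpos J a]
    refine ⟨land_shift hH.per _ h1, fun hB s hs hs' => ?_⟩
    rw [per_ray hH.per]
    exact (h3 hB s hs hs').1
  have hPar : ∀ J : ℤ, ∃ I : ℤ, J ∈ T → Reg d W n (rs N J) → w (rs N J) ≠ w₀ →
      a₀ < (b + I) / N ∧ (b + I) / N < b₀ ∧ Land P ((b + I) / N) (w (rs N J)) ∧
      (rs N J ∉ B n → ∀ s : ℝ, 0 < s → s * N ≤ s₁ →
        ‖P (s + ((b + I) / N : ℝ) * Complex.I) - w (rs N J)‖ ≤ κ) := by
    intro J
    by_cases h0 : J ∈ T ∧ Reg d W n (rs N J) ∧ w (rs N J) ≠ w₀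
    · obtain ⟨hJ, hr, hw0⟩ := h0
      obtain ⟨j', h1, h2, h3⟩ := hw (rs N J) (rs_lt hNpos J) hr
      obtain ⟨h4, h5⟩ := (hTm J).1 hJ
      obtain ⟨m, h6, h7⟩ := partner nc (hdd ▸ hd) hH hinf (by linarith) hla hlb h4 h5 hw0
        (hA J hr).1 h2
      have h8 : (b + ((j' + N * m : ℤ) : ℝ)) / (N : ℝ) = (b + j') / N + m := by
        push_cast
        field_simp
        ring
      refine ⟨j' + N * m, fun _ _ _ => ?_⟩
      rw [h8]
      refine ⟨h6, h7, land_shift hH.per _ h2, fun hB s hs hs' => ?_⟩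
      rw [per_ray hH.per]
      exact (h3 hB s hs hs').2
    · exact ⟨0, fun h1 h2 h3 => absurd ⟨h1, h2, h3⟩ h0⟩
  choose I hI using hPar
  -- a good index
  obtain ⟨J, hJT, hJr, hJB, hJw, hJa, hJb⟩ : ∃ J ∈ T, Reg d W n (rs N J) ∧ rs N J ∉ B n ∧
      w (rs N J) ≠ w₀ ∧ ¬ Bad P κ l₀ N a J ∧ ¬ Bad P κ l₀ N b (I J) := by
    by_contra hcon
    have hcard : ∀ (A : Finset ℤ), A ⊆ T → (A.image (rs N)).card = A.card := fun A hA =>
      Finset.card_image_of_injOn fun J hJ J' hJ' h => hTi J (hA hJ) J' (hA hJ') h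
    obtain ⟨T1, hT1⟩ : ∃ A : Finset ℤ, A = T.filter fun J => ¬ Reg d W n (rs N J) := ⟨_, rfl⟩
    obtain ⟨T2, hT2⟩ : ∃ A : Finset ℤ, A = T.filter fun J => rs N J ∈ B n := ⟨_, rfl⟩
    obtain ⟨T3, hT3⟩ : ∃ A : Finset ℤ, A = T.filter fun J =>
      Reg d W n (rs N J) ∧ w (rs N J) = w₀ := ⟨_, rfl⟩
    obtain ⟨T4, hT4⟩ : ∃ A : Finset ℤ, A = T.filter fun J => Bad P κ l₀ N a J := ⟨_, rfl⟩
    obtain ⟨T5, hT5⟩ : ∃ A : Finset ℤ, A = T.filter fun J =>
      Reg d W n (rs N J) ∧ w (rs N J) ≠ w₀ ∧ Bad P κ l₀ N b (I J) := ⟨_, rfl⟩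
    have hsub : T ⊆ T1 ∪ (T2 ∪ (T3 ∪ (T4 ∪ T5))) := by
      intro J hJ
      by_contra h
      rw [Finset.mem_union, Finset.mem_union, Finset.mem_union, Finset.mem_union, hT1, hT2, hT3,
        hT4, hT5, Finset.mem_filter, Finset.mem_filter, Finset.mem_filter, Finset.mem_filter,
        Finset.mem_filter] at h
      push Not at h
      obtain ⟨g1, g2, g3, g4, g5⟩ := h
      exact hcon ⟨J, hJ, g1 hJ, g2 hJ, g3 hJ (g1 hJ), g4 hJ, g5 hJ (g1 hJ) (g3 hJ (g1 hJ))⟩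
    have hle : T.card ≤ T1.card + (T2.card + (T3.card + (T4.card + T5.card))) := by
      refine (Finset.card_le_card hsub).trans ((Finset.card_union_le _ _).trans ?_)
      refine Nat.add_le_add_left ((Finset.card_union_le _ _).trans ?_) _
      refine Nat.add_le_add_left ((Finset.card_union_le _ _).trans ?_) _
      exact Nat.add_le_add_left (Finset.card_union_le _ _) _
    -- irregular indices
    have k1 : (T1.card : ℝ) ≤ N * l₀ / 8 := by
      have h1 := cnt d m₀ n W hd hW0 hWc (T1.image (rs N)) (by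
        intro j hj
        obtain ⟨J, hJ, rfl⟩ := Finset.mem_image.1 hj
        rw [hT1, Finset.mem_filter] at hJ
        rw [← hN]
        exact ⟨rs_lt hNpos J, hJ.2⟩)
      rw [hcard T1 (by rw [hT1]; exact Finset.filter_subset _ _)] at h1
      have h2 : (T1.card : ℝ) * (d : ℝ) ^ m₀ ≤ N * d := by
        have h3 : ((T1.card * d ^ m₀ : ℕ) : ℝ) ≤ ((d ^ (n + 1) : ℕ) : ℝ) := by exact_mod_cast h1
        push_cast at h3
        rw [pow_succ, hNr] at h3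
        exact h3
      have h4 : (T1.card : ℝ) * (8 * d / l₀) ≤ N * d :=
        (mul_le_mul_of_nonneg_left hm₀.le (Nat.cast_nonneg _)).trans h2
      have h5 : (T1.card : ℝ) * 8 * d ≤ N * l₀ * d := by
        have h6 := mul_le_mul_of_nonneg_right h4 hl.le
        have h7 : (T1.card : ℝ) * (8 * d / l₀) * l₀ = T1.card * 8 * d := by
          field_simp
        rw [h7] at h6
        linarith
      have h8 := le_of_mul_le_mul_right h5 hd0
      linarith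
    have k2 : (T2.card : ℝ) ≤ M := by
      have h1 : (T2.image (rs N)) ⊆ B n := by
        intro j hj
        obtain ⟨J, hJ, rfl⟩ := Finset.mem_image.1 hj
        rw [hT2, Finset.mem_filter] at hJ
        exact hJ.2
      have h2 := (Finset.card_le_card h1).trans (hB n)
      rw [hcard T2 (by rw [hT2]; exact Finset.filter_subset _ _)] at h2
      exact_mod_cast h2
    have hinjw : ∀ J ∈ T, ∀ J' ∈ T, Reg d W n (rs N J) → Reg d W n (rs N J') →
        w (rs N J) = w (rs N J') → J = J' := fun J hJ J' hJ' hr hr' h =>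
      hTi J hJ J' hJ' (hwinj _ _ (rs_lt hNpos J) (rs_lt hNpos J') hr hr' h)
    have k3 : (T3.card : ℝ) ≤ 1 := by
      have h1 : T3.card ≤ 1 := by
        rw [Finset.card_le_one]
        intro J hJ J' hJ'
        rw [hT3, Finset.mem_filter] at hJ hJ'
        exact hinjw J hJ.1 J' hJ'.1 hJ.2.1 hJ'.2.1 (hJ.2.2.trans hJ'.2.2.symm)
      exact_mod_cast h1
    have k4 : (T4.card : ℝ) ≤ 1 / 8 * (N * l₀) := by
      rw [hl₀]
      refine hlen' a T4 hab (by linarith) (by rw [← hl₀]; exact hNl) ?_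
      intro J hJ
      rw [hT4, Finset.mem_filter] at hJ
      obtain ⟨h1, h2⟩ := (hTm J).1 hJ.1
      obtain ⟨s, s', g1, g2, g3, g4, g5⟩ := hJ.2
      exact ⟨h1, h2, s, s', g1, hl₀ ▸ g2, g3, hl₀ ▸ g4, g5⟩
    have k5 : (T5.card : ℝ) ≤ 1 / 8 * (N * l₀) := by
      have hinj5 : (T5.image I).card = T5.card := by
        refine Finset.card_image_of_injOn fun J hJ J' hJ' h => ?_
        rw [Finset.mem_coe, hT5, Finset.mem_filter] at hJ hJ'
        have g1 := (hI J hJ.1 hJ.2.1 hJ.2.2.1).2.2.1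
        have g2 := (hI J' hJ'.1 hJ'.2.1 hJ'.2.2.1).2.2.1
        have h' : I J = I J' := h
        rw [← h'] at g2
        exact hinjw J hJ.1 J' hJ'.1 hJ.2.1 hJ'.2.1 (land_unique g1 g2)
      rw [← hinj5, hl₀]
      refine hlen' b (T5.image I) hab (by linarith) (by rw [← hl₀]; exact hNl) ?_
      intro j hj
      obtain ⟨J, hJ, rfl⟩ := Finset.mem_image.1 hj
      rw [hT5, Finset.mem_filter] at hJ
      obtain ⟨h1, h2, -, -⟩ := hI J hJ.1 hJ.2.1 hJ.2.2.1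
      obtain ⟨s, s', g1, g2, g3, g4, g5⟩ := hJ.2.2.2
      exact ⟨h1, h2, s, s', g1, hl₀ ▸ g2, g3, hl₀ ▸ g4, g5⟩
    have hle' : (T.card : ℝ) ≤ T1.card + (T2.card + (T3.card + (T4.card + T5.card))) := by
      exact_mod_cast hle
    linarith
  -- the end
  obtain ⟨hα1, hα2⟩ := (hTm J).1 hJT
  obtain ⟨hαl, hαc⟩ := hA J hJr
  obtain ⟨hβ1, hβ2, hβl, hβc⟩ := hI J hJT hJr hJw
  have cα := ray (P := P) (κ := κ) (l₀ := l₀) (s₁ := s₁) (s₀ := s₃) (N := N)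
    (t := (a + J) / N) (w := w (rs N J)) hNr0 hs₁ hn2 hNl (hαc hJB) (not_bad hJa) hhyp2
  have cβ := ray (P := P) (κ := κ) (l₀ := l₀) (s₁ := s₁) (s₀ := s₃) (N := N)
    (t := (b + I J) / N) (w := w (rs N J)) hNr0 hs₁ hn2 hNl (hβc hJB) (not_bad hJb) hhyp2
  have hne' : (a + J) / (N : ℝ) ≠ (b + I J) / N := by
    intro h
    rw [div_left_inj' hNr0.ne'] at h
    apply hne (J - I J)
    push_cast
    linarith
  have hfin : ∃ t : ℝ, Osc P (10 * κ) t := by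
    rcases lt_or_gt_of_ne hne' with h | h
    · exact osc_of jac (hdd ▸ hd) hH hinf hκ hl hl4 hl2 h (by linarith) hαl hβl cα cβ hhyp1
    · exact osc_of jac (hdd ▸ hd) hH hinf hκ hl hl4 hl2 h (by linarith) hβl hαl cβ cα hhyp1
  obtain ⟨t, Nb, hNb, ho⟩ := hfin
  refine ⟨t, Nb, hNb, fun u hu v hv => (ho u hu v hv).trans ?_⟩
  rw [hκd]
  linarith

end Pool.Agent.Imp
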