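import Pool.Agent.Lib.MP_1c105c_an.Defs

/-! EXC: the set of limits is completely invariant, hence infinite. -/

set_option autoImplicit false

open Filter Topology Set Polynomial

namespace Pool.Agent.Imp

namespace Exc

lemma per_nat {P : ℂ → ℂ} (per : ∀ u, P (u + Complex.I) = P u) (j : ℕ) (u : ℂ) :
    P (u + j * Complex.I) = P u := by
  induction j with
  | zero => simp
  | succ k ih =>
    have : u + ((k + 1 : ℕ) : ℂ) * Complex.I = (u + k * Complex.I) + Complex.I := by
      push_cast; ring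
    rw [this, per, ih]

lemma lim_nat {P : ℂ → ℂ} (h : ∀ (t : ℝ) (z : ℂ), HasLim P (t + 1) z ↔ HasLim P t z)
    (j : ℕ) (t : ℝ) (z : ℂ) (hz : HasLim P t z) : HasLim P (t + j) z := by
  induction j with
  | zero => simpa using hz
  | succ k ih =>
    have : t + ((k + 1 : ℕ) : ℝ) = (t + k) + 1 := by push_cast; ring
    rw [this, h]; exact ih

lemma branch_mem {d : ℕ} (hd : 0 < d) {u : ℂ} (hu : u ∈ HP) (j : ℕ) :
    (u + j * Complex.I) / d ∈ HP := by
  have hd' : (0 : ℝ) < d := by exact_mod_cast hd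
  have : ((u + j * Complex.I) / (d : ℂ)).re = u.re / d := by
    have h1 : (u + j * Complex.I) / (d : ℂ) = (u + j * Complex.I) / ((d : ℝ) : ℂ) := by
      push_cast; rfl
    rw [h1, Complex.div_ofReal_re]
    simp
  show 0 < ((u + j * Complex.I) / (d : ℂ)).re
  rw [this]
  exact div_pos hu hd'

lemma branch_inj {f : ℂ[X]} {P : ℂ → ℂ} (hP : Half f P) {d : ℕ} (hd : 0 < d) {u : ℂ}
    (hu : u ∈ HP) : Set.InjOn (fun j : ℕ => P ((u + j * Complex.I) / d)) (Finset.range d) := by
  intro j hj k hk h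
  have hj' : j < d := by simpa using hj
  have hk' : k < d := by simpa using hk
  obtain ⟨m, hm⟩ := hP.inj _ (branch_mem hd hu j) _ (branch_mem hd hu k) h
  have hd0 : (d : ℂ) ≠ 0 := by exact_mod_cast hd.ne'
  have h2 : (j : ℂ) = k + m * d := by
    field_simp at hm
    have h3 : Complex.I * (j : ℂ) = Complex.I * (k + m * d) := by linear_combination hm
    exact mul_left_cancel₀ Complex.I_ne_zero h3
  have h4 : (j : ℤ) = k + m * d := by exact_mod_cast h2
  have h5 : m = 0 := by
    rcases lt_trichotomy m 0 with h | h | h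
    · exfalso; nlinarith
    · exact h
    · exfalso; nlinarith
  rw [h5] at h4
  simpa using h4

/-- The preimages of `P u`. -/
lemma factor {f : ℂ[X]} {P : ℂ → ℂ} (hd : 2 ≤ f.natDegree) (hP : Half f P) {u : ℂ}
    (hu : u ∈ HP) (w : ℂ) :
    f.eval w - P u = f.leadingCoeff *
      ∏ j ∈ Finset.range f.natDegree, (w - P ((u + j * Complex.I) / f.natDegree)) := by
  have hd0 : 0 < f.natDegree := by omega
  have hdc : (f.natDegree : ℂ) ≠ 0 := by exact_mod_cast hd0.ne'
  have hpd : (f - C (P u)).natDegree = f.natDegree := natDegree_sub_C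
  have hlc : (f - C (P u)).leadingCoeff = f.leadingCoeff := by
    rw [leadingCoeff, hpd, coeff_sub, coeff_C, if_neg hd0.ne', sub_zero, leadingCoeff]
  have hp0 : f - C (P u) ≠ 0 := by
    intro h
    rw [h] at hpd
    simp at hpd
    omega
  have hinj := branch_inj hP hd0 hu
  have hle : ((Finset.range f.natDegree).image
      (fun j : ℕ => P ((u + j * Complex.I) / f.natDegree))).val ≤ (f - C (P u)).roots := by
    rw [Multiset.le_iff_subset (Finset.nodup _)]
    intro x hx
    have hx' : x ∈ (Finset.range f.natDegree).image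
      (fun j : ℕ => P ((u + j * Complex.I) / f.natDegree)) := hx
    rw [Finset.mem_image] at hx'
    obtain ⟨j, hj, rfl⟩ := hx'
    rw [mem_roots hp0, IsRoot.def, eval_sub, eval_C, hP.semi _ (branch_mem hd0 hu j)]
    rw [mul_div_cancel₀ _ hdc, per_nat hP.per, sub_self]
  have hcard : ((Finset.range f.natDegree).image
      (fun j : ℕ => P ((u + j * Complex.I) / f.natDegree))).card = f.natDegree := by
    rw [Finset.card_image_of_injOn hinj, Finset.card_range]
  have heq : ((Finset.range f.natDegree).image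
      (fun j : ℕ => P ((u + j * Complex.I) / f.natDegree))).val = (f - C (P u)).roots := by
    apply Multiset.eq_of_le_of_card_le hle
    have h1 := card_roots' (f - C (P u))
    rw [hpd] at h1
    calc Multiset.card (f - C (P u)).roots ≤ f.natDegree := h1
      _ = _ := hcard.symm
  have hrc : Multiset.card (f - C (P u)).roots = (f - C (P u)).natDegree := by
    rw [← heq, hpd]; exact hcard
  have hprod := C_leadingCoeff_mul_prod_multiset_X_sub_C hrc
  have hev := congrArg (fun p => p.eval w) hprod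
  simp only [eval_mul, eval_C, eval_multiset_prod, Multiset.map_map, eval_sub] at hev
  rw [hlc, ← heq] at hev
  rw [← hev]
  congr 1
  have h3 : (Multiset.map ((fun p : ℂ[X] => eval w p) ∘ fun a => X - C a)
      ((Finset.range f.natDegree).image
      (fun j : ℕ => P ((u + j * Complex.I) / f.natDegree))).val).prod =
      ∏ x ∈ (Finset.range f.natDegree).image
      (fun j : ℕ => P ((u + j * Complex.I) / f.natDegree)), (w - x) := by
    rw [Finset.prod_eq_multiset_prod]
    congr 1
    apply Multiset.map_congr rfl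
    intro x _
    simp
  rw [h3, Finset.prod_image]
  intro a ha b hb h
  exact hinj ha hb h

lemma neBot (t : ℝ) : (𝓝[HP] ((t : ℂ) * Complex.I)).NeBot := by
  rw [← mem_closure_iff_nhdsWithin_neBot]
  have : closure HP = {z : ℂ | (0 : ℝ) ≤ z.re} := Complex.closure_setOf_lt_re 0
  rw [this]
  simp

lemma branch_tendsto {d : ℕ} (hd : 0 < d) (t : ℝ) (j : ℕ) :
    Tendsto (fun u : ℂ => (u + j * Complex.I) / d) (𝓝[HP] ((t : ℂ) * Complex.I))
      (𝓝[HP] ((((t + j) / d : ℝ) : ℂ) * Complex.I)) := by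
  rw [tendsto_nhdsWithin_iff]
  refine ⟨?_, ?_⟩
  · have hc : Continuous (fun u : ℂ => (u + j * Complex.I) / d) := by
      exact (continuous_id.add continuous_const).div_const _
    have h1 := (hc.tendsto ((t : ℂ) * Complex.I)).mono_left
      (nhdsWithin_le_nhds (s := HP))
    have h2 : ((t : ℂ) * Complex.I + j * Complex.I) / d =
        (((t + j) / d : ℝ) : ℂ) * Complex.I := by
      push_cast
      ring
    rw [h2] at h1
    exact h1
  · filter_upwards [self_mem_nhdsWithin] with u hu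
    exact branch_mem hd hu j

/-- The preimages of a limit are limits. -/
lemma lim_factor {f : ℂ[X]} {P : ℂ → ℂ} (inv : InvStatement) (hd : 2 ≤ f.natDegree)
    (hP : Half f P) {t : ℝ} {z : ℂ} (hz : HasLim P t z) :
    ∃ y : ℕ → ℂ, (∀ j : ℕ, f.eval (y j) = z) ∧
      (∀ j : ℕ, HasLim P ((t + (j : ℝ)) / f.natDegree) (y j)) ∧
      ∀ w, f.eval w - z = f.leadingCoeff * ∏ j ∈ Finset.range f.natDegree, (w - y j) := by
  obtain ⟨h1, -, -, h4, -⟩ := inv f P hd hP
  have hd0 : 0 < f.natDegree := by omega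
  have hdr : (f.natDegree : ℝ) ≠ 0 := by exact_mod_cast hd0.ne'
  have hex : ∀ j : ℕ, ∃ y, f.eval y = z ∧ HasLim P ((t + j) / f.natDegree) y := by
    intro j
    apply h4
    rw [mul_div_cancel₀ _ hdr]
    exact lim_nat h1 j t z hz
  choose y hy1 hy2 using hex
  refine ⟨y, hy1, hy2, ?_⟩
  intro w
  haveI := neBot t
  have hl : Tendsto (fun u => f.eval w - P u) (𝓝[HP] ((t : ℂ) * Complex.I))
      (𝓝 (f.eval w - z)) := tendsto_const_nhds.sub hz
  have hr : Tendsto (fun u => f.leadingCoeff *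
      ∏ j ∈ Finset.range f.natDegree, (w - P ((u + j * Complex.I) / f.natDegree)))
      (𝓝[HP] ((t : ℂ) * Complex.I))
      (𝓝 (f.leadingCoeff * ∏ j ∈ Finset.range f.natDegree, (w - y j))) := by
    apply Tendsto.const_mul
    apply tendsto_finset_prod
    intro j _
    exact tendsto_const_nhds.sub ((hy2 j).comp (branch_tendsto hd0 t j))
  refine tendsto_nhds_unique hl (hr.congr' ?_)
  filter_upwards [self_mem_nhdsWithin] with u hu
  exact (factor hd hP hu w).symm

/-- Near a superattracting fixed point of the form `z + a (w - z) ^ d` orbits are bounded. -/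
lemma mem_filledJulia {f : ℂ[X]} {a z : ℂ} {d : ℕ} (hd : 2 ≤ d)
    (hf : ∀ w, f.eval w - z = a * (w - z) ^ d) {w : ℂ} (hw : ‖w - z‖ ≤ 1 / (‖a‖ + 1)) :
    w ∈ filledJulia f := by
  have ha : 0 < ‖a‖ + 1 := by positivity
  have step : ∀ v : ℂ, ‖v - z‖ ≤ 1 / (‖a‖ + 1) → ‖f.eval v - z‖ ≤ 1 / (‖a‖ + 1) := by
    intro v hv
    have h1 : (1 : ℝ) / (‖a‖ + 1) ≤ 1 := by
      rw [div_le_one ha]
      linarith [norm_nonneg a]
    have h2 : ‖v - z‖ ≤ 1 := hv.trans h1
    have h3 : ‖v - z‖ ^ d ≤ ‖v - z‖ ^ 2 := pow_le_pow_of_le_one (norm_nonneg _) h2 hd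
    rw [hf v, norm_mul, norm_pow]
    calc ‖a‖ * ‖v - z‖ ^ d ≤ ‖a‖ * ‖v - z‖ ^ 2 :=
          mul_le_mul_of_nonneg_left h3 (norm_nonneg _)
      _ = (‖a‖ * ‖v - z‖) * ‖v - z‖ := by ring
      _ ≤ 1 * (1 / (‖a‖ + 1)) := by
          apply mul_le_mul _ hv (norm_nonneg _) zero_le_one
          calc ‖a‖ * ‖v - z‖ ≤ (‖a‖ + 1) * (1 / (‖a‖ + 1)) :=
                mul_le_mul (by linarith) hv (norm_nonneg _) ha.le
            _ = 1 := by field_simp
      _ = 1 / (‖a‖ + 1) := one_mul _
  have hit : ∀ n : ℕ, ‖(fun w => f.eval w)^[n] w - z‖ ≤ 1 / (‖a‖ + 1) := by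
    intro n
    induction n with
    | zero => simpa using hw
    | succ k ih =>
      rw [Function.iterate_succ_apply']
      exact step _ ih
  refine ⟨1 / (‖a‖ + 1) + ‖z‖, fun n => ?_⟩
  calc ‖(fun w => f.eval w)^[n] w‖ = ‖((fun w => f.eval w)^[n] w - z) + z‖ := by
        rw [sub_add_cancel]
    _ ≤ ‖(fun w => f.eval w)^[n] w - z‖ + ‖z‖ := norm_add_le _ _
    _ ≤ _ := by linarith [hit n]

end Exc

open Exc in
theorem exc (inv : InvStatement) : ExcStatement := by
  intro f P hd hP hex E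
  by_contra hcon
  push_neg at hcon
  obtain ⟨t₀, z₀, hz₀⟩ := hex
  obtain ⟨h1, -, h3, h4, -⟩ := inv f P hd hP
  have hd0 : 0 < f.natDegree := by omega
  have hdr : (f.natDegree : ℝ) ≠ 0 := by exact_mod_cast hd0.ne'
  have hlc : f.leadingCoeff ≠ 0 := by
    rw [Ne, leadingCoeff_eq_zero]
    rintro rfl
    simp at hd
  set A : Set ℂ := {z | ∃ t, HasLim P t z} with hA
  have hAE : A ⊆ E := by
    rintro z ⟨t, ht⟩
    exact hcon t z ht
  haveI hfin : Finite A := (E.finite_toSet.subset hAE).to_subtype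
  have hmap : ∀ z ∈ A, f.eval z ∈ A := by
    rintro z ⟨t, ht⟩
    exact ⟨f.natDegree * t, h3 t z ht⟩
  let g : A → A := fun z => ⟨f.eval z.1, hmap z.1 z.2⟩
  have hsurj : Function.Surjective g := by
    rintro ⟨z, t, ht⟩
    have h5 : HasLim P (f.natDegree * (t / f.natDegree)) z := by
      rw [mul_div_cancel₀ _ hdr]; exact ht
    obtain ⟨z', hz', hl⟩ := h4 _ _ h5
    exact ⟨⟨z', t / f.natDegree, hl⟩, Subtype.ext hz'⟩
  have hinj : Function.Injective g := Finite.injective_iff_surjective.mpr hsurj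
  have key : ∀ z ∈ A, ∃ y ∈ A, f.eval y = z ∧
      ∀ w, f.eval w - z = f.leadingCoeff * (w - y) ^ f.natDegree := by
    rintro z ⟨t, ht⟩
    obtain ⟨y, hy1, hy2, hy3⟩ := lim_factor inv hd hP ht
    have hyA : ∀ j, y j ∈ A := fun j => ⟨_, hy2 j⟩
    have heq : ∀ j, y j = y 0 := by
      intro j
      have : g ⟨y j, hyA j⟩ = g ⟨y 0, hyA 0⟩ := Subtype.ext ((hy1 j).trans (hy1 0).symm)
      exact congrArg Subtype.val (hinj this)
    refine ⟨y 0, hyA 0, hy1 0, fun w => ?_⟩
    rw [hy3 w]
    congr 1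
    rw [Finset.prod_congr rfl (fun j _ => by rw [heq j] : ∀ j ∈ Finset.range f.natDegree,
      w - y j = w - y 0), Finset.prod_const, Finset.card_range]
  have poly : ∀ z y : ℂ, (∀ w, f.eval w - z = f.leadingCoeff * (w - y) ^ f.natDegree) →
      ∀ w, f.derivative.eval w =
        f.leadingCoeff * (f.natDegree * (w - y) ^ (f.natDegree - 1)) := by
    intro z y h w
    have hp : f = C z + C f.leadingCoeff * (X - C y) ^ f.natDegree := by
      apply Polynomial.funext
      intro r
      simp only [eval_add, eval_C, eval_mul, eval_pow, eval_sub, eval_X]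
      rw [← h r]; ring
    conv_lhs => rw [hp]
    rw [derivative_add, derivative_C, derivative_C_mul, derivative_X_sub_C_pow]
    simp
  obtain ⟨y, hyA, hfy, hy⟩ := key z₀ ⟨t₀, hz₀⟩
  obtain ⟨x, hxA, hfx, hx⟩ := key y hyA
  have hxy : y = x := by
    have e1 := poly z₀ y hy y
    have e2 := poly y x hx y
    rw [e1, sub_self, zero_pow (by omega : f.natDegree - 1 ≠ 0)] at e2
    have hdc : (f.natDegree : ℂ) ≠ 0 := by exact_mod_cast hd0.ne'
    have e3 : (y - x) ^ (f.natDegree - 1) = 0 := by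
      have : f.leadingCoeff * (f.natDegree * (y - x) ^ (f.natDegree - 1)) = 0 := by
        rw [← e2]; ring
      rcases mul_eq_zero.mp this with h | h
      · exact absurd h hlc
      · rcases mul_eq_zero.mp h with h | h
        · exact absurd h hdc
        · exact h
    exact sub_eq_zero.mp (pow_eq_zero_iff (by omega) |>.mp e3)
  have hzy : z₀ = y := by rw [← hfy, hxy, hfx, hxy]
  rw [← hzy] at hy
  haveI := neBot t₀
  have hball : Metric.closedBall z₀ (1 / (‖f.leadingCoeff‖ + 1)) ∈ 𝓝 z₀ :=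
    Metric.closedBall_mem_nhds _ (by positivity)
  have hev := hz₀.eventually hball
  obtain ⟨u, hu1, hu2⟩ := (hev.and self_mem_nhdsWithin).exists
  have hmem : P u ∈ filledJulia f := by
    apply mem_filledJulia hd hy
    have : dist (P u) z₀ ≤ 1 / (‖f.leadingCoeff‖ + 1) := hu1
    rwa [dist_eq_norm] at this
  have hnot : P u ∈ (filledJulia f)ᶜ := by
    rw [← hP.range]
    exact ⟨u, hu2, rfl⟩
  exact hnot hmem

end Pool.Agent.Imp
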