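import Pool.Agent.Lib.MP_1c105c_an.Defs4
import Pool.Agent.Lib.MP_1c105c_an.Exc

/-! MP_1c105c_an, row BIN: the points where two rays land are not contained in a finite set. -/

set_option autoImplicit false

open Filter Topology Set Polynomial

namespace Pool.Agent.Imp

namespace Bin

/-- A polynomial which takes the value `z` at `y` only. -/
lemma factor_of_unique {f : ℂ[X]} (hd : 2 ≤ f.natDegree) {z y : ℂ}
    (h : ∀ w, f.eval w = z → w = y) (w : ℂ) :
    f.eval w - z = f.leadingCoeff * (w - y) ^ f.natDegree := by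
  have hpd : (f - C z).natDegree = f.natDegree := natDegree_sub_C
  have hlc : (f - C z).leadingCoeff = f.leadingCoeff := by
    rw [leadingCoeff, hpd, coeff_sub, coeff_C, if_neg (by omega), sub_zero, leadingCoeff]
  have hp0 : f - C z ≠ 0 := by
    intro h0
    rw [h0] at hpd
    simp at hpd
    omega
  have hcard : Multiset.card (f - C z).roots = (f - C z).natDegree :=
    splits_iff_card_roots.1 (IsAlgClosed.splits (f - C z))
  have hrep : (f - C z).roots = Multiset.replicate f.natDegree y := by
    rw [Multiset.eq_replicate]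
    refine ⟨hcard.trans hpd, fun b hb => h b ?_⟩
    rw [mem_roots hp0, IsRoot.def, eval_sub, eval_C, sub_eq_zero] at hb
    exact hb
  have hprod := C_leadingCoeff_mul_prod_multiset_X_sub_C hcard
  have hev := congrArg (fun p => p.eval w) hprod
  rw [hrep, hlc, Multiset.map_replicate, Multiset.prod_replicate] at hev
  simp only [eval_mul, eval_C, eval_pow, eval_sub, eval_X] at hev
  exact hev.symm

lemma exists_pre {f : ℂ[X]} (hd : 2 ≤ f.natDegree) (z : ℂ) : ∃ w, f.eval w = z := by
  have hpd : (f - C z).natDegree = f.natDegree := natDegree_sub_C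
  have hdeg : 0 < (f - C z).degree := natDegree_pos_iff_degree_pos.1 (by omega)
  obtain ⟨w, hw⟩ := Complex.exists_root hdeg
  refine ⟨w, ?_⟩
  rw [IsRoot.def, eval_sub, eval_C, sub_eq_zero] at hw
  exact hw

/-- The points where two rays land are pulled back by `f`. -/
lemma pull (lpb : LpbStatement) {f : ℂ[X]} {P : ℂ → ℂ} (hd : 2 ≤ f.natDegree) (hP : Half f P)
    {z w : ℂ} (hz : Bi P z) (hw : f.eval w = z) : Bi P w := by
  obtain ⟨a, b, ha, hb, hab⟩ := hz
  obtain ⟨a', ha', m, hm⟩ := lpb f P hd hP a z w ha hw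
  obtain ⟨b', hb', m', hm'⟩ := lpb f P hd hP b z w hb hw
  refine ⟨a', b', ha', hb', fun k hk => hab (m + f.natDegree * k - m') ?_⟩
  rw [hk] at hm'
  push_cast
  linarith

end Bin

open Bin Exc in
theorem bin (lpb : LpbStatement) (_jul : JulStatement) : BinStatement := by
  intro f P hd hP hex E
  by_contra hcon
  push Not at hcon
  obtain ⟨z₀, hz₀⟩ := hex
  have hd0 : 0 < f.natDegree := by omega
  have hlc : f.leadingCoeff ≠ 0 := by
    rw [Ne, leadingCoeff_eq_zero]
    rintro rfl
    simp at hd
  set A : Set ℂ := {z | Bi P z} with hA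
  have hAE : A ⊆ E := fun z hz => hcon z hz
  haveI hfin : Finite A := (E.finite_toSet.subset hAE).to_subtype
  have hback : ∀ z ∈ A, ∀ w, f.eval w = z → w ∈ A := fun z hz w hw => pull lpb hd hP hz hw
  choose r hr using fun z : A => exists_pre hd z.1
  let r' : A → A := fun z => ⟨r z, hback z.1 z.2 _ (hr z)⟩
  have hr'inj : Function.Injective r' := by
    intro x y h
    have h1 : r x = r y := congrArg Subtype.val h
    refine Subtype.ext ?_
    rw [← hr x, ← hr y, h1]
  have hr'surj : Function.Surjective r' := Finite.injective_iff_surjective.1 hr'inj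
  have huni : ∀ z ∈ A, ∀ w w' : ℂ, f.eval w = z → f.eval w' = z → w = w' := by
    intro z hz w w' hw hw'
    obtain ⟨x, hx⟩ := hr'surj ⟨w, hback z hz w hw⟩
    obtain ⟨x', hx'⟩ := hr'surj ⟨w', hback z hz w' hw'⟩
    have h1 : r x = w := congrArg Subtype.val hx
    have h2 : r x' = w' := congrArg Subtype.val hx'
    have h3 : x = x' := by
      refine Subtype.ext ?_
      rw [← hr x, ← hr x', h1, h2, hw, hw']
    rw [← h1, ← h2, h3]
  have key : ∀ z ∈ A, ∃ y ∈ A, f.eval y = z ∧
      ∀ w, f.eval w - z = f.leadingCoeff * (w - y) ^ f.natDegree := by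
    intro z hz
    obtain ⟨y, hy⟩ := exists_pre hd z
    exact ⟨y, hback z hz y hy, hy, factor_of_unique hd fun w hw => huni z hz w y hw hy⟩
  have poly : ∀ z y : ℂ, (∀ w, f.eval w - z = f.leadingCoeff * (w - y) ^ f.natDegree) →
      ∀ w, f.derivative.eval w =
        f.leadingCoeff * (f.natDegree * (w - y) ^ (f.natDegree - 1)) := by
    intro z y h w
    have hp : f = C z + C f.leadingCoeff * (X - C y) ^ f.natDegree := by
      apply Polynomial.funext
      intro r
      simp only [eval_add, eval_C, eval_mul, eval_pow, eval_sub, eval_X]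
      rw [← h r]; ring
    conv_lhs => rw [hp]
    rw [derivative_add, derivative_C, derivative_C_mul, derivative_X_sub_C_pow]
    simp
  obtain ⟨y, hyA, hfy, hy⟩ := key z₀ hz₀
  obtain ⟨x, hxA, hfx, hx⟩ := key y hyA
  have hxy : y = x := by
    have e1 := poly z₀ y hy y
    have e2 := poly y x hx y
    rw [e1, sub_self, zero_pow (by omega : f.natDegree - 1 ≠ 0)] at e2
    have hdc : (f.natDegree : ℂ) ≠ 0 := by exact_mod_cast hd0.ne'
    have e3 : (y - x) ^ (f.natDegree - 1) = 0 := by
      have : f.leadingCoeff * (f.natDegree * (y - x) ^ (f.natDegree - 1)) = 0 := by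
        rw [← e2]; ring
      rcases mul_eq_zero.mp this with h | h
      · exact absurd h hlc
      · rcases mul_eq_zero.mp h with h | h
        · exact absurd h hdc
        · exact h
    exact sub_eq_zero.mp (pow_eq_zero_iff (by omega) |>.mp e3)
  have hzy : z₀ = y := by rw [← hfy, hxy, hfx, hxy]
  rw [← hzy] at hy
  obtain ⟨a, b, ha, -, -⟩ := hz₀
  have hball : Metric.closedBall z₀ (1 / (‖f.leadingCoeff‖ + 1)) ∈ 𝓝 z₀ :=
    Metric.closedBall_mem_nhds _ (by positivity)
  have hev := Tendsto.eventually ha hball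
  obtain ⟨s, hs1, hs2⟩ := (hev.and self_mem_nhdsWithin).exists
  have hs3 : (s : ℂ) + a * Complex.I ∈ HP := by
    show 0 < ((s : ℂ) + a * Complex.I).re
    have : (0 : ℝ) < s := hs2
    simpa using this
  have hmem : P (s + a * Complex.I) ∈ filledJulia f := by
    apply mem_filledJulia hd hy
    have : dist (P (s + a * Complex.I)) z₀ ≤ 1 / (‖f.leadingCoeff‖ + 1) := hs1
    rwa [dist_eq_norm] at this
  have hnot : P (s + a * Complex.I) ∈ (filledJulia f)ᶜ := by
    rw [← hP.range]
    exact ⟨_, hs3, rfl⟩
  exact hnot hmem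

end Pool.Agent.Imp
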