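import Pool.Agent.Lib.MP_1c105c_an.Defs3
import Pool.Agent.Lib.MP_1c105c_an.Jul

/-! CIK: a point at which the Julia set is connected im kleinen gives small oscillation. -/

set_option autoImplicit false

open Filter Topology Set Polynomial

namespace Pool.Agent.Imp

namespace Cik

lemma re_mk (s t : ℝ) : ((s : ℂ) + t * Complex.I).re = s := by simp

lemma mem_HP (s t : ℝ) (h : 0 < s) : ((s : ℂ) + t * Complex.I) ∈ HP := by
  have h1 : ((s : ℂ) + t * Complex.I).re = s := re_mk s t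
  show 0 < ((s : ℂ) + t * Complex.I).re
  rw [h1]
  exact h

/-- The closed end of a horizontal piece is compact. -/
lemma compact_arc {P : ℂ → ℂ} (hP : ContinuousOn P HP) (t r : ℝ) (hr : 0 < r) (a : ℂ)
    (ha : Tendsto (fun s : ℝ => P (s + t * Complex.I)) (𝓝[>] 0) (𝓝 a)) :
    IsCompact ({a} ∪ (fun s : ℝ => P (s + t * Complex.I)) '' Ioc 0 r) := by
  let g : ℝ → ℂ := fun s => if s ≤ 0 then a else P (s + t * Complex.I)
  have hg : ContinuousOn g (Icc 0 r) := by
    intro s hs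
    rcases hs.1.eq_or_lt with h0 | h0
    · subst h0
      have h1 : g 0 = a := by simp [g]
      rw [ContinuousWithinAt, h1]
      have h2 : Tendsto g (𝓝[>] 0) (𝓝 a) := by
        refine ha.congr' ?_
        filter_upwards [self_mem_nhdsWithin] with s hs
        have hs' : ¬ s ≤ 0 := not_le.mpr hs
        simp [g, hs']
      have h3 : Tendsto g (pure 0) (𝓝 a) := by
        rw [tendsto_pure_left]
        intro U hU
        rw [h1]
        exact mem_of_mem_nhds hU
      have h4 : 𝓝[Icc 0 r] (0 : ℝ) ≤ 𝓝[>] 0 ⊔ pure 0 := by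
        have h5 : 𝓝[Icc 0 r] (0 : ℝ) ≤ 𝓝[Ici 0] 0 := nhdsWithin_mono _ Icc_subset_Ici_self
        refine h5.trans ?_
        rw [← Ioi_insert, nhdsWithin_insert, sup_comm]
      exact (h2.sup h3).mono_left h4
    · have h1 : ContinuousAt (fun s : ℝ => P (s + t * Complex.I)) s := by
        have h2 : ContinuousAt P (s + t * Complex.I) :=
          hP.continuousAt (Jul.isOpen_HP.mem_nhds (mem_HP s t h0))
        have h3 : Continuous fun s : ℝ => ((s : ℂ) + t * Complex.I) := by fun_prop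
        exact ContinuousAt.comp (f := fun s : ℝ => ((s : ℂ) + t * Complex.I)) h2
          h3.continuousAt
      refine (h1.congr ?_).continuousWithinAt
      filter_upwards [lt_mem_nhds h0] with s' hs'
      have hs'' : ¬ s' ≤ 0 := not_le.mpr hs'
      simp [g, hs'']
  have h := isCompact_Icc.image_of_continuousOn hg
  have he : {a} ∪ (fun s : ℝ => P (s + t * Complex.I)) '' Ioc 0 r = g '' Icc 0 r := by
    ext w
    constructor
    · rintro (h1 | ⟨s, hs, rfl⟩)
      · exact ⟨0, ⟨le_rfl, hr.le⟩, by simp [g]; exact h1.symm⟩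
      · refine ⟨s, ⟨hs.1.le, hs.2⟩, ?_⟩
        have hs' : ¬ s ≤ 0 := not_le.mpr hs.1
        simp [g, hs']
    · rintro ⟨s, hs, rfl⟩
      rcases hs.1.eq_or_lt with h0 | h0
      · subst h0
        left
        simp [g]
      · right
        refine ⟨s, ⟨h0, hs.2⟩, ?_⟩
        have hs' : ¬ s ≤ 0 := not_le.mpr h0
        simp [g, hs']
  rw [he]
  exact h

/-- The vertical piece is compact. -/
lemma compact_vert {P : ℂ → ℂ} (hP : ContinuousOn P HP) (r t₁ t₂ : ℝ) (hr : 0 < r) :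
    IsCompact ((fun τ : ℝ => P (r + τ * Complex.I)) '' Icc t₁ t₂) := by
  refine isCompact_Icc.image_of_continuousOn fun τ _ => ?_
  have h2 : ContinuousAt P (r + τ * Complex.I) :=
    hP.continuousAt (Jul.isOpen_HP.mem_nhds (mem_HP r τ hr))
  have h3 : Continuous fun τ : ℝ => ((r : ℂ) + τ * Complex.I) := by fun_prop
  exact (ContinuousAt.comp (f := fun τ : ℝ => ((r : ℂ) + τ * Complex.I)) h2
    h3.continuousAt).continuousWithinAt

/-- The open box. -/
def CBox (r t₁ t₂ : ℝ) : Set ℂ := {u | 0 < u.re ∧ u.re < r ∧ t₁ < u.im ∧ u.im < t₂}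

lemma isOpen_box (r t₁ t₂ : ℝ) : IsOpen (CBox r t₁ t₂) := by
  have h1 : IsOpen {u : ℂ | 0 < u.re} := isOpen_lt continuous_const Complex.continuous_re
  have h2 : IsOpen {u : ℂ | u.re < r} := isOpen_lt Complex.continuous_re continuous_const
  have h3 : IsOpen {u : ℂ | t₁ < u.im} := isOpen_lt continuous_const Complex.continuous_im
  have h4 : IsOpen {u : ℂ | u.im < t₂} := isOpen_lt Complex.continuous_im continuous_const
  exact h1.inter (h2.inter (h3.inter h4))

lemma box_sub (r t₁ t₂ : ℝ) : CBox r t₁ t₂ ⊆ HP := fun _ h => h.1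

/-- The crosscut. -/
def Cut (P : ℂ → ℂ) (r t₁ t₂ : ℝ) (a₁ a₂ : ℂ) : Set ℂ :=
  ({a₁} ∪ (fun s : ℝ => P (s + t₁ * Complex.I)) '' Ioc 0 r) ∪
    ({a₂} ∪ (fun s : ℝ => P (s + t₂ * Complex.I)) '' Ioc 0 r) ∪
    (fun τ : ℝ => P (r + τ * Complex.I)) '' Icc t₁ t₂

lemma frontier_sub {f : ℂ[X]} {P : ℂ → ℂ} (hd : 2 ≤ f.natDegree) (hP : Half f P)
    (r t₁ t₂ : ℝ) (a₁ a₂ : ℂ) :
    frontier (P '' CBox r t₁ t₂) ⊆ filledJulia f ∪ Cut P r t₁ t₂ a₁ a₂ := by
  intro ζ hζ
  have hDo : IsOpen (P '' CBox r t₁ t₂) :=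
    Jul.half_open hP _ (box_sub r t₁ t₂) (isOpen_box r t₁ t₂)
  rw [frontier, hDo.interior_eq] at hζ
  obtain ⟨hζ1, hζ2⟩ := hζ
  obtain ⟨w, hw, hwl⟩ := mem_closure_iff_seq_limit.mp hζ1
  choose u hu huw using hw
  let K : Set ℂ := {v | (0 ≤ v.re ∧ v.re ≤ r) ∧ (t₁ ≤ v.im ∧ v.im ≤ t₂)}
  have hKc : IsCompact K := by
    have h1 : K = Icc 0 r ×ℂ Icc t₁ t₂ := by
      ext v
      simp [K, Complex.mem_reProdIm]
    rw [h1]
    exact isCompact_Icc.reProdIm isCompact_Icc
  have huK : ∀ n, u n ∈ K := fun n =>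
    ⟨⟨(hu n).1.le, (hu n).2.1.le⟩, ⟨(hu n).2.2.1.le, (hu n).2.2.2.le⟩⟩
  obtain ⟨v, hv, φ, hφ, hφl⟩ := hKc.tendsto_subseq huK
  have hwφ : Tendsto (fun n => P (u (φ n))) atTop (𝓝 ζ) := by
    have h1 := hwl.comp hφ.tendsto_atTop
    refine h1.congr fun n => ?_
    exact (huw (φ n)).symm
  rcases hv.1.1.eq_or_lt with h0 | h0
  · left
    have h2 : ζ ∈ julia f := by
      refine Jul.lim_julia hd hP (fun n => u (φ n)) ζ (fun n => (hu (φ n)).1) ?_ hwφ
      have h3 := (Complex.continuous_re.tendsto v).comp hφl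
      rw [← h0] at h3
      exact h3
    exact (Jul.closed f hd).frontier_subset h2
  · right
    have hvc : ContinuousAt P v :=
      hP.diff.continuousOn.continuousAt (Jul.isOpen_HP.mem_nhds h0)
    have hζv : P v = ζ := tendsto_nhds_unique (hvc.tendsto.comp hφl) hwφ
    by_cases h1 : v.re = r
    · right
      refine ⟨v.im, ⟨hv.2.1, hv.2.2⟩, ?_⟩
      show P (r + v.im * Complex.I) = ζ
      rw [← h1, Complex.re_add_im]
      exact hζv
    by_cases h2 : v.im = t₁
    · left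
      left
      right
      refine ⟨v.re, ⟨h0, hv.1.2⟩, ?_⟩
      show P (v.re + t₁ * Complex.I) = ζ
      rw [← h2, Complex.re_add_im]
      exact hζv
    by_cases h3 : v.im = t₂
    · left
      right
      right
      refine ⟨v.re, ⟨h0, hv.1.2⟩, ?_⟩
      show P (v.re + t₂ * Complex.I) = ζ
      rw [← h3, Complex.re_add_im]
      exact hζv
    exact absurd ⟨v, ⟨h0, lt_of_le_of_ne hv.1.2 h1, lt_of_le_of_ne hv.2.1 (Ne.symm h2),
      lt_of_le_of_ne hv.2.2 h3⟩, hζv⟩ hζ2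

end Cik

open Cik in
/-- CIK: from APP, CRO, LGK and JAN. -/
theorem cik_of (app : AppStatement) (cro : CroStatement) (lgk : LgkStatement)
    (jan : JanStatement) : CikStatement := by
  intro f P hd hP hinf hz δ hδ
  obtain ⟨z, hzJ, hcik⟩ := hz
  have hKc : IsClosed (filledJulia f) := Jul.closed f hd
  have hKb : Bornology.IsBounded (filledJulia f) := Jul.bounded f hd
  have hJK : julia f ⊆ filledJulia f := hKc.frontier_subset
  have hJc : IsClosed (julia f) := isClosed_frontier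
  obtain ⟨Y₀, hY₀J, hY₀p, hY₀n, hY₀s⟩ := hcik (δ / 4) (by positivity)
  have hzY₀ : z ∈ Y₀ := mem_of_mem_nhdsWithin hzJ hY₀n
  obtain ⟨ρ, hρ, hρY⟩ := Metric.mem_nhdsWithin_iff.mp hY₀n
  have hYs : ∀ y ∈ closure Y₀, ‖y - z‖ ≤ δ / 4 := by
    intro y hy
    have h1 : IsClosed {y : ℂ | ‖y - z‖ ≤ δ / 4} :=
      isClosed_le (continuous_id.sub continuous_const).norm continuous_const
    exact closure_minimal (fun y hy => hY₀s y hy) h1 hy
  -- the crosscut
  let κ : ℝ := min ρ (δ / 4) / 4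
  have hκ : 0 < κ := by
    have : 0 < min ρ (δ / 4) := lt_min hρ (by positivity)
    positivity
  have hκρ : κ * 4 ≤ ρ := by
    have : κ * 4 = min ρ (δ / 4) := by simp only [κ]; ring
    rw [this]
    exact min_le_left _ _
  have hκδ : κ * 4 ≤ δ / 4 := by
    have : κ * 4 = min ρ (δ / 4) := by simp only [κ]; ring
    rw [this]
    exact min_le_right _ _
  obtain ⟨s₀, hs₀, hcro⟩ := cro f P hd hP κ hκ
  obtain ⟨u, hu0, hus, huz⟩ := app f P hd hP hinf z hzJ κ (min s₀ 1) hκ (lt_min hs₀ one_pos)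
  obtain ⟨t₁, t₂, a₁, a₂, ht₁, ht₂, ha₁, ha₂, hh, hv⟩ :=
    hcro u hu0 (hus.trans_le (min_le_left _ _))
  have hu1 : u.re < 1 := hus.trans_le (min_le_right _ _)
  -- the cut is near `z`
  have hcb : Cut P u.re t₁ t₂ a₁ a₂ ⊆ Metric.closedBall z (κ + κ) := by
    have hcl : IsClosed (Metric.closedBall z (κ + κ)) := Metric.isClosed_closedBall
    have key : ∀ w : ℂ, ‖w - P u‖ ≤ κ → w ∈ Metric.closedBall z (κ + κ) := by
      intro w hw
      rw [Metric.mem_closedBall, dist_eq_norm]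
      calc ‖w - z‖ = ‖(w - P u) + (P u - z)‖ := by rw [sub_add_sub_cancel]
        _ ≤ ‖w - P u‖ + ‖P u - z‖ := norm_add_le _ _
        _ ≤ κ + κ := add_le_add hw huz.le
    have keyl : ∀ (t : ℝ) (a : ℂ),
        Tendsto (fun s : ℝ => P (s + t * Complex.I)) (𝓝[>] 0) (𝓝 a) →
        (∀ s : ℝ, 0 < s → s ≤ u.re → ‖P (s + t * Complex.I) - P u‖ ≤ κ) →
        a ∈ Metric.closedBall z (κ + κ) := by
      intro t a ha hs
      refine hcl.mem_of_tendsto ha ?_
      filter_upwards [Ioc_mem_nhdsGT hu0] with s hs'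
      exact key _ (hs s hs'.1 hs'.2)
    rintro w (((h | ⟨s, hs, rfl⟩) | (h | ⟨s, hs, rfl⟩)) | ⟨τ, hτ, rfl⟩)
    · rw [mem_singleton_iff.mp h]
      exact keyl t₁ a₁ ha₁ fun s h1 h2 => (hh s h1 h2).1
    · exact key _ (hh s hs.1 hs.2).1
    · rw [mem_singleton_iff.mp h]
      exact keyl t₂ a₂ ha₂ fun s h1 h2 => (hh s h1 h2).2
    · exact key _ (hh s hs.1 hs.2).2
    · exact key _ (hv τ hτ)
  -- the cut meets `K` in `Y`
  have hPK : ∀ w : ℂ, 0 < w.re → P w ∉ filledJulia f := by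
    intro w hw
    have : P w ∈ P '' HP := ⟨w, hw, rfl⟩
    rw [hP.range] at this
    exact this
  have hlim : ∀ (t : ℝ) (a : ℂ),
      Tendsto (fun s : ℝ => P (s + t * Complex.I)) (𝓝[>] 0) (𝓝 a) → a ∈ julia f := by
    intro t a ha
    let v : ℕ → ℝ := fun n => 1 / ((n : ℝ) + 1)
    have hv0 : ∀ n, 0 < v n := fun n => by simp only [v]; positivity
    have hvl : Tendsto v atTop (𝓝 0) := tendsto_one_div_add_atTop_nhds_zero_nat
    have hvl2 : Tendsto v atTop (𝓝[>] 0) :=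
      tendsto_nhdsWithin_iff.mpr ⟨hvl, Eventually.of_forall hv0⟩
    refine Jul.lim_julia hd hP (fun n => (v n : ℂ) + t * Complex.I) a ?_ ?_ ?_
    · intro n
      exact mem_HP (v n) t (hv0 n)
    · simp only [re_mk]
      exact hvl
    · exact ha.comp hvl2
  have hcY : Cut P u.re t₁ t₂ a₁ a₂ ∩ filledJulia f ⊆ closure Y₀ := by
    rintro w ⟨hw, hwK⟩
    have hwb := hcb hw
    have hwρ : w ∈ Metric.ball z ρ := by
      rw [Metric.mem_closedBall] at hwb
      rw [Metric.mem_ball]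
      linarith
    have haY : w ∈ julia f → w ∈ closure Y₀ := fun h => subset_closure (hρY ⟨hwρ, h⟩)
    rcases hw with ((h | ⟨s, hs, rfl⟩) | (h | ⟨s, hs, rfl⟩)) | ⟨τ, hτ, rfl⟩
    · refine haY ?_
      rw [mem_singleton_iff.mp h]
      exact hlim t₁ a₁ ha₁
    · exact absurd hwK (hPK _ (by rw [re_mk]; exact hs.1))
    · refine haY ?_
      rw [mem_singleton_iff.mp h]
      exact hlim t₂ a₂ ha₂
    · exact absurd hwK (hPK _ (by rw [re_mk]; exact hs.1))
    · exact absurd hwK (hPK _ (by rw [re_mk]; exact hu0))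
  -- the domain cut off is small
  have hD : ∀ x ∈ P '' CBox u.re t₁ t₂, ‖x - z‖ < δ / 2 := by
    intro x hx
    by_contra hcon
    rw [not_lt] at hcon
    have hxK : x ∉ filledJulia f := by
      obtain ⟨v, hv, rfl⟩ := hx
      exact hPK v hv.1
    obtain ⟨L, hLc, hLe⟩ := lgk f P hd hP hinf x hxK
    refine jan (filledJulia f) (closure Y₀) (Cut P u.re t₁ t₂ a₁ a₂) (P '' CBox u.re t₁ t₂) x z
      (δ / 2) L (Metric.isCompact_of_isClosed_isBounded hKc hKb) isClosed_closure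
      ((closure_minimal hY₀J hJc).trans hJK) hY₀p.closure ⟨z, subset_closure hzY₀⟩ ?_ hcY
      (Jul.half_open hP _ (box_sub _ _ _) (isOpen_box _ _ _)) ?_
      (frontier_sub hd hP u.re t₁ t₂ a₁ a₂) ?_ hx hcon hLc hLe
    · exact ((compact_arc hP.diff.continuousOn t₁ u.re hu0 a₁ ha₁).union
        (compact_arc hP.diff.continuousOn t₂ u.re hu0 a₂ ha₂)).union
        (compact_vert hP.diff.continuousOn u.re t₁ t₂ hu0)
    · obtain ⟨R, hR⟩ := hP.bdd
      refine (Metric.isBounded_closedBall (x := (0 : ℂ)) (r := R)).subset ?_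
      rintro w ⟨v, hv, rfl⟩
      rw [mem_closedBall_zero_iff]
      exact hR v hv.1 (hv.2.1.le.trans hu1.le)
    · rintro w (hw | hw)
      · rw [Metric.mem_ball, dist_eq_norm]
        have := hYs w hw
        linarith
      · have := hcb hw
        rw [Metric.mem_closedBall] at this
        rw [Metric.mem_ball]
        linarith
  refine ⟨u.im, {w : ℂ | w.re < u.re ∧ t₁ < w.im ∧ w.im < t₂}, ?_, ?_⟩
  · refine IsOpen.mem_nhds ?_ ?_
    · have h2 : IsOpen {w : ℂ | w.re < u.re} := isOpen_lt Complex.continuous_re continuous_const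
      have h3 : IsOpen {w : ℂ | t₁ < w.im} := isOpen_lt continuous_const Complex.continuous_im
      have h4 : IsOpen {w : ℂ | w.im < t₂} := isOpen_lt Complex.continuous_im continuous_const
      exact h2.inter (h3.inter h4)
    · refine ⟨?_, ?_, ?_⟩
      · simpa using hu0
      · simpa using ht₁
      · simpa using ht₂
  · rintro w ⟨⟨hw1, hw2, hw3⟩, hw0⟩ w' ⟨⟨hw1', hw2', hw3'⟩, hw0'⟩
    have h1 := hD (P w) ⟨w, ⟨hw0, hw1, hw2, hw3⟩, rfl⟩
    have h2 := hD (P w') ⟨w', ⟨hw0', hw1', hw2', hw3'⟩, rfl⟩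
    calc ‖P w - P w'‖ = ‖(P w - z) - (P w' - z)‖ := by rw [sub_sub_sub_cancel_right]
      _ ≤ ‖P w - z‖ + ‖P w' - z‖ := norm_sub_le _ _
      _ ≤ δ := by linarith

/-- CIK in the form of the interface. -/
theorem cik (_jul : JulStatement) (app : AppStatement) (cro : CroStatement) (lgk : LgkStatement)
    (jan : JanStatement) : CikStatement := cik_of app cro lgk jan

end Pool.Agent.Imp
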