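import Pool.Agent.Lib.MP_1c105c_an.Defs3
import Pool.Agent.Lib.MP_1c105c_an.Inv

/-! MP_1c105c_an, row SML: small oscillations give a trivial impression. -/

set_option autoImplicit false

open Filter Topology Set Polynomial

namespace Pool.Agent.Imp

namespace Sml

/-- A connected set which is covered by few discs of radius `ρ` is small. -/
theorem diam_le {S : Set ℂ} (hS : IsPreconnected S) (Z : Finset ℂ) {ρ : ℝ} (hρ : 0 < ρ)
    (h : ∀ x ∈ S, ∃ a ∈ Z, ‖x - a‖ ≤ ρ) {z w : ℂ} (hz : z ∈ S) (hw : w ∈ S) :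
    ‖z - w‖ ≤ Z.card * (2 * ρ) := by
  have hφ : ContinuousOn (fun x : ℂ => ‖x - w‖) S := by fun_prop
  have h1 := hS.intermediate_value hw hz hφ
  simp only [sub_self, norm_zero] at h1
  have h2 : Set.Icc (0 : ℝ) ‖z - w‖ ⊆ ⋃ a ∈ Z, Set.Icc (‖a - w‖ - ρ) (‖a - w‖ + ρ) := by
    intro y hy
    obtain ⟨x, hx, rfl⟩ := h1 hy
    obtain ⟨a, ha, hxa⟩ := h x hx
    refine Set.mem_iUnion₂.2 ⟨a, ha, ?_⟩
    have h3 : |‖x - w‖ - ‖a - w‖| ≤ ‖x - a‖ := by
      refine (abs_norm_sub_norm_le (x - w) (a - w)).trans (le_of_eq ?_)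
      rw [sub_sub_sub_cancel_right]
    have h4 := abs_le.1 (h3.trans hxa)
    constructor
    · show ‖a - w‖ - ρ ≤ ‖x - w‖
      linarith [h4.1]
    · show ‖x - w‖ ≤ ‖a - w‖ + ρ
      linarith [h4.2]
  have h5 := (MeasureTheory.measure_mono (μ := MeasureTheory.volume) h2).trans
    (MeasureTheory.measure_biUnion_finset_le Z fun a => Set.Icc (‖a - w‖ - ρ) (‖a - w‖ + ρ))
  have h6 : ∀ a ∈ Z, MeasureTheory.volume (Set.Icc (‖a - w‖ - ρ) (‖a - w‖ + ρ)) =
      ENNReal.ofReal (2 * ρ) := by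
    intro a _
    rw [Real.volume_Icc]
    congr 1
    ring
  rw [Finset.sum_congr rfl h6, Finset.sum_const, Real.volume_Icc, sub_zero, nsmul_eq_mul,
    ← ENNReal.ofReal_natCast, ← ENNReal.ofReal_mul (Nat.cast_nonneg _)] at h5
  exact (ENNReal.ofReal_le_ofReal_iff (by positivity)).1 h5

theorem near {f : ℂ[X]} (hf : 2 ≤ f.natDegree) {ε : ℝ} (hε : 0 < ε) :
    ∃ η : ℝ, 0 < η ∧ ∀ z w : ℂ, ‖f.eval w - z‖ ≤ η →
      ∃ a ∈ (f - C z).roots.toFinset, ‖w - a‖ ≤ ε := by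
  have hf0 : f ≠ 0 := by
    rintro rfl
    rw [natDegree_zero] at hf
    omega
  have hlf : 0 < ‖f.leadingCoeff‖ := norm_pos_iff.2 (leadingCoeff_ne_zero.2 hf0)
  refine ⟨‖f.leadingCoeff‖ * ε ^ f.natDegree / 2, by positivity, ?_⟩
  intro z w hw
  have hnd : (f - C z).natDegree = f.natDegree := natDegree_sub_C
  have hlc : (f - C z).leadingCoeff = f.leadingCoeff := by
    rw [leadingCoeff, hnd, coeff_sub, coeff_C, if_neg (by omega), sub_zero]
    rfl
  have hcard : Multiset.card (f - C z).roots = f.natDegree := by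
    rw [← hnd]
    exact (IsAlgClosed.splits (f - C z)).natDegree_eq_card_roots.symm
  by_contra hcon
  have h1 : ∀ a ∈ (f - C z).roots, ε ≤ ‖w - a‖ := by
    intro a ha
    by_contra h
    push Not at h
    exact hcon ⟨a, Multiset.mem_toFinset.2 ha, h.le⟩
  have h2 := Inv.prod_ge hε w _ h1
  have h3 := Inv.eval_norm (f - C z) w
  rw [eval_sub, eval_C, hlc] at h3
  rw [hcard] at h2
  have h4 := mul_le_mul_of_nonneg_left h2 hlf.le
  have h5 : 0 < ‖f.leadingCoeff‖ * ε ^ f.natDegree := by positivity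
  rw [h3] at hw
  linarith

theorem card_le {f : ℂ[X]} (z : ℂ) : ((f - C z).roots.toFinset.card : ℝ) ≤ f.natDegree := by
  have h1 : (f - C z).roots.toFinset.card ≤ f.natDegree :=
    (Multiset.toFinset_card_le _).trans ((card_roots' _).trans (le_of_eq natDegree_sub_C))
  exact_mod_cast h1

theorem step {f : ℂ[X]} {P : ℂ → ℂ} (hf : 2 ≤ f.natDegree) (hP : Half f P) {e : ℝ} (he : 0 < e) :
    ∃ e' : ℝ, 0 < e' ∧ ∀ t : ℝ, Osc P e' (f.natDegree * t) → Osc P e t := by
  have hd : (0 : ℝ) < f.natDegree := by exact_mod_cast (by omega : 0 < f.natDegree)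
  obtain ⟨η, hη, hnear⟩ := near hf (ε := e / (2 * f.natDegree)) (by positivity)
  refine ⟨η, hη, fun t ht => ?_⟩
  obtain ⟨N, hN, hosc⟩ := ht
  obtain ⟨r, hr, hball⟩ := Metric.mem_nhds_iff.1 hN
  have hmul : ∀ u ∈ Metric.ball ((t : ℂ) * Complex.I) (r / f.natDegree) ∩ HP,
      (f.natDegree : ℂ) * u ∈ N ∩ HP := by
    rintro u ⟨hu1, hu2⟩
    constructor
    · refine hball ?_
      rw [Metric.mem_ball, dist_eq_norm] at hu1 ⊢
      have h1 : (f.natDegree : ℂ) * u - ((f.natDegree * t : ℝ) : ℂ) * Complex.I =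
          (f.natDegree : ℂ) * (u - (t : ℂ) * Complex.I) := by
        push_cast
        ring
      rw [h1, norm_mul, Complex.norm_natCast]
      rw [lt_div_iff₀ hd] at hu1
      linarith
    · show 0 < ((f.natDegree : ℂ) * u).re
      rw [← Complex.ofReal_natCast, Complex.re_ofReal_mul]
      exact mul_pos hd hu2
  refine ⟨Metric.ball ((t : ℂ) * Complex.I) (r / f.natDegree),
    Metric.ball_mem_nhds _ (by positivity), fun u hu v hv => ?_⟩
  have hS : IsPreconnected (P '' (Metric.ball ((t : ℂ) * Complex.I) (r / f.natDegree) ∩ HP)) :=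
    (((convex_ball _ _).inter Inv.convex_HP).isPreconnected).image P
      (hP.diff.continuousOn.mono Set.inter_subset_right)
  have h2 := diam_le hS (f - C (f.eval (P v))).roots.toFinset
    (ρ := e / (2 * f.natDegree)) (by positivity) (by
      rintro _ ⟨x, hx, rfl⟩
      refine hnear _ _ ?_
      rw [hP.semi x hx.2, hP.semi v hv.2]
      exact hosc _ (hmul x hx) _ (hmul v hv)) ⟨u, hu, rfl⟩ ⟨v, hv, rfl⟩
  refine h2.trans ?_
  have h3 := card_le (f := f) (f.eval (P v))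
  have h4 : (f.natDegree : ℝ) * (2 * (e / (2 * f.natDegree))) = e := by
    field_simp
  calc _ ≤ (f.natDegree : ℝ) * (2 * (e / (2 * f.natDegree))) :=
        mul_le_mul_of_nonneg_right h3 (by positivity)
    _ = e := h4

theorem iter {f : ℂ[X]} {P : ℂ → ℂ} (hf : 2 ≤ f.natDegree) (hP : Half f P) (n : ℕ) :
    ∀ e : ℝ, 0 < e → ∃ e' : ℝ, 0 < e' ∧
      ∀ t : ℝ, Osc P e' ((f.natDegree : ℝ) ^ n * t) → Osc P e t := by
  induction n with
  | zero => exact fun e he => ⟨e, he, fun t ht => by rwa [pow_zero, one_mul] at ht⟩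
  | succ n ih =>
    intro e he
    obtain ⟨e₁, he₁, h1⟩ := step hf hP he
    obtain ⟨e', he', h2⟩ := ih e₁ he₁
    refine ⟨e', he', fun t ht => h1 t (h2 _ ?_)⟩
    rwa [pow_succ, mul_assoc] at ht

theorem isOpen_osc (P : ℂ → ℂ) (e : ℝ) : IsOpen {t : ℝ | Osc P e t} := by
  rw [isOpen_iff_mem_nhds]
  rintro t ⟨N, hN, hosc⟩
  have h1 : (fun s : ℝ => (s : ℂ) * Complex.I) ⁻¹' interior N ∈ 𝓝 t := by
    refine ContinuousAt.preimage_mem_nhds (by fun_prop) ?_
    exact isOpen_interior.mem_nhds (mem_interior_iff_mem_nhds.2 hN)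
  filter_upwards [h1] with s hs
  exact ⟨N, mem_interior_iff_mem_nhds.1 hs, hosc⟩

theorem osc_int {P : ℂ → ℂ} {e : ℝ} (h : ∀ t : ℝ, Osc P e (t + 1) ↔ Osc P e t) (m : ℤ) (t : ℝ) :
    Osc P e (t + m) ↔ Osc P e t := by
  induction m using Int.induction_on with
  | zero => rw [Int.cast_zero, add_zero]
  | succ i ih => rw [← ih, ← h (t + (i : ℤ))]; push_cast; rw [add_assoc]
  | pred i ih =>
    rw [← ih, ← h (t + ((-(i : ℤ) - 1 : ℤ) : ℝ))]
    push_cast
    ring_nf

end Sml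

/-- Row SML. -/
theorem sml (inv : InvStatement) : SmlStatement := by
  intro f P hf hP hosc
  obtain ⟨-, hper, -, -, hlim⟩ := inv f P hf hP
  have hd2 : (2 : ℝ) ≤ f.natDegree := by exact_mod_cast hf
  have hdense : ∀ e : ℝ, 0 < e → Dense {t : ℝ | Osc P e t} := by
    intro e he
    rw [Metric.dense_iff]
    intro t₀ r hr
    obtain ⟨n, hn⟩ := exists_pow_lt_of_lt_one hr (show (1 / (f.natDegree : ℝ)) < 1 by
      rw [div_lt_one (by linarith)]; linarith)
    obtain ⟨e', he', h1⟩ := Sml.iter hf hP n e he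
    obtain ⟨t', ht'⟩ := hosc e' he'
    have hpos : (0 : ℝ) < (f.natDegree : ℝ) ^ n := by positivity
    set m : ℤ := ⌊(f.natDegree : ℝ) ^ n * t₀ - t'⌋ with hm
    have hm1 : (m : ℝ) ≤ (f.natDegree : ℝ) ^ n * t₀ - t' := Int.floor_le _
    have hm2 : (f.natDegree : ℝ) ^ n * t₀ - t' < m + 1 := Int.lt_floor_add_one _
    refine ⟨(t' + m) / (f.natDegree : ℝ) ^ n, ?_, ?_⟩
    · rw [Metric.mem_ball, dist_eq_norm, Real.norm_eq_abs]
      have h2 : (t' + m) / (f.natDegree : ℝ) ^ n - t₀ =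
          (t' + m - (f.natDegree : ℝ) ^ n * t₀) / (f.natDegree : ℝ) ^ n := by
        field_simp
      rw [h2, abs_div, abs_of_pos hpos]
      have h3 : |t' + m - (f.natDegree : ℝ) ^ n * t₀| ≤ 1 := by
        rw [abs_le]
        constructor <;> linarith
      have h4 : (1 / (f.natDegree : ℝ)) ^ n = 1 / (f.natDegree : ℝ) ^ n := by
        rw [div_pow, one_pow]
      rw [h4] at hn
      refine lt_of_le_of_lt ?_ hn
      exact div_le_div_of_nonneg_right h3 hpos.le
    · refine h1 _ ?_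
      rw [mul_div_cancel₀ _ hpos.ne']
      exact (Sml.osc_int (hper e') m t').2 ht'
  have hbaire := dense_iInter_of_isOpen_nat (f := fun k : ℕ => {t : ℝ | Osc P (1 / (k + 1)) t})
    (fun k => Sml.isOpen_osc P _) (fun k => hdense _ (by positivity))
  obtain ⟨t, ht⟩ := hbaire.nonempty
  obtain ⟨z, hz⟩ := (hlim t).2 (by
    intro δ hδ
    obtain ⟨k, hk⟩ := exists_nat_one_div_lt hδ
    obtain ⟨N, hN, h1⟩ := Set.mem_iInter.1 ht k
    exact ⟨N, hN, fun u hu v hv => (h1 u hu v hv).trans hk.le⟩)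
  exact ⟨t, z, hz⟩

end Pool.Agent.Imp
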