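import Pool.Agent.Lib.MP_1c105c_an.Defs8
import Pool.Agent.Lib.MP_1c105c_an.Sml
import Pool.Agent.Lib.MP_1c105c_an.Half
import Pool.Agent.Lib.MP_1c105c_an.Inf
import Pool.Agent.Lib.MP_1c105c_an.Jul
import Pool.Agent.Lib.MP_5011cf_an.Koebe

/-! MP_1c105c_an, row CV8: a critical value outside a filled impression gives small
oscillation. -/

set_option autoImplicit false

open Filter Topology Set Polynomial

namespace Pool.Agent.Imp

namespace Cv8

section half

variable {f : ℂ[X]} {P : ℂ → ℂ}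

theorem deriv_ne (hP : Half f P) {u : ℂ} (hu : u ∈ HP) : deriv P u ≠ 0 := by
  have ho : IsOpen (Metric.ball u (1 / 2) ∩ HP) := Metric.isOpen_ball.inter Jul.isOpen_HP
  refine Pool.Agent.Lib.MP_5011cf_an.deriv_ne_zero_of_injOn ho (hP.diff.mono inter_subset_right)
    ?_ ⟨Metric.mem_ball_self (by norm_num), hu⟩
  rintro a ⟨ha, haP⟩ b ⟨hb, hbP⟩ hab
  obtain ⟨j, hj⟩ := hP.inj a haP b hbP hab
  have h1 : dist a b < 1 := by
    calc dist a b ≤ dist a u + dist u b := dist_triangle _ _ _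
      _ < 1 / 2 + 1 / 2 := add_lt_add ha (by rw [dist_comm]; exact hb)
      _ = 1 := by norm_num
  rw [dist_eq_norm, hj, add_sub_cancel_left, norm_mul, Complex.norm_I, mul_one,
    Complex.norm_intCast] at h1
  have h2 : |j| < 1 := by exact_mod_cast h1
  have h3 : j = 0 := Int.abs_lt_one_iff.1 h2
  rw [hj, h3]
  simp

theorem crit_mem (hP : Half f P) {G : ℂ[X]} {D : ℕ} (hD : 1 ≤ D)
    (hG : ∀ u ∈ HP, G.eval (P u) = P (D * u)) {c : ℂ} (hc : G.derivative.eval c = 0) :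
    c ∈ filledJulia f := by
  by_contra hcK
  have h1 : c ∈ P '' HP := by rw [hP.range]; exact hcK
  obtain ⟨u, hu, rfl⟩ := h1
  have hDu : (D : ℂ) * u ∈ HP := by
    have : (D : ℂ) * u = ((D : ℝ) : ℂ) * u := by push_cast; rfl
    change 0 < ((D : ℂ) * u).re
    rw [this, Complex.re_ofReal_mul]
    exact mul_pos (by exact_mod_cast hD) hu
  have hdu : HasDerivAt P (deriv P u) u :=
    (hP.diff.differentiableAt (Jul.isOpen_HP.mem_nhds hu)).hasDerivAt
  have hdD : HasDerivAt P (deriv P (D * u)) (D * u) :=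
    (hP.diff.differentiableAt (Jul.isOpen_HP.mem_nhds hDu)).hasDerivAt
  have h2 : HasDerivAt (fun u => G.eval (P u)) (G.derivative.eval (P u) * deriv P u) u :=
    (G.hasDerivAt (P u)).comp u hdu
  have h3 : HasDerivAt (fun u => P (D * u)) (deriv P (D * u) * D) u := by
    have h4 : HasDerivAt (fun u : ℂ => (D : ℂ) * u) (D : ℂ) u := by
      simpa using (hasDerivAt_id u).const_mul (D : ℂ)
    exact hdD.comp u h4
  have h5 : HasDerivAt (fun u => G.eval (P u)) (deriv P (D * u) * D) u := by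
    refine h3.congr_of_eventuallyEq ?_
    filter_upwards [Jul.isOpen_HP.mem_nhds hu] with x hx
    exact hG x hx
  have h6 := h2.unique h5
  rw [hc, zero_mul] at h6
  have h7 : (D : ℂ) ≠ 0 := by exact_mod_cast (by omega : D ≠ 0)
  exact (mul_ne_zero (deriv_ne hP hDu) h7) h6.symm

/-- the iterate as a polynomial -/
noncomputable def It (f : ℂ[X]) (n : ℕ) : ℂ[X] := f.comp^[n] X

theorem It_eval (n : ℕ) (w : ℂ) : (It f n).eval w = (fun w => f.eval w)^[n] w := by
  rw [It, Polynomial.iterate_comp_eval]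
  simp

theorem It_deg (n : ℕ) : (It f n).natDegree = f.natDegree ^ n := by
  rw [It, Polynomial.natDegree_iterate_comp, natDegree_X, mul_one]

theorem semi_it (hd : 2 ≤ f.natDegree) (hP : Half f P) (n : ℕ) : ∀ u ∈ HP,
    (It f n).eval (P u) = P (((f.natDegree ^ n : ℕ) : ℂ) * u) := by
  induction n with
  | zero =>
    intro u _
    rw [It_eval]
    simp
  | succ n ih =>
    intro u hu
    rw [It_eval, Function.iterate_succ_apply, hP.semi u hu, ← It_eval]
    have hu' : (f.natDegree : ℂ) * u ∈ HP := by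
      have : (f.natDegree : ℂ) * u = ((f.natDegree : ℝ) : ℂ) * u := by push_cast; rfl
      change 0 < ((f.natDegree : ℂ) * u).re
      rw [this, Complex.re_ofReal_mul]
      exact mul_pos (by exact_mod_cast (by omega : 0 < f.natDegree)) hu
    rw [ih _ hu']
    congr 1
    push_cast
    ring

theorem it_filled (n : ℕ) (w : ℂ) : (It f n).eval w ∈ filledJulia f ↔ w ∈ filledJulia f := by
  rw [It_eval]
  induction n generalizing w with
  | zero => simp
  | succ n ih => rw [Function.iterate_succ_apply, ih, Jul.inv_filled]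

/-- the tail of a ray is closed -/
theorem tail_closed (hP : Half f P) (hinf : ∀ R : ℝ, ∃ M : ℝ, ∀ u : ℂ, M ≤ u.re → R ≤ ‖P u‖)
    (t₀ s₂ : ℝ) (hs : 0 < s₂) :
    IsClosed ((fun s : ℝ => P (s + t₀ * Complex.I)) '' Set.Ici s₂) := by
  refine isClosed_of_closure_subset fun z hz => ?_
  obtain ⟨M, hM⟩ := hinf (‖z‖ + 1)
  have h1 : (fun s : ℝ => P (s + t₀ * Complex.I)) '' Set.Ici s₂ ⊆
      (fun s : ℝ => P (s + t₀ * Complex.I)) '' Set.Icc s₂ M ∪ {w | ‖z‖ + 1 ≤ ‖w‖} := by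
    rintro _ ⟨s, hs', rfl⟩
    rcases le_total s M with h | h
    · exact Or.inl ⟨s, ⟨hs', h⟩, rfl⟩
    · refine Or.inr (hM _ ?_)
      simpa using h
  have h2 : IsClosed ((fun s : ℝ => P (s + t₀ * Complex.I)) '' Set.Icc s₂ M) := by
    refine (isCompact_Icc.image_of_continuousOn fun s hs' => ?_).isClosed
    have h3 : ContinuousAt P ((s : ℂ) + t₀ * Complex.I) := by
      refine hP.diff.continuousOn.continuousAt (Jul.isOpen_HP.mem_nhds ?_)
      change 0 < ((s : ℂ) + t₀ * Complex.I).re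
      simpa using lt_of_lt_of_le hs hs'.1
    have h4 : Continuous fun s : ℝ => ((s : ℂ) + t₀ * Complex.I) := by fun_prop
    exact (ContinuousAt.comp (f := fun s : ℝ => ((s : ℂ) + t₀ * Complex.I)) h3
      h4.continuousAt).continuousWithinAt
  have h3 : z ∈ closure ((fun s : ℝ => P (s + t₀ * Complex.I)) '' Set.Icc s₂ M ∪
      {w | ‖z‖ + 1 ≤ ‖w‖}) := closure_mono h1 hz
  rw [IsClosed.closure_eq (h2.union (isClosed_le continuous_const continuous_norm))] at h3
  rcases h3 with h3 | h3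
  · obtain ⟨s, hs', rfl⟩ := h3
    exact ⟨s, hs'.1, rfl⟩
  · have : ‖z‖ + 1 ≤ ‖z‖ := h3
    linarith

end half

/-! ### Chains of balls -/

theorem chain {S : Set ℂ} (hS : IsPreconnected S) (Y : Finset ℂ) (B : ℂ → Set ℂ)
    (hB : ∀ y ∈ Y, IsOpen (B y)) (hcov : ∀ x ∈ S, ∃ y ∈ Y, x ∈ B y) (G : ℂ → ℂ) {ε : ℝ}
    (h : ∀ y ∈ Y, ∀ p ∈ S, p ∈ B y → ∀ q ∈ S, q ∈ B y → ‖G p - G q‖ ≤ ε) {p q : ℂ}
    (hp : p ∈ S) (hq : q ∈ S) : ‖G p - G q‖ ≤ Y.card * ε := by
  classical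
  let Gr : SimpleGraph {y // y ∈ Y} :=
    { Adj := fun a b => a ≠ b ∧ (S ∩ (B a ∩ B b)).Nonempty
      symm := ⟨fun a b hab => ⟨hab.1.symm, by rw [inter_comm (B b)]; exact hab.2⟩⟩
      loopless := ⟨fun a ha => ha.1 rfl⟩ }
  have hwalk : ∀ (a b : {y // y ∈ Y}) (w : Gr.Walk a b), ∀ p ∈ S, p ∈ B a → ∀ q ∈ S, q ∈ B b →
      ‖G p - G q‖ ≤ (w.length + 1) * ε := by
    intro a b w
    induction w with
    | nil =>
      intro p hp hpa q hq hqb
      simpa using h _ (Subtype.mem _) p hp hpa q hq hqb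
    | cons hadj w ih =>
      intro p hp hpa q hq hqb
      obtain ⟨x, hxS, hxa, hxb⟩ := hadj.2
      have h1 := h _ (Subtype.mem _) p hp hpa x hxS hxa
      have h2 := ih x hxS hxb q hq hqb
      rw [SimpleGraph.Walk.length_cons]
      push_cast
      calc ‖G p - G q‖ = ‖(G p - G x) + (G x - G q)‖ := by rw [sub_add_sub_cancel]
        _ ≤ ‖G p - G x‖ + ‖G x - G q‖ := norm_add_le _ _
        _ ≤ ε + (w.length + 1) * ε := add_le_add h1 h2
        _ = _ := by ring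
  obtain ⟨a, ha, hpa⟩ := hcov p hp
  obtain ⟨b, hb, hqb⟩ := hcov q hq
  have hreach : Gr.Reachable ⟨a, ha⟩ ⟨b, hb⟩ := by
    by_contra hcon
    have hU : IsOpen (⋃ y : {y : {y // y ∈ Y} // Gr.Reachable ⟨a, ha⟩ y}, B y.1) :=
      isOpen_iUnion fun y => hB _ (Subtype.mem _)
    have hV : IsOpen (⋃ y : {y : {y // y ∈ Y} // ¬ Gr.Reachable ⟨a, ha⟩ y}, B y.1) :=
      isOpen_iUnion fun y => hB _ (Subtype.mem _)
    obtain ⟨x, hxS, hxU, hxV⟩ := hS _ _ hU hV (fun x hx => by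
      obtain ⟨y, hy, hxy⟩ := hcov x hx
      by_cases hr : Gr.Reachable ⟨a, ha⟩ ⟨y, hy⟩
      · exact Or.inl (mem_iUnion.2 ⟨⟨⟨y, hy⟩, hr⟩, hxy⟩)
      · exact Or.inr (mem_iUnion.2 ⟨⟨⟨y, hy⟩, hr⟩, hxy⟩))
      ⟨p, hp, mem_iUnion.2 ⟨⟨⟨a, ha⟩, SimpleGraph.Reachable.refl _⟩, hpa⟩⟩
      ⟨q, hq, mem_iUnion.2 ⟨⟨⟨b, hb⟩, hcon⟩, hqb⟩⟩
    obtain ⟨⟨y, hy⟩, hxy⟩ := mem_iUnion.1 hxU
    obtain ⟨⟨y', hy'⟩, hxy'⟩ := mem_iUnion.1 hxV
    apply hy'
    have hne : y ≠ y' := by
      rintro rfl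
      exact hy' hy
    exact hy.trans (SimpleGraph.Adj.reachable ⟨hne, x, hxS, hxy, hxy'⟩)
  obtain ⟨w, hw⟩ := hreach.exists_isPath
  have h1 := hwalk _ _ w p hp hpa q hq hqb
  have h2 := hw.length_lt
  rw [Fintype.card_coe] at h2
  have h3 : 0 ≤ ε := (norm_nonneg _).trans (h a ha p hp hpa p hp hpa)
  have h4 : ((w.length : ℝ) + 1) ≤ Y.card := by exact_mod_cast h2
  exact h1.trans (mul_le_mul_of_nonneg_right h4 h3)

/-! ### Components -/

theorem rest_open {U : Set ℂ} (hU : IsOpen U) (x : ℂ) : IsOpen (U \ connectedComponentIn U x) := by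
  have h : U \ connectedComponentIn U x =
      ⋃ y ∈ U \ connectedComponentIn U x, connectedComponentIn U y := by
    ext z
    rw [mem_iUnion₂]
    constructor
    · intro hz
      exact ⟨z, hz, mem_connectedComponentIn hz.1⟩
    · rintro ⟨y, hy, hz⟩
      refine ⟨connectedComponentIn_subset _ _ hz, fun hzx => hy.2 ?_⟩
      rw [connectedComponentIn_eq hzx, ← connectedComponentIn_eq hz]
      exact mem_connectedComponentIn hy.1
  rw [h]
  exact isOpen_biUnion fun y _ => hU.connectedComponentIn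

/-- disjoint predicates on a multiset -/
theorem sum_card_le {ι : Type} (S : Finset ι) (Q : ι → Set ℂ) (dec : ∀ i, DecidablePred (· ∈ Q i))
    (hQ : ∀ i ∈ S, ∀ j ∈ S, i ≠ j → Disjoint (Q i) (Q j)) (ρ : Multiset ℂ) :
    ∑ i ∈ S, (ρ.filter (· ∈ Q i)).card ≤ ρ.card := by
  classical
  induction ρ using Multiset.induction_on with
  | empty => simp
  | cons a ρ ih =>
    have h1 : ∀ i, ((a ::ₘ ρ).filter (· ∈ Q i)).card =
        (if a ∈ Q i then 1 else 0) + (ρ.filter (· ∈ Q i)).card := by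
      intro i
      by_cases h : a ∈ Q i
      · rw [Multiset.filter_cons_of_pos _ h, Multiset.card_cons, if_pos h, add_comm]
      · rw [Multiset.filter_cons_of_neg _ h, if_neg h, zero_add]
    rw [Finset.sum_congr rfl fun i _ => h1 i, Finset.sum_add_distrib, Multiset.card_cons, add_comm]
    refine add_le_add ih ?_
    rw [Finset.sum_ite, Finset.sum_const_zero, add_zero, Finset.sum_const, smul_eq_mul, mul_one,
      Finset.card_le_one]
    intro i hi j hj
    by_contra hij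
    rw [Finset.mem_filter] at hi hj
    exact Set.disjoint_left.1 (hQ i hi.1 j hj.1 hij) hi.2 hj.2

/-! ### Oscillation -/

theorem osc_of_rect {P : ℂ → ℂ} {d : ℕ} (hd : 2 ≤ d) {η α β δ : ℝ} (hη : 0 < η) {n j : ℕ}
    (hs : ∀ u ∈ Rect η α β, ∀ v ∈ Rect η α β,
      ‖P ((u + j * Complex.I) / (d : ℂ) ^ n) - P ((v + j * Complex.I) / (d : ℂ) ^ n)‖ ≤ δ)
    {t : ℝ} (ht : t ∈ Set.Ioo α β) : Osc P δ ((t + j) / (d : ℝ) ^ n) := by
  have hne0 : (d : ℂ) ≠ 0 := by exact_mod_cast (by omega : d ≠ 0)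
  have hne : (d : ℂ) ^ n ≠ 0 := pow_ne_zero _ hne0
  have hpos : (0 : ℝ) < (d : ℝ) ^ n := by
    have : (0 : ℝ) < d := by exact_mod_cast (by omega : 0 < d)
    positivity
  set N : Set ℂ := {v | ((d : ℂ) ^ n * v - j * Complex.I).re < η ∧
    α < ((d : ℂ) ^ n * v - j * Complex.I).im ∧
    ((d : ℂ) ^ n * v - j * Complex.I).im < β} with hN
  have hNo : IsOpen N := by
    have hc : Continuous fun v : ℂ => (d : ℂ) ^ n * v - j * Complex.I := by fun_prop
    exact ((isOpen_lt (Complex.continuous_re.comp hc) continuous_const).inter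
      ((isOpen_lt continuous_const (Complex.continuous_im.comp hc)).inter
        (isOpen_lt (Complex.continuous_im.comp hc) continuous_const)))
  have hmem : (((t + j) / (d : ℝ) ^ n : ℝ) : ℂ) * Complex.I ∈ N := by
    have h1 : (d : ℂ) ^ n * ((((t + j) / (d : ℝ) ^ n : ℝ) : ℂ) * Complex.I) -
        j * Complex.I = t * Complex.I := by
      push_cast
      field_simp
      ring
    rw [hN, Set.mem_ofPred_eq, h1]
    refine ⟨?_, ?_, ?_⟩
    · simpa using hη
    · simpa using ht.1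
    · simpa using ht.2
  refine ⟨N, hNo.mem_nhds hmem, ?_⟩
  have key : ∀ v ∈ N ∩ HP, ∃ u ∈ Rect η α β, v = (u + j * Complex.I) / (d : ℂ) ^ n := by
    rintro v ⟨hv, hv0⟩
    have hu : (d : ℂ) ^ n * v - j * Complex.I ∈ Rect η α β := by
      refine ⟨?_, hv⟩
      have h2 : ((d : ℂ) ^ n * v - j * Complex.I).re = (d : ℝ) ^ n * v.re := by
        have h3 : (d : ℂ) ^ n = (((d : ℝ) ^ n : ℝ) : ℂ) := by push_cast; rfl
        rw [h3, Complex.sub_re, Complex.re_ofReal_mul]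
        simp
      rw [h2]
      exact mul_pos hpos hv0
    refine ⟨_, hu, ?_⟩
    field_simp
    ring
  intro u hu v hv
  obtain ⟨z, hz, h1⟩ := key u hu
  obtain ⟨z', hz', h2⟩ := key v hv
  rw [h1, h2]
  exact hs z hz z' hz'

/-! ### The set `V0` -/

section v0

variable {f : ℂ[X]} {P : ℂ → ℂ} {θ η t₀ s₂ : ℝ} {v : ℂ} {A : Set ℂ}

theorem base_mem (hη : 0 < η) : ((η / 2 : ℝ) : ℂ) + θ * Complex.I ∈ Rect η (θ - η) (θ + η) := by
  refine ⟨?_, ?_, ?_, ?_⟩ <;> simp <;> linarith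

theorem v0_open (hP : Half f P) (hinf : ∀ R : ℝ, ∃ M : ℝ, ∀ u : ℂ, M ≤ u.re → R ≤ ‖P u‖)
    (hA : ArcData f P θ v η t₀ s₂ A) : IsOpen (V0 P θ η t₀ s₂ A) := by
  refine IsOpen.connectedComponentIn ?_
  exact (hA.cpt.isClosed.union (tail_closed hP hinf t₀ s₂ (hA.hη.trans hA.hs))).isOpen_compl

theorem v0_pre : IsPreconnected (V0 P θ η t₀ s₂ A) := isPreconnected_connectedComponentIn

theorem closure_sub (hP : Half f P) (hA : ArcData f P θ v η t₀ s₂ A) :
    closure (P '' Rect η (θ - η) (θ + η)) ⊆ V0 P θ η t₀ s₂ A := by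
  have hcont : ContinuousOn P (Rect η (θ - η) (θ + η)) :=
    hP.diff.continuousOn.mono (rect_sub _ _ _)
  have hpre : IsPreconnected (closure (P '' Rect η (θ - η) (θ + η))) :=
    ((rect_preconnected _ _ _).image P hcont).closure
  refine hpre.subset_connectedComponentIn (subset_closure ⟨_, base_mem hA.hη, rfl⟩) ?_
  intro z hz hcut
  rcases hcut with h | ⟨s, hs, rfl⟩
  · exact Set.disjoint_left.1 hA.cell h hz
  · have ho : IsOpen (P '' {u : ℂ | η < u.re}) := by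
      refine Jul.half_open hP _ (fun u hu => ?_) (isOpen_lt continuous_const Complex.continuous_re)
      exact hA.hη.trans hu
    have hm : P (s + t₀ * Complex.I) ∈ P '' {u : ℂ | η < u.re} := by
      refine ⟨_, ?_, rfl⟩
      change η < ((s : ℂ) + t₀ * Complex.I).re
      simpa using lt_of_lt_of_le hA.hs hs
    obtain ⟨_, ⟨a, ha, rfl⟩, ⟨b, hb, hab⟩⟩ := mem_closure_iff.1 hz _ ho hm
    obtain ⟨j, hj⟩ := hP.inj b (rect_sub _ _ _ hb) a (hA.hη.trans ha) hab
    have h1 : b.re = a.re := by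
      rw [hj]
      simp
    have h2 : η < a.re := ha
    have h3 : b.re < η := hb.2.1
    linarith

theorem ray_in (hP : Half f P) (hA : ArcData f P θ v η t₀ s₂ A) {u : ℂ}
    (hu : u ∈ Rect η (θ - η) (θ + η)) : P u ∈ V0 P θ η t₀ s₂ A :=
  closure_sub hP hA (subset_closure ⟨u, hu, rfl⟩)

/-- the covering of the closure of the small cell -/
theorem cover (hP : Half f P) (hinf : ∀ R : ℝ, ∃ M : ℝ, ∀ u : ℂ, M ≤ u.re → R ≤ ‖P u‖)
    (hA : ArcData f P θ v η t₀ s₂ A) :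
    ∃ (r ρ₀ : ℝ) (Y : Finset ℂ), 0 < r ∧
      (∀ u ∈ Rect (min η 1) (θ - η) (θ + η), ∃ y ∈ Y, P u ∈ Metric.ball y r) ∧
      (∀ y ∈ Y, Metric.ball y (2 * r) ⊆ V0 P θ η t₀ s₂ A) ∧
      (∀ y ∈ Y, ∀ z ∈ Metric.ball y (2 * r), ‖z‖ ≤ ρ₀) := by
  set R' := Rect (min η 1) (θ - η) (θ + η) with hR'
  have hsub : R' ⊆ Rect η (θ - η) (θ + η) := fun u hu =>
    ⟨hu.1, hu.2.1.trans_le (min_le_left _ _), hu.2.2⟩
  obtain ⟨B, hB⟩ := hP.bdd
  have hbd : closure (P '' R') ⊆ Metric.closedBall 0 B := by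
    refine closure_minimal ?_ Metric.isClosed_closedBall
    rintro _ ⟨u, hu, rfl⟩
    rw [mem_closedBall_zero_iff]
    exact hB u hu.1 (hu.2.1.le.trans (min_le_right _ _))
  have hcpt : IsCompact (closure (P '' R')) :=
    (isCompact_closedBall 0 B).of_isClosed_subset isClosed_closure hbd
  have hV : closure (P '' R') ⊆ V0 P θ η t₀ s₂ A :=
    (closure_mono (image_mono hsub)).trans (closure_sub hP hA)
  obtain ⟨δ₀, hδ₀, hth⟩ := hcpt.exists_thickening_subset_open (v0_open hP hinf hA) hV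
  obtain ⟨t, hts, htf, htc⟩ := hcpt.finite_cover_balls (half_pos hδ₀)
  refine ⟨δ₀ / 2, B + δ₀, htf.toFinset, half_pos hδ₀, ?_, ?_, ?_⟩
  · intro u hu
    obtain ⟨y, hy, hyu⟩ := mem_iUnion₂.1 (htc (subset_closure ⟨u, hu, rfl⟩))
    exact ⟨y, htf.mem_toFinset.2 hy, hyu⟩
  · intro y hy z hz
    refine hth (Metric.mem_thickening_iff.2 ⟨y, hts (htf.mem_toFinset.1 hy), ?_⟩)
    rw [mul_div_cancel₀ _ (by norm_num : (2 : ℝ) ≠ 0)] at hz
    exact hz
  · intro y hy z hz
    have h1 : ‖y‖ ≤ B := by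
      rw [← mem_closedBall_zero_iff]
      exact hbd (hts (htf.mem_toFinset.1 hy))
    rw [mul_div_cancel₀ _ (by norm_num : (2 : ℝ) ≠ 0), Metric.mem_ball, dist_eq_norm] at hz
    calc ‖z‖ = ‖(z - y) + y‖ := by rw [sub_add_cancel]
      _ ≤ ‖z - y‖ + ‖y‖ := norm_add_le _ _
      _ ≤ B + δ₀ := by linarith

end v0

/-! ### Counting -/

/-- many pieces with few roots -/
theorem many_small (S : Finset ℕ) (m : ℕ → ℕ) (d n : ℕ) (hd : 2 ≤ d) (hS : d ^ n + 1 ≤ S.card)
    (hm : ∑ j ∈ S, m j ≤ d ^ (n + 1)) : d ^ n ≤ 2 * (S.filter fun j => m j ≤ 2 * d).card := by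
  have h1 : (S.filter fun j => ¬ m j ≤ 2 * d).card * (2 * d) ≤ d ^ (n + 1) := by
    calc (S.filter fun j => ¬ m j ≤ 2 * d).card * (2 * d)
        = ∑ j ∈ S.filter fun j => ¬ m j ≤ 2 * d, 2 * d := by rw [Finset.sum_const, smul_eq_mul]
      _ ≤ ∑ j ∈ S.filter fun j => ¬ m j ≤ 2 * d, m j := by
          refine Finset.sum_le_sum fun j hj => ?_
          rw [Finset.mem_filter] at hj
          omega
      _ ≤ ∑ j ∈ S, m j := Finset.sum_le_sum_of_subset (Finset.filter_subset _ _)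
      _ ≤ _ := hm
  have h2 : (S.filter fun j => ¬ m j ≤ 2 * d).card * 2 ≤ d ^ n := by
    have h3 : (S.filter fun j => ¬ m j ≤ 2 * d).card * 2 * d ≤ d ^ n * d := by
      rw [← pow_succ]
      calc _ = (S.filter fun j => ¬ m j ≤ 2 * d).card * (2 * d) := by ring
        _ ≤ _ := h1
    exact Nat.le_of_mul_le_mul_right h3 (by omega)
  have h3 := Finset.card_filter_add_card_filter_not (s := S) (fun j => m j ≤ 2 * d)
  omega

/-- a piece with a small area -/
theorem small_area (S : Finset ℕ) (hne : S.Nonempty) (Q : ℕ → Set ℂ)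
    (hQo : ∀ j ∈ S, IsOpen (Q j))
    (hQ : ∀ i ∈ S, ∀ j ∈ S, i ≠ j → Disjoint (Q i) (Q j)) (R : ℝ) :
    ∃ j ∈ S, (MeasureTheory.volume (Q j ∩ Metric.closedBall 0 R)).toReal ≤
      (MeasureTheory.volume (Metric.closedBall (0 : ℂ) R)).toReal / S.card := by
  have hfin : MeasureTheory.volume (Metric.closedBall (0 : ℂ) R) ≠ ⊤ :=
    (isCompact_closedBall 0 R).measure_lt_top.ne
  have hfin' : ∀ j, MeasureTheory.volume (Q j ∩ Metric.closedBall (0 : ℂ) R) ≠ ⊤ := fun j =>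
    ne_top_of_le_ne_top hfin (MeasureTheory.measure_mono inter_subset_right)
  have h1 : ∑ j ∈ S, (MeasureTheory.volume (Q j ∩ Metric.closedBall (0 : ℂ) R)).toReal ≤
      (MeasureTheory.volume (Metric.closedBall (0 : ℂ) R)).toReal := by
    rw [← ENNReal.toReal_sum fun j _ => hfin' j]
    refine ENNReal.toReal_mono hfin ?_
    rw [← MeasureTheory.measure_biUnion_finset]
    · exact MeasureTheory.measure_mono (iUnion₂_subset fun j _ => inter_subset_right)
    · intro i hi j hj hij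
      exact (hQ i hi j hj hij).mono inter_subset_left inter_subset_left
    · intro j hj
      exact (hQo j hj).measurableSet.inter measurableSet_closedBall
  by_contra hcon
  push Not at hcon
  have h2 := Finset.sum_lt_sum_of_nonempty hne hcon
  rw [Finset.sum_const, nsmul_eq_mul, mul_div_cancel₀] at h2
  · linarith
  · exact_mod_cast (Finset.card_pos.2 hne).ne'

/-- choice of the level -/
theorem choose_n (d : ℕ) (hd : 2 ≤ d) (M Λ κ ρ : ℝ) (hM : 0 ≤ M) (hρ : 0 < ρ) :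
    ∃ n : ℕ, M * Real.sqrt (κ * (2 * Λ / (d : ℝ) ^ n)) < ρ := by
  have hd1 : (1 : ℝ) < d := by exact_mod_cast (by omega : 1 < d)
  obtain ⟨n, hn⟩ := pow_unbounded_of_one_lt (M ^ 2 * (|κ| * (2 * |Λ|)) / ρ ^ 2) hd1
  refine ⟨n, ?_⟩
  have hpos : (0 : ℝ) < (d : ℝ) ^ n := by positivity
  have h1 : κ * (2 * Λ / (d : ℝ) ^ n) ≤ |κ| * (2 * |Λ| / (d : ℝ) ^ n) := by
    refine (le_abs_self _).trans (le_of_eq ?_)
    rw [abs_mul, abs_div, abs_mul, abs_of_pos hpos, abs_of_pos (by norm_num : (0 : ℝ) < 2)]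
  have h2 : M * Real.sqrt (κ * (2 * Λ / (d : ℝ) ^ n)) ≤
      M * Real.sqrt (|κ| * (2 * |Λ| / (d : ℝ) ^ n)) :=
    mul_le_mul_of_nonneg_left (Real.sqrt_le_sqrt h1) hM
  refine lt_of_le_of_lt h2 (lt_of_pow_lt_pow_left₀ 2 hρ.le ?_)
  rw [mul_pow, Real.sq_sqrt (by positivity)]
  rw [div_lt_iff₀ (by positivity)] at hn
  have h3 : M ^ 2 * (|κ| * (2 * |Λ| / (d : ℝ) ^ n)) = M ^ 2 * (|κ| * (2 * |Λ|)) / (d : ℝ) ^ n := by
    ring
  rw [h3, div_lt_iff₀ hpos]
  linarith

/-- a small product has a small factor -/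
theorem near_of_prod {ρ : ℝ} (hρ : 0 < ρ) (hρ1 : ρ ≤ 1) (T : ℂ) (s : Multiset ℂ) {m : ℕ}
    (hs : s.card ≤ m) (h : ‖(s.map fun z => T - z).prod‖ < ρ ^ m) : ∃ z ∈ s, ‖T - z‖ ≤ ρ := by
  by_contra hcon
  push Not at hcon
  have h1 := Inv.prod_ge hρ T s fun a ha => (hcon a ha).le
  have h2 : ∀ s : Multiset ℂ, ‖(s.map fun z => T - z).prod‖ = (s.map fun a => ‖T - a‖).prod := by
    intro s
    induction s using Multiset.induction_on with
    | empty => simp
    | cons a s ih =>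
      rw [Multiset.map_cons, Multiset.prod_cons, norm_mul, ih, Multiset.map_cons,
        Multiset.prod_cons]
  have h3 : ρ ^ m ≤ ρ ^ s.card := pow_le_pow_of_le_one hρ.le hρ1 hs
  rw [h2] at h
  linarith

theorem sub_C_ne_zero (F : ℂ[X]) (h : 1 ≤ F.natDegree) (a : ℂ) : F - C a ≠ 0 := by
  intro h0
  have := congrArg natDegree h0
  rw [natDegree_sub_C, natDegree_zero] at this
  omega

end Cv8

open Cv8 in
/-- Row CV8. -/
theorem cv8 (pth : PthStatement) (deg : DegStatement) (sep : SepStatement)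
    (eng : EngStatement) : Cv8Statement := by
  classical
  intro f ψ hd hψ θ c A₀ hc hpre hunb hdisj hcA δ hδ
  -- the half plane model
  obtain ⟨P, hPdef⟩ : ∃ P : ℂ → ℂ, P = fun u => ψ (Complex.exp (2 * Real.pi * u)) := ⟨_, rfl⟩
  have hP : Half f P := by rw [hPdef]; exact (half f ψ hd hψ).1
  have hinf : ∀ R : ℝ, ∃ M : ℝ, ∀ u : ℂ, M ≤ u.re → R ≤ ‖P u‖ := by
    rw [hPdef]; exact inf f ψ hψ
  have hcK : c ∈ filledJulia f := crit_mem hP (by omega : 1 ≤ f.natDegree) hP.semi hc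
  have hvK : f.eval c ∈ filledJulia f := (Jul.inv_filled f c).2 hcK
  obtain ⟨η, t₀, s₂, A, hA⟩ := pth f ψ hd hψ θ (f.eval c) A₀ hvK hpre hunb hdisj hcA
  rw [← hPdef] at hA ⊢
  -- the covering
  obtain ⟨r, ρ₀, Y, hr, hcov, hYV, hYb⟩ := cover hP hinf hA
  obtain ⟨R₀, hR₀⟩ := exists_bound hd ρ₀
  set R := max R₀ 1 with hRdef
  have hR : 0 < R := lt_of_lt_of_le one_pos (le_max_right _ _)
  -- the constants
  choose! κ hκ using fun m => eng m R r hR hr
  set κ' : ℝ := ∑ m ∈ Finset.range (2 * f.natDegree + 1), |κ m| with hκ'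
  have hκle : ∀ m ≤ 2 * f.natDegree, κ m ≤ κ' := fun m hm =>
    (le_abs_self _).trans (Finset.single_le_sum (f := fun m => |κ m|) (fun i _ => abs_nonneg _)
      (Finset.mem_range.2 (by omega)))
  have hκ0 : 0 ≤ κ' := Finset.sum_nonneg fun i _ => abs_nonneg _
  set Λ : ℝ := (MeasureTheory.volume (Metric.closedBall (0 : ℂ) R)).toReal with hΛ
  have hΛ0 : 0 ≤ Λ := ENNReal.toReal_nonneg
  have hdR : (0 : ℝ) < f.natDegree := by exact_mod_cast (by omega : 0 < f.natDegree)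
  set ρ : ℝ := min 1 (δ / (4 * f.natDegree)) with hρdef
  have hρ : 0 < ρ := lt_min one_pos (by positivity)
  have hρ1 : ρ ≤ 1 := min_le_left _ _
  obtain ⟨n, hn⟩ := choose_n f.natDegree hd Y.card Λ κ' (ρ ^ (2 * f.natDegree))
    (Nat.cast_nonneg _) (pow_pos hρ _)
  -- the pieces
  obtain ⟨S, hSlt, hScard, hSne⟩ := sep f P hd hP hinf θ c η t₀ s₂ A hc hA n
  set F : ℂ[X] := It f (n + 1) with hF
  have hFdeg : F.natDegree = f.natDegree ^ (n + 1) := It_deg _
  have hFdeg1 : 1 ≤ F.natDegree := by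
    rw [hFdeg]; exact Nat.one_le_pow _ _ (by omega)
  have hFe : ∀ w, F.eval w = (fun w => f.eval w)^[n + 1] w := It_eval _
  set V := V0 P θ η t₀ s₂ A with hV
  have hVo : IsOpen V := v0_open hP hinf hA
  set U : Set ℂ := (fun w => f.eval w)^[n + 1] ⁻¹' V with hU
  have hUo : IsOpen U := hVo.preimage (f.continuous.iterate _)
  have hUF : ∀ z, F.eval z ∈ V → z ∈ U := fun z hz => by
    rw [hU, mem_preimage, ← hFe]; exact hz
  set x : ℕ → ℂ := fun j =>
    P (((η / 2 : ℝ) + (θ + j : ℝ) * Complex.I) / f.natDegree ^ (n + 1)) with hx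
  set O : ℕ → Set ℂ := fun j => Cc f P θ η t₀ s₂ A (n + 1) j with hO
  have hOdef : ∀ j, O j = connectedComponentIn U (x j) := fun j => rfl
  have hOo : ∀ j, IsOpen (O j) := fun j => hUo.connectedComponentIn
  have hOU : ∀ j, O j ⊆ U := fun j => connectedComponentIn_subset _ _
  have hOdisj : ∀ i ∈ S, ∀ j ∈ S, i ≠ j → Disjoint (O i) (O j) := by
    intro i hi j hj hij
    rw [Set.disjoint_left]
    intro z hzi hzj
    apply hSne i hi j hj hij
    change O i = O j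
    rw [hOdef] at hzi hzj ⊢
    rw [hOdef, connectedComponentIn_eq hzi, ← connectedComponentIn_eq hzj]
  -- numbers of roots
  set w₀ : ℂ := P (((η / 2 : ℝ) : ℂ) + θ * Complex.I) with hw₀
  have hw₀V : w₀ ∈ V := ray_in hP hA (base_mem hA.hη)
  set m : ℕ → ℕ := fun j => ((F - C w₀).roots.filter (· ∈ O j)).card with hm
  have hmc : ∀ j, ∀ w ∈ V, ((F - C w).roots.filter (· ∈ O j)).card = m j := by
    intro j w hw
    refine deg F V (O j) (U \ O j) hFdeg1 v0_pre (hOo j) (rest_open hUo _) ?_ ?_ w hw w₀ hw₀V _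
    · intro z hz
      by_cases h : z ∈ O j
      · exact Or.inl h
      · exact Or.inr ⟨hUF z hz, h⟩
    · intro z _ hz hz'
      exact hz'.2 hz
  have hmsum : ∑ j ∈ S, m j ≤ f.natDegree ^ (n + 1) := by
    refine (sum_card_le S O (fun i => Classical.decPred _) hOdisj (F - C w₀).roots).trans ?_
    rw [← hFdeg, ← natDegree_sub_C (a := w₀)]
    exact card_roots' _
  have hsmall := many_small S m f.natDegree n hd hScard hmsum
  set S' := S.filter fun j => m j ≤ 2 * f.natDegree with hS'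
  have hdn : 0 < f.natDegree ^ n := Nat.pow_pos (by omega)
  have hS'ne : S'.Nonempty := Finset.card_pos.1 (by omega)
  obtain ⟨j, hjS', harea⟩ := small_area S' hS'ne O (fun j _ => hOo j)
    (fun a ha b hb hab => hOdisj a (Finset.mem_filter.1 ha).1 b (Finset.mem_filter.1 hb).1 hab) R
  have hjS : j ∈ S := (Finset.mem_filter.1 hjS').1
  have hmj : m j ≤ 2 * f.natDegree := (Finset.mem_filter.1 hjS').2
  have hareaj : (MeasureTheory.volume (O j ∩ Metric.closedBall 0 R)).toReal ≤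
      2 * Λ / (f.natDegree : ℝ) ^ n := by
    refine harea.trans ?_
    have h1 : (f.natDegree : ℝ) ^ n ≤ 2 * S'.card := by exact_mod_cast hsmall
    have h2 : (0 : ℝ) < (f.natDegree : ℝ) ^ n := by positivity
    have h3 : (0 : ℝ) < S'.card := by exact_mod_cast Finset.card_pos.2 hS'ne
    rw [div_le_div_iff₀ h3 h2]
    calc Λ * (f.natDegree : ℝ) ^ n ≤ Λ * (2 * S'.card) := mul_le_mul_of_nonneg_left h1 hΛ0
      _ = 2 * Λ * S'.card := by ring
  -- the branch
  set z : ℂ → ℂ := fun u => P ((u + j * Complex.I) / (f.natDegree : ℂ) ^ (n + 1)) with hz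
  have hFz : ∀ u ∈ HP, F.eval (z u) = P u := by
    intro u hu
    rw [hz, hF, semi_it hd hP (n + 1) _ (div_mem_HP hd hu j (n + 1))]
    have h1 : ((f.natDegree ^ (n + 1) : ℕ) : ℂ) * ((u + j * Complex.I) /
        (f.natDegree : ℂ) ^ (n + 1)) = u + j * Complex.I := by
      have h2 : (f.natDegree : ℂ) ^ (n + 1) ≠ 0 :=
        pow_ne_zero _ (by exact_mod_cast (by omega : f.natDegree ≠ 0))
      push_cast
      rw [mul_div_cancel₀ _ h2]
    rw [h1, per_nat hP]
  have hzc : ContinuousOn z HP := by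
    refine hP.diff.continuousOn.comp (Continuous.continuousOn (by fun_prop)) fun u hu => ?_
    exact div_mem_HP hd hu j (n + 1)
  have hxj : x j = z (((η / 2 : ℝ) : ℂ) + θ * Complex.I) := by
    rw [hx, hz]
    change P _ = P _
    congr 1
    push_cast
    ring
  have hzO : ∀ u ∈ Rect η (θ - η) (θ + η), z u ∈ O j := by
    intro u hu
    rw [hOdef]
    refine ((rect_preconnected η (θ - η) (θ + η)).image z
      (hzc.mono (rect_sub _ _ _))).subset_connectedComponentIn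
      ⟨_, base_mem hA.hη, hxj.symm⟩ ?_ ⟨u, hu, rfl⟩
    rintro _ ⟨a, ha, rfl⟩
    refine hUF _ ?_
    rw [hFz a ha.1]
    exact ray_in hP hA ha
  have hsub : Rect (min η 1) (θ - η) (θ + η) ⊆ Rect η (θ - η) (θ + η) := fun u hu =>
    ⟨hu.1, hu.2.1.trans_le (min_le_left _ _), hu.2.2⟩
  -- bounds
  have hbd : ∀ y ∈ Y, ∀ w, F.eval w ∈ Metric.ball y (2 * r) → ‖w‖ ≤ R := by
    intro y hy w hw
    refine (hR₀ (n + 1) w ?_).trans (le_max_left _ _)
    rw [← hFe]
    exact hYb y hy _ hw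
  have hroot : ∀ u ∈ Rect η (θ - η) (θ + η),
      z u ∈ (F - C (P u)).roots.filter (· ∈ O j) := by
    intro u hu
    rw [Multiset.mem_filter]
    refine ⟨(mem_roots (sub_C_ne_zero F hFdeg1 _)).2 ?_, hzO u hu⟩
    rw [IsRoot.def, eval_sub, eval_C, hFz u hu.1, sub_self]
  have hcrit : ∀ u ∈ HP, ∀ c, F.derivative.eval c = 0 → F.eval c ≠ P u := by
    intro u hu c hc heq
    have h1 : c ∈ filledJulia f := by
      refine crit_mem hP (D := f.natDegree ^ (n + 1)) (Nat.one_le_pow _ _ (by omega)) ?_ hc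
      exact semi_it hd hP (n + 1)
    have h2 : F.eval c ∈ filledJulia f := (it_filled (n + 1) c).2 h1
    have h3 : P u ∈ (filledJulia f)ᶜ := by
      rw [← hP.range]
      exact ⟨u, hu, rfl⟩
    rw [heq] at h2
    exact h3 h2
  -- energy on one ball
  have hball : ∀ T : ℂ, ‖T‖ ≤ R → ∀ y ∈ Y, ∀ p ∈ P '' Rect (min η 1) (θ - η) (θ + η),
      p ∈ Metric.ball y r → ∀ q ∈ P '' Rect (min η 1) (θ - η) (θ + η), q ∈ Metric.ball y r →
      ‖(((F - C p).roots.filter (· ∈ O j)).map fun z => T - z).prod -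
        (((F - C q).roots.filter (· ∈ O j)).map fun z => T - z).prod‖ ≤
      Real.sqrt (κ' * (2 * Λ / (f.natDegree : ℝ) ^ n)) := by
    rintro T hT y hy _ ⟨u, hu, rfl⟩ hp _ ⟨v, hv, rfl⟩ hq
    have h1 := hκ (m j) F y (O j) (U \ O j) hFdeg1 (hOo j) (rest_open hUo _)
      (fun z hz => by
        by_cases h : z ∈ O j
        · exact Or.inl h
        · exact Or.inr ⟨hUF z (hYV y hy hz), h⟩)
      disjoint_sdiff_right (Classical.decPred _)
      (fun w hw => by
        rw [← hmc j w (hYV y hy hw)])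
      (hbd y hy) T hT (P u) hp (P v) hq
      (fun c hc => ⟨hcrit u hu.1 c hc, hcrit v hv.1 c hc⟩)
    refine Real.le_sqrt_of_sq_le ?_
    have h2 : (MeasureTheory.volume (O j ∩ (fun z => F.eval z) ⁻¹' Metric.ball y (2 * r))).toReal ≤
        2 * Λ / (f.natDegree : ℝ) ^ n := by
      refine le_trans (ENNReal.toReal_mono ?_ (MeasureTheory.measure_mono ?_)) hareaj
      · exact ne_top_of_le_ne_top (isCompact_closedBall (0 : ℂ) R).measure_lt_top.ne
          (MeasureTheory.measure_mono inter_subset_right)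
      · rintro w ⟨hw1, hw2⟩
        exact ⟨hw1, by rw [mem_closedBall_zero_iff]; exact hbd y hy w hw2⟩
    calc _ ≤ κ (m j) * _ := h1
      _ ≤ κ' * _ := mul_le_mul_of_nonneg_right (hκle _ hmj) ENNReal.toReal_nonneg
      _ ≤ κ' * (2 * Λ / (f.natDegree : ℝ) ^ n) := mul_le_mul_of_nonneg_left h2 hκ0
  -- a root near each point
  have hnear : ∀ u₁ ∈ Rect (min η 1) (θ - η) (θ + η), ∀ u₂ ∈ Rect (min η 1) (θ - η) (θ + η),
      ∃ a ∈ (F - C (P u₂)).roots.filter (· ∈ O j), ‖z u₁ - a‖ ≤ ρ := by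
    intro u₁ hu₁ u₂ hu₂
    obtain ⟨y, hy, hyu⟩ := hcov u₁ hu₁
    have hT : ‖z u₁‖ ≤ R := by
      refine hbd y hy _ ?_
      rw [hFz u₁ hu₁.1]
      exact Metric.ball_subset_ball (by linarith) hyu
    have h1 := chain (S := P '' Rect (min η 1) (θ - η) (θ + η))
      ((rect_preconnected _ _ _).image P (hP.diff.continuousOn.mono (rect_sub _ _ _))) Y
      (fun y => Metric.ball y r) (fun y _ => Metric.isOpen_ball)
      (by rintro _ ⟨u, hu, rfl⟩; exact hcov u hu)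
      (fun p => (((F - C p).roots.filter (· ∈ O j)).map fun w => z u₁ - w).prod)
      (hball (z u₁) hT) ⟨u₂, hu₂, rfl⟩ ⟨u₁, hu₁, rfl⟩
    have h2 : (((F - C (P u₁)).roots.filter (· ∈ O j)).map fun w => z u₁ - w).prod = 0 := by
      refine Multiset.prod_eq_zero (Multiset.mem_map.2 ⟨z u₁, hroot u₁ (hsub hu₁), sub_self _⟩)
    simp only [h2, sub_zero] at h1
    refine near_of_prod hρ hρ1 (z u₁) _ (m := 2 * f.natDegree) ?_ (lt_of_le_of_lt h1 hn)
    rw [hmc j _ (ray_in hP hA (hsub hu₂))]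
    exact hmj
  -- the diameter
  refine ⟨(θ + j) / (f.natDegree : ℝ) ^ (n + 1),
    osc_of_rect hd (η := min η 1) (α := θ - η) (β := θ + η) (lt_min hA.hη one_pos) ?_
      ⟨by linarith [hA.hη], by linarith [hA.hη]⟩⟩
  intro u hu v hv
  have h1 := Sml.diam_le (S := z '' Rect (min η 1) (θ - η) (θ + η))
    ((rect_preconnected _ _ _).image z (hzc.mono (rect_sub _ _ _)))
    ((F - C (P u)).roots.filter (· ∈ O j)).toFinset hρ
    (by
      rintro _ ⟨u₁, hu₁, rfl⟩
      obtain ⟨a, ha, hle⟩ := hnear u₁ hu₁ u hu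
      exact ⟨a, Multiset.mem_toFinset.2 ha, hle⟩) ⟨u, hu, rfl⟩ ⟨v, hv, rfl⟩
  refine h1.trans ?_
  have h2 : (((F - C (P u)).roots.filter (· ∈ O j)).toFinset.card : ℝ) ≤ 2 * f.natDegree := by
    have h3 : ((F - C (P u)).roots.filter (· ∈ O j)).toFinset.card ≤ 2 * f.natDegree := by
      refine (Multiset.toFinset_card_le _).trans ?_
      rw [hmc j _ (ray_in hP hA (hsub hu))]
      exact hmj
    exact_mod_cast h3
  have h3 : ρ ≤ δ / (4 * f.natDegree) := min_le_right _ _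
  calc _ ≤ (2 * f.natDegree : ℝ) * (2 * ρ) := mul_le_mul_of_nonneg_right h2 (by positivity)
    _ ≤ (2 * f.natDegree : ℝ) * (2 * (δ / (4 * f.natDegree))) :=
        mul_le_mul_of_nonneg_left (by linarith) (by positivity)
    _ = δ := by field_simp; ring

end Pool.Agent.Imp
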