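import Pool.Agent.Lib.MP_1c105c_an.Defs12
import Pool.Agent.Lib.MP_1c105c_an.Arc
import Pool.Agent.Lib.MP_1c105c_an.Cv8

/-! MP_1c105c_an: unicritical polynomials with small cycles: the Julia set is connected im kleinen
at no point of the closure of the critical orbit except possibly `α`, and the critical orbit is not
dense in the Julia set. -/

set_option autoImplicit false

open Filter Topology Set Polynomial

namespace Pool.Agent.Imp

/-- Good angles land densely. -/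
theorem good_dense {f : ℂ[X]} {ψ : ℂ → ℂ} (hd : 2 ≤ f.natDegree) (hψ : IsInverseBoettcher f ψ)
    (hdim : dimH (goodAngles f ψ)ᶜ < 1) {O : Set ℂ} (hO : IsOpen O) {y : ℂ} (hyO : y ∈ O)
    (hyJ : y ∈ julia f) : ∃ (t : ℝ) (z : ℂ), z ∈ O ∧ CikAt (julia f) z ∧
      HasLim (fun u => ψ (Complex.exp (2 * Real.pi * u))) t z := by
  obtain ⟨hP, -, -⟩ := half f ψ hd hψ
  set P : ℂ → ℂ := fun u => ψ (Complex.exp (2 * Real.pi * u)) with hPdef
  obtain ⟨hKc, -, hJ2, -, hJ5⟩ := jul f P hd hP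
  have hlimiff : ∀ (θ : ℝ) (z : ℂ),
      Tendsto ψ (𝓝[{w : ℂ | 1 < ‖w‖}] Complex.exp (2 * Real.pi * θ * Complex.I)) (𝓝 z) ↔
        HasLim P θ z := fun θ z => Main2.lim_iff ψ θ z
  have hnull : MeasureTheory.volume (goodAngles f ψ)ᶜ = 0 := Main2.null_of_dimH hdim
  have hlim : ∃ (t : ℝ) (z : ℂ), HasLim P t z := by
    obtain ⟨t, ht⟩ : (goodAngles f ψ).Nonempty := by
      by_contra hne
      rw [Set.not_nonempty_iff_eq_empty] at hne
      rw [hne, compl_empty, Real.volume_univ] at hnull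
      exact ENNReal.top_ne_zero hnull
    obtain ⟨z, hz, -⟩ := ht
    exact ⟨t, z, (hlimiff t z).1 hz⟩
  have htwo : ∃ x₀ ∈ filledJulia f, ∃ x₁ ∈ filledJulia f, x₀ ≠ x₁ := by
    obtain ⟨t, z, hz, -⟩ := exc inv f P hd hP hlim ∅
    obtain ⟨t', z', hz', hne⟩ := exc inv f P hd hP hlim {z}
    refine ⟨z, hKc.frontier_subset (hJ5 t z hz), z', hKc.frontier_subset (hJ5 t' z' hz'),
      fun he => hne ?_⟩
    rw [he]
    exact Finset.mem_singleton_self _
  obtain ⟨t₀, ⟨z', hz', hcik'⟩, z, hzO, hz⟩ := den half jul f ψ hd hψ htwo (goodAngles f ψ)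
    (fun t ht => by
      obtain ⟨z, hz, -⟩ := ht
      exact ⟨z, hz⟩) hnull _ hO ⟨y, hyO, hyJ⟩
  have := Main2.neBot t₀
  have hzz : z' = z := tendsto_nhds_unique hz' hz
  rw [hzz] at hcik'
  exact ⟨t₀, z, hzO, hcik', (hlimiff t₀ z).1 hz⟩

theorem land_of_hasLim {P : ℂ → ℂ} {t : ℝ} {z : ℂ} (h : HasLim P t z) : Land P t z := by
  refine h.comp (tendsto_nhdsWithin_iff.2 ⟨?_, ?_⟩)
  · have hc : Continuous fun s : ℝ => (s : ℂ) + t * Complex.I := by fun_prop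
    have := hc.tendsto 0
    simp only [Complex.ofReal_zero, zero_add] at this
    exact this.mono_left nhdsWithin_le_nhds
  · filter_upwards [self_mem_nhdsWithin] with s hs
    show 0 < ((s : ℂ) + t * Complex.I).re
    simpa using hs

theorem meets_frontier {S K : Set ℂ} (hS : IsPreconnected S) (hK : IsClosed K)
    (h1 : (S ∩ K).Nonempty) (h2 : (S ∩ Kᶜ).Nonempty) : (S ∩ frontier K).Nonempty := by
  by_contra hne
  rw [Set.not_nonempty_iff_eq_empty] at hne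
  have hint : ∀ x ∈ S, x ∈ K → x ∈ interior K := by
    intro x hx hxK
    by_contra h
    have : x ∈ S ∩ frontier K := ⟨hx, subset_closure hxK, h⟩
    rw [hne] at this
    exact this
  obtain ⟨x, hx, hxK⟩ := h1
  obtain ⟨z, -, hz1, hz2⟩ := hS (interior K) Kᶜ isOpen_interior hK.isOpen_compl
    (fun x hx => by
      by_cases h : x ∈ K
      · exact Or.inl (hint x hx h)
      · exact Or.inr h) ⟨x, hx, hint x hx hxK⟩ h2
  exact hz2 (interior_subset hz1)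

/-- In a small disc around a point at which `J` is connected im kleinen, the points of `K` are
joined to the point in `K`. -/
theorem cik_filled {K : Set ℂ} {y : ℂ} {ε : ℝ} (hε : 0 < ε)
    (hy : CikAt (frontier K) y) (hKc : IsClosed K) :
    ∃ ρ : ℝ, 0 < ρ ∧ ∀ x ∈ K, ‖x - y‖ < ρ → ∀ x' ∈ frontier K, ‖x' - y‖ < ρ →
      ∃ E : Set ℂ, IsCompact E ∧ IsPreconnected E ∧ E ⊆ K ∧ x ∈ E ∧ x' ∈ E ∧
        ∀ e ∈ E, ‖e - y‖ ≤ ε := by
  obtain ⟨hyJ, hcik⟩ := hy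
  obtain ⟨Y, hYJ, hYc, hYn, hYs⟩ := hcik ε hε
  obtain ⟨U, hU, hyU, hUY⟩ := mem_nhdsWithin.mp hYn
  obtain ⟨ρ', hρ', hρb⟩ := Metric.isOpen_iff.1 hU y hyU
  refine ⟨min ρ' ε, lt_min hρ' hε, fun x hx hxy x' hx' hxy' => ?_⟩
  have hJK : frontier K ⊆ K := hKc.frontier_subset
  have hYmem : ∀ e ∈ frontier K, ‖e - y‖ < min ρ' ε → e ∈ Y := fun e he hey =>
    hUY ⟨hρb (mem_ball_iff_norm.2 (hey.trans_le (min_le_left _ _))), he⟩
  have hyY : y ∈ Y := hYmem y hyJ (by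
    rw [sub_self, norm_zero]
    exact lt_min hρ' hε)
  -- the path from `x` to the frontier
  let γ : ℝ → ℂ := fun τ => x + τ * (y - x)
  have hγ : Continuous γ := by fun_prop
  have hγy : ∀ τ : ℝ, 0 ≤ τ → τ ≤ 1 → ‖γ τ - y‖ < min ρ' ε := by
    intro τ h0 h1
    have h2 : γ τ - y = ((1 - τ : ℝ) : ℂ) * (x - y) := by
      show x + τ * (y - x) - y = _
      push_cast
      ring
    rw [h2, norm_mul, Complex.norm_real, Real.norm_eq_abs, abs_of_nonneg (by linarith)]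
    have h3 : (1 - τ) * ‖x - y‖ ≤ 1 * ‖x - y‖ :=
      mul_le_mul_of_nonneg_right (by linarith) (norm_nonneg _)
    linarith
  obtain ⟨τ₀, h0, h1, hτ₀, hmin⟩ : ∃ τ₀ : ℝ, 0 ≤ τ₀ ∧ τ₀ ≤ 1 ∧ γ τ₀ ∈ frontier K ∧
      ∀ τ, 0 ≤ τ → τ < τ₀ → γ τ ∉ frontier K := by
    set T : Set ℝ := Set.Icc 0 1 ∩ γ ⁻¹' frontier K with hT
    have hTc : IsCompact T := isCompact_Icc.inter_right (isClosed_frontier.preimage hγ)
    have hTn : T.Nonempty := ⟨1, ⟨by norm_num, le_rfl⟩, by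
      show x + ((1 : ℝ) : ℂ) * (y - x) ∈ frontier K
      have : x + ((1 : ℝ) : ℂ) * (y - x) = y := by push_cast; ring
      rw [this]
      exact hyJ⟩
    obtain ⟨τ₀, hτ₀, hm⟩ := hTc.exists_isLeast hTn
    refine ⟨τ₀, hτ₀.1.1, hτ₀.1.2, hτ₀.2, fun τ hτ hlt hmem => ?_⟩
    have := hm ⟨⟨hτ, hlt.le.trans hτ₀.1.2⟩, hmem⟩
    linarith
  have hpath : ∀ τ, 0 ≤ τ → τ ≤ τ₀ → γ τ ∈ K := by
    intro τ hτ hτ1
    rcases hτ1.eq_or_lt with he | hlt
    · rw [he]
      exact hJK hτ₀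
    · by_contra hn
      have hpre : IsPreconnected (γ '' Set.Icc 0 τ) :=
        isPreconnected_Icc.image γ hγ.continuousOn
      obtain ⟨_, ⟨σ, hσ, rfl⟩, hσ'⟩ := meets_frontier hpre hKc
        ⟨γ 0, ⟨0, ⟨le_rfl, hτ⟩, rfl⟩, by
          show x + ((0 : ℝ) : ℂ) * (y - x) ∈ K
          have : x + ((0 : ℝ) : ℂ) * (y - x) = x := by push_cast; ring
          rw [this]
          exact hx⟩
        ⟨γ τ, ⟨τ, ⟨hτ, le_rfl⟩, rfl⟩, hn⟩
      exact hmin σ hσ.1 (hσ.2.trans_lt hlt) hσ'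
  set A : Set ℂ := γ '' Set.Icc 0 τ₀ with hA
  have hAc : IsCompact A := isCompact_Icc.image hγ
  have hAp : IsPreconnected A := isPreconnected_Icc.image γ hγ.continuousOn
  have hτA : γ τ₀ ∈ A := ⟨τ₀, ⟨h0, le_rfl⟩, rfl⟩
  have hτY : γ τ₀ ∈ Y := hYmem _ hτ₀ (hγy τ₀ h0 h1)
  have hsubK : A ∪ Y ⊆ K := by
    rintro e (⟨τ, hτ, rfl⟩ | he)
    · exact hpath τ hτ.1 hτ.2
    · exact hJK (hYJ he)
  have hsub : A ∪ Y ⊆ Metric.closedBall y ε := by
    rintro e (⟨τ, hτ, rfl⟩ | he)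
    · rw [mem_closedBall_iff_norm]
      exact ((hγy τ hτ.1 (hτ.2.trans h1)).trans_le (min_le_right _ _)).le
    · rw [mem_closedBall_iff_norm]
      exact hYs e he
  have hcl : closure (A ∪ Y) ⊆ Metric.closedBall y ε :=
    closure_minimal hsub Metric.isClosed_closedBall
  refine ⟨closure (A ∪ Y), (isCompact_closedBall y ε).of_isClosed_subset isClosed_closure hcl,
    (IsPreconnected.union (γ τ₀) hτA hτY hAp hYc).closure, closure_minimal hsubK hKc,
    subset_closure (Or.inl ⟨0, ⟨le_rfl, h0⟩, ?_⟩), subset_closure (Or.inr (hYmem x' hx' hxy')),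
    fun e he => ?_⟩
  · show x + ((0 : ℝ) : ℂ) * (y - x) = x
    push_cast
    ring
  · have := hcl he
    rwa [mem_closedBall_iff_norm] at this

/-- NCI: the Julia set is not connected im kleinen on the closure of the critical orbit. -/
theorem nci (spad : SpadStatement) {f : ℂ[X]} {ψ : ℂ → ℂ} (hd : 2 ≤ f.natDegree)
    (hψ : IsInverseBoettcher f ψ) {α c : ℂ} (hα : f.eval α = α) (hsm : SmallCycles f α)
    (hc : ∀ z, f.derivative.eval z = 0 → z = c)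
    (hdim : dimH (goodAngles f ψ)ᶜ < 1) {y : ℂ} (hy : y ∈ closure (postcritical f))
    (hyα : y ≠ α) : ¬ CikAt (julia f) y := by
  intro hcik
  obtain ⟨hP, -, -⟩ := half f ψ hd hψ
  have hinf := inf f ψ hψ
  obtain ⟨hKc, -, -, -, -⟩ := jul f _ hd hP
  have hpos : 0 < ‖y - α‖ := norm_pos_iff.2 (sub_ne_zero.2 hyα)
  obtain ⟨ρ, hρ, h⟩ := cik_filled (ε := ‖y - α‖ / 2) (by positivity) hcik hKc
  obtain ⟨x, ⟨c', n, hc', rfl⟩, hxy⟩ := Metric.mem_closure_iff.1 hy ρ hρ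
  obtain ⟨t, w, hwO, hwc, hw⟩ := good_dense hd hψ hdim Metric.isOpen_ball
    (Metric.mem_ball_self hρ) hcik.1
  have hcc : c' = c := hc c' hc'
  subst hcc
  have hxK : (fun w => f.eval w)^[n + 1] c' ∈ filledJulia f := by
    rw [Uco.iter_filled]
    exact Cv8.crit_mem hP (by omega : 1 ≤ f.natDegree) hP.semi hc'
  rw [dist_comm, dist_eq_norm] at hxy
  rw [mem_ball_iff_norm] at hwO
  obtain ⟨E, hEc, hEp, hEK, hxE, hwE, hEs⟩ := h _ hxK hxy w hwc.1 hwO
  have hαE := spad f _ hd hP hinf α c' hα hsm hc E n t w hEc hEp hEK hxE hwE (land_of_hasLim hw)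
  have h1 := hEs α hαE
  rw [norm_sub_rev] at h1
  linarith

/-- The critical orbit is not dense in the Julia set. -/
theorem not_dense (spad : SpadStatement) {f : ℂ[X]} {ψ : ℂ → ℂ} (hd : 2 ≤ f.natDegree)
    (hψ : IsInverseBoettcher f ψ) {α c : ℂ} (hα : f.eval α = α) (hsm : SmallCycles f α)
    (hc : ∀ z, f.derivative.eval z = 0 → z = c)
    (hdim : dimH (goodAngles f ψ)ᶜ < 1) : ¬ julia f ⊆ closure (postcritical f) := by
  intro hsub
  obtain ⟨hP, -, -⟩ := half f ψ hd hψ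
  have hnull : MeasureTheory.volume (goodAngles f ψ)ᶜ = 0 := Main2.null_of_dimH hdim
  set P : ℂ → ℂ := fun u => ψ (Complex.exp (2 * Real.pi * u)) with hPdef
  obtain ⟨hKc, -, hJ2, -, hJ5⟩ := jul f P hd hP
  have hlim : ∃ (t : ℝ) (z : ℂ), HasLim P t z := by
    obtain ⟨t, ht⟩ : (goodAngles f ψ).Nonempty := by
      by_contra hne
      rw [Set.not_nonempty_iff_eq_empty] at hne
      rw [hne, compl_empty, Real.volume_univ] at hnull
      exact ENNReal.top_ne_zero hnull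
    obtain ⟨z, hz, -⟩ := ht
    exact ⟨t, z, (Main2.lim_iff ψ t z).1 hz⟩
  obtain ⟨t, z, hz, hzα⟩ := exc inv f P hd hP hlim {α}
  have hzα' : z ≠ α := fun h => hzα (by rw [h]; exact Finset.mem_singleton_self _)
  have hpos : 0 < ‖z - α‖ := norm_pos_iff.2 (sub_ne_zero.2 hzα')
  obtain ⟨t', w, hwO, hwc, -⟩ := good_dense hd hψ hdim Metric.isOpen_ball
    (Metric.mem_ball_self hpos) (hJ5 t z hz)
  refine nci spad hd hψ hα hsm hc hdim (hsub hwc.1) ?_ hwc
  rintro rfl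
  rw [mem_ball_iff_norm, norm_sub_rev] at hwO
  exact lt_irrefl _ hwO

end Pool.Agent.Imp
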