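import Pool.Agent.Lib.MP_1c105c_an.Spap
import Pool.Agent.Lib.MP_1c105c_an.Nci

/-! MP_1c105c_an: unicritical polynomials with small cycles near a periodic orbit: the Julia set
is connected im kleinen at no point of the closure of the critical orbit outside the periodic
orbit, and the critical orbit is not dense in the Julia set. -/

set_option autoImplicit false

open Filter Topology Set Polynomial

namespace Pool.Agent.Imp

/-- Small repelling cycles along the orbit of `α`. -/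
def SmallCyclesP (f : ℂ[X]) (α : ℂ) : Prop :=
  ∀ ε : ℝ, 0 < ε → ∃ (z : ℂ) (n : ℕ), 1 ≤ n ∧ (fun w => f.eval w)^[n] z = z ∧
    1 < ‖deriv (fun w => f.eval w)^[n] z‖ ∧ z ≠ α ∧
    ∀ k : ℕ, ‖(fun w => f.eval w)^[k] z - (fun w => f.eval w)^[k] α‖ < ε

theorem rays_of_small (dep : DepStatement) {f : ℂ[X]} {P : ℂ → ℂ} (hd : 2 ≤ f.natDegree)
    (hP : Half f P) (hinf : ∀ R : ℝ, ∃ M : ℝ, ∀ u : ℂ, M ≤ u.re → R ≤ ‖P u‖) {α : ℂ}
    (h : SmallCyclesP f α) : RayCyclesP f P α := by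
  intro ε hε
  obtain ⟨z, n, hn, hz, hder, hne, hk⟩ := h ε hε
  obtain ⟨t, k, m, hk1, ht, hl⟩ := dep f P hd hP hinf n z hn hz hder
  exact ⟨z, t, k, m, hk1, ht, hl, hne, hk⟩

theorem cyc_dist {f : ℂ[X]} {α y : ℂ} {p : ℕ} (hp : 1 ≤ p)
    (hα : (fun w => f.eval w)^[p] α = α) (hy : ∀ j : ℕ, y ≠ (fun w => f.eval w)^[j] α) :
    ∃ μ : ℝ, 0 < μ ∧ ∀ j : ℕ, μ ≤ ‖y - (fun w => f.eval w)^[j] α‖ := by
  obtain ⟨k₀, hk₀, hmin⟩ := Finset.exists_min_image (Finset.range p)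
    (fun k => ‖y - (fun w => f.eval w)^[k] α‖) ⟨0, Finset.mem_range.2 hp⟩
  refine ⟨_, norm_pos_iff.2 (sub_ne_zero.2 (hy k₀)), fun k => ?_⟩
  rw [per_mod hα k]
  exact hmin (k % p) (Finset.mem_range.2 (Nat.mod_lt _ hp))

/-- NCI: the Julia set is not connected im kleinen on the closure of the critical orbit, except
possibly at the points of the cycle of `α`. -/
theorem ncip (rotp : RotpStatement) (pul : PulStatement) (crx : CrxdStatement) {f : ℂ[X]}
    {ψ : ℂ → ℂ} (hd : 2 ≤ f.natDegree) (hψ : IsInverseBoettcher f ψ) {α c : ℂ} {p : ℕ}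
    (hp : 1 ≤ p) (hα : (fun w => f.eval w)^[p] α = α)
    (hsm : RayCyclesP f (fun u => ψ (Complex.exp (2 * Real.pi * u))) α)
    (hc : ∀ z, f.derivative.eval z = 0 → z = c)
    (hdim : dimH (goodAngles f ψ)ᶜ < 1) {y : ℂ} (hy : y ∈ closure (postcritical f))
    (hyα : ∀ j : ℕ, y ≠ (fun w => f.eval w)^[j] α) : ¬ CikAt (julia f) y := by
  intro hcik
  obtain ⟨hP, -, -⟩ := half f ψ hd hψ
  have hinf := inf f ψ hψ
  obtain ⟨hKc, -, -, -, -⟩ := jul f _ hd hP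
  obtain ⟨μ, hμ, hμy⟩ := cyc_dist hp hα hyα
  obtain ⟨ρ, hρ, h⟩ := cik_filled (ε := μ / 2) (by positivity) hcik hKc
  obtain ⟨x, ⟨c', n, hc', rfl⟩, hxy⟩ := Metric.mem_closure_iff.1 hy ρ hρ
  obtain ⟨t, w, hwO, hwc, hw⟩ := good_dense hd hψ hdim Metric.isOpen_ball
    (Metric.mem_ball_self hρ) hcik.1
  have hcc : c' = c := hc c' hc'
  subst hcc
  have hxK : (fun w => f.eval w)^[n + 1] c' ∈ filledJulia f := by
    rw [Uco.iter_filled]
    exact Cv8.crit_mem hP (by omega : 1 ≤ f.natDegree) hP.semi hc'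
  rw [dist_comm, dist_eq_norm] at hxy
  rw [mem_ball_iff_norm] at hwO
  obtain ⟨E, hEc, hEp, hEK, hxE, hwE, hEs⟩ := h _ hxK hxy w hwc.1 hwO
  obtain ⟨j, hj⟩ := spap rotp pul crx hd hP hinf hp hα hsm hc hEc hEp hEK hxE hwE
    (land_of_hasLim hw)
  have h1 := hEs _ hj
  rw [norm_sub_rev] at h1
  linarith [hμy j]

/-- The critical orbit is not dense in the Julia set. -/
theorem not_dense_per (rotp : RotpStatement) (pul : PulStatement) (crx : CrxdStatement)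
    {f : ℂ[X]} {ψ : ℂ → ℂ} (hd : 2 ≤ f.natDegree) (hψ : IsInverseBoettcher f ψ) {α c : ℂ}
    {p : ℕ} (hp : 1 ≤ p) (hα : (fun w => f.eval w)^[p] α = α)
    (hsm : RayCyclesP f (fun u => ψ (Complex.exp (2 * Real.pi * u))) α)
    (hc : ∀ z, f.derivative.eval z = 0 → z = c)
    (hdim : dimH (goodAngles f ψ)ᶜ < 1) : ¬ julia f ⊆ closure (postcritical f) := by
  intro hsub
  obtain ⟨hP, -, -⟩ := half f ψ hd hψ
  have hnull : MeasureTheory.volume (goodAngles f ψ)ᶜ = 0 := Main2.null_of_dimH hdim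
  set P : ℂ → ℂ := fun u => ψ (Complex.exp (2 * Real.pi * u)) with hPdef
  obtain ⟨hKc, -, hJ2, -, hJ5⟩ := jul f P hd hP
  have hlim : ∃ (t : ℝ) (z : ℂ), HasLim P t z := by
    obtain ⟨t, ht⟩ : (goodAngles f ψ).Nonempty := by
      by_contra hne
      rw [Set.not_nonempty_iff_eq_empty] at hne
      rw [hne, compl_empty, Real.volume_univ] at hnull
      exact ENNReal.top_ne_zero hnull
    obtain ⟨z, hz, -⟩ := ht
    exact ⟨t, z, (Main2.lim_iff ψ t z).1 hz⟩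
  obtain ⟨t, z, hz, hzα⟩ := exc inv f P hd hP hlim
    ((Finset.range p).image fun j => (fun w => f.eval w)^[j] α)
  have hzα' : ∀ j : ℕ, z ≠ (fun w => f.eval w)^[j] α := by
    intro j h
    apply hzα
    rw [h, per_mod hα j]
    exact Finset.mem_image_of_mem _ (Finset.mem_range.2 (Nat.mod_lt _ hp))
  obtain ⟨μ, hμ, hμz⟩ := cyc_dist hp hα hzα'
  obtain ⟨t', w, hwO, hwc, -⟩ := good_dense hd hψ hdim Metric.isOpen_ball
    (Metric.mem_ball_self hμ) (hJ5 t z hz)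
  refine ncip rotp pul crx hd hψ hp hα hsm hc hdim (hsub hwc.1) ?_ hwc
  rintro j rfl
  rw [mem_ball_iff_norm, norm_sub_rev] at hwO
  linarith [hμz j]

end Pool.Agent.Imp
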