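import Pool.Agent.Lib.MP_1c105c_an.Defs14

/-! MP_1c105c_an, row ROTP: among `p + 1` angles whose orbits under multiplication by `d` follow the
same `p`-periodic sequence of open arcs of length `1 / d` two are in the same orbit under
multiplication by `d ^ p`. -/

set_option autoImplicit false

namespace Pool.Agent.Imp

namespace Rotp74

/-- A point `u` and its successor `v` in `S`. -/
def Nxt (S : Set ℝ) (u v : ℝ) : Prop := u ∈ S ∧ v ∈ S ∧ u < v ∧ ∀ v' ∈ S, u < v' → v ≤ v'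

/-- `T` maps successors to successors. -/
theorem step {S S' : Set ℝ} {T : ℝ → ℝ} {d β : ℝ} (hd : 0 < d) (h0 : ∀ w ∈ S, 0 < w)
    (h1 : ∀ w ∈ S, d * w < 1) (hT : ∀ w ∈ S, T w ∈ S')
    (hs : ∀ w ∈ S', ∃ w' ∈ S, T w' = w)
    (hAB : ∀ w ∈ S, (T w = d * w + β ∧ d * w + β < 1) ∨ (T w = d * w + β - 1 ∧ 1 ≤ d * w + β))
    {u v : ℝ} (h : Nxt S u v) (hm : ∃ w ∈ S', T u < w) :
    Nxt S' (T u) (T v) ∧ T v - T u = d * (v - u) := by
  obtain ⟨hu, hv, huv, hn⟩ := h
  have mono : ∀ w w' : ℝ, w ≤ w' → d * w ≤ d * w' := fun w w' h =>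
    mul_le_mul_of_nonneg_left h hd.le
  have huv' : d * u < d * v := mul_lt_mul_of_pos_left huv hd
  have hle : ∀ w ∈ S, w ≤ u ∨ v ≤ w := by
    intro w hw
    rcases le_or_gt w u with h | h
    · exact Or.inl h
    · exact Or.inr (hn w hw h)
  have hpos : ∀ w ∈ S, 0 < d * w := fun w hw => mul_pos hd (h0 w hw)
  rcases hAB u hu with ⟨a1, a2⟩ | ⟨a1, a2⟩
  · rcases hAB v hv with ⟨b1, b2⟩ | ⟨b1, b2⟩
    · refine ⟨⟨hT u hu, hT v hv, by linarith, ?_⟩, by rw [a1, b1]; ring⟩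
      intro v' hv' hlt
      obtain ⟨w, hw, rfl⟩ := hs v' hv'
      rcases hle w hw with h | h
      · have := mono w u h
        rcases hAB w hw with ⟨c1, c2⟩ | ⟨c1, c2⟩
        · linarith
        · linarith
      · have := mono v w h
        rcases hAB w hw with ⟨c1, c2⟩ | ⟨c1, c2⟩
        · linarith
        · have := h1 w hw
          have := hpos u hu
          linarith
    · exfalso
      obtain ⟨w', hw', hlt⟩ := hm
      obtain ⟨w, hw, rfl⟩ := hs w' hw'
      rcases hle w hw with h | h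
      · have := mono w u h
        rcases hAB w hw with ⟨c1, c2⟩ | ⟨c1, c2⟩
        · linarith
        · linarith
      · have := mono v w h
        have := h1 w hw
        have := hpos u hu
        rcases hAB w hw with ⟨c1, c2⟩ | ⟨c1, c2⟩
        · linarith
        · linarith
  · rcases hAB v hv with ⟨b1, b2⟩ | ⟨b1, b2⟩
    · linarith
    · refine ⟨⟨hT u hu, hT v hv, by linarith, ?_⟩, by rw [a1, b1]; ring⟩
      intro v' hv' hlt
      obtain ⟨w, hw, rfl⟩ := hs v' hv'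
      rcases hle w hw with h | h
      · have := mono w u h
        rcases hAB w hw with ⟨c1, c2⟩ | ⟨c1, c2⟩
        · have := h1 v hv
          have := hpos w hw
          linarith
        · linarith
      · have := mono v w h
        rcases hAB w hw with ⟨c1, c2⟩ | ⟨c1, c2⟩
        · linarith
        · linarith

/-- A periodic sequence depends on the residue only. -/
theorem per_mod {b : ℕ → ℝ} {p : ℕ} (hb : ∀ j, b (j + p) = b j) {i j : ℕ}
    (h : i ≡ j [MOD p]) : b i = b j := by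
  have hm : ∀ n i : ℕ, b (i + n * p) = b i := by
    intro n
    induction n with
    | zero => intro i; simp
    | succ n ih =>
      intro i
      rw [Nat.succ_mul, ← add_assoc, hb, ih]
  have hr : ∀ i : ℕ, b i = b (i % p) := by
    intro i
    have h1 := hm (i / p) (i % p)
    have h2 : i % p + i / p * p = i := by
      rw [mul_comm]
      exact Nat.mod_add_div i p
    rw [h2] at h1
    exact h1
  rw [hr i, hr j, h]

/-- The values of a periodic sequence form a finite set. -/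
theorem per_fin {Z : ℕ → ℝ} {n : ℕ} (hn : 1 ≤ n) (hZ : ∀ i, Z (i + n) = Z i) :
    (Set.range Z).Finite := by
  refine ((Finset.range n).finite_toSet.image Z).subset ?_
  rintro _ ⟨i, rfl⟩
  exact ⟨i % n, by simpa using Nat.mod_lt i hn, per_mod hZ (Nat.mod_modEq i n)⟩

end Rotp74

open Rotp74

theorem rotp : RotpStatement := by
  intro d p b x q m hd hp hb hx hU
  by_contra hcon
  push Not at hcon
  have hd1 : (1 : ℝ) < d := by exact_mod_cast (show 1 < d by omega)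
  have hd0 : (0 : ℝ) < d := by linarith
  obtain ⟨U, hUd⟩ : ∃ U : ℕ → ℕ → ℝ, U = fun i k => Int.fract ((d : ℝ) ^ k * x i - b k) :=
    ⟨_, rfl⟩
  have hUe : ∀ i k, U i k = Int.fract ((d : ℝ) ^ k * x i - b k) := fun i k => by rw [hUd]
  have hU0 : ∀ i k, 0 < U i k := fun i k => by rw [hUe]; exact (hU i k).1
  have hU1 : ∀ i k, (d : ℝ) * U i k < 1 := by
    intro i k
    have h := (hU i k).2
    rw [← hUe, lt_div_iff₀ hd0] at h
    linarith
  obtain ⟨T, hTd⟩ : ∃ T : ℕ → ℝ → ℝ, T = fun k u =>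
      Int.fract (d * u + Int.fract (d * b k - b (k + 1))) := ⟨_, rfl⟩
  have hTe : ∀ k u, T k u = Int.fract (d * u + Int.fract (d * b k - b (k + 1))) :=
    fun k u => by rw [hTd]
  have hTm : ∀ k k' : ℕ, k ≡ k' [MOD p] → T k = T k' := by
    intro k k' h
    funext u
    rw [hTe, hTe, per_mod hb h, per_mod hb (Nat.ModEq.add_right 1 h)]
  have hnext : ∀ i k : ℕ, U i (k + 1) = T k (U i k) := by
    intro i k
    rw [hTe, hUe, hUe, Int.fract_eq_fract]
    refine ⟨d * ⌊(d : ℝ) ^ k * x i - b k⌋ + ⌊(d : ℝ) * b k - b (k + 1)⌋, ?_⟩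
    have e1 := Int.floor_add_fract ((d : ℝ) ^ k * x i - b k)
    have e2 := Int.floor_add_fract ((d : ℝ) * b k - b (k + 1))
    have e3 : (d : ℝ) * (⌊(d : ℝ) ^ k * x i - b k⌋ + Int.fract ((d : ℝ) ^ k * x i - b k)) =
        d * ((d : ℝ) ^ k * x i - b k) := by rw [e1]
    push_cast
    rw [pow_succ]
    linarith
  -- the angles modulo one
  have hang : ∀ i n k : ℕ, ∃ z : ℤ, (d : ℝ) ^ (k + n * q i) * x i = (d : ℝ) ^ k * x i + z := by
    intro i n
    induction n with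
    | zero => intro k; exact ⟨0, by simp⟩
    | succ n ih =>
      intro k
      obtain ⟨z, hz⟩ := ih k
      refine ⟨z + (d : ℤ) ^ (k + n * q i) * m i, ?_⟩
      rw [Nat.succ_mul, ← add_assoc, pow_add, mul_assoc, (hx i).2, mul_add, hz]
      push_cast
      ring
  have hper : ∀ i k : ℕ, U i (k + p * q i) = U i k := by
    intro i k
    obtain ⟨z, hz⟩ := hang i p k
    rw [hUe, hUe, Int.fract_eq_fract, hz,
      per_mod hb (show k + p * q i ≡ k [MOD p] from by simp [Nat.ModEq])]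
    exact ⟨z, by ring⟩
  -- different orbits are disjoint
  have hne0 : ∀ i j k k' : ℕ, i < j → j ≤ p → k ≡ k' [MOD p] → U i k ≠ U j k' := by
    intro i j k k' hij hj hk h
    rw [hUe, hUe, per_mod hb hk, Int.fract_eq_fract] at h
    obtain ⟨z, hz⟩ := h
    -- multiply by `d ^ r`, `k' + r = k' * (p * q j)`
    obtain ⟨r, hr⟩ : ∃ r, k' + r = k' * p * q j := by
      refine ⟨k' * p * q j - k', ?_⟩
      have : k' * 1 * 1 ≤ k' * p * q j := Nat.mul_le_mul (Nat.mul_le_mul le_rfl hp) (hx j).1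
      omega
    obtain ⟨n, hn⟩ : ∃ n, k + r = n * p := by
      have h1 : k + r ≡ k' + r [MOD p] := Nat.ModEq.add_right r hk
      have h2 : k' + r ≡ 0 [MOD p] := by
        rw [hr, Nat.modEq_zero_iff_dvd]
        exact Dvd.intro_left (k' * q j) (by ring)
      have h3 := (Nat.modEq_zero_iff_dvd).1 (h1.trans h2)
      obtain ⟨n, hn⟩ := h3
      exact ⟨n, by rw [hn, mul_comm]⟩
    obtain ⟨y, hy⟩ := hang j (k' * p) 0
    rw [zero_add, pow_zero, one_mul, ← hr] at hy
    refine hcon i j n ((d : ℤ) ^ r * z + y) hij hj ?_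
    rw [← hn]
    push_cast
    have e1 : (d : ℝ) ^ (k + r) * x i = (d : ℝ) ^ r * ((d : ℝ) ^ k * x i) := by ring
    have e2 : (d : ℝ) ^ (k' + r) * x j = (d : ℝ) ^ r * ((d : ℝ) ^ k' * x j) := by ring
    have e3 : (d : ℝ) ^ k * x i = (d : ℝ) ^ k' * x j + z := by linarith
    rw [e1, e3, mul_add, ← e2, hy]
    ring
  have hne : ∀ i j k k' : ℕ, i ≤ p → j ≤ p → i ≠ j → k ≡ k' [MOD p] → U i k ≠ U j k' := by
    intro i j k k' hi hj hij hk
    rcases lt_or_gt_of_ne hij with h | h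
    · exact hne0 i j k k' h hj hk
    · exact (hne0 j i k' k h hi hk.symm).symm
  -- the finite sets
  obtain ⟨S, hSd⟩ : ∃ S : ℕ → Set ℝ, S = fun k => {u | ∃ i k' : ℕ, i ≤ p ∧ k' ≡ k [MOD p] ∧
      U i k' = u} := ⟨_, rfl⟩
  have hSm : ∀ k u, u ∈ S k ↔ ∃ i k' : ℕ, i ≤ p ∧ k' ≡ k [MOD p] ∧ U i k' = u :=
    fun k u => by rw [hSd]; rfl
  have hSU : ∀ i k, i ≤ p → U i k ∈ S k := fun i k hi => (hSm _ _).2 ⟨i, k, hi, rfl, rfl⟩
  have hSk : ∀ k k' : ℕ, k ≡ k' [MOD p] → S k = S k' := by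
    intro k k' h
    ext u
    rw [hSm, hSm]
    constructor
    · rintro ⟨i, l, h1, h2, h3⟩
      exact ⟨i, l, h1, h2.trans h, h3⟩
    · rintro ⟨i, l, h1, h2, h3⟩
      exact ⟨i, l, h1, h2.trans h.symm, h3⟩
  have hSf : ∀ k, (S k).Finite := by
    intro k
    have h1 : (⋃ i ∈ Finset.range (p + 1), Set.range (U i)).Finite := by
      refine Set.Finite.biUnion (Finset.finite_toSet _) fun i _ => ?_
      exact per_fin (n := p * q i) (Nat.mul_pos hp (hx i).1) (hper i)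
    refine h1.subset ?_
    intro u hu
    obtain ⟨i, l, h2, -, h3⟩ := (hSm _ _).1 hu
    rw [Set.mem_iUnion₂]
    exact ⟨i, Finset.mem_range.2 (by omega), l, h3⟩
  have hS0 : ∀ k, ∀ w ∈ S k, 0 < w := by
    intro k w hw
    obtain ⟨i, l, -, -, rfl⟩ := (hSm _ _).1 hw
    exact hU0 i l
  have hS1 : ∀ k, ∀ w ∈ S k, (d : ℝ) * w < 1 := by
    intro k w hw
    obtain ⟨i, l, -, -, rfl⟩ := (hSm _ _).1 hw
    exact hU1 i l
  have hST : ∀ k, ∀ w ∈ S k, T k w ∈ S (k + 1) := by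
    intro k w hw
    obtain ⟨i, l, h1, h2, rfl⟩ := (hSm _ _).1 hw
    rw [← hTm _ _ h2, ← hnext]
    exact (hSm _ _).2 ⟨i, l + 1, h1, h2.add_right 1, rfl⟩
  have hSs : ∀ k, ∀ w ∈ S (k + 1), ∃ w' ∈ S k, T k w' = w := by
    intro k w hw
    obtain ⟨i, l, h1, h2, rfl⟩ := (hSm _ _).1 hw
    have hpq : 1 ≤ p * q i := Nat.mul_pos hp (hx i).1
    obtain ⟨l', hl'⟩ : ∃ l', l + p * q i = l' + 1 := ⟨l + p * q i - 1, by omega⟩
    have h3 : l' ≡ k [MOD p] := by
      refine Nat.ModEq.add_right_cancel' 1 ?_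
      rw [← hl']
      refine Nat.ModEq.trans ?_ h2
      simp [Nat.ModEq]
    refine ⟨U i l', (hSm _ _).2 ⟨i, l', h1, h3, rfl⟩, ?_⟩
    rw [← hTm _ _ h3, ← hnext, ← hl', hper]
  have hAB : ∀ k, ∀ w ∈ S k, (T k w = d * w + Int.fract ((d : ℝ) * b k - b (k + 1)) ∧
      d * w + Int.fract ((d : ℝ) * b k - b (k + 1)) < 1) ∨
      (T k w = d * w + Int.fract ((d : ℝ) * b k - b (k + 1)) - 1 ∧
      1 ≤ d * w + Int.fract ((d : ℝ) * b k - b (k + 1))) := by
    intro k w hw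
    have h1 := Int.fract_nonneg ((d : ℝ) * b k - b (k + 1))
    have h2 := Int.fract_lt_one ((d : ℝ) * b k - b (k + 1))
    have h3 : 0 < (d : ℝ) * w := mul_pos hd0 (hS0 k w hw)
    have h3' := hS1 k w hw
    rw [hTe]
    rcases lt_or_ge (d * w + Int.fract ((d : ℝ) * b k - b (k + 1))) 1 with h4 | h4
    · refine Or.inl ⟨?_, h4⟩
      rw [Int.fract_eq_iff]
      exact ⟨by linarith, h4, 0, by simp⟩
    · refine Or.inr ⟨?_, h4⟩
      rw [Int.fract_eq_iff]
      exact ⟨by linarith, by linarith, 1, by simp⟩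
  -- one orbit contains no maximum
  obtain ⟨i, hi, hmax⟩ : ∃ i ≤ p, ∀ k, ∃ w ∈ S k, U i k < w := by
    by_contra hno
    push Not at hno
    choose! κ hκ using hno
    obtain ⟨i, hi, j, hj, hij, he⟩ := Finset.exists_ne_map_eq_of_card_lt_of_maps_to
      (s := Finset.range (p + 1)) (t := Finset.range p) (f := fun i => κ i % p) (by simp)
      (fun i _ => Finset.mem_coe.2 (Finset.mem_range.2 (Nat.mod_lt _ hp)))
    have hi' : i ≤ p := by
      have := Finset.mem_range.1 hi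
      omega
    have hj' : j ≤ p := by
      have := Finset.mem_range.1 hj
      omega
    have hkk : κ i ≡ κ j [MOD p] := he
    refine hne i j (κ i) (κ j) hi' hj' hij hkk (le_antisymm ?_ ?_)
    · refine hκ j hj' _ ?_
      rw [← hSk _ _ hkk]
      exact hSU i _ hi'
    · refine hκ i hi' _ ?_
      rw [hSk _ _ hkk]
      exact hSU j _ hj'
  -- the successor of `U i 0`
  obtain ⟨v, hv⟩ : ∃ v, Nxt (S 0) (U i 0) v := by
    obtain ⟨w, hw, hlt⟩ := hmax 0
    obtain ⟨v, ⟨hv1, hv2⟩, hv3⟩ := Set.exists_min_image {w | w ∈ S 0 ∧ U i 0 < w} id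
      ((hSf 0).subset fun w hw => hw.1) ⟨w, hw, hlt⟩
    exact ⟨v, hSU i 0 hi, hv1, hv2, fun v' h3 h4 => hv3 v' ⟨h3, h4⟩⟩
  have hit : ∀ n : ℕ, ∃ v', Nxt (S n) (U i n) v' ∧ v' - U i n = d ^ n * (v - U i 0) := by
    intro n
    induction n with
    | zero => exact ⟨v, hv, by simp⟩
    | succ n ih =>
      obtain ⟨v', h1, h2⟩ := ih
      obtain ⟨w, hw, hlt⟩ := hmax (n + 1)
      rw [hnext] at hlt
      obtain ⟨s1, s2⟩ := step hd0 (hS0 n) (hS1 n) (hST n) (hSs n) (hAB n) h1 ⟨w, hw, hlt⟩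
      refine ⟨T n v', ?_, ?_⟩
      · rw [hnext]
        exact s1
      · rw [hnext, s2, h2]
        ring
  obtain ⟨v', h2, h3⟩ := hit (0 + p * q i)
  rw [hper] at h2 h3
  rw [hSk (0 + p * q i) 0 (by simp [Nat.ModEq])] at h2
  have e2 : v' = v := le_antisymm (h2.2.2.2 v hv.2.1 hv.2.2.1) (hv.2.2.2 _ h2.2.1 h2.2.2.1)
  rw [e2] at h3
  have h4 : 0 < v - U i 0 := by linarith [hv.2.2.1]
  have h5 : 1 < (d : ℝ) ^ (0 + p * q i) := by
    refine one_lt_pow₀ hd1 ?_
    have : 1 ≤ p * q i := Nat.mul_pos hp (hx i).1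
    omega
  nlinarith

end Pool.Agent.Imp
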