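import Pool.Agent.Lib.MP_1c105c_an.Sc
import Pool.Agent.Lib.MP_1c105c_an.Ncp
import Pool.Agent.Lib.MP_1c105c_an.Rotp

/-! MP_1c105c_an: small cycles in every neighbourhood of a periodic orbit, without hypotheses. -/

set_option autoImplicit false

open Filter Topology Set Polynomial

namespace Pool.Agent.Imp

/-- Every neighbourhood of the orbit of `α` contains a repelling periodic orbit that does not
contain `α`. -/
def NearCycles (f : ℂ[X]) (α : ℂ) : Prop :=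
  ∀ ε : ℝ, 0 < ε → ∃ (z : ℂ) (n : ℕ), 1 ≤ n ∧ (fun w => f.eval w)^[n] z = z ∧
    1 < ‖deriv (fun w => f.eval w)^[n] z‖ ∧ (∀ k : ℕ, (fun w => f.eval w)^[k] z ≠ α) ∧
    ∀ k : ℕ, ∃ j : ℕ, ‖(fun w => f.eval w)^[k] z - (fun w => f.eval w)^[j] α‖ < ε

/-- An orbit near a periodic orbit follows it. -/
theorem follow {f : ℂ[X]} {α : ℂ} {p : ℕ} (hp : 1 ≤ p) (hα : (fun w => f.eval w)^[p] α = α)
    {ε : ℝ} (hε : 0 < ε) : ∃ ε' : ℝ, 0 < ε' ∧ ∀ z : ℂ,
      (∀ k : ℕ, ∃ j : ℕ, ‖(fun w => f.eval w)^[k] z - (fun w => f.eval w)^[j] α‖ < ε') →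
      ∃ k₀ : ℕ, ∀ k : ℕ,
        ‖(fun w => f.eval w)^[k] ((fun w => f.eval w)^[k₀] z) - (fun w => f.eval w)^[k] α‖ < ε := by
  -- the distance of different points of the cycle
  obtain ⟨μ, hμ, hμ'⟩ : ∃ μ : ℝ, 0 < μ ∧ ∀ i j : ℕ,
      ‖(fun w => f.eval w)^[i] α - (fun w => f.eval w)^[j] α‖ < μ →
      (fun w => f.eval w)^[i] α = (fun w => f.eval w)^[j] α := by
    classical
    set S : Finset (ℕ × ℕ) := ((Finset.range p) ×ˢ (Finset.range p)).filter
      (fun x => (fun w => f.eval w)^[x.1] α ≠ (fun w => f.eval w)^[x.2] α) with hS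
    rcases S.eq_empty_or_nonempty with he | hne
    · refine ⟨1, one_pos, fun i j _ => ?_⟩
      by_contra h
      rw [per_mod hα i, per_mod hα j] at h
      have : (i % p, j % p) ∈ S := by
        rw [hS, Finset.mem_filter, Finset.mem_product]
        exact ⟨⟨Finset.mem_range.2 (Nat.mod_lt _ hp), Finset.mem_range.2 (Nat.mod_lt _ hp)⟩, h⟩
      rw [he] at this
      exact absurd this (Finset.notMem_empty _)
    · obtain ⟨x₀, hx₀, hmin⟩ := Finset.exists_min_image S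
        (fun x => ‖(fun w => f.eval w)^[x.1] α - (fun w => f.eval w)^[x.2] α‖) hne
      refine ⟨_, norm_pos_iff.2 (sub_ne_zero.2 (Finset.mem_filter.1 hx₀).2), fun i j h => ?_⟩
      by_contra h'
      rw [per_mod hα i, per_mod hα j] at h h'
      have : (i % p, j % p) ∈ S := by
        rw [hS, Finset.mem_filter, Finset.mem_product]
        exact ⟨⟨Finset.mem_range.2 (Nat.mod_lt _ hp), Finset.mem_range.2 (Nat.mod_lt _ hp)⟩, h'⟩
      exact absurd h (not_lt.2 (hmin _ this))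
  have hcont : ∀ j : ℕ, ∃ δ : ℝ, 0 < δ ∧ ∀ z : ℂ, ‖z - (fun w => f.eval w)^[j] α‖ < δ →
      ‖f.eval z - (fun w => f.eval w)^[j + 1] α‖ < μ / 2 := by
    intro j
    have h1 : ContinuousAt (fun z => f.eval z) ((fun w => f.eval w)^[j] α) :=
      f.continuous.continuousAt
    obtain ⟨δ, hδ, hδ'⟩ := Metric.continuousAt_iff.1 h1 (μ / 2) (by positivity)
    refine ⟨δ, hδ, fun z hz => ?_⟩
    have h2 := hδ' (x := z) (by rwa [dist_eq_norm])
    rw [dist_eq_norm] at h2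
    rw [Function.iterate_succ_apply']
    exact h2
  choose δ hδ hδ' using hcont
  obtain ⟨δ₀, hδ₀, hδ₀'⟩ : ∃ δ₀ : ℝ, 0 < δ₀ ∧ ∀ j < p, δ₀ ≤ δ j := by
    obtain ⟨j₀, -, hmin⟩ := Finset.exists_min_image (Finset.range p) δ
      ⟨0, Finset.mem_range.2 (by omega)⟩
    exact ⟨δ j₀, hδ j₀, fun j hj => hmin j (Finset.mem_range.2 hj)⟩
  refine ⟨min ε (min δ₀ (μ / 2)), lt_min hε (lt_min hδ₀ (by positivity)), fun z hz => ?_⟩
  set ε' : ℝ := min ε (min δ₀ (μ / 2)) with hε'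
  have h1 : ε' ≤ ε := min_le_left _ _
  have h2 : ε' ≤ δ₀ := (min_le_right _ _).trans (min_le_left _ _)
  have h3 : ε' ≤ μ / 2 := (min_le_right _ _).trans (min_le_right _ _)
  obtain ⟨j₀, hj₀⟩ := hz 0
  have hfol : ∀ k : ℕ, ‖(fun w => f.eval w)^[k] z - (fun w => f.eval w)^[j₀ + k] α‖ < ε' := by
    intro k
    induction k with
    | zero => exact hj₀
    | succ k ih =>
      obtain ⟨i, hi⟩ := hz (k + 1)
      have h4 : ‖f.eval ((fun w => f.eval w)^[k] z) -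
          (fun w => f.eval w)^[(j₀ + k) % p + 1] α‖ < μ / 2 := by
        refine hδ' ((j₀ + k) % p) _ ?_
        rw [← per_mod hα]
        exact ih.trans_le (h2.trans (hδ₀' _ (Nat.mod_lt _ hp)))
      have h5 : (fun w => f.eval w)^[(j₀ + k) % p + 1] α =
          (fun w => f.eval w)^[j₀ + (k + 1)] α := by
        rw [← add_assoc, Function.iterate_succ_apply', Function.iterate_succ_apply',
          ← per_mod hα]
      have h6 : f.eval ((fun w => f.eval w)^[k] z) = (fun w => f.eval w)^[k + 1] z := by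
        rw [Function.iterate_succ_apply']
      rw [h5, h6] at h4
      have h7 : (fun w => f.eval w)^[i] α = (fun w => f.eval w)^[j₀ + (k + 1)] α := by
        refine hμ' _ _ ?_
        have h8 := norm_sub_le_norm_sub_add_norm_sub ((fun w => f.eval w)^[i] α)
          ((fun w => f.eval w)^[k + 1] z) ((fun w => f.eval w)^[j₀ + (k + 1)] α)
        rw [norm_sub_rev ((fun w => f.eval w)^[i] α) ((fun w => f.eval w)^[k + 1] z)] at h8
        linarith
      rw [← h7]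
      exact hi
  refine ⟨j₀ * (p - 1), fun k => ?_⟩
  have h4 := hfol (k + j₀ * (p - 1))
  rw [← Function.iterate_add_apply]
  have h5 : (fun w => f.eval w)^[j₀ + (k + j₀ * (p - 1))] α = (fun w => f.eval w)^[k] α := by
    have h6 : j₀ + (k + j₀ * (p - 1)) = k + p * j₀ := by
      obtain ⟨q, rfl⟩ : ∃ q, p = q + 1 := ⟨p - 1, by omega⟩
      simp only [Nat.add_sub_cancel]
      ring
    rw [h6, Function.iterate_add_apply, Function.iterate_mul, Function.iterate_fixed hα]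
  rw [h5] at h4
  exact h4.trans_le h1

theorem rays_of_near (dep : DepStatement) {f : ℂ[X]} {P : ℂ → ℂ} (hd : 2 ≤ f.natDegree)
    (hP : Half f P) (hinf : ∀ R : ℝ, ∃ M : ℝ, ∀ u : ℂ, M ≤ u.re → R ≤ ‖P u‖) {α : ℂ} {p : ℕ}
    (hp : 1 ≤ p) (hα : (fun w => f.eval w)^[p] α = α) (h : NearCycles f α) :
    RayCyclesP f P α := by
  intro ε hε
  obtain ⟨ε', hε', hfol⟩ := follow hp hα hε
  obtain ⟨z, n, hn, hz, hder, hne, hk⟩ := h ε' hε'
  obtain ⟨t, q, m, hq, ht, hl⟩ := dep f P hd hP hinf n z hn hz hder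
  obtain ⟨k₀, hk₀⟩ := hfol z hk
  refine ⟨(fun w => f.eval w)^[k₀] z, (f.natDegree : ℝ) ^ k₀ * t, q, (f.natDegree : ℤ) ^ k₀ * m,
    hq, ?_, land_iter hd hP hl k₀, hne k₀, hk₀⟩
  push_cast
  linear_combination (f.natDegree : ℝ) ^ k₀ * ht

namespace Sc

/-- The separation theorem for a periodic orbit. -/
theorem spap0 {f : ℂ[X]} {P : ℂ → ℂ} (hd : 2 ≤ f.natDegree) (hP : Half f P)
    (hinf : ∀ R : ℝ, ∃ M : ℝ, ∀ u : ℂ, M ≤ u.re → R ≤ ‖P u‖) {α c : ℂ} {p : ℕ} (hp : 1 ≤ p)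
    (hα : (fun w => f.eval w)^[p] α = α) (hsm : NearCycles f α)
    (hc : ∀ z, f.derivative.eval z = 0 → z = c) {E : Set ℂ} {n : ℕ} {s : ℝ} {w : ℂ}
    (hE : IsCompact E) (hEp : IsPreconnected E) (hEK : E ⊆ filledJulia f)
    (hcE : (fun w => f.eval w)^[n + 1] c ∈ E) (hwE : w ∈ E) (hs : Land P s w) :
    ∃ j, (fun w => f.eval w)^[j] α ∈ E :=
  spap rotp (pul deg) (crxd (crs jmp) quad) hd hP hinf hp hα
    (rays_of_near dep0 hd hP hinf hp hα hsm) hc hE hEp hEK hcE hwE hs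

theorem ncip0 {f : ℂ[X]} {ψ : ℂ → ℂ} (hd : 2 ≤ f.natDegree) (hψ : IsInverseBoettcher f ψ)
    {α c : ℂ} {p : ℕ} (hp : 1 ≤ p) (hα : (fun w => f.eval w)^[p] α = α) (hsm : NearCycles f α)
    (hc : ∀ z, f.derivative.eval z = 0 → z = c) (hdim : dimH (goodAngles f ψ)ᶜ < 1) {y : ℂ}
    (hy : y ∈ closure (postcritical f)) (hyα : ∀ j : ℕ, y ≠ (fun w => f.eval w)^[j] α) :
    ¬ CikAt (julia f) y :=
  ncip rotp (pul deg) (crxd (crs jmp) quad) hd hψ hp hα
    (rays_of_near dep0 hd (half f ψ hd hψ).1 (inf f ψ hψ) hp hα hsm) hc hdim hy hyα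

theorem not_dense_per0 {f : ℂ[X]} {ψ : ℂ → ℂ} (hd : 2 ≤ f.natDegree)
    (hψ : IsInverseBoettcher f ψ) {α c : ℂ} {p : ℕ} (hp : 1 ≤ p)
    (hα : (fun w => f.eval w)^[p] α = α) (hsm : NearCycles f α)
    (hc : ∀ z, f.derivative.eval z = 0 → z = c) (hdim : dimH (goodAngles f ψ)ᶜ < 1) :
    ¬ julia f ⊆ closure (postcritical f) :=
  not_dense_per rotp (pul deg) (crxd (crs jmp) quad) hd hψ hp hα
    (rays_of_near dep0 hd (half f ψ hd hψ).1 (inf f ψ hψ) hp hα hsm) hc hdim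

end Sc

end Pool.Agent.Imp
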