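import Pool.Agent.Lib.MP_1c105c_an.Nlt
import Pool.Agent.Lib.MP_1c105c_an.Scp

/-! MP_1c105c_an: nonlanding rays of unicritical polynomials with small cycles near a periodic
orbit (NLTP). -/

set_option autoImplicit false

open Filter Topology Set Polynomial

namespace Pool.Agent.Imp

/-- Rays of periodic angles near `a` and `b` that land at points of small cycles along the orbit
of the periodic point `α`. -/
def SmallPairsP (f : ℂ[X]) (P : ℂ → ℂ) (α : ℂ) (a b C : ℝ) : Prop :=
  ∀ ε : ℝ, 0 < ε → ∀ N : ℕ, ∃ (q : ℕ) (t t' : ℝ) (m m' : ℤ) (z z' : ℂ), N ≤ q ∧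
    (f.natDegree : ℝ) ^ q * t = t + m ∧ (f.natDegree : ℝ) ^ q * t' = t' + m' ∧
    |t - a| * (f.natDegree : ℝ) ^ q ≤ C ∧ |t' - b| * (f.natDegree : ℝ) ^ q ≤ C ∧
    Land P t z ∧ Land P t' z' ∧ z ≠ α ∧
    (∀ k : ℕ, ‖(fun w => f.eval w)^[k] z - (fun w => f.eval w)^[k] α‖ < ε) ∧ ‖z' - α‖ < ε

theorem SmallPairsP.rayCycles {f : ℂ[X]} {P : ℂ → ℂ} {α : ℂ} {a b C : ℝ}
    (h : SmallPairsP f P α a b C) : RayCyclesP f P α := by
  intro ε hε
  obtain ⟨q, t, t', m, m', z, z', hq, ht, -, -, -, hl, -, hne, hk, -⟩ := h ε hε 1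
  exact ⟨z, t, q, m, hq, ht, hl, hne, hk⟩

/-- A periodic point with small cycles is indifferent and in the closure of the critical
orbits. -/
theorem per_post {f : ℂ[X]} {P : ℂ → ℂ} (hd : 2 ≤ f.natDegree) (hP : Half f P) {α : ℂ} {p : ℕ}
    (hp : 1 ≤ p) (hα : (fun w => f.eval w)^[p] α = α) (h : RayCyclesP f P α) :
    ‖(Nr.It f p).derivative.eval α‖ = 1 ∧ α ∈ closure (postcritical f) := by
  have hαF : (Nr.It f p).eval α = α := by rw [Nr.it_eval, hα]
  have hiter : ∀ (n : ℕ) (z : ℂ), (fun w => (Nr.It f p).eval w)^[n] z =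
      (fun w => f.eval w)^[p * n] z := by
    intro n z
    rw [Nr.it_fun, ← Function.iterate_mul]
  have hαn : ∀ n : ℕ, (fun w => f.eval w)^[p * n] α = α := fun n => by
    rw [Function.iterate_mul, Function.iterate_fixed hα]
  have hind : ‖(Nr.It f p).derivative.eval α‖ = 1 := by
    refine ind (Nr.It f p) α hαF fun ε hε => ?_
    obtain ⟨z, t, n, m, hn, ht, hl, hzα, hk⟩ := h ε hε
    refine ⟨z, n, hn, ?_, hzα, fun k => ?_⟩
    · rw [hiter, mul_comm, Function.iterate_mul, Function.iterate_fixed (land_per hd hP ht hl)]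
    · have h1 := hk (p * k)
      rw [hαn k] at h1
      rw [hiter]
      exact h1
  have hαJ : α ∈ julia f := by
    have hcl : IsClosed (julia f) := isClosed_frontier
    rw [← hcl.closure_eq, Metric.mem_closure_iff]
    intro ε hε
    obtain ⟨z, t, n, m, hn, ht, hl, hzα, hk⟩ := h ε hε
    refine ⟨z, Thr58.land_julia hd hP hl, ?_⟩
    rw [dist_comm, dist_eq_norm]
    simpa using hk 0
  have hJ : julia (Nr.It f p) = julia f := by
    unfold julia
    rw [Nr.it_filled f hp]
  have h1 : α ∈ closure (postcritical (Nr.It f p)) :=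
    alc (Nr.It f p) α (Nr.deg_two hd hp) hαF hind.le (by rw [hJ]; exact hαJ)
  refine ⟨hind, closure_mono ?_ h1⟩
  rintro z ⟨c', n, hc', rfl⟩
  obtain ⟨k, hk, hk'⟩ := Alp64.crit f p c' hc'
  refine ⟨(fun w => f.eval w)^[k] c', p * (n + 1) - k - 1, hk', ?_⟩
  rw [hiter, ← Function.iterate_add_apply]
  congr 1
  have : p * 1 ≤ p * (n + 1) := Nat.mul_le_mul_left p (by omega)
  omega

/-- The landing point of a ray near periodic rays that land near `α` is in the closure of the
critical orbits. -/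
theorem nltp (rotp : RotpStatement) (pul : PulStatement) (crx : CrxdStatement) {f : ℂ[X]}
    {P : ℂ → ℂ} (hd : 2 ≤ f.natDegree) (hP : Half f P)
    (hinf : ∀ R : ℝ, ∃ M : ℝ, ∀ u : ℂ, M ≤ u.re → R ≤ ‖P u‖) {α c : ℂ} {n₀ : ℕ} (hn₀ : 1 ≤ n₀)
    (hα : (fun w => f.eval w)^[n₀] α = α)
    (hc : ∀ z, f.derivative.eval z = 0 → z = c) {a b C : ℝ} {m₀ : ℤ}
    (hab : f.natDegree * b = f.natDegree * a + m₀) (hne : ∀ k : ℤ, b ≠ a + k)
    (h : SmallPairsP f P α a b C) {w : ℂ} (hw : Land P (f.natDegree * a) w) :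
    ∃ p p' : ℂ, Land P a p ∧ Land P b p' ∧ f.eval p = w ∧ f.eval p' = w ∧ p ≠ p' ∧
      p ∈ closure (postcritical f) ∧ p' ∈ closure (postcritical f) := by
  obtain ⟨p, hpw, hp⟩ := lfr f P hd hP a w hw
  have hw' : Land P (f.natDegree * b) w := by
    rw [hab]
    refine Rep.land_add hP.per (-m₀) ?_
    have : (f.natDegree : ℝ) * a + m₀ + ((-m₀ : ℤ) : ℝ) = f.natDegree * a := by push_cast; ring
    rw [this]
    exact hw
  obtain ⟨p', hpw', hp'⟩ := lfr f P hd hP b w hw'
  have hrc := h.rayCycles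
  obtain ⟨hind, hαP⟩ := per_post hd hP hn₀ hα hrc
  refine ⟨p, p', hp, hp', hpw, hpw', fun he => ?_, ?_, ?_⟩
  · -- otherwise the critical point is a landing point
    rw [← he] at hp'
    have h0 := dst f P hd hP a b m₀ p hab hne hp hp'
    have hpc : p = c := hc p h0
    obtain ⟨j, hj⟩ : ∃ j, (fun w => f.eval w)^[j] α ∈ ({f.eval c} : Set ℂ) := by
      refine spap rotp pul crx hd hP hinf hn₀ hα hrc hc (n := 0) isCompact_singleton
        isPreconnected_singleton ?_ rfl rfl (s := f.natDegree * a) ?_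
      · rw [Set.singleton_subset_iff, ← hpc, hpw]
        have := Thr58.land_julia hd hP hw
        exact (Jul.closed f hd).frontier_subset this
      · rw [← hpc, hpw]
        exact hw
    rw [Set.mem_singleton_iff] at hj
    -- the critical point is the only preimage of the critical value
    have hαn : (fun w => f.eval w)^[n₀ * (j + 1)] α = α := by
      rw [Function.iterate_mul, Function.iterate_fixed hα]
    have hle : 1 * (j + 1) ≤ n₀ * (j + 1) := Nat.mul_le_mul_right _ hn₀
    have hpre := quad_pre hd hc (z := (fun w => f.eval w)^[j + (n₀ * (j + 1) - 1)] α) (by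
      have h1 : f.eval ((fun w => f.eval w)^[j + (n₀ * (j + 1) - 1)] α) =
          (fun w => f.eval w)^[j + (n₀ * (j + 1) - 1) + 1] α := by
        rw [Function.iterate_succ_apply']
      rw [h1, show j + (n₀ * (j + 1) - 1) + 1 = j + n₀ * (j + 1) by omega,
        Function.iterate_add_apply, hαn, hj])
    -- hence the multiplier is `0`
    have hz : (Nr.It f n₀).derivative.eval α = 0 := by
      set i : ℕ := (j + (n₀ * (j + 1) - 1)) % n₀ with hi
      have hin : i < n₀ := Nat.mod_lt _ hn₀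
      have hci : (fun w => f.eval w)^[i] α = c := by
        rw [hi, ← per_mod hα]
        exact hpre
      have h1 : Nr.It f n₀ = (Nr.It f (n₀ - i - 1)).comp (f.comp (Nr.It f i)) := by
        refine Polynomial.funext fun x => ?_
        rw [eval_comp, eval_comp, Nr.it_eval, Nr.it_eval, Nr.it_eval]
        have h2 : f.eval ((fun w => f.eval w)^[i] x) = (fun w => f.eval w)^[i + 1] x := by
          rw [Function.iterate_succ_apply']
        rw [h2, ← Function.iterate_add_apply]
        congr 1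
        omega
      rw [h1, derivative_comp, derivative_comp, eval_mul, eval_mul, eval_comp, Nr.it_eval, hci,
        ← hpc, h0]
      ring
    rw [hz, norm_zero] at hind
    exact zero_ne_one hind
  · refine nlt_mem hd hP hinf (C := C) hαP hp fun ε hε N => ?_
    obtain ⟨q, t, t', m, m', z, z', hq, ht, ht', hta, htb, hl, hl', hzα, hk, hz'⟩ := h ε hε N
    exact ⟨q, t, m, z, hq, ht, hta, hl, by simpa using hk 0⟩
  · refine nlt_mem hd hP hinf (C := C) hαP hp' fun ε hε N => ?_
    obtain ⟨q, t, t', m, m', z, z', hq, ht, ht', hta, htb, hl, hl', hzα, hk, hz'⟩ := h ε hε N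
    exact ⟨q, t', m', z', hq, ht', htb, hl', hz'⟩

end Pool.Agent.Imp
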