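import Pool.Agent.Lib.MP_1c105c_an.Scm
import Pool.Agent.Lib.MP_1c105c_an.Nltp

/-! MP_1c105c_an: images of points at which the Julia set is connected im kleinen; critical points
that are not accessible. -/

set_option autoImplicit false

open Filter Topology Set Polynomial

namespace Pool.Agent.Imp

namespace Scg

variable {f : ℂ[X]} {α c : ℂ} {p : ℕ}

theorem cik_image (hd : 2 ≤ f.natDegree) {z : ℂ} (h : CikAt (julia f) z) :
    CikAt (julia f) (f.eval z) := by
  refine ⟨(Jul.inv_julia f hd z).2 h.1, fun ε hε => ?_⟩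
  obtain ⟨δ, hδ, hδf⟩ := Metric.continuousAt_iff.1 (f.continuous.continuousAt (x := z)) ε hε
  obtain ⟨Y, hYJ, hYp, hYn, hYs⟩ := h.2 (δ / 2) (by positivity)
  refine ⟨(fun w => f.eval w) '' Y, ?_, hYp.image _ f.continuous.continuousOn, ?_, ?_⟩
  · rintro _ ⟨y, hy, rfl⟩
    exact (Jul.inv_julia f hd y).2 (hYJ hy)
  · rw [mem_nhdsWithin] at hYn ⊢
    obtain ⟨U, hU, hzU, hUY⟩ := hYn
    refine ⟨(fun w => f.eval w) '' U, Jul.poly_open f hd U hU, ⟨z, hzU, rfl⟩, ?_⟩
    rintro _ ⟨⟨y, hyU, rfl⟩, hyJ⟩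
    exact ⟨y, hUY ⟨hyU, (Jul.inv_julia f hd y).1 hyJ⟩, rfl⟩
  · rintro _ ⟨y, hy, rfl⟩
    have h1 := hYs y hy
    have h2 := hδf (x := y) (by rw [dist_eq_norm]; linarith)
    rw [dist_eq_norm] at h2
    exact h2.le

theorem cik_iter (hd : 2 ≤ f.natDegree) (n : ℕ) {z : ℂ} (h : CikAt (julia f) z) :
    CikAt (julia f) ((fun w => f.eval w)^[n] z) := by
  induction n with
  | zero => exact h
  | succ n ih =>
    rw [Function.iterate_succ_apply']
    exact cik_image hd ih

/-- The only critical value is not in the cycle. -/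
theorem val_ne {P : ℂ → ℂ} (hd : 2 ≤ f.natDegree) (hP : Half f P) (hp : 1 ≤ p)
    (hα : (fun w => f.eval w)^[p] α = α) (hsm : RayCyclesP f P α)
    (hc : ∀ z, f.derivative.eval z = 0 → z = c) (h0 : f.derivative.eval c = 0) (j : ℕ) :
    f.eval c ≠ (fun w => f.eval w)^[j] α := by
  intro hj
  obtain ⟨hind, -⟩ := per_post hd hP hp hα hsm
  have hαn : (fun w => f.eval w)^[p * (j + 1)] α = α := by
    rw [Function.iterate_mul, Function.iterate_fixed hα]
  have hle : 1 * (j + 1) ≤ p * (j + 1) := Nat.mul_le_mul_right _ hp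
  have hpre := quad_pre hd hc (z := (fun w => f.eval w)^[j + (p * (j + 1) - 1)] α) (by
    have h1 : f.eval ((fun w => f.eval w)^[j + (p * (j + 1) - 1)] α) =
        (fun w => f.eval w)^[j + (p * (j + 1) - 1) + 1] α := by
      rw [Function.iterate_succ_apply']
    rw [h1, show j + (p * (j + 1) - 1) + 1 = j + p * (j + 1) by omega,
      Function.iterate_add_apply, hαn, hj])
  have hz : (Nr.It f p).derivative.eval α = 0 := by
    set i : ℕ := (j + (p * (j + 1) - 1)) % p with hi
    have hin : i < p := Nat.mod_lt _ hp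
    have hci : (fun w => f.eval w)^[i] α = c := by
      rw [hi, ← per_mod hα]
      exact hpre
    have h1 : Nr.It f p = (Nr.It f (p - i - 1)).comp (f.comp (Nr.It f i)) := by
      refine Polynomial.funext fun x => ?_
      rw [eval_comp, eval_comp, Nr.it_eval, Nr.it_eval, Nr.it_eval]
      have h2 : f.eval ((fun w => f.eval w)^[i] x) = (fun w => f.eval w)^[i + 1] x := by
        rw [Function.iterate_succ_apply']
      rw [h2, ← Function.iterate_add_apply]
      congr 1
      omega
    rw [h1, derivative_comp, derivative_comp, eval_mul, eval_mul, eval_comp, Nr.it_eval, hci,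
      h0]
    ring
  rw [hz, norm_zero] at hind
  exact zero_ne_one hind

/-- The only critical point is not a landing point (Kiwi 2000). -/
theorem not_land {P : ℂ → ℂ} (hd : 2 ≤ f.natDegree) (hP : Half f P) (hp : 1 ≤ p)
    (hα : (fun w => f.eval w)^[p] α = α) (hsm : RayCyclesP f P α)
    (hc : ∀ z, f.derivative.eval z = 0 → z = c) (h0 : f.derivative.eval c = 0)
    (hsep : Sep f P α c) {t : ℝ} : ¬ Land P t c := by
  intro ht
  have hw := Rep.land_mul hd hP ht
  obtain ⟨j, hj⟩ : ∃ j, (fun w => f.eval w)^[j] α ∈ ({f.eval c} : Set ℂ) := by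
    refine sep_land hsep (n := 0) isCompact_singleton isPreconnected_singleton ?_ rfl rfl hw
    rw [Set.singleton_subset_iff]
    exact (Jul.closed f hd).frontier_subset (Thr58.land_julia hd hP hw)
  exact val_ne hd hP hp hα hsm hc h0 j (Set.mem_singleton_iff.1 hj).symm

end Scg

end Pool.Agent.Imp
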