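import Pool.Agent.Lib.MP_1c105c_an.Defs4

/-! MP_1c105c_an, row CNT (backup). -/

set_option autoImplicit false

namespace Pool.Agent.Imp

namespace Cnt64

theorem fib (d n k : ℕ) (hd : 2 ≤ d) (hk : k ≤ n) (V : Finset ℕ) :
    ((Finset.range (d ^ n)).filter fun j => j % d ^ k ∈ V).card ≤ V.card * d ^ (n - k) := by
  classical
  have hpos : 0 < d ^ k := pow_pos (by omega) k
  have h1 : ((Finset.range (d ^ n)).filter fun j => j % d ^ k ∈ V) ⊆
      (V ×ˢ Finset.range (d ^ (n - k))).image fun p => p.1 + d ^ k * p.2 := by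
    intro j hj
    rw [Finset.mem_filter, Finset.mem_range] at hj
    rw [Finset.mem_image]
    refine ⟨(j % d ^ k, j / d ^ k), ?_, Nat.mod_add_div j (d ^ k)⟩
    rw [Finset.mem_product]
    refine ⟨hj.2, ?_⟩
    rw [Finset.mem_range, Nat.div_lt_iff_lt_mul hpos, ← pow_add, Nat.sub_add_cancel hk]
    exact hj.1
  refine (Finset.card_le_card h1).trans (Finset.card_image_le.trans ?_)
  rw [Finset.card_product, Finset.card_range]

theorem geo (d n m : ℕ) (hd : 2 ≤ d) (hm : m ≤ n) :
    (∑ k ∈ Finset.Ico m n, (d - 1) * d ^ (n - k)) + d ≤ d ^ (n - m + 1) := by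
  obtain ⟨e, rfl⟩ := Nat.exists_eq_add_of_le hm
  have h : ∀ e : ℕ, (∑ k ∈ Finset.Ico m (m + e), (d - 1) * d ^ (m + e - k)) + d ≤
      d ^ (e + 1) := by
    intro e
    induction e with
    | zero => simp
    | succ e ih =>
      have h1 : ∑ k ∈ Finset.Ico m (m + (e + 1)), (d - 1) * d ^ (m + (e + 1) - k) =
          d * (∑ k ∈ Finset.Ico m (m + e), (d - 1) * d ^ (m + e - k)) + (d - 1) * d := by
        rw [← add_assoc, Finset.sum_Ico_succ_top (by omega), Finset.mul_sum]
        congr 1
        · refine Finset.sum_congr rfl fun k hk => ?_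
          rw [Finset.mem_Ico] at hk
          have : m + e + 1 - k = (m + e - k) + 1 := by omega
          rw [this, pow_succ]
          ring
        · have : m + e + 1 - (m + e) = 1 := by omega
          rw [this, pow_one]
      rw [h1]
      have h2 : (d - 1) * d + d = d * d := by
        obtain ⟨c, rfl⟩ := Nat.exists_eq_add_of_le hd
        have : 2 + c - 1 = 1 + c := by omega
        rw [this]
        ring
      calc d * (∑ k ∈ Finset.Ico m (m + e), (d - 1) * d ^ (m + e - k)) + (d - 1) * d + d
          = d * ((∑ k ∈ Finset.Ico m (m + e), (d - 1) * d ^ (m + e - k)) + d) := by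
            rw [add_assoc, h2]
            ring
        _ ≤ d * d ^ (e + 1) := Nat.mul_le_mul_left _ ih
        _ = d ^ (e + 1 + 1) := by rw [pow_succ]; ring
  have : m + e - m = e := by omega
  rw [this]
  exact h e

end Cnt64

theorem cnt64 : CntStatement := by
  classical
  intro d m₀ n W hd hW0 hWc S hS
  rcases le_or_gt m₀ n with hmn | hmn
  · have hsub : S ⊆ (Finset.Ico m₀ n).biUnion fun k =>
        (Finset.range (d ^ n)).filter fun j => j % d ^ k ∈ W k := by
      intro j hj
      obtain ⟨hj1, hj2⟩ := hS j hj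
      unfold Reg at hj2
      push Not at hj2
      obtain ⟨k, hk, hkW⟩ := hj2
      rw [Finset.mem_biUnion]
      refine ⟨k, ?_, Finset.mem_filter.2 ⟨Finset.mem_range.2 hj1, hkW⟩⟩
      rw [Finset.mem_Ico]
      refine ⟨?_, hk⟩
      by_contra hcon
      push Not at hcon
      rw [hW0 k hcon] at hkW
      exact absurd hkW (Finset.notMem_empty _)
    have h1 : S.card ≤ ∑ k ∈ Finset.Ico m₀ n, (d - 1) * d ^ (n - k) := by
      refine (Finset.card_le_card hsub).trans (Finset.card_biUnion_le.trans ?_)
      refine Finset.sum_le_sum fun k hk => ?_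
      rw [Finset.mem_Ico] at hk
      exact (Cnt64.fib d n k hd hk.2.le (W k)).trans (Nat.mul_le_mul_right _ (hWc k))
    have h2 := Cnt64.geo d n m₀ hd hmn
    have h3 : S.card ≤ d ^ (n - m₀ + 1) := by omega
    calc S.card * d ^ m₀ ≤ d ^ (n - m₀ + 1) * d ^ m₀ := Nat.mul_le_mul_right _ h3
      _ = d ^ (n + 1) := by
        rw [← pow_add]
        congr 1
        omega
  · have hS0 : S = ∅ := by
      rw [Finset.eq_empty_iff_forall_notMem]
      intro j hj
      obtain ⟨-, hj2⟩ := hS j hj
      refine hj2 fun k hk => ?_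
      rw [hW0 k (by omega)]
      exact Finset.notMem_empty _
    rw [hS0]
    simp

end Pool.Agent.Imp
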