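import Pool.Agent.Lib.MP_1c105c_an.Mea

/-! MP_1c105c_an: the rays of all angles outside a meagre set accumulate on the whole impression
(Collingwood). -/

set_option autoImplicit false

open Filter Topology Set Polynomial

namespace Pool.Agent.Imp

namespace Col

/-- The unit vector of angle `θ`. -/
noncomputable def e (θ : ℝ) : ℂ := Complex.exp (2 * Real.pi * θ * Complex.I)

theorem norm_e (θ : ℝ) : ‖e θ‖ = 1 := by
  have := Complex.norm_exp_ofReal_mul_I (2 * Real.pi * θ)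
  push_cast at this
  exact this

theorem cont_e : Continuous e := by
  unfold e
  fun_prop

/-- The angles whose rays avoid `U` near the circle. -/
def A (ψ : ℂ → ℂ) (U : Set ℂ) (n : ℕ) : Set ℝ :=
  {θ : ℝ | ∀ r : ℝ, 1 < r → r < 1 + 1 / ((n : ℝ) + 1) → ψ (r * e θ) ∉ U}

theorem norm_re {r θ : ℝ} (hr : 0 ≤ r) : ‖(r : ℂ) * e θ‖ = r := by
  rw [norm_mul, norm_e, mul_one, Complex.norm_real, Real.norm_of_nonneg hr]

theorem closed_A {ψ : ℂ → ℂ} (hψ : ContinuousOn ψ {w | 1 < ‖w‖}) {U : Set ℂ} (hU : IsOpen U)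
    (n : ℕ) : IsClosed (A ψ U n) := by
  have h : A ψ U n = ⋂ (r : ℝ) (_ : 1 < r) (_ : r < 1 + 1 / ((n : ℝ) + 1)),
      (fun θ : ℝ => ψ (r * e θ)) ⁻¹' Uᶜ := by
    ext θ
    simp [A]
  rw [h]
  refine isClosed_iInter fun r => isClosed_iInter fun hr => isClosed_iInter fun _ => ?_
  refine hU.isClosed_compl.preimage ?_
  refine hψ.comp_continuous (continuous_const.mul cont_e) fun θ => ?_
  show 1 < ‖(r : ℂ) * e θ‖
  rw [norm_re (by linarith)]
  exact hr

/-- Polar coordinates near `e θ`. -/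
theorem polar (θ : ℝ) {η : ℝ} (hη : 0 < η) : ∀ᶠ w in 𝓝 (e θ), ∃ θ' : ℝ, |θ' - θ| < η ∧
    w = (‖w‖ : ℂ) * e θ' := by
  have he : e θ * e (-θ) = 1 := by
    unfold e
    rw [← Complex.exp_add]
    have : (2 * Real.pi * θ * Complex.I + 2 * Real.pi * ((-θ : ℝ) : ℂ) * Complex.I : ℂ) = 0 := by
      push_cast
      ring
    rw [this, Complex.exp_zero]
  have h1 : ContinuousAt (fun w : ℂ => (w * e (-θ)).arg) (e θ) := by
    have h2 : ContinuousAt Complex.arg (e θ * e (-θ)) := by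
      rw [he]
      exact Complex.continuousAt_arg Complex.one_mem_slitPlane
    exact ContinuousAt.comp (g := Complex.arg) h2 (by fun_prop)
  have h3 : Tendsto (fun w : ℂ => (w * e (-θ)).arg) (𝓝 (e θ)) (𝓝 0) := by
    have := h1.tendsto
    simp only [he, Complex.arg_one] at this
    exact this
  have h4 : ∀ᶠ w in 𝓝 (e θ), |(w * e (-θ)).arg| < 2 * Real.pi * η := by
    have := h3.eventually (Metric.ball_mem_nhds 0 (by positivity : 0 < 2 * Real.pi * η))
    filter_upwards [this] with w hw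
    rwa [Real.dist_eq, sub_zero] at hw
  filter_upwards [h4] with w hw
  refine ⟨θ + (w * e (-θ)).arg / (2 * Real.pi), ?_, ?_⟩
  · rw [add_sub_cancel_left, abs_div, abs_of_pos (by positivity : (0 : ℝ) < 2 * Real.pi),
      div_lt_iff₀ (by positivity)]
    linarith
  · have h5 := Complex.norm_mul_exp_arg_mul_I (w * e (-θ))
    rw [norm_mul, norm_e, mul_one] at h5
    have h6 : e (θ + (w * e (-θ)).arg / (2 * Real.pi)) =
        e θ * Complex.exp ((w * e (-θ)).arg * Complex.I) := by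
      unfold e
      rw [← Complex.exp_add]
      congr 1
      have : (Real.pi : ℂ) ≠ 0 := by exact_mod_cast Real.pi_ne_zero
      push_cast
      field_simp
    rw [h6]
    calc w = e θ * (w * e (-θ)) := by rw [mul_comm w, ← mul_assoc, he, one_mul]
      _ = e θ * ((‖w‖ : ℂ) * Complex.exp ((w * e (-θ)).arg * Complex.I)) := by rw [h5]
      _ = _ := by ring

end Col

open Col in
/-- COL: the rays of all angles outside a meagre set accumulate on the whole impression. -/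
theorem col {ψ : ℂ → ℂ} (hψ : ContinuousOn ψ {w | 1 < ‖w‖}) :
    {θ : ℝ | accumulation ψ θ = impression ψ θ} ∈ residual ℝ := by
  have hbas := TopologicalSpace.isBasis_countableBasis ℂ
  have hcount := TopologicalSpace.countable_countableBasis ℂ
  have hres : (⋂ U ∈ TopologicalSpace.countableBasis ℂ, ⋂ n : ℕ, (frontier (A ψ U n))ᶜ) ∈
      residual ℝ := by
    refine (countable_bInter_mem hcount).2 fun U hU => countable_iInter_mem.2 fun n => ?_
    have hcl := closed_A hψ (hbas.isOpen hU) n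
    refine residual_of_dense_open isClosed_frontier.isOpen_compl ?_
    exact interior_eq_empty_iff_dense_compl.1 (interior_frontier hcl)
  refine mem_of_superset hres fun θ hθ => ?_
  refine Set.Subset.antisymm (fun z hz => ?_) (fun z hz => ?_)
  · -- the easy inclusion
    have hz' : MapClusterPt z (𝓝[>] (1 : ℝ)) (ψ ∘ fun r : ℝ => (r : ℂ) * e θ) := hz
    have ht : Tendsto (fun r : ℝ => (r : ℂ) * e θ) (𝓝[>] 1) (𝓝[{w : ℂ | 1 < ‖w‖}] e θ) := by
      refine tendsto_nhdsWithin_iff.2 ⟨?_, ?_⟩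
      · have h1 : Continuous fun r : ℝ => (r : ℂ) * e θ := by fun_prop
        have h2 := h1.tendsto 1
        simp only [Complex.ofReal_one, one_mul] at h2
        exact h2.mono_left nhdsWithin_le_nhds
      · filter_upwards [self_mem_nhdsWithin] with r hr
        have hr' : (1 : ℝ) < r := hr
        show 1 < ‖(r : ℂ) * e θ‖
        rw [norm_re (by linarith)]
        exact hr'
    exact hz'.of_comp ht
  · by_contra hza
    have hza' : ¬ MapClusterPt z (𝓝[>] (1 : ℝ)) (fun r : ℝ => ψ (r * e θ)) := hza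
    rw [mapClusterPt_iff_frequently] at hza'
    push Not at hza'
    obtain ⟨V, hV, hVe⟩ := hza'
    obtain ⟨U, hU, hzU, hUV⟩ := hbas.mem_nhds_iff.1 hV
    have hVe' : ∀ᶠ r : ℝ in 𝓝[>] 1, ψ (r * e θ) ∉ U := by
      filter_upwards [hVe] with r hr h
      exact hr (hUV h)
    obtain ⟨s, hs, hs2⟩ := (mem_nhdsGT_iff_exists_Ioo_subset (a := (1 : ℝ))).1 hVe'
    have hs' : (1 : ℝ) < s := hs
    obtain ⟨n, hn⟩ := exists_nat_one_div_lt (sub_pos.2 hs')
    have hθA : θ ∈ A ψ U n := fun r hr1 hr2 => hs2 ⟨hr1, by linarith⟩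
    have hθf : θ ∉ frontier (A ψ U n) := Set.mem_iInter.1 (Set.mem_iInter₂.1 hθ U hU) n
    have hθi : θ ∈ interior (A ψ U n) := by
      by_contra hni
      exact hθf ⟨subset_closure hθA, hni⟩
    obtain ⟨η, hη, hηA⟩ := Metric.mem_nhds_iff.1 (mem_interior_iff_mem_nhds.1 hθi)
    have hz' : MapClusterPt z (𝓝[{w : ℂ | 1 < ‖w‖}] e θ) ψ := hz
    have hfr := (mapClusterPt_iff_frequently.1 hz') U ((hbas.isOpen hU).mem_nhds hzU)
    have hev1 : ∀ᶠ w in 𝓝[{w : ℂ | 1 < ‖w‖}] e θ, w ∈ {w : ℂ | 1 < ‖w‖} := self_mem_nhdsWithin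
    have hev2 : ∀ᶠ w in 𝓝[{w : ℂ | 1 < ‖w‖}] e θ, ‖w‖ < 1 + 1 / ((n : ℝ) + 1) := by
      refine mem_nhdsWithin_of_mem_nhds ((isOpen_lt continuous_norm continuous_const).mem_nhds ?_)
      show ‖e θ‖ < 1 + 1 / ((n : ℝ) + 1)
      rw [norm_e]
      have : 0 < 1 / ((n : ℝ) + 1) := by positivity
      linarith
    have hev3 : ∀ᶠ w in 𝓝[{w : ℂ | 1 < ‖w‖}] e θ, ∃ θ' : ℝ, |θ' - θ| < η ∧
        w = (‖w‖ : ℂ) * e θ' := mem_nhdsWithin_of_mem_nhds (polar θ hη)
    obtain ⟨w, hwU, hw1, hw2, θ', hθ', hw3⟩ :=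
      (hfr.and_eventually (hev1.and (hev2.and hev3))).exists
    have h1 : θ' ∈ A ψ U n := hηA (by rwa [Metric.mem_ball, Real.dist_eq])
    refine h1 ‖w‖ hw1 hw2 ?_
    rw [← hw3]
    exact hwU

end Pool.Agent.Imp
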