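import Pool.Agent.Lib.MP_1c105c_an.Fij

/-! MP_1c105c_an: a common point of all impressions. -/

set_option autoImplicit false

open Filter Topology Set Polynomial

namespace Pool.Agent.Imp

/-- The impressions are in the Julia set. -/
theorem impression_julia {f : ℂ[X]} {ψ : ℂ → ℂ}
    (hψ : IsInverseBoettcher f ψ) (θ : ℝ) : impression ψ θ ⊆ julia f := by
  intro z hz
  refine ⟨subset_closure (impression_subset hψ θ hz), fun hint => ?_⟩
  have hz' : MapClusterPt z
      (𝓝[{w : ℂ | 1 < ‖w‖}] Complex.exp (2 * Real.pi * θ * Complex.I)) ψ := hz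
  have hfr := (mapClusterPt_iff_frequently.1 hz') (interior (filledJulia f))
    (isOpen_interior.mem_nhds hint)
  have hS : ∀ᶠ w in 𝓝[{w : ℂ | 1 < ‖w‖}] Complex.exp (2 * Real.pi * θ * Complex.I),
      w ∈ {w : ℂ | 1 < ‖w‖} := self_mem_nhdsWithin
  obtain ⟨w, hw1, hw2⟩ := (hfr.and_eventually hS).exists
  have h3 : ψ w ∈ (filledJulia f)ᶜ := by
    rw [← hψ.image_eq]
    exact ⟨w, hw2, rfl⟩
  exact h3 (interior_subset hw1)

/-- COM: if a point of the filled Julia set is in all filled impressions, then all impressions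
have a common point. -/
theorem com {f : ℂ[X]} {ψ : ℂ → ℂ} (hd : 2 ≤ f.natDegree)
    (hψ : IsInverseBoettcher f ψ) {α : ℂ} (hα : α ∈ filledJulia f)
    (h : ∀ θ : ℝ, α ∈ filledImpression ψ θ) : ∃ z, ∀ θ : ℝ, z ∈ impression ψ θ := by
  by_cases hJ : α ∈ julia f
  · exact ⟨α, fun θ => fij hd hψ (h θ) hJ⟩
  obtain ⟨hP, -, -⟩ := half f ψ hd hψ
  obtain ⟨hKc, hKb, -, -, -⟩ := jul f _ hd hP
  have hint : α ∈ interior (filledJulia f) := by
    by_contra hn
    exact hJ ⟨subset_closure hα, hn⟩
  set B := connectedComponentIn (interior (filledJulia f)) α with hB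
  have hBo : IsOpen B := isOpen_interior.connectedComponentIn
  have hBα : α ∈ B := mem_connectedComponentIn hint
  have hBsub : B ⊆ interior (filledJulia f) := connectedComponentIn_subset _ _
  have hfr : (frontier B).Nonempty := by
    by_contra hne
    rw [Set.not_nonempty_iff_eq_empty] at hne
    rcases frontier_eq_empty_iff.1 hne with h1 | h1
    · rw [h1] at hBα
      exact hBα
    · have h2 : Bornology.IsBounded (univ : Set ℂ) := by
        rw [← h1]
        exact hKb.subset (hBsub.trans interior_subset)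
      exact NoncompactSpace.noncompact_univ (Metric.isCompact_of_isClosed_isBounded
        isClosed_univ h2)
  obtain ⟨z, hz⟩ := hfr
  have hzint : z ∉ interior (filledJulia f) := by
    intro hzi
    have h1 : z ∈ connectedComponentIn (interior (filledJulia f)) z :=
      mem_connectedComponentIn hzi
    have h2 : IsOpen (connectedComponentIn (interior (filledJulia f)) z) :=
      isOpen_interior.connectedComponentIn
    obtain ⟨y, hy1, hy2⟩ := mem_closure_iff.1 hz.1 _ h2 h1
    have h3 : connectedComponentIn (interior (filledJulia f)) z = B := by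
      rw [connectedComponentIn_eq hy1, ← connectedComponentIn_eq hy2]
    rw [h3] at h1
    exact hz.2 (hBo.interior_eq.symm ▸ h1)
  have hzJ : z ∈ julia f :=
    ⟨closure_mono (hBsub.trans interior_subset) hz.1, hzint⟩
  refine ⟨z, fun θ => fij hd hψ (fun A hA hAb hzA => ?_) hzJ⟩
  by_contra hne
  rw [Set.not_nonempty_iff_eq_empty] at hne
  have hzi : z ∉ impression ψ θ := fun h1 => by
    have : z ∈ A ∩ impression ψ θ := ⟨hzA, h1⟩
    rw [hne] at this
    exact this
  obtain ⟨r, hr, hball⟩ := Metric.isOpen_iff.1 (Orb94.impression_closed ψ θ).isOpen_compl z hzi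
  obtain ⟨y, hy1, hy2⟩ := mem_closure_iff.1 hz.1 _ Metric.isOpen_ball (Metric.mem_ball_self hr)
  obtain ⟨x, hx1, hx2⟩ := h θ (A ∪ (Metric.ball z r ∪ B))
    (hA.union z hzA (Or.inl (Metric.mem_ball_self hr))
      (((convex_ball z r).isPreconnected).union y hy1 hy2 isPreconnected_connectedComponentIn))
    (fun hb => hAb (hb.subset subset_union_left)) (Or.inr (Or.inr hBα))
  rcases hx1 with h1 | h1 | h1
  · have : x ∈ A ∩ impression ψ θ := ⟨h1, hx2⟩
    rw [hne] at this
    exact this
  · exact hball h1 hx2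
  · exact (impression_julia hψ θ hx2).2 (hBsub h1)

end Pool.Agent.Imp
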