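import Pool.Agent.Lib.MP_1c105c_an.Defs18

/-! MP_1c105c_an, stage 19, row COMB: periodic angles and gaps. -/

set_option autoImplicit false

namespace Pool.Agent.Imp

namespace Comb50

/-- Congruence modulo `1`. -/
def Cg (a b : ℝ) : Prop := ∃ n : ℤ, a = b + n

theorem cg_refl (a : ℝ) : Cg a a := ⟨0, by simp⟩

theorem cg_symm {a b : ℝ} (h : Cg a b) : Cg b a := by
  obtain ⟨n, hn⟩ := h
  exact ⟨-n, by rw [hn]; push_cast; ring⟩

theorem cg_trans {a b c : ℝ} (h : Cg a b) (h' : Cg b c) : Cg a c := by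
  obtain ⟨n, hn⟩ := h
  obtain ⟨m, hm⟩ := h'
  exact ⟨m + n, by rw [hn, hm]; push_cast; ring⟩

theorem cg_mul {a b : ℝ} (d k : ℕ) (h : Cg a b) : Cg ((d : ℝ) ^ k * a) ((d : ℝ) ^ k * b) := by
  obtain ⟨n, hn⟩ := h
  exact ⟨(d : ℤ) ^ k * n, by rw [hn]; push_cast; ring⟩

theorem cg_sub {a b a' b' : ℝ} (h : Cg a b) (h' : Cg a' b') :
    Int.fract (a - a') = Int.fract (b - b') := by
  obtain ⟨n, hn⟩ := h
  obtain ⟨m, hm⟩ := h'
  have : a - a' = (b - b') + ((n - m : ℤ) : ℝ) := by rw [hn, hm]; push_cast; ring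
  rw [this, Int.fract_add_intCast]

theorem cg_of_fract {a b : ℝ} (h : Int.fract (a - b) = 0) : Cg a b := by
  refine ⟨⌊a - b⌋, ?_⟩
  have := Int.floor_add_fract (a - b)
  rw [h] at this
  linarith

theorem fract_of_cg {a b : ℝ} (h : Cg a b) : Int.fract (a - b) = 0 := by
  obtain ⟨n, hn⟩ := h
  have : a - b = (n : ℝ) := by rw [hn]; ring
  rw [this, Int.fract_intCast]

section
variable {d p m : ℕ} {x : ℕ → ℝ} {q : ℕ → ℕ} {n : ℕ → ℤ}

theorem per1 (hq : ∀ i, 1 ≤ q i ∧ (d : ℝ) ^ q i * x i = x i + n i) (i t : ℕ) :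
    Cg ((d : ℝ) ^ (q i * t) * x i) (x i) := by
  induction t with
  | zero => exact ⟨0, by simp⟩
  | succ t ih =>
    have h1 : (d : ℝ) ^ (q i * (t + 1)) * x i = (d : ℝ) ^ q i * ((d : ℝ) ^ (q i * t) * x i) := by
      rw [mul_add, mul_one, pow_add]; ring
    rw [h1]
    exact cg_trans (cg_mul d (q i) ih) ⟨n i, (hq i).2⟩

/-- the common period -/
def Qp (p m : ℕ) (q : ℕ → ℕ) : ℕ := p * ∏ i ∈ Finset.range (p * m + 1), q i

theorem Qp_pos (hp : 1 ≤ p) (hq : ∀ i, 1 ≤ q i ∧ (d : ℝ) ^ q i * x i = x i + n i) :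
    1 ≤ Qp p m q :=
  Nat.mul_pos hp (Finset.prod_pos fun i _ => (hq i).1)

theorem per (hq : ∀ i, 1 ≤ q i ∧ (d : ℝ) ^ q i * x i = x i + n i) {i : ℕ} (hi : i ≤ p * m)
    (r t : ℕ) : Cg ((d : ℝ) ^ (r + Qp p m q * t) * x i) ((d : ℝ) ^ r * x i) := by
  have hd : q i ∣ Qp p m q :=
    Dvd.dvd.mul_left (Finset.dvd_prod_of_mem q (Finset.mem_range.2 (Nat.lt_succ_of_le hi))) p
  obtain ⟨c, hc⟩ := hd
  rw [hc, pow_add, mul_assoc, mul_assoc (q i)]
  exact cg_mul d r (per1 hq i (c * t))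

theorem mod_per (r t : ℕ) : (r + Qp p m q * t) % p = r % p := by
  unfold Qp
  rw [mul_assoc, Nat.add_mul_mod_self_left]

/-- reduction of the exponent to `[1, Q]` -/
theorem red (hp : 1 ≤ p) (hq : ∀ i, 1 ≤ q i ∧ (d : ℝ) ^ q i * x i = x i + n i) (k : ℕ) :
    ∃ k', 1 ≤ k' ∧ k' ≤ Qp p m q ∧ k' % p = k % p ∧
      ∀ i ≤ p * m, Cg ((d : ℝ) ^ k' * x i) ((d : ℝ) ^ k * x i) := by
  have hQ : 1 ≤ Qp p m q := Qp_pos hp hq
  have hk : k % Qp p m q + Qp p m q * (k / Qp p m q) = k := Nat.mod_add_div _ _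
  rcases Nat.eq_zero_or_pos (k % Qp p m q) with h0 | h0
  · refine ⟨Qp p m q, hQ, le_rfl, ?_, fun i hi => ?_⟩
    · rw [h0] at hk
      have h1 := mod_per (p := p) (m := m) (q := q) 0 1
      have h2 := mod_per (p := p) (m := m) (q := q) 0 (k / Qp p m q)
      rw [hk] at h2
      rw [h2]
      simpa using h1
    · rw [h0] at hk
      have h1 := per hq hi 0 1
      have h2 := per hq hi 0 (k / Qp p m q)
      rw [hk] at h2
      rw [zero_add, mul_one] at h1
      exact cg_trans h1 (cg_symm h2)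
  · refine ⟨k % Qp p m q, h0, (Nat.mod_lt _ hQ).le, ?_, fun i hi => ?_⟩
    · have h2 := mod_per (p := p) (m := m) (q := q) (k % Qp p m q) (k / Qp p m q)
      rw [hk] at h2
      exact h2.symm
    · have h2 := per hq hi (k % Qp p m q) (k / Qp p m q)
      rw [hk] at h2
      exact cg_symm h2

/-- from one common point to the orbits -/
theorem orb (hp : 1 ≤ p) (hq : ∀ i, 1 ≤ q i ∧ (d : ℝ) ^ q i * x i = x i + n i) {i j : ℕ}
    (hj : j ≤ p * m) {k k' : ℕ} (hk : k % p = k' % p)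
    (h : Cg ((d : ℝ) ^ k * x i) ((d : ℝ) ^ k' * x j)) :
    ∃ N : ℕ, Cg ((d : ℝ) ^ (N * p) * x i) (x j) := by
  have hQ : 1 ≤ Qp p m q := Qp_pos hp hq
  have hle : k' ≤ Qp p m q * k' := Nat.le_mul_of_pos_left _ hQ
  obtain ⟨e, he⟩ := Nat.exists_eq_add_of_le hle
  have hm : (k + e) % p = 0 := by
    have h1 : (k' + e) % p = 0 := by
      rw [← he]
      have := mod_per (p := p) (m := m) (q := q) 0 k'
      simpa using this
    rw [Nat.add_mod, hk, ← Nat.add_mod, h1]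
  obtain ⟨N, hN⟩ := Nat.dvd_of_mod_eq_zero hm
  refine ⟨N, ?_⟩
  have h1 := cg_mul d e h
  have h2 : (d : ℝ) ^ e * ((d : ℝ) ^ k * x i) = (d : ℝ) ^ (N * p) * x i := by
    rw [mul_comm N p, ← hN, pow_add]; ring
  have h3 : (d : ℝ) ^ e * ((d : ℝ) ^ k' * x j) = (d : ℝ) ^ (0 + Qp p m q * k') * x j := by
    rw [zero_add, he, pow_add]; ring
  rw [h2, h3] at h1
  have h4 := per hq hj 0 k'
  rw [pow_zero, one_mul] at h4
  exact cg_trans h1 h4

end

end Comb50

open Comb50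

/-- Among `p m + 1` periodic angles two are in the same orbit of the multiplication by `d ^ p`. -/
theorem comb : CombStatement := by
  intro d p m s x q n hd hp hm hq hs hbr
  by_contra hcon
  -- different orbits
  have hdiff : ∀ i j, i < j → j ≤ p * m → ∀ k k', k % p = k' % p →
      ¬ Cg ((d : ℝ) ^ k * x i) ((d : ℝ) ^ k' * x j) := by
    intro i j hij hj k k' hk h
    obtain ⟨N, c, hc⟩ := orb hp hq hj hk h
    exact hcon ⟨i, j, N, c, hij, hj, hc⟩
  have hdiff' : ∀ i j, i ≤ p * m → j ≤ p * m → i ≠ j → ∀ k k', k % p = k' % p →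
      ¬ Cg ((d : ℝ) ^ k * x i) ((d : ℝ) ^ k' * x j) := by
    intro i j hi hj hij k k' hk h
    rcases lt_or_gt_of_ne hij with h1 | h1
    · exact hdiff i j h1 hj k k' hk h
    · exact hdiff j i h1 hi k' k hk.symm (cg_symm h)
  have hpm : 1 ≤ p * m := Nat.mul_pos hp hm
  -- the gaps
  have hgap : ∀ i k : ℕ, ∃ g : ℝ, i ≤ p * m →
      (∃ j k', j ≤ p * m ∧ 1 ≤ k' ∧ k' % p = k % p ∧
        Int.fract ((d : ℝ) ^ k' * x j - (d : ℝ) ^ k * x i) = g ∧ 0 < g) ∧
      ∀ j k', j ≤ p * m → k' % p = k % p →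
        Int.fract ((d : ℝ) ^ k' * x j - (d : ℝ) ^ k * x i) ≠ 0 →
        g ≤ Int.fract ((d : ℝ) ^ k' * x j - (d : ℝ) ^ k * x i) := by
    intro i k
    by_cases hi : i ≤ p * m
    swap
    · exact ⟨0, fun h => absurd h hi⟩
    let T : Finset (ℕ × ℕ) := ((Finset.range (p * m + 1)) ×ˢ (Finset.Icc 1 (Qp p m q))).filter
      (fun z => z.2 % p = k % p ∧
        Int.fract ((d : ℝ) ^ z.2 * x z.1 - (d : ℝ) ^ k * x i) ≠ 0)
    have hT : T.Nonempty := by
      obtain ⟨j, hj, hji⟩ : ∃ j ≤ p * m, j ≠ i := by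
        by_cases h0 : i = 0
        · exact ⟨1, hpm, by omega⟩
        · exact ⟨0, by omega, fun h => h0 h.symm⟩
      obtain ⟨k', hk1, hk2, hk3, hk4⟩ := red (m := m) hp hq k
      refine ⟨(j, k'), ?_⟩
      simp only [T, Finset.mem_filter, Finset.mem_product, Finset.mem_range, Finset.mem_Icc]
      refine ⟨⟨by omega, hk1, hk2⟩, hk3, fun h => ?_⟩
      exact hdiff' j i hj hi hji k' k hk3 (cg_of_fract h)
    obtain ⟨z, hz, hmin⟩ := Finset.exists_min_image T
      (fun z => Int.fract ((d : ℝ) ^ z.2 * x z.1 - (d : ℝ) ^ k * x i)) hT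
    have hz' := hz
    simp only [T, Finset.mem_filter, Finset.mem_product, Finset.mem_range, Finset.mem_Icc] at hz'
    refine ⟨Int.fract ((d : ℝ) ^ z.2 * x z.1 - (d : ℝ) ^ k * x i), fun _ => ⟨⟨z.1, z.2, by omega,
      hz'.1.2.1, hz'.2.1, rfl, lt_of_le_of_ne (Int.fract_nonneg _) (Ne.symm hz'.2.2)⟩, ?_⟩⟩
    intro j k' hj hk' hne
    obtain ⟨k'', hk1, hk2, hk3, hk4⟩ := red (m := m) hp hq k'
    have heq : Int.fract ((d : ℝ) ^ k'' * x j - (d : ℝ) ^ k * x i) =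
        Int.fract ((d : ℝ) ^ k' * x j - (d : ℝ) ^ k * x i) := cg_sub (hk4 j hj) (cg_refl _)
    rw [← heq]
    refine hmin (j, k'') ?_
    simp only [T, Finset.mem_filter, Finset.mem_product, Finset.mem_range, Finset.mem_Icc]
    exact ⟨⟨by omega, hk1, hk2⟩, hk3.trans hk', by rw [heq]; exact hne⟩
  choose g hg using hgap
  have hd0 : (0 : ℝ) < d := by exact_mod_cast (by omega : 0 < d)
  have hd1 : (1 : ℝ) < d := by exact_mod_cast (by omega : 1 < d)
  -- contraction at a gap without s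
  have hstep : ∀ i k, i ≤ p * m →
      (∀ l, g i (k + 1) < Int.fract (s l - (d : ℝ) ^ (k + 1) * x i)) →
      g i k ≤ g i (k + 1) / d := by
    intro i k hi hl
    obtain ⟨⟨j, k', hj, hk1, hk2, hk3, hk4⟩, -⟩ := hg i (k + 1) hi
    obtain ⟨c, rfl⟩ : ∃ c, k' = c + 1 := ⟨k' - 1, by omega⟩
    have hck : k % p = c % p := by
      have : (c + 1) ≡ (k + 1) [MOD p] := hk2
      exact (Nat.ModEq.add_right_cancel' 1 this).symm
    have h1 := hbr i j k c hck (fun l => by rw [hk3]; exact hl l)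
    rw [hk3] at h1
    rw [← h1]
    refine (hg i k hi).2 j c hj hck.symm ?_
    rw [h1]
    exact (div_pos hk4 hd0).ne'
  -- periodicity of g
  have hgper : ∀ i k, i ≤ p * m → g i (k + Qp p m q) ≤ g i k := by
    intro i k hi
    have hmod : (k + Qp p m q) % p = k % p := by
      have := mod_per (p := p) (m := m) (q := q) k 1
      simpa using this
    have hc : Cg ((d : ℝ) ^ (k + Qp p m q) * x i) ((d : ℝ) ^ k * x i) := by
      have := per hq hi k 1
      simpa using this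
    obtain ⟨⟨j, k', hj, hk1, hk2, hk3, hk4⟩, -⟩ := hg i k hi
    have heq : Int.fract ((d : ℝ) ^ k' * x j - (d : ℝ) ^ (k + Qp p m q) * x i) =
        Int.fract ((d : ℝ) ^ k' * x j - (d : ℝ) ^ k * x i) := cg_sub (cg_refl _) hc
    rw [← hk3, ← heq]
    refine (hg i (k + Qp p m q) hi).2 j k' hj (hk2.trans hmod.symm) ?_
    rw [heq, hk3]
    exact hk4.ne'
  -- each orbit has a gap with some s
  have hcrit : ∀ i, i ≤ p * m → ∃ k l, Int.fract (s l - (d : ℝ) ^ k * x i) ≤ g i k := by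
    intro i hi
    by_contra hno
    push Not at hno
    have hall : ∀ t, g i 0 ≤ g i t / (d : ℝ) ^ t := by
      intro t
      induction t with
      | zero => simp
      | succ t ih =>
        refine ih.trans ?_
        have h1 := hstep i t hi (fun l => hno (t + 1) l)
        calc g i t / (d : ℝ) ^ t ≤ (g i (t + 1) / d) / (d : ℝ) ^ t :=
              div_le_div_of_nonneg_right h1 (pow_pos hd0 t).le
          _ = g i (t + 1) / (d : ℝ) ^ (t + 1) := by rw [div_div, pow_succ']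
    have h1 := hall (Qp p m q)
    have h2 := hgper i 0 hi
    rw [zero_add] at h2
    obtain ⟨⟨-, -, -, -, -, -, hpos⟩, -⟩ := hg i 0 hi
    have hQ : 1 ≤ Qp p m q := Qp_pos hp hq
    have h3 : (1 : ℝ) < (d : ℝ) ^ Qp p m q := one_lt_pow₀ hd1 (by omega)
    have h4 : g i (Qp p m q) / (d : ℝ) ^ Qp p m q ≤ g i 0 / (d : ℝ) ^ Qp p m q :=
      div_le_div_of_nonneg_right h2 (by positivity)
    have h5 : g i 0 / (d : ℝ) ^ Qp p m q < g i 0 := div_lt_self hpos h3
    linarith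
  have : Nonempty (Fin m) := ⟨⟨0, hm⟩⟩
  choose! kk ll hkl using hcrit
  -- pigeonhole
  have hmap : ∃ i ∈ Finset.range (p * m + 1), ∃ j ∈ Finset.range (p * m + 1), i ≠ j ∧
      ((kk i % p, ll i) : ℕ × Fin m) = (kk j % p, ll j) := by
    refine Finset.exists_ne_map_eq_of_card_lt_of_maps_to
      (t := (Finset.range p) ×ˢ (Finset.univ : Finset (Fin m))) ?_ ?_
    · simp
    · intro i _
      simp only [Finset.coe_product, Set.mem_prod, Finset.mem_coe, Finset.mem_range,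
        Finset.mem_univ, and_true]
      exact Nat.mod_lt _ hp
  obtain ⟨i, hi, j, hj, hij, heq⟩ := hmap
  rw [Finset.mem_range] at hi hj
  have hi' : i ≤ p * m := by omega
  have hj' : j ≤ p * m := by omega
  have hk : kk i % p = kk j % p := congrArg Prod.fst heq
  have hl : ll i = ll j := congrArg Prod.snd heq
  have hne := hdiff' i j hi' hj' hij (kk i) (kk j) hk
  have h1 := hkl i hi'
  have h2 := hkl j hj'
  rw [← hl] at h2
  set y : ℝ := (d : ℝ) ^ kk i * x i with hy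
  set y' : ℝ := (d : ℝ) ^ kk j * x j with hy'
  have hb : Int.fract (y' - y) ≠ 0 := fun h => hne (cg_symm (cg_of_fract h))
  have hb' : Int.fract (y - y') ≠ 0 := fun h => hne (cg_of_fract h)
  have h3 : g i (kk i) ≤ Int.fract (y' - y) := (hg i (kk i) hi').2 j (kk j) hj' hk.symm hb
  have h4 : g j (kk j) ≤ Int.fract (y - y') := (hg j (kk j) hj').2 i (kk i) hi' hk hb'
  have ha : Int.fract (s (ll i) - y) ≠ 0 := by
    intro h
    obtain ⟨c, hc⟩ := cg_symm (cg_of_fract h)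
    exact hs i (kk i) (ll i) c hc
  have ha' : Int.fract (s (ll i) - y') ≠ 0 := by
    intro h
    obtain ⟨c, hc⟩ := cg_symm (cg_of_fract h)
    exact hs j (kk j) (ll i) c hc
  -- the three points y, y', s on the circle
  have e1 := Int.floor_add_fract (s (ll i) - y)
  have e2 := Int.floor_add_fract (s (ll i) - y')
  have e3 := Int.floor_add_fract (y' - y)
  have e4 := Int.floor_add_fract (y - y')
  have p1 := Int.fract_nonneg (s (ll i) - y)
  have p2 := Int.fract_nonneg (s (ll i) - y')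
  have p3 := Int.fract_nonneg (y' - y)
  have p4 := Int.fract_nonneg (y - y')
  have u3 := Int.fract_lt_one (y' - y)
  have u4 := Int.fract_lt_one (y - y')
  have u1 := Int.fract_lt_one (s (ll i) - y)
  have u2 := Int.fract_lt_one (s (ll i) - y')
  have q1 : 0 < Int.fract (s (ll i) - y) := lt_of_le_of_ne p1 (Ne.symm ha)
  have q2 : 0 < Int.fract (s (ll i) - y') := lt_of_le_of_ne p2 (Ne.symm ha')
  have q3 : 0 < Int.fract (y' - y) := lt_of_le_of_ne p3 (Ne.symm hb)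
  have q4 : 0 < Int.fract (y - y') := lt_of_le_of_ne p4 (Ne.symm hb')
  have r1 : Int.fract (s (ll i) - y) ≤ Int.fract (y' - y) := h1.trans h3
  have r2 : Int.fract (s (ll i) - y') ≤ Int.fract (y - y') := h2.trans h4
  -- fract (y' - y) + fract (y - y') is an integer in (0, 2), so 1
  have s1 : Int.fract (y' - y) + Int.fract (y - y') = 1 := by
    have : Int.fract (y' - y) + Int.fract (y - y') = ((-(⌊y' - y⌋ + ⌊y - y'⌋) : ℤ) : ℝ) := by
      push_cast; linarith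
    rw [this]
    have a1 : (0 : ℝ) < ((-(⌊y' - y⌋ + ⌊y - y'⌋) : ℤ) : ℝ) := by rw [← this]; linarith
    have a2 : ((-(⌊y' - y⌋ + ⌊y - y'⌋) : ℤ) : ℝ) < 2 := by rw [← this]; linarith
    have a3 : (0 : ℤ) < -(⌊y' - y⌋ + ⌊y - y'⌋) := by exact_mod_cast a1
    have a4 : (-(⌊y' - y⌋ + ⌊y - y'⌋) : ℤ) < 2 := by exact_mod_cast a2
    have a5 : (-(⌊y' - y⌋ + ⌊y - y'⌋) : ℤ) = 1 := by omega
    rw [a5]; simp
  -- fract (s - y) - fract (s - y') - fract (y' - y) is an integer in (-2, 0], it is 0 or -1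
  have s2 : Int.fract (s (ll i) - y) - Int.fract (s (ll i) - y') - Int.fract (y' - y) =
      ((⌊s (ll i) - y'⌋ + ⌊y' - y⌋ - ⌊s (ll i) - y⌋ : ℤ) : ℝ) := by
    push_cast; linarith
  have a1 : ((⌊s (ll i) - y'⌋ + ⌊y' - y⌋ - ⌊s (ll i) - y⌋ : ℤ) : ℝ) < 0 := by
    rw [← s2]; linarith
  have a2 : (-1 : ℝ) < ((⌊s (ll i) - y'⌋ + ⌊y' - y⌋ - ⌊s (ll i) - y⌋ : ℤ) : ℝ) := by
    rw [← s2]; linarith
  have a3 : (⌊s (ll i) - y'⌋ + ⌊y' - y⌋ - ⌊s (ll i) - y⌋ : ℤ) < 0 := by exact_mod_cast a1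
  have a4 : (-1 : ℤ) < (⌊s (ll i) - y'⌋ + ⌊y' - y⌋ - ⌊s (ll i) - y⌋ : ℤ) := by
    exact_mod_cast a2
  omega

end Pool.Agent.Imp
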