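import Pool.Agent.Lib.MP_1c105c_an.Defs

/-! Row COUNT: words in base `D = d ^ p` all of whose occurrences of one digit are bad. -/

set_option autoImplicit false

open Finset

namespace Pool.Agent.Imp

namespace Cnt

variable (d p i₀ m₀ : ℕ) (W : ℕ → Finset ℕ)

/-- The prefix `y` of length `m` is bad. -/
def Bad (m y : ℕ) : Prop := ∃ k < p * m, y % d ^ k ∈ W k

/-- The allowed words of length `m`. -/
def A (m : ℕ) : Finset ℕ :=
  (Finset.range ((d ^ p) ^ m)).filter fun x => ∀ m' < m, m₀ ≤ m' →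
        x / (d ^ p) ^ (m - m' - 1) % d ^ p = i₀ →
        ∃ k < p * m', x / (d ^ p) ^ (m - m') % d ^ k ∈ W k

variable {d p i₀ m₀ W}

theorem mem_A {m x : ℕ} : x ∈ A d p i₀ m₀ W m ↔ x < (d ^ p) ^ m ∧ ∀ m' < m, m₀ ≤ m' →
    x / (d ^ p) ^ (m - m' - 1) % d ^ p = i₀ → Bad d p W m' (x / (d ^ p) ^ (m - m')) := by
  simp only [A, Bad, Finset.mem_filter, Finset.mem_range]

theorem mem_succ (hD : 0 < d ^ p) {m x : ℕ} : x ∈ A d p i₀ m₀ W (m + 1) ↔
    x / d ^ p ∈ A d p i₀ m₀ W m ∧ (m₀ ≤ m → x % d ^ p = i₀ → Bad d p W m (x / d ^ p)) := by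
  rw [mem_A, mem_A, Nat.div_lt_iff_lt_mul hD, ← pow_succ]
  have key : ∀ j, x / (d ^ p) ^ (j + 1) = x / d ^ p / (d ^ p) ^ j := by
    intro j
    rw [Nat.div_div_eq_div_mul, ← pow_succ']
  constructor
  · rintro ⟨h1, h2⟩
    refine ⟨⟨h1, fun m' hm' h0 he => ?_⟩, fun h0 he => ?_⟩
    · have e1 : m + 1 - m' - 1 = (m - m' - 1) + 1 := by omega
      have e2 : m + 1 - m' = (m - m') + 1 := by omega
      have := h2 m' (by omega) h0 (by rw [e1, key]; exact he)
      rwa [e2, key] at this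
    · have := h2 m (by omega) h0 (by simpa using he)
      simpa using this
  · rintro ⟨⟨h1, h2⟩, h3⟩
    refine ⟨h1, fun m' hm' h0 he => ?_⟩
    rcases Nat.lt_succ_iff_lt_or_eq.1 hm' with h | h
    · have e1 : m + 1 - m' - 1 = (m - m' - 1) + 1 := by omega
      have e2 : m + 1 - m' = (m - m') + 1 := by omega
      rw [e1, key] at he
      have := h2 m' h h0 he
      rwa [e2, key]
    · subst h
      have := h3 h0 (by simpa using he)
      simpa using this

theorem prefix_mem (hD : 0 < d ^ p) {m : ℕ} : ∀ (q : ℕ) {x : ℕ}, x ∈ A d p i₀ m₀ W (m + q) →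
    x / (d ^ p) ^ q ∈ A d p i₀ m₀ W m
  | 0, x, h => by simpa using h
  | q + 1, x, h => by
    have h1 := ((mem_succ hD).1 (show x ∈ A d p i₀ m₀ W ((m + q) + 1) from h)).1
    have h2 := prefix_mem hD q h1
    rwa [Nat.div_div_eq_div_mul, ← pow_succ'] at h2

theorem inj {D y e y' e' : ℕ} (he : e < D) (he' : e' < D) (h : D * y + e = D * y' + e') :
    y = y' ∧ e = e' := by
  have hD : 0 < D := by omega
  have h1 : (D * y + e) / D = y := by
    rw [Nat.mul_add_div hD, Nat.div_eq_of_lt he, add_zero]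
  have h1' : (D * y' + e') / D = y' := by
    rw [Nat.mul_add_div hD, Nat.div_eq_of_lt he', add_zero]
  have h2 : y = y' := by rw [← h1, ← h1', h]
  exact ⟨h2, by subst h2; omega⟩

theorem lower (hD : 0 < d ^ p) (hi : i₀ < d ^ p) (m : ℕ) :
    (d ^ p - 1) * (A d p i₀ m₀ W m).card ≤ (A d p i₀ m₀ W (m + 1)).card := by
  classical
  have h1 : ((A d p i₀ m₀ W m ×ˢ (range (d ^ p)).erase i₀).image
      fun z : ℕ × ℕ => d ^ p * z.1 + z.2) ⊆ A d p i₀ m₀ W (m + 1) := by
    intro x hx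
    simp only [mem_image, mem_product, mem_erase, mem_range, Prod.exists] at hx
    obtain ⟨y, e, ⟨hy, hne, he⟩, rfl⟩ := hx
    rw [mem_succ hD]
    have e1 : (d ^ p * y + e) / d ^ p = y := by
      rw [Nat.mul_add_div hD, Nat.div_eq_of_lt he, add_zero]
    have e2 : (d ^ p * y + e) % d ^ p = e := by
      rw [Nat.mul_add_mod, Nat.mod_eq_of_lt he]
    rw [e1, e2]
    exact ⟨hy, fun _ h => absurd h hne⟩
  have h2 := card_le_card h1
  rw [card_image_of_injOn, card_product, card_erase_of_mem (mem_range.2 hi), card_range] at h2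
  · linarith [mul_comm (d ^ p - 1) (A d p i₀ m₀ W m).card]
  · rintro ⟨y, e⟩ hz ⟨y', e'⟩ hz' h
    simp only [coe_product, Set.mem_prod, mem_coe, mem_erase, mem_range] at hz hz'
    obtain ⟨h3, h4⟩ := inj hz.2.2 hz'.2.2 h
    exact Prod.ext h3 h4

theorem lower_iter (hD : 0 < d ^ p) (hi : i₀ < d ^ p) (m : ℕ) : ∀ q : ℕ,
    (d ^ p - 1) ^ q * (A d p i₀ m₀ W m).card ≤ (A d p i₀ m₀ W (m + q)).card
  | 0 => by simp
  | q + 1 => by
    have h1 := lower_iter hD hi m q
    have h2 := lower (m₀ := m₀) (W := W) hD hi (m + q)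
    calc (d ^ p - 1) ^ (q + 1) * (A d p i₀ m₀ W m).card
        = (d ^ p - 1) * ((d ^ p - 1) ^ q * (A d p i₀ m₀ W m).card) := by ring
      _ ≤ (d ^ p - 1) * (A d p i₀ m₀ W (m + q)).card := Nat.mul_le_mul_left _ h1
      _ ≤ _ := h2

open Classical in
/-- The allowed bad prefixes. -/
noncomputable def B (d p i₀ m₀ : ℕ) (W : ℕ → Finset ℕ) (m : ℕ) : Finset ℕ :=
  (A d p i₀ m₀ W m).filter fun y => Bad d p W m y

theorem upper (hD : 0 < d ^ p) (hi : i₀ < d ^ p) {m : ℕ} (hm : m₀ ≤ m) :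
    (A d p i₀ m₀ W (m + 1)).card ≤
      (d ^ p - 1) * (A d p i₀ m₀ W m).card + (B d p i₀ m₀ W m).card := by
  classical
  have h1 : A d p i₀ m₀ W (m + 1) ⊆ ((A d p i₀ m₀ W m ×ˢ (range (d ^ p)).erase i₀).image
      fun z : ℕ × ℕ => d ^ p * z.1 + z.2) ∪ (B d p i₀ m₀ W m).image fun y => d ^ p * y + i₀ := by
    intro x hx
    rw [mem_succ hD] at hx
    rw [mem_union]
    by_cases he : x % d ^ p = i₀
    · right
      rw [mem_image]
      refine ⟨x / d ^ p, ?_, ?_⟩
      · rw [B, mem_filter]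
        exact ⟨hx.1, hx.2 hm he⟩
      · rw [← he]; exact Nat.div_add_mod x (d ^ p)
    · left
      rw [mem_image]
      refine ⟨(x / d ^ p, x % d ^ p), ?_, Nat.div_add_mod x (d ^ p)⟩
      rw [mem_product, mem_erase, mem_range]
      exact ⟨hx.1, he, Nat.mod_lt _ hD⟩
  refine (card_le_card h1).trans ((card_union_le _ _).trans (add_le_add ?_ card_image_le))
  refine card_image_le.trans ?_
  rw [card_product, card_erase_of_mem (mem_range.2 hi), card_range, mul_comm]

/-- The number of allowed words whose last `k` digits in base `d` are given. -/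
theorem fibre (hd : 0 < d) {m k q w : ℕ} (hk : k ≤ p * q) :
    ((A d p i₀ m₀ W (m + q)).filter fun y => y % d ^ k = w).card ≤
      d ^ (p * q - k) * (A d p i₀ m₀ W m).card := by
  classical
  have hD : 0 < d ^ p := pow_pos hd p
  have hdk : 0 < d ^ k := pow_pos hd k
  have hsplit : (d ^ p) ^ q = d ^ k * d ^ (p * q - k) := by
    rw [← pow_mul, ← pow_add]; congr 1; omega
  have h1 : ((A d p i₀ m₀ W (m + q)).filter fun y => y % d ^ k = w) ⊆
      ((A d p i₀ m₀ W m ×ˢ range (d ^ (p * q - k))).image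
        fun z : ℕ × ℕ => (d ^ p) ^ q * z.1 + (d ^ k * z.2 + w)) := by
    intro y hy
    rw [mem_filter] at hy
    obtain ⟨hy1, hy2⟩ := hy
    rw [mem_image]
    have hq : 0 < (d ^ p) ^ q := pow_pos hD q
    refine ⟨(y / (d ^ p) ^ q, y % (d ^ p) ^ q / d ^ k), ?_, ?_⟩
    · rw [mem_product, mem_range]
      refine ⟨prefix_mem hD q hy1, ?_⟩
      rw [Nat.div_lt_iff_lt_mul hdk, mul_comm, ← hsplit]
      exact Nat.mod_lt _ hq
    · have e1 : y % (d ^ p) ^ q % d ^ k = w := by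
        rw [← hy2]
        exact Nat.mod_mod_of_dvd _ (by rw [hsplit]; exact dvd_mul_right _ _)
      have e2 := Nat.div_add_mod (y % (d ^ p) ^ q) (d ^ k)
      rw [e1] at e2
      have e3 := Nat.div_add_mod y ((d ^ p) ^ q)
      show (d ^ p) ^ q * (y / (d ^ p) ^ q) + (d ^ k * (y % (d ^ p) ^ q / d ^ k) + w) = y
      rw [e2, e3]
  refine (card_le_card h1).trans (card_image_le.trans ?_)
  rw [card_product, card_range, mul_comm]

theorem B_card (m : ℕ) : (B d p i₀ m₀ W m).card ≤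
    ∑ k ∈ range (p * m), ∑ w ∈ W k,
      ((A d p i₀ m₀ W m).filter fun y => y % d ^ k = w).card := by
  classical
  have h1 : B d p i₀ m₀ W m ⊆ (range (p * m)).biUnion fun k => (W k).biUnion fun w =>
      (A d p i₀ m₀ W m).filter fun y => y % d ^ k = w := by
    intro y hy
    rw [B, mem_filter] at hy
    obtain ⟨hy1, k, hk, hw⟩ := hy
    simp only [mem_biUnion, mem_range, mem_filter]
    exact ⟨k, hk, y % d ^ k, hw, hy1, rfl⟩
  refine (card_le_card h1).trans (card_biUnion_le.trans (sum_le_sum fun k _ => card_biUnion_le))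

theorem B_le (hd : 2 ≤ d) (h16 : 16 ≤ d ^ p) (hi : i₀ < d ^ p) (h0 : W 0 = ∅) (h1 : W 1 = ∅)
    (hW : ∀ k, (W k).card ≤ d - 1) (m : ℕ) :
    ((B d p i₀ m₀ W m).card : ℝ) ≤ 3 / 4 * (A d p i₀ m₀ W m).card := by
  classical
  have hp : 0 < p := by
    rcases Nat.eq_zero_or_pos p with h | h
    · subst h; norm_num at h16
    · exact h
  have hd0 : 0 < d := by omega
  have hdr : (2 : ℝ) ≤ d := by exact_mod_cast hd
  have hDr : (16 : ℝ) ≤ (d : ℝ) ^ p := by exact_mod_cast h16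
  set a : ℝ := ((A d p i₀ m₀ W m).card : ℝ) with ha
  have ha0 : 0 ≤ a := by positivity
  set r : ℝ := 16 / (15 * d) with hr
  have hr0 : 0 < r := by positivity
  have hr1 : r < 1 := by
    rw [hr, div_lt_one (by positivity)]; linarith
  -- the term for one `k`
  have hterm : ∀ k < p * m, ∀ w,
      (((A d p i₀ m₀ W m).filter fun y => y % d ^ k = w).card : ℝ) ≤ 16 / 15 * r ^ k * a := by
    intro k hk w
    have hq : k / p + 1 ≤ m := by
      have := (Nat.div_lt_iff_lt_mul hp).2 (show k < m * p by rw [mul_comm]; exact hk)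
      omega
    set q := k / p + 1 with hqdef
    have hkq : k ≤ p * q := by
      have := Nat.lt_mul_div_succ k hp
      rw [hqdef]; omega
    obtain ⟨n, hn⟩ : ∃ n, m = n + q := ⟨m - q, by omega⟩
    have f1 := fibre (i₀ := i₀) (m₀ := m₀) (W := W) hd0 (m := n) (w := w) hkq
    have f2 := lower_iter (m₀ := m₀) (W := W) (pow_pos hd0 p) hi n q
    rw [← hn] at f1 f2
    have f1' : (((A d p i₀ m₀ W m).filter fun y => y % d ^ k = w).card : ℝ) ≤
        (d : ℝ) ^ (p * q - k) * (A d p i₀ m₀ W n).card := by exact_mod_cast f1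
    have f2' : ((d : ℝ) ^ p - 1) ^ q * (A d p i₀ m₀ W n).card ≤ a := by
      have : (((d ^ p - 1 : ℕ) : ℝ)) = (d : ℝ) ^ p - 1 := by
        rw [Nat.cast_sub (by omega)]; push_cast; ring
      rw [← this, ha]
      exact_mod_cast f2
    have hD1 : 0 < (d : ℝ) ^ p - 1 := by linarith
    have hqk : q ≤ k + 1 := by
      rw [hqdef]; exact Nat.succ_le_succ (Nat.div_le_self k p)
    have hA : ((A d p i₀ m₀ W n).card : ℝ) ≤ a / ((d : ℝ) ^ p - 1) ^ q := by
      rw [le_div_iff₀ (pow_pos hD1 q), mul_comm]; exact f2'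
    have hpow : (d : ℝ) ^ (p * q - k) = ((d : ℝ) ^ p) ^ q / (d : ℝ) ^ k := by
      rw [eq_div_iff (by positivity), ← pow_add, ← pow_mul]
      congr 1; omega
    calc (((A d p i₀ m₀ W m).filter fun y => y % d ^ k = w).card : ℝ)
        ≤ (d : ℝ) ^ (p * q - k) * (a / ((d : ℝ) ^ p - 1) ^ q) :=
          f1'.trans (mul_le_mul_of_nonneg_left hA (by positivity))
      _ = ((d : ℝ) ^ p / ((d : ℝ) ^ p - 1)) ^ q * (a / (d : ℝ) ^ k) := by
          rw [hpow, div_pow]; ring
      _ ≤ (16 / 15) ^ (k + 1) * (a / (d : ℝ) ^ k) := by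
          refine mul_le_mul_of_nonneg_right ?_ (by positivity)
          have hx : (d : ℝ) ^ p / ((d : ℝ) ^ p - 1) ≤ 16 / 15 := by
            rw [div_le_div_iff₀ hD1 (by norm_num)]; linarith
          have hx0 : 0 ≤ (d : ℝ) ^ p / ((d : ℝ) ^ p - 1) := by positivity
          calc ((d : ℝ) ^ p / ((d : ℝ) ^ p - 1)) ^ q ≤ (16 / 15 : ℝ) ^ q :=
                pow_le_pow_left₀ hx0 hx q
            _ ≤ (16 / 15 : ℝ) ^ (k + 1) := pow_le_pow_right₀ (by norm_num) hqk
      _ = 16 / 15 * r ^ k * a := by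
          have e : r = 16 / 15 / (d : ℝ) := by rw [hr]; field_simp
          rw [e, div_pow (16 / 15 : ℝ) (d : ℝ) k, pow_succ (16 / 15 : ℝ) k]
          generalize (16 / 15 : ℝ) ^ k = c
          ring
  have hsum : ((B d p i₀ m₀ W m).card : ℝ) ≤
      ∑ k ∈ range (p * m), ∑ w ∈ W k,
        (((A d p i₀ m₀ W m).filter fun y => y % d ^ k = w).card : ℝ) := by
    exact_mod_cast B_card (i₀ := i₀) (m₀ := m₀) (W := W) (p := p) (d := d) m
  have hd1 : ((d - 1 : ℕ) : ℝ) = (d : ℝ) - 1 := by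
    rw [Nat.cast_sub (by omega)]; simp
  have hk : ∀ k ∈ range (p * m), (∑ w ∈ W k,
      (((A d p i₀ m₀ W m).filter fun y => y % d ^ k = w).card : ℝ)) ≤
      if 2 ≤ k then ((d : ℝ) - 1) * (16 / 15 * r ^ k * a) else 0 := by
    intro k hk
    rw [mem_range] at hk
    split_ifs with h2
    · calc (∑ w ∈ W k, (((A d p i₀ m₀ W m).filter fun y => y % d ^ k = w).card : ℝ))
          ≤ ∑ _w ∈ W k, 16 / 15 * r ^ k * a := sum_le_sum fun w _ => hterm k hk w
        _ = (W k).card * (16 / 15 * r ^ k * a) := by rw [sum_const, nsmul_eq_mul]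
        _ ≤ ((d : ℝ) - 1) * (16 / 15 * r ^ k * a) := by
          refine mul_le_mul_of_nonneg_right ?_ (by positivity)
          rw [← hd1]; exact_mod_cast hW k
    · have hk01 : k = 0 ∨ k = 1 := by omega
      rcases hk01 with h | h
      · subst h; rw [h0]; simp
      · subst h; rw [h1]; simp
  have hgeo : ∑ k ∈ range (p * m), (if 2 ≤ k then ((d : ℝ) - 1) * (16 / 15 * r ^ k * a) else 0) ≤
      ((d : ℝ) - 1) * (16 / 15) * a * (r ^ 2 / (1 - r)) := by
    rw [← sum_filter]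
    have hI : (range (p * m)).filter (fun k => 2 ≤ k) = Ico 2 (p * m) := by
      ext k; simp only [mem_filter, mem_range, mem_Ico]; tauto
    rw [hI]
    have := geom_sum_Ico_le_of_lt_one (m := 2) (n := p * m) hr0.le hr1
    calc ∑ k ∈ Ico 2 (p * m), ((d : ℝ) - 1) * (16 / 15 * r ^ k * a)
        = ((d : ℝ) - 1) * (16 / 15) * a * ∑ k ∈ Ico 2 (p * m), r ^ k := by
          rw [mul_sum]; exact sum_congr rfl fun k _ => by ring
      _ ≤ _ := mul_le_mul_of_nonneg_left this (by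
          have : 0 ≤ (d : ℝ) - 1 := by linarith
          positivity)
  have hfin : ((d : ℝ) - 1) * (16 / 15) * (r ^ 2 / (1 - r)) ≤ 3 / 4 := by
    have h1r : 0 < 1 - r := by linarith
    rw [← mul_div_assoc, div_le_iff₀ h1r, hr]
    have hd2 : (0 : ℝ) < d := by linarith
    have : ((d : ℝ) - 1) * (16 / 15) * (16 / (15 * d)) ^ 2 =
        4096 * ((d : ℝ) - 1) / (3375 * d ^ 2) := by
      field_simp; ring
    rw [this, div_le_iff₀ (by positivity)]
    have e : 3 / 4 * (1 - 16 / (15 * (d : ℝ))) * (3375 * d ^ 2) =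
        10125 / 4 * d ^ 2 - 2700 * d := by
      field_simp; ring
    rw [e]
    nlinarith [mul_nonneg (sub_nonneg.2 hdr) (sub_nonneg.2 hdr)]
  calc ((B d p i₀ m₀ W m).card : ℝ)
      ≤ _ := hsum
    _ ≤ _ := sum_le_sum hk
    _ ≤ _ := hgeo
    _ = (((d : ℝ) - 1) * (16 / 15) * (r ^ 2 / (1 - r))) * a := by ring
    _ ≤ 3 / 4 * a := mul_le_mul_of_nonneg_right hfin ha0

end Cnt

open Cnt in
theorem count : CountStatement := by
  intro d p i₀ W hd h16 hi h0 h1 hW m₀
  have hd0 : 0 < d := by omega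
  have hD : 0 < d ^ p := pow_pos hd0 p
  have hDr : (16 : ℝ) ≤ (d : ℝ) ^ p := by exact_mod_cast h16
  set D : ℝ := (d : ℝ) ^ p with hDdef
  have hDpos : 0 < D := by linarith
  have hbase : D * (1 - 1 / (4 * D)) = D - 1 / 4 := by field_simp
  refine ⟨D ^ m₀, fun m => ?_⟩
  rw [hbase]
  show ((A d p i₀ m₀ W m).card : ℝ) ≤ _
  have hone : (1 : ℝ) ≤ D - 1 / 4 := by linarith
  induction m with
  | zero =>
    have : (A d p i₀ m₀ W 0).card ≤ 1 := by
      refine (card_filter_le _ _).trans ?_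
      simp
    have h2 : ((A d p i₀ m₀ W 0).card : ℝ) ≤ 1 := by exact_mod_cast this
    calc ((A d p i₀ m₀ W 0).card : ℝ) ≤ 1 := h2
      _ ≤ D ^ m₀ * (D - 1 / 4) ^ 0 := by
        rw [pow_zero, mul_one]; exact one_le_pow₀ (by linarith)
  | succ m ih =>
    by_cases hm : m₀ ≤ m
    · have hu : ((A d p i₀ m₀ W (m + 1)).card : ℝ) ≤
          (D - 1) * (A d p i₀ m₀ W m).card + (B d p i₀ m₀ W m).card := by
        have := upper (W := W) hD hi hm
        have e : ((d ^ p - 1 : ℕ) : ℝ) = D - 1 := by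
          rw [Nat.cast_sub (by omega)]; push_cast; ring
        rw [← e]
        exact_mod_cast this
      have hB := B_le (m₀ := m₀) hd h16 hi h0 h1 hW m
      calc ((A d p i₀ m₀ W (m + 1)).card : ℝ)
          ≤ (D - 1) * (A d p i₀ m₀ W m).card + 3 / 4 * (A d p i₀ m₀ W m).card := by linarith
        _ = (D - 1 / 4) * (A d p i₀ m₀ W m).card := by ring
        _ ≤ (D - 1 / 4) * (D ^ m₀ * (D - 1 / 4) ^ m) :=
          mul_le_mul_of_nonneg_left ih (by linarith)
        _ = D ^ m₀ * (D - 1 / 4) ^ (m + 1) := by ring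
    · have : (A d p i₀ m₀ W (m + 1)).card ≤ (d ^ p) ^ (m + 1) := by
        refine (card_filter_le _ _).trans ?_
        simp
      have h2 : ((A d p i₀ m₀ W (m + 1)).card : ℝ) ≤ D ^ (m + 1) := by
        rw [hDdef]; exact_mod_cast this
      calc ((A d p i₀ m₀ W (m + 1)).card : ℝ) ≤ D ^ (m + 1) := h2
        _ ≤ D ^ m₀ := pow_le_pow_right₀ (by linarith) (by omega)
        _ = D ^ m₀ * 1 := (mul_one _).symm
        _ ≤ D ^ m₀ * (D - 1 / 4) ^ (m + 1) :=
          mul_le_mul_of_nonneg_left (one_le_pow₀ hone) (by positivity)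

end Pool.Agent.Imp
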