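import Pool.Agent.Lib.MP_1c105c_an.Defs7

/-! MP_1c105c_an: an impression in a simply connected open set without critical values gives small
oscillation (CRI). -/

set_option autoImplicit false

open Filter Topology Set Polynomial

namespace Pool.Agent.Imp

theorem Cri.convex_rect (η α β : ℝ) : Convex ℝ (Rect η α β) := by
  have h1 : Rect η α β = {u : ℂ | 0 < u.re} ∩ ({u : ℂ | u.re < η} ∩
      ({u : ℂ | α < u.im} ∩ {u : ℂ | u.im < β})) := by
    ext u
    rfl
  rw [h1]
  exact (convex_halfSpace_re_gt 0).inter ((convex_halfSpace_re_lt η).inter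
    ((convex_halfSpace_im_gt α).inter (convex_halfSpace_im_lt β)))

/-- CRI: an impression in a simply connected open set without critical values gives small
oscillation. -/
theorem cri (half : HalfStatement) (inf : InfStatement) (rgw : RgwStatement)
    (uco : UcoStatement) (nbr : NbrStatement) : CriStatement := by
  intro f ψ hd hψ θ V hV hSC hsub hcv δ hδ
  obtain ⟨hP, -, -⟩ := half f ψ hd hψ
  obtain ⟨η, α, β, hη, hα, hβ, hcpt, hQV⟩ := nbr f ψ hd hψ θ V hV hsub
  have hinf := inf f ψ hψ
  set P : ℂ → ℂ := fun u => ψ (Complex.exp (2 * Real.pi * u)) with hPdef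
  have hRH : Rect η α β ⊆ HP := fun u hu => hu.1
  have hpre : IsPreconnected (closure (P '' Rect η α β)) :=
    ((Cri.convex_rect η α β).isPreconnected.image P (hP.diff.continuousOn.mono hRH)).closure
  have hdis : Disjoint (closure (P '' Rect η α β)) (interior (filledJulia f)) := by
    rw [Set.disjoint_left]
    intro z hz hzi
    have h1 : closure (P '' Rect η α β) ⊆ closure (filledJulia f)ᶜ := by
      refine closure_mono ?_
      rw [← hP.range]
      exact image_mono hRH
    have h2 := h1 hz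
    rw [closure_compl] at h2
    exact h2 hzi
  obtain ⟨N, hN⟩ := uco f P hd hP hinf V (closure (P '' Rect η α β)) hV hcpt hpre hQV hdis δ hδ
  obtain ⟨j, h, hh1, hh2, hh3⟩ := rgw f P hd hP V hV hSC hcv η α β hη (hα.trans hβ)
    (fun u hu => hQV (subset_closure ⟨u, hu, rfl⟩)) N
  have hd0 : (0 : ℝ) < (f.natDegree : ℝ) ^ N := by
    have : (0 : ℝ) < (f.natDegree : ℝ) := by
      have : 0 < f.natDegree := by omega
      exact_mod_cast this
    positivity
  have hdc : ((f.natDegree : ℂ) ^ N) ≠ 0 := by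
    have h1 : (((f.natDegree : ℝ) ^ N : ℝ) : ℂ) ≠ 0 := Complex.ofReal_ne_zero.2 hd0.ne'
    push_cast at h1
    exact h1
  let g : ℂ → ℂ := fun u => (f.natDegree : ℂ) ^ N * u - j * Complex.I
  have hg : Continuous g := by fun_prop
  have hS : IsOpen {w : ℂ | w.re < η ∧ α < w.im ∧ w.im < β} :=
    (isOpen_lt Complex.continuous_re continuous_const).inter
      ((isOpen_lt continuous_const Complex.continuous_im).inter
        (isOpen_lt Complex.continuous_im continuous_const))
  have hre : ∀ u : ℂ, (g u).re = (f.natDegree : ℝ) ^ N * u.re := by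
    intro u
    have h1 : (f.natDegree : ℂ) ^ N = (((f.natDegree : ℝ) ^ N : ℝ) : ℂ) := by push_cast; rfl
    show ((f.natDegree : ℂ) ^ N * u - j * Complex.I).re = _
    rw [h1, Complex.sub_re, Complex.re_ofReal_mul]
    simp
  have hinv : ∀ u : ℂ, (g u + j * Complex.I) / (f.natDegree : ℂ) ^ N = u := by
    intro u
    show ((f.natDegree : ℂ) ^ N * u - j * Complex.I + j * Complex.I) / (f.natDegree : ℂ) ^ N = u
    rw [sub_add_cancel, mul_div_cancel_left₀ _ hdc]
  refine ⟨(θ + j) / (f.natDegree : ℝ) ^ N, g ⁻¹' {w : ℂ | w.re < η ∧ α < w.im ∧ w.im < β},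
    (hS.preimage hg).mem_nhds ?_, ?_⟩
  · have h1 : g (((θ + j) / (f.natDegree : ℝ) ^ N : ℝ) * Complex.I) = θ * Complex.I := by
      show (f.natDegree : ℂ) ^ N * ((((θ + j) / (f.natDegree : ℝ) ^ N : ℝ) : ℂ) * Complex.I) -
        j * Complex.I = θ * Complex.I
      push_cast
      field_simp
      ring
    show g _ ∈ {w : ℂ | w.re < η ∧ α < w.im ∧ w.im < β}
    rw [h1]
    exact ⟨by simpa using hη, by simpa using hα, by simpa using hβ⟩
  · rintro u ⟨hu, hu0⟩ v ⟨hv, hv0⟩
    have hmem : ∀ w : ℂ, w ∈ g ⁻¹' {w : ℂ | w.re < η ∧ α < w.im ∧ w.im < β} → w ∈ HP →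
        g w ∈ Rect η α β := by
      intro w hw hw0
      refine ⟨?_, hw.1, hw.2.1, hw.2.2⟩
      rw [hre]
      exact mul_pos hd0 hw0
    have h1 := hN N le_rfl h hh1 hh2 (P (g u)) (subset_closure ⟨g u, hmem u hu hu0, rfl⟩)
      (P (g v)) (subset_closure ⟨g v, hmem v hv hv0, rfl⟩)
    rw [hh3 _ (hmem u hu hu0), hh3 _ (hmem v hv hv0), hinv, hinv] at h1
    exact h1

end Pool.Agent.Imp
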