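import Pool.Agent.Lib.MP_1c105c_an.Defs3
import Pool.Agent.Lib.MP_1c105c_an.Area

/-! MP_1c105c_an, row CRO: short crosscuts (length and area). -/

set_option autoImplicit false

open MeasureTheory Set Metric Filter Topology Polynomial
open scoped ENNReal

namespace Pool.Agent.Imp

namespace CroA

/-- The strip of width `s`. -/
def St (s : ℝ) : Set ℂ := {v | 0 < v.re ∧ v.re < s}

/-- A box of height `1`. -/
def Bo (s y : ℝ) : Set ℂ := {v | (0 < v.re ∧ v.re < s) ∧ y < v.im ∧ v.im < y + 1}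

/-- The box around `u`. -/
def Qb (x y : ℝ) : Set ℂ := {v | (0 < v.re ∧ v.re < 2 * x) ∧ y - x < v.im ∧ v.im < y + x}

theorem isOpen_Bo (s y : ℝ) : IsOpen (Bo s y) :=
  ((isOpen_lt continuous_const Complex.continuous_re).inter
    (isOpen_lt Complex.continuous_re continuous_const)).inter
    ((isOpen_lt continuous_const Complex.continuous_im).inter
      (isOpen_lt Complex.continuous_im continuous_const))

theorem isOpen_Qb (x y : ℝ) : IsOpen (Qb x y) :=
  ((isOpen_lt continuous_const Complex.continuous_re).inter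
    (isOpen_lt Complex.continuous_re continuous_const)).inter
    ((isOpen_lt continuous_const Complex.continuous_im).inter
      (isOpen_lt Complex.continuous_im continuous_const))

theorem isOpen_HP : IsOpen HP := isOpen_lt continuous_const Complex.continuous_re

variable {f : ℂ[X]} {P : ℂ → ℂ}

theorem per_int (hP : Half f P) (n : ℤ) (u : ℂ) : P (u + n * Complex.I) = P u := by
  have h : Function.Periodic P Complex.I := hP.per
  exact (h.int_mul n) u

/-- `P` is injective on sets of height less than one. -/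
theorem inj_of (hP : Half f P) {U : Set ℂ} (hU : U ⊆ HP)
    (h : ∀ u ∈ U, ∀ v ∈ U, u.im - v.im < 1) : InjOn P U := by
  intro u hu v hv huv
  obtain ⟨j, hj⟩ := hP.inj u (hU hu) v (hU hv) huv
  have him : u.im = v.im + j := by
    rw [hj]
    simp
  have h1 := h u hu v hv
  have h2 := h v hv u hu
  have h3 : ((j : ℤ) : ℝ) < 1 := by linarith
  have h4 : (-1 : ℝ) < ((j : ℤ) : ℝ) := by linarith
  have h5 : j < 1 := by exact_mod_cast h3
  have h6 : -1 < j := by exact_mod_cast h4
  have h7 : j = 0 := by omega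
  rw [hj, h7]
  simp

theorem image_St (hP : Half f P) (s : ℝ) : P '' St s = P '' Bo s 0 ∪ P '' Bo s (1 / 2) := by
  apply Subset.antisymm
  · rintro _ ⟨v, hv, rfl⟩
    set n : ℤ := ⌊v.im - 1 / 4⌋ with hn
    have h1 : (n : ℝ) ≤ v.im - 1 / 4 := Int.floor_le _
    have h2 : v.im - 1 / 4 < n + 1 := Int.lt_floor_add_one _
    have h3 : P (v + ((-n : ℤ) : ℂ) * Complex.I) = P v := per_int hP (-n) v
    have hre : (v + ((-n : ℤ) : ℂ) * Complex.I).re = v.re := by simp
    have him : (v + ((-n : ℤ) : ℂ) * Complex.I).im = v.im - n := by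
      simp
      ring
    by_cases h4 : v.im - n < 1
    · left
      refine ⟨v + ((-n : ℤ) : ℂ) * Complex.I, ⟨?_, ?_, ?_⟩, h3⟩
      · rw [hre]; exact hv
      · rw [him]; linarith
      · rw [him]; linarith
    · right
      push Not at h4
      refine ⟨v + ((-n : ℤ) : ℂ) * Complex.I, ⟨?_, ?_, ?_⟩, h3⟩
      · rw [hre]; exact hv
      · rw [him]; linarith
      · rw [him]; linarith
  · rintro z (⟨v, hv, rfl⟩ | ⟨v, hv, rfl⟩)
    · exact ⟨v, hv.1, rfl⟩
    · exact ⟨v, hv.1, rfl⟩

theorem meas_Bo (hP : Half f P) (s y : ℝ) : MeasurableSet (P '' Bo s y) :=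
  AreaAux.meas_image (isOpen_Bo s y) (hP.diff.mono fun v hv => hv.1.1)
    (inj_of hP (fun v hv => hv.1.1) fun u hu v hv => by
      have := hu.2.2
      have := hv.2.1
      linarith)

theorem meas_St (hP : Half f P) (s : ℝ) : MeasurableSet (P '' St s) := by
  rw [image_St hP]
  exact (meas_Bo hP _ _).union (meas_Bo hP _ _)

/-- The area of the image of a strip tends to zero. -/
theorem exists_small (hP : Half f P) {ε : ℝ≥0∞} (hε : 0 < ε) :
    ∃ s : ℝ, 0 < s ∧ s ≤ 1 ∧ volume (P '' St s) < ε := by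
  set E : ℕ → Set ℂ := fun n => P '' St (1 / ((n : ℝ) + 1)) with hE
  have hanti : Antitone E := by
    intro m n hmn
    refine image_mono fun v hv => ⟨hv.1, hv.2.trans_le ?_⟩
    have : (m : ℝ) ≤ n := by exact_mod_cast hmn
    gcongr
  obtain ⟨R, hR⟩ := hP.bdd
  have hfin : volume (E 0) ≠ ∞ := by
    refine ne_top_of_le_ne_top (measure_closedBall_lt_top (x := (0 : ℂ)) (r := R)).ne
      (measure_mono ?_)
    rintro _ ⟨v, hv, rfl⟩
    rw [mem_closedBall_zero_iff]
    refine hR v hv.1 ?_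
    have := hv.2
    simp at this
    linarith
  have hempty : ⋂ n, E n = ∅ := by
    rw [eq_empty_iff_forall_notMem]
    intro z hz
    rw [mem_iInter] at hz
    obtain ⟨v, hv, rfl⟩ := hz 0
    obtain ⟨n, hn⟩ := exists_nat_one_div_lt hv.1
    obtain ⟨w, hw, hwv⟩ := hz n
    obtain ⟨j, hj⟩ := hP.inj w hw.1 v hv.1 hwv
    have hre : w.re = v.re := by
      rw [hj]
      simp
    have := hw.2
    linarith
  have hlim := tendsto_measure_iInter_atTop (μ := (volume : Measure ℂ)) (s := E)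
    (fun n => (meas_St hP _).nullMeasurableSet) hanti ⟨0, hfin⟩
  rw [hempty, measure_empty] at hlim
  obtain ⟨n, hn⟩ := (hlim.eventually (gt_mem_nhds hε)).exists
  refine ⟨1 / ((n : ℝ) + 1), by positivity, ?_, hn⟩
  rw [div_le_one (by positivity)]
  have : (0 : ℝ) ≤ n := Nat.cast_nonneg n
  linarith

/-- The energy of a box. -/
theorem energy (hP : Half f P) {x y : ℝ} (hx1 : 2 * x ≤ 1) :
    ∫⁻ z in Qb x y, ENNReal.ofReal (‖deriv P z‖ ^ 2) ≤ volume (P '' St (2 * x)) := by
  rw [AreaAux.area_eq (isOpen_Qb x y) (hP.diff.mono fun v hv => hv.1.1)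
    (inj_of hP (fun v hv => hv.1.1) fun u hu v hv => by
      have := hu.2.2
      have := hv.2.1
      linarith)]
  exact measure_mono (image_mono fun v hv => hv.1)

theorem Qb_sub (x y : ℝ) : Qb x y ⊆ HP := fun _ hv => hv.1.1

/-- A good horizontal ray. -/
theorem exists_ray (hP : Half f P) {x y α a b : ℝ} (hx : 0 < x) (_hα : 0 ≤ α) (hab : b - a = x / 2)
    (ha : y - x ≤ a) (hb : b ≤ y + x)
    (hen : ∫⁻ z in Qb x y, ENNReal.ofReal (‖deriv P z‖ ^ 2) ≤ ENNReal.ofReal α) :
    ∃ t ∈ Ioo a b, ∫⁻ s in Ioo 0 (2 * x), ENNReal.ofReal (‖deriv P (s + t * Complex.I)‖ ^ 2) ≤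
      ENNReal.ofReal (2 * α / x) := by
  have hdd : DifferentiableOn ℂ (deriv P) HP := hP.diff.deriv isOpen_HP
  have hcont : ContinuousOn (fun p : ℝ × ℝ =>
      ENNReal.ofReal (‖deriv P (p.1 + p.2 * Complex.I)‖ ^ 2)) (Ioi (0 : ℝ) ×ˢ univ) := by
    refine ENNReal.continuous_ofReal.comp_continuousOn (ContinuousOn.pow (ContinuousOn.norm ?_) 2)
    refine hdd.continuousOn.comp (by fun_prop) fun p hp => ?_
    show 0 < ((p.1 : ℂ) + p.2 * Complex.I).re
    simpa using hp.1
  -- transfer to the plane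
  have hmp := Complex.volume_preserving_equiv_real_prod.symm
  have hpre : (Complex.measurableEquivRealProd.symm ⁻¹' (Qb x y)) =
      Ioo 0 (2 * x) ×ˢ Ioo (y - x) (y + x) := by
    ext p
    constructor
    · rintro ⟨⟨h1, h2⟩, h3, h4⟩
      simp only [Complex.measurableEquivRealProd_symm_apply] at h1 h2 h3 h4
      exact ⟨⟨h1, h2⟩, h3, h4⟩
    · rintro ⟨⟨h1, h2⟩, h3, h4⟩
      refine ⟨⟨?_, ?_⟩, ?_, ?_⟩ <;>
        simp only [Complex.measurableEquivRealProd_symm_apply] <;> assumption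
  have h1 : ∫⁻ z in Qb x y, ENNReal.ofReal (‖deriv P z‖ ^ 2) =
      ∫⁻ p in Ioo 0 (2 * x) ×ˢ Ioo (y - x) (y + x),
        ENNReal.ofReal (‖deriv P (p.1 + p.2 * Complex.I)‖ ^ 2) := by
    rw [← hpre, ← hmp.setLIntegral_comp_preimage_emb
      Complex.measurableEquivRealProd.symm.measurableEmbedding]
    refine lintegral_congr fun p => ?_
    rw [Complex.measurableEquivRealProd_symm_apply, ← Complex.mk_eq_add_mul_I]
  have h2 : ∫⁻ t in Ioo a b, ∫⁻ s in Ioo 0 (2 * x),
      ENNReal.ofReal (‖deriv P (s + t * Complex.I)‖ ^ 2) ≤ ENNReal.ofReal α := by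
    refine le_trans ?_ hen
    rw [h1]
    refine le_trans ?_ (lintegral_mono_set (prod_mono le_rfl (Ioo_subset_Ioo ha hb)))
    rw [Measure.volume_eq_prod, ← Measure.prod_restrict, lintegral_prod_symm _ (by
      rw [Measure.prod_restrict]
      exact (hcont.mono fun p hp => ⟨hp.1.1, mem_univ _⟩).aemeasurable
        (measurableSet_Ioo.prod measurableSet_Ioo))]
  have hab' : 0 < b - a := by rw [hab]; linarith
  have hvol : volume (Ioo a b) = ENNReal.ofReal (x / 2) := by rw [Real.volume_Ioo, hab]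
  have hmeas : AEMeasurable (fun t : ℝ => ∫⁻ s in Ioo 0 (2 * x),
      ENNReal.ofReal (‖deriv P (s + t * Complex.I)‖ ^ 2)) (volume.restrict (Ioo a b)) := by
    have h3 : AEMeasurable (fun p : ℝ × ℝ =>
        ENNReal.ofReal (‖deriv P (p.2 + p.1 * Complex.I)‖ ^ 2))
        ((volume.restrict (Ioo a b)).prod (volume.restrict (Ioo 0 (2 * x)))) := by
      rw [Measure.prod_restrict]
      have hc2 : ContinuousOn (fun p : ℝ × ℝ =>
          ENNReal.ofReal (‖deriv P (p.2 + p.1 * Complex.I)‖ ^ 2))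
          (Ioo a b ×ˢ Ioo 0 (2 * x)) := by
        have := hcont.comp (continuous_swap.continuousOn (s := Ioo a b ×ˢ Ioo 0 (2 * x)))
          fun p hp => (⟨hp.2.1, mem_univ _⟩ : p.swap ∈ Ioi (0 : ℝ) ×ˢ (univ : Set ℝ))
        exact this
      exact hc2.aemeasurable (measurableSet_Ioo.prod measurableSet_Ioo)
    exact h3.lintegral_prod_right'
  obtain ⟨t, ht, hle⟩ := exists_le_setLAverage (μ := volume) (s := Ioo a b)
    (by rw [hvol]; simpa using hx) (by rw [hvol]; exact ENNReal.ofReal_ne_top) hmeas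
  refine ⟨t, ht, hle.trans ?_⟩
  rw [setLAverage_eq, hvol]
  calc (∫⁻ t in Ioo a b, ∫⁻ s in Ioo 0 (2 * x),
        ENNReal.ofReal (‖deriv P (s + t * Complex.I)‖ ^ 2)) / ENNReal.ofReal (x / 2)
      ≤ ENNReal.ofReal α / ENNReal.ofReal (x / 2) := ENNReal.div_le_div_right h2 _
    _ = ENNReal.ofReal (α / (x / 2)) := (ENNReal.ofReal_div_of_pos (by linarith)).symm
    _ = ENNReal.ofReal (2 * α / x) := by
      congr 1
      field_simp

/-- The oscillation on a good ray. -/
theorem ray_bound (hP : Half f P) {x t C l : ℝ} (hx : 0 < x) (hC : 0 ≤ C) (hl : 0 < l)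
    (h : ∫⁻ s in Ioo 0 (2 * x), ENNReal.ofReal (‖deriv P (s + t * Complex.I)‖ ^ 2) ≤
      ENNReal.ofReal C) {s₁ s₂ : ℝ} (h1 : 0 < s₁) (h12 : s₁ ≤ s₂) (h2 : s₂ ≤ x) :
    ‖P (s₂ + t * Complex.I) - P (s₁ + t * Complex.I)‖ ≤ l / 2 * (s₂ - s₁) + C / (2 * l) := by
  have hdd : DifferentiableOn ℂ (deriv P) HP := hP.diff.deriv isOpen_HP
  have hmem : ∀ s : ℝ, 0 < s → ((s : ℂ) + t * Complex.I) ∈ HP := by
    intro s hs
    show 0 < ((s : ℂ) + t * Complex.I).re
    simpa using hs
  have hder : ∀ s ∈ uIcc s₁ s₂, HasDerivAt (fun s : ℝ => P (s + t * Complex.I))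
      (deriv P (s + t * Complex.I)) s := by
    intro s hs
    rw [uIcc_of_le h12] at hs
    have h3 : HasDerivAt P (deriv P (s + t * Complex.I)) ((s : ℂ) + t * Complex.I) :=
      (hP.diff.differentiableAt (isOpen_HP.mem_nhds (hmem s (by linarith [hs.1])))).hasDerivAt
    have h4 : HasDerivAt (fun z : ℂ => P (z + t * Complex.I)) (deriv P (s + t * Complex.I))
        (s : ℂ) := by
      have h5 : HasDerivAt (fun z : ℂ => z + t * Complex.I) 1 (s : ℂ) :=
        (hasDerivAt_id _).add_const _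
      have h6 := HasDerivAt.comp (s : ℂ) h3 h5
      rw [mul_one] at h6
      exact h6
    exact h4.comp_ofReal
  have hcont : ContinuousOn (fun s : ℝ => deriv P (s + t * Complex.I)) (Icc s₁ s₂) := by
    refine hdd.continuousOn.comp (by fun_prop) fun s hs => hmem s (by linarith [hs.1])
  have hint : IntervalIntegrable (fun s : ℝ => deriv P (s + t * Complex.I)) volume s₁ s₂ :=
    ContinuousOn.intervalIntegrable (by rwa [uIcc_of_le h12])
  have hint2 : IntervalIntegrable (fun s : ℝ => ‖deriv P (s + t * Complex.I)‖ ^ 2) volume s₁ s₂ :=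
    ContinuousOn.intervalIntegrable (by rw [uIcc_of_le h12]; exact hcont.norm.pow 2)
  rw [← intervalIntegral.integral_eq_sub_of_hasDerivAt hder hint]
  have hsq : ∫ s in s₁..s₂, ‖deriv P (s + t * Complex.I)‖ ^ 2 ≤ C := by
    rw [intervalIntegral.integral_of_le h12]
    rw [← ENNReal.ofReal_le_ofReal_iff hC, ofReal_integral_eq_lintegral_ofReal
      ((intervalIntegrable_iff_integrableOn_Ioc_of_le h12).1 hint2)
      (Eventually.of_forall fun s => by positivity)]
    refine le_trans (lintegral_mono_set ?_) h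
    intro s hs
    exact ⟨h1.trans hs.1, by linarith [hs.2]⟩
  calc ‖∫ s in s₁..s₂, deriv P (s + t * Complex.I)‖
      ≤ ∫ s in s₁..s₂, ‖deriv P (s + t * Complex.I)‖ :=
        intervalIntegral.norm_integral_le_integral_norm h12
    _ ≤ ∫ s in s₁..s₂, (l / 2 + 1 / (2 * l) * ‖deriv P (s + t * Complex.I)‖ ^ 2) := by
        refine intervalIntegral.integral_mono_on h12 hint.norm
          (intervalIntegrable_const.add (hint2.const_mul _)) fun s _ => ?_
        set A := ‖deriv P (s + t * Complex.I)‖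
        have h3 : l / 2 + 1 / (2 * l) * A ^ 2 - A = (l - A) ^ 2 / (2 * l) := by
          field_simp
          ring
        have h4 : 0 ≤ (l - A) ^ 2 / (2 * l) := by positivity
        linarith
    _ = l / 2 * (s₂ - s₁) + 1 / (2 * l) * ∫ s in s₁..s₂, ‖deriv P (s + t * Complex.I)‖ ^ 2 := by
        rw [intervalIntegral.integral_add intervalIntegrable_const (hint2.const_mul _),
          intervalIntegral.integral_const, intervalIntegral.integral_const_mul, smul_eq_mul]
        ring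
    _ ≤ l / 2 * (s₂ - s₁) + C / (2 * l) := by
        have h3 : 1 / (2 * l) * ∫ s in s₁..s₂, ‖deriv P (s + t * Complex.I)‖ ^ 2 ≤
            1 / (2 * l) * C := mul_le_mul_of_nonneg_left hsq (by positivity)
        have h4 : 1 / (2 * l) * C = C / (2 * l) := by ring
        linarith

/-- The limit along a good ray. -/
theorem ray_lim (hP : Half f P) {x t C : ℝ} (hx : 0 < x) (hC : 0 ≤ C)
    (h : ∫⁻ s in Ioo 0 (2 * x), ENNReal.ofReal (‖deriv P (s + t * Complex.I)‖ ^ 2) ≤
      ENNReal.ofReal C) :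
    ∃ a : ℂ, Tendsto (fun s : ℝ => P (s + t * Complex.I)) (𝓝[>] 0) (𝓝 a) := by
  have hca : Cauchy (map (fun s : ℝ => P (s + t * Complex.I)) (𝓝[>] 0)) := by
    rw [Metric.cauchy_iff]
    refine ⟨inferInstance, fun ε hε => ?_⟩
    set l : ℝ := (C + 1) / ε with hl
    have hl0 : 0 < l := by positivity
    set δ : ℝ := min x (ε / l / 2) with hδ
    have hδ0 : 0 < δ := lt_min hx (by positivity)
    have hCl : C / (2 * l) < ε / 2 := by
      rw [hl, div_lt_iff₀ (by positivity)]
      field_simp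
      linarith
    have key : ∀ s₁ s₂ : ℝ, s₁ ∈ Ioo 0 δ → s₂ ∈ Ioo 0 δ → s₁ ≤ s₂ →
        ‖P (s₂ + t * Complex.I) - P (s₁ + t * Complex.I)‖ < ε := by
      intro s₁ s₂ hs₁ hs₂ h12
      have h1 := ray_bound hP hx hC hl0 h hs₁.1 h12 (hs₂.2.le.trans (min_le_left _ _))
      have h2 : s₂ - s₁ ≤ ε / l / 2 := by
        have := hs₂.2.le.trans (min_le_right x (ε / l / 2))
        linarith [hs₁.1]
      have h3 : l / 2 * (s₂ - s₁) ≤ l / 2 * (ε / l / 2) :=
        mul_le_mul_of_nonneg_left h2 (by positivity)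
      have h4 : l / 2 * (ε / l / 2) = ε / 4 := by
        field_simp
        ring
      linarith
    refine ⟨(fun s : ℝ => P (s + t * Complex.I)) '' Ioo 0 δ, ?_, ?_⟩
    · exact image_mem_map (Ioo_mem_nhdsGT hδ0)
    · rintro _ ⟨s₁, hs₁, rfl⟩ _ ⟨s₂, hs₂, rfl⟩
      rcases le_total s₁ s₂ with h12 | h12
      · rw [dist_comm, dist_eq_norm]
        exact key s₁ s₂ hs₁ hs₂ h12
      · rw [dist_eq_norm]
        exact key s₂ s₁ hs₂ hs₁ h12
  obtain ⟨a, ha⟩ := CompleteSpace.complete hca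
  exact ⟨a, ha⟩

end CroA

open CroA in
/-- Row CRO. -/
theorem cro : CroStatement := by
  intro f P _ hP κ hκ
  set η : ℝ := κ / 2 with hη
  have hη0 : 0 < η := by positivity
  obtain ⟨s, hs0, hs1, hsm⟩ := exists_small hP (ε := ENNReal.ofReal (η ^ 2 / 2))
    (by rw [ENNReal.ofReal_pos]; positivity)
  refine ⟨s / 2, by linarith, fun u hu0 hu1 => ?_⟩
  set x : ℝ := u.re with hx
  set y : ℝ := u.im with hy
  set α : ℝ := η ^ 2 / 2 with hα
  have hα0 : 0 ≤ α := by positivity
  have hen : ∫⁻ z in Qb x y, ENNReal.ofReal (‖deriv P z‖ ^ 2) ≤ ENNReal.ofReal α := by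
    refine (energy hP (by linarith)).trans (le_trans (measure_mono (image_mono ?_)) hsm.le)
    intro v hv
    exact ⟨hv.1, by linarith [hv.2]⟩
  -- the middle ball
  have hball : ∀ v ∈ ball u (x / 2), ‖P v - P u‖ ≤ η / 2 := by
    have hsub : ball u x ⊆ Qb x y := by
      intro v hv
      rw [mem_ball, dist_eq_norm] at hv
      have h1 := (Complex.abs_re_le_norm (v - u)).trans_lt hv
      have h2 := (Complex.abs_im_le_norm (v - u)).trans_lt hv
      rw [Complex.sub_re, abs_lt] at h1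
      rw [Complex.sub_im, abs_lt] at h2
      exact ⟨⟨by linarith, by linarith⟩, by linarith, by linarith⟩
    have hdd : DifferentiableOn ℂ (deriv P) HP := hP.diff.deriv isOpen_HP
    have hder : ∀ v ∈ ball u (x / 2), ‖deriv P v‖ ≤ η / x := by
      intro v hv
      have hsub2 : ball v (x / 2) ⊆ Qb x y := by
        refine Subset.trans ?_ hsub
        intro w hw
        rw [mem_ball] at hw hv ⊢
        linarith [dist_triangle w v u]
      have h1 := (AreaAux.ball_ge' (h := deriv P) (c := v) (ρ := x / 2) (by linarith)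
        (hdd.mono (hsub2.trans (Qb_sub x y)))).trans ((lintegral_mono_set hsub2).trans hen)
      rw [ENNReal.ofReal_le_ofReal_iff hα0] at h1
      have hpi := Real.pi_gt_three
      have h2 : (‖deriv P v‖ * x) ^ 2 ≤ η ^ 2 := by
        have h3 : Real.pi * (x / 2) ^ 2 * ‖deriv P v‖ ^ 2 =
            Real.pi / 4 * (‖deriv P v‖ * x) ^ 2 := by ring
        rw [h3] at h1
        have h4 : 0 ≤ (‖deriv P v‖ * x) ^ 2 := by positivity
        nlinarith
      have h5 := pow_le_pow_left₀ (n := 2) (a := 0) le_rfl hη0.le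
      have h6 : ‖deriv P v‖ * x ≤ η := le_of_pow_le_pow_left₀ two_ne_zero hη0.le h2
      rw [le_div_iff₀ hu0]
      exact h6
    intro v hv
    have h1 : ‖P v - P u‖ ≤ η / x * ‖v - u‖ :=
      (convex_ball u (x / 2)).norm_image_sub_le_of_norm_deriv_le
        (fun w hw => hP.diff.differentiableAt (isOpen_HP.mem_nhds
          (Qb_sub x y (hsub (ball_subset_ball (by linarith) hw))))) hder
        (mem_ball_self (by linarith)) hv
    have h2 : ‖v - u‖ ≤ x / 2 := by
      rw [mem_ball, dist_eq_norm] at hv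
      exact hv.le
    calc ‖P v - P u‖ ≤ η / x * ‖v - u‖ := h1
      _ ≤ η / x * (x / 2) := mul_le_mul_of_nonneg_left h2 (by positivity)
      _ = η / 2 := by field_simp
  have hmemb : ∀ τ : ℝ, |τ - y| < x / 2 → ((x : ℂ) + τ * Complex.I) ∈ ball u (x / 2) := by
    intro τ hτ
    rw [mem_ball, dist_eq_norm]
    have h1 : ((x : ℂ) + τ * Complex.I) - u = ((τ - y : ℝ) : ℂ) * Complex.I := by
      apply Complex.ext
      · simp [hx]
      · simp [hy]
    rw [h1, norm_mul, Complex.norm_I, mul_one, Complex.norm_real, Real.norm_eq_abs]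
    exact hτ
  -- the two rays
  have hray : ∀ t : ℝ, |t - y| < x / 2 →
      ∫⁻ s in Ioo 0 (2 * x), ENNReal.ofReal (‖deriv P (s + t * Complex.I)‖ ^ 2) ≤
        ENNReal.ofReal (2 * α / x) → ∀ s : ℝ, 0 < s → s ≤ x →
        ‖P (s + t * Complex.I) - P u‖ ≤ κ := by
    intro t ht hint s hs hsx
    have h1 := ray_bound hP hu0 (by positivity) (l := η / x) (by positivity) hint hs hsx le_rfl
    have h2 := hball _ (hmemb t ht)
    have h3 : η / x / 2 * (x - s) ≤ η / 2 := by
      calc η / x / 2 * (x - s) ≤ η / x / 2 * x :=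
            mul_le_mul_of_nonneg_left (by linarith) (by positivity)
        _ = η / 2 := by field_simp
    have h4 : 2 * α / x / (2 * (η / x)) = η / 2 := by
      rw [hα]
      field_simp
    rw [h4] at h1
    have h5 : ‖P (s + t * Complex.I) - P u‖ ≤
        ‖P (x + t * Complex.I) - P (s + t * Complex.I)‖ + ‖P (x + t * Complex.I) - P u‖ := by
      rw [norm_sub_rev (P (x + t * Complex.I)) (P (s + t * Complex.I))]
      exact norm_sub_le_norm_sub_add_norm_sub _ _ _
    linarith
  obtain ⟨t₁, ht₁, hi₁⟩ := exists_ray hP (a := y - x / 2) (b := y) hu0 hα0 (by ring)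
    (by linarith) (by linarith) hen
  obtain ⟨t₂, ht₂, hi₂⟩ := exists_ray hP (a := y) (b := y + x / 2) hu0 hα0 (by ring)
    (by linarith) (by linarith) hen
  obtain ⟨a₁, ha₁⟩ := ray_lim hP hu0 (by positivity) hi₁
  obtain ⟨a₂, ha₂⟩ := ray_lim hP hu0 (by positivity) hi₂
  have hab₁ : |t₁ - y| < x / 2 := by
    rw [abs_lt]
    constructor <;> linarith [ht₁.1, ht₁.2]
  have hab₂ : |t₂ - y| < x / 2 := by
    rw [abs_lt]
    constructor <;> linarith [ht₂.1, ht₂.2]
  refine ⟨t₁, t₂, a₁, a₂, ht₁.2, ht₂.1, ha₁, ha₂,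
    fun s hs hsx => ⟨hray t₁ hab₁ hi₁ s hs hsx, hray t₂ hab₂ hi₂ s hs hsx⟩, fun τ hτ => ?_⟩
  have h1 : |τ - y| < x / 2 := by
    rw [abs_lt]
    constructor <;> linarith [ht₁.1, ht₂.2, hτ.1, hτ.2]
  exact (hball _ (hmemb τ h1)).trans (by linarith)

end Pool.Agent.Imp
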