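import Pool.Agent.Lib.MP_1c105c_an.Defs3

/-! MP_1c105c_an: logarithms on the filled Julia set (row LGK). -/

set_option autoImplicit false

open Filter Topology Set Polynomial

namespace Pool.Agent.Imp

namespace Lgk98

/-- `ζ - x` has a continuous logarithm on `K`. -/
def HasLog (K : Set ℂ) (x : ℂ) : Prop :=
  ∃ L : ℂ → ℂ, ContinuousOn L K ∧ ∀ ζ ∈ K, Complex.exp (L ζ) = ζ - x

theorem slit_of_norm_lt {w : ℂ} (hw : ‖w‖ < 1) : 1 + w ∈ Complex.slitPlane := by
  left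
  have h1 := Complex.abs_re_le_norm w
  have h2 := neg_abs_le w.re
  have h3 : (1 + w).re = 1 + w.re := by simp
  rw [h3]
  linarith

theorem step {K : Set ℂ} {x x' : ℂ} (h : ∀ ζ ∈ K, ‖x' - x‖ < ‖ζ - x‖) (hx : HasLog K x) :
    HasLog K x' := by
  obtain ⟨L, hL, hL'⟩ := hx
  have hne : ∀ ζ ∈ K, ζ - x ≠ 0 := fun ζ hζ h0 => by
    have := h ζ hζ
    rw [h0, norm_zero] at this
    exact absurd this (not_lt.2 (norm_nonneg _))
  have hs : ∀ ζ ∈ K, 1 + (x - x') / (ζ - x) ∈ Complex.slitPlane := by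
    intro ζ hζ
    apply slit_of_norm_lt
    rw [norm_div, div_lt_one (norm_pos_iff.2 (hne ζ hζ)), norm_sub_rev]
    exact h ζ hζ
  refine ⟨fun ζ => L ζ + Complex.log (1 + (x - x') / (ζ - x)), ?_, ?_⟩
  · refine hL.add (ContinuousOn.clog ?_ hs)
    refine continuousOn_const.add (continuousOn_const.div ?_ hne)
    exact (continuous_id.sub continuous_const).continuousOn
  · intro ζ hζ
    show Complex.exp (L ζ + Complex.log (1 + (x - x') / (ζ - x))) = ζ - x'
    rw [Complex.exp_add, hL' ζ hζ, Complex.exp_log (Complex.slitPlane_ne_zero (hs ζ hζ))]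
    have := hne ζ hζ
    field_simp
    ring

theorem far {K : Set ℂ} {R : ℝ} (hR : 0 ≤ R) (hK : ∀ ζ ∈ K, ‖ζ‖ ≤ R) :
    HasLog K ((R + 1 : ℝ) : ℂ) := by
  have hx : ((R + 1 : ℝ) : ℂ) ≠ 0 := by
    have : (R + 1 : ℝ) ≠ 0 := by linarith
    exact_mod_cast this
  have hs : ∀ ζ ∈ K, 1 + (-ζ) / ((R + 1 : ℝ) : ℂ) ∈ Complex.slitPlane := by
    intro ζ hζ
    apply slit_of_norm_lt
    rw [norm_div, norm_neg, Complex.norm_real, Real.norm_of_nonneg (by linarith),
      div_lt_one (by linarith)]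
    linarith [hK ζ hζ]
  refine ⟨fun ζ => Complex.log (-((R + 1 : ℝ) : ℂ)) +
    Complex.log (1 + (-ζ) / ((R + 1 : ℝ) : ℂ)), ?_, ?_⟩
  · refine continuousOn_const.add (ContinuousOn.clog ?_ hs)
    exact (continuous_const.add (continuous_neg.div_const _)).continuousOn
  · intro ζ hζ
    show Complex.exp (Complex.log (-((R + 1 : ℝ) : ℂ)) +
      Complex.log (1 + (-ζ) / ((R + 1 : ℝ) : ℂ))) = ζ - ((R + 1 : ℝ) : ℂ)
    rw [Complex.exp_add, Complex.exp_log (neg_ne_zero.2 hx),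
      Complex.exp_log (Complex.slitPlane_ne_zero (hs ζ hζ))]
    field_simp
    ring

theorem isOpen_hasLog {K : Set ℂ} (hK : IsClosed K) :
    IsOpen {x | x ∉ K ∧ HasLog K x} ∧ IsOpen {x | x ∉ K ∧ ¬ HasLog K x} := by
  have key : ∀ x ∉ K, ∃ δ > 0, ∀ x' ∈ Metric.ball x δ, x' ∉ K ∧ (HasLog K x ↔ HasLog K x') := by
    intro x hx
    obtain ⟨ε, hε, hb⟩ := Metric.isOpen_iff.1 hK.isOpen_compl x hx
    have hfar : ∀ ζ ∈ K, ε ≤ ‖ζ - x‖ := by
      intro ζ hζ
      by_contra hcon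
      push Not at hcon
      exact hb (show ζ ∈ Metric.ball x ε by rwa [Metric.mem_ball, dist_eq_norm]) hζ
    refine ⟨ε / 2, by positivity, fun x' hx' => ?_⟩
    rw [Metric.mem_ball, dist_eq_norm] at hx'
    refine ⟨fun h => ?_, fun h => step (fun ζ hζ => ?_) h, fun h => step (fun ζ hζ => ?_) h⟩
    · have := hfar x' h
      linarith
    · have := hfar ζ hζ
      linarith
    · have h1 := hfar ζ hζ
      have h2 : ‖ζ - x‖ ≤ ‖ζ - x'‖ + ‖x' - x‖ := by
        have := norm_add_le (ζ - x') (x' - x)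
        rwa [sub_add_sub_cancel] at this
      rw [norm_sub_rev]
      linarith
  constructor
  · rw [Metric.isOpen_iff]
    rintro x ⟨hx, hl⟩
    obtain ⟨δ, hδ, h⟩ := key x hx
    exact ⟨δ, hδ, fun x' hx' => ⟨(h x' hx').1, (h x' hx').2.1 hl⟩⟩
  · rw [Metric.isOpen_iff]
    rintro x ⟨hx, hl⟩
    obtain ⟨δ, hδ, h⟩ := key x hx
    exact ⟨δ, hδ, fun x' hx' => ⟨(h x' hx').1, fun h' => hl ((h x' hx').2.2 h')⟩⟩

/-- On the complement of a compact set, if it is connected, all logarithms exist. -/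
theorem hasLog_of_preconnected {K : Set ℂ} (hK : IsClosed K) (hb : Bornology.IsBounded K)
    (hc : IsPreconnected Kᶜ) {x : ℂ} (hx : x ∉ K) : HasLog K x := by
  obtain ⟨h1, h2⟩ := isOpen_hasLog hK
  obtain ⟨R, hR⟩ := hb.subset_closedBall (0 : ℂ)
  have hR' : ∀ ζ ∈ K, ‖ζ‖ ≤ max R 0 := fun ζ hζ => by
    have := hR hζ
    rw [mem_closedBall_zero_iff] at this
    exact this.trans (le_max_left R 0)
  have hfar := far (le_max_right R 0) hR'
  have hnot : ((max R 0 + 1 : ℝ) : ℂ) ∉ K := by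
    intro h
    have h3 := hR' _ h
    rw [Complex.norm_real, Real.norm_of_nonneg (by linarith [le_max_right R 0])] at h3
    linarith
  by_contra hcon
  obtain ⟨y, -, ⟨-, hy⟩, -, hy'⟩ := hc _ _ h1 h2 (by
    intro y hy
    by_cases h : HasLog K y
    · exact Or.inl ⟨hy, h⟩
    · exact Or.inr ⟨hy, h⟩) ⟨_, hnot, hnot, hfar⟩ ⟨x, hx, hx, hcon⟩
  exact hy' hy

end Lgk98

open Lgk98

/-- Row LGK. -/
theorem lgk (hJ : JulStatement) : LgkStatement := by
  intro f P hd hP _ x hx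
  obtain ⟨hcl, hb, -⟩ := hJ f P hd hP
  refine hasLog_of_preconnected hcl hb ?_ hx
  rw [← hP.range]
  exact (convex_halfSpace_re_gt 0).isPreconnected.image P hP.diff.continuousOn

end Pool.Agent.Imp
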