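import Pool.Agent.Lib.MP_1c105c_an.Defs8
import Pool.Agent.Lib.MP_1c105c_an.Lgk

/-! MP_1c105c_an: connected sets that cross near infinity intersect (row CRS). -/

set_option autoImplicit false

open Filter Topology Set Polynomial

namespace Pool.Agent.Imp

namespace Crs63

open Lgk98

/-- The logarithm at far points. -/
theorem far' {K : Set ℂ} {R : ℝ} (hR : 0 ≤ R) (hK : ∀ ζ ∈ K, ‖ζ‖ ≤ R) {x : ℂ} (hx : R < ‖x‖) :
    HasLog K x := by
  have hx0 : x ≠ 0 := by
    intro h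
    rw [h, norm_zero] at hx
    linarith
  have hs : ∀ ζ ∈ K, 1 + (-ζ) / x ∈ Complex.slitPlane := by
    intro ζ hζ
    apply slit_of_norm_lt
    rw [norm_div, norm_neg, div_lt_one (by linarith)]
    linarith [hK ζ hζ]
  refine ⟨fun ζ => Complex.log (-x) + Complex.log (1 + (-ζ) / x), ?_, ?_⟩
  · refine continuousOn_const.add (ContinuousOn.clog ?_ hs)
    exact (continuous_const.add (continuous_neg.div_const _)).continuousOn
  · intro ζ hζ
    show Complex.exp (Complex.log (-x) + Complex.log (1 + (-ζ) / x)) = ζ - x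
    rw [Complex.exp_add, Complex.exp_log (neg_ne_zero.2 hx0),
      Complex.exp_log (Complex.slitPlane_ne_zero (hs ζ hζ))]
    field_simp
    ring

/-- In an unbounded connected subset of the complement all logarithms exist. -/
theorem hasLog_of_unbounded {K E : Set ℂ} (hK : IsCompact K) (hE : IsPreconnected E)
    (hu : ∀ R : ℝ, ∃ y ∈ E, R < ‖y‖) (hd : Disjoint E K) {x : ℂ} (hx : x ∈ E) : HasLog K x := by
  obtain ⟨h1, h2⟩ := isOpen_hasLog hK.isClosed
  obtain ⟨R, hR⟩ := hK.isBounded.subset_closedBall (0 : ℂ)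
  have hR' : ∀ ζ ∈ K, ‖ζ‖ ≤ max R 0 := fun ζ hζ => by
    have := hR hζ
    rw [mem_closedBall_zero_iff] at this
    exact this.trans (le_max_left R 0)
  obtain ⟨y₀, hy₀, hn⟩ := hu (max R 0)
  have hK' : ∀ y ∈ E, y ∉ K := fun y hy h => disjoint_left.1 hd hy h
  by_contra hcon
  obtain ⟨y, -, ⟨-, hy⟩, -, hy'⟩ := hE _ _ h1 h2 (by
    intro y hy
    by_cases h : HasLog K y
    · exact Or.inl ⟨hK' y hy, h⟩
    · exact Or.inr ⟨hK' y hy, h⟩)
    ⟨y₀, hy₀, hK' y₀ hy₀, far' (le_max_right R 0) hR' hn⟩ ⟨x, hx, hK' x hx, hcon⟩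
  exact hy' hy

theorem re_line (s t : ℝ) : ((s : ℂ) + t * Complex.I).re = s := by simp

theorem mem_HP {s t : ℝ} (hs : 0 < s) : (s : ℂ) + t * Complex.I ∈ HP := by
  show 0 < ((s : ℂ) + t * Complex.I).re
  rw [re_line]
  exact hs

/-- Points of different rays or heights. -/
theorem eq_of {f : ℂ[X]} {P : ℂ → ℂ} (hP : Half f P) {s s' t t' : ℝ} (hs : 0 < s) (hs' : 0 < s')
    (h : P (s + t * Complex.I) = P (s' + t' * Complex.I)) : s = s' ∧ ∃ j : ℤ, t = t' + j := by
  obtain ⟨j, hj⟩ := hP.inj _ (mem_HP hs) _ (mem_HP hs') h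
  have h1 := congrArg Complex.re hj
  have h2 := congrArg Complex.im hj
  simp at h1 h2
  exact ⟨h1, j, by linarith⟩

theorem cont_ray {f : ℂ[X]} {P : ℂ → ℂ} (hP : Half f P) (t : ℝ) :
    ContinuousOn (fun s : ℝ => P (s + t * Complex.I)) (Ioi 0) := by
  refine hP.diff.continuousOn.comp (Continuous.continuousOn ?_) fun s hs => mem_HP hs
  fun_prop

theorem cont_top {f : ℂ[X]} {P : ℂ → ℂ} (hP : Half f P) {S : ℝ} (hS : 0 < S) :
    Continuous (fun t : ℝ => P (S + t * Complex.I)) := by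
  rw [← continuousOn_univ]
  refine hP.diff.continuousOn.comp (Continuous.continuousOn ?_) fun s _ => mem_HP hS
  fun_prop

end Crs63

open Lgk98 Crs63

/-- Row CRS. -/
theorem crs (jmp : JmpStatement) : CrsStatement := by
  intro f P hd hP hinf O E σ a x b y hO hOc hE hOE hσ hax hxb hby hya hin hout hEx hEy hlow
  have hunb : ∀ (t s₀ R : ℝ), ∃ s : ℝ, s₀ < s ∧ R < ‖P (s + t * Complex.I)‖ := by
    intro t s₀ R
    obtain ⟨M, hM⟩ := hinf (R + 1)
    refine ⟨max M (s₀ + 1), lt_of_lt_of_le (by linarith) (le_max_right _ _), ?_⟩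
    have := hM ((max M (s₀ + 1) : ℝ) + t * Complex.I) (by rw [re_line]; exact le_max_left _ _)
    linarith
  -- the path in `O`
  have hpc : IsPathConnected O :=
    (hO.isConnected_iff_isPathConnected).1 ⟨⟨_, (hin σ le_rfl).1⟩, hOc⟩
  obtain ⟨γ, hγ⟩ := hpc.joinedIn _ (hin σ le_rfl).1 _ (hin σ le_rfl).2
  set S : ℝ := σ + 1 with hS
  have hS0 : 0 < S := by linarith
  have hσS : σ < S := by linarith
  set kA : Set ℂ := (fun s : ℝ => P (s + a * Complex.I)) '' Icc σ S with hkA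
  set kB : Set ℂ := (fun s : ℝ => P (s + b * Complex.I)) '' Icc σ S with hkB
  set k : Set ℂ := kA ∪ (range γ ∪ kB) with hk
  set T : Set ℂ := (fun τ : ℝ => P (S + τ * Complex.I)) '' Icc a b with hT
  have hsub : ∀ s ∈ Icc σ S, (0 : ℝ) < s := fun s hs => lt_of_lt_of_le hσ hs.1
  have hcA : ContinuousOn (fun s : ℝ => P (s + a * Complex.I)) (Icc σ S) :=
    (cont_ray hP a).mono fun s hs => hsub s hs
  have hcB : ContinuousOn (fun s : ℝ => P (s + b * Complex.I)) (Icc σ S) :=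
    (cont_ray hP b).mono fun s hs => hsub s hs
  have hkO : k ⊆ O := by
    rintro z (⟨s, hs, rfl⟩ | ⟨t, rfl⟩ | ⟨s, hs, rfl⟩)
    · exact (hin s hs.1).1
    · exact hγ t
    · exact (hin s hs.1).2
  have hkc : IsCompact k := (isCompact_Icc.image_of_continuousOn hcA).union
    ((isCompact_range γ.continuous).union (isCompact_Icc.image_of_continuousOn hcB))
  have hkp : IsPreconnected k := by
    have h1 : IsPreconnected (range γ ∪ kB) := by
      refine IsPreconnected.union (P (σ + b * Complex.I)) ⟨1, γ.target⟩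
        ⟨σ, ⟨le_rfl, hσS.le⟩, rfl⟩ (isPreconnected_range γ.continuous)
        (isPreconnected_Icc.image _ hcB)
    refine IsPreconnected.union (P (σ + a * Complex.I)) ⟨σ, ⟨le_rfl, hσS.le⟩, rfl⟩
      (Or.inl ⟨0, γ.source⟩) (isPreconnected_Icc.image _ hcA) h1
  have hTc : IsCompact T := isCompact_Icc.image (cont_top hP hS0)
  have hKc : IsCompact (k ∪ T) := hkc.union hTc
  have hxt : ∀ s : ℝ, 0 < s → s ≠ S → P (s + x * Complex.I) ∉ T := by
    rintro s hs hne ⟨τ, -, hτ⟩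
    exact hne (eq_of hP hS0 hs hτ).1.symm
  have hyt : ∀ s : ℝ, 0 < s → P (s + y * Complex.I) ∉ T := by
    rintro s hs ⟨τ, hτ', hτ⟩
    obtain ⟨-, j, hj⟩ := eq_of hP hS0 hs hτ
    have h1 : (j : ℝ) < 0 := by linarith [hτ'.2]
    have h2 : (-1 : ℝ) < j := by linarith [hτ'.1]
    have h3 : j < 0 := by exact_mod_cast h1
    have h4 : (-1 : ℤ) < j := by exact_mod_cast h2
    omega
  refine jmp f P hd hP k S 1 a x b one_pos (by linarith) hax hxb (by linarith) hkc hkp
    (Or.inl ⟨S, ⟨hσS.le, le_rfl⟩, rfl⟩) (Or.inr (Or.inr ⟨S, ⟨hσS.le, le_rfl⟩, rfl⟩))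
    (fun h => (hout S hσS.le).1 (hkO h)) ?_ ?_
  · intro ε hε hε1
    set X : Set ℂ := (fun s : ℝ => P (s + x * Complex.I)) '' Ico σ S with hX
    set Y : Set ℂ := (fun s : ℝ => P (s + y * Complex.I)) '' Ici σ with hY
    have hXp : IsPreconnected X := isPreconnected_Ico.image _
      ((cont_ray hP x).mono fun s hs => lt_of_lt_of_le hσ hs.1)
    have hYp : IsPreconnected Y := isPreconnected_Ici.image _
      ((cont_ray hP y).mono fun s hs => lt_of_lt_of_le hσ hs)
    have h1 : IsPreconnected (E ∪ Y) := IsPreconnected.union (P (σ + y * Complex.I)) hEy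
      ⟨σ, mem_Ici.2 le_rfl, rfl⟩ hE hYp
    have h2 : IsPreconnected (X ∪ (E ∪ Y)) := IsPreconnected.union (P (σ + x * Complex.I))
      ⟨σ, ⟨le_rfl, hσS⟩, rfl⟩ (Or.inl hEx) hXp h1
    have hdis : Disjoint (X ∪ (E ∪ Y)) (k ∪ T) := by
      rw [disjoint_left]
      rintro z (⟨s, hs, rfl⟩ | hz | ⟨s, hs, rfl⟩) (hz' | hz')
      · exact (hout s hs.1).1 (hkO hz')
      · exact hxt s (lt_of_lt_of_le hσ hs.1) (ne_of_lt hs.2) hz'
      · exact disjoint_left.1 hOE (hkO hz') hz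
      · obtain ⟨τ, -, rfl⟩ := hz'
        exact hlow _ (by rw [re_line]; exact hσS) hz
      · exact (hout s hs).2 (hkO hz')
      · exact hyt s (lt_of_lt_of_le hσ hs) hz'
    obtain ⟨L, hL, hL'⟩ := hasLog_of_unbounded hKc h2 (fun R => by
      obtain ⟨s, hs, hs'⟩ := hunb y σ R
      exact ⟨_, Or.inr (Or.inr ⟨s, hs.le, rfl⟩), hs'⟩) hdis
      (x := P ((S - ε : ℝ) + x * Complex.I)) (Or.inl ⟨S - ε, ⟨by linarith, by linarith⟩, rfl⟩)
    exact ⟨L, hL, hL'⟩
  · intro ε hε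
    set X : Set ℂ := (fun s : ℝ => P (s + x * Complex.I)) '' Ioi S with hX
    have hXp : IsPreconnected X := isPreconnected_Ioi.image _
      ((cont_ray hP x).mono fun s hs => lt_trans hS0 hs)
    have hdis : Disjoint X (k ∪ T) := by
      rw [disjoint_left]
      rintro z ⟨s, hs, rfl⟩ (hz' | hz')
      · exact (hout s (hσS.le.trans (le_of_lt hs))).1 (hkO hz')
      · exact hxt s (lt_trans hS0 hs) (ne_of_gt hs) hz'
    obtain ⟨L, hL, hL'⟩ := hasLog_of_unbounded hKc hXp (fun R => by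
      obtain ⟨s, hs, hs'⟩ := hunb x S R
      exact ⟨_, ⟨s, hs, rfl⟩, hs'⟩) hdis
      (x := P ((S + ε : ℝ) + x * Complex.I)) ⟨S + ε, by show S < S + ε; linarith, rfl⟩
    exact ⟨L, hL, hL'⟩

end Pool.Agent.Imp
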