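import Pool.Agent.Lib.MP_1c105c_an.Defs3

/-! MP_1c105c_an, row JAN: a form of Janiszewski's theorem (helper9). -/

set_option autoImplicit false

open Filter Topology Set

namespace Pool.Agent.Imp.JanAux

/-- A zero free continuous function on the plane has a continuous logarithm. -/
theorem exists_log {G : ℂ → ℂ} (hG : Continuous G) (h0 : ∀ z, G z ≠ 0) :
    ∃ H : ℂ → ℂ, Continuous H ∧ ∀ z, Complex.exp (H z) = G z := by
  rcases Complex.isCoveringMapOn_exp.existsUnique_continuousMap_lifts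
    ⟨G, hG⟩ (Complex.exp_log (h0 0)) (fun x => h0 x) with ⟨f, ⟨-, hf⟩, -⟩
  exact ⟨f, f.continuous, fun z => congrFun hf z⟩

/-- A continuous function with `exp g = 1` on a preconnected set is constant. -/
theorem const_of_exp {α : Type*} [TopologicalSpace α] {S : Set α} (hS : IsPreconnected S)
    {g : α → ℂ} (hg : ContinuousOn g S) (he : ∀ a ∈ S, Complex.exp (g a) = 1) {a b : α}
    (ha : a ∈ S) (hb : b ∈ S) : g a = g b := by
  have hpi : (0 : ℝ) < 2 * Real.pi := by positivity
  have hint : ∀ c ∈ S, ∃ n : ℤ, g c = n * (2 * Real.pi * Complex.I) := fun c hc =>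
    Complex.exp_eq_one_iff.mp (he c hc)
  have him : ∀ c ∈ S, ∀ n : ℤ, g c = n * (2 * Real.pi * Complex.I) →
      (g c).im / (2 * Real.pi) = n := by
    intro c _ n hn
    rw [hn]
    have : ((n : ℂ) * (2 * Real.pi * Complex.I)).im = n * (2 * Real.pi) := by
      simp
    rw [this]
    field_simp
  have hu : ContinuousOn (fun c => (g c).im / (2 * Real.pi)) S :=
    (Complex.continuous_im.comp_continuousOn hg).div_const _
  have key : ∀ a ∈ S, ∀ b ∈ S, ¬ (g a).im / (2 * Real.pi) < (g b).im / (2 * Real.pi) := by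
    intro a ha b hb hlt
    obtain ⟨m, hm⟩ := hint a ha
    obtain ⟨n, hn⟩ := hint b hb
    rw [him a ha m hm, him b hb n hn] at hlt
    have hmn : m < n := by exact_mod_cast hlt
    have hmn' : (m : ℝ) + 1 ≤ n := by exact_mod_cast hmn
    have hmem : (m : ℝ) + 1 / 2 ∈ Icc ((g a).im / (2 * Real.pi)) ((g b).im / (2 * Real.pi)) := by
      rw [him a ha m hm, him b hb n hn]
      constructor <;> linarith
    obtain ⟨c, hc, hc'⟩ := hS.intermediate_value ha hb hu hmem
    obtain ⟨l, hl⟩ := hint c hc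
    have h1 : (l : ℝ) = (m : ℝ) + 1 / 2 := by
      rw [← hc']
      exact (him c hc l hl).symm
    have h2 : (2 * l : ℤ) = 2 * m + 1 := by
      have : (2 * l : ℝ) = 2 * m + 1 := by rw [h1]; ring
      exact_mod_cast this
    omega
  obtain ⟨m, hm⟩ := hint a ha
  obtain ⟨n, hn⟩ := hint b hb
  have h1 := key a ha b hb
  have h2 := key b hb a ha
  rw [him a ha m hm, him b hb n hn] at h1
  rw [him a ha m hm, him b hb n hn] at h2
  have h3 : (m : ℝ) = n := le_antisymm (not_lt.mp h2) (not_lt.mp h1)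
  have h4 : m = n := by exact_mod_cast h3
  rw [hm, hn, h4]

/-- There is no continuous logarithm of `ζ - x` on a circle around `x`. -/
theorem no_log {ρ : ℝ} (hρ : 0 < ρ) {x : ℂ} {H : ℂ → ℂ} (hH : Continuous H)
    (h : ∀ z, ‖z - x‖ = ρ → Complex.exp (H z) = z - x) : False := by
  let φ : ℝ → ℂ := fun θ => H (x + ρ * Complex.exp (θ * Complex.I)) - θ * Complex.I - Real.log ρ
  have hφ : Continuous φ := by
    have h1 : Continuous fun θ : ℝ => x + ρ * Complex.exp (θ * Complex.I) := by fun_prop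
    exact ((hH.comp h1).sub (by fun_prop)).sub continuous_const
  have he : ∀ θ ∈ (univ : Set ℝ), Complex.exp (φ θ) = 1 := by
    intro θ _
    have h1 : ‖x + ρ * Complex.exp (θ * Complex.I) - x‖ = ρ := by
      rw [add_sub_cancel_left, norm_mul, Complex.norm_exp_ofReal_mul_I, mul_one,
        Complex.norm_real, Real.norm_of_nonneg hρ.le]
    have h2 := h _ h1
    have h3 : Complex.exp (Real.log ρ : ℝ) = ρ := by
      rw [← Complex.ofReal_exp, Real.exp_log hρ]
    have hρ' : (ρ : ℂ) ≠ 0 := by exact_mod_cast hρ.ne'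
    have hee := Complex.exp_ne_zero ((θ : ℂ) * Complex.I)
    change Complex.exp (H (x + ρ * Complex.exp (θ * Complex.I)) - θ * Complex.I -
      (Real.log ρ : ℝ)) = 1
    rw [Complex.exp_sub, Complex.exp_sub, h2, h3, add_sub_cancel_left]
    field_simp
  have h1 := const_of_exp isPreconnected_univ hφ.continuousOn he (mem_univ (0 : ℝ))
    (mem_univ (2 * Real.pi))
  have h2 : φ 0 = H (x + ρ) - Real.log ρ := by
    change H (x + ρ * Complex.exp ((0 : ℝ) * Complex.I)) - (0 : ℝ) * Complex.I - Real.log ρ = _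
    simp
  have h3 : φ (2 * Real.pi) = H (x + ρ) - 2 * Real.pi * Complex.I - Real.log ρ := by
    change H (x + ρ * Complex.exp ((2 * Real.pi : ℝ) * Complex.I)) -
      (2 * Real.pi : ℝ) * Complex.I - Real.log ρ = _
    have h4 : Complex.exp ((2 * Real.pi : ℝ) * Complex.I) = 1 := by
      push_cast
      exact Complex.exp_two_pi_mul_I
    rw [h4, mul_one]
    push_cast
    ring
  rw [h2, h3] at h1
  have h5 : (2 * Real.pi * Complex.I : ℂ) = 0 := by linear_combination h1
  exact Complex.two_pi_I_ne_zero h5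

end JanAux

open JanAux in
theorem jan : JanStatement := by
  classical
  intro K Y c D x z R L hK hY hYK hYc hYn hc hcK hD hDb hfr hball hxD hR hL hexp
  obtain ⟨y0, hy0⟩ := hYn
  have hy0b : ‖y0 - z‖ < R := by
    have := hball (Or.inl hy0)
    rwa [Metric.mem_ball, dist_eq_norm] at this
  have hR0 : 0 < R := lt_of_le_of_lt (norm_nonneg _) hy0b
  have hzx : z - x ≠ 0 := by
    intro h0
    have h1 : ‖x - z‖ = 0 := by
      rw [← neg_sub, h0, neg_zero, norm_zero]
    linarith
  -- the logarithm on the ball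
  let M : ℂ → ℂ := fun ζ => Complex.log ((ζ - x) / (z - x)) + Complex.log (z - x)
  have hslit : ∀ ζ ∈ Metric.ball z R, (ζ - x) / (z - x) ∈ Complex.slitPlane := by
    intro ζ hζ
    left
    have h1 : (ζ - x) / (z - x) = 1 + (ζ - z) / (z - x) := by
      field_simp
      ring
    have h2 : ‖(ζ - z) / (z - x)‖ < 1 := by
      rw [norm_div, div_lt_one (norm_pos_iff.mpr hzx)]
      rw [Metric.mem_ball, dist_eq_norm] at hζ
      rw [norm_sub_rev z x]
      linarith
    have h3 : -‖(ζ - z) / (z - x)‖ ≤ ((ζ - z) / (z - x)).re :=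
      (abs_le.mp (Complex.abs_re_le_norm _)).1
    rw [h1, Complex.add_re, Complex.one_re]
    linarith
  have hM : ContinuousOn M (Metric.ball z R) := by
    refine ContinuousOn.add ?_ continuousOn_const
    refine ContinuousOn.clog ?_ hslit
    exact (continuousOn_id.sub continuousOn_const).div_const _
  have hMe : ∀ ζ ∈ Metric.ball z R, Complex.exp (M ζ) = ζ - x := by
    intro ζ hζ
    change Complex.exp (Complex.log ((ζ - x) / (z - x)) + Complex.log (z - x)) = _
    rw [Complex.exp_add, Complex.exp_log (Complex.slitPlane_ne_zero (hslit ζ hζ)),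
      Complex.exp_log hzx, div_mul_cancel₀ _ hzx]
  have hYb : Y ⊆ Metric.ball z R := fun y hy => hball (Or.inl hy)
  have hcb : c ⊆ Metric.ball z R := fun y hy => hball (Or.inr hy)
  -- the two logarithms differ by a constant on `Y`
  have hdiff : ∀ y ∈ Y, L y - M y = L y0 - M y0 := by
    intro y hy
    refine const_of_exp hYc (g := fun y => L y - M y) ((hL.mono hYK).sub (hM.mono hYb)) ?_ hy hy0
    intro a ha
    rw [Complex.exp_sub, hexp a (hYK ha), hMe a (hYb ha), div_self]
    rw [← hMe a (hYb ha)]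
    exact Complex.exp_ne_zero _
  have hk : Complex.exp (L y0 - M y0) = 1 := by
    rw [Complex.exp_sub, hexp y0 (hYK hy0), hMe y0 (hYb hy0), div_self]
    rw [← hMe y0 (hYb hy0)]
    exact Complex.exp_ne_zero _
  -- the glued logarithm
  let N : ℂ → ℂ := fun ζ => if ζ ∈ K then L ζ else M ζ + (L y0 - M y0)
  have hNK : ∀ ζ ∈ K, N ζ = L ζ := fun ζ hζ => if_pos hζ
  have hNc : ∀ ζ ∈ c, N ζ = M ζ + (L y0 - M y0) := by
    intro ζ hζ
    by_cases hζK : ζ ∈ K
    · rw [hNK ζ hζK, ← hdiff ζ (hcK ⟨hζ, hζK⟩)]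
      ring
    · exact if_neg hζK
  have hNcont : ContinuousOn N (K ∪ c) := by
    refine ContinuousOn.union_of_isClosed ?_ ?_ hK.isClosed hc.isClosed
    · exact hL.congr hNK
    · exact ((hM.mono hcb).add continuousOn_const).congr hNc
  have hNe : ∀ ζ ∈ K ∪ c, Complex.exp (N ζ) = ζ - x := by
    rintro ζ (hζ | hζ)
    · rw [hNK ζ hζ, hexp ζ hζ]
    · rw [hNc ζ hζ, Complex.exp_add, hk, mul_one, hMe ζ (hcb hζ)]
  -- Tietze
  have hF : IsClosed (K ∪ c) := hK.isClosed.union hc.isClosed
  obtain ⟨T, hT⟩ := ContinuousMap.exists_restrict_eq hF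
    (⟨(K ∪ c).domRestrict N, continuousOn_iff_continuous_domRestrict.mp hNcont⟩ : C(↥(K ∪ c), ℂ))
  have hTN : ∀ ζ ∈ K ∪ c, T ζ = N ζ := by
    intro ζ hζ
    have := congrArg (fun f : C(↥(K ∪ c), ℂ) => f ⟨ζ, hζ⟩) hT
    exact this
  -- the zero free function
  let G : ℂ → ℂ := fun ζ => if ζ ∈ D then Complex.exp (T ζ) else ζ - x
  have hG : Continuous G := by
    refine Continuous.if (p := fun ζ => ζ ∈ D) ?_ (Complex.continuous_exp.comp T.continuous)
      (continuous_id.sub continuous_const)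
    intro a ha
    have ha' : a ∈ K ∪ c := hfr ha
    change Complex.exp (T a) = a - x
    rw [hTN a ha', hNe a ha']
  have hG0 : ∀ ζ, G ζ ≠ 0 := by
    intro ζ
    by_cases hζ : ζ ∈ D
    · change (if ζ ∈ D then Complex.exp (T ζ) else ζ - x) ≠ 0
      rw [if_pos hζ]
      exact Complex.exp_ne_zero _
    · change (if ζ ∈ D then Complex.exp (T ζ) else ζ - x) ≠ 0
      rw [if_neg hζ]
      intro h0
      apply hζ
      rw [sub_eq_zero.mp h0]
      exact hxD
  obtain ⟨H, hH, hHe⟩ := exists_log hG hG0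
  obtain ⟨r, hr, hDr⟩ := hDb.subset_ball_lt 0 x
  refine no_log hr (x := x) hH fun ζ hζ => ?_
  rw [hHe ζ]
  have hζD : ζ ∉ D := by
    intro h1
    have := hDr h1
    rw [Metric.mem_ball, dist_eq_norm, hζ] at this
    exact lt_irrefl _ this
  exact if_neg hζD

end Pool.Agent.Imp
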