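import Pool.Agent.Lib.MP_1c105c_an.Defs4
import Pool.Agent.Lib.MP_1c105c_an.Cik
import Pool.Agent.Lib.MP_1c105c_an.Jan
import Pool.Agent.Lib.MP_1c105c_an.Lgk

/-! MP_1c105c_an, row NC: pairs of rays with different landing points do not cross (helper94). -/

set_option autoImplicit false

open Filter Topology Set Polynomial

namespace Pool.Agent.Imp

namespace Nc94

open Cik Lgk98 JanAux

/-- A far point has a logarithm. -/
theorem far' {K : Set ℂ} {x : ℂ} {R : ℝ} (hR : 0 ≤ R) (hK : ∀ ζ ∈ K, ‖ζ‖ ≤ R) (hx : R < ‖x‖) :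
    HasLog K x := by
  have hx0 : x ≠ 0 := norm_pos_iff.1 (lt_of_le_of_lt hR hx)
  have hs : ∀ ζ ∈ K, 1 + (-ζ) / x ∈ Complex.slitPlane := by
    intro ζ hζ
    apply slit_of_norm_lt
    rw [norm_div, norm_neg, div_lt_one (lt_of_le_of_lt hR hx)]
    exact lt_of_le_of_lt (hK ζ hζ) hx
  refine ⟨fun ζ => Complex.log (-x) + Complex.log (1 + (-ζ) / x), ?_, ?_⟩
  · refine continuousOn_const.add (ContinuousOn.clog ?_ hs)
    exact (continuous_const.add (continuous_neg.div_const _)).continuousOn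
  · intro ζ hζ
    show Complex.exp (Complex.log (-x) + Complex.log (1 + (-ζ) / x)) = ζ - x
    rw [Complex.exp_add, Complex.exp_log (neg_ne_zero.2 hx0),
      Complex.exp_log (Complex.slitPlane_ne_zero (hs ζ hζ))]
    field_simp
    ring

/-- Along a connected set which avoids `K` and contains a far point, all logarithms exist. -/
theorem hasLog_of_far {K T : Set ℂ} (hK : IsClosed K) (hT : IsPreconnected T)
    (hd : ∀ z ∈ T, z ∉ K) {R : ℝ} (hR : 0 ≤ R) (hb : ∀ ζ ∈ K, ‖ζ‖ ≤ R) {x y : ℂ} (hx : x ∈ T)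
    (hy : y ∈ T) (hyR : R < ‖y‖) : HasLog K x := by
  obtain ⟨h1, h2⟩ := isOpen_hasLog hK
  by_contra hcon
  obtain ⟨z, -, ⟨-, hz⟩, -, hz'⟩ := hT _ _ h1 h2 (by
    intro z hz
    by_cases h : HasLog K z
    · exact Or.inl ⟨hd z hz, h⟩
    · exact Or.inr ⟨hd z hz, h⟩) ⟨y, hy, hd y hy, far' hR hb hyR⟩ ⟨x, hx, hd x hx, hcon⟩
  exact hz' hz

/-- No logarithm of `ζ - x` on a closed set which contains the frontier of a bounded open set
containing `x`. -/
theorem no_domain {F D : Set ℂ} (hF : IsClosed F) (hDb : Bornology.IsBounded D)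
    (hfr : frontier D ⊆ F) {x : ℂ} (hxD : x ∈ D) {N : ℂ → ℂ} (hN : ContinuousOn N F)
    (hNe : ∀ ζ ∈ F, Complex.exp (N ζ) = ζ - x) : False := by
  classical
  obtain ⟨T, hT⟩ := ContinuousMap.exists_restrict_eq hF
    (⟨F.domRestrict N, continuousOn_iff_continuous_domRestrict.mp hN⟩ : C(↥F, ℂ))
  have hTN : ∀ ζ ∈ F, T ζ = N ζ := by
    intro ζ hζ
    have := congrArg (fun f : C(↥F, ℂ) => f ⟨ζ, hζ⟩) hT
    exact this
  let G : ℂ → ℂ := fun ζ => if ζ ∈ D then Complex.exp (T ζ) else ζ - x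
  have hG : Continuous G := by
    refine Continuous.if (p := fun ζ => ζ ∈ D) ?_ (Complex.continuous_exp.comp T.continuous)
      (continuous_id.sub continuous_const)
    intro a ha
    have ha' : a ∈ F := hfr ha
    change Complex.exp (T a) = a - x
    rw [hTN a ha', hNe a ha']
  have hG0 : ∀ ζ, G ζ ≠ 0 := by
    intro ζ
    by_cases hζ : ζ ∈ D
    · change (if ζ ∈ D then Complex.exp (T ζ) else ζ - x) ≠ 0
      rw [if_pos hζ]
      exact Complex.exp_ne_zero _
    · change (if ζ ∈ D then Complex.exp (T ζ) else ζ - x) ≠ 0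
      rw [if_neg hζ]
      intro h0
      apply hζ
      rw [sub_eq_zero.mp h0]
      exact hxD
  obtain ⟨H, hH, hHe⟩ := exists_log hG hG0
  obtain ⟨r, hr, hDr⟩ := hDb.subset_ball_lt 0 x
  refine no_log hr (x := x) hH fun ζ hζ => ?_
  rw [hHe ζ]
  have hζD : ζ ∉ D := by
    intro h1
    have := hDr h1
    rw [Metric.mem_ball, dist_eq_norm, hζ] at this
    exact lt_irrefl _ this
  exact if_neg hζD

/-- A piece of a ray with its landing point is connected. -/
theorem ray_conn {P : ℂ → ℂ} (hP : ContinuousOn P HP) (t : ℝ) {w : ℂ} (h : Land P t w)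
    {I : Set ℝ} (hI : IsPreconnected I) (hI0 : I ⊆ Ioi 0) (hIn : I ∈ 𝓝[>] (0 : ℝ)) :
    IsPreconnected ({w} ∪ (fun s : ℝ => P (s + t * Complex.I)) '' I) := by
  have hc : ContinuousOn (fun s : ℝ => P (s + t * Complex.I)) I := by
    intro s hs
    have h2 : ContinuousAt P (s + t * Complex.I) :=
      hP.continuousAt (Jul.isOpen_HP.mem_nhds (mem_HP s t (hI0 hs)))
    have h3 : Continuous fun s : ℝ => ((s : ℂ) + t * Complex.I) := by fun_prop
    exact (ContinuousAt.comp (f := fun s : ℝ => ((s : ℂ) + t * Complex.I)) h2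
      h3.continuousAt).continuousWithinAt
  refine (hI.image _ hc).subset_closure subset_union_right (union_subset ?_ subset_closure)
  rintro z (rfl : z = w)
  refine mem_closure_of_tendsto h ?_
  filter_upwards [hIn] with s hs
  exact mem_image_of_mem _ hs

end Nc94

open Nc94 Cik Lgk98 JanAux in
/-- Row NC. -/
theorem nc (_jul : JulStatement) (lgk : LgkStatement) : NcStatement := by
  classical
  intro f P hd hP hinf a b x y w w' ha hb hx hy hww hax hxb hby hya
  have hPc : ContinuousOn P HP := hP.diff.continuousOn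
  have hKc : IsClosed (filledJulia f) := Jul.closed f hd
  have hKb : Bornology.IsBounded (filledJulia f) := Jul.bounded f hd
  have hPK : ∀ u : ℂ, 0 < u.re → P u ∉ filledJulia f := by
    intro u hu
    have : P u ∈ P '' HP := ⟨u, hu, rfl⟩
    rw [hP.range] at this
    exact this
  have hlim : ∀ (t : ℝ) (z : ℂ), Land P t z → z ∈ filledJulia f := by
    intro t z ha
    let v : ℕ → ℝ := fun n => 1 / ((n : ℝ) + 1)
    have hv0 : ∀ n, 0 < v n := fun n => by simp only [v]; positivity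
    have hvl : Tendsto v atTop (𝓝 0) := tendsto_one_div_add_atTop_nhds_zero_nat
    have hvl2 : Tendsto v atTop (𝓝[>] 0) :=
      tendsto_nhdsWithin_iff.mpr ⟨hvl, Eventually.of_forall hv0⟩
    refine hKc.frontier_subset
      (Jul.lim_julia hd hP (fun n => (v n : ℂ) + t * Complex.I) z ?_ ?_ ?_)
    · intro n
      exact mem_HP (v n) t (hv0 n)
    · simp only [re_mk]
      exact hvl
    · have h1 : Tendsto (fun s : ℝ => P (s + t * Complex.I)) (𝓝[>] 0) (𝓝 z) := ha
      exact h1.comp hvl2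
  have him : ∀ s t : ℝ, ((s : ℂ) + t * Complex.I).im = t := fun s t => by simp
  -- injectivity
  have hinj : ∀ s t s' t' : ℝ, 0 < s → 0 < s' →
      P (s + t * Complex.I) = P (s' + t' * Complex.I) → s = s' ∧ ∃ j : ℤ, t = t' + j := by
    intro s t s' t' hs hs' h
    obtain ⟨j, hj⟩ := hP.inj _ (mem_HP s t hs) _ (mem_HP s' t' hs') h
    have h1 := congrArg Complex.re hj
    have h2 := congrArg Complex.im hj
    rw [re_mk, Complex.add_re, re_mk] at h1
    rw [him, Complex.add_im, him] at h2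
    simp only [Complex.mul_re, Complex.mul_im, Complex.I_re, Complex.I_im, Complex.intCast_re,
      Complex.intCast_im, mul_zero, mul_one, sub_zero, add_zero] at h1 h2
    exact ⟨h1, j, h2⟩
  have hno : ∀ t t' : ℝ, t' < t → t < t' + 1 → ¬ ∃ j : ℤ, t = t' + j := by
    rintro t t' h1 h2 ⟨j, hj⟩
    have h3 : (0 : ℝ) < j := by linarith
    have h4 : (j : ℝ) < 1 := by linarith
    have h5 : 0 < j := by exact_mod_cast h3
    have h6 : j < 1 := by exact_mod_cast h4
    omega
  have hno' : ∀ t t' : ℝ, t' < t → t < t' + 1 → ¬ ∃ j : ℤ, t' = t + j := by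
    rintro t t' h1 h2 ⟨j, hj⟩
    exact hno t t' h1 h2 ⟨-j, by push_cast; linarith⟩
  -- the cut
  let c : Set ℂ := Cut P 1 a b w w
  have hcc : IsCompact c :=
    ((compact_arc hPc a 1 one_pos w ha).union (compact_arc hPc b 1 one_pos w hb)).union
      (compact_vert hPc 1 a b one_pos)
  have hcK : ∀ ζ ∈ c, ζ ∈ filledJulia f → ζ = w := by
    intro ζ hζ hζK
    rcases hζ with ((h | ⟨s, hs, rfl⟩) | (h | ⟨s, hs, rfl⟩)) | ⟨τ, hτ, rfl⟩
    · exact h
    · exact absurd hζK (hPK _ (by rw [re_mk]; exact hs.1))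
    · exact h
    · exact absurd hζK (hPK _ (by rw [re_mk]; exact hs.1))
    · exact absurd hζK (hPK _ (by rw [re_mk]; exact one_pos))
  -- the connected set
  let T : Set ℂ := ({w'} ∪ (fun s : ℝ => P (s + x * Complex.I)) '' Ioo 0 1) ∪
    ({w'} ∪ (fun s : ℝ => P (s + y * Complex.I)) '' Ioi 0)
  have hT : IsPreconnected T := by
    refine IsPreconnected.union w' (Or.inl rfl) (Or.inl rfl) ?_ ?_
    · exact ray_conn hPc x hx isPreconnected_Ioo (fun s hs => hs.1) (Ioo_mem_nhdsGT one_pos)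
    · exact ray_conn hPc y hy isPreconnected_Ioi (fun s hs => hs) self_mem_nhdsWithin
  have hw'c : w' ∉ c := fun h => hww (hcK w' h (hlim x w' hx)).symm
  have hTc : ∀ z ∈ T, z ∉ c := by
    rintro z ((h | ⟨s, hs, rfl⟩) | (h | ⟨s, hs, rfl⟩)) hz
    · rw [mem_singleton_iff.mp h] at hz
      exact hw'c hz
    · rcases hz with ((h | ⟨r, hr, h⟩) | (h | ⟨r, hr, h⟩)) | ⟨τ, hτ, h⟩
      · refine hPK _ (by rw [re_mk]; exact hs.1) (?_ : P (s + x * Complex.I) ∈ _)
        have h' : P (s + x * Complex.I) = w := h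
        rw [h']
        exact hlim a w ha
      · exact hno' x a hax (by linarith) (hinj r a s x hr.1 hs.1 h).2
      · refine hPK _ (by rw [re_mk]; exact hs.1) (?_ : P (s + x * Complex.I) ∈ _)
        have h' : P (s + x * Complex.I) = w := h
        rw [h']
        exact hlim a w ha
      · exact hno b x hxb (by linarith) (hinj r b s x hr.1 hs.1 h).2
      · have h1 := (hinj 1 τ s x one_pos hs.1 (by simpa using h)).1
        exact absurd h1 (ne_of_gt hs.2)
    · rw [mem_singleton_iff.mp h] at hz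
      exact hw'c hz
    · rcases hz with ((h | ⟨r, hr, h⟩) | (h | ⟨r, hr, h⟩)) | ⟨τ, hτ, h⟩
      · refine hPK _ (by rw [re_mk]; exact hs) (?_ : P (s + y * Complex.I) ∈ _)
        have h' : P (s + y * Complex.I) = w := h
        rw [h']
        exact hlim a w ha
      · exact hno' y a (by linarith) (by linarith) (hinj r a s y hr.1 hs h).2
      · refine hPK _ (by rw [re_mk]; exact hs) (?_ : P (s + y * Complex.I) ∈ _)
        have h' : P (s + y * Complex.I) = w := h
        rw [h']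
        exact hlim a w ha
      · exact hno' y b (by linarith) (by linarith) (hinj r b s y hr.1 hs h).2
      · exact hno' y τ (by linarith [hτ.2]) (by linarith [hτ.1])
          (hinj 1 τ s y one_pos hs (by simpa using h)).2
  -- the far point
  obtain ⟨R, hR⟩ := hcc.isBounded.subset_closedBall (0 : ℂ)
  have hR' : ∀ ζ ∈ c, ‖ζ‖ ≤ max R 0 := fun ζ hζ => by
    have := hR hζ
    rw [mem_closedBall_zero_iff] at this
    exact this.trans (le_max_left R 0)
  obtain ⟨M, hM⟩ := hinf (max R 0 + 1)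
  have hyfar : max R 0 < ‖P ((max M 1 : ℝ) + y * Complex.I)‖ := by
    have := hM ((max M 1 : ℝ) + y * Complex.I) (by rw [re_mk]; exact le_max_left _ _)
    linarith
  -- the logarithm on the cut
  let x₀ : ℂ := P ((1 / 2 : ℝ) + x * Complex.I)
  have hx₀T : x₀ ∈ T := Or.inl (Or.inr ⟨1 / 2, ⟨by norm_num, by norm_num⟩, rfl⟩)
  have hyT : P ((max M 1 : ℝ) + y * Complex.I) ∈ T :=
    Or.inr (Or.inr ⟨max M 1, mem_Ioi.2 (lt_of_lt_of_le one_pos (le_max_right _ _)), rfl⟩)
  obtain ⟨L₂, hL₂, hL₂e⟩ := hasLog_of_far hcc.isClosed hT hTc (le_max_right R 0) hR' hx₀T hyT hyfar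
  -- the logarithm on `K`
  have hx₀K : x₀ ∉ filledJulia f := hPK _ (by rw [re_mk]; norm_num)
  obtain ⟨L₁, hL₁, hL₁e⟩ := lgk f P hd hP hinf x₀ hx₀K
  have hwK : w ∈ filledJulia f := hlim a w ha
  have hwc : w ∈ c := Or.inl (Or.inl (Or.inl rfl))
  have hk : Complex.exp (L₁ w - L₂ w) = 1 := by
    rw [Complex.exp_sub, hL₁e w hwK, hL₂e w hwc, div_self]
    rw [← hL₂e w hwc]
    exact Complex.exp_ne_zero _
  -- glue
  let N : ℂ → ℂ := fun ζ => if ζ ∈ filledJulia f then L₁ ζ else L₂ ζ + (L₁ w - L₂ w)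
  have hNK : ∀ ζ ∈ filledJulia f, N ζ = L₁ ζ := fun ζ hζ => if_pos hζ
  have hNc : ∀ ζ ∈ c, N ζ = L₂ ζ + (L₁ w - L₂ w) := by
    intro ζ hζ
    by_cases hζK : ζ ∈ filledJulia f
    · rw [hNK ζ hζK, hcK ζ hζ hζK]
      ring
    · exact if_neg hζK
  have hNcont : ContinuousOn N (filledJulia f ∪ c) := by
    refine ContinuousOn.union_of_isClosed ?_ ?_ hKc hcc.isClosed
    · exact hL₁.congr hNK
    · exact (hL₂.add continuousOn_const).congr hNc
  have hNe : ∀ ζ ∈ filledJulia f ∪ c, Complex.exp (N ζ) = ζ - x₀ := by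
    rintro ζ (hζ | hζ)
    · rw [hNK ζ hζ, hL₁e ζ hζ]
    · rw [hNc ζ hζ, Complex.exp_add, hk, mul_one, hL₂e ζ hζ]
  refine no_domain (hKc.union hcc.isClosed) ?_ (frontier_sub hd hP 1 a b w w)
    (x := x₀) (D := P '' CBox 1 a b) ?_ hNcont hNe
  · obtain ⟨R, hR⟩ := hP.bdd
    refine (Metric.isBounded_closedBall (x := (0 : ℂ)) (r := R)).subset ?_
    rintro z ⟨v, hv, rfl⟩
    rw [mem_closedBall_zero_iff]
    exact hR v hv.1 hv.2.1.le
  · refine ⟨(1 / 2 : ℝ) + x * Complex.I, ⟨?_, ?_, ?_, ?_⟩, rfl⟩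
    · rw [re_mk]; norm_num
    · rw [re_mk]; norm_num
    · rw [him]; exact hax
    · rw [him]; exact hxb

end Pool.Agent.Imp
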