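import Pool.Agent.Lib.MP_1c105c_an.Defs10
import Pool.Agent.Lib.MP_1c105c_an.Nc
import Pool.Agent.Lib.MP_1c105c_an.Half
import Pool.Agent.Lib.MP_1c105c_an.Inf
import Pool.Agent.Lib.MP_1c105c_an.Jul

/-! MP_1c105c_an, row THR: three accesses from both sides are impossible if a point of `Δ` is in
all filled impressions. -/

set_option autoImplicit false

open Filter Topology Set Polynomial

namespace Pool.Agent.Imp

namespace Thr58

variable {f : ℂ[X]} {P : ℂ → ℂ}

theorem ray_re (s t : ℝ) : ((s : ℂ) + t * Complex.I).re = s := by simp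

theorem ray_im (s t : ℝ) : ((s : ℂ) + t * Complex.I).im = t := by simp

theorem ray_HP {s : ℝ} (hs : 0 < s) (t : ℝ) : ((s : ℂ) + t * Complex.I) ∈ HP := by
  show 0 < ((s : ℂ) + t * Complex.I).re
  rw [ray_re]
  exact hs

theorem per_nat (hP : Half f P) (u : ℂ) (m : ℕ) : P (u + m * Complex.I) = P u := by
  induction m with
  | zero => simp
  | succ k ih =>
    have e : u + ((k + 1 : ℕ) : ℂ) * Complex.I = (u + k * Complex.I) + Complex.I := by
      push_cast
      ring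
    rw [e, hP.per, ih]

theorem per_int (hP : Half f P) (u : ℂ) (m : ℤ) : P (u + m * Complex.I) = P u := by
  obtain ⟨n, rfl | rfl⟩ := m.eq_nat_or_neg
  · exact_mod_cast per_nat hP u n
  · have h := per_nat hP (u + ((-(n : ℤ) : ℤ) : ℂ) * Complex.I) n
    rw [← h]
    congr 1
    push_cast
    ring

theorem per_ray (hP : Half f P) (s t : ℝ) (m : ℤ) :
    P (s + ((t + m : ℝ) : ℂ) * Complex.I) = P (s + t * Complex.I) := by
  rw [← per_int hP (s + t * Complex.I) m]
  congr 1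
  push_cast
  ring

theorem inj' (hP : Half f P) {u v : ℂ} (hu : 0 < u.re) (hv : 0 < v.re) (h : P u = P v) :
    u.re = v.re ∧ ∃ m : ℤ, u.im = v.im + m := by
  obtain ⟨j, hj⟩ := hP.inj u hu v hv h
  refine ⟨?_, j, ?_⟩
  · have := congrArg Complex.re hj
    simpa using this
  · have := congrArg Complex.im hj
    simpa using this

theorem not_K (hP : Half f P) {u : ℂ} (hu : 0 < u.re) : P u ∉ filledJulia f := by
  have h : P u ∈ P '' HP := ⟨u, hu, rfl⟩
  rw [hP.range] at h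
  exact h

theorem ray_cont (hP : Half f P) (t : ℝ) :
    ContinuousOn (fun s : ℝ => P (s + t * Complex.I)) (Set.Ioi 0) := by
  refine hP.diff.continuousOn.comp (by fun_prop) fun s hs => ?_
  exact ray_HP hs t

/-- The landing points are in the Julia set. -/
theorem land_julia (hd : 2 ≤ f.natDegree) (hP : Half f P) {t : ℝ} {z : ℂ} (h : Land P t z) :
    z ∈ julia f := by
  have hv0 : ∀ n : ℕ, (0 : ℝ) < 1 / ((n : ℝ) + 1) := fun n => by positivity
  have hvl : Tendsto (fun n : ℕ => 1 / ((n : ℝ) + 1)) atTop (𝓝[>] 0) :=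
    tendsto_nhdsWithin_iff.mpr ⟨tendsto_one_div_add_atTop_nhds_zero_nat,
      Eventually.of_forall hv0⟩
  refine Jul.lim_julia hd hP (fun n => ((1 / ((n : ℝ) + 1) : ℝ) : ℂ) + t * Complex.I) z
    (fun n => ray_HP (hv0 n) t) ?_ ?_
  · simp only [ray_re]
    exact tendsto_one_div_add_atTop_nhds_zero_nat
  · have h1 : Tendsto (fun s : ℝ => P (s + t * Complex.I)) (𝓝[>] 0) (𝓝 z) := h
    exact h1.comp hvl

/-- The closed ray. -/
theorem closed_ray (hP : Half f P) (hinf : ∀ R : ℝ, ∃ M : ℝ, ∀ u : ℂ, M ≤ u.re → R ≤ ‖P u‖)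
    (t η : ℝ) (hη : 0 < η) : IsClosed ((fun s : ℝ => P (s + t * Complex.I)) '' Set.Ici η) := by
  refine isClosed_of_closure_subset fun z hz => ?_
  obtain ⟨M, hM⟩ := hinf (‖z‖ + 1)
  have h1 : Metric.ball z 1 ∩ ((fun s : ℝ => P (s + t * Complex.I)) '' Set.Ici η) ⊆
      (fun s : ℝ => P (s + t * Complex.I)) '' Set.Icc η M := by
    rintro _ ⟨h2, s, hs, rfl⟩
    refine ⟨s, ⟨hs, ?_⟩, rfl⟩
    by_contra hsM
    have h3 := hM ((s : ℂ) + t * Complex.I) (by rw [ray_re]; linarith)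
    have h4 : ‖P (s + t * Complex.I) - z‖ < 1 := by
      rw [← dist_eq_norm]
      exact h2
    have h5 := norm_le_norm_add_norm_sub' (P (s + t * Complex.I)) z
    linarith
  have h2 : IsCompact ((fun s : ℝ => P (s + t * Complex.I)) '' Set.Icc η M) :=
    isCompact_Icc.image_of_continuousOn ((ray_cont hP t).mono fun s hs =>
      lt_of_lt_of_le hη hs.1)
  have h3 := (Metric.isOpen_ball (x := z) (ε := 1)).inter_closure
    (t := (fun s : ℝ => P (s + t * Complex.I)) '' Set.Ici η) ⟨Metric.mem_ball_self one_pos, hz⟩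
  have h4 := closure_minimal h1 h2.isClosed h3
  obtain ⟨s, hs, hs2⟩ := h4
  exact ⟨s, hs.1, hs2⟩

/-- The ray with its landing point. -/
def Ray (P : ℂ → ℂ) (t : ℝ) (q : ℂ) : Set ℂ :=
  {q} ∪ (fun s : ℝ => P (s + t * Complex.I)) '' Set.Ioi 0

/-- The end of the ray with its landing point. -/
def End (P : ℂ → ℂ) (t : ℝ) (q : ℂ) : Set ℂ :=
  {q} ∪ (fun s : ℝ => P (s + t * Complex.I)) '' Set.Ioc 0 1

theorem end_sub (P : ℂ → ℂ) (t : ℝ) (q : ℂ) : End P t q ⊆ Ray P t q := by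
  rintro z (h | ⟨s, hs, rfl⟩)
  · exact Or.inl h
  · exact Or.inr ⟨s, hs.1, rfl⟩

theorem ray_closed (hP : Half f P) (hinf : ∀ R : ℝ, ∃ M : ℝ, ∀ u : ℂ, M ≤ u.re → R ≤ ‖P u‖)
    {t : ℝ} {q : ℂ} (h : Land P t q) : IsClosed (Ray P t q) := by
  have e : Ray P t q = End P t q ∪ (fun s : ℝ => P (s + t * Complex.I)) '' Set.Ici 1 := by
    refine Subset.antisymm ?_ (union_subset (end_sub P t q) ?_)
    · rintro z (h | ⟨s, hs, rfl⟩)
      · exact Or.inl (Or.inl h)
      · rcases le_total s 1 with h1 | h1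
        · exact Or.inl (Or.inr ⟨s, ⟨hs, h1⟩, rfl⟩)
        · exact Or.inr ⟨s, h1, rfl⟩
    · rintro z ⟨s, hs, rfl⟩
      exact Or.inr ⟨s, lt_of_lt_of_le one_pos (mem_Ici.1 hs), rfl⟩
  rw [e]
  exact (Cik.compact_arc hP.diff.continuousOn t 1 one_pos q h).isClosed.union
    (closed_ray hP hinf t 1 one_pos)

theorem ray_pre (hP : Half f P) {t : ℝ} {q : ℂ} (h : Land P t q) : IsPreconnected (Ray P t q) :=
  Nc94.ray_conn hP.diff.continuousOn t h isPreconnected_Ioi (fun _ hs => hs) self_mem_nhdsWithin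

theorem end_pre (hP : Half f P) {t : ℝ} {q : ℂ} (h : Land P t q) : IsPreconnected (End P t q) :=
  Nc94.ray_conn hP.diff.continuousOn t h isPreconnected_Ioc (fun _ hs => hs.1)
    (Ioc_mem_nhdsGT one_pos)

/-- Rays with different angles. -/
theorem ray_ne (hP : Half f P) {s s' t t' : ℝ} (hs : 0 < s) (hs' : 0 < s') (h1 : t < t')
    (h2 : t' < t + 1) : P (s + t * Complex.I) ≠ P (s' + t' * Complex.I) := by
  intro h
  obtain ⟨-, m, hm⟩ := inj' hP (by rw [ray_re]; exact hs) (by rw [ray_re]; exact hs') h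
  rw [ray_im, ray_im] at hm
  have h3 : (m : ℝ) < 0 := by linarith
  have h4 : (-1 : ℝ) < m := by linarith
  have h5 : m < 0 := by exact_mod_cast h3
  have h6 : -1 < m := by exact_mod_cast h4
  omega

/-- The core: the third point is in no impression between the two others. -/
theorem core (crs : CrsStatement) (hd : 2 ≤ f.natDegree) (hP : Half f P)
    (hinf : ∀ R : ℝ, ∃ M : ℝ, ∀ u : ℂ, M ≤ u.re → R ≤ ‖P u‖) {Δ : Set ℂ} (hΔo : IsOpen Δ)
    (hΔp : IsPreconnected Δ) (hΔK : Δ ⊆ filledJulia f) {qa qb qc : ℂ} {ta tb tc : ℝ}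
    (hqa : qc ≠ qa) (hqb : qc ≠ qb) (hcΔ : qc ∉ Δ) (ha : Acs Δ qa) (hb : Acs Δ qb)
    (la : Land P ta qa) (lb : Land P tb qb) (lc : Land P tc qc)
    (hic : ∀ (θ : ℝ), ∀ N ∈ 𝓝 ((θ : ℂ) * Complex.I), qc ∈ closure (P '' (N ∩ HP)))
    (h1 : ta < tb) (h2 : tb < tc) (h3 : tc < ta + 1) : False := by
  obtain ⟨κa, ka1, ka2, ka3, ka4, pa, pa1, pa2⟩ := ha
  obtain ⟨κb, kb1, kb2, kb3, kb4, pb, pb1, pb2⟩ := hb
  have hKc : IsClosed (filledJulia f) := Jul.closed f hd
  have hJK : julia f ⊆ filledJulia f := hKc.frontier_subset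
  have hqaK : qa ∈ filledJulia f := hJK (land_julia hd hP la)
  have hqbK : qb ∈ filledJulia f := hJK (land_julia hd hP lb)
  have hqcK : qc ∈ filledJulia f := hJK (land_julia hd hP lc)
  -- the path
  have hconn : IsConnected Δ := ⟨⟨pa, pa2⟩, hΔp⟩
  have hpath : IsPathConnected Δ := hΔo.isConnected_iff_isPathConnected.1 hconn
  obtain ⟨γ, hγ⟩ := hpath.joinedIn pa pa2 pb pb2
  obtain ⟨κ, hκ⟩ : ∃ κ, κ = κa ∪ Set.range γ ∪ κb := ⟨_, rfl⟩
  have hκc : IsCompact κ := by
    rw [hκ]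
    exact (ka1.union (isCompact_range γ.continuous)).union kb1
  have hκp : IsPreconnected κ := by
    rw [hκ]
    refine IsPreconnected.union pb (Or.inr ⟨1, γ.target⟩) pb1 ?_ kb2
    exact IsPreconnected.union pa pa1 ⟨0, γ.source⟩ ka2 (isPreconnected_range γ.continuous)
  have hκs : κ ⊆ Δ ∪ {qa, qb} := by
    rw [hκ]
    rintro z ((h | ⟨s, rfl⟩) | h)
    · rcases ka4 h with h | h
      · exact Or.inl h
      · exact Or.inr (Or.inl h)
    · exact Or.inl (hγ s)
    · rcases kb4 h with h | h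
      · exact Or.inl h
      · exact Or.inr (Or.inr h)
  have hκK : κ ⊆ filledJulia f := by
    intro z hz
    rcases hκs hz with h | h | h
    · exact hΔK h
    · rw [h]; exact hqaK
    · rw [mem_singleton_iff.1 h]; exact hqbK
  have hqκa : qa ∈ κ := by
    rw [hκ]
    exact Or.inl (Or.inl ka3)
  have hqκb : qb ∈ κ := by
    rw [hκ]
    exact Or.inr kb3
  -- the closed set
  obtain ⟨Γ, hΓ⟩ : ∃ Γ, Γ = κ ∪ Ray P ta qa ∪ Ray P tb qb := ⟨_, rfl⟩
  have hΓc : IsClosed Γ := by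
    rw [hΓ]
    exact (hκc.isClosed.union (ray_closed hP hinf la)).union (ray_closed hP hinf lb)
  have hΓK : ∀ z ∈ Γ, z ∈ filledJulia f → z ∈ κ := by
    rw [hΓ]
    rintro z ((h | h | ⟨s, hs, rfl⟩) | h | ⟨s, hs, rfl⟩) hzK
    · exact h
    · rw [mem_singleton_iff.1 h]; exact hqκa
    · exact absurd hzK (not_K hP (by rw [ray_re]; exact hs))
    · rw [mem_singleton_iff.1 h]; exact hqκb
    · exact absurd hzK (not_K hP (by rw [ray_re]; exact hs))
  have hqcΓ : qc ∉ Γ := by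
    intro h
    rcases hκs (hΓK qc h hqcK) with h | h | h
    · exact hcΔ h
    · exact hqa h
    · exact hqb h
  -- points of the half plane in `Γ`
  have hΓP : ∀ u : ℂ, 0 < u.re → P u ∈ Γ →
      (∃ m : ℤ, u.im = ta + m) ∨ ∃ m : ℤ, u.im = tb + m := by
    intro u hu h
    have hnK := not_K hP hu
    rw [hΓ] at h
    rcases h with (h | h | ⟨s, hs, h⟩) | h | ⟨s, hs, h⟩
    · exact absurd (hκK h) hnK
    · rw [mem_singleton_iff.1 h] at hnK
      exact absurd hqaK hnK
    · obtain ⟨-, m, hm⟩ := inj' hP hu (by rw [ray_re]; exact hs) h.symm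
      rw [ray_im] at hm
      exact Or.inl ⟨m, hm⟩
    · rw [mem_singleton_iff.1 h] at hnK
      exact absurd hqbK hnK
    · obtain ⟨-, m, hm⟩ := inj' hP hu (by rw [ray_re]; exact hs) h.symm
      rw [ray_im] at hm
      exact Or.inr ⟨m, hm⟩
  -- the component
  obtain ⟨O, hO⟩ : ∃ O, O = connectedComponentIn Γᶜ qc := ⟨_, rfl⟩
  have hOo : IsOpen O := by
    rw [hO]
    exact hΓc.isOpen_compl.connectedComponentIn
  have hOp : IsPreconnected O := by
    rw [hO]
    exact isPreconnected_connectedComponentIn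
  have hOΓ : ∀ z ∈ O, z ∉ Γ := by
    rw [hO]
    exact fun z hz => connectedComponentIn_subset _ _ hz
  have hqcO : qc ∈ O := by
    rw [hO]
    exact mem_connectedComponentIn hqcΓ
  have hsub : ∀ T : Set ℂ, IsPreconnected T → (∀ z ∈ T, z ∉ Γ) → (∃ z ∈ T, z ∈ O) → T ⊆ O := by
    rintro T hT hTΓ ⟨z, hzT, hzO⟩
    have e : O = connectedComponentIn Γᶜ z := by
      rw [hO] at hzO ⊢
      exact connectedComponentIn_eq hzO
    rw [e]
    exact hT.subset_connectedComponentIn hzT hTΓ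
  -- the ray of `qc`
  have hrayc : Ray P tc qc ⊆ O := by
    refine hsub _ (ray_pre hP lc) ?_ ⟨qc, Or.inl rfl, hqcO⟩
    rintro z (h | ⟨s, hs, rfl⟩)
    · rw [mem_singleton_iff.1 h]; exact hqcΓ
    · intro h
      rcases hΓP _ (by rw [ray_re]; exact hs) h with ⟨m, hm⟩ | ⟨m, hm⟩
      · rw [ray_im] at hm
        have h4 : (0 : ℝ) < m := by linarith
        have h5 : (m : ℝ) < 1 := by linarith
        have h6 : 0 < m := by exact_mod_cast h4
        have h7 : m < 1 := by exact_mod_cast h5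
        omega
      · rw [ray_im] at hm
        have h4 : (0 : ℝ) < m := by linarith
        have h5 : (m : ℝ) < 1 := by linarith
        have h6 : 0 < m := by exact_mod_cast h4
        have h7 : m < 1 := by exact_mod_cast h5
        omega
  -- the sector
  obtain ⟨Q, hQ⟩ : ∃ Q : Set ℂ, Q = {u : ℂ | 0 < u.re} ∩ {u : ℂ | ta < u.im ∧ u.im < tb} :=
    ⟨_, rfl⟩
  have hQp : IsPreconnected (P '' Q) := by
    have hconv : Convex ℝ Q := by
      rw [hQ]
      refine (convex_halfSpace_re_gt 0).inter ?_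
      exact (convex_halfSpace_im_gt ta).inter (convex_halfSpace_im_lt tb)
    refine hconv.isPreconnected.image P (hP.diff.continuousOn.mono ?_)
    rw [hQ]
    exact fun u hu => hu.1
  obtain ⟨θ, hθ1, hθ2⟩ := exists_between h1
  have hQO : P '' Q ⊆ O := by
    refine hsub _ hQp ?_ ?_
    · rintro _ ⟨u, hu, rfl⟩ h
      rw [hQ] at hu
      obtain ⟨hu1, hu2, hu3⟩ := hu
      rcases hΓP u hu1 h with ⟨m, hm⟩ | ⟨m, hm⟩
      · have h4 : (0 : ℝ) < m := by linarith
        have h5 : (m : ℝ) < 1 := by linarith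
        have h6 : 0 < m := by exact_mod_cast h4
        have h7 : m < 1 := by exact_mod_cast h5
        omega
      · have h4 : (m : ℝ) < 0 := by linarith
        have h5 : (-1 : ℝ) < m := by linarith
        have h6 : m < 0 := by exact_mod_cast h4
        have h7 : -1 < m := by exact_mod_cast h5
        omega
    · have hN : {u : ℂ | ta < u.im ∧ u.im < tb} ∈ 𝓝 ((θ : ℂ) * Complex.I) := by
        refine IsOpen.mem_nhds ?_ ?_
        · exact (isOpen_lt continuous_const Complex.continuous_im).inter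
            (isOpen_lt Complex.continuous_im continuous_const)
        · have e : ((θ : ℂ) * Complex.I).im = θ := by simp
          show ta < ((θ : ℂ) * Complex.I).im ∧ ((θ : ℂ) * Complex.I).im < tb
          rw [e]
          exact ⟨hθ1, hθ2⟩
      obtain ⟨z, hz1, u, hu, rfl⟩ := mem_closure_iff.1 (hic θ _ hN) O hOo hqcO
      refine ⟨P u, ⟨u, ?_, rfl⟩, hz1⟩
      rw [hQ]
      exact ⟨hu.2, hu.1⟩
  -- the connected set
  obtain ⟨E, hE⟩ : ∃ E, E = κ ∪ End P ta qa ∪ End P tb qb := ⟨_, rfl⟩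
  have hEp : IsPreconnected E := by
    rw [hE]
    refine IsPreconnected.union qb (Or.inl hqκb) (Or.inl rfl) ?_ (end_pre hP lb)
    exact IsPreconnected.union qa hqκa (Or.inl rfl) hκp (end_pre hP la)
  have hEΓ : E ⊆ Γ := by
    rw [hE, hΓ]
    exact union_subset_union (union_subset_union_right _ (end_sub _ _ _)) (end_sub _ _ _)
  have hrayΓ : ∀ s : ℝ, 0 < s → P (s + tb * Complex.I) ∈ Γ := by
    intro s hs
    rw [hΓ]
    exact Or.inr (Or.inr ⟨s, hs, rfl⟩)
  have hrayΓ' : ∀ s : ℝ, 0 < s → P (s + ta * Complex.I) ∈ Γ := by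
    intro s hs
    rw [hΓ]
    exact Or.inl (Or.inr (Or.inr ⟨s, hs, rfl⟩))
  have hper : ∀ s : ℝ, P (s + ((ta + 1 : ℝ) : ℂ) * Complex.I) = P (s + ta * Complex.I) := by
    intro s
    have := per_ray hP s ta 1
    rwa [Int.cast_one] at this
  refine crs f P hd hP hinf O E 1 θ tb tc (ta + 1) hOo hOp hEp ?_ one_pos hθ2 h2 h3
    (by linarith) ?_ ?_ ?_ ?_ ?_
  · exact Set.disjoint_left.2 fun z hz hz' => hOΓ z hz (hEΓ hz')
  · intro s hs
    have hs0 : 0 < s := lt_of_lt_of_le one_pos hs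
    refine ⟨hQO ⟨_, ?_, rfl⟩, hrayc (Or.inr ⟨s, hs0, rfl⟩)⟩
    rw [hQ]
    refine ⟨ray_HP hs0 θ, ?_⟩
    show ta < ((s : ℂ) + θ * Complex.I).im ∧ ((s : ℂ) + θ * Complex.I).im < tb
    rw [ray_im]
    exact ⟨hθ1, hθ2⟩
  · intro s hs
    have hs0 : 0 < s := lt_of_lt_of_le one_pos hs
    refine ⟨fun h => hOΓ _ h (hrayΓ s hs0), fun h => hOΓ _ h ?_⟩
    rw [hper]
    exact hrayΓ' s hs0
  · rw [hE]
    exact Or.inr (Or.inr ⟨1, ⟨one_pos, le_rfl⟩, rfl⟩)
  · rw [hper, hE]
    exact Or.inl (Or.inr (Or.inr ⟨1, ⟨one_pos, le_rfl⟩, rfl⟩))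
  · intro u hu hPE
    have hu0 : 0 < u.re := lt_trans one_pos hu
    have hnK := not_K hP hu0
    rw [hE] at hPE
    rcases hPE with (h | h | ⟨s, hs, h⟩) | h | ⟨s, hs, h⟩
    · exact hnK (hκK h)
    · rw [mem_singleton_iff.1 h] at hnK
      exact hnK hqaK
    · obtain ⟨h4, -⟩ := inj' hP hu0 (by rw [ray_re]; exact hs.1) h.symm
      rw [ray_re] at h4
      have := hs.2
      linarith
    · rw [mem_singleton_iff.1 h] at hnK
      exact hnK hqbK
    · obtain ⟨h4, -⟩ := inj' hP hu0 (by rw [ray_re]; exact hs.1) h.symm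
      rw [ray_re] at h4
      have := hs.2
      linarith

/-- The points of an impression are cluster values. -/
theorem imp_closure {ψ : ℂ → ℂ} {θ : ℝ} {z : ℂ} (hz : z ∈ impression ψ θ) {N : Set ℂ}
    (hN : N ∈ 𝓝 ((θ : ℂ) * Complex.I)) :
    z ∈ closure ((fun u => ψ (Complex.exp (2 * Real.pi * u))) '' (N ∩ HP)) := by
  have e : Complex.exp (2 * Real.pi * θ * Complex.I) = HalfRow.E ((θ : ℂ) * Complex.I) := by
    rw [HalfRow.E]
    congr 1
    ring
  have h1 : ClusterPt z (map ψ (𝓝[HalfRow.S] (HalfRow.E ((θ : ℂ) * Complex.I)))) := by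
    rw [← e]
    exact hz
  rw [← HalfRow.map_within, Filter.map_map] at h1
  refine mem_closure_iff_clusterPt.2 (h1.mono ?_)
  rw [le_principal_iff]
  refine mem_of_superset (image_mem_map (inter_mem_nhdsWithin HP hN)) ?_
  rintro _ ⟨u, hu, rfl⟩
  exact ⟨u, ⟨hu.2, hu.1⟩, rfl⟩

theorem imp_julia (hd : 2 ≤ f.natDegree) {ψ : ℂ → ℂ}
    (hP : Half f (fun u => ψ (Complex.exp (2 * Real.pi * u)))) {θ : ℝ} {z : ℂ}
    (hz : z ∈ impression ψ θ) : z ∈ julia f := by
  have hv0 : ∀ n : ℕ, (0 : ℝ) < 1 / ((n : ℝ) + 1) := fun n => by positivity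
  have key : ∀ n : ℕ, ∃ u : ℂ, u ∈ HP ∧ u.re < 1 / ((n : ℝ) + 1) ∧
      dist (ψ (Complex.exp (2 * Real.pi * u))) z < 1 / ((n : ℝ) + 1) := by
    intro n
    have hN : {u : ℂ | u.re < 1 / ((n : ℝ) + 1)} ∈ 𝓝 ((θ : ℂ) * Complex.I) := by
      refine (isOpen_lt Complex.continuous_re continuous_const).mem_nhds ?_
      have e : ((θ : ℂ) * Complex.I).re = 0 := by simp
      show ((θ : ℂ) * Complex.I).re < 1 / ((n : ℝ) + 1)
      rw [e]
      exact hv0 n
    obtain ⟨_, ⟨u, ⟨hu1, hu2⟩, rfl⟩, hd⟩ := Metric.mem_closure_iff.1 (imp_closure hz hN) _ (hv0 n)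
    refine ⟨u, hu2, hu1, ?_⟩
    rw [dist_comm]
    exact hd
  choose u hu1 hu2 hu3 using key
  refine Jul.lim_julia hd hP u z hu1 ?_ ?_
  · exact squeeze_zero (fun n => le_of_lt (hu1 n)) (fun n => (hu2 n).le)
      tendsto_one_div_add_atTop_nhds_zero_nat
  · rw [tendsto_iff_dist_tendsto_zero]
    exact squeeze_zero (fun n => dist_nonneg) (fun n => (hu3 n).le)
      tendsto_one_div_add_atTop_nhds_zero_nat

end Thr58

open Thr58 in
/-- Row THR. -/
theorem thr (crs : CrsStatement) : ThrStatement := by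
  intro f ψ hd hψ Δ x q t hΔo hΔp hΔK hx hxF hq hacs hland
  have hP := (half f ψ hd hψ).1
  have hinf := inf f ψ hψ
  have hKc : IsClosed (filledJulia f) := Jul.closed f hd
  have hΔi : Δ ⊆ interior (filledJulia f) := hΔo.subset_interior_iff.2 hΔK
  have hJi : ∀ z ∈ julia f, z ∉ interior (filledJulia f) := fun z hz => hz.2
  have hqΔ : ∀ i, q i ∉ Δ := fun i h => hJi _ (land_julia hd hP (hland i)) (hΔi h)
  -- the landing points are in all impressions
  have himp : ∀ (i : Fin 3) (θ : ℝ), q i ∈ impression ψ θ := by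
    intro i θ
    obtain ⟨κ, k1, k2, k3, k4, p, p1, p2⟩ := hacs i
    have hne := hxF θ (Δ ∪ κ ∪ Ray (fun u => ψ (Complex.exp (2 * Real.pi * u))) (t i) (q i))
      ?_ ?_ (Or.inl (Or.inl hx))
    · obtain ⟨z, hz, hzi⟩ := hne
      have hzJ := imp_julia hd hP hzi
      rcases hz with (h | h) | h | ⟨s, hs, rfl⟩
      · exact absurd (hΔi h) (hJi z hzJ)
      · rcases k4 h with h | h
        · exact absurd (hΔi h) (hJi z hzJ)
        · rw [← mem_singleton_iff.1 h]; exact hzi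
      · rw [← mem_singleton_iff.1 h]; exact hzi
      · exact absurd (hKc.frontier_subset hzJ) (not_K hP (by rw [ray_re]; exact hs))
    · refine IsPreconnected.union (q i) (Or.inr k3) (Or.inl rfl) ?_ (ray_pre hP (hland i))
      exact IsPreconnected.union p p2 p1 hΔp k2
    · intro hb
      obtain ⟨R, hR⟩ := hb.exists_norm_le
      obtain ⟨M, hM⟩ := hinf (R + 1)
      have h1 := hM (((max M 1 : ℝ) : ℂ) + t i * Complex.I) (by
        rw [ray_re]
        exact le_max_left _ _)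
      have h2 := hR _ (Or.inr (Or.inr ⟨max M 1, lt_of_lt_of_le one_pos (le_max_right M 1), rfl⟩))
      linarith
  -- angles in `[0, 1)`
  obtain ⟨P, hPd⟩ : ∃ P : ℂ → ℂ, P = fun u => ψ (Complex.exp (2 * Real.pi * u)) := ⟨_, rfl⟩
  rw [← hPd] at hP
  have hinf' : ∀ R : ℝ, ∃ M : ℝ, ∀ u : ℂ, M ≤ u.re → R ≤ ‖P u‖ := by
    rw [hPd]
    exact hinf
  have hl : ∀ i, Land P (Int.fract (t i)) (q i) := by
    intro i
    have h1 : Land P (t i) (q i) := by
      rw [hPd]
      exact hland i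
    refine Tendsto.congr (fun s => ?_) h1
    have h2 := per_ray hP s (t i) (-⌊t i⌋)
    rw [← h2]
    congr 3
    rw [Int.fract]
    push_cast
    ring
  have hne : ∀ i j, i ≠ j → Int.fract (t i) ≠ Int.fract (t j) := by
    intro i j hij h
    have h1 := hl i
    rw [h] at h1
    exact hij (hq (tendsto_nhds_unique h1 (hl j)))
  have hcl : ∀ (i : Fin 3) (θ : ℝ), ∀ N ∈ 𝓝 ((θ : ℂ) * Complex.I),
      q i ∈ closure (P '' (N ∩ HP)) := by
    intro i θ N hN
    rw [hPd]
    exact imp_closure (himp i θ) hN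
  have fin : ∀ i j k : Fin 3, k ≠ i → k ≠ j → Int.fract (t i) < Int.fract (t j) →
      Int.fract (t j) < Int.fract (t k) → False := by
    intro i j k h1 h2 h3 h4
    refine core crs hd hP hinf' hΔo hΔp hΔK (fun h => h1 (hq h)) (fun h => h2 (hq h)) (hqΔ k)
      (hacs i) (hacs j) (hl i) (hl j) (hl k) (hcl k) h3 h4 ?_
    have h5 := Int.fract_lt_one (t k)
    have h6 := Int.fract_nonneg (t i)
    linarith
  rcases lt_or_gt_of_ne (hne 0 1 (by decide)) with h01 | h01 <;>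
  rcases lt_or_gt_of_ne (hne 1 2 (by decide)) with h12 | h12 <;>
  rcases lt_or_gt_of_ne (hne 0 2 (by decide)) with h02 | h02
  · exact fin 0 1 2 (by decide) (by decide) h01 h12
  · exact absurd (h01.trans h12) (not_lt.2 (le_of_lt h02))
  · exact fin 0 2 1 (by decide) (by decide) h02 h12
  · exact fin 2 0 1 (by decide) (by decide) h02 h01
  · exact fin 1 0 2 (by decide) (by decide) h01 h02
  · exact fin 1 2 0 (by decide) (by decide) h12 h02
  · exact absurd (h12.trans h01) (not_lt.2 (le_of_lt h02))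
  · exact fin 2 1 0 (by decide) (by decide) h12 h01

end Pool.Agent.Imp
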