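import Pool.Agent.Lib.MP_1c105c_an.Defs12
import Pool.Agent.Lib.MP_1c105c_an.Thr

/-! MP_1c105c_an, row CRXD: the rays that land in a connected open set are in one arc of length
`1 / d`. -/

set_option autoImplicit false

open Filter Topology Set Polynomial

namespace Pool.Agent.Imp

namespace Crxd60

open Thr58

variable {f : ℂ[X]} {P : ℂ → ℂ}

/-- The open strip. -/
def Sp (a b : ℝ) : Set ℂ := {u | 0 < u.re ∧ a < u.im ∧ u.im < b}

theorem Sp_HP (a b : ℝ) : Sp a b ⊆ HP := fun _ hu => hu.1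

theorem Sp_open (a b : ℝ) : IsOpen (Sp a b) :=
  (isOpen_lt continuous_const Complex.continuous_re).inter
    ((isOpen_lt continuous_const Complex.continuous_im).inter
      (isOpen_lt Complex.continuous_im continuous_const))

theorem Sp_pre (hP : Half f P) (a b : ℝ) : IsPreconnected (P '' Sp a b) := by
  have hconv : Convex ℝ (Sp a b) :=
    (convex_halfSpace_re_gt 0).inter ((convex_halfSpace_im_gt a).inter (convex_halfSpace_im_lt b))
  exact hconv.isPreconnected.image P (hP.diff.continuousOn.mono (Sp_HP a b))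

theorem semi_ray (hP : Half f P) {x : ℝ} (hx : 0 < x) (t : ℝ) :
    f.eval (P (x + t * Complex.I)) =
      P (((f.natDegree * x : ℝ) : ℂ) + ((f.natDegree * t : ℝ) : ℂ) * Complex.I) := by
  rw [hP.semi _ (ray_HP hx t)]
  congr 1
  push_cast
  ring

theorem deg_pos (hd : 2 ≤ f.natDegree) : (2 : ℝ) ≤ f.natDegree := by exact_mod_cast hd

/-- A ray that lands in `D` is not mapped to the ray of angle `s`. -/
theorem angle_ne (hd : 2 ≤ f.natDegree) (hP : Half f P) {E D : Set ℂ} {w : ℂ} {s : ℝ}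
    (hwE : w ∈ E) (hws : Land P s w) (hDE : ∀ z ∈ D, f.eval z ∉ E) {t : ℝ} {z : ℂ} (hz : z ∈ D)
    (ht : Land P t z) (m : ℤ) : f.natDegree * t ≠ s + m := by
  intro h
  have hd' := deg_pos hd
  have h1 : Tendsto (fun x : ℝ => f.eval (P (x + t * Complex.I))) (𝓝[>] 0) (𝓝 (f.eval z)) :=
    (f.continuous.tendsto z).comp ht
  have h3 : Tendsto (fun x : ℝ => f.natDegree * x) (𝓝[>] 0) (𝓝[>] 0) := by
    refine tendsto_nhdsWithin_iff.mpr ⟨?_, ?_⟩
    · have hc : Continuous fun x : ℝ => (f.natDegree : ℝ) * x := by fun_prop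
      have := hc.tendsto 0
      rw [mul_zero] at this
      exact this.mono_left nhdsWithin_le_nhds
    · filter_upwards [self_mem_nhdsWithin] with x hx
      have hx' : 0 < x := hx
      show 0 < (f.natDegree : ℝ) * x
      exact mul_pos (by linarith) hx'
  have h2 : Tendsto (fun x : ℝ => f.eval (P (x + t * Complex.I))) (𝓝[>] 0) (𝓝 w) := by
    have h4 : Tendsto (fun x : ℝ => P (((f.natDegree * x : ℝ) : ℂ) + s * Complex.I)) (𝓝[>] 0)
        (𝓝 w) := Tendsto.comp (g := fun x : ℝ => P (x + s * Complex.I)) hws h3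
    refine h4.congr' ?_
    filter_upwards [self_mem_nhdsWithin] with x hx
    have hx' : 0 < x := hx
    rw [semi_ray hP hx' t, h, per_ray hP]
  have h4 := tendsto_nhds_unique h1 h2
  refine hDE z hz ?_
  rw [h4]
  exact hwE

/-- Rays in two different arcs do not land in `D`. -/
theorem key (crs : CrsStatement) (quad : QuadStatement) (hd : 2 ≤ f.natDegree) (hP : Half f P)
    (hinf : ∀ R : ℝ, ∃ M : ℝ, ∀ u : ℂ, M ≤ u.re → R ≤ ‖P u‖) {c w : ℂ} {s : ℝ} {E D : Set ℂ}
    (hc : ∀ z, f.derivative.eval z = 0 → z = c) (hE : IsPreconnected E)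
    (hEK : E ⊆ filledJulia f)
    (hcE : f.eval c ∈ E) (hwE : w ∈ E) (hws : Land P s w) (hDo : IsOpen D)
    (hDp : IsPreconnected D) (hDE : ∀ z ∈ D, f.eval z ∉ E)
    (hDr : ∀ z ∈ D, ∀ x : ℝ, 0 < x → f.eval z ≠ P (x + s * Complex.I)) {t₁ t₂ : ℝ} {z₁ z₂ : ℂ}
    (hz₁ : z₁ ∈ D) (hz₂ : z₂ ∈ D) (l₁ : Land P t₁ z₁) (l₂ : Land P t₂ z₂) {k l : ℤ} (hkl : k < l)
    (hlk : l < k + f.natDegree) (h1 : (s + k) / f.natDegree < t₁)
    (h2 : t₁ < (s + (k + 1 : ℤ)) / f.natDegree) (h3 : (s + l) / f.natDegree < t₂)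
    (h4 : t₂ < (s + (l + 1 : ℤ)) / f.natDegree) : False := by
  have hd' := deg_pos hd
  have hd0 : (0 : ℝ) < f.natDegree := by linarith
  -- the connected set
  obtain ⟨T, hT⟩ : ∃ T, T = E ∪ End P s w := ⟨_, rfl⟩
  have hTp : IsPreconnected T := by
    rw [hT]
    exact IsPreconnected.union w hwE (Or.inl rfl) hE (end_pre hP hws)
  have hcT : f.eval c ∈ T := by
    rw [hT]
    exact Or.inl hcE
  have hFp := quad f c T hd hc hTp hcT
  have hTP : ∀ u : ℂ, 0 < u.re → P u ∈ T → u.re ≤ 1 ∧ ∃ m : ℤ, u.im = s + m := by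
    intro u hu h
    have hnK := not_K hP hu
    rw [hT] at h
    rcases h with h | h | ⟨x, hx, h⟩
    · exact absurd (hEK h) hnK
    · rw [mem_singleton_iff.1 h] at hnK
      exact absurd (hEK hwE) hnK
    · obtain ⟨h5, m, hm⟩ := inj' hP hu (by rw [ray_re]; exact hx.1) h.symm
      rw [ray_re] at h5
      rw [ray_im] at hm
      exact ⟨h5.le.trans hx.2, m, hm⟩
  have hFP : ∀ u : ℂ, 0 < u.re → f.eval (P u) ∈ T →
      f.natDegree * u.re ≤ 1 ∧ ∃ m : ℤ, f.natDegree * u.im = s + m := by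
    intro u hu h
    rw [hP.semi u hu] at h
    have e1 : ((f.natDegree : ℂ) * u).re = f.natDegree * u.re := by simp
    have e2 : ((f.natDegree : ℂ) * u).im = f.natDegree * u.im := by simp
    have h5 := hTP ((f.natDegree : ℂ) * u) (by rw [e1]; exact mul_pos hd0 hu) h
    rw [e1, e2] at h5
    exact h5
  -- the open set
  obtain ⟨O, hO⟩ : ∃ O, O = (D ∪ P '' Sp ((s + k) / f.natDegree)
    ((s + (k + 1 : ℤ)) / f.natDegree)) ∪
    P '' Sp ((s + l) / f.natDegree) ((s + (l + 1 : ℤ)) / f.natDegree) := ⟨_, rfl⟩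
  have hOo : IsOpen O := by
    rw [hO]
    exact (hDo.union (Jul.half_open hP _ (Sp_HP _ _) (Sp_open _ _))).union
      (Jul.half_open hP _ (Sp_HP _ _) (Sp_open _ _))
  have hmeet : ∀ (t a b : ℝ) (z : ℂ), z ∈ D → Land P t z → a < t → t < b →
      ∃ y, y ∈ D ∧ y ∈ P '' Sp a b := by
    intro t a b z hz ht ha hb
    obtain ⟨x, hx, hx0⟩ := ((Tendsto.eventually ht (hDo.mem_nhds hz)).and
      self_mem_nhdsWithin).exists
    refine ⟨_, hx, _, ⟨?_, ?_, ?_⟩, rfl⟩
    · rw [ray_re]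
      exact hx0
    · rw [ray_im]
      exact ha
    · rw [ray_im]
      exact hb
  have hOp : IsPreconnected O := by
    rw [hO]
    obtain ⟨y₁, hy₁, hy₁'⟩ := hmeet t₁ _ _ z₁ hz₁ l₁ h1 h2
    obtain ⟨y₂, hy₂, hy₂'⟩ := hmeet t₂ _ _ z₂ hz₂ l₂ h3 h4
    exact IsPreconnected.union y₂ (Or.inl hy₂) hy₂'
      (IsPreconnected.union y₁ hy₁ hy₁' hDp (Sp_pre hP _ _)) (Sp_pre hP _ _)
  have hSp : ∀ (k : ℤ) (u : ℂ), 0 < u.re →
      P u ∈ P '' Sp ((s + k) / f.natDegree) ((s + (k + 1 : ℤ)) / f.natDegree) →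
      ∀ m : ℤ, f.natDegree * u.im ≠ s + m := by
    rintro k u hu ⟨u', ⟨hu1, hu2, hu3⟩, he⟩ m hm
    obtain ⟨-, j, hj⟩ := inj' hP hu1 hu he
    rw [div_lt_iff₀ hd0] at hu2
    rw [lt_div_iff₀ hd0] at hu3
    rw [hj] at hu2 hu3
    have e : (u.im + j) * f.natDegree = s + ((m + j * f.natDegree : ℤ) : ℝ) := by
      push_cast
      linarith
    rw [e] at hu2 hu3
    have h7 : (k : ℝ) < ((m + j * f.natDegree : ℤ) : ℝ) := by linarith
    have h8 : ((m + j * f.natDegree : ℤ) : ℝ) < ((k + 1 : ℤ) : ℝ) := by linarith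
    have h9 : k < m + j * f.natDegree := by exact_mod_cast h7
    have h10 : m + j * f.natDegree < k + 1 := by exact_mod_cast h8
    omega
  have hdis : Disjoint O {z | f.eval z ∈ T} := by
    refine Set.disjoint_left.2 fun z hz hz' => ?_
    have hz'' : f.eval z ∈ T := hz'
    rw [hO] at hz
    rcases hz with (hz | ⟨u, hu, rfl⟩) | ⟨u, hu, rfl⟩
    · rw [hT] at hz''
      rcases hz'' with h | h | ⟨x, hx, h⟩
      · exact hDE z hz h
      · refine hDE z hz ?_
        rw [mem_singleton_iff.1 h]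
        exact hwE
      · exact hDr z hz x hx.1 h.symm
    · obtain ⟨-, m, hm⟩ := hFP u hu.1 hz''
      exact hSp k u hu.1 ⟨u, hu, rfl⟩ m hm
    · obtain ⟨-, m, hm⟩ := hFP u hu.1 hz''
      exact hSp l u hu.1 ⟨u, hu, rfl⟩ m hm
  -- rays that are mapped to the ray of angle `s`
  have hray : ∀ (x t : ℝ) (m : ℤ), 0 < x → f.natDegree * t = s + m →
      f.eval (P (x + t * Complex.I)) = P (((f.natDegree * x : ℝ) : ℂ) + s * Complex.I) := by
    intro x t m hx h
    rw [semi_ray hP hx t, h, per_ray hP]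
  have hrayO : ∀ (x t : ℝ) (m : ℤ), 0 < x → f.natDegree * t = s + m →
      P (x + t * Complex.I) ∉ O := by
    intro x t m hx h hmem
    have hr0 : 0 < ((x : ℂ) + t * Complex.I).re := by
      rw [ray_re]
      exact hx
    have hi : f.natDegree * ((x : ℂ) + t * Complex.I).im = s + m := by
      rw [ray_im]
      exact h
    rw [hO] at hmem
    rcases hmem with (hz | hz) | hz
    · exact hDr _ hz (f.natDegree * x) (mul_pos hd0 hx) (hray x t m hx h)
    · exact hSp k _ hr0 hz m hi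
    · exact hSp l _ hr0 hz m hi
  have hrayT : ∀ (t : ℝ) (m : ℤ), f.natDegree * t = s + m →
      f.eval (P (((1 / f.natDegree : ℝ) : ℂ) + t * Complex.I)) ∈ T := by
    intro t m h
    rw [hray (1 / f.natDegree) t m (by positivity) h, hT]
    have e : (f.natDegree : ℝ) * (1 / f.natDegree) = 1 := by
      field_simp
    rw [e]
    exact Or.inr (Or.inr ⟨1, ⟨one_pos, le_rfl⟩, rfl⟩)
  have q1 : f.natDegree * ((s + (k + 1 : ℤ)) / f.natDegree) = s + ((k + 1 : ℤ) : ℝ) := by
    field_simp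
  have q2 : f.natDegree * ((s + k) / f.natDegree + 1) = s + ((k + f.natDegree : ℤ) : ℝ) := by
    push_cast
    field_simp
    ring
  have r1 : (s + (k + 1 : ℤ)) / f.natDegree < t₂ := by
    refine lt_of_le_of_lt ?_ h3
    have : ((k + 1 : ℤ) : ℝ) ≤ l := by exact_mod_cast hkl
    gcongr
  have r2 : t₂ < (s + k) / f.natDegree + 1 := by
    refine lt_of_lt_of_le h4 ?_
    have h5 : ((l + 1 : ℤ) : ℝ) ≤ ((k + f.natDegree : ℤ) : ℝ) := by exact_mod_cast hlk
    have e : (s + k) / f.natDegree + 1 = (s + ((k + f.natDegree : ℤ) : ℝ)) / f.natDegree := by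
      push_cast
      field_simp
      ring
    rw [e]
    gcongr
  refine crs f P hd hP hinf O {z | f.eval z ∈ T} (1 / f.natDegree) t₁
    ((s + (k + 1 : ℤ)) / f.natDegree) t₂ ((s + k) / f.natDegree + 1) hOo
    hOp hFp hdis (by positivity) h2 r1 r2 (by linarith) ?_ ?_ ?_ ?_ ?_
  · intro x hx
    have hx0 : 0 < x := lt_of_lt_of_le (by positivity) hx
    refine ⟨?_, ?_⟩
    · rw [hO]
      refine Or.inl (Or.inr ⟨_, ⟨?_, ?_, ?_⟩, rfl⟩)
      · rw [ray_re]
        exact hx0
      · rw [ray_im]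
        exact h1
      · rw [ray_im]
        exact h2
    · rw [hO]
      refine Or.inr ⟨_, ⟨?_, ?_, ?_⟩, rfl⟩
      · rw [ray_re]
        exact hx0
      · rw [ray_im]
        exact h3
      · rw [ray_im]
        exact h4
  · intro x hx
    have hx0 : 0 < x := lt_of_lt_of_le (by positivity) hx
    exact ⟨hrayO x _ _ hx0 q1, hrayO x _ _ hx0 q2⟩
  · exact hrayT _ _ q1
  · exact hrayT _ _ q2
  · intro u hu hPu
    have hu0 : 0 < u.re := lt_trans (by positivity) hu
    obtain ⟨h5, -⟩ := hFP u hu0 hPu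
    rw [div_lt_iff₀ hd0] at hu
    linarith

end Crxd60

open Thr58 Crxd60

theorem crxd (crs : CrsStatement) (quad : QuadStatement) : CrxdStatement := by
  intro f P hd hP hinf c w s E D hc hE hEK hcE hwE hws hDo hDp hDE hDr
  have hd' := deg_pos hd
  have hd0 : (0 : ℝ) < f.natDegree := by linarith
  by_cases hA : ∃ (t : ℝ) (z : ℂ), z ∈ D ∧ Land P t z
  · obtain ⟨t₁, z₁, hz₁, l₁⟩ := hA
    obtain ⟨k, hk⟩ : ∃ k : ℤ, k = ⌊f.natDegree * t₁ - s⌋ := ⟨_, rfl⟩
    have k1 : (k : ℝ) ≤ f.natDegree * t₁ - s := by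
      rw [hk]
      exact Int.floor_le _
    have k2 : f.natDegree * t₁ - s < k + 1 := by
      rw [hk]
      exact Int.lt_floor_add_one _
    have k3 := angle_ne hd hP hwE hws hDE hz₁ l₁ k
    have k4 : (s + k) / f.natDegree < t₁ := by
      rw [div_lt_iff₀ hd0]
      refine lt_of_le_of_ne (by linarith) fun h => k3 ?_
      linarith
    have k5 : t₁ < (s + (k + 1 : ℤ)) / f.natDegree := by
      rw [lt_div_iff₀ hd0]
      push_cast
      linarith
    refine ⟨(s + k) / f.natDegree, fun t z hz ht => ?_⟩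
    obtain ⟨φ, hφ⟩ : ∃ φ, φ = Int.fract (t - (s + k) / f.natDegree) := ⟨_, rfl⟩
    obtain ⟨g, hg⟩ : ∃ g : ℤ, g = ⌊t - (s + k) / f.natDegree⌋ := ⟨_, rfl⟩
    have e1 : t - (s + k) / f.natDegree = g + φ := by
      rw [hg, hφ]
      exact (Int.floor_add_fract _).symm
    have φ0 : 0 ≤ φ := by
      rw [hφ]
      exact Int.fract_nonneg _
    have φ1 : φ < 1 := by
      rw [hφ]
      exact Int.fract_lt_one _
    rw [← hφ]
    have e2 : f.natDegree * t = s + k + g * f.natDegree + f.natDegree * φ := by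
      have : t = (s + k) / f.natDegree + (g + φ) := by linarith
      rw [this]
      field_simp
      ring
    obtain ⟨j, hj⟩ : ∃ j : ℤ, j = ⌊f.natDegree * φ⌋ := ⟨_, rfl⟩
    have j1 : (j : ℝ) ≤ f.natDegree * φ := by
      rw [hj]
      exact Int.floor_le _
    have j2 : f.natDegree * φ < j + 1 := by
      rw [hj]
      exact Int.lt_floor_add_one _
    have j0 : 0 ≤ j := by
      rw [hj]
      exact Int.floor_nonneg.2 (mul_nonneg hd0.le φ0)
    have j3 : (j : ℝ) < f.natDegree * φ := by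
      refine lt_of_le_of_ne j1 fun h => ?_
      refine angle_ne hd hP hwE hws hDE hz ht (k + g * f.natDegree + j) ?_
      rw [e2, ← h]
      push_cast
      ring
    have j4 : j < f.natDegree := by
      have h5 : (j : ℝ) < f.natDegree := by nlinarith
      exact_mod_cast h5
    rcases eq_or_lt_of_le j0 with h0 | h0
    · rw [← h0] at j2 j3
      rw [Int.cast_zero] at j2 j3
      refine ⟨(mul_pos_iff_of_pos_left hd0).1 j3, ?_⟩
      rw [lt_div_iff₀ hd0]
      linarith
    · exfalso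
      have l₂ : Land P ((s + k) / f.natDegree + φ) z := by
        have e : (s + k) / f.natDegree + φ = t + ((-g : ℤ) : ℝ) := by
          push_cast
          linarith
        rw [e]
        refine Tendsto.congr (fun x => ?_) ht
        exact (per_ray hP x t _).symm
      refine key crs quad hd hP hinf hc hE hEK hcE hwE hws hDo hDp hDE hDr hz₁ hz l₁ l₂
        (k := k) (l := k + j) (by omega) (by omega) k4 k5 ?_ ?_
      · rw [div_lt_iff₀ hd0]
        have e : ((s + k) / f.natDegree + φ) * f.natDegree = s + k + f.natDegree * φ := by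
          field_simp
        rw [e]
        push_cast
        linarith
      · rw [lt_div_iff₀ hd0]
        have e : ((s + k) / f.natDegree + φ) * f.natDegree = s + k + f.natDegree * φ := by
          field_simp
        rw [e]
        push_cast
        linarith
  · exact ⟨0, fun t z hz ht => absurd ⟨t, z, hz, ht⟩ hA⟩

end Pool.Agent.Imp
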