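import Mathlib

/-! MP_1c105c_an: impressions of external rays of polynomials (definitions and interface). -/

set_option autoImplicit false

open Filter Topology Set Polynomial

namespace Pool.Agent.Imp

/-- The filled Julia set of a polynomial: the points with bounded forward orbit. -/
def filledJulia (f : ℂ[X]) : Set ℂ :=
  {z | ∃ R : ℝ, ∀ n : ℕ, ‖(fun w => f.eval w)^[n] z‖ ≤ R}

/-- `ψ` is the inverse of the Böttcher map of `f`: a conformal isomorphism of `{|w| > 1}` onto the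
complement of the filled Julia set, which fixes `∞` and carries `w ↦ w ^ d` to `f`. -/
structure IsInverseBoettcher (f : ℂ[X]) (ψ : ℂ → ℂ) : Prop where
  differentiableOn : DifferentiableOn ℂ ψ {w | 1 < ‖w‖}
  injOn : Set.InjOn ψ {w | 1 < ‖w‖}
  image_eq : ψ '' {w | 1 < ‖w‖} = (filledJulia f)ᶜ
  tendsto : Tendsto ψ (Bornology.cobounded ℂ) (Bornology.cobounded ℂ)
  semiconj : ∀ w : ℂ, 1 < ‖w‖ → f.eval (ψ w) = ψ (w ^ f.natDegree)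

/-- The external ray of angle `θ` lands. -/
def RayLands (ψ : ℂ → ℂ) (θ : ℝ) : Prop :=
  ∃ z : ℂ, Tendsto (fun r : ℝ => ψ (r * Complex.exp (2 * Real.pi * θ * Complex.I)))
    (𝓝[>] 1) (𝓝 z)

/-- The impression of the angle `θ` (the cluster set of `ψ` at `exp (2 π i θ)`) is one point:
`ψ` has a limit there. -/
def TrivialImpression (ψ : ℂ → ℂ) (θ : ℝ) : Prop :=
  ∃ z : ℂ, Tendsto ψ (𝓝[{w : ℂ | 1 < ‖w‖}] Complex.exp (2 * Real.pi * θ * Complex.I)) (𝓝 z)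

/-! ### The half plane model -/

/-- The right half plane. -/
def HP : Set ℂ := {u | 0 < u.re}

/-- The half plane model `P u = ψ (exp (2 π u))`. -/
structure Half (f : ℂ[X]) (P : ℂ → ℂ) : Prop where
  diff : DifferentiableOn ℂ P HP
  inj : ∀ u ∈ HP, ∀ v ∈ HP, P u = P v → ∃ j : ℤ, u = v + j * Complex.I
  per : ∀ u, P (u + Complex.I) = P u
  range : P '' HP = (filledJulia f)ᶜ
  semi : ∀ u ∈ HP, f.eval (P u) = P (f.natDegree * u)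
  bdd : ∃ R : ℝ, ∀ u : ℂ, 0 < u.re → u.re ≤ 1 → ‖P u‖ ≤ R

/-- `P` has the (unrestricted) limit `z` at the boundary point `t i`. -/
def HasLim (P : ℂ → ℂ) (t : ℝ) (z : ℂ) : Prop :=
  Tendsto P (𝓝[HP] ((t : ℂ) * Complex.I)) (𝓝 z)

/-- The oscillation of `P` at the boundary point `t i` is at most `δ`. -/
def Osc (P : ℂ → ℂ) (δ t : ℝ) : Prop :=
  ∃ N ∈ 𝓝 ((t : ℂ) * Complex.I), ∀ u ∈ N ∩ HP, ∀ v ∈ N ∩ HP, ‖P u - P v‖ ≤ δ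

/-! ### Rows -/

/-- HALF: from `ψ` to the half plane. -/
def HalfStatement : Prop :=
  ∀ (f : ℂ[X]) (ψ : ℂ → ℂ), 2 ≤ f.natDegree → IsInverseBoettcher f ψ →
    Half f (fun u => ψ (Complex.exp (2 * Real.pi * u))) ∧
    (∀ θ : ℝ, TrivialImpression ψ θ ↔
      ∃ z, HasLim (fun u => ψ (Complex.exp (2 * Real.pi * u))) θ z) ∧
    (∀ θ : ℝ, RayLands ψ θ →
      ∃ z, Tendsto (fun s : ℝ => (fun u => ψ (Complex.exp (2 * Real.pi * u)))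
        (s + θ * Complex.I)) (𝓝[>] 0) (𝓝 z))

/-- INV: invariance. -/
def InvStatement : Prop :=
  ∀ (f : ℂ[X]) (P : ℂ → ℂ), 2 ≤ f.natDegree → Half f P →
    (∀ (t : ℝ) (z : ℂ), HasLim P (t + 1) z ↔ HasLim P t z) ∧
    (∀ (δ t : ℝ), Osc P δ (t + 1) ↔ Osc P δ t) ∧
    (∀ (t : ℝ) (z : ℂ), HasLim P t z → HasLim P (f.natDegree * t) (f.eval z)) ∧
    (∀ (t : ℝ) (z : ℂ), HasLim P (f.natDegree * t) z → ∃ z', f.eval z' = z ∧ HasLim P t z') ∧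
    (∀ t : ℝ, (∃ z, HasLim P t z) ↔ ∀ δ : ℝ, 0 < δ → Osc P δ t)

/-- BAI: if every ray lands, some impression is trivial. -/
def BaireStatement : Prop :=
  ∀ (P : ℂ → ℂ), ContinuousOn P HP →
    (∀ t : ℝ, ∃ z, Tendsto (fun s : ℝ => P (s + t * Complex.I)) (𝓝[>] 0) (𝓝 z)) →
    ∃ (t : ℝ) (z : ℂ), HasLim P t z

/-- RES: one trivial impression gives a residual set of them. -/
def ResStatement : Prop :=
  ∀ (f : ℂ[X]) (P : ℂ → ℂ), 2 ≤ f.natDegree → Half f P → (∃ (t : ℝ) (z : ℂ), HasLim P t z) →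
    {t : ℝ | ∃ z, HasLim P t z} ∈ residual ℝ

/-- EXC: the limits are not contained in a finite set. -/
def ExcStatement : Prop :=
  ∀ (f : ℂ[X]) (P : ℂ → ℂ), 2 ≤ f.natDegree → Half f P → (∃ (t : ℝ) (z : ℂ), HasLim P t z) →
    ∀ E : Finset ℂ, ∃ (t : ℝ) (z : ℂ), HasLim P t z ∧ z ∉ E

/-- LIFT: inverse branches on balls. -/
def LiftStatement : Prop :=
  ∀ (f : ℂ[X]) (b : ℂ) (ρ : ℝ) (g : ℂ → ℂ), DifferentiableOn ℂ g (Metric.ball b ρ) →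
    (∀ z ∈ Metric.ball b ρ, ∀ c, f.derivative.eval c = 0 → f.eval c ≠ g z) →
    ∀ z₀ ∈ Metric.ball b ρ, ∀ w, f.eval w = g z₀ →
    ∃ h : ℂ → ℂ, DifferentiableOn ℂ h (Metric.ball b ρ) ∧
      (∀ z ∈ Metric.ball b ρ, f.eval (h z) = g z) ∧ h z₀ = w

/-- UNI: uniqueness of lifts. -/
def UniqStatement : Prop :=
  ∀ (F : ℂ[X]) (S : Set ℂ) (h₁ h₂ : ℂ → ℂ), IsPreconnected S → ContinuousOn h₁ S →
    ContinuousOn h₂ S → (∀ z ∈ S, F.eval (h₁ z) = F.eval (h₂ z)) →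
    (∀ z ∈ S, F.derivative.eval (h₁ z) ≠ 0) → ∀ z₀ ∈ S, h₁ z₀ = h₂ z₀ → Set.EqOn h₁ h₂ S

/-- AREA: few large disjoint univalent images. -/
def AreaStatement : Prop :=
  ∀ (ι : Type) (s : Finset ι) (g : ι → ℂ → ℂ) (b : ℂ) (r R δ : ℝ), 0 < r → 0 < δ →
    (∀ i ∈ s, DifferentiableOn ℂ (g i) (Metric.ball b (2 * r))) →
    (∀ i ∈ s, Set.InjOn (g i) (Metric.ball b (2 * r))) →
    (∀ i ∈ s, ∀ j ∈ s, i ≠ j →
      Disjoint (g i '' Metric.ball b (2 * r)) (g j '' Metric.ball b (2 * r))) →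
    (∀ i ∈ s, ∀ z ∈ Metric.ball b (2 * r), ‖g i z‖ ≤ R) →
    (∀ i ∈ s, ∃ z ∈ Metric.ball b r, ∃ z' ∈ Metric.ball b r, δ ≤ ‖g i z - g i z'‖) →
    (s.card : ℝ) ≤ 4 * R ^ 2 / δ ^ 2

/-- ABS: the combinatorial output of the inverse branches. -/
def AbsStatement : Prop :=
  ∀ (f : ℂ[X]) (P : ℂ → ℂ), 2 ≤ f.natDegree → Half f P → (∃ (t : ℝ) (z : ℂ), HasLim P t z) →
    ∃ (α β : ℝ) (W : ℕ → Finset ℕ), 0 ≤ α ∧ α < β ∧ β ≤ 1 ∧ W 0 = ∅ ∧ W 1 = ∅ ∧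
      (∀ k, (W k).card ≤ f.natDegree - 1) ∧
      ∀ δ : ℝ, 0 < δ → ∃ (M : ℕ) (B : ℕ → Finset ℕ), (∀ n, (B n).card ≤ M) ∧
        ∀ n j : ℕ, j < f.natDegree ^ n → j ∉ B n → (∀ k < n, j % f.natDegree ^ k ∉ W k) →
          ∀ t ∈ Set.Ioo α β, Osc P δ ((t + j) / f.natDegree ^ n)

/-- COUNT: words in base `D = d ^ p` all of whose occurrences of the digit `i₀` are bad. -/
def CountStatement : Prop :=
  ∀ (d p i₀ : ℕ) (W : ℕ → Finset ℕ), 2 ≤ d → 16 ≤ d ^ p → i₀ < d ^ p → W 0 = ∅ → W 1 = ∅ →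
    (∀ k, (W k).card ≤ d - 1) → ∀ m₀ : ℕ, ∃ C : ℝ, ∀ m : ℕ,
      (((Finset.range ((d ^ p) ^ m)).filter fun x => ∀ m' < m, m₀ ≤ m' →
        x / (d ^ p) ^ (m - m' - 1) % d ^ p = i₀ →
        ∃ k < p * m', x / (d ^ p) ^ (m - m') % d ^ k ∈ W k).card : ℝ) ≤
      C * ((d : ℝ) ^ p * (1 - 1 / (4 * (d : ℝ) ^ p))) ^ m

/-- HAU: Hausdorff measure zero from coverings. -/
def HauStatement : Prop :=
  ∀ (S : Set ℝ) (s : ℝ) (D : ℕ), 0 < s → 2 ≤ D → (c : ℕ → Finset ℕ) →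
    (Summable fun n => ((c n).card : ℝ) * ((D : ℝ) ^ n) ^ (-s)) →
    (∀ x ∈ S, ∃ᶠ n in atTop, ∃ j ∈ c n, x ∈ Set.Icc ((j : ℝ) / D ^ n) ((j + 1) / D ^ n)) →
    MeasureTheory.Measure.hausdorffMeasure s S = 0

/-- DIM: from ABS to the dimension. -/
def DimStatement : Prop :=
  ∀ (d : ℕ) (α β : ℝ) (W : ℕ → Finset ℕ) (V : ℝ → Set ℝ), 2 ≤ d → 0 ≤ α → α < β → β ≤ 1 →
    W 0 = ∅ → W 1 = ∅ → (∀ k, (W k).card ≤ d - 1) →
    (∀ δ δ' : ℝ, δ ≤ δ' → V δ ⊆ V δ') →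
    (∀ δ t : ℝ, t + 1 ∈ V δ ↔ t ∈ V δ) →
    (∀ δ : ℝ, 0 < δ → ∃ (M : ℕ) (B : ℕ → Finset ℕ), (∀ n, (B n).card ≤ M) ∧
        ∀ n j : ℕ, j < d ^ n → j ∉ B n → (∀ k < n, j % d ^ k ∉ W k) →
          ∀ t ∈ Set.Ioo α β, (t + j) / (d : ℝ) ^ n ∈ V δ) →
    dimH {t : ℝ | ∃ δ : ℝ, 0 < δ ∧ t ∉ V δ} < 1

/-- The target. -/
def Target : Prop :=
  ∀ (f : ℂ[X]) (ψ : ℂ → ℂ), 2 ≤ f.natDegree → IsInverseBoettcher f ψ →
    ((∀ θ : ℝ, RayLands ψ θ) ∨ ∃ θ : ℝ, TrivialImpression ψ θ) →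
    {θ : ℝ | TrivialImpression ψ θ} ∈ residual ℝ ∧ dimH {θ : ℝ | ¬ TrivialImpression ψ θ} < 1

end Pool.Agent.Imp
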