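import Pool.Agent.Lib.MP_1c105c_an.Defs9
import Pool.Agent.Lib.MP_1c105c_an.Nr

/-! MP_1c105c_an: the exceptional fixed point is irrationally indifferent (interface of
stage 10). -/

set_option autoImplicit false

open Filter Topology Set Polynomial

namespace Pool.Agent.Imp

/-- A piece: a bounded Fatou domain that `G` maps into itself. -/
structure Pc (G : ℂ[X]) (Δ : Set ℂ) : Prop where
  op : IsOpen Δ
  pre : IsPreconnected Δ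
  sub : Δ ⊆ filledJulia G
  inv : ∀ z ∈ Δ, G.eval z ∈ Δ
  rel : ∀ n : ℕ, IsOpen {z | z ∉ Δ ∧ (fun w => G.eval w)^[n] z ∈ Δ}

/-- `q` is joined to `Δ` by a continuum in `Δ ∪ {q}`. -/
def Acs (Δ : Set ℂ) (q : ℂ) : Prop :=
  ∃ κ : Set ℂ, IsCompact κ ∧ IsPreconnected κ ∧ q ∈ κ ∧ κ ⊆ Δ ∪ {q} ∧ (κ ∩ Δ).Nonempty

/-- The same with arbitrarily small continua. -/
def SAcs (Δ : Set ℂ) (q : ℂ) : Prop :=
  ∀ ρ : ℝ, 0 < ρ → ∃ κ : Set ℂ, IsCompact κ ∧ IsPreconnected κ ∧ q ∈ κ ∧ κ ⊆ Δ ∪ {q} ∧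
    (κ ∩ Δ).Nonempty ∧ κ ⊆ Metric.ball q ρ

/-- BAS: the component of the basin of an invariant open set. -/
def BasStatement : Prop :=
  ∀ (G : ℂ[X]) (U S : Set ℂ) (x₀ : ℂ), IsOpen U → Bornology.IsBounded U →
    (∀ z ∈ U, G.eval z ∈ U) → IsPreconnected S → S ⊆ U → x₀ ∈ S → G.eval x₀ ∈ S →
    ∃ Δ : Set ℂ, Pc G Δ ∧ S ⊆ Δ ∧ (∀ z ∈ Δ, ∃ n : ℕ, (fun w => G.eval w)^[n] z ∈ U) ∧
      ∀ T ⊆ U, IsPreconnected T → (T ∩ Δ).Nonempty → T ⊆ Δ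

/-- LFT2: inverse branches in a piece without critical points. -/
def Lft2Statement : Prop :=
  ∀ (F : ℂ[X]) (Δ : Set ℂ), 1 ≤ F.natDegree → IsOpen Δ → IsOpen {z | z ∉ Δ ∧ F.eval z ∈ Δ} →
    (∀ z ∈ Δ, F.eval z ∈ Δ → F.derivative.eval z ≠ 0) → ∀ (b : ℂ) (ρ : ℝ),
    Metric.ball b ρ ⊆ Δ → ∀ z₀ ∈ Metric.ball b ρ, ∀ w ∈ Δ, F.eval w = z₀ →
    ∃ h : ℂ → ℂ, DifferentiableOn ℂ h (Metric.ball b ρ) ∧
      (∀ z ∈ Metric.ball b ρ, h z ∈ Δ ∧ F.eval (h z) = z) ∧ h z₀ = w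

/-- ATA: attracting fixed points: a critical point and an access to a fixed point (from BAS,
LFT2, and `LiftStatement`, `UniqStatement`). -/
def AtaStatement : Prop :=
  ∀ (f : ℂ[X]) (α : ℂ), 2 ≤ f.natDegree → f.eval α = α → ‖f.derivative.eval α‖ < 1 →
    ∃ Δ : Set ℂ, Pc f Δ ∧ α ∈ Δ ∧ (∃ c ∈ Δ, f.derivative.eval c = 0) ∧
      ∃ q, f.eval q = q ∧ q ≠ α ∧ SAcs Δ q

/-- PET: an attracting petal at a parabolic fixed point. -/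
def PetStatement : Prop :=
  ∀ (G : ℂ[X]) (α : ℂ), 2 ≤ G.natDegree → G.eval α = α → G.derivative.eval α = 1 →
    ∃ (U : Set ℂ) (x₀ : ℂ) (c : ℝ), 0 < c ∧ IsOpen U ∧ Bornology.IsBounded U ∧ α ∉ U ∧
      x₀ ∈ U ∧ G.eval x₀ ≠ x₀ ∧ (∀ z ∈ U, G.eval z ∈ U) ∧ segment ℝ x₀ (G.eval x₀) ⊆ U ∧
      (∀ ε : ℝ, 0 < ε → ∃ N : ℕ, ∀ n ≥ N, ∀ z ∈ U, ‖(fun w => G.eval w)^[n] z - α‖ < ε) ∧
      ∃ N : ℕ, ∀ n ≥ N,
        Metric.ball ((fun w => G.eval w)^[n] x₀) (c * ‖(fun w => G.eval w)^[n] x₀ - α‖) ⊆ U ∧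
        ∀ y ∈ segment ℝ x₀ (G.eval x₀),
          ‖(fun w => G.eval w)^[n] y - (fun w => G.eval w)^[n] x₀‖ ≤
            c / 2 * ‖(fun w => G.eval w)^[n] x₀ - α‖

/-- PAC: parabolic fixed points: a critical point and an access (from BAS, LFT2, PET,
`UniqStatement`). -/
def PacStatement : Prop :=
  ∀ (G : ℂ[X]) (α : ℂ), 2 ≤ G.natDegree → G.eval α = α → G.derivative.eval α = 1 →
    ∃ Δ : Set ℂ, Pc G Δ ∧ SAcs Δ α ∧ ∃ c ∈ Δ, G.derivative.eval c = 0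

/-- ACC: one access to a fixed point gives many accesses to its preimages (from
`DegStatement`). -/
def AccStatement : Prop :=
  ∀ (G : ℂ[X]) (Δ : Set ℂ) (c q : ℂ), 2 ≤ G.natDegree → Pc G Δ → c ∈ Δ →
    G.derivative.eval c = 0 → G.eval q = q → q ∉ Δ → G.derivative.eval q ≠ 0 → SAcs Δ q →
    ∀ M : ℕ, ∃ S : Finset ℂ, M ≤ S.card ∧
      ∀ q' ∈ S, Acs Δ q' ∧ ∃ n : ℕ, (fun w => G.eval w)^[n] q' = q

/-- THR: three accesses from both sides are impossible if a point of `Δ` is in all filled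
impressions (from `CrsStatement`). -/
def ThrStatement : Prop :=
  ∀ (f : ℂ[X]) (ψ : ℂ → ℂ), 2 ≤ f.natDegree → IsInverseBoettcher f ψ → ∀ (Δ : Set ℂ) (x : ℂ)
    (q : Fin 3 → ℂ) (t : Fin 3 → ℝ), IsOpen Δ → IsPreconnected Δ → Δ ⊆ filledJulia f → x ∈ Δ →
    (∀ θ : ℝ, x ∈ filledImpression ψ θ) → Function.Injective q → (∀ i, Acs Δ (q i)) →
    (∀ i, Land (fun u => ψ (Complex.exp (2 * Real.pi * u))) (t i) (q i)) → False

/-- PRY: a ray lands at a parabolic fixed point (from `FixStatement`, see Nr.lean). -/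
def PryStatement : Prop :=
  ∀ (f : ℂ[X]) (P : ℂ → ℂ), 2 ≤ f.natDegree → Half f P → (∀ z, ¬ Bi P z) → ∀ (α : ℂ) (m : ℕ),
    1 ≤ m → f.eval α = α → f.derivative.eval α ^ m = 1 → ∃ t : ℝ, Land P t α

/-- IRR: the exceptional fixed point is irrationally indifferent (from ATA, PAC, ACC, THR, PRY,
ALP, DEL, RJU, LPB, JUL). -/
def IrrStatement : Prop :=
  ∀ (f : ℂ[X]) (ψ : ℂ → ℂ), 2 ≤ f.natDegree → IsInverseBoettcher f ψ →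
    (¬ ∃ z, Bi (fun u => ψ (Complex.exp (2 * Real.pi * u))) z) →
    (∀ (θ : ℝ) (c : ℂ), f.derivative.eval c = 0 → ∀ n : ℕ,
      (fun w => f.eval w)^[n + 1] c ∈ filledImpression ψ θ) → ∀ α, f.eval α = α →
    ‖f.derivative.eval α‖ ≤ 1 →
    (∀ (n : ℕ) (z : ℂ), 1 ≤ n → (fun w => f.eval w)^[n] z = z → z ≠ α →
      1 < ‖deriv (fun w => f.eval w)^[n] z‖) →
    ‖f.derivative.eval α‖ = 1 ∧ ∀ m : ℕ, 1 ≤ m → f.derivative.eval α ^ m ≠ 1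

end Pool.Agent.Imp
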