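import Pool.Agent.Lib.MP_1c105c_an.Defs2

/-! MP_1c105c_an: the zero-one law for local connectivity (interface of stage 3). -/

set_option autoImplicit false

open Filter Topology Set Polynomial

namespace Pool.Agent.Imp

/-- The impression of the angle `θ`: the cluster set of `ψ` at `exp (2 π i θ)`. -/
def impression (ψ : ℂ → ℂ) (θ : ℝ) : Set ℂ :=
  {z | MapClusterPt z (𝓝[{w : ℂ | 1 < ‖w‖}] Complex.exp (2 * Real.pi * θ * Complex.I)) ψ}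

/-- IMP: small impressions give small oscillation (may use `HalfStatement`). -/
def ImpStatement : Prop :=
  ∀ (f : ℂ[X]) (ψ : ℂ → ℂ), 2 ≤ f.natDegree → IsInverseBoettcher f ψ → ∀ θ δ : ℝ, 0 < δ →
    Metric.diam (impression ψ θ) < δ → Osc (fun u => ψ (Complex.exp (2 * Real.pi * u))) δ θ

/-- SML: if the oscillation is arbitrarily small somewhere, some impression is trivial
(may use `InvStatement`). -/
def SmlStatement : Prop :=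
  ∀ (f : ℂ[X]) (P : ℂ → ℂ), 2 ≤ f.natDegree → Half f P →
    (∀ δ : ℝ, 0 < δ → ∃ t : ℝ, Osc P δ t) → ∃ (t : ℝ) (z : ℂ), HasLim P t z

/-- APP: every point of `J` is approached from `Re u → 0` (may use `JulStatement`). -/
def AppStatement : Prop :=
  ∀ (f : ℂ[X]) (P : ℂ → ℂ), 2 ≤ f.natDegree → Half f P →
    (∀ R : ℝ, ∃ M : ℝ, ∀ u : ℂ, M ≤ u.re → R ≤ ‖P u‖) →
    ∀ z ∈ julia f, ∀ ε s : ℝ, 0 < ε → 0 < s → ∃ u : ℂ, 0 < u.re ∧ u.re < s ∧ ‖P u - z‖ < ε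

/-- CRO: short crosscuts (length and area). -/
def CroStatement : Prop :=
  ∀ (f : ℂ[X]) (P : ℂ → ℂ), 2 ≤ f.natDegree → Half f P → ∀ κ : ℝ, 0 < κ →
    ∃ s₀ : ℝ, 0 < s₀ ∧ ∀ u : ℂ, 0 < u.re → u.re < s₀ →
      ∃ (t₁ t₂ : ℝ) (a₁ a₂ : ℂ), t₁ < u.im ∧ u.im < t₂ ∧
        Tendsto (fun s : ℝ => P (s + t₁ * Complex.I)) (𝓝[>] 0) (𝓝 a₁) ∧
        Tendsto (fun s : ℝ => P (s + t₂ * Complex.I)) (𝓝[>] 0) (𝓝 a₂) ∧
        (∀ s : ℝ, 0 < s → s ≤ u.re → ‖P (s + t₁ * Complex.I) - P u‖ ≤ κ ∧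
          ‖P (s + t₂ * Complex.I) - P u‖ ≤ κ) ∧
        (∀ τ ∈ Set.Icc t₁ t₂, ‖P (u.re + τ * Complex.I) - P u‖ ≤ κ)

/-- LGK: `ζ - x` has a continuous logarithm on `K` for `x` outside `K`
(may use `JulStatement`). -/
def LgkStatement : Prop :=
  ∀ (f : ℂ[X]) (P : ℂ → ℂ), 2 ≤ f.natDegree → Half f P →
    (∀ R : ℝ, ∃ M : ℝ, ∀ u : ℂ, M ≤ u.re → R ≤ ‖P u‖) → ∀ x ∉ filledJulia f,
    ∃ L : ℂ → ℂ, ContinuousOn L (filledJulia f) ∧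
      ∀ ζ ∈ filledJulia f, Complex.exp (L ζ) = ζ - x

/-- JAN: a form of Janiszewski's theorem. -/
def JanStatement : Prop :=
  ∀ (K Y c D : Set ℂ) (x z : ℂ) (R : ℝ) (L : ℂ → ℂ), IsCompact K → IsClosed Y → Y ⊆ K →
    IsPreconnected Y → Y.Nonempty → IsCompact c → c ∩ K ⊆ Y → IsOpen D → Bornology.IsBounded D →
    frontier D ⊆ K ∪ c → Y ∪ c ⊆ Metric.ball z R → x ∈ D → R ≤ ‖x - z‖ →
    ContinuousOn L K → (∀ ζ ∈ K, Complex.exp (L ζ) = ζ - x) → False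

/-- CIK: a point at which `J` is connected im kleinen gives small oscillation
(from JUL, APP, CRO, LGK, JAN). -/
def CikStatement : Prop :=
  ∀ (f : ℂ[X]) (P : ℂ → ℂ), 2 ≤ f.natDegree → Half f P →
    (∀ R : ℝ, ∃ M : ℝ, ∀ u : ℂ, M ≤ u.re → R ≤ ‖P u‖) → (∃ z, CikAt (julia f) z) →
    ∀ δ : ℝ, 0 < δ → ∃ t : ℝ, Osc P δ t

/-- The angles whose impression is one point, at which `J` is connected im kleinen. -/
def goodAngles (f : ℂ[X]) (ψ : ℂ → ℂ) : Set ℝ :=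
  {θ : ℝ | ∃ z, Tendsto ψ (𝓝[{w : ℂ | 1 < ‖w‖}] Complex.exp (2 * Real.pi * θ * Complex.I))
    (𝓝 z) ∧ CikAt (julia f) z}

/-- The target, third form: zero-one law. -/
def Target3 : Prop :=
  ∀ (f : ℂ[X]) (ψ : ℂ → ℂ), 2 ≤ f.natDegree → IsInverseBoettcher f ψ →
    (((∀ z, ¬ CikAt (julia f) z) ∧
        ∃ δ : ℝ, 0 < δ ∧ ∀ θ : ℝ, δ ≤ Metric.diam (impression ψ θ)) ∨
      (goodAngles f ψ ∈ residual ℝ ∧ dimH (goodAngles f ψ)ᶜ < 1 ∧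
        julia f ⊆ closure {z | CikAt (julia f) z})) ∧
    ((∀ θ : ℝ, RayLands ψ θ) →
      goodAngles f ψ ∈ residual ℝ ∧ dimH (goodAngles f ψ)ᶜ < 1 ∧
        julia f ⊆ closure {z | CikAt (julia f) z})

end Pool.Agent.Imp
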