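import Pool.Agent.Lib.MP_1c105c_an.Defs

/-! MP_1c105c_an: square roots on the exterior of the unit disc. -/

set_option autoImplicit false

open Filter Topology Set Polynomial Metric

namespace Pool.Agent.Imp

namespace Sq

/-- A square root of a nonvanishing holomorphic function on the disc. -/
theorem exists_sqrt {h : ℂ → ℂ} (hd : DifferentiableOn ℂ h (ball 0 1))
    (h0 : ∀ z ∈ ball (0 : ℂ) 1, h z ≠ 0) (h1 : h 0 = 1) :
    ∃ q : ℂ → ℂ, DifferentiableOn ℂ q (ball 0 1) ∧ q 0 = 1 ∧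
      ∀ z ∈ ball (0 : ℂ) 1, q z ^ 2 = h z := by
  have hd' : DifferentiableOn ℂ (deriv h) (ball 0 1) := hd.deriv isOpen_ball
  obtain ⟨G, hG⟩ := (hd'.div hd h0).isExactOn_ball
  have hzero : (0 : ℂ) ∈ ball (0 : ℂ) 1 := by simp
  refine ⟨fun z => Complex.exp ((G z - G 0) / 2), ?_, by simp, ?_⟩
  · intro z hz
    exact ((((hG z hz).differentiableAt.sub_const _).div_const _).cexp).differentiableWithinAt
  · intro z hz
    have hu : ∀ z ∈ ball (0 : ℂ) 1,
        HasDerivAt (fun z => h z * Complex.exp (-(G z - G 0))) 0 z := by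
      intro z hz
      have e1 : HasDerivAt h (deriv h z) z :=
        (hd.differentiableAt (isOpen_ball.mem_nhds hz)).hasDerivAt
      have e2 := (((hG z hz).sub_const (G 0)).fun_neg).cexp
      have e3 := e1.fun_mul e2
      have h00 := h0 z hz
      have e4 : deriv h z * Complex.exp (-(G z - G 0)) +
          h z * (Complex.exp (-(G z - G 0)) * -(deriv h / h) z) = 0 := by
        rw [Pi.div_apply]
        field_simp
        ring
      rw [e4] at e3
      exact e3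
    have hconst := IsOpen.is_const_of_deriv_eq_zero (𝕜 := ℂ)
      (f := fun z => h z * Complex.exp (-(G z - G 0))) isOpen_ball
      (convex_ball (0 : ℂ) 1).isPreconnected
      (fun z hz => (hu z hz).differentiableAt.differentiableWithinAt)
      (fun z hz => (hu z hz).deriv) hz hzero
    simp only [sub_self, neg_zero, Complex.exp_zero, mul_one, h1] at hconst
    rw [← Complex.exp_nat_mul]
    have e4 : ((2 : ℕ) : ℂ) * ((G z - G 0) / 2) = G z - G 0 := by push_cast; ring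
    rw [e4]
    calc Complex.exp (G z - G 0)
        = (h z * Complex.exp (-(G z - G 0))) * Complex.exp (G z - G 0) := by rw [hconst, one_mul]
      _ = h z := by rw [mul_assoc, ← Complex.exp_add]; simp

theorem inv_mem {z : ℂ} (hz : z ∈ ball (0 : ℂ) 1) (h0 : z ≠ 0) : 1 < ‖z⁻¹‖ := by
  rw [mem_ball_zero_iff] at hz
  rw [norm_inv]
  exact (one_lt_inv₀ (norm_pos_iff.2 h0)).2 hz

theorem ne_zero {w : ℂ} (hw : 1 < ‖w‖) : w ≠ 0 := by
  rintro rfl
  rw [norm_zero] at hw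
  linarith

theorem inv_mem' {w : ℂ} (hw : 1 < ‖w‖) : w⁻¹ ∈ ball (0 : ℂ) 1 := by
  rw [mem_ball_zero_iff, norm_inv]
  exact inv_lt_one_of_one_lt₀ hw

/-- A square root on the exterior of the unit disc of a nonvanishing holomorphic function which
tends to `1` at infinity. -/
theorem sqrt_ext (R : ℂ → ℂ) (hR : DifferentiableOn ℂ R {w | 1 < ‖w‖})
    (hne : ∀ w, 1 < ‖w‖ → R w ≠ 0) (hlim : Tendsto R (Bornology.cobounded ℂ) (𝓝 1)) :
    ∃ T : ℂ → ℂ, DifferentiableOn ℂ T {w | 1 < ‖w‖} ∧ (∀ w, 1 < ‖w‖ → T w ^ 2 = R w) ∧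
      Tendsto T (Bornology.cobounded ℂ) (𝓝 1) := by
  set g : ℂ → ℂ := Function.update (fun z => R z⁻¹) 0 1 with hg
  have hg0 : g 0 = 1 := Function.update_self _ _ _
  have hg1 : ∀ z, z ≠ 0 → g z = R z⁻¹ := fun z hz => Function.update_of_ne hz _ _
  have hball : ball (0 : ℂ) 1 ∈ 𝓝 (0 : ℂ) := ball_mem_nhds _ one_pos
  have hdg : DifferentiableOn ℂ g (ball 0 1) := by
    rw [← Complex.differentiableOn_compl_singleton_and_continuousAt_iff hball]
    refine ⟨?_, ?_⟩
    · have h1 : DifferentiableOn ℂ (fun z : ℂ => R z⁻¹) (ball 0 1 \ {0}) := by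
        refine hR.comp (g := R) (f := fun z : ℂ => z⁻¹) ?_ ?_
        · exact differentiableOn_inv.mono fun z hz => hz.2
        · intro z hz
          exact inv_mem hz.1 hz.2
      exact h1.congr fun z hz => hg1 z hz.2
    · rw [hg, continuousAt_update_same]
      exact hlim.comp tendsto_inv₀_nhdsNE_zero
  have hgne : ∀ z ∈ ball (0 : ℂ) 1, g z ≠ 0 := by
    intro z hz
    by_cases h : z = 0
    · rw [h, hg0]
      exact one_ne_zero
    · rw [hg1 z h]
      exact hne _ (inv_mem hz h)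
  obtain ⟨q, hq, hq0, hq2⟩ := exists_sqrt hdg hgne hg0
  refine ⟨fun w => q w⁻¹, ?_, ?_, ?_⟩
  · refine hq.comp (g := q) (f := fun z : ℂ => z⁻¹) ?_ ?_
    · exact differentiableOn_inv.mono fun z hz => ne_zero hz
    · intro w hw
      exact inv_mem' hw
  · intro w hw
    show q w⁻¹ ^ 2 = R w
    rw [hq2 _ (inv_mem' hw), hg1 _ (inv_ne_zero (ne_zero hw)), inv_inv]
  · have hc : Tendsto q (𝓝 0) (𝓝 (q 0)) :=
      (hq.differentiableAt hball).continuousAt
    rw [hq0] at hc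
    exact hc.comp tendsto_inv₀_cobounded

/-- The square root of `(ψ - x₀) / (ψ - x₁)`. -/
theorem sqrt_psi {f : ℂ[X]} {ψ : ℂ → ℂ} (hψ : IsInverseBoettcher f ψ) {x₀ x₁ : ℂ}
    (h0 : x₀ ∈ filledJulia f) (h1 : x₁ ∈ filledJulia f) :
    ∃ T : ℂ → ℂ, DifferentiableOn ℂ T {w | 1 < ‖w‖} ∧
      (∀ w, 1 < ‖w‖ → ψ w - x₀ ≠ 0 ∧ ψ w - x₁ ≠ 0 ∧ T w ^ 2 * (ψ w - x₁) = ψ w - x₀) ∧
      Tendsto T (Bornology.cobounded ℂ) (𝓝 1) := by
  have hne : ∀ x ∈ filledJulia f, ∀ w, 1 < ‖w‖ → ψ w - x ≠ 0 := by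
    intro x hx w hw h
    have h2 : ψ w ∈ (filledJulia f)ᶜ := by
      rw [← hψ.image_eq]
      exact ⟨w, hw, rfl⟩
    exact h2 (by rw [sub_eq_zero.1 h]; exact hx)
  have hlim : Tendsto (fun w => (ψ w - x₀) / (ψ w - x₁)) (Bornology.cobounded ℂ) (𝓝 1) := by
    have h2 : Tendsto (fun w => 1 + (x₁ - x₀) * (ψ w - x₁)⁻¹) (Bornology.cobounded ℂ)
        (𝓝 (1 + (x₁ - x₀) * 0)) := by
      refine tendsto_const_nhds.add (tendsto_const_nhds.mul ?_)
      refine tendsto_inv₀_cobounded.comp ?_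
      have h3 : Tendsto (fun z : ℂ => z - x₁) (Bornology.cobounded ℂ) (Bornology.cobounded ℂ) := by
        rw [← tendsto_norm_atTop_iff_cobounded]
        refine tendsto_atTop_mono (fun z => ?_)
          (tendsto_atTop_add_const_right _ (-‖x₁‖) tendsto_norm_cobounded_atTop)
        have := norm_sub_norm_le z x₁
        linarith
      exact h3.comp hψ.tendsto
    rw [mul_zero, add_zero] at h2
    refine h2.congr' ?_
    have hev : ∀ᶠ w : ℂ in Bornology.cobounded ℂ, 1 < ‖w‖ :=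
      tendsto_norm_cobounded_atTop.eventually_gt_atTop 1
    filter_upwards [hev] with w hw
    have h3 := hne x₁ h1 w hw
    field_simp
    ring
  obtain ⟨T, hT, hT2, hT1⟩ := sqrt_ext (fun w => (ψ w - x₀) / (ψ w - x₁))
    ((hψ.differentiableOn.sub_const _).div (hψ.differentiableOn.sub_const _) (hne x₁ h1))
    (fun w hw => div_ne_zero (hne x₀ h0 w hw) (hne x₁ h1 w hw)) hlim
  refine ⟨T, hT, fun w hw => ⟨hne x₀ h0 w hw, hne x₁ h1 w hw, ?_⟩, hT1⟩
  rw [hT2 w hw, div_mul_cancel₀ _ (hne x₁ h1 w hw)]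

/-- 84's form. -/
theorem exists_root (ψ : ℂ → ℂ) (hd : DifferentiableOn ℂ ψ {w | 1 < ‖w‖})
    (hinf : Tendsto (fun w => ‖ψ w‖) (Bornology.cobounded ℂ) atTop) (x₀ x₁ : ℂ)
    (h0 : ∀ w, 1 < ‖w‖ → ψ w ≠ x₀) (h1 : ∀ w, 1 < ‖w‖ → ψ w ≠ x₁) :
    ∃ R : ℂ → ℂ, DifferentiableOn ℂ R {w | 1 < ‖w‖} ∧
      ∀ w, 1 < ‖w‖ → R w ^ 2 = (ψ w - x₀) / (ψ w - x₁) := by
  have hne1 : ∀ w, 1 < ‖w‖ → ψ w - x₁ ≠ 0 := fun w hw => sub_ne_zero.2 (h1 w hw)
  have hlim : Tendsto (fun w => (ψ w - x₀) / (ψ w - x₁)) (Bornology.cobounded ℂ) (𝓝 1) := by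
    have h2 : Tendsto (fun w => 1 + (x₁ - x₀) * (ψ w - x₁)⁻¹) (Bornology.cobounded ℂ)
        (𝓝 (1 + (x₁ - x₀) * 0)) := by
      refine tendsto_const_nhds.add (tendsto_const_nhds.mul ?_)
      refine tendsto_inv₀_cobounded.comp ?_
      rw [← tendsto_norm_atTop_iff_cobounded]
      refine tendsto_atTop_mono (fun w => ?_) (tendsto_atTop_add_const_right _ (-‖x₁‖) hinf)
      have := norm_sub_norm_le (ψ w) x₁
      linarith
    rw [mul_zero, add_zero] at h2
    refine h2.congr' ?_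
    have hev : ∀ᶠ w : ℂ in Bornology.cobounded ℂ, 1 < ‖w‖ :=
      tendsto_norm_cobounded_atTop.eventually_gt_atTop 1
    filter_upwards [hev] with w hw
    have h3 := hne1 w hw
    field_simp
    ring
  obtain ⟨T, hT, hT2, -⟩ := sqrt_ext (fun w => (ψ w - x₀) / (ψ w - x₁))
    ((hd.sub_const _).div (hd.sub_const _) hne1)
    (fun w hw => div_ne_zero (sub_ne_zero.2 (h0 w hw)) (hne1 w hw)) hlim
  exact ⟨T, hT, hT2⟩

/-- 84's form. -/
theorem root_ball (x₁ c : ℂ) (r : ℝ) (h : ∀ z ∈ ball c r, z ≠ x₁) :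
    ∃ T : ℂ → ℂ, DifferentiableOn ℂ T (ball c r) ∧ ∀ z ∈ ball c r, T z ^ 2 = z - x₁ := by
  rcases le_or_gt r 0 with hr | hr
  · refine ⟨fun _ => 0, differentiableOn_const _, fun z hz => ?_⟩
    rw [ball_eq_empty.2 hr] at hz
    exact absurd hz (Set.notMem_empty z)
  · have hc : c - x₁ ≠ 0 := sub_ne_zero.2 (h c (mem_ball_self hr))
    have hmap : ∀ u ∈ ball (0 : ℂ) 1, c + r * u ∈ ball c r := by
      intro u hu
      rw [mem_ball_zero_iff] at hu
      rw [mem_ball, dist_eq_norm, add_sub_cancel_left, norm_mul, Complex.norm_real,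
        Real.norm_eq_abs, abs_of_pos hr]
      nlinarith
    obtain ⟨q, hq, -, hq2⟩ := exists_sqrt (h := fun u => (c + r * u - x₁) / (c - x₁))
      (((differentiableOn_const _).add ((differentiableOn_const _).mul differentiableOn_id)
        |>.sub_const _).div_const _)
      (fun u hu => div_ne_zero (sub_ne_zero.2 (h _ (hmap u hu))) hc)
      (by simp [hc])
    obtain ⟨a, ha⟩ := IsAlgClosed.exists_pow_nat_eq (c - x₁) (n := 2) (by norm_num)
    have hr' : (r : ℂ) ≠ 0 := Complex.ofReal_ne_zero.2 hr.ne'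
    have hmem : ∀ z ∈ ball c r, (z - c) / r ∈ ball (0 : ℂ) 1 := by
      intro z hz
      rw [mem_ball, dist_eq_norm] at hz
      rw [mem_ball_zero_iff, norm_div, Complex.norm_real, Real.norm_eq_abs, abs_of_pos hr,
        div_lt_one hr]
      exact hz
    refine ⟨fun z => a * q ((z - c) / r), ?_, ?_⟩
    · refine (differentiableOn_const _).mul ?_
      refine hq.comp (g := q) (f := fun z : ℂ => (z - c) / r) ?_ hmem
      exact (differentiableOn_id.sub_const _).div_const _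
    · intro z hz
      show (a * q ((z - c) / r)) ^ 2 = z - x₁
      rw [mul_pow, ha, hq2 _ (hmem z hz)]
      field_simp
      ring

end Sq

end Pool.Agent.Imp
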