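import Pool.Agent.Lib.MP_1c105c_an.Defs2
import Pool.Agent.Lib.MP_1c105c_an.SqrtExt
import Pool.Agent.Lib.MP_1c105c_an.H59.MaxNull

/-! DEN: the landing points of a full set of angles with trivial impression are dense in the Julia
set (a maximum principle with a null exceptional set). -/

set_option autoImplicit false

open Filter Topology Set Polynomial

namespace Pool.Agent.Imp

/-- maximum principle with a null exceptional set -/
def MaxNull : Prop :=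
  ∀ (W : Set ℂ), IsOpen W → (∀ w ∈ W, 1 < ‖w‖) → Bornology.IsBounded W → ∀ (F : ℂ → ℂ),
    DifferentiableOn ℂ F W → ∀ (M : ℝ), (∀ w ∈ W, ‖F w‖ ≤ M) →
    (∀ z ∈ frontier W, 1 < ‖z‖ → ∀ e : ℝ, 0 < e → ∃ N ∈ 𝓝 z, ∀ w ∈ N, w ∈ W → ‖F w‖ ≤ 1 + e) →
    MeasureTheory.volume {t : ℝ | Complex.exp (2 * Real.pi * t * Complex.I) ∈ closure W} = 0 →
    ∀ w ∈ W, ‖F w‖ ≤ 1

/-- square roots outside the disc -/
def RootExt : Prop :=
  ∀ (ψ : ℂ → ℂ), DifferentiableOn ℂ ψ {w | 1 < ‖w‖} →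
    Tendsto ψ (Bornology.cobounded ℂ) (Bornology.cobounded ℂ) → ∀ (x₀ x₁ : ℂ),
    (∀ w, 1 < ‖w‖ → ψ w ≠ x₀) → (∀ w, 1 < ‖w‖ → ψ w ≠ x₁) →
    ∃ R : ℂ → ℂ, DifferentiableOn ℂ R {w | 1 < ‖w‖} ∧
      ∀ w, 1 < ‖w‖ → R w ^ 2 = (ψ w - x₀) / (ψ w - x₁)

/-- square roots on a ball -/
def RootBall : Prop :=
  ∀ (x₁ c : ℂ) (r : ℝ), (∀ z ∈ Metric.ball c r, z ≠ x₁) →
    ∃ T : ℂ → ℂ, DifferentiableOn ℂ T (Metric.ball c r) ∧
      ∀ z ∈ Metric.ball c r, T z ^ 2 = z - x₁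

namespace Den84

lemma sq_id (R : ℝ) (s s0 : ℂ) :
    ‖(R : ℂ) ^ 2 - (starRingEnd ℂ) s0 * s‖ ^ 2 - R ^ 2 * ‖s - s0‖ ^ 2 =
      (R ^ 2 - ‖s‖ ^ 2) * (R ^ 2 - ‖s0‖ ^ 2) := by
  rw [← Complex.normSq_eq_norm_sq, ← Complex.normSq_eq_norm_sq, ← Complex.normSq_eq_norm_sq,
    ← Complex.normSq_eq_norm_sq]
  simp only [Complex.normSq_apply, Complex.sub_re, Complex.sub_im, Complex.mul_re, Complex.mul_im,
    Complex.conj_re, Complex.conj_im, pow_two, Complex.ofReal_re, Complex.ofReal_im]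
  ring

/-- the contradiction on `W` -/
theorem core (hmax : MaxNull) (ψ S : ℂ → ℂ) (x₀ : ℂ) (r κ : ℝ) (hr : 0 < r) (hκ : 0 < κ)
    (hψ : DifferentiableOn ℂ ψ {w | 1 < ‖w‖}) (W : Set ℂ)
    (hW : W = {w | 1 < ‖w‖ ∧ ‖ψ w - x₀‖ < r}) (hWo : IsOpen W) (hWb : Bornology.IsBounded W)
    (hS : DifferentiableOn ℂ S W) (hS2 : ∀ w ∈ W, S w ^ 2 = ψ w - x₀) (w₀ : ℂ) (hw₀ : w₀ ∈ W)
    (hsep : ∀ w ∈ W, κ ≤ ‖S w + S w₀‖)
    (hnull : MeasureTheory.volume
      {t : ℝ | Complex.exp (2 * Real.pi * t * Complex.I) ∈ closure W} = 0) : False := by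
  set R : ℝ := Real.sqrt r with hR
  have hR0 : 0 < R := Real.sqrt_pos.2 hr
  have hRr : R ^ 2 = r := Real.sq_sqrt hr.le
  set s0 : ℂ := -S w₀ with hs0
  have hn : ∀ w ∈ W, ‖S w‖ ^ 2 = ‖ψ w - x₀‖ := by
    intro w hw
    rw [← norm_pow, hS2 w hw]
  have hlt : ∀ w ∈ W, ‖S w‖ ^ 2 < R ^ 2 := by
    intro w hw
    rw [hn w hw, hRr]
    rw [hW] at hw
    exact hw.2
  have hs0n : ‖s0‖ ^ 2 < R ^ 2 := by
    rw [hs0, norm_neg]
    exact hlt w₀ hw₀
  have hsep' : ∀ w ∈ W, κ ≤ ‖S w - s0‖ := by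
    intro w hw
    rw [hs0, sub_neg_eq_add]
    exact hsep w hw
  have hne : ∀ w ∈ W, S w - s0 ≠ 0 := by
    intro w hw h0
    have := hsep' w hw
    rw [h0, norm_zero] at this
    linarith
  set F : ℂ → ℂ := fun w => ((R : ℂ) ^ 2 - (starRingEnd ℂ) s0 * S w) / ((R : ℂ) * (S w - s0))
    with hF
  have hFn : ∀ w ∈ W, ‖F w‖ ^ 2 =
      1 + (R ^ 2 - ‖S w‖ ^ 2) * (R ^ 2 - ‖s0‖ ^ 2) / (R ^ 2 * ‖S w - s0‖ ^ 2) := by
    intro w hw
    have h1 : 0 < ‖S w - s0‖ := norm_pos_iff.2 (hne w hw)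
    have h2 := sq_id R (S w) s0
    rw [hF]
    simp only
    rw [norm_div, norm_mul, Complex.norm_real, Real.norm_eq_abs, abs_of_pos hR0, div_pow, mul_pow]
    have h3 : ‖(R : ℂ) ^ 2 - (starRingEnd ℂ) s0 * S w‖ ^ 2 =
        R ^ 2 * ‖S w - s0‖ ^ 2 + (R ^ 2 - ‖S w‖ ^ 2) * (R ^ 2 - ‖s0‖ ^ 2) := by linarith
    rw [h3]
    have h4 : R ^ 2 * ‖S w - s0‖ ^ 2 ≠ 0 := by positivity
    field_simp
  have hgt : 1 < ‖F w₀‖ := by
    have h1 := hFn w₀ hw₀
    have h2 : 0 < ‖S w₀ - s0‖ := norm_pos_iff.2 (hne w₀ hw₀)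
    have h3 : 0 < (R ^ 2 - ‖S w₀‖ ^ 2) * (R ^ 2 - ‖s0‖ ^ 2) / (R ^ 2 * ‖S w₀ - s0‖ ^ 2) := by
      apply div_pos (mul_pos (by linarith [hlt w₀ hw₀]) (by linarith)) (by positivity)
    have h4 : 1 < ‖F w₀‖ ^ 2 := by linarith
    by_contra h5
    push Not at h5
    nlinarith [norm_nonneg (F w₀)]
  have hup : ∀ w ∈ W, ‖F w‖ ^ 2 ≤ 1 + (r - ‖ψ w - x₀‖) / κ ^ 2 := by
    intro w hw
    rw [hFn w hw, hn w hw, hRr]
    have h1 := hsep' w hw
    have h2 : 0 ≤ r - ‖ψ w - x₀‖ := by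
      have := hlt w hw
      rw [hn w hw, hRr] at this
      linarith
    have h3 : (r - ‖ψ w - x₀‖) * (r - ‖s0‖ ^ 2) / (r * ‖S w - s0‖ ^ 2) ≤
        (r - ‖ψ w - x₀‖) * r / (r * κ ^ 2) := by
      apply div_le_div₀ (by positivity)
      · apply mul_le_mul_of_nonneg_left _ h2
        have := sq_nonneg ‖s0‖
        linarith
      · positivity
      · apply mul_le_mul_of_nonneg_left _ hr.le
        exact pow_le_pow_left₀ hκ.le h1 2
    have h4 : (r - ‖ψ w - x₀‖) * r / (r * κ ^ 2) = (r - ‖ψ w - x₀‖) / κ ^ 2 := by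
      field_simp
    linarith
  have hWE : ∀ w ∈ W, 1 < ‖w‖ := by
    intro w hw
    rw [hW] at hw
    exact hw.1
  have hle := hmax W hWo hWE hWb F ?_ (1 + r / κ ^ 2) ?_ ?_ hnull w₀ hw₀
  · linarith
  · rw [hF]
    apply DifferentiableOn.div
    · exact (differentiableOn_const _).sub ((differentiableOn_const _).mul hS)
    · exact (differentiableOn_const _).mul (hS.sub (differentiableOn_const _))
    · intro w hw
      exact mul_ne_zero (by exact_mod_cast hR0.ne') (hne w hw)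
  · intro w hw
    have h1 := hup w hw
    have h2 : (r - ‖ψ w - x₀‖) / κ ^ 2 ≤ r / κ ^ 2 := by
      apply div_le_div_of_nonneg_right _ (by positivity)
      have := norm_nonneg (ψ w - x₀)
      linarith
    have h3 : 0 ≤ r / κ ^ 2 := by positivity
    by_contra h4
    push Not at h4
    nlinarith
  · intro z hz hz1 e he
    have hzE : z ∈ {w : ℂ | 1 < ‖w‖} := hz1
    have hEo : IsOpen {w : ℂ | 1 < ‖w‖} := isOpen_lt continuous_const continuous_norm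
    have hc : ContinuousAt ψ z := (hψ z hzE).continuousWithinAt.continuousAt (hEo.mem_nhds hzE)
    have hzW : z ∉ W := by
      rw [hWo.frontier_eq] at hz
      exact hz.2
    have hge : r ≤ ‖ψ z - x₀‖ := by
      by_contra h
      push Not at h
      apply hzW
      rw [hW]
      exact ⟨hz1, h⟩
    have hcn : ContinuousAt (fun w => ‖ψ w - x₀‖) z := (hc.sub continuousAt_const).norm
    have hev : ∀ᶠ w in 𝓝 z, r - e * κ ^ 2 < ‖ψ w - x₀‖ := by
      apply hcn.eventually (lt_mem_nhds _)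
      have : 0 < e * κ ^ 2 := by positivity
      linarith
    refine ⟨_, hev, ?_⟩
    intro w hw hwW
    have h1 := hup w hwW
    have h2 : (r - ‖ψ w - x₀‖) / κ ^ 2 ≤ e := by
      rw [div_le_iff₀ (by positivity)]
      have : r - e * κ ^ 2 < ‖ψ w - x₀‖ := hw
      linarith
    by_contra h4
    push Not at h4
    nlinarith

end Den84

/-- Row DEN, from the maximum principle and the square roots. -/
theorem den_of (hmax : MaxNull) (hext : RootExt) (hball : RootBall) (hK : HalfStatement)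
    (hJ : JulStatement) : DenStatement := by
  intro f ψ hd hψ hxx S hS hSn O hO hOJ
  obtain ⟨hclosed, -, -, -, -⟩ := hJ f _ hd (hK f ψ hd hψ).1
  by_contra hcon
  push Not at hcon
  obtain ⟨x₀, hx₀O, hx₀J⟩ := hOJ
  have hx₀K : x₀ ∈ filledJulia f := hclosed.frontier_subset hx₀J
  obtain ⟨x₁, hx₁K, hx₁⟩ : ∃ x₁ ∈ filledJulia f, x₁ ≠ x₀ := by
    obtain ⟨a, ha, b, hb, hab⟩ := hxx
    by_cases h : a = x₀
    · exact ⟨b, hb, by rw [← h]; exact fun h' => hab h'.symm⟩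
    · exact ⟨a, ha, h⟩
  obtain ⟨ρ, hρ, hρO⟩ := Metric.isOpen_iff.1 hO x₀ hx₀O
  have hd1 : 0 < ‖x₁ - x₀‖ := norm_pos_iff.2 (sub_ne_zero.2 hx₁)
  obtain ⟨r, hr, hrρ, hrx⟩ : ∃ r : ℝ, 0 < r ∧ r < ρ ∧ r < ‖x₁ - x₀‖ :=
    ⟨min ρ ‖x₁ - x₀‖ / 2, by positivity,
      by have := min_le_left ρ ‖x₁ - x₀‖; linarith [lt_min hρ hd1],
      by have := min_le_right ρ ‖x₁ - x₀‖; linarith [lt_min hρ hd1]⟩
  set E : Set ℂ := {w | 1 < ‖w‖} with hE
  have hEo : IsOpen E := isOpen_lt continuous_const continuous_norm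
  have hψK : ∀ w ∈ E, ψ w ∉ filledJulia f := by
    intro w hw
    have : ψ w ∈ ψ '' E := ⟨w, hw, rfl⟩
    rw [hψ.image_eq] at this
    exact this
  have hψc : ContinuousOn ψ E := hψ.differentiableOn.continuousOn
  set W : Set ℂ := {w | 1 < ‖w‖ ∧ ‖ψ w - x₀‖ < r} with hW
  have hWo : IsOpen W := by
    have : W = E ∩ ψ ⁻¹' Metric.ball x₀ r := by
      ext w
      simp [hW, hE, dist_eq_norm]
    rw [this]
    exact hψc.isOpen_inter_preimage hEo Metric.isOpen_ball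
  have hWb : Bornology.IsBounded W := by
    have h1 : (Metric.ball x₀ r)ᶜ ∈ Bornology.cobounded ℂ :=
      Bornology.isBounded_def.1 Metric.isBounded_ball
    have h2 := hψ.tendsto h1
    rw [Filter.mem_map] at h2
    rw [← Bornology.isCobounded_compl_iff]
    refine Bornology.isCobounded_def.2 (mem_of_superset h2 ?_)
    intro w hw hwW
    apply hw
    rw [Metric.mem_ball, dist_eq_norm]
    exact hwW.2
  obtain ⟨w₀, hw₀⟩ : W.Nonempty := by
    have h1 : x₀ ∈ closure (filledJulia f)ᶜ := by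
      rw [julia, frontier_eq_closure_inter_closure] at hx₀J
      exact hx₀J.2
    obtain ⟨y, hyK, hy⟩ := Metric.mem_closure_iff.1 h1 r hr
    rw [← hψ.image_eq] at hyK
    obtain ⟨w, hw, rfl⟩ := hyK
    refine ⟨w, hw, ?_⟩
    rw [dist_comm, dist_eq_norm] at hy
    exact hy
  obtain ⟨R, hRd, hR2⟩ := hext ψ hψ.differentiableOn hψ.tendsto x₀ x₁
    (fun w hw h => hψK w hw (h ▸ hx₀K)) (fun w hw h => hψK w hw (h ▸ hx₁K))
  obtain ⟨T, hTd, hT2⟩ := hball x₁ x₀ r (by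
    intro z hz h
    rw [Metric.mem_ball, dist_eq_norm, h] at hz
    linarith)
  have hWE : W ⊆ E := fun w hw => hw.1
  have hWball : MapsTo ψ W (Metric.ball x₀ r) := by
    intro w hw
    rw [Metric.mem_ball, dist_eq_norm]
    exact hw.2
  set Q : ℂ → ℂ := fun w => R w * T (ψ w) with hQ
  have hQd : DifferentiableOn ℂ Q W :=
    (hRd.mono hWE).mul (hTd.comp (hψ.differentiableOn.mono hWE) hWball)
  have hQ2 : ∀ w ∈ W, Q w ^ 2 = ψ w - x₀ := by
    intro w hw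
    have h1 : ψ w - x₁ ≠ 0 := sub_ne_zero.2 fun h => hψK w hw.1 (h ▸ hx₁K)
    rw [hQ]
    simp only
    rw [mul_pow, hR2 w hw.1, hT2 _ (hWball hw)]
    field_simp
  have hQne : ∀ w ∈ W, ∀ w' ∈ W, Q w ≠ - Q w' := by
    intro w hw w' hw' h
    have h1 : ψ w = ψ w' := by
      have h2 := hQ2 w hw
      have h3 := hQ2 w' hw'
      rw [h, neg_sq, h3] at h2
      linear_combination -h2
    have h2 : w = w' := hψ.injOn hw.1 hw'.1 h1
    rw [← h2] at h
    have h3 : Q w = 0 := by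
      have : (2 : ℂ) * Q w = 0 := by linear_combination h
      simpa using this
    have h4 := hQ2 w hw
    rw [h3] at h4
    have h5 : ψ w = x₀ := by
      linear_combination -h4
    exact hψK w hw.1 (h5 ▸ hx₀K)
  -- `Q '' W` is a neighbourhood of `Q w₀`
  have hopen : Q '' W ∈ 𝓝 (Q w₀) := by
    have han : AnalyticAt ℂ Q w₀ := (hQd.analyticOnNhd hWo) w₀ hw₀
    rcases han.eventually_constant_or_nhds_le_map_nhds with h | h
    · exfalso
      have h1 : ∀ᶠ w in 𝓝 w₀, w ∈ W ∧ Q w = Q w₀ := (hWo.eventually_mem hw₀).and h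
      obtain ⟨w, ⟨hw, hwQ⟩, hne⟩ := ((h1.filter_mono nhdsWithin_le_nhds).and
        (self_mem_nhdsWithin : {w₀}ᶜ ∈ 𝓝[≠] w₀)).exists
      apply hne
      apply hψ.injOn hw.1 hw₀.1
      have h2 := hQ2 w hw
      rw [hwQ, hQ2 w₀ hw₀] at h2
      linear_combination -h2
    · exact h (Filter.image_mem_map (hWo.mem_nhds hw₀))
  obtain ⟨κ, hκ, hκW⟩ := Metric.mem_nhds_iff.1 hopen
  refine Den84.core hmax ψ Q x₀ r κ hr hκ hψ.differentiableOn W hW hWo hWb hQd hQ2 w₀ hw₀ ?_ ?_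
  · intro w hw
    by_contra h
    push Not at h
    have h1 : -Q w ∈ Metric.ball (Q w₀) κ := by
      rw [Metric.mem_ball, dist_eq_norm]
      rw [show -Q w - Q w₀ = -(Q w + Q w₀) by ring, norm_neg]
      exact h
    obtain ⟨w', hw', hw'Q⟩ := hκW h1
    exact hQne w hw w' hw' (by rw [hw'Q, neg_neg])
  · refine MeasureTheory.measure_mono_null ?_ hSn
    intro t ht htS
    rw [mem_ofPred_eq] at ht
    obtain ⟨z, hz⟩ := hS t htS
    have hzO : z ∉ O := fun hzO => hcon t htS z hzO hz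
    have hzr : ρ ≤ ‖z - x₀‖ := by
      by_contra h
      push Not at h
      exact hzO (hρO (by rw [Metric.mem_ball, dist_eq_norm]; exact h))
    have hne : (𝓝[W] Complex.exp (2 * Real.pi * t * Complex.I)).NeBot :=
      mem_closure_iff_nhdsWithin_neBot.1 ht
    have hz' : Tendsto ψ (𝓝[W] Complex.exp (2 * Real.pi * t * Complex.I)) (𝓝 z) :=
      hz.mono_left (nhdsWithin_mono _ hWE)
    have h1 : Tendsto (fun w => ‖ψ w - x₀‖) (𝓝[W] Complex.exp (2 * Real.pi * t * Complex.I))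
        (𝓝 ‖z - x₀‖) := (hz'.sub_const x₀).norm
    have h2 : ‖z - x₀‖ ≤ r := by
      apply le_of_tendsto h1
      filter_upwards [self_mem_nhdsWithin] with w hw
      exact hw.2.le
    linarith

/-- Row DEN. -/
theorem den (hK : HalfStatement) (hJ : JulStatement) : DenStatement := by
  refine den_of ?_ ?_ ?_ hK hJ
  · intro W hW hsub hb F hF M hM hfr hnull
    exact MaxNull.max_null W hW hsub hb F hF M hM hfr hnull
  · intro ψ hd hinf x₀ x₁ h0 h1
    exact Sq.exists_root ψ hd (tendsto_norm_cobounded_atTop.comp hinf) x₀ x₁ h0 h1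
  · intro x₁ c r h
    exact Sq.root_ball x₁ c r h

end Pool.Agent.Imp
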