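import Pool.Agent.Lib.MP_1c105c_an.Defs2

/-! MP_1c105c_an, row LOC: facts on `Loc`. -/

set_option autoImplicit false

open Filter Topology Set Polynomial

namespace Pool.Agent.Imp

namespace LocA

theorem isOpen_loc (f : ℂ[X]) (P : ℂ → ℂ) (δ : ℝ) : IsOpen {t : ℝ | Loc f P δ t} := by
  rw [isOpen_iff_mem_nhds]
  rintro t ⟨N, hN, O, Q, Y, h1, h2, h3, h4, h⟩
  have hc : Continuous fun t : ℝ => (t : ℂ) * Complex.I :=
    Complex.continuous_ofReal.mul continuous_const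
  have hmem : (fun t : ℝ => (t : ℂ) * Complex.I) ⁻¹' interior N ∈ 𝓝 t :=
    (isOpen_interior.preimage hc).mem_nhds (mem_interior_iff_mem_nhds.2 hN)
  filter_upwards [hmem] with s hs
  exact ⟨interior N, isOpen_interior.mem_nhds hs, O, Q, Y, h1, h2, h3,
    fun u hu => h4 u ⟨interior_subset hu.1, hu.2⟩, h⟩

theorem loc_shift {f : ℂ[X]} {P : ℂ → ℂ} (hP : Half f P) {δ t : ℝ} (c : ℝ) (hc : c = 1 ∨ c = -1)
    (h : Loc f P δ t) : Loc f P δ (t + c) := by
  obtain ⟨N, hN, O, Q, Y, h1, h2, h3, h4, h⟩ := h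
  have hper : ∀ u : ℂ, P (u - (c : ℂ) * Complex.I) = P u := by
    intro u
    rcases hc with rfl | rfl
    · have := hP.per (u - ((1 : ℝ) : ℂ) * Complex.I)
      rw [← this]
      congr 1
      push_cast
      ring
    · rw [← hP.per u]
      congr 1
      push_cast
      ring
  refine ⟨(fun u : ℂ => u - (c : ℂ) * Complex.I) ⁻¹' N, ?_, O, Q, Y, h1, h2, h3, ?_, h⟩
  · have hcont : ContinuousAt (fun u : ℂ => u - (c : ℂ) * Complex.I)
        (((t + c : ℝ) : ℂ) * Complex.I) := by fun_prop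
    refine hcont ?_
    have he : (((t + c : ℝ) : ℂ) * Complex.I) - (c : ℂ) * Complex.I = (t : ℂ) * Complex.I := by
      push_cast
      ring
    show N ∈ 𝓝 ((((t + c : ℝ) : ℂ) * Complex.I) - (c : ℂ) * Complex.I)
    rw [he]
    exact hN
  · rintro u ⟨hu, hu'⟩
    rw [← hper u]
    refine h4 _ ⟨hu, ?_⟩
    show 0 < (u - (c : ℂ) * Complex.I).re
    have : (u - (c : ℂ) * Complex.I).re = u.re := by simp
    rw [this]
    exact hu'

theorem neBot (t : ℝ) : (𝓝[HP] ((t : ℂ) * Complex.I)).NeBot := by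
  rw [← mem_closure_iff_nhdsWithin_neBot, Metric.mem_closure_iff]
  intro ε hε
  refine ⟨((ε / 2 : ℝ) : ℂ) + (t : ℂ) * Complex.I, ?_, ?_⟩
  · show 0 < (((ε / 2 : ℝ) : ℂ) + (t : ℂ) * Complex.I).re
    simp only [Complex.add_re, Complex.ofReal_re, Complex.mul_re, Complex.I_re, mul_zero,
      Complex.ofReal_im, Complex.I_im, zero_mul, sub_zero, add_zero]
    linarith
  · rw [dist_comm, dist_eq_norm, add_sub_cancel_right, Complex.norm_real, Real.norm_eq_abs,
      abs_of_pos (by linarith)]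
    linarith

theorem exists_lim {f : ℂ[X]} {P : ℂ → ℂ} {t : ℝ} (h : ∀ δ : ℝ, 0 < δ → Loc f P δ t) :
    ∃ z, HasLim P t z := by
  have _ := neBot t
  have hca : Cauchy (map P (𝓝[HP] ((t : ℂ) * Complex.I))) := by
    rw [Metric.cauchy_iff]
    refine ⟨inferInstance, fun ε hε => ?_⟩
    obtain ⟨N, hN, O, Q, Y, -, -, -, h4, h5, -⟩ := h (ε / 2) (by linarith)
    refine ⟨Q, ?_, fun x hx y hy => ?_⟩
    · rw [mem_map]
      filter_upwards [inter_mem_nhdsWithin HP hN] with u hu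
      exact h4 u ⟨hu.2, hu.1⟩
    · rw [dist_eq_norm]
      have := h5 x hx y hy
      linarith
  obtain ⟨z, hz⟩ := CompleteSpace.complete hca
  exact ⟨z, hz⟩

end LocA

open LocA in
/-- Row LOC. -/
theorem loc (jul : JulStatement) : LocStatement := by
  intro f P hd hP
  refine ⟨isOpen_loc f P, fun δ t => ⟨fun h => ?_, loc_shift hP 1 (Or.inl rfl)⟩,
    fun δ δ' t hδ h => ?_, fun t h => ?_⟩
  · have := loc_shift hP (-1) (Or.inr rfl) h
    rwa [add_neg_cancel_right] at this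
  · obtain ⟨N, hN, O, Q, Y, h1, h2, h3, h4, h5, h6, h7, h8, h9⟩ := h
    exact ⟨N, hN, O, Q, Y, h1, h2, h3, h4, fun y hy y' hy' => (h5 y hy y' hy').trans hδ, h6, h7,
      h8, fun y hy y' hy' => (h9 y hy y' hy').trans hδ⟩
  · obtain ⟨z, hz⟩ := exists_lim h
    have hzJ : z ∈ julia f := (jul f P hd hP).2.2.2.2 t z hz
    refine ⟨z, hz, hzJ, fun ε hε => ?_⟩
    obtain ⟨N, hN, O, Q, Y, h1, h2, h3, h4, h5, h6, h7, h8, h9⟩ := h ε hε
    have _ := neBot t
    have hzQ : z ∈ Q := by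
      refine h2.isClosed.mem_of_tendsto hz ?_
      filter_upwards [inter_mem_nhdsWithin HP hN] with u hu
      exact h4 u ⟨hu.2, hu.1⟩
    have hzY : z ∈ Y := h8 ⟨h3 hzQ, hzJ⟩
    refine ⟨Y, h7, h6, ?_, fun y hy => h9 y hy z hzY⟩
    filter_upwards [inter_mem_nhdsWithin (julia f) (h1.mem_nhds (h3 hzQ))] with y hy
    exact h8 ⟨hy.2, hy.1⟩

end Pool.Agent.Imp
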