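import Pool.Agent.Lib.MP_1c105c_an.Main2
import Pool.Agent.Lib.MP_1c105c_an.Defs3
import Pool.Agent.Lib.MP_1c105c_an.Inv
import Pool.Agent.Lib.MP_1c105c_an.Exc
import Pool.Agent.Lib.MP_1c105c_an.Jul
import Pool.Agent.Lib.MP_1c105c_an.Loc
import Pool.Agent.Lib.MP_1c105c_an.Abs2
import Pool.Agent.Lib.MP_1c105c_an.Den
import Pool.Agent.Lib.MP_1c105c_an.Uco

/-! MP_1c105c_an: if the critical orbits are not dense in the Julia set, all angles with dense
orbit are good. -/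

set_option autoImplicit false

open Filter Topology Set Polynomial

namespace Pool.Agent.Imp

theorem loc_int {f : ℂ[X]} {P : ℂ → ℂ} {δ : ℝ} (h : ∀ t : ℝ, Loc f P δ (t + 1) ↔ Loc f P δ t)
    (m : ℤ) (t : ℝ) : Loc f P δ (t + m) ↔ Loc f P δ t := by
  induction m using Int.induction_on generalizing t with
  | zero => simp
  | succ n ih =>
    have h1 : t + ((n + 1 : ℤ) : ℝ) = (t + (n : ℤ)) + 1 := by push_cast; ring
    rw [h1, h, ih]
  | pred n ih =>
    have h1 : t + ((-n : ℤ) : ℝ) = (t + ((-n - 1 : ℤ) : ℝ)) + 1 := by push_cast; ring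
    rw [← ih t, h1, h]

/-- The orbits of the critical values. -/
def postcritical (f : ℂ[X]) : Set ℂ :=
  {z | ∃ (c : ℂ) (n : ℕ), f.derivative.eval c = 0 ∧ (fun w => f.eval w)^[n + 1] c = z}

/-- DNS: if the orbits of the critical values are not dense in the Julia set and almost all
angles are good, then all angles with dense orbit are good. -/
theorem dns {f : ℂ[X]} {ψ : ℂ → ℂ} (hd : 2 ≤ f.natDegree) (hψ : IsInverseBoettcher f ψ)
    (hdim : dimH (goodAngles f ψ)ᶜ < 1) (hy : ¬ julia f ⊆ closure (postcritical f)) {θ : ℝ}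
    (hθ : ∀ a b : ℝ, a < b → ∃ (n : ℕ) (m : ℤ), a < (f.natDegree : ℝ) ^ n * θ + m ∧
      (f.natDegree : ℝ) ^ n * θ + m < b) : θ ∈ goodAngles f ψ := by
  obtain ⟨hP, -, -⟩ := half f ψ hd hψ
  set P : ℂ → ℂ := fun u => ψ (Complex.exp (2 * Real.pi * u)) with hPdef
  obtain ⟨hKc, -, hJ2, -, hJ5⟩ := jul f P hd hP
  obtain ⟨-, hper, -, hend⟩ := loc jul f P hd hP
  have hlimiff : ∀ (θ : ℝ) (z : ℂ),
      Tendsto ψ (𝓝[{w : ℂ | 1 < ‖w‖}] Complex.exp (2 * Real.pi * θ * Complex.I)) (𝓝 z) ↔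
        HasLim P θ z := fun θ z => Main2.lim_iff ψ θ z
  have hnull : MeasureTheory.volume (goodAngles f ψ)ᶜ = 0 := Main2.null_of_dimH hdim
  have hlim : ∃ (t : ℝ) (z : ℂ), HasLim P t z := by
    obtain ⟨t, ht⟩ : (goodAngles f ψ).Nonempty := by
      by_contra hne
      rw [Set.not_nonempty_iff_eq_empty] at hne
      rw [hne, compl_empty, Real.volume_univ] at hnull
      exact ENNReal.top_ne_zero hnull
    obtain ⟨z, hz, -⟩ := ht
    exact ⟨t, z, (hlimiff t z).1 hz⟩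
  have htwo : ∃ x₀ ∈ filledJulia f, ∃ x₁ ∈ filledJulia f, x₀ ≠ x₁ := by
    obtain ⟨t, z, hz, -⟩ := exc inv f P hd hP hlim ∅
    obtain ⟨t', z', hz', hne⟩ := exc inv f P hd hP hlim {z}
    refine ⟨z, hKc.frontier_subset (hJ5 t z hz), z', hKc.frontier_subset (hJ5 t' z' hz'),
      fun he => hne ?_⟩
    rw [he]
    exact Finset.mem_singleton_self _
  obtain ⟨y, hyJ, hyPC⟩ := Set.not_subset.1 hy
  obtain ⟨t₀, ⟨z', hz', hcik'⟩, z, hzO, hz⟩ := den half jul f ψ hd hψ htwo (goodAngles f ψ)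
    (fun t ht => by
      obtain ⟨z, hz, -⟩ := ht
      exact ⟨z, hz⟩) hnull _ isClosed_closure.isOpen_compl ⟨y, hyPC, hyJ⟩
  have := Main2.neBot t₀
  have hzz : z' = z := tendsto_nhds_unique hz' hz
  rw [hzz] at hcik'
  obtain ⟨hzJ, hcik⟩ := hcik'
  have ht₀ : HasLim P t₀ z := (hlimiff t₀ z).1 hz
  obtain ⟨r', hr', hball⟩ := Metric.isOpen_iff.1 isClosed_closure.isOpen_compl z hzO
  obtain ⟨r, hr, hrr⟩ : ∃ r : ℝ, 0 < r ∧ 2 * r = r' := ⟨r' / 2, by positivity, by ring⟩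
  rw [← hrr] at hball
  have hpc : ∀ (c : ℂ) (n : ℕ), f.derivative.eval c = 0 →
      (fun w => f.eval w)^[n + 1] c ∉ Metric.ball z (2 * r) := fun c n hc hmem =>
    hball hmem (subset_closure ⟨c, n, hc, rfl⟩)
  obtain ⟨Y, hYJ, hYc, hYn, hYs⟩ := hcik (r / 2) (by positivity)
  obtain ⟨U, hU, hzU, hUY⟩ := mem_nhdsWithin.mp hYn
  obtain ⟨ρ', hρ', hρb⟩ := Metric.isOpen_iff.1 (hU.inter Metric.isOpen_ball) z
    ⟨hzU, Metric.mem_ball_self hr⟩
  obtain ⟨ρ, hρ, hρρ⟩ : ∃ ρ : ℝ, 0 < ρ ∧ 2 * ρ = ρ' := ⟨ρ' / 2, by positivity, by ring⟩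
  rw [← hρρ] at hρb
  obtain ⟨η, hη, hrect⟩ := exists_rect ht₀ hρ
  have hbb : Metric.ball z (2 * ρ) ⊆ Metric.ball z r := fun x hx => (hρb hx).2
  have hB : Box f P z r η t₀ (t₀ + η) :=
    ⟨hr, hη, by linarith, fun u hu => hbb (Metric.ball_subset_ball (by linarith) (hrect u hu)),
      fun c hc => by simpa using hpc c 0 hc, fun c hc => by simpa using hpc c 1 hc⟩
  have hW : ∀ k, Wset f P z r η t₀ (t₀ + η) k = ∅ := by
    intro k
    rw [Finset.eq_empty_iff_forall_notMem]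
    intro j hj
    obtain ⟨-, g, hg, c, hc, x, hx, hgx⟩ := mem_Wset.1 hj
    refine hpc c k hc ?_
    rw [Function.iterate_succ_apply]
    show (fun w => f.eval w)^[k] (f.eval c) ∈ _
    rw [← hgx, hg.2.1 x hx]
    exact hx
  have hzint : Disjoint ({z} : Set ℂ) (interior (filledJulia f)) := by
    rw [Set.disjoint_singleton_left]
    exact hzJ.2
  have hd0 : (0 : ℝ) < f.natDegree := by exact_mod_cast (by omega : 0 < f.natDegree)
  suffices hloc : ∀ δ : ℝ, 0 < δ → Loc f P δ θ by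
    obtain ⟨z₁, hz₁, hz₂⟩ := hend θ hloc
    exact ⟨z₁, (hlimiff θ z₁).2 hz₁, hz₂⟩
  intro δ hδ
  obtain ⟨N, hN⟩ := Uco.small hd (V := Metric.ball z (2 * r)) (Q := {z}) isCompact_singleton
    (by
      rw [Set.singleton_subset_iff]
      exact Metric.mem_ball_self (by positivity)) hzint (ρ := 2 * r) (by positivity)
    (by
      intro p hp
      rw [Set.mem_singleton_iff] at hp
      rw [hp]) (c := δ / 2 / (Real.exp 65536 * (2 * r))) (by positivity)
  obtain ⟨k, m, h1, h2⟩ := hθ (t₀ / (f.natDegree : ℝ) ^ N) ((t₀ + η) / (f.natDegree : ℝ) ^ N)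
    (by
      refine div_lt_div_of_pos_right (by linarith) (by positivity))
  rw [div_lt_iff₀ (by positivity)] at h1
  rw [lt_div_iff₀ (by positivity)] at h2
  set n : ℕ := k + N with hn
  set M : ℤ := m * (f.natDegree : ℤ) ^ N with hM
  have hval : ((f.natDegree : ℝ) ^ k * θ + m) * (f.natDegree : ℝ) ^ N =
      (f.natDegree : ℝ) ^ n * θ + M := by
    rw [hn, hM, pow_add]
    push_cast
    ring
  rw [hval] at h1 h2
  set D : ℤ := (f.natDegree : ℤ) ^ n with hD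
  have hDpos : 0 < D := by
    rw [hD]
    have : (0 : ℤ) < f.natDegree := by exact_mod_cast (by omega : 0 < f.natDegree)
    positivity
  have hj0 : 0 ≤ (-M) % D := Int.emod_nonneg _ hDpos.ne'
  have hjD : (-M) % D < D := Int.emod_lt_of_pos _ hDpos
  obtain ⟨j, hj⟩ : ∃ j : ℕ, (j : ℤ) = (-M) % D := ⟨((-M) % D).toNat, Int.toNat_of_nonneg hj0⟩
  have hjlt : j < f.natDegree ^ n := by
    have : (j : ℤ) < D := by rw [hj]; exact hjD
    rw [hD] at this
    exact_mod_cast this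
  obtain ⟨g, hg⟩ := exists_univ hd hP hB n j hjlt (fun k _ => by
    rw [hW k]
    exact Finset.notMem_empty _)
  have hginj : InjOn g (Metric.ball z (2 * r)) := Uco.injOn_of hg.2.1
  have hgd := hN n (by omega) g hg.1 hg.2.1 z rfl
  have hosc : ∀ x ∈ Metric.ball z r, ‖g x - g z‖ ≤ δ / 2 := by
    intro x hx
    have h3 := Uco.osc (by positivity : 0 < 2 * r) hg.1 hginj hgd (q := x) (by
      rwa [mul_div_cancel_left₀ r (by norm_num : (2 : ℝ) ≠ 0)])
    refine h3.trans (le_of_eq ?_)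
    have : Real.exp 65536 ≠ 0 := (Real.exp_pos _).ne'
    field_simp
  have hL := loc_of_univ hd hη hJ2 hg hρ hbb hr hrect
    (fun x hx => by
      rw [mem_ball_iff_norm]
      exact (hYs x hx).trans_lt (by linarith)) hYc hYJ
    (fun x hx => hUY ⟨(hρb hx.1).1, hx.2⟩)
    (fun x hx x' hx' => by
      have h3 := hosc x hx
      have h4 := hosc x' hx'
      have h5 : ‖g x - g x'‖ ≤ ‖g x - g z‖ + ‖g x' - g z‖ := by
        have := norm_sub_le (g x - g z) (g x' - g z)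
        simpa using this
      linarith : ∀ x ∈ Metric.ball z r, ∀ x' ∈ Metric.ball z r, ‖g x - g x'‖ ≤ δ)
    (t := (f.natDegree : ℝ) ^ n * θ + M) ⟨h1, h2⟩
  have hθ' : θ = ((f.natDegree : ℝ) ^ n * θ + M + j) / (f.natDegree : ℝ) ^ n +
      (((-M) / D : ℤ) : ℝ) := by
    have h3 : D * ((-M) / D) + (-M) % D = -M := Int.mul_ediv_add_emod _ _
    have h4 : ((D : ℤ) : ℝ) * (((-M) / D : ℤ) : ℝ) + (j : ℝ) = -(M : ℝ) := by
      rw [← hj] at h3
      exact_mod_cast h3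
    have h5 : ((D : ℤ) : ℝ) = (f.natDegree : ℝ) ^ n := by
      rw [hD]
      push_cast
      ring
    rw [h5] at h4
    have hne : (f.natDegree : ℝ) ^ n ≠ 0 := by positivity
    field_simp
    linarith
  rw [hθ', loc_int (hper δ)]
  exact hL

end Pool.Agent.Imp
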