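import Pool.Agent.Lib.MP_1c105c_an.Defs9
import Pool.Agent.Lib.MP_1c105c_an.Nr
import Pool.Agent.Lib.MP_1c105c_an.Dns

/-! MP_1c105c_an: quadratic polynomials with small cycles (interface of stage 15). -/

set_option autoImplicit false

open Filter Topology Set Polynomial

namespace Pool.Agent.Imp

/-- Small cycles: every neighbourhood of `α` contains the orbit of a repelling periodic
point. -/
def SmallCycles (f : ℂ[X]) (α : ℂ) : Prop :=
  ∀ ε : ℝ, 0 < ε → ∃ (z : ℂ) (n : ℕ), 1 ≤ n ∧ (fun w => f.eval w)^[n] z = z ∧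
    1 < ‖deriv (fun w => f.eval w)^[n] z‖ ∧ z ≠ α ∧ ∀ k : ℕ, ‖(fun w => f.eval w)^[k] z - α‖ < ε

/-- ROT: an open half circle contains at most one cycle of the doubling map. -/
def RotStatement : Prop :=
  ∀ (b x y : ℝ) (p q : ℕ) (m n : ℤ), 1 ≤ p → 1 ≤ q → 2 ^ p * x = x + m → 2 ^ q * y = y + n →
    (∀ i : ℕ, 0 < Int.fract (2 ^ i * x - b) ∧ Int.fract (2 ^ i * x - b) < 1 / 2) →
    (∀ i : ℕ, 0 < Int.fract (2 ^ i * y - b) ∧ Int.fract (2 ^ i * y - b) < 1 / 2) →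
    ∃ (i : ℕ) (k : ℤ), 2 ^ i * x = y + k

/-- DEP: a ray of periodic angle lands at every repelling periodic point. -/
def DepStatement : Prop :=
  ∀ (f : ℂ[X]) (P : ℂ → ℂ), 2 ≤ f.natDegree → Half f P →
    (∀ R : ℝ, ∃ M : ℝ, ∀ u : ℂ, M ≤ u.re → R ≤ ‖P u‖) → ∀ (n : ℕ) (z₀ : ℂ), 1 ≤ n →
    (fun w => f.eval w)^[n] z₀ = z₀ → 1 < ‖deriv (fun w => f.eval w)^[n] z₀‖ →
    ∃ (t : ℝ) (k : ℕ) (m : ℤ), 1 ≤ k ∧ (f.natDegree : ℝ) ^ k * t = t + m ∧ Land P t z₀

/-- PUL: components of preimages of continua are mapped onto. -/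
def PulStatement : Prop :=
  ∀ (F : ℂ[X]) (W : Set ℂ) (v w : ℂ), 1 ≤ F.natDegree → IsCompact W → IsPreconnected W →
    F.eval v ∈ W → w ∈ W → ∃ E : Set ℂ, IsCompact E ∧ IsPreconnected E ∧ v ∈ E ∧
      (∀ z ∈ E, F.eval z ∈ W) ∧ ∃ w' ∈ E, F.eval w' = w

/-- QUA: for a quadratic polynomial the preimage of a connected set that contains the critical
value is connected. -/
def QuaStatement : Prop :=
  ∀ (f : ℂ[X]) (c : ℂ) (E : Set ℂ), f.natDegree = 2 → f.derivative.eval c = 0 →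
    IsPreconnected E → f.eval c ∈ E → IsPreconnected {z | f.eval z ∈ E}

/-- CRX: if a connected set joins the critical value to the landing point of a ray, the rays
that land in a connected open set, whose image misses the set and the ray, are on one side. -/
def CrxStatement : Prop :=
  ∀ (f : ℂ[X]) (P : ℂ → ℂ), f.natDegree = 2 → Half f P →
    (∀ R : ℝ, ∃ M : ℝ, ∀ u : ℂ, M ≤ u.re → R ≤ ‖P u‖) → ∀ (c w : ℂ) (s : ℝ) (E D : Set ℂ),
    f.derivative.eval c = 0 → IsPreconnected E → E ⊆ filledJulia f → f.eval c ∈ E → w ∈ E →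
    Land P s w → IsOpen D → IsPreconnected D → (∀ z ∈ D, f.eval z ∉ E) →
    (∀ z ∈ D, ∀ x : ℝ, 0 < x → f.eval z ≠ P (x + s * Complex.I)) →
    ∃ b : ℝ, ∀ (t : ℝ) (z : ℂ), z ∈ D → Land P t z →
      0 < Int.fract (t - b) ∧ Int.fract (t - b) < 1 / 2

/-- SPA: `α` separates the orbit of the critical value from the accessible points (from ROT,
DEP, PUL, QUA, CRX). -/
def SpaStatement : Prop :=
  ∀ (f : ℂ[X]) (P : ℂ → ℂ), f.natDegree = 2 → Half f P →
    (∀ R : ℝ, ∃ M : ℝ, ∀ u : ℂ, M ≤ u.re → R ≤ ‖P u‖) → ∀ (α c : ℂ), f.eval α = α →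
    SmallCycles f α → f.derivative.eval c = 0 → ∀ (E : Set ℂ) (n : ℕ) (s : ℝ) (w : ℂ),
    IsCompact E → IsPreconnected E → E ⊆ filledJulia f → (fun w => f.eval w)^[n + 1] c ∈ E →
    w ∈ E → Land P s w → α ∈ E

end Pool.Agent.Imp
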