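import Pool.Agent.Lib.MP_1c105c_an.Defs11

/-! MP_1c105c_an: unicritical polynomials with small cycles (interface of stage 15). -/

set_option autoImplicit false

open Filter Topology Set Polynomial

namespace Pool.Agent.Imp

/-! ### Unicritical polynomials -/

/-- ROTD: an open arc of length `1 / d` contains at most one cycle of multiplication by `d`. -/
def RotdStatement : Prop :=
  ∀ (d : ℕ) (b x y : ℝ) (p q : ℕ) (m n : ℤ), 2 ≤ d → 1 ≤ p → 1 ≤ q →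
    (d : ℝ) ^ p * x = x + m → (d : ℝ) ^ q * y = y + n →
    (∀ i : ℕ, 0 < Int.fract ((d : ℝ) ^ i * x - b) ∧ Int.fract ((d : ℝ) ^ i * x - b) < 1 / d) →
    (∀ i : ℕ, 0 < Int.fract ((d : ℝ) ^ i * y - b) ∧ Int.fract ((d : ℝ) ^ i * y - b) < 1 / d) →
    ∃ (i : ℕ) (k : ℤ), (d : ℝ) ^ i * x = y + k

/-- QUAD: for a polynomial with only one critical point `c` the preimage of a connected set that
contains the critical value is connected. -/
def QuadStatement : Prop :=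
  ∀ (f : ℂ[X]) (c : ℂ) (E : Set ℂ), 2 ≤ f.natDegree →
    (∀ z, f.derivative.eval z = 0 → z = c) → IsPreconnected E → f.eval c ∈ E →
    IsPreconnected {z | f.eval z ∈ E}

/-- CRXD: the unicritical form of CRX. -/
def CrxdStatement : Prop :=
  ∀ (f : ℂ[X]) (P : ℂ → ℂ), 2 ≤ f.natDegree → Half f P →
    (∀ R : ℝ, ∃ M : ℝ, ∀ u : ℂ, M ≤ u.re → R ≤ ‖P u‖) → ∀ (c w : ℂ) (s : ℝ) (E D : Set ℂ),
    (∀ z, f.derivative.eval z = 0 → z = c) → IsPreconnected E → E ⊆ filledJulia f →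
    f.eval c ∈ E → w ∈ E →
    Land P s w → IsOpen D → IsPreconnected D → (∀ z ∈ D, f.eval z ∉ E) →
    (∀ z ∈ D, ∀ x : ℝ, 0 < x → f.eval z ≠ P (x + s * Complex.I)) →
    ∃ b : ℝ, ∀ (t : ℝ) (z : ℂ), z ∈ D → Land P t z →
      0 < Int.fract (t - b) ∧ Int.fract (t - b) < 1 / f.natDegree

/-- SPAD: the unicritical form of SPA (from ROTD, DEP, PUL, QUAD, CRXD). -/
def SpadStatement : Prop :=
  ∀ (f : ℂ[X]) (P : ℂ → ℂ), 2 ≤ f.natDegree → Half f P →
    (∀ R : ℝ, ∃ M : ℝ, ∀ u : ℂ, M ≤ u.re → R ≤ ‖P u‖) → ∀ (α c : ℂ), f.eval α = α →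
    SmallCycles f α → (∀ z, f.derivative.eval z = 0 → z = c) → ∀ (E : Set ℂ) (n : ℕ) (s : ℝ)
    (w : ℂ), IsCompact E → IsPreconnected E → E ⊆ filledJulia f →
    (fun w => f.eval w)^[n + 1] c ∈ E → w ∈ E → Land P s w → α ∈ E

end Pool.Agent.Imp
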