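import Pool.Agent.Lib.MP_1c105c_an.Defs12

/-! MP_1c105c_an: nonlanding rays of unicritical polynomials with small cycles (interface of
stage 16). -/

set_option autoImplicit false

open Filter Topology Set Polynomial

namespace Pool.Agent.Imp

/-- NLL: if the ray of angle `a` lands at `p`, not in the closure of the critical orbits, the
rays of angles `t` with `d ^ q t = t` mod 1 and `|t - a| ≤ C / d ^ q` land near `p` (from HYP:
the pieces of levels `[x₀ / d ^ q, x₀]` of the rays of angles `t` and `a` are close; the branch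
`g` of `f^{-q}` on a disc around `p` with `g (P (x₀ + t i)) = P (x₀ / d ^ q + t i)` maps the disc
into a small disc, see Ptw.lean and `Uco.small`, `Uco.osc`; induction). -/
def NllStatement : Prop :=
  ∀ (f : ℂ[X]) (P : ℂ → ℂ), 2 ≤ f.natDegree → Half f P →
    (∀ R : ℝ, ∃ M : ℝ, ∀ u : ℂ, M ≤ u.re → R ≤ ‖P u‖) → ∀ (a C : ℝ) (p : ℂ), Land P a p →
    p ∉ closure (postcritical f) → ∀ ε : ℝ, 0 < ε → ∃ N : ℕ, ∀ (q : ℕ) (t : ℝ) (m : ℤ) (z : ℂ),
      N ≤ q → (f.natDegree : ℝ) ^ q * t = t + m → |t - a| * (f.natDegree : ℝ) ^ q ≤ C →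
      Land P t z → ‖z - p‖ ≤ ε

/-- IND: a fixed point with small cycles is indifferent. -/
def IndStatement : Prop :=
  ∀ (f : ℂ[X]) (α : ℂ), f.eval α = α →
    (∀ ε : ℝ, 0 < ε → ∃ (z : ℂ) (n : ℕ), 1 ≤ n ∧ (fun w => f.eval w)^[n] z = z ∧ z ≠ α ∧
      ∀ k : ℕ, ‖(fun w => f.eval w)^[k] z - α‖ < ε) → ‖f.derivative.eval α‖ = 1

/-- ALC: an indifferent fixed point in the Julia set is in the closure of the critical orbits
(otherwise there are branches `g` of `f^{-n}` on a disc around `α` that fix `α`, see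
`ptw_branch` in Ptw.lean, with `‖g' α‖ ≥ 1`, against `Uco.small`). -/
def AlcStatement : Prop :=
  ∀ (f : ℂ[X]) (α : ℂ), 2 ≤ f.natDegree → f.eval α = α → ‖f.derivative.eval α‖ ≤ 1 →
    α ∈ julia f → α ∈ closure (postcritical f)

/-- DST: two rays with the same image do not land at the same noncritical point. -/
def DstStatement : Prop :=
  ∀ (f : ℂ[X]) (P : ℂ → ℂ), 2 ≤ f.natDegree → Half f P → ∀ (a b : ℝ) (m : ℤ) (p : ℂ),
    f.natDegree * b = f.natDegree * a + m → (∀ k : ℤ, b ≠ a + k) → Land P a p → Land P b p →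
    f.derivative.eval p = 0

end Pool.Agent.Imp
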