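import Pool.Agent.Lib.MP_1c105c_an.Defs13

/-! MP_1c105c_an: periodic Cremer points of unicritical polynomials (interface of stage 17). -/

set_option autoImplicit false

open Filter Topology Set Polynomial

namespace Pool.Agent.Imp

/-- ROTP: among `p + 1` angles that are periodic under multiplication by `d` and whose orbits
follow the same `p`-periodic sequence of open arcs of length `1 / d`, two are in the same orbit
under multiplication by `d ^ p`. -/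
def RotpStatement : Prop :=
  ∀ (d p : ℕ) (b x : ℕ → ℝ) (q : ℕ → ℕ) (m : ℕ → ℤ), 2 ≤ d → 1 ≤ p → (∀ j, b (j + p) = b j) →
    (∀ i, 1 ≤ q i ∧ (d : ℝ) ^ q i * x i = x i + m i) →
    (∀ i k : ℕ, 0 < Int.fract ((d : ℝ) ^ k * x i - b k) ∧
      Int.fract ((d : ℝ) ^ k * x i - b k) < 1 / d) →
    ∃ (i j n : ℕ) (k : ℤ), i < j ∧ j ≤ p ∧ (d : ℝ) ^ (n * p) * x i = x j + k

/-- Small ray cycles along the orbit of `α`. -/
def RayCyclesP (f : ℂ[X]) (P : ℂ → ℂ) (α : ℂ) : Prop :=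
  ∀ ε : ℝ, 0 < ε → ∃ (z : ℂ) (t : ℝ) (n : ℕ) (m : ℤ), 1 ≤ n ∧
    (f.natDegree : ℝ) ^ n * t = t + m ∧ Land P t z ∧ z ≠ α ∧
    ∀ k : ℕ, ‖(fun w => f.eval w)^[k] z - (fun w => f.eval w)^[k] α‖ < ε

end Pool.Agent.Imp
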