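import Pool.Agent.Lib.MP_1c105c_an.Defs14

/-! MP_1c105c_an: rays that accumulate at the critical orbit (interface of stage 18). -/

set_option autoImplicit false

open Filter Topology Set Polynomial

namespace Pool.Agent.Imp

/-- The accumulation set of the ray of angle `t`. -/
def Acc (P : ℂ → ℂ) (t : ℝ) : Set ℂ :=
  {z | MapClusterPt z (𝓝[>] (0 : ℝ)) fun x : ℝ => P (x + t * Complex.I)}

/-- ACP: every preimage of an accumulation point of a ray is an accumulation point of a preimage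
of the ray (`f` is open, near `w'` there are preimages of points of the ray that converge to `w`;
they are on finitely many rays). -/
def AcpStatement : Prop :=
  ∀ (f : ℂ[X]) (P : ℂ → ℂ), 2 ≤ f.natDegree → Half f P → ∀ (s : ℝ) (w w' : ℂ), w ∈ Acc P s →
    f.eval w' = w → ∃ (s' : ℝ) (m : ℤ), f.natDegree * s' = s + m ∧ w' ∈ Acc P s'

/-- ACF: a ray that does not accumulate at the point `α` of `K` misses a neighbourhood of `α` (see
`ray_far'` in Spap.lean). -/
def AcfStatement : Prop :=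
  ∀ (f : ℂ[X]) (P : ℂ → ℂ), 2 ≤ f.natDegree → Half f P →
    (∀ R : ℝ, ∃ M : ℝ, ∀ u : ℂ, M ≤ u.re → R ≤ ‖P u‖) → ∀ (α : ℂ) (s : ℝ), α ∈ filledJulia f →
    α ∉ Acc P s → ∃ r : ℝ, 0 < r ∧ ∀ x : ℝ, 0 < x → P (x + s * Complex.I) ∉ Metric.ball α r

/-- ACL: the accumulation set in the two coordinates. -/
def AclStatement : Prop :=
  ∀ (ψ : ℂ → ℂ) (θ : ℝ) (z : ℂ),
    MapClusterPt z (𝓝[>] (1 : ℝ)) (fun r : ℝ => ψ (r * Complex.exp (2 * Real.pi * θ * Complex.I))) ↔
      z ∈ Acc (fun u => ψ (Complex.exp (2 * Real.pi * u))) θ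

/-- CRXA: the form of CRXD for accumulation points of rays (see Crxd.lean: landing is used only in
`angle_ne` and in `end_pre`). -/
def CrxaStatement : Prop :=
  ∀ (f : ℂ[X]) (P : ℂ → ℂ), 2 ≤ f.natDegree → Half f P →
    (∀ R : ℝ, ∃ M : ℝ, ∀ u : ℂ, M ≤ u.re → R ≤ ‖P u‖) → ∀ (c w : ℂ) (s : ℝ) (E D : Set ℂ),
    (∀ z, f.derivative.eval z = 0 → z = c) → IsPreconnected E → E ⊆ filledJulia f →
    f.eval c ∈ E → w ∈ E →
    w ∈ Acc P s → IsOpen D → IsPreconnected D → (∀ z ∈ D, f.eval z ∉ E) →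
    (∀ z ∈ D, ∀ x : ℝ, 0 < x → f.eval z ≠ P (x + s * Complex.I)) →
    ∃ b : ℝ, ∀ (t : ℝ) (z : ℂ), z ∈ D → Land P t z →
      0 < Int.fract (t - b) ∧ Int.fract (t - b) < 1 / f.natDegree

end Pool.Agent.Imp
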