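import Pool.Agent.Lib.MP_1c105c_an.Defs15

/-! MP_1c105c_an: accumulation sets of rays near the angles of small cycles (interface of
stage 18). -/

set_option autoImplicit false

open Filter Topology Set Polynomial

namespace Pool.Agent.Imp

/-- NLA: the form of NLL for accumulation sets: if the accumulation set of the ray of angle `a`
lies in a simply connected open set `V` without points of the critical orbits, the rays of angles
`t` with `d ^ q t = t` mod 1 and `|t - a| ≤ C / d ^ q` land near it (see Nll.lean, with `V` in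
place of `ball p (2 * r)`; the branch `g` of `f^{-q}` on `V` with
`g (P (x₀ + t i)) = P (x₀ / d ^ q + t i)`, see Lim.lean, is small on the union `N` of finitely many
discs around points of the compact connected set `Acc P a`). -/
def NlaStatement : Prop :=
  ∀ (f : ℂ[X]) (P : ℂ → ℂ), 2 ≤ f.natDegree → Half f P →
    (∀ R : ℝ, ∃ M : ℝ, ∀ u : ℂ, M ≤ u.re → R ≤ ‖P u‖) → ∀ (a C : ℝ) (V : Set ℂ), IsOpen V →
    SimplyConnectedSpace V → Disjoint V (postcritical f) → Acc P a ⊆ V → ∀ ε : ℝ, 0 < ε →
    ∃ N : ℕ, ∀ (q : ℕ) (t : ℝ) (m : ℤ) (z : ℂ), N ≤ q → (f.natDegree : ℝ) ^ q * t = t + m →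
      |t - a| * (f.natDegree : ℝ) ^ q ≤ C → Land P t z → ∃ y ∈ Acc P a, ‖z - y‖ ≤ ε

end Pool.Agent.Imp
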