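import Pool.Agent.Lib.MP_1c105c_an.Defs15
import Pool.Agent.Lib.MP_1c105c_an.Mea

/-! MP_1c105c_an: impressions that contain points of the critical orbit (interface of
stage 18). -/

set_option autoImplicit false

open Filter Topology Set Polynomial

namespace Pool.Agent.Imp

/-- IMC: impressions are connected (a decreasing intersection of the closures of the images of
`ball (exp (2 π i θ)) δ ∩ {w | 1 < ‖w‖}`). -/
def ImcStatement : Prop :=
  ∀ (f : ℂ[X]) (ψ : ℂ → ℂ), 2 ≤ f.natDegree → IsInverseBoettcher f ψ → ∀ θ : ℝ,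
    IsPreconnected (impression ψ θ)

/-- IMJ: every point of the Julia set is in an impression. -/
def ImjStatement : Prop :=
  ∀ (f : ℂ[X]) (ψ : ℂ → ℂ), 2 ≤ f.natDegree → IsInverseBoettcher f ψ → ∀ z ∈ julia f,
    ∃ θ : ℝ, z ∈ impression ψ θ

/-- IMS: impressions are upper semicontinuous. -/
def ImsStatement : Prop :=
  ∀ (ψ : ℂ → ℂ) (a y : ℂ),
    y ∈ closure {z | ∃ θ : ℝ, z ∈ impression ψ θ ∧ a ∈ impression ψ θ} →
    ∃ θ : ℝ, y ∈ impression ψ θ ∧ a ∈ impression ψ θ

/-- ACN: the accumulation set of a ray is not empty and is contained in the impression. -/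
def AcnStatement : Prop :=
  ∀ (f : ℂ[X]) (ψ : ℂ → ℂ), 2 ≤ f.natDegree → IsInverseBoettcher f ψ → ∀ θ : ℝ,
    (accumulation ψ θ).Nonempty ∧ accumulation ψ θ ⊆ impression ψ θ

end Pool.Agent.Imp
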