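import Pool.Agent.Lib.MP_1c105c_an.Defs17
import Pool.Agent.Lib.MP_1c105c_an.Lgk

/-! MP_1c105c_an: polynomials with several critical points (interface of stage 19). -/

set_option autoImplicit false

open Filter Topology Set Polynomial

namespace Pool.Agent.Imp

open Lgk98

/-- A point is joined to infinity by a connected set with the property `p`. -/
def Esc (p : ℂ → Prop) (z : ℂ) : Prop :=
  ∃ Q : Set ℂ, IsPreconnected Q ∧ z ∈ Q ∧ (∀ R : ℝ, ∃ y ∈ Q, R < ‖y‖) ∧ ∀ y ∈ Q, p y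

/-- ODD: the chords of a simple closed curve turn an odd number of times. (Continuous logarithm
`Λ (x, y)` of `G x - G (x + y)` on the strip `0 < y < m`; `Λ (x + y, m - y) = Λ (x, y) + π i (2 n + 1)`
with a constant `n`; apply this twice.) -/
def OddStatement : Prop :=
  ∀ (G : ℝ → ℂ) (m : ℝ), 0 < m → Continuous G → (∀ x, G (x + m) = G x) →
    (∀ x y : ℝ, 0 < y → y < m → G x ≠ G (x + y)) →
    ∃ κ : ℤ, Odd κ ∧ ∀ y : ℝ, 0 < y → y < m → ∀ L : ℝ → ℂ, Continuous L →
      (∀ x, Complex.exp (L x) = G x - G (x + y)) →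
      ∀ x, L (x + m) = L x + 2 * Real.pi * Complex.I * κ

/-- TOR: two disjoint closed curves that do not wind around each other. (Continuous logarithm
`Λ (x, y)` of `G x - H y` on the plane, `N`-periodic in `x` and in `y`.) -/
def TorStatement : Prop :=
  ∀ (G H : ℝ → ℂ) (N x₀ y₀ : ℝ), Continuous G → Continuous H → (∀ x, G (x + N) = G x) →
    (∀ x, H (x + N) = H x) → (∀ x y, G x ≠ H y) → HasLog (range G) (H y₀) →
    HasLog (range H) (G x₀) → ∀ L : ℝ → ℂ, Continuous L →
    (∀ x, Complex.exp (L x) = G x - H x) → ∀ x, L (x + N) = L x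

/-- LFT: all lifts of a curve without critical values (`Polynomial.isCoveringMapOn_eval`). -/
def LftStatement : Prop :=
  ∀ (f : ℂ[X]) (c : ℝ → ℂ), 2 ≤ f.natDegree → Continuous c →
    (∀ z, f.derivative.eval z = 0 → ∀ x, f.eval z ≠ c x) →
    ∃ Z : Fin f.natDegree → ℝ → ℂ, (∀ j, Continuous (Z j)) ∧ (∀ j x, f.eval (Z j x) = c x) ∧
      (∀ x, Function.Injective fun j => Z j x) ∧ ∀ x w, f.eval w = c x → ∃ j, w = Z j x

/-- TOP: all preimages of some point of a simple closed curve are joined to infinity off the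
preimage of the curve. (Half line from `c 0` through the last point `c x₀` of the curve on it,
chosen without critical values; its part behind `c x₀` lifts.) -/
def TopStatement : Prop :=
  ∀ (f : ℂ[X]) (c : ℝ → ℂ), 2 ≤ f.natDegree → Continuous c → (∀ x, c (x + 1) = c x) →
    (∀ x y : ℝ, 0 < y → y < 1 → c x ≠ c (x + y)) →
    (∀ z, f.derivative.eval z = 0 → ∀ x, f.eval z ≠ c x) →
    ∃ x₀ : ℝ, ∀ z, f.eval z = c x₀ → Esc (fun y => ∀ x, f.eval y = c x → y = z) z

/-- MON: the lifts of a simple closed curve are closed if the critical points are joined to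
infinity off its preimage. (From ODD, TOR, LFT, TOP. `N = (natDegree f)!` is a period of all
lifts. If `m ≥ 2` is the minimal period of `G`, then `f' (G x)` is the product of
`G x - G (x + k)`, `0 < k < m`, whose logarithms have increments `2 π i κ N / m` over `[0, N]` by
ODD, and of `G x - H x` for the other lifts `H`, with increments `0` by TOR and TOP
(`Crs63.hasLog_of_unbounded`), and also the product of `G x - z` over the roots `z` of `f'`, with
increments `0`.) -/
def MonStatement : Prop :=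
  ∀ (f : ℂ[X]) (c G : ℝ → ℂ), 2 ≤ f.natDegree → Continuous c → (∀ x, c (x + 1) = c x) →
    (∀ x y : ℝ, 0 < y → y < 1 → c x ≠ c (x + y)) →
    (∀ z, f.derivative.eval z = 0 → Esc (fun y => ∀ x, f.eval y ≠ c x) z) →
    Continuous G → (∀ x, f.eval (G x) = c x) → ∀ x, G (x + 1) = G x

/-- MONA: the form of MON for two arcs with common ends. -/
def MonaStatement : Prop :=
  ∀ (f : ℂ[X]) (a b A B : ℝ → ℂ), 2 ≤ f.natDegree → ContinuousOn a (Icc 0 1) →
    ContinuousOn b (Icc 0 1) → InjOn a (Icc 0 1) → InjOn b (Icc 0 1) → a 0 = b 0 → a 1 = b 1 →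
    (∀ s ∈ Ioo (0 : ℝ) 1, ∀ t ∈ Icc (0 : ℝ) 1, a s ≠ b t) →
    (∀ z, f.derivative.eval z = 0 →
      Esc (fun y => ∀ s ∈ Icc (0 : ℝ) 1, f.eval y ≠ a s ∧ f.eval y ≠ b s) z) →
    ContinuousOn A (Icc 0 1) → ContinuousOn B (Icc 0 1) →
    (∀ s ∈ Icc (0 : ℝ) 1, f.eval (A s) = a s) → (∀ s ∈ Icc (0 : ℝ) 1, f.eval (B s) = b s) →
    A 0 = B 0 → A 1 = B 1

/-- GAP: propagation along a closed set and over its gaps. -/
def GapStatement : Prop :=
  ∀ (X E : Set ℝ), IsClosed X → IsClosed E → IsClosed (X \ E) → E ⊆ X → X ⊆ Icc 0 1 → 0 ∈ E →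
    1 ∈ X → (∀ s ∈ E, ∀ t ∈ X, s < t → (∀ r, s < r → r < t → r ∉ X) → t ∈ E) → 1 ∈ E

/-- HOL: a branch of the inverse on a disc and the branch `P u ↦ P (u / d)` on a sector that agree
at one common point agree at all. (From MONA and GAP: `X` is the set of `s` in `[0, 1]` such that
`P (p₁ + s (p₂ - p₁))` is on the segment from `P p₁` to `P p₂`, `E` the set of those `s` at which
the two branches agree.) -/
def HolStatement : Prop :=
  ∀ (f : ℂ[X]) (P : ℂ → ℂ), 2 ≤ f.natDegree → Half f P → ∀ (v v' r : ℝ) (β : ℂ) (g : ℂ → ℂ)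
    (p₁ p₂ : ℂ), v' < v + 1 → ContinuousOn g (Metric.ball β r) →
    (∀ y ∈ Metric.ball β r, f.eval (g y) = y) →
    (∀ z, f.derivative.eval z = 0 → Esc (fun y => f.eval y ∉ Metric.ball β r ∧
      ∀ u : ℂ, 0 < u.re → v ≤ u.im → u.im ≤ v' → f.eval y ≠ P u) z) →
    0 < p₁.re → v ≤ p₁.im → p₁.im ≤ v' → 0 < p₂.re → v ≤ p₂.im → p₂.im ≤ v' →
    P p₁ ∈ Metric.ball β r → P p₂ ∈ Metric.ball β r → g (P p₁) = P (p₁ / f.natDegree) →
    g (P p₂) = P (p₂ / f.natDegree)

/-- COMB: among `p m + 1` angles that are periodic under multiplication by `d` two are in the same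
orbit under multiplication by `d ^ p`, if the inverse branches along their orbits at times
congruent mod `p` are of the form `v ↦ v / d + const` on the arcs without the angles `s l`.
(`S_j` the set of the `d ^ k x_i`, `i ≤ p m`, `k ≡ j` mod `p`; the gap of `S_j` after `d ^ k x_i` is `1 / d`
times the gap of `S_(j+1)` after `d ^ (k+1) x_i`, if this one contains no `s l`; so some gap on each
orbit contains an `s l`.) -/
def CombStatement : Prop :=
  ∀ (d p m : ℕ) (s : Fin m → ℝ) (x : ℕ → ℝ) (q : ℕ → ℕ) (n : ℕ → ℤ), 2 ≤ d → 1 ≤ p → 1 ≤ m →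
    (∀ i, 1 ≤ q i ∧ (d : ℝ) ^ q i * x i = x i + n i) →
    (∀ (i k : ℕ) (l : Fin m) (j : ℤ), (d : ℝ) ^ k * x i ≠ s l + j) →
    (∀ i i' k k' : ℕ, k % p = k' % p →
      (∀ l, Int.fract ((d : ℝ) ^ (k' + 1) * x i' - (d : ℝ) ^ (k + 1) * x i) <
        Int.fract (s l - (d : ℝ) ^ (k + 1) * x i)) →
      Int.fract ((d : ℝ) ^ k' * x i' - (d : ℝ) ^ k * x i) =
        Int.fract ((d : ℝ) ^ (k' + 1) * x i' - (d : ℝ) ^ (k + 1) * x i) / d) →
    ∃ (i j N : ℕ) (k : ℤ), i < j ∧ j ≤ p * m ∧ (d : ℝ) ^ (N * p) * x i = x j + k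

end Pool.Agent.Imp
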