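import Pool.Agent.Lib.MP_1c105c_an.Abs

/-! MP_1c105c_an: local connectivity of the Julia set at almost all landing points (interface). -/

set_option autoImplicit false

open Filter Topology Set Polynomial

namespace Pool.Agent.Imp

/-- The Julia set. -/
def julia (f : ℂ[X]) : Set ℂ := frontier (filledJulia f)

/-- `J` is connected im kleinen at `z`: `z` has arbitrarily small connected neighbourhoods
in `J`. -/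
def CikAt (J : Set ℂ) (z : ℂ) : Prop :=
  z ∈ J ∧ ∀ ε : ℝ, 0 < ε → ∃ Y ⊆ J, IsPreconnected Y ∧ Y ∈ 𝓝[J] z ∧ ∀ y ∈ Y, ‖y - z‖ ≤ ε

/-- The continuum seen from the arc `(α, β)`. -/
def EA (P : ℂ → ℂ) (α β : ℝ) : Set ℂ :=
  ⋂ k : ℕ, closure (P '' Rect (1 / ((k : ℝ) + 1)) α β)

/-- Local structure of size `δ` at the boundary point `t i`. -/
def Loc (f : ℂ[X]) (P : ℂ → ℂ) (δ t : ℝ) : Prop :=
  ∃ N ∈ 𝓝 ((t : ℂ) * Complex.I), ∃ O Q Y : Set ℂ, IsOpen O ∧ IsCompact Q ∧ Q ⊆ O ∧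
    (∀ u ∈ N ∩ HP, P u ∈ Q) ∧ (∀ y ∈ Q, ∀ y' ∈ Q, ‖y - y'‖ ≤ δ) ∧
    IsPreconnected Y ∧ Y ⊆ julia f ∧ O ∩ julia f ⊆ Y ∧ (∀ y ∈ Y, ∀ y' ∈ Y, ‖y - y'‖ ≤ δ)

/-- INF: `P` tends to infinity with `Re u`. -/
def InfStatement : Prop :=
  ∀ (f : ℂ[X]) (ψ : ℂ → ℂ), IsInverseBoettcher f ψ →
    ∀ R : ℝ, ∃ M : ℝ, ∀ u : ℂ, M ≤ u.re → R ≤ ‖ψ (Complex.exp (2 * Real.pi * u))‖

/-- JUL: facts on the Julia set. -/
def JulStatement : Prop :=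
  ∀ (f : ℂ[X]) (P : ℂ → ℂ), 2 ≤ f.natDegree → Half f P →
    IsClosed (filledJulia f) ∧ Bornology.IsBounded (filledJulia f) ∧
    (∀ w, f.eval w ∈ julia f ↔ w ∈ julia f) ∧
    (∀ (u : ℕ → ℂ) (z : ℂ), (∀ n, u n ∈ HP) → Tendsto (fun n => (u n).re) atTop (𝓝 0) →
      Tendsto (fun n => P (u n)) atTop (𝓝 z) → z ∈ julia f) ∧
    (∀ (t : ℝ) (z : ℂ), HasLim P t z → z ∈ julia f)

/-- EXA: the continuum seen from an arc, exactness (may use `JulStatement`). -/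
def ExaStatement : Prop :=
  ∀ (f : ℂ[X]) (P : ℂ → ℂ), 2 ≤ f.natDegree → Half f P →
    (∀ R : ℝ, ∃ M : ℝ, ∀ u : ℂ, M ≤ u.re → R ≤ ‖P u‖) → ∀ α β : ℝ, α < β →
    IsCompact (EA P α β) ∧ IsPreconnected (EA P α β) ∧ EA P α β ⊆ julia f ∧
    ∀ n : ℕ, 1 < (f.natDegree : ℝ) ^ n * (β - α) →
      julia f ⊆ (fun w => f.eval w)^[n] '' EA P α β

/-- INT: a closed set whose image is everything has relative interior. -/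
def IntStatement : Prop :=
  ∀ (F : ℂ[X]) (J E : Set ℂ), 1 ≤ F.natDegree → (∀ w, F.eval w ∈ J ↔ w ∈ J) → IsClosed E →
    (∀ y ∈ J, ∃ x ∈ E, F.eval x = y) →
    (∃ y ∈ J, ∀ c, F.derivative.eval c = 0 → F.eval c ≠ y) →
    ∃ O : Set ℂ, IsOpen O ∧ (O ∩ J).Nonempty ∧ O ∩ J ⊆ E

/-- DEN: the landing points of a full set of angles with trivial impression are dense. -/
def DenStatement : Prop :=
  ∀ (f : ℂ[X]) (ψ : ℂ → ℂ), 2 ≤ f.natDegree → IsInverseBoettcher f ψ →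
    (∃ x₀ ∈ filledJulia f, ∃ x₁ ∈ filledJulia f, x₀ ≠ x₁) →
    ∀ S : Set ℝ, (∀ θ ∈ S, TrivialImpression ψ θ) → MeasureTheory.volume Sᶜ = 0 →
    ∀ O : Set ℂ, IsOpen O → (O ∩ julia f).Nonempty →
      ∃ θ ∈ S, ∃ z ∈ O,
        Tendsto ψ (𝓝[{w : ℂ | 1 < ‖w‖}] Complex.exp (2 * Real.pi * θ * Complex.I)) (𝓝 z)

/-- LOC: facts on `Loc`. -/
def LocStatement : Prop :=
  ∀ (f : ℂ[X]) (P : ℂ → ℂ), 2 ≤ f.natDegree → Half f P →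
    (∀ δ : ℝ, IsOpen {t : ℝ | Loc f P δ t}) ∧
    (∀ δ t : ℝ, Loc f P δ (t + 1) ↔ Loc f P δ t) ∧
    (∀ δ δ' t : ℝ, δ ≤ δ' → Loc f P δ t → Loc f P δ' t) ∧
    (∀ t : ℝ, (∀ δ : ℝ, 0 < δ → Loc f P δ t) → ∃ z, HasLim P t z ∧ CikAt (julia f) z)

/-- ABS2: the combinatorial output, second form. -/
def Abs2Statement : Prop :=
  ∀ (f : ℂ[X]) (P : ℂ → ℂ), 2 ≤ f.natDegree → Half f P →
    (∀ R : ℝ, ∃ M : ℝ, ∀ u : ℂ, M ≤ u.re → R ≤ ‖P u‖) →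
    (∃ (t : ℝ) (z : ℂ), HasLim P t z) →
    (∀ O : Set ℂ, IsOpen O → (O ∩ julia f).Nonempty → ∃ (t : ℝ) (z : ℂ), HasLim P t z ∧ z ∈ O) →
    ∃ (α β : ℝ) (W : ℕ → Finset ℕ), 0 ≤ α ∧ α < β ∧ β ≤ 1 ∧ W 0 = ∅ ∧ W 1 = ∅ ∧
      (∀ k, (W k).card ≤ f.natDegree - 1) ∧
      ∀ δ : ℝ, 0 < δ → ∃ (M : ℕ) (B : ℕ → Finset ℕ), (∀ n, (B n).card ≤ M) ∧
        ∀ n j : ℕ, j < f.natDegree ^ n → j ∉ B n → (∀ k < n, j % f.natDegree ^ k ∉ W k) →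
          ∀ t ∈ Set.Ioo α β, Loc f P δ ((t + j) / f.natDegree ^ n)

/-- The target, second form. -/
def Target2 : Prop :=
  ∀ (f : ℂ[X]) (ψ : ℂ → ℂ), 2 ≤ f.natDegree → IsInverseBoettcher f ψ →
    ((∀ θ : ℝ, RayLands ψ θ) ∨ ∃ θ : ℝ, TrivialImpression ψ θ) →
    {θ : ℝ | ∃ z, Tendsto ψ (𝓝[{w : ℂ | 1 < ‖w‖}] Complex.exp (2 * Real.pi * θ * Complex.I))
      (𝓝 z) ∧ CikAt (julia f) z} ∈ residual ℝ ∧
    dimH {θ : ℝ | ¬ ∃ z,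
      Tendsto ψ (𝓝[{w : ℂ | 1 < ‖w‖}] Complex.exp (2 * Real.pi * θ * Complex.I))
      (𝓝 z) ∧ CikAt (julia f) z} < 1 ∧
    julia f ⊆ closure {z | CikAt (julia f) z}

end Pool.Agent.Imp
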