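import Pool.Agent.Lib.MP_1c105c_an.Defs3

/-! MP_1c105c_an: two rays that land together (interface of stage 4). -/

set_option autoImplicit false

open Filter Topology Set Polynomial

namespace Pool.Agent.Imp

/-- The ray of angle `t` lands at `z` (half plane model). -/
def Land (P : ℂ → ℂ) (t : ℝ) (z : ℂ) : Prop :=
  Tendsto (fun s : ℝ => P (s + t * Complex.I)) (𝓝[>] 0) (𝓝 z)

/-- Two different rays land at `z`. -/
def Bi (P : ℂ → ℂ) (z : ℂ) : Prop :=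
  ∃ a b : ℝ, Land P a z ∧ Land P b z ∧ ∀ m : ℤ, b ≠ a + m

/-- The index `j` of level `n` is regular for the words `W`. -/
def Reg (d : ℕ) (W : ℕ → Finset ℕ) (n j : ℕ) : Prop := ∀ k < n, j % d ^ k ∉ W k

/-- LPB: rays are pulled back by `f` (open mapping and the `d` lifts of a path). -/
def LpbStatement : Prop :=
  ∀ (f : ℂ[X]) (P : ℂ → ℂ), 2 ≤ f.natDegree → Half f P → ∀ (t : ℝ) (z w : ℂ), Land P t z →
    f.eval w = z → ∃ t' : ℝ, Land P t' w ∧ ∃ m : ℤ, f.natDegree * t' = t + m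

/-- BIN: the points where two rays land are not contained in a finite set
(may use `LpbStatement`, `JulStatement`). -/
def BinStatement : Prop :=
  ∀ (f : ℂ[X]) (P : ℂ → ℂ), 2 ≤ f.natDegree → Half f P → (∃ z, Bi P z) →
    ∀ E : Finset ℂ, ∃ z, Bi P z ∧ z ∉ E

/-- UNS: the pull backs of a pair of rays (may use `AreaStatement`). -/
def UnsStatement : Prop :=
  ∀ (f : ℂ[X]) (P : ℂ → ℂ), 2 ≤ f.natDegree → Half f P → ∀ (m₀ : ℕ) (a b : ℝ) (z : ℂ),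
    Land P a z → Land P b z → (∀ m : ℤ, b ≠ a + m) →
    (∀ c, f.derivative.eval c = 0 → ∀ k < m₀, (fun w => f.eval w)^[k + 1] c ≠ z) →
    ∃ (s₁ : ℝ) (W : ℕ → Finset ℕ), 0 < s₁ ∧ (∀ k < m₀, W k = ∅) ∧
      (∀ k, (W k).card ≤ f.natDegree - 1) ∧
      ∀ δ : ℝ, 0 < δ → ∃ (M : ℕ) (B : ℕ → Finset ℕ), (∀ n, (B n).card ≤ M) ∧
        ∀ n : ℕ, ∃ w : ℕ → ℂ,
          (∀ i j : ℕ, i < f.natDegree ^ n → j < f.natDegree ^ n → Reg f.natDegree W n i →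
            Reg f.natDegree W n j → w i = w j → i = j) ∧
          ∀ j : ℕ, j < f.natDegree ^ n → Reg f.natDegree W n j → ∃ j' : ℤ,
            Land P ((a + j) / f.natDegree ^ n) (w j) ∧
            Land P ((b + j') / f.natDegree ^ n) (w j) ∧
            (j ∉ B n → ∀ s : ℝ, 0 < s → s * (f.natDegree : ℝ) ^ n ≤ s₁ →
              ‖P (s + ((a + j) / f.natDegree ^ n : ℝ) * Complex.I) - w j‖ ≤ δ ∧
              ‖P (s + ((b + j') / f.natDegree ^ n : ℝ) * Complex.I) - w j‖ ≤ δ)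

/-- NC: pairs of rays with different landing points do not cross
(may use `JulStatement`, `LgkStatement` and the lemmas of Jan.lean, Lgk.lean, Cik.lean). -/
def NcStatement : Prop :=
  ∀ (f : ℂ[X]) (P : ℂ → ℂ), 2 ≤ f.natDegree → Half f P →
    (∀ R : ℝ, ∃ M : ℝ, ∀ u : ℂ, M ≤ u.re → R ≤ ‖P u‖) → ∀ (a b x y : ℝ) (w w' : ℂ),
    Land P a w → Land P b w → Land P x w' → Land P y w' → w ≠ w' →
    a < x → x < b → b < y → y < a + 1 → False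

/-- CNT: the number of irregular words. -/
def CntStatement : Prop :=
  ∀ (d m₀ n : ℕ) (W : ℕ → Finset ℕ), 2 ≤ d → (∀ k < m₀, W k = ∅) →
    (∀ k, (W k).card ≤ d - 1) → ∀ S : Finset ℕ, (∀ j ∈ S, j < d ^ n ∧ ¬ Reg d W n j) →
    S.card * d ^ m₀ ≤ d ^ (n + 1)

/-- SHO: short chords (from BIN, UNS, NC, CNT). -/
def ShoStatement : Prop :=
  ∀ (f : ℂ[X]) (P : ℂ → ℂ), 2 ≤ f.natDegree → Half f P →
    (∀ R : ℝ, ∃ M : ℝ, ∀ u : ℂ, M ≤ u.re → R ≤ ‖P u‖) → (∃ z, Bi P z) → ∀ l : ℝ, 0 < l →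
    ∃ (a b : ℝ) (w : ℂ), a < b ∧ b ≤ a + l ∧ Land P a w ∧ Land P b w

/-- LEN: most ray pieces over a short interval are short (length and area). -/
def LenStatement : Prop :=
  ∀ (f : ℂ[X]) (P : ℂ → ℂ), 2 ≤ f.natDegree → Half f P → ∀ κ ε : ℝ, 0 < κ → 0 < ε →
    ∃ l₁ : ℝ, 0 < l₁ ∧ ∀ (a p q : ℝ) (n : ℕ) (S : Finset ℤ), p < q → q - p ≤ l₁ →
      1 ≤ (f.natDegree : ℝ) ^ n * (q - p) →
      (∀ j ∈ S, p < (a + j) / f.natDegree ^ n ∧ (a + j) / f.natDegree ^ n < q ∧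
        ∃ s s' : ℝ, 1 ≤ s * (f.natDegree : ℝ) ^ n ∧ s ≤ q - p ∧
          1 ≤ s' * (f.natDegree : ℝ) ^ n ∧ s' ≤ q - p ∧
          κ < ‖P (s + ((a + j) / f.natDegree ^ n : ℝ) * Complex.I) -
            P (s' + ((a + j) / f.natDegree ^ n : ℝ) * Complex.I)‖) →
      (S.card : ℝ) ≤ ε * ((f.natDegree : ℝ) ^ n * (q - p))

/-- HYP: comparable points are close. -/
def HypStatement : Prop :=
  ∀ (f : ℂ[X]) (P : ℂ → ℂ), 2 ≤ f.natDegree → Half f P → ∀ κ q : ℝ, 0 < κ → 0 < q →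
    ∃ s₀ : ℝ, 0 < s₀ ∧ ∀ u v : ℂ, 0 < u.re → u.re ≤ s₀ → q * u.re ≤ v.re → v.re ≤ u.re →
      |u.im - v.im| ≤ u.re → ‖P u - P v‖ ≤ κ

/-- JAC: a small closed crosscut cuts off a small region (from JUL, LGK, JAN and the lemmas of
Cik.lean). -/
def JacStatement : Prop :=
  ∀ (f : ℂ[X]) (P : ℂ → ℂ), 2 ≤ f.natDegree → Half f P →
    (∀ R : ℝ, ∃ M : ℝ, ∀ u : ℂ, M ≤ u.re → R ≤ ‖P u‖) → ∀ (a b σ R : ℝ) (w : ℂ),
    a < b → b < a + 1 → 0 < σ → 0 < R → Land P a w → Land P b w →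
    (∀ s : ℝ, 0 < s → s ≤ σ → ‖P (s + a * Complex.I) - w‖ < R ∧
      ‖P (s + b * Complex.I) - w‖ < R) →
    (∀ τ ∈ Set.Icc a b, ‖P (σ + τ * Complex.I) - w‖ < R) →
    ∀ u : ℂ, 0 < u.re → u.re < σ → a < u.im → u.im < b → ‖P u - w‖ < R

/-- BIA: two rays that land together give small oscillation (from BIN, UNS, NC, CNT, SHO, LEN,
HYP, JAC). -/
def BiaStatement : Prop :=
  ∀ (f : ℂ[X]) (P : ℂ → ℂ), 2 ≤ f.natDegree → Half f P →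
    (∀ R : ℝ, ∃ M : ℝ, ∀ u : ℂ, M ≤ u.re → R ≤ ‖P u‖) → (∃ z, Bi P z) →
    ∀ δ : ℝ, 0 < δ → ∃ t : ℝ, Osc P δ t

/-- The ray of angle `θ` lands at `z`. -/
def LandsAt (ψ : ℂ → ℂ) (θ : ℝ) (z : ℂ) : Prop :=
  Tendsto (fun r : ℝ => ψ (r * Complex.exp (2 * Real.pi * θ * Complex.I))) (𝓝[>] 1) (𝓝 z)

/-- The target, fourth form. -/
def Target4 : Prop :=
  ∀ (f : ℂ[X]) (ψ : ℂ → ℂ), 2 ≤ f.natDegree → IsInverseBoettcher f ψ →
    ((∀ θ : ℝ, ∃ z, LandsAt ψ θ z) ∨ (∃ z, CikAt (julia f) z) ∨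
      (∀ δ : ℝ, 0 < δ → ∃ θ : ℝ, Metric.diam (impression ψ θ) < δ) ∨
      (∃ (θ₁ θ₂ : ℝ) (z : ℂ), LandsAt ψ θ₁ z ∧ LandsAt ψ θ₂ z ∧ ∀ m : ℤ, θ₂ ≠ θ₁ + m)) →
    goodAngles f ψ ∈ residual ℝ ∧ dimH (goodAngles f ψ)ᶜ < 1 ∧
      julia f ⊆ closure {z | CikAt (julia f) z}

end Pool.Agent.Imp
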