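import Pool.Agent.Lib.MP_1c105c_an.Defs4

/-! MP_1c105c_an: the landing set is meagre or residual (final interface). -/

set_option autoImplicit false

open Filter Topology Set Polynomial

namespace Pool.Agent.Imp

/-- NM: if the rays land for a set of angles that is not meagre, the oscillation is small
somewhere. -/
def NmStatement : Prop :=
  ∀ P : ℂ → ℂ, ContinuousOn P HP → ¬ IsMeagre {t : ℝ | ∃ z, Land P t z} →
    ∀ δ : ℝ, 0 < δ → ∃ t : ℝ, Osc P δ t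

/-- The target, fifth form. -/
def Target5 : Prop :=
  ∀ (f : ℂ[X]) (ψ : ℂ → ℂ), 2 ≤ f.natDegree → IsInverseBoettcher f ψ →
    (¬ IsMeagre {θ : ℝ | ∃ z, LandsAt ψ θ z} ∨ (∃ z, CikAt (julia f) z) ∨
      (∀ δ : ℝ, 0 < δ → ∃ θ : ℝ, Metric.diam (impression ψ θ) < δ) ∨
      (∃ (θ₁ θ₂ : ℝ) (z : ℂ), LandsAt ψ θ₁ z ∧ LandsAt ψ θ₂ z ∧ ∀ m : ℤ, θ₂ ≠ θ₁ + m)) →
    goodAngles f ψ ∈ residual ℝ ∧ dimH (goodAngles f ψ)ᶜ < 1 ∧
      {z : julia f | CikAt (julia f) z} ∈ residual (julia f)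

end Pool.Agent.Imp
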