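import Pool.Agent.Lib.MP_1c105c_an.Defs5

/-! MP_1c105c_an: repelling fixed points are landing points (interface of stage 5). -/

set_option autoImplicit false

open Filter Topology Set Polynomial

namespace Pool.Agent.Imp

/-- FIX: the rays with fixed angle land at fixed points (from `HypStatement`). -/
def FixStatement : Prop :=
  ∀ (f : ℂ[X]) (P : ℂ → ℂ), 2 ≤ f.natDegree → Half f P → ∀ (t : ℝ) (k : ℤ),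
    f.natDegree * t = t + k → ∃ z, f.eval z = z ∧ Land P t z

/-- RJU: a repelling fixed point is in the Julia set. -/
def RjuStatement : Prop :=
  ∀ (f : ℂ[X]) (z₀ : ℂ), 2 ≤ f.natDegree → f.eval z₀ = z₀ → 1 < ‖f.derivative.eval z₀‖ →
    z₀ ∈ julia f

/-- KOE: the linearization at a repelling fixed point (inverse Koenigs function). -/
def KoeStatement : Prop :=
  ∀ (f : ℂ[X]) (z₀ : ℂ), f.eval z₀ = z₀ → 1 < ‖f.derivative.eval z₀‖ →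
    ∃ (ρ : ℝ) (χ : ℂ → ℂ), 0 < ρ ∧ DifferentiableOn ℂ χ (Metric.ball 0 ρ) ∧
      Set.InjOn χ (Metric.ball 0 ρ) ∧ (∀ w ∈ Metric.ball 0 ρ, deriv χ w ≠ 0) ∧ χ 0 = z₀ ∧
      ∀ w, ‖f.derivative.eval z₀ * w‖ < ρ →
        f.eval (χ w) = χ (f.derivative.eval z₀ * w)

/-- The lift `Ψ` of `P` through the linearization `χ` with indices `j`. -/
structure Psi (f : ℂ[X]) (P : ℂ → ℂ) (ρ : ℝ) (Λ : ℂ) (χ Ψ : ℂ → ℂ) (j : ℕ → ℤ) : Prop where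
  j0 : j 0 = 0
  diff : DifferentiableOn ℂ Ψ HP
  ne : ∀ u ∈ HP, Ψ u ≠ 0
  rel : ∀ u ∈ HP, ∀ n : ℕ, ‖Ψ u‖ < ρ * ‖Λ‖ ^ n →
    χ (Ψ u / Λ ^ n) = P ((u + j n * Complex.I) / f.natDegree ^ n)

/-- PSI: existence of the lift (may use `AppStatement`, `HypStatement`). -/
def PsiStatement : Prop :=
  ∀ (f : ℂ[X]) (P : ℂ → ℂ), 2 ≤ f.natDegree → Half f P →
    (∀ R : ℝ, ∃ M : ℝ, ∀ u : ℂ, M ≤ u.re → R ≤ ‖P u‖) → ∀ (z₀ : ℂ), z₀ ∈ julia f →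
    ∀ (Λ : ℂ) (ρ : ℝ) (χ : ℂ → ℂ), 1 < ‖Λ‖ → 0 < ρ → DifferentiableOn ℂ χ (Metric.ball 0 ρ) →
      Set.InjOn χ (Metric.ball 0 ρ) → (∀ w ∈ Metric.ball 0 ρ, deriv χ w ≠ 0) → χ 0 = z₀ →
      (∀ w, ‖Λ * w‖ < ρ → f.eval (χ w) = χ (Λ * w)) →
      ∃ (Ψ : ℂ → ℂ) (j : ℕ → ℤ), Psi f P ρ Λ χ Ψ j

/-- ENE: a lift that is injective modulo `Λ` has no power growth (length and area). -/
def EneStatement : Prop :=
  ∀ (Λ : ℂ) (Ψ : ℂ → ℂ) (c C : ℝ), 1 < ‖Λ‖ → DifferentiableOn ℂ Ψ HP → (∀ u ∈ HP, Ψ u ≠ 0) →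
    (∀ u ∈ HP, ∀ v ∈ HP, ∀ k : ℕ, Ψ u = Λ ^ k * Ψ v → k = 0 ∧ u = v) → 0 < c →
    (∀ x : ℝ, 1 ≤ x → c * Real.log x - C ≤ Real.log ‖Ψ x‖) → False

/-- DEL: a ray lands at a repelling fixed point (from RJU, KOE, PSI, ENE). -/
def DelStatement : Prop :=
  ∀ (f : ℂ[X]) (P : ℂ → ℂ), 2 ≤ f.natDegree → Half f P →
    (∀ R : ℝ, ∃ M : ℝ, ∀ u : ℂ, M ≤ u.re → R ≤ ‖P u‖) → ∀ z₀ : ℂ, f.eval z₀ = z₀ →
    1 < ‖f.derivative.eval z₀‖ → ∃ t : ℝ, Land P t z₀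

/-- REP: if all fixed points are repelling, two rays land together (from FIX, DEL). -/
def RepStatement : Prop :=
  ∀ (f : ℂ[X]) (P : ℂ → ℂ), 2 ≤ f.natDegree → Half f P →
    (∀ R : ℝ, ∃ M : ℝ, ∀ u : ℂ, M ≤ u.re → R ≤ ‖P u‖) →
    (∀ z, f.eval z = z → 1 < ‖f.derivative.eval z‖) → ∃ z, Bi P z

/-- The target, sixth form. -/
def Target6 : Prop :=
  ∀ (f : ℂ[X]) (ψ : ℂ → ℂ), 2 ≤ f.natDegree → IsInverseBoettcher f ψ →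
    (¬ IsMeagre {θ : ℝ | ∃ z, LandsAt ψ θ z} ∨ (∃ z, CikAt (julia f) z) ∨
      (∀ δ : ℝ, 0 < δ → ∃ θ : ℝ, Metric.diam (impression ψ θ) < δ) ∨
      (∃ (θ₁ θ₂ : ℝ) (z : ℂ), LandsAt ψ θ₁ z ∧ LandsAt ψ θ₂ z ∧ ∀ m : ℤ, θ₂ ≠ θ₁ + m) ∨
      (∀ z, f.eval z = z → 1 < ‖f.derivative.eval z‖)) →
    goodAngles f ψ ∈ residual ℝ ∧ dimH (goodAngles f ψ)ᶜ < 1 ∧
      {z : julia f | CikAt (julia f) z} ∈ residual (julia f)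

end Pool.Agent.Imp
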