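import Pool.Agent.Lib.MP_1c105c_an.Defs6

/-! MP_1c105c_an: impressions and critical values (interface of stage 6). -/

set_option autoImplicit false

open Filter Topology Set Polynomial

namespace Pool.Agent.Imp

/-- LIV: inverse branches on simply connected open sets. -/
def LivStatement : Prop :=
  ∀ (f : ℂ[X]) (V : Set ℂ) (g : ℂ → ℂ), IsOpen V → SimplyConnectedSpace V →
    DifferentiableOn ℂ g V → (∀ z ∈ V, ∀ c, f.derivative.eval c = 0 → f.eval c ≠ g z) →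
    ∀ z₀ ∈ V, ∀ w, f.eval w = g z₀ →
    ∃ h : ℂ → ℂ, DifferentiableOn ℂ h V ∧ (∀ z ∈ V, f.eval (h z) = g z) ∧ h z₀ = w

/-- RGW: at every level there is a univalent branch on a simply connected open set without
critical values (may use `LivStatement`). -/
def RgwStatement : Prop :=
  ∀ (f : ℂ[X]) (P : ℂ → ℂ), 2 ≤ f.natDegree → Half f P → ∀ V : Set ℂ, IsOpen V →
    SimplyConnectedSpace V → (∀ c, f.derivative.eval c = 0 → f.eval c ∉ V) →
    ∀ η α β : ℝ, 0 < η → α < β → (∀ u ∈ Rect η α β, P u ∈ V) →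
    ∀ n : ℕ, ∃ (j : ℕ) (h : ℂ → ℂ), DifferentiableOn ℂ h V ∧
      (∀ z ∈ V, (fun w => f.eval w)^[n] (h z) = z) ∧
      ∀ u ∈ Rect η α β, h (P u) = P ((u + j * Complex.I) / (f.natDegree : ℂ) ^ n)

/-- UCO: inverse branches of high iterates contract away from the interior of `K` (may use
`JulStatement` and `koebe_cover`, `harnack` of MP_5011cf_an). -/
def UcoStatement : Prop :=
  ∀ (f : ℂ[X]) (P : ℂ → ℂ), 2 ≤ f.natDegree → Half f P →
    (∀ R : ℝ, ∃ M : ℝ, ∀ u : ℂ, M ≤ u.re → R ≤ ‖P u‖) → ∀ V Q : Set ℂ, IsOpen V →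
    IsCompact Q → IsPreconnected Q → Q ⊆ V → Disjoint Q (interior (filledJulia f)) →
    ∀ ε : ℝ, 0 < ε → ∃ N : ℕ, ∀ n : ℕ, N ≤ n → ∀ h : ℂ → ℂ, DifferentiableOn ℂ h V →
      (∀ z ∈ V, (fun w => f.eval w)^[n] (h z) = z) → ∀ a ∈ Q, ∀ b ∈ Q, ‖h a - h b‖ ≤ ε

/-- NBR: a neighbourhood of an impression contains the image of a rectangle. -/
def NbrStatement : Prop :=
  ∀ (f : ℂ[X]) (ψ : ℂ → ℂ), 2 ≤ f.natDegree → IsInverseBoettcher f ψ → ∀ (θ : ℝ) (V : Set ℂ),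
    IsOpen V → impression ψ θ ⊆ V → ∃ η α β : ℝ, 0 < η ∧ α < θ ∧ θ < β ∧
      IsCompact (closure ((fun u => ψ (Complex.exp (2 * Real.pi * u))) '' Rect η α β)) ∧
      closure ((fun u => ψ (Complex.exp (2 * Real.pi * u))) '' Rect η α β) ⊆ V

/-- CRI: an impression in a simply connected open set without critical values gives small
oscillation (from RGW, UCO, NBR). -/
def CriStatement : Prop :=
  ∀ (f : ℂ[X]) (ψ : ℂ → ℂ), 2 ≤ f.natDegree → IsInverseBoettcher f ψ → ∀ (θ : ℝ) (V : Set ℂ),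
    IsOpen V → SimplyConnectedSpace V → impression ψ θ ⊆ V →
    (∀ c, f.derivative.eval c = 0 → f.eval c ∉ V) → ∀ δ : ℝ, 0 < δ →
    ∃ t : ℝ, Osc (fun u => ψ (Complex.exp (2 * Real.pi * u))) δ t

end Pool.Agent.Imp
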