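import Pool.Agent.Lib.MP_1c105c_an.Defs7

/-! MP_1c105c_an: critical values and filled impressions (interface of stage 8). -/

set_option autoImplicit false

open Filter Topology Set Polynomial

namespace Pool.Agent.Imp

/-- The cut: a compact connected set `A` from `v` to the ray of angle `t₀`. -/
structure ArcData (f : ℂ[X]) (P : ℂ → ℂ) (θ : ℝ) (v : ℂ) (η t₀ s₂ : ℝ) (A : Set ℂ) : Prop where
  hη : 0 < η
  hs : η < s₂
  t1 : θ < t₀
  t2 : t₀ < θ + 1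
  cpt : IsCompact A
  pre : IsPreconnected A
  mem : v ∈ A
  base : P (s₂ + t₀ * Complex.I) ∈ A
  low : ∀ u : ℂ, s₂ < u.re → P u ∉ A
  cell : Disjoint A (closure (P '' Rect η (θ - η) (θ + η)))
  ray : ∀ s : ℝ, 0 < s → P (s + θ * Complex.I) ∉ A

/-- The complementary component of the cut and its ray that contains the ray of angle `θ`. -/
def V0 (P : ℂ → ℂ) (θ η t₀ s₂ : ℝ) (A : Set ℂ) : Set ℂ :=
  connectedComponentIn ((A ∪ (fun s : ℝ => P (s + t₀ * Complex.I)) '' Set.Ici s₂)ᶜ)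
    (P ((η / 2 : ℝ) + θ * Complex.I))

/-- The component of the preimage of order `n` that contains the ray of angle
`(θ + j) / d ^ n`. -/
def Cc (f : ℂ[X]) (P : ℂ → ℂ) (θ η t₀ s₂ : ℝ) (A : Set ℂ) (n j : ℕ) : Set ℂ :=
  connectedComponentIn ((fun w => f.eval w)^[n] ⁻¹' V0 P θ η t₀ s₂ A)
    (P (((η / 2 : ℝ) + (θ + j : ℝ) * Complex.I) / f.natDegree ^ n))

/-- PTH: construction of the cut (may use `HalfStatement`, `NbrStatement`). -/
def PthStatement : Prop :=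
  ∀ (f : ℂ[X]) (ψ : ℂ → ℂ), 2 ≤ f.natDegree → IsInverseBoettcher f ψ → ∀ (θ : ℝ) (v : ℂ)
    (A : Set ℂ), v ∈ filledJulia f → IsPreconnected A → ¬ Bornology.IsBounded A →
    Disjoint A (impression ψ θ) → v ∈ A →
    ∃ (η t₀ s₂ : ℝ) (A' : Set ℂ),
      ArcData f (fun u => ψ (Complex.exp (2 * Real.pi * u))) θ v η t₀ s₂ A'

/-- DEG: the number of roots in a relatively open and closed set is constant. -/
def DegStatement : Prop :=
  ∀ (F : ℂ[X]) (W O₁ O₂ : Set ℂ), 1 ≤ F.natDegree → IsPreconnected W → IsOpen O₁ → IsOpen O₂ →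
    (∀ z, F.eval z ∈ W → z ∈ O₁ ∪ O₂) → (∀ z, F.eval z ∈ W → z ∈ O₁ → z ∉ O₂) →
    ∀ w ∈ W, ∀ w' ∈ W, ∀ (dec : DecidablePred (· ∈ O₁)),
      ((F - C w).roots.filter (· ∈ O₁)).card = ((F - C w').roots.filter (· ∈ O₁)).card

/-- JMP: the logarithm jumps across the top. -/
def JmpStatement : Prop :=
  ∀ (f : ℂ[X]) (P : ℂ → ℂ), 2 ≤ f.natDegree → Half f P → ∀ (k : Set ℂ) (S e a x b : ℝ), 0 < e →
    e < S → a < x → x < b → b < a + 1 → IsCompact k → IsPreconnected k →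
    P (S + a * Complex.I) ∈ k → P (S + b * Complex.I) ∈ k → P (S + x * Complex.I) ∉ k →
    (∀ ε : ℝ, 0 < ε → ε < e → ∃ L : ℂ → ℂ,
      ContinuousOn L (k ∪ (fun τ : ℝ => P (S + τ * Complex.I)) '' Set.Icc a b) ∧
      ∀ ζ ∈ k ∪ (fun τ : ℝ => P (S + τ * Complex.I)) '' Set.Icc a b,
        Complex.exp (L ζ) = ζ - P ((S - ε : ℝ) + x * Complex.I)) →
    (∀ ε : ℝ, 0 < ε → ∃ L : ℂ → ℂ,
      ContinuousOn L (k ∪ (fun τ : ℝ => P (S + τ * Complex.I)) '' Set.Icc a b) ∧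
      ∀ ζ ∈ k ∪ (fun τ : ℝ => P (S + τ * Complex.I)) '' Set.Icc a b,
        Complex.exp (L ζ) = ζ - P ((S + ε : ℝ) + x * Complex.I)) → False

/-- CRS: connected sets that cross near infinity intersect (from JMP and the lemmas of
Lgk.lean). -/
def CrsStatement : Prop :=
  ∀ (f : ℂ[X]) (P : ℂ → ℂ), 2 ≤ f.natDegree → Half f P →
    (∀ R : ℝ, ∃ M : ℝ, ∀ u : ℂ, M ≤ u.re → R ≤ ‖P u‖) → ∀ (O E : Set ℂ) (σ a x b y : ℝ),
    IsOpen O → IsPreconnected O → IsPreconnected E → Disjoint O E → 0 < σ →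
    a < x → x < b → b < y → y < a + 1 →
    (∀ s : ℝ, σ ≤ s → P (s + a * Complex.I) ∈ O ∧ P (s + b * Complex.I) ∈ O) →
    (∀ s : ℝ, σ ≤ s → P (s + x * Complex.I) ∉ O ∧ P (s + y * Complex.I) ∉ O) →
    P (σ + x * Complex.I) ∈ E → P (σ + y * Complex.I) ∈ E →
    (∀ u : ℂ, σ < u.re → P u ∉ E) → False

/-- SEP: many separated cells (from DEG, CRS). -/
def SepStatement : Prop :=
  ∀ (f : ℂ[X]) (P : ℂ → ℂ), 2 ≤ f.natDegree → Half f P →
    (∀ R : ℝ, ∃ M : ℝ, ∀ u : ℂ, M ≤ u.re → R ≤ ‖P u‖) → ∀ (θ : ℝ) (c : ℂ) (η t₀ s₂ : ℝ)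
    (A : Set ℂ), f.derivative.eval c = 0 → ArcData f P θ (f.eval c) η t₀ s₂ A → ∀ n : ℕ,
    ∃ S : Finset ℕ, (∀ j ∈ S, j < f.natDegree ^ (n + 1)) ∧ f.natDegree ^ n + 1 ≤ S.card ∧
      ∀ j ∈ S, ∀ k ∈ S, j ≠ k →
        Cc f P θ η t₀ s₂ A (n + 1) j ≠ Cc f P θ η t₀ s₂ A (n + 1) k

/-- ENG: the energy of the symmetric functions of the roots in a piece of the preimage. -/
def EngStatement : Prop :=
  ∀ (m : ℕ) (R r : ℝ), 0 < R → 0 < r → ∃ κ : ℝ, ∀ (F : ℂ[X]) (y : ℂ) (O₁ O₂ : Set ℂ),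
    1 ≤ F.natDegree → IsOpen O₁ → IsOpen O₂ →
    (∀ z, F.eval z ∈ Metric.ball y (2 * r) → z ∈ O₁ ∪ O₂) → Disjoint O₁ O₂ →
    ∀ (dec : DecidablePred (· ∈ O₁)),
    (∀ w ∈ Metric.ball y (2 * r), ((F - C w).roots.filter (· ∈ O₁)).card = m) →
    (∀ z, F.eval z ∈ Metric.ball y (2 * r) → ‖z‖ ≤ R) → ∀ T : ℂ, ‖T‖ ≤ R →
    ∀ p ∈ Metric.ball y r, ∀ q ∈ Metric.ball y r,
      (∀ c, F.derivative.eval c = 0 → F.eval c ≠ p ∧ F.eval c ≠ q) →
      ‖(((F - C p).roots.filter (· ∈ O₁)).map fun z => T - z).prod -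
        (((F - C q).roots.filter (· ∈ O₁)).map fun z => T - z).prod‖ ^ 2 ≤
      κ * (MeasureTheory.volume (O₁ ∩ (fun z => F.eval z) ⁻¹' Metric.ball y (2 * r))).toReal

/-- CV8: if a critical value is outside a filled impression, the oscillation is small somewhere
(from PTH, DEG, SEP, ENG). -/
def Cv8Statement : Prop :=
  ∀ (f : ℂ[X]) (ψ : ℂ → ℂ), 2 ≤ f.natDegree → IsInverseBoettcher f ψ → ∀ (θ : ℝ) (c : ℂ)
    (A : Set ℂ), f.derivative.eval c = 0 → IsPreconnected A → ¬ Bornology.IsBounded A →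
    Disjoint A (impression ψ θ) → f.eval c ∈ A → ∀ δ : ℝ, 0 < δ →
    ∃ t : ℝ, Osc (fun u => ψ (Complex.exp (2 * Real.pi * u))) δ t

end Pool.Agent.Imp
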