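import Pool.Agent.Lib.MP_1c105c_an.Defs8

/-! MP_1c105c_an: filled impressions (interface of stage 9). -/

set_option autoImplicit false

open Filter Topology Set Polynomial

namespace Pool.Agent.Imp

/-- The filled impression of the angle `θ`: the points that no unbounded connected set missing
the impression contains. -/
def filledImpression (ψ : ℂ → ℂ) (θ : ℝ) : Set ℂ :=
  {z | ∀ A : Set ℂ, IsPreconnected A → ¬ Bornology.IsBounded A → z ∈ A →
    (A ∩ impression ψ θ).Nonempty}

/-- ORB: the points that lie in all filled impressions are mapped to such points. -/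
def OrbStatement : Prop :=
  ∀ (f : ℂ[X]) (ψ : ℂ → ℂ), 2 ≤ f.natDegree → IsInverseBoettcher f ψ → ∀ v : ℂ,
    (∀ θ : ℝ, v ∈ filledImpression ψ θ) → ∀ θ : ℝ, f.eval v ∈ filledImpression ψ θ

/-- ALP: if a filled impression contains the orbits of the critical values, it contains all
nonrepelling fixed points. -/
def AlpStatement : Prop :=
  ∀ (f : ℂ[X]) (ψ : ℂ → ℂ), 2 ≤ f.natDegree → IsInverseBoettcher f ψ → ∀ θ : ℝ,
    (∀ c, f.derivative.eval c = 0 → ∀ n : ℕ,
      (fun w => f.eval w)^[n + 1] c ∈ filledImpression ψ θ) →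
    ∀ α, f.eval α = α → ‖f.derivative.eval α‖ ≤ 1 → α ∈ filledImpression ψ θ

end Pool.Agent.Imp
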