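import Pool.Agent.Lib.MP_1c105c_an.Defs6

/-! MP_1c105c_an, row DEL: every repelling fixed point is the landing point of a ray. -/

set_option autoImplicit false

open Filter Topology Set Polynomial

namespace Pool.Agent.Imp

namespace Del

lemma per_int {P : ℂ → ℂ} (h : ∀ u, P (u + Complex.I) = P u) (m : ℤ) (u : ℂ) :
    P (u + m * Complex.I) = P u := by
  have h1 : ∀ (n : ℕ) (u : ℂ), P (u + n * Complex.I) = P u := by
    intro n
    induction n with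
    | zero => intro u; simp
    | succ n ih =>
      intro u
      have : u + ((n + 1 : ℕ) : ℂ) * Complex.I = (u + n * Complex.I) + Complex.I := by
        push_cast; ring
      rw [this, h, ih]
  obtain ⟨n, rfl | rfl⟩ := m.eq_nat_or_neg
  · exact_mod_cast h1 n u
  · have h2 := h1 n (u + ((-(n : ℤ) : ℤ) : ℂ) * Complex.I)
    have h3 : u + ((-(n : ℤ) : ℤ) : ℂ) * Complex.I + (n : ℂ) * Complex.I = u := by
      push_cast; ring
    rw [h3] at h2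
    exact h2.symm

section

variable {f : ℂ[X]} {P : ℂ → ℂ} {ρ : ℝ} {Λ : ℂ} {χ Ψ : ℂ → ℂ} {j : ℕ → ℤ}

/-- a power of `‖Λ‖` that is large -/
lemma exists_pow (hρ : 0 < ρ) (hΛ : 1 < ‖Λ‖) (a : ℝ) : ∃ n₀ : ℕ, ∀ n, n₀ ≤ n →
    a < ρ * ‖Λ‖ ^ n := by
  obtain ⟨n₀, hn⟩ := pow_unbounded_of_one_lt (a / ρ) hΛ
  refine ⟨n₀, fun n hn' => ?_⟩
  have h1 : ‖Λ‖ ^ n₀ ≤ ‖Λ‖ ^ n := pow_le_pow_right₀ hΛ.le hn'
  have h2 : a / ρ < ‖Λ‖ ^ n := lt_of_lt_of_le hn h1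
  rw [div_lt_iff₀ hρ] at h2
  linarith

lemma mem_HP_div {d : ℕ} (hd : 2 ≤ d) {u : ℂ} (hu : u ∈ HP) (a : ℤ) (n : ℕ) :
    (u + a * Complex.I) / (d : ℂ) ^ n ∈ HP := by
  have hd0 : (0 : ℝ) < (d : ℝ) ^ n := by positivity
  have h1 : (u + a * Complex.I) / (d : ℂ) ^ n
      = ((((d : ℝ) ^ n)⁻¹ : ℝ) : ℂ) * (u + a * Complex.I) := by
    push_cast
    rw [div_eq_inv_mul]
  show 0 < ((u + a * Complex.I) / (d : ℂ) ^ n).re
  rw [h1, Complex.re_ofReal_mul]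
  refine mul_pos (inv_pos.2 hd0) ?_
  have h2 : (u + a * Complex.I).re = u.re := by simp
  rw [h2]
  exact hu

/-- a relation between two values of `Ψ` gives a relation between the arguments -/
lemma key (hd : 2 ≤ f.natDegree) (hP : Half f P) (hρ : 0 < ρ) (hΛ : 1 < ‖Λ‖)
    (S : Psi f P ρ Λ χ Ψ j) {u v : ℂ} (hu : u ∈ HP) (hv : v ∈ HP) {k : ℕ}
    (h : Ψ u = Λ ^ k * Ψ v) : ∃ n₀ : ℕ, ∀ n, n₀ ≤ n → ∃ m : ℤ,
      u = (f.natDegree : ℂ) ^ k * v
        + ((f.natDegree : ℤ) ^ k * j n - j (n + k) + m * (f.natDegree : ℤ) ^ (n + k) : ℤ)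
          * Complex.I := by
  have hΛ0 : Λ ≠ 0 := by
    intro h0
    rw [h0, norm_zero] at hΛ
    linarith
  have hdc : (f.natDegree : ℂ) ≠ 0 := by
    have : f.natDegree ≠ 0 := by omega
    exact_mod_cast this
  obtain ⟨n₁, h1⟩ := exists_pow hρ hΛ ‖Ψ u‖
  obtain ⟨n₂, h2⟩ := exists_pow hρ hΛ ‖Ψ v‖
  refine ⟨max n₁ n₂, fun n hn => ?_⟩
  have e1 := S.rel u hu (n + k) (h1 _ (by have := le_max_left n₁ n₂; omega))
  have e2 := S.rel v hv n (h2 _ (by have := le_max_right n₁ n₂; omega))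
  have e3 : Ψ u / Λ ^ (n + k) = Ψ v / Λ ^ n := by
    rw [h, pow_add]
    field_simp
  rw [e3, e2] at e1
  obtain ⟨m, hm⟩ := hP.inj _ (mem_HP_div hd hv (j n) n) _ (mem_HP_div hd hu (j (n + k)) (n + k)) e1
  refine ⟨-m, ?_⟩
  have h3 : (u + j (n + k) * Complex.I)
      = (f.natDegree : ℂ) ^ k * (v + j n * Complex.I)
        - m * (f.natDegree : ℂ) ^ (n + k) * Complex.I := by
    rw [pow_add] at hm ⊢
    field_simp at hm
    linear_combination -hm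
  push_cast
  linear_combination h3

/-- a relation between the indices gives a functional equation of `Ψ` -/
lemma func (hd : 2 ≤ f.natDegree) (hP : Half f P) (hρ : 0 < ρ) (hΛ : 1 < ‖Λ‖)
    (hinj : Set.InjOn χ (Metric.ball 0 ρ)) (S : Psi f P ρ Λ χ Ψ j) {k : ℕ} {M : ℤ} {n₀ : ℕ}
    (hM : ∀ n, n₀ ≤ n → ∃ m : ℤ,
      M = (f.natDegree : ℤ) ^ k * j n - j (n + k) + m * (f.natDegree : ℤ) ^ (n + k))
    {v : ℂ} (hv : v ∈ HP) : Ψ ((f.natDegree : ℂ) ^ k * v + M * Complex.I) = Λ ^ k * Ψ v := by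
  have hΛ0 : Λ ≠ 0 := by
    intro h0
    rw [h0, norm_zero] at hΛ
    linarith
  have hΛn : 0 < ‖Λ‖ := by linarith
  have hdc : (f.natDegree : ℂ) ≠ 0 := by
    have : f.natDegree ≠ 0 := by omega
    exact_mod_cast this
  have hu : (f.natDegree : ℂ) ^ k * v + M * Complex.I ∈ HP := by
    have h1 : (f.natDegree : ℂ) ^ k * v = ((f.natDegree ^ k : ℕ) : ℝ) * v := by push_cast; ring
    show 0 < ((f.natDegree : ℂ) ^ k * v + M * Complex.I).re
    rw [Complex.add_re, h1, Complex.re_ofReal_mul]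
    have h2 : ((M : ℂ) * Complex.I).re = 0 := by simp
    rw [h2, add_zero]
    refine mul_pos ?_ hv
    have : 0 < f.natDegree ^ k := by positivity
    exact_mod_cast this
  set u := (f.natDegree : ℂ) ^ k * v + M * Complex.I with hudef
  obtain ⟨n₁, h1⟩ := exists_pow hρ hΛ ‖Ψ u‖
  obtain ⟨n₂, h2⟩ := exists_pow hρ hΛ ‖Ψ v‖
  obtain ⟨n, hn0, hn1, hn2⟩ : ∃ n, n₀ ≤ n ∧ n₁ ≤ n ∧ n₂ ≤ n :=
    ⟨max n₀ (max n₁ n₂), by simp, by simp, by simp⟩
  obtain ⟨m, hm⟩ := hM n hn0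
  have b1 := h1 (n + k) (by omega)
  have b2 := h2 n hn2
  have e1 := S.rel u hu (n + k) b1
  have e2 := S.rel v hv n b2
  have e3 : (u + j (n + k) * Complex.I) / (f.natDegree : ℂ) ^ (n + k)
      = (v + j n * Complex.I) / (f.natDegree : ℂ) ^ n + m * Complex.I := by
    have hm' : (M : ℂ) = (f.natDegree : ℂ) ^ k * j n - j (n + k)
        + m * (f.natDegree : ℂ) ^ (n + k) := by
      rw [hm]; push_cast; ring
    rw [hudef, hm', pow_add]
    field_simp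
    ring
  rw [e3, per_int hP.per, ← e2] at e1
  have hb : ∀ (w : ℂ) (q : ℕ), ‖w‖ < ρ * ‖Λ‖ ^ q → w / Λ ^ q ∈ Metric.ball (0 : ℂ) ρ := by
    intro w q hw
    rw [Metric.mem_ball, dist_zero_right, norm_div, norm_pow, div_lt_iff₀ (pow_pos hΛn q)]
    exact hw
  have e4 := hinj (hb _ _ b1) (hb _ _ b2) e1
  rw [pow_add] at e4
  field_simp at e4
  linear_combination e4

/-- the constant of a relation -/
lemma exists_M (hd : 2 ≤ f.natDegree) (hP : Half f P) (hρ : 0 < ρ) (hΛ : 1 < ‖Λ‖)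
    (S : Psi f P ρ Λ χ Ψ j) {u v : ℂ} (hu : u ∈ HP) (hv : v ∈ HP) {k : ℕ}
    (h : Ψ u = Λ ^ k * Ψ v) : ∃ (M : ℤ) (n₀ : ℕ),
      u = (f.natDegree : ℂ) ^ k * v + M * Complex.I ∧ ∀ n, n₀ ≤ n → ∃ m : ℤ,
        M = (f.natDegree : ℤ) ^ k * j n - j (n + k) + m * (f.natDegree : ℤ) ^ (n + k) := by
  obtain ⟨n₀, hn⟩ := key hd hP hρ hΛ S hu hv h
  obtain ⟨m₀, h0⟩ := hn n₀ le_rfl
  refine ⟨_, n₀, h0, fun n hn' => ?_⟩
  obtain ⟨m, hm⟩ := hn n hn'
  refine ⟨m, ?_⟩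
  rw [hm] at h0
  have h1 := add_left_cancel h0
  have h2 := mul_right_cancel₀ Complex.I_ne_zero h1
  exact_mod_cast h2.symm

/-- no relation with `k = 0` -/
lemma zero_case (hd : 2 ≤ f.natDegree) (hP : Half f P) (hρ : 0 < ρ) (hΛ : 1 < ‖Λ‖)
    (S : Psi f P ρ Λ χ Ψ j) {u v : ℂ} (hu : u ∈ HP) (hv : v ∈ HP)
    (h : Ψ u = Λ ^ 0 * Ψ v) : u = v := by
  obtain ⟨M, n₀, h1, h2⟩ := exists_M hd hP hρ hΛ S hu hv h
  have hM : M = 0 := by
    have hd1 : 1 < f.natDegree := by omega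
    obtain ⟨n, hn1, hn2⟩ : ∃ n, n₀ ≤ n ∧ M.natAbs < f.natDegree ^ n := by
      refine ⟨max n₀ M.natAbs, le_max_left _ _, ?_⟩
      exact lt_of_le_of_lt (le_max_right n₀ M.natAbs) (Nat.lt_pow_self hd1)
    obtain ⟨m, hm⟩ := h2 n hn1
    have hdvd : ((f.natDegree ^ n : ℕ) : ℤ) ∣ M := by
      refine ⟨m, ?_⟩
      rw [hm]
      push_cast
      ring_nf
    have h3 := Int.natAbs_dvd_natAbs.2 hdvd
    rw [Int.natAbs_natCast] at h3
    have h4 := Nat.eq_zero_of_dvd_of_lt h3 hn2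
    exact Int.natAbs_eq_zero.1 h4
  rw [h1, hM]
  simp

/-- a positive function with `g (D s) = a g s` and `a > 1` tends to `0` at `0` -/
lemma tendsto_zero {D a C : ℝ} (hD : 1 < D) (ha : 1 < a) {g : ℝ → ℝ} (hg0 : ∀ s, 0 ≤ g s)
    (hg : ∀ s, 0 < s → g (D * s) = a * g s) (hC : ∀ s, 1 ≤ s → s ≤ D → g s ≤ C) :
    Tendsto g (𝓝[>] 0) (𝓝 0) := by
  have hC0 : 0 ≤ C := (hg0 1).trans (hC 1 le_rfl hD.le)
  have hgn : ∀ (N : ℕ) (s : ℝ), 0 < s → g (D ^ N * s) = a ^ N * g s := by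
    intro N
    induction N with
    | zero => intro s _; simp
    | succ N ih =>
      intro s hs
      have h1 : D ^ (N + 1) * s = D * (D ^ N * s) := by ring
      rw [h1, hg _ (by positivity), ih s hs]
      ring
  rw [Metric.tendsto_nhdsWithin_nhds]
  intro ε hε
  obtain ⟨N₀, hN₀⟩ := pow_unbounded_of_one_lt (C / ε) ha
  refine ⟨(D ^ N₀)⁻¹, by positivity, fun s hs hs' => ?_⟩
  have hs0 : 0 < s := hs
  rw [Real.dist_eq, sub_zero, abs_of_pos hs0] at hs'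
  rw [Real.dist_eq, sub_zero, abs_of_nonneg (hg0 s)]
  have hex : ∃ N : ℕ, 1 ≤ D ^ N * s := by
    obtain ⟨N, hN⟩ := pow_unbounded_of_one_lt (1 / s) hD
    refine ⟨N, ?_⟩
    rw [div_lt_iff₀ hs0] at hN
    exact hN.le
  classical
  set N := Nat.find hex with hNdef
  have h1 : 1 ≤ D ^ N * s := Nat.find_spec hex
  have hN0 : N₀ < N := by
    by_contra hle
    push Not at hle
    have h2 : D ^ N * s ≤ D ^ N₀ * s :=
      mul_le_mul_of_nonneg_right (pow_le_pow_right₀ hD.le hle) hs0.le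
    have h3 : D ^ N₀ * s < 1 := by
      have h4 : D ^ N₀ * s < D ^ N₀ * (D ^ N₀)⁻¹ := mul_lt_mul_of_pos_left hs' (by positivity)
      rwa [mul_inv_cancel₀ (by positivity)] at h4
    linarith
  have h2 : D ^ N * s ≤ D := by
    obtain ⟨N', hN'⟩ : ∃ N', N = N' + 1 := ⟨N - 1, by omega⟩
    have h3 : D ^ N' * s < 1 := by
      have := Nat.find_min hex (m := N') (by rw [← hNdef, hN']; exact Nat.lt_succ_self _)
      exact not_le.1 this
    rw [hN', pow_succ]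
    nlinarith
  have h3 := hC _ h1 h2
  rw [hgn N s hs0] at h3
  have h4 : C / ε < a ^ N := hN₀.trans_le (pow_le_pow_right₀ ha.le hN0.le)
  rw [div_lt_iff₀ hε] at h4
  have haN : 0 < a ^ N := by positivity
  by_contra hge
  push Not at hge
  have h5 : a ^ N * ε ≤ a ^ N * g s := mul_le_mul_of_nonneg_left hge haN.le
  linarith

/-- Case 2: a relation gives a landing ray -/
lemma case2 (hd : 2 ≤ f.natDegree) (hP : Half f P) (hρ : 0 < ρ) (hΛ : 1 < ‖Λ‖)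
    (hχ : DifferentiableOn ℂ χ (Metric.ball 0 ρ)) (hinj : Set.InjOn χ (Metric.ball 0 ρ))
    (S : Psi f P ρ Λ χ Ψ j) {u v : ℂ} (hu : u ∈ HP) (hv : v ∈ HP) {k : ℕ} (hk : k ≠ 0)
    (h : Ψ u = Λ ^ k * Ψ v) : ∃ t : ℝ, Land P t (χ 0) := by
  obtain ⟨M, n₀, -, h2⟩ := exists_M hd hP hρ hΛ S hu hv h
  have hfun := fun (v : ℂ) (hv : v ∈ HP) => func hd hP hρ hΛ hinj S h2 hv
  set D : ℝ := (f.natDegree : ℝ) ^ k with hDdef
  have hd1 : (1 : ℝ) < f.natDegree := by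
    have : 1 < f.natDegree := by omega
    exact_mod_cast this
  have hD : 1 < D := one_lt_pow₀ hd1 hk
  let t : ℝ := -(M : ℝ) / (D - 1)
  have ht : D * t + M = t := by
    have h3 : t * (D - 1) = -(M : ℝ) := div_mul_cancel₀ _ (by linarith)
    linarith
  have hHP : ∀ s : ℝ, 0 < s → (s : ℂ) + t * Complex.I ∈ HP := by
    intro s hs
    show 0 < ((s : ℂ) + t * Complex.I).re
    simpa using hs
  let g : ℝ → ℝ := fun s => ‖Ψ (s + t * Complex.I)‖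
  have hg : ∀ s, 0 < s → g (D * s) = ‖Λ‖ ^ k * g s := by
    intro s hs
    have h3 := hfun _ (hHP s hs)
    have h4 : (f.natDegree : ℂ) ^ k * ((s : ℂ) + t * Complex.I) + M * Complex.I
        = ((D * s : ℝ) : ℂ) + t * Complex.I := by
      have h5 : ((D * t + M : ℝ) : ℂ) = (t : ℂ) := by rw [ht]
      have h6 : (D : ℂ) = (f.natDegree : ℂ) ^ k := by rw [hDdef]; push_cast; ring
      push_cast at h5 ⊢
      rw [← h6]
      linear_combination Complex.I * h5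
    rw [h4] at h3
    show ‖Ψ (((D * s : ℝ) : ℂ) + t * Complex.I)‖ = ‖Λ‖ ^ k * ‖Ψ (s + t * Complex.I)‖
    rw [h3, norm_mul, norm_pow]
  have hcont : ContinuousOn (fun s : ℝ => Ψ (s + t * Complex.I)) (Set.Ioi 0) := by
    refine S.diff.continuousOn.comp (by fun_prop) fun s hs => hHP s hs
  have hgc : ContinuousOn g (Set.Icc 1 D) :=
    (hcont.norm).mono fun s hs => lt_of_lt_of_le one_pos hs.1
  obtain ⟨C, hC⟩ := (isCompact_Icc.bddAbove_image hgc)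
  have hg0 : Tendsto g (𝓝[>] 0) (𝓝 0) :=
    tendsto_zero hD (one_lt_pow₀ hΛ hk) (fun s => norm_nonneg _) hg
      fun s hs hs' => hC ⟨s, ⟨hs, hs'⟩, rfl⟩
  have hΨ0 : Tendsto (fun s : ℝ => Ψ (s + t * Complex.I)) (𝓝[>] 0) (𝓝 0) :=
    tendsto_zero_iff_norm_tendsto_zero.2 hg0
  refine ⟨t, ?_⟩
  have hχc : ContinuousAt χ 0 :=
    (hχ.differentiableAt (Metric.ball_mem_nhds 0 hρ)).continuousAt
  have h3 : Tendsto (fun s : ℝ => χ (Ψ (s + t * Complex.I))) (𝓝[>] 0) (𝓝 (χ 0)) :=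
    hχc.tendsto.comp hΨ0
  refine h3.congr' ?_
  have h4 : ∀ᶠ s in 𝓝[>] (0 : ℝ), g s < ρ := hg0.eventually (gt_mem_nhds hρ)
  filter_upwards [h4, self_mem_nhdsWithin] with s hs hs'
  have h5 := S.rel _ (hHP s hs') 0 (by simpa using hs)
  rw [S.j0] at h5
  simpa using h5

/-- Case 1: growth of `Ψ` -/
lemma growth (hd : 2 ≤ f.natDegree) (hρ : 0 < ρ) (hΛ : 1 < ‖Λ‖)
    (hχ : DifferentiableOn ℂ χ (Metric.ball 0 ρ)) (S : Psi f P ρ Λ χ Ψ j)
    (hinf : ∀ R : ℝ, ∃ M : ℝ, ∀ u : ℂ, M ≤ u.re → R ≤ ‖P u‖) :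
    ∃ c C : ℝ, 0 < c ∧ ∀ x : ℝ, 1 ≤ x → c * Real.log x - C ≤ Real.log ‖Ψ x‖ := by
  have hΛn : 0 < ‖Λ‖ := by linarith
  have hd1 : (1 : ℝ) < f.natDegree := by
    have : 1 < f.natDegree := by omega
    exact_mod_cast this
  have hld : 0 < Real.log f.natDegree := Real.log_pos hd1
  have hlΛ : 0 < Real.log ‖Λ‖ := Real.log_pos hΛ
  have hHP : ∀ x : ℝ, 0 < x → (x : ℂ) ∈ HP := fun x hx => by
    show 0 < (x : ℂ).re
    simpa using hx
  -- a bound for `χ` on the ball of half the radius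
  obtain ⟨R₀, hR₀⟩ : ∃ R₀, ∀ w ∈ Metric.closedBall (0 : ℂ) (ρ / 2), ‖χ w‖ ≤ R₀ := by
    have h1 : ContinuousOn χ (Metric.closedBall 0 (ρ / 2)) :=
      hχ.continuousOn.mono (Metric.closedBall_subset_ball (by linarith))
    obtain ⟨C, hC⟩ := (isCompact_closedBall (0 : ℂ) (ρ / 2)).bddAbove_image h1.norm
    exact ⟨C, fun w hw => hC ⟨w, hw, rfl⟩⟩
  obtain ⟨M₁, hM₁⟩ := hinf (R₀ + 1)
  set M₀ := max M₁ 1 with hM₀
  have hM₀1 : 1 ≤ M₀ := le_max_right _ _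
  have hM₀0 : 0 < M₀ := by linarith
  -- the compact part
  obtain ⟨m₁, hm₁⟩ : ∃ m₁, ∀ x ∈ Set.Icc 1 M₀, m₁ ≤ Real.log ‖Ψ (x : ℂ)‖ := by
    have h1 : ContinuousOn (fun x : ℝ => Real.log ‖Ψ (x : ℂ)‖) (Set.Icc 1 M₀) := by
      refine ContinuousOn.log ?_ ?_
      · exact (S.diff.continuousOn.comp (by fun_prop)
          (fun x hx => hHP x (lt_of_lt_of_le one_pos hx.1))).norm
      · intro x hx
        exact norm_ne_zero_iff.2 (S.ne _ (hHP x (lt_of_lt_of_le one_pos hx.1)))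
    obtain ⟨C, hC⟩ := isCompact_Icc.bddBelow_image h1
    exact ⟨C, fun x hx => hC ⟨x, hx, rfl⟩⟩
  set c := Real.log ‖Λ‖ / Real.log f.natDegree with hc
  have hc0 : 0 < c := div_pos hlΛ hld
  have hcd : c * Real.log f.natDegree = Real.log ‖Λ‖ := div_mul_cancel₀ _ hld.ne'
  refine ⟨c, max (c * Real.log M₀ + Real.log ‖Λ‖ - Real.log (ρ / 2)) (c * Real.log M₀ - m₁),
    hc0, fun x hx => ?_⟩
  have hx0 : 0 < x := by linarith
  have hex : ∃ n : ℕ, ‖Ψ (x : ℂ)‖ < ρ / 2 * ‖Λ‖ ^ n := by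
    obtain ⟨n₀, hn⟩ := exists_pow (half_pos hρ) hΛ ‖Ψ (x : ℂ)‖
    exact ⟨n₀, hn n₀ le_rfl⟩
  classical
  set n := Nat.find hex with hn
  have h1 : ‖Ψ (x : ℂ)‖ < ρ / 2 * ‖Λ‖ ^ n := Nat.find_spec hex
  have h2 : ‖Ψ (x : ℂ)‖ < ρ * ‖Λ‖ ^ n := by
    have : 0 < ρ * ‖Λ‖ ^ n := by positivity
    linarith
  have h3 := S.rel _ (hHP x hx0) n h2
  have h4 : Ψ (x : ℂ) / Λ ^ n ∈ Metric.closedBall (0 : ℂ) (ρ / 2) := by
    rw [Metric.mem_closedBall, dist_zero_right, norm_div, norm_pow,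
      div_le_iff₀ (pow_pos hΛn n)]
    exact h1.le
  have h5 := hR₀ _ h4
  rw [h3] at h5
  have h6 : x < M₀ * (f.natDegree : ℝ) ^ n := by
    by_contra hge
    push Not at hge
    have hdn : (0 : ℝ) < (f.natDegree : ℝ) ^ n := by positivity
    have h7 : M₁ ≤ (((x : ℂ) + j n * Complex.I) / (f.natDegree : ℂ) ^ n).re := by
      have h8 : ((x : ℂ) + j n * Complex.I) / (f.natDegree : ℂ) ^ n
          = ((((f.natDegree : ℝ) ^ n)⁻¹ : ℝ) : ℂ) * ((x : ℂ) + j n * Complex.I) := by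
        push_cast
        rw [div_eq_inv_mul]
      rw [h8, Complex.re_ofReal_mul]
      have h9 : ((x : ℂ) + j n * Complex.I).re = x := by simp
      rw [h9, ← div_eq_inv_mul, le_div_iff₀ hdn]
      exact (mul_le_mul_of_nonneg_right (le_max_left M₁ 1) hdn.le).trans hge
    have h10 := hM₁ _ h7
    linarith
  have hlx : Real.log x ≤ Real.log M₀ + n * Real.log f.natDegree := by
    have h7 := Real.log_le_log hx0 h6.le
    rwa [Real.log_mul hM₀0.ne' (by positivity), Real.log_pow] at h7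
  have hclx : c * Real.log x ≤ c * Real.log M₀ + n * Real.log ‖Λ‖ := by
    have h7 := mul_le_mul_of_nonneg_left hlx hc0.le
    have h8 : c * (Real.log M₀ + n * Real.log f.natDegree)
        = c * Real.log M₀ + n * (c * Real.log f.natDegree) := by ring
    rw [h8, hcd] at h7
    exact h7
  rcases Nat.eq_zero_or_pos n with h0 | h0
  · have hxM : x ∈ Set.Icc 1 M₀ := by
      rw [h0, pow_zero, mul_one] at h6
      exact ⟨hx, h6.le⟩
    have h7 := hm₁ x hxM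
    have h8 := le_max_right (c * Real.log M₀ + Real.log ‖Λ‖ - Real.log (ρ / 2))
      (c * Real.log M₀ - m₁)
    rw [h0, Nat.cast_zero, zero_mul, add_zero] at hclx
    linarith
  · obtain ⟨n', hn'⟩ : ∃ n', n = n' + 1 := ⟨n - 1, by omega⟩
    have h7 : ρ / 2 * ‖Λ‖ ^ n' ≤ ‖Ψ (x : ℂ)‖ := by
      have := Nat.find_min hex (m := n') (by rw [← hn, hn']; exact Nat.lt_succ_self _)
      exact not_lt.1 this
    have h8 := Real.log_le_log (by positivity) h7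
    rw [Real.log_mul (by positivity) (by positivity), Real.log_pow] at h8
    have h9 := le_max_left (c * Real.log M₀ + Real.log ‖Λ‖ - Real.log (ρ / 2))
      (c * Real.log M₀ - m₁)
    rw [hn'] at hclx
    push_cast at hclx
    linarith

end

end Del

/-- **DEL**: a ray lands at every repelling fixed point. -/
theorem del (rju : RjuStatement) (koe : KoeStatement) (psi : PsiStatement)
    (ene : EneStatement) : DelStatement := by
  intro f P hd hP hinf z₀ hz₀ hΛ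
  obtain ⟨ρ, χ, hρ, hχ, hinj, hder, hχ0, hfun⟩ := koe f z₀ hz₀ hΛ
  obtain ⟨Ψ, j, S⟩ := psi f P hd hP hinf z₀ (rju f z₀ hd hz₀ hΛ) (f.derivative.eval z₀) ρ χ hΛ hρ
    hχ hinj hder hχ0 hfun
  rw [← hχ0]
  by_cases hcase : ∃ u ∈ HP, ∃ v ∈ HP, ∃ k : ℕ, k ≠ 0 ∧
      Ψ u = (f.derivative.eval z₀) ^ k * Ψ v
  · obtain ⟨u, hu, v, hv, k, hk, h⟩ := hcase
    exact Del.case2 hd hP hρ hΛ hχ hinj S hu hv hk h
  · exfalso
    obtain ⟨c, C, hc, hC⟩ := Del.growth hd hρ hΛ hχ S hinf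
    refine ene (f.derivative.eval z₀) Ψ c C hΛ S.diff S.ne ?_ hc hC
    intro u hu v hv k h
    by_cases hk : k = 0
    · subst hk
      exact ⟨rfl, Del.zero_case hd hP hρ hΛ S hu hv h⟩
    · exact absurd ⟨u, hu, v, hv, k, hk, h⟩ hcase

end Pool.Agent.Imp
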