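import Pool.Agent.Lib.MP_1c105c_an.Defs11
import Pool.Agent.Lib.MP_1c105c_an.Del

/-! MP_1c105c_an: a ray of periodic angle lands at every repelling periodic point (DEP). -/

set_option autoImplicit false

open Filter Topology Set Polynomial

namespace Pool.Agent.Imp

namespace Del

section

variable {f : ℂ[X]} {P : ℂ → ℂ} {ρ : ℝ} {Λ : ℂ} {χ Ψ : ℂ → ℂ} {j : ℕ → ℤ}

/-- Case 2: a relation gives a landing ray of periodic angle -/
lemma case2' (hd : 2 ≤ f.natDegree) (hP : Half f P) (hρ : 0 < ρ) (hΛ : 1 < ‖Λ‖)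
    (hχ : DifferentiableOn ℂ χ (Metric.ball 0 ρ)) (hinj : Set.InjOn χ (Metric.ball 0 ρ))
    (S : Psi f P ρ Λ χ Ψ j) {u v : ℂ} (hu : u ∈ HP) (hv : v ∈ HP) {k : ℕ} (hk : k ≠ 0)
    (h : Ψ u = Λ ^ k * Ψ v) :
    ∃ (t : ℝ) (k : ℕ) (m : ℤ), 1 ≤ k ∧ (f.natDegree : ℝ) ^ k * t = t + m ∧ Land P t (χ 0) := by
  obtain ⟨M, n₀, -, h2⟩ := exists_M hd hP hρ hΛ S hu hv h
  have hfun := fun (v : ℂ) (hv : v ∈ HP) => func hd hP hρ hΛ hinj S h2 hv
  set D : ℝ := (f.natDegree : ℝ) ^ k with hDdef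
  have hd1 : (1 : ℝ) < f.natDegree := by
    have : 1 < f.natDegree := by omega
    exact_mod_cast this
  have hD : 1 < D := one_lt_pow₀ hd1 hk
  let t : ℝ := -(M : ℝ) / (D - 1)
  have ht : D * t + M = t := by
    have h3 : t * (D - 1) = -(M : ℝ) := div_mul_cancel₀ _ (by linarith)
    linarith
  have hHP : ∀ s : ℝ, 0 < s → (s : ℂ) + t * Complex.I ∈ HP := by
    intro s hs
    show 0 < ((s : ℂ) + t * Complex.I).re
    simpa using hs
  let g : ℝ → ℝ := fun s => ‖Ψ (s + t * Complex.I)‖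
  have hg : ∀ s, 0 < s → g (D * s) = ‖Λ‖ ^ k * g s := by
    intro s hs
    have h3 := hfun _ (hHP s hs)
    have h4 : (f.natDegree : ℂ) ^ k * ((s : ℂ) + t * Complex.I) + M * Complex.I
        = ((D * s : ℝ) : ℂ) + t * Complex.I := by
      have h5 : ((D * t + M : ℝ) : ℂ) = (t : ℂ) := by rw [ht]
      have h6 : (D : ℂ) = (f.natDegree : ℂ) ^ k := by rw [hDdef]; push_cast; ring
      push_cast at h5 ⊢
      rw [← h6]
      linear_combination Complex.I * h5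
    rw [h4] at h3
    show ‖Ψ (((D * s : ℝ) : ℂ) + t * Complex.I)‖ = ‖Λ‖ ^ k * ‖Ψ (s + t * Complex.I)‖
    rw [h3, norm_mul, norm_pow]
  have hcont : ContinuousOn (fun s : ℝ => Ψ (s + t * Complex.I)) (Set.Ioi 0) := by
    refine S.diff.continuousOn.comp (by fun_prop) fun s hs => hHP s hs
  have hgc : ContinuousOn g (Set.Icc 1 D) :=
    (hcont.norm).mono fun s hs => lt_of_lt_of_le one_pos hs.1
  obtain ⟨C, hC⟩ := (isCompact_Icc.bddAbove_image hgc)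
  have hg0 : Tendsto g (𝓝[>] 0) (𝓝 0) :=
    tendsto_zero hD (one_lt_pow₀ hΛ hk) (fun s => norm_nonneg _) hg
      fun s hs hs' => hC ⟨s, ⟨hs, hs'⟩, rfl⟩
  have hΨ0 : Tendsto (fun s : ℝ => Ψ (s + t * Complex.I)) (𝓝[>] 0) (𝓝 0) :=
    tendsto_zero_iff_norm_tendsto_zero.2 hg0
  refine ⟨t, k, -M, Nat.one_le_iff_ne_zero.2 hk, ?_, ?_⟩
  · push_cast
    rw [← hDdef]
    linarith
  have hχc : ContinuousAt χ 0 :=
    (hχ.differentiableAt (Metric.ball_mem_nhds 0 hρ)).continuousAt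
  have h3 : Tendsto (fun s : ℝ => χ (Ψ (s + t * Complex.I))) (𝓝[>] 0) (𝓝 (χ 0)) :=
    hχc.tendsto.comp hΨ0
  refine h3.congr' ?_
  have h4 : ∀ᶠ s in 𝓝[>] (0 : ℝ), g s < ρ := hg0.eventually (gt_mem_nhds hρ)
  filter_upwards [h4, self_mem_nhdsWithin] with s hs hs'
  have h5 := S.rel _ (hHP s hs') 0 (by simpa using hs)
  rw [S.j0] at h5
  simpa using h5

end

end Del

/-- A ray of periodic angle lands at a repelling fixed point. -/
theorem del' (rju : RjuStatement) (koe : KoeStatement) (psi : PsiStatement)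
    (ene : EneStatement) {f : ℂ[X]} {P : ℂ → ℂ} (hd : 2 ≤ f.natDegree) (hP : Half f P)
    (hinf : ∀ R : ℝ, ∃ M : ℝ, ∀ u : ℂ, M ≤ u.re → R ≤ ‖P u‖) {z₀ : ℂ} (hz₀ : f.eval z₀ = z₀)
    (hΛ : 1 < ‖f.derivative.eval z₀‖) :
    ∃ (t : ℝ) (k : ℕ) (m : ℤ), 1 ≤ k ∧ (f.natDegree : ℝ) ^ k * t = t + m ∧ Land P t z₀ := by
  obtain ⟨ρ, χ, hρ, hχ, hinj, hder, hχ0, hfun⟩ := koe f z₀ hz₀ hΛ
  obtain ⟨Ψ, j, S⟩ := psi f P hd hP hinf z₀ (rju f z₀ hd hz₀ hΛ) (f.derivative.eval z₀) ρ χ hΛ hρ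
    hχ hinj hder hχ0 hfun
  rw [← hχ0]
  by_cases hcase : ∃ u ∈ HP, ∃ v ∈ HP, ∃ k : ℕ, k ≠ 0 ∧
      Ψ u = (f.derivative.eval z₀) ^ k * Ψ v
  · obtain ⟨u, hu, v, hv, k, hk, h⟩ := hcase
    exact Del.case2' hd hP hρ hΛ hχ hinj S hu hv hk h
  · exfalso
    obtain ⟨c, C, hc, hC⟩ := Del.growth hd hρ hΛ hχ S hinf
    refine ene (f.derivative.eval z₀) Ψ c C hΛ S.diff S.ne ?_ hc hC
    intro u hu v hv k h
    by_cases hk : k = 0
    · subst hk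
      exact ⟨rfl, Del.zero_case hd hP hρ hΛ S hu hv h⟩
    · exact absurd ⟨u, hu, v, hv, k, hk, h⟩ hcase

/-- DEP. -/
theorem dep (rju : RjuStatement) (koe : KoeStatement) (psi : PsiStatement)
    (ene : EneStatement) : DepStatement := by
  intro f P hd hP hinf n z₀ hn hz₀ hΛ
  have h1 : (Nr.It f n).eval z₀ = z₀ := by rw [Nr.it_eval, hz₀]
  have h2 : 1 < ‖(Nr.It f n).derivative.eval z₀‖ := by rwa [Nr.it_deriv]
  obtain ⟨t, k, m, hk, ht, hl⟩ := del' rju koe psi ene (Nr.deg_two hd hn) (Nr.it_half hd hP hn)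
    hinf h1 h2
  refine ⟨t, n * k, m, Nat.one_le_iff_ne_zero.2 (by
    have := Nat.mul_le_mul hn hk
    omega), ?_, hl⟩
  rw [Nr.it_deg] at ht
  rw [pow_mul]
  push_cast at ht
  exact ht

end Pool.Agent.Imp
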