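import Pool.Agent.Lib.MP_1c105c_an.Defs

/-! MP_1c105c_an, row DIM: from the combinatorial output of the inverse branches to the
dimension. -/

set_option autoImplicit false

open Filter Topology Set MeasureTheory
open scoped ENNReal NNReal

namespace Pool.Agent.Imp

namespace Dim92

/-- A base `D = d ^ p` and a digit whose interval lies in `(α, β)`. -/
theorem exists_digit (d : ℕ) (α β : ℝ) (hd : 2 ≤ d) (hα : 0 ≤ α) (hαβ : α < β) (hβ : β ≤ 1) :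
    ∃ p i₀ : ℕ, 16 ≤ d ^ p ∧ i₀ < d ^ p ∧ α < (i₀ : ℝ) / (d : ℝ) ^ p ∧
      ((i₀ : ℝ) + 1) / (d : ℝ) ^ p < β := by
  have h1 : (1 : ℝ) < d := by exact_mod_cast (by omega : 1 < d)
  have ht := tendsto_pow_atTop_atTop_of_one_lt h1
  obtain ⟨p, hp1, hp2⟩ := ((ht.eventually_ge_atTop 16).and
    (ht.eventually_gt_atTop (2 / (β - α)))).exists
  have hD : (0 : ℝ) < (d : ℝ) ^ p := by positivity
  have hba : 0 < β - α := by linarith
  have h2 : 2 < (d : ℝ) ^ p * (β - α) := (div_lt_iff₀ hba).1 hp2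
  have hfl : ((⌊α * (d : ℝ) ^ p⌋₊ : ℕ) : ℝ) ≤ α * (d : ℝ) ^ p :=
    Nat.floor_le (by positivity)
  have hfu : α * (d : ℝ) ^ p < (⌊α * (d : ℝ) ^ p⌋₊ : ℕ) + 1 := Nat.lt_floor_add_one _
  refine ⟨p, ⌊α * (d : ℝ) ^ p⌋₊ + 1, by exact_mod_cast hp1, ?_, ?_, ?_⟩
  · have : (((⌊α * (d : ℝ) ^ p⌋₊ + 1 : ℕ)) : ℝ) < ((d ^ p : ℕ) : ℝ) := by
      push_cast
      nlinarith
    exact_mod_cast this
  · rw [lt_div_iff₀ hD]
    push_cast
    linarith
  · rw [div_lt_iff₀ hD]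
    push_cast
    nlinarith

/-- An exponent `s < 1` for which the count still converges. -/
theorem exists_exponent (D : ℝ) (hD : 16 ≤ D) :
    ∃ s : ℝ, 0 < s ∧ s < 1 ∧ D ^ (1 - s) * (1 - 1 / (4 * D)) < 1 := by
  have hD0 : 0 < D := by linarith
  have hρ : 1 - 1 / (4 * D) < 1 := by
    have : 0 < 1 / (4 * D) := by positivity
    linarith
  have hcont : Tendsto (fun s : ℝ => D ^ (1 - s) * (1 - 1 / (4 * D))) (𝓝 1)
      (𝓝 (D ^ ((1 : ℝ) - 1) * (1 - 1 / (4 * D)))) := by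
    apply Tendsto.mul_const
    exact (Real.continuousAt_const_rpow hD0.ne').tendsto.comp
      ((continuous_const.sub continuous_id).tendsto (1 : ℝ))
  rw [sub_self, Real.rpow_zero, one_mul] at hcont
  have h1 := (hcont.mono_left nhdsWithin_le_nhds : Tendsto _ (𝓝[<] (1 : ℝ)) _).eventually_lt_const hρ
  have h2 : ∀ᶠ s : ℝ in 𝓝[<] 1, s ∈ Set.Ioo (0 : ℝ) 1 := Ioo_mem_nhdsLT (by norm_num)
  obtain ⟨s, hs1, hs2⟩ := (h1.and h2).exists
  exact ⟨s, hs2.1, hs2.2, hs1⟩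

/-- The `m`-th prefix of the `D`-adic expansion. -/
noncomputable def pre (D : ℕ) (t : ℝ) (m : ℕ) : ℕ := ⌊t * (D : ℝ) ^ m⌋₊

theorem pre_mem (D : ℕ) (hD : 0 < D) (t : ℝ) (ht : 0 ≤ t) (m : ℕ) :
    t ∈ Set.Icc ((pre D t m : ℝ) / (D : ℝ) ^ m) (((pre D t m : ℝ) + 1) / (D : ℝ) ^ m) := by
  have h0 : (0 : ℝ) < (D : ℝ) ^ m := by positivity
  constructor
  · rw [div_le_iff₀ h0]
    exact Nat.floor_le (by positivity)
  · rw [le_div_iff₀ h0]
    exact (Nat.lt_floor_add_one _).le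

theorem pre_lt (D : ℕ) (hD : 0 < D) (t : ℝ) (ht : 0 ≤ t) (ht1 : t < 1) (m : ℕ) :
    pre D t m < D ^ m := by
  have h0 : (0 : ℝ) < (D : ℝ) ^ m := by positivity
  unfold pre
  rw [Nat.floor_lt (by positivity)]
  push_cast
  nlinarith

theorem pre_div (D : ℕ) (hD : 0 < D) (t : ℝ) {m m' : ℕ} (h : m' ≤ m) :
    pre D t m / D ^ (m - m') = pre D t m' := by
  unfold pre
  rw [← Nat.floor_div_natCast]
  congr 1
  have h0 : (D : ℝ) ≠ 0 := by positivity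
  push_cast
  rw [mul_div_assoc, div_eq_mul_inv (_ ^ m), ← pow_sub₀ _ h0 (Nat.sub_le _ _),
    Nat.sub_sub_self h]

/-- If the digit number `m'` is `i₀` then the remainder lies in the interval of `i₀`. -/
theorem rem_mem (D : ℕ) (hD : 0 < D) (t : ℝ) (ht : 0 ≤ t) (m' i₀ : ℕ)
    (h : pre D t (m' + 1) % D = i₀) :
    (i₀ : ℝ) / D ≤ t * (D : ℝ) ^ m' - pre D t m' ∧
      t * (D : ℝ) ^ m' - pre D t m' < ((i₀ : ℝ) + 1) / D := by
  have hD0 : (0 : ℝ) < D := by exact_mod_cast hD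
  have h1 : pre D t (m' + 1) / D = pre D t m' := by
    have := pre_div D hD t (Nat.le_succ m')
    rwa [Nat.succ_sub (le_refl m'), Nat.sub_self, pow_one] at this
  have h2 : pre D t (m' + 1) = D * pre D t m' + i₀ := by
    rw [← h1, ← h]
    exact (Nat.div_add_mod _ _).symm
  have h3 : ((pre D t (m' + 1) : ℕ) : ℝ) ≤ t * (D : ℝ) ^ (m' + 1) := Nat.floor_le (by positivity)
  have h4 : t * (D : ℝ) ^ (m' + 1) < (pre D t (m' + 1) : ℕ) + 1 := Nat.lt_floor_add_one _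
  rw [h2] at h3 h4
  push_cast at h3 h4
  rw [pow_succ] at h3 h4
  constructor
  · rw [div_le_iff₀ hD0]
    nlinarith
  · rw [lt_div_iff₀ hD0]
    nlinarith

theorem rpow_lt_one_of (D : ℝ) (hD : 1 < D) (s : ℝ) (hs : 0 < s) : D ^ (-s) < 1 :=
  Real.rpow_lt_one_of_one_lt_of_neg hD (by linarith)

theorem pow_rpow (D : ℝ) (hD : 0 < D) (s : ℝ) (m : ℕ) : (D ^ m) ^ (-s) = (D ^ (-s)) ^ m := by
  rw [← Real.rpow_natCast, ← Real.rpow_natCast, ← Real.rpow_mul hD.le, ← Real.rpow_mul hD.le]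
  ring_nf

theorem per_int {V : Set ℝ} (h : ∀ t : ℝ, t + 1 ∈ V ↔ t ∈ V) (z : ℤ) (t : ℝ) :
    t + z ∈ V ↔ t ∈ V := by
  induction z using Int.induction_on with
  | zero => simp
  | succ i ih =>
    rw [← ih, ← h (t + (i : ℤ))]
    push_cast
    rw [add_assoc]
  | pred i ih =>
    rw [← ih, ← h (t + ((-(i : ℤ) - 1 : ℤ) : ℝ))]
    push_cast
    have e : t + (-(i : ℝ) - 1) + 1 = t + -(i : ℝ) := by ring
    rw [e]

/-- The measure of one bad set in the unit interval. -/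
theorem bad_zero (hC : CountStatement) (hH : HauStatement) (d p i₀ : ℕ) (α β : ℝ)
    (W : ℕ → Finset ℕ) (hd : 2 ≤ d) (h16 : 16 ≤ d ^ p) (hi₀ : i₀ < d ^ p)
    (hlo : α < (i₀ : ℝ) / (d : ℝ) ^ p) (hhi : ((i₀ : ℝ) + 1) / (d : ℝ) ^ p < β)
    (hW0 : W 0 = ∅) (hW1 : W 1 = ∅) (hW : ∀ k, (W k).card ≤ d - 1)
    (s : ℝ) (hs : 0 < s) (hs1 : ((d : ℝ) ^ p) ^ (1 - s) * (1 - 1 / (4 * (d : ℝ) ^ p)) < 1)
    (V : Set ℝ) (M : ℕ) (B : ℕ → Finset ℕ) (hM : ∀ n, (B n).card ≤ M)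
    (hB : ∀ n j : ℕ, j < d ^ n → j ∉ B n → (∀ k < n, j % d ^ k ∉ W k) →
          ∀ t ∈ Set.Ioo α β, (t + j) / (d : ℝ) ^ n ∈ V) :
    μH[s] {t : ℝ | 0 ≤ t ∧ t < 1 ∧ t ∉ V} = 0 := by
  set D : ℕ := d ^ p with hDdef
  have hDc : ((D : ℕ) : ℝ) = (d : ℝ) ^ p := by rw [hDdef]; push_cast; rfl
  have hD0 : 0 < D := by omega
  have hDr : (0 : ℝ) < D := by exact_mod_cast hD0
  have hDr1 : (1 : ℝ) < D := by exact_mod_cast (by omega : 1 < D)
  -- first part: infinitely many exceptional prefixes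
  have hA : μH[s] {t : ℝ | 0 ≤ t ∧ ∃ᶠ m in atTop, pre D t m ∈ B (p * m)} = 0 := by
    refine hH _ s D hs (by omega) (fun m => B (p * m)) ?_ ?_
    · have hg : Summable fun m : ℕ => (M : ℝ) * ((D : ℝ) ^ (-s)) ^ m :=
        (summable_geometric_of_lt_one (by positivity) (rpow_lt_one_of _ hDr1 s hs)).mul_left _
      refine Summable.of_nonneg_of_le (fun m => by positivity) (fun m => ?_) hg
      rw [pow_rpow _ hDr]
      apply mul_le_mul_of_nonneg_right _ (by positivity)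
      exact_mod_cast hM _
    · rintro x ⟨hx0, hx⟩
      exact hx.mono fun m hm => ⟨_, hm, pre_mem D hD0 x hx0 m⟩
  -- second part
  have hBm : ∀ m₀ : ℕ, μH[s] {t : ℝ | (0 ≤ t ∧ t < 1 ∧ t ∉ V) ∧
      ∀ m, m₀ ≤ m → pre D t m ∉ B (p * m)} = 0 := by
    intro m₀
    obtain ⟨C, hCm⟩ := hC d p i₀ W hd h16 hi₀ hW0 hW1 hW m₀
    refine hH _ s D hs (by omega) (fun m => ((Finset.range ((d ^ p) ^ m)).filter fun x =>
      ∀ m' < m, m₀ ≤ m' → x / (d ^ p) ^ (m - m' - 1) % d ^ p = i₀ →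
        ∃ k < p * m', x / (d ^ p) ^ (m - m') % d ^ k ∈ W k)) ?_ ?_
    · have hq : (0 : ℝ) ≤ (D : ℝ) ^ (1 - s) * (1 - 1 / (4 * (D : ℝ))) := by
        apply mul_nonneg (by positivity)
        have : 1 / (4 * (D : ℝ)) ≤ 1 := by
          rw [div_le_one (by positivity)]
          linarith
        linarith
      rw [← hDc] at hs1
      have hg : Summable fun m : ℕ => C * ((D : ℝ) ^ (1 - s) * (1 - 1 / (4 * (D : ℝ)))) ^ m :=
        (summable_geometric_of_lt_one hq hs1).mul_left _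
      refine Summable.of_nonneg_of_le (fun m => by positivity) (fun m => ?_) hg
      have h1 := hCm m
      rw [← hDc] at h1
      have h2 : C * ((D : ℝ) ^ (1 - s) * (1 - 1 / (4 * (D : ℝ)))) ^ m =
          C * ((D : ℝ) * (1 - 1 / (4 * (D : ℝ)))) ^ m * ((D : ℝ) ^ m) ^ (-s) := by
        rw [pow_rpow _ hDr, mul_assoc, ← mul_pow]
        congr 2
        rw [sub_eq_add_neg (1 : ℝ) s, Real.rpow_add hDr, Real.rpow_one]
        ring
      rw [h2]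
      exact mul_le_mul_of_nonneg_right h1 (by positivity)
    · rintro x ⟨⟨hx0, hx1, hxV⟩, hx⟩
      refine Frequently.of_forall fun m => ⟨pre D x m, ?_, pre_mem D hD0 x hx0 m⟩
      rw [Finset.mem_filter, Finset.mem_range]
      refine ⟨pre_lt D hD0 x hx0 hx1 m, fun m' hm' hm₀ hdig => ?_⟩
      have e1 : pre D x m / D ^ (m - m') = pre D x m' := pre_div D hD0 x hm'.le
      have e2 : pre D x m / D ^ (m - m' - 1) = pre D x (m' + 1) := by
        rw [Nat.sub_sub]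
        exact pre_div D hD0 x hm'
      rw [e1]
      rw [e2] at hdig
      by_contra hcon
      push Not at hcon
      have hr := rem_mem D hD0 x hx0 m' i₀ hdig
      rw [hDc] at hr
      have hlt : pre D x m' < d ^ (p * m') := by
        rw [pow_mul]
        exact pre_lt D hD0 x hx0 hx1 m'
      have hv := hB (p * m') (pre D x m') hlt (hx m' hm₀) hcon
        (x * ((d : ℝ) ^ p) ^ m' - pre D x m') ⟨lt_of_lt_of_le hlo hr.1, hr.2.trans hhi⟩
      apply hxV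
      have e3 : (x * ((d : ℝ) ^ p) ^ m' - (pre D x m' : ℝ) + (pre D x m' : ℝ)) /
          (d : ℝ) ^ (p * m') = x := by
        rw [sub_add_cancel, pow_mul, mul_div_assoc, div_self, mul_one]
        rw [← hDc]
        positivity
      rwa [e3] at hv
  -- the union
  have hsub : {t : ℝ | 0 ≤ t ∧ t < 1 ∧ t ∉ V} ⊆
      {t : ℝ | 0 ≤ t ∧ ∃ᶠ m in atTop, pre D t m ∈ B (p * m)} ∪
      ⋃ m₀ : ℕ, {t : ℝ | (0 ≤ t ∧ t < 1 ∧ t ∉ V) ∧ ∀ m, m₀ ≤ m → pre D t m ∉ B (p * m)} := by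
    intro t ht
    by_cases h : ∃ᶠ m in atTop, pre D t m ∈ B (p * m)
    · exact Or.inl ⟨ht.1, h⟩
    · right
      rw [not_frequently, eventually_atTop] at h
      obtain ⟨m₀, hm₀⟩ := h
      exact Set.mem_iUnion.2 ⟨m₀, ht, fun m hm => hm₀ m hm⟩
  exact measure_mono_null hsub (measure_union_null hA (measure_iUnion_null hBm))

end Dim92

open Dim92 in
/-- Row DIM. -/
theorem dim (hC : CountStatement) (hH : HauStatement) : DimStatement := by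
  intro d α β W V hd hα hαβ hβ hW0 hW1 hW hV hper hbad
  obtain ⟨p, i₀, h16, hi₀, hlo, hhi⟩ := exists_digit d α β hd hα hαβ hβ
  obtain ⟨s, hs0, hs1, hs⟩ := exists_exponent ((d : ℝ) ^ p) (by exact_mod_cast h16)
  have hz : ∀ δ : ℝ, 0 < δ → μH[s] {t : ℝ | 0 ≤ t ∧ t < 1 ∧ t ∉ V δ} = 0 := by
    intro δ hδ
    obtain ⟨M, B, hM, hB⟩ := hbad δ hδ
    exact bad_zero hC hH d p i₀ α β W hd h16 hi₀ hlo hhi hW0 hW1 hW s hs0 hs (V δ) M B hM hB
  have hcov : {t : ℝ | ∃ δ : ℝ, 0 < δ ∧ t ∉ V δ} ⊆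
      ⋃ (z : ℤ) (n : ℕ), (fun t : ℝ => t + z) ''
        {t : ℝ | 0 ≤ t ∧ t < 1 ∧ t ∉ V (1 / ((n : ℝ) + 1))} := by
    rintro t ⟨δ, hδ, ht⟩
    obtain ⟨n, hn⟩ := exists_nat_one_div_lt hδ
    refine Set.mem_iUnion₂.2 ⟨⌊t⌋, n, t - ⌊t⌋, ⟨?_, ?_, ?_⟩, by ring⟩
    · exact sub_nonneg.2 (Int.floor_le t)
    · exact sub_lt_iff_lt_add'.2 (Int.lt_floor_add_one t)
    · intro h
      apply ht
      have h2 : (t - ⌊t⌋) + (⌊t⌋ : ℤ) ∈ V (1 / ((n : ℝ) + 1)) :=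
        (per_int (hper _) ⌊t⌋ (t - ⌊t⌋)).2 h
      rw [sub_add_cancel] at h2
      exact hV _ _ hn.le h2
  have hnull : μH[s] {t : ℝ | ∃ δ : ℝ, 0 < δ ∧ t ∉ V δ} = 0 := by
    refine measure_mono_null hcov (measure_iUnion_null fun z => measure_iUnion_null fun n => ?_)
    rw [(isometry_add_right (z : ℝ)).hausdorffMeasure_image (Or.inl hs0.le)]
    exact hz _ (by positivity)
  have hle : dimH {t : ℝ | ∃ δ : ℝ, 0 < δ ∧ t ∉ V δ} ≤ (s.toNNReal : ℝ≥0∞) := by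
    apply dimH_le_of_hausdorffMeasure_ne_top
    rw [Real.coe_toNNReal s hs0.le, hnull]
    exact ENNReal.zero_ne_top
  refine hle.trans_lt ?_
  rw [← ENNReal.coe_one, ENNReal.coe_lt_coe, ← Real.toNNReal_one]
  exact (Real.toNNReal_lt_toNNReal_iff (by norm_num)).2 hs1

end Pool.Agent.Imp
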