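import Mathlib.Analysis.Calculus.InverseFunctionTheorem.Deriv
import Pool.Agent.Lib.MP_1c105c_an.Defs13

/-! MP_1c105c_an, row DST: two rays with the same image do not land at the same noncritical
point. -/

set_option autoImplicit false

open Filter Topology Set Polynomial

namespace Pool.Agent.Imp.DstR

theorem per_int {P : ℂ → ℂ} (h : ∀ u, P (u + Complex.I) = P u) (m : ℤ) (u : ℂ) :
    P (u + m * Complex.I) = P u := by
  induction m with
  | zero => simp
  | succ n ih =>
    rw [← ih, ← h (u + (n : ℤ) * Complex.I)]
    congr 1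
    push_cast
    ring
  | pred n ih =>
    rw [← ih, ← h (u + ((-(n : ℤ) - 1 : ℤ) : ℂ) * Complex.I)]
    congr 1
    push_cast
    ring

end Pool.Agent.Imp.DstR

namespace Pool.Agent.Imp

/-- **DST**: two rays with the same image do not land at the same noncritical point. -/
theorem dst : DstStatement := by
  intro f P _ hP a b m p hab hne ha hb
  by_contra hp
  have hs : HasStrictDerivAt (fun z => f.eval z) (f.derivative.eval p) p := f.hasStrictDerivAt p
  have hinv := hs.eventually_left_inverse hp
  have h1 := ha.eventually hinv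
  have h2 := hb.eventually hinv
  have h3 : ∀ᶠ s : ℝ in 𝓝[>] 0, 0 < s := self_mem_nhdsWithin
  obtain ⟨s, h1, h2, h3⟩ := (h1.and (h2.and h3)).exists
  have hsa : ((s : ℂ) + a * Complex.I) ∈ HP := by
    change 0 < ((s : ℂ) + a * Complex.I).re
    simpa using h3
  have hsb : ((s : ℂ) + b * Complex.I) ∈ HP := by
    change 0 < ((s : ℂ) + b * Complex.I).re
    simpa using h3
  have h4 : f.eval (P (s + b * Complex.I)) = f.eval (P (s + a * Complex.I)) := by
    rw [hP.semi _ hsa, hP.semi _ hsb, ← DstR.per_int hP.per m (f.natDegree * (s + a * Complex.I))]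
    congr 1
    have h5 : (f.natDegree : ℂ) * b = f.natDegree * a + m := by
      exact_mod_cast congrArg (fun x : ℝ => (x : ℂ)) hab
    linear_combination Complex.I * h5
  have h6 : P (s + a * Complex.I) = P (s + b * Complex.I) := by
    rw [← h1, ← h2]
    rw [h4]
  obtain ⟨j, hj⟩ := hP.inj _ hsa _ hsb h6
  refine hne (-j) ?_
  have h7 := congrArg Complex.im hj
  simp only [Complex.add_im, Complex.ofReal_im, Complex.mul_im, Complex.ofReal_re, Complex.I_im,
    mul_one, Complex.I_re, mul_zero, add_zero, zero_add, Complex.intCast_re, Complex.intCast_im]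
    at h7
  push_cast
  linarith

end Pool.Agent.Imp
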