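import Pool.Agent.Lib.MP_1c105c_an.Defs6
import Pool.Agent.Lib.MP_1c105c_an.Area

/-! MP_1c105c_an, row ENE: a lift that is injective modulo `Λ` has no power growth (helper96). -/

set_option autoImplicit false

open MeasureTheory Set Metric Filter Topology
open scoped ENNReal

namespace Pool.Agent.Imp.EneAux

open Pool.Agent.Imp.AreaAux

theorem isOpen_HP : IsOpen HP := isOpen_lt continuous_const Complex.continuous_re

/-- the density `1 / ‖z‖ ^ 2` -/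
noncomputable def dens (z : ℂ) : ℝ≥0∞ := ENNReal.ofReal ((‖z‖ ^ 2)⁻¹)

theorem dens_scale {a : ℂ} (ha : a ≠ 0) {S : Set ℂ} (hS : MeasurableSet S) :
    ∫⁻ z in (fun w => a * w) '' S, dens z = ∫⁻ z in S, dens z := by
  rw [lintegral_image_eq_lintegral_abs_det_fderiv_mul volume hS
    (f' := fun _ => (ContinuousLinearMap.toSpanSingleton ℂ a).restrictScalars ℝ)
    (fun z _ => by
      have h : HasDerivAt (fun w : ℂ => a * w) a z := by
        simpa using (hasDerivAt_id z).const_mul a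
      exact (h.hasFDerivAt.restrictScalars ℝ).hasFDerivWithinAt)
    (fun x _ y _ h => mul_left_cancel₀ ha h)]
  refine setLIntegral_congr_fun hS fun w _ => ?_
  rw [det_mul, abs_of_nonneg (by positivity), dens, dens, ← ENNReal.ofReal_mul (by positivity)]
  congr 1
  rw [norm_mul]
  have : ‖a‖ ≠ 0 := norm_ne_zero_iff.mpr ha
  rw [mul_pow, mul_inv, ← mul_assoc, mul_inv_cancel₀ (pow_ne_zero 2 this), one_mul]

/-- the mass of a set whose multiples by the powers of `Λ` are disjoint -/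
theorem mass_le {Λ : ℂ} (hΛ : 1 < ‖Λ‖) {E : Set ℂ} (hE : MeasurableSet E) (h0 : (0 : ℂ) ∉ E)
    (hd : ∀ z ∈ E, ∀ z' ∈ E, ∀ k : ℕ, z = Λ ^ k * z' → k = 0) :
    ∫⁻ z in E, dens z < ∞ := by
  have hΛ0 : Λ ≠ 0 := by
    intro h
    rw [h, norm_zero] at hΛ
    linarith
  set S : ℤ → Set ℂ := fun k => {w | (1 ≤ ‖w‖ ∧ ‖w‖ < ‖Λ‖) ∧ Λ ^ k * w ∈ E} with hS
  have hSm : ∀ k, MeasurableSet (S k) := by
    intro k
    have h1 : MeasurableSet {w : ℂ | 1 ≤ ‖w‖} := (isClosed_le continuous_const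
      continuous_norm).measurableSet
    have h2 : MeasurableSet {w : ℂ | ‖w‖ < ‖Λ‖} := (isOpen_lt continuous_norm
      continuous_const).measurableSet
    have h3 : MeasurableSet ((fun w : ℂ => Λ ^ k * w) ⁻¹' E) :=
      hE.preimage (continuous_const.mul continuous_id).measurable
    exact (h1.inter h2).inter h3
  have hdis : Pairwise (Function.onFun Disjoint S) := by
    have key : ∀ k l : ℤ, k < l → Disjoint (S k) (S l) := by
      intro k l hkl
      rw [Set.disjoint_left]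
      rintro w ⟨-, hk⟩ ⟨-, hl⟩
      obtain ⟨m, hm⟩ := Int.eq_ofNat_of_zero_le (sub_nonneg.mpr hkl.le)
      have h1 : Λ ^ l * w = Λ ^ m * (Λ ^ k * w) := by
        rw [← mul_assoc]
        congr 1
        have : l = (m : ℤ) + k := by omega
        rw [this, zpow_add₀ hΛ0, zpow_natCast]
      have h2 := hd _ hl _ hk m h1
      omega
    intro k l hkl
    rcases lt_or_gt_of_ne hkl with h | h
    · exact key k l h
    · exact (key l k h).symm
  have hcov : E ⊆ ⋃ k, (fun w => Λ ^ k * w) '' S k := by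
    intro z hz
    have hz0 : z ≠ 0 := fun h => h0 (h ▸ hz)
    obtain ⟨k, hk1, hk2⟩ := exists_mem_Ico_zpow (norm_pos_iff.mpr hz0) hΛ
    refine mem_iUnion.mpr ⟨k, Λ ^ (-k) * z, ⟨⟨?_, ?_⟩, ?_⟩, ?_⟩
    · rw [norm_mul, norm_zpow, zpow_neg]
      have hp : 0 < ‖Λ‖ ^ k := zpow_pos (by linarith) k
      rw [← div_eq_inv_mul, le_div_iff₀ hp, one_mul]
      exact hk1
    · rw [norm_mul, norm_zpow, zpow_neg]
      have hp : 0 < ‖Λ‖ ^ k := zpow_pos (by linarith) k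
      rw [← div_eq_inv_mul, div_lt_iff₀ hp, mul_comm, ← zpow_add_one₀ (by linarith)]
      exact hk2
    · rw [← mul_assoc, ← zpow_add₀ hΛ0, add_neg_cancel, zpow_zero, one_mul]
      exact hz
    · show Λ ^ k * (Λ ^ (-k) * z) = z
      rw [← mul_assoc, ← zpow_add₀ hΛ0, add_neg_cancel, zpow_zero, one_mul]
  have hA : ⋃ k, S k ⊆ {w : ℂ | 1 ≤ ‖w‖ ∧ ‖w‖ < ‖Λ‖} := iUnion_subset fun k w hw => hw.1
  have hAm : MeasurableSet {w : ℂ | 1 ≤ ‖w‖ ∧ ‖w‖ < ‖Λ‖} :=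
    (isClosed_le continuous_const continuous_norm).measurableSet.inter
      (isOpen_lt continuous_norm continuous_const).measurableSet
  calc ∫⁻ z in E, dens z ≤ ∫⁻ z in ⋃ k, (fun w => Λ ^ k * w) '' S k, dens z :=
        lintegral_mono_set hcov
    _ ≤ ∑' k, ∫⁻ z in (fun w => Λ ^ k * w) '' S k, dens z := lintegral_iUnion_le _ _
    _ = ∑' k, ∫⁻ z in S k, dens z := by
        congr 1
        funext k
        exact dens_scale (zpow_ne_zero k hΛ0) (hSm k)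
    _ = ∫⁻ z in ⋃ k, S k, dens z := (lintegral_iUnion hSm hdis _).symm
    _ ≤ ∫⁻ z in {w : ℂ | 1 ≤ ‖w‖ ∧ ‖w‖ < ‖Λ‖}, dens z := lintegral_mono_set hA
    _ ≤ ∫⁻ _ in {w : ℂ | 1 ≤ ‖w‖ ∧ ‖w‖ < ‖Λ‖}, 1 := by
        refine setLIntegral_mono' hAm fun w hw => ?_
        rw [dens, ← ENNReal.ofReal_one]
        refine ENNReal.ofReal_le_ofReal ?_
        exact inv_le_one_of_one_le₀ (one_le_pow₀ hw.1)
    _ = volume {w : ℂ | 1 ≤ ‖w‖ ∧ ‖w‖ < ‖Λ‖} := by rw [setLIntegral_one]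
    _ ≤ volume (ball (0 : ℂ) ‖Λ‖) := measure_mono fun w hw => by
        rw [mem_ball_zero_iff]
        exact hw.2
    _ < ∞ := measure_ball_lt_top

/-- the Dirichlet integral of `log Ψ` is finite -/
theorem energy {Λ : ℂ} {Ψ : ℂ → ℂ} (hΛ : 1 < ‖Λ‖) (hd : DifferentiableOn ℂ Ψ HP)
    (h0 : ∀ u ∈ HP, Ψ u ≠ 0)
    (hi : ∀ u ∈ HP, ∀ v ∈ HP, ∀ k : ℕ, Ψ u = Λ ^ k * Ψ v → k = 0 ∧ u = v) :
    ∫⁻ u in HP, ENNReal.ofReal (‖deriv Ψ u / Ψ u‖ ^ 2) < ∞ := by
  have hinj : InjOn Ψ HP := fun u hu v hv h => (hi u hu v hv 0 (by rw [pow_zero, one_mul, h])).2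
  have hE : MeasurableSet (Ψ '' HP) := meas_image isOpen_HP hd hinj
  have h1 : ∫⁻ z in Ψ '' HP, dens z < ∞ := by
    refine mass_le hΛ hE ?_ ?_
    · rintro ⟨u, hu, h⟩
      exact h0 u hu h
    · rintro _ ⟨u, hu, rfl⟩ _ ⟨v, hv, rfl⟩ k h
      exact (hi u hu v hv k h).1
  rw [lintegral_image_eq_lintegral_abs_det_fderiv_mul volume isOpen_HP.measurableSet
    (f' := fun z => (ContinuousLinearMap.toSpanSingleton ℂ (deriv Ψ z)).restrictScalars ℝ)
    (fun z hz => ((hd.differentiableAt (isOpen_HP.mem_nhds hz)).hasDerivAt.hasFDerivAt.restrictScalars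
      ℝ).hasFDerivWithinAt) hinj] at h1
  refine lt_of_le_of_lt (le_of_eq ?_) h1
  refine setLIntegral_congr_fun isOpen_HP.measurableSet fun u hu => ?_
  rw [det_mul, abs_of_nonneg (by positivity), dens, ← ENNReal.ofReal_mul (by positivity)]
  congr 1
  rw [norm_div, div_pow, div_eq_mul_inv]

/-- `x ‖h x‖` is small for large `x` -/
theorem small {h : ℂ → ℂ} (hd : DifferentiableOn ℂ h HP)
    (hf : ∫⁻ u in HP, ENNReal.ofReal (‖h u‖ ^ 2) < ∞) {ε : ℝ} (hε : 0 < ε) :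
    ∃ x₀ : ℝ, 1 ≤ x₀ ∧ ∀ x : ℝ, x₀ ≤ x → x * ‖h x‖ ≤ ε := by
  set ν : Measure ℂ := (volume.restrict HP).withDensity fun u => ENNReal.ofReal (‖h u‖ ^ 2) with hν
  have hfin : ν univ < ∞ := by
    rw [hν, withDensity_apply _ MeasurableSet.univ, Measure.restrict_univ]
    exact hf
  have : IsFiniteMeasure ν := ⟨hfin⟩
  set T : ℕ → Set ℂ := fun n => {u | (n : ℝ) < u.re} with hT
  have hTm : ∀ n, MeasurableSet (T n) := fun n =>
    (isOpen_lt continuous_const Complex.continuous_re).measurableSet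
  have hTa : Antitone T := by
    intro m n hmn u hu
    have h1 : ((n : ℕ) : ℝ) < u.re := hu
    have h2 : (m : ℝ) ≤ n := by exact_mod_cast hmn
    show (m : ℝ) < u.re
    linarith
  have hTi : ⋂ n, T n = ∅ := by
    rw [Set.eq_empty_iff_forall_notMem]
    intro u hu
    obtain ⟨n, hn⟩ := exists_nat_gt u.re
    have h1 : ((n : ℕ) : ℝ) < u.re := mem_iInter.mp hu n
    linarith
  have hlim : Tendsto (fun n => ν (T n)) atTop (𝓝 0) := by
    have := tendsto_measure_iInter_atTop (μ := ν) (fun n => (hTm n).nullMeasurableSet) hTa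
      ⟨0, (measure_lt_top ν _).ne⟩
    rwa [hTi, measure_empty] at this
  have hpi := Real.pi_pos
  have hδ : (0 : ℝ≥0∞) < ENNReal.ofReal (Real.pi * (ε / 2) ^ 2) := by
    rw [ENNReal.ofReal_pos]
    positivity
  obtain ⟨n, hn⟩ := ((tendsto_order.1 hlim).2 _ hδ).exists
  refine ⟨max 1 (2 * n + 1), le_max_left _ _, fun x hx => ?_⟩
  have hx1 : 1 ≤ x := (le_max_left _ _).trans hx
  have hx2 : 2 * (n : ℝ) + 1 ≤ x := (le_max_right _ _).trans hx
  have hsub : ball (x : ℂ) (x / 2) ⊆ T n ∩ HP := by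
    intro u hu
    rw [mem_ball, dist_eq_norm] at hu
    have h1 := (Complex.abs_re_le_norm (u - x)).trans_lt hu
    rw [Complex.sub_re, Complex.ofReal_re, abs_lt] at h1
    refine ⟨?_, ?_⟩
    · show (n : ℝ) < u.re
      linarith
    · show 0 < u.re
      have : (0 : ℝ) ≤ n := Nat.cast_nonneg n
      linarith
  have h2 := ball_ge' (h := h) (ρ := x / 2) (c := (x : ℂ)) (by linarith)
    (hd.mono fun u hu => (hsub hu).2)
  have h3 : ∫⁻ z in ball (x : ℂ) (x / 2), ENNReal.ofReal (‖h z‖ ^ 2) ≤ ν (T n) := by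
    rw [hν, withDensity_apply _ (hTm n), Measure.restrict_restrict (hTm n)]
    exact lintegral_mono_set hsub
  have h4 := (h2.trans h3).trans_lt hn
  rw [ENNReal.ofReal_lt_ofReal_iff (by positivity)] at h4
  have h5 : (x * ‖h x‖ / 2) ^ 2 < (ε / 2) ^ 2 := by
    have h6 : Real.pi * ((x * ‖h x‖ / 2) ^ 2) < Real.pi * ((ε / 2) ^ 2) := by
      calc Real.pi * ((x * ‖h x‖ / 2) ^ 2) = Real.pi * (x / 2) ^ 2 * ‖h x‖ ^ 2 := by ring
        _ < _ := h4
    exact lt_of_mul_lt_mul_left h6 hpi.le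
  have h7 := lt_of_pow_lt_pow_left₀ 2 (by positivity) h5
  linarith

end EneAux

open EneAux in
theorem ene : EneStatement := by
  intro Λ Ψ c C hΛ hd h0 hi hc hgr
  have hh : DifferentiableOn ℂ (fun u => deriv Ψ u / Ψ u) HP :=
    (hd.deriv isOpen_HP).div hd h0
  obtain ⟨x₀, hx₀, hsm⟩ := small hh (energy hΛ hd h0 hi) (half_pos hc)
  set t₀ := Real.log x₀ with ht₀
  have ht₀0 : 0 ≤ t₀ := Real.log_nonneg hx₀
  have hpos : 0 < x₀ := by linarith
  have hmem : ∀ t : ℝ, ((Real.exp t : ℝ) : ℂ) ∈ HP := fun t => by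
    show 0 < ((Real.exp t : ℝ) : ℂ).re
    rw [Complex.ofReal_re]
    exact Real.exp_pos t
  have hder : ∀ t : ℝ, HasDerivAt (fun t : ℝ => Ψ ((Real.exp t : ℝ) : ℂ))
      (deriv Ψ ((Real.exp t : ℝ) : ℂ) * ((Real.exp t : ℝ) : ℂ)) t := by
    intro t
    have h1 : HasDerivAt (fun t : ℝ => ((Real.exp t : ℝ) : ℂ)) ((Real.exp t : ℝ) : ℂ) t :=
      (Real.hasDerivAt_exp t).ofReal_comp
    have h2 := (hd.differentiableAt (isOpen_HP.mem_nhds (hmem t))).hasDerivAt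
    exact h2.comp t h1
  have hbd : ∀ t : ℝ, t₀ ≤ t → ‖deriv Ψ ((Real.exp t : ℝ) : ℂ) * ((Real.exp t : ℝ) : ℂ)‖ ≤
      c / 2 * ‖Ψ ((Real.exp t : ℝ) : ℂ)‖ + 0 := by
    intro t ht
    have hx : x₀ ≤ Real.exp t := by
      rw [← Real.exp_log hpos]
      exact Real.exp_le_exp.mpr ht
    have h1 := hsm (Real.exp t) hx
    have hn : 0 < ‖Ψ ((Real.exp t : ℝ) : ℂ)‖ := norm_pos_iff.mpr (h0 _ (hmem t))
    rw [norm_div, mul_div_assoc', div_le_iff₀ hn] at h1
    rw [norm_mul, Complex.norm_real, Real.norm_of_nonneg (Real.exp_pos t).le, add_zero, mul_comm]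
    exact h1
  -- growth
  have hg : ∀ t : ℝ, t₀ ≤ t → Real.log ‖Ψ ((Real.exp t : ℝ) : ℂ)‖ ≤
      Real.log ‖Ψ ((Real.exp t₀ : ℝ) : ℂ)‖ + c / 2 * (t - t₀) := by
    intro t ht
    have h1 := norm_le_gronwallBound_of_norm_deriv_right_le
      (f := fun t : ℝ => Ψ ((Real.exp t : ℝ) : ℂ))
      (f' := fun t : ℝ => deriv Ψ ((Real.exp t : ℝ) : ℂ) * ((Real.exp t : ℝ) : ℂ))
      (δ := ‖Ψ ((Real.exp t₀ : ℝ) : ℂ)‖) (K := c / 2) (ε := 0) (a := t₀) (b := t)
      (fun s _ => (hder s).continuousAt.continuousWithinAt)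
      (fun s _ => (hder s).hasDerivWithinAt) le_rfl (fun s hs => hbd s hs.1) t ⟨ht, le_rfl⟩
    rw [gronwallBound_ε0] at h1
    have hn : 0 < ‖Ψ ((Real.exp t : ℝ) : ℂ)‖ := norm_pos_iff.mpr (h0 _ (hmem t))
    have hn0 : 0 < ‖Ψ ((Real.exp t₀ : ℝ) : ℂ)‖ := norm_pos_iff.mpr (h0 _ (hmem t₀))
    have h2 := Real.log_le_log hn h1
    rwa [Real.log_mul hn0.ne' (Real.exp_pos _).ne', Real.log_exp] at h2
  set L := Real.log ‖Ψ ((Real.exp t₀ : ℝ) : ℂ)‖ with hL
  set t := max t₀ ((2 * (L + C) + 1) / c) with htdef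
  have h1 := hg t (le_max_left _ _)
  have htp : 0 ≤ t := ht₀0.trans (le_max_left _ _)
  have h2 := hgr (Real.exp t) (Real.one_le_exp htp)
  rw [Real.log_exp] at h2
  have h3 : (2 * (L + C) + 1) / c ≤ t := le_max_right _ _
  rw [div_le_iff₀ hc] at h3
  have h4 : 0 ≤ c * t₀ := mul_nonneg hc.le ht₀0
  nlinarith

end Pool.Agent.Imp
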