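import Pool.Agent.Lib.MP_1c105c_an.Defs8
import Pool.Agent.Lib.MP_1c105c_an.Area

/-! MP_1c105c_an, row ENG: the energy of the symmetric functions of the roots in a piece of the
preimage of a ball. -/

set_option autoImplicit false

open MeasureTheory Set Filter Topology Polynomial
open scoped ENNReal

namespace Pool.Agent.Imp

namespace Eng

/-! ### Area formula on measurable sets -/

lemma area_meas {g : ℂ → ℂ} {U E : Set ℂ} (hU : IsOpen U) (hd : DifferentiableOn ℂ g U)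
    (hi : InjOn g U) (hE : MeasurableSet E) (hEU : E ⊆ U) :
    ∫⁻ z in E, ENNReal.ofReal (‖deriv g z‖ ^ 2) = volume (g '' E) := by
  have h1 := lintegral_abs_det_fderiv_eq_addHaar_image volume hE
    (f := g) (f' := fun z => (ContinuousLinearMap.toSpanSingleton ℂ (deriv g z)).restrictScalars ℝ)
    (fun z hz => ((hd.differentiableAt (hU.mem_nhds (hEU hz))).hasDerivAt.hasFDerivAt.restrictScalars
      ℝ).hasFDerivWithinAt) (hi.mono hEU)
  rw [← h1]
  refine setLIntegral_congr_fun hE fun _ _ => ?_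
  rw [AreaAux.det_mul, abs_of_nonneg (by positivity)]

lemma meas_image {g : ℂ → ℂ} {U E : Set ℂ} (hU : IsOpen U) (hd : DifferentiableOn ℂ g U)
    (hi : InjOn g U) (hE : MeasurableSet E) (hEU : E ⊆ U) : MeasurableSet (g '' E) :=
  measurable_image_of_fderivWithin hE
    (fun z hz => ((hd.differentiableAt (hU.mem_nhds (hEU hz))).hasDerivAt.hasFDerivAt.restrictScalars
      ℝ).hasFDerivWithinAt) (hi.mono hEU)

/-! ### Critical values -/

/-- the critical values -/
noncomputable def cv (F : ℂ[X]) : Finset ℂ := F.derivative.roots.toFinset.image fun c => F.eval c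

lemma mem_cv {F : ℂ[X]} (hF : 1 ≤ F.natDegree) {v : ℂ} :
    v ∈ cv F ↔ ∃ c, F.derivative.eval c = 0 ∧ F.eval c = v := by
  have hne : F.derivative ≠ 0 := by
    intro h
    have := natDegree_eq_zero_of_derivative_eq_zero h
    omega
  rw [cv, Finset.mem_image]
  constructor
  · rintro ⟨c, hc, h⟩
    rw [Multiset.mem_toFinset, mem_roots hne] at hc
    exact ⟨c, hc, h⟩
  · rintro ⟨c, hc, h⟩
    refine ⟨c, ?_, h⟩
    rw [Multiset.mem_toFinset, mem_roots hne]
    exact hc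

/-! ### Branches -/

/-- The situation. -/
structure Data (F : ℂ[X]) (m : ℕ) (B : Set ℂ) (O₁ O₂ : Set ℂ) [DecidablePred (· ∈ O₁)] :
    Prop where
  hF : 1 ≤ F.natDegree
  o1 : IsOpen O₁
  o2 : IsOpen O₂
  cov : ∀ z, F.eval z ∈ B → z ∈ O₁ ∪ O₂
  dis : Disjoint O₁ O₂
  card : ∀ w ∈ B, ((F - C w).roots.filter (· ∈ O₁)).card = m

variable {F : ℂ[X]} {m : ℕ} {B O₁ O₂ : Set ℂ} [DecidablePred (· ∈ O₁)]

lemma sub_ne (hF : 1 ≤ F.natDegree) (w : ℂ) : F - C w ≠ 0 := by
  intro h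
  have h1 : (F - C w).natDegree = F.natDegree := natDegree_sub_C
  rw [h, natDegree_zero] at h1
  omega

lemma mem_filter {F : ℂ[X]} (hF : 1 ≤ F.natDegree) {O₁ : Set ℂ} [DecidablePred (· ∈ O₁)]
    {w z : ℂ} : z ∈ (F - C w).roots.filter (· ∈ O₁) ↔ F.eval z = w ∧ z ∈ O₁ := by
  rw [Multiset.mem_filter, mem_roots (sub_ne hF w)]
  simp only [IsRoot, eval_sub, eval_C, sub_eq_zero]

lemma nodup_filter {F : ℂ[X]} (hF : 1 ≤ F.natDegree) {O₁ : Set ℂ} [DecidablePred (· ∈ O₁)]
    {w : ℂ} (hw : ∀ c, F.derivative.eval c = 0 → F.eval c ≠ w) :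
    ((F - C w).roots.filter (· ∈ O₁)).Nodup := by
  refine Multiset.Nodup.filter _ ?_
  rw [Multiset.nodup_iff_count_le_one]
  intro z
  rw [count_roots]
  by_contra hlt
  have hlt' : 1 < (F - C w).rootMultiplicity z := by omega
  rw [one_lt_rootMultiplicity_iff_isRoot (sub_ne hF w)] at hlt'
  obtain ⟨h1, h2⟩ := hlt'
  simp only [IsRoot, eval_sub, eval_C, sub_eq_zero] at h1
  simp only [IsRoot, derivative_sub, derivative_C, sub_zero] at h2
  exact hw z h2 h1

lemma branches (D : Data F m B O₁ O₂) {b : ℂ} {ρ : ℝ} (hρ : 0 < ρ) (hB : Metric.ball b ρ ⊆ B)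
    (hcv : ∀ z ∈ Metric.ball b ρ, ∀ c, F.derivative.eval c = 0 → F.eval c ≠ z) :
    ∃ h : Fin m → ℂ → ℂ, (∀ i, DifferentiableOn ℂ (h i) (Metric.ball b ρ)) ∧
      (∀ i, ∀ w ∈ Metric.ball b ρ, F.eval (h i w) = w) ∧
      (∀ i, ∀ w ∈ Metric.ball b ρ, h i w ∈ O₁) ∧
      (∀ i k, i ≠ k → ∀ w ∈ Metric.ball b ρ, h i w ≠ h k w) ∧
      ∀ w ∈ Metric.ball b ρ, (F - C w).roots.filter (· ∈ O₁) =
        Finset.univ.val.map fun i => h i w := by
  have hb : b ∈ Metric.ball b ρ := Metric.mem_ball_self hρ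
  set M := (F - C b).roots.filter (· ∈ O₁) with hM
  have hMn : M.Nodup := nodup_filter D.hF (hcv b hb)
  have hMc : M.toFinset.card = m := by
    rw [Multiset.toFinset_card_of_nodup hMn]
    exact D.card b (hB hb)
  set e := (Finset.equivFinOfCardEq hMc).symm with he
  have heM : ∀ i, F.eval (e i : ℂ) = b ∧ (e i : ℂ) ∈ O₁ := fun i =>
    (mem_filter D.hF).1 (Multiset.mem_toFinset.1 (e i).2)
  have hl : ∀ i : Fin m, ∃ h : ℂ → ℂ, DifferentiableOn ℂ h (Metric.ball b ρ) ∧
      (∀ z ∈ Metric.ball b ρ, F.eval (h z) = id z) ∧ h b = e i := fun i =>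
    lift F b ρ id differentiableOn_id hcv b hb (e i) (heM i).1
  choose h hd hF hb0 using hl
  have hpre : IsPreconnected (Metric.ball b ρ) := (convex_ball b ρ).isPreconnected
  have hO : ∀ i, ∀ w ∈ Metric.ball b ρ, h i w ∈ O₁ := by
    intro i w hw
    have h1 : IsPreconnected (h i '' Metric.ball b ρ) := hpre.image _ (hd i).continuousOn
    have h3 : (h i '' Metric.ball b ρ ∩ O₁).Nonempty :=
      ⟨h i b, ⟨b, hb, rfl⟩, by rw [hb0]; exact (heM i).2⟩
    have h4 : h i '' Metric.ball b ρ ⊆ O₁ ∪ O₂ := by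
      rintro _ ⟨z, hz, rfl⟩
      refine D.cov _ ?_
      rw [hF i z hz]
      exact hB hz
    exact h1.subset_left_of_subset_union D.o1 D.o2 D.dis h4 h3 ⟨w, hw, rfl⟩
  have hne : ∀ i k, i ≠ k → ∀ w ∈ Metric.ball b ρ, h i w ≠ h k w := by
    intro i k hik w hw heq
    have h1 := uniq F (Metric.ball b ρ) (h i) (h k) hpre (hd i).continuousOn
      (hd k).continuousOn (fun z hz => by rw [hF i z hz, hF k z hz]) (fun z hz h0 =>
        hcv z hz _ h0 (hF i z hz)) w hw heq
    have h2 := h1 hb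
    rw [hb0, hb0] at h2
    exact hik (e.injective (Subtype.ext h2))
  refine ⟨h, hd, hF, hO, hne, fun w hw => ?_⟩
  have hU : (Finset.univ.val.map fun i => h i w).Nodup := by
    refine Multiset.Nodup.map_on ?_ Finset.univ.nodup
    intro i _ k _ hik
    by_contra hne'
    exact hne i k hne' w hw hik
  symm
  refine Multiset.eq_of_le_of_card_le ?_ ?_
  · rw [Multiset.le_iff_subset hU]
    intro z hz
    obtain ⟨i, -, rfl⟩ := Multiset.mem_map.1 hz
    rw [mem_filter D.hF]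
    exact ⟨hF i w hw, hO i w hw⟩
  · rw [D.card w (hB hw), Multiset.card_map]
    simp

/-! ### The symmetric function -/

/-- the symmetric function of the roots in `O₁` -/
noncomputable def G (F : ℂ[X]) (O₁ : Set ℂ) [DecidablePred (· ∈ O₁)] (T w : ℂ) : ℂ :=
  (((F - C w).roots.filter (· ∈ O₁)).map fun z => T - z).prod

lemma G_eq {b : ℂ} {ρ : ℝ} {T : ℂ} {h : Fin m → ℂ → ℂ}
    (hr : ∀ w ∈ Metric.ball b ρ, (F - C w).roots.filter (· ∈ O₁) =
        Finset.univ.val.map fun i => h i w) {w : ℂ} (hw : w ∈ Metric.ball b ρ) :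
    G F O₁ T w = ∏ i, (T - h i w) := by
  rw [G, hr w hw, Multiset.map_map]
  rfl

lemma G_bound (D : Data F m B O₁ O₂) {R : ℝ} (hR : 0 < R)
    (hbd : ∀ z, F.eval z ∈ B → ‖z‖ ≤ R) {T : ℂ} (hT : ‖T‖ ≤ R) {w : ℂ} (hw : w ∈ B) :
    ‖G F O₁ T w‖ ≤ (2 * R) ^ m := by
  rw [← D.card w hw, G]
  have h1 : ∀ z ∈ (F - C w).roots.filter (· ∈ O₁), ‖T - z‖ ≤ 2 * R := by
    intro z hz
    rw [mem_filter D.hF] at hz
    have h2 := hbd z (by rw [hz.1]; exact hw)
    calc ‖T - z‖ ≤ ‖T‖ + ‖z‖ := norm_sub_le _ _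
      _ ≤ 2 * R := by linarith
  have key : ∀ s : Multiset ℂ, (∀ z ∈ s, ‖T - z‖ ≤ 2 * R) →
      ‖(s.map fun z => T - z).prod‖ ≤ (2 * R) ^ Multiset.card s := by
    intro s
    induction s using Multiset.induction with
    | empty => intro _; simp
    | cons a s ih =>
      intro hs
      rw [Multiset.map_cons, Multiset.prod_cons, norm_mul, Multiset.card_cons, pow_succ']
      exact mul_le_mul (hs a (Multiset.mem_cons_self a s))
        (ih fun z hz => hs z (Multiset.mem_cons_of_mem hz)) (norm_nonneg _) (by positivity)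
  exact key _ h1

lemma G_deriv (D : Data F m B O₁ O₂) {R : ℝ} (hR : 0 < R)
    (hbd : ∀ z, F.eval z ∈ B → ‖z‖ ≤ R) {T : ℂ} (hT : ‖T‖ ≤ R) {b : ℂ} {ρ : ℝ}
    (hB : Metric.ball b ρ ⊆ B) {h : Fin m → ℂ → ℂ}
    (hd : ∀ i, DifferentiableOn ℂ (h i) (Metric.ball b ρ))
    (hF : ∀ i, ∀ w ∈ Metric.ball b ρ, F.eval (h i w) = w)
    (hr : ∀ w ∈ Metric.ball b ρ, (F - C w).roots.filter (· ∈ O₁) =
        Finset.univ.val.map fun i => h i w) {w : ℂ} (hw : w ∈ Metric.ball b ρ) :
    DifferentiableAt ℂ (G F O₁ T) w ∧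
      ‖deriv (G F O₁ T) w‖ ^ 2 ≤ (m * ((2 * R) ^ (m - 1)) ^ 2) * ∑ i, ‖deriv (h i) w‖ ^ 2 := by
  have hnhds : Metric.ball b ρ ∈ 𝓝 w := Metric.isOpen_ball.mem_nhds hw
  have hev : G F O₁ T =ᶠ[𝓝 w] fun w => ∏ i, (T - h i w) := by
    filter_upwards [hnhds] with x hx
    exact G_eq hr hx
  have hhd : ∀ i, HasDerivAt (fun w => T - h i w) (-deriv (h i) w) w := by
    intro i
    exact ((hd i).differentiableAt hnhds).hasDerivAt.const_sub T
  have hprod : HasDerivAt (fun w => ∏ i, (T - h i w))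
      (∑ i, (∏ j ∈ Finset.univ.erase i, (T - h j w)) • (-deriv (h i) w)) w :=
    HasDerivAt.fun_finsetProd fun i _ => hhd i
  have hG := hprod.congr_of_eventuallyEq hev
  refine ⟨hG.differentiableAt, ?_⟩
  rw [hG.deriv]
  have h1 : ‖∑ i, (∏ j ∈ Finset.univ.erase i, (T - h j w)) • (-deriv (h i) w)‖ ≤
      ∑ i, (2 * R) ^ (m - 1) * ‖deriv (h i) w‖ := by
    refine (norm_sum_le _ _).trans (Finset.sum_le_sum fun i _ => ?_)
    rw [smul_eq_mul, norm_mul, norm_neg]
    refine mul_le_mul_of_nonneg_right ?_ (norm_nonneg _)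
    rw [norm_prod]
    have h2 : ∏ j ∈ Finset.univ.erase i, ‖T - h j w‖ ≤
        ∏ _j ∈ (Finset.univ : Finset (Fin m)).erase i, (2 * R) := by
      refine Finset.prod_le_prod (fun _ _ => norm_nonneg _) fun j _ => ?_
      have h3 := hbd (h j w) (by rw [hF j w hw]; exact hB hw)
      calc ‖T - h j w‖ ≤ ‖T‖ + ‖h j w‖ := norm_sub_le _ _
        _ ≤ 2 * R := by linarith
    refine h2.trans (le_of_eq ?_)
    rw [Finset.prod_const, Finset.card_erase_of_mem (Finset.mem_univ i), Finset.card_univ,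
      Fintype.card_fin]
  calc _ ≤ (∑ i, (2 * R) ^ (m - 1) * ‖deriv (h i) w‖) ^ 2 :=
        pow_le_pow_left₀ (norm_nonneg _) h1 2
    _ ≤ (Finset.univ : Finset (Fin m)).card * ∑ i, ((2 * R) ^ (m - 1) * ‖deriv (h i) w‖) ^ 2 :=
        sq_sum_le_card_mul_sum_sq
    _ = _ := by
      rw [Finset.card_univ, Fintype.card_fin]
      simp only [mul_pow, ← Finset.mul_sum]
      ring

/-- the energy on a measurable part of a ball without critical values -/
lemma energy_local (D : Data F m B O₁ O₂) {R : ℝ} (hR : 0 < R)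
    (hbd : ∀ z, F.eval z ∈ B → ‖z‖ ≤ R) {T : ℂ} (hT : ‖T‖ ≤ R) {b : ℂ} {ρ : ℝ} (hρ : 0 < ρ)
    (hB : Metric.ball b ρ ⊆ B)
    (hcv : ∀ z ∈ Metric.ball b ρ, ∀ c, F.derivative.eval c = 0 → F.eval c ≠ z)
    {E : Set ℂ} (hE : MeasurableSet E) (hEB : E ⊆ Metric.ball b ρ) :
    ∫⁻ w in E, ENNReal.ofReal (‖deriv (G F O₁ T) w‖ ^ 2) ≤
      ENNReal.ofReal (m * ((2 * R) ^ (m - 1)) ^ 2) *
        volume (O₁ ∩ (fun z => F.eval z) ⁻¹' E) := by
  obtain ⟨h, hd, hF, hO, hne, hr⟩ := branches D hρ hB hcv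
  have hinj : ∀ i, InjOn (h i) (Metric.ball b ρ) := by
    intro i x hx y hy hxy
    rw [← hF i x hx, ← hF i y hy, hxy]
  have h1 : ∫⁻ w in E, ENNReal.ofReal (‖deriv (G F O₁ T) w‖ ^ 2) ≤
      ∫⁻ w in E, ENNReal.ofReal (m * ((2 * R) ^ (m - 1)) ^ 2) *
        ∑ i, ENNReal.ofReal (‖deriv (h i) w‖ ^ 2) := by
    refine setLIntegral_mono' hE fun w hw => ?_
    rw [← ENNReal.ofReal_sum_of_nonneg fun i _ => by positivity,
      ← ENNReal.ofReal_mul (by positivity)]
    exact ENNReal.ofReal_le_ofReal (G_deriv D hR hbd hT hB hd hF hr (hEB hw)).2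
  refine h1.trans ?_
  rw [lintegral_const_mul' _ _ ENNReal.ofReal_ne_top]
  refine mul_le_mul_right ?_ _
  rw [lintegral_finsetSum _ fun i _ => by
    exact ENNReal.measurable_ofReal.comp ((measurable_deriv (h i)).norm.pow_const 2)]
  have h2 : ∀ i, ∫⁻ w in E, ENNReal.ofReal (‖deriv (h i) w‖ ^ 2) = volume (h i '' E) :=
    fun i => area_meas Metric.isOpen_ball (hd i) (hinj i) hE hEB
  simp only [h2]
  rw [← measure_biUnion_finset]
  · refine measure_mono ?_
    refine iUnion₂_subset fun i _ => ?_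
    rintro _ ⟨w, hw, rfl⟩
    refine ⟨hO i w (hEB hw), ?_⟩
    show F.eval (h i w) ∈ E
    rw [hF i w (hEB hw)]
    exact hw
  · intro i _ k _ hik
    show Disjoint (h i '' E) (h k '' E)
    rw [Set.disjoint_left]
    rintro _ ⟨w, hw, rfl⟩ ⟨w', hw', heq⟩
    have h3 : w' = w := by
      rw [← hF k w' (hEB hw'), heq, hF i w (hEB hw)]
    rw [h3] at heq
    exact hne i k hik w (hEB hw) heq.symm
  · intro i _
    exact meas_image Metric.isOpen_ball (hd i) (hinj i) hE hEB

/-- the energy -/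
lemma energy (D : Data F m B O₁ O₂) (hBo : IsOpen B) {R : ℝ} (hR : 0 < R)
    (hbd : ∀ z, F.eval z ∈ B → ‖z‖ ≤ R) {T : ℂ} (hT : ‖T‖ ≤ R) :
    DifferentiableOn ℂ (G F O₁ T) (B \ cv F) ∧
    ∫⁻ w in B \ cv F, ENNReal.ofReal (‖deriv (G F O₁ T) w‖ ^ 2) ≤
      ENNReal.ofReal (m * ((2 * R) ^ (m - 1)) ^ 2) *
        volume (O₁ ∩ (fun z => F.eval z) ⁻¹' B) := by
  have hop : IsOpen (B \ (cv F : Set ℂ)) := hBo.sdiff (cv F).finite_toSet.isClosed
  have hball : ∀ w ∈ B \ (cv F : Set ℂ), ∃ ρ : ℝ, 0 < ρ ∧ Metric.ball w ρ ⊆ B \ (cv F : Set ℂ) :=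
    fun w hw => Metric.isOpen_iff.1 hop w hw
  have hcv : ∀ {b : ℂ} {ρ : ℝ}, Metric.ball b ρ ⊆ B \ (cv F : Set ℂ) →
      ∀ z ∈ Metric.ball b ρ, ∀ c, F.derivative.eval c = 0 → F.eval c ≠ z := by
    intro b ρ hb z hz c hc heq
    exact (hb hz).2 (Finset.mem_coe.2 ((mem_cv D.hF).2 ⟨c, hc, heq⟩))
  choose! ρ hρ hρB using hball
  constructor
  · intro w hw
    obtain ⟨h, hd, hF, hO, hne, hr⟩ := branches D (hρ w hw) ((hρB w hw).trans diff_subset)
      (hcv (hρB w hw))
    exact (G_deriv D hR hbd hT ((hρB w hw).trans diff_subset) hd hF hr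
      (Metric.mem_ball_self (hρ w hw))).1.differentiableWithinAt
  · obtain ⟨t, hts, htc, htcov⟩ := TopologicalSpace.countable_cover_nhdsWithin
      (s := B \ (cv F : Set ℂ)) (f := fun w => Metric.ball w (ρ w))
      (fun w hw => mem_nhdsWithin_of_mem_nhds (Metric.ball_mem_nhds w (hρ w hw)))
    rcases t.eq_empty_or_nonempty with rfl | hne
    · have h0 : B \ (cv F : Set ℂ) = ∅ := by
        refine subset_empty_iff.1 (htcov.trans ?_)
        simp
      rw [h0]
      simp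
    · obtain ⟨x, hx⟩ := htc.exists_eq_range hne
      have hxs : ∀ n, x n ∈ B \ (cv F : Set ℂ) := fun n => hts (by rw [hx]; exact ⟨n, rfl⟩)
      set Bk : ℕ → Set ℂ := fun n => Metric.ball (x n) (ρ (x n)) with hBk
      have hcovx : B \ (cv F : Set ℂ) = ⋃ n, Bk n := by
        apply Subset.antisymm
        · refine htcov.trans ?_
          rw [hx]
          intro z hz
          simp only [mem_iUnion, mem_range] at hz
          obtain ⟨_, ⟨n, rfl⟩, hz⟩ := hz
          exact mem_iUnion.2 ⟨n, hz⟩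
        · exact iUnion_subset fun n => hρB _ (hxs n)
      have hm : ∀ n, MeasurableSet (disjointed Bk n) :=
        MeasurableSet.disjointed fun n => Metric.isOpen_ball.measurableSet
      rw [hcovx, ← iUnion_disjointed, lintegral_iUnion hm (disjoint_disjointed Bk)]
      have h3 : ∀ n, ∫⁻ w in disjointed Bk n, ENNReal.ofReal (‖deriv (G F O₁ T) w‖ ^ 2) ≤
          ENNReal.ofReal (m * ((2 * R) ^ (m - 1)) ^ 2) *
            volume (O₁ ∩ (fun z => F.eval z) ⁻¹' disjointed Bk n) := fun n =>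
        energy_local D hR hbd hT (hρ _ (hxs n)) ((hρB _ (hxs n)).trans diff_subset)
          (hcv (hρB _ (hxs n))) (hm n) (disjointed_subset Bk n)
      refine (ENNReal.tsum_le_tsum h3).trans ?_
      rw [ENNReal.tsum_mul_left]
      refine mul_le_mul_right ?_ _
      have hcont : Continuous fun z => F.eval z := F.continuous
      rw [← measure_iUnion]
      · refine measure_mono ?_
        refine iUnion_subset fun n z hz => ⟨hz.1, ?_⟩
        have h4 : F.eval z ∈ Bk n := disjointed_subset Bk n hz.2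
        exact (hρB _ (hxs n) h4).1
      · intro i j hij
        have h5 : Disjoint (disjointed Bk i) (disjointed Bk j) := disjoint_disjointed Bk hij
        show Disjoint _ _
        rw [Set.disjoint_left] at h5 ⊢
        intro z hz hz'
        exact h5 hz.2 hz'.2
      · intro n
        exact D.o1.measurableSet.inter (hcont.measurable (hm n))

/-! ### Removable singularities -/

lemma remove {B : Set ℂ} (hB : IsOpen B) (Z : Finset ℂ) : ∀ g : ℂ → ℂ,
    DifferentiableOn ℂ g (B \ Z) → (∃ M : ℝ, ∀ w ∈ B \ (Z : Set ℂ), ‖g w‖ ≤ M) →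
    ∃ g' : ℂ → ℂ, DifferentiableOn ℂ g' B ∧ EqOn g' g (B \ Z) := by
  induction Z using Finset.induction_on with
  | empty =>
    intro g hg _
    refine ⟨g, ?_, fun _ _ => rfl⟩
    simpa using hg
  | insert c Z hc ih =>
    intro g hg hM
    obtain ⟨M, hM⟩ := hM
    by_cases hcB : c ∈ B
    · have hset : B \ ((insert c Z : Finset ℂ) : Set ℂ) = (B \ (Z : Set ℂ)) \ {c} := by
        ext z
        simp only [Finset.coe_insert, mem_diff, mem_insert_iff, Finset.mem_coe, mem_singleton_iff]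
        tauto
      have hop : IsOpen (B \ (Z : Set ℂ)) := hB.sdiff Z.finite_toSet.isClosed
      have hcm : c ∈ B \ (Z : Set ℂ) := ⟨hcB, fun h => hc (Finset.mem_coe.1 h)⟩
      rw [hset] at hg hM
      have h1 := Complex.differentiableOn_update_limUnder_of_bddAbove (hop.mem_nhds hcm) hg
        ⟨M, by
          rintro _ ⟨w, hw, rfl⟩
          exact hM w hw⟩
      obtain ⟨g', h2, h3⟩ := ih _ h1 ⟨max M ‖Function.update g c (limUnder (𝓝[≠] c) g) c‖, by
        intro w hw
        by_cases hwc : w = c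
        · rw [hwc]
          exact le_max_right _ _
        · rw [Function.update_of_ne hwc]
          exact (hM w ⟨hw, hwc⟩).trans (le_max_left _ _)⟩
      refine ⟨g', h2, ?_⟩
      rw [hset]
      intro w hw
      rw [h3 hw.1, Function.update_of_ne hw.2]
    · have hset : B \ ((insert c Z : Finset ℂ) : Set ℂ) = B \ (Z : Set ℂ) := by
        ext z
        simp only [Finset.coe_insert, mem_diff, mem_insert_iff, Finset.mem_coe]
        constructor
        · rintro ⟨h1, h2⟩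
          exact ⟨h1, fun h => h2 (Or.inr h)⟩
        · rintro ⟨h1, h2⟩
          refine ⟨h1, ?_⟩
          rintro (rfl | h)
          · exact hcB h1
          · exact h2 h
      rw [hset] at hg hM ⊢
      exact ih g hg ⟨M, hM⟩

end Eng

open Eng in
/-- ENG: the energy of the symmetric functions of the roots in a piece of the preimage. -/
theorem eng : EngStatement := by
  intro m R r hR hr
  refine ⟨4 * (m * ((2 * R) ^ (m - 1)) ^ 2) / Real.pi, ?_⟩
  intro F y O₁ O₂ hF ho1 ho2 hcov hdis dec hcard hbd T hT p hp q hq hpq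
  set B : Set ℂ := Metric.ball y (2 * r) with hB
  have D : Data F m B O₁ O₂ := ⟨hF, ho1, ho2, hcov, hdis, hcard⟩
  set V := volume (O₁ ∩ (fun z => F.eval z) ⁻¹' B) with hV
  have hVfin : V ≠ ⊤ := by
    refine ne_top_of_le_ne_top (measure_closedBall_lt_top (x := (0 : ℂ)) (r := R)).ne
      (measure_mono ?_)
    intro z hz
    rw [mem_closedBall_zero_iff]
    exact hbd z hz.2
  obtain ⟨hGd, hGe⟩ := energy D Metric.isOpen_ball hR hbd hT
  obtain ⟨g, hgd, hgG⟩ := remove Metric.isOpen_ball (cv F) (G F O₁ T) hGd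
    ⟨(2 * R) ^ m, fun w hw => G_bound D hR hbd hT hw.1⟩
  have hop : IsOpen (B \ (cv F : Set ℂ)) :=
    Metric.isOpen_ball.sdiff (cv F).finite_toSet.isClosed
  set K : ℝ := m * ((2 * R) ^ (m - 1)) ^ 2 with hK
  have hK0 : 0 ≤ K := by positivity
  have hge : ∫⁻ w in B, ENNReal.ofReal (‖deriv g w‖ ^ 2) ≤ ENNReal.ofReal K * V := by
    have h1 : ∫⁻ w in B, ENNReal.ofReal (‖deriv g w‖ ^ 2) =
        ∫⁻ w in B \ (cv F : Set ℂ), ENNReal.ofReal (‖deriv g w‖ ^ 2) := by
      refine (setLIntegral_congr ?_).symm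
      exact diff_null_ae_eq_self ((cv F).finite_toSet.measure_zero volume)
    rw [h1]
    refine le_trans (le_of_eq ?_) hGe
    refine setLIntegral_congr_fun hop.measurableSet fun w hw => ?_
    have h2 : g =ᶠ[𝓝 w] G F O₁ T := by
      filter_upwards [hop.mem_nhds hw] with x hx
      exact hgG hx
    rw [h2.deriv_eq]
  have hdd : DifferentiableOn ℂ (deriv g) B := hgd.deriv Metric.isOpen_ball
  have hder : ∀ x ∈ Metric.ball y r, ‖deriv g x‖ ≤ Real.sqrt (K * V.toReal / (Real.pi * r ^ 2)) := by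
    intro x hx
    have hsub : Metric.ball x r ⊆ B := by
      intro z hz
      rw [hB, Metric.mem_ball] at *
      linarith [dist_triangle z x y]
    have h1 := (AreaAux.ball_ge' hr (hdd.mono hsub)).trans ((lintegral_mono_set hsub).trans hge)
    rw [← ENNReal.ofReal_toReal hVfin, ← ENNReal.ofReal_mul hK0,
      ENNReal.ofReal_le_ofReal_iff (by positivity)] at h1
    refine Real.le_sqrt_of_sq_le ?_
    rw [le_div_iff₀ (by positivity)]
    linarith
  have hsub : Metric.ball y r ⊆ B := Metric.ball_subset_ball (by linarith)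
  have hlip : ‖g p - g q‖ ≤ Real.sqrt (K * V.toReal / (Real.pi * r ^ 2)) * ‖p - q‖ :=
    (convex_ball y r).norm_image_sub_le_of_norm_deriv_le
      (fun w hw => hgd.differentiableAt (Metric.isOpen_ball.mem_nhds (hsub hw))) hder hq hp
  have hpqd : ‖p - q‖ ≤ 2 * r := by
    rw [← dist_eq_norm]
    rw [Metric.mem_ball] at hp hq
    linarith [dist_triangle_right p q y]
  have hcvp : ∀ w ∈ Metric.ball y r, (∀ c, F.derivative.eval c = 0 → F.eval c ≠ w) →
      g w = G F O₁ T w := by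
    intro w hw hc
    refine hgG ⟨hsub hw, fun h => ?_⟩
    obtain ⟨c, hc1, hc2⟩ := (mem_cv hF).1 (Finset.mem_coe.1 h)
    exact hc c hc1 hc2
  have hgp := hcvp p hp fun c hc => (hpq c hc).1
  have hgq := hcvp q hq fun c hc => (hpq c hc).2
  have hfin : ‖G F O₁ T p - G F O₁ T q‖ ^ 2 ≤ 4 * K / Real.pi * V.toReal := by
    rw [← hgp, ← hgq]
    have h0 : 0 ≤ K * V.toReal / (Real.pi * r ^ 2) := by positivity
    calc ‖g p - g q‖ ^ 2 ≤ (Real.sqrt (K * V.toReal / (Real.pi * r ^ 2)) * (2 * r)) ^ 2 :=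
          pow_le_pow_left₀ (norm_nonneg _)
            (hlip.trans (mul_le_mul_of_nonneg_left hpqd (Real.sqrt_nonneg _))) 2
      _ = (K * V.toReal / (Real.pi * r ^ 2)) * (4 * r ^ 2) := by
          rw [mul_pow, Real.sq_sqrt h0]
          ring
      _ = 4 * K / Real.pi * V.toReal := by
          have := Real.pi_pos
          field_simp
  exact hfin

end Pool.Agent.Imp
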