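import Pool.Agent.Lib.MP_1c105c_an.Defs2

/-! MP_1c105c_an: the continuum seen from an arc (row EXA). -/

set_option autoImplicit false

open Filter Topology Set Polynomial

namespace Pool.Agent.Imp

namespace Exa98

/-- A decreasing intersection of compact preconnected sets is preconnected. -/
theorem preconnected_iInter {V : ℕ → Set ℂ} (hV : Directed (· ⊇ ·) V)
    (hc : ∀ i, IsCompact (V i)) (hp : ∀ i, IsPreconnected (V i)) :
    IsPreconnected (⋂ i, V i) := by
  have hcl : IsClosed (⋂ i, V i) := isClosed_iInter fun i => (hc i).isClosed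
  have hcp : IsCompact (⋂ i, V i) := (hc 0).of_isClosed_subset hcl (iInter_subset V 0)
  rw [isPreconnected_closed_iff]
  intro t t' ht ht' htt' h1 h2
  by_contra hcon
  rw [not_nonempty_iff_eq_empty] at hcon
  have hd : Disjoint ((⋂ i, V i) ∩ t) ((⋂ i, V i) ∩ t') := by
    rw [Set.disjoint_iff]
    rintro x ⟨⟨hx, hxt⟩, -, hxt'⟩
    have : x ∈ (⋂ i, V i) ∩ (t ∩ t') := ⟨hx, hxt, hxt'⟩
    rw [hcon] at this
    exact this
  obtain ⟨A, B, hA, hB, hA', hB', hAB⟩ :=
    SeparatedNhds.of_isCompact_isCompact (hcp.inter_right ht) (hcp.inter_right ht') hd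
  obtain ⟨i, hi⟩ := exists_subset_nhds_of_isCompact hV hc (U := A ∪ B) (by
    intro x hx
    rcases htt' hx with h | h
    · exact mem_of_superset (hA.mem_nhds (hA' ⟨hx, h⟩)) subset_union_left
    · exact mem_of_superset (hB.mem_nhds (hB' ⟨hx, h⟩)) subset_union_right)
  obtain ⟨x, hx, hxt⟩ := h1
  obtain ⟨y, hy, hyt⟩ := h2
  obtain ⟨z, -, hzA, hzB⟩ := hp i A B hA hB hi ⟨x, mem_iInter.1 hx i, hA' ⟨hx, hxt⟩⟩
    ⟨y, mem_iInter.1 hy i, hB' ⟨hy, hyt⟩⟩
  exact Set.disjoint_left.1 hAB hzA hzB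

theorem rect_mono {η η' α β : ℝ} (h : η ≤ η') : Rect η α β ⊆ Rect η' α β :=
  fun _ hu => ⟨hu.1, hu.2.1.trans_le h, hu.2.2⟩

theorem one_div_le {m k : ℕ} (h : m ≤ k) : 1 / ((k : ℝ) + 1) ≤ 1 / ((m : ℝ) + 1) := by
  apply one_div_le_one_div_of_le (by positivity)
  have : (m : ℝ) ≤ k := by exact_mod_cast h
  linarith

variable {f : ℂ[X]} {P : ℂ → ℂ}

theorem per_int (hP : Half f P) (u : ℂ) (j : ℤ) : P (u + j * Complex.I) = P u := by
  induction j using Int.induction_on with
  | zero => simp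
  | succ a ih =>
    have : u + ((a + 1 : ℤ) : ℂ) * Complex.I = (u + (a : ℤ) * Complex.I) + Complex.I := by
      push_cast; ring
    rw [this, hP.per, ih]
  | pred a ih =>
    have : u + ((-a : ℤ) : ℂ) * Complex.I =
        (u + ((-a - 1 : ℤ) : ℂ) * Complex.I) + Complex.I := by
      push_cast; ring
    rw [this, hP.per] at ih
    exact ih

theorem iter_semi (hd : 2 ≤ f.natDegree) (hP : Half f P) (n : ℕ) {u : ℂ} (hu : 0 < u.re) :
    (fun w => f.eval w)^[n] (P u) = P ((f.natDegree : ℂ) ^ n * u) := by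
  induction n generalizing u with
  | zero => simp
  | succ n ih =>
    rw [Function.iterate_succ_apply]
    have h0 : f.eval (P u) = P (f.natDegree * u) := hP.semi u hu
    have h1 : 0 < ((f.natDegree : ℂ) * u).re := by
      have h2 : ((f.natDegree : ℂ) * u).re = (f.natDegree : ℝ) * u.re := by
        have : (f.natDegree : ℂ) = ((f.natDegree : ℝ) : ℂ) := by norm_cast
        rw [this, Complex.re_ofReal_mul]
      rw [h2]
      have : (0 : ℝ) < f.natDegree := by
        have : 0 < f.natDegree := by omega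
        exact_mod_cast this
      positivity
    show (fun w => f.eval w)^[n] (f.eval (P u)) = _
    rw [h0, ih h1]
    congr 1
    rw [pow_succ]
    ring

theorem closure_sub {R : ℝ} (hR : ∀ u : ℂ, 0 < u.re → u.re ≤ 1 → ‖P u‖ ≤ R) {η : ℝ} (hη : η ≤ 1)
    (α β : ℝ) : closure (P '' Rect η α β) ⊆ Metric.closedBall 0 R := by
  refine closure_minimal ?_ Metric.isClosed_closedBall
  rintro _ ⟨u, hu, rfl⟩
  rw [mem_closedBall_zero_iff]
  exact hR u hu.1 (hu.2.1.le.trans hη)

theorem one_div_le_one (k : ℕ) : 1 / ((k : ℝ) + 1) ≤ 1 := by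
  have := one_div_le (Nat.zero_le k)
  simpa using this

/-- Points of the arc whose image is near a given point of the Julia set. -/
theorem approx (hJ : JulStatement) (hd : 2 ≤ f.natDegree) (hP : Half f P)
    (hinf : ∀ R : ℝ, ∃ M : ℝ, ∀ u : ℂ, M ≤ u.re → R ≤ ‖P u‖) {α β : ℝ} {n : ℕ}
    (hn : 1 < (f.natDegree : ℝ) ^ n * (β - α)) {z : ℂ} (hz : z ∈ julia f) {ε : ℝ} (hε : 0 < ε) :
    ∃ w ∈ Rect ε α β, ‖(fun w => f.eval w)^[n] (P w) - z‖ < ε := by
  obtain ⟨hcl, -, -⟩ := hJ f P hd hP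
  set D : ℝ := (f.natDegree : ℝ) ^ n with hD
  have hD0 : 0 < D := by
    have : 0 < f.natDegree := by omega
    have : (0 : ℝ) < f.natDegree := by exact_mod_cast this
    positivity
  obtain ⟨M, hM⟩ := hinf (‖z‖ + 1)
  -- the compact set of the points which are not near the boundary
  let C : Set ℂ := {v | D * ε ≤ v.re ∧ v.re ≤ M ∧ 0 ≤ v.im ∧ v.im ≤ 1}
  have hC : IsCompact C := by
    have h1 : C = Set.Icc (D * ε) M ×ℂ Set.Icc 0 1 := by
      ext v
      simp only [C, Set.mem_ofPred_eq, Complex.mem_reProdIm, Set.mem_Icc]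
      tauto
    rw [h1]
    exact isCompact_Icc.reProdIm isCompact_Icc
  have hCHP : C ⊆ HP := fun v hv => lt_of_lt_of_le (by positivity) hv.1
  have hPC : IsCompact (P '' C) := hC.image_of_continuousOn (hP.diff.continuousOn.mono hCHP)
  have hzK : z ∈ filledJulia f := by
    have h1 : z ∈ closure (filledJulia f) := frontier_subset_closure hz
    rwa [hcl.closure_eq] at h1
  have hzC : z ∉ P '' C := by
    rintro ⟨v, hv, rfl⟩
    have h1 : P v ∈ (filledJulia f)ᶜ := by
      rw [← hP.range]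
      exact ⟨v, hCHP hv, rfl⟩
    exact h1 hzK
  have hnb : (P '' C)ᶜ ∩ Metric.ball z (min ε 1) ∈ 𝓝 z :=
    inter_mem (hPC.isClosed.isOpen_compl.mem_nhds hzC)
      (Metric.ball_mem_nhds z (lt_min hε one_pos))
  have hzc : z ∈ closure (filledJulia f)ᶜ := by
    rw [closure_compl]
    exact hz.2
  obtain ⟨y, ⟨hyC, hyb⟩, hyK⟩ := mem_closure_iff_nhds.1 hzc _ hnb
  rw [← hP.range] at hyK
  obtain ⟨v, hv, rfl⟩ := hyK
  have hv0 : 0 < v.re := hv
  have hyb' : ‖P v - z‖ < min ε 1 := by rwa [Metric.mem_ball, dist_eq_norm] at hyb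
  -- the real part is small
  have hvM : v.re ≤ M := by
    by_contra hcon
    push Not at hcon
    have h1 := hM v hcon.le
    have h2 : ‖P v‖ ≤ ‖P v - z‖ + ‖z‖ := by
      have := norm_add_le (P v - z) z
      rwa [sub_add_cancel] at this
    have h3 := hyb'.trans_le (min_le_right ε 1)
    linarith
  have hvs : v.re < D * ε := by
    by_contra hcon
    push Not at hcon
    apply hyC
    refine ⟨v + (-⌊v.im⌋ : ℤ) * Complex.I, ⟨?_, ?_, ?_, ?_⟩, per_int hP v _⟩
    · simpa using hcon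
    · simpa using hvM
    · have h1 : (v + (-⌊v.im⌋ : ℤ) * Complex.I).im = v.im - ⌊v.im⌋ := by
        simp [sub_eq_add_neg]
      rw [h1]
      have := Int.floor_le v.im
      linarith
    · have h1 : (v + (-⌊v.im⌋ : ℤ) * Complex.I).im = v.im - ⌊v.im⌋ := by
        simp [sub_eq_add_neg]
      rw [h1]
      have := Int.lt_floor_add_one v.im
      linarith
  -- the shift
  let j : ℤ := ⌊D * α - v.im⌋ + 1
  have hj1 : D * α < v.im + j := by
    have := Int.lt_floor_add_one (D * α - v.im)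
    simp only [j]
    push_cast
    linarith
  have hj2 : v.im + j ≤ D * α + 1 := by
    have := Int.floor_le (D * α - v.im)
    simp only [j]
    push_cast
    linarith
  have hDc : ((f.natDegree : ℂ)) ^ n = ((D : ℝ) : ℂ) := by
    rw [hD]
    push_cast
    rfl
  let w : ℂ := (v + j * Complex.I) / ((D : ℝ) : ℂ)
  have hwre : w.re = v.re / D := by
    simp only [w]
    rw [Complex.div_ofReal_re]
    simp
  have hwim : w.im = (v.im + j) / D := by
    simp only [w]
    rw [Complex.div_ofReal_im]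
    simp
  have hw0 : 0 < w.re := by
    rw [hwre]
    positivity
  refine ⟨w, ⟨hw0, ?_, ?_, ?_⟩, ?_⟩
  · rw [hwre, div_lt_iff₀ hD0]
    linarith
  · rw [hwim, lt_div_iff₀ hD0]
    linarith
  · rw [hwim, div_lt_iff₀ hD0]
    nlinarith
  · rw [iter_semi hd hP n hw0, hDc]
    have h1 : ((D : ℝ) : ℂ) * w = v + j * Complex.I := by
      simp only [w]
      have : ((D : ℝ) : ℂ) ≠ 0 := by exact_mod_cast hD0.ne'
      field_simp
    rw [h1, per_int hP]
    exact hyb'.trans_le (min_le_left ε 1)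

end Exa98

open Exa98

/-- Row EXA. -/
theorem exa (hJ : JulStatement) : ExaStatement := by
  intro f P hd hP hinf α β hαβ
  obtain ⟨R, hR⟩ := hP.bdd
  obtain ⟨hcl, -, -, hjul, -⟩ := hJ f P hd hP
  have hsub : ∀ k : ℕ, closure (P '' Rect (1 / ((k : ℝ) + 1)) α β) ⊆ Metric.closedBall 0 R :=
    fun k => closure_sub hR (one_div_le_one k) α β
  have hcomp : ∀ k : ℕ, IsCompact (closure (P '' Rect (1 / ((k : ℝ) + 1)) α β)) := fun k =>
    (isCompact_closedBall (0 : ℂ) R).of_isClosed_subset isClosed_closure (hsub k)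
  have hmono : ∀ {m k : ℕ}, m ≤ k → closure (P '' Rect (1 / ((k : ℝ) + 1)) α β) ⊆
      closure (P '' Rect (1 / ((m : ℝ) + 1)) α β) := fun h =>
    closure_mono (image_mono (rect_mono (Exa98.one_div_le h)))
  have hdir : Directed (· ⊇ ·) fun k : ℕ => closure (P '' Rect (1 / ((k : ℝ) + 1)) α β) :=
    fun a b => ⟨max a b, hmono (le_max_left a b), hmono (le_max_right a b)⟩
  have hclE : IsClosed (EA P α β) := isClosed_iInter fun k => isClosed_closure
  refine ⟨(hcomp 0).of_isClosed_subset hclE (iInter_subset _ 0), ?_, ?_, ?_⟩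
  · refine preconnected_iInter hdir hcomp fun k => ?_
    exact ((rect_preconnected _ α β).image P
      (hP.diff.continuousOn.mono (rect_sub _ α β))).closure
  · intro z hz
    have h1 : ∀ k : ℕ, ∃ u ∈ Rect (1 / ((k : ℝ) + 1)) α β, ‖P u - z‖ < 1 / ((k : ℝ) + 1) := by
      intro k
      have h2 := mem_iInter.1 hz k
      obtain ⟨_, ⟨u, hu, rfl⟩, h3⟩ := Metric.mem_closure_iff.1 h2 (1 / ((k : ℝ) + 1))
        (by positivity)
      refine ⟨u, hu, ?_⟩
      rwa [dist_comm, dist_eq_norm] at h3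
    choose u hu hu' using h1
    refine hjul u z (fun k => (hu k).1) ?_ ?_
    · refine squeeze_zero (fun k => (hu k).1.le) (fun k => (hu k).2.1.le) ?_
      exact tendsto_one_div_add_atTop_nhds_zero_nat
    · rw [tendsto_iff_norm_sub_tendsto_zero]
      refine squeeze_zero (fun k => norm_nonneg _) (fun k => (hu' k).le) ?_
      exact tendsto_one_div_add_atTop_nhds_zero_nat
  · intro n hn z hz
    have h1 : ∀ m : ℕ, ∃ w ∈ Rect (1 / ((m : ℝ) + 1)) α β,
        ‖(fun w => f.eval w)^[n] (P w) - z‖ < 1 / ((m : ℝ) + 1) := fun m =>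
      approx hJ hd hP hinf hn hz (by positivity)
    choose w hw hw' using h1
    have h2 : ∀ m, P (w m) ∈ Metric.closedBall (0 : ℂ) R := fun m =>
      hsub m (subset_closure ⟨w m, hw m, rfl⟩)
    obtain ⟨x, -, φ, hφ, hx⟩ := (isCompact_closedBall (0 : ℂ) R).tendsto_subseq h2
    refine ⟨x, mem_iInter.2 fun k => ?_, ?_⟩
    · refine mem_closure_of_tendsto hx (eventually_atTop.2 ⟨k, fun m hm => ?_⟩)
      refine ⟨w (φ m), ?_, rfl⟩
      exact rect_mono (Exa98.one_div_le (hm.trans (hφ.id_le m))) (hw (φ m))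
    · have hcont : Continuous (fun w => f.eval w)^[n] := f.continuous.iterate n
      have h3 : Tendsto (fun m => (fun w => f.eval w)^[n] (P (w (φ m)))) atTop
          (𝓝 ((fun w => f.eval w)^[n] x)) := (hcont.tendsto x).comp hx
      have h4 : Tendsto (fun m => (fun w => f.eval w)^[n] (P (w (φ m)))) atTop (𝓝 z) := by
        rw [tendsto_iff_norm_sub_tendsto_zero]
        refine squeeze_zero (fun k => norm_nonneg _) (fun k => (hw' (φ k)).le) ?_
        exact tendsto_one_div_add_atTop_nhds_zero_nat.comp hφ.tendsto_atTop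
      exact tendsto_nhds_unique h3 h4

end Pool.Agent.Imp
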