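import Pool.Agent.Lib.MP_1c105c_an.Defs9
import Pool.Agent.Lib.MP_1c105c_an.Orb
import Pool.Agent.Lib.MP_1c105c_an.Half
import Pool.Agent.Lib.MP_1c105c_an.Jul

/-! MP_1c105c_an: a point of the Julia set in a filled impression is in the impression. -/

set_option autoImplicit false

open Filter Topology Set Polynomial

namespace Pool.Agent.Imp

/-- The impressions are in the filled Julia set. -/
theorem impression_subset {f : ℂ[X]} {ψ : ℂ → ℂ}
    (hψ : IsInverseBoettcher f ψ) (θ : ℝ) : impression ψ θ ⊆ filledJulia f := by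
  intro z hz
  by_contra hzK
  have hzK' : z ∈ ψ '' {w | 1 < ‖w‖} := by
    rw [hψ.image_eq]
    exact hzK
  obtain ⟨w₀, hw₀, rfl⟩ := hzK'
  have hw₀' : 1 < ‖w₀‖ := hw₀
  set r : ℝ := (‖w₀‖ - 1) / 2 with hr
  have hr0 : 0 < r := by
    rw [hr]
    linarith
  have hB : ∀ w ∈ Metric.ball w₀ r, 1 + r < ‖w‖ := by
    intro w hw
    rw [Metric.mem_ball, dist_comm, dist_eq_norm] at hw
    have h1 : ‖w₀‖ ≤ ‖w₀ - w‖ + ‖w‖ := by
      have := norm_add_le (w₀ - w) w
      rwa [sub_add_cancel] at this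
    linarith
  have hBS : Metric.ball w₀ r ⊆ {w | 1 < ‖w‖} := by
    intro w hw
    have := hB w hw
    show 1 < ‖w‖
    linarith
  have hop : IsOpen (ψ '' Metric.ball w₀ r) := by
    refine Jul.openMap Metric.isOpen_ball (convex_ball _ _).isPreconnected
      (hψ.differentiableOn.mono hBS) ⟨w₀, Metric.mem_ball_self hr0, w₀ + (r / 2 : ℝ), ?_, ?_⟩ _
      subset_rfl Metric.isOpen_ball
    · rw [Metric.mem_ball, dist_eq_norm, add_sub_cancel_left, Complex.norm_real,
        Real.norm_of_nonneg (by linarith)]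
      linarith
    · intro h
      have h2 := hψ.injOn hw₀ (hBS (by
        rw [Metric.mem_ball, dist_eq_norm, add_sub_cancel_left, Complex.norm_real,
          Real.norm_of_nonneg (by linarith)]
        linarith : w₀ + ((r / 2 : ℝ) : ℂ) ∈ Metric.ball w₀ r)) h
      have h3 : ((r / 2 : ℝ) : ℂ) = 0 := by
        have := congrArg (fun x => x - w₀) h2
        simpa using this.symm
      have h4 : r / 2 = 0 := by exact_mod_cast h3
      linarith
  have hz' : MapClusterPt (ψ w₀)
      (𝓝[{w : ℂ | 1 < ‖w‖}] Complex.exp (2 * Real.pi * θ * Complex.I)) ψ := hz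
  have hfr := (mapClusterPt_iff_frequently.1 hz') (ψ '' Metric.ball w₀ r)
    (hop.mem_nhds ⟨w₀, Metric.mem_ball_self hr0, rfl⟩)
  have hev : ∀ᶠ w in 𝓝[{w : ℂ | 1 < ‖w‖}] Complex.exp (2 * Real.pi * θ * Complex.I),
      ‖w‖ < 1 + r := by
    refine mem_nhdsWithin_of_mem_nhds ?_
    refine (isOpen_lt continuous_norm continuous_const).mem_nhds ?_
    have h1 : ‖Complex.exp (2 * Real.pi * θ * Complex.I)‖ = 1 := by
      have := Complex.norm_exp_ofReal_mul_I (2 * Real.pi * θ)
      push_cast at this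
      exact this
    show ‖Complex.exp (2 * Real.pi * θ * Complex.I)‖ < 1 + r
    rw [h1]
    linarith
  have hS : ∀ᶠ w in 𝓝[{w : ℂ | 1 < ‖w‖}] Complex.exp (2 * Real.pi * θ * Complex.I),
      w ∈ {w : ℂ | 1 < ‖w‖} := self_mem_nhdsWithin
  obtain ⟨w, ⟨w', hw', hww⟩, hw1, hw2⟩ := (hfr.and_eventually (hS.and hev)).exists
  have h5 : w' = w := hψ.injOn (hBS hw') hw1 hww
  have h6 := hB w' hw'
  rw [h5] at h6
  linarith

/-- FIJ: a point of the Julia set in a filled impression is in the impression. -/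
theorem fij {f : ℂ[X]} {ψ : ℂ → ℂ} (hd : 2 ≤ f.natDegree)
    (hψ : IsInverseBoettcher f ψ) {θ : ℝ} {z : ℂ} (hz : z ∈ filledImpression ψ θ)
    (hJ : z ∈ julia f) : z ∈ impression ψ θ := by
  by_contra hzi
  obtain ⟨hP, -, -⟩ := half f ψ hd hψ
  obtain ⟨-, hKb, -, -, -⟩ := jul f _ hd hP
  obtain ⟨r, hr, hball⟩ := Metric.isOpen_iff.1 (Orb94.impression_closed ψ θ).isOpen_compl z hzi
  obtain ⟨w, hw, hwK⟩ : ∃ w ∈ Metric.ball z r, w ∈ (filledJulia f)ᶜ := by
    have h1 : z ∈ closure (filledJulia f)ᶜ := by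
      rw [closure_compl]
      exact hJ.2
    obtain ⟨w, hw, hw2⟩ := Metric.mem_closure_iff.1 h1 r hr
    exact ⟨w, by rwa [Metric.mem_ball, dist_comm], hw⟩
  have hpre : IsPreconnected ((filledJulia f)ᶜ) := by
    rw [← hP.range]
    exact (convex_halfSpace_re_gt 0).isPreconnected.image _ hP.diff.continuousOn
  have hub : ¬ Bornology.IsBounded ((filledJulia f)ᶜ) := by
    intro h
    have h1 := hKb.union h
    rw [union_compl_self] at h1
    exact NoncompactSpace.noncompact_univ (Metric.isCompact_of_isClosed_isBounded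
      isClosed_univ h1)
  obtain ⟨y, hy1, hy2⟩ := hz (Metric.ball z r ∪ (filledJulia f)ᶜ)
    (((convex_ball z r).isPreconnected).union w hw hwK hpre)
    (fun h => hub (h.subset subset_union_right)) (Or.inl (Metric.mem_ball_self hr))
  rcases hy1 with h | h
  · exact hball h hy2
  · exact h (impression_subset hψ θ hy2)

end Pool.Agent.Imp
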