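import Pool.Agent.Lib.MP_1c105c_an.Defs4

/-! MP_1c105c_an, row MAIN4: the fourth target from the rows. -/

set_option autoImplicit false

open Filter Topology Set Polynomial

namespace Pool.Agent.Imp

/-- A ray which lands at `z` lands at `z` in the half plane model. -/
theorem land_of_landsAt {ψ : ℂ → ℂ} {θ : ℝ} {z : ℂ} (h : LandsAt ψ θ z) :
    Land (fun u => ψ (Complex.exp (2 * Real.pi * u))) θ z := by
  have h1 : Tendsto (fun s : ℝ => Real.exp (2 * Real.pi * s)) (𝓝[>] 0) (𝓝[>] 1) := by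
    refine tendsto_nhdsWithin_iff.2 ⟨?_, ?_⟩
    · have h2 : Continuous fun s : ℝ => Real.exp (2 * Real.pi * s) := by fun_prop
      have h3 := h2.tendsto 0
      simp only [mul_zero, Real.exp_zero] at h3
      exact h3.mono_left nhdsWithin_le_nhds
    · filter_upwards [self_mem_nhdsWithin] with s hs
      have hs' : (0 : ℝ) < s := hs
      exact Real.one_lt_exp_iff.2 (by positivity)
  have h2 := Tendsto.comp h h1
  refine h2.congr fun s => ?_
  simp only [Function.comp_apply]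
  congr 1
  rw [Complex.ofReal_exp, ← Complex.exp_add]
  congr 1
  push_cast
  ring

theorem main4 (tar2 : Target2) (tar3 : Target3) (half : HalfStatement) (inf : InfStatement)
    (sml : SmlStatement) (bia : BiaStatement) : Target4 := by
  intro f ψ hd hψ h
  obtain ⟨h0 | h1, -⟩ := tar3 f ψ hd hψ
  · obtain ⟨hcik, δ, hδ, hdiam⟩ := h0
    rcases h with h | ⟨z, hz⟩ | h | ⟨θ₁, θ₂, z, hz₁, hz₂, hne⟩
    · exact tar2 f ψ hd hψ (Or.inl fun θ => h θ)
    · exact absurd hz (hcik z)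
    · obtain ⟨θ, hθ⟩ := h δ hδ
      exact absurd hθ (not_lt.2 (hdiam θ))
    · obtain ⟨hH, hT, -⟩ := half f ψ hd hψ
      have hbi : ∃ z, Bi (fun u => ψ (Complex.exp (2 * Real.pi * u))) z :=
        ⟨z, θ₁, θ₂, land_of_landsAt hz₁, land_of_landsAt hz₂, hne⟩
      obtain ⟨t, w, hw⟩ := sml f _ hd hH (bia f _ hd hH (inf f ψ hψ) hbi)
      exact tar2 f ψ hd hψ (Or.inr ⟨t, (hT t).2 ⟨w, hw⟩⟩)
  · exact h1

end Pool.Agent.Imp
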