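import Pool.Agent.Lib.MP_1c105c_an.Nm
import Pool.Agent.Lib.MP_1c105c_an.Main4

/-! MP_1c105c_an, row MAIN5: the fifth target from the rows. -/

set_option autoImplicit false

open Filter Topology Set Polynomial

namespace Pool.Agent.Imp

/-- The points at which a closed set is connected im kleinen form a `G_δ`. -/
theorem cik_residual {J : Set ℂ} (h : J ⊆ closure {z | CikAt J z}) :
    {z : J | CikAt J z} ∈ residual J := by
  let O : ℕ → Set ℂ := fun n => {x | ∃ U : Set ℂ, IsOpen U ∧ x ∈ U ∧ ∃ Y ⊆ J, IsPreconnected Y ∧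
    U ∩ J ⊆ Y ∧ ∀ y ∈ Y, ∀ y' ∈ Y, ‖y - y'‖ ≤ 1 / ((n : ℝ) + 1)}
  have hO : ∀ n, IsOpen (O n) := by
    intro n
    rw [isOpen_iff_forall_mem_open]
    rintro x ⟨U, hU, hxU, hY⟩
    exact ⟨U, fun y hy => ⟨U, hU, hy, hY⟩, hU, hxU⟩
  have hsub : ∀ n z, CikAt J z → z ∈ O n := by
    rintro n z ⟨hz, hc⟩
    obtain ⟨Y, hYJ, hYc, hYn, hYs⟩ := hc (1 / (2 * ((n : ℝ) + 1))) (by positivity)
    obtain ⟨U, hU, hzU, hUY⟩ := mem_nhdsWithin.mp hYn
    refine ⟨U, hU, hzU, Y, hYJ, hYc, hUY, fun y hy y' hy' => ?_⟩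
    have h1 := hYs y hy
    have h2 := hYs y' hy'
    have h3 : ‖y - y'‖ ≤ ‖y - z‖ + ‖y' - z‖ := by
      have := norm_sub_le (y - z) (y' - z)
      simpa using this
    have h4 : 1 / (2 * ((n : ℝ) + 1)) + 1 / (2 * ((n : ℝ) + 1)) = 1 / ((n : ℝ) + 1) := by
      field_simp
      norm_num
    linarith
  have hmem : ∀ z ∈ J, (∀ n, z ∈ O n) → CikAt J z := by
    intro z hz hn
    refine ⟨hz, fun ε hε => ?_⟩
    obtain ⟨n, hn'⟩ := exists_nat_one_div_lt hε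
    obtain ⟨U, hU, hzU, Y, hYJ, hYc, hUY, hYs⟩ := hn n
    refine ⟨Y, hYJ, hYc, mem_nhdsWithin.mpr ⟨U, hU, hzU, hUY⟩, fun y hy => ?_⟩
    exact (hYs y hy z (hUY ⟨hzU, hz⟩)).trans hn'.le
  have hEq : {z : J | CikAt J z} = ⋂ n, ((↑) : J → ℂ) ⁻¹' O n := by
    ext z
    simp only [Set.mem_ofPred_eq, Set.mem_iInter, Set.mem_preimage]
    exact ⟨fun hz n => hsub n z hz, fun hn => hmem z z.2 hn⟩
  rw [hEq, countable_iInter_mem]
  intro n
  refine residual_of_dense_open ((hO n).preimage continuous_subtype_val) ?_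
  intro z
  rw [mem_closure_iff]
  rintro V hV hzV
  obtain ⟨W, hW, rfl⟩ := isOpen_induced_iff.mp hV
  obtain ⟨y, hyW, hy⟩ := mem_closure_iff.mp (h z.2) W hW hzV
  exact ⟨⟨y, hy.1⟩, hyW, hsub n y hy⟩

theorem main5 (tar2 : Target2) (tar4 : Target4) (half : HalfStatement) (sml : SmlStatement) :
    Target5 := by
  intro f ψ hd hψ h
  have key : goodAngles f ψ ∈ residual ℝ ∧ dimH (goodAngles f ψ)ᶜ < 1 ∧
      julia f ⊆ closure {z | CikAt (julia f) z} := by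
    rcases h with h | h
    · obtain ⟨hH, hT, -⟩ := half f ψ hd hψ
      have hne : ¬ IsMeagre {t : ℝ | ∃ z, Land (fun u => ψ (Complex.exp (2 * Real.pi * u))) t z} :=
        fun hm => h (hm.mono (by
          rintro θ ⟨z, hz⟩
          exact ⟨z, land_of_landsAt hz⟩))
      obtain ⟨t, w, hw⟩ := sml f _ hd hH (nm _ hH.diff.continuousOn hne)
      exact tar2 f ψ hd hψ (Or.inr ⟨t, (hT t).2 ⟨w, hw⟩⟩)
    · exact tar4 f ψ hd hψ (Or.inr h)
  exact ⟨key.1, key.2.1, cik_residual key.2.2⟩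

end Pool.Agent.Imp
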