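import Pool.Agent.Lib.MP_1c105c_an.Mea
import Pool.Agent.Lib.MP_1c105c_an.Main5
import Pool.Agent.Lib.MP_1c105c_an.Nr
import Pool.Agent.Lib.MP_1c105c_an.Defs9

/-! MP_1c105c_an: the final form of the zero-one law. -/

set_option autoImplicit false

open Filter Topology Set Polynomial

namespace Pool.Agent.Imp

/-- A ray which lands at `z` in the half plane model lands at `z`. -/
theorem landsAt_of_land {ψ : ℂ → ℂ} {θ : ℝ} {z : ℂ}
    (h : Land (fun u => ψ (Complex.exp (2 * Real.pi * u))) θ z) : LandsAt ψ θ z := by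
  have h1 : Tendsto (fun r : ℝ => Real.log r / (2 * Real.pi)) (𝓝[>] 1) (𝓝[>] 0) := by
    refine tendsto_nhdsWithin_iff.2 ⟨?_, ?_⟩
    · have h3 : Tendsto (fun r : ℝ => Real.log r / (2 * Real.pi)) (𝓝 1)
          (𝓝 (Real.log 1 / (2 * Real.pi))) :=
        ((Real.continuousAt_log one_ne_zero).tendsto).div_const _
      simp only [Real.log_one, zero_div] at h3
      exact h3.mono_left nhdsWithin_le_nhds
    · filter_upwards [self_mem_nhdsWithin] with r hr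
      have hr' : (1 : ℝ) < r := hr
      exact div_pos (Real.log_pos hr') (by positivity)
  have h2 := Tendsto.comp h h1
  refine h2.congr' ?_
  filter_upwards [self_mem_nhdsWithin] with r hr
  have hr' : (1 : ℝ) < r := hr
  have hr0 : (0 : ℝ) < r := by linarith
  simp only [Function.comp_apply]
  congr 1
  have h4 : (2 * (Real.pi : ℂ)) * (((Real.log r / (2 * Real.pi) : ℝ) : ℂ) + θ * Complex.I) =
      ((Real.log r : ℝ) : ℂ) + 2 * Real.pi * θ * Complex.I := by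
    have h5 : (Real.pi : ℂ) ≠ 0 := Complex.ofReal_ne_zero.2 Real.pi_ne_zero
    push_cast
    field_simp
  rw [h4, Complex.exp_add, ← Complex.ofReal_exp, Real.exp_log hr0]

theorem fin10 (half : HalfStatement) (inf : InfStatement) (sml : SmlStatement)
    (bia : BiaStatement) (tar2 : Target2) (tar5 : Target5) (nr3 : Nr3Statement)
    (cv8 : Cv8Statement) (orb : OrbStatement) (alp : AlpStatement) (f : ℂ[X]) (ψ : ℂ → ℂ) (hd : 2 ≤ f.natDegree)
    (hψ : IsInverseBoettcher f ψ) :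
    ((∀ z, ¬ CikAt (julia f) z) ∧
      (∃ δ : ℝ, 0 < δ ∧ (∀ θ : ℝ, δ ≤ Metric.diam (impression ψ θ)) ∧
        {θ : ℝ | δ ≤ Metric.diam (accumulation ψ θ)} ∈ residual ℝ) ∧
      (∀ (θ₁ θ₂ : ℝ) (z : ℂ), LandsAt ψ θ₁ z → LandsAt ψ θ₂ z → ∃ m : ℤ, θ₂ = θ₁ + m) ∧
      (∃ α, f.eval α = α ∧ ‖f.derivative.eval α‖ ≤ 1 ∧ (∀ θ, α ∈ filledImpression ψ θ) ∧
        ∀ (n : ℕ) (z : ℂ), 1 ≤ n → (fun w => f.eval w)^[n] z = z → z ≠ α →
          1 < ‖deriv (fun w => f.eval w)^[n] z‖ ∧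
          ∃! θ : ℝ, θ ∈ Set.Ico (0 : ℝ) 1 ∧ LandsAt ψ θ z) ∧
      ∀ (θ : ℝ) (c : ℂ) (n : ℕ), f.derivative.eval c = 0 →
        (fun w => f.eval w)^[n + 1] c ∈ filledImpression ψ θ) ∨
    (goodAngles f ψ ∈ residual ℝ ∧ dimH (goodAngles f ψ)ᶜ < 1 ∧
      {z : julia f | CikAt (julia f) z} ∈ residual (julia f)) := by
  by_cases hG : goodAngles f ψ ∈ residual ℝ ∧ dimH (goodAngles f ψ)ᶜ < 1 ∧
      {z : julia f | CikAt (julia f) z} ∈ residual (julia f)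
  · exact Or.inr hG
  have h5 := fun h => hG (tar5 f ψ hd hψ h)
  obtain ⟨hH, hT, -⟩ := half f ψ hd hψ
  have hdiam : ∃ δ : ℝ, 0 < δ ∧ ∀ θ : ℝ, δ ≤ Metric.diam (impression ψ θ) := by
    by_contra hcon
    push Not at hcon
    exact h5 (Or.inr (Or.inr (Or.inl hcon)))
  have hosc : ∃ c : ℝ, 0 < c ∧
      ∀ t : ℝ, ¬ Osc (fun u => ψ (Complex.exp (2 * Real.pi * u))) c t := by
    by_contra hcon
    push Not at hcon
    obtain ⟨t, w, hw⟩ := sml f _ hd hH hcon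
    obtain ⟨h1, h2, h3⟩ := tar2 f ψ hd hψ (Or.inr ⟨t, (hT t).2 ⟨w, hw⟩⟩)
    exact hG ⟨h1, h2, cik_residual h3⟩
  have hbi : ¬ ∃ z, Bi (fun u => ψ (Complex.exp (2 * Real.pi * u))) z := by
    intro hbi
    obtain ⟨t, w, hw⟩ := sml f _ hd hH (bia f _ hd hH (inf f ψ hψ) hbi)
    obtain ⟨h1, h2, h3⟩ := tar2 f ψ hd hψ (Or.inr ⟨t, (hT t).2 ⟨w, hw⟩⟩)
    exact hG ⟨h1, h2, cik_residual h3⟩
  obtain ⟨δ, hδ, hδ2⟩ := hdiam
  obtain ⟨c, hc, hno⟩ := hosc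
  have hcv : ∀ (c : ℂ), f.derivative.eval c = 0 → ∀ (n : ℕ) (θ : ℝ),
      (fun w => f.eval w)^[n + 1] c ∈ filledImpression ψ θ := by
    intro v hv n
    induction n with
    | zero =>
      intro θ A hA hAb hvA
      by_contra hcon
      obtain ⟨t, ht⟩ := cv8 f ψ hd hψ θ v A hv hA hAb
        (Set.disjoint_iff_inter_eq_empty.2 (Set.not_nonempty_iff_eq_empty.1 hcon)) hvA c hc
      exact hno t ht
    | succ n ih =>
      intro θ
      rw [Function.iterate_succ_apply']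
      exact orb f ψ hd hψ _ ih θ
  have hm := mea half f ψ hd hψ c hc hno
  refine Or.inl ⟨fun z hz => h5 (Or.inr (Or.inl ⟨z, hz⟩)), ⟨min δ (c / 4),
    lt_min hδ (by positivity), fun θ => (min_le_left _ _).trans (hδ2 θ), ?_⟩,
    fun θ₁ θ₂ z h₁ h₂ => ?_, ?_, fun θ v n hv => hcv v hv n θ⟩
  · exact mem_of_superset hm fun θ hθ => (min_le_right δ (c / 4)).trans hθ
  · by_contra hcon
    push Not at hcon
    exact hbi ⟨z, θ₁, θ₂, land_of_landsAt h₁, land_of_landsAt h₂, hcon⟩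
  · obtain ⟨α, hα, hα1, h⟩ := nr3 f _ hd hH (inf f ψ hψ) hbi
    refine ⟨α, hα, hα1, fun θ => alp f ψ hd hψ θ (fun v hv n => hcv v hv n θ) α hα hα1,
      fun n z hn hz hza => ?_⟩
    obtain ⟨h1, θ, ⟨hθ, hl⟩, hu⟩ := h n z hn hz hza
    exact ⟨h1, θ, ⟨hθ, landsAt_of_land hl⟩, fun θ' hθ' => hu θ' ⟨hθ'.1, land_of_landsAt hθ'.2⟩⟩

end Pool.Agent.Imp
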