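import Pool.Agent.Lib.MP_1c105c_an.Fin10
import Pool.Agent.Lib.MP_1c105c_an.Defs10
import Pool.Agent.Lib.MP_1c105c_an.Com

/-! MP_1c105c_an: the final form of the zero-one law, with an irrationally indifferent fixed
point. -/

set_option autoImplicit false

open Filter Topology Set Polynomial

namespace Pool.Agent.Imp

theorem fin11 (irr : IrrStatement) (f : ℂ[X]) (ψ : ℂ → ℂ) (hd : 2 ≤ f.natDegree)
    (hψ : IsInverseBoettcher f ψ) (h10 :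
    ((∀ z, ¬ CikAt (julia f) z) ∧
      (∃ δ : ℝ, 0 < δ ∧ (∀ θ : ℝ, δ ≤ Metric.diam (impression ψ θ)) ∧
        {θ : ℝ | δ ≤ Metric.diam (accumulation ψ θ)} ∈ residual ℝ) ∧
      (∀ (θ₁ θ₂ : ℝ) (z : ℂ), LandsAt ψ θ₁ z → LandsAt ψ θ₂ z → ∃ m : ℤ, θ₂ = θ₁ + m) ∧
      (∃ α, f.eval α = α ∧ ‖f.derivative.eval α‖ ≤ 1 ∧ (∀ θ, α ∈ filledImpression ψ θ) ∧
        ∀ (n : ℕ) (z : ℂ), 1 ≤ n → (fun w => f.eval w)^[n] z = z → z ≠ α →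
          1 < ‖deriv (fun w => f.eval w)^[n] z‖ ∧
          ∃! θ : ℝ, θ ∈ Set.Ico (0 : ℝ) 1 ∧ LandsAt ψ θ z) ∧
      ∀ (θ : ℝ) (c : ℂ) (n : ℕ), f.derivative.eval c = 0 →
        (fun w => f.eval w)^[n + 1] c ∈ filledImpression ψ θ) ∨
    (goodAngles f ψ ∈ residual ℝ ∧ dimH (goodAngles f ψ)ᶜ < 1 ∧
      {z : julia f | CikAt (julia f) z} ∈ residual (julia f))) :
    ((∀ z, ¬ CikAt (julia f) z) ∧
      (∃ δ : ℝ, 0 < δ ∧ (∀ θ : ℝ, δ ≤ Metric.diam (impression ψ θ)) ∧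
        {θ : ℝ | δ ≤ Metric.diam (accumulation ψ θ)} ∈ residual ℝ) ∧
      (∀ (θ₁ θ₂ : ℝ) (z : ℂ), LandsAt ψ θ₁ z → LandsAt ψ θ₂ z → ∃ m : ℤ, θ₂ = θ₁ + m) ∧
      (∃ z, ∀ θ, z ∈ impression ψ θ) ∧
      (∃ α, f.eval α = α ∧ ‖f.derivative.eval α‖ = 1 ∧
        (∀ m : ℕ, 1 ≤ m → f.derivative.eval α ^ m ≠ 1) ∧ (∀ θ, α ∈ filledImpression ψ θ) ∧
        ∀ (n : ℕ) (z : ℂ), 1 ≤ n → (fun w => f.eval w)^[n] z = z → z ≠ α →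
          1 < ‖deriv (fun w => f.eval w)^[n] z‖ ∧
          ∃! θ : ℝ, θ ∈ Set.Ico (0 : ℝ) 1 ∧ LandsAt ψ θ z) ∧
      ∀ (θ : ℝ) (c : ℂ) (n : ℕ), f.derivative.eval c = 0 →
        (fun w => f.eval w)^[n + 1] c ∈ filledImpression ψ θ) ∨
    (goodAngles f ψ ∈ residual ℝ ∧ dimH (goodAngles f ψ)ᶜ < 1 ∧
      {z : julia f | CikAt (julia f) z} ∈ residual (julia f)) := by
  refine h10.imp_left ?_
  rintro ⟨h1, h2, h3, ⟨α, hα, hα1, hαI, hper⟩, h5⟩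
  have hbi : ¬ ∃ z, Bi (fun u => ψ (Complex.exp (2 * Real.pi * u))) z := by
    rintro ⟨z, θ₁, θ₂, hl1, hl2, hne⟩
    obtain ⟨m, hm⟩ := h3 θ₁ θ₂ z (landsAt_of_land hl1) (landsAt_of_land hl2)
    exact hne m hm
  have hαK : α ∈ filledJulia f := by
    refine ⟨‖α‖, fun k => ?_⟩
    have h6 : (fun w => f.eval w)^[k] α = α := Function.iterate_fixed hα k
    rw [h6]
  obtain ⟨h7, h8⟩ := irr f ψ hd hψ hbi (fun θ c hc n => h5 θ c n hc) α hα hα1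
    (fun n z hn hz hza => (hper n z hn hz hza).1)
  exact ⟨h1, h2, h3, com hd hψ hαK hαI, ⟨α, hα, h7, h8, hαI, hper⟩, h5⟩

end Pool.Agent.Imp
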