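import Pool.Agent.Lib.MP_1c105c_an.Defs6

/-! MP_1c105c_an, row FIX: rays with fixed angle land at fixed points. -/

set_option autoImplicit false

open Filter Topology Set Polynomial

namespace Pool.Agent.Imp

namespace Fix16

/-- A bounded below product of distances. -/
lemma near_root {g : ℂ[X]} {ε : ℝ} (hε : 0 ≤ ε) (w : ℂ)
    (h : ∀ z, g.eval z = 0 → ε ≤ ‖w - z‖) :
    ‖g.leadingCoeff‖ * ε ^ g.natDegree ≤ ‖g.eval w‖ := by
  by_cases hg : g = 0
  · subst hg; simp
  have h1 : g.eval w = g.leadingCoeff * (g.roots.map fun z => w - z).prod := by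
    have h2 := (IsAlgClosed.splits g).eq_prod_roots
    conv_lhs => rw [h2]
    rw [eval_mul, eval_C, eval_multiset_prod, Multiset.map_map]
    congr 2
    refine Multiset.map_congr rfl fun z _ => ?_
    simp
  have h3 : ∀ s : Multiset ℂ, (∀ z ∈ s, ε ≤ ‖w - z‖) →
      ε ^ Multiset.card s ≤ ‖(s.map fun z => w - z).prod‖ := by
    intro s
    induction s using Multiset.induction with
    | empty => intro _; simp
    | cons a s ih =>
      intro hs
      rw [Multiset.map_cons, Multiset.prod_cons, norm_mul, Multiset.card_cons, pow_succ']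
      refine mul_le_mul (hs a (Multiset.mem_cons_self a s))
        (ih fun z hz => hs z (Multiset.mem_cons_of_mem hz)) (by positivity) (norm_nonneg _)
  have hcard : Multiset.card g.roots = g.natDegree :=
    (IsAlgClosed.splits g).natDegree_eq_card_roots.symm
  rw [h1, norm_mul]
  refine mul_le_mul_of_nonneg_left ?_ (norm_nonneg _)
  rw [← hcard]
  refine h3 _ fun z hz => h z ?_
  exact isRoot_of_mem_roots hz

/-- A path along which a polynomial tends to zero converges to a root. -/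
lemma conv {g : ℂ[X]} (hg : 0 < g.natDegree) {R : ℝ → ℂ} (hR : ContinuousOn R (Ioi 0))
    (h : Tendsto (fun s => g.eval (R s)) (𝓝[>] 0) (𝓝 0)) :
    ∃ z, g.eval z = 0 ∧ Tendsto R (𝓝[>] 0) (𝓝 z) := by
  have hg0 : g ≠ 0 := by
    rintro rfl; simp at hg
  have hlc : 0 < ‖g.leadingCoeff‖ := norm_pos_iff.2 (leadingCoeff_ne_zero.2 hg0)
  -- eventually close to some root
  have hev : ∀ ε : ℝ, 0 < ε → ∀ᶠ s in 𝓝[>] (0 : ℝ), ∃ z, g.eval z = 0 ∧ ‖R s - z‖ < ε := by
    intro ε hε
    have hpos : 0 < ‖g.leadingCoeff‖ * ε ^ g.natDegree := by positivity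
    have h1 := (Metric.tendsto_nhds.1 h) _ hpos
    filter_upwards [h1] with s hs
    by_contra hno
    push Not at hno
    have h2 := near_root hε.le (R s) hno
    rw [dist_zero_right] at hs
    linarith
  -- separation of the roots
  obtain ⟨r, hr, hsep⟩ : ∃ r : ℝ, 0 < r ∧ ∀ z, g.eval z = 0 → ∀ w, g.eval w = 0 → z ≠ w →
      2 * r ≤ ‖z - w‖ := by
    set Z : Finset ℂ := g.roots.toFinset with hZ
    have hmem : ∀ z, g.eval z = 0 → z ∈ Z := by
      intro z hz
      rw [hZ, Multiset.mem_toFinset, mem_roots hg0]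
      exact hz
    set T : Finset (ℂ × ℂ) := (Z ×ˢ Z).filter fun p => p.1 ≠ p.2 with hT
    by_cases hTe : T.Nonempty
    · obtain ⟨p, hp, hmin⟩ := T.exists_min_image (fun p => ‖p.1 - p.2‖) hTe
      rw [hT, Finset.mem_filter] at hp
      have hp0 : 0 < ‖p.1 - p.2‖ := norm_pos_iff.2 (sub_ne_zero.2 hp.2)
      refine ⟨‖p.1 - p.2‖ / 2, by positivity, fun z hz w hw hzw => ?_⟩
      have := hmin (z, w) (by
        rw [hT, Finset.mem_filter, Finset.mem_product]
        exact ⟨⟨hmem z hz, hmem w hw⟩, hzw⟩)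
      simpa using by linarith
    · refine ⟨1, one_pos, fun z hz w hw hzw => absurd ?_ hTe⟩
      exact ⟨(z, w), by
        rw [hT, Finset.mem_filter, Finset.mem_product]
        exact ⟨⟨hmem z hz, hmem w hw⟩, hzw⟩⟩
  -- a small interval is mapped near one root
  obtain ⟨η, hη, hηs⟩ := mem_nhdsGT_iff_exists_Ioo_subset.1 (hev r hr)
  have hη' : (0 : ℝ) < η := hη
  have hηs' : ∀ s, 0 < s → s < η → ∃ z, g.eval z = 0 ∧ ‖R s - z‖ < r :=
    fun s h1 h2 => hηs ⟨h1, h2⟩
  obtain ⟨z₁, hz₁, hm⟩ := hηs' (η / 2) (by linarith) (by linarith)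
  have hpre : IsPreconnected (R '' Ioo 0 η) :=
    isPreconnected_Ioo.image R (hR.mono fun s hs => hs.1)
  have hsub : R '' Ioo 0 η ⊆ Metric.ball z₁ r := by
    have hVo : IsOpen (⋃ z ∈ {z | g.eval z = 0 ∧ z ≠ z₁}, Metric.ball z r) :=
      isOpen_biUnion fun _ _ => Metric.isOpen_ball
    have hdis : Disjoint (Metric.ball z₁ r)
        (⋃ z ∈ {z | g.eval z = 0 ∧ z ≠ z₁}, Metric.ball z r) := by
      rw [Set.disjoint_left]
      intro x hx hx'
      obtain ⟨z, hz, hxz⟩ := mem_iUnion₂.1 hx'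
      rw [Metric.mem_ball, dist_eq_norm] at hx hxz
      have h2 := hsep z hz.1 z₁ hz₁ hz.2
      have h3 : ‖z - z₁‖ ≤ ‖x - z‖ + ‖x - z₁‖ := by
        have h4 := norm_sub_le (x - z₁) (x - z)
        have h5 : x - z₁ - (x - z) = z - z₁ := by ring
        rw [h5] at h4
        linarith
      linarith
    refine hpre.subset_left_of_subset_union Metric.isOpen_ball hVo hdis ?_ ?_
    · rintro _ ⟨s, hs, rfl⟩
      obtain ⟨z, hz, hzs⟩ := hηs' s hs.1 hs.2
      by_cases hzz : z = z₁
      · left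
        rw [Metric.mem_ball, dist_eq_norm, ← hzz]
        exact hzs
      · right
        refine mem_iUnion₂.2 ⟨z, ⟨hz, hzz⟩, ?_⟩
        rw [Metric.mem_ball, dist_eq_norm]
        exact hzs
    · refine ⟨R (η / 2), ⟨η / 2, ⟨by linarith, by linarith⟩, rfl⟩, ?_⟩
      rw [Metric.mem_ball, dist_eq_norm]
      exact hm
  refine ⟨z₁, hz₁, ?_⟩
  rw [Metric.tendsto_nhds]
  intro ε hε
  have hε' : 0 < min ε r := lt_min hε hr
  have hI : ∀ᶠ s in 𝓝[>] (0 : ℝ), s < η :=
    mem_nhdsWithin_of_mem_nhds (Iio_mem_nhds hη')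
  filter_upwards [hev _ hε', hI, self_mem_nhdsWithin] with s hs hsη hs0
  obtain ⟨z, hz, hzs⟩ := hs
  have h1 : R s ∈ Metric.ball z₁ r := hsub ⟨s, ⟨hs0, hsη⟩, rfl⟩
  rw [Metric.mem_ball, dist_eq_norm] at h1
  by_cases hzz : z = z₁
  · rw [dist_eq_norm, ← hzz]
    exact hzs.trans_le (min_le_left _ _)
  · exfalso
    have h2 := hsep z hz z₁ hz₁ hzz
    have h3 : ‖z - z₁‖ ≤ ‖R s - z‖ + ‖R s - z₁‖ := by
      have h4 := norm_sub_le (R s - z₁) (R s - z)
      have h5 : R s - z₁ - (R s - z) = z - z₁ := by ring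
      rw [h5] at h4
      linarith
    have h6 := hzs.trans_le (min_le_right ε r)
    linarith

/-- Integer translations. -/
lemma per_int {P : ℂ → ℂ} (h : ∀ u, P (u + Complex.I) = P u) (m : ℤ) (u : ℂ) :
    P (u + m * Complex.I) = P u := by
  have hn : ∀ (n : ℕ) (u : ℂ), P (u + n * Complex.I) = P u := by
    intro n
    induction n with
    | zero => intro u; simp
    | succ n ih =>
      intro u
      have : u + ((n + 1 : ℕ) : ℂ) * Complex.I = (u + n * Complex.I) + Complex.I := by
        push_cast; ring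
      rw [this, h, ih]
  obtain ⟨n, rfl | rfl⟩ := m.eq_nat_or_neg
  · exact_mod_cast hn n u
  · have h1 := hn n (u + ((-(n : ℤ) : ℤ) : ℂ) * Complex.I)
    have h2 : u + ((-(n : ℤ) : ℤ) : ℂ) * Complex.I + (n : ℂ) * Complex.I = u := by
      push_cast; ring
    rw [h2] at h1
    exact h1.symm

end Fix16

/-- FIX: the rays with fixed angle land at fixed points. -/
theorem fix (hyp : HypStatement) : FixStatement := by
  intro f P hd hP t k htk
  have hd0 : (0 : ℝ) < f.natDegree := by
    have : 0 < f.natDegree := by omega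
    exact_mod_cast this
  have hd1 : (1 : ℝ) ≤ f.natDegree := by
    have : 1 ≤ f.natDegree := by omega
    exact_mod_cast this
  set R : ℝ → ℂ := fun s => P ((s : ℂ) + t * Complex.I) with hRdef
  have hmem : ∀ s : ℝ, 0 < s → ((s : ℂ) + t * Complex.I) ∈ HP := by
    intro s hs
    simp only [HP, mem_ofPred_eq, Complex.add_re, Complex.ofReal_re, Complex.mul_re,
      Complex.ofReal_im, Complex.I_re, Complex.I_im]
    linarith
  have hRc : ContinuousOn R (Ioi 0) := by
    refine hP.diff.continuousOn.comp (by fun_prop) fun s hs => hmem s hs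
  have hsemi : ∀ s : ℝ, 0 < s → f.eval (R s) = R (f.natDegree * s) := by
    intro s hs
    have h1 := hP.semi _ (hmem s hs)
    rw [hRdef]
    simp only
    rw [h1]
    have h2 : (f.natDegree : ℂ) * ((s : ℂ) + t * Complex.I)
        = (((f.natDegree * s : ℝ) : ℂ) + t * Complex.I) + (k : ℂ) * Complex.I := by
      have h3 : ((f.natDegree : ℝ) * t : ℝ) = t + k := htk
      have h4 : (f.natDegree : ℂ) * (t : ℂ) = (t : ℂ) + (k : ℂ) := by exact_mod_cast h3
      calc (f.natDegree : ℂ) * ((s : ℂ) + t * Complex.I)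
          = (f.natDegree : ℂ) * s + ((f.natDegree : ℂ) * t) * Complex.I := by ring
        _ = _ := by rw [h4]; push_cast; ring
    rw [h2, Fix16.per_int hP.per]
  have hdeg : (f - X).natDegree = f.natDegree := by
    rw [natDegree_sub_eq_left_of_natDegree_lt]
    rw [natDegree_X]; omega
  obtain ⟨z, hz, hlim⟩ := Fix16.conv (g := f - X) (by rw [hdeg]; omega) hRc (by
    rw [Metric.tendsto_nhds]
    intro ε hε
    obtain ⟨s₀, hs₀, hs⟩ := hyp f P hd hP (ε / 2) (1 / f.natDegree) (by positivity) (by positivity)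
    have hI : ∀ᶠ s in 𝓝[>] (0 : ℝ), s < s₀ / f.natDegree :=
      mem_nhdsWithin_of_mem_nhds (Iio_mem_nhds (by positivity))
    filter_upwards [hI, self_mem_nhdsWithin] with s hsη hs0
    have hs0' : (0 : ℝ) < s := hs0
    rw [eval_sub, eval_X, hsemi s hs0', dist_zero_right]
    have h5 : (f.natDegree : ℝ) * s ≤ s₀ := by
      rw [lt_div_iff₀ hd0] at hsη
      linarith
    have := hs (((f.natDegree * s : ℝ) : ℂ) + t * Complex.I) ((s : ℂ) + t * Complex.I)
      (by simp; positivity) (by simpa using h5)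
      (by simp; field_simp; simp) (by
        simp
        nlinarith) (by simp; positivity)
    rw [hRdef]
    simp only
    linarith)
  refine ⟨z, ?_, hlim⟩
  rw [eval_sub, eval_X] at hz
  exact sub_eq_zero.mp hz

end Pool.Agent.Imp
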