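import Pool.Agent.Lib.MP_1c105c_an.Defs18

/-! MP_1c105c_an: row GAP of stage 19. -/

set_option autoImplicit false

open Filter Topology Set Polynomial

namespace Pool.Agent.Imp

theorem gap : GapStatement := by
  intro X E _ hE hXE hEX hX h0 h1 hstep
  by_contra h1E
  have hbdd : BddAbove E := ⟨1, fun x hx => (hX (hEX hx)).2⟩
  have hm : sSup E ∈ E := hE.csSup_mem ⟨0, h0⟩ hbdd
  have hmax : ∀ x ∈ E, x ≤ sSup E := fun x hx => le_csSup hbdd hx
  have hclosed : IsClosed ((X \ E) ∩ Ici (sSup E)) := hXE.inter isClosed_Ici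
  have hne : ((X \ E) ∩ Ici (sSup E)).Nonempty :=
    ⟨1, ⟨h1, h1E⟩, (hX (hEX hm)).2⟩
  have hbb : BddBelow ((X \ E) ∩ Ici (sSup E)) := ⟨sSup E, fun x hx => hx.2⟩
  have ht := hclosed.csInf_mem hne hbb
  have hlt : sSup E < sInf ((X \ E) ∩ Ici (sSup E)) := by
    refine lt_of_le_of_ne ht.2 fun h => ht.1.2 ?_
    rw [← h]
    exact hm
  refine ht.1.2 (hstep _ hm _ ht.1.1 hlt ?_)
  intro r hr hrt hrX
  have hrE : r ∉ E := fun h => absurd (hmax r h) (not_le.mpr hr)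
  exact absurd (csInf_le hbb ⟨⟨hrX, hrE⟩, hr.le⟩) (not_le.mpr hrt)

end Pool.Agent.Imp
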