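import Pool.Agent.Lib.MP_1c105c_an.Defs

/-! MP_1c105c_an, row HAU: Hausdorff measure zero from coverings by `D`-adic intervals. -/

set_option autoImplicit false

open Filter Topology Set MeasureTheory
open scoped ENNReal NNReal

namespace Pool.Agent.Imp

namespace Hau92

/-- The closed `D`-adic interval of level `m` with number `j`. -/
noncomputable def iv (D m j : ℕ) : Set ℝ :=
  Set.Icc ((j : ℝ) / (D : ℝ) ^ m) (((j : ℝ) + 1) / (D : ℝ) ^ m)

theorem ediam_iv (D m j : ℕ) :
    Metric.ediam (iv D m j) = ENNReal.ofReal (((D : ℝ) ^ m)⁻¹) := by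
  unfold iv
  rw [Real.ediam_Icc]
  congr 1
  ring

end Hau92

open Hau92 in
/-- Row HAU. -/
theorem hau : HauStatement := by
  intro S s D hs hD c hsum hS
  have hD0 : (0 : ℝ) < D := by positivity
  -- the value of one level
  set f : ℕ → ℝ≥0∞ := fun m => ((c m).card : ℝ≥0∞) * ENNReal.ofReal (((D : ℝ) ^ m) ^ (-s))
    with hf
  have hfsum : ∑' m, f m ≠ ∞ := by
    have h1 : ∀ m, f m = ENNReal.ofReal (((c m).card : ℝ) * ((D : ℝ) ^ m) ^ (-s)) := by
      intro m
      rw [hf]
      simp only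
      rw [ENNReal.ofReal_mul (by positivity), ENNReal.ofReal_natCast]
    simp_rw [h1]
    exact hsum.tsum_ofReal_ne_top
  have htail := ENNReal.tendsto_sum_nat_add f hfsum
  classical
  -- the coverings
  set t : ℕ → (ℕ × ℕ) → Set ℝ := fun n q =>
    if q.2 ∈ c (q.1 + n) then iv D (q.1 + n) q.2 else ∅ with ht
  have hdiam : ∀ n q, Metric.ediam (t n q) ≤ ENNReal.ofReal (((D : ℝ) ^ n)⁻¹) := by
    intro n q
    simp only [ht]
    split_ifs with h
    · rw [ediam_iv]
      apply ENNReal.ofReal_le_ofReal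
      have h1 : (1 : ℝ) ≤ D := by exact_mod_cast (by omega : 1 ≤ D)
      exact inv_anti₀ (by positivity) (pow_le_pow_right₀ h1 (by omega))
    · simp
  have hr : Tendsto (fun n : ℕ => ENNReal.ofReal (((D : ℝ) ^ n)⁻¹)) atTop (𝓝 0) := by
    rw [← ENNReal.ofReal_zero]
    apply ENNReal.tendsto_ofReal
    have h1 : (1 : ℝ) < D := by exact_mod_cast (by omega : 1 < D)
    exact (tendsto_pow_atTop_atTop_of_one_lt h1).inv_tendsto_atTop
  have hcov : ∀ n, S ⊆ ⋃ q, t n q := by
    intro n x hx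
    obtain ⟨m, hm, j, hj, hxj⟩ := ((hS x hx).and_eventually (eventually_ge_atTop n)).exists.imp
      (fun m h => (⟨h.2, h.1⟩ : n ≤ m ∧ ∃ j ∈ c m, x ∈ Set.Icc ((j : ℝ) / D ^ m) ((j + 1) / D ^ m)))
    refine Set.mem_iUnion.2 ⟨(m - n, j), ?_⟩
    have e : m - n + n = m := Nat.sub_add_cancel hm
    simp only [ht, e, if_pos hj]
    exact hxj
  have hval : ∀ n, ∑' q : ℕ × ℕ, Metric.ediam (t n q) ^ s = ∑' k, f (k + n) := by
    intro n
    rw [ENNReal.tsum_prod']
    congr 1
    funext k
    have h1 : ∀ j : ℕ, Metric.ediam (t n (k, j)) ^ s =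
        if j ∈ c (k + n) then ENNReal.ofReal (((D : ℝ) ^ (k + n)) ^ (-s)) else 0 := by
      intro j
      simp only [ht]
      split_ifs with h
      · rw [ediam_iv, ENNReal.ofReal_rpow_of_nonneg (by positivity) hs.le,
          Real.inv_rpow (by positivity), ← Real.rpow_neg (by positivity)]
      · simp [hs]
    simp_rw [h1]
    rw [tsum_eq_sum (s := c (k + n))]
    · rw [Finset.sum_ite_mem, Finset.inter_self, Finset.sum_const, nsmul_eq_mul]
    · intro j hj
      simp [hj]
  have hle := Measure.hausdorffMeasure_le_liminf_tsum (X := ℝ) s S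
    (fun n : ℕ => ENNReal.ofReal (((D : ℝ) ^ n)⁻¹)) hr t
    (Eventually.of_forall fun n q => hdiam n q) (Eventually.of_forall hcov)
  simp_rw [hval] at hle
  rw [htail.liminf_eq] at hle
  exact le_antisymm hle bot_le

end Pool.Agent.Imp
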