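import Pool.Agent.Lib.MP_1c105c_an.Defs18

/-! MP_1c105c_an: row HOL of stage 19. -/

set_option autoImplicit false

open Filter Topology Set Polynomial

namespace Pool.Agent.Imp

namespace HolR

theorem esc_mono {p q : ℂ → Prop} (h : ∀ y, p y → q y) {z : ℂ} (hz : Esc p z) : Esc q z := by
  obtain ⟨Q, h1, h2, h3, h4⟩ := hz
  exact ⟨Q, h1, h2, h3, fun y hy => h y (h4 y hy)⟩

theorem esc_self {p : ℂ → Prop} {z : ℂ} (hz : Esc p z) : p z := by
  obtain ⟨Q, h1, h2, h3, h4⟩ := hz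
  exact h4 z h2

/-- The path from `p₁` to `p₂`. -/
noncomputable def pth (p₁ p₂ : ℂ) (s : ℝ) : ℂ := p₁ + (s : ℂ) * (p₂ - p₁)

theorem pth_re (p₁ p₂ : ℂ) (s : ℝ) : (pth p₁ p₂ s).re = (1 - s) * p₁.re + s * p₂.re := by
  simp only [pth, Complex.add_re, Complex.re_ofReal_mul, Complex.sub_re]
  ring

theorem pth_im (p₁ p₂ : ℂ) (s : ℝ) : (pth p₁ p₂ s).im = (1 - s) * p₁.im + s * p₂.im := by
  simp only [pth, Complex.add_im, Complex.im_ofReal_mul, Complex.sub_im]
  ring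

theorem pth_zero (p₁ p₂ : ℂ) : pth p₁ p₂ 0 = p₁ := by simp [pth]

theorem pth_one (p₁ p₂ : ℂ) : pth p₁ p₂ 1 = p₂ := by simp [pth]

theorem continuous_pth (p₁ p₂ : ℂ) : Continuous (pth p₁ p₂) := by
  unfold pth
  fun_prop

theorem pth_pos {p₁ p₂ : ℂ} (h1 : 0 < p₁.re) (h2 : 0 < p₂.re) {s : ℝ} (hs : s ∈ Icc (0 : ℝ) 1) :
    0 < (pth p₁ p₂ s).re := by
  rw [pth_re]
  rcases eq_or_lt_of_le hs.1 with h | h
  · rw [← h]; simpa using h1
  · have := mul_pos h h2
    have h3 : 0 ≤ (1 - s) * p₁.re := mul_nonneg (by linarith [hs.2]) h1.le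
    linarith

theorem pth_le {p₁ p₂ : ℂ} {v' : ℝ} (h1 : p₁.im ≤ v') (h2 : p₂.im ≤ v') {s : ℝ}
    (hs : s ∈ Icc (0 : ℝ) 1) : (pth p₁ p₂ s).im ≤ v' := by
  rw [pth_im]
  have h3 := mul_le_mul_of_nonneg_left h1 (show (0 : ℝ) ≤ 1 - s by linarith [hs.2])
  have h4 := mul_le_mul_of_nonneg_left h2 hs.1
  nlinarith

theorem le_pth {p₁ p₂ : ℂ} {v : ℝ} (h1 : v ≤ p₁.im) (h2 : v ≤ p₂.im) {s : ℝ}
    (hs : s ∈ Icc (0 : ℝ) 1) : v ≤ (pth p₁ p₂ s).im := by
  rw [pth_im]
  have h3 := mul_le_mul_of_nonneg_left h1 (show (0 : ℝ) ≤ 1 - s by linarith [hs.2])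
  have h4 := mul_le_mul_of_nonneg_left h2 hs.1
  nlinarith

theorem pth_inj {p₁ p₂ : ℂ} (h : p₁ ≠ p₂) {s t : ℝ} (hst : pth p₁ p₂ s = pth p₁ p₂ t) :
    s = t := by
  unfold pth at hst
  have h1 : (s : ℂ) * (p₂ - p₁) = t * (p₂ - p₁) := add_left_cancel hst
  have h2 := mul_right_cancel₀ (sub_ne_zero.mpr h.symm) h1
  exact_mod_cast h2

theorem inj_strip {f : ℂ[X]} {P : ℂ → ℂ} (hP : Half f P) {v v' : ℝ} (hvv : v' < v + 1) {a b : ℂ}
    (ha : 0 < a.re) (hb : 0 < b.re) (ha1 : v ≤ a.im) (ha2 : a.im ≤ v') (hb1 : v ≤ b.im)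
    (hb2 : b.im ≤ v') (h : P a = P b) : a = b := by
  obtain ⟨j, hj⟩ := hP.inj a ha b hb h
  have h1 : a.im = b.im + j := by
    have := congrArg Complex.im hj
    simpa using this
  have hj0 : j = 0 := by
    have h2 : (j : ℝ) < 1 := by linarith
    have h3 : (-1 : ℝ) < j := by linarith
    have h4 : j < 1 := by exact_mod_cast h2
    have h5 : -1 < j := by exact_mod_cast h3
    omega
  rw [hj, hj0]
  simp

/-- A point of the segment. -/
theorem seg_mem {a b : ℂ} {s : ℝ} (hs : s ∈ Icc (0 : ℝ) 1) : pth a b s ∈ segment ℝ a b := by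
  refine ⟨1 - s, s, by linarith [hs.2], hs.1, by ring, ?_⟩
  simp only [pth, Complex.real_smul]
  push_cast
  ring

theorem isClosed_segment (a b : ℂ) : IsClosed (segment ℝ a b) := by
  have h : segment ℝ a b = pth a b '' Icc 0 1 := by
    ext z
    constructor
    · rintro ⟨x, y, hx, hy, hxy, rfl⟩
      refine ⟨y, ⟨hy, by linarith⟩, ?_⟩
      have hx1 : x = 1 - y := by linarith
      subst hx1
      simp only [pth, Complex.real_smul]
      push_cast
      ring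
    · rintro ⟨s, hs, rfl⟩
      exact seg_mem hs
  rw [h]
  exact (isCompact_Icc.image (continuous_pth a b)).isClosed

end HolR

open HolR

/-- **HOL**. -/
theorem hol (hM : MonaStatement) (hG : GapStatement) : HolStatement := by
  intro f P hd hP v v' r β g p₁ p₂ hvv hg hfg hcrit h1 h1a h1b h2 h2a h2b hb1 hb2 hE
  rcases eq_or_ne p₁ p₂ with h12 | h12
  · rw [← h12]; exact hE
  have hd0 : (0 : ℝ) < f.natDegree := by
    have : 0 < f.natDegree := by omega
    exact_mod_cast this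
  have hdC : (f.natDegree : ℂ) ≠ 0 := by
    exact_mod_cast hd0.ne'
  have hPc : ContinuousOn P HP := hP.diff.continuousOn
  have hq : ∀ s ∈ Icc (0 : ℝ) 1, pth p₁ p₂ s ∈ HP := fun s hs => pth_pos h1 h2 hs
  have hqd : ∀ s ∈ Icc (0 : ℝ) 1, pth p₁ p₂ s / f.natDegree ∈ HP := by
    intro s hs
    change 0 < (pth p₁ p₂ s / f.natDegree).re
    have h3 : (pth p₁ p₂ s / (f.natDegree : ℂ)).re = (pth p₁ p₂ s).re / f.natDegree := by
      have := Complex.div_ofReal_re (pth p₁ p₂ s) f.natDegree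
      push_cast at this
      exact this
    rw [h3]
    exact div_pos (hq s hs) hd0
  have hc : ContinuousOn (fun s => P (pth p₁ p₂ s)) (Icc 0 1) :=
    hPc.comp (continuous_pth p₁ p₂).continuousOn hq
  have hcd : ContinuousOn (fun s => P (pth p₁ p₂ s / f.natDegree)) (Icc 0 1) :=
    hPc.comp (((continuous_pth p₁ p₂).div_const _).continuousOn) hqd
  have hfd : ∀ s ∈ Icc (0 : ℝ) 1, f.eval (P (pth p₁ p₂ s / f.natDegree)) = P (pth p₁ p₂ s) := by
    intro s hs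
    rw [hP.semi _ (hqd s hs), mul_div_cancel₀ _ hdC]
  have hSball : segment ℝ (P p₁) (P p₂) ⊆ Metric.ball β r :=
    (convex_ball β r).segment_subset hb1 hb2
  -- the sets
  set X : Set ℝ := Icc 0 1 ∩ (fun s => P (pth p₁ p₂ s)) ⁻¹' segment ℝ (P p₁) (P p₂) with hX
  set E : Set ℝ := X ∩ (fun s => g (P (pth p₁ p₂ s)) - P (pth p₁ p₂ s / f.natDegree)) ⁻¹' {0}
    with hEdef
  have hXc : IsClosed X := hc.preimage_isClosed_of_isClosed isClosed_Icc (isClosed_segment _ _)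
  have hXI : X ⊆ Icc 0 1 := fun s hs => hs.1
  have hgc : ContinuousOn (fun s => g (P (pth p₁ p₂ s))) X :=
    hg.comp (hc.mono hXI) fun s hs => hSball hs.2
  have hEc : IsClosed E :=
    (hgc.sub (hcd.mono hXI)).preimage_isClosed_of_isClosed hXc isClosed_singleton
  have hEX : E ⊆ X := fun s hs => hs.1
  have hmemE : ∀ s, s ∈ X → (s ∈ E ↔ g (P (pth p₁ p₂ s)) = P (pth p₁ p₂ s / f.natDegree)) := by
    intro s hs
    constructor
    · intro h
      exact sub_eq_zero.mp h.2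
    · intro h
      exact ⟨hs, sub_eq_zero.mpr h⟩
  have hXE : IsClosed (X \ E) := by
    refine isClosed_of_closure_subset fun s₀ hs₀ => ?_
    have hs₀X : s₀ ∈ X := by
      have := closure_mono (sdiff_subset : X \ E ⊆ X) hs₀
      rwa [hXc.closure_eq] at this
    refine ⟨hs₀X, fun hs₀E => ?_⟩
    have heq := (hmemE s₀ hs₀X).mp hs₀E
    have hne : f.derivative.eval (P (pth p₁ p₂ s₀ / f.natDegree)) ≠ 0 := by
      intro h0
      have h3 := (esc_self (hcrit _ h0)).1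
      rw [hfd s₀ hs₀X.1] at h3
      exact h3 (hSball hs₀X.2)
    have hs : HasStrictDerivAt (fun z => f.eval z)
        (f.derivative.eval (P (pth p₁ p₂ s₀ / f.natDegree))) (P (pth p₁ p₂ s₀ / f.natDegree)) :=
      f.hasStrictDerivAt _
    have hinv := hs.eventually_left_inverse hne
    have ht1 : Tendsto (fun s => P (pth p₁ p₂ s / f.natDegree)) (𝓝[X \ E] s₀)
        (𝓝 (P (pth p₁ p₂ s₀ / f.natDegree))) :=
      ((hcd.mono hXI) s₀ hs₀X).mono_left (nhdsWithin_mono _ sdiff_subset)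
    have ht2 : Tendsto (fun s => g (P (pth p₁ p₂ s))) (𝓝[X \ E] s₀)
        (𝓝 (P (pth p₁ p₂ s₀ / f.natDegree))) := by
      rw [← heq]
      exact (hgc s₀ hs₀X).mono_left (nhdsWithin_mono _ sdiff_subset)
    have h3 := ht1.eventually hinv
    have h4 := ht2.eventually hinv
    have h5 : ∀ᶠ s in 𝓝[X \ E] s₀, s ∈ X \ E := self_mem_nhdsWithin
    have : (𝓝[X \ E] s₀).NeBot := mem_closure_iff_nhdsWithin_neBot.mp hs₀
    obtain ⟨s, h3, h4, h5⟩ := (h3.and (h4.and h5)).exists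
    refine h5.2 ((hmemE s h5.1).mpr ?_)
    rw [← h3, ← h4, hfg _ (hSball h5.1.2), hfd s h5.1.1]
  have h0X : (0 : ℝ) ∈ X := by
    refine ⟨⟨le_refl _, zero_le_one⟩, ?_⟩
    simp only [mem_preimage, pth_zero]
    exact left_mem_segment ℝ _ _
  have h1X : (1 : ℝ) ∈ X := by
    refine ⟨⟨zero_le_one, le_refl _⟩, ?_⟩
    simp only [mem_preimage, pth_one]
    exact right_mem_segment ℝ _ _
  have h0E : (0 : ℝ) ∈ E := by
    rw [hmemE 0 h0X, pth_zero]
    exact hE
  have key := hG X E hXc hEc hXE hEX hXI h0E h1X ?_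
  · have := (hmemE 1 h1X).mp key
    rwa [pth_one] at this
  intro s hs t ht hst hbetween
  have hsX := hEX hs
  rw [hmemE t ht]
  -- the parameter on the gap
  set w : ℝ → ℝ := fun x => s + x * (t - s) with hw
  have hwc : Continuous w := by
    rw [hw]; fun_prop
  have hw0 : w 0 = s := by simp [hw]
  have hw1 : w 1 = t := by simp [hw]
  have hwI : ∀ x ∈ Icc (0 : ℝ) 1, w x ∈ Icc (0 : ℝ) 1 := by
    intro x hx
    have h3 : 0 ≤ x * (t - s) := mul_nonneg hx.1 (by linarith)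
    have h4 : x * (t - s) ≤ 1 * (t - s) := mul_le_mul_of_nonneg_right hx.2 (by linarith)
    refine ⟨?_, ?_⟩
    · have := (hXI hsX).1
      simp only [hw]
      linarith
    · have := (hXI ht).2
      simp only [hw]
      linarith
  have hwlt : ∀ x ∈ Ioo (0 : ℝ) 1, s < w x ∧ w x < t := by
    intro x hx
    have h3 : 0 < x * (t - s) := mul_pos hx.1 (by linarith)
    have h4 : x * (t - s) < 1 * (t - s) := mul_lt_mul_of_pos_right hx.2 (by linarith)
    simp only [hw]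
    constructor <;> linarith
  have hPne : P (pth p₁ p₂ s) ≠ P (pth p₁ p₂ t) := by
    intro h
    have h3 := inj_strip hP hvv (hq s (hXI hsX)) (hq t (hXI ht)) (le_pth h1a h2a (hXI hsX))
      (pth_le h1b h2b (hXI hsX)) (le_pth h1a h2a (hXI ht)) (pth_le h1b h2b (hXI ht)) h
    exact hst.ne (pth_inj h12 h3)
  have hsegsub : segment ℝ (P (pth p₁ p₂ s)) (P (pth p₁ p₂ t)) ⊆ segment ℝ (P p₁) (P p₂) :=
    (convex_segment _ _).segment_subset hsX.2 ht.2
  have haS : ∀ x ∈ Icc (0 : ℝ) 1, pth (P (pth p₁ p₂ s)) (P (pth p₁ p₂ t)) x ∈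
      segment ℝ (P p₁) (P p₂) := fun x hx => hsegsub (seg_mem hx)
  have main := hM f (pth (P (pth p₁ p₂ s)) (P (pth p₁ p₂ t))) (fun x => P (pth p₁ p₂ (w x)))
    (fun x => g (pth (P (pth p₁ p₂ s)) (P (pth p₁ p₂ t)) x))
    (fun x => P (pth p₁ p₂ (w x) / f.natDegree)) hd
    (continuous_pth _ _).continuousOn (hc.comp hwc.continuousOn hwI)
    (fun x _ y _ hxy => pth_inj hPne hxy) ?_ ?_ ?_ ?_ ?_ ?_ ?_ ?_ ?_ ?_
  · simp only [pth_one, hw1] at main
    exact main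
  · -- injectivity of the second arc
    intro x hx y hy hxy
    have h3 := inj_strip hP hvv (hq _ (hwI x hx)) (hq _ (hwI y hy)) (le_pth h1a h2a (hwI x hx))
      (pth_le h1b h2b (hwI x hx)) (le_pth h1a h2a (hwI y hy)) (pth_le h1b h2b (hwI y hy)) hxy
    have h4 := pth_inj h12 h3
    simp only [hw] at h4
    have h5 : x * (t - s) = y * (t - s) := add_left_cancel h4
    exact mul_right_cancel₀ (sub_ne_zero.mpr hst.ne') h5
  · simp only [pth_zero, hw0]
  · simp only [pth_one, hw1]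
  · intro x hx y hy hxy
    have hxI : x ∈ Icc (0 : ℝ) 1 := ⟨hx.1.le, hx.2.le⟩
    rcases eq_or_lt_of_le hy.1 with h0 | h0
    · rw [← h0] at hxy
      simp only [hw0] at hxy
      have h6 : pth (P (pth p₁ p₂ s)) (P (pth p₁ p₂ t)) x =
          pth (P (pth p₁ p₂ s)) (P (pth p₁ p₂ t)) 0 := by rw [hxy, pth_zero]
      exact hx.1.ne' (pth_inj hPne h6)
    rcases eq_or_lt_of_le hy.2 with h0' | h0'
    · rw [h0'] at hxy
      simp only [hw1] at hxy
      have h6 : pth (P (pth p₁ p₂ s)) (P (pth p₁ p₂ t)) x =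
          pth (P (pth p₁ p₂ s)) (P (pth p₁ p₂ t)) 1 := by rw [hxy, pth_one]
      exact hx.2.ne (pth_inj hPne h6)
    refine hbetween (w y) (hwlt y ⟨h0, h0'⟩).1 (hwlt y ⟨h0, h0'⟩).2 ⟨hwI y hy, ?_⟩
    change P (pth p₁ p₂ (w y)) ∈ segment ℝ (P p₁) (P p₂)
    rw [← hxy]
    exact haS x hxI
  · intro z hz
    refine esc_mono (fun y hy x hx => ⟨fun h => hy.1 ?_, ?_⟩) (hcrit z hz)
    · rw [h]
      exact hSball (haS x hx)
    · exact hy.2 _ (hq _ (hwI x hx)) (le_pth h1a h2a (hwI x hx)) (pth_le h1b h2b (hwI x hx))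
  · exact hg.comp (continuous_pth _ _).continuousOn fun x hx => hSball (haS x hx)
  · exact hcd.comp hwc.continuousOn hwI
  · intro x hx
    exact hfg _ (hSball (haS x hx))
  · intro x hx
    exact hfd _ (hwI x hx)
  · simp only [pth_zero, hw0]
    exact (hmemE s hsX).mp hs

end Pool.Agent.Imp
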