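import Pool.Agent.Lib.MP_1c105c_an.Defs4
import Pool.Agent.Lib.MP_1c105c_an.Cro

/-! MP_1c105c_an, row HYP (backup): comparable points are close. -/

set_option autoImplicit false

open MeasureTheory Set Metric Filter Topology Polynomial
open scoped ENNReal

namespace Pool.Agent.Imp

open CroA in
theorem hyp64 : HypStatement := by
  intro f P _ hP κ q hκ hq
  rcases lt_or_ge 1 q with hq1 | hq1
  · refine ⟨1, one_pos, fun u v hu _ h1 h2 _ => ?_⟩
    exfalso
    nlinarith
  set η : ℝ := κ * q / 4 with hη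
  have hη0 : 0 < η := by positivity
  obtain ⟨s, hs0, hs1, hsm⟩ := exists_small hP (ε := ENNReal.ofReal (η ^ 2))
    (by rw [ENNReal.ofReal_pos]; positivity)
  refine ⟨s / 2, by linarith, fun u v hu0 hus h1 h2 h3 => ?_⟩
  set x : ℝ := u.re with hx
  have hqx : 0 < q * x := by positivity
  have hdd : DifferentiableOn ℂ (deriv P) HP := hP.diff.deriv isOpen_HP
  have hseg : ∀ w ∈ segment ℝ v u, q * x ≤ w.re ∧ w.re ≤ x := by
    have hconv : Convex ℝ {w : ℂ | q * x ≤ w.re ∧ w.re ≤ x} :=
      (convex_halfSpace_re_ge (q * x)).inter (convex_halfSpace_re_le x)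
    have hv : v ∈ {w : ℂ | q * x ≤ w.re ∧ w.re ≤ x} := ⟨h1, h2⟩
    have hu : u ∈ {w : ℂ | q * x ≤ w.re ∧ w.re ≤ x} := ⟨by nlinarith, le_rfl⟩
    exact fun w hw => hconv.segment_subset hv hu hw
  have hder : ∀ w ∈ segment ℝ v u, ‖deriv P w‖ ≤ 2 * η / (q * x) := by
    intro w hw
    obtain ⟨hw1, hw2⟩ := hseg w hw
    have hball : ∀ z ∈ ball w (q * x / 2), 0 < z.re ∧ z.re < s ∧ |z.im - w.im| < 1 / 2 := by
      intro z hz
      rw [mem_ball, dist_eq_norm] at hz
      have h4 := (Complex.abs_re_le_norm (z - w)).trans_lt hz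
      have h5 := (Complex.abs_im_le_norm (z - w)).trans_lt hz
      rw [Complex.sub_re, abs_lt] at h4
      rw [Complex.sub_im] at h5
      refine ⟨by linarith, ?_, ?_⟩
      · nlinarith
      · refine h5.trans_le ?_
        nlinarith
    have hHP : ball w (q * x / 2) ⊆ HP := fun z hz => (hball z hz).1
    have hinj : InjOn P (ball w (q * x / 2)) := inj_of hP hHP fun a ha b hb => by
      have h4 := (abs_lt.1 (hball a ha).2.2).2
      have h5 := (abs_lt.1 (hball b hb).2.2).1
      linarith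
    have h6 := AreaAux.ball_ge' (h := deriv P) (c := w) (ρ := q * x / 2) (by linarith)
      (hdd.mono hHP)
    rw [AreaAux.area_eq isOpen_ball (hP.diff.mono hHP) hinj] at h6
    have h7 : volume (P '' ball w (q * x / 2)) ≤ ENNReal.ofReal (η ^ 2) := by
      refine le_trans (measure_mono (image_mono ?_)) hsm.le
      intro z hz
      exact ⟨(hball z hz).1, (hball z hz).2.1⟩
    have h8 := h6.trans h7
    rw [ENNReal.ofReal_le_ofReal_iff (by positivity)] at h8
    have hpi := Real.pi_gt_three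
    have h9 : (‖deriv P w‖ * (q * x)) ^ 2 ≤ (2 * η) ^ 2 := by
      have h10 : Real.pi * (q * x / 2) ^ 2 * ‖deriv P w‖ ^ 2 =
          Real.pi / 4 * (‖deriv P w‖ * (q * x)) ^ 2 := by ring
      rw [h10] at h8
      have h11 : 0 ≤ (‖deriv P w‖ * (q * x)) ^ 2 := by positivity
      nlinarith
    have h12 : ‖deriv P w‖ * (q * x) ≤ 2 * η :=
      le_of_pow_le_pow_left₀ two_ne_zero (by positivity) h9
    rw [le_div_iff₀ hqx]
    exact h12
  have h4 : ‖P u - P v‖ ≤ 2 * η / (q * x) * ‖u - v‖ :=
    (convex_segment v u).norm_image_sub_le_of_norm_deriv_le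
      (fun w hw => hP.diff.differentiableAt (isOpen_HP.mem_nhds
        (show 0 < w.re by linarith [(hseg w hw).1]))) hder
      (left_mem_segment ℝ v u) (right_mem_segment ℝ v u)
  have h5 : ‖u - v‖ ≤ 2 * x := by
    refine (Complex.norm_le_abs_re_add_abs_im (u - v)).trans ?_
    rw [Complex.sub_re, Complex.sub_im]
    have h6 : |u.re - v.re| ≤ x := by
      rw [abs_le]
      constructor <;> nlinarith
    linarith
  calc ‖P u - P v‖ ≤ 2 * η / (q * x) * ‖u - v‖ := h4
    _ ≤ 2 * η / (q * x) * (2 * x) := mul_le_mul_of_nonneg_left h5 (by positivity)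
    _ = κ := by
      rw [hη]
      field_simp
      norm_num

end Pool.Agent.Imp
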