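import Pool.Agent.Lib.MP_1c105c_an.Defs17
import Pool.Agent.Lib.MP_1c105c_an.Scp
import Pool.Agent.Lib.MP_1c105c_an.Com
import Pool.Agent.Lib.MP_1c105c_an.Orb

/-! MP_1c105c_an: the points of the Julia set in the closure of the critical orbit lie in
impressions that meet the cycle. -/

set_option autoImplicit false

open Filter Topology Set Polynomial

namespace Pool.Agent.Imp

/-- A point of `K` is joined in `K` to a nearest point of the boundary by a segment. -/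
theorem seg_near {K : Set ℂ} (hK : IsCompact K) {x y : ℂ} (hx : x ∈ K) (hy : y ∈ frontier K) :
    ∃ (ζ : ℂ) (S : Set ℂ), ζ ∈ frontier K ∧ ‖x - ζ‖ ≤ ‖x - y‖ ∧ IsClosed S ∧ IsPreconnected S ∧
      S ⊆ K ∧ x ∈ S ∧ ζ ∈ S ∧ ∀ z ∈ S, z ∈ frontier K → z = ζ := by
  have hJc : IsCompact (frontier K) := hK.of_isClosed_subset isClosed_frontier
    hK.isClosed.frontier_subset
  obtain ⟨ζ, hζ, hmin⟩ := hJc.exists_isMinOn ⟨y, hy⟩
    (f := fun z => ‖x - z‖) (by fun_prop)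
  have hmin' : ∀ z ∈ frontier K, ‖x - ζ‖ ≤ ‖x - z‖ := fun z hz => hmin hz
  let γ : ℝ → ℂ := fun τ => x + τ * (ζ - x)
  have hγ : Continuous γ := by fun_prop
  have hnorm : ∀ τ : ℝ, 0 ≤ τ → ‖x - γ τ‖ = τ * ‖x - ζ‖ := by
    intro τ hτ
    have e : x - γ τ = (τ : ℂ) * (x - ζ) := by
      show x - (x + τ * (ζ - x)) = _
      ring
    rw [e, norm_mul, Complex.norm_real, Real.norm_eq_abs, abs_of_nonneg hτ]
  have hγ0 : γ 0 = x := by
    show x + ((0 : ℝ) : ℂ) * (ζ - x) = x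
    push_cast
    ring
  have hγ1 : γ 1 = ζ := by
    show x + ((1 : ℝ) : ℂ) * (ζ - x) = ζ
    push_cast
    ring
  have hfr : ∀ τ ∈ Set.Icc (0 : ℝ) 1, γ τ ∈ frontier K → γ τ = ζ := by
    intro τ hτ h
    have h1 := hmin' _ h
    rw [hnorm τ hτ.1] at h1
    rcases eq_or_ne (‖x - ζ‖) 0 with h0 | h0
    · have h2 : x = ζ := by rwa [norm_eq_zero, sub_eq_zero] at h0
      show x + τ * (ζ - x) = ζ
      rw [h2]
      ring
    · have h2 : 0 < ‖x - ζ‖ := lt_of_le_of_ne (norm_nonneg _) (Ne.symm h0)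
      have h3 : 1 ≤ τ := by
        by_contra hlt
        push Not at hlt
        nlinarith
      have h4 : τ = 1 := le_antisymm hτ.2 h3
      rw [h4, hγ1]
  refine ⟨ζ, γ '' Set.Icc 0 1, hζ, hmin' y hy, (isCompact_Icc.image hγ).isClosed,
    isPreconnected_Icc.image _ hγ.continuousOn, ?_, ⟨0, ⟨le_rfl, zero_le_one⟩, hγ0⟩,
    ⟨1, ⟨zero_le_one, le_rfl⟩, hγ1⟩, ?_⟩
  · rintro _ ⟨τ, hτ, rfl⟩
    by_contra hn
    obtain ⟨_, ⟨σ, hσ, rfl⟩, hσ'⟩ := meets_frontier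
      (isPreconnected_Icc.image γ (s := Set.Icc 0 τ) hγ.continuousOn) hK.isClosed
      ⟨γ 0, ⟨0, ⟨le_rfl, hτ.1⟩, rfl⟩, by rw [hγ0]; exact hx⟩ ⟨γ τ, ⟨τ, ⟨hτ.1, le_rfl⟩, rfl⟩, hn⟩
    have h1 := hfr σ ⟨hσ.1, hσ.2.trans hτ.2⟩ hσ'
    have h2 := hnorm σ hσ.1
    rw [h1] at h2
    have h3 : γ τ = ζ := by
      rcases eq_or_ne (‖x - ζ‖) 0 with h0 | h0
      · have h4 : x = ζ := by rwa [norm_eq_zero, sub_eq_zero] at h0
        show x + τ * (ζ - x) = ζ
        rw [h4]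
        ring
      · have h4 : 0 < ‖x - ζ‖ := lt_of_le_of_ne (norm_nonneg _) (Ne.symm h0)
        have h5 : σ = 1 := by
          have : (1 - σ) * ‖x - ζ‖ = 0 := by linarith
          rcases mul_eq_zero.1 this with h6 | h6
          · linarith
          · exact absurd h6 h0
        have h6 : τ = 1 := le_antisymm hτ.2 (by linarith [hσ.2])
        rw [h6, hγ1]
    rw [h3] at hn
    exact hn (hK.isClosed.frontier_subset hζ)
  · rintro _ ⟨τ, hτ, rfl⟩ h
    exact hfr τ hτ h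

/-- The points of the cycle of `α` are in the Julia set. -/
theorem cyc_julia {f : ℂ[X]} {P : ℂ → ℂ} (hd : 2 ≤ f.natDegree) (hP : Half f P) {α : ℂ}
    (h : RayCyclesP f P α) (j : ℕ) : (fun w => f.eval w)^[j] α ∈ julia f := by
  have hcl : IsClosed (julia f) := isClosed_frontier
  rw [← hcl.closure_eq, Metric.mem_closure_iff]
  intro ε hε
  obtain ⟨z, t, n, m, hn, ht, hl, hzα, hk⟩ := h ε hε
  refine ⟨(fun w => f.eval w)^[j] z, Thr58.land_julia hd hP (land_iter hd hP hl j), ?_⟩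
  rw [dist_comm, dist_eq_norm]
  exact hk j

/-- Points of the Julia set in the closure of the critical orbit. -/
theorem post_imp (imc : ImcStatement) (imj : ImjStatement) (ims : ImsStatement)
    (acn : AcnStatement) {f : ℂ[X]} {ψ : ℂ → ℂ} (hd : 2 ≤ f.natDegree)
    (hψ : IsInverseBoettcher f ψ) {α c : ℂ} {p : ℕ} (hp : 1 ≤ p)
    (hα : (fun w => f.eval w)^[p] α = α)
    (hαJ : ∀ j : ℕ, (fun w => f.eval w)^[j] α ∈ julia f)
    (hc : ∀ z, f.derivative.eval z = 0 → z = c)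
    (hsep : ∀ (E : Set ℂ) (n : ℕ) (θ : ℝ), IsClosed E → IsPreconnected E → E ⊆ filledJulia f →
      (fun w => f.eval w)^[n + 1] c ∈ E → accumulation ψ θ ⊆ E →
      ∃ j : ℕ, (fun w => f.eval w)^[j] α ∈ E) {y : ℂ} (hy : y ∈ closure (postcritical f))
    (hyJ : y ∈ julia f) :
    ∃ θ : ℝ, y ∈ impression ψ θ ∧ ∃ j : ℕ, (fun w => f.eval w)^[j] α ∈ impression ψ θ := by
  obtain ⟨hP, -, -⟩ := half f ψ hd hψ
  obtain ⟨hKc, hKb, -⟩ := jul f _ hd hP
  have hKcomp : IsCompact (filledJulia f) := Metric.isCompact_of_isClosed_isBounded hKc hKb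
  have hmem : y ∈ closure (⋃ j ∈ Finset.range p, {z | ∃ θ : ℝ, z ∈ impression ψ θ ∧
      (fun w => f.eval w)^[j] α ∈ impression ψ θ}) := by
    rw [Metric.mem_closure_iff]
    intro δ hδ
    obtain ⟨x, ⟨c', n, hc', rfl⟩, hxy⟩ := Metric.mem_closure_iff.1 hy (δ / 2) (by positivity)
    have hcc : c' = c := hc c' hc'
    subst hcc
    have hxK : (fun w => f.eval w)^[n + 1] c' ∈ filledJulia f := by
      rw [Uco.iter_filled]
      exact Cv8.crit_mem hP (by omega : 1 ≤ f.natDegree) hP.semi hc'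
    obtain ⟨ζ, S, hζ, hζy, hSc, hSp, hSK, hxS, hζS, hSζ⟩ := seg_near hKcomp hxK hyJ
    obtain ⟨t, ht⟩ := imj f ψ hd hψ ζ hζ
    obtain ⟨j, hj⟩ := hsep (S ∪ impression ψ t) n t (hSc.union (Orb94.impression_closed ψ t))
      (IsPreconnected.union ζ hζS ht hSp (imc f ψ hd hψ t))
      (Set.union_subset hSK fun z hz => hKc.frontier_subset (impression_julia hψ t hz))
      (Or.inl hxS) ((acn f ψ hd hψ t).2.trans Set.subset_union_right)
    refine ⟨ζ, ?_, ?_⟩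
    · simp only [Set.mem_iUnion, Finset.mem_range]
      refine ⟨j % p, Nat.mod_lt _ hp, t, ht, ?_⟩
      rw [← per_mod hα]
      rcases hj with hj | hj
      · rw [hSζ _ hj (hαJ j)]
        exact ht
      · exact hj
    · rw [dist_eq_norm]
      rw [dist_eq_norm] at hxy
      have h1 : ‖y - ζ‖ ≤ ‖y - (fun w => f.eval w)^[n + 1] c'‖ +
          ‖(fun w => f.eval w)^[n + 1] c' - ζ‖ :=
        norm_sub_le_norm_sub_add_norm_sub _ _ _
      rw [norm_sub_rev ((fun w => f.eval w)^[n + 1] c') y] at hζy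
      linarith
  rw [Finset.closure_biUnion] at hmem
  simp only [Set.mem_iUnion, Finset.mem_range] at hmem
  obtain ⟨j, -, hj⟩ := hmem
  obtain ⟨θ, h1, h2⟩ := ims ψ _ y hj
  exact ⟨θ, h1, j, h2⟩

end Pool.Agent.Imp
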