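import Pool.Agent.Lib.MP_1c105c_an.Defs17
import Pool.Agent.Lib.MP_1c105c_an.Half
import Pool.Agent.Lib.MP_1c105c_an.Jul
import Pool.Agent.Lib.MP_1c105c_an.Thr

/-! MP_1c105c_an: impressions are upper semicontinuous, every point of the Julia set is in an
impression (IMS, IMJ, ACN). -/

set_option autoImplicit false

open Filter Topology Set Polynomial

namespace Pool.Agent.Imp.I64

/-- The graph of `ψ` on the exterior of the disc. -/
def Gr (ψ : ℂ → ℂ) : Set (ℂ × ℂ) := {x | 1 < ‖x.1‖ ∧ x.2 = ψ x.1}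

theorem cl_iff (ψ : ℂ → ℂ) (ζ z : ℂ) :
    MapClusterPt z (𝓝[{w : ℂ | 1 < ‖w‖}] ζ) ψ ↔ (ζ, z) ∈ closure (Gr ψ) := by
  rw [mapClusterPt_iff_frequently, mem_closure_iff_nhds]
  constructor
  · intro h t ht
    rw [nhds_prod_eq, mem_prod_iff] at ht
    obtain ⟨U, hU, V, hV, hUV⟩ := ht
    have h1 := h V hV
    rw [frequently_nhdsWithin_iff] at h1
    obtain ⟨w, hw, hwU⟩ := (h1.and_eventually hU).exists
    exact ⟨(w, ψ w), hUV ⟨hwU, hw.1⟩, hw.2, rfl⟩
  · intro h V hV
    rw [frequently_nhdsWithin_iff, frequently_iff]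
    intro U hU
    obtain ⟨x, hx, hx1, hx2⟩ := h (U ×ˢ V) (prod_mem_nhds hU hV)
    exact ⟨x.1, hx.1, hx2 ▸ hx.2, hx1⟩

theorem exp_surj {ζ : ℂ} (hζ : ‖ζ‖ = 1) : ∃ θ : ℝ, Complex.exp (2 * Real.pi * θ * Complex.I) = ζ := by
  refine ⟨ζ.arg / (2 * Real.pi), ?_⟩
  have h := Complex.norm_mul_exp_arg_mul_I ζ
  rw [hζ] at h
  have hpi : (Real.pi : ℂ) ≠ 0 := by exact_mod_cast Real.pi_ne_zero
  have h2 : (2 * Real.pi * ((ζ.arg / (2 * Real.pi) : ℝ) : ℂ) * Complex.I) = ζ.arg * Complex.I := by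
    push_cast
    field_simp
  rw [h2]
  simpa using h

theorem exp_norm (θ : ℝ) : ‖Complex.exp (2 * Real.pi * θ * Complex.I)‖ = 1 := by
  rw [Complex.norm_exp]
  simp

/-- IMS. -/
theorem ims : ImsStatement := by
  intro ψ a y hy
  have hset : {z | ∃ θ : ℝ, z ∈ impression ψ θ ∧ a ∈ impression ψ θ} =
      Prod.snd '' {x : Metric.sphere (0 : ℂ) 1 × ℂ |
        ((x.1 : ℂ), x.2) ∈ closure (Gr ψ) ∧ ((x.1 : ℂ), a) ∈ closure (Gr ψ)} := by
    ext z
    constructor
    · rintro ⟨θ, h1, h2⟩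
      refine ⟨(⟨Complex.exp (2 * Real.pi * θ * Complex.I), by simp [exp_norm]⟩, z), ⟨?_, ?_⟩, rfl⟩
      · exact (cl_iff ψ _ z).1 h1
      · exact (cl_iff ψ _ a).1 h2
    · rintro ⟨⟨ζ, z'⟩, ⟨h1, h2⟩, rfl⟩
      have hζ : ‖(ζ : ℂ)‖ = 1 := by simp
      obtain ⟨θ, hθ⟩ := exp_surj hζ
      refine ⟨θ, ?_, ?_⟩
      · show MapClusterPt _ _ _
        rw [cl_iff, hθ]
        exact h1
      · show MapClusterPt _ _ _
        rw [cl_iff, hθ]
        exact h2
  have hcl : IsClosed {z | ∃ θ : ℝ, z ∈ impression ψ θ ∧ a ∈ impression ψ θ} := by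
    rw [hset]
    refine isClosedMap_snd_of_compactSpace _ ?_
    refine IsClosed.inter ?_ ?_
    · exact isClosed_closure.preimage
        ((continuous_subtype_val.comp continuous_fst).prodMk continuous_snd)
    · exact isClosed_closure.preimage
        ((continuous_subtype_val.comp continuous_fst).prodMk continuous_const)
  rw [hcl.closure_eq] at hy
  exact hy

/-- IMJ. -/
theorem imj : ImjStatement := by
  intro f ψ hd hψ z hz
  have hz1 : z ∈ closure (filledJulia f)ᶜ := by
    have h1 : z ∈ frontier (filledJulia f) := hz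
    rw [frontier_eq_closure_inter_closure] at h1
    exact h1.2
  obtain ⟨u, hu, hlim⟩ := mem_closure_iff_seq_limit.1 hz1
  have hw : ∀ n, ∃ w : ℂ, 1 < ‖w‖ ∧ ψ w = u n := by
    intro n
    have h1 := hu n
    rw [← hψ.image_eq] at h1
    obtain ⟨w, hw, hw2⟩ := h1
    exact ⟨w, hw, hw2⟩
  choose w hw1 hw2 using hw
  -- `w` is bounded
  obtain ⟨R, hR⟩ : ∃ R : ℝ, ∀ n, ‖w n‖ ≤ R := by
    obtain ⟨M, hM⟩ := (Metric.isBounded_range_of_tendsto u hlim).exists_norm_le
    have h1 := hψ.tendsto.eventually (Metric.hasBasis_cobounded_compl_closedBall (0 : ℂ)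
      |>.mem_of_mem (i := M) trivial)
    obtain ⟨R, -, hR⟩ := (Metric.hasBasis_cobounded_compl_closedBall (0 : ℂ)).mem_iff.1 h1
    refine ⟨R, fun n => ?_⟩
    by_contra hlt
    push Not at hlt
    have h2 : ψ (w n) ∈ (Metric.closedBall (0 : ℂ) M)ᶜ := hR (by
      simpa using hlt)
    rw [hw2] at h2
    exact h2 (by simpa using hM (u n) ⟨n, rfl⟩)
  obtain ⟨ζ, -, φ, hφ, hζ⟩ := tendsto_subseq_of_bounded (s := Metric.closedBall (0 : ℂ) R)
    Metric.isBounded_closedBall (x := w) (fun n => by simpa using hR n)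
  have hζ1 : 1 ≤ ‖ζ‖ := ge_of_tendsto' hζ.norm (fun n => (hw1 (φ n)).le)
  have hψlim : Tendsto (fun n => ψ (w (φ n))) atTop (𝓝 z) := by
    have h1 : (fun n => ψ (w (φ n))) = fun n => u (φ n) := by
      funext n
      exact hw2 (φ n)
    rw [h1]
    exact hlim.comp hφ.tendsto_atTop
  have hζ2 : ‖ζ‖ = 1 := by
    refine le_antisymm (not_lt.1 fun hlt => ?_) hζ1
    have hop : IsOpen {w : ℂ | 1 < ‖w‖} := isOpen_lt continuous_const continuous_norm
    have hc : ContinuousAt ψ ζ := (hψ.differentiableOn.differentiableAt (hop.mem_nhds hlt)).continuousAt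
    have h1 : z = ψ ζ := tendsto_nhds_unique hψlim (hc.tendsto.comp hζ)
    have h2 : z ∈ (filledJulia f)ᶜ := by
      rw [← hψ.image_eq, h1]
      exact ⟨ζ, hlt, rfl⟩
    -- the complement is open, so `z` is not in its frontier
    have hO : IsOpen (filledJulia f)ᶜ := (Jul.closed f hd).isOpen_compl
    have h3 : z ∈ frontier (filledJulia f) := hz
    rw [← frontier_compl, hO.frontier_eq] at h3
    exact h3.2 h2
  obtain ⟨θ, hθ⟩ := exp_surj hζ2
  refine ⟨θ, ?_⟩
  show MapClusterPt _ _ _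
  rw [cl_iff, hθ, mem_closure_iff_seq_limit]
  exact ⟨fun n => (w (φ n), ψ (w (φ n))), fun n => ⟨hw1 _, rfl⟩, hζ.prodMk_nhds hψlim⟩

/-- ACN. -/
theorem acn : AcnStatement := by
  intro f ψ hd hψ θ
  have hle : Tendsto (fun r : ℝ => (r : ℂ) * Complex.exp (2 * Real.pi * θ * Complex.I)) (𝓝[>] 1)
      (𝓝[{w : ℂ | 1 < ‖w‖}] Complex.exp (2 * Real.pi * θ * Complex.I)) := by
    refine tendsto_nhdsWithin_iff.2 ⟨?_, ?_⟩
    · have h1 : Continuous fun r : ℝ => (r : ℂ) * Complex.exp (2 * Real.pi * θ * Complex.I) := by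
        fun_prop
      have h2 := h1.tendsto 1
      simp only [Complex.ofReal_one, one_mul] at h2
      exact h2.mono_left nhdsWithin_le_nhds
    · filter_upwards [self_mem_nhdsWithin] with r hr
      show 1 < ‖(r : ℂ) * Complex.exp (2 * Real.pi * θ * Complex.I)‖
      rw [norm_mul, exp_norm, mul_one, Complex.norm_real, Real.norm_eq_abs]
      exact lt_of_lt_of_le hr (le_abs_self _)
  refine ⟨?_, ?_⟩
  · obtain ⟨R, hR⟩ := (half f ψ hd hψ).1.bdd
    have hT : Tendsto (fun r : ℝ => Real.log r / (2 * Real.pi)) (𝓝[>] 1) (𝓝 0) := by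
      have h1 : ContinuousAt (fun r : ℝ => Real.log r / (2 * Real.pi)) 1 :=
        (Real.continuousAt_log one_ne_zero).div_const _
      have h2 := h1.tendsto
      simp only [Real.log_one, zero_div] at h2
      exact h2.mono_left nhdsWithin_le_nhds
    have hev : ∀ᶠ r : ℝ in 𝓝[>] (1 : ℝ),
        ψ (r * Complex.exp (2 * Real.pi * θ * Complex.I)) ∈ Metric.closedBall (0 : ℂ) R := by
      filter_upwards [self_mem_nhdsWithin, hT.eventually (gt_mem_nhds one_pos)] with r hr hr1
      have hr' : (1 : ℝ) < r := hr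
      have hpi : 0 < Real.pi := Real.pi_pos
      have h1 := Mea.eq_ray ψ θ (Real.log r / (2 * Real.pi))
      have h2 : 2 * Real.pi * (Real.log r / (2 * Real.pi)) = Real.log r := by
        field_simp
      rw [h2, Real.exp_log (by linarith)] at h1
      rw [h1]
      have h3 : ((Real.log r / (2 * Real.pi) : ℝ) + θ * Complex.I : ℂ).re =
          Real.log r / (2 * Real.pi) := by
        rw [Complex.add_re, Complex.ofReal_re]
        simp
      have h4 := hR (((Real.log r / (2 * Real.pi) : ℝ) : ℂ) + θ * Complex.I)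
        (by rw [h3]; exact div_pos (Real.log_pos hr') (by positivity))
        (by rw [h3]; exact hr1.le)
      simpa using h4
    obtain ⟨z, -, hz⟩ := (isCompact_closedBall (0 : ℂ) R).exists_mapClusterPt_of_frequently
      hev.frequently
    exact ⟨z, hz⟩
  · intro z hz
    have h1 : MapClusterPt z (𝓝[>] (1 : ℝ))
      (fun r : ℝ => ψ (r * Complex.exp (2 * Real.pi * θ * Complex.I))) := hz
    exact MapClusterPt.of_comp hle h1

/-- ACL. -/
theorem acl : AclStatement := by
  intro ψ θ z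
  have hpi : 0 < Real.pi := Real.pi_pos
  constructor
  · intro h
    have hT : Tendsto (fun r : ℝ => Real.log r / (2 * Real.pi)) (𝓝[>] 1) (𝓝[>] 0) := by
      refine tendsto_nhdsWithin_iff.2 ⟨?_, ?_⟩
      · have h1 : ContinuousAt (fun r : ℝ => Real.log r / (2 * Real.pi)) 1 :=
          (Real.continuousAt_log one_ne_zero).div_const _
        have h2 := h1.tendsto
        simp only [Real.log_one, zero_div] at h2
        exact h2.mono_left nhdsWithin_le_nhds
      · filter_upwards [self_mem_nhdsWithin] with r hr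
        exact div_pos (Real.log_pos hr) (by positivity)
    refine MapClusterPt.of_comp hT ?_
    have h1 : MapClusterPt z (𝓝[>] (1 : ℝ))
      (fun r : ℝ => ψ (r * Complex.exp (2 * Real.pi * θ * Complex.I))) := h
    rw [mapClusterPt_iff_frequently] at h1 ⊢
    intro s hs
    refine (h1 s hs).mp ?_
    filter_upwards [self_mem_nhdsWithin] with r hr h2
    have hr' : (1 : ℝ) < r := hr
    have h3 := Mea.eq_ray ψ θ (Real.log r / (2 * Real.pi))
    have h4 : 2 * Real.pi * (Real.log r / (2 * Real.pi)) = Real.log r := by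
      field_simp
    rw [h4, Real.exp_log (by linarith)] at h3
    rw [h3] at h2
    exact h2
  · intro h
    have h1 : MapClusterPt z (𝓝[>] (0 : ℝ)) fun x : ℝ =>
      (fun u => ψ (Complex.exp (2 * Real.pi * u))) (x + θ * Complex.I) := h
    refine MapClusterPt.of_comp Mea.tendsto_exp ?_
    rw [mapClusterPt_iff_frequently] at h1 ⊢
    intro s hs
    refine (h1 s hs).mono ?_
    intro x hx
    have h2 := Mea.eq_ray ψ θ x
    show ψ ((Real.exp (2 * Real.pi * x) : ℝ) * Complex.exp (2 * Real.pi * θ * Complex.I)) ∈ s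
    rw [h2]
    exact hx

/-- IMC. -/
theorem imc : ImcStatement := by
  intro f ψ hd hψ θ
  have hhalf := (half f ψ hd hψ).1
  obtain ⟨R, hR⟩ := hhalf.bdd
  have hPd : DifferentiableOn ℂ (fun u => ψ (Complex.exp (2 * Real.pi * u))) HP := hhalf.diff
  set P : ℂ → ℂ := fun u => ψ (Complex.exp (2 * Real.pi * u)) with hP
  have hv0 : ∀ n : ℕ, (0 : ℝ) < 1 / ((n : ℝ) + 1) := fun n => by positivity
  have hv1 : ∀ n : ℕ, 1 / ((n : ℝ) + 1) ≤ 1 := fun n => by
    rw [div_le_one (by positivity)]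
    have : (0 : ℝ) ≤ n := n.cast_nonneg
    linarith
  set B : ℕ → Set ℂ := fun n => Metric.ball ((θ : ℂ) * Complex.I) (1 / ((n : ℝ) + 1)) ∩ HP with hB
  have hBconv : ∀ n, Convex ℝ (B n) := fun n =>
    (convex_ball _ _).inter (convex_halfSpace_re_gt 0)
  have hPB : ∀ n, IsPreconnected (P '' B n) := fun n =>
    (hBconv n).isPreconnected.image P (hPd.continuousOn.mono inter_subset_right)
  rw [isPreconnected_closed_iff]
  intro A A' hA hA' hsub hIA hIA'
  by_contra hne
  rw [Set.not_nonempty_iff_eq_empty] at hne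
  have hIcl : IsClosed (impression ψ θ) := by
    have h1 : impression ψ θ = (fun z => (Complex.exp (2 * Real.pi * θ * Complex.I), z)) ⁻¹'
        closure (Gr ψ) := by
      ext z
      exact cl_iff ψ _ z
    rw [h1]
    exact isClosed_closure.preimage (by fun_prop)
  have hdisj : Disjoint (impression ψ θ ∩ A) (impression ψ θ ∩ A') := by
    rw [Set.disjoint_iff_inter_eq_empty]
    rw [← hne]
    ext z
    simp only [mem_inter_iff]
    tauto
  obtain ⟨U, V, hU, hV, hAU, hAV, hUV⟩ := normal_separation (hIcl.inter hA) (hIcl.inter hA') hdisj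
  -- a point of `B n` whose image is outside `U ∪ V`
  have key : ∀ n, ∃ u ∈ B n, P u ∉ U ∪ V := by
    intro n
    by_contra hcon
    push Not at hcon
    have hsub2 : P '' B n ⊆ U ∪ V := by
      rintro _ ⟨u, hu, rfl⟩
      exact hcon u hu
    have hN : Metric.ball ((θ : ℂ) * Complex.I) (1 / ((n : ℝ) + 1)) ∈ 𝓝 ((θ : ℂ) * Complex.I) :=
      Metric.ball_mem_nhds _ (hv0 n)
    have hmeet : ∀ z ∈ impression ψ θ, ∀ W : Set ℂ, IsOpen W → z ∈ W → (P '' B n ∩ W).Nonempty := by
      intro z hz W hW hzW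
      have h1 := Thr58.imp_closure hz hN
      rw [mem_closure_iff] at h1
      obtain ⟨y, hy1, hy2⟩ := h1 W hW hzW
      exact ⟨y, hy2, hy1⟩
    obtain ⟨z, hz1, hz2⟩ := hIA
    obtain ⟨z', hz1', hz2'⟩ := hIA'
    obtain ⟨y, -, hy1, hy2⟩ := hPB n U V hU hV hsub2 (hmeet z hz1 U hU (hAU ⟨hz1, hz2⟩))
      (hmeet z' hz1' V hV (hAV ⟨hz1', hz2'⟩))
    exact (Set.disjoint_left.1 hUV) hy1 hy2
  choose u hu hnu using key
  have hulim : Tendsto u atTop (𝓝 ((θ : ℂ) * Complex.I)) := by
    rw [tendsto_iff_dist_tendsto_zero]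
    exact squeeze_zero (fun n => dist_nonneg) (fun n => (Metric.mem_ball.1 (hu n).1).le)
      tendsto_one_div_add_atTop_nhds_zero_nat
  have hure : ∀ n, 0 < (u n).re := fun n => (hu n).2
  have hule : ∀ n, (u n).re ≤ 1 := by
    intro n
    have h1 := Metric.mem_ball.1 (hu n).1
    rw [dist_eq_norm] at h1
    have h2 := Complex.re_le_norm (u n - (θ : ℂ) * Complex.I)
    have h3 : (u n - (θ : ℂ) * Complex.I).re = (u n).re := by simp
    rw [h3] at h2
    linarith [hv1 n]
  obtain ⟨y, -, φ, hφ, hy⟩ := tendsto_subseq_of_bounded (s := Metric.closedBall (0 : ℂ) R)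
    Metric.isBounded_closedBall (x := fun n => P (u n))
    (fun n => by simpa using hR (u n) (hure n) (hule n))
  have hyI : y ∈ impression ψ θ := by
    show MapClusterPt _ _ _
    rw [cl_iff, mem_closure_iff_seq_limit]
    refine ⟨fun n => (Complex.exp (2 * Real.pi * u (φ n)), P (u (φ n))), fun n => ⟨?_, rfl⟩,
      Tendsto.prodMk_nhds ?_ hy⟩
    · show 1 < ‖Complex.exp (2 * Real.pi * u (φ n))‖
      rw [Complex.norm_exp]
      have h1 : (2 * Real.pi * u (φ n) : ℂ).re = 2 * Real.pi * (u (φ n)).re := by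
        simp
      rw [h1]
      have := hure (φ n)
      exact Real.one_lt_exp_iff.2 (by positivity)
    · have h1 : Continuous fun w : ℂ => Complex.exp (2 * Real.pi * w) := by fun_prop
      have h2 := (h1.tendsto ((θ : ℂ) * Complex.I)).comp (hulim.comp hφ.tendsto_atTop)
      have h3 : Complex.exp (2 * Real.pi * ((θ : ℂ) * Complex.I)) =
          Complex.exp (2 * Real.pi * θ * Complex.I) := by
        congr 1
        ring
      rw [h3] at h2
      exact h2
  have hyUV : y ∉ U ∪ V := by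
    have h1 : IsClosed (U ∪ V)ᶜ := (hU.union hV).isClosed_compl
    exact h1.mem_of_tendsto hy (Eventually.of_forall fun n => hnu (φ n))
  rcases hsub hyI with h | h
  · exact hyUV (Or.inl (hAU ⟨hyI, h⟩))
  · exact hyUV (Or.inr (hAV ⟨hyI, h⟩))

end Pool.Agent.Imp.I64
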