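import Pool.Agent.Lib.MP_1c105c_an.Defs13

/-! MP_1c105c_an: a fixed point with small cycles is indifferent (row IND). -/

set_option autoImplicit false

open Filter Topology Set Polynomial

namespace Pool.Agent.Imp

/-- IND. -/
theorem ind : IndStatement := by
  intro f α hα h
  have hd : HasDerivAt (fun w => f.eval w) (f.derivative.eval α) α := f.hasDerivAt α
  have ho := hasDerivAt_iff_isLittleO.1 hd
  -- local estimates
  have hloc : ∀ δ : ℝ, 0 < δ → ∃ ε : ℝ, 0 < ε ∧ ∀ w : ℂ, ‖w - α‖ < ε →
      ‖f.eval w - α - (w - α) * f.derivative.eval α‖ ≤ δ * ‖w - α‖ := by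
    intro δ hδ
    have h1 := (Asymptotics.isLittleO_iff.1 ho) hδ
    obtain ⟨ε, hε, h2⟩ := Metric.eventually_nhds_iff.1 h1
    refine ⟨ε, hε, fun w hw => ?_⟩
    have h3 := h2 (show dist w α < ε by rw [dist_eq_norm]; exact hw)
    simp only [hα, smul_eq_mul] at h3
    exact h3
  by_contra hne
  rcases lt_or_gt_of_ne hne with hlt | hgt
  · obtain ⟨ε, hε, h1⟩ := hloc ((1 - ‖f.derivative.eval α‖) / 2) (by linarith)
    obtain ⟨z, n, hn, hz, hza, hk⟩ := h ε hε
    have hz0 : 0 < ‖z - α‖ := norm_pos_iff.2 (sub_ne_zero.2 hza)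
    set r : ℝ := (1 + ‖f.derivative.eval α‖) / 2 with hr
    have hr0 : 0 ≤ r := by have := norm_nonneg (f.derivative.eval α); linarith
    have hr1 : r < 1 := by linarith
    have key : ∀ w : ℂ, ‖w - α‖ < ε → ‖f.eval w - α‖ ≤ r * ‖w - α‖ := fun w hw => by
      have h2 := h1 w hw
      have h3 : f.eval w - α = (f.eval w - α - (w - α) * f.derivative.eval α) +
        (w - α) * f.derivative.eval α := by ring
      have h4 : ‖f.eval w - α‖ ≤ ‖f.eval w - α - (w - α) * f.derivative.eval α‖ +
          ‖(w - α) * f.derivative.eval α‖ := by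
        calc ‖f.eval w - α‖ = _ := congrArg norm h3
          _ ≤ _ := norm_add_le _ _
      rw [norm_mul] at h4
      rw [hr]
      nlinarith
    have hit : ∀ k : ℕ, ‖(fun w => f.eval w)^[k] z - α‖ ≤ r ^ k * ‖z - α‖ := by
      intro k
      induction k with
      | zero => simp
      | succ k ih =>
        rw [Function.iterate_succ_apply']
        refine (key _ (hk k)).trans ?_
        rw [pow_succ, mul_comm (r ^ k) r, mul_assoc]
        exact mul_le_mul_of_nonneg_left ih hr0
    have h5 := hit n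
    rw [hz] at h5
    have h6 : r ^ n < 1 := pow_lt_one₀ hr0 hr1 (by omega)
    nlinarith
  · obtain ⟨ε, hε, h1⟩ := hloc ((‖f.derivative.eval α‖ - 1) / 2) (by linarith)
    obtain ⟨z, n, hn, hz, hza, hk⟩ := h ε hε
    have hz0 : 0 < ‖z - α‖ := norm_pos_iff.2 (sub_ne_zero.2 hza)
    set r : ℝ := (1 + ‖f.derivative.eval α‖) / 2 with hr
    have hr1 : 1 < r := by linarith
    have hr0 : 0 ≤ r := by linarith
    have key : ∀ w : ℂ, ‖w - α‖ < ε → r * ‖w - α‖ ≤ ‖f.eval w - α‖ := fun w hw => by
      have h2 := h1 w hw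
      have h3 : (w - α) * f.derivative.eval α = (f.eval w - α) -
        (f.eval w - α - (w - α) * f.derivative.eval α) := by ring
      have h4 : ‖(w - α) * f.derivative.eval α‖ ≤ ‖f.eval w - α‖ +
          ‖f.eval w - α - (w - α) * f.derivative.eval α‖ := by
        calc ‖(w - α) * f.derivative.eval α‖ = _ := congrArg norm h3
          _ ≤ _ := norm_sub_le _ _
      rw [norm_mul] at h4
      rw [hr]
      nlinarith
    have hit : ∀ k : ℕ, r ^ k * ‖z - α‖ ≤ ‖(fun w => f.eval w)^[k] z - α‖ := by
      intro k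
      induction k with
      | zero => simp
      | succ k ih =>
        rw [Function.iterate_succ_apply']
        refine le_trans ?_ (key _ (hk k))
        rw [pow_succ, mul_comm (r ^ k) r, mul_assoc]
        exact mul_le_mul_of_nonneg_left ih hr0
    have h5 := hit n
    rw [hz] at h5
    have h6 : 1 < r ^ n := one_lt_pow₀ hr1 (by omega)
    nlinarith

end Pool.Agent.Imp
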