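import Pool.Agent.Lib.MP_1c105c_an.Defs2

/-! MP_1c105c_an: a closed set whose image is everything has relative interior (row INT). -/

set_option autoImplicit false

open Filter Topology Set Polynomial

namespace Pool.Agent.Imp

/-- The induction over the inverse branches. -/
theorem int_step (F : ℂ[X]) (J E O₀ : Set ℂ) (V : ℂ → Set ℂ) (hop : IsOpenMap F.eval)
    (hJ : ∀ w, F.eval w ∈ J ↔ w ∈ J) (hE : IsClosed E) (hO : IsOpen O₀)
    (hne : (O₀ ∩ J).Nonempty) (t : Finset ℂ)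
    (hV : ∀ x ∈ t, IsOpen (V x) ∧ Set.InjOn F.eval (V x)) :
    (∃ O : Set ℂ, IsOpen O ∧ (O ∩ J).Nonempty ∧ O ⊆ O₀ ∧
      ∃ x ∈ t, ∀ w ∈ V x, F.eval w ∈ O → w ∈ J → w ∈ E) ∨
    (∃ O : Set ℂ, IsOpen O ∧ (O ∩ J).Nonempty ∧ O ⊆ O₀ ∧
      ∀ x ∈ t, ∀ w ∈ V x, F.eval w ∈ O → w ∉ E) := by
  classical
  induction t using Finset.induction_on with
  | empty => exact Or.inr ⟨O₀, hO, hne, subset_rfl, fun x hx => absurd hx (Finset.notMem_empty x)⟩
  | insert a t _ ih =>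
    rcases ih fun x hx => hV x (Finset.mem_insert_of_mem hx) with h | h
    · obtain ⟨O, h1, h2, h3, x, hx, h4⟩ := h
      exact Or.inl ⟨O, h1, h2, h3, x, Finset.mem_insert_of_mem hx, h4⟩
    · obtain ⟨O, h1, h2, h3, h4⟩ := h
      by_cases h5 : ∀ w ∈ V a, F.eval w ∈ O → w ∈ J → w ∈ E
      · exact Or.inl ⟨O, h1, h2, h3, a, Finset.mem_insert_self a t, h5⟩
      · push Not at h5
        obtain ⟨w, hw, hwO, hwJ, hwE⟩ := h5
        obtain ⟨hVo, hVi⟩ := hV a (Finset.mem_insert_self a t)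
        refine Or.inr ⟨O ∩ F.eval '' (V a ∩ Eᶜ), h1.inter (hop _ (hVo.inter hE.isOpen_compl)),
          ⟨F.eval w, ⟨hwO, w, ⟨hw, hwE⟩, rfl⟩, (hJ w).2 hwJ⟩, fun y hy => h3 hy.1, ?_⟩
        intro x hx w' hw' hwO'
        rcases Finset.mem_insert.1 hx with rfl | hx
        · obtain ⟨v, ⟨hv, hvE⟩, hvw⟩ := hwO'.2
          have h6 : v = w' := hVi hv hw' hvw
          rw [← h6]
          exact hvE
        · exact h4 x hx w' hw' hwO'.1

theorem int : IntStatement := by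
  classical
  intro F J E hF hJ hE hEJ hy
  obtain ⟨y₀, hy₀, hcrit⟩ := hy
  have hop : IsOpenMap F.eval := (F.isOpenQuotientMap_eval (by omega)).isOpenMap
  have hcl : IsClosedMap F.eval := F.isClosedMap_eval
  have hne : F - C y₀ ≠ 0 := by
    intro h
    have h1 : F = C y₀ := sub_eq_zero.1 h
    rw [h1, natDegree_C] at hF
    omega
  have hroot : ∀ x, x ∈ (F - C y₀).roots.toFinset ↔ F.eval x = y₀ := by
    intro x
    rw [Multiset.mem_toFinset, mem_roots hne, IsRoot, eval_sub, eval_C, sub_eq_zero]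
  have hloc : ∀ x, ∃ V : Set ℂ, x ∈ (F - C y₀).roots.toFinset →
      IsOpen V ∧ x ∈ V ∧ Set.InjOn F.eval V := by
    intro x
    by_cases hx : x ∈ (F - C y₀).roots.toFinset
    · have hd : F.derivative.eval x ≠ 0 := fun h => hcrit x h ((hroot x).1 hx)
      have hs := (F.hasStrictDerivAt x).hasStrictFDerivAt_equiv hd
      refine ⟨(hs.toOpenPartialHomeomorph F.eval).source, fun _ =>
        ⟨(hs.toOpenPartialHomeomorph F.eval).open_source,
          hs.mem_toOpenPartialHomeomorph_source, ?_⟩⟩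
      exact (hs.toOpenPartialHomeomorph F.eval).injOn
    · exact ⟨∅, fun h => absurd h hx⟩
  choose V hV using hloc
  have hO₀ : IsOpen ((F.eval '' (⋃ x ∈ (F - C y₀).roots.toFinset, V x)ᶜ)ᶜ ∩
      ⋂ x ∈ (F - C y₀).roots.toFinset, F.eval '' V x) := by
    refine IsOpen.inter ?_ ?_
    · refine (hcl _ ?_).isOpen_compl
      exact (isOpen_biUnion fun x hx => (hV x hx).1).isClosed_compl
    · exact isOpen_biInter_finset fun x hx => hop _ (hV x hx).1
  have hy₀O : y₀ ∈ ((F.eval '' (⋃ x ∈ (F - C y₀).roots.toFinset, V x)ᶜ)ᶜ ∩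
      ⋂ x ∈ (F - C y₀).roots.toFinset, F.eval '' V x) := by
    refine ⟨?_, ?_⟩
    · rintro ⟨x, hx, hxy⟩
      refine hx ?_
      have h1 := (hroot x).2 hxy
      exact mem_iUnion₂.2 ⟨x, h1, (hV x h1).2.1⟩
    · refine mem_iInter₂.2 fun x hx => ⟨x, (hV x hx).2.1, (hroot x).1 hx⟩
  rcases int_step F J E _ V hop hJ hE hO₀ ⟨y₀, hy₀O, hy₀⟩ (F - C y₀).roots.toFinset
    (fun x hx => ⟨(hV x hx).1, (hV x hx).2.2⟩) with h | h
  · obtain ⟨O, h1, ⟨y, hyO, hyJ⟩, h3, a, ha, h4⟩ := h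
    refine ⟨V a ∩ F.eval ⁻¹' O, (hV a ha).1.inter (h1.preimage F.continuous), ?_, ?_⟩
    · obtain ⟨w, hw, hwy⟩ := mem_iInter₂.1 (h3 hyO).2 a ha
      have hwy' : F.eval w = y := hwy
      refine ⟨w, ⟨hw, ?_⟩, ?_⟩
      · show F.eval w ∈ O
        rw [hwy']
        exact hyO
      · rw [← hJ, hwy']
        exact hyJ
    · rintro w ⟨⟨hw, hwO⟩, hwJ⟩
      exact h4 w hw hwO hwJ
  · obtain ⟨O, -, ⟨y, hyO, hyJ⟩, h3, h4⟩ := h
    exfalso
    obtain ⟨x, hxE, hxy⟩ := hEJ y hyJ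
    have h5 : x ∈ ⋃ x ∈ (F - C y₀).roots.toFinset, V x := by
      by_contra h6
      exact (h3 hyO).1 ⟨x, h6, hxy⟩
    obtain ⟨a, ha, hxa⟩ := mem_iUnion₂.1 h5
    refine h4 a ha x hxa ?_ hxE
    rw [hxy]
    exact hyO

end Pool.Agent.Imp
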