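import Pool.Agent.Lib.MP_1c105c_an.Defs10
import Pool.Agent.Lib.MP_1c105c_an.Half
import Pool.Agent.Lib.MP_1c105c_an.Inf

/-! MP_1c105c_an, row IRR: the exceptional fixed point is irrationally indifferent. -/

set_option autoImplicit false

open Filter Topology Set Polynomial

namespace Pool.Agent.Imp

namespace Irr

/-- Rays are pulled back by iterates. -/
lemma pull (lpb : LpbStatement) {f : ℂ[X]} {P : ℂ → ℂ} (hd : 2 ≤ f.natDegree) (hP : Half f P) :
    ∀ (n : ℕ) (t : ℝ) (z w : ℂ), Land P t z → (fun w => f.eval w)^[n] w = z →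
      ∃ t' : ℝ, Land P t' w := by
  intro n
  induction n with
  | zero => 
    intro t z w h hw
    rw [Function.iterate_zero, id] at hw
    exact ⟨t, hw ▸ h⟩
  | succ n ih =>
    intro t z w h hw
    rw [Function.iterate_succ_apply'] at hw
    obtain ⟨t', h', -⟩ := lpb f P hd hP t z _ h hw
    exact ih t' _ w h' rfl

/-- A critical point of an iterate is a precritical point. -/
lemma crit {f : ℂ[X]} {c : ℂ} : ∀ m : ℕ, deriv (fun w => f.eval w)^[m] c = 0 →
    ∃ k < m, f.derivative.eval ((fun w => f.eval w)^[k] c) = 0 := by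
  intro m h
  by_contra hno
  push Not at hno
  have key : ∀ n ≤ m, ∃ a : ℂ, a ≠ 0 ∧ HasDerivAt (fun w => f.eval w)^[n] a c := by
    intro n
    induction n with
    | zero => 
      intro _
      exact ⟨1, one_ne_zero, by simpa using hasDerivAt_id c⟩
    | succ n ih =>
      intro hn
      obtain ⟨a, ha, hda⟩ := ih (by omega)
      refine ⟨f.derivative.eval ((fun w => f.eval w)^[n] c) * a,
        mul_ne_zero (hno n (by omega)) ha, ?_⟩
      rw [Function.iterate_succ']
      exact HasDerivAt.comp c (f.hasDerivAt _) hda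
  obtain ⟨a, ha, hda⟩ := key m le_rfl
  exact ha (hda.deriv.symm.trans h)

/-- The landing points of rays are in the Julia set. -/
lemma land_julia (jul : JulStatement) {f : ℂ[X]} {P : ℂ → ℂ} (hd : 2 ≤ f.natDegree)
    (hP : Half f P) {t : ℝ} {z : ℂ} (h : Land P t z) : z ∈ julia f := by
  obtain ⟨-, -, -, h4, -⟩ := jul f P hd hP
  have h0 : Tendsto (fun n : ℕ => 1 / ((n : ℝ) + 1)) atTop (𝓝[>] 0) := by
    refine tendsto_nhdsWithin_iff.2 ⟨tendsto_one_div_add_atTop_nhds_zero_nat, ?_⟩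
    exact Eventually.of_forall fun n => by
      show (0 : ℝ) < 1 / ((n : ℝ) + 1)
      positivity
  refine h4 (fun n : ℕ => ((1 / ((n : ℝ) + 1) : ℝ) : ℂ) + t * Complex.I) z ?_ ?_ ?_
  · intro n
    show 0 < (((1 / ((n : ℝ) + 1) : ℝ) : ℂ) + t * Complex.I).re
    rw [Complex.add_re, Complex.ofReal_re, Complex.re_ofReal_mul, Complex.I_re, mul_zero, add_zero]
    positivity
  · have : (fun n : ℕ => (((1 / ((n : ℝ) + 1) : ℝ) : ℂ) + t * Complex.I).re)
        = fun n : ℕ => 1 / ((n : ℝ) + 1) := by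
      funext n
      rw [Complex.add_re, Complex.ofReal_re, Complex.re_ofReal_mul, Complex.I_re, mul_zero,
        add_zero]
    rw [this]
    exact tendsto_nhds_of_tendsto_nhdsWithin h0
  · exact h.comp h0

/-- A piece does not meet the Julia set. -/
lemma not_mem {f : ℂ[X]} {Δ : Set ℂ} (ho : IsOpen Δ) (hs : Δ ⊆ filledJulia f) {z : ℂ}
    (h : z ∈ julia f) : z ∉ Δ := fun hz => h.2 (interior_maximal hs ho hz)

/-- The final contradiction. -/
lemma final (acc : AccStatement) (thr : ThrStatement) (lpb : LpbStatement)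
    {f : ℂ[X]} {ψ : ℂ → ℂ} (hd : 2 ≤ f.natDegree) (hψ : IsInverseBoettcher f ψ) {m : ℕ}
    (hm : 1 ≤ m) {Δ : Set ℂ} (hΔ : Pc (Nr.It f m) Δ) {c q x : ℂ} (hc : c ∈ Δ)
    (hc' : (Nr.It f m).derivative.eval c = 0) (hq : (Nr.It f m).eval q = q)
    (hq' : (Nr.It f m).derivative.eval q ≠ 0) (hS : SAcs Δ q) (hj : q ∈ julia f) {t : ℝ}
    (ht : Land (fun u => ψ (Complex.exp (2 * Real.pi * u))) t q) (hx : x ∈ Δ)
    (hxi : ∀ θ : ℝ, x ∈ filledImpression ψ θ) : False := by
  obtain ⟨hP, -, -⟩ := half f ψ hd hψ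
  have hsub : Δ ⊆ filledJulia f := by
    rw [← Nr.it_filled f hm]; exact hΔ.sub
  obtain ⟨S, hScard, hSq⟩ := acc (Nr.It f m) Δ c q (Nr.deg_two hd hm) hΔ hc hc' hq
    (not_mem hΔ.op hsub hj) hq' hS 3
  have hland : ∀ q' ∈ S, ∃ t' : ℝ, Land (fun u => ψ (Complex.exp (2 * Real.pi * u))) t' q' := by
    intro q' hq'
    obtain ⟨-, n, hn⟩ := hSq q' hq'
    rw [Nr.it_fun, ← Function.iterate_mul] at hn
    exact pull lpb hd hP (m * n) t q q' ht hn
  obtain ⟨T, hTS, hT⟩ := Finset.exists_subset_card_eq hScard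
  let e : Fin 3 ≃ T := (Finset.equivFinOfCardEq hT).symm
  choose! τ hτ using hland
  exact thr f ψ hd hψ Δ x (fun i => (e i : ℂ)) (fun i => τ (e i)) hΔ.op hΔ.pre hsub hx hxi
    (fun i j hij => e.injective (Subtype.ext hij)) (fun i => (hSq _ (hTS (e i).2)).1)
    (fun i => hτ _ (hTS (e i).2))

end Irr

/-- IRR. -/
theorem irr (ata : AtaStatement) (pac : PacStatement) (acc : AccStatement) (thr : ThrStatement)
    (pry : PryStatement) (alp : AlpStatement) (del : DelStatement) (rju : RjuStatement)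
    (lpb : LpbStatement) (jul : JulStatement) : IrrStatement := by
  intro f ψ hd hψ hbi horb α hα hα1 hper
  obtain ⟨hP, -, -⟩ := half f ψ hd hψ
  have hinf := inf f ψ hψ
  by_contra hcon
  rw [not_and_or] at hcon
  rcases hcon with h1 | h1
  · -- attracting
    have hlt : ‖f.derivative.eval α‖ < 1 := lt_of_le_of_ne hα1 h1
    obtain ⟨Δ, hΔ, hαΔ, ⟨c, hc, hc'⟩, q, hq, hqα, hS⟩ := ata f α hd hα hlt
    have hrep : 1 < ‖f.derivative.eval q‖ := by
      have := (hper 1 q le_rfl (by simpa using hq) hqα)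
      rwa [Function.iterate_one, Polynomial.deriv] at this
    obtain ⟨t, ht⟩ := del f _ hd hP hinf q hq hrep
    have hI : Nr.It f 1 = f := Nr.it_one f
    refine Irr.final acc thr lpb hd hψ (m := 1) le_rfl (by rw [hI]; exact hΔ) hc
      (by rw [hI]; exact hc') (by rw [hI]; exact hq) ?_ hS (rju f q hd hq hrep) ht hαΔ ?_
    · rw [hI]
      intro h0
      rw [h0, norm_zero] at hrep
      linarith
    · intro θ
      exact alp f ψ hd hψ θ (fun c hc n => horb θ c hc n) α hα hα1
  · -- parabolic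
    push Not at h1
    obtain ⟨m, hm, hla⟩ := h1
    have hGα : (Nr.It f m).eval α = α := by
      rw [Nr.it_eval]
      exact Function.iterate_fixed (f := fun w => f.eval w) hα m
    have hG1 : (Nr.It f m).derivative.eval α = 1 := by
      rw [Nr.it_deriv_fixed f m hα, hla]
    obtain ⟨t, ht⟩ := pry f _ hd hP (fun z hz => hbi ⟨z, hz⟩) α m hm hα hla
    obtain ⟨Δ, hΔ, hS, c, hc, hc'⟩ := pac (Nr.It f m) α (Nr.deg_two hd hm) hGα hG1
    have hc2 := hc'
    rw [Nr.it_deriv] at hc2
    obtain ⟨k, hk, hck⟩ := Irr.crit m hc2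
    have hx : (fun w => f.eval w)^[m] c ∈ Δ := by
      rw [← Nr.it_eval]
      exact hΔ.inv c hc
    refine Irr.final acc thr lpb hd hψ hm hΔ hc hc' hGα ?_ hS (Irr.land_julia jul hd hP ht) ht hx ?_
    · rw [hG1]; exact one_ne_zero
    · intro θ
      have h2 := horb θ _ hck (m - k - 1)
      rw [← Function.iterate_add_apply] at h2
      have h3 : m - k - 1 + 1 + k = m := by omega
      rwa [h3] at h2

end Pool.Agent.Imp
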