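import Pool.Agent.Lib.MP_1c105c_an.Defs4
import Pool.Agent.Lib.MP_1c105c_an.Cik

/-! JAC: a small closed crosscut cuts off a small region. -/

set_option autoImplicit false

open Filter Topology Set Polynomial

namespace Pool.Agent.Imp

namespace Jac53

lemma bdd_box {f : ℂ[X]} {P : ℂ → ℂ} (hP : Half f P) (σ a b : ℝ) :
    Bornology.IsBounded (P '' Cik.CBox σ a b) := by
  obtain ⟨R, hR⟩ := hP.bdd
  have h1 : IsCompact (P '' (Icc 1 σ ×ℂ Icc a b)) := by
    refine (isCompact_Icc.reProdIm isCompact_Icc).image_of_continuousOn ?_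
    refine hP.diff.continuousOn.mono fun v hv => ?_
    exact lt_of_lt_of_le one_pos (Complex.mem_reProdIm.mp hv).1.1
  refine (h1.isBounded.union (Metric.isBounded_closedBall (x := (0 : ℂ)) (r := R))).subset ?_
  rintro w ⟨v, hv, rfl⟩
  rcases le_total v.re 1 with h | h
  · right
    rw [mem_closedBall_zero_iff]
    exact hR v hv.1 h
  · left
    exact ⟨v, Complex.mem_reProdIm.mpr ⟨⟨h, hv.2.1.le⟩, ⟨hv.2.2.1.le, hv.2.2.2.le⟩⟩, rfl⟩

end Jac53

open Cik in
/-- JAC: from LGK and JAN. -/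
theorem jac (_jul : JulStatement) (lgk : LgkStatement) (jan : JanStatement) : JacStatement := by
  intro f P hd hP hinf a b σ R w _ _ hσ hR ha hb hs hv u hu0 hus hua hub
  by_contra hcon
  rw [not_lt] at hcon
  have hKc : IsClosed (filledJulia f) := Jul.closed f hd
  have hKb : Bornology.IsBounded (filledJulia f) := Jul.bounded f hd
  have hPK : ∀ v : ℂ, 0 < v.re → P v ∉ filledJulia f := by
    intro v hv
    have : P v ∈ P '' HP := ⟨v, hv, rfl⟩
    rw [hP.range] at this
    exact this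
  have ha' : Tendsto (fun s : ℝ => P (s + a * Complex.I)) (𝓝[>] 0) (𝓝 w) := ha
  have hwJ : w ∈ julia f := by
    let v : ℕ → ℝ := fun n => 1 / ((n : ℝ) + 1)
    have hv0 : ∀ n, 0 < v n := fun n => by simp only [v]; positivity
    have hvl : Tendsto v atTop (𝓝 0) := tendsto_one_div_add_atTop_nhds_zero_nat
    have hvl2 : Tendsto v atTop (𝓝[>] 0) :=
      tendsto_nhdsWithin_iff.mpr ⟨hvl, Eventually.of_forall hv0⟩
    refine Jul.lim_julia hd hP (fun n => (v n : ℂ) + a * Complex.I) w ?_ ?_ ?_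
    · intro n
      exact mem_HP (v n) a (hv0 n)
    · simp only [re_mk]
      exact hvl
    · exact ha'.comp hvl2
  have hwK : w ∈ filledJulia f := hKc.frontier_subset hwJ
  obtain ⟨L, hLc, hLe⟩ := lgk f P hd hP hinf (P u) (hPK u hu0)
  refine jan (filledJulia f) {w} (Cut P σ a b w w) (P '' CBox σ a b) (P u) w R L
    (Metric.isCompact_of_isClosed_isBounded hKc hKb) isClosed_singleton
    (singleton_subset_iff.mpr hwK) isPreconnected_singleton (singleton_nonempty w) ?_ ?_
    (Jul.half_open hP _ (box_sub _ _ _) (isOpen_box _ _ _)) (Jac53.bdd_box hP σ a b)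
    (frontier_sub hd hP σ a b w w) ?_ ⟨u, ⟨hu0, hus, hua, hub⟩, rfl⟩ hcon hLc hLe
  · exact ((compact_arc hP.diff.continuousOn a σ hσ w ha).union
      (compact_arc hP.diff.continuousOn b σ hσ w hb)).union
      (compact_vert hP.diff.continuousOn σ a b hσ)
  · rintro v ⟨hv, hvK⟩
    rcases hv with ((h | ⟨s, hs, rfl⟩) | (h | ⟨s, hs, rfl⟩)) | ⟨τ, hτ, rfl⟩
    · exact h
    · exact absurd hvK (hPK _ (by rw [re_mk]; exact hs.1))
    · exact h
    · exact absurd hvK (hPK _ (by rw [re_mk]; exact hs.1))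
    · exact absurd hvK (hPK _ (by rw [re_mk]; exact hσ))
  · have hw0 : w ∈ Metric.ball w R := Metric.mem_ball_self hR
    rintro v (h | (((h | ⟨s, hs', rfl⟩) | (h | ⟨s, hs', rfl⟩)) | ⟨τ, hτ, rfl⟩))
    · rw [mem_singleton_iff.mp h]
      exact hw0
    · rw [mem_singleton_iff.mp h]
      exact hw0
    · rw [Metric.mem_ball, dist_eq_norm]
      exact (hs s hs'.1 hs'.2).1
    · rw [mem_singleton_iff.mp h]
      exact hw0
    · rw [Metric.mem_ball, dist_eq_norm]
      exact (hs s hs'.1 hs'.2).2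
    · rw [Metric.mem_ball, dist_eq_norm]
      exact hv τ hτ

end Pool.Agent.Imp
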