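import Pool.Agent.Lib.MP_1c105c_an.Defs8
import Pool.Agent.Lib.MP_5011cf_an.Koebe

/-! JMP: the logarithm jumps across the top. -/

set_option autoImplicit false

open Filter Topology Set Polynomial

namespace Pool.Agent.Imp

namespace Jmp

open Pool.Agent.Lib.MP_5011cf_an

/-- a continuous function with `exp g = 1` on a connected set is constant -/
theorem const_of_exp {α : Type*} [TopologicalSpace α] {s : Set α} (hs : IsPreconnected s)
    {g : α → ℂ} (hg : ContinuousOn g s) (h1 : ∀ x ∈ s, Complex.exp (g x) = 1) {x y : α}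
    (hx : x ∈ s) (hy : y ∈ s) : g x = g y := by
  have hn : ∀ z ∈ s, ∃ n : ℤ, g z = n * (2 * Real.pi * Complex.I) := fun z hz =>
    Complex.exp_eq_one_iff.1 (h1 z hz)
  let φ : α → ℝ := fun z => (g z).im / (2 * Real.pi)
  have hφ : ContinuousOn φ s := (Complex.continuous_im.comp_continuousOn hg).div_const _
  have hval : ∀ z, ∀ n : ℤ, g z = n * (2 * Real.pi * Complex.I) → φ z = n := by
    intro z n h
    have h2 : (g z).im = n * (2 * Real.pi) := by
      rw [h]
      simp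
    simp only [φ, h2]
    field_simp
  have hoc : OrdConnected (φ '' s) := (hs.image φ hφ).ordConnected
  have key : ∀ u ∈ s, ∀ v ∈ s, ¬ φ u < φ v := by
    intro u hu v hv hlt
    obtain ⟨m, hm⟩ := hn u hu
    obtain ⟨n, hn'⟩ := hn v hv
    rw [hval u m hm, hval v n hn'] at hlt
    have hlt' : m < n := by exact_mod_cast hlt
    have hmem : (m : ℝ) + 1 / 2 ∈ φ '' s := by
      refine hoc.out ⟨u, hu, rfl⟩ ⟨v, hv, rfl⟩ ⟨?_, ?_⟩
      · rw [hval u m hm]
        linarith
      · rw [hval v n hn']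
        have h3 : (m : ℝ) + 1 ≤ n := by exact_mod_cast hlt'
        linarith
    obtain ⟨w, hw, hw'⟩ := hmem
    obtain ⟨l, hl⟩ := hn w hw
    rw [hval w l hl] at hw'
    have h2 : (2 * l : ℝ) = 2 * m + 1 := by linarith
    have h3 : (2 * l : ℤ) = 2 * m + 1 := by exact_mod_cast h2
    omega
  have heq : φ x = φ y := le_antisymm (not_lt.1 (key y hy x hx)) (not_lt.1 (key x hx y hy))
  obtain ⟨m, hm⟩ := hn x hx
  obtain ⟨n, hn'⟩ := hn y hy
  rw [hval x m hm, hval y n hn'] at heq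
  have h4 : m = n := by exact_mod_cast heq
  rw [hm, hn', h4]

theorem log_small {q : ℂ} (h : ‖q - 1‖ < 1 / 4) :
    ‖Complex.log q‖ ≤ 3 / 8 ∧ q ∈ Complex.slitPlane := by
  have h1 : q = 1 + (q - 1) := by ring
  refine ⟨?_, ?_⟩
  · rw [h1]
    refine (Complex.norm_log_one_add_half_le_self (by linarith)).trans ?_
    linarith
  · left
    have h2 := Complex.abs_re_le_norm (q - 1)
    have h3 := neg_abs_le (q - 1).re
    have h4 : (q - 1).re = q.re - 1 := by simp
    rw [h4] at h2 h3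
    linarith

theorem arg_gt {z : ℂ} (h0 : 0 < z.re) (h1 : z.re ≤ z.im) : 1 / 2 < z.arg := by
  by_contra hcon
  rw [not_lt] at hcon
  have hz : z ≠ 0 := by
    rintro rfl
    simp at h0
  have hn : 0 < ‖z‖ := norm_pos_iff.2 hz
  have h2 : 0 ≤ z.arg := Complex.arg_nonneg_iff.2 (h0.le.trans h1)
  have h3 : Real.sin z.arg ≤ z.arg := Real.sin_le h2
  rw [Complex.sin_arg, div_le_iff₀ hn] at h3
  have h4 : z.im ≤ 1 / 2 * ‖z‖ := h3.trans (mul_le_mul_of_nonneg_right hcon hn.le)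
  have h5 : ‖z‖ ^ 2 = z.re ^ 2 + z.im ^ 2 := by
    rw [← Complex.normSq_eq_norm_sq, Complex.normSq_apply]
    ring
  nlinarith

theorem arg_lt {z : ℂ} (h0 : 0 < z.re) (h1 : z.im ≤ -z.re) : z.arg < -(1 / 2) := by
  by_contra hcon
  rw [not_lt] at hcon
  have hz : z ≠ 0 := by
    rintro rfl
    simp at h0
  have hn : 0 < ‖z‖ := norm_pos_iff.2 hz
  have h2 : z.arg < 0 := Complex.arg_neg_iff.2 (by linarith)
  have h3 : z.arg < Real.sin z.arg := Real.lt_sin h2
  rw [Complex.sin_arg, lt_div_iff₀ hn] at h3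
  have h4 : -(1 / 2) * ‖z‖ ≤ z.arg * ‖z‖ := mul_le_mul_of_nonneg_right hcon hn.le
  have h5 : ‖z‖ ^ 2 = z.re ^ 2 + z.im ^ 2 := by
    rw [← Complex.normSq_eq_norm_sq, Complex.normSq_apply]
    ring
  nlinarith

theorem isOpen_hp : IsOpen HP := isOpen_lt continuous_const Complex.continuous_re

/-- the difference quotients of `P` near a pair of points have a nonzero limit -/
theorem slope_near {f : ℂ[X]} {P : ℂ → ℂ} (hP : Half f P) {v₀ u₀ : ℂ} (hv : 0 < v₀.re)
    (hu : 0 < u₀.re) (him : |v₀.im - u₀.im| < 1) :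
    ∃ Φ : ℂ, Φ ≠ 0 ∧ ∀ κ : ℝ, 0 < κ → ∀ᶠ p : ℂ × ℂ in 𝓝 (v₀, u₀), p.1 ≠ p.2 →
      ‖(P p.1 - P p.2) / (p.1 - p.2) - Φ‖ < κ := by
  by_cases heq : v₀ = u₀
  · subst heq
    have hana : AnalyticAt ℂ P v₀ := hP.diff.analyticAt (isOpen_hp.mem_nhds hv)
    have hstr : HasStrictDerivAt P (deriv P v₀) v₀ := hana.hasStrictDerivAt
    set r : ℝ := min (1 / 2) v₀.re with hr
    have hr0 : 0 < r := lt_min (by norm_num) hv
    have hball : Metric.ball v₀ r ⊆ HP := by
      intro w hw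
      rw [mem_ball_iff_norm] at hw
      have h1 := Complex.abs_re_le_norm (w - v₀)
      have h2 := neg_abs_le (w - v₀).re
      have h3 : (w - v₀).re = w.re - v₀.re := by simp
      have h4 : r ≤ v₀.re := min_le_right _ _
      rw [h3] at h1 h2
      show 0 < w.re
      linarith
    have hinj : InjOn P (Metric.ball v₀ r) := by
      intro w hw w' hw' h
      obtain ⟨j, hj⟩ := hP.inj w (hball hw) w' (hball hw') h
      rw [mem_ball_iff_norm] at hw hw'
      have h1 : |((w - v₀) - (w' - v₀)).im| ≤ ‖(w - v₀) - (w' - v₀)‖ := Complex.abs_im_le_norm _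
      have h2 : ‖(w - v₀) - (w' - v₀)‖ ≤ ‖w - v₀‖ + ‖w' - v₀‖ := norm_sub_le _ _
      have h3 : ((w - v₀) - (w' - v₀)).im = j := by
        rw [hj]
        simp
      have h4 : r ≤ 1 / 2 := min_le_left _ _
      rw [h3] at h1
      have h5 : |(j : ℝ)| < 1 := by linarith
      have h6 : |j| < 1 := by exact_mod_cast h5
      have h7 : j = 0 := Int.abs_lt_one_iff.1 h6
      rw [hj, h7]
      simp
    refine ⟨deriv P v₀, deriv_ne_zero_of_injOn Metric.isOpen_ball (hP.diff.mono hball) hinj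
      (Metric.mem_ball_self hr0), fun κ hκ => ?_⟩
    have h1 := hstr.hasStrictFDerivAt.isLittleO.def (half_pos hκ)
    filter_upwards [h1] with p hp hne
    have hne' : p.1 - p.2 ≠ 0 := sub_ne_zero.2 hne
    have hn : 0 < ‖p.1 - p.2‖ := norm_pos_iff.2 hne'
    have h2 : (P p.1 - P p.2) / (p.1 - p.2) - deriv P v₀ =
        (P p.1 - P p.2 - (p.1 - p.2) * deriv P v₀) / (p.1 - p.2) := by
      field_simp
    have h3 : ‖P p.1 - P p.2 - (p.1 - p.2) * deriv P v₀‖ ≤ κ / 2 * ‖p.1 - p.2‖ := by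
      simpa using hp
    rw [h2, norm_div, div_lt_iff₀ hn]
    nlinarith
  · have hne : P v₀ ≠ P u₀ := by
      intro h
      obtain ⟨j, hj⟩ := hP.inj v₀ hv u₀ hu h
      have h3 : v₀.im - u₀.im = j := by
        rw [hj]
        simp
      rw [h3] at him
      have h6 : |j| < 1 := by exact_mod_cast him
      have h7 : j = 0 := Int.abs_lt_one_iff.1 h6
      apply heq
      rw [hj, h7]
      simp
    have hne' : v₀ - u₀ ≠ 0 := sub_ne_zero.2 heq
    refine ⟨(P v₀ - P u₀) / (v₀ - u₀), div_ne_zero (sub_ne_zero.2 hne) hne', fun κ hκ => ?_⟩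
    have hcv : ContinuousAt P v₀ := (hP.diff.differentiableAt (isOpen_hp.mem_nhds hv)).continuousAt
    have hcu : ContinuousAt P u₀ := (hP.diff.differentiableAt (isOpen_hp.mem_nhds hu)).continuousAt
    have hc : ContinuousAt (fun p : ℂ × ℂ => (P p.1 - P p.2) / (p.1 - p.2)) (v₀, u₀) := by
      refine ContinuousAt.div ?_ ?_ hne'
      · exact (hcv.comp (x := (v₀, u₀)) (f := Prod.fst) continuousAt_fst).sub
          (hcu.comp (x := (v₀, u₀)) (f := Prod.snd) continuousAt_snd)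
      · exact (continuous_fst.sub continuous_snd).continuousAt
    have h1 := (Metric.tendsto_nhds.1 hc) κ hκ
    filter_upwards [h1] with p hp _
    rw [dist_eq_norm] at hp
    exact hp

/-- the point of the top -/
noncomputable def V (S τ : ℝ) : ℂ := S + τ * Complex.I

/-- the ratio of the difference quotients -/
noncomputable def Q (P : ℂ → ℂ) (S x ε τ : ℝ) : ℂ :=
  ((P (V S τ) - P (V (S + ε) x)) / (V S τ - V (S + ε) x)) /
    ((P (V S τ) - P (V (S - ε) x)) / (V S τ - V (S - ε) x))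

theorem V_re (S τ : ℝ) : (V S τ).re = S := by simp [V]

theorem V_im (S τ : ℝ) : (V S τ).im = τ := by simp [V]

theorem V_cont : Continuous fun p : ℝ × ℝ => V p.1 p.2 := by
  unfold V
  fun_prop

theorem ratio_near {f : ℂ[X]} {P : ℂ → ℂ} (hP : Half f P) {S x τ₀ : ℝ} (hS : 0 < S)
    (hτ : |τ₀ - x| < 1) :
    ∀ᶠ z : ℝ × ℝ in 𝓝 ((0 : ℝ), τ₀), 0 < z.1 → ‖Q P S x z.1 z.2 - 1‖ < 1 / 4 := by
  obtain ⟨Φ, hΦ, h⟩ := slope_near hP (v₀ := V S τ₀) (u₀ := V S x) (by rwa [V_re])
    (by rwa [V_re]) (by rwa [V_im, V_im])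
  have hn : 0 < ‖Φ‖ := norm_pos_iff.2 hΦ
  have h1 := h (‖Φ‖ / 16) (by positivity)
  have hp : Tendsto (fun z : ℝ × ℝ => (V S z.2, V (S + z.1) x)) (𝓝 ((0 : ℝ), τ₀))
      (𝓝 (V S τ₀, V S x)) := by
    have hc : Continuous fun z : ℝ × ℝ => (V S z.2, V (S + z.1) x) := by
      unfold V
      fun_prop
    have h2 := hc.tendsto ((0 : ℝ), τ₀)
    simpa using h2
  have hm : Tendsto (fun z : ℝ × ℝ => (V S z.2, V (S - z.1) x)) (𝓝 ((0 : ℝ), τ₀))
      (𝓝 (V S τ₀, V S x)) := by
    have hc : Continuous fun z : ℝ × ℝ => (V S z.2, V (S - z.1) x) := by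
      unfold V
      fun_prop
    have h2 := hc.tendsto ((0 : ℝ), τ₀)
    simpa using h2
  filter_upwards [hp.eventually h1, hm.eventually h1] with z h2 h3 hz
  have hA := h2 (by
    intro h4
    have h5 := congrArg Complex.re h4
    simp only [V_re] at h5
    linarith)
  have hB := h3 (by
    intro h4
    have h5 := congrArg Complex.re h4
    simp only [V_re] at h5
    linarith)
  unfold Q
  set A : ℂ := (P (V S z.2) - P (V (S + z.1) x)) / (V S z.2 - V (S + z.1) x) with hAd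
  set B : ℂ := (P (V S z.2) - P (V (S - z.1) x)) / (V S z.2 - V (S - z.1) x) with hBd
  have hAB : ‖A - B‖ < ‖Φ‖ / 8 := by
    have h4 : A - B = (A - Φ) - (B - Φ) := by ring
    rw [h4]
    have h5 := norm_sub_le (A - Φ) (B - Φ)
    linarith
  have hBn : ‖Φ‖ * (15 / 16) < ‖B‖ := by
    have h4 : ‖Φ‖ ≤ ‖B‖ + ‖B - Φ‖ := by
      have h5 : Φ = B - (B - Φ) := by ring
      calc ‖Φ‖ = ‖B - (B - Φ)‖ := by rw [← h5]
        _ ≤ _ := norm_sub_le _ _
    linarith
  have hB0 : 0 < ‖B‖ := lt_trans (by positivity) hBn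
  have h6 : A / B - 1 = (A - B) / B := by
    rw [sub_div, div_self (norm_pos_iff.1 hB0)]
  rw [h6, norm_div, div_lt_iff₀ hB0]
  linarith

end Jmp

open Jmp in
/-- **Row JMP.** -/
theorem jmp : JmpStatement := by
  intro f P hd hP k S e a x b he heS hax hxb hba hk hkc hka hkb hkx hm hp
  have hS : 0 < S := he.trans heS
  have hcP : ∀ s τ : ℝ, 0 < s → ContinuousAt P (V s τ) := fun s τ hs =>
    (hP.diff.differentiableAt (isOpen_hp.mem_nhds (by
      show 0 < (V s τ).re
      rwa [V_re]))).continuousAt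
  -- the ratio on the top
  have h1 : ∀ᶠ ε : ℝ in 𝓝 (0 : ℝ), ∀ τ ∈ Icc a b, 0 < ε → ‖Q P S x ε τ - 1‖ < 1 / 4 := by
    refine isCompact_Icc.eventually_forall_of_forall_eventually fun τ hτ => ?_
    exact ratio_near hP hS (abs_lt.2 ⟨by linarith [hτ.1], by linarith [hτ.2]⟩)
  -- the ratio on `k`
  have h2 : ∀ᶠ ε : ℝ in 𝓝 (0 : ℝ), ∀ ζ ∈ k,
      ‖(ζ - P (V (S + ε) x)) / (ζ - P (V (S - ε) x)) - 1‖ < 1 / 4 := by
    refine hk.eventually_forall_of_forall_eventually fun ζ hζ => ?_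
    have hne : ζ - P (V S x) ≠ 0 := sub_ne_zero.2 fun h => hkx (h ▸ hζ)
    have hcp : ContinuousAt (fun z : ℝ × ℂ => P (V (S + z.1) x)) ((0 : ℝ), ζ) := by
      have h3 : ContinuousAt (fun z : ℝ × ℂ => V (S + z.1) x) ((0 : ℝ), ζ) := by
        unfold V
        fun_prop
      refine ContinuousAt.comp (g := P) ?_ h3
      simp only [add_zero]
      exact hcP S x hS
    have hcm : ContinuousAt (fun z : ℝ × ℂ => P (V (S - z.1) x)) ((0 : ℝ), ζ) := by
      have h3 : ContinuousAt (fun z : ℝ × ℂ => V (S - z.1) x) ((0 : ℝ), ζ) := by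
        unfold V
        fun_prop
      refine ContinuousAt.comp (g := P) ?_ h3
      simp only [sub_zero]
      exact hcP S x hS
    have hc : ContinuousAt (fun z : ℝ × ℂ =>
        (z.2 - P (V (S + z.1) x)) / (z.2 - P (V (S - z.1) x)) - 1) ((0 : ℝ), ζ) := by
      refine ((continuousAt_snd.sub hcp).div (continuousAt_snd.sub hcm) ?_).sub
        continuousAt_const
      simpa using hne
    have h4 := (Metric.tendsto_nhds.1 hc) (1 / 4) (by norm_num)
    filter_upwards [h4] with z hz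
    simp only [add_zero, sub_zero, div_self hne, sub_self, dist_zero_right] at hz
    exact hz
  obtain ⟨ε, ⟨⟨h1ε, h2ε⟩, h3ε⟩, hε⟩ : ∃ ε : ℝ, (((∀ τ ∈ Icc a b, 0 < ε →
      ‖Q P S x ε τ - 1‖ < 1 / 4) ∧ ∀ ζ ∈ k,
      ‖(ζ - P (V (S + ε) x)) / (ζ - P (V (S - ε) x)) - 1‖ < 1 / 4) ∧
      ε < min e (min (x - a) (b - x))) ∧ 0 < ε := by
    have h3 : ∀ᶠ ε : ℝ in 𝓝 (0 : ℝ), ε < min e (min (x - a) (b - x)) :=
      eventually_lt_nhds (lt_min he (lt_min (by linarith) (by linarith)))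
    have h4 : ∀ᶠ ε : ℝ in 𝓝[>] (0 : ℝ), (((∀ τ ∈ Icc a b, 0 < ε →
      ‖Q P S x ε τ - 1‖ < 1 / 4) ∧ ∀ ζ ∈ k,
      ‖(ζ - P (V (S + ε) x)) / (ζ - P (V (S - ε) x)) - 1‖ < 1 / 4) ∧
      ε < min e (min (x - a) (b - x))) ∧ 0 < ε :=
      (eventually_nhdsWithin_of_eventually_nhds ((h1.and h2).and h3)).and self_mem_nhdsWithin
    exact h4.exists
  have hεe : ε < e := h3ε.trans_le (min_le_left _ _)
  have hεa : ε < x - a := h3ε.trans_le ((min_le_right _ _).trans (min_le_left _ _))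
  have hεb : ε < b - x := h3ε.trans_le ((min_le_right _ _).trans (min_le_right _ _))
  obtain ⟨Lm, hLm, hLm'⟩ := hm ε hε hεe
  obtain ⟨Lp, hLp, hLp'⟩ := hp ε hε
  set K : Set ℂ := k ∪ (fun τ : ℝ => P (S + τ * Complex.I)) '' Icc a b with hK
  have hLm2 : ∀ ζ ∈ K, Complex.exp (Lm ζ) = ζ - P (V (S - ε) x) := hLm'
  have hLp2 : ∀ ζ ∈ K, Complex.exp (Lp ζ) = ζ - P (V (S + ε) x) := hLp'
  have hkK : k ⊆ K := subset_union_left
  have htK : ∀ τ ∈ Icc a b, P (V S τ) ∈ K := fun τ hτ => Or.inr ⟨τ, hτ, rfl⟩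
  have hD : ∀ ζ ∈ K, Complex.exp (Lp ζ - Lm ζ) = (ζ - P (V (S + ε) x)) / (ζ - P (V (S - ε) x)) := by
    intro ζ hζ
    rw [Complex.exp_sub, hLm2 ζ hζ, hLp2 ζ hζ]
  have hab : a ≤ b := by linarith
  have ha : a ∈ Icc a b := left_mem_Icc.2 hab
  have hb : b ∈ Icc a b := right_mem_Icc.2 hab
  -- `k`
  have hk1 : ContinuousOn (fun ζ => (Lp ζ - Lm ζ) -
      Complex.log ((ζ - P (V (S + ε) x)) / (ζ - P (V (S - ε) x)))) k := by
    refine ((hLp.mono hkK).sub (hLm.mono hkK)).sub (ContinuousOn.clog ?_ ?_)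
    · refine (continuousOn_id.sub continuousOn_const).div
        (continuousOn_id.sub continuousOn_const) fun ζ hζ => ?_
      show ζ - P (V (S - ε) x) ≠ 0
      rw [← hLm2 ζ (hkK hζ)]
      exact Complex.exp_ne_zero _
    · intro ζ hζ
      exact (log_small (h2ε ζ hζ)).2
  have hk2 : ∀ ζ ∈ k, Complex.exp ((Lp ζ - Lm ζ) -
      Complex.log ((ζ - P (V (S + ε) x)) / (ζ - P (V (S - ε) x)))) = 1 := by
    intro ζ hζ
    have h3 := Complex.slitPlane_ne_zero (log_small (h2ε ζ hζ)).2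
    rw [Complex.exp_sub, hD ζ (hkK hζ), Complex.exp_log h3, div_self h3]
  have hka' : P (V S a) ∈ k := hka
  have hkb' : P (V S b) ∈ k := hkb
  have hk3 := const_of_exp hkc hk1 hk2 hkb' hka'
  -- the top
  have hw : ∀ τ : ℝ, V S τ - V (S - ε) x = ((ε : ℝ) : ℂ) + ((τ - x : ℝ) : ℂ) * Complex.I := by
    intro τ
    unfold V
    push_cast
    ring
  have hw' : ∀ τ : ℝ, V S τ - V (S + ε) x = -(((ε : ℝ) : ℂ) - ((τ - x : ℝ) : ℂ) * Complex.I) := by
    intro τ
    unfold V
    push_cast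
    ring
  set w : ℝ → ℂ := fun τ => ((ε : ℝ) : ℂ) + ((τ - x : ℝ) : ℂ) * Complex.I with hwd
  set w' : ℝ → ℂ := fun τ => ((ε : ℝ) : ℂ) - ((τ - x : ℝ) : ℂ) * Complex.I with hwd'
  have hre : ∀ τ, (w τ).re = ε := fun τ => by simp [hwd]
  have him : ∀ τ, (w τ).im = τ - x := fun τ => by simp [hwd]
  have hre' : ∀ τ, (w' τ).re = ε := fun τ => by simp [hwd']
  have him' : ∀ τ, (w' τ).im = -(τ - x) := fun τ => by simp [hwd']
  have hws : ∀ τ, w τ ∈ Complex.slitPlane := fun τ => Or.inl (by rw [hre]; exact hε)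
  have hws' : ∀ τ, w' τ ∈ Complex.slitPlane := fun τ => Or.inl (by rw [hre']; exact hε)
  have hwc : Continuous w := by
    simp only [hwd]
    fun_prop
  have hwc' : Continuous w' := by
    simp only [hwd']
    fun_prop
  have htop : ContinuousOn (fun τ : ℝ => P (V S τ)) (Icc a b) := by
    intro τ _
    refine ContinuousAt.continuousWithinAt ?_
    refine ContinuousAt.comp (g := P) (hcP S τ hS) ?_
    unfold V
    fun_prop
  have hmne : ∀ τ ∈ Icc a b, P (V S τ) - P (V (S - ε) x) ≠ 0 := by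
    intro τ hτ
    rw [← hLm2 _ (htK τ hτ)]
    exact Complex.exp_ne_zero _
  have hQc : ContinuousOn (fun τ => Q P S x ε τ) (Icc a b) := by
    unfold Q
    refine ContinuousOn.div ?_ ?_ ?_
    · refine (htop.sub continuousOn_const).div ?_ fun τ _ => ?_
      · simp only [hw']
        exact hwc'.neg.continuousOn
      · rw [hw']
        exact neg_ne_zero.2 (Complex.slitPlane_ne_zero (hws' τ))
    · refine (htop.sub continuousOn_const).div ?_ fun τ _ => ?_
      · simp only [hw]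
        exact hwc.continuousOn
      · rw [hw]
        exact Complex.slitPlane_ne_zero (hws τ)
    · intro τ hτ
      refine div_ne_zero (hmne τ hτ) ?_
      rw [hw]
      exact Complex.slitPlane_ne_zero (hws τ)
  have ht1 : ContinuousOn (fun τ : ℝ => (Lp (P (V S τ)) - Lm (P (V S τ))) -
      Complex.log (Q P S x ε τ) -
      (Complex.log (w' τ) - Complex.log (w τ) + Real.pi * Complex.I)) (Icc a b) := by
    refine ContinuousOn.sub (ContinuousOn.sub (ContinuousOn.sub ?_ ?_) ?_) ?_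
    · exact hLp.comp htop htK
    · exact hLm.comp htop htK
    · exact ContinuousOn.clog hQc fun τ hτ => (log_small (h1ε τ hτ hε)).2
    · exact ((ContinuousOn.clog hwc'.continuousOn fun τ _ => hws' τ).sub
        (ContinuousOn.clog hwc.continuousOn fun τ _ => hws τ)).add continuousOn_const
  have ht2 : ∀ τ ∈ Icc a b, Complex.exp ((Lp (P (V S τ)) - Lm (P (V S τ))) -
      Complex.log (Q P S x ε τ) -
      (Complex.log (w' τ) - Complex.log (w τ) + Real.pi * Complex.I)) = 1 := by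
    intro τ hτ
    have h3 := Complex.slitPlane_ne_zero (log_small (h1ε τ hτ hε)).2
    have h4 := Complex.slitPlane_ne_zero (hws τ)
    have h5 := Complex.slitPlane_ne_zero (hws' τ)
    rw [Complex.exp_sub, Complex.exp_sub, hD _ (htK τ hτ), Complex.exp_log h3, Complex.exp_add,
      Complex.exp_sub, Complex.exp_log h4, Complex.exp_log h5, Complex.exp_pi_mul_I]
    have h6 := hmne τ hτ
    have h7 : P (V S τ) - P (V (S + ε) x) ≠ 0 := by
      rw [← hLp2 _ (htK τ hτ)]
      exact Complex.exp_ne_zero _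
    have h8 : Q P S x ε τ = ((P (V S τ) - P (V (S + ε) x)) / -(w' τ)) /
        ((P (V S τ) - P (V (S - ε) x)) / w τ) := by
      unfold Q
      rw [hw', hw]
    rw [h8]
    field_simp
  have ht3 := const_of_exp isPreconnected_Icc ht1 ht2 hb ha
  -- the imaginary parts
  have e1 := congrArg Complex.im hk3
  have e2 := congrArg Complex.im ht3
  simp only [Complex.sub_im, Complex.add_im, Complex.log_im] at e1 e2
  have b1 := (Complex.abs_im_le_norm _).trans (log_small (h2ε _ hka')).1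
  have b2 := (Complex.abs_im_le_norm _).trans (log_small (h2ε _ hkb')).1
  have b3 := (Complex.abs_im_le_norm _).trans (log_small (h1ε a ha hε)).1
  have b4 := (Complex.abs_im_le_norm _).trans (log_small (h1ε b hb hε)).1
  rw [Complex.log_im] at b1 b2 b3 b4
  have c1 : 1 / 2 < (w b).arg := arg_gt (by rw [hre]; exact hε) (by rw [hre, him]; linarith)
  have c2 : (w' b).arg < -(1 / 2) := arg_lt (by rw [hre']; exact hε) (by rw [hre', him']; linarith)
  have c3 : (w a).arg < -(1 / 2) := arg_lt (by rw [hre]; exact hε) (by rw [hre, him]; linarith)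
  have c4 : 1 / 2 < (w' a).arg := arg_gt (by rw [hre']; exact hε) (by rw [hre', him']; linarith)
  have d1 := abs_le.1 b1
  have d2 := abs_le.1 b2
  have d3 := abs_le.1 b3
  have d4 := abs_le.1 b4
  linarith [d1.1, d1.2, d2.1, d2.2, d3.1, d3.2, d4.1, d4.2]

end Pool.Agent.Imp
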