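import Pool.Agent.Lib.MP_1c105c_an.Defs4
import Pool.Agent.Lib.MP_1c105c_an.Cro

/-! MP_1c105c_an, row LEN: most ray pieces over a short interval are short (length and area). -/

set_option autoImplicit false

open MeasureTheory Set Metric Filter Topology Polynomial
open scoped ENNReal

namespace Pool.Agent.Imp

namespace LenA

/-- An open box at the imaginary axis. -/
def Bx (r c e : ℝ) : Set ℂ := {v | (0 < v.re ∧ v.re < r) ∧ c < v.im ∧ v.im < e}

theorem isOpen_Bx (r c e : ℝ) : IsOpen (Bx r c e) :=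
  ((isOpen_lt continuous_const Complex.continuous_re).inter
    (isOpen_lt Complex.continuous_re continuous_const)).inter
    ((isOpen_lt continuous_const Complex.continuous_im).inter
      (isOpen_lt Complex.continuous_im continuous_const))

theorem re_eq (x α : ℝ) : ((x : ℂ) + α * Complex.I).re = x := by simp

theorem im_eq (x α : ℝ) : ((x : ℂ) + α * Complex.I).im = α := by simp

theorem ball_re_im {x α ρ : ℝ} {z : ℂ} (hz : z ∈ ball ((x : ℂ) + α * Complex.I) ρ) :
    |z.re - x| < ρ ∧ |z.im - α| < ρ := by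
  rw [mem_ball, dist_eq_norm] at hz
  have h1 := (Complex.abs_re_le_norm _).trans_lt hz
  have h2 := (Complex.abs_im_le_norm _).trans_lt hz
  rw [Complex.sub_re, re_eq] at h1
  rw [Complex.sub_im, im_eq] at h2
  exact ⟨h1, h2⟩

/-- The discs along a ray piece cover each point for a length at most `2 ρ`. -/
theorem fub {g : ℂ → ℝ≥0∞} (hg : Measurable g) {s₁ s₂ α ρ : ℝ} {T : Set ℂ}
    (hT : MeasurableSet T)
    (hsub : ∀ x ∈ Ioo s₁ s₂, ball ((x : ℂ) + α * Complex.I) ρ ⊆ T) :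
    ∫⁻ x in Ioo s₁ s₂, ∫⁻ z in ball ((x : ℂ) + α * Complex.I) ρ, g z ≤
      ENNReal.ofReal (2 * ρ) * ∫⁻ z in T, g z := by
  have h1 : ∀ x : ℝ, ∫⁻ z in ball ((x : ℂ) + α * Complex.I) ρ, g z =
      ∫⁻ z, (ball ((x : ℂ) + α * Complex.I) ρ).indicator g z := fun x =>
    (lintegral_indicator measurableSet_ball _).symm
  simp_rw [h1]
  have hmeas : Measurable (Function.uncurry fun (x : ℝ) (z : ℂ) =>
      (ball ((x : ℂ) + α * Complex.I) ρ).indicator g z) := by
    have h2 : (Function.uncurry fun (x : ℝ) (z : ℂ) =>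
        (ball ((x : ℂ) + α * Complex.I) ρ).indicator g z) =
        ({p : ℝ × ℂ | ‖p.2 - ((p.1 : ℂ) + α * Complex.I)‖ < ρ} : Set (ℝ × ℂ)).indicator
          fun p => g p.2 := by
      funext p
      obtain ⟨x, z⟩ := p
      by_cases h : z ∈ ball ((x : ℂ) + α * Complex.I) ρ
      · have h' : (x, z) ∈ {p : ℝ × ℂ | ‖p.2 - ((p.1 : ℂ) + α * Complex.I)‖ < ρ} := by
          rw [mem_ball, dist_eq_norm] at h
          exact h
        rw [indicator_of_mem h']
        exact indicator_of_mem h _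
      · have h' : (x, z) ∉ {p : ℝ × ℂ | ‖p.2 - ((p.1 : ℂ) + α * Complex.I)‖ < ρ} := by
          rw [mem_ball, dist_eq_norm] at h
          exact h
        rw [indicator_of_notMem h']
        exact indicator_of_notMem h _
    rw [h2]
    refine (hg.comp measurable_snd).indicator (IsOpen.measurableSet ?_)
    exact isOpen_lt (by fun_prop) continuous_const
  rw [lintegral_lintegral_swap hmeas.aemeasurable, ← lintegral_const_mul' _ _
    ENNReal.ofReal_ne_top, ← lintegral_indicator hT]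
  refine lintegral_mono fun z => ?_
  by_cases hz : z ∈ T
  · rw [indicator_of_mem hz]
    calc ∫⁻ x in Ioo s₁ s₂, (ball ((x : ℂ) + α * Complex.I) ρ).indicator g z
        ≤ ∫⁻ x in Ioo s₁ s₂, (Ioo (z.re - ρ) (z.re + ρ)).indicator (fun _ => g z) x := by
          refine lintegral_mono fun x => ?_
          by_cases h : z ∈ ball ((x : ℂ) + α * Complex.I) ρ
          · have h3 := abs_lt.1 (ball_re_im h).1
            have h4 : x ∈ Ioo (z.re - ρ) (z.re + ρ) := ⟨by linarith [h3.2], by linarith [h3.1]⟩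
            show (ball ((x : ℂ) + α * Complex.I) ρ).indicator g z ≤ _
            rw [indicator_of_mem h, indicator_of_mem h4]
          · show (ball ((x : ℂ) + α * Complex.I) ρ).indicator g z ≤ _
            rw [indicator_of_notMem h]
            exact bot_le
      _ ≤ ∫⁻ x, (Ioo (z.re - ρ) (z.re + ρ)).indicator (fun _ => g z) x :=
          setLIntegral_le_lintegral _ _
      _ = ENNReal.ofReal (2 * ρ) * g z := by
          rw [lintegral_indicator measurableSet_Ioo, setLIntegral_const, Real.volume_Ioo, mul_comm]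
          congr 2
          ring
  · rw [indicator_of_notMem hz]
    refine le_of_eq (setLIntegral_eq_zero measurableSet_Ioo fun x hx => ?_)
    exact indicator_of_notMem (fun h => hz (hsub x hx h)) _

/-- The integral of `‖P'‖ ^ 2` on a ray piece. -/
theorem ray_int {f : ℂ[X]} {P : ℂ → ℂ} (hP : Half f P) {s₁ s₂ α ρ c₀ C : ℝ} {T : Set ℂ}
    (hT : MeasurableSet T) (hTH : T ⊆ HP) (hρ : 0 < ρ)
    (hsub : ∀ x ∈ Ioo s₁ s₂, ball ((x : ℂ) + α * Complex.I) ρ ⊆ T)
    (hE : ∫⁻ z in T, ENNReal.ofReal (‖deriv P z‖ ^ 2) ≤ ENNReal.ofReal c₀)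
    (hCc : 2 * c₀ ≤ Real.pi * ρ * C) :
    ∫⁻ x in Ioo s₁ s₂, ENNReal.ofReal (‖deriv P (x + α * Complex.I)‖ ^ 2) ≤
      ENNReal.ofReal C := by
  have hdd : DifferentiableOn ℂ (deriv P) HP := hP.diff.deriv CroA.isOpen_HP
  have hg : Measurable fun z : ℂ => ENNReal.ofReal (‖deriv P z‖ ^ 2) :=
    ((measurable_deriv P).norm.pow_const 2).ennreal_ofReal
  have h1 := fub hg hT hsub
  have h2 : ENNReal.ofReal (Real.pi * ρ ^ 2) *
      ∫⁻ x in Ioo s₁ s₂, ENNReal.ofReal (‖deriv P (x + α * Complex.I)‖ ^ 2) ≤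
      ∫⁻ x in Ioo s₁ s₂, ∫⁻ z in ball ((x : ℂ) + α * Complex.I) ρ,
        ENNReal.ofReal (‖deriv P z‖ ^ 2) := by
    rw [← lintegral_const_mul' _ _ ENNReal.ofReal_ne_top]
    refine setLIntegral_mono' measurableSet_Ioo fun x hx => ?_
    rw [← ENNReal.ofReal_mul (by positivity)]
    exact AreaAux.ball_ge' hρ (hdd.mono ((hsub x hx).trans hTH))
  have h3 := h2.trans (h1.trans (mul_le_mul_right hE _))
  have h4 : ENNReal.ofReal (2 * ρ) * ENNReal.ofReal c₀ ≤
      ENNReal.ofReal (Real.pi * ρ ^ 2) * ENNReal.ofReal C := by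
    rw [← ENNReal.ofReal_mul (by positivity), ← ENNReal.ofReal_mul (by positivity)]
    refine ENNReal.ofReal_le_ofReal ?_
    nlinarith
  have h5 : ENNReal.ofReal (Real.pi * ρ ^ 2) ≠ 0 := by
    rw [Ne, ENNReal.ofReal_eq_zero, not_le]
    positivity
  exact (ENNReal.mul_le_mul_iff_right h5 ENNReal.ofReal_ne_top).1 (h3.trans h4)

/-- The length of a ray piece. -/
theorem piece_bound {f : ℂ[X]} {P : ℂ → ℂ} (hP : Half f P) {t C l : ℝ} (hC : 0 ≤ C) (hl : 0 < l)
    {s₁ s₂ : ℝ} (h1 : 0 < s₁) (h12 : s₁ ≤ s₂)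
    (h : ∫⁻ s in Ioo s₁ s₂, ENNReal.ofReal (‖deriv P (s + t * Complex.I)‖ ^ 2) ≤
      ENNReal.ofReal C) :
    ‖P (s₂ + t * Complex.I) - P (s₁ + t * Complex.I)‖ ≤ l / 2 * (s₂ - s₁) + C / (2 * l) := by
  have hdd : DifferentiableOn ℂ (deriv P) HP := hP.diff.deriv CroA.isOpen_HP
  have hmem : ∀ s : ℝ, 0 < s → ((s : ℂ) + t * Complex.I) ∈ HP := by
    intro s hs
    show 0 < ((s : ℂ) + t * Complex.I).re
    simpa using hs
  have hder : ∀ s ∈ uIcc s₁ s₂, HasDerivAt (fun s : ℝ => P (s + t * Complex.I))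
      (deriv P (s + t * Complex.I)) s := by
    intro s hs
    rw [uIcc_of_le h12] at hs
    have h3 : HasDerivAt P (deriv P (s + t * Complex.I)) ((s : ℂ) + t * Complex.I) :=
      (hP.diff.differentiableAt
        (CroA.isOpen_HP.mem_nhds (hmem s (by linarith [hs.1])))).hasDerivAt
    have h4 : HasDerivAt (fun z : ℂ => P (z + t * Complex.I)) (deriv P (s + t * Complex.I))
        (s : ℂ) := by
      have h5 : HasDerivAt (fun z : ℂ => z + t * Complex.I) 1 (s : ℂ) :=
        (hasDerivAt_id _).add_const _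
      have h6 := HasDerivAt.comp (s : ℂ) h3 h5
      rw [mul_one] at h6
      exact h6
    exact h4.comp_ofReal
  have hcont : ContinuousOn (fun s : ℝ => deriv P (s + t * Complex.I)) (Icc s₁ s₂) := by
    refine hdd.continuousOn.comp (by fun_prop) fun s hs => hmem s (by linarith [hs.1])
  have hint : IntervalIntegrable (fun s : ℝ => deriv P (s + t * Complex.I)) volume s₁ s₂ :=
    ContinuousOn.intervalIntegrable (by rwa [uIcc_of_le h12])
  have hint2 : IntervalIntegrable (fun s : ℝ => ‖deriv P (s + t * Complex.I)‖ ^ 2) volume s₁ s₂ :=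
    ContinuousOn.intervalIntegrable (by rw [uIcc_of_le h12]; exact hcont.norm.pow 2)
  rw [← intervalIntegral.integral_eq_sub_of_hasDerivAt hder hint]
  have hsq : ∫ s in s₁..s₂, ‖deriv P (s + t * Complex.I)‖ ^ 2 ≤ C := by
    rw [intervalIntegral.integral_of_le h12, integral_Ioc_eq_integral_Ioo]
    rw [← ENNReal.ofReal_le_ofReal_iff hC, ofReal_integral_eq_lintegral_ofReal
      (((intervalIntegrable_iff_integrableOn_Ioc_of_le h12).1 hint2).mono_set Ioo_subset_Ioc_self)
      (Eventually.of_forall fun s => by positivity)]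
    exact h
  calc ‖∫ s in s₁..s₂, deriv P (s + t * Complex.I)‖
      ≤ ∫ s in s₁..s₂, ‖deriv P (s + t * Complex.I)‖ :=
        intervalIntegral.norm_integral_le_integral_norm h12
    _ ≤ ∫ s in s₁..s₂, (l / 2 + 1 / (2 * l) * ‖deriv P (s + t * Complex.I)‖ ^ 2) := by
        refine intervalIntegral.integral_mono_on h12 hint.norm
          (intervalIntegrable_const.add (hint2.const_mul _)) fun s _ => ?_
        set A := ‖deriv P (s + t * Complex.I)‖
        have h3 : l / 2 + 1 / (2 * l) * A ^ 2 - A = (l - A) ^ 2 / (2 * l) := by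
          field_simp
          ring
        have h4 : 0 ≤ (l - A) ^ 2 / (2 * l) := by positivity
        linarith
    _ = l / 2 * (s₂ - s₁) + 1 / (2 * l) * ∫ s in s₁..s₂, ‖deriv P (s + t * Complex.I)‖ ^ 2 := by
        rw [intervalIntegral.integral_add intervalIntegrable_const (hint2.const_mul _),
          intervalIntegral.integral_const, intervalIntegral.integral_const_mul, smul_eq_mul]
        ring
    _ ≤ l / 2 * (s₂ - s₁) + C / (2 * l) := by
        have h3 : 1 / (2 * l) * ∫ s in s₁..s₂, ‖deriv P (s + t * Complex.I)‖ ^ 2 ≤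
            1 / (2 * l) * C := mul_le_mul_of_nonneg_left hsq (by positivity)
        have h4 : 1 / (2 * l) * C = C / (2 * l) := by ring
        linarith

/-- A long ray piece has large energy around it. -/
theorem big {f : ℂ[X]} {P : ℂ → ℂ} (hP : Half f P) {s s' α ρ l₀ κ : ℝ} (hρ : 0 < ρ)
    (hl : 2 * ρ ≤ l₀) (hκ : 0 < κ) (h1 : 2 * ρ ≤ s) (h2 : s ≤ l₀) (h3 : 2 * ρ ≤ s') (h4 : s' ≤ l₀)
    (hbig : κ < ‖P (s + α * Complex.I) - P (s' + α * Complex.I)‖) :
    ENNReal.ofReal (κ ^ 2 * Real.pi * ρ / (2 * l₀)) ≤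
      ∫⁻ z in Bx (2 * l₀) (α - ρ) (α + ρ), ENNReal.ofReal (‖deriv P z‖ ^ 2) := by
  have hl0 : 0 < l₀ := by linarith
  by_contra hcon
  push Not at hcon
  wlog hss : s' ≤ s generalizing s s'
  · refine this h3 h4 h1 h2 ?_ (le_of_not_ge hss)
    rwa [norm_sub_rev]
  have hsub : ∀ x ∈ Ioo s' s, ball ((x : ℂ) + α * Complex.I) ρ ⊆
      Bx (2 * l₀) (α - ρ) (α + ρ) := by
    intro x hx z hz
    obtain ⟨h5, h6⟩ := ball_re_im hz
    rw [abs_lt] at h5 h6
    exact ⟨⟨by linarith [hx.1], by linarith [hx.2]⟩, by linarith, by linarith⟩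
  have h5 := ray_int hP (s₁ := s') (s₂ := s) (α := α) (C := κ ^ 2 / l₀)
    (isOpen_Bx (2 * l₀) (α - ρ) (α + ρ)).measurableSet
    (fun v hv => hv.1.1) hρ hsub hcon.le (by
      apply le_of_eq
      field_simp)
  have h6 := piece_bound hP (t := α) (C := κ ^ 2 / l₀) (l := κ / l₀) (by positivity)
    (by positivity) (by linarith : 0 < s') hss h5
  have h7 : κ / l₀ / 2 * (s - s') ≤ κ / 2 := by
    calc κ / l₀ / 2 * (s - s') ≤ κ / l₀ / 2 * l₀ :=
          mul_le_mul_of_nonneg_left (by linarith) (by positivity)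
      _ = κ / 2 := by field_simp
  have h8 : κ ^ 2 / l₀ / (2 * (κ / l₀)) = κ / 2 := by
    field_simp
  rw [h8] at h6
  linarith

end LenA

open LenA in
/-- Row LEN. -/
theorem len : LenStatement := by
  intro f P hd hP κ ε hκ hε
  obtain ⟨s₀, hs0, hs1, hsm⟩ := CroA.exists_small hP (ε := ENNReal.ofReal (ε * κ ^ 2 / 2))
    (by rw [ENNReal.ofReal_pos]; positivity)
  refine ⟨s₀ / 4, by linarith, fun a p q n S hpq hl h1 hS => ?_⟩
  set D : ℝ := (f.natDegree : ℝ) ^ n with hD
  set l₀ : ℝ := q - p with hl₀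
  have hl0 : 0 < l₀ := by linarith
  have hD0 : 0 < D := by
    have : (0 : ℝ) < f.natDegree := by
      have h2 : (2 : ℝ) ≤ f.natDegree := by exact_mod_cast hd
      linarith
    positivity
  set ρ : ℝ := 1 / (2 * D) with hρ
  have hρ0 : 0 < ρ := by positivity
  have hρD : 2 * ρ = 1 / D := by
    rw [hρ]
    field_simp
  have hDi : ∀ x : ℝ, 1 ≤ x * D → 2 * ρ ≤ x := by
    intro x hx
    rw [hρD, div_le_iff₀ hD0]
    exact hx
  have hρl : 2 * ρ ≤ l₀ := hDi _ (by rw [mul_comm]; exact h1)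
  -- the energies
  have hbig : ∀ j ∈ S, ENNReal.ofReal (κ ^ 2 * Real.pi * ρ / (2 * l₀)) ≤
      ∫⁻ z in Bx (2 * l₀) ((a + j) / D - ρ) ((a + j) / D + ρ),
        ENNReal.ofReal (‖deriv P z‖ ^ 2) := by
    intro j hj
    obtain ⟨-, -, s, s', h2, h3, h4, h5, h6⟩ := hS j hj
    exact big hP hρ0 hρl hκ (hDi s h2) h3 (hDi s' h4) h5 h6
  have hdis : (S : Set ℤ).PairwiseDisjoint fun j : ℤ =>
      Bx (2 * l₀) ((a + j) / D - ρ) ((a + j) / D + ρ) := by
    have key : ∀ i j : ℤ, i < j → Disjoint (Bx (2 * l₀) ((a + i) / D - ρ) ((a + i) / D + ρ))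
        (Bx (2 * l₀) ((a + j) / D - ρ) ((a + j) / D + ρ)) := by
      intro i j hij
      rw [Set.disjoint_left]
      intro v hv hv'
      have h2 : (i : ℝ) + 1 ≤ j := by exact_mod_cast hij
      have h3 : (a + i) / D + 1 / D ≤ (a + j) / D := by
        rw [← add_div]
        exact div_le_div_of_nonneg_right (by linarith) hD0.le
      have h4 := hv.2.2
      have h5 := hv'.2.1
      rw [← hρD] at h3
      linarith
    intro i _ j _ hij
    rcases lt_or_gt_of_ne hij with h | h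
    · exact key i j h
    · exact (key j i h).symm
  have hsum : ∑ j ∈ S, ∫⁻ z in Bx (2 * l₀) ((a + j) / D - ρ) ((a + j) / D + ρ),
      ENNReal.ofReal (‖deriv P z‖ ^ 2) ≤ volume (P '' CroA.St s₀) := by
    rw [← lintegral_biUnion_finset hdis
      (fun j _ => (isOpen_Bx (2 * l₀) ((a + j) / D - ρ) ((a + j) / D + ρ)).measurableSet)]
    have hU : InjOn P (Bx (2 * l₀) (p - ρ) (q + ρ)) := by
      refine CroA.inj_of hP (fun v hv => hv.1.1) fun u hu v hv => ?_
      have h2 := hu.2.2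
      have h3 := hv.2.1
      linarith
    refine (lintegral_mono_set (t := Bx (2 * l₀) (p - ρ) (q + ρ)) ?_).trans ?_
    · refine iUnion₂_subset fun j hj => ?_
      obtain ⟨h2, h3, -⟩ := hS j hj
      intro v hv
      exact ⟨hv.1, by linarith [hv.2.1], by linarith [hv.2.2]⟩
    · rw [AreaAux.area_eq (isOpen_Bx _ _ _) (hP.diff.mono fun v hv => hv.1.1) hU]
      refine measure_mono (image_mono fun v hv => ⟨hv.1.1, ?_⟩)
      have h2 := hv.1.2
      linarith
  have h2 : (S.card : ℝ≥0∞) * ENNReal.ofReal (κ ^ 2 * Real.pi * ρ / (2 * l₀)) ≤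
      ENNReal.ofReal (ε * κ ^ 2 / 2) := by
    calc (S.card : ℝ≥0∞) * ENNReal.ofReal (κ ^ 2 * Real.pi * ρ / (2 * l₀))
        = ∑ j ∈ S, ENNReal.ofReal (κ ^ 2 * Real.pi * ρ / (2 * l₀)) := by
          rw [Finset.sum_const, nsmul_eq_mul]
      _ ≤ _ := Finset.sum_le_sum hbig
      _ ≤ _ := hsum
      _ ≤ _ := hsm.le
  have h3 : (S.card : ℝ) * (κ ^ 2 * Real.pi * ρ / (2 * l₀)) ≤ ε * κ ^ 2 / 2 := by
    rw [← ENNReal.ofReal_natCast, ← ENNReal.ofReal_mul (by positivity)] at h2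
    exact (ENNReal.ofReal_le_ofReal_iff (by positivity)).1 h2
  have hpi := Real.pi_gt_three
  have h4 : (S.card : ℝ) * (κ ^ 2 * Real.pi * ρ / (2 * l₀)) =
      (S.card : ℝ) * (κ ^ 2 * (Real.pi / (4 * (D * l₀)))) := by
    rw [hρ]
    field_simp
    ring
  rw [h4] at h3
  have h5 : (S.card : ℝ) * Real.pi ≤ 2 * ε * (D * l₀) := by
    have h6 : (S.card : ℝ) * (κ ^ 2 * (Real.pi / (4 * (D * l₀)))) =
        κ ^ 2 / (4 * (D * l₀)) * ((S.card : ℝ) * Real.pi) := by
      ring
    have h7 : ε * κ ^ 2 / 2 = κ ^ 2 / (4 * (D * l₀)) * (2 * ε * (D * l₀)) := by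
      field_simp
      ring
    rw [h6, h7] at h3
    exact le_of_mul_le_mul_left h3 (by positivity)
  have h8 : (0 : ℝ) ≤ S.card := Nat.cast_nonneg _
  nlinarith

end Pool.Agent.Imp
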