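import Pool.Agent.Lib.MP_1c105c_an.Defs4
import Pool.Agent.Lib.MP_1c105c_an.Sml

/-! MP_1c105c_an, row LFR: a ray whose image lands lands. -/

set_option autoImplicit false

open Filter Topology Set Polynomial

namespace Pool.Agent.Imp

namespace Lfr

theorem evalTendsto {f : ℂ[X]} {P : ℂ → ℂ} (hf : 2 ≤ f.natDegree) (hP : Half f P) {t : ℝ}
    {w : ℂ} (h : Land P (f.natDegree * t) w) :
    Tendsto (fun s : ℝ => f.eval (P (s + t * Complex.I))) (𝓝[>] 0) (𝓝 w) := by
  have hd : (0 : ℝ) < f.natDegree := by exact_mod_cast (by omega : 0 < f.natDegree)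
  have h1 : Tendsto (fun s : ℝ => (f.natDegree : ℝ) * s) (𝓝[>] 0) (𝓝[>] 0) := by
    refine tendsto_nhdsWithin_iff.2 ⟨?_, ?_⟩
    · have h2 : Tendsto (fun s : ℝ => (f.natDegree : ℝ) * s) (𝓝 0)
          (𝓝 ((f.natDegree : ℝ) * 0)) := (continuous_const.mul continuous_id).tendsto 0
      rw [mul_zero] at h2
      exact h2.mono_left nhdsWithin_le_nhds
    · filter_upwards [self_mem_nhdsWithin] with s hs
      exact mul_pos hd hs
  have h2 := h.comp h1
  refine h2.congr' ?_
  filter_upwards [self_mem_nhdsWithin] with s hs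
  have hs' : (0 : ℝ) < s := hs
  have h3 : (s : ℂ) + t * Complex.I ∈ HP := by
    show 0 < ((s : ℂ) + t * Complex.I).re
    simpa using hs'
  rw [hP.semi _ h3]
  show P _ = P _
  congr 1
  push_cast
  ring

end Lfr

/-- LFR: a ray whose image lands at `w` lands at a preimage of `w`. -/
theorem lfr (f : ℂ[X]) (P : ℂ → ℂ) (hf : 2 ≤ f.natDegree) (hP : Half f P) (t : ℝ) (w : ℂ)
    (h : Land P (f.natDegree * t) w) : ∃ z, f.eval z = w ∧ Land P t z := by
  have hE := Lfr.evalTendsto hf hP h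
  have hd : (0 : ℝ) < f.natDegree := by exact_mod_cast (by omega : 0 < f.natDegree)
  have hC : Cauchy (map (fun s : ℝ => P (s + t * Complex.I)) (𝓝[>] 0)) := by
    rw [Metric.cauchy_iff]
    refine ⟨inferInstance, fun ε hε => ?_⟩
    obtain ⟨η, hη, hnear⟩ := Sml.near hf (ε := ε / (4 * f.natDegree)) (by positivity)
    have h1 := hE.eventually (Metric.closedBall_mem_nhds w hη)
    obtain ⟨b, hb, hsub⟩ := mem_nhdsGT_iff_exists_Ioo_subset.1 h1
    have hS : IsPreconnected ((fun s : ℝ => P (s + t * Complex.I)) '' Set.Ioo 0 b) := by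
      refine isPreconnected_Ioo.image _ ?_
      refine hP.diff.continuousOn.comp (by fun_prop) ?_
      intro s hs
      show 0 < ((s : ℂ) + t * Complex.I).re
      simpa using hs.1
    have hcov : ∀ x ∈ (fun s : ℝ => P (s + t * Complex.I)) '' Set.Ioo 0 b,
        ∃ a ∈ (f - C w).roots.toFinset, ‖x - a‖ ≤ ε / (4 * f.natDegree) := by
      rintro _ ⟨s, hs, rfl⟩
      refine hnear w _ ?_
      have h2 : f.eval (P (s + t * Complex.I)) ∈ Metric.closedBall w η := hsub hs
      rwa [Metric.mem_closedBall, dist_eq_norm] at h2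
    refine ⟨(fun s : ℝ => P (s + t * Complex.I)) '' Set.Ioo 0 b,
      image_mem_map (Ioo_mem_nhdsGT hb), ?_⟩
    intro x hx y hy
    have h2 := Sml.diam_le hS _ (by positivity) hcov hx hy
    have h3 := Sml.card_le (f := f) w
    rw [dist_eq_norm]
    have h4 : (f.natDegree : ℝ) * (2 * (ε / (4 * f.natDegree))) = ε / 2 := by
      field_simp
      ring
    have h5 := mul_le_mul_of_nonneg_right h3
      (by positivity : (0 : ℝ) ≤ 2 * (ε / (4 * f.natDegree)))
    linarith
  obtain ⟨z, hz⟩ := cauchy_iff_exists_le_nhds.1 hC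
  refine ⟨z, ?_, hz⟩
  exact tendsto_nhds_unique ((f.continuous.tendsto z).comp hz) hE

end Pool.Agent.Imp
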