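import Pool.Agent.Lib.MP_1c105c_an.Defs18

/-! MP_1c105c_an: all lifts of a curve without critical values (LFT). -/

set_option autoImplicit false

open Filter Topology Set Polynomial

namespace Pool.Agent.Imp

namespace L64

/-- The roots of `f - y` at a regular value `y`: there are `natDegree f` of them. -/
theorem card_fiber {f : ℂ[X]} (hd : 2 ≤ f.natDegree) {y : ℂ}
    (hy : ∀ z, f.derivative.eval z = 0 → f.eval z ≠ y) :
    (f - C y).roots.toFinset.card = f.natDegree := by
  have hdeg : (f - C y).natDegree = f.natDegree := natDegree_sub_C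
  have hne : f - C y ≠ 0 := by
    intro h
    rw [h, natDegree_zero] at hdeg
    omega
  have hnd : (f - C y).roots.Nodup := by
    rw [Multiset.nodup_iff_count_le_one]
    intro a
    rw [count_roots]
    by_contra hcon
    push Not at hcon
    have h1 : (X - C a) ^ 2 ∣ f - C y :=
      (pow_dvd_pow _ hcon).trans (pow_rootMultiplicity_dvd _ _)
    obtain ⟨g, hg⟩ := h1
    have h2 : f.eval a = y := by
      have h3 := congrArg (eval a) hg
      simp only [eval_sub, eval_C, eval_mul, eval_pow, eval_X, sub_self] at h3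
      simpa [sub_eq_zero] using h3
    have h4 : f.derivative.eval a = 0 := by
      have h5 := congrArg (fun p => eval a (derivative p)) hg
      simp only [derivative_sub, derivative_C, sub_zero, derivative_mul, derivative_pow,
        eval_add, eval_mul, eval_pow, eval_sub, eval_X, eval_C, sub_self] at h5
      simpa using h5
    exact hy a h4 h2
  rw [Multiset.toFinset_card_of_nodup hnd, ← hdeg]
  exact (IsAlgClosed.splits (f - C y)).natDegree_eq_card_roots.symm

theorem mem_fiber {f : ℂ[X]} (hd : 2 ≤ f.natDegree) {y w : ℂ} :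
    w ∈ (f - C y).roots.toFinset ↔ f.eval w = y := by
  have hdeg : (f - C y).natDegree = f.natDegree := natDegree_sub_C
  have hne : f - C y ≠ 0 := by
    intro h
    rw [h, natDegree_zero] at hdeg
    omega
  rw [Multiset.mem_toFinset, mem_roots hne, IsRoot.def, eval_sub, eval_C, sub_eq_zero]

end L64

open L64 in
/-- LFT. -/
theorem lft : LftStatement := by
  intro f c hd hc hreg
  set S : Set ℂ := (f.eval '' {k | f.derivative.eval k = 0})ᶜ with hS
  have hcov : IsCoveringMap (S.restrictPreimage fun z => f.eval z) :=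
    (f.isCoveringMapOn_eval).isCoveringMap_restrictPreimage
  have hcS : ∀ x, c x ∈ S := by
    rintro x ⟨z, hz, hzx⟩
    exact hreg z hz x hzx
  have hregx : ∀ x z, f.derivative.eval z = 0 → f.eval z ≠ c x := fun x z hz => hreg z hz x
  let γ : C(ℝ, S) := ⟨fun x => ⟨c x, hcS x⟩, hc.subtype_mk hcS⟩
  have lift : ∀ w : ℂ, f.eval w = c 0 → ∃ F : C(ℝ, (fun z => f.eval z) ⁻¹' S),
      ((F 0 : (fun z => f.eval z) ⁻¹' S) : ℂ) = w ∧
      (S.restrictPreimage fun z => f.eval z) ∘ F = γ := by
    intro w hw
    have hwS : w ∈ (fun z => f.eval z) ⁻¹' S := by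
      show f.eval w ∈ S
      rw [hw]
      exact hcS 0
    obtain ⟨F, ⟨h1, h2⟩, -⟩ := hcov.existsUnique_continuousMap_lifts γ 0 ⟨w, hwS⟩
      (Subtype.ext hw)
    exact ⟨F, by rw [h1], h2⟩
  have e : Fin f.natDegree ≃ ((f - C (c 0)).roots.toFinset : Finset ℂ) :=
    (Finset.equivFinOfCardEq (card_fiber hd (hregx 0))).symm
  have he : ∀ j, f.eval ((e j : ℂ)) = c 0 := fun j => (mem_fiber hd).1 (e j).2
  choose F hF0 hF using fun j => lift (e j) (he j)
  have hev : ∀ j x, f.eval ((F j x : (fun z => f.eval z) ⁻¹' S) : ℂ) = c x := by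
    intro j x
    have h1 := congrFun (hF j) x
    exact congrArg Subtype.val h1
  have hinj : ∀ x, Function.Injective fun j => ((F j x : (fun z => f.eval z) ⁻¹' S) : ℂ) := by
    intro x i j hij
    have h1 : F i x = F j x := Subtype.ext hij
    have h2 : (F i : ℝ → _) = F j := hcov.eq_of_comp_eq (F i).continuous (F j).continuous
      ((hF i).trans (hF j).symm) x h1
    have h3 : ((e i : ℂ)) = e j := by
      rw [← hF0 i, ← hF0 j, h2]
    exact e.injective (Subtype.ext h3)
  refine ⟨fun j x => (F j x : (fun z => f.eval z) ⁻¹' S), fun j =>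
    continuous_subtype_val.comp (F j).continuous, hev, hinj, fun x w hw => ?_⟩
  have himg : Finset.univ.image (fun j => ((F j x : (fun z => f.eval z) ⁻¹' S) : ℂ)) =
      (f - C (c x)).roots.toFinset := by
    refine Finset.eq_of_subset_of_card_le ?_ ?_
    · intro z hz
      obtain ⟨j, -, rfl⟩ := Finset.mem_image.1 hz
      exact (mem_fiber hd).2 (hev j x)
    · rw [card_fiber hd (hregx x), Finset.card_image_of_injective _ (hinj x)]
      simp
  have hw' : w ∈ (f - C (c x)).roots.toFinset := (mem_fiber hd).2 hw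
  rw [← himg] at hw'
  obtain ⟨j, -, hj⟩ := Finset.mem_image.1 hw'
  exact ⟨j, hj.symm⟩

end Pool.Agent.Imp
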