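import Pool.Agent.Lib.MP_1c105c_an.Defs10
import Pool.Agent.Lib.MP_1c105c_an.Lift

/-! MP_1c105c_an: inverse branches in a piece without critical points (row LFT2). -/

set_option autoImplicit false

open Filter Topology Set Polynomial

namespace Pool.Agent.Imp

/-- A piece of a polynomial without critical points in it is a covering. -/
theorem covering_piece (F : ℂ[X]) (Δ : Set ℂ) (hF : 1 ≤ F.natDegree) (hΔ : IsOpen Δ)
    (hA : IsOpen {z | z ∉ Δ ∧ F.eval z ∈ Δ})
    (hcr : ∀ z ∈ Δ, F.eval z ∈ Δ → F.derivative.eval z ≠ 0) :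
    IsCoveringMap (fun z : {z : ℂ | z ∈ Δ ∧ F.eval z ∈ Δ} => (⟨F.eval z, z.2.2⟩ : Δ)) := by
  set E : Set ℂ := {z : ℂ | z ∈ Δ ∧ F.eval z ∈ Δ} with hE
  have hcF : Continuous (fun z : ℂ => F.eval z) := F.continuous
  have hEo : IsOpen E := hΔ.inter (hΔ.preimage hcF)
  set p : E → Δ := fun z => ⟨F.eval z, z.2.2⟩ with hp
  have hpc : Continuous p := by
    apply Continuous.subtype_mk
    exact hcF.comp continuous_subtype_val
  -- closed map
  have hst : E ⊆ (fun z : ℂ => F.eval z) ⁻¹' Δ := fun z hz => hz.2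
  have hcl : IsClosedMap p := by
    have h1 : IsClosedMap (Δ.restrictPreimage (fun z : ℂ => F.eval z)) :=
      IsClosedMap.restrictPreimage F.isClosedMap_eval Δ
    have h2 : Topology.IsClosedEmbedding (Set.inclusion hst) := by
      apply Topology.IsClosedEmbedding.inclusion
      rw [← isOpen_compl_iff]
      have : ((Subtype.val : ((fun z : ℂ => F.eval z) ⁻¹' Δ) → ℂ) ⁻¹' E)ᶜ =
          (Subtype.val : ((fun z : ℂ => F.eval z) ⁻¹' Δ) → ℂ) ⁻¹' {z | z ∉ Δ ∧ F.eval z ∈ Δ} := by
        ext z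
        simp only [mem_compl_iff, mem_preimage, hE, mem_ofPred_eq]
        constructor
        · intro h
          exact ⟨fun h3 => h ⟨h3, z.2⟩, z.2⟩
        · rintro ⟨h3, -⟩ ⟨h4, -⟩
          exact h3 h4
      rw [this]
      exact hA.preimage continuous_subtype_val
    exact h1.comp h2.isClosedMap
  -- local homeomorphism
  have hloc : IsLocalHomeomorph p := by
    have hv : IsLocalHomeomorph (Subtype.val : Δ → ℂ) := hΔ.isOpenEmbedding_subtypeVal.isLocalHomeomorph
    refine IsLocalHomeomorph.of_comp ?_ hv hpc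
    have h3 : IsLocalHomeomorphOn (fun z : ℂ => F.eval z) E := by
      intro z hz
      exact ⟨_, ((F.hasStrictDerivAt z).hasStrictFDerivAt_equiv
        (hcr z hz.1 hz.2)).mem_toOpenPartialHomeomorph_source, by simp⟩
    have h4 : IsLocalHomeomorph (Subtype.val : E → ℂ) := hEo.isOpenEmbedding_subtypeVal.isLocalHomeomorph
    have h5 : IsLocalHomeomorphOn ((fun z : ℂ => F.eval z) ∘ (Subtype.val : E → ℂ)) univ :=
      h3.comp h4.isLocalHomeomorphOn (fun z _ => z.2)
    exact isLocalHomeomorph_iff_isLocalHomeomorphOn_univ.mpr h5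
  rw [isCoveringMap_iff_isCoveringMapOn_univ]
  refine hcl.isCoveringMapOn_of_isLocalHomeomorphOn (fun x _ => ?_)
    (hloc.isLocalHomeomorphOn.mono (subset_univ _))
  have hfin : ((fun z : ℂ => F.eval z) ⁻¹' {(x : ℂ)}).Finite := by
    have hne : F ≠ C (x : ℂ) := by
      rintro rfl
      simp at hF
    simpa only [preimage_eval_singleton hne] using rootSet_finite ..
  apply Set.Finite.of_finite_image (f := (Subtype.val : E → ℂ)) _ Subtype.val_injective.injOn
  apply hfin.subset
  rintro _ ⟨z, hz, rfl⟩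
  have : p z = x := hz
  change F.eval (z : ℂ) = x
  rw [← this]

theorem lft2 : Lft2Statement := by
  intro F Δ hF hΔ hA hcr b ρ hb z₀ hz₀ w hw hFw
  have hconv : Convex ℝ (Metric.ball b ρ) := convex_ball b ρ
  have : ContractibleSpace (Metric.ball b ρ) := hconv.contractibleSpace ⟨z₀, hz₀⟩
  have : LocallyPathConnectedSpace (Metric.ball b ρ) := hconv.locallyPathConnectedSpace
  have cov := covering_piece F Δ hF hΔ hA hcr
  let G : C(Metric.ball b ρ, Δ) := ⟨fun z => ⟨z, hb z.2⟩, by fun_prop⟩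
  obtain ⟨L, ⟨hL0, hL⟩, -⟩ := cov.existsUnique_continuousMap_lifts G ⟨z₀, hz₀⟩
    ⟨w, hw, by rw [hFw]; exact hb hz₀⟩ (Subtype.ext hFw)
  classical
  let h : ℂ → ℂ := fun z => if hz : z ∈ Metric.ball b ρ then L ⟨z, hz⟩ else 0
  have hh : ∀ (z : ℂ) (hz : z ∈ Metric.ball b ρ), h z = L ⟨z, hz⟩ := fun z hz => dif_pos hz
  have hcont : ContinuousOn h (Metric.ball b ρ) := by
    rw [continuousOn_iff_continuous_domRestrict]
    have : (Metric.ball b ρ).domRestrict h = fun z => (L z : ℂ) := by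
      ext ⟨z, hz⟩
      exact hh z hz
    rw [this]
    exact continuous_subtype_val.comp L.continuous
  have heq : ∀ z ∈ Metric.ball b ρ, F.eval (h z) = z := by
    intro z hz
    rw [hh z hz]
    have := congrFun hL ⟨z, hz⟩
    exact congrArg Subtype.val this
  have hmem : ∀ z ∈ Metric.ball b ρ, h z ∈ Δ := by
    intro z hz
    rw [hh z hz]
    exact (L ⟨z, hz⟩).2.1
  refine ⟨h, ?_, fun z hz => ⟨hmem z hz, heq z hz⟩, ?_⟩
  · intro z hz
    have hn : Metric.ball b ρ ∈ 𝓝 z := Metric.isOpen_ball.mem_nhds hz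
    refine (differentiableAt_lift (g := id) (hcont.continuousAt hn) differentiableAt_id
      (Filter.eventually_of_mem hn heq) ?_).differentiableWithinAt
    refine hcr _ (hmem z hz) ?_
    rw [heq z hz]
    exact hb hz
  · rw [hh z₀ hz₀, hL0]

end Pool.Agent.Imp
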