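import Pool.Agent.Lib.MP_1c105c_an.Defs2
import Pool.Agent.Lib.MP_1c105c_an.Half

/-! MP_1c105c_an, row MAIN2: the second target from the rows. -/

set_option autoImplicit false

open Filter Topology Set Polynomial

namespace Pool.Agent.Imp

namespace Main2

/-- The exterior of the unit disc accumulates at every point of the unit circle. -/
theorem neBot (θ : ℝ) :
    (𝓝[{w : ℂ | 1 < ‖w‖}] Complex.exp (2 * Real.pi * θ * Complex.I)).NeBot := by
  rw [← mem_closure_iff_nhdsWithin_neBot, Metric.mem_closure_iff]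
  intro ε hε
  have hn : ‖Complex.exp (2 * Real.pi * θ * Complex.I)‖ = 1 := by
    rw [Complex.norm_exp]
    simp
  refine ⟨((1 + ε / 2 : ℝ) : ℂ) * Complex.exp (2 * Real.pi * θ * Complex.I), ?_, ?_⟩
  · show 1 < ‖((1 + ε / 2 : ℝ) : ℂ) * Complex.exp (2 * Real.pi * θ * Complex.I)‖
    rw [norm_mul, hn, mul_one, Complex.norm_real, Real.norm_of_nonneg (by positivity)]
    linarith
  · rw [dist_eq_norm]
    have h : Complex.exp (2 * Real.pi * θ * Complex.I) -
        ((1 + ε / 2 : ℝ) : ℂ) * Complex.exp (2 * Real.pi * θ * Complex.I) =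
        ((-(ε / 2) : ℝ) : ℂ) * Complex.exp (2 * Real.pi * θ * Complex.I) := by
      push_cast
      ring
    rw [h, norm_mul, hn, mul_one, Complex.norm_real, norm_neg, Real.norm_of_nonneg (by positivity)]
    linarith

/-- The limit of `ψ` at a point of the circle is the limit of the half plane model. -/
theorem lim_iff (ψ : ℂ → ℂ) (θ : ℝ) (z : ℂ) :
    Tendsto ψ (𝓝[{w : ℂ | 1 < ‖w‖}] Complex.exp (2 * Real.pi * θ * Complex.I)) (𝓝 z) ↔
      HasLim (fun u => ψ (Complex.exp (2 * Real.pi * u))) θ z := by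
  have h := HalfRow.map_within ((θ : ℂ) * Complex.I)
  have h1 : HalfRow.E ((θ : ℂ) * Complex.I) = Complex.exp (2 * Real.pi * θ * Complex.I) := by
    unfold HalfRow.E
    congr 1
    ring
  rw [h1] at h
  have h2 : (𝓝[{w : ℂ | 1 < ‖w‖}] Complex.exp (2 * Real.pi * θ * Complex.I)) =
      map HalfRow.E (𝓝[HP] ((θ : ℂ) * Complex.I)) := h.symm
  rw [h2, tendsto_map'_iff]
  rfl

/-- A set of dimension less than one is null. -/
theorem null_of_dimH {S : Set ℝ} (h : dimH S < 1) : MeasureTheory.volume S = 0 := by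
  have h1 := hausdorffMeasure_of_dimH_lt (s := S) (d := 1) (by simpa using h)
  rw [← MeasureTheory.hausdorffMeasure_real]
  simpa using h1

end Main2

open Main2 in
theorem main2 (half : HalfStatement) (baire : BaireStatement) (exc : ExcStatement)
    (inf : InfStatement) (jul : JulStatement) (loc : LocStatement) (abs2 : Abs2Statement)
    (den : DenStatement) (dim : DimStatement) (tar : Target) : Target2 := by
  intro f ψ hd hψ h
  obtain ⟨hH, hT, hR⟩ := half f ψ hd hψ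
  set P : ℂ → ℂ := fun u => ψ (Complex.exp (2 * Real.pi * u)) with hP
  have hlim : ∃ (t : ℝ) (z : ℂ), HasLim P t z := by
    rcases h with h | ⟨θ, hθ⟩
    · exact baire P hH.diff.continuousOn (fun t => hR t (h t))
    · obtain ⟨z, hz⟩ := (hT θ).1 hθ
      exact ⟨θ, z, hz⟩
  have hlimiff : ∀ (θ : ℝ) (z : ℂ),
      Tendsto ψ (𝓝[{w : ℂ | 1 < ‖w‖}] Complex.exp (2 * Real.pi * θ * Complex.I)) (𝓝 z) ↔
        HasLim P θ z := fun θ z => lim_iff ψ θ z
  obtain ⟨hKc, -, -, -, hJ5⟩ := jul f P hd hH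
  have hJK : julia f ⊆ filledJulia f := hKc.frontier_subset
  -- two points in the filled Julia set
  have htwo : ∃ x₀ ∈ filledJulia f, ∃ x₁ ∈ filledJulia f, x₀ ≠ x₁ := by
    obtain ⟨t, z, hz, -⟩ := exc f P hd hH hlim ∅
    obtain ⟨t', z', hz', hne⟩ := exc f P hd hH hlim {z}
    refine ⟨z, hJK (hJ5 t z hz), z', hJK (hJ5 t' z' hz'), fun he => hne ?_⟩
    rw [he]
    exact Finset.mem_singleton_self _
  have hden := den f ψ hd hψ htwo
  -- the first target: the angles with trivial impression have full measure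
  obtain ⟨-, hdim1⟩ := tar f ψ hd hψ h
  have hfull : MeasureTheory.volume ({θ : ℝ | TrivialImpression ψ θ}ᶜ) = 0 := null_of_dimH hdim1
  have hdens : ∀ O : Set ℂ, IsOpen O → (O ∩ julia f).Nonempty →
      ∃ (t : ℝ) (z : ℂ), HasLim P t z ∧ z ∈ O := by
    intro O hO hne
    obtain ⟨θ, -, z, hzO, hz⟩ := hden _ (fun θ hθ => hθ) hfull O hO hne
    exact ⟨θ, z, (hlimiff θ z).1 hz, hzO⟩
  obtain ⟨α, β, W, h0α, hαβ, hβ1, hW0, hW1, hWc, hB⟩ :=
    abs2 f P hd hH (inf f ψ hψ) hlim hdens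
  obtain ⟨hopen, hper, hmono, hend⟩ := loc f P hd hH
  have hdimL : dimH {t : ℝ | ∃ δ : ℝ, 0 < δ ∧ t ∉ (fun δ => {t : ℝ | Loc f P δ t}) δ} < 1 :=
    dim f.natDegree α β W (fun δ => {t | Loc f P δ t}) hd h0α hαβ hβ1 hW0 hW1 hWc
      (fun δ δ' hδ t ht => hmono δ δ' t hδ ht) (fun δ t => hper δ t) (fun δ hδ => hB δ hδ)
  have hgood : ∀ t : ℝ, (∀ δ : ℝ, 0 < δ → Loc f P δ t) →
      ∃ z, Tendsto ψ (𝓝[{w : ℂ | 1 < ‖w‖}] Complex.exp (2 * Real.pi * t * Complex.I)) (𝓝 z) ∧
        CikAt (julia f) z := by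
    intro t ht
    obtain ⟨z, hz, hc⟩ := hend t ht
    exact ⟨z, (hlimiff t z).2 hz, hc⟩
  have hdim2 : dimH {θ : ℝ | ¬ ∃ z,
      Tendsto ψ (𝓝[{w : ℂ | 1 < ‖w‖}] Complex.exp (2 * Real.pi * θ * Complex.I)) (𝓝 z) ∧
        CikAt (julia f) z} < 1 := by
    refine lt_of_le_of_lt (dimH_mono ?_) hdimL
    intro θ hθ
    by_contra hcon
    refine hθ (hgood θ fun δ hδ => ?_)
    by_contra hL
    exact hcon ⟨δ, hδ, hL⟩
  refine ⟨?_, hdim2, ?_⟩
  · -- residual
    have hres : ∀ n : ℕ, {t : ℝ | Loc f P (1 / ((n : ℝ) + 1)) t} ∈ residual ℝ := by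
      intro n
      have hpos : (0 : ℝ) < 1 / ((n : ℝ) + 1) := by positivity
      refine residual_of_dense_open (hopen _) ?_
      -- a set whose complement is null is dense
      have hnull : MeasureTheory.volume ({t : ℝ | Loc f P (1 / ((n : ℝ) + 1)) t}ᶜ) = 0 := by
        refine null_of_dimH (lt_of_le_of_lt (dimH_mono ?_) hdimL)
        intro t ht
        exact ⟨_, hpos, ht⟩
      exact MeasureTheory.Measure.dense_of_ae (μ := MeasureTheory.volume)
        (MeasureTheory.mem_ae_iff.2 hnull)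
    have hall : (⋂ n : ℕ, {t : ℝ | Loc f P (1 / ((n : ℝ) + 1)) t}) ∈ residual ℝ :=
      countable_iInter_mem.2 hres
    refine mem_of_superset hall fun t ht => hgood t fun δ hδ => ?_
    obtain ⟨n, hn⟩ := exists_nat_one_div_lt hδ
    exact hmono _ _ t hn.le (Set.mem_iInter.1 ht n)
  · -- density
    intro x hx
    rw [mem_closure_iff]
    intro O hO hxO
    obtain ⟨θ, ⟨z', hz', hc⟩, z, hzO, hz⟩ := hden
      {θ : ℝ | ∃ z, Tendsto ψ (𝓝[{w : ℂ | 1 < ‖w‖}]
        Complex.exp (2 * Real.pi * θ * Complex.I)) (𝓝 z) ∧ CikAt (julia f) z}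
      (fun θ hθ => by
        obtain ⟨z, hz, -⟩ := hθ
        exact ⟨z, hz⟩)
      (null_of_dimH hdim2) O hO ⟨x, hxO, hx⟩
    have he : z = z' := by
      have := neBot θ
      exact tendsto_nhds_unique hz hz'
    exact ⟨z, hzO, by rw [he]; exact hc⟩

end Pool.Agent.Imp
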