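import Pool.Agent.Lib.MP_1c105c_an.Rgw
import Pool.Agent.Lib.MP_1c105c_an.Defs3
import Pool.Agent.Lib.MP_1c105c_an.Uco
import Pool.Agent.Lib.MP_1c105c_an.Nbr
import Pool.Agent.Lib.MP_1c105c_an.Cri
import Pool.Agent.Lib.MP_1c105c_an.Inf
import Pool.Agent.Lib.MP_1c105c_an.Main2
import Pool.Agent.Lib.MP_1c105c_an.Loc

/-! MP_1c105c_an: if the impression of a limit angle of the orbit of an angle lies in a simply
connected open set without points of the critical orbits, the impression of the angle is a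
point. -/

set_option autoImplicit false

open Filter Topology Set Polynomial

namespace Pool.Agent.Imp

open Rgw83 in
/-- All branches are univalent on a simply connected open set without points of the critical
orbits. -/
theorem lim_branch {f : ℂ[X]} {P : ℂ → ℂ} (hd : 2 ≤ f.natDegree) (hP : Half f P) {V : Set ℂ}
    (hV : IsOpen V) (hsc : SimplyConnectedSpace V)
    (hpc : ∀ (c : ℂ) (n : ℕ), f.derivative.eval c = 0 → (fun w => f.eval w)^[n + 1] c ∉ V)
    {η α β : ℝ} (hη : 0 < η) (hαβ : α < β) (hmaps : ∀ u ∈ Rect η α β, P u ∈ V) (n j : ℕ)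
    (hj : j < f.natDegree ^ n) : ∃ g, UnivV f P V (Rect η α β) n j g := by
  have hpc' : PathConnectedSpace V := inferInstance
  have hpre : IsPreconnected V := isPreconnected_iff_preconnectedSpace.mpr inferInstance
  have hB : Dat f P V (Rect η α β) :=
    { op := hV
      pc := hpre
      ne := rect_nonempty hη hαβ
      pre := rect_preconnected η α β
      sub := fun hu => hu.1
      maps := hmaps
      crit := fun c hc => by simpa using hpc c 0 hc }
  have hW : ∀ (k i : ℕ), i ∉ WV f P V (Rect η α β) k := by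
    intro k i hi
    obtain ⟨-, g, hg, c, hc, z, hz, h⟩ := mem_WV.mp hi
    refine hpc c k hc ?_
    rw [Function.iterate_succ_apply]
    show (fun w => f.eval w)^[k] (f.eval c) ∈ _
    rw [← h, hg.2.1 z hz]
    exact hz
  suffices h : ∀ n j : ℕ, j < f.natDegree ^ n → j ∈ RV f P V (Rect η α β) n from
    (mem_RV.mp (h n j hj)).2
  intro n
  induction n with
  | zero =>
    intro j hj
    have : j = 0 := by simpa using hj
    rw [this]
    exact zero_mem_RV
  | succ n ih =>
    intro j hj
    have hD : 0 < f.natDegree ^ n := by positivity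
    have h1 := child hd hP hB hsc (ih (j % f.natDegree ^ n) (Nat.mod_lt _ hD)) (hW n _)
      (a := j / f.natDegree ^ n) (by
        rw [Nat.div_lt_iff_lt_mul hD, mul_comm, ← pow_succ]
        exact hj)
    rwa [Nat.mod_add_div' ] at h1

/-- The impression of an angle at which `ψ` has a limit. -/
theorem impression_of_lim {ψ : ℂ → ℂ} {θ : ℝ} {z : ℂ}
    (hz : Tendsto ψ (𝓝[{w : ℂ | 1 < ‖w‖}] Complex.exp (2 * Real.pi * θ * Complex.I)) (𝓝 z)) :
    impression ψ θ = {z} := by
  have _ := Main2.neBot θ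
  refine Set.eq_singleton_iff_unique_mem.2 ⟨hz.mapClusterPt, fun w hw => ?_⟩
  have h1 : ClusterPt w (map ψ (𝓝[{w : ℂ | 1 < ‖w‖}]
      Complex.exp (2 * Real.pi * θ * Complex.I))) := hw
  have h2 : ClusterPt w (𝓝 z) := h1.mono hz
  rw [ClusterPt] at h2
  exact eq_of_nhds_neBot h2

/-- LIM: if the impression of a limit angle `θ'` of the orbit of `θ` lies in a simply connected
open set without points of the critical orbits, the impression of `θ` is a point. -/
theorem lim {f : ℂ[X]} {ψ : ℂ → ℂ} (hd : 2 ≤ f.natDegree) (hψ : IsInverseBoettcher f ψ)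
    {θ θ' : ℝ} {V : Set ℂ}
    (hθ : ∀ ε : ℝ, 0 < ε → ∀ N : ℕ, ∃ (n : ℕ) (m : ℤ), N ≤ n ∧
      |(f.natDegree : ℝ) ^ n * θ + m - θ'| < ε)
    (hV : IsOpen V) (hsc : SimplyConnectedSpace V) (hsub : impression ψ θ' ⊆ V)
    (hpc : ∀ (c : ℂ) (n : ℕ), f.derivative.eval c = 0 → (fun w => f.eval w)^[n + 1] c ∉ V) :
    ∃ z, impression ψ θ = {z} := by
  obtain ⟨hP, -, -⟩ := half f ψ hd hψ
  obtain ⟨η, α, β, hη, hα, hβ, hcpt, hQV⟩ := nbr' f ψ hd hψ θ' V hV hsub
  have hinf := inf f ψ hψ
  set P : ℂ → ℂ := fun u => ψ (Complex.exp (2 * Real.pi * u)) with hPdef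
  have hRH : Rect η α β ⊆ HP := fun u hu => hu.1
  have hpre : IsPreconnected (closure (P '' Rect η α β)) :=
    ((Cri.convex_rect η α β).isPreconnected.image P (hP.diff.continuousOn.mono hRH)).closure
  have hdis : Disjoint (closure (P '' Rect η α β)) (interior (filledJulia f)) := by
    rw [Set.disjoint_left]
    intro z hz hzi
    have h1 : closure (P '' Rect η α β) ⊆ closure (filledJulia f)ᶜ := by
      refine closure_mono ?_
      rw [← hP.range]
      exact image_mono hRH
    have h2 := h1 hz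
    rw [closure_compl] at h2
    exact h2 hzi
  have hosc : ∀ δ : ℝ, 0 < δ → Osc P δ θ := by
    intro δ hδ
    obtain ⟨N, hN⟩ := uco f P hd hP hinf V (closure (P '' Rect η α β)) hV hcpt hpre hQV hdis δ hδ
    obtain ⟨n, M, hnN, hnM⟩ := hθ (min (θ' - α) (β - θ'))
      (lt_min (by linarith) (by linarith)) N
    have h12 := abs_lt.1 (hnM.trans_le (min_le_left _ _))
    have h34 := abs_lt.1 (hnM.trans_le (min_le_right _ _))
    have h1 : α < (f.natDegree : ℝ) ^ n * θ + M := by linarith [h12.1]
    have h2 : (f.natDegree : ℝ) ^ n * θ + M < β := by linarith [h34.2]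
    set D : ℤ := (f.natDegree : ℤ) ^ n with hD
    have hDpos : 0 < D := by
      rw [hD]
      have : (0 : ℤ) < f.natDegree := by exact_mod_cast (by omega : 0 < f.natDegree)
      positivity
    have hj0 : 0 ≤ (-M) % D := Int.emod_nonneg _ hDpos.ne'
    have hjD : (-M) % D < D := Int.emod_lt_of_pos _ hDpos
    obtain ⟨j, hj⟩ : ∃ j : ℕ, (j : ℤ) = (-M) % D := ⟨((-M) % D).toNat, Int.toNat_of_nonneg hj0⟩
    have hjlt : j < f.natDegree ^ n := by
      have : (j : ℤ) < D := by rw [hj]; exact hjD
      rw [hD] at this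
      exact_mod_cast this
    obtain ⟨g, hg1, hg2, hg3⟩ := lim_branch hd hP hV hsc hpc hη (hα.trans hβ)
      (fun u hu => hQV (subset_closure ⟨u, hu, rfl⟩)) n j hjlt
    have hd0 : (0 : ℝ) < (f.natDegree : ℝ) ^ n := by
      have : (0 : ℝ) < (f.natDegree : ℝ) := by
        have : 0 < f.natDegree := by omega
        exact_mod_cast this
      positivity
    have hdc : ((f.natDegree : ℂ) ^ n) ≠ 0 := by
      have h1 : (((f.natDegree : ℝ) ^ n : ℝ) : ℂ) ≠ 0 := Complex.ofReal_ne_zero.2 hd0.ne'
      push_cast at h1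
      exact h1
    -- `M + j` is a multiple of `D`
    have h3 : D * ((-M) / D) + (-M) % D = -M := Int.mul_ediv_add_emod _ _
    set q : ℤ := (-M) / D with hq
    have h4 : (M : ℂ) = -(j : ℂ) - (f.natDegree : ℂ) ^ n * q := by
      rw [← hj] at h3
      have h5 : (D : ℂ) * (q : ℂ) + (j : ℂ) = -(M : ℂ) := by exact_mod_cast h3
      have h6 : (D : ℂ) = (f.natDegree : ℂ) ^ n := by
        rw [hD]
        push_cast
        ring
      rw [h6] at h5
      linear_combination h5
    let G : ℂ → ℂ := fun u => (f.natDegree : ℂ) ^ n * u + M * Complex.I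
    have hG : Continuous G := by fun_prop
    have hS : IsOpen {w : ℂ | w.re < η ∧ α < w.im ∧ w.im < β} :=
      (isOpen_lt Complex.continuous_re continuous_const).inter
        ((isOpen_lt continuous_const Complex.continuous_im).inter
          (isOpen_lt Complex.continuous_im continuous_const))
    have hre : ∀ u : ℂ, (G u).re = (f.natDegree : ℝ) ^ n * u.re := by
      intro u
      have h1 : (f.natDegree : ℂ) ^ n = (((f.natDegree : ℝ) ^ n : ℝ) : ℂ) := by push_cast; rfl
      show ((f.natDegree : ℂ) ^ n * u + M * Complex.I).re = _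
      rw [h1, Complex.add_re, Complex.re_ofReal_mul]
      simp
    have hshift : ∀ (k : ℤ) (u : ℂ), P (u + k * Complex.I) = P u := by
      intro k
      induction k using Int.induction_on with
      | zero => intro u; simp
      | succ k ih =>
        intro u
        have h1 : u + ((k + 1 : ℤ) : ℂ) * Complex.I = (u + (k : ℤ) * Complex.I) + Complex.I := by
          push_cast; ring
        rw [h1, hP.per, ih]
      | pred k ih =>
        intro u
        have h1 : (u + ((-k - 1 : ℤ) : ℂ) * Complex.I) + Complex.I =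
            u + ((-k : ℤ) : ℂ) * Complex.I := by
          push_cast; ring
        rw [← hP.per, h1, ih]
    have hinv : ∀ u : ℂ, P ((G u + j * Complex.I) / (f.natDegree : ℂ) ^ n) = P u := by
      intro u
      have h5 : (G u + j * Complex.I) / (f.natDegree : ℂ) ^ n = u + ((-q : ℤ) : ℂ) * Complex.I := by
        rw [div_eq_iff hdc]
        show (f.natDegree : ℂ) ^ n * u + M * Complex.I + j * Complex.I = _
        rw [h4]
        push_cast
        ring
      rw [h5, hshift]
    refine ⟨G ⁻¹' {w : ℂ | w.re < η ∧ α < w.im ∧ w.im < β}, (hS.preimage hG).mem_nhds ?_, ?_⟩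
    · have h5 : G (θ * Complex.I) = (((f.natDegree : ℝ) ^ n * θ + M : ℝ) : ℂ) * Complex.I := by
        show (f.natDegree : ℂ) ^ n * (θ * Complex.I) + M * Complex.I = _
        push_cast
        ring
      show G _ ∈ {w : ℂ | w.re < η ∧ α < w.im ∧ w.im < β}
      rw [h5]
      refine ⟨?_, ?_, ?_⟩
      · rw [Complex.re_ofReal_mul]
        simpa using hη
      · rw [Complex.im_ofReal_mul]
        simpa using h1
      · rw [Complex.im_ofReal_mul]
        simpa using h2
    · rintro u ⟨hu, hu0⟩ v ⟨hv, hv0⟩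
      have hmem : ∀ w : ℂ, w ∈ G ⁻¹' {w : ℂ | w.re < η ∧ α < w.im ∧ w.im < β} → w ∈ HP →
          G w ∈ Rect η α β := by
        intro w hw hw0
        refine ⟨?_, hw.1, hw.2.1, hw.2.2⟩
        rw [hre]
        exact mul_pos hd0 hw0
      have h5 := hN n hnN g hg1 hg2 (P (G u)) (subset_closure ⟨G u, hmem u hu hu0, rfl⟩)
        (P (G v)) (subset_closure ⟨G v, hmem v hv hv0, rfl⟩)
      rw [hg3 _ (hmem u hu hu0), hg3 _ (hmem v hv hv0), hinv, hinv] at h5
      exact h5
  -- the limit
  obtain ⟨z, hz⟩ : ∃ z, HasLim P θ z := by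
    have _ := LocA.neBot θ
    have hca : Cauchy (map P (𝓝[HP] ((θ : ℂ) * Complex.I))) := by
      rw [Metric.cauchy_iff]
      refine ⟨inferInstance, fun ε hε => ?_⟩
      obtain ⟨N, hN, hNu⟩ := hosc (ε / 2) (by linarith)
      refine ⟨P '' (N ∩ HP), ?_, ?_⟩
      · rw [mem_map]
        filter_upwards [inter_mem_nhdsWithin HP hN] with u hu
        exact ⟨u, ⟨hu.2, hu.1⟩, rfl⟩
      · rintro _ ⟨u, hu, rfl⟩ _ ⟨v, hv, rfl⟩
        rw [dist_eq_norm]
        have := hNu u hu v hv
        linarith
    obtain ⟨z, hz⟩ := CompleteSpace.complete hca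
    exact ⟨z, hz⟩
  exact ⟨z, impression_of_lim ((Main2.lim_iff ψ θ z).2 hz)⟩

/-- The good angles: the impression is a point at which `J` is connected im kleinen. -/
theorem good_sub {f : ℂ[X]} {ψ : ℂ → ℂ} :
    goodAngles f ψ ⊆ {θ : ℝ | ∃ z, impression ψ θ = {z} ∧ CikAt (julia f) z} :=
  fun _ ⟨z, hz, hc⟩ => ⟨z, impression_of_lim hz, hc⟩

end Pool.Agent.Imp
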