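import Pool.Agent.Lib.MP_1c105c_an.Defs7

/-! MP_1c105c_an: row LIV. -/

set_option autoImplicit false

open Filter Topology Set Polynomial

namespace Pool.Agent.Imp

/-- Row LIV. -/
theorem liv : LivStatement := by
  intro f V g hV hsc hg hcv z₀ hz₀ w hw
  have : LocallyPathConnectedSpace V := hV.locallyPathConnectedSpace
  have cov := f.isCoveringMapOn_eval
  let G : C(V, ℂ) := ⟨fun z => g z, hg.continuousOn.domRestrict⟩
  obtain ⟨F, ⟨hF0, hF⟩, -⟩ := cov.existsUnique_continuousMap_lifts (A := V) G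
    (a₀ := ⟨z₀, hz₀⟩) (e₀ := w) hw (by
      intro a
      rintro ⟨c, hc, hca⟩
      exact hcv a a.2 c hc hca)
  classical
  let h : ℂ → ℂ := fun z => if hz : z ∈ V then F ⟨z, hz⟩ else 0
  have hh : ∀ (z : ℂ) (hz : z ∈ V), h z = F ⟨z, hz⟩ := fun z hz => dif_pos hz
  have hcont : ContinuousOn h V := by
    rw [continuousOn_iff_continuous_domRestrict]
    have : V.domRestrict h = F := by
      ext ⟨z, hz⟩
      exact hh z hz
    rw [this]
    exact F.continuous
  have heq : ∀ z ∈ V, f.eval (h z) = g z := by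
    intro z hz
    rw [hh z hz]
    exact congrFun hF ⟨z, hz⟩
  refine ⟨h, ?_, heq, ?_⟩
  · intro z hz
    have hn : V ∈ 𝓝 z := hV.mem_nhds hz
    refine (differentiableAt_lift (hcont.continuousAt hn) ((hg z hz).differentiableAt hn)
      (Filter.eventually_of_mem hn heq) ?_).differentiableWithinAt
    intro h0
    exact hcv z hz _ h0 (heq z hz)
  · rw [hh z₀ hz₀]
    exact hF0

end Pool.Agent.Imp
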