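import Pool.Agent.Lib.MP_1c105c_an.Defs4
import Pool.Agent.Lib.MP_1c105c_an.Sml

/-! MP_1c105c_an, row LPB: rays are pulled back by the polynomial. -/

set_option autoImplicit false

open Filter Topology Set Polynomial

namespace Pool.Agent.Imp

namespace Lpb

/-- A path whose image under `f` has a limit has a limit. -/
theorem path_lim {f : ℂ[X]} (hf : 2 ≤ f.natDegree) (z : ℂ) (γ : ℝ → ℂ)
    (hc : ContinuousOn γ (Set.Ioi 0))
    (h : Tendsto (fun s => f.eval (γ s)) (𝓝[>] 0) (𝓝 z)) :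
    ∃ a, f.eval a = z ∧ Tendsto γ (𝓝[>] 0) (𝓝 a) := by
  have key : ∀ ε : ℝ, 0 < ε → ∃ r : ℝ, 0 < r ∧ ∀ s ∈ Set.Ioo 0 r,
      ∃ a, f.eval a = z ∧ a ∈ (f - C z).roots.toFinset ∧ ‖γ s - a‖ < ε := by
    intro ε hε
    obtain ⟨η, hη, hnear⟩ := Inv.near_root hf z hε
    have h3 := h.eventually (Metric.ball_mem_nhds z hη)
    obtain ⟨r, hr, hr2⟩ := (mem_nhdsGT_iff_exists_Ioo_subset).1 h3
    refine ⟨r, hr, fun s hs => hnear _ ?_⟩
    have := hr2 hs
    change dist (f.eval (γ s)) z < η at this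
    rwa [dist_eq_norm] at this
  obtain ⟨ε, hε, hsep⟩ := Inv.sep (f - C z).roots.toFinset
  obtain ⟨r, hr, hr2⟩ := key ε hε
  have hs₀ : r / 2 ∈ Set.Ioo 0 r := ⟨by linarith, by linarith⟩
  obtain ⟨a, ha1, ha2, ha3⟩ := hr2 _ hs₀
  have hconn : IsPreconnected (γ '' Set.Ioo 0 r) :=
    isPreconnected_Ioo.image γ (hc.mono fun s hs => hs.1)
  have hsub : γ '' Set.Ioo 0 r ⊆ Metric.ball a ε := by
    refine IsPreconnected.subset_left_of_subset_union Metric.isOpen_ball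
      (v := ⋃ b ∈ {b | b ∈ (f - C z).roots.toFinset ∧ b ≠ a}, Metric.ball b ε)
      (isOpen_biUnion fun _ _ => Metric.isOpen_ball) ?_ ?_ ?_ hconn
    · rw [Set.disjoint_left]
      intro w hw hw2
      simp only [mem_iUnion] at hw2
      obtain ⟨b, ⟨hb1, hb2⟩, hwb⟩ := hw2
      have := hsep a ha2 b hb1 hb2.symm
      rw [Metric.mem_ball, dist_eq_norm] at hw hwb
      have h4 : ‖a - b‖ ≤ ‖w - a‖ + ‖w - b‖ := by
        calc ‖a - b‖ = ‖(w - b) - (w - a)‖ := by ring_nf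
          _ ≤ ‖w - b‖ + ‖w - a‖ := norm_sub_le _ _
          _ = _ := add_comm _ _
      linarith
    · rintro _ ⟨u, hu, rfl⟩
      obtain ⟨b, -, hb2, hb3⟩ := hr2 u hu
      by_cases hba : b = a
      · left
        rw [Metric.mem_ball, dist_eq_norm, ← hba]
        exact hb3
      · right
        simp only [mem_iUnion]
        exact ⟨b, ⟨hb2, hba⟩, by rw [Metric.mem_ball, dist_eq_norm]; exact hb3⟩
    · exact ⟨γ (r / 2), ⟨r / 2, hs₀, rfl⟩, by rw [Metric.mem_ball, dist_eq_norm]; exact ha3⟩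
  refine ⟨a, ha1, ?_⟩
  rw [Metric.tendsto_nhds]
  intro ε' hε'
  obtain ⟨r', hr', hr2'⟩ := key (min ε ε') (lt_min hε hε')
  filter_upwards [Ioo_mem_nhdsGT (lt_min hr hr')] with s hs
  have hu1 : s ∈ Set.Ioo 0 r := ⟨hs.1, hs.2.trans_le (min_le_left _ _)⟩
  have hu2 : s ∈ Set.Ioo 0 r' := ⟨hs.1, hs.2.trans_le (min_le_right _ _)⟩
  obtain ⟨b, -, hb2, hb3⟩ := hr2' s hu2
  have h5 : ‖γ s - a‖ < ε := by
    have := hsub ⟨s, hu1, rfl⟩
    rwa [Metric.mem_ball, dist_eq_norm] at this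
  have hba : b = a := by
    by_contra hba
    have := hsep a ha2 b hb2 (Ne.symm hba)
    have h4 : ‖a - b‖ ≤ ‖γ s - a‖ + ‖γ s - b‖ := by
      calc ‖a - b‖ = ‖(γ s - b) - (γ s - a)‖ := by ring_nf
        _ ≤ ‖γ s - b‖ + ‖γ s - a‖ := norm_sub_le _ _
        _ = _ := add_comm _ _
    have h6 := hb3.trans_le (min_le_left ε ε')
    linarith
  rw [dist_eq_norm, ← hba]
  exact hb3.trans_le (min_le_right _ _)

theorem per_int {P : ℂ → ℂ} (h : ∀ u, P (u + Complex.I) = P u) (m : ℤ) (u : ℂ) :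
    P (u + m * Complex.I) = P u :=
  (show Function.Periodic P Complex.I from h).int_mul m u

theorem eval_mem {f : ℂ[X]} {v : ℂ} (hv : v ∈ filledJulia f) : f.eval v ∈ filledJulia f := by
  obtain ⟨R, hR⟩ := hv
  exact ⟨R, fun n => hR (n + 1)⟩

theorem mem_HP {s t : ℝ} (hs : 0 < s) : (s : ℂ) + t * Complex.I ∈ HP := by
  show 0 < ((s : ℂ) + t * Complex.I).re
  simpa using hs

/-- The points of `f ⁻¹ (P u)`. -/
theorem pre {f : ℂ[X]} {P : ℂ → ℂ} (hf : 2 ≤ f.natDegree) (hP : Half f P) {σ t : ℝ} (hσ : 0 < σ)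
    {v : ℂ} (hv : f.eval v = P ((f.natDegree * σ : ℝ) + t * Complex.I)) :
    ∃ j : Fin f.natDegree, v = P (σ + ((t + (j : ℕ)) / f.natDegree : ℝ) * Complex.I) := by
  have hd : (0 : ℝ) < f.natDegree := by exact_mod_cast (by omega : 0 < f.natDegree)
  have hdC : (f.natDegree : ℂ) ≠ 0 := by
    exact_mod_cast (by omega : f.natDegree ≠ 0)
  have hmem : ((f.natDegree * σ : ℝ) : ℂ) + t * Complex.I ∈ HP := mem_HP (mul_pos hd hσ)
  have h1 : v ∉ filledJulia f := by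
    intro hc
    have h2 := eval_mem hc
    rw [hv] at h2
    have h3 : P ((f.natDegree * σ : ℝ) + t * Complex.I) ∈ (filledJulia f)ᶜ := by
      rw [← hP.range]
      exact ⟨_, hmem, rfl⟩
    exact h3 h2
  have h4 : v ∈ P '' HP := by
    rw [hP.range]
    exact h1
  obtain ⟨u, hu, rfl⟩ := h4
  rw [hP.semi u hu] at hv
  have hdu : (f.natDegree : ℂ) * u ∈ HP := by
    show 0 < ((f.natDegree : ℂ) * u).re
    rw [← Complex.ofReal_natCast, Complex.re_ofReal_mul]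
    exact mul_pos hd hu
  obtain ⟨m, hm⟩ := hP.inj _ hdu _ hmem hv
  have hd' : (0 : ℤ) < f.natDegree := by exact_mod_cast (by omega : 0 < f.natDegree)
  refine ⟨⟨(m % (f.natDegree : ℤ)).toNat, by
    have h1 := Int.emod_lt_of_pos m hd'
    have h2 := Int.emod_nonneg m hd'.ne'
    omega⟩, ?_⟩
  have h5 : (((m % (f.natDegree : ℤ)).toNat : ℕ) : ℤ) = m % (f.natDegree : ℤ) :=
    Int.toNat_of_nonneg (Int.emod_nonneg m hd'.ne')
  have h6 : (m : ℤ) = (f.natDegree : ℤ) * (m / (f.natDegree : ℤ)) +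
      (((m % (f.natDegree : ℤ)).toNat : ℕ) : ℤ) := by
    rw [h5]
    exact (Int.mul_ediv_add_emod m _).symm
  have h7 : u = (σ + ((t + (((m % (f.natDegree : ℤ)).toNat : ℕ) : ℝ)) / f.natDegree : ℝ) *
      Complex.I) + (m / (f.natDegree : ℤ) : ℤ) * Complex.I := by
    have h8 : (m : ℂ) = (f.natDegree : ℂ) * ((m / (f.natDegree : ℤ) : ℤ) : ℂ) +
        (((m % (f.natDegree : ℤ)).toNat : ℕ) : ℂ) := by exact_mod_cast h6
    have h9 : (f.natDegree : ℂ) * u = (f.natDegree : ℂ) *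
        ((σ + ((t + (((m % (f.natDegree : ℤ)).toNat : ℕ) : ℝ)) / f.natDegree : ℝ) *
        Complex.I) + (m / (f.natDegree : ℤ) : ℤ) * Complex.I) := by
      rw [hm, h8]
      push_cast
      field_simp
      ring
    exact mul_left_cancel₀ hdC h9
  rw [h7, per_int hP.per]

end Lpb

/-- Row LPB. -/
theorem lpb : LpbStatement := by
  intro f P hf hP t z w hz hw
  have hd : (0 : ℝ) < f.natDegree := by exact_mod_cast (by omega : 0 < f.natDegree)
  -- the lifts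
  have hcont : ∀ j : Fin f.natDegree, ContinuousOn
      (fun σ : ℝ => P (σ + ((t + (j : ℕ)) / f.natDegree : ℝ) * Complex.I)) (Set.Ioi 0) := by
    intro j
    refine hP.diff.continuousOn.comp (by fun_prop) fun σ hσ => Lpb.mem_HP hσ
  have hscale : Tendsto (fun σ : ℝ => (f.natDegree : ℝ) * σ) (𝓝[>] 0) (𝓝[>] 0) := by
    refine tendsto_nhdsWithin_iff.2 ⟨?_, ?_⟩
    · have h1 : Tendsto (fun σ : ℝ => (f.natDegree : ℝ) * σ) (𝓝 0)
          (𝓝 ((f.natDegree : ℝ) * 0)) := (continuous_const.mul continuous_id).tendsto 0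
      rw [mul_zero] at h1
      exact h1.mono_left nhdsWithin_le_nhds
    · filter_upwards [self_mem_nhdsWithin] with σ hσ
      exact mul_pos hd hσ
  have hlim : Tendsto (fun σ : ℝ => P ((f.natDegree * σ : ℝ) + t * Complex.I)) (𝓝[>] 0) (𝓝 z) :=
    (show Tendsto (fun s : ℝ => P (s + t * Complex.I)) (𝓝[>] 0) (𝓝 z) from hz).comp hscale
  have hf1 : ∀ (j : Fin f.natDegree) (σ : ℝ), 0 < σ →
      f.eval (P (σ + ((t + (j : ℕ)) / f.natDegree : ℝ) * Complex.I)) =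
        P ((f.natDegree * σ : ℝ) + t * Complex.I) := by
    intro j σ hσ
    rw [hP.semi _ (Lpb.mem_HP hσ)]
    have hdC : (f.natDegree : ℂ) ≠ 0 := by
      exact_mod_cast (by omega : f.natDegree ≠ 0)
    have h1 : (f.natDegree : ℂ) * (σ + ((t + (j : ℕ)) / f.natDegree : ℝ) * Complex.I) =
        ((f.natDegree * σ : ℝ) + t * Complex.I) + ((j : ℕ) : ℤ) * Complex.I := by
      push_cast
      field_simp
      ring
    rw [h1, Lpb.per_int hP.per]
  have hlims : ∀ j : Fin f.natDegree, ∃ a, f.eval a = z ∧ Tendsto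
      (fun σ : ℝ => P (σ + ((t + (j : ℕ)) / f.natDegree : ℝ) * Complex.I)) (𝓝[>] 0) (𝓝 a) := by
    intro j
    refine Lpb.path_lim hf z _ (hcont j) (hlim.congr' ?_)
    filter_upwards [self_mem_nhdsWithin] with σ hσ
    exact (hf1 j σ hσ).symm
  choose a ha hta using hlims
  -- `w` is one of the limits
  have hex : ∃ j, a j = w := by
    by_contra hcon
    push Not at hcon
    have hopen : (Set.range a)ᶜ ∈ 𝓝 w :=
      (Set.finite_range a).isClosed.isOpen_compl.mem_nhds (by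
        rintro ⟨j, hj⟩
        exact hcon j hj)
    obtain ⟨ε, hε, hball⟩ := Metric.mem_nhds_iff.1 hopen
    obtain ⟨η, hη, hnear⟩ := Sml.near hf (half_pos hε)
    have h1 : ∀ᶠ σ : ℝ in 𝓝[>] (0 : ℝ), ∀ j : Fin f.natDegree,
        ‖P (σ + ((t + (j : ℕ)) / f.natDegree : ℝ) * Complex.I) - a j‖ < ε / 2 := by
      rw [Filter.eventually_all]
      intro j
      filter_upwards [(hta j).eventually (Metric.ball_mem_nhds _ (half_pos hε))] with σ hσ
      rw [← dist_eq_norm]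
      exact hσ
    have h2 : ∀ᶠ σ : ℝ in 𝓝[>] (0 : ℝ), ‖P ((f.natDegree * σ : ℝ) + t * Complex.I) - z‖ < η := by
      filter_upwards [hlim.eventually (Metric.ball_mem_nhds _ hη)] with σ hσ
      rw [← dist_eq_norm]
      exact hσ
    have h3 : ∀ᶠ σ : ℝ in 𝓝[>] (0 : ℝ), (0 : ℝ) < σ := self_mem_nhdsWithin
    obtain ⟨σ, hσ1, hσ2, hσ3⟩ := (h1.and (h2.and h3)).exists
    obtain ⟨v, hv1, hv2⟩ := hnear (P ((f.natDegree * σ : ℝ) + t * Complex.I)) w (by
      rw [hw, norm_sub_rev]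
      exact hσ2.le)
    have hv3 : f.eval v = P ((f.natDegree * σ : ℝ) + t * Complex.I) := by
      have h4 := (mem_roots'.1 (Multiset.mem_toFinset.1 hv1)).2
      rw [IsRoot.def, eval_sub, eval_C] at h4
      exact sub_eq_zero.1 h4
    obtain ⟨j, hj⟩ := Lpb.pre hf hP hσ3 hv3
    have h5 : a j ∈ Metric.ball w ε := by
      rw [Metric.mem_ball, dist_eq_norm]
      have h6 := hσ1 j
      rw [← hj] at h6
      calc ‖a j - w‖ = ‖(v - w) - (v - a j)‖ := by ring_nf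
        _ ≤ ‖v - w‖ + ‖v - a j‖ := norm_sub_le _ _
        _ < ε := by
          rw [norm_sub_rev v w]
          linarith
    exact hball h5 ⟨j, rfl⟩
  obtain ⟨j, hj⟩ := hex
  refine ⟨(t + (j : ℕ)) / f.natDegree, ?_, (j : ℕ), ?_⟩
  · rw [← hj]
    exact hta j
  · rw [mul_div_cancel₀ _ hd.ne']
    push_cast
    rfl

end Pool.Agent.Imp
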