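import Pool.Agent.Lib.MP_1c105c_an.Defs

/-! MP_1c105c_an, row MAIN: the target from the rows. -/

set_option autoImplicit false

open Filter Topology Set Polynomial

namespace Pool.Agent.Imp

theorem main (half : HalfStatement) (inv : InvStatement) (baire : BaireStatement)
    (res : ResStatement) (abs : AbsStatement) (dim : DimStatement) : Target := by
  intro f ψ hd hψ h
  obtain ⟨hH, hT, hR⟩ := half f ψ hd hψ
  set P : ℂ → ℂ := fun u => ψ (Complex.exp (2 * Real.pi * u)) with hP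
  have hlim : ∃ (t : ℝ) (z : ℂ), HasLim P t z := by
    rcases h with h | ⟨θ, hθ⟩
    · exact baire P hH.diff.continuousOn (fun t => hR t (h t))
    · obtain ⟨z, hz⟩ := (hT θ).1 hθ
      exact ⟨θ, z, hz⟩
  obtain ⟨-, hosc, -, -, hcau⟩ := inv f P hd hH
  refine ⟨?_, ?_⟩
  · have h1 := res f P hd hH hlim
    have h2 : {θ : ℝ | TrivialImpression ψ θ} = {t : ℝ | ∃ z, HasLim P t z} :=
      Set.ext fun θ => hT θ
    rw [h2]
    exact h1
  · obtain ⟨α, β, W, h0α, hαβ, hβ1, hW0, hW1, hWc, hB⟩ := abs f P hd hH hlim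
    have h1 := dim f.natDegree α β W (fun δ => {t | Osc P δ t}) hd h0α hαβ hβ1 hW0 hW1 hWc
      (fun δ δ' hδ t ht => by
        obtain ⟨N, hN, hN'⟩ := ht
        exact ⟨N, hN, fun u hu v hv => (hN' u hu v hv).trans hδ⟩)
      (fun δ t => hosc δ t) (fun δ hδ => hB δ hδ)
    have h2 : {θ : ℝ | ¬ TrivialImpression ψ θ} =
        {t : ℝ | ∃ δ : ℝ, 0 < δ ∧ t ∉ (fun δ => {t | Osc P δ t}) δ} := by
      ext θ
      have h3 : TrivialImpression ψ θ ↔ ∀ δ : ℝ, 0 < δ → Osc P δ θ := (hT θ).trans (hcau θ)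
      simp only [Set.mem_setOf_eq, h3]
      push Not
      rfl
    rw [h2]
    exact h1

end Pool.Agent.Imp
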