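import Pool.Agent.Lib.MP_1c105c_an.Defs3

/-! MP_1c105c_an, row MAIN3: the zero-one law from the rows. -/

set_option autoImplicit false

open Filter Topology Set Polynomial

namespace Pool.Agent.Imp

theorem main3 (half : HalfStatement) (inf : InfStatement) (sml : SmlStatement)
    (cik : CikStatement) (impr : ImpStatement) (tar2 : Target2) : Target3 := by
  intro f ψ hd hψ
  have hgood : ((∀ θ : ℝ, RayLands ψ θ) ∨ ∃ θ : ℝ, TrivialImpression ψ θ) →
      goodAngles f ψ ∈ residual ℝ ∧ dimH (goodAngles f ψ)ᶜ < 1 ∧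
        julia f ⊆ closure {z | CikAt (julia f) z} := fun h => tar2 f ψ hd hψ h
  refine ⟨?_, fun h => hgood (Or.inl h)⟩
  by_cases ht : ∃ θ : ℝ, TrivialImpression ψ θ
  · exact Or.inr (hgood (Or.inr ht))
  obtain ⟨hH, hT, -⟩ := half f ψ hd hψ
  -- the oscillation is nowhere arbitrarily small
  have hosc : ¬ ∀ δ : ℝ, 0 < δ →
      ∃ t : ℝ, Osc (fun u => ψ (Complex.exp (2 * Real.pi * u))) δ t := by
    intro h
    obtain ⟨t, z, hz⟩ := sml f _ hd hH h
    exact ht ⟨t, (hT t).2 ⟨z, hz⟩⟩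
  refine Or.inl ⟨fun z hz => hosc (cik f _ hd hH (inf f ψ hψ) ⟨z, hz⟩), ?_⟩
  by_contra hcon
  push Not at hcon
  refine hosc fun δ hδ => ?_
  obtain ⟨θ, hθ⟩ := hcon δ hδ
  exact ⟨θ, impr f ψ hd hψ θ δ hδ hθ⟩

end Pool.Agent.Imp
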