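import Pool.Agent.Lib.MP_1c105c_an.Defs18
import Pool.Agent.Lib.MP_1c105c_an.Crs
import Pool.Agent.Lib.MP_1c105c_an.Lft

/-! MP_1c105c_an: lifts of simple closed curves (MON). -/

set_option autoImplicit false

open Filter Topology Set Polynomial

namespace Pool.Agent.Imp

open Lgk98

namespace M64

/-- Logarithms on the line. -/
theorem exists_log {g : ℝ → ℂ} (hg : Continuous g) (h0 : ∀ x, g x ≠ 0) :
    ∃ L : ℝ → ℂ, Continuous L ∧ ∀ x, Complex.exp (L x) = g x := by
  let γ : C(ℝ, {z : ℂ // z ≠ 0}) := ⟨fun x => ⟨g x, h0 x⟩, hg.subtype_mk h0⟩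
  obtain ⟨L, ⟨-, hL⟩, -⟩ := Complex.isCoveringMap_exp.existsUnique_continuousMap_lifts γ 0
    (Complex.log (g 0)) (Subtype.ext (Complex.exp_log (h0 0)))
  exact ⟨L, L.continuous, fun x => congrArg Subtype.val (congrFun hL x)⟩

/-- Two logarithms differ by a constant. -/
theorem log_const {L M : ℝ → ℂ} (hL : Continuous L) (hM : Continuous M)
    (h : ∀ x, Complex.exp (L x) = Complex.exp (M x)) (x y : ℝ) : L x - M x = L y - M y := by
  have hN : M = fun x => L x - (L y - M y) := by
    have h1 : Continuous fun x => L x - (L y - M y) := hL.sub continuous_const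
    refine Complex.isCoveringMap_exp.eq_of_comp_eq hM h1 ?_ y (by ring)
    funext t
    refine Subtype.ext ?_
    show Complex.exp (M t) = Complex.exp (L t - (L y - M y))
    rw [Complex.exp_sub, Complex.exp_sub, h y, div_self (Complex.exp_ne_zero _), div_one, h t]
  have := congrFun hN x
  rw [this]
  ring

/-- Lifts that agree at a point agree. -/
theorem lift_unique {f : ℂ[X]} {c : ℝ → ℂ} (hreg : ∀ z, f.derivative.eval z = 0 → ∀ x, f.eval z ≠ c x)
    {G H : ℝ → ℂ} (hG : Continuous G) (hH : Continuous H) (hGc : ∀ x, f.eval (G x) = c x)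
    (hHc : ∀ x, f.eval (H x) = c x) {x : ℝ} (hx : G x = H x) : G = H := by
  set S : Set ℂ := (f.eval '' {k | f.derivative.eval k = 0})ᶜ with hS
  have hcov : IsCoveringMap (S.restrictPreimage fun z => f.eval z) :=
    (f.isCoveringMapOn_eval).isCoveringMap_restrictPreimage
  have hcS : ∀ x, c x ∈ S := by
    rintro x ⟨z, hz, hzx⟩
    exact hreg z hz x hzx
  have hGS : ∀ x, G x ∈ (fun z => f.eval z) ⁻¹' S := fun x => by
    show f.eval (G x) ∈ S
    rw [hGc]
    exact hcS x
  have hHS : ∀ x, H x ∈ (fun z => f.eval z) ⁻¹' S := fun x => by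
    show f.eval (H x) ∈ S
    rw [hHc]
    exact hcS x
  have h1 : (fun x => (⟨G x, hGS x⟩ : (fun z => f.eval z) ⁻¹' S)) =
      fun x => (⟨H x, hHS x⟩ : (fun z => f.eval z) ⁻¹' S) := by
    refine hcov.eq_of_comp_eq (hG.subtype_mk hGS) (hH.subtype_mk hHS) ?_ x (Subtype.ext hx)
    funext t
    exact Subtype.ext ((hGc t).trans (hHc t).symm)
  funext t
  exact congrArg Subtype.val (congrFun h1 t)

/-- A function on the line with period `N > 0` has a compact range. -/
theorem compact_range {G : ℝ → ℂ} (hG : Continuous G) {N : ℕ} (hN : 0 < N)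
    (hper : ∀ x, G (x + N) = G x) : IsCompact (range G) := by
  have hN' : (N : ℝ) ≠ 0 := by positivity
  have h1 : Function.Periodic G (N : ℝ) := hper
  rw [← h1.image_Icc (by positivity : (0 : ℝ) < N) 0]
  exact isCompact_Icc.image hG

/-- Periods add up. -/
theorem per_mul {G : ℝ → ℂ} {m : ℕ} (h : ∀ x, G (x + m) = G x) (k : ℕ) (x : ℝ) :
    G (x + (k * m : ℕ)) = G x := by
  induction k with
  | zero => simp
  | succ k ih =>
    have h1 : x + ((k + 1) * m : ℕ) = (x + (k * m : ℕ)) + m := by
      push_cast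
      ring
    rw [h1, h, ih]

theorem inc_mul {L : ℝ → ℂ} {m : ℕ} {δ : ℂ} (h : ∀ x, L (x + m) = L x + δ) (k : ℕ) (x : ℝ) :
    L (x + (k * m : ℕ)) = L x + k * δ := by
  induction k with
  | zero => simp
  | succ k ih =>
    have h1 : x + ((k + 1) * m : ℕ) = (x + (k * m : ℕ)) + m := by
      push_cast
      ring
    rw [h1, h, ih]
    push_cast
    ring

end M64

open M64 in
/-- MON. -/
theorem mon64 (odd : OddStatement) (tor : TorStatement) (lft : LftStatement) (top : TopStatement) :
    MonStatement := by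
  intro f c G hd hc hper hsimp hesc hG hGc
  have hreg : ∀ z, f.derivative.eval z = 0 → ∀ x, f.eval z ≠ c x := by
    intro z hz x
    obtain ⟨Q, -, hzQ, -, hQ⟩ := hesc z hz
    exact hQ z hzQ x
  obtain ⟨Z, hZ, hZc, hZinj, hZsurj⟩ := lft f c hd hc hreg
  -- integer periods of `c`
  have hcint : ∀ (x : ℝ) (k : ℤ), c (x + k) = c x := by
    intro x k
    have h1 : Function.Periodic c 1 := hper
    have h2 := h1.int_mul k x
    rwa [mul_one] at h2
  have hcinj : ∀ x y : ℝ, c x = c y → ∃ k : ℤ, y = x + k := by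
    intro x y hxy
    refine ⟨⌊y - x⌋, ?_⟩
    by_contra hne
    have h0 : 0 ≤ Int.fract (y - x) := Int.fract_nonneg _
    have h1 : Int.fract (y - x) < 1 := Int.fract_lt_one _
    have h2 : y = x + Int.fract (y - x) + ⌊y - x⌋ := by
      have := Int.floor_add_fract (y - x)
      linarith
    have h3 : 0 < Int.fract (y - x) := by
      refine lt_of_le_of_ne h0 fun h => hne ?_
      rw [← h] at h2
      linarith
    refine hsimp x (Int.fract (y - x)) h3 h1 ?_
    rw [hxy, ← hcint (x + Int.fract (y - x)) ⌊y - x⌋, ← h2]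
  -- shifts of lifts are lifts
  have hshift : ∀ H : ℝ → ℂ, Continuous H → (∀ x, f.eval (H x) = c x) → ∀ k : ℤ,
      Continuous (fun x => H (x + k)) ∧ ∀ x, f.eval (H (x + k)) = c x := by
    intro H hH hHc k
    exact ⟨hH.comp (continuous_add_const _), fun x => by rw [hHc, hcint]⟩
  -- every lift has a period at most `natDegree f`
  have hpex : ∀ H : ℝ → ℂ, Continuous H → (∀ x, f.eval (H x) = c x) →
      ∃ m : ℕ, 0 < m ∧ m ≤ f.natDegree ∧ ∀ x, H (x + m) = H x := by
    intro H hH hHc
    have h1 : ∀ k : ℕ, ∃ j : Fin f.natDegree, H (0 + (k : ℤ)) = Z j 0 := fun k =>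
      hZsurj 0 _ ((hshift H hH hHc k).2 0)
    choose j hj using h1
    obtain ⟨k, k', hkk, hjj⟩ : ∃ k k' : Fin (f.natDegree + 1), k ≠ k' ∧ j k = j k' := by
      have := Fintype.exists_ne_map_eq_of_card_lt (fun k : Fin (f.natDegree + 1) => j k) (by simp)
      exact this
    wlog hlt : k < k' generalizing k k' with hwlog
    · exact hwlog k' k hkk.symm hjj.symm (lt_of_le_of_ne (not_lt.1 hlt) hkk.symm)
    have h2 : (fun x => H (x + ((k : ℕ) : ℤ))) = fun x => H (x + ((k' : ℕ) : ℤ)) := by
      refine lift_unique hreg (hshift H hH hHc (k : ℕ)).1 (hshift H hH hHc (k' : ℕ)).1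
        (hshift H hH hHc (k : ℕ)).2 (hshift H hH hHc (k' : ℕ)).2 (x := 0) ?_
      rw [hj, hj, hjj]
    refine ⟨(k' : ℕ) - (k : ℕ), by
      have : (k : ℕ) < (k' : ℕ) := hlt
      omega, by
      have := k'.2
      omega, fun x => ?_⟩
    have h3 := congrFun h2 (x - (k : ℕ))
    simp only [Int.cast_natCast] at h3
    have h4 : (((k' : ℕ) - (k : ℕ) : ℕ) : ℝ) = (k' : ℕ) - (k : ℕ) := by
      have : (k : ℕ) ≤ (k' : ℕ) := hlt.le
      push_cast [this]
      ring
    rw [h4]
    have e1 : x - ((k : ℕ) : ℝ) + ((k : ℕ) : ℝ) = x := by ring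
    have e2 : x - ((k : ℕ) : ℝ) + ((k' : ℕ) : ℝ) = x + (((k' : ℕ) : ℝ) - ((k : ℕ) : ℝ)) := by ring
    rw [e1, e2] at h3
    exact h3.symm
  set N : ℕ := (f.natDegree).factorial with hN
  have hN0 : 0 < N := Nat.factorial_pos _
  have hNper : ∀ H : ℝ → ℂ, Continuous H → (∀ x, f.eval (H x) = c x) → ∀ x, H (x + N) = H x := by
    intro H hH hHc x
    obtain ⟨m, hm0, hmd, hm⟩ := hpex H hH hHc
    obtain ⟨k, hk⟩ := Nat.dvd_factorial hm0 hmd
    have h1 := per_mul hm k x
    rw [mul_comm, ← hk] at h1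
    exact h1
  -- the minimal period of `G`
  have hex : ∃ m : ℕ, 0 < m ∧ ∀ x, G (x + m) = G x := by
    obtain ⟨m, h1, -, h2⟩ := hpex G hG hGc
    exact ⟨m, h1, h2⟩
  classical
  set m : ℕ := Nat.find hex with hm
  obtain ⟨hm0, hmper⟩ : 0 < m ∧ ∀ x, G (x + m) = G x := Nat.find_spec hex
  have hmin : ∀ k : ℕ, 0 < k → k < m → ∀ x, G (x + k) ≠ G x := by
    intro k hk hkm x hx
    refine Nat.find_min hex hkm ⟨hk, fun y => ?_⟩
    have h1 := lift_unique hreg (hshift G hG hGc k).1 hG (hshift G hG hGc k).2 hGc (x := x)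
      (by simpa using hx)
    have h2 := congrFun h1 y
    simpa using h2
  by_contra hcon
  push Not at hcon
  obtain ⟨x₁, hx₁⟩ := hcon
  have hm2 : 2 ≤ m := by
    rcases Nat.lt_or_ge m 2 with h | h
    · exfalso
      have h1 : m = 1 := by omega
      rw [h1] at hmper
      exact hx₁ (by simpa using hmper x₁)
    · exact h
  have hmN : ∃ k : ℕ, 0 < k ∧ N = k * m := by
    obtain ⟨m', h1, h2, h3⟩ := hpex G hG hGc
    have hle : m ≤ f.natDegree := (Nat.find_min' hex ⟨h1, h3⟩).trans h2
    obtain ⟨k, hk⟩ := Nat.dvd_factorial hm0 hle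
    refine ⟨k, ?_, by rw [hN, hk, mul_comm]⟩
    rcases Nat.eq_zero_or_pos k with h | h
    · rw [h, mul_zero] at hk
      omega
    · exact h
  obtain ⟨kN, hkN0, hkN⟩ := hmN
  -- `G` is simple with period `m`
  have hGsimple : ∀ x y : ℝ, 0 < y → y < m → G x ≠ G (x + y) := by
    intro x y hy0 hym hxy
    have h1 : c x = c (x + y) := by
      rw [← hGc x, ← hGc (x + y), hxy]
    obtain ⟨k, hk⟩ := hcinj x (x + y) h1
    have hk' : y = k := by linarith
    have hk0 : 0 < k := by
      have : (0 : ℝ) < k := hk' ▸ hy0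
      exact_mod_cast this
    obtain ⟨n, rfl⟩ := Int.eq_ofNat_of_zero_le hk0.le
    have hn0 : 0 < n := by exact_mod_cast hk0
    have hnm : n < m := by
      have : (n : ℝ) < m := by
        have h2 : y = (n : ℝ) := by simpa using hk'
        rw [← h2]
        exact hym
      exact_mod_cast this
    refine hmin n hn0 hnm x ?_
    have h2 : y = (n : ℝ) := by simpa using hk'
    rw [← h2]
    exact hxy.symm
  obtain ⟨κ, hκ, hodd⟩ := odd G m (by exact_mod_cast hm0) hG hmper hGsimple
  -- the index of `G`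
  obtain ⟨j₀, hj₀⟩ := hZsurj 0 (G 0) (hGc 0)
  have hGZ : G = Z j₀ := lift_unique hreg hG (hZ j₀) hGc (hZc j₀) hj₀
  have hne : ∀ j, j ≠ j₀ → ∀ x, G x - Z j x ≠ 0 := by
    intro j hj x h
    have h1 : Z j x = Z j₀ x := by
      rw [← hGZ]
      exact (sub_eq_zero.1 h).symm
    exact hj (hZinj x h1)
  have hlog : ∀ j, ∃ L : ℝ → ℂ, Continuous L ∧ (j ≠ j₀ → ∀ x, Complex.exp (L x) = G x - Z j x) := by
    intro j
    by_cases hj : j = j₀
    · exact ⟨0, continuous_const, fun h => absurd hj h⟩
    · obtain ⟨L, h1, h2⟩ := exists_log (hG.sub (hZ j)) (hne j hj)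
      exact ⟨L, h1, fun _ => h2⟩
  choose L hLc hL using hlog
  -- escape
  obtain ⟨x₀, htop⟩ := top f c hd hc hper hsimp hreg
  have hrange : ∀ H : ℝ → ℂ, Continuous H → (∀ x, f.eval (H x) = c x) → IsCompact (range H) :=
    fun H hH hHc => compact_range hH hN0 (hNper H hH hHc)
  -- increments
  have hinc : ∀ j, j ≠ j₀ → (∃ n : ℕ, n ≤ 1 ∧ ∀ x, L j (x + N) =
      L j x + n * (kN * (2 * Real.pi * Complex.I * κ))) := by
    intro j hj
    by_cases hs : ∃ k : ℕ, 0 < k ∧ k < m ∧ ∀ x, Z j x = G (x + k)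
    · obtain ⟨k, hk0, hkm, hk⟩ := hs
      refine ⟨1, le_rfl, fun x => ?_⟩
      have h1 := hodd (k : ℝ) (by exact_mod_cast hk0) (by exact_mod_cast hkm) (L j) (hLc j)
        (fun x => by rw [hL j hj x, hk x])
      have h2 := inc_mul (L := L j) (m := m) h1 kN x
      rw [hkN]
      rw [h2]
      push_cast
      ring
    · refine ⟨0, by norm_num, fun x => ?_⟩
      have hdis : ∀ x y, G x ≠ Z j y := by
        intro x y hxy
        have h1 : c x = c y := by rw [← hGc x, ← hZc j y, hxy]
        obtain ⟨k, hk⟩ := hcinj x y h1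
        -- reduce `-k` modulo `m`
        have hm0' : (m : ℤ) ≠ 0 := by exact_mod_cast hm0.ne'
        have hmod0 := Int.emod_nonneg (-k) hm0'
        have hmod1 := Int.emod_lt_of_pos (-k) (by exact_mod_cast hm0 : (0 : ℤ) < m)
        obtain ⟨n, hn⟩ := Int.eq_ofNat_of_zero_le hmod0
        have hGper : Function.Periodic G (m : ℝ) := hmper
        have h2 : G (y + n) = G x := by
          have h3 : (y : ℝ) + n = x + (-(-k / m) : ℤ) * (m : ℝ) := by
            have h4 := Int.emod_add_mul_ediv (-k) m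
            rw [hn] at h4
            have h5 : ((n : ℤ) : ℝ) + (m : ℝ) * ((-k / m : ℤ) : ℝ) = ((-k : ℤ) : ℝ) := by
              exact_mod_cast h4
            push_cast at h5 ⊢
            rw [hk]
            linarith
          rw [h3]
          exact hGper.int_mul _ x
        have h3 : (fun t => G (t + n)) = Z j := by
          have h4 := hshift G hG hGc n
          simp only [Int.cast_natCast] at h4
          exact lift_unique hreg h4.1 (hZ j) h4.2 (hZc j) (x := y) (h2.trans hxy)
        have hnm : n < m := by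
          have : ((n : ℤ)) < m := by
            rw [← hn]
            exact hmod1
          exact_mod_cast this
        rcases Nat.eq_zero_or_pos n with hn0 | hn0
        · subst hn0
          have h5 := congrFun h3 0
          simp only [Nat.cast_zero, add_zero] at h5
          exact hne j hj 0 (by rw [h5, sub_self])
        · exact hs ⟨n, hn0, hnm, fun t => (congrFun h3 t).symm⟩
      have hA : HasLog (range G) (Z j x₀) := by
        obtain ⟨Q, hQ, hzQ, hQu, hQp⟩ := htop (Z j x₀) (hZc j x₀)
        refine Crs63.hasLog_of_unbounded (hrange G hG hGc) hQ hQu ?_ hzQ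
        rw [Set.disjoint_left]
        rintro y hy ⟨t, rfl⟩
        exact hdis t x₀ (hQp _ hy t (hGc t))
      have hB : HasLog (range (Z j)) (G x₀) := by
        obtain ⟨Q, hQ, hzQ, hQu, hQp⟩ := htop (G x₀) (hGc x₀)
        refine Crs63.hasLog_of_unbounded (hrange (Z j) (hZ j) (hZc j)) hQ hQu ?_ hzQ
        rw [Set.disjoint_left]
        rintro y hy ⟨t, rfl⟩
        exact hdis x₀ t (hQp _ hy t (hZc j t)).symm
      have h1 := tor G (Z j) N x₀ x₀ hG (hZ j) (hNper G hG hGc) (hNper _ (hZ j) (hZc j)) hdis hA hB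
        (L j) (hLc j) (hL j hj) x
      rw [h1]
      simp
  have hinc' : ∀ j, ∃ n : ℕ, j ≠ j₀ → ∀ x, L j (x + N) =
      L j x + n * (kN * (2 * Real.pi * Complex.I * κ)) := by
    intro j
    by_cases hj : j = j₀
    · exact ⟨0, fun h => absurd hj h⟩
    · obtain ⟨n, -, hn⟩ := hinc j hj
      exact ⟨n, fun _ => hn⟩
  choose n hn using hinc'
  -- the shift by one has index `j₁` with `n j₁ = 1`
  obtain ⟨j₁, hj₁⟩ := hZsurj 0 (G (0 + (1 : ℤ))) ((hshift G hG hGc 1).2 0)
  have hGZ1 : (fun x => G (x + (1 : ℤ))) = Z j₁ :=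
    lift_unique hreg (hshift G hG hGc 1).1 (hZ j₁) (hshift G hG hGc 1).2 (hZc j₁) hj₁
  have hj₁₀ : j₁ ≠ j₀ := by
    intro h
    rw [h, ← hGZ] at hGZ1
    have h1 := congrFun hGZ1 0
    refine hmin 1 one_pos (by omega) 0 ?_
    simpa using h1
  have hn1 : n j₁ ≠ 0 := by
    intro h0
    have h1 := hn j₁ hj₁₀ 0
    rw [h0] at h1
    have h2 := hodd (1 : ℝ) one_pos (by exact_mod_cast (by omega : 1 < m)) (L j₁) (hLc j₁)
      (fun x => by
        rw [hL j₁ hj₁₀ x, ← hGZ1]
        simp)
    have h3 := inc_mul (L := L j₁) (m := m) h2 kN 0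
    rw [← hkN, h1] at h3
    have hκ0 : (κ : ℂ) ≠ 0 := by
      have : κ ≠ 0 := by
        rintro rfl
        exact absurd hκ (by decide)
      exact_mod_cast this
    have hk0 : (kN : ℂ) ≠ 0 := by exact_mod_cast hkN0.ne'
    have hpi : (Real.pi : ℂ) ≠ 0 := by exact_mod_cast Real.pi_ne_zero
    have h4 : (kN : ℂ) * (2 * Real.pi * Complex.I * κ) = 0 := by
      have h5 : L j₁ 0 + (0 : ℕ) * (kN * (2 * Real.pi * Complex.I * κ)) =
        L j₁ 0 + kN * (2 * Real.pi * Complex.I * κ) := h3
      rw [Nat.cast_zero, zero_mul] at h5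
      linear_combination -h5
    have h5 : (kN : ℂ) * (2 * Real.pi * Complex.I * κ) ≠ 0 := by
      refine mul_ne_zero hk0 (mul_ne_zero (mul_ne_zero (mul_ne_zero two_ne_zero hpi)
        Complex.I_ne_zero) hκ0)
    exact h5 h4
  -- logarithms of `f'(G x)`
  have hM : ∀ a : ℂ, ∃ M : ℂ → ℂ, f.derivative.eval a = 0 →
      ContinuousOn M (range G) ∧ ∀ ζ ∈ range G, Complex.exp (M ζ) = ζ - a := by
    intro a
    by_cases ha : f.derivative.eval a = 0
    · obtain ⟨Q, hQ, hzQ, hQu, hQp⟩ := hesc a ha
      obtain ⟨M, h1, h2⟩ := Crs63.hasLog_of_unbounded (hrange G hG hGc) hQ hQu (by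
        rw [Set.disjoint_left]
        rintro y hy ⟨t, rfl⟩
        exact hQp _ hy t (hGc t)) hzQ
      exact ⟨M, fun _ => ⟨h1, h2⟩⟩
    · exact ⟨0, fun h => absurd h ha⟩
  choose M hM using hM
  have hf'0 : f.derivative ≠ 0 := by
    intro h
    have h1 := derivative_eq_zero.1 h
    omega
  -- `f'(G x)` as a product over the lifts
  have hprod1 : ∀ x, f.derivative.eval (G x) =
      f.leadingCoeff * ∏ j ∈ Finset.univ.erase j₀, (G x - Z j x) := by
    intro x
    have hregx : ∀ z, f.derivative.eval z = 0 → f.eval z ≠ c x := fun z hz => hreg z hz x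
    have hdeg : (f - C (c x)).natDegree = f.natDegree := natDegree_sub_C
    have hroots : (f - C (c x)).roots = Finset.univ.val.map (fun j => Z j x) := by
      symm
      refine Multiset.eq_of_le_of_card_le ?_ ?_
      · rw [Multiset.le_iff_subset (Multiset.Nodup.map (hZinj x) Finset.univ.nodup)]
        intro z hz
        obtain ⟨j, -, rfl⟩ := Multiset.mem_map.1 hz
        have := (L64.mem_fiber hd (y := c x)).2 (hZc j x)
        exact Multiset.mem_toFinset.1 this
      · rw [Multiset.card_map]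
        have h1 := card_roots' (f - C (c x))
        rw [hdeg] at h1
        simpa using h1
    have hsplit : f - C (c x) = C (f - C (c x)).leadingCoeff *
        ((f - C (c x)).roots.map fun a => X - C a).prod :=
      (IsAlgClosed.splits (f - C (c x))).eq_prod_roots
    have hlead : (f - C (c x)).leadingCoeff = f.leadingCoeff := by
      rw [leadingCoeff, hdeg, coeff_sub, coeff_C, if_neg (by omega), sub_zero]
      rfl
    have hder : f.derivative = (f - C (c x)).derivative := by
      rw [derivative_sub, derivative_C, sub_zero]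
    have hmem : Z j₀ x ∈ (Finset.univ.val.map (fun j => Z j x) : Multiset ℂ) :=
      Multiset.mem_map_of_mem _ (Finset.mem_univ j₀)
    rw [hder, hsplit, hlead, hroots, derivative_C_mul, eval_C_mul, hGZ,
      eval_multiset_prod_X_sub_C_derivative hmem]
    congr 1
    have h1 : (Finset.univ.val.map (fun j => Z j x)).erase (Z j₀ x) =
        (Finset.univ.erase j₀).val.map (fun j => Z j x) := by
      rw [Finset.erase_val, Multiset.map_erase _ (hZinj x)]
    rw [h1, Multiset.map_map]
    rfl
  have hprod2 : ∀ x, f.derivative.eval (G x) =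
      f.derivative.leadingCoeff * (f.derivative.roots.map fun a => G x - a).prod := by
    intro x
    conv_lhs => rw [(IsAlgClosed.splits f.derivative).eq_prod_roots]
    rw [eval_mul, eval_C, eval_multiset_prod, Multiset.map_map]
    congr 2
    refine Multiset.map_congr rfl fun a _ => ?_
    simp
  have hl1 : f.leadingCoeff ≠ 0 := by
    rw [Ne, leadingCoeff_eq_zero]
    rintro rfl
    simp at hd
  have hl2 : f.derivative.leadingCoeff ≠ 0 := by
    rwa [Ne, leadingCoeff_eq_zero]
  set A : ℝ → ℂ := fun x => Complex.log f.leadingCoeff + ∑ j ∈ Finset.univ.erase j₀, L j x with hA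
  set B : ℝ → ℂ := fun x => Complex.log f.derivative.leadingCoeff +
    (f.derivative.roots.map fun a => M a (G x)).sum with hB
  have hAc : Continuous A := continuous_const.add (continuous_finsetSum _ fun j _ => hLc j)
  have hBc : Continuous B := by
    refine continuous_const.add (continuous_multiset_sum (s := f.derivative.roots)
      (f := fun a x => M a (G x)) fun a ha => ?_)
    have ha' : f.derivative.eval a = 0 := (mem_roots hf'0).1 ha
    exact (hM a ha').1.comp_continuous hG fun x => mem_range_self x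
  have hAB : ∀ x, Complex.exp (A x) = Complex.exp (B x) := by
    intro x
    have h1 : Complex.exp (A x) = f.derivative.eval (G x) := by
      rw [hprod1, hA]
      show Complex.exp (Complex.log f.leadingCoeff + ∑ j ∈ Finset.univ.erase j₀, L j x) = _
      rw [Complex.exp_add, Complex.exp_log hl1, Complex.exp_sum]
      congr 1
      exact Finset.prod_congr rfl fun j hj => hL j (Finset.ne_of_mem_erase hj) x
    have h2 : Complex.exp (B x) = f.derivative.eval (G x) := by
      rw [hprod2, hB]
      show Complex.exp (Complex.log f.derivative.leadingCoeff +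
        (f.derivative.roots.map fun a => M a (G x)).sum) = _
      rw [Complex.exp_add, Complex.exp_log hl2, Complex.exp_multiset_sum, Multiset.map_map]
      congr 2
      refine Multiset.map_congr rfl fun a ha => ?_
      exact (hM a ((mem_roots hf'0).1 ha)).2 _ (mem_range_self x)
    rw [h1, h2]
  have hconst := log_const hAc hBc hAB (0 + N) 0
  have hBN : B (0 + N) = B 0 := by
    show Complex.log f.derivative.leadingCoeff + (f.derivative.roots.map fun a => M a (G (0 + N))).sum =
      Complex.log f.derivative.leadingCoeff + (f.derivative.roots.map fun a => M a (G 0)).sum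
    rw [hNper G hG hGc]
  have hAN : A (0 + N) = A 0 + (∑ j ∈ Finset.univ.erase j₀, (n j : ℂ)) *
      (kN * (2 * Real.pi * Complex.I * κ)) := by
    show Complex.log f.leadingCoeff + ∑ j ∈ Finset.univ.erase j₀, L j (0 + N) =
      Complex.log f.leadingCoeff + ∑ j ∈ Finset.univ.erase j₀, L j 0 + _
    rw [Finset.sum_congr rfl fun j hj => hn j (Finset.ne_of_mem_erase hj) 0,
      Finset.sum_add_distrib, ← Finset.sum_mul]
    ring
  rw [hBN, hAN] at hconst
  have hzero : (∑ j ∈ Finset.univ.erase j₀, (n j : ℂ)) *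
      (kN * (2 * Real.pi * Complex.I * κ)) = 0 := by
    have := hconst
    linear_combination this
  have hκ0 : (κ : ℂ) ≠ 0 := by
    have : κ ≠ 0 := by
      rintro rfl
      exact absurd hκ (by decide)
    exact_mod_cast this
  have hk0 : (kN : ℂ) ≠ 0 := by exact_mod_cast hkN0.ne'
  have hpi : (Real.pi : ℂ) ≠ 0 := by exact_mod_cast Real.pi_ne_zero
  have hsum : (∑ j ∈ Finset.univ.erase j₀, (n j : ℂ)) ≠ 0 := by
    have h1 : ∑ j ∈ Finset.univ.erase j₀, n j ≠ 0 := by
      intro h
      rw [Finset.sum_eq_zero_iff] at h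
      exact hn1 (h j₁ (Finset.mem_erase.2 ⟨hj₁₀, Finset.mem_univ _⟩))
    exact_mod_cast h1
  exact mul_ne_zero hsum (mul_ne_zero hk0 (mul_ne_zero (mul_ne_zero (mul_ne_zero two_ne_zero hpi)
    Complex.I_ne_zero) hκ0)) hzero

end Pool.Agent.Imp
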