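import Pool.Agent.Lib.MP_1c105c_an.Mon

/-! MP_1c105c_an: two arcs with common ends (MONA). -/

set_option autoImplicit false

open Filter Topology Set Polynomial

namespace Pool.Agent.Imp

namespace M64a

/-- The nearest point in `[p, q]`. -/
def clamp (p q x : ℝ) : ℝ := max p (min x q)

theorem clamp_mem {p q : ℝ} (h : p ≤ q) (x : ℝ) : clamp p q x ∈ Icc p q :=
  ⟨le_max_left _ _, max_le h (min_le_right _ _)⟩

theorem clamp_cont (p q : ℝ) : Continuous (clamp p q) :=
  continuous_const.max (continuous_id.min continuous_const)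

theorem clamp_eq {p q x : ℝ} (h : x ∈ Icc p q) : clamp p q x = x := by
  rw [clamp, min_eq_left h.2, max_eq_right h.1]

theorem comp_clamp {g : ℝ → ℂ} {p q : ℝ} (h : p ≤ q) (hg : ContinuousOn g (Icc p q)) :
    Continuous fun x => g (clamp p q x) :=
  hg.comp_continuous (clamp_cont p q) (clamp_mem h)

end M64a

open M64a M64 in
/-- MONA. -/
theorem mona64 (mon : MonStatement) (lft : LftStatement) : MonaStatement := by
  intro f a b A B hd ha hb hai hbi hab0 hab1 hab hesc hA hB hfA hfB hAB0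
  have h01 : (0 : ℝ) ≤ 1 := zero_le_one
  set g : ℝ → ℂ := fun x => if x ≤ 1 / 2 then a (clamp 0 1 (2 * x)) else b (clamp 0 1 (2 - 2 * x))
    with hg
  have hgc : Continuous g := by
    refine Continuous.if_le ((comp_clamp h01 ha).comp (continuous_const.mul continuous_id))
      ((comp_clamp h01 hb).comp (continuous_const.sub (continuous_const.mul continuous_id)))
      continuous_id continuous_const ?_
    intro x hx
    have hx' : x = 1 / 2 := hx
    show a (clamp 0 1 (2 * x)) = b (clamp 0 1 (2 - 2 * x))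
    rw [hx', clamp_eq (by norm_num), clamp_eq (by norm_num)]
    norm_num
    exact hab1
  have hg1 : ∀ x, 0 ≤ x → x ≤ 1 / 2 → g x = a (2 * x) := by
    intro x h0 h1
    show (if x ≤ 1 / 2 then a (clamp 0 1 (2 * x)) else b (clamp 0 1 (2 - 2 * x))) = _
    rw [if_pos h1, clamp_eq ⟨by linarith, by linarith⟩]
  have hg2 : ∀ x, 1 / 2 < x → x ≤ 1 → g x = b (2 - 2 * x) := by
    intro x h0 h1
    show (if x ≤ 1 / 2 then a (clamp 0 1 (2 * x)) else b (clamp 0 1 (2 - 2 * x))) = _
    rw [if_neg (not_le.2 h0), clamp_eq ⟨by linarith, by linarith⟩]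
  have hg2' : ∀ x, 1 / 2 ≤ x → x ≤ 1 → g x = b (2 - 2 * x) := by
    intro x h0 h1
    rcases eq_or_lt_of_le h0 with h | h
    · rw [hg1 x (by linarith) h.symm.le, ← h]
      norm_num
      exact hab1
    · exact hg2 x h h1
  have hg01 : g 0 = g 1 := by
    rw [hg1 0 le_rfl (by norm_num), hg2 1 (by norm_num) le_rfl]
    norm_num
    exact hab0
  set c : ℝ → ℂ := g ∘ Int.fract with hc
  have hcc : Continuous c := hgc.continuousOn.comp_fract'' hg01
  have hcper : ∀ x, c (x + 1) = c x := by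
    intro x
    show g (Int.fract (x + 1)) = g (Int.fract x)
    rw [Int.fract_add_one]
  have hc1 : ∀ x ∈ Icc (0 : ℝ) 1, c x = g x := by
    intro x hx
    rcases eq_or_lt_of_le hx.2 with h | h
    · show g (Int.fract x) = g x
      rw [h, Int.fract_one, hg01]
    · show g (Int.fract x) = g x
      rw [Int.fract_eq_self.2 ⟨hx.1, h⟩]
  have hginj : ∀ u ∈ Ico (0 : ℝ) 1, ∀ v ∈ Ico (0 : ℝ) 1, g u = g v → u = v := by
    have key : ∀ u ∈ Ico (0 : ℝ) 1, ∀ v ∈ Ico (0 : ℝ) 1, u ≤ 1 / 2 → 1 / 2 < v → g u ≠ g v := by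
      intro u hu v hv h1 h2 h
      rw [hg1 u hu.1 h1, hg2 v h2 hv.2.le] at h
      have hbv : 2 - 2 * v ∈ Icc (0 : ℝ) 1 := ⟨by linarith [hv.2], by linarith⟩
      rcases eq_or_lt_of_le hu.1 with h3 | h3
      · rw [← h3, mul_zero, hab0] at h
        have h4 := hbi ⟨le_rfl, h01⟩ hbv h
        linarith [hv.2]
      rcases eq_or_lt_of_le h1 with h4 | h4
      · rw [h4] at h
        have e : 2 * (1 / 2 : ℝ) = 1 := by norm_num
        rw [e, hab1] at h
        have h5 := hbi ⟨h01, le_rfl⟩ hbv h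
        linarith
      · exact hab (2 * u) ⟨by linarith, by linarith⟩ _ hbv h
    intro u hu v hv h
    rcases le_or_gt u (1 / 2) with h1 | h1 <;> rcases le_or_gt v (1 / 2) with h2 | h2
    · rw [hg1 u hu.1 h1, hg1 v hv.1 h2] at h
      have := hai ⟨by linarith [hu.1], by linarith⟩ ⟨by linarith [hv.1], by linarith⟩ h
      linarith
    · exact absurd h (key u hu v hv h1 h2)
    · exact absurd h.symm (key v hv u hu h2 h1)
    · rw [hg2 u h1 hu.2.le, hg2 v h2 hv.2.le] at h
      have := hbi ⟨by linarith [hu.2], by linarith⟩ ⟨by linarith [hv.2], by linarith⟩ h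
      linarith
  have hcsimp : ∀ x y : ℝ, 0 < y → y < 1 → c x ≠ c (x + y) := by
    intro x y hy0 hy1 h
    have h1 := hginj _ ⟨Int.fract_nonneg x, Int.fract_lt_one x⟩ _
      ⟨Int.fract_nonneg (x + y), Int.fract_lt_one (x + y)⟩ h
    obtain ⟨z, hz⟩ := Int.fract_eq_fract.1 h1
    have h2 : (z : ℝ) = -y := by linarith
    have h3 : (-1 : ℝ) < z := by linarith
    have h4 : (z : ℝ) < 0 := by linarith
    have h5 : (-1 : ℤ) < z := by exact_mod_cast h3
    have h6 : z < 0 := by exact_mod_cast h4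
    omega
  have hcab : ∀ x, (∃ s ∈ Icc (0 : ℝ) 1, c x = a s) ∨ ∃ s ∈ Icc (0 : ℝ) 1, c x = b s := by
    intro x
    have h0 := Int.fract_nonneg x
    have h1 := Int.fract_lt_one x
    rcases le_or_gt (Int.fract x) (1 / 2) with h | h
    · exact Or.inl ⟨2 * Int.fract x, ⟨by linarith, by linarith⟩, hg1 _ h0 h⟩
    · exact Or.inr ⟨2 - 2 * Int.fract x, ⟨by linarith, by linarith⟩, hg2 _ h h1.le⟩
  have hesc' : ∀ z, f.derivative.eval z = 0 → Esc (fun y => ∀ x, f.eval y ≠ c x) z := by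
    intro z hz
    obtain ⟨Q, h1, h2, h3, h4⟩ := hesc z hz
    refine ⟨Q, h1, h2, h3, fun y hy x hx => ?_⟩
    rcases hcab x with ⟨s, hs, h⟩ | ⟨s, hs, h⟩
    · exact (h4 y hy s hs).1 (hx.trans h)
    · exact (h4 y hy s hs).2 (hx.trans h)
  have hreg : ∀ z, f.derivative.eval z = 0 → ∀ x, f.eval z ≠ c x := by
    intro z hz x
    obtain ⟨Q, -, hzQ, -, hQ⟩ := hesc' z hz
    exact hQ z hzQ x
  obtain ⟨Z, hZ, hZc, -, hZsurj⟩ := lft f c hd hcc hreg
  have hc0 : c 0 = a 0 := by
    rw [hc1 0 ⟨le_rfl, h01⟩, hg1 0 le_rfl (by norm_num), mul_zero]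
  obtain ⟨j, hj⟩ := hZsurj 0 (A 0) ((hfA 0 ⟨le_rfl, h01⟩).trans hc0.symm)
  set G : ℝ → ℂ := Z j with hG
  have hG1 : G 1 = G 0 := by
    have h1 := mon f c G hd hcc hcper hcsimp hesc' (hZ j) (hZc j) 0
    rwa [zero_add] at h1
  -- the first half
  have hfirst : G (1 / 2) = A 1 := by
    have hle : (0 : ℝ) ≤ 1 / 2 := by norm_num
    have h1 : (fun x => G (clamp 0 (1 / 2) x)) = fun x => A (2 * clamp 0 (1 / 2) x) := by
      refine lift_unique (f := f) (c := fun x => c (clamp 0 (1 / 2) x))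
        (fun z hz x => hreg z hz _) ((hZ j).comp (clamp_cont _ _)) ?_ (fun x => hZc j _)
        (fun x => ?_) (x := 0) ?_
      · refine hA.comp_continuous (continuous_const.mul (clamp_cont _ _)) fun x => ?_
        have := clamp_mem hle x
        exact ⟨by linarith [this.1], by linarith [this.2]⟩
      · have h2 := clamp_mem hle x
        rw [hfA _ ⟨by linarith [h2.1], by linarith [h2.2]⟩, hc1 _ ⟨h2.1, by linarith [h2.2]⟩,
          hg1 _ h2.1 h2.2]
      · rw [clamp_eq ⟨le_rfl, hle⟩, mul_zero]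
        exact hj.symm
    have h2 := congrFun h1 (1 / 2)
    simp only [clamp_eq (show (1 / 2 : ℝ) ∈ Icc (0 : ℝ) (1 / 2) from ⟨hle, le_rfl⟩)] at h2
    rw [h2]
    norm_num
  have hsecond : G (1 / 2) = B 1 := by
    have hle : (1 / 2 : ℝ) ≤ 1 := by norm_num
    have h1 : (fun x => G (clamp (1 / 2) 1 x)) = fun x => B (2 - 2 * clamp (1 / 2) 1 x) := by
      refine lift_unique (f := f) (c := fun x => c (clamp (1 / 2) 1 x))
        (fun z hz x => hreg z hz _) ((hZ j).comp (clamp_cont _ _)) ?_ (fun x => hZc j _)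
        (fun x => ?_) (x := 1) ?_
      · refine hB.comp_continuous (continuous_const.sub (continuous_const.mul (clamp_cont _ _)))
          fun x => ?_
        have := clamp_mem hle x
        exact ⟨by linarith [this.2], by linarith [this.1]⟩
      · have h2 := clamp_mem hle x
        rw [hfB _ ⟨by linarith [h2.2], by linarith [h2.1]⟩, hc1 _ ⟨by linarith [h2.1], h2.2⟩,
          hg2' _ h2.1 h2.2]
      · rw [clamp_eq ⟨hle, le_rfl⟩, hG1]
        have e : (2 - 2 * 1 : ℝ) = 0 := by norm_num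
        rw [e, ← hAB0]
        exact hj.symm
    have h2 := congrFun h1 (1 / 2)
    simp only [clamp_eq (show (1 / 2 : ℝ) ∈ Icc (1 / 2 : ℝ) 1 from ⟨le_rfl, hle⟩)] at h2
    rw [h2]
    norm_num
  rw [← hfirst, hsecond]

end Pool.Agent.Imp
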