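import Pool.Agent.Lib.MP_1c105c_an.Liv
import Pool.Agent.Lib.MP_1c105c_an.Dns

/-! MP_1c105c_an: the Julia set is connected im kleinen at `z` if it is so at a limit point, not in
the closure of the critical orbits, of the orbit of `z`. -/

set_option autoImplicit false

open Filter Topology Set Polynomial

namespace Pool.Agent.Imp

/-- Inverse branches of iterates on a ball without points of the critical orbits. -/
theorem ptw_branch {f : ℂ[X]} {y : ℂ} {R : ℝ} (hR : 0 < R)
    (hpc : ∀ (c : ℂ) (n : ℕ), f.derivative.eval c = 0 →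
      (fun w => f.eval w)^[n + 1] c ∉ Metric.ball y R) (n : ℕ) (x : ℂ)
    (hx : (fun w => f.eval w)^[n] x ∈ Metric.ball y R) :
    ∃ h : ℂ → ℂ, DifferentiableOn ℂ h (Metric.ball y R) ∧
      (∀ v ∈ Metric.ball y R, (fun w => f.eval w)^[n] (h v) = v) ∧
      h ((fun w => f.eval w)^[n] x) = x := by
  have hsc : SimplyConnectedSpace (Metric.ball y R) := by
    have : ContractibleSpace (Metric.ball y R) :=
      (convex_ball y R).contractibleSpace ⟨y, Metric.mem_ball_self hR⟩
    exact SimplyConnectedSpace.ofContractible _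
  induction n generalizing x with
  | zero => exact ⟨fun v => v, differentiableOn_id, fun v _ => rfl, rfl⟩
  | succ n ih =>
    rw [Function.iterate_succ_apply] at hx
    obtain ⟨g, hg1, hg2, hg3⟩ := ih (f.eval x) hx
    obtain ⟨h, hh1, hh2, hh3⟩ := liv f (Metric.ball y R) g Metric.isOpen_ball hsc hg1
      (by
        intro z hz c hc he
        refine hpc c n hc ?_
        rw [Function.iterate_succ_apply]
        show (fun w => f.eval w)^[n] (f.eval c) ∈ _
        rw [he, hg2 z hz]
        exact hz) _ hx x hg3.symm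
    refine ⟨h, hh1, fun v hv => ?_, ?_⟩
    · rw [Function.iterate_succ_apply]
      show (fun w => f.eval w)^[n] (f.eval (h v)) = v
      rw [hh2 v hv, hg2 v hv]
    · rw [Function.iterate_succ_apply]
      exact hh3

/-- PTW: connectedness im kleinen is inherited from limit points of the orbit off the closure of
the critical orbits. -/
theorem ptw {f : ℂ[X]} (hd : 2 ≤ f.natDegree) {z y : ℂ}
    (hy : MapClusterPt y atTop fun n : ℕ => (fun w => f.eval w)^[n] z)
    (hyc : CikAt (julia f) y) (hyP : y ∉ closure (postcritical f)) : CikAt (julia f) z := by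
  obtain ⟨hyJ, hcik⟩ := hyc
  obtain ⟨r', hr', hball⟩ := Metric.isOpen_iff.1 isClosed_closure.isOpen_compl y hyP
  obtain ⟨r, hr, hrr⟩ : ∃ r : ℝ, 0 < r ∧ 2 * r = r' := ⟨r' / 2, by positivity, by ring⟩
  rw [← hrr] at hball
  have hpc : ∀ (c : ℂ) (n : ℕ), f.derivative.eval c = 0 →
      (fun w => f.eval w)^[n + 1] c ∉ Metric.ball y (2 * r) := fun c n hc hmem =>
    hball hmem (subset_closure ⟨c, n, hc, rfl⟩)
  obtain ⟨Y, hYJ, hYc, hYn, hYs⟩ := hcik (r / 2) (by positivity)
  obtain ⟨U, hU, hyU, hUY⟩ := mem_nhdsWithin.mp hYn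
  obtain ⟨ρ, hρ, hρb⟩ := Metric.isOpen_iff.1 (hU.inter Metric.isOpen_ball) y
    ⟨hyU, Metric.mem_ball_self hr⟩
  have hρr : Metric.ball y ρ ⊆ Metric.ball y r := fun x hx => (hρb hx).2
  have hr2 : Metric.ball y r ⊆ Metric.ball y (2 * r) := Metric.ball_subset_ball (by linarith)
  have hYr : Y ⊆ Metric.ball y r := fun x hx => by
    rw [mem_ball_iff_norm]
    exact (hYs x hx).trans_lt (by linarith)
  have hyint : Disjoint ({y} : Set ℂ) (interior (filledJulia f)) := by
    rw [Set.disjoint_singleton_left]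
    exact hyJ.2
  have key : ∀ ε : ℝ, 0 < ε → ∃ (n : ℕ) (g : ℂ → ℂ),
      (fun w => f.eval w)^[n] z ∈ Metric.ball y ρ ∧
      DifferentiableOn ℂ g (Metric.ball y (2 * r)) ∧
      (∀ v ∈ Metric.ball y (2 * r), (fun w => f.eval w)^[n] (g v) = v) ∧
      g ((fun w => f.eval w)^[n] z) = z ∧ ∀ x ∈ Metric.ball y r, ‖g x - g y‖ ≤ ε / 2 := by
    intro ε hε
    obtain ⟨N, hN⟩ := Uco.small hd (V := Metric.ball y (2 * r)) (Q := {y}) isCompact_singleton
      (by
        rw [Set.singleton_subset_iff]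
        exact Metric.mem_ball_self (by positivity)) hyint (ρ := 2 * r) (by positivity)
      (by
        intro p hp
        rw [Set.mem_singleton_iff] at hp
        rw [hp]) (c := ε / 2 / (Real.exp 65536 * (2 * r))) (by positivity)
    obtain ⟨n, hnN, hn⟩ := frequently_atTop.1
      (hy.frequently (Metric.ball_mem_nhds y hρ)) N
    obtain ⟨g, hg1, hg2, hg3⟩ := ptw_branch (by positivity : 0 < 2 * r) hpc n z (hr2 (hρr hn))
    have hginj : InjOn g (Metric.ball y (2 * r)) := Uco.injOn_of hg2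
    have hgd := hN n hnN g hg1 hg2 y rfl
    refine ⟨n, g, hn, hg1, hg2, hg3, fun x hx => ?_⟩
    have h3 := Uco.osc (by positivity : 0 < 2 * r) hg1 hginj hgd (q := x) (by
      rwa [mul_div_cancel_left₀ r (by norm_num : (2 : ℝ) ≠ 0)])
    refine h3.trans (le_of_eq ?_)
    have : Real.exp 65536 ≠ 0 := (Real.exp_pos _).ne'
    field_simp
  have hz : z ∈ julia f := by
    have hcl : IsClosed (julia f) := isClosed_frontier
    rw [← hcl.closure_eq, Metric.mem_closure_iff]
    intro ε hε
    obtain ⟨n, g, hn, hg1, hg2, hg3, hosc⟩ := key ε hε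
    refine ⟨g y, ?_, ?_⟩
    · rw [← Uco.iter_julia hd n, hg2 y (Metric.mem_ball_self (by positivity))]
      exact hyJ
    · have h4 := hosc _ (hρr hn)
      rw [hg3] at h4
      rw [dist_eq_norm]
      linarith
  refine ⟨hz, fun ε hε => ?_⟩
  obtain ⟨n, g, hn, hg1, hg2, hg3, hosc⟩ := key ε hε
  have hanal : AnalyticOnNhd ℂ g (Metric.ball y (2 * r)) := hg1.analyticOnNhd Metric.isOpen_ball
  have hopen : IsOpen (g '' Metric.ball y ρ) := by
    rcases hanal.is_constant_or_isOpen (convex_ball y (2 * r)).isPreconnected with ⟨w, hw⟩ | h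
    · exfalso
      have h1 : y ∈ Metric.ball y (2 * r) := Metric.mem_ball_self (by linarith)
      have h2 : y + r ∈ Metric.ball y (2 * r) := by
        rw [Metric.mem_ball, dist_eq_norm]
        simp only [add_sub_cancel_left, Complex.norm_real, Real.norm_eq_abs, abs_of_pos hr]
        linarith
      have h3 := hg2 y h1
      have h4 := hg2 (y + r) h2
      rw [hw y h1] at h3
      rw [hw (y + r) h2, h3] at h4
      have h5 : (r : ℂ) = 0 := by linear_combination -h4
      exact hr.ne' (by exact_mod_cast h5)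
    · exact h _ (hρr.trans hr2) Metric.isOpen_ball
  refine ⟨g '' Y, ?_, hYc.image g (hg1.continuousOn.mono (hYr.trans hr2)), ?_, ?_⟩
  · rintro _ ⟨x, hx, rfl⟩
    rw [← Uco.iter_julia hd n, hg2 x (hr2 (hYr hx))]
    exact hYJ hx
  · refine mem_nhdsWithin.2 ⟨g '' Metric.ball y ρ, hopen, ⟨_, hn, hg3⟩, ?_⟩
    rintro _ ⟨⟨x, hx, rfl⟩, hxJ⟩
    rw [← Uco.iter_julia hd n, hg2 x (hr2 (hρr hx))] at hxJ
    exact ⟨x, hUY ⟨(hρb hx).1, hxJ⟩, rfl⟩
  · rintro _ ⟨x, hx, rfl⟩
    have h3 := hosc x (hYr hx)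
    have h4 := hosc _ (hρr hn)
    rw [hg3] at h4
    have h5 : ‖g x - z‖ ≤ ‖g x - g y‖ + ‖z - g y‖ := by
      have := norm_sub_le (g x - g y) (z - g y)
      simpa using this
    linarith

end Pool.Agent.Imp
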