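import Pool.Agent.Lib.MP_1c105c_an.Defs13
import Pool.Agent.Lib.MP_1c105c_an.Ptw
import Pool.Agent.Lib.MP_1c105c_an.Hyp
import Pool.Agent.Lib.MP_1c105c_an.Thr
import Pool.Agent.Lib.MP_1c105c_an.Lift

/-! MP_1c105c_an, row NLL: rays of periodic angles close to an angle whose ray lands off the
closure of the critical orbits. -/

set_option autoImplicit false

open Filter Topology Set Polynomial

namespace Pool.Agent.Imp

namespace Nll60

open Thr58

variable {f : ℂ[X]} {P : ℂ → ℂ}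

/-- Chains of moves of size at most the level. -/
theorem chain {κ s₀ : ℝ} (hs : ∀ u v : ℂ, 0 < u.re → u.re ≤ s₀ → 1 * u.re ≤ v.re → v.re ≤ u.re →
    |u.im - v.im| ≤ u.re → ‖P u - P v‖ ≤ κ) {x a δ : ℝ} (hx : 0 < x) (hxs : x ≤ s₀)
    (hδ : |δ| ≤ x) (j : ℕ) :
    ‖P (x + ((a + j * δ : ℝ) : ℂ) * Complex.I) - P (x + a * Complex.I)‖ ≤ j * κ := by
  induction j with
  | zero => simp
  | succ j ih =>
    have h1 := hs (x + ((a + (j + 1 : ℕ) * δ : ℝ) : ℂ) * Complex.I)
      (x + ((a + j * δ : ℝ) : ℂ) * Complex.I) (by rw [ray_re]; exact hx)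
      (by rw [ray_re]; exact hxs) (by rw [ray_re, ray_re, one_mul]) (by rw [ray_re, ray_re])
      (by
        rw [ray_re, ray_im, ray_im]
        have e : a + (j + 1 : ℕ) * δ - (a + j * δ) = δ := by
          push_cast
          ring
        rw [e]
        exact hδ)
    have h2 := norm_add_le (P (x + ((a + (j + 1 : ℕ) * δ : ℝ) : ℂ) * Complex.I) -
      P (x + ((a + j * δ : ℝ) : ℂ) * Complex.I))
      (P (x + ((a + j * δ : ℝ) : ℂ) * Complex.I) - P (x + a * Complex.I))
    rw [sub_add_sub_cancel] at h2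
    have e : (((j + 1 : ℕ) : ℝ)) * κ = κ + j * κ := by
      push_cast
      ring
    rw [e]
    linarith

/-- The pieces of the rays of angles `t` and `a` are close. -/
theorem close (hd : 2 ≤ f.natDegree) (hP : Half f P) (a C : ℝ) {x₀ : ℝ} (hx₀ : 0 < x₀) {e : ℝ}
    (he : 0 < e) : ∃ N : ℕ, ∀ (q : ℕ) (t : ℝ), N ≤ q → |t - a| * (f.natDegree : ℝ) ^ q ≤ C →
      ∀ x : ℝ, x₀ / (f.natDegree : ℝ) ^ q ≤ x → x ≤ x₀ →
      ‖P (x + t * Complex.I) - P (x + a * Complex.I)‖ ≤ e := by
  have hd1 : (1 : ℝ) < f.natDegree := by exact_mod_cast (show 1 < f.natDegree by omega)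
  have hd0 : (0 : ℝ) < f.natDegree := by linarith
  obtain ⟨K, hK⟩ : ∃ K : ℕ, K = ⌈|C| / x₀⌉₊ + 1 := ⟨_, rfl⟩
  have hK1 : |C| / x₀ ≤ K := by
    rw [hK]
    push_cast
    linarith [Nat.le_ceil (|C| / x₀)]
  have hK0 : (0 : ℝ) < K := by
    rw [hK]
    positivity
  obtain ⟨s₀, hs₀, hs⟩ := hyp64 f P hd hP (e / K) 1 (by positivity) one_pos
  -- the compact box
  have hbox : IsCompact (Icc s₀ x₀ ×ℂ Icc (a - 1) (a + 1)) := isCompact_Icc.reProdIm isCompact_Icc
  have hboxHP : (Icc s₀ x₀ ×ℂ Icc (a - 1) (a + 1)) ⊆ HP := fun u hu => lt_of_lt_of_le hs₀ hu.1.1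
  have huc := hbox.uniformContinuousOn_of_continuous (hP.diff.continuousOn.mono hboxHP)
  rw [Metric.uniformContinuousOn_iff] at huc
  obtain ⟨δ, hδ, huc⟩ := huc e he
  have hlim : Tendsto (fun q : ℕ => |C| / (f.natDegree : ℝ) ^ q) atTop (𝓝 0) :=
    tendsto_const_nhds.div_atTop (tendsto_pow_atTop_atTop_of_one_lt hd1)
  obtain ⟨N, hN⟩ := eventually_atTop.1 (hlim.eventually (gt_mem_nhds (lt_min hδ one_pos)))
  refine ⟨N, fun q t hq ht x hx1 hx2 => ?_⟩
  have hdq : 0 < (f.natDegree : ℝ) ^ q := pow_pos hd0 q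
  have hx : 0 < x := lt_of_lt_of_le (div_pos hx₀ hdq) hx1
  have ht1 : |t - a| ≤ |C| / (f.natDegree : ℝ) ^ q := by
    rw [le_div_iff₀ hdq]
    exact ht.trans (le_abs_self C)
  have ht2 : |C| / (f.natDegree : ℝ) ^ q < min δ 1 := hN q hq
  rcases le_or_gt x s₀ with hxs | hxs
  · have hδ1 : |(t - a) / K| ≤ x := by
      rw [abs_div, abs_of_pos hK0, div_le_iff₀ hK0]
      refine ht1.trans ?_
      have h1 : |C| / (f.natDegree : ℝ) ^ q = |C| / x₀ * (x₀ / (f.natDegree : ℝ) ^ q) := by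
        field_simp
      rw [h1, mul_comm x]
      exact mul_le_mul hK1 hx1 (div_pos hx₀ hdq).le hK0.le
    have h2 := chain hs (a := a) hx hxs hδ1 K
    have e1 : a + K * ((t - a) / K) = t := by
      field_simp
      ring
    have e2 : (K : ℝ) * (e / K) = e := by
      field_simp
    rw [e1, e2] at h2
    exact h2
  · have h1 := abs_le.1 (ht1.trans (ht2.le.trans (min_le_right _ _)))
    have h2 := huc (x + t * Complex.I) ⟨⟨by rw [ray_re]; exact hxs.le, by rw [ray_re]; exact hx2⟩,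
      ⟨by rw [ray_im]; linarith [h1.1], by rw [ray_im]; linarith [h1.2]⟩⟩ (x + a * Complex.I)
      ⟨⟨by rw [ray_re]; exact hxs.le, by rw [ray_re]; exact hx2⟩,
      ⟨by rw [ray_im]; linarith, by rw [ray_im]; linarith⟩⟩ (by
        rw [dist_eq_norm]
        have e3 : (x + t * Complex.I : ℂ) - (x + a * Complex.I) = ((t - a : ℝ) : ℂ) * Complex.I := by
          push_cast
          ring
        rw [e3, norm_mul, Complex.norm_I, mul_one, Complex.norm_real, Real.norm_eq_abs]
        exact ht1.trans_lt (ht2.trans_le (min_le_left _ _)))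
    rw [dist_eq_norm] at h2
    exact h2.le

theorem iter_P (hd : 2 ≤ f.natDegree) (hP : Half f P) {u : ℂ} (hu : 0 < u.re) (n : ℕ) :
    (fun w => f.eval w)^[n] (P u) = P ((f.natDegree : ℂ) ^ n * u) := by
  have hd0 : (0 : ℝ) < f.natDegree := by exact_mod_cast (show 0 < f.natDegree by omega)
  induction n with
  | zero => simp
  | succ n ih =>
    rw [Function.iterate_succ_apply', ih]
    have hre : ((f.natDegree : ℂ) ^ n * u) ∈ HP := by
      show 0 < ((f.natDegree : ℂ) ^ n * u).re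
      have e : (f.natDegree : ℂ) ^ n * u = (((f.natDegree : ℝ) ^ n : ℝ) : ℂ) * u := by
        push_cast
        ring
      rw [e, Complex.re_ofReal_mul]
      exact mul_pos (pow_pos hd0 n) hu
    show f.eval (P ((f.natDegree : ℂ) ^ n * u)) = _
    rw [hP.semi _ hre, pow_succ]
    congr 1
    ring

end Nll60

open Thr58 Nll60

theorem nll : NllStatement := by
  intro f P hd hP hinf a C p hla hp ε hε
  have hd1 : (1 : ℝ) < f.natDegree := by exact_mod_cast (show 1 < f.natDegree by omega)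
  have hd0 : (0 : ℝ) < f.natDegree := by linarith
  obtain ⟨r', hr', hball⟩ := Metric.isOpen_iff.1 isClosed_closure.isOpen_compl p hp
  obtain ⟨r, hr, hrr⟩ : ∃ r : ℝ, 0 < r ∧ 2 * r = r' := ⟨r' / 2, by positivity, by ring⟩
  rw [← hrr] at hball
  have hpc : ∀ (c : ℂ) (n : ℕ), f.derivative.eval c = 0 →
      (fun w => f.eval w)^[n + 1] c ∉ Metric.ball p (2 * r) := fun c n hc hmem =>
    hball hmem (subset_closure ⟨c, n, hc, rfl⟩)
  obtain ⟨e, he, heε, her⟩ : ∃ e : ℝ, 0 < e ∧ e ≤ ε ∧ e ≤ r :=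
    ⟨min ε r, lt_min hε hr, min_le_left _ _, min_le_right _ _⟩
  -- the level
  obtain ⟨x₀, hx₀, hxa⟩ : ∃ x₀ : ℝ, 0 < x₀ ∧ ∀ x : ℝ, 0 < x → x ≤ x₀ →
      ‖P (x + a * Complex.I) - p‖ ≤ e / 8 := by
    have h1 : ∀ᶠ x : ℝ in 𝓝[>] 0, ‖P (x + a * Complex.I) - p‖ < e / 8 := by
      have h2 := (Metric.tendsto_nhds.1 hla) (e / 8) (by positivity)
      filter_upwards [h2] with x hx
      rwa [dist_eq_norm] at hx
    obtain ⟨u, hu, hsub⟩ := mem_nhdsGT_iff_exists_Ioo_subset.1 h1
    have hu' : 0 < u := hu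
    refine ⟨u / 2, by positivity, fun x hx hx2 => ?_⟩
    have h3 : x ∈ Ioo 0 u := ⟨hx, by linarith⟩
    exact (hsub h3).le
  obtain ⟨N₁, hN₁⟩ := close hd hP a C hx₀ (e := e / 8) (by positivity)
  have hpj : p ∈ julia f := land_julia hd hP hla
  have hyint : Disjoint ({p} : Set ℂ) (interior (filledJulia f)) := by
    rw [Set.disjoint_singleton_left]
    exact hpj.2
  obtain ⟨N₂, hN₂⟩ := Uco.small hd (V := Metric.ball p (2 * r)) (Q := {p}) isCompact_singleton
    (by
      rw [Set.singleton_subset_iff]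
      exact Metric.mem_ball_self (by positivity)) hyint (ρ := 2 * r) (by positivity)
    (by
      intro y hy
      rw [Set.mem_singleton_iff] at hy
      rw [hy]) (c := e / 8 / (Real.exp 65536 * (2 * r))) (by positivity)
  refine ⟨max (max N₁ N₂) 1, fun q t m z hq ht hta hlt => ?_⟩
  have hq1 : N₁ ≤ q := (le_max_left _ _).trans ((le_max_left _ _).trans hq)
  have hq2 : N₂ ≤ q := (le_max_right _ _).trans ((le_max_left _ _).trans hq)
  have hq3 : 1 ≤ q := (le_max_right _ _).trans hq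
  obtain ⟨D, hD⟩ : ∃ D : ℝ, D = (f.natDegree : ℝ) ^ q := ⟨_, rfl⟩
  have hDc : ((D : ℝ) : ℂ) = (f.natDegree : ℂ) ^ q := by
    rw [hD]
    push_cast
    ring
  have hD1 : 1 < D := by
    rw [hD]
    exact one_lt_pow₀ hd1 (by omega)
  have hD0 : 0 < D := by linarith
  rw [← hD] at ht hta
  have hpiece : ∀ x : ℝ, x₀ / D ≤ x → x ≤ x₀ → ‖P (x + t * Complex.I) - p‖ ≤ e / 4 := by
    intro x hx1 hx2
    have hx : 0 < x := lt_of_lt_of_le (div_pos hx₀ hD0) hx1
    have h1 := hN₁ q t hq1 (by rw [← hD]; exact hta) x (by rw [← hD]; exact hx1) hx2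
    have h2 := hxa x hx hx2
    have h3 := norm_add_le (P (x + t * Complex.I) - P (x + a * Complex.I))
      (P (x + a * Complex.I) - p)
    rw [sub_add_sub_cancel] at h3
    linarith
  have hxD : x₀ / D ≤ x₀ := div_le_self hx₀.le hD1.le
  have hxD0 : 0 < x₀ / D := div_pos hx₀ hD0
  have htD : (t + m) / D = t := by
    rw [← ht]
    field_simp
  -- the branch
  have hiter : ∀ x : ℝ, 0 < x → (fun w => f.eval w)^[q] (P (((x / D : ℝ) : ℂ) + t * Complex.I)) =
      P (x + t * Complex.I) := by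
    intro x hx
    rw [iter_P hd hP (by rw [ray_re]; exact div_pos hx hD0), ← hDc, ← per_ray hP x t m, ← ht]
    congr 1
    have h1 : (D : ℂ) * (x / D) = x := mul_div_cancel₀ _ (by exact_mod_cast hD0.ne')
    push_cast
    rw [mul_add, h1]
    ring
  have hb0 : P (x₀ + t * Complex.I) ∈ Metric.ball p (2 * r) := by
    rw [mem_ball_iff_norm]
    have := hpiece x₀ hxD le_rfl
    linarith
  obtain ⟨g, hg1, hg2, hg3⟩ := ptw_branch (by positivity : 0 < 2 * r) hpc q
    (P (((x₀ / D : ℝ) : ℂ) + t * Complex.I)) (by rw [hiter x₀ hx₀]; exact hb0)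
  rw [hiter x₀ hx₀] at hg3
  have hginj : InjOn g (Metric.ball p (2 * r)) := Uco.injOn_of hg2
  have hgd := hN₂ q hq2 g hg1 hg2 p rfl
  have hosc : ∀ y ∈ Metric.ball p r, ‖g y - g p‖ ≤ e / 8 := by
    intro y hy
    have h3 := Uco.osc (by positivity : 0 < 2 * r) hg1 hginj hgd (q := y) (by
      rwa [mul_div_cancel_left₀ r (by norm_num : (2 : ℝ) ≠ 0)])
    refine h3.trans (le_of_eq ?_)
    have : Real.exp 65536 ≠ 0 := (Real.exp_pos _).ne'
    field_simp
  have hrr2 : Metric.ball p r ⊆ Metric.ball p (2 * r) := Metric.ball_subset_ball (by linarith)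
  have hin : ∀ x : ℝ, ‖P (x + t * Complex.I) - p‖ ≤ e / 2 → P (x + t * Complex.I) ∈
      Metric.ball p r := by
    intro x h
    rw [mem_ball_iff_norm]
    linarith
  have hsmall : ∀ y ∈ Metric.ball p r, ‖g y - p‖ ≤ e / 2 := by
    intro y hy
    have h1 := hosc y hy
    have h2 := hosc _ (hin x₀ ((hpiece x₀ hxD le_rfl).trans (by linarith)))
    rw [hg3] at h2
    have h3 := hpiece (x₀ / D) le_rfl hxD
    have h4 : ‖g y - p‖ ≤ ‖g y - g p‖ + ‖P (((x₀ / D : ℝ) : ℂ) + t * Complex.I) - g p‖ +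
        ‖P (((x₀ / D : ℝ) : ℂ) + t * Complex.I) - p‖ := by
      have e1 : g y - p = (g y - g p) - (P (((x₀ / D : ℝ) : ℂ) + t * Complex.I) - g p) +
          (P (((x₀ / D : ℝ) : ℂ) + t * Complex.I) - p) := by ring
      rw [e1]
      exact (norm_add_le _ _).trans (add_le_add_left (norm_sub_le _ _) _)
    linarith
  have hder : ∀ y ∈ Metric.ball p (2 * r), (f.comp^[q] X).derivative.eval (g y) ≠ 0 := by
    intro y hy h0
    have h1 : HasDerivAt g (deriv g y) y :=
      (hg1.differentiableAt (Metric.isOpen_ball.mem_nhds hy)).hasDerivAt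
    have h2 := ((f.comp^[q] X).hasDerivAt (g y)).comp y h1
    rw [h0, zero_mul] at h2
    have h3 : (fun v => (f.comp^[q] X).eval (g v)) =ᶠ[𝓝 y] fun v => v := by
      filter_upwards [Metric.isOpen_ball.mem_nhds hy] with v hv
      rw [show (f.comp^[q] X).eval (g v) = (fun w => f.eval w)^[q] (g v) from Nr.it_eval f q (g v)]
      exact hg2 v hv
    have h4 := (h2.congr_of_eventuallyEq h3.symm).unique (hasDerivAt_id' y)
    exact zero_ne_one h4
  -- the induction
  have hB : ∀ n : ℕ, ∀ x : ℝ, x₀ / D ^ (n + 1) ≤ x → x ≤ x₀ →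
      ‖P (x + t * Complex.I) - p‖ ≤ e / 2 := by
    intro n
    induction n with
    | zero =>
      intro x hx1 hx2
      rw [zero_add, pow_one] at hx1
      exact (hpiece x hx1 hx2).trans (by linarith)
    | succ n ih =>
      intro x' hx1 hx2
      rcases le_or_gt (x₀ / D) x' with h | h
      · exact (hpiece x' h hx2).trans (by linarith)
      have hDn : 0 < D ^ (n + 1) := pow_pos hD0 _
      have hlow : 0 < x₀ / D ^ (n + 1) := div_pos hx₀ hDn
      obtain ⟨S, hS⟩ : ∃ S : Set ℂ, S = (fun s : ℝ => (s : ℂ) + t * Complex.I) ''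
        Icc (x₀ / D ^ (n + 1)) x₀ := ⟨_, rfl⟩
      have hSp : IsPreconnected S := by
        rw [hS]
        exact isPreconnected_Icc.image _ (by fun_prop)
      have hSm : ∀ u ∈ S, u ∈ HP ∧ P u ∈ Metric.ball p r := by
        rw [hS]
        rintro _ ⟨s, hs, rfl⟩
        exact ⟨ray_HP (lt_of_lt_of_le hlow hs.1) t, hin s (ih s hs.1 hs.2)⟩
      have hdiv : ∀ u : ℂ, u ∈ HP → (u + m * Complex.I) / D ∈ HP := by
        intro u hu
        show 0 < ((u + m * Complex.I) / D).re
        rw [Complex.div_ofReal_re]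
        have : (u + m * Complex.I).re = u.re := by simp
        rw [this]
        exact div_pos hu hD0
      have hDc0 : (D : ℂ) ≠ 0 := by exact_mod_cast hD0.ne'
      have heq : ∀ x : ℝ, ((x : ℂ) + t * Complex.I + m * Complex.I) / D =
          ((x / D : ℝ) : ℂ) + t * Complex.I := by
        intro x
        have h1 : ((t : ℂ) + m) / D = t := by exact_mod_cast htD
        have h2 : ((x : ℂ) + t * Complex.I + m * Complex.I) / D =
            x / D + (t + m) / D * Complex.I := by ring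
        rw [h2, h1]
        push_cast
        ring
      have key := uniq (f.comp^[q] X) S (fun u => g (P u))
        (fun u => P ((u + m * Complex.I) / D)) hSp
        (hg1.continuousOn.comp (hP.diff.continuousOn.mono fun u hu => (hSm u hu).1)
          fun u hu => hrr2 (hSm u hu).2)
        (hP.diff.continuousOn.comp (by fun_prop) fun u hu => hdiv u (hSm u hu).1)
        (by
          intro u hu
          rw [show (f.comp^[q] X).eval (g (P u)) = (fun w => f.eval w)^[q] (g (P u)) from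
            Nr.it_eval f q _, show (f.comp^[q] X).eval (P ((u + m * Complex.I) / D)) =
            (fun w => f.eval w)^[q] (P ((u + m * Complex.I) / D)) from Nr.it_eval f q _,
            hg2 _ (hrr2 (hSm u hu).2), iter_P hd hP (hdiv u (hSm u hu).1), ← hDc,
            mul_div_cancel₀ _ hDc0, per_int hP])
        (fun u hu => hder _ (hrr2 (hSm u hu).2)) (x₀ + t * Complex.I)
        (by
          rw [hS]
          exact ⟨x₀, ⟨div_le_self hx₀.le (one_le_pow₀ hD1.le), le_rfl⟩, rfl⟩)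
        (by
          show g (P (x₀ + t * Complex.I)) = P ((x₀ + t * Complex.I + m * Complex.I) / D)
          rw [heq x₀, hg3])
      have hx3 : x₀ / D ^ (n + 1) ≤ D * x' := by
        rw [div_le_iff₀ (pow_pos hD0 _)] at hx1 ⊢
        rw [pow_succ D (n + 1)] at hx1
        linarith
      have hx4 : D * x' ≤ x₀ := by
        rw [lt_div_iff₀ hD0] at h
        linarith
      have hmem : (((D * x' : ℝ) : ℂ) + t * Complex.I) ∈ S := by
        rw [hS]
        exact ⟨D * x', ⟨hx3, hx4⟩, rfl⟩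
      have h5 := key hmem
      have h6 : g (P (((D * x' : ℝ) : ℂ) + t * Complex.I)) = P (x' + t * Complex.I) := by
        have h7 : P ((((D * x' : ℝ) : ℂ) + t * Complex.I + m * Complex.I) / D) =
            P (x' + t * Complex.I) := by
          rw [heq (D * x'), mul_div_cancel_left₀ x' hD0.ne']
        rw [← h7]
        exact h5
      rw [← h6]
      exact hsmall _ (hSm _ hmem).2
  have hall : ∀ x : ℝ, 0 < x → x ≤ x₀ → ‖P (x + t * Complex.I) - p‖ ≤ e / 2 := by
    intro x hx hx2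
    obtain ⟨n, hn⟩ := pow_unbounded_of_one_lt (x₀ / x) hD1
    refine hB n x ?_ hx2
    rw [div_le_iff₀ (pow_pos hD0 _)]
    rw [div_lt_iff₀ hx] at hn
    have h1 : D ^ n ≤ D ^ (n + 1) := pow_le_pow_right₀ hD1.le (by omega)
    nlinarith
  have hfin : ‖z - p‖ ≤ e / 2 := by
    have h1 : Tendsto (fun x : ℝ => ‖P (x + t * Complex.I) - p‖) (𝓝[>] 0) (𝓝 ‖z - p‖) :=
      (Tendsto.sub_const hlt p).norm
    refine le_of_tendsto h1 ?_
    filter_upwards [Ioc_mem_nhdsGT hx₀] with x hx
    exact hall x hx.1 hx.2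
  linarith

end Pool.Agent.Imp
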