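import Pool.Agent.Lib.MP_1c105c_an.Defs16
import Pool.Agent.Lib.MP_1c105c_an.Nll
import Pool.Agent.Lib.MP_1c105c_an.Liv

/-! MP_1c105c_an, row NLA: rays of periodic angles close to an angle whose ray accumulates only in a
simply connected open set without points of the critical orbits. -/

set_option autoImplicit false

open Filter Topology Set Polynomial

namespace Pool.Agent.Imp

namespace Nla51

open Thr58 Nll60

variable {f : ℂ[X]} {P : ℂ → ℂ}

/-- branches of the inverses of the iterates on a simply connected open set -/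
theorem branch {V : Set ℂ} (hV : IsOpen V) (hsc : SimplyConnectedSpace V)
    (hdis : Disjoint V (postcritical f)) (q : ℕ) : ∀ z₀ w : ℂ, z₀ ∈ V →
    (fun w => f.eval w)^[q] w = z₀ → ∃ g : ℂ → ℂ, DifferentiableOn ℂ g V ∧
      (∀ z ∈ V, (fun w => f.eval w)^[q] (g z) = z) ∧ g z₀ = w := by
  induction q with
  | zero =>
    intro z₀ w hz₀ hw
    exact ⟨fun z => z, differentiableOn_id, fun z _ => rfl, hw.symm⟩
  | succ n ih =>
    intro z₀ w hz₀ hw
    rw [Function.iterate_succ_apply] at hw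
    obtain ⟨g, hg1, hg2, hg3⟩ := ih z₀ (f.eval w) hz₀ hw
    obtain ⟨h, hh1, hh2, hh3⟩ := liv f V g hV hsc hg1 (by
      intro z hz c hc he
      refine Set.disjoint_left.1 hdis hz ⟨c, n, hc, ?_⟩
      rw [Function.iterate_succ_apply]
      show (fun w => f.eval w)^[n] (f.eval c) = z
      rw [he]
      exact hg2 z hz) z₀ hz₀ w hg3.symm
    refine ⟨h, hh1, fun z hz => ?_, hh3⟩
    rw [Function.iterate_succ_apply]
    show (fun w => f.eval w)^[n] (f.eval (h z)) = z
    rw [hh2 z hz]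
    exact hg2 z hz

theorem ev_bdd (hP : Half f P) (a : ℝ) : ∃ R : ℝ, ∀ᶠ x : ℝ in 𝓝[>] 0,
    P (x + a * Complex.I) ∈ Metric.closedBall (0 : ℂ) R := by
  obtain ⟨R, hR⟩ := hP.bdd
  refine ⟨R, ?_⟩
  filter_upwards [Ioc_mem_nhdsGT (one_pos : (0 : ℝ) < 1)] with x hx
  rw [mem_closedBall_zero_iff]
  exact hR _ (by rw [ray_re]; exact hx.1) (by rw [ray_re]; exact hx.2)

theorem acc_compact (hP : Half f P) (a : ℝ) : IsCompact (Acc P a) := by
  obtain ⟨R, hR⟩ := ev_bdd hP a
  refine (isCompact_closedBall (0 : ℂ) R).of_isClosed_subset ?_ ?_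
  · exact isClosed_setOfPred_clusterPt
  · intro z hz
    have h1 : ClusterPt z (map (fun x : ℝ => P (x + a * Complex.I)) (𝓝[>] 0)) := hz
    have h2 := clusterPt_iff_forall_mem_closure.1 h1 _ hR
    rwa [Metric.isClosed_closedBall.closure_eq] at h2

theorem near (hP : Half f P) (a : ℝ) {U : Set ℂ} (hU : IsOpen U) (h : Acc P a ⊆ U) :
    ∃ x₀ : ℝ, 0 < x₀ ∧ ∀ x : ℝ, 0 < x → x ≤ x₀ → P (x + a * Complex.I) ∈ U := by
  have h1 : ∀ᶠ x : ℝ in 𝓝[>] 0, P (x + a * Complex.I) ∈ U := by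
    by_contra hcon
    obtain ⟨R, hR⟩ := ev_bdd hP a
    have h2 : ∃ᶠ x : ℝ in 𝓝[>] 0, P (x + a * Complex.I) ∈ Metric.closedBall (0 : ℂ) R ∩ Uᶜ := by
      have h3 : ∃ᶠ x : ℝ in 𝓝[>] 0, P (x + a * Complex.I) ∉ U := not_eventually.1 hcon
      exact (h3.and_eventually hR).mono fun x hx => ⟨hx.2, hx.1⟩
    have hc : IsCompact (Metric.closedBall (0 : ℂ) R ∩ Uᶜ) :=
      (isCompact_closedBall _ _).inter_right hU.isClosed_compl
    obtain ⟨y, hy, hy2⟩ := hc.exists_mapClusterPt_of_frequently h2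
    exact hy.2 (h hy2)
  obtain ⟨u, hu, hsub⟩ := mem_nhdsGT_iff_exists_Ioo_subset.1 h1
  have hu' : 0 < u := hu
  refine ⟨u / 2, by positivity, fun x hx hx2 => ?_⟩
  have h3 : x ∈ Ioo 0 u := ⟨hx, by linarith⟩
  exact hsub h3

end Nla51

open Thr58 Nll60 Nla51

theorem nla : NlaStatement := by
  intro f P hd hP hinf a C V hV hsc hdis hacc ε hε
  have hd1 : (1 : ℝ) < f.natDegree := by exact_mod_cast (show 1 < f.natDegree by omega)
  have hd0 : (0 : ℝ) < f.natDegree := by linarith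
  have hQc := acc_compact hP a
  obtain ⟨δ, hδ, hδV⟩ := hQc.exists_thickening_subset_open hV hacc
  obtain ⟨r, hr, hrδ⟩ : ∃ r : ℝ, 0 < r ∧ 4 * r = δ := ⟨δ / 4, by positivity, by ring⟩
  obtain ⟨e, he, heε, her⟩ : ∃ e : ℝ, 0 < e ∧ e ≤ ε ∧ e ≤ r :=
    ⟨min ε r, lt_min hε hr, min_le_left _ _, min_le_right _ _⟩
  -- the level
  obtain ⟨x₀, hx₀, hxa⟩ := near hP a (U := Metric.thickening (e / 8) (Acc P a))
    Metric.isOpen_thickening (Metric.self_subset_thickening (by positivity) _)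
  obtain ⟨N₁, hN₁⟩ := close hd hP a C hx₀ (e := e / 8) (by positivity)
  -- the closure of the piece of the ray
  obtain ⟨Q, hQ⟩ : ∃ Q : Set ℂ, Q = closure ((fun x : ℝ => P (x + a * Complex.I)) '' Ioc 0 x₀) :=
    ⟨_, rfl⟩
  have hmem : ∀ x : ℝ, 0 < x → x ≤ x₀ → P (x + a * Complex.I) ∈ Q := by
    intro x hx1 hx2
    rw [hQ]
    exact subset_closure ⟨x, ⟨hx1, hx2⟩, rfl⟩
  have hQcth : Q ⊆ Metric.cthickening (e / 8) (Acc P a) := by
    rw [hQ]
    refine closure_minimal ?_ Metric.isClosed_cthickening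
    rintro _ ⟨x, hx, rfl⟩
    exact Metric.thickening_subset_cthickening _ _ (hxa x hx.1 hx.2)
  have hQcomp : IsCompact Q := by
    refine hQc.cthickening.of_isClosed_subset ?_ hQcth
    rw [hQ]
    exact isClosed_closure
  have hQpre : IsPreconnected Q := by
    rw [hQ]
    refine (isPreconnected_Ioc.image _ ?_).closure
    refine hP.diff.continuousOn.comp (by fun_prop) fun x hx => ray_HP hx.1 a
  have hQint : Disjoint Q (interior (filledJulia f)) := by
    rw [Set.disjoint_left]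
    intro z hz hzi
    have h1 : Q ⊆ closure (filledJulia f)ᶜ := by
      rw [hQ]
      refine closure_mono ?_
      rw [← hP.range]
      rintro _ ⟨x, hx, rfl⟩
      exact ⟨_, ray_HP hx.1 a, rfl⟩
    have h2 := h1 hz
    rw [closure_compl] at h2
    exact h2 hzi
  have hball : ∀ p ∈ Q, Metric.ball p (2 * r) ⊆ V := by
    intro p hp v hv
    have h1 : p ∈ Metric.thickening (2 * r) (Acc P a) :=
      Metric.cthickening_subset_thickening' (by positivity) (by linarith) _ (hQcth hp)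
    obtain ⟨y, hy, hyp⟩ := Metric.mem_thickening_iff.1 h1
    refine hδV (Metric.mem_thickening_iff.2 ⟨y, hy, ?_⟩)
    rw [Metric.mem_ball] at hv
    have h2 := dist_triangle v p y
    linarith
  have hQV : Q ⊆ V := fun p hp => hball p hp (Metric.mem_ball_self (by positivity))
  obtain ⟨N₂, hN₂⟩ := Uco.small hd hQcomp hQV hQint (ρ := 2 * r) (by positivity) hball
    (c := e / 24 / (Real.exp 65536 * (2 * r))) (by positivity)
  obtain ⟨N₃, hN₃⟩ := uco f P hd hP hinf V Q hV hQcomp hQpre hQV hQint (e / 24) (by positivity)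
  refine ⟨max (max N₁ (max N₂ N₃)) 1, fun q t m z hq ht hta hlt => ?_⟩
  have hq1 : N₁ ≤ q := (le_max_left _ _).trans ((le_max_left _ _).trans hq)
  have hq2 : N₂ ≤ q := (le_max_left _ _).trans ((le_max_right _ _).trans
    ((le_max_left _ _).trans hq))
  have hq4 : N₃ ≤ q := (le_max_right _ _).trans ((le_max_right _ _).trans
    ((le_max_left _ _).trans hq))
  have hq3 : 1 ≤ q := (le_max_right _ _).trans hq
  obtain ⟨D, hD⟩ : ∃ D : ℝ, D = (f.natDegree : ℝ) ^ q := ⟨_, rfl⟩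
  have hDc : ((D : ℝ) : ℂ) = (f.natDegree : ℂ) ^ q := by
    rw [hD]
    push_cast
    ring
  have hD1 : 1 < D := by
    rw [hD]
    exact one_lt_pow₀ hd1 (by omega)
  have hD0 : 0 < D := by linarith
  rw [← hD] at ht hta
  have hpiece : ∀ x : ℝ, x₀ / D ≤ x → x ≤ x₀ →
      ‖P (x + t * Complex.I) - P (x + a * Complex.I)‖ ≤ e / 8 := fun x hx1 hx2 =>
    hN₁ q t hq1 (by rw [← hD]; exact hta) x (by rw [← hD]; exact hx1) hx2
  have hxD : x₀ / D ≤ x₀ := div_le_self hx₀.le hD1.le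
  have hxD0 : 0 < x₀ / D := div_pos hx₀ hD0
  have htD : (t + m) / D = t := by
    rw [← ht]
    field_simp
  -- the branch
  have hiter : ∀ x : ℝ, 0 < x → (fun w => f.eval w)^[q] (P (((x / D : ℝ) : ℂ) + t * Complex.I)) =
      P (x + t * Complex.I) := by
    intro x hx
    rw [iter_P hd hP (by rw [ray_re]; exact div_pos hx hD0), ← hDc, ← per_ray hP x t m, ← ht]
    congr 1
    have h1 : (D : ℂ) * (x / D) = x := mul_div_cancel₀ _ (by exact_mod_cast hD0.ne')
    push_cast
    rw [mul_add, h1]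
    ring
  have hnearV : ∀ p ∈ Q, ∀ v : ℂ, ‖v - p‖ ≤ e / 4 → v ∈ V := by
    intro p hp v hv
    refine hball p hp ?_
    rw [mem_ball_iff_norm]
    linarith
  have hb0 : P (x₀ + t * Complex.I) ∈ V :=
    hnearV _ (hmem x₀ hx₀ le_rfl) _ ((hpiece x₀ hxD le_rfl).trans (by linarith))
  obtain ⟨g, hg1, hg2, hg3⟩ := branch hV hsc hdis q (P (x₀ + t * Complex.I))
    (P (((x₀ / D : ℝ) : ℂ) + t * Complex.I)) hb0 (hiter x₀ hx₀)
  have hginj : InjOn g V := Uco.injOn_of hg2
  have hgd := hN₂ q hq2 g hg1 hg2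
  have hosc : ∀ p ∈ Q, ∀ y : ℂ, ‖y - p‖ ≤ e / 4 → ‖g y - g p‖ ≤ e / 24 := by
    intro p hp y hy
    have h3 := Uco.osc (by positivity : 0 < 2 * r) (hg1.mono (hball p hp))
      (hginj.mono (hball p hp)) (hgd p hp) (q := y) (by
        rw [mul_div_cancel_left₀ r (by norm_num : (2 : ℝ) ≠ 0), mem_ball_iff_norm]
        linarith)
    refine h3.trans (le_of_eq ?_)
    have : Real.exp 65536 ≠ 0 := (Real.exp_pos _).ne'
    field_simp
  have hsmall : ∀ p ∈ Q, ∀ y : ℂ, ‖y - p‖ ≤ e / 4 →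
      ‖g y - P (((x₀ / D : ℝ) : ℂ) + a * Complex.I)‖ ≤ e / 4 := by
    intro p hp y hy
    have h1 := hosc p hp y hy
    have h2 := hosc _ (hmem x₀ hx₀ le_rfl) _ ((hpiece x₀ hxD le_rfl).trans (by linarith))
    rw [hg3] at h2
    have h3 := hN₃ q hq4 g hg1 hg2 p hp _ (hmem x₀ hx₀ le_rfl)
    have h4 := hpiece (x₀ / D) le_rfl hxD
    have e1 : g y - P (((x₀ / D : ℝ) : ℂ) + a * Complex.I) = (g y - g p) +
        (g p - g (P (x₀ + a * Complex.I))) -
        (P (((x₀ / D : ℝ) : ℂ) + t * Complex.I) - g (P (x₀ + a * Complex.I))) +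
        (P (((x₀ / D : ℝ) : ℂ) + t * Complex.I) - P (((x₀ / D : ℝ) : ℂ) + a * Complex.I)) := by
      ring
    rw [e1]
    refine (norm_add_le _ _).trans ?_
    refine (add_le_add_left ((norm_sub_le _ _).trans (add_le_add_left (norm_add_le _ _) _)) _).trans
      ?_
    linarith
  have hder : ∀ y ∈ V, (f.comp^[q] X).derivative.eval (g y) ≠ 0 := by
    intro y hy h0
    have h1 : HasDerivAt g (deriv g y) y :=
      (hg1.differentiableAt (hV.mem_nhds hy)).hasDerivAt
    have h2 := ((f.comp^[q] X).hasDerivAt (g y)).comp y h1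
    rw [h0, zero_mul] at h2
    have h3 : (fun v => (f.comp^[q] X).eval (g v)) =ᶠ[𝓝 y] fun v => v := by
      filter_upwards [hV.mem_nhds hy] with v hv
      rw [show (f.comp^[q] X).eval (g v) = (fun w => f.eval w)^[q] (g v) from Nr.it_eval f q (g v)]
      exact hg2 v hv
    have h4 := (h2.congr_of_eventuallyEq h3.symm).unique (hasDerivAt_id' y)
    exact zero_ne_one h4
  -- the induction
  have hB : ∀ n : ℕ, ∀ x : ℝ, x₀ / D ^ (n + 1) ≤ x → x ≤ x₀ →
      (∃ p ∈ Q, ‖P (x + t * Complex.I) - p‖ ≤ e / 4) ∧ (x < x₀ / D →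
        ‖P (x + t * Complex.I) - P (((x₀ / D : ℝ) : ℂ) + a * Complex.I)‖ ≤ e / 4) := by
    intro n
    induction n with
    | zero =>
      intro x hx1 hx2
      rw [zero_add, pow_one] at hx1
      exact ⟨⟨_, hmem x (lt_of_lt_of_le hxD0 hx1) hx2, (hpiece x hx1 hx2).trans (by linarith)⟩,
        fun h => absurd hx1 (not_le.2 h)⟩
    | succ n ih =>
      intro x' hx1 hx2
      rcases le_or_gt (x₀ / D) x' with h | h
      · exact ⟨⟨_, hmem x' (lt_of_lt_of_le hxD0 h) hx2, (hpiece x' h hx2).trans (by linarith)⟩,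
          fun h' => absurd h (not_le.2 h')⟩
      have hDn : 0 < D ^ (n + 1) := pow_pos hD0 _
      have hlow : 0 < x₀ / D ^ (n + 1) := div_pos hx₀ hDn
      obtain ⟨S, hS⟩ : ∃ S : Set ℂ, S = (fun s : ℝ => (s : ℂ) + t * Complex.I) ''
        Icc (x₀ / D ^ (n + 1)) x₀ := ⟨_, rfl⟩
      have hSp : IsPreconnected S := by
        rw [hS]
        exact isPreconnected_Icc.image _ (by fun_prop)
      have hSm : ∀ u ∈ S, u ∈ HP ∧ ∃ p ∈ Q, ‖P u - p‖ ≤ e / 4 := by
        rw [hS]
        rintro _ ⟨s, hs, rfl⟩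
        exact ⟨ray_HP (lt_of_lt_of_le hlow hs.1) t, (ih s hs.1 hs.2).1⟩
      have hSV : ∀ u ∈ S, P u ∈ V := by
        intro u hu
        obtain ⟨-, p, hp, h1⟩ := hSm u hu
        exact hnearV p hp _ h1
      have hdiv : ∀ u : ℂ, u ∈ HP → (u + m * Complex.I) / D ∈ HP := by
        intro u hu
        show 0 < ((u + m * Complex.I) / D).re
        rw [Complex.div_ofReal_re]
        have : (u + m * Complex.I).re = u.re := by simp
        rw [this]
        exact div_pos hu hD0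
      have hDc0 : (D : ℂ) ≠ 0 := by exact_mod_cast hD0.ne'
      have heq : ∀ x : ℝ, ((x : ℂ) + t * Complex.I + m * Complex.I) / D =
          ((x / D : ℝ) : ℂ) + t * Complex.I := by
        intro x
        have h1 : ((t : ℂ) + m) / D = t := by exact_mod_cast htD
        have h2 : ((x : ℂ) + t * Complex.I + m * Complex.I) / D =
            x / D + (t + m) / D * Complex.I := by ring
        rw [h2, h1]
        push_cast
        ring
      have key := uniq (f.comp^[q] X) S (fun u => g (P u))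
        (fun u => P ((u + m * Complex.I) / D)) hSp
        (hg1.continuousOn.comp (hP.diff.continuousOn.mono fun u hu => (hSm u hu).1)
          fun u hu => hSV u hu)
        (hP.diff.continuousOn.comp (by fun_prop) fun u hu => hdiv u (hSm u hu).1)
        (by
          intro u hu
          rw [show (f.comp^[q] X).eval (g (P u)) = (fun w => f.eval w)^[q] (g (P u)) from
            Nr.it_eval f q _, show (f.comp^[q] X).eval (P ((u + m * Complex.I) / D)) =
            (fun w => f.eval w)^[q] (P ((u + m * Complex.I) / D)) from Nr.it_eval f q _,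
            hg2 _ (hSV u hu), iter_P hd hP (hdiv u (hSm u hu).1), ← hDc,
            mul_div_cancel₀ _ hDc0, per_int hP])
        (fun u hu => hder _ (hSV u hu)) (x₀ + t * Complex.I)
        (by
          rw [hS]
          exact ⟨x₀, ⟨div_le_self hx₀.le (one_le_pow₀ hD1.le), le_rfl⟩, rfl⟩)
        (by
          show g (P (x₀ + t * Complex.I)) = P ((x₀ + t * Complex.I + m * Complex.I) / D)
          rw [heq x₀, hg3])
      have hx3 : x₀ / D ^ (n + 1) ≤ D * x' := by
        rw [div_le_iff₀ (pow_pos hD0 _)] at hx1 ⊢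
        rw [pow_succ D (n + 1)] at hx1
        linarith
      have hx4 : D * x' ≤ x₀ := by
        rw [lt_div_iff₀ hD0] at h
        linarith
      have hmemS : (((D * x' : ℝ) : ℂ) + t * Complex.I) ∈ S := by
        rw [hS]
        exact ⟨D * x', ⟨hx3, hx4⟩, rfl⟩
      have h5 := key hmemS
      have h6 : g (P (((D * x' : ℝ) : ℂ) + t * Complex.I)) = P (x' + t * Complex.I) := by
        have h7 : P ((((D * x' : ℝ) : ℂ) + t * Complex.I + m * Complex.I) / D) =
            P (x' + t * Complex.I) := by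
          rw [heq (D * x'), mul_div_cancel_left₀ x' hD0.ne']
        rw [← h7]
        exact h5
      obtain ⟨-, p, hp, h8⟩ := hSm _ hmemS
      have h9 := hsmall p hp _ h8
      rw [h6] at h9
      exact ⟨⟨_, hmem _ hxD0 hxD, h9⟩, fun _ => h9⟩
  have hall : ∀ x : ℝ, 0 < x → x < x₀ / D →
      ‖P (x + t * Complex.I) - P (((x₀ / D : ℝ) : ℂ) + a * Complex.I)‖ ≤ e / 4 := by
    intro x hx hx2
    obtain ⟨n, hn⟩ := pow_unbounded_of_one_lt (x₀ / x) hD1
    refine (hB n x ?_ (hx2.le.trans hxD)).2 hx2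
    rw [div_le_iff₀ (pow_pos hD0 _)]
    rw [div_lt_iff₀ hx] at hn
    have h1 : D ^ n ≤ D ^ (n + 1) := pow_le_pow_right₀ hD1.le (by omega)
    nlinarith
  have hfin : ‖z - P (((x₀ / D : ℝ) : ℂ) + a * Complex.I)‖ ≤ e / 4 := by
    have h1 : Tendsto (fun x : ℝ => ‖P (x + t * Complex.I) -
        P (((x₀ / D : ℝ) : ℂ) + a * Complex.I)‖) (𝓝[>] 0)
        (𝓝 ‖z - P (((x₀ / D : ℝ) : ℂ) + a * Complex.I)‖) :=
      (Tendsto.sub_const hlt _).norm
    refine le_of_tendsto h1 ?_
    filter_upwards [Ioo_mem_nhdsGT hxD0] with x hx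
    exact hall x hx.1 hx.2
  obtain ⟨y, hy, hyd⟩ := Metric.mem_thickening_iff.1 (hxa (x₀ / D) hxD0 hxD)
  refine ⟨y, hy, ?_⟩
  rw [dist_eq_norm] at hyd
  have h1 := norm_add_le (z - P (((x₀ / D : ℝ) : ℂ) + a * Complex.I))
    (P (((x₀ / D : ℝ) : ℂ) + a * Complex.I) - y)
  rw [sub_add_sub_cancel] at h1
  linarith

end Pool.Agent.Imp
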