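import Pool.Agent.Lib.MP_1c105c_an.Nlna
import Pool.Agent.Lib.MP_1c105c_an.Nla
import Pool.Agent.Lib.MP_1c105c_an.Ckf

/-! MP_1c105c_an: rays near periodic rays that land near the closure of the critical orbits. -/

set_option autoImplicit false

open Filter Topology Set Polynomial

namespace Pool.Agent.Imp

namespace Nlg64

/-- Rays of periodic angles near `a` land near the closure of the critical orbits. -/
def NearPost (f : ℂ[X]) (P : ℂ → ℂ) (a C : ℝ) : Prop :=
  ∀ ε : ℝ, 0 < ε → ∀ N : ℕ, ∃ (q : ℕ) (t : ℝ) (m : ℤ) (z y : ℂ), N ≤ q ∧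
    (f.natDegree : ℝ) ^ q * t = t + m ∧ |t - a| * (f.natDegree : ℝ) ^ q ≤ C ∧ Land P t z ∧
    y ∈ closure (postcritical f) ∧ ‖z - y‖ < ε

variable {f : ℂ[X]} {P : ℂ → ℂ}

/-- If the ray of angle `a` lands, its landing point is in the closure of the critical orbits. -/
theorem mem (hd : 2 ≤ f.natDegree) (hP : Half f P)
    (hinf : ∀ R : ℝ, ∃ M : ℝ, ∀ u : ℂ, M ≤ u.re → R ≤ ‖P u‖) {p : ℂ} {a C : ℝ}
    (hp : Land P a p) (h : NearPost f P a C) : p ∈ closure (postcritical f) := by
  by_contra hpP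
  obtain ⟨δ, hδ, hball⟩ := Metric.isOpen_iff.1 isClosed_closure.isOpen_compl p hpP
  obtain ⟨N, hN⟩ := nll f P hd hP hinf a C p hp hpP (δ / 3) (by positivity)
  obtain ⟨q, t, m, z, y, hq, ht, hta, hl, hy, hz⟩ := h (δ / 3) (by positivity) N
  have h1 := hN q t m z hq ht hta hl
  refine hball (?_ : y ∈ Metric.ball p δ) hy
  rw [mem_ball_iff_norm]
  have h2 : ‖y - p‖ ≤ ‖z - p‖ + ‖z - y‖ := by
    have := norm_sub_le (z - p) (z - y)
    simpa using this
  linarith

/-- The accumulation set of the ray of angle `a` is in no simply connected open set without points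
of the critical orbits. -/
theorem not_sub (nla : NlaStatement) (hd : 2 ≤ f.natDegree) (hP : Half f P)
    (hinf : ∀ R : ℝ, ∃ M : ℝ, ∀ u : ℂ, M ≤ u.re → R ≤ ‖P u‖) {a C : ℝ} {V : Set ℂ}
    (hV : IsOpen V) (hsc : SimplyConnectedSpace V) (hVP : Disjoint V (postcritical f))
    (h : NearPost f P a C) : ¬ Acc P a ⊆ V := by
  intro hsub
  have hdis : Disjoint (Acc P a) (closure (postcritical f)) :=
    (hVP.closure_right hV).mono_left hsub
  obtain ⟨δ, hδ, hdd⟩ := hdis.exists_thickenings (Nla51.acc_compact hP a) isClosed_closure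
  obtain ⟨N, hN⟩ := nla f P hd hP hinf a C V hV hsc hVP hsub (δ / 2) (by positivity)
  obtain ⟨q, t, m, z, y, hq, ht, hta, hl, hy, hz⟩ := h (δ / 2) (by positivity) N
  obtain ⟨y', hy', hyz⟩ := hN q t m z hq ht hta hl
  refine Set.disjoint_left.1 hdd (Metric.mem_thickening_iff.2 ⟨y', hy', ?_⟩)
    (Metric.mem_thickening_iff.2 ⟨y, hy, ?_⟩ : z ∈ _)
  · rw [dist_eq_norm]
    linarith
  · rw [dist_eq_norm]
    linarith

/-- The property is preserved by multiplication of the angle by `d ^ k`. -/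
theorem iter (hd : 2 ≤ f.natDegree) (hP : Half f P) {a C : ℝ} (h : NearPost f P a C) (k : ℕ) :
    NearPost f P ((f.natDegree : ℝ) ^ k * a) ((f.natDegree : ℝ) ^ k * C) := by
  intro ε hε N
  have hdk : (0 : ℝ) ≤ (f.natDegree : ℝ) ^ k := by positivity
  obtain ⟨-, hKb, -⟩ := jul f P hd hP
  obtain ⟨R, hR⟩ := hKb.subset_closedBall 0
  have hcomp : IsCompact (Metric.closedBall (0 : ℂ) (R + 1)) := isCompact_closedBall _ _
  have hun := hcomp.uniformContinuousOn_of_continuous (f := (fun w => f.eval w)^[k])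
    (f.continuous.iterate k).continuousOn
  obtain ⟨δ, hδ, hδ'⟩ := Metric.uniformContinuousOn_iff.1 hun ε hε
  obtain ⟨q, t, m, z, y, hq, ht, hta, hl, hy, hz⟩ := h (min δ 1) (lt_min hδ one_pos) N
  have hzK : ‖z‖ ≤ R := by
    have h1 := hR ((Jul.closed f hd).frontier_subset (Thr58.land_julia hd hP hl))
    rwa [mem_closedBall_zero_iff] at h1
  have hz1 : ‖z - y‖ < 1 := hz.trans_le (min_le_right _ _)
  have hyR : ‖y‖ ≤ R + 1 := by
    have h1 : ‖y‖ ≤ ‖z‖ + ‖z - y‖ := by
      have := norm_sub_le z (z - y)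
      simpa using this
    linarith
  have hd1 := hδ' z (by rw [mem_closedBall_zero_iff]; linarith) y
    (by rw [mem_closedBall_zero_iff]; exact hyR)
    (by rw [dist_eq_norm]; exact hz.trans_le (min_le_left _ _))
  refine ⟨q, (f.natDegree : ℝ) ^ k * t, (f.natDegree : ℤ) ^ k * m, (fun w => f.eval w)^[k] z,
    (fun w => f.eval w)^[k] y, hq, ?_, ?_, land_iter hd hP hl k, post_closure hy k, ?_⟩
  · push_cast
    linear_combination (f.natDegree : ℝ) ^ k * ht
  · have e : (f.natDegree : ℝ) ^ k * t - (f.natDegree : ℝ) ^ k * a =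
        (f.natDegree : ℝ) ^ k * (t - a) := by ring
    rw [e, abs_mul, abs_of_nonneg hdk, mul_assoc]
    exact mul_le_mul_of_nonneg_left hta hdk
  · rwa [dist_eq_norm] at hd1

/-- The landing points of two rays with the same image near periodic rays that land near the
closure of the critical orbits. -/
theorem pair (hd : 2 ≤ f.natDegree) (hP : Half f P)
    (hinf : ∀ R : ℝ, ∃ M : ℝ, ∀ u : ℂ, M ≤ u.re → R ≤ ‖P u‖) {a b C : ℝ} {m₀ : ℤ}
    (hab : f.natDegree * b = f.natDegree * a + m₀) (hne : ∀ k : ℤ, b ≠ a + k)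
    (ha : NearPost f P a C) (hb : NearPost f P b C) {w : ℂ} (hw : Land P (f.natDegree * a) w) :
    ∃ p p' : ℂ, Land P a p ∧ Land P b p' ∧ f.eval p = w ∧ f.eval p' = w ∧
      (p ≠ p' ∨ f.derivative.eval p = 0) ∧
      p ∈ closure (postcritical f) ∧ p' ∈ closure (postcritical f) := by
  obtain ⟨p, hpw, hp⟩ := lfr f P hd hP a w hw
  have hw' : Land P (f.natDegree * b) w := by
    rw [hab]
    refine Rep.land_add hP.per (-m₀) ?_
    have : (f.natDegree : ℝ) * a + m₀ + ((-m₀ : ℤ) : ℝ) = f.natDegree * a := by push_cast; ring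
    rw [this]
    exact hw
  obtain ⟨p', hpw', hp'⟩ := lfr f P hd hP b w hw'
  refine ⟨p, p', hp, hp', hpw, hpw', ?_, mem hd hP hinf hp ha, mem hd hP hinf hp' hb⟩
  by_cases he : p = p'
  · rw [← he] at hp'
    exact Or.inr (dst f P hd hP a b m₀ p hab hne hp hp')
  · exact Or.inl he

/-- Polynomials with one critical point and small cycles: the critical point is not a landing
point. -/
theorem crit_not (rotp : RotpStatement) (pul : PulStatement) (crx : CrxdStatement)
    (hd : 2 ≤ f.natDegree) (hP : Half f P)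
    (hinf : ∀ R : ℝ, ∃ M : ℝ, ∀ u : ℂ, M ≤ u.re → R ≤ ‖P u‖) {α c : ℂ} {p : ℕ} (hp : 1 ≤ p)
    (hα : (fun w => f.eval w)^[p] α = α) (hsm : RayCyclesP f P α)
    (hc : ∀ z, f.derivative.eval z = 0 → z = c) {x : ℂ} (hx : f.derivative.eval x = 0) {s : ℝ} :
    ¬ Land P s x := by
  intro hl
  have hxc := hc x hx
  subst hxc
  have h1 := Rep.land_mul hd hP hl
  have h2 : f.eval x ∈ filledJulia f :=
    (Jul.closed f hd).frontier_subset (Thr58.land_julia hd hP h1)
  obtain ⟨j, hj⟩ := spap rotp pul crx hd hP hinf hp hα hsm hc (E := {f.eval x}) (n := 0)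
    isCompact_singleton isPreconnected_singleton (Set.singleton_subset_iff.2 h2) rfl rfl h1
  exact Scg.val_ne hd hP hp hα hsm hc hx j hj.symm

end Nlg64

end Pool.Agent.Imp
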