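import Pool.Agent.Lib.MP_1c105c_an.Defs16
import Pool.Agent.Lib.MP_1c105c_an.Nltp

/-! MP_1c105c_an: the accumulation sets of the rays near small cycles meet the closure of the
critical orbits. -/

set_option autoImplicit false

open Filter Topology Set Polynomial

namespace Pool.Agent.Imp

theorem acc_closed (P : ℂ → ℂ) (t : ℝ) : IsClosed (Acc P t) :=
  isClosed_setOfPred_clusterPt

/-- The accumulation set of a ray near periodic rays that land near `α` is in no simply connected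
open set without points of the critical orbits. -/
theorem nla_not (nla : NlaStatement) {f : ℂ[X]} {P : ℂ → ℂ} (hd : 2 ≤ f.natDegree)
    (hP : Half f P) (hinf : ∀ R : ℝ, ∃ M : ℝ, ∀ u : ℂ, M ≤ u.re → R ≤ ‖P u‖) {α : ℂ} {a C : ℝ}
    (hαP : α ∈ closure (postcritical f)) {V : Set ℂ} (hV : IsOpen V)
    (hsc : SimplyConnectedSpace V) (hVP : Disjoint V (postcritical f))
    (h : ∀ ε : ℝ, 0 < ε → ∀ N : ℕ, ∃ (q : ℕ) (t : ℝ) (m : ℤ) (z : ℂ), N ≤ q ∧
      (f.natDegree : ℝ) ^ q * t = t + m ∧ |t - a| * (f.natDegree : ℝ) ^ q ≤ C ∧ Land P t z ∧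
      ‖z - α‖ < ε) : ¬ Acc P a ⊆ V := by
  intro hsub
  have hαV : α ∉ V := fun h1 => by
    obtain ⟨y, hy, hy'⟩ := mem_closure_iff.1 hαP V hV h1
    exact Set.disjoint_left.1 hVP hy hy'
  obtain ⟨δ, hδ, hδ'⟩ := Metric.isOpen_iff.1 (acc_closed P a).isOpen_compl α
    fun h1 => hαV (hsub h1)
  obtain ⟨N, hN⟩ := nla f P hd hP hinf a C V hV hsc hVP hsub (δ / 2) (by positivity)
  obtain ⟨q, t, m, z, hq, ht, hta, hl, hz⟩ := h (δ / 2) (by positivity) N
  obtain ⟨y, hy, hyz⟩ := hN q t m z hq ht hta hl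
  refine hδ' (?_ : y ∈ Metric.ball α δ) hy
  rw [mem_ball_iff_norm]
  have h1 : ‖y - α‖ ≤ ‖z - α‖ + ‖z - y‖ := by
    have := norm_sub_le (z - α) (z - y)
    simpa using this
  linarith

theorem post_closure {f : ℂ[X]} {z : ℂ} (hz : z ∈ closure (postcritical f)) (k : ℕ) :
    (fun w => f.eval w)^[k] z ∈ closure (postcritical f) := by
  have hm : MapsTo (fun w => f.eval w) (postcritical f) (postcritical f) := by
    rintro _ ⟨c, n, hc, rfl⟩
    refine ⟨c, n + 1, hc, ?_⟩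
    rw [Function.iterate_succ_apply' (fun w => f.eval w) (n + 1)]
  have hm' : MapsTo (fun w => f.eval w) (closure (postcritical f)) (closure (postcritical f)) :=
    hm.closure f.continuous
  exact hm'.iterate k hz

/-- The accumulation set of the image of a ray near periodic rays that land near `α` is in no
simply connected open set without points of the critical orbits. -/
theorem nla_iter (nla : NlaStatement) {f : ℂ[X]} {P : ℂ → ℂ} (hd : 2 ≤ f.natDegree)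
    (hP : Half f P) (hinf : ∀ R : ℝ, ∃ M : ℝ, ∀ u : ℂ, M ≤ u.re → R ≤ ‖P u‖) {α : ℂ} {a C : ℝ}
    (hαP : α ∈ closure (postcritical f)) (k : ℕ) {V : Set ℂ} (hV : IsOpen V)
    (hsc : SimplyConnectedSpace V) (hVP : Disjoint V (postcritical f))
    (h : ∀ ε : ℝ, 0 < ε → ∀ N : ℕ, ∃ (q : ℕ) (t : ℝ) (m : ℤ) (z : ℂ), N ≤ q ∧
      (f.natDegree : ℝ) ^ q * t = t + m ∧ |t - a| * (f.natDegree : ℝ) ^ q ≤ C ∧ Land P t z ∧
      ‖z - α‖ < ε) : ¬ Acc P ((f.natDegree : ℝ) ^ k * a) ⊆ V := by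
  have hdk : (0 : ℝ) ≤ (f.natDegree : ℝ) ^ k := by positivity
  refine nla_not nla hd hP hinf (C := (f.natDegree : ℝ) ^ k * C) (post_closure hαP k) hV hsc hVP
    fun ε hε N => ?_
  have hcont : ContinuousAt ((fun w => f.eval w)^[k]) α :=
    (f.continuous.iterate k).continuousAt
  obtain ⟨δ, hδ, hδ'⟩ := Metric.continuousAt_iff.1 hcont ε hε
  obtain ⟨q, t, m, z, hq, ht, hta, hl, hz⟩ := h δ hδ N
  refine ⟨q, (f.natDegree : ℝ) ^ k * t, (f.natDegree : ℤ) ^ k * m, (fun w => f.eval w)^[k] z, hq,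
    ?_, ?_, land_iter hd hP hl k, ?_⟩
  · push_cast
    linear_combination (f.natDegree : ℝ) ^ k * ht
  · have e : (f.natDegree : ℝ) ^ k * t - (f.natDegree : ℝ) ^ k * a =
        (f.natDegree : ℝ) ^ k * (t - a) := by ring
    rw [e, abs_mul, abs_of_nonneg hdk, mul_assoc]
    exact mul_le_mul_of_nonneg_left hta hdk
  · have h1 := hδ' (x := z) (by rwa [dist_eq_norm])
    rwa [dist_eq_norm] at h1

/-- NLNA. -/
theorem nlna (nla : NlaStatement) {f : ℂ[X]} {P : ℂ → ℂ} (hd : 2 ≤ f.natDegree)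
    (hP : Half f P) (hinf : ∀ R : ℝ, ∃ M : ℝ, ∀ u : ℂ, M ≤ u.re → R ≤ ‖P u‖) {α : ℂ} {n₀ : ℕ}
    (hn₀ : 1 ≤ n₀) (hα : (fun w => f.eval w)^[n₀] α = α) {a b C : ℝ}
    (h : SmallPairsP f P α a b C) (k : ℕ) {V : Set ℂ} (hV : IsOpen V)
    (hsc : SimplyConnectedSpace V) (hVP : Disjoint V (postcritical f)) :
    ¬ Acc P ((f.natDegree : ℝ) ^ k * a) ⊆ V ∧ ¬ Acc P ((f.natDegree : ℝ) ^ k * b) ⊆ V := by
  obtain ⟨-, hαP⟩ := per_post hd hP hn₀ hα h.rayCycles
  constructor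
  · refine nla_iter nla hd hP hinf (C := C) hαP k hV hsc hVP fun ε hε N => ?_
    obtain ⟨q, t, t', m, m', z, z', hq, ht, ht', hta, htb, hl, hl', hzα, hk, hz'⟩ := h ε hε N
    exact ⟨q, t, m, z, hq, ht, hta, hl, by simpa using hk 0⟩
  · refine nla_iter nla hd hP hinf (C := C) hαP k hV hsc hVP fun ε hε N => ?_
    obtain ⟨q, t, t', m, m', z, z', hq, ht, ht', hta, htb, hl, hl', hzα, hk, hz'⟩ := h ε hε N
    exact ⟨q, t', m', z', hq, ht', htb, hl', hz'⟩

end Pool.Agent.Imp
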