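import Pool.Agent.Lib.MP_1c105c_an.Spar
import Pool.Agent.Lib.MP_1c105c_an.Nll
import Pool.Agent.Lib.MP_1c105c_an.Dst
import Pool.Agent.Lib.MP_1c105c_an.Lfr
import Pool.Agent.Lib.MP_1c105c_an.Alc
import Pool.Agent.Lib.MP_1c105c_an.Ind

/-! MP_1c105c_an: nonlanding rays of unicritical polynomials with small cycles (NLT). -/

set_option autoImplicit false

open Filter Topology Set Polynomial

namespace Pool.Agent.Imp

/-- The critical point of a unicritical polynomial is the only preimage of its value. -/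
theorem quad_pre {f : ℂ[X]} {c z : ℂ} (hd : 2 ≤ f.natDegree)
    (hc : ∀ z, f.derivative.eval z = 0 → z = c) (hz : f.eval z = f.eval c) : z = c := by
  have hcard : ∀ w : ℂ, Multiset.card (f - C w).roots = f.natDegree := by
    intro w
    have hnd : (f - C w).natDegree = f.natDegree := natDegree_sub_C
    rw [← hnd]
    exact (IsAlgClosed.splits (f - C w)).natDegree_eq_card_roots.symm
  have hne : ∀ w : ℂ, f - C w ≠ 0 := by
    intro w h
    have := hcard w
    rw [h] at this
    simp at this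
    omega
  have hder : f.derivative.roots = Multiset.replicate (f.natDegree - 1) c := by
    rw [Multiset.eq_replicate]
    refine ⟨?_, fun z hz => hc z (isRoot_of_mem_roots hz)⟩
    rw [← natDegree_eq_of_degree_eq_some (degree_derivative (p := f) (by omega))]
    exact (IsAlgClosed.splits f.derivative).natDegree_eq_card_roots.symm
  have h1 : (f - C (f.eval c)).derivative = f.derivative := by simp
  have h2 := Polynomial.derivative_rootMultiplicity_of_root (p := f - C (f.eval c)) (t := c)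
    (by simp [IsRoot])
  rw [h1, ← count_roots, hder, Multiset.count_replicate_self] at h2
  have h3 : 0 < (f - C (f.eval c)).rootMultiplicity c :=
    (rootMultiplicity_pos (hne _)).2 (by simp [IsRoot])
  have h4 : Multiset.replicate f.natDegree c ≤ (f - C (f.eval c)).roots := by
    rw [← Multiset.le_count_iff_replicate_le, count_roots]
    omega
  have h5 : Multiset.replicate f.natDegree c = (f - C (f.eval c)).roots :=
    Multiset.eq_of_le_of_card_le h4 (by rw [hcard, Multiset.card_replicate])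
  have h6 : z ∈ (f - C (f.eval c)).roots := by
    rw [mem_roots']
    exact ⟨hne _, by simp [IsRoot, hz]⟩
  rw [← h5] at h6
  exact Multiset.eq_of_mem_replicate h6

/-- Rays of periodic angles near `a` and `b` that land at points of small cycles. -/
def SmallPairs (f : ℂ[X]) (P : ℂ → ℂ) (α : ℂ) (a b C : ℝ) : Prop :=
  ∀ ε : ℝ, 0 < ε → ∀ N : ℕ, ∃ (q : ℕ) (t t' : ℝ) (m m' : ℤ) (z z' : ℂ), N ≤ q ∧
    (f.natDegree : ℝ) ^ q * t = t + m ∧ (f.natDegree : ℝ) ^ q * t' = t' + m' ∧
    |t - a| * (f.natDegree : ℝ) ^ q ≤ C ∧ |t' - b| * (f.natDegree : ℝ) ^ q ≤ C ∧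
    Land P t z ∧ Land P t' z' ∧ z ≠ α ∧ (∀ k : ℕ, ‖(fun w => f.eval w)^[k] z - α‖ < ε) ∧
    ‖z' - α‖ < ε

theorem SmallPairs.rayCycles {f : ℂ[X]} {P : ℂ → ℂ} {α : ℂ} {a b C : ℝ}
    (h : SmallPairs f P α a b C) : RayCycles f P α := by
  intro ε hε
  obtain ⟨q, t, t', m, m', z, z', hq, ht, -, -, -, hl, -, hne, hk, -⟩ := h ε hε 1
  exact ⟨z, t, q, m, hq, ht, hl, hne, hk⟩

/-- The landing point of a ray near periodic rays that land near `α` is in the closure of the
critical orbits. -/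
theorem nlt_mem {f : ℂ[X]} {P : ℂ → ℂ} (hd : 2 ≤ f.natDegree) (hP : Half f P)
    (hinf : ∀ R : ℝ, ∃ M : ℝ, ∀ u : ℂ, M ≤ u.re → R ≤ ‖P u‖) {α p : ℂ} {a C : ℝ}
    (hαP : α ∈ closure (postcritical f)) (hp : Land P a p)
    (h : ∀ ε : ℝ, 0 < ε → ∀ N : ℕ, ∃ (q : ℕ) (t : ℝ) (m : ℤ) (z : ℂ), N ≤ q ∧
      (f.natDegree : ℝ) ^ q * t = t + m ∧ |t - a| * (f.natDegree : ℝ) ^ q ≤ C ∧ Land P t z ∧
      ‖z - α‖ < ε) : p ∈ closure (postcritical f) := by
  by_contra hpP
  have hne : p ≠ α := fun he => hpP (he ▸ hαP)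
  have hpos : 0 < ‖p - α‖ := norm_pos_iff.2 (sub_ne_zero.2 hne)
  obtain ⟨N, hN⟩ := nll f P hd hP hinf a C p hp hpP (‖p - α‖ / 3) (by positivity)
  obtain ⟨q, t, m, z, hq, ht, hta, hl, hz⟩ := h (‖p - α‖ / 3) (by positivity) N
  have h1 := hN q t m z hq ht hta hl
  have h2 : ‖p - α‖ ≤ ‖z - α‖ + ‖z - p‖ := by
    have := norm_sub_le (z - α) (z - p)
    simpa using this
  linarith

/-- NLT. -/
theorem nlt (rot : RotdStatement) (pul : PulStatement) (crx : CrxdStatement) {f : ℂ[X]}
    {P : ℂ → ℂ} (hd : 2 ≤ f.natDegree) (hP : Half f P)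
    (hinf : ∀ R : ℝ, ∃ M : ℝ, ∀ u : ℂ, M ≤ u.re → R ≤ ‖P u‖) {α c : ℂ} (hα : f.eval α = α)
    (hc : ∀ z, f.derivative.eval z = 0 → z = c) {a b C : ℝ} {m₀ : ℤ}
    (hab : f.natDegree * b = f.natDegree * a + m₀) (hne : ∀ k : ℤ, b ≠ a + k)
    (h : SmallPairs f P α a b C) {w : ℂ} (hw : Land P (f.natDegree * a) w) :
    ∃ p p' : ℂ, Land P a p ∧ Land P b p' ∧ f.eval p = w ∧ f.eval p' = w ∧ p ≠ p' ∧
      p ∈ closure (postcritical f) ∧ p' ∈ closure (postcritical f) := by
  obtain ⟨p, hpw, hp⟩ := lfr f P hd hP a w hw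
  have hw' : Land P (f.natDegree * b) w := by
    rw [hab]
    refine Rep.land_add hP.per (-m₀) ?_
    have : (f.natDegree : ℝ) * a + m₀ + ((-m₀ : ℤ) : ℝ) = f.natDegree * a := by push_cast; ring
    rw [this]
    exact hw
  obtain ⟨p', hpw', hp'⟩ := lfr f P hd hP b w hw'
  have hrc := h.rayCycles
  -- `α` is indifferent and in the Julia set
  have hind : ‖f.derivative.eval α‖ = 1 := ind f α hα fun ε hε => by
    obtain ⟨z, t, n, m, hn, ht, hl, hzα, hk⟩ := hrc ε hε
    exact ⟨z, n, hn, land_per hd hP ht hl, hzα, hk⟩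
  have hαJ : α ∈ julia f := by
    have hcl : IsClosed (julia f) := isClosed_frontier
    rw [← hcl.closure_eq, Metric.mem_closure_iff]
    intro ε hε
    obtain ⟨z, t, n, m, hn, ht, hl, hzα, hk⟩ := hrc ε hε
    refine ⟨z, Thr58.land_julia hd hP hl, ?_⟩
    rw [dist_comm, dist_eq_norm]
    simpa using hk 0
  have hαP : α ∈ closure (postcritical f) := alc f α hd hα hind.le hαJ
  refine ⟨p, p', hp, hp', hpw, hpw', fun he => ?_, ?_, ?_⟩
  · -- otherwise the critical point is a landing point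
    rw [← he] at hp'
    have h0 := dst f P hd hP a b m₀ p hab hne hp hp'
    have hpc : p = c := hc p h0
    have hαc : α ∈ ({f.eval c} : Set ℂ) := by
      refine spar rot pul crx hd hP hinf hα hrc hc (n := 0) isCompact_singleton
        isPreconnected_singleton ?_ rfl rfl (s := f.natDegree * a) ?_
      · rw [Set.singleton_subset_iff, ← hpc, hpw]
        have := Thr58.land_julia hd hP hw
        exact (Jul.closed f hd).frontier_subset this
      · rw [← hpc, hpw]
        exact hw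
    rw [Set.mem_singleton_iff] at hαc
    -- the critical point is the only preimage of the critical value
    have hpre := quad_pre hd hc (z := α) (by rw [hα, ← hαc])
    rw [← hpc] at hpre
    rw [hpre, h0, norm_zero] at hind
    exact zero_ne_one hind
  · refine nlt_mem hd hP hinf (C := C) hαP hp fun ε hε N => ?_
    obtain ⟨q, t, t', m, m', z, z', hq, ht, ht', hta, htb, hl, hl', hzα, hk, hz'⟩ := h ε hε N
    exact ⟨q, t, m, z, hq, ht, hta, hl, by simpa using hk 0⟩
  · refine nlt_mem hd hP hinf (C := C) hαP hp' fun ε hε N => ?_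
    obtain ⟨q, t, t', m, m', z, z', hq, ht, ht', hta, htb, hl, hl', hzα, hk, hz'⟩ := h ε hε N
    exact ⟨q, t', m', z', hq, ht', htb, hl', hz'⟩

end Pool.Agent.Imp
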