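import Pool.Agent.Lib.MP_1c105c_an.Nltp

/-! MP_1c105c_an: landing of rays near small cycles for polynomials with several critical points. -/

set_option autoImplicit false

open Filter Topology Set Polynomial

namespace Pool.Agent.Imp

/-- The landing points of two rays with the same image near periodic rays that land near `α`. -/
theorem nltg {f : ℂ[X]} {P : ℂ → ℂ} (hd : 2 ≤ f.natDegree) (hP : Half f P)
    (hinf : ∀ R : ℝ, ∃ M : ℝ, ∀ u : ℂ, M ≤ u.re → R ≤ ‖P u‖) {α : ℂ} {n₀ : ℕ} (hn₀ : 1 ≤ n₀)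
    (hα : (fun w => f.eval w)^[n₀] α = α) {a b C : ℝ} {m₀ : ℤ}
    (hab : f.natDegree * b = f.natDegree * a + m₀) (hne : ∀ k : ℤ, b ≠ a + k)
    (h : SmallPairsP f P α a b C) {w : ℂ} (hw : Land P (f.natDegree * a) w) :
    ∃ p p' : ℂ, Land P a p ∧ Land P b p' ∧ f.eval p = w ∧ f.eval p' = w ∧
      (p ≠ p' ∨ f.derivative.eval p = 0) ∧
      p ∈ closure (postcritical f) ∧ p' ∈ closure (postcritical f) := by
  obtain ⟨p, hpw, hp⟩ := lfr f P hd hP a w hw
  have hw' : Land P (f.natDegree * b) w := by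
    rw [hab]
    refine Rep.land_add hP.per (-m₀) ?_
    have : (f.natDegree : ℝ) * a + m₀ + ((-m₀ : ℤ) : ℝ) = f.natDegree * a := by push_cast; ring
    rw [this]
    exact hw
  obtain ⟨p', hpw', hp'⟩ := lfr f P hd hP b w hw'
  obtain ⟨-, hαP⟩ := per_post hd hP hn₀ hα h.rayCycles
  refine ⟨p, p', hp, hp', hpw, hpw', ?_, ?_, ?_⟩
  · by_cases he : p = p'
    · rw [← he] at hp'
      exact Or.inr (dst f P hd hP a b m₀ p hab hne hp hp')
    · exact Or.inl he
  · refine nlt_mem hd hP hinf (C := C) hαP hp fun ε hε N => ?_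
    obtain ⟨q, t, t', m, m', z, z', hq, ht, ht', hta, htb, hl, hl', hzα, hk, hz'⟩ := h ε hε N
    exact ⟨q, t, m, z, hq, ht, hta, hl, by simpa using hk 0⟩
  · refine nlt_mem hd hP hinf (C := C) hαP hp' fun ε hε N => ?_
    obtain ⟨q, t, t', m, m', z, z', hq, ht, ht', hta, htb, hl, hl', hzα, hk, hz'⟩ := h ε hε N
    exact ⟨q, t', m', z', hq, ht', htb, hl', hz'⟩

end Pool.Agent.Imp
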