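import Pool.Agent.Lib.MP_1c105c_an.Defs5
import Pool.Agent.Lib.MP_1c105c_an.Bai

/-! Row NM: a nonmeagre set of landing rays gives small oscillation. -/

set_option autoImplicit false

open Filter Topology Set

namespace Pool.Agent.Imp

namespace Nm

theorem mem_iUnion_cl {P : ℂ → ℂ} {t : ℝ} (hl : ∃ z, Land P t z) {ε : ℝ} (hε : 0 < ε) :
    t ∈ ⋃ n, Bai.cl P ε n := by
  obtain ⟨z, hz⟩ := hl
  have h1 : ∀ᶠ s : ℝ in 𝓝[>] 0, ‖P (s + t * Complex.I) - z‖ < ε / 2 := by
    have := (Metric.tendsto_nhds.1 hz) (ε / 2) (by positivity)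
    simpa [dist_eq_norm] using this
  rw [eventually_nhdsWithin_iff, Metric.eventually_nhds_iff] at h1
  obtain ⟨η, hη, h2⟩ := h1
  obtain ⟨n, hn⟩ := exists_nat_one_div_lt hη
  have h3 : ∀ s : ℝ, 0 < s → s ≤ 1 / (n + 1) → ‖P (s + t * Complex.I) - z‖ < ε / 2 := by
    intro s hs hs'
    refine h2 ?_ hs
    rw [Real.dist_eq, sub_zero, abs_of_pos hs]
    exact lt_of_le_of_lt hs' hn
  refine mem_iUnion.2 ⟨n, fun s s' a1 a2 a3 a4 => ?_⟩
  have e : P (s + t * Complex.I) - P (s' + t * Complex.I) =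
      (P (s + t * Complex.I) - z) - (P (s' + t * Complex.I) - z) := by ring
  rw [e]
  have h4 := norm_sub_le (P (s + t * Complex.I) - z) (P (s' + t * Complex.I) - z)
  have h5 := h3 s a1 a2
  have h6 := h3 s' a3 a4
  linarith

end Nm

/-- Row NM. -/
theorem nm : NmStatement := by
  intro P hP hne δ hδ
  by_contra hcon
  push Not at hcon
  refine hne ?_
  have hε : 0 < δ / 4 := by positivity
  have hint : ∀ n : ℕ, interior (Bai.cl P (δ / 4) n) = ∅ := by
    intro n
    rw [Set.eq_empty_iff_forall_notMem]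
    intro t ht
    obtain ⟨N, hN, hN2⟩ := Bai.small hP hε ht
    obtain ⟨O, hO, hON⟩ := mem_nhdsWithin_iff_exists_mem_nhds_inter.mp hN
    refine hcon t ⟨O, hO, fun u hu v hv => ?_⟩
    have := hN2 u (hON hu) v (hON hv)
    linarith
  have hmea : IsMeagre (⋃ n, Bai.cl P (δ / 4) n) := by
    refine isMeagre_iUnion fun n => ?_
    refine IsNowhereDense.isMeagre ?_
    rw [(Bai.isClosed_cl hP (δ / 4) n).isNowhereDense_iff]
    exact hint n
  exact hmea.mono fun t ht => Nm.mem_iUnion_cl ht hε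

end Pool.Agent.Imp
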