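import Pool.Agent.Lib.MP_1c105c_an.Defs18
import Pool.Agent.Lib.MP_1c105c_an.Jan

/-! MP_1c105c_an, row ODD: the chords of a simple closed curve turn an odd number of times
(helper72). -/

set_option autoImplicit false

open Filter Topology Set

namespace Pool.Agent.Imp

namespace Odd72

/-- The strip `0 < y < m`. -/
def strip (m : ℝ) : Set (ℝ × ℝ) := {p | 0 < p.2 ∧ p.2 < m}

theorem convex_strip (m : ℝ) : Convex ℝ (strip m) := by
  have h : strip m = (univ : Set ℝ) ×ˢ Ioo 0 m := by
    ext p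
    simp [strip]
  rw [h]
  exact convex_univ.prod (convex_Ioo 0 m)

theorem isOpen_strip (m : ℝ) : IsOpen (strip m) :=
  (isOpen_lt continuous_const continuous_snd).inter (isOpen_lt continuous_snd continuous_const)

theorem exists_log {m : ℝ} (hm : 0 < m) {F : ℝ × ℝ → ℂ} (hF : ContinuousOn F (strip m))
    (h0 : ∀ p ∈ strip m, F p ≠ 0) :
    ∃ L : ℝ × ℝ → ℂ, ContinuousOn L (strip m) ∧ ∀ p ∈ strip m, Complex.exp (L p) = F p := by
  have hne : (strip m).Nonempty := ⟨(0, m / 2), by
    constructor <;> show _ < _ <;> dsimp only <;> linarith⟩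
  have : ContractibleSpace (strip m) := (convex_strip m).contractibleSpace hne
  have hsc : IsSimplyConnected (strip m) :=
    (inferInstance : SimplyConnectedSpace (strip m))
  obtain ⟨L, hL, hL'⟩ := Complex.exists_continuousOn_eqOn_exp_comp hsc (isOpen_strip m) hF (by
    rintro ⟨p, hp, h⟩
    exact h0 p hp h)
  exact ⟨L, hL, fun p hp => hL' hp⟩

end Odd72

open Odd72

/-- Row ODD. -/
theorem odd : OddStatement := by
  intro G m hm hG hper hinj
  have hF : Continuous fun p : ℝ × ℝ => G p.1 - G (p.1 + p.2) :=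
    (hG.comp continuous_fst).sub (hG.comp (continuous_fst.add continuous_snd))
  obtain ⟨Λ, hΛ, hΛ'⟩ := exists_log hm hF.continuousOn
    (fun p hp => sub_ne_zero.2 (hinj p.1 p.2 hp.1 hp.2))
  have hτ : ∀ p ∈ strip m, ((p.1 + p.2, m - p.2) : ℝ × ℝ) ∈ strip m := by
    rintro p ⟨h1, h2⟩
    constructor <;> show _ < _ <;> dsimp only <;> linarith
  have hτc : Continuous fun p : ℝ × ℝ => ((p.1 + p.2, m - p.2) : ℝ × ℝ) := by fun_prop
  have hgc : ContinuousOn (fun p : ℝ × ℝ => Λ (p.1 + p.2, m - p.2) - Λ p - Real.pi * Complex.I)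
      (strip m) :=
    ((hΛ.comp hτc.continuousOn hτ).sub hΛ).sub continuousOn_const
  have hge : ∀ p ∈ strip m,
      Complex.exp (Λ (p.1 + p.2, m - p.2) - Λ p - Real.pi * Complex.I) = 1 := by
    intro p hp
    have hne : G p.1 - G (p.1 + p.2) ≠ 0 := sub_ne_zero.2 (hinj p.1 p.2 hp.1 hp.2)
    rw [Complex.exp_sub, Complex.exp_sub, hΛ' _ (hτ p hp), hΛ' p hp, Complex.exp_pi_mul_I]
    have h1 : p.1 + p.2 + (m - p.2) = p.1 + m := by ring
    show (G (p.1 + p.2) - G (p.1 + p.2 + (m - p.2))) / (G p.1 - G (p.1 + p.2)) / -1 = 1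
    rw [h1, hper]
    field_simp
    ring
  have hp₀ : ((0, m / 2) : ℝ × ℝ) ∈ strip m := by
    constructor <;> show _ < _ <;> dsimp only <;> linarith
  obtain ⟨n, hn⟩ := Complex.exp_eq_one_iff.1 (hge _ hp₀)
  have hstep : ∀ p ∈ strip m,
      Λ (p.1 + p.2, m - p.2) = Λ p + Real.pi * Complex.I + n * (2 * Real.pi * Complex.I) := by
    intro p hp
    have h1 := JanAux.const_of_exp (convex_strip m).isPreconnected hgc hge hp hp₀
    have h2 := h1.trans hn
    linear_combination h2
  have htwo : ∀ x y : ℝ, 0 < y → y < m →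
      Λ (x + m, y) = Λ (x, y) + 2 * Real.pi * Complex.I * ((2 * n + 1 : ℤ) : ℂ) := by
    intro x y hy hym
    have hp : ((x, y) : ℝ × ℝ) ∈ strip m := ⟨hy, hym⟩
    have h1 := hstep _ hp
    have h2 := hstep _ (hτ _ hp)
    dsimp only at h1 h2
    have h3 : x + y + (m - y) = x + m := by ring
    have h4 : m - (m - y) = y := by ring
    rw [h3, h4] at h2
    rw [h2, h1]
    push_cast
    ring
  refine ⟨2 * n + 1, ⟨n, rfl⟩, fun y hy hym L hL hL' x => ?_⟩
  have hcy : Continuous fun x : ℝ => Λ (x, y) := by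
    have h : ContinuousOn (fun x : ℝ => Λ (x, y)) univ :=
      hΛ.comp (by fun_prop : Continuous fun x : ℝ => ((x, y) : ℝ × ℝ)).continuousOn
        (fun x _ => ⟨hy, hym⟩)
    exact continuousOn_univ.1 h
  have hconst := JanAux.const_of_exp (isPreconnected_univ (α := ℝ))
    (g := fun x => L x - Λ (x, y)) (hL.sub hcy).continuousOn (fun x _ => by
      rw [Complex.exp_sub, hL', hΛ' (x, y) ⟨hy, hym⟩]
      exact div_self (sub_ne_zero.2 (hinj x y hy hym))) (mem_univ (x + m)) (mem_univ x)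
  rw [htwo x y hy hym] at hconst
  linear_combination hconst

end Pool.Agent.Imp
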