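import Pool.Agent.Lib.MP_1c105c_an.Defs10
import Pool.Agent.Lib.MP_1c105c_an.Jul

/-! PAC: parabolic fixed points: a critical point in the immediate basin and an access to the
fixed point (from BAS, LFT2, PET, UNIQ). -/

set_option autoImplicit false

open Filter Topology Set Polynomial

namespace Pool.Agent.Imp

namespace Pac

/-- Compact sets that shrink to a point, together with the point, form a compact set. -/
lemma compact_shrink {K : ℕ → Set ℂ} {α : ℂ} (hK : ∀ n, IsCompact (K n))
    (hs : ∀ ε : ℝ, 0 < ε → ∃ N : ℕ, ∀ n ≥ N, K n ⊆ Metric.ball α ε) :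
    IsCompact ({α} ∪ ⋃ n, K n) := by
  rw [isCompact_iff_ultrafilter_le_nhds]
  intro F hF
  by_cases h : ∃ n, K n ∈ F
  · obtain ⟨n, hn⟩ := h
    obtain ⟨x, hx, hFx⟩ := (isCompact_iff_ultrafilter_le_nhds.1 (hK n)) F (le_principal_iff.2 hn)
    exact ⟨x, Or.inr (mem_iUnion.2 ⟨n, hx⟩), hFx⟩
  · push Not at h
    refine ⟨α, Or.inl rfl, ?_⟩
    rw [(Metric.nhds_basis_ball (x := α)).ge_iff]
    intro ε hε
    obtain ⟨N, hN⟩ := hs ε hε
    have h1 : ∀ M : ℕ, (⋂ n ∈ Finset.range M, (K n)ᶜ) ∈ (F : Filter ℂ) := by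
      intro M
      rw [Filter.biInter_finset_mem]
      intro n _
      exact Ultrafilter.compl_mem_iff_notMem.2 (h n)
    filter_upwards [h1 N, le_principal_iff.1 hF] with z hz hz2
    rcases hz2 with rfl | hz2
    · exact Metric.mem_ball_self hε
    · obtain ⟨n, hn⟩ := mem_iUnion.1 hz2
      by_cases hnN : n < N
      · exact absurd hn (by
          have := mem_iInter₂.1 hz n (Finset.mem_range.2 hnN)
          exact this)
      · exact hN n (by omega) hn

lemma deriv_ne {G : ℂ[X]} {Δ : Set ℂ} (hinv : ∀ z ∈ Δ, G.eval z ∈ Δ)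
    (hc : ∀ c ∈ Δ, G.derivative.eval c ≠ 0) (n : ℕ) :
    ∀ z ∈ Δ, (Nr.It G n).derivative.eval z ≠ 0 := by
  induction n with
  | zero =>
    intro z _
    rw [Nr.It, Function.iterate_zero, id, derivative_X, eval_one]
    exact one_ne_zero
  | succ n ih =>
    intro z hz
    have h1 : Nr.It G (n + 1) = G.comp (Nr.It G n) := by
      rw [Nr.It, Function.iterate_succ_apply', Nr.It]
    have h2 : (Nr.It G n).eval z ∈ Δ := by
      rw [Nr.it_eval]
      clear ih h1
      induction n with
      | zero => exact hz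
      | succ n ih =>
        rw [Function.iterate_succ_apply']
        exact hinv _ ih
    rw [h1, derivative_comp, eval_mul, eval_comp]
    exact mul_ne_zero (ih z hz) (hc _ h2)

end Pac

theorem pac (bas : BasStatement) (lft2 : Lft2Statement) (pet : PetStatement)
    (uniq : UniqStatement) : PacStatement := by
  intro G α hd hα hα'
  obtain ⟨U, x₀, c, hc, hUo, hUb, hαU, hx₀U, hne, hinv, hseg, hconv, N₀, hN₀⟩ :=
    pet G α hd hα hα'
  set S : Set ℂ := segment ℝ x₀ (G.eval x₀) with hSdef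
  have hSpre : IsPreconnected S := (convex_segment x₀ (G.eval x₀)).isPreconnected
  have hScomp : IsCompact S := by
    rw [hSdef, segment_eq_image]
    exact isCompact_Icc.image (by fun_prop)
  have hx₀S : x₀ ∈ S := left_mem_segment ℝ _ _
  have hx₁S : G.eval x₀ ∈ S := right_mem_segment ℝ _ _
  obtain ⟨Δ, hΔ, hSΔ, -, hT⟩ := bas G U S x₀ hUo hUb hinv hSpre hseg hx₀S hx₁S
  have hit : ∀ n : ℕ, Continuous (fun w => G.eval w)^[n] := fun n => G.continuous.iterate n
  have hitΔ : ∀ n : ℕ, ∀ z ∈ Δ, (fun w => G.eval w)^[n] z ∈ Δ := by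
    intro n
    induction n with
    | zero => intro z hz; exact hz
    | succ n ih =>
      intro z hz
      rw [Function.iterate_succ_apply']
      exact hΔ.inv _ (ih z hz)
  have hitU : ∀ n : ℕ, ∀ z ∈ U, (fun w => G.eval w)^[n] z ∈ U := by
    intro n
    induction n with
    | zero => intro z hz; exact hz
    | succ n ih =>
      intro z hz
      rw [Function.iterate_succ_apply']
      exact hinv _ (ih z hz)
  refine ⟨Δ, hΔ, ?_, ?_⟩
  · -- the access
    intro ρ hρ
    obtain ⟨N, hN⟩ := hconv ρ hρ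
    set K : ℕ → Set ℂ := fun n => (fun w => G.eval w)^[N + n] '' S with hK
    have hKc : ∀ n, IsCompact (K n) := fun n => hScomp.image (hit (N + n))
    have hKp : ∀ n, IsPreconnected (K n) := fun n => hSpre.image _ (hit (N + n)).continuousOn
    have hKsmall : ∀ ε : ℝ, 0 < ε → ∃ M : ℕ, ∀ n ≥ M, K n ⊆ Metric.ball α ε := by
      intro ε hε
      obtain ⟨M, hM⟩ := hconv ε hε
      refine ⟨M, fun n hn => ?_⟩
      rintro _ ⟨y, hy, rfl⟩
      rw [mem_ball_iff_norm]
      exact hM (N + n) (by omega) y (hseg hy)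
    have hKΔ : ∀ n, K n ⊆ Δ := by
      rintro n _ ⟨y, hy, rfl⟩
      exact hitΔ _ _ (hSΔ hy)
    have hchain : IsPreconnected (⋃ n, K n) := by
      refine IsPreconnected.iUnion_of_chain hKp fun n => ?_
      refine ⟨(fun w => G.eval w)^[N + n] (G.eval x₀), ⟨_, hx₁S, rfl⟩, ⟨x₀, hx₀S, ?_⟩⟩
      show (fun w => G.eval w)^[N + (n + 1)] x₀ = _
      rw [← add_assoc, Function.iterate_succ_apply]
    refine ⟨{α} ∪ ⋃ n, K n, Pac.compact_shrink hKc hKsmall, ?_, Or.inl rfl, ?_, ?_, ?_⟩
    · refine hchain.subset_closure subset_union_right ?_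
      refine union_subset ?_ subset_closure
      rintro _ rfl
      rw [Metric.mem_closure_iff]
      intro ε hε
      obtain ⟨M, hM⟩ := hKsmall ε hε
      have hmem : (fun w => G.eval w)^[N + M] x₀ ∈ K M := ⟨x₀, hx₀S, rfl⟩
      refine ⟨_, mem_iUnion.2 ⟨M, hmem⟩, ?_⟩
      rw [dist_comm]
      exact hM M le_rfl hmem
    · refine union_subset ?_ ?_
      · exact subset_union_right
      · exact (iUnion_subset hKΔ).trans subset_union_left
    · have hmem : (fun w => G.eval w)^[N + 0] x₀ ∈ K 0 := ⟨x₀, hx₀S, rfl⟩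
      exact ⟨_, Or.inr (mem_iUnion.2 ⟨0, hmem⟩), hKΔ 0 hmem⟩
    · refine union_subset ?_ (iUnion_subset ?_)
      · rintro _ rfl
        exact Metric.mem_ball_self hρ
      · rintro n _ ⟨y, hy, rfl⟩
        rw [mem_ball_iff_norm]
        exact hN (N + n) (by omega) y (hseg hy)
  · -- the critical point
    by_contra hcrit
    push Not at hcrit
    obtain ⟨R, hR0, hR⟩ : ∃ R : ℝ, 0 < R ∧ ∀ z ∈ Δ, ‖z‖ ≤ R := by
      obtain ⟨R, hR⟩ := (Jul.bounded G hd).subset_closedBall (0 : ℂ)
      refine ⟨max R 1, by positivity, fun z hz => ?_⟩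
      have := hR (hΔ.sub hz)
      rw [mem_closedBall_zero_iff] at this
      exact this.trans (le_max_left _ _)
    -- `G z - z = (z - α) ^ 2 * H z`
    obtain ⟨H, hH⟩ : ∃ H : ℂ[X], G - X = (X - C α) ^ 2 * H := by
      have h1 : (G - X).IsRoot α := by
        rw [IsRoot, eval_sub, eval_X, hα, sub_self]
      have h2 : (derivative (G - X)).IsRoot α := by
        rw [IsRoot, derivative_sub, derivative_X, eval_sub, eval_one, hα', sub_self]
      obtain ⟨Q, hQ⟩ := dvd_iff_isRoot.2 h1
      have h3 : Q.IsRoot α := by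
        rw [hQ, IsRoot, derivative_mul, derivative_sub, derivative_X, derivative_C, sub_zero,
          one_mul, eval_add, eval_mul, eval_sub, eval_X, eval_C, sub_self, zero_mul,
          add_zero] at h2
        exact h2
      obtain ⟨H, hH⟩ := dvd_iff_isRoot.2 h3
      exact ⟨H, by rw [hQ, hH, sq, mul_assoc]⟩
    obtain ⟨B, hB⟩ := (isCompact_closedBall α 1).exists_bound_of_continuousOn
      (H.continuous.continuousOn (s := Metric.closedBall α 1))
    have hquad : ∀ z, ‖z - α‖ ≤ 1 → ‖G.eval z - z‖ ≤ B * ‖z - α‖ ^ 2 := by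
      intro z hz
      have h1 : G.eval z - z = (z - α) ^ 2 * H.eval z := by
        have := congrArg (fun p : ℂ[X] => p.eval z) hH
        simpa using this
      rw [h1, norm_mul, norm_pow, mul_comm]
      exact mul_le_mul_of_nonneg_right (hB z (by rw [mem_closedBall_iff_norm]; exact hz))
        (by positivity)
    have hB0 : 0 ≤ B := (norm_nonneg _).trans (hB α (Metric.mem_closedBall_self zero_le_one))
    -- the main estimate
    have hmain : ∀ ε : ℝ, 0 < ε → ‖G.eval x₀ - x₀‖ ≤ (3 * R) * B / c * ε := by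
      intro ε hε
      obtain ⟨N, hN⟩ := hconv (min ε 1) (by positivity)
      obtain ⟨n, hnN, hnN₀⟩ : ∃ n : ℕ, n ≥ N ∧ n ≥ N₀ := ⟨max N N₀, le_max_left _ _, le_max_right _ _⟩
      obtain ⟨hball, hclose⟩ := hN₀ n hnN₀
      set x : ℂ := (fun w => G.eval w)^[n] x₀ with hx
      have hxU : x ∈ U := hitU n x₀ hx₀U
      have hxα : 0 < ‖x - α‖ := by
        rw [norm_pos_iff, sub_ne_zero]
        intro h
        exact hαU (h ▸ hxU)
      have hxε : ‖x - α‖ < min ε 1 := hN n hnN x₀ hx₀U
      have hρ : 0 < c * ‖x - α‖ := by positivity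
      have hballΔ : Metric.ball x (c * ‖x - α‖) ⊆ Δ :=
        hT _ hball (convex_ball _ _).isPreconnected
          ⟨x, Metric.mem_ball_self hρ, hitΔ n x₀ (hSΔ hx₀S)⟩
      have hdeg : 1 ≤ (Nr.It G n).natDegree := by
        rw [Nr.it_deg]
        exact Nat.one_le_pow _ _ (by omega)
      obtain ⟨h, hdiff, hhΔ, hhx⟩ := lft2 (Nr.It G n) Δ hdeg hΔ.op (by
          have := hΔ.rel n
          simpa only [Nr.it_eval] using this)
        (fun z hz _ => Pac.deriv_ne hΔ.inv hcrit n z hz) x (c * ‖x - α‖) hballΔ x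
        (Metric.mem_ball_self hρ) x₀ (hSΔ hx₀S) (by rw [Nr.it_eval])
      -- the branch inverts the iterate on the segment
      have hmapsS : ∀ y ∈ S, (fun w => G.eval w)^[n] y ∈ Metric.ball x (c * ‖x - α‖) := by
        intro y hy
        rw [mem_ball_iff_norm]
        refine (hclose y hy).trans_lt ?_
        nlinarith
      have heq : EqOn (fun y => h ((fun w => G.eval w)^[n] y)) (fun y => y) S := by
        refine uniq (Nr.It G n) S _ _ hSpre ?_ continuousOn_id ?_ ?_ x₀ hx₀S hhx
        · exact hdiff.continuousOn.comp (hit n).continuousOn hmapsS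
        · intro y hy
          show (Nr.It G n).eval (h ((fun w => G.eval w)^[n] y)) = (Nr.It G n).eval y
          rw [(hhΔ _ (hmapsS y hy)).2, Nr.it_eval]
        · intro y hy
          exact Pac.deriv_ne hΔ.inv hcrit n _ (hhΔ _ (hmapsS y hy)).1
      have h1 : h ((fun w => G.eval w)^[n] (G.eval x₀)) = G.eval x₀ := heq hx₁S
      have h2 : (fun w => G.eval w)^[n] (G.eval x₀) = G.eval x := by
        rw [← Function.iterate_succ_apply, Function.iterate_succ_apply']
      have h3 : G.eval x ∈ Metric.ball x (c * ‖x - α‖) := by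
        rw [← h2]
        exact hmapsS _ hx₁S
      rw [h2] at h1
      have hmaps : MapsTo h (Metric.ball x (c * ‖x - α‖)) (Metric.ball (h x) (3 * R)) := by
        intro z hz
        rw [mem_ball_iff_norm, hhx]
        have e1 := hR _ (hhΔ z hz).1
        have e2 := hR _ (hSΔ hx₀S)
        calc ‖h z - x₀‖ ≤ ‖h z‖ + ‖x₀‖ := norm_sub_le _ _
          _ < 3 * R := by linarith
      have h4 := Complex.dist_le_div_mul_dist_of_mapsTo_ball hdiff
        (hmaps.mono_right Metric.ball_subset_closedBall) h3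
      rw [h1, hhx, dist_eq_norm, dist_eq_norm] at h4
      have h5 : ‖G.eval x - x‖ ≤ B * ‖x - α‖ ^ 2 :=
        hquad x (hxε.le.trans (min_le_right _ _))
      calc ‖G.eval x₀ - x₀‖ ≤ 3 * R / (c * ‖x - α‖) * ‖G.eval x - x‖ := h4
        _ ≤ 3 * R / (c * ‖x - α‖) * (B * ‖x - α‖ ^ 2) := by gcongr
        _ = (3 * R) * B / c * ‖x - α‖ := by field_simp
        _ ≤ (3 * R) * B / c * ε := by
          gcongr
          exact hxε.le.trans (min_le_left _ _)
    have hpos : 0 < ‖G.eval x₀ - x₀‖ := norm_pos_iff.2 (sub_ne_zero.2 hne)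
    have h6 := hmain (‖G.eval x₀ - x₀‖ / (2 * ((3 * R) * B / c + 1))) (by positivity)
    have h7 : (3 * R) * B / c * (‖G.eval x₀ - x₀‖ / (2 * ((3 * R) * B / c + 1)))
        ≤ ‖G.eval x₀ - x₀‖ / 2 := by
      have h8 : 0 ≤ (3 * R) * B / c := by positivity
      rw [mul_div_assoc', div_le_div_iff₀ (by positivity) (by positivity)]
      nlinarith
    linarith

end Pool.Agent.Imp
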