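import Pool.Agent.Lib.MP_1c105c_an.Defs10

/-! MP_1c105c_an, stage 10, row PET: an attracting petal at a parabolic fixed point. -/

set_option autoImplicit false

open Filter Topology Set Polynomial

namespace Pool.Agent.Imp

namespace Pet47

/-- The coordinate near infinity. -/
noncomputable def W (p : ℕ) (a ζ : ℂ) : ℂ := -((p : ℂ) * a * ζ ^ p)⁻¹

theorem W_mul (p : ℕ) (a ζ v : ℂ) : W p a (ζ * (1 + v)) = W p a ζ * ((1 + v) ^ p)⁻¹ := by
  unfold W
  rw [mul_pow, ← mul_assoc, mul_inv, neg_mul]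

theorem W_norm (p : ℕ) (a ζ : ℂ) : ‖W p a ζ‖ = ((p : ℝ) * ‖a‖ * ‖ζ‖ ^ p)⁻¹ := by
  unfold W
  rw [norm_neg, norm_inv, norm_mul, norm_mul, norm_pow, Complex.norm_natCast]

theorem W_cont (p : ℕ) (a : ℂ) (hp : 1 ≤ p) (ha : a ≠ 0) :
    ContinuousOn (W p a) {ζ | ζ ≠ 0} := by
  unfold W
  refine ContinuousOn.neg (ContinuousOn.inv₀ (by fun_prop) fun ζ hζ => ?_)
  have h1 : (p : ℂ) ≠ 0 := Nat.cast_ne_zero.2 (by omega)
  exact mul_ne_zero (mul_ne_zero h1 ha) (pow_ne_zero _ hζ)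

theorem der (p : ℕ) : HasDerivAt (fun v : ℂ => ((1 + v) ^ p)⁻¹) (-(p : ℂ)) 0 := by
  have h1 : HasDerivAt (fun v : ℂ => (1 + v) ^ p) (p : ℂ) 0 := by
    have := ((hasDerivAt_id (0 : ℂ)).const_add 1).fun_pow p
    simpa using this
  have h2 := h1.fun_inv (by simp)
  simpa using h2

/-- The constant `c`. -/
theorem exists_c (p : ℕ) (hp : 1 ≤ p) : ∃ c : ℝ, 0 < c ∧ c ≤ 1 / 2 ∧
    (∀ s : ℂ, ‖s‖ < c → ‖((1 + s) ^ p)⁻¹ - 1‖ ≤ 1 / 4) ∧
    ∀ z : ℂ, ‖z - 1‖ = c / 2 → z ^ p ≠ 1 := by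
  obtain ⟨δ, hδ, h1⟩ := Metric.continuousAt_iff.1 (der p).continuousAt (1 / 4) (by norm_num)
  have hfin : {z : ℂ | z ^ p = 1 ∧ z ≠ 1}.Finite := by
    refine ((Polynomial.nthRootsFinset p (1 : ℂ)).finite_toSet).subset ?_
    rintro z ⟨hz, _⟩
    exact (Polynomial.mem_nthRootsFinset (by omega) _).2 hz
  have hopen : IsOpen {z : ℂ | z ^ p = 1 ∧ z ≠ 1}ᶜ := hfin.isClosed.isOpen_compl
  obtain ⟨ρ, hρ, h2⟩ := Metric.isOpen_iff.1 hopen 1 (by simp)
  refine ⟨min (min δ ρ) (1 / 2), by positivity, min_le_right _ _, fun s hs => ?_, fun z hz h => ?_⟩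
  · have h3 : dist s 0 < δ := by
      rw [dist_zero_right]
      exact hs.trans_le ((min_le_left _ _).trans (min_le_left _ _))
    have h4 := h1 h3
    rw [dist_eq_norm] at h4
    simp only [add_zero, one_pow, inv_one] at h4
    exact h4.le
  · have h3 : 0 < min (min δ ρ) (1 / 2) := by positivity
    have h4 : min (min δ ρ) (1 / 2) ≤ ρ := (min_le_left _ _).trans (min_le_right _ _)
    have h5 : z ∈ Metric.ball (1 : ℂ) ρ := by
      rw [Metric.mem_ball, dist_eq_norm, hz]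
      linarith
    refine h2 h5 ⟨h, ?_⟩
    rintro rfl
    rw [sub_self, norm_zero] at hz
    linarith

theorem exists_kappa (p : ℕ) (c : ℝ) (hc : 0 < c) (h : ∀ z : ℂ, ‖z - 1‖ = c / 2 → z ^ p ≠ 1) :
    ∃ κ : ℝ, 0 < κ ∧ ∀ z : ℂ, ‖z - 1‖ = c / 2 → κ < ‖z ^ p - 1‖ := by
  obtain ⟨z₀, hz₀, h1⟩ := (isCompact_sphere (1 : ℂ) (c / 2)).exists_isMinOn
    ⟨1 + (c / 2 : ℝ), by
      rw [mem_sphere_iff_norm, add_sub_cancel_left, Complex.norm_real, Real.norm_eq_abs,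
        abs_of_pos (by linarith)]⟩ (f := fun z => ‖z ^ p - 1‖) (by fun_prop)
  have h2 : 0 < ‖z₀ ^ p - 1‖ := norm_pos_iff.2 (sub_ne_zero.2 (h z₀ (mem_sphere_iff_norm.1 hz₀)))
  refine ⟨‖z₀ ^ p - 1‖ / 2, by positivity, fun z hz => ?_⟩
  have h3 : ‖z₀ ^ p - 1‖ ≤ ‖z ^ p - 1‖ := h1 (mem_sphere_iff_norm.2 hz)
  linarith

/-- Connectedness of the segment. -/
theorem near_one {p : ℕ} {c κ : ℝ} (hc : 0 < c)
    (hκ : ∀ z : ℂ, ‖z - 1‖ = c / 2 → κ < ‖z ^ p - 1‖) {S : Set ℂ} (hS : IsPreconnected S)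
    {g : ℂ → ℂ} (hg : ContinuousOn g S) {x₀ : ℂ} (hx₀ : x₀ ∈ S) (h0 : g x₀ = 1)
    (h : ∀ y ∈ S, ‖g y ^ p - 1‖ ≤ κ) : ∀ y ∈ S, ‖g y - 1‖ ≤ c / 2 := by
  intro y hy
  by_contra hcon
  rw [not_le] at hcon
  have h1 : IsPreconnected ((fun y => ‖g y - 1‖) '' S) :=
    hS.image _ (hg.sub continuousOn_const).norm
  have h2 : c / 2 ∈ (fun y => ‖g y - 1‖) '' S := by
    refine h1.Icc_subset (Set.mem_image_of_mem _ hx₀) (Set.mem_image_of_mem _ hy) ⟨?_, hcon.le⟩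
    simp only [h0, sub_self, norm_zero]
    linarith
  obtain ⟨z, hz, h3⟩ := h2
  exact absurd (h z hz) (not_le.2 (hκ _ h3))

/-- The local expansion. -/
theorem exists_r (p : ℕ) (hp : 1 ≤ p) (q : ℂ → ℂ) (hq : ContinuousAt q 0) (ha : q 0 ≠ 0) (δ : ℝ)
    (hδ : 0 < δ) (hδ1 : δ ≤ 1) :
    ∃ r : ℝ, 0 < r ∧ ∀ ζ : ℂ, ζ ≠ 0 → ‖ζ‖ < r →
      ‖W p (q 0) ζ * (((1 + ζ ^ p * q ζ) ^ p)⁻¹ - 1) - 1‖ ≤ δ ∧
      ∀ t : ℝ, 0 ≤ t → t ≤ 1 →
        ‖W p (q 0) ζ * (((1 + t * (ζ ^ p * q ζ)) ^ p)⁻¹ - 1)‖ ≤ 3 := by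
  have hp0 : (0 : ℝ) < p := by exact_mod_cast hp
  have hpc : (p : ℂ) ≠ 0 := Nat.cast_ne_zero.2 (by omega)
  have h1 : ∀ᶠ v : ℂ in 𝓝 0, ‖((1 + v) ^ p)⁻¹ - 1 + p * v‖ ≤ δ * p / 3 * ‖v‖ := by
    have h2 := (der p).isLittleO.def (c := δ * p / 3) (by positivity)
    filter_upwards [h2] with v hv
    have h3 : ((1 + v) ^ p)⁻¹ - ((1 + (0 : ℂ)) ^ p)⁻¹ - (v - 0) • (-(p : ℂ)) =
        ((1 + v) ^ p)⁻¹ - 1 + p * v := by
      rw [add_zero, one_pow, inv_one, sub_zero, smul_eq_mul]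
      ring
    rw [h3, sub_zero] at hv
    exact hv
  obtain ⟨ε, hε, h2⟩ := Metric.eventually_nhds_iff.1 h1
  have hu : Tendsto (fun ζ : ℂ => ζ ^ p * q ζ) (𝓝 0) (𝓝 0) := by
    have h3 : Tendsto (fun ζ : ℂ => ζ ^ p * q ζ) (𝓝 0) (𝓝 ((0 : ℂ) ^ p * q 0)) :=
      ((continuous_pow p).continuousAt.mul hq)
    rwa [zero_pow (by omega), zero_mul] at h3
  have h3 : ∀ᶠ ζ : ℂ in 𝓝 0, ‖ζ ^ p * q ζ‖ < ε := by
    have := hu.eventually (Metric.ball_mem_nhds (0 : ℂ) hε)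
    filter_upwards [this] with ζ hζ
    rwa [dist_zero_right] at hζ
  have h4 : ∀ᶠ ζ : ℂ in 𝓝 0, ‖q ζ / q 0 - 1‖ ≤ δ / 2 := by
    have h5 : ContinuousAt (fun ζ => q ζ / q 0) 0 := hq.div_const _
    have h6 := Metric.continuousAt_iff.1 h5 (δ / 2) (by positivity)
    obtain ⟨e, he, h7⟩ := h6
    filter_upwards [Metric.ball_mem_nhds (0 : ℂ) he] with ζ hζ
    have h8 := h7 hζ
    rw [div_self ha, dist_eq_norm] at h8
    exact h8.le
  obtain ⟨r, hr, h5⟩ := Metric.eventually_nhds_iff.1 (h3.and h4)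
  refine ⟨r, hr, fun ζ hζ hζr => ?_⟩
  obtain ⟨h6, h7⟩ := h5 (show dist ζ 0 < r by rwa [dist_zero_right])
  set u := ζ ^ p * q ζ with hu'
  have hWu : W p (q 0) ζ * u = -(q ζ / (p * q 0)) := by
    rw [hu', W]
    have := pow_ne_zero p hζ
    field_simp
  have hqa : ‖q ζ / q 0‖ ≤ 3 / 2 := by
    have : ‖q ζ / q 0‖ ≤ ‖q ζ / q 0 - 1‖ + ‖(1 : ℂ)‖ := by
      simpa using norm_add_le (q ζ / q 0 - 1) 1
    rw [norm_one] at this
    linarith
  have hWn : ‖W p (q 0) ζ‖ * ‖u‖ ≤ 3 / 2 / p := by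
    rw [← norm_mul, hWu, norm_neg, mul_comm (p : ℂ), ← div_div, norm_div, Complex.norm_natCast]
    gcongr
  refine ⟨?_, fun t ht0 ht1 => ?_⟩
  · have h8 := h2 (show dist u 0 < ε by rwa [dist_zero_right])
    have h9 : W p (q 0) ζ * (((1 + u) ^ p)⁻¹ - 1) - 1 =
        (q ζ / q 0 - 1) + W p (q 0) ζ * (((1 + u) ^ p)⁻¹ - 1 + p * u) := by
      have h10 : W p (q 0) ζ * (((1 + u) ^ p)⁻¹ - 1 + p * u) =
          W p (q 0) ζ * (((1 + u) ^ p)⁻¹ - 1) + p * (W p (q 0) ζ * u) := by ring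
      rw [h10, hWu]
      have h11 : (p : ℂ) * -(q ζ / (p * q 0)) = -(q ζ / q 0) := by
        field_simp
      rw [h11]
      ring
    rw [h9]
    refine (norm_add_le _ _).trans ?_
    rw [norm_mul]
    have h10 : ‖W p (q 0) ζ‖ * ‖((1 + u) ^ p)⁻¹ - 1 + p * u‖ ≤
        ‖W p (q 0) ζ‖ * (δ * p / 3 * ‖u‖) := by gcongr
    have h11 : ‖W p (q 0) ζ‖ * (δ * p / 3 * ‖u‖) = δ * p / 3 * (‖W p (q 0) ζ‖ * ‖u‖) := by ring
    have h12 : δ * p / 3 * (‖W p (q 0) ζ‖ * ‖u‖) ≤ δ * p / 3 * (3 / 2 / p) := by gcongr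
    have h13 : δ * p / 3 * (3 / 2 / p) = δ / 2 := by
      field_simp
    linarith
  · have htu : ‖(t : ℂ) * u‖ ≤ ‖u‖ := by
      rw [norm_mul, Complex.norm_real, Real.norm_eq_abs, abs_of_nonneg ht0]
      exact mul_le_of_le_one_left (norm_nonneg _) ht1
    have h8 := h2 (show dist ((t : ℂ) * u) 0 < ε by
      rw [dist_zero_right]
      exact htu.trans_lt h6)
    have h9 : ‖((1 + (t : ℂ) * u) ^ p)⁻¹ - 1‖ ≤ 2 * p * ‖u‖ := by
      have h10 : ((1 + (t : ℂ) * u) ^ p)⁻¹ - 1 = (((1 + (t : ℂ) * u) ^ p)⁻¹ - 1 + p * (t * u)) -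
          p * (t * u) := by ring
      rw [h10]
      refine (norm_sub_le _ _).trans ?_
      have h11 : ‖(p : ℂ) * (t * u)‖ ≤ p * ‖u‖ := by
        rw [norm_mul, Complex.norm_natCast]
        gcongr
      have h12 : δ * p / 3 * ‖(t : ℂ) * u‖ ≤ p * ‖u‖ := by
        have : δ * p / 3 ≤ p := by nlinarith
        gcongr
      linarith
    rw [norm_mul]
    have h10 : ‖W p (q 0) ζ‖ * ‖((1 + (t : ℂ) * u) ^ p)⁻¹ - 1‖ ≤
        ‖W p (q 0) ζ‖ * (2 * p * ‖u‖) := by gcongr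
    have h11 : ‖W p (q 0) ζ‖ * (2 * p * ‖u‖) = 2 * p * (‖W p (q 0) ζ‖ * ‖u‖) := by ring
    have h12 : 2 * p * (‖W p (q 0) ζ‖ * ‖u‖) ≤ 2 * p * (3 / 2 / p) := by gcongr
    have h13 : 2 * p * (3 / 2 / p) = (3 : ℝ) := by
      field_simp
    linarith

theorem decomp (G : ℂ[X]) (α : ℂ) (hG : 2 ≤ G.natDegree) (hfix : G.eval α = α)
    (hder : G.derivative.eval α = 1) :
    ∃ (p : ℕ) (Q : ℂ[X]), 1 ≤ p ∧ Q.eval α ≠ 0 ∧
      ∀ z, G.eval z = z + (z - α) ^ (p + 1) * Q.eval z := by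
  have hP : G - X ≠ 0 := by
    intro h
    rw [sub_eq_zero.1 h, natDegree_X] at hG
    omega
  have hm : 1 < (G - X).rootMultiplicity α := by
    rw [Polynomial.one_lt_rootMultiplicity_iff_isRoot hP]
    refine ⟨?_, ?_⟩
    · rw [IsRoot.def, eval_sub, eval_X, hfix, sub_self]
    · rw [IsRoot.def, derivative_sub, derivative_X, eval_sub, eval_one, hder, sub_self]
  obtain ⟨Q, hQ, hnd⟩ := Polynomial.exists_eq_pow_rootMultiplicity_mul_and_not_dvd _ hP α
  refine ⟨(G - X).rootMultiplicity α - 1, Q, by omega, fun h => hnd (dvd_iff_isRoot.2 h),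
    fun z => ?_⟩
  have h1 := congrArg (eval z) hQ
  rw [eval_sub, eval_X, eval_mul, eval_pow, eval_sub, eval_X, eval_C] at h1
  have h2 : (G - X).rootMultiplicity α - 1 + 1 = (G - X).rootMultiplicity α := by omega
  rw [h2, ← h1]
  ring

theorem small {p : ℕ} (hp : 1 ≤ p) {a : ℂ} (ha : a ≠ 0) {r K : ℝ} (hr : 0 < r)
    (hK : ((p : ℝ) * ‖a‖ * r ^ p)⁻¹ ≤ K) {ζ : ℂ} (h : K < (W p a ζ).re) : ‖ζ‖ < r := by
  by_contra hcon
  rw [not_lt] at hcon
  have hp0 : (0 : ℝ) < p := by exact_mod_cast hp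
  have ha0 : 0 < ‖a‖ := norm_pos_iff.2 ha
  have h1 : ‖W p a ζ‖ ≤ ((p : ℝ) * ‖a‖ * r ^ p)⁻¹ := by
    rw [W_norm]
    gcongr
  have h2 := Complex.re_le_norm (W p a ζ)
  linarith

theorem ne_zero {p : ℕ} (hp : 1 ≤ p) {a : ℂ} {K : ℝ} (hK : 0 ≤ K) {ζ : ℂ}
    (h : K < (W p a ζ).re) : ζ ≠ 0 := by
  rintro rfl
  rw [W, zero_pow (by omega), mul_zero, inv_zero, neg_zero, Complex.zero_re] at h
  linarith

theorem pet_main (G : ℂ[X]) (α : ℂ) (hG : 2 ≤ G.natDegree) (hfix : G.eval α = α)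
    (hder : G.derivative.eval α = 1) :
    ∃ (U : Set ℂ) (x₀ : ℂ) (c : ℝ), 0 < c ∧ IsOpen U ∧ Bornology.IsBounded U ∧ α ∉ U ∧
      x₀ ∈ U ∧ G.eval x₀ ≠ x₀ ∧ (∀ z ∈ U, G.eval z ∈ U) ∧ segment ℝ x₀ (G.eval x₀) ⊆ U ∧
      (∀ ε : ℝ, 0 < ε → ∃ N : ℕ, ∀ n ≥ N, ∀ z ∈ U, ‖(fun w => G.eval w)^[n] z - α‖ < ε) ∧
      ∃ N : ℕ, ∀ n ≥ N,
        Metric.ball ((fun w => G.eval w)^[n] x₀) (c * ‖(fun w => G.eval w)^[n] x₀ - α‖) ⊆ U ∧
        ∀ y ∈ segment ℝ x₀ (G.eval x₀),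
          ‖(fun w => G.eval w)^[n] y - (fun w => G.eval w)^[n] x₀‖ ≤
            c / 2 * ‖(fun w => G.eval w)^[n] x₀ - α‖ := by
  obtain ⟨p, Q, hp, hQ, hGz⟩ := decomp G α hG hfix hder
  have hp0 : (0 : ℝ) < p := by exact_mod_cast hp
  have hpc : (p : ℂ) ≠ 0 := Nat.cast_ne_zero.2 (by omega)
  obtain ⟨c, hc, hc2, hc3, hc4⟩ := exists_c p hp
  obtain ⟨κ, hκ, hκ2⟩ := exists_kappa p c hc hc4
  let q : ℂ → ℂ := fun ζ => Q.eval (α + ζ)
  have hq0 : q 0 ≠ 0 := by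
    show Q.eval (α + 0) ≠ 0
    rwa [add_zero]
  have hqc : ContinuousAt q 0 := by
    have : Continuous q := Q.continuous.comp (continuous_const.add continuous_id)
    exact this.continuousAt
  let δ : ℝ := min (1 / 8) (κ / 8)
  have hδ : 0 < δ := by positivity
  have hδ8 : δ ≤ 1 / 8 := min_le_left _ _
  have hδκ : δ ≤ κ / 8 := min_le_right _ _
  obtain ⟨r, hr, hr2⟩ := exists_r p hp q hqc hq0 δ hδ (by linarith)
  set a := q 0 with ha'
  have ha0 : 0 < ‖a‖ := norm_pos_iff.2 hq0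
  let R : ℝ := ((p : ℝ) * ‖a‖ * r ^ p)⁻¹ + 1
  have hR1 : 1 ≤ R := by
    have : 0 ≤ ((p : ℝ) * ‖a‖ * r ^ p)⁻¹ := by positivity
    show 1 ≤ ((p : ℝ) * ‖a‖ * r ^ p)⁻¹ + 1
    linarith
  have hRs : ((p : ℝ) * ‖a‖ * r ^ p)⁻¹ ≤ R := by
    show ((p : ℝ) * ‖a‖ * r ^ p)⁻¹ ≤ ((p : ℝ) * ‖a‖ * r ^ p)⁻¹ + 1
    linarith
  have hG' : ∀ z, G.eval z - α = (z - α) * (1 + (z - α) ^ p * q (z - α)) := by
    intro z
    have h1 : q (z - α) = Q.eval z := by
      show Q.eval (α + (z - α)) = _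
      rw [add_sub_cancel]
    rw [hGz, h1]
    ring
  have hstep : ∀ z, R < (W p a (z - α)).re →
      ‖W p a (G.eval z - α) - W p a (z - α) - 1‖ ≤ δ := by
    intro z hz
    have h1 := (hr2 (z - α) (ne_zero hp (by linarith) hz) (small hp hq0 hr hRs hz)).1
    rw [hG', W_mul]
    have h2 : W p a (z - α) * ((1 + (z - α) ^ p * q (z - α)) ^ p)⁻¹ - W p a (z - α) - 1 =
        W p a (z - α) * (((1 + (z - α) ^ p * q (z - α)) ^ p)⁻¹ - 1) - 1 := by ring
    rw [h2]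
    exact h1
  let U : Set ℂ := {z | R < (W p a (z - α)).re}
  have hinv : ∀ z ∈ U, G.eval z ∈ U := by
    intro z hz
    have h1 := hstep z hz
    have h2 := (abs_le.1 (Complex.abs_re_le_norm (W p a (G.eval z - α) - W p a (z - α) - 1))).1
    rw [Complex.sub_re, Complex.sub_re, Complex.one_re] at h2
    have h3 : R < (W p a (z - α)).re := hz
    show R < (W p a (G.eval z - α)).re
    linarith
  have horb : ∀ z ∈ U, ∀ n : ℕ, (fun w => G.eval w)^[n] z ∈ U ∧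
      ‖W p a ((fun w => G.eval w)^[n] z - α) - W p a (z - α) - n‖ ≤ δ * n := by
    intro z hz n
    induction n with
    | zero => exact ⟨hz, by simp⟩
    | succ n ih =>
      rw [Function.iterate_succ_apply']
      refine ⟨hinv _ ih.1, ?_⟩
      have h1 := hstep _ ih.1
      have h2 : W p a (G.eval ((fun w => G.eval w)^[n] z) - α) - W p a (z - α) - (n + 1 : ℕ) =
          (W p a (G.eval ((fun w => G.eval w)^[n] z) - α) -
            W p a ((fun w => G.eval w)^[n] z - α) - 1) +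
          (W p a ((fun w => G.eval w)^[n] z - α) - W p a (z - α) - n) := by
        push_cast
        ring
      rw [h2]
      refine (norm_add_le _ _).trans ?_
      push_cast
      linarith [ih.2]
  have hre : ∀ z ∈ U, ∀ n : ℕ, (W p a (z - α)).re + n * (7 / 8) ≤
      (W p a ((fun w => G.eval w)^[n] z - α)).re := by
    intro z hz n
    have h1 := (horb z hz n).2
    have h2 := (abs_le.1 (Complex.abs_re_le_norm (W p a ((fun w => G.eval w)^[n] z - α) -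
      W p a (z - α) - n))).1
    rw [Complex.sub_re, Complex.sub_re, Complex.natCast_re] at h2
    have h3 : δ * n ≤ 1 / 8 * n := by gcongr
    linarith
  -- the starting point
  obtain ⟨ζ₀, hζ₀⟩ := IsAlgClosed.exists_pow_nat_eq (-((p : ℂ) * a * ((R + 4 : ℝ) : ℂ))⁻¹)
    (n := p) (by omega)
  have hR4 : ((R + 4 : ℝ) : ℂ) ≠ 0 := by
    rw [Complex.ofReal_ne_zero]
    linarith
  have hW0 : W p a ζ₀ = ((R + 4 : ℝ) : ℂ) := by
    rw [W, hζ₀]
    field_simp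
  let x₀ : ℂ := α + ζ₀
  have hx₀ : x₀ - α = ζ₀ := by
    show α + ζ₀ - α = ζ₀
    ring
  have hx₀U : x₀ ∈ U := by
    show R < (W p a (x₀ - α)).re
    rw [hx₀, hW0, Complex.ofReal_re]
    linarith
  have hζ0 : ζ₀ ≠ 0 := by
    have h1 : R < (W p a ζ₀).re := by
      rw [hW0, Complex.ofReal_re]
      linarith
    exact ne_zero hp (by linarith) h1
  have hseg : ∀ y ∈ segment ℝ x₀ (G.eval x₀), ‖W p a (y - α) - W p a (x₀ - α)‖ ≤ 3 := by
    intro y hy
    rw [segment_eq_image'] at hy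
    obtain ⟨t, ⟨ht0, ht1⟩, rfl⟩ := hy
    have h1 : x₀ + t • (G.eval x₀ - x₀) - α = ζ₀ * (1 + t * (ζ₀ ^ p * q ζ₀)) := by
      have h2 : G.eval x₀ - x₀ = ζ₀ * (ζ₀ ^ p * q ζ₀) := by
        have h3 := hG' x₀
        rw [hx₀] at h3
        have h4 : G.eval x₀ - x₀ = (G.eval x₀ - α) - (x₀ - α) := by ring
        rw [h4, h3, hx₀]
        ring
      rw [h2, Complex.real_smul]
      have h5 : x₀ + (t : ℂ) * (ζ₀ * (ζ₀ ^ p * q ζ₀)) - α =
        (x₀ - α) + (t : ℂ) * (ζ₀ * (ζ₀ ^ p * q ζ₀)) := by ring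
      rw [h5, hx₀]
      ring
    have h2 : R < (W p a ζ₀).re := by
      rw [hW0, Complex.ofReal_re]
      linarith
    have h3 := (hr2 ζ₀ hζ0 (small hp hq0 hr hRs h2)).2 t ht0 ht1
    simp only
    rw [h1, W_mul, hx₀]
    have h4 : W p a ζ₀ * ((1 + (t : ℂ) * (ζ₀ ^ p * q ζ₀)) ^ p)⁻¹ - W p a ζ₀ =
        W p a ζ₀ * (((1 + (t : ℂ) * (ζ₀ ^ p * q ζ₀)) ^ p)⁻¹ - 1) := by ring
    rw [h4]
    exact h3
  have hsegU : segment ℝ x₀ (G.eval x₀) ⊆ U := by
    intro y hy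
    have h1 := hseg y hy
    have h2 := (abs_le.1 (Complex.abs_re_le_norm (W p a (y - α) - W p a (x₀ - α)))).1
    rw [Complex.sub_re, hx₀, hW0, Complex.ofReal_re] at h2
    rw [hx₀, hW0] at h1
    show R < (W p a (y - α)).re
    linarith
  refine ⟨U, x₀, c, hc, ?_, ?_, ?_, hx₀U, ?_, hinv, hsegU, ?_, ?_⟩
  · -- open
    have h1 : U = {z | z - α ≠ 0} ∩ (fun z => (W p a (z - α)).re) ⁻¹' Set.Ioi R := by
      ext z
      constructor
      · intro hz
        exact ⟨ne_zero hp (by linarith) hz, hz⟩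
      · exact fun hz => hz.2
    rw [h1]
    have hopen : IsOpen {z : ℂ | z - α ≠ 0} :=
      isOpen_ne.preimage (continuous_id.sub continuous_const)
    refine ContinuousOn.isOpen_inter_preimage ?_ hopen isOpen_Ioi
    refine Complex.continuous_re.comp_continuousOn ?_
    exact (W_cont p a hp hq0).comp (continuous_id.sub continuous_const).continuousOn
      fun z hz => hz
  · -- bounded
    refine (Metric.isBounded_ball (x := α) (r := r)).subset fun z hz => ?_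
    rw [Metric.mem_ball, dist_eq_norm]
    exact small hp hq0 hr hRs hz
  · intro h
    have h1 : R < (W p a (α - α)).re := h
    exact ne_zero hp (by linarith) h1 (sub_self α)
  · intro h
    have h1 := hstep x₀ hx₀U
    rw [h, sub_self, zero_sub, norm_neg, norm_one] at h1
    linarith
  · -- uniform convergence
    intro ε hε
    obtain ⟨N, hN⟩ := exists_nat_gt (2 * ((p : ℝ) * ‖a‖ * ε ^ p)⁻¹)
    refine ⟨N, fun n hn z hz => ?_⟩
    have h1 := hre z hz n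
    have h2 : R < (W p a (z - α)).re := hz
    have h3 : (N : ℝ) ≤ n := by exact_mod_cast hn
    have h4 : 0 ≤ ((p : ℝ) * ‖a‖ * ε ^ p)⁻¹ := by positivity
    exact small hp hq0 hε le_rfl (by linarith)
  · obtain ⟨N, hN⟩ := exists_nat_gt (max R (12 / κ))
    refine ⟨N, fun n hn => ?_⟩
    have hnN : (N : ℝ) ≤ n := by exact_mod_cast hn
    have hnR : R < n := ((le_max_left _ _).trans_lt hN).trans_le hnN
    have hnκ : 12 / κ < n := ((le_max_right _ _).trans_lt hN).trans_le hnN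
    have hn0 : (0 : ℝ) < n := by linarith
    set xn := (fun w => G.eval w)^[n] x₀ with hxn
    have hxnU : xn ∈ U := (horb x₀ hx₀U n).1
    have hAre : R + 4 + n * (7 / 8) ≤ (W p a (xn - α)).re := by
      have h1 := hre x₀ hx₀U n
      rw [hx₀, hW0, Complex.ofReal_re] at h1
      exact h1
    have hAn : ‖W p a (xn - α)‖ ≤ R + 4 + n * (9 / 8) := by
      have h1 := (horb x₀ hx₀U n).2
      rw [← hxn, hx₀, hW0] at h1
      have h2 : W p a (xn - α) = (W p a (xn - α) - ((R + 4 : ℝ) : ℂ) - n) + (((R + 4 : ℝ) : ℂ) + n) := by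
        ring
      rw [h2]
      refine (norm_add_le _ _).trans ?_
      have h3 : ‖((R + 4 : ℝ) : ℂ) + n‖ ≤ R + 4 + n := by
        refine (norm_add_le _ _).trans ?_
        rw [Complex.norm_real, Real.norm_eq_abs, abs_of_pos (by linarith), Complex.norm_natCast]
      have h4 : δ * n ≤ 1 / 8 * n := by gcongr
      linarith
    have hζn : xn - α ≠ 0 := ne_zero hp (by linarith : (0 : ℝ) ≤ R) hxnU
    refine ⟨fun w hw => ?_, ?_⟩
    · rw [Metric.mem_ball, dist_eq_norm] at hw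
      have hs : ‖(w - xn) / (xn - α)‖ < c := by
        rw [norm_div, div_lt_iff₀ (norm_pos_iff.2 hζn)]
        exact hw
      have h1 : w - α = (xn - α) * (1 + (w - xn) / (xn - α)) := by
        field_simp
        ring
      have h2 := hc3 _ hs
      show R < (W p a (w - α)).re
      rw [h1, W_mul]
      have h3 : ‖W p a (xn - α) * ((1 + (w - xn) / (xn - α)) ^ p)⁻¹ - W p a (xn - α)‖ ≤
          (R + 4 + n * (9 / 8)) * (1 / 4) := by
        have h4 : W p a (xn - α) * ((1 + (w - xn) / (xn - α)) ^ p)⁻¹ - W p a (xn - α) =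
            W p a (xn - α) * (((1 + (w - xn) / (xn - α)) ^ p)⁻¹ - 1) := by ring
        rw [h4, norm_mul]
        gcongr
      have h4 := (abs_le.1 (Complex.abs_re_le_norm (W p a (xn - α) *
        ((1 + (w - xn) / (xn - α)) ^ p)⁻¹ - W p a (xn - α)))).1
      rw [Complex.sub_re] at h4
      linarith
    · have hgc : ContinuousOn (fun y => ((fun w => G.eval w)^[n] y - α) / (xn - α))
          (segment ℝ x₀ (G.eval x₀)) := by
        refine Continuous.continuousOn ?_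
        have h1 : Continuous (fun w => G.eval w)^[n] := G.continuous.iterate n
        exact (h1.sub continuous_const).div_const _
      have h1 := near_one hc hκ2 ((convex_segment x₀ (G.eval x₀)).isPreconnected) hgc
        (left_mem_segment ℝ _ _) (by
          show (xn - α) / (xn - α) = 1
          exact div_self hζn) (fun y hy => ?_)
      · intro y hy
        have h2 := h1 y hy
        have h3 : (fun w => G.eval w)^[n] y - xn =
            (((fun w => G.eval w)^[n] y - α) / (xn - α) - 1) * (xn - α) := by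
          rw [sub_mul, div_mul_cancel₀ _ hζn]
          ring
        rw [h3, norm_mul]
        gcongr
      · have hyU := hsegU hy
        have hyn := horb y hyU n
        set yn := (fun w => G.eval w)^[n] y with hyn'
        have hηn : yn - α ≠ 0 := ne_zero hp (by linarith : (0 : ℝ) ≤ R) hyn.1
        have hB : (n : ℝ) / 2 ≤ ‖W p a (yn - α)‖ := by
          have h2 := hre y hyU n
          have h3 : R < (W p a (y - α)).re := hyU
          have h4 := Complex.re_le_norm (W p a (yn - α))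
          linarith
        have hAB : ‖W p a (xn - α) - W p a (yn - α)‖ ≤ 3 + 2 * (δ * n) := by
          have h2 := (horb x₀ hx₀U n).2
          have h3 := hseg y hy
          have h4 : W p a (xn - α) - W p a (yn - α) =
              (W p a (xn - α) - W p a (x₀ - α) - n) - (W p a (yn - α) - W p a (y - α) - n) -
                (W p a (y - α) - W p a (x₀ - α)) := by ring
          rw [h4]
          refine (norm_sub_le _ _).trans ?_
          have h5 := norm_sub_le (W p a (xn - α) - W p a (x₀ - α) - n)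
            (W p a (yn - α) - W p a (y - α) - n)
          linarith [hyn.2]
        have hgp : ((yn - α) / (xn - α)) ^ p - 1 =
            (W p a (xn - α) - W p a (yn - α)) / W p a (yn - α) := by
          have h2 := pow_ne_zero p hζn
          have h3 := pow_ne_zero p hηn
          rw [W, W, div_pow]
          field_simp
          ring
        show ‖((yn - α) / (xn - α)) ^ p - 1‖ ≤ κ
        rw [hgp, norm_div, div_le_iff₀ (by linarith : 0 < ‖W p a (yn - α)‖)]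
        have h2 : 12 < n * κ := by
          rwa [div_lt_iff₀ hκ] at hnκ
        have h3 : κ * (n / 2) ≤ κ * ‖W p a (yn - α)‖ := by gcongr
        have h4 : δ * n ≤ κ / 8 * n := by gcongr
        linarith

end Pet47

/-- PET. -/
theorem pet : PetStatement := fun G α hG hfix hder => Pet47.pet_main G α hG hfix hder

end Pool.Agent.Imp
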