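import Pool.Agent.Lib.MP_1c105c_an.Spad

/-! MP_1c105c_an: the separation theorem with small ray cycles (SPAR). -/

set_option autoImplicit false

open Filter Topology Set Polynomial

namespace Pool.Agent.Imp

/-- Small ray cycles: every neighbourhood of `α` contains the orbit of the landing point `z ≠ α`
of a ray of periodic angle. -/
def RayCycles (f : ℂ[X]) (P : ℂ → ℂ) (α : ℂ) : Prop :=
  ∀ ε : ℝ, 0 < ε → ∃ (z : ℂ) (t : ℝ) (n : ℕ) (m : ℤ), 1 ≤ n ∧
    (f.natDegree : ℝ) ^ n * t = t + m ∧ Land P t z ∧ z ≠ α ∧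
    ∀ k : ℕ, ‖(fun w => f.eval w)^[k] z - α‖ < ε

/-- The landing point of a ray of periodic angle is periodic. -/
theorem land_per {f : ℂ[X]} {P : ℂ → ℂ} (hd : 2 ≤ f.natDegree) (hP : Half f P) {t : ℝ} {n : ℕ}
    {m : ℤ} {z : ℂ} (ht : (f.natDegree : ℝ) ^ n * t = t + m) (hl : Land P t z) :
    (fun w => f.eval w)^[n] z = z := by
  have h1 := land_iter hd hP hl n
  rw [ht] at h1
  exact Rep.land_unique (Rep.land_add hP.per m h1) hl

/-- SPAR: the form of SPAD with small ray cycles. -/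
theorem spar (rot : RotdStatement) (pul : PulStatement) (crx : CrxdStatement) {f : ℂ[X]}
    {P : ℂ → ℂ} (hd : 2 ≤ f.natDegree) (hP : Half f P)
    (hinf : ∀ R : ℝ, ∃ M : ℝ, ∀ u : ℂ, M ≤ u.re → R ≤ ‖P u‖) {α c : ℂ} (hα : f.eval α = α)
    (hsm : RayCycles f P α) (hc : ∀ z, f.derivative.eval z = 0 → z = c) {E : Set ℂ} {n : ℕ}
    {s : ℝ} {w : ℂ} (hE : IsCompact E) (hEp : IsPreconnected E) (hEK : E ⊆ filledJulia f)
    (hcE : (fun w => f.eval w)^[n + 1] c ∈ E) (hwE : w ∈ E) (hs : Land P s w) : α ∈ E := by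
  by_contra hαE
  have hF : 1 ≤ (Nr.It f n).natDegree := by
    rw [Nr.it_deg]
    exact Nat.one_le_pow _ _ (by omega)
  -- the pull back that contains the critical value
  obtain ⟨E', hE'c, hE'p, hcE', hmap, w', hw'E, hw'⟩ := pul (Nr.It f n) E (f.eval c) w hF hE hEp
    (by
      rw [Nr.it_eval]
      rw [Function.iterate_succ_apply] at hcE
      exact hcE) hwE
  rw [Nr.it_eval] at hw'
  obtain ⟨s', hs'⟩ := land_pull hd hP n w' s (by rw [hw']; exact hs)
  have hE'K : E' ⊆ filledJulia f := fun z hz => by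
    have h1 := hEK (hmap z hz)
    rw [Nr.it_eval] at h1
    exact (Uco.iter_filled n z).1 h1
  have hαE' : α ∉ E' := fun h => hαE (by
    have h1 := hmap α h
    rw [Nr.it_eval, Function.iterate_fixed hα n] at h1
    exact h1)
  have hwα : w' ≠ α := fun h => hαE' (h ▸ hw'E)
  -- the disc
  obtain ⟨r, hr, hD1, hD2⟩ : ∃ r : ℝ, 0 < r ∧ (∀ z ∈ Metric.ball α r, f.eval z ∉ E') ∧
      ∀ z ∈ Metric.ball α r, ∀ x : ℝ, 0 < x → f.eval z ≠ P (x + s' * Complex.I) := by
    obtain ⟨ρ, hρ, hρ'⟩ := ray_far hd hP hinf hα hs' hwα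
    obtain ⟨ρ₁, hρ₁, hρ₁'⟩ := Metric.isOpen_iff.1 hE'c.isClosed.isOpen_compl α hαE'
    have hcont : ContinuousAt (fun z => f.eval z) α := f.continuous.continuousAt
    obtain ⟨r, hr, hr'⟩ := Metric.continuousAt_iff.1 hcont (min ρ ρ₁) (lt_min hρ hρ₁)
    rw [hα] at hr'
    refine ⟨r, hr, fun z hz hz' => ?_, fun z hz x hx hz' => ?_⟩
    · exact hρ₁' ((hr' hz).trans_le (min_le_right _ _)) hz'
    · refine hρ' x hx ?_
      rw [← hz']
      exact (hr' hz).trans_le (min_le_left _ _)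
  obtain ⟨b, hb⟩ := crx f P hd hP hinf c w' s' E' (Metric.ball α r) hc hE'p hE'K hcE' hw'E hs'
    Metric.isOpen_ball (convex_ball α r).isPreconnected hD1 hD2
  -- the first cycle
  obtain ⟨z₁, t₁, n₁, m₁, hn₁, ht₁, hl₁, hne₁, hk₁⟩ := hsm r hr
  have hz₁ := land_per hd hP ht₁ hl₁
  have hper : ∀ k : ℕ, (fun w => f.eval w)^[k] z₁ = (fun w => f.eval w)^[k % n₁] z₁ := by
    intro k
    conv_lhs => rw [← Nat.mod_add_div k n₁]
    rw [Function.iterate_add_apply, Function.iterate_mul, Function.iterate_fixed hz₁]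
  have hne : ∀ k : ℕ, (fun w => f.eval w)^[k] z₁ ≠ α := by
    intro k hk
    apply hne₁
    have h1 : (fun w => f.eval w)^[k * n₁] z₁ = α := by
      have h2 : k * n₁ = (k * n₁ - k) + k := by
        have : k ≤ k * n₁ := Nat.le_mul_of_pos_right k (by omega)
        omega
      rw [h2, Function.iterate_add_apply, hk]
      exact Function.iterate_fixed hα _
    rw [mul_comm, Function.iterate_mul, Function.iterate_fixed hz₁] at h1
    exact h1
  obtain ⟨ε₂, hε₂, hε₂'⟩ : ∃ ε₂ : ℝ, 0 < ε₂ ∧ ∀ k : ℕ, ε₂ ≤ ‖(fun w => f.eval w)^[k] z₁ - α‖ := by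
    obtain ⟨k₀, hk₀, hmin⟩ := Finset.exists_min_image (Finset.range n₁)
      (fun k => ‖(fun w => f.eval w)^[k] z₁ - α‖) ⟨0, Finset.mem_range.2 (by omega)⟩
    refine ⟨‖(fun w => f.eval w)^[k₀] z₁ - α‖, norm_pos_iff.2 (sub_ne_zero.2 (hne k₀)),
      fun k => ?_⟩
    rw [hper k]
    exact hmin (k % n₁) (Finset.mem_range.2 (Nat.mod_lt _ (by omega)))
  -- the second cycle
  obtain ⟨z₂, t₂, n₂, m₂, hn₂, ht₂, hl₂, hne₂, hk₂⟩ := hsm (min ε₂ r) (lt_min hε₂ hr)
  obtain ⟨i, k, hik⟩ := rot f.natDegree b t₁ t₂ n₁ n₂ m₁ m₂ hd hn₁ hn₂ ht₁ ht₂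
    (fun i => by
      have h1 := land_iter hd hP hl₁ i
      exact hb _ _ (by
        rw [mem_ball_iff_norm]
        exact hk₁ i) h1)
    (fun i => by
      have h1 := land_iter hd hP hl₂ i
      exact hb _ _ (by
        rw [mem_ball_iff_norm]
        exact (hk₂ i).trans_le (min_le_right _ _)) h1)
  have h1 := land_iter hd hP hl₁ i
  rw [hik] at h1
  have h2 := Rep.land_unique (Rep.land_add hP.per k h1) hl₂
  have h3 := hε₂' i
  rw [h2] at h3
  have h4 := (hk₂ 0).trans_le (min_le_left _ _)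
  simp only [Function.iterate_zero, id_eq] at h4
  linarith

end Pool.Agent.Imp
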