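import Pool.Agent.Lib.MP_1c105c_an.Defs14
import Pool.Agent.Lib.MP_1c105c_an.Spar

/-! MP_1c105c_an: the separation theorem for periodic points with small ray cycles (SPAP). -/

set_option autoImplicit false

open Filter Topology Set Polynomial

namespace Pool.Agent.Imp

/-- A ray that does not land at the point `α` of `K` misses a neighbourhood of `α`. -/
theorem ray_far' {f : ℂ[X]} {P : ℂ → ℂ} (hd : 2 ≤ f.natDegree) (hP : Half f P)
    (hinf : ∀ R : ℝ, ∃ M : ℝ, ∀ u : ℂ, M ≤ u.re → R ≤ ‖P u‖) {α w : ℂ} {s : ℝ}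
    (hα : α ∈ filledJulia f) (hs : Land P s w) (hne : w ≠ α) :
    ∃ r : ℝ, 0 < r ∧ ∀ x : ℝ, 0 < x → P (x + s * Complex.I) ∉ Metric.ball α r := by
  obtain ⟨R, hR⟩ := hα
  -- near the landing point
  set ρ₁ : ℝ := ‖w - α‖ / 2 with hρ₁
  have hρ₁0 : 0 < ρ₁ := by
    have : 0 < ‖w - α‖ := norm_pos_iff.2 (sub_ne_zero.2 hne)
    positivity
  obtain ⟨ε, hε, hεw⟩ : ∃ ε : ℝ, 0 < ε ∧ ∀ x : ℝ, 0 < x → x < ε →
      ‖P (x + s * Complex.I) - w‖ < ρ₁ := by
    have h1 := Metric.tendsto_nhdsWithin_nhds.1 hs ρ₁ hρ₁0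
    obtain ⟨ε, hε, h2⟩ := h1
    refine ⟨ε, hε, fun x hx hxe => ?_⟩
    have h3 := h2 (x := x) hx (by
      rw [Real.dist_eq, sub_zero, abs_of_pos hx]
      exact hxe)
    rwa [dist_eq_norm] at h3
  -- away from the landing point
  obtain ⟨M, hM⟩ := hinf (R + 2)
  have hd1 : (1 : ℝ) < f.natDegree := by
    have : 1 < f.natDegree := by omega
    exact_mod_cast this
  obtain ⟨n, hn1, hnM⟩ : ∃ n : ℕ, 1 ≤ n ∧ M ≤ (f.natDegree : ℝ) ^ n * ε := by
    obtain ⟨n, hn⟩ := pow_unbounded_of_one_lt (M / ε) hd1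
    refine ⟨n + 1, by omega, ?_⟩
    rw [div_lt_iff₀ hε] at hn
    have h1 : (f.natDegree : ℝ) ^ n * ε ≤ (f.natDegree : ℝ) ^ (n + 1) * ε := by
      refine mul_le_mul_of_nonneg_right ?_ hε.le
      exact pow_le_pow_right₀ hd1.le (by omega)
    linarith
  have hcont : ContinuousAt (fun z => (Nr.It f n).eval z) α := (Nr.It f n).continuous.continuousAt
  obtain ⟨ρ₂, hρ₂, hρ₂'⟩ := Metric.continuousAt_iff.1 hcont 1 one_pos
  refine ⟨min ρ₁ ρ₂, lt_min hρ₁0 hρ₂, fun x hx hmem => ?_⟩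
  rw [mem_ball_iff_norm] at hmem
  rcases lt_or_ge x ε with hxe | hxe
  · have h1 := hεw x hx hxe
    have h2 : ‖P (x + s * Complex.I) - α‖ < ρ₁ := hmem.trans_le (min_le_left _ _)
    have h3 : ‖w - α‖ ≤ ‖P (x + s * Complex.I) - α‖ + ‖P (x + s * Complex.I) - w‖ := by
      have := norm_sub_le (P (x + s * Complex.I) - α) (P (x + s * Complex.I) - w)
      simpa using this
    linarith
  · have h1 : dist (P (x + s * Complex.I)) α < ρ₂ := by
      rw [dist_eq_norm]
      exact hmem.trans_le (min_le_right _ _)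
    have h2 := hρ₂' h1
    have hu : (x : ℂ) + s * Complex.I ∈ HP := by
      show 0 < ((x : ℂ) + s * Complex.I).re
      simpa using hx
    have h3 := (Nr.it_half hd hP hn1).semi _ hu
    rw [h3, Nr.it_eval, Nr.it_deg, dist_eq_norm] at h2
    have h4 := hM (((f.natDegree ^ n : ℕ) : ℂ) * ((x : ℂ) + s * Complex.I)) (by
      rw [← Complex.ofReal_natCast, Complex.re_ofReal_mul]
      have h5 : ((x : ℂ) + s * Complex.I).re = x := by simp
      rw [h5]
      push_cast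
      have h6 : (f.natDegree : ℝ) ^ n * ε ≤ (f.natDegree : ℝ) ^ n * x :=
        mul_le_mul_of_nonneg_left hxe (by positivity)
      linarith)
    have h5 := norm_sub_norm_le (P (((f.natDegree ^ n : ℕ) : ℂ) * ((x : ℂ) + s * Complex.I)))
      ((fun w => f.eval w)^[n] α)
    have h6 := hR n
    linarith

theorem per_mod {f : ℂ[X]} {α : ℂ} {p : ℕ} (hα : (fun w => f.eval w)^[p] α = α) (k : ℕ) :
    (fun w => f.eval w)^[k] α = (fun w => f.eval w)^[k % p] α := by
  conv_lhs => rw [← Nat.mod_add_div k p]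
  rw [Function.iterate_add_apply, Function.iterate_mul, Function.iterate_fixed hα]

theorem per_mem {f : ℂ[X]} {α : ℂ} {p : ℕ} (hp : 1 ≤ p) (hα : (fun w => f.eval w)^[p] α = α) :
    α ∈ filledJulia f := by
  refine ⟨∑ k ∈ Finset.range p, ‖(fun w => f.eval w)^[k] α‖, fun n => ?_⟩
  rw [per_mod hα n]
  exact Finset.single_le_sum (f := fun k => ‖(fun w => f.eval w)^[k] α‖)
    (fun _ _ => norm_nonneg _) (Finset.mem_range.2 (Nat.mod_lt _ (by omega)))

/-- Two periodic orbits with different starting points stay apart. -/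
theorem per_apart {f : ℂ[X]} {α z : ℂ} {p n : ℕ} (hp : 1 ≤ p) (hn : 1 ≤ n)
    (hα : (fun w => f.eval w)^[p] α = α) (hz : (fun w => f.eval w)^[n] z = z) (hne : z ≠ α) :
    ∃ δ : ℝ, 0 < δ ∧ ∀ k : ℕ, δ ≤ ‖(fun w => f.eval w)^[k] z - (fun w => f.eval w)^[k] α‖ := by
  have hα' : (fun w => f.eval w)^[n * p] α = α := by
    rw [mul_comm, Function.iterate_mul, Function.iterate_fixed hα]
  have hz' : (fun w => f.eval w)^[n * p] z = z := by
    rw [Function.iterate_mul, Function.iterate_fixed hz]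
  have hnp : 1 ≤ n * p := Nat.mul_pos hn hp
  have hk : ∀ k : ℕ, (fun w => f.eval w)^[k] z ≠ (fun w => f.eval w)^[k] α := by
    intro k hk
    apply hne
    have h1 : k * (n * p) = (k * (n * p) - k) + k := by
      have : k ≤ k * (n * p) := Nat.le_mul_of_pos_right k hnp
      omega
    have h2 : (fun w => f.eval w)^[k * (n * p)] z = z := by
      rw [mul_comm, Function.iterate_mul, Function.iterate_fixed hz']
    have h3 : (fun w => f.eval w)^[k * (n * p)] α = α := by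
      rw [mul_comm, Function.iterate_mul, Function.iterate_fixed hα']
    rw [← h2, ← h3, h1, Function.iterate_add_apply, Function.iterate_add_apply, hk]
  obtain ⟨k₀, hk₀, hmin⟩ := Finset.exists_min_image (Finset.range (n * p))
    (fun k => ‖(fun w => f.eval w)^[k] z - (fun w => f.eval w)^[k] α‖)
    ⟨0, Finset.mem_range.2 hnp⟩
  refine ⟨_, norm_pos_iff.2 (sub_ne_zero.2 (hk k₀)), fun k => ?_⟩
  rw [per_mod hα' k, per_mod hz' k]
  exact hmin (k % (n * p)) (Finset.mem_range.2 (Nat.mod_lt _ hnp))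

/-- SPAP. -/
theorem spap (rotp : RotpStatement) (pul : PulStatement) (crx : CrxdStatement) {f : ℂ[X]}
    {P : ℂ → ℂ} (hd : 2 ≤ f.natDegree) (hP : Half f P)
    (hinf : ∀ R : ℝ, ∃ M : ℝ, ∀ u : ℂ, M ≤ u.re → R ≤ ‖P u‖) {α c : ℂ} {p : ℕ} (hp : 1 ≤ p)
    (hα : (fun w => f.eval w)^[p] α = α)
    (hsm : RayCyclesP f P α) (hc : ∀ z, f.derivative.eval z = 0 → z = c) {E : Set ℂ} {n : ℕ}
    {s : ℝ} {w : ℂ} (hE : IsCompact E) (hEp : IsPreconnected E) (hEK : E ⊆ filledJulia f)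
    (hcE : (fun w => f.eval w)^[n + 1] c ∈ E) (hwE : w ∈ E) (hs : Land P s w) :
    ∃ j, (fun w => f.eval w)^[j] α ∈ E := by
  by_contra hαE
  push Not at hαE
  have hF : 1 ≤ (Nr.It f n).natDegree := by
    rw [Nr.it_deg]
    exact Nat.one_le_pow _ _ (by omega)
  -- the pull back that contains the critical value
  obtain ⟨E', hE'c, hE'p, hcE', hmap, w', hw'E, hw'⟩ := pul (Nr.It f n) E (f.eval c) w hF hE hEp
    (by
      rw [Nr.it_eval]
      rw [Function.iterate_succ_apply] at hcE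
      exact hcE) hwE
  rw [Nr.it_eval] at hw'
  obtain ⟨s', hs'⟩ := land_pull hd hP n w' s (by rw [hw']; exact hs)
  have hE'K : E' ⊆ filledJulia f := fun z hz => by
    have h1 := hEK (hmap z hz)
    rw [Nr.it_eval] at h1
    exact (Uco.iter_filled n z).1 h1
  have hαE' : ∀ j : ℕ, (fun w => f.eval w)^[j] α ∉ E' := fun j h => by
    have h1 := hmap _ h
    rw [Nr.it_eval, ← Function.iterate_add_apply] at h1
    exact hαE _ h1
  have hαK := per_mem hp hα
  -- the discs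
  have hdisc : ∀ j : ℕ, ∃ r : ℝ, 0 < r ∧
      (∀ z ∈ Metric.ball ((fun w => f.eval w)^[j] α) r, f.eval z ∉ E') ∧
      ∀ z ∈ Metric.ball ((fun w => f.eval w)^[j] α) r, ∀ x : ℝ, 0 < x →
        f.eval z ≠ P (x + s' * Complex.I) := by
    intro j
    have hj : f.eval ((fun w => f.eval w)^[j] α) = (fun w => f.eval w)^[j + 1] α := by
      rw [Function.iterate_succ_apply']
    obtain ⟨ρ, hρ, hρ'⟩ := ray_far' hd hP hinf (α := (fun w => f.eval w)^[j + 1] α)
      ((Uco.iter_filled (j + 1) α).2 hαK) hs' (fun h => hαE' (j + 1) (h ▸ hw'E))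
    obtain ⟨ρ₁, hρ₁, hρ₁'⟩ := Metric.isOpen_iff.1 hE'c.isClosed.isOpen_compl _ (hαE' (j + 1))
    have hcont : ContinuousAt (fun z => f.eval z) ((fun w => f.eval w)^[j] α) :=
      f.continuous.continuousAt
    obtain ⟨r, hr, hr'⟩ := Metric.continuousAt_iff.1 hcont (min ρ ρ₁) (lt_min hρ hρ₁)
    rw [hj] at hr'
    refine ⟨r, hr, fun z hz hz' => ?_, fun z hz x hx hz' => ?_⟩
    · exact hρ₁' ((hr' hz).trans_le (min_le_right _ _)) hz'
    · refine hρ' x hx ?_
      rw [← hz']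
      exact (hr' hz).trans_le (min_le_left _ _)
  choose R hR hD1 hD2 using hdisc
  obtain ⟨r, hr, hrR⟩ : ∃ r : ℝ, 0 < r ∧ ∀ j < p, r ≤ R j := by
    obtain ⟨j₀, -, hmin⟩ := Finset.exists_min_image (Finset.range p) R
      ⟨0, Finset.mem_range.2 (by omega)⟩
    exact ⟨R j₀, hR j₀, fun j hj => hmin j (Finset.mem_range.2 hj)⟩
  have hcrx : ∀ j : ℕ, ∃ b : ℝ, ∀ (t : ℝ) (z : ℂ),
      z ∈ Metric.ball ((fun w => f.eval w)^[j] α) (R j) → Land P t z →
      0 < Int.fract (t - b) ∧ Int.fract (t - b) < 1 / f.natDegree := fun j =>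
    crx f P hd hP hinf c w' s' E' (Metric.ball ((fun w => f.eval w)^[j] α) (R j)) hc hE'p hE'K
      hcE' hw'E hs' Metric.isOpen_ball (convex_ball _ _).isPreconnected (hD1 j) (hD2 j)
  choose b hb using hcrx
  -- the cycles
  have hcyc : ∀ ε : {ε : ℝ // 0 < ε}, ∃ (z : ℂ) (t : ℝ) (n : ℕ) (m : ℤ) (δ : ℝ), 1 ≤ n ∧
      (f.natDegree : ℝ) ^ n * t = t + m ∧ Land P t z ∧ 0 < δ ∧
      (∀ k : ℕ, ‖(fun w => f.eval w)^[k] z - (fun w => f.eval w)^[k] α‖ < ε) ∧
      ∀ k : ℕ, δ ≤ ‖(fun w => f.eval w)^[k] z - (fun w => f.eval w)^[k] α‖ := by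
    rintro ⟨ε, hε⟩
    obtain ⟨z, t, n, m, hn, ht, hl, hne, hk⟩ := hsm ε hε
    obtain ⟨δ, hδ, hδk⟩ := per_apart hp hn hα (land_per hd hP ht hl) hne
    exact ⟨z, t, n, m, δ, hn, ht, hl, hδ, hk, hδk⟩
  choose z t q m δ hq ht hl hδ hk hδk using hcyc
  let e : ℕ → {ε : ℝ // 0 < ε} := fun i => Nat.rec ⟨r, hr⟩
    (fun _ x => ⟨min x.1 (δ x), lt_min x.2 (hδ x)⟩) i
  have he0 : (e 0).1 = r := rfl
  have hes : ∀ i, (e (i + 1)).1 = min (e i).1 (δ (e i)) := fun i => rfl
  have hanti : ∀ i j, i ≤ j → (e j).1 ≤ (e i).1 := by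
    intro i j hij
    induction j, hij using Nat.le_induction with
    | base => exact le_rfl
    | succ j _ ih =>
      rw [hes]
      exact (min_le_left _ _).trans ih
  have hlt : ∀ i j, i < j → (e j).1 ≤ δ (e i) := by
    intro i j hij
    refine (hanti (i + 1) j hij).trans ?_
    rw [hes]
    exact min_le_right _ _
  obtain ⟨i, j, N, k, hij, hjp, hN⟩ := rotp f.natDegree p (fun j => b (j % p))
    (fun i => t (e i)) (fun i => q (e i)) (fun i => m (e i)) hd hp (fun j => by simp)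
    (fun i => ⟨hq (e i), ht (e i)⟩) (fun i k => by
      have h1 := land_iter hd hP (hl (e i)) k
      have h2 := hk (e i) k
      refine hb (k % p) _ _ ?_ h1
      rw [mem_ball_iff_norm, ← per_mod hα k]
      refine h2.trans_le (((hanti 0 i (Nat.zero_le _)).trans (le_of_eq he0)).trans
        (hrR (k % p) (Nat.mod_lt _ (by omega)))))
  have h1 := land_iter hd hP (hl (e i)) (N * p)
  rw [hN] at h1
  have h2 := Rep.land_unique (Rep.land_add hP.per k h1) (hl (e j))
  have h3 := hδk (e i) (N * p)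
  have h4 : (fun w => f.eval w)^[N * p] α = α := by
    rw [mul_comm, Function.iterate_mul, Function.iterate_fixed hα]
  rw [h2, h4] at h3
  have h5 := hk (e j) 0
  simp only [Function.iterate_zero, id_eq] at h5
  have h6 := hlt i j hij
  linarith

end Pool.Agent.Imp
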