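import Pool.Agent.Lib.MP_1c105c_an.Crxd
import Pool.Agent.Lib.MP_1c105c_an.Spap

/-! MP_1c105c_an, stage 20, row PIN: rays on both sides of the ray of angle `a` that land near a
point `y` separate the landing points of the rays of angles `a` and `b`, up to `y`. -/

set_option autoImplicit false

open Filter Topology Set Polynomial

namespace Pool.Agent.Imp

open Thr58 Crxd60

/-- PIN: if the rays of angles `a` and `b` land at points of a closed connected subset `S` of `K`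
that misses `y`, there are not on both sides of `a` rays of angles arbitrarily close to `a` that
land arbitrarily close to `y`. -/
theorem pin (crs : CrsStatement) {f : ℂ[X]} {P : ℂ → ℂ} (hd : 2 ≤ f.natDegree) (hP : Half f P)
    (hinf : ∀ R : ℝ, ∃ M : ℝ, ∀ u : ℂ, M ≤ u.re → R ≤ ‖P u‖) {a b : ℝ} (hab : a < b)
    (hab' : b < a + 1) {w w' y : ℂ} {S : Set ℂ} (hw : Land P a w) (hw' : Land P b w')
    (hS : IsClosed S) (hSp : IsPreconnected S) (hSK : S ⊆ filledJulia f) (h1 : w ∈ S)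
    (h2 : w' ∈ S) (hy : y ∈ filledJulia f) (hyS : y ∉ S)
    (h : ∀ ε : ℝ, 0 < ε → ∃ (l r : ℝ) (z z' : ℂ), a - ε < l ∧ l < a ∧ a < r ∧ r < a + ε ∧
      Land P l z ∧ Land P r z' ∧ ‖z - y‖ < ε ∧ ‖z' - y‖ < ε) : False := by
  have hwy : w ≠ y := fun e => hyS (e ▸ h1)
  have hwy' : w' ≠ y := fun e => hyS (e ▸ h2)
  obtain ⟨ρ₁, hρ₁, hr₁⟩ := ray_far' hd hP hinf hy hw hwy
  obtain ⟨ρ₂, hρ₂, hr₂⟩ := ray_far' hd hP hinf hy hw' hwy'
  obtain ⟨ρ₃, hρ₃, hr₃⟩ := Metric.isOpen_iff.1 hS.isOpen_compl y hyS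
  obtain ⟨ρ, hρ⟩ : ∃ ρ, ρ = min (min ρ₁ ρ₂) ρ₃ := ⟨_, rfl⟩
  have hρ0 : 0 < ρ := by
    rw [hρ]
    exact lt_min (lt_min hρ₁ hρ₂) hρ₃
  have hρ1 : ρ ≤ ρ₁ := by
    rw [hρ]
    exact (min_le_left _ _).trans (min_le_left _ _)
  have hρ2 : ρ ≤ ρ₂ := by
    rw [hρ]
    exact (min_le_left _ _).trans (min_le_right _ _)
  have hρ3 : ρ ≤ ρ₃ := by
    rw [hρ]
    exact min_le_right _ _
  obtain ⟨δ, hδ⟩ : ∃ δ, δ = min (b - a) (a + 1 - b) := ⟨_, rfl⟩
  have hδ0 : 0 < δ := by
    rw [hδ]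
    exact lt_min (by linarith) (by linarith)
  have hδ1 : δ ≤ b - a := by
    rw [hδ]
    exact min_le_left _ _
  have hδ2 : δ ≤ a + 1 - b := by
    rw [hδ]
    exact min_le_right _ _
  obtain ⟨l, r, z, z', hl1, hl2, hr1, hr2, hl, hr, hz, hz'⟩ := h (min ρ δ) (lt_min hρ0 hδ0)
  have hm1 : min ρ δ ≤ ρ := min_le_left _ _
  have hm2 : min ρ δ ≤ δ := min_le_right _ _
  have hzB : z ∈ Metric.ball y ρ := by
    rw [Metric.mem_ball, dist_eq_norm]
    linarith
  have hzB' : z' ∈ Metric.ball y ρ := by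
    rw [Metric.mem_ball, dist_eq_norm]
    linarith
  -- the connected set
  obtain ⟨E, hE⟩ : ∃ E, E = End P a w ∪ S ∪ End P b w' := ⟨_, rfl⟩
  have hEp : IsPreconnected E := by
    rw [hE]
    exact IsPreconnected.union w' (Or.inr h2) (Or.inl rfl)
      (IsPreconnected.union w (Or.inl rfl) h1 (end_pre hP hw) hSp) (end_pre hP hw')
  have hEP : ∀ u : ℂ, 0 < u.re → P u ∈ E → u.re ≤ 1 ∧ ∃ m : ℤ, u.im = a + m ∨ u.im = b + m := by
    intro u hu hm
    have hnK := not_K hP hu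
    rw [hE] at hm
    rcases hm with (hm | hm) | hm
    · rcases hm with hm | ⟨x, hx, hm⟩
      · rw [mem_singleton_iff.1 hm] at hnK
        exact absurd (hSK h1) hnK
      · obtain ⟨h5, m, hm⟩ := inj' hP hu (by rw [ray_re]; exact hx.1) hm.symm
        rw [ray_re] at h5
        rw [ray_im] at hm
        exact ⟨h5.le.trans hx.2, m, Or.inl hm⟩
    · exact absurd (hSK hm) hnK
    · rcases hm with hm | ⟨x, hx, hm⟩
      · rw [mem_singleton_iff.1 hm] at hnK
        exact absurd (hSK h2) hnK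
      · obtain ⟨h5, m, hm⟩ := inj' hP hu (by rw [ray_re]; exact hx.1) hm.symm
        rw [ray_re] at h5
        rw [ray_im] at hm
        exact ⟨h5.le.trans hx.2, m, Or.inr hm⟩
  -- the open set
  obtain ⟨O, hO⟩ : ∃ O, O = (Metric.ball y ρ ∪ P '' Sp (a - δ) a) ∪ P '' Sp a (a + δ) := ⟨_, rfl⟩
  have hOo : IsOpen O := by
    rw [hO]
    exact (Metric.isOpen_ball.union (Jul.half_open hP _ (Sp_HP _ _) (Sp_open _ _))).union
      (Jul.half_open hP _ (Sp_HP _ _) (Sp_open _ _))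
  have hmeet : ∀ (t a' b' : ℝ) (z : ℂ), z ∈ Metric.ball y ρ → Land P t z → a' < t → t < b' →
      ∃ v, v ∈ Metric.ball y ρ ∧ v ∈ P '' Sp a' b' := by
    intro t a' b' z hz ht ha hb
    obtain ⟨x, hx, hx0⟩ := ((Tendsto.eventually ht (Metric.isOpen_ball.mem_nhds hz)).and
      self_mem_nhdsWithin).exists
    refine ⟨_, hx, _, ⟨?_, ?_, ?_⟩, rfl⟩
    · rw [ray_re]
      exact hx0
    · rw [ray_im]
      exact ha
    · rw [ray_im]
      exact hb
  have hOp : IsPreconnected O := by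
    rw [hO]
    obtain ⟨y₁, hy₁, hy₁'⟩ := hmeet l (a - δ) a z hzB hl (by linarith) hl2
    obtain ⟨y₂, hy₂, hy₂'⟩ := hmeet r a (a + δ) z' hzB' hr hr1 (by linarith)
    exact IsPreconnected.union y₂ (Or.inl hy₂) hy₂'
      (IsPreconnected.union y₁ hy₁ hy₁' (convex_ball y ρ).isPreconnected (Sp_pre hP _ _))
      (Sp_pre hP _ _)
  -- angles
  have hang : ∀ (u : ℂ) (a' : ℝ), 0 < u.re → (a' = a - δ ∨ a' = a) → P u ∈ P '' Sp a' (a' + δ) →
      ∀ m : ℤ, u.im ≠ a + m ∧ u.im ≠ b + m := by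
    rintro u a' hu ha' ⟨u', ⟨hu1, hu2, hu3⟩, he⟩ m
    obtain ⟨-, j, hj⟩ := inj' hP hu1 hu he
    constructor
    · intro hm
      rw [hj, hm] at hu2 hu3
      have h6 : ((m + j : ℤ) : ℝ) < 1 := by
        push_cast
        rcases ha' with rfl | rfl <;> linarith
      have h7 : (-1 : ℝ) < ((m + j : ℤ) : ℝ) := by
        push_cast
        rcases ha' with rfl | rfl <;> linarith
      have h8 : m + j < 1 := by exact_mod_cast h6
      have h9 : -1 < m + j := by exact_mod_cast h7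
      have h10 : m + j = 0 := by omega
      have h11 : (m : ℝ) + j = 0 := by exact_mod_cast h10
      rcases ha' with rfl | rfl <;> linarith
    · intro hm
      rw [hj, hm] at hu2 hu3
      have h6 : ((m + j : ℤ) : ℝ) < 0 := by
        push_cast
        rcases ha' with rfl | rfl <;> linarith
      have h7 : (-1 : ℝ) < ((m + j : ℤ) : ℝ) := by
        push_cast
        rcases ha' with rfl | rfl <;> linarith
      have h8 : m + j < 0 := by exact_mod_cast h6
      have h9 : -1 < m + j := by exact_mod_cast h7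
      omega
  have hang' : ∀ u : ℂ, 0 < u.re → (P u ∈ P '' Sp (a - δ) a ∨ P u ∈ P '' Sp a (a + δ)) →
      ∀ m : ℤ, u.im ≠ a + m ∧ u.im ≠ b + m := by
    rintro u hu (hm | hm)
    · refine hang u (a - δ) hu (Or.inl rfl) ?_
      rw [sub_add_cancel]
      exact hm
    · exact hang u a hu (Or.inr rfl) hm
  have hrayO : ∀ (x t : ℝ), 0 < x → (t = a ∨ t = b) → P (x + t * Complex.I) ∉ O := by
    intro x t hx ht hm
    have hr0 : 0 < ((x : ℂ) + t * Complex.I).re := by
      rw [ray_re]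
      exact hx
    have hball : P (x + t * Complex.I) ∉ Metric.ball y ρ := by
      rcases ht with rfl | rfl
      · exact fun h' => hr₁ x hx (Metric.ball_subset_ball hρ1 h')
      · exact fun h' => hr₂ x hx (Metric.ball_subset_ball hρ2 h')
    have h3 : P (x + t * Complex.I) ∈ P '' Sp (a - δ) a ∨
        P (x + t * Complex.I) ∈ P '' Sp a (a + δ) := by
      rw [hO] at hm
      rcases hm with (hm | hm) | hm
      · exact absurd hm hball
      · exact Or.inl hm
      · exact Or.inr hm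
    have h4 := hang' _ hr0 h3 0
    rw [ray_im] at h4
    simp only [Int.cast_zero, add_zero] at h4
    rcases ht with rfl | rfl
    · exact h4.1 rfl
    · exact h4.2 rfl
  have hdis : Disjoint O E := by
    refine Set.disjoint_left.2 fun v hv hv' => ?_
    rw [hE] at hv'
    have hS' : v ∈ S → False := by
      intro hvS
      rw [hO] at hv
      rcases hv with (hv | ⟨u, hu, rfl⟩) | ⟨u, hu, rfl⟩
      · exact hr₃ (Metric.ball_subset_ball hρ3 hv) hvS
      · exact not_K hP hu.1 (hSK hvS)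
      · exact not_K hP hu.1 (hSK hvS)
    rcases hv' with (hv' | hv') | hv'
    · rcases hv' with hv' | ⟨x, hx, rfl⟩
      · rw [mem_singleton_iff.1 hv'] at hS'
        exact hS' h1
      · exact hrayO x a hx.1 (Or.inl rfl) hv
    · exact hS' hv'
    · rcases hv' with hv' | ⟨x, hx, rfl⟩
      · rw [mem_singleton_iff.1 hv'] at hS'
        exact hS' h2
      · exact hrayO x b hx.1 (Or.inr rfl) hv
  refine crs f P hd hP hinf O E 1 l a r b hOo hOp hEp hdis one_pos hl2 hr1 (by linarith)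
    (by linarith) ?_ ?_ ?_ ?_ ?_
  · intro x hx
    have hx0 : 0 < x := lt_of_lt_of_le one_pos hx
    refine ⟨?_, ?_⟩
    · rw [hO]
      refine Or.inl (Or.inr ⟨_, ⟨?_, ?_, ?_⟩, rfl⟩)
      · rw [ray_re]
        exact hx0
      · rw [ray_im]
        linarith
      · rw [ray_im]
        exact hl2
    · rw [hO]
      refine Or.inr ⟨_, ⟨?_, ?_, ?_⟩, rfl⟩
      · rw [ray_re]
        exact hx0
      · rw [ray_im]
        exact hr1
      · rw [ray_im]
        linarith
  · intro x hx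
    have hx0 : 0 < x := lt_of_lt_of_le one_pos hx
    exact ⟨hrayO x a hx0 (Or.inl rfl), hrayO x b hx0 (Or.inr rfl)⟩
  · rw [hE]
    exact Or.inl (Or.inl (Or.inr ⟨1, ⟨one_pos, le_rfl⟩, rfl⟩))
  · rw [hE]
    exact Or.inr (Or.inr ⟨1, ⟨one_pos, le_rfl⟩, rfl⟩)
  · intro u hu hPu
    obtain ⟨h5, -⟩ := hEP u (lt_trans one_pos hu) hPu
    linarith

end Pool.Agent.Imp
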