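import Pool.Agent.Lib.MP_1c105c_an.Defs10

/-! MP_1c105c_an, row PRY: a ray lands at a parabolic fixed point. -/

set_option autoImplicit false

open Filter Topology Set Polynomial

namespace Pool.Agent.Imp

/-- PRY. -/
theorem pry (fix : FixStatement) : PryStatement := by
  intro f P hd hP hno α m hm hα h1
  have hD := Nr.deg_two hd hm
  have hH := Nr.it_half hd hP hm
  obtain ⟨S, β, hr, hS, -⟩ := Nr.roots_eq fix hD hH hno
  have hαm : (Nr.It f m).eval α = α := by
    rw [Nr.it_eval]
    exact Function.iterate_fixed (f := fun w => f.eval w) hα m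
  have hne : Nr.It f m - X ≠ 0 := by
    intro h0
    have hdeg : (Nr.It f m - X).natDegree = (Nr.It f m).natDegree := by
      rw [natDegree_sub_eq_left_of_natDegree_lt]
      rw [natDegree_X]; omega
    rw [h0, natDegree_zero] at hdeg
    omega
  have h2 : (Nr.It f m).derivative.eval α = 1 := by rw [Nr.it_deriv_fixed f m hα, h1]
  rw [Nr.deriv_one_iff hne hαm, hr] at h2
  have hαS : α ∈ S := by
    by_contra hn
    have h3 : Multiset.count α S.val = 0 := Multiset.count_eq_zero.2 hn
    have h4 : Multiset.count α (β ::ₘ S.val) ≤ Multiset.count α S.val + 1 := by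
      rw [Multiset.count_cons]; split_ifs <;> omega
    omega
  obtain ⟨t, k, -, ht⟩ := hS α hαS
  exact ⟨t, ht⟩

end Pool.Agent.Imp
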