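import Pool.Agent.Lib.MP_1c105c_an.Defs6
import Pool.Agent.Lib.MP_1c105c_an.Jul

/-! MP_1c105c_an, row PSI: the lift of `P` through the linearization at a repelling fixed
point. -/

set_option autoImplicit false

open Filter Topology Set Polynomial

namespace Pool.Agent.Imp

namespace Psi68

theorem per_int {P : ℂ → ℂ} (hper : ∀ u, P (u + Complex.I) = P u) (u : ℂ) (n : ℤ) :
    P (u + n * Complex.I) = P u := by
  have h1 : ∀ (m : ℕ) (v : ℂ), P (v + m * Complex.I) = P v := by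
    intro m
    induction m with
    | zero => intro v; simp
    | succ m ih =>
      intro v
      have h : v + ((m + 1 : ℕ) : ℂ) * Complex.I = (v + m * Complex.I) + Complex.I := by
        push_cast
        ring
      rw [h, hper, ih]
  obtain ⟨m, rfl | rfl⟩ := n.eq_nat_or_neg
  · exact_mod_cast h1 m u
  · have h := h1 m (u + ((-(m : ℤ) : ℤ) : ℂ) * Complex.I)
    have h2 : u + ((-(m : ℤ) : ℤ) : ℂ) * Complex.I + m * Complex.I = u := by
      push_cast
      ring
    rw [h2] at h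
    exact h.symm

theorem re_pt (u : ℂ) (j : ℤ) (d n : ℕ) :
    ((u + j * Complex.I) / (d : ℂ) ^ n).re = u.re / (d : ℝ) ^ n := by
  have h : ((d : ℂ) ^ n) = (((d : ℝ) ^ n : ℝ) : ℂ) := by push_cast; rfl
  rw [h, Complex.div_ofReal_re]
  simp

theorem im_pt (u : ℂ) (j : ℤ) (d n : ℕ) :
    ((u + j * Complex.I) / (d : ℂ) ^ n).im = (u.im + j) / (d : ℝ) ^ n := by
  have h : ((d : ℂ) ^ n) = (((d : ℝ) ^ n : ℝ) : ℂ) := by push_cast; rfl
  rw [h, Complex.div_ofReal_im]
  simp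

theorem mem_pt {d : ℕ} (hd : 2 ≤ d) {u : ℂ} (hu : u ∈ HP) (j : ℤ) (n : ℕ) :
    (u + j * Complex.I) / (d : ℂ) ^ n ∈ HP := by
  show 0 < ((u + j * Complex.I) / (d : ℂ) ^ n).re
  rw [re_pt]
  have h1 : (0 : ℝ) < d := by
    have : 0 < d := by omega
    exact_mod_cast this
  have h2 : 0 < u.re := hu
  positivity

/-- One step down. -/
theorem step {f : ℂ[X]} {P : ℂ → ℂ} (hd : 2 ≤ f.natDegree) (hP : Half f P) {u : ℂ} (hu : u ∈ HP)
    (n : ℕ) (j j' : ℤ) (h : ∃ m : ℤ, j' = j + m * f.natDegree ^ n) :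
    f.eval (P ((u + j' * Complex.I) / f.natDegree ^ (n + 1))) =
      P ((u + j * Complex.I) / f.natDegree ^ n) := by
  obtain ⟨m, rfl⟩ := h
  have hd0 : (f.natDegree : ℂ) ≠ 0 := by
    have : f.natDegree ≠ 0 := by omega
    exact_mod_cast this
  rw [hP.semi _ (mem_pt hd hu _ _)]
  have h : (f.natDegree : ℂ) * ((u + ((j + m * f.natDegree ^ n : ℤ) : ℂ) * Complex.I) /
      f.natDegree ^ (n + 1)) = (u + j * Complex.I) / f.natDegree ^ n + m * Complex.I := by
    push_cast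
    field_simp
    ring
  rw [h, per_int hP.per]

/-- Dependent choice. -/
theorem seq_of {p : ℕ → ℤ → Prop} {q : ℕ → ℤ → ℤ → Prop} (h0 : p 0 0)
    (hs : ∀ n j, p n j → ∃ j', p (n + 1) j' ∧ q n j j') :
    ∃ j : ℕ → ℤ, j 0 = 0 ∧ (∀ n, p n (j n)) ∧ ∀ n, q n (j n) (j (n + 1)) := by
  choose F hF using hs
  let s : (n : ℕ) → {j : ℤ // p n j} := fun n =>
    Nat.rec (motive := fun n => {j : ℤ // p n j}) ⟨0, h0⟩
      (fun n s => ⟨F n s.1 s.2, (hF n s.1 s.2).1⟩) n
  exact ⟨fun n => (s n).1, rfl, fun n => (s n).2, fun n => (hF n (s n).1 (s n).2).2⟩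

/-- The pull backs of a compact set converge to `z₀`. -/
theorem conv (hyp : HypStatement) {f : ℂ[X]} {P : ℂ → ℂ} (hd : 2 ≤ f.natDegree) (hP : Half f P)
    {u₀ z₀ : ℂ} (hu₀ : u₀ ∈ HP) (j : ℕ → ℤ)
    (h0 : Tendsto (fun n : ℕ => P ((u₀ + j n * Complex.I) / f.natDegree ^ n)) atTop (𝓝 z₀))
    (a A ε : ℝ) (ha : 0 < a) (hε : 0 < ε) :
    ∃ N : ℕ, ∀ n ≥ N, ∀ v : ℂ, a ≤ v.re → v.re ≤ A → |v.im| ≤ A →
      ‖P ((v + j n * Complex.I) / f.natDegree ^ n) - z₀‖ < ε := by
  have hu0 : 0 < u₀.re := hu₀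
  have hd1 : (1 : ℝ) < f.natDegree := by
    have : 1 < f.natDegree := by omega
    exact_mod_cast this
  set T : ℝ := |A| + |u₀.im| + u₀.re + 1 with hT
  have hTp : 0 < T := by positivity
  set q : ℝ := min a u₀.re / T with hq
  have hqp : 0 < q := div_pos (lt_min ha hu0) hTp
  have hqT : q * T = min a u₀.re := by rw [hq]; field_simp
  obtain ⟨s₀, hs₀, hH⟩ := hyp f P hd hP (ε / 4) q (by positivity) hqp
  obtain ⟨N₁, hN₁⟩ := Metric.tendsto_atTop.1 h0 (ε / 4) (by positivity)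
  have h1 : Tendsto (fun n : ℕ => T / (f.natDegree : ℝ) ^ n) atTop (𝓝 0) :=
    tendsto_const_nhds.div_atTop (tendsto_pow_atTop_atTop_of_one_lt hd1)
  obtain ⟨N₂, hN₂⟩ := eventually_atTop.1 (h1.eventually_le_const hs₀)
  refine ⟨max N₁ N₂, fun n hn v hv1 hv2 hv3 => ?_⟩
  have hn1 := hN₁ n (le_trans (le_max_left _ _) hn)
  have hn2 := hN₂ n (le_trans (le_max_right _ _) hn)
  rw [dist_eq_norm] at hn1
  have hdn : (0 : ℝ) < (f.natDegree : ℝ) ^ n := by positivity
  -- the top point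
  have hnear : ∀ v : ℂ, min a u₀.re ≤ v.re → v.re ≤ T → |u₀.im - v.im| ≤ T →
      ‖P ((((T : ℂ) + u₀.im * Complex.I) + j n * Complex.I) / f.natDegree ^ n) -
        P ((v + j n * Complex.I) / f.natDegree ^ n)‖ ≤ ε / 4 := by
    intro v hv1 hv2 hv3
    have hTre : ((T : ℂ) + u₀.im * Complex.I).re = T := by simp
    have hTim : ((T : ℂ) + u₀.im * Complex.I).im = u₀.im := by simp
    apply hH
    · rw [re_pt, hTre]
      positivity
    · rw [re_pt, hTre]
      exact hn2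
    · rw [re_pt, re_pt, hTre, ← mul_div_assoc, hqT]
      gcongr
    · rw [re_pt, re_pt, hTre]
      gcongr
    · rw [im_pt, im_pt, re_pt, hTre, hTim, ← sub_div, abs_div, abs_of_pos hdn]
      have h3 : u₀.im + (j n : ℝ) - (v.im + j n) = u₀.im - v.im := by ring
      rw [h3]
      gcongr
  have hA : A ≤ |A| := le_abs_self A
  have hi0 : 0 ≤ |u₀.im| := abs_nonneg _
  have e1 := hnear v (le_trans (min_le_left _ _) hv1) (by linarith) (by
    have := abs_sub u₀.im v.im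
    have h4 : |u₀.im - v.im| ≤ |u₀.im| + |v.im| := by
      rw [sub_eq_add_neg]
      refine (abs_add_le _ _).trans ?_
      rw [abs_neg]
    linarith)
  have e2 := hnear u₀ (min_le_right _ _) (by
    have := abs_nonneg A
    linarith) (by rw [sub_self, abs_zero]; exact hTp.le)
  calc ‖P ((v + j n * Complex.I) / f.natDegree ^ n) - z₀‖
      = ‖(P ((((T : ℂ) + u₀.im * Complex.I) + j n * Complex.I) / f.natDegree ^ n) -
          P ((u₀ + j n * Complex.I) / f.natDegree ^ n)) -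
        (P ((((T : ℂ) + u₀.im * Complex.I) + j n * Complex.I) / f.natDegree ^ n) -
          P ((v + j n * Complex.I) / f.natDegree ^ n)) +
        (P ((u₀ + j n * Complex.I) / f.natDegree ^ n) - z₀)‖ := by
        congr 1
        ring
    _ ≤ ε / 4 + ε / 4 + ‖P ((u₀ + j n * Complex.I) / f.natDegree ^ n) - z₀‖ := by
        refine (norm_add_le _ _).trans ?_
        gcongr
        refine (norm_sub_le _ _).trans ?_
        gcongr
    _ < ε := by linarith

end Psi68

open Psi68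

/-- **Row PSI.** -/
theorem psi (app : AppStatement) (hyp : HypStatement) (jul : JulStatement) : PsiStatement := by
  intro f P hd hP hinf z₀ hz₀ Λ ρ χ hΛ hρ hχd hχi hχ' hχ0 hfun
  obtain ⟨hKc, -, -, -, -⟩ := jul f P hd hP
  have hzK : z₀ ∈ filledJulia f := hKc.frontier_subset hz₀
  have hPK : ∀ u ∈ HP, P u ∉ filledJulia f := by
    intro u hu
    have h : P u ∈ (filledJulia f)ᶜ := by
      rw [← hP.range]
      exact mem_image_of_mem _ hu
    exact h
  have hΛn : (0 : ℝ) < ‖Λ‖ := by linarith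
  have hΛ0 : Λ ≠ 0 := norm_pos_iff.1 hΛn
  have hd0 : (f.natDegree : ℂ) ≠ 0 := by
    have : f.natDegree ≠ 0 := by omega
    exact_mod_cast this
  have h0ρ : (0 : ℂ) ∈ Metric.ball (0 : ℂ) ρ := Metric.mem_ball_self hρ
  -- `χ` is open
  have hopen : ∀ s ⊆ Metric.ball (0 : ℂ) ρ, IsOpen s → IsOpen (χ '' s) := by
    have h2 : ((ρ / 2 : ℝ) : ℂ) ∈ Metric.ball (0 : ℂ) ρ := by
      rw [mem_ball_zero_iff, Complex.norm_real, Real.norm_of_nonneg (by linarith)]
      linarith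
    refine Jul.openMap Metric.isOpen_ball (convex_ball 0 ρ).isPreconnected hχd
      ⟨0, h0ρ, ((ρ / 2 : ℝ) : ℂ), h2, fun h => ?_⟩
    have h3 := hχi h0ρ h2 h
    have h4 : (ρ / 2 : ℝ) = 0 := by exact_mod_cast h3.symm
    linarith
  -- the local inverse
  obtain ⟨g, hg1⟩ : ∃ g : ℂ → ℂ, ∀ w ∈ Metric.ball (0 : ℂ) ρ, g (χ w) = w :=
    ⟨Function.invFunOn χ (Metric.ball 0 ρ), fun w hw => hχi.leftInvOn_invFunOn hw⟩
  have hgd : ∀ w ∈ Metric.ball (0 : ℂ) ρ, DifferentiableAt ℂ g (χ w) := by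
    intro w hw
    have hc : ContinuousAt g (χ w) := by
      intro N hN
      rw [hg1 w hw] at hN
      obtain ⟨t, htN, hto, hwt⟩ := mem_nhds_iff.1 hN
      refine mem_map.2 (mem_of_superset ((hopen (t ∩ Metric.ball 0 ρ) inter_subset_right
        (hto.inter Metric.isOpen_ball)).mem_nhds (mem_image_of_mem _ ⟨hwt, hw⟩)) ?_)
      rintro _ ⟨v, ⟨hv1, hv2⟩, rfl⟩
      show g (χ v) ∈ N
      rw [hg1 v hv2]
      exact htN hv1
    have hχw : HasDerivAt χ (deriv χ w) (g (χ w)) := by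
      rw [hg1 w hw]
      exact (hχd.differentiableAt (Metric.isOpen_ball.mem_nhds hw)).hasDerivAt
    refine (HasDerivAt.of_local_left_inverse hc hχw (hχ' w hw) ?_).differentiableAt
    filter_upwards [(hopen _ subset_rfl Metric.isOpen_ball).mem_nhds (mem_image_of_mem χ hw)]
    rintro _ ⟨v, hv, rfl⟩
    rw [hg1 v hv]
  -- the small ball
  have hρ1 : 0 < ρ / ‖Λ‖ := by positivity
  have hsub : Metric.ball (0 : ℂ) (ρ / ‖Λ‖) ⊆ Metric.ball (0 : ℂ) ρ :=
    Metric.ball_subset_ball (div_le_self hρ.le hΛ.le)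
  have hV1 : χ '' Metric.ball (0 : ℂ) (ρ / ‖Λ‖) ∈ 𝓝 z₀ := by
    rw [← hχ0]
    exact (hopen _ hsub Metric.isOpen_ball).mem_nhds
      (mem_image_of_mem _ (Metric.mem_ball_self hρ1))
  obtain ⟨ε₁, hε₁, hε₁V⟩ := Metric.mem_nhds_iff.1 hV1
  have hsmall : ∀ w ∈ Metric.ball (0 : ℂ) (ρ / ‖Λ‖), ‖Λ * w‖ < ρ := by
    intro w hw
    rw [mem_ball_zero_iff, lt_div_iff₀ hΛn] at hw
    rw [norm_mul, mul_comm]
    exact hw
  -- the starting point
  obtain ⟨u₀, hu₀, -, hu₀z⟩ := app f P hd hP hinf z₀ hz₀ ε₁ 1 hε₁ one_pos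
  have hu₀HP : u₀ ∈ HP := hu₀
  obtain ⟨w₀, hw₀, hw₀e⟩ : P u₀ ∈ χ '' Metric.ball (0 : ℂ) (ρ / ‖Λ‖) :=
    hε₁V (by rw [Metric.mem_ball, dist_eq_norm]; exact hu₀z)
  have hw₀ρ : ‖w₀‖ < ρ := by
    have := hsub hw₀
    rwa [mem_ball_zero_iff] at this
  have hdivn : ∀ n : ℕ, ‖w₀ / Λ ^ n‖ < ρ := by
    intro n
    rw [norm_div, norm_pow]
    exact lt_of_le_of_lt (div_le_self (norm_nonneg _) (one_le_pow₀ hΛ.le)) hw₀ρ
  -- the indices
  obtain ⟨j, hj0, hjp, hjq⟩ := seq_of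
    (p := fun n j => χ (w₀ / Λ ^ n) = P ((u₀ + j * Complex.I) / f.natDegree ^ n))
    (q := fun n j j' => ∃ m : ℤ, j' = j + m * f.natDegree ^ n)
    (by simpa using hw₀e) (by
      intro n j hj
      have e1 : Λ * (w₀ / Λ ^ (n + 1)) = w₀ / Λ ^ n := by
        field_simp
        ring
      have e2 : f.eval (χ (w₀ / Λ ^ (n + 1))) = P ((u₀ + j * Complex.I) / f.natDegree ^ n) := by
        rw [hfun _ (by rw [e1]; exact hdivn n), e1, hj]
      have e3 : χ (w₀ / Λ ^ (n + 1)) ∉ filledJulia f := by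
        intro h
        have h' := (Jul.inv_filled f _).2 h
        rw [e2] at h'
        exact hPK _ (mem_pt hd hu₀HP _ _) h'
      have e4 : χ (w₀ / Λ ^ (n + 1)) ∈ P '' HP := by
        rw [hP.range]
        exact e3
      obtain ⟨v, hv, hve⟩ := e4
      rw [← hve, hP.semi v hv] at e2
      have hdv : (f.natDegree : ℂ) * v ∈ HP := by
        show 0 < ((f.natDegree : ℂ) * v).re
        have hv' : 0 < v.re := hv
        have h5 : (0 : ℝ) < f.natDegree := by
          have : 0 < f.natDegree := by omega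
          exact_mod_cast this
        have h6 : ((f.natDegree : ℂ) * v).re = f.natDegree * v.re := by simp
        rw [h6]
        positivity
      obtain ⟨m, hm⟩ := hP.inj _ hdv _ (mem_pt hd hu₀HP j n) e2
      refine ⟨j + m * f.natDegree ^ n, ?_, m, rfl⟩
      rw [← hve]
      congr 1
      have h7 : v = ((u₀ + j * Complex.I) / f.natDegree ^ n + m * Complex.I) / f.natDegree := by
        rw [← hm]
        field_simp
      rw [h7]
      push_cast
      field_simp
      ring)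
  have hlim : Tendsto (fun n : ℕ => P ((u₀ + j n * Complex.I) / f.natDegree ^ n)) atTop
      (𝓝 z₀) := by
    have h1 : Tendsto (fun n : ℕ => w₀ / Λ ^ n) atTop (𝓝 0) := by
      have h2 : ‖Λ⁻¹‖ < 1 := by
        rw [norm_inv]
        exact inv_lt_one_of_one_lt₀ hΛ
      have h3 := (tendsto_pow_atTop_nhds_zero_of_norm_lt_one h2).const_mul w₀
      rw [mul_zero] at h3
      refine h3.congr fun n => ?_
      rw [inv_pow, div_eq_mul_inv]
    have h4 : ContinuousAt χ 0 :=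
      (hχd.differentiableAt (Metric.isOpen_ball.mem_nhds h0ρ)).continuousAt
    have h5 := h4.tendsto.comp h1
    rw [hχ0] at h5
    exact h5.congr fun n => hjp n
  have hunif : ∀ a A : ℝ, 0 < a → ∃ N : ℕ, ∀ n ≥ N, ∀ v : ℂ, a ≤ v.re → v.re ≤ A → |v.im| ≤ A →
      P ((v + j n * Complex.I) / f.natDegree ^ n) ∈ χ '' Metric.ball (0 : ℂ) (ρ / ‖Λ‖) := by
    intro a A ha
    obtain ⟨N, hN⟩ := conv hyp hd hP hu₀HP j hlim a A ε₁ ha hε₁
    exact ⟨N, fun n hn v h1 h2 h3 => hε₁V (by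
      rw [Metric.mem_ball, dist_eq_norm]
      exact hN n hn v h1 h2 h3)⟩
  have hstep : ∀ v ∈ HP, ∀ n : ℕ,
      P ((v + j n * Complex.I) / f.natDegree ^ n) ∈ χ '' Metric.ball (0 : ℂ) (ρ / ‖Λ‖) →
      P ((v + j (n + 1) * Complex.I) / f.natDegree ^ (n + 1)) ∈
        χ '' Metric.ball (0 : ℂ) (ρ / ‖Λ‖) →
      Λ * g (P ((v + j (n + 1) * Complex.I) / f.natDegree ^ (n + 1))) =
        g (P ((v + j n * Complex.I) / f.natDegree ^ n)) := by
    rintro v hv n ⟨w, hw, hwe⟩ ⟨w', hw', hwe'⟩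
    have h1 := step hd hP hv n (j n) (j (n + 1)) (hjq n)
    rw [← hwe, ← hwe', hfun w' (hsmall w' hw')] at h1
    have h2 := hχi (by rw [mem_ball_zero_iff]; exact hsmall w' hw') (hsub hw) h1
    rw [← hwe, ← hwe', hg1 _ (hsub hw), hg1 _ (hsub hw'), h2]
  have hconst : ∀ v ∈ HP, ∀ N : ℕ, (∀ n ≥ N,
      P ((v + j n * Complex.I) / f.natDegree ^ n) ∈ χ '' Metric.ball (0 : ℂ) (ρ / ‖Λ‖)) →
      ∀ n ≥ N, Λ ^ n * g (P ((v + j n * Complex.I) / f.natDegree ^ n)) =
        Λ ^ N * g (P ((v + j N * Complex.I) / f.natDegree ^ N)) := by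
    intro v hv N hN n hn
    induction n, hn using Nat.le_induction with
    | base => rfl
    | succ n hn ih =>
      rw [← ih, ← hstep v hv n (hN n hn) (hN (n + 1) (by omega)), pow_succ, mul_assoc]
  have hev : ∀ v ∈ HP, ∃ N : ℕ, ∀ n ≥ N,
      P ((v + j n * Complex.I) / f.natDegree ^ n) ∈ χ '' Metric.ball (0 : ℂ) (ρ / ‖Λ‖) := by
    intro v hv
    obtain ⟨N₀, hN₀⟩ := hunif v.re (|v.re| + |v.im|) hv
    refine ⟨N₀, fun n hn => hN₀ n hn v le_rfl ?_ ?_⟩
    · have := le_abs_self v.re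
      have := abs_nonneg v.im
      linarith
    · have := abs_nonneg v.re
      linarith
  have hex : ∀ v : ℂ, ∃ w : ℂ, v ∈ HP → ∀ N : ℕ, (∀ n ≥ N,
      P ((v + j n * Complex.I) / f.natDegree ^ n) ∈ χ '' Metric.ball (0 : ℂ) (ρ / ‖Λ‖)) →
      w = Λ ^ N * g (P ((v + j N * Complex.I) / f.natDegree ^ N)) := by
    intro v
    by_cases hv : v ∈ HP
    · obtain ⟨N₀, hN₀⟩ := hev v hv
      refine ⟨Λ ^ N₀ * g (P ((v + j N₀ * Complex.I) / f.natDegree ^ N₀)), fun _ N hN => ?_⟩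
      rw [← hconst v hv N₀ hN₀ (max N₀ N) (le_max_left _ _),
        ← hconst v hv N hN (max N₀ N) (le_max_right _ _)]
    · exact ⟨0, fun h => absurd h hv⟩
  choose Ψ hΨ using hex
  refine ⟨Ψ, j, hj0, ?_, ?_, ?_⟩
  · -- differentiable
    intro u hu
    have hu' : 0 < u.re := hu
    obtain ⟨N, hN⟩ := hunif (u.re / 2) (u.re + 1 + |u.im|) (by positivity)
    have hO : {v : ℂ | u.re / 2 < v.re ∧ v.re < u.re + 1 ∧ |v.im| < |u.im| + 1} ∈ 𝓝 u := by
      refine IsOpen.mem_nhds ?_ ⟨by linarith, by linarith, by linarith⟩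
      exact (isOpen_lt continuous_const Complex.continuous_re).inter
        ((isOpen_lt Complex.continuous_re continuous_const).inter
          (isOpen_lt Complex.continuous_im.abs continuous_const))
    have heq : Ψ =ᶠ[𝓝 u] fun v =>
        Λ ^ N * g (P ((v + j N * Complex.I) / f.natDegree ^ N)) := by
      filter_upwards [hO]
      rintro v ⟨h1, h2, h3⟩
      have hi := abs_nonneg u.im
      exact hΨ v (show 0 < v.re by linarith) N fun n hn =>
        hN n hn v h1.le (by linarith) (by linarith)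
    have hw := hN N le_rfl u (by linarith) (by have := abs_nonneg u.im; linarith)
      (by linarith)
    obtain ⟨w, hw1, hw2⟩ := hw
    have hd1 : DifferentiableAt ℂ (fun v : ℂ => (v + j N * Complex.I) / f.natDegree ^ N) u := by
      fun_prop
    have hd2 : DifferentiableAt ℂ P ((u + j N * Complex.I) / f.natDegree ^ N) :=
      hP.diff.differentiableAt (Jul.isOpen_HP.mem_nhds (mem_pt hd hu _ _))
    have hd3 : DifferentiableAt ℂ g (P ((u + j N * Complex.I) / f.natDegree ^ N)) := by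
      rw [← hw2]
      exact hgd w (hsub hw1)
    have hd4 : DifferentiableAt ℂ
        (fun v : ℂ => g (P ((v + j N * Complex.I) / f.natDegree ^ N))) u :=
      DifferentiableAt.comp (g := g)
        (f := fun v : ℂ => P ((v + j N * Complex.I) / f.natDegree ^ N)) u hd3
        (DifferentiableAt.comp (g := P)
          (f := fun v : ℂ => (v + j N * Complex.I) / f.natDegree ^ N) u hd2 hd1)
    exact ((hd4.const_mul _).congr_of_eventuallyEq heq).differentiableWithinAt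
  · -- not zero
    intro u hu
    obtain ⟨N, hN⟩ := hev u hu
    obtain ⟨w, hw1, hw2⟩ := hN N le_rfl
    rw [hΨ u hu N hN, ← hw2, hg1 w (hsub hw1)]
    refine mul_ne_zero (pow_ne_zero _ hΛ0) fun h => ?_
    rw [h, hχ0] at hw2
    exact hPK _ (mem_pt hd hu _ _) (hw2 ▸ hzK)
  · -- the relation
    intro u hu
    obtain ⟨N, hN⟩ := hev u hu
    have hk : ∀ k n : ℕ, N ≤ n + k → ‖Ψ u‖ < ρ * ‖Λ‖ ^ n →
        χ (Ψ u / Λ ^ n) = P ((u + j n * Complex.I) / f.natDegree ^ n) := by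
      intro k
      induction k with
      | zero =>
        intro n hn _
        have hn' : ∀ m ≥ n,
            P ((u + j m * Complex.I) / f.natDegree ^ m) ∈
              χ '' Metric.ball (0 : ℂ) (ρ / ‖Λ‖) := fun m hm => hN m (by omega)
        obtain ⟨w, hw1, hw2⟩ := hn' n le_rfl
        rw [hΨ u hu n hn', ← hw2, hg1 w (hsub hw1), mul_div_cancel_left₀ _ (pow_ne_zero _ hΛ0)]
      | succ k ih =>
        intro n hn hlt
        have h1 : ‖Ψ u‖ < ρ * ‖Λ‖ ^ (n + 1) := by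
          refine lt_of_lt_of_le hlt ?_
          gcongr
          · exact hΛ.le
          · omega
        have h2 := ih (n + 1) (by omega) h1
        have e1 : Λ * (Ψ u / Λ ^ (n + 1)) = Ψ u / Λ ^ n := by
          field_simp
          ring
        have h3 : ‖Λ * (Ψ u / Λ ^ (n + 1))‖ < ρ := by
          rw [e1, norm_div, norm_pow, div_lt_iff₀ (by positivity)]
          exact hlt
        rw [← step hd hP hu n (j n) (j (n + 1)) (hjq n), ← h2, hfun _ h3, e1]
    intro n hn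
    exact hk N n (by omega) hn

end Pool.Agent.Imp
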