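import Pool.Agent.Lib.MP_1c105c_an.Defs11
import Pool.Agent.Lib.MP_1c105c_an.Deg

/-! MP_1c105c_an: components of polynomial preimages of continua are mapped onto. -/

set_option autoImplicit false

open Filter Topology Set Polynomial

namespace Pool.Agent.Imp

/-- Row PUL. -/
theorem pul (deg : DegStatement) : PulStatement := by
  intro F W v w hF hWc hWp hv hw
  classical
  have hcont : Continuous fun z : ℂ => F.eval z := F.continuous
  -- the preimage is compact
  set X : Set ℂ := {z | F.eval z ∈ W} with hX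
  have hXcl : IsClosed X := hWc.isClosed.preimage hcont
  have hXc : IsCompact X := by
    obtain ⟨M, hM⟩ := hWc.isBounded.exists_norm_le
    obtain ⟨k, hk, hk'⟩ := Deg71.exists_cpt hF M
    exact hk.of_isClosed_subset hXcl fun z hz => hk' z (hM _ hz)
  have : CompactSpace X := isCompact_iff_compactSpace.1 hXc
  let v' : X := ⟨v, hv⟩
  refine ⟨Subtype.val '' connectedComponent v',
    isClosed_connectedComponent.isCompact.image continuous_subtype_val,
    isPreconnected_connectedComponent.image _ continuous_subtype_val.continuousOn,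
    ⟨v', mem_connectedComponent, rfl⟩, ?_, ?_⟩
  · rintro _ ⟨z, -, rfl⟩
    exact z.2
  by_contra hcon
  push Not at hcon
  -- the roots of `F - w`
  have hF0 : F - C w ≠ 0 := by
    intro h0
    have h1 := natDegree_sub_C (p := F) (a := w)
    rw [h0, natDegree_zero] at h1
    omega
  have hfin : {z : X | F.eval (z : ℂ) = w}.Finite := by
    have h1 : ((fun z : X => (z : ℂ)) ⁻¹' {z : ℂ | z ∈ (F - C w).roots.toFinset}).Finite :=
      Set.Finite.preimage Subtype.val_injective.injOn (Finset.finite_toSet _)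
    refine h1.subset ?_
    intro z hz
    have h2 : F.eval (z : ℂ) = w := hz
    rw [Set.mem_preimage, Set.mem_setOf_eq, Multiset.mem_toFinset, mem_roots hF0, IsRoot.def,
      eval_sub, eval_C, h2, sub_self]
  have hsep : ∀ z : X, F.eval (z : ℂ) = w → ∃ s : Set X, IsClopen s ∧ v' ∈ s ∧ z ∉ s := by
    intro z hz
    have h1 : z ∉ connectedComponent v' := fun h => hcon _ ⟨z, h, rfl⟩ hz
    rw [connectedComponent_eq_iInter_isClopen, Set.mem_iInter] at h1
    push Not at h1
    obtain ⟨⟨s, hs, hs'⟩, h2⟩ := h1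
    exact ⟨s, hs, hs', h2⟩
  choose! S hS1 hS2 hS3 using hsep
  set T : Set X := ⋂ z ∈ {z : X | F.eval (z : ℂ) = w}, S z with hT
  have hTc : IsClopen T := Set.Finite.isClopen_biInter hfin fun z hz => hS1 z hz
  have hvT : v' ∈ T := Set.mem_iInter₂.2 fun z hz => hS2 z hz
  have hTw : ∀ z : X, F.eval (z : ℂ) = w → z ∉ T := fun z hz h =>
    hS3 z hz (Set.mem_iInter₂.1 h z hz)
  obtain ⟨O₁, O₂, hO₁, hO₂, h1, h2, h12⟩ := SeparatedNhds.of_isCompact_isCompact
    (hTc.isClosed.isCompact.image (continuous_subtype_val (p := (· ∈ X))))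
    (hTc.compl.isClosed.isCompact.image (continuous_subtype_val (p := (· ∈ X))))
    (by
      rw [Set.disjoint_left]
      rintro _ ⟨z, hz, rfl⟩ ⟨z', hz', h3⟩
      have h4 : z' = z := Subtype.ext h3
      rw [h4] at hz'
      exact hz' hz)
  have hcard := deg F W O₁ O₂ hF hWp hO₁ hO₂
    (fun z hz => by
      by_cases h3 : (⟨z, hz⟩ : X) ∈ T
      · exact Or.inl (h1 ⟨_, h3, rfl⟩)
      · exact Or.inr (h2 ⟨_, h3, rfl⟩))
    (fun z hz h3 h4 => Set.disjoint_left.1 h12 h3 h4) (F.eval v) hv w hw (Classical.decPred _)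
  have hFv : F - C (F.eval v) ≠ 0 := by
    intro h0
    have h1 := natDegree_sub_C (p := F) (a := F.eval v)
    rw [h0, natDegree_zero] at h1
    omega
  have hmem : v ∈ (F - C (F.eval v)).roots.filter (· ∈ O₁) := by
    rw [Multiset.mem_filter, mem_roots hFv, IsRoot.def, eval_sub, eval_C, sub_self]
    exact ⟨rfl, h1 ⟨v', hvT, rfl⟩⟩
  have hpos : 0 < ((F - C (F.eval v)).roots.filter (· ∈ O₁)).card :=
    Multiset.card_pos_iff_exists_mem.2 ⟨v, hmem⟩
  have hzero : ((F - C w).roots.filter (· ∈ O₁)).card = 0 := by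
    rw [Multiset.card_eq_zero, Multiset.eq_zero_iff_forall_notMem]
    intro z hz
    rw [Multiset.mem_filter, mem_roots hF0, IsRoot.def, eval_sub, eval_C] at hz
    have hzw : F.eval z = w := sub_eq_zero.1 hz.1
    have hzX : z ∈ X := by
      show F.eval z ∈ W
      rw [hzw]
      exact hw
    have h3 : (⟨z, hzX⟩ : X) ∉ T := hTw _ hzw
    exact Set.disjoint_left.1 h12 hz.2 (h2 ⟨_, h3, rfl⟩)
  rw [hzero] at hcard
  omega

end Pool.Agent.Imp
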