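import Pool.Agent.Lib.MP_1c105c_an.Defs12
import Pool.Agent.Lib.MP_1c105c_an.Deg

/-! MP_1c105c_an: for a unicritical polynomial the preimage of a connected set that contains the
critical value is connected (QUAD). -/

set_option autoImplicit false

open Filter Topology Set Polynomial

namespace Pool.Agent.Imp

/-- QUAD. -/
theorem quad : QuadStatement := by
  classical
  intro f c E hd hc hE hv
  have hroot : ∀ w : ℂ, Multiset.card (f - C w).roots = f.natDegree := by
    intro w
    have hnd : (f - C w).natDegree = f.natDegree := natDegree_sub_C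
    rw [← hnd]
    exact (IsAlgClosed.splits (f - C w)).natDegree_eq_card_roots.symm
  have hne : ∀ w : ℂ, f - C w ≠ 0 := by
    intro w h
    have := hroot w
    rw [h] at this
    simp at this
    omega
  -- the critical point is the only preimage of the critical value
  have hcv : (f - C (f.eval c)).roots = Multiset.replicate f.natDegree c := by
    have hder : f.derivative.roots = Multiset.replicate (f.natDegree - 1) c := by
      rw [Multiset.eq_replicate]
      refine ⟨?_, fun z hz => hc z (isRoot_of_mem_roots hz)⟩
      rw [← natDegree_eq_of_degree_eq_some (degree_derivative (p := f) (by omega))]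
      exact (IsAlgClosed.splits f.derivative).natDegree_eq_card_roots.symm
    have h1 : (f - C (f.eval c)).derivative = f.derivative := by simp
    have h2 := Polynomial.derivative_rootMultiplicity_of_root (p := f - C (f.eval c)) (t := c)
      (by simp [IsRoot])
    rw [h1, ← count_roots, hder, Multiset.count_replicate_self] at h2
    have h3 : 0 < (f - C (f.eval c)).rootMultiplicity c :=
      (rootMultiplicity_pos (hne _)).2 (by simp [IsRoot])
    have h4 : Multiset.replicate f.natDegree c ≤ (f - C (f.eval c)).roots := by
      rw [← Multiset.le_count_iff_replicate_le, count_roots]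
      omega
    refine (Multiset.eq_of_le_of_card_le h4 ?_).symm
    rw [hroot, Multiset.card_replicate]
  -- one half of a separation that contains `c` contains everything
  have key : ∀ O₁ O₂ : Set ℂ, IsOpen O₁ → IsOpen O₂ → {z | f.eval z ∈ E} ⊆ O₁ ∪ O₂ →
      (∀ z, f.eval z ∈ E → z ∈ O₁ → z ∉ O₂) → c ∈ O₁ → ∀ z, f.eval z ∈ E → z ∉ O₂ := by
    intro O₁ O₂ h1 h2 h12 hd12 hc1 z hz hz2
    have h3 := deg f E O₁ O₂ (by omega) hE h1 h2 h12 hd12 (f.eval c) hv (f.eval z) hz
      (Classical.decPred _)
    rw [hcv, Multiset.filter_eq_self.2 (fun a ha => by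
      rw [Multiset.eq_of_mem_replicate ha]
      exact hc1), Multiset.card_replicate] at h3
    have h5 : Multiset.filter (· ∈ O₁) (f - C (f.eval z)).roots = (f - C (f.eval z)).roots := by
      refine Multiset.eq_of_le_of_card_le (Multiset.filter_le _ _) ?_
      rw [hroot, ← h3]
    have h6 : z ∈ (f - C (f.eval z)).roots := by
      rw [mem_roots']
      exact ⟨hne _, by simp [IsRoot]⟩
    rw [← h5, Multiset.mem_filter] at h6
    exact hd12 z hz h6.2 hz2
  rw [isPreconnected_iff_subset_of_disjoint]
  intro O₁ O₂ h1 h2 h12 hem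
  have hd12 : ∀ z, f.eval z ∈ E → z ∈ O₁ → z ∉ O₂ := by
    intro z hz hz1 hz2
    have : z ∈ {z | f.eval z ∈ E} ∩ (O₁ ∩ O₂) := ⟨hz, hz1, hz2⟩
    rw [hem] at this
    exact this
  rcases h12 (show c ∈ {z | f.eval z ∈ E} from hv) with hc1 | hc2
  · left
    intro z hz
    exact (h12 hz).resolve_right (key O₁ O₂ h1 h2 h12 hd12 hc1 z hz)
  · right
    intro z hz
    refine (h12 hz).resolve_left (key O₂ O₁ h2 h1 (by rwa [union_comm]) ?_ hc2 z hz)
    intro z hz hz2 hz1
    exact hd12 z hz hz1 hz2

end Pool.Agent.Imp
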