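import Pool.Agent.Lib.MP_1c105c_an.Defs

/-! MP_1c105c_an, row RES: one trivial impression gives a residual set of them. -/

set_option autoImplicit false

open Filter Topology Set Polynomial

namespace Pool.Agent.Imp

theorem isOpen_osc (P : ℂ → ℂ) (δ : ℝ) : IsOpen {t : ℝ | Osc P δ t} := by
  rw [isOpen_iff_mem_nhds]
  rintro t ⟨N, hN, h⟩
  have hc : Continuous fun t : ℝ => (t : ℂ) * Complex.I := by fun_prop
  have h1 : ∀ᶠ s in 𝓝 ((t : ℂ) * Complex.I), N ∈ 𝓝 s := eventually_mem_nhds_iff.2 hN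
  exact (hc.continuousAt.eventually h1).mono fun s hs => ⟨N, hs, h⟩

/-- Row RES. -/
theorem res (inv : InvStatement) : ResStatement := by
  intro f P hd hP ⟨t₀, z₀, h₀⟩
  obtain ⟨h1, -, -, h4, h5⟩ := inv f P hd hP
  set S : Set ℝ := {t : ℝ | ∃ z, HasLim P t z} with hS
  -- invariance under integral translations
  have hnat : ∀ (k : ℕ) (t : ℝ), t ∈ S ↔ t + k ∈ S := by
    intro k
    induction k with
    | zero => intro t; simp
    | succ k ih =>
      intro t
      rw [ih t]
      push_cast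
      rw [← add_assoc]
      exact ⟨fun ⟨z, hz⟩ => ⟨z, (h1 (t + k) z).2 hz⟩, fun ⟨z, hz⟩ => ⟨z, (h1 (t + k) z).1 hz⟩⟩
  have hint : ∀ (k : ℤ) (t : ℝ), t ∈ S → t + k ∈ S := by
    intro k t ht
    obtain ⟨n, rfl | rfl⟩ := k.eq_nat_or_neg
    · exact_mod_cast (hnat n t).1 ht
    · rw [hnat n]
      push_cast
      rwa [neg_add_cancel_right]
  -- invariance under division by the degree
  have hdiv : ∀ (n : ℕ) (t : ℝ), t ∈ S → t / (f.natDegree : ℝ) ^ n ∈ S := by
    have hd0 : (f.natDegree : ℝ) ≠ 0 := by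
      have : f.natDegree ≠ 0 := by omega
      exact_mod_cast this
    intro n
    induction n with
    | zero => intro t ht; simpa using ht
    | succ n ih =>
      intro t ht
      obtain ⟨z, hz⟩ := ih t ht
      have e : t / (f.natDegree : ℝ) ^ n
          = (f.natDegree : ℝ) * (t / (f.natDegree : ℝ) ^ (n + 1)) := by
        rw [pow_succ]
        field_simp
      rw [e] at hz
      obtain ⟨z', -, hz'⟩ := h4 _ z hz
      exact ⟨z', hz'⟩
  -- density
  have hdense : Dense S := by
    rw [Metric.dense_iff]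
    intro x ε hε
    have hd1 : (1 : ℝ) < f.natDegree := by exact_mod_cast (by omega : 1 < f.natDegree)
    obtain ⟨n, hn⟩ := exists_pow_lt_of_lt_one hε (inv_lt_one_of_one_lt₀ hd1)
    have hpos : (0 : ℝ) < (f.natDegree : ℝ) ^ n := by positivity
    set y : ℝ := (t₀ + (⌊x * (f.natDegree : ℝ) ^ n - t₀⌋ : ℤ)) / (f.natDegree : ℝ) ^ n with hy
    refine ⟨y, ?_, hdiv n _ (hint _ _ ⟨z₀, h₀⟩)⟩
    have hf1 := Int.floor_le (x * (f.natDegree : ℝ) ^ n - t₀)
    have hf2 := Int.lt_floor_add_one (x * (f.natDegree : ℝ) ^ n - t₀)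
    have hε' : 1 < ε * (f.natDegree : ℝ) ^ n := by
      rw [inv_pow, inv_lt_iff_one_lt_mul₀ hpos] at hn
      linarith
    rw [Metric.mem_ball, Real.dist_eq, abs_lt]
    constructor
    · rw [lt_sub_iff_add_lt, hy, lt_div_iff₀ hpos]
      linarith
    · rw [sub_lt_iff_lt_add, hy, div_lt_iff₀ hpos]
      nlinarith
  -- the set is a countable intersection of open dense sets
  have hset : S = ⋂ n : ℕ, {t : ℝ | Osc P (1 / ((n : ℝ) + 1)) t} := by
    ext t
    rw [mem_iInter]
    constructor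
    · intro ht n
      exact (h5 t).1 ht _ Nat.one_div_pos_of_nat
    · intro h
      refine (h5 t).2 fun δ hδ => ?_
      obtain ⟨n, hn⟩ := exists_nat_one_div_lt hδ
      obtain ⟨N, hN, h'⟩ := h n
      exact ⟨N, hN, fun u hu v hv => (h' u hu v hv).trans hn.le⟩
  rw [hset, countable_iInter_mem]
  intro n
  refine residual_of_dense_open (isOpen_osc P _) (hdense.mono ?_)
  intro t ht
  exact (h5 t).1 ht _ Nat.one_div_pos_of_nat

end Pool.Agent.Imp
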