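import Pool.Agent.Lib.MP_1c105c_an.Liv

/-! MP_1c105c_an: regular words on a simply connected open set (row RGW). -/

set_option autoImplicit false

open Filter Topology Set Polynomial

namespace Pool.Agent.Imp

namespace Rgw83

/-- The data. -/
structure Dat (f : ℂ[X]) (P : ℂ → ℂ) (V S : Set ℂ) : Prop where
  op : IsOpen V
  pc : IsPreconnected V
  ne : S.Nonempty
  pre : IsPreconnected S
  sub : ∀ {u : ℂ}, u ∈ S → 0 < u.re
  maps : ∀ u ∈ S, P u ∈ V
  crit : ∀ c, f.derivative.eval c = 0 → f.eval c ∉ V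

/-- `g` is a univalent inverse branch of `f^n` with index `j`. -/
def UnivV (f : ℂ[X]) (P : ℂ → ℂ) (V S : Set ℂ) (n j : ℕ) (g : ℂ → ℂ) : Prop :=
  DifferentiableOn ℂ g V ∧
  (∀ z ∈ V, (fun w => f.eval w)^[n] (g z) = z) ∧
  ∀ u ∈ S, g (P u) = P ((u + j * Complex.I) / (f.natDegree : ℂ) ^ n)

section
variable {f : ℂ[X]} {P : ℂ → ℂ} {V S : Set ℂ}

theorem univ_disj (hd : 2 ≤ f.natDegree) (hP : Half f P) (hB : Dat f P V S)
    {n j j' : ℕ} {g g' : ℂ → ℂ} (hg : UnivV f P V S n j g) (hg' : UnivV f P V S n j' g')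
    (hj : j < f.natDegree ^ n) (hj' : j' < f.natDegree ^ n) {z z' : ℂ}
    (hz : z ∈ V) (hz' : z' ∈ V) (h : g z = g' z') :
    j = j' := by
  have hzz : z = z' := by rw [← hg.2.1 z hz, ← hg'.2.1 z' hz', h]
  subst hzz
  have hev : ∀ w, (f.comp^[n] X).eval w = (fun w => f.eval w)^[n] w := by
    intro w
    rw [Polynomial.iterate_comp_eval]
    simp
  have heq : Set.EqOn g g' V := by
    refine uniq (f.comp^[n] X) _ g g' hB.pc hg.1.continuousOn
      hg'.1.continuousOn ?_ ?_ z hz h
    · intro y hy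
      rw [hev, hev, hg.2.1 y hy, hg'.2.1 y hy]
    · intro y hy h0
      have hn : V ∈ 𝓝 y := hB.op.mem_nhds hy
      have hdg := ((hg.1 y hy).differentiableAt hn).hasDerivAt
      have h1 : HasDerivAt (fun y => (f.comp^[n] X).eval (g y))
          ((f.comp^[n] X).derivative.eval (g y) * deriv g y) y :=
        ((f.comp^[n] X).hasDerivAt (g y)).comp y hdg
      have h2 : HasDerivAt (fun y : ℂ => y) ((f.comp^[n] X).derivative.eval (g y) * deriv g y) y := by
        refine h1.congr_of_eventuallyEq ?_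
        filter_upwards [hn] with x hx
        rw [hev, hg.2.1 x hx]
      have h3 := h2.unique (hasDerivAt_id' y)
      rw [h0, zero_mul] at h3
      exact zero_ne_one h3
  obtain ⟨u, hu⟩ := hB.ne
  have h1 := heq (hB.maps u hu)
  rw [hg.2.2 u hu, hg'.2.2 u hu] at h1
  obtain ⟨m, hm⟩ := hP.inj _ (div_mem_HP hd (hB.sub hu) j n) _ (div_mem_HP hd (hB.sub hu) j' n) h1
  have hne : (f.natDegree : ℂ) ^ n ≠ 0 := by
    apply pow_ne_zero
    exact_mod_cast (by omega : f.natDegree ≠ 0)
  have h2 : (j : ℂ) = j' + m * (f.natDegree : ℂ) ^ n := by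
    have h3 : ((u + j * Complex.I) / (f.natDegree : ℂ) ^ n) * (f.natDegree : ℂ) ^ n =
        ((u + j' * Complex.I) / (f.natDegree : ℂ) ^ n + m * Complex.I) * (f.natDegree : ℂ) ^ n := by
      rw [hm]
    rw [add_mul, div_mul_cancel₀ _ hne, div_mul_cancel₀ _ hne] at h3
    have h4 : ((j : ℂ) - (j' + m * (f.natDegree : ℂ) ^ n)) * Complex.I = 0 := by
      linear_combination h3
    have h5 := (mul_eq_zero.mp h4).resolve_right Complex.I_ne_zero
    exact sub_eq_zero.mp h5
  have h6 : (j : ℤ) = j' + m * (f.natDegree : ℤ) ^ n := by exact_mod_cast h2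
  have hD : (0 : ℤ) < (f.natDegree : ℤ) ^ n := by positivity
  have hj1 : (j : ℤ) < (f.natDegree : ℤ) ^ n := by exact_mod_cast hj
  have hj1' : (j' : ℤ) < (f.natDegree : ℤ) ^ n := by exact_mod_cast hj'
  have hm0 : m = 0 := by
    by_contra hm0
    rcases lt_or_gt_of_ne hm0 with h7 | h7
    · have : m * (f.natDegree : ℤ) ^ n ≤ -1 * (f.natDegree : ℤ) ^ n :=
        mul_le_mul_of_nonneg_right (by omega) hD.le
      have : (0 : ℤ) ≤ j := by positivity
      linarith
    · have : 1 * (f.natDegree : ℤ) ^ n ≤ m * (f.natDegree : ℤ) ^ n :=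
        mul_le_mul_of_nonneg_right (by omega) hD.le
      have : (0 : ℤ) ≤ j' := by positivity
      linarith
  rw [hm0] at h6
  have : (j : ℤ) = j' := by simpa using h6
  exact_mod_cast this

open Classical in
/-- The regular indices of level `n`. -/
noncomputable def RV (f : ℂ[X]) (P : ℂ → ℂ) (V S : Set ℂ) (n : ℕ) : Finset ℕ :=
  (Finset.range (f.natDegree ^ n)).filter fun j => ∃ g, UnivV f P V S n j g

open Classical in
/-- The critical indices of level `n`. -/
noncomputable def WV (f : ℂ[X]) (P : ℂ → ℂ) (V S : Set ℂ) (n : ℕ) : Finset ℕ :=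
  (Finset.range (f.natDegree ^ n)).filter fun j => ∃ g, UnivV f P V S n j g ∧
    ∃ c, f.derivative.eval c = 0 ∧ ∃ z ∈ V, g z = f.eval c

theorem mem_RV {n j : ℕ} : j ∈ RV f P V S n ↔ j < f.natDegree ^ n ∧ ∃ g, UnivV f P V S n j g := by
  simp [RV]

theorem mem_WV {n j : ℕ} : j ∈ WV f P V S n ↔ j < f.natDegree ^ n ∧ ∃ g, UnivV f P V S n j g ∧
    ∃ c, f.derivative.eval c = 0 ∧ ∃ z ∈ V, g z = f.eval c := by
  simp [WV]

theorem WV_card (hd : 2 ≤ f.natDegree) (hP : Half f P) (hB : Dat f P V S) (n : ℕ) :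
    (WV f P V S n).card ≤ f.natDegree - 1 := by
  classical
  have hc : ∀ j ∈ WV f P V S n, ∃ c, f.derivative.eval c = 0 ∧
      ∃ g, UnivV f P V S n j g ∧ ∃ z ∈ V, g z = f.eval c := by
    intro j hj
    obtain ⟨_, g, hg, c, hc, z, hz, h⟩ := mem_WV.mp hj
    exact ⟨c, hc, g, hg, z, hz, h⟩
  choose! c hc using hc
  have h1 : (WV f P V S n).card ≤ f.derivative.roots.toFinset.card := by
    apply Finset.card_le_card_of_injOn c
    · intro j hj
      rw [Finset.mem_coe, Multiset.mem_toFinset, Polynomial.mem_roots (derivative_ne hd)]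
      exact (hc j hj).1
    · intro j hj j' hj' hcc
      obtain ⟨_, g, hg, z, hz, h⟩ := hc j hj
      obtain ⟨_, g', hg', z', hz', h'⟩ := hc j' hj'
      refine univ_disj hd hP hB hg hg' (mem_WV.mp hj).1 (mem_WV.mp hj').1 hz hz' ?_
      rw [h, h', hcc]
  refine h1.trans ((Multiset.toFinset_card_le _).trans ((Polynomial.card_roots' _).trans ?_))
  exact Polynomial.natDegree_derivative_le f

theorem WV_zero (hB : Dat f P V S) : WV f P V S 0 = ∅ := by
  rw [Finset.eq_empty_iff_forall_notMem]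
  intro j hj
  obtain ⟨_, g, hg, c, hc, z, hz, h⟩ := mem_WV.mp hj
  have h1 := hg.2.1 z hz
  simp only [Function.iterate_zero, id_eq] at h1
  exact hB.crit c hc (by rw [← h, h1]; exact hz)

theorem zero_mem_RV : 0 ∈ RV f P V S 0 := by
  refine mem_RV.mpr ⟨by simp, fun z => z, differentiableOn_id, fun z _ => rfl, fun u _ => ?_⟩
  simp

/-- A regular noncritical index has `d` regular children. -/
theorem child (hd : 2 ≤ f.natDegree) (hP : Half f P) (hB : Dat f P V S)
    (hsc : SimplyConnectedSpace V) {n j a : ℕ}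
    (hj : j ∈ RV f P V S n) (hjW : j ∉ WV f P V S n) (ha : a < f.natDegree) :
    j + a * f.natDegree ^ n ∈ RV f P V S (n + 1) := by
  obtain ⟨hjn, g, hg⟩ := mem_RV.mp hj
  have hDpos : 0 < f.natDegree ^ n := by positivity
  have hcv : ∀ z ∈ V, ∀ c, f.derivative.eval c = 0 → f.eval c ≠ g z := by
    intro z hz c hc h
    exact hjW (mem_WV.mpr ⟨hjn, g, hg, c, hc, z, hz, h.symm⟩)
  set J := j + a * f.natDegree ^ n with hJ
  have hJmod : J % f.natDegree ^ n = j := by
    rw [hJ, Nat.add_mul_mod_self_right, Nat.mod_eq_of_lt hjn]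
  have hJlt : J < f.natDegree ^ (n + 1) := by
    have h1 : a * f.natDegree ^ n ≤ (f.natDegree - 1) * f.natDegree ^ n :=
      Nat.mul_le_mul_right _ (by omega)
    have h2 : (f.natDegree - 1) * f.natDegree ^ n + f.natDegree ^ n = f.natDegree ^ (n + 1) := by
      rw [pow_succ]
      obtain ⟨e, he⟩ : ∃ e, f.natDegree = e + 1 := ⟨f.natDegree - 1, by omega⟩
      rw [he]
      simp only [Nat.add_sub_cancel]
      ring
    omega
  obtain ⟨u₀, hu₀⟩ := hB.ne
  have hz₀ : P u₀ ∈ V := hB.maps u₀ hu₀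
  have hs : ∀ {u : ℂ}, 0 < u.re → f.eval (P ((u + J * Complex.I) / (f.natDegree : ℂ) ^ (n + 1))) =
      P ((u + j * Complex.I) / (f.natDegree : ℂ) ^ n) := by
    intro u hu
    rw [semi_pow hd hP hu J n, hJmod]
  obtain ⟨h, hh1, hh2, hh3⟩ := liv f V g hB.op hsc hg.1 hcv (P u₀) hz₀
    (P ((u₀ + J * Complex.I) / (f.natDegree : ℂ) ^ (n + 1))) (by
      rw [hs (hB.sub hu₀), hg.2.2 u₀ hu₀])
  refine mem_RV.mpr ⟨hJlt, h, hh1, ?_, ?_⟩
  · intro z hz
    rw [Function.iterate_succ_apply, hh2 z hz, hg.2.1 z hz]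
  · have hPc : ContinuousOn P S := hP.diff.continuousOn.mono fun u hu => hB.sub hu
    have := uniq f S (fun u => h (P u))
      (fun u => P ((u + J * Complex.I) / (f.natDegree : ℂ) ^ (n + 1)))
      hB.pre
      (hh1.continuousOn.comp hPc fun u hu => hB.maps u hu)
      (hP.diff.continuousOn.comp (by fun_prop) fun u hu => div_mem_HP hd (hB.sub hu) J (n + 1))
      (by
        intro u hu
        rw [hh2 _ (hB.maps u hu), hs (hB.sub hu), hg.2.2 u hu])
      (by
        intro u hu h0
        exact hcv _ (hB.maps u hu) _ h0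
          (hh2 _ (hB.maps u hu))) u₀ hu₀ hh3
    intro u hu
    exact this hu

theorem RV_card_succ (hd : 2 ≤ f.natDegree) (hP : Half f P) (hB : Dat f P V S)
    (hsc : SimplyConnectedSpace V) (n : ℕ) :
    f.natDegree * ((RV f P V S n).card - (WV f P V S n).card) ≤ (RV f P V S (n + 1)).card := by
  classical
  have h1 : (RV f P V S n).card - (WV f P V S n).card ≤ (RV f P V S n \ WV f P V S n).card :=
    Finset.le_card_sdiff _ _
  have h2 : ((RV f P V S n \ WV f P V S n) ×ˢ Finset.range f.natDegree).card ≤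
      (RV f P V S (n + 1)).card := by
    apply Finset.card_le_card_of_injOn fun p : ℕ × ℕ => p.1 + p.2 * f.natDegree ^ n
    · rintro ⟨j, a⟩ hp
      simp only [Finset.coe_product, Set.mem_prod, Finset.mem_coe, Finset.mem_sdiff,
        Finset.mem_range] at hp
      exact child hd hP hB hsc hp.1.1 hp.1.2 hp.2
    · rintro ⟨j, a⟩ hp ⟨j', a'⟩ hp' h
      simp only [Finset.coe_product, Set.mem_prod, Finset.mem_coe, Finset.mem_sdiff,
        Finset.mem_range] at hp hp'
      have hj := (mem_RV.mp hp.1.1).1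
      have hj' := (mem_RV.mp hp'.1.1).1
      simp only at h
      have e1 : (j + a * f.natDegree ^ n) % f.natDegree ^ n = j := by
        rw [Nat.add_mul_mod_self_right, Nat.mod_eq_of_lt hj]
      have e2 : (j' + a' * f.natDegree ^ n) % f.natDegree ^ n = j' := by
        rw [Nat.add_mul_mod_self_right, Nat.mod_eq_of_lt hj']
      have e3 : j = j' := by rw [← e1, ← e2, h]
      subst e3
      have e4 : a * f.natDegree ^ n = a' * f.natDegree ^ n := by omega
      have e5 : a = a' := Nat.eq_of_mul_eq_mul_right (by positivity) e4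
      rw [e5]
  rw [Finset.card_product, Finset.card_range] at h2
  calc f.natDegree * ((RV f P V S n).card - (WV f P V S n).card)
      ≤ f.natDegree * (RV f P V S n \ WV f P V S n).card := Nat.mul_le_mul_left _ h1
    _ = (RV f P V S n \ WV f P V S n).card * f.natDegree := mul_comm _ _
    _ ≤ _ := h2

theorem RV_card (hd : 2 ≤ f.natDegree) (hP : Half f P) (hB : Dat f P V S)
    (hsc : SimplyConnectedSpace V) (n : ℕ) :
    f.natDegree ≤ (RV f P V S (n + 1)).card := by
  induction n with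
  | zero =>
    have h1 := RV_card_succ hd hP hB hsc 0
    have h2 : 1 ≤ (RV f P V S 0).card := Finset.card_pos.mpr ⟨0, zero_mem_RV⟩
    rw [WV_zero hB, Finset.card_empty, Nat.sub_zero] at h1
    exact (Nat.le_mul_of_pos_right _ h2).trans h1
  | succ n ih =>
    have h1 := RV_card_succ hd hP hB hsc (n + 1)
    have h2 := WV_card hd hP hB (n + 1)
    have h3 : 1 ≤ (RV f P V S (n + 1)).card - (WV f P V S (n + 1)).card := by omega
    exact (Nat.le_mul_of_pos_right _ h3).trans h1

end

end Rgw83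

open Rgw83 in
/-- Row RGW. -/
theorem rgw : RgwStatement := by
  intro f P hd hP V hV hsc hcv η α β hη hαβ hmaps n
  have hpc : PathConnectedSpace V := inferInstance
  have hpre : IsPreconnected V := isPreconnected_iff_preconnectedSpace.mpr inferInstance
  have hB : Dat f P V (Rect η α β) :=
    { op := hV
      pc := hpre
      ne := rect_nonempty hη hαβ
      pre := rect_preconnected η α β
      sub := fun hu => hu.1
      maps := hmaps
      crit := hcv }
  have hne : (RV f P V (Rect η α β) n).Nonempty := by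
    cases n with
    | zero => exact ⟨0, zero_mem_RV⟩
    | succ n =>
      rw [← Finset.card_pos]
      have := RV_card hd hP hB hsc n
      omega
  obtain ⟨j, hj⟩ := hne
  obtain ⟨_, g, hg⟩ := mem_RV.mp hj
  exact ⟨j, g, hg.1, hg.2.1, hg.2.2⟩

end Pool.Agent.Imp
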