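import Pool.Agent.Lib.MP_1c105c_an.Defs6
import Pool.Agent.Lib.MP_1c105c_an.Jul

/-! MP_1c105c_an, row RJU: a repelling fixed point is in the Julia set (helper94). -/

set_option autoImplicit false

open Filter Topology Set Polynomial

namespace Pool.Agent.Imp

/-- Row RJU. -/
theorem rju : RjuStatement := by
  intro f z₀ hd hfix hrep
  have hcl := Jul.closed f hd
  obtain ⟨R, hR⟩ := (Jul.bounded f hd).subset_closedBall (0 : ℂ)
  have hit : ∀ n : ℕ, (fun w => f.eval w)^[n] z₀ = z₀ := fun n =>
    Function.iterate_fixed (f := fun w => f.eval w) hfix n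
  have hz₀ : z₀ ∈ filledJulia f := ⟨‖z₀‖, fun n => by rw [hit n]⟩
  rw [julia, frontier, hcl.closure_eq]
  refine ⟨hz₀, fun hint => ?_⟩
  obtain ⟨ε, hε, hball⟩ := Metric.isOpen_iff.1 isOpen_interior z₀ hint
  have hinv : ∀ n : ℕ, ∀ w ∈ filledJulia f, (fun w => f.eval w)^[n] w ∈ filledJulia f := by
    intro n
    induction n with
    | zero => intro w hw; exact hw
    | succ n ih =>
      intro w hw
      rw [Function.iterate_succ_apply]
      exact ih _ ((Jul.inv_filled f w).2 hw)
  have hder : ∀ n : ℕ, ‖f.derivative.eval z₀‖ ^ n ≤ R / (ε / 2) := by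
    intro n
    have h1 : HasDerivAt (fun w => f.eval w)^[n] ((f.derivative.eval z₀) ^ n) z₀ :=
      HasDerivAt.iterate z₀ (f.hasDerivAt z₀) hfix n
    have h2 : Differentiable ℂ (fun w => f.eval w)^[n] := f.differentiable.iterate n
    have h3 := Complex.norm_deriv_le_of_forall_mem_sphere_norm_le (f := (fun w => f.eval w)^[n])
      (c := z₀) (R := ε / 2) (C := R) (by positivity) h2.diffContOnCl (by
        intro w hw
        have hw' : w ∈ filledJulia f := by
          refine interior_subset (hball ?_)
          rw [mem_sphere_iff_norm] at hw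
          rw [Metric.mem_ball, dist_eq_norm, hw]
          linarith
        have := hR (hinv n w hw')
        rwa [mem_closedBall_zero_iff] at this)
    rw [h1.deriv, norm_pow] at h3
    exact h3
  obtain ⟨n, hn⟩ := pow_unbounded_of_one_lt (R / (ε / 2)) hrep
  exact absurd (hder n) (not_le.2 hn)

end Pool.Agent.Imp
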