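import Pool.Agent.Lib.MP_1c105c_an.Defs12

/-! MP_1c105c_an, stage 15, row ROTD: an open arc of length `1 / d` contains at most one cycle
of multiplication by `d`. -/

set_option autoImplicit false

open Set

namespace Pool.Agent.Imp

namespace Rotd74

/-- Two finite invariant sets in an arc of length `1 / d`, one of which misses the maximum. -/
theorem core (d β : ℝ) (hd : 2 ≤ d) (A B : Set ℝ) (hA : A.Finite) (hB : B.Finite)
    (hBne : B.Nonempty) (T : ℝ → ℝ)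
    (hT : ∀ u, 0 < u → u < 1 / d → (T u = d * u + β ∧ d * u + β < 1) ∨
      (T u = d * u + β - 1 ∧ 1 ≤ d * u + β))
    (hA1 : ∀ u ∈ A, 0 < u ∧ u < 1 / d) (hB1 : ∀ u ∈ B, 0 < u ∧ u < 1 / d)
    (hTA : ∀ u ∈ A, T u ∈ A)
    (sA : ∀ u ∈ A, ∃ v ∈ A, T v = u) (sB : ∀ u ∈ B, ∃ v ∈ B, T v = u)
    (M : ℝ) (hM : M ∈ A) (hMB : M ∉ B) (hmB : ∀ u ∈ B, u ≤ M) : False := by
  have hd0 : 0 < d := by linarith
  have hS : ∀ u ∈ A ∪ B, 0 < u ∧ u < 1 / d := by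
    rintro u (h | h)
    · exact hA1 u h
    · exact hB1 u h
  have hS' : ∀ u, u < 1 / d → d * u < 1 := fun u h => by
    rw [lt_div_iff₀ hd0] at h
    linarith
  have sS : ∀ u ∈ A ∪ B, ∃ v ∈ A ∪ B, T v = u := by
    rintro u (h | h)
    · obtain ⟨v, hv, e⟩ := sA u h
      exact ⟨v, Or.inl hv, e⟩
    · obtain ⟨v, hv, e⟩ := sB u h
      exact ⟨v, Or.inr hv, e⟩
  have hF : (Set.Finite {z : ℝ × ℝ | z.1 ∈ B ∧ z.2 ∈ A ∪ B ∧ z.1 < z.2}) := by
    refine (hB.prod (hA.union hB)).subset ?_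
    rintro ⟨u, v⟩ ⟨h1, h2, _⟩
    exact ⟨h1, h2⟩
  obtain ⟨u0, hu0⟩ := hBne
  have hlt : ∀ u ∈ B, u < M := fun u hu => lt_of_le_of_ne (hmB u hu) (fun e => hMB (e ▸ hu))
  obtain ⟨⟨u, v⟩, ⟨hu, hv, huv⟩, hmin⟩ := Set.exists_min_image
    {z : ℝ × ℝ | z.1 ∈ B ∧ z.2 ∈ A ∪ B ∧ z.1 < z.2} (fun z : ℝ × ℝ => z.2 - z.1) hF
    ⟨(u0, M), hu0, Or.inl hM, hlt u0 hu0⟩
  have hmin' : ∀ a b : ℝ, a ∈ B → b ∈ A ∪ B → a < b → v - u ≤ b - a := fun a b ha hb hab =>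
    hmin (a, b) ⟨ha, hb, hab⟩
  simp only at hu hv huv
  obtain ⟨u', hu', eu⟩ := sB u hu
  obtain ⟨v', hv', ev⟩ := sS v hv
  obtain ⟨a1, a2⟩ := hB1 u' hu'
  obtain ⟨b1, b2⟩ := hS v' hv'
  obtain ⟨c1, c2⟩ := hA1 M hM
  have a3 := hS' u' a2
  have b3 := hS' v' b2
  have c3 := hS' M c2
  have a4 := mul_pos hd0 a1
  have b4 := mul_pos hd0 b1
  have key : v - u = d * (v' - u') → False := by
    intro e
    have h1 : 0 < v' - u' := by
      by_contra hn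
      push Not at hn
      have := mul_nonpos_of_nonneg_of_nonpos hd0.le hn
      linarith
    have h2 := hmin' u' v' hu' hv' (by linarith)
    nlinarith
  rcases hT u' a1 a2 with ⟨t1, t2⟩ | ⟨t1, t2⟩ <;> rcases hT v' b1 b2 with ⟨r1, r2⟩ | ⟨r1, r2⟩
  · exact key (by linear_combination r1 - t1 - ev + eu)
  · linarith
  · have hlM := hlt u' hu'
    have hlM' := mul_lt_mul_of_pos_left hlM hd0
    rcases hT M c1 c2 with ⟨w1, w2⟩ | ⟨w1, w2⟩
    · linarith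
    · have := hmin' u (T M) hu (Or.inl (hTA M hM)) (by linarith)
      linarith
  · exact key (by linear_combination r1 - t1 - ev + eu)

/-- Multiplication by `d` in the coordinate `fract (· - b)`. -/
theorem step (d : ℕ) (b z : ℝ) :
    Int.fract (d * z - b) = Int.fract (d * Int.fract (z - b) + (d - 1) * b) := by
  rw [Int.fract_eq_fract]
  refine ⟨d * ⌊z - b⌋, ?_⟩
  have := Int.self_sub_floor (z - b)
  push_cast
  rw [← this]
  ring

theorem hstep (d : ℕ) (hd : 2 ≤ d) (c u : ℝ) (h0 : 0 < u) (h1 : u < 1 / d) :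
    (Int.fract (d * u + c) = d * u + Int.fract c ∧ d * u + Int.fract c < 1) ∨
      (Int.fract (d * u + c) = d * u + Int.fract c - 1 ∧ 1 ≤ d * u + Int.fract c) := by
  have hd0 : (0 : ℝ) < d := by exact_mod_cast (by omega : 0 < d)
  rw [lt_div_iff₀ hd0] at h1
  have h2 := mul_pos hd0 h0
  have hb0 := Int.fract_nonneg c
  have hb1 := Int.fract_lt_one c
  have hb := Int.self_sub_floor c
  rcases lt_or_ge (d * u + Int.fract c) 1 with h | h
  · left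
    refine ⟨?_, h⟩
    rw [Int.fract_eq_iff]
    refine ⟨by linarith, h, ⌊c⌋, ?_⟩
    linarith
  · right
    refine ⟨?_, h⟩
    rw [Int.fract_eq_iff]
    refine ⟨by linarith, by linarith, ⌊c⌋ + 1, ?_⟩
    push_cast
    linarith

theorem per (d : ℕ) (b x : ℝ) (p : ℕ) (m : ℤ) (h : (d : ℝ) ^ p * x = x + m) (i : ℕ) :
    Int.fract ((d : ℝ) ^ (i + p) * x - b) = Int.fract ((d : ℝ) ^ i * x - b) := by
  rw [Int.fract_eq_fract]
  refine ⟨d ^ i * m, ?_⟩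
  rw [pow_add, mul_assoc, h]
  push_cast
  ring

theorem fin (d : ℕ) (b x : ℝ) (p : ℕ) (hp : 1 ≤ p) (m : ℤ) (h : (d : ℝ) ^ p * x = x + m) :
    (Set.range (fun i : ℕ => Int.fract ((d : ℝ) ^ i * x - b))).Finite := by
  refine ((Finset.range p).finite_toSet.image
    (fun i : ℕ => Int.fract ((d : ℝ) ^ i * x - b))).subset ?_
  rintro _ ⟨i, rfl⟩
  have hk : ∀ k r : ℕ, Int.fract ((d : ℝ) ^ (r + k * p) * x - b) =
      Int.fract ((d : ℝ) ^ r * x - b) := by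
    intro k r
    induction k with
    | zero => simp
    | succ k ih =>
      rw [← ih, ← per d b x p m h (r + k * p)]
      ring_nf
  refine ⟨i % p, ?_, ?_⟩
  · simpa using Nat.mod_lt i hp
  · have h1 : i = i % p + (i / p) * p := by rw [mul_comm]; exact (Nat.mod_add_div i p).symm
    simp only
    rw [← hk (i / p) (i % p), ← h1]

theorem sur (d : ℕ) (b x : ℝ) (p : ℕ) (hp : 1 ≤ p) (m : ℤ) (h : (d : ℝ) ^ p * x = x + m) :
    ∀ u ∈ Set.range (fun i : ℕ => Int.fract ((d : ℝ) ^ i * x - b)),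
      ∃ v ∈ Set.range (fun i : ℕ => Int.fract ((d : ℝ) ^ i * x - b)),
        Int.fract (d * v + (d - 1) * b) = u := by
  rintro _ ⟨i, rfl⟩
  refine ⟨_, ⟨i + (p - 1), rfl⟩, ?_⟩
  simp only
  rw [← step, ← per d b x p m h i]
  obtain ⟨p, rfl⟩ : ∃ k, p = k + 1 := ⟨p - 1, by omega⟩
  rw [Nat.add_sub_cancel, ← mul_assoc, ← pow_succ', add_assoc]

theorem inv (d : ℕ) (b x : ℝ) :
    ∀ u ∈ Set.range (fun i : ℕ => Int.fract ((d : ℝ) ^ i * x - b)),
      Int.fract (d * u + (d - 1) * b) ∈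
        Set.range (fun i : ℕ => Int.fract ((d : ℝ) ^ i * x - b)) := by
  rintro _ ⟨i, rfl⟩
  refine ⟨i + 1, ?_⟩
  simp only
  rw [← step, pow_succ', mul_assoc]

/-- One of two disjoint cycles misses the maximum. -/
theorem half (d : ℕ) (hd : 2 ≤ d) (b x y : ℝ) (p q : ℕ) (m n : ℤ) (hp : 1 ≤ p) (hq : 1 ≤ q)
    (hx : (d : ℝ) ^ p * x = x + m) (hy : (d : ℝ) ^ q * y = y + n)
    (h1 : ∀ i : ℕ, 0 < Int.fract ((d : ℝ) ^ i * x - b) ∧
      Int.fract ((d : ℝ) ^ i * x - b) < 1 / d)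
    (h2 : ∀ i : ℕ, 0 < Int.fract ((d : ℝ) ^ i * y - b) ∧
      Int.fract ((d : ℝ) ^ i * y - b) < 1 / d)
    (M : ℝ) (hM : M ∈ Set.range (fun i : ℕ => Int.fract ((d : ℝ) ^ i * x - b)))
    (hMB : M ∉ Set.range (fun i : ℕ => Int.fract ((d : ℝ) ^ i * y - b)))
    (hm : ∀ u ∈ Set.range (fun i : ℕ => Int.fract ((d : ℝ) ^ i * y - b)), u ≤ M) : False := by
  refine core d (Int.fract ((d - 1) * b)) (by exact_mod_cast hd) _ _ (fin d b x p hp m hx)
    (fin d b y q hq n hy) ⟨_, ⟨0, rfl⟩⟩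
    (fun u => Int.fract (d * u + (d - 1) * b)) (hstep d hd _) ?_ ?_ (inv d b x)
    (sur d b x p hp m hx) (sur d b y q hq n hy) M hM hMB hm
  · rintro _ ⟨i, rfl⟩
    exact h1 i
  · rintro _ ⟨i, rfl⟩
    exact h2 i

theorem iter (d : ℕ) (y : ℝ) (q : ℕ) (n : ℤ) (hy : (d : ℝ) ^ q * y = y + n) (j : ℕ) :
    ∃ k : ℤ, (d : ℝ) ^ (j * q) * y = y + k := by
  induction j with
  | zero => exact ⟨0, by simp⟩
  | succ j ih =>
    obtain ⟨k, hk⟩ := ih
    refine ⟨n + d ^ q * k, ?_⟩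
    have : (d : ℝ) ^ ((j + 1) * q) * y = (d : ℝ) ^ q * ((d : ℝ) ^ (j * q) * y) := by
      rw [add_mul, one_mul, pow_add]; ring
    rw [this, hk, mul_add, hy]
    push_cast
    ring

end Rotd74

theorem rotd : RotdStatement := by
  intro d b x y p q m n hd hp hq hx hy h1 h2
  by_cases hc : ∃ i j : ℕ, Int.fract ((d : ℝ) ^ i * x - b) = Int.fract ((d : ℝ) ^ j * y - b)
  · obtain ⟨i, j, hij⟩ := hc
    rw [Int.fract_eq_fract] at hij
    obtain ⟨z, hz⟩ := hij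
    obtain ⟨k, hk⟩ := Rotd74.iter d y q n hy j
    obtain ⟨q, rfl⟩ : ∃ r, q = r + 1 := ⟨q - 1, by omega⟩
    refine ⟨i + j * q, k + d ^ (j * q) * z, ?_⟩
    have e1 : (d : ℝ) ^ i * x = (d : ℝ) ^ j * y + z := by linarith
    have e2 : (d : ℝ) ^ (i + j * q) * x = (d : ℝ) ^ (j * q) * ((d : ℝ) ^ i * x) := by
      rw [pow_add]; ring
    have e3 : (d : ℝ) ^ (j * (q + 1)) * y = (d : ℝ) ^ (j * q) * ((d : ℝ) ^ j * y) := by
      rw [mul_add, mul_one, pow_add]; ring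
    rw [e2, e1, mul_add, ← e3, hk]
    push_cast
    ring
  · exfalso
    push Not at hc
    have hfin := (Rotd74.fin d b x p hp m hx).union (Rotd74.fin d b y q hq n hy)
    obtain ⟨M, hM, hmax⟩ := Set.exists_max_image _ (fun u : ℝ => u) hfin
      ⟨_, Or.inl ⟨0, rfl⟩⟩
    rcases hM with hM | hM
    · refine Rotd74.half d hd b x y p q m n hp hq hx hy h1 h2 M hM ?_
        (fun u hu => hmax u (Or.inr hu))
      rintro ⟨j, hj⟩
      obtain ⟨i, hi⟩ := hM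
      exact hc i j (hi.trans hj.symm)
    · refine Rotd74.half d hd b y x q p n m hq hp hy hx h2 h1 M hM ?_
        (fun u hu => hmax u (Or.inl hu))
      rintro ⟨i, hi⟩
      obtain ⟨j, hj⟩ := hM
      exact hc i j (hi.trans hj.symm)

end Pool.Agent.Imp
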