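import Pool.Agent.Lib.MP_1c105c_an.Defs12
import Pool.Agent.Lib.MP_1c105c_an.Rep
import Pool.Agent.Lib.MP_1c105c_an.Lpb
import Pool.Agent.Lib.MP_1c105c_an.Uco

/-! MP_1c105c_an: unicritical polynomials with small cycles: the fixed point `α` separates the
orbit of the critical value from the accessible points (SPAD). -/

set_option autoImplicit false

open Filter Topology Set Polynomial

namespace Pool.Agent.Imp

/-- All points of the backward orbit of a landing point are landing points. -/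
theorem land_pull {f : ℂ[X]} {P : ℂ → ℂ} (hd : 2 ≤ f.natDegree) (hP : Half f P) (n : ℕ) :
    ∀ (w : ℂ) (s : ℝ), Land P s ((fun w => f.eval w)^[n] w) → ∃ s', Land P s' w := by
  induction n with
  | zero => exact fun w s h => ⟨s, h⟩
  | succ n ih =>
    intro w s h
    rw [Function.iterate_succ_apply] at h
    obtain ⟨s₁, h₁⟩ := ih (f.eval w) s h
    obtain ⟨s₂, h₂, -⟩ := lpb f P hd hP s₁ (f.eval w) w h₁ rfl
    exact ⟨s₂, h₂⟩

/-- The images of a landing ray land. -/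
theorem land_iter {f : ℂ[X]} {P : ℂ → ℂ} (hd : 2 ≤ f.natDegree) (hP : Half f P) {t : ℝ} {z : ℂ}
    (h : Land P t z) (n : ℕ) :
    Land P ((f.natDegree : ℝ) ^ n * t) ((fun w => f.eval w)^[n] z) := by
  induction n with
  | zero => simpa using h
  | succ n ih =>
    have := Rep.land_mul hd hP ih
    rw [Function.iterate_succ_apply', pow_succ', mul_assoc]
    exact this

/-- A ray that does not land at the fixed point `α` misses a neighbourhood of `α`. -/
theorem ray_far {f : ℂ[X]} {P : ℂ → ℂ} (hd : 2 ≤ f.natDegree) (hP : Half f P)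
    (hinf : ∀ R : ℝ, ∃ M : ℝ, ∀ u : ℂ, M ≤ u.re → R ≤ ‖P u‖) {α w : ℂ} {s : ℝ}
    (hα : f.eval α = α) (hs : Land P s w) (hne : w ≠ α) :
    ∃ r : ℝ, 0 < r ∧ ∀ x : ℝ, 0 < x → P (x + s * Complex.I) ∉ Metric.ball α r := by
  -- near the landing point
  set ρ₁ : ℝ := ‖w - α‖ / 2 with hρ₁
  have hρ₁0 : 0 < ρ₁ := by
    have : 0 < ‖w - α‖ := norm_pos_iff.2 (sub_ne_zero.2 hne)
    positivity
  obtain ⟨ε, hε, hεw⟩ : ∃ ε : ℝ, 0 < ε ∧ ∀ x : ℝ, 0 < x → x < ε →
      ‖P (x + s * Complex.I) - w‖ < ρ₁ := by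
    have h1 := Metric.tendsto_nhdsWithin_nhds.1 hs ρ₁ hρ₁0
    obtain ⟨ε, hε, h2⟩ := h1
    refine ⟨ε, hε, fun x hx hxe => ?_⟩
    have h3 := h2 (x := x) hx (by
      rw [Real.dist_eq, sub_zero, abs_of_pos hx]
      exact hxe)
    rwa [dist_eq_norm] at h3
  -- away from the landing point
  obtain ⟨M, hM⟩ := hinf (‖α‖ + 2)
  have hd1 : (1 : ℝ) < f.natDegree := by
    have : 1 < f.natDegree := by omega
    exact_mod_cast this
  obtain ⟨n, hn1, hnM⟩ : ∃ n : ℕ, 1 ≤ n ∧ M ≤ (f.natDegree : ℝ) ^ n * ε := by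
    obtain ⟨n, hn⟩ := pow_unbounded_of_one_lt (M / ε) hd1
    refine ⟨n + 1, by omega, ?_⟩
    rw [div_lt_iff₀ hε] at hn
    have h1 : (f.natDegree : ℝ) ^ n * ε ≤ (f.natDegree : ℝ) ^ (n + 1) * ε := by
      refine mul_le_mul_of_nonneg_right ?_ hε.le
      exact pow_le_pow_right₀ hd1.le (by omega)
    linarith
  have hcont : ContinuousAt (fun z => (Nr.It f n).eval z) α := (Nr.It f n).continuous.continuousAt
  have hαn : (Nr.It f n).eval α = α := by
    rw [Nr.it_eval]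
    exact Function.iterate_fixed hα n
  obtain ⟨ρ₂, hρ₂, hρ₂'⟩ := Metric.continuousAt_iff.1 hcont 1 one_pos
  refine ⟨min ρ₁ ρ₂, lt_min hρ₁0 hρ₂, fun x hx hmem => ?_⟩
  rw [mem_ball_iff_norm] at hmem
  rcases lt_or_ge x ε with hxe | hxe
  · have h1 := hεw x hx hxe
    have h2 : ‖P (x + s * Complex.I) - α‖ < ρ₁ := hmem.trans_le (min_le_left _ _)
    have h3 : ‖w - α‖ ≤ ‖P (x + s * Complex.I) - α‖ + ‖P (x + s * Complex.I) - w‖ := by
      have := norm_sub_le (P (x + s * Complex.I) - α) (P (x + s * Complex.I) - w)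
      simpa using this
    linarith
  · have h1 : dist (P (x + s * Complex.I)) α < ρ₂ := by
      rw [dist_eq_norm]
      exact hmem.trans_le (min_le_right _ _)
    have h2 := hρ₂' h1
    have hu : (x : ℂ) + s * Complex.I ∈ HP := by
      show 0 < ((x : ℂ) + s * Complex.I).re
      simpa using hx
    have h3 := (Nr.it_half hd hP hn1).semi _ hu
    rw [h3, hαn, Nr.it_deg, dist_eq_norm] at h2
    have h4 := hM (((f.natDegree ^ n : ℕ) : ℂ) * ((x : ℂ) + s * Complex.I)) (by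
      rw [← Complex.ofReal_natCast, Complex.re_ofReal_mul]
      have h5 : ((x : ℂ) + s * Complex.I).re = x := by simp
      rw [h5]
      push_cast
      have h6 : (f.natDegree : ℝ) ^ n * ε ≤ (f.natDegree : ℝ) ^ n * x :=
        mul_le_mul_of_nonneg_left hxe (by positivity)
      linarith)
    have h5 := norm_sub_norm_le (P (((f.natDegree ^ n : ℕ) : ℂ) * ((x : ℂ) + s * Complex.I))) α
    linarith

/-- SPAD. -/
theorem spad (rot : RotdStatement) (dep : DepStatement) (pul : PulStatement)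
    (crx : CrxdStatement) : SpadStatement := by
  intro f P hd hP hinf α c hα hsm hc E n s w hE hEp hEK hcE hwE hs
  by_contra hαE
  have hF : 1 ≤ (Nr.It f n).natDegree := by
    rw [Nr.it_deg]
    exact Nat.one_le_pow _ _ (by omega)
  -- the pull back that contains the critical value
  obtain ⟨E', hE'c, hE'p, hcE', hmap, w', hw'E, hw'⟩ := pul (Nr.It f n) E (f.eval c) w hF hE hEp
    (by
      rw [Nr.it_eval]
      rw [Function.iterate_succ_apply] at hcE
      exact hcE) hwE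
  rw [Nr.it_eval] at hw'
  obtain ⟨s', hs'⟩ := land_pull hd hP n w' s (by rw [hw']; exact hs)
  have hE'K : E' ⊆ filledJulia f := fun z hz => by
    have h1 := hEK (hmap z hz)
    rw [Nr.it_eval] at h1
    exact (Uco.iter_filled n z).1 h1
  have hαE' : α ∉ E' := fun h => hαE (by
    have h1 := hmap α h
    rw [Nr.it_eval, Function.iterate_fixed hα n] at h1
    exact h1)
  have hwα : w' ≠ α := fun h => hαE' (h ▸ hw'E)
  -- the disc
  obtain ⟨r, hr, hD1, hD2⟩ : ∃ r : ℝ, 0 < r ∧ (∀ z ∈ Metric.ball α r, f.eval z ∉ E') ∧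
      ∀ z ∈ Metric.ball α r, ∀ x : ℝ, 0 < x → f.eval z ≠ P (x + s' * Complex.I) := by
    obtain ⟨ρ, hρ, hρ'⟩ := ray_far hd hP hinf hα hs' hwα
    obtain ⟨ρ₁, hρ₁, hρ₁'⟩ := Metric.isOpen_iff.1 hE'c.isClosed.isOpen_compl α hαE'
    have hcont : ContinuousAt (fun z => f.eval z) α := f.continuous.continuousAt
    obtain ⟨r, hr, hr'⟩ := Metric.continuousAt_iff.1 hcont (min ρ ρ₁) (lt_min hρ hρ₁)
    rw [hα] at hr'
    refine ⟨r, hr, fun z hz hz' => ?_, fun z hz x hx hz' => ?_⟩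
    · exact hρ₁' ((hr' hz).trans_le (min_le_right _ _)) hz'
    · refine hρ' x hx ?_
      rw [← hz']
      exact (hr' hz).trans_le (min_le_left _ _)
  obtain ⟨b, hb⟩ := crx f P hd hP hinf c w' s' E' (Metric.ball α r) hc hE'p hE'K hcE' hw'E hs'
    Metric.isOpen_ball (convex_ball α r).isPreconnected hD1 hD2
  -- the first cycle
  obtain ⟨z₁, n₁, hn₁, hz₁, hr₁, hne₁, hk₁⟩ := hsm r hr
  have hper : ∀ k : ℕ, (fun w => f.eval w)^[k] z₁ = (fun w => f.eval w)^[k % n₁] z₁ := by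
    intro k
    conv_lhs => rw [← Nat.mod_add_div k n₁]
    rw [Function.iterate_add_apply, Function.iterate_mul, Function.iterate_fixed hz₁]
  have hne : ∀ k : ℕ, (fun w => f.eval w)^[k] z₁ ≠ α := by
    intro k hk
    apply hne₁
    have h1 : (fun w => f.eval w)^[k * n₁] z₁ = α := by
      have h2 : k * n₁ = (k * n₁ - k) + k := by
        have : k ≤ k * n₁ := Nat.le_mul_of_pos_right k (by omega)
        omega
      rw [h2, Function.iterate_add_apply, hk]
      exact Function.iterate_fixed hα _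
    rw [mul_comm, Function.iterate_mul, Function.iterate_fixed hz₁] at h1
    exact h1
  obtain ⟨ε₂, hε₂, hε₂'⟩ : ∃ ε₂ : ℝ, 0 < ε₂ ∧ ∀ k : ℕ, ε₂ ≤ ‖(fun w => f.eval w)^[k] z₁ - α‖ := by
    obtain ⟨k₀, hk₀, hmin⟩ := Finset.exists_min_image (Finset.range n₁)
      (fun k => ‖(fun w => f.eval w)^[k] z₁ - α‖) ⟨0, Finset.mem_range.2 (by omega)⟩
    refine ⟨‖(fun w => f.eval w)^[k₀] z₁ - α‖, norm_pos_iff.2 (sub_ne_zero.2 (hne k₀)),
      fun k => ?_⟩
    rw [hper k]
    exact hmin (k % n₁) (Finset.mem_range.2 (Nat.mod_lt _ (by omega)))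
  -- the second cycle
  obtain ⟨z₂, n₂, hn₂, hz₂, hr₂, hne₂, hk₂⟩ := hsm (min ε₂ r) (lt_min hε₂ hr)
  obtain ⟨t₁, k₁, m₁, hk₁', ht₁, hl₁⟩ := dep f P hd hP hinf n₁ z₁ hn₁ hz₁ hr₁
  obtain ⟨t₂, k₂, m₂, hk₂', ht₂, hl₂⟩ := dep f P hd hP hinf n₂ z₂ hn₂ hz₂ hr₂
  obtain ⟨i, k, hik⟩ := rot f.natDegree b t₁ t₂ k₁ k₂ m₁ m₂ hd hk₁' hk₂' ht₁ ht₂
    (fun i => by
      have h1 := land_iter hd hP hl₁ i
      exact hb _ _ (by
        rw [mem_ball_iff_norm]
        exact hk₁ i) h1)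
    (fun i => by
      have h1 := land_iter hd hP hl₂ i
      exact hb _ _ (by
        rw [mem_ball_iff_norm]
        exact (hk₂ i).trans_le (min_le_right _ _)) h1)
  have h1 := land_iter hd hP hl₁ i
  rw [hik] at h1
  have h2 := Rep.land_unique (Rep.land_add hP.per k h1) hl₂
  have h3 := hε₂' i
  rw [h2] at h3
  have h4 := (hk₂ 0).trans_le (min_le_left _ _)
  simp only [Function.iterate_zero, id_eq] at h4
  linarith

end Pool.Agent.Imp
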