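import Pool.Agent.Lib.MP_1c105c_an.Defs4

/-! MP_1c105c_an: pull backs of a pair of rays that land together (row UNS). -/

set_option autoImplicit false

open Filter Topology Set Polynomial

namespace Pool.Agent.Imp

namespace Uns83

/-- The data. -/
structure SBox (f : ℂ[X]) (P : ℂ → ℂ) (b : ℂ) (r : ℝ) (S : Set ℂ) (m₀ : ℕ) : Prop where
  hr : 0 < r
  ne : S.Nonempty
  pre : IsPreconnected S
  sub : ∀ {u : ℂ}, u ∈ S → 0 < u.re
  maps : ∀ u ∈ S, P u ∈ Metric.ball b r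
  crit : ∀ c, f.derivative.eval c = 0 → ∀ k < m₀,
    (fun w => f.eval w)^[k + 1] c ∉ Metric.ball b (2 * r)

/-- `g` is a univalent inverse branch of `f^n` with index `j`. -/
def UnivS (f : ℂ[X]) (P : ℂ → ℂ) (b : ℂ) (r : ℝ) (S : Set ℂ) (n j : ℕ) (g : ℂ → ℂ) : Prop :=
  DifferentiableOn ℂ g (Metric.ball b (2 * r)) ∧
  (∀ z ∈ Metric.ball b (2 * r), (fun w => f.eval w)^[n] (g z) = z) ∧
  ∀ u ∈ S, g (P u) = P ((u + j * Complex.I) / (f.natDegree : ℂ) ^ n)

section
variable {f : ℂ[X]} {P : ℂ → ℂ} {b : ℂ} {r : ℝ} {S : Set ℂ} {m₀ : ℕ}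

theorem univ_disj (hd : 2 ≤ f.natDegree) (hP : Half f P) (hB : SBox f P b r S m₀)
    {n j j' : ℕ} {g g' : ℂ → ℂ} (hg : UnivS f P b r S n j g) (hg' : UnivS f P b r S n j' g')
    (hj : j < f.natDegree ^ n) (hj' : j' < f.natDegree ^ n) {z z' : ℂ}
    (hz : z ∈ Metric.ball b (2 * r)) (hz' : z' ∈ Metric.ball b (2 * r)) (h : g z = g' z') :
    j = j' := by
  have hzz : z = z' := by rw [← hg.2.1 z hz, ← hg'.2.1 z' hz', h]
  subst hzz
  have hev : ∀ w, (f.comp^[n] X).eval w = (fun w => f.eval w)^[n] w := by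
    intro w
    rw [Polynomial.iterate_comp_eval]
    simp
  have heq : Set.EqOn g g' (Metric.ball b (2 * r)) := by
    refine uniq (f.comp^[n] X) _ g g' (convex_ball b (2 * r)).isPreconnected hg.1.continuousOn
      hg'.1.continuousOn ?_ ?_ z hz h
    · intro y hy
      rw [hev, hev, hg.2.1 y hy, hg'.2.1 y hy]
    · intro y hy h0
      have hn : Metric.ball b (2 * r) ∈ 𝓝 y := Metric.isOpen_ball.mem_nhds hy
      have hdg := ((hg.1 y hy).differentiableAt hn).hasDerivAt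
      have h1 : HasDerivAt (fun y => (f.comp^[n] X).eval (g y))
          ((f.comp^[n] X).derivative.eval (g y) * deriv g y) y :=
        ((f.comp^[n] X).hasDerivAt (g y)).comp y hdg
      have h2 : HasDerivAt (fun y : ℂ => y) ((f.comp^[n] X).derivative.eval (g y) * deriv g y) y := by
        refine h1.congr_of_eventuallyEq ?_
        filter_upwards [hn] with x hx
        rw [hev, hg.2.1 x hx]
      have h3 := h2.unique (hasDerivAt_id' y)
      rw [h0, zero_mul] at h3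
      exact zero_ne_one h3
  obtain ⟨u, hu⟩ := hB.ne
  have h1 := heq (ball_sub hB.hr (hB.maps u hu))
  rw [hg.2.2 u hu, hg'.2.2 u hu] at h1
  obtain ⟨m, hm⟩ := hP.inj _ (div_mem_HP hd (hB.sub hu) j n) _ (div_mem_HP hd (hB.sub hu) j' n) h1
  have hne : (f.natDegree : ℂ) ^ n ≠ 0 := by
    apply pow_ne_zero
    exact_mod_cast (by omega : f.natDegree ≠ 0)
  have h2 : (j : ℂ) = j' + m * (f.natDegree : ℂ) ^ n := by
    have h3 : ((u + j * Complex.I) / (f.natDegree : ℂ) ^ n) * (f.natDegree : ℂ) ^ n =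
        ((u + j' * Complex.I) / (f.natDegree : ℂ) ^ n + m * Complex.I) * (f.natDegree : ℂ) ^ n := by
      rw [hm]
    rw [add_mul, div_mul_cancel₀ _ hne, div_mul_cancel₀ _ hne] at h3
    have h4 : ((j : ℂ) - (j' + m * (f.natDegree : ℂ) ^ n)) * Complex.I = 0 := by
      linear_combination h3
    have h5 := (mul_eq_zero.mp h4).resolve_right Complex.I_ne_zero
    exact sub_eq_zero.mp h5
  have h6 : (j : ℤ) = j' + m * (f.natDegree : ℤ) ^ n := by exact_mod_cast h2
  have hD : (0 : ℤ) < (f.natDegree : ℤ) ^ n := by positivity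
  have hj1 : (j : ℤ) < (f.natDegree : ℤ) ^ n := by exact_mod_cast hj
  have hj1' : (j' : ℤ) < (f.natDegree : ℤ) ^ n := by exact_mod_cast hj'
  have hm0 : m = 0 := by
    by_contra hm0
    rcases lt_or_gt_of_ne hm0 with h7 | h7
    · have : m * (f.natDegree : ℤ) ^ n ≤ -1 * (f.natDegree : ℤ) ^ n :=
        mul_le_mul_of_nonneg_right (by omega) hD.le
      have : (0 : ℤ) ≤ j := by positivity
      linarith
    · have : 1 * (f.natDegree : ℤ) ^ n ≤ m * (f.natDegree : ℤ) ^ n :=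
        mul_le_mul_of_nonneg_right (by omega) hD.le
      have : (0 : ℤ) ≤ j' := by positivity
      linarith
  rw [hm0] at h6
  have : (j : ℤ) = j' := by simpa using h6
  exact_mod_cast this

open Classical in
/-- The critical indices of level `k`. -/
noncomputable def WsetS (f : ℂ[X]) (P : ℂ → ℂ) (b : ℂ) (r : ℝ) (S : Set ℂ) (k : ℕ) : Finset ℕ :=
  (Finset.range (f.natDegree ^ k)).filter fun j => ∃ g, UnivS f P b r S k j g ∧
    ∃ c, f.derivative.eval c = 0 ∧ ∃ z ∈ Metric.ball b (2 * r), g z = f.eval c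

theorem mem_Wset {k j : ℕ} : j ∈ WsetS f P b r S k ↔ j < f.natDegree ^ k ∧
    ∃ g, UnivS f P b r S k j g ∧
    ∃ c, f.derivative.eval c = 0 ∧ ∃ z ∈ Metric.ball b (2 * r), g z = f.eval c := by
  simp [WsetS]

theorem Wset_card (hd : 2 ≤ f.natDegree) (hP : Half f P) (hB : SBox f P b r S m₀) (k : ℕ) :
    (WsetS f P b r S k).card ≤ f.natDegree - 1 := by
  classical
  have hc : ∀ j ∈ WsetS f P b r S k, ∃ c, f.derivative.eval c = 0 ∧
      ∃ g, UnivS f P b r S k j g ∧ ∃ z ∈ Metric.ball b (2 * r), g z = f.eval c := by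
    intro j hj
    obtain ⟨_, g, hg, c, hc, z, hz, h⟩ := mem_Wset.mp hj
    exact ⟨c, hc, g, hg, z, hz, h⟩
  choose! c hc using hc
  have h1 : (WsetS f P b r S k).card ≤ f.derivative.roots.toFinset.card := by
    apply Finset.card_le_card_of_injOn c
    · intro j hj
      rw [Finset.mem_coe, Multiset.mem_toFinset, Polynomial.mem_roots (derivative_ne hd)]
      exact (hc j hj).1
    · intro j hj j' hj' hcc
      obtain ⟨_, g, hg, z, hz, h⟩ := hc j hj
      obtain ⟨_, g', hg', z', hz', h'⟩ := hc j' hj'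
      refine univ_disj hd hP hB hg hg' (mem_Wset.mp hj).1 (mem_Wset.mp hj').1 hz hz' ?_
      rw [h, h', hcc]
  refine h1.trans ((Multiset.toFinset_card_le _).trans ((Polynomial.card_roots' _).trans ?_))
  exact Polynomial.natDegree_derivative_le f

theorem Wset_empty (hB : SBox f P b r S m₀) {k : ℕ} (hk : k < m₀) : WsetS f P b r S k = ∅ := by
  rw [Finset.eq_empty_iff_forall_notMem]
  intro j hj
  obtain ⟨_, g, hg, c, hc, z, hz, h⟩ := mem_Wset.mp hj
  have h1 := hg.2.1 z hz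
  rw [h, ← Function.iterate_succ_apply] at h1
  exact hB.crit c hc k hk (by rw [h1]; exact hz)

/-- The univalent indices. -/
theorem exists_univ (hd : 2 ≤ f.natDegree) (hP : Half f P) (hB : SBox f P b r S m₀) :
    ∀ n j : ℕ, j < f.natDegree ^ n → (∀ k < n, j % f.natDegree ^ k ∉ WsetS f P b r S k) →
      ∃ g, UnivS f P b r S n j g := by
  intro n
  induction n with
  | zero =>
    intro j hj _
    have hj0 : j = 0 := by simpa using hj
    subst hj0
    refine ⟨fun z => z, differentiableOn_id, fun z _ => rfl, fun u _ => ?_⟩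
    simp
  | succ n ih =>
    intro j hj hk
    have hDpos : 0 < f.natDegree ^ n := by positivity
    obtain ⟨g, hg⟩ := ih (j % f.natDegree ^ n) (Nat.mod_lt _ hDpos) (by
      intro k hkn
      rw [Nat.mod_mod_of_dvd j (pow_dvd_pow _ hkn.le)]
      exact hk k (by omega))
    have hcv : ∀ z ∈ Metric.ball b (2 * r), ∀ c, f.derivative.eval c = 0 → f.eval c ≠ g z := by
      intro z hz c hc h
      exact hk n (by omega) (mem_Wset.mpr ⟨Nat.mod_lt _ hDpos, g, hg, c, hc, z, hz, h.symm⟩)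
    obtain ⟨u₀, hu₀⟩ := hB.ne
    have hz₀ : P u₀ ∈ Metric.ball b (2 * r) := ball_sub hB.hr (hB.maps u₀ hu₀)
    obtain ⟨h, hh1, hh2, hh3⟩ := lift f b (2 * r) g hg.1 hcv (P u₀) hz₀
      (P ((u₀ + j * Complex.I) / (f.natDegree : ℂ) ^ (n + 1))) (by
        rw [semi_pow hd hP (hB.sub hu₀), hg.2.2 u₀ hu₀])
    refine ⟨h, hh1, ?_, ?_⟩
    · intro z hz
      rw [Function.iterate_succ_apply, hh2 z hz, hg.2.1 z hz]
    · have hPc : ContinuousOn P (S) := hP.diff.continuousOn.mono fun u hu => hB.sub hu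
      have := uniq f (S) (fun u => h (P u))
        (fun u => P ((u + j * Complex.I) / (f.natDegree : ℂ) ^ (n + 1)))
        (hB.pre)
        (hh1.continuousOn.comp hPc fun u hu => ball_sub hB.hr (hB.maps u hu))
        (hP.diff.continuousOn.comp (by fun_prop) fun u hu => div_mem_HP hd (hB.sub hu) j (n + 1))
        (by
          intro u hu
          rw [hh2 _ (ball_sub hB.hr (hB.maps u hu)), semi_pow hd hP (hB.sub hu), hg.2.2 u hu])
        (by
          intro u hu h0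
          exact hcv _ (ball_sub hB.hr (hB.maps u hu)) _ h0
            (hh2 _ (ball_sub hB.hr (hB.maps u hu)))) u₀ hu₀ hh3
      intro u hu
      exact this hu

open Classical in
/-- The indices with a large branch. -/
noncomputable def BsetS (f : ℂ[X]) (P : ℂ → ℂ) (b : ℂ) (r : ℝ) (S : Set ℂ) (δ : ℝ) (n : ℕ) : Finset ℕ :=
  (Finset.range (f.natDegree ^ n)).filter fun j => ∃ g, UnivS f P b r S n j g ∧
    ∃ z ∈ Metric.ball b r, ∃ z' ∈ Metric.ball b r, δ ≤ ‖g z - g z'‖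

theorem mem_Bset {δ : ℝ} {n j : ℕ} : j ∈ BsetS f P b r S δ n ↔ j < f.natDegree ^ n ∧
    ∃ g, UnivS f P b r S n j g ∧
    ∃ z ∈ Metric.ball b r, ∃ z' ∈ Metric.ball b r, δ ≤ ‖g z - g z'‖ := by
  simp [BsetS]

theorem Bset_card (hA : AreaStatement) (hd : 2 ≤ f.natDegree) (hP : Half f P)
    (hB : SBox f P b r S m₀) {δ : ℝ} (hδ : 0 < δ) :
    ∃ M : ℕ, ∀ n, (BsetS f P b r S δ n).card ≤ M := by
  obtain ⟨R, hR⟩ := exists_bound hd (‖b‖ + 2 * r)
  refine ⟨⌈4 * R ^ 2 / δ ^ 2⌉₊, fun n => ?_⟩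
  have hc : ∀ j ∈ BsetS f P b r S δ n, ∃ g, UnivS f P b r S n j g ∧
      ∃ z ∈ Metric.ball b r, ∃ z' ∈ Metric.ball b r, δ ≤ ‖g z - g z'‖ :=
    fun j hj => (mem_Bset.mp hj).2
  choose! g hg using hc
  have h1 := hA ℕ (BsetS f P b r S δ n) g b r R δ hB.hr hδ
    (fun i hi => (hg i hi).1.1)
    (fun i hi x hx y hy hxy => by
      have h2 := (hg i hi).1.2.1
      rw [← h2 x hx, ← h2 y hy, hxy])
    (fun i hi j hj hij => by
      rw [Set.disjoint_left]
      rintro _ ⟨x, hx, rfl⟩ ⟨y, hy, hxy⟩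
      exact hij (univ_disj hd hP hB (hg i hi).1 (hg j hj).1 (mem_Bset.mp hi).1
        (mem_Bset.mp hj).1 hx hy hxy.symm))
    (fun i hi z hz => by
      refine hR n _ ?_
      rw [(hg i hi).1.2.1 z hz]
      have h3 : ‖z - b‖ < 2 * r := by rwa [← dist_eq_norm, ← Metric.mem_ball]
      have h4 : ‖z‖ ≤ ‖z - b‖ + ‖b‖ := by
        have := norm_add_le (z - b) b
        simpa using this
      linarith)
    (fun i hi => (hg i hi).2)
  exact_mod_cast h1.trans (Nat.le_ceil _)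


theorem iter_eval (n : ℕ) (w : ℂ) : (f.comp^[n] X).eval w = (fun w => f.eval w)^[n] w := by
  rw [Polynomial.iterate_comp_eval]
  simp

/-- An inverse branch has no critical points. -/
theorem branch_deriv_ne {n : ℕ} {g : ℂ → ℂ} (hg : DifferentiableOn ℂ g (Metric.ball b (2 * r)))
    (hg2 : ∀ z ∈ Metric.ball b (2 * r), (fun w => f.eval w)^[n] (g z) = z) {y : ℂ}
    (hy : y ∈ Metric.ball b (2 * r)) : (f.comp^[n] X).derivative.eval (g y) ≠ 0 := by
  intro h0
  have hn : Metric.ball b (2 * r) ∈ 𝓝 y := Metric.isOpen_ball.mem_nhds hy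
  have hdg := ((hg y hy).differentiableAt hn).hasDerivAt
  have h1 : HasDerivAt (fun y => (f.comp^[n] X).eval (g y))
      ((f.comp^[n] X).derivative.eval (g y) * deriv g y) y :=
    ((f.comp^[n] X).hasDerivAt (g y)).comp y hdg
  have h2 : HasDerivAt (fun y : ℂ => y) ((f.comp^[n] X).derivative.eval (g y) * deriv g y) y := by
    refine h1.congr_of_eventuallyEq ?_
    filter_upwards [hn] with x hx
    rw [iter_eval, hg2 x hx]
  have h3 := h2.unique (hasDerivAt_id' y)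
  rw [h0, zero_mul] at h3
  exact zero_ne_one h3

end

section
variable {f : ℂ[X]} {P : ℂ → ℂ}

theorem re_ray (s t : ℝ) : ((s : ℂ) + t * Complex.I).re = s := by simp

theorem per_int (hP : Half f P) (n : ℤ) (u : ℂ) : P (u + n * Complex.I) = P u := by
  obtain ⟨k, rfl | rfl⟩ := n.eq_nat_or_neg
  · simpa using per_nat hP u k
  · have h := per_nat hP (u + ((-(k : ℤ) : ℤ) : ℂ) * Complex.I) k
    rw [← h]
    congr 1
    push_cast
    ring

theorem eval_not_mem {w : ℂ} (h : w ∈ filledJulia f) : f.eval w ∈ filledJulia f := by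
  obtain ⟨R, hR⟩ := h
  exact ⟨R, fun n => by simpa [Function.iterate_succ_apply] using hR (n + 1)⟩

theorem iter_not_mem (n : ℕ) {w : ℂ} (h : (fun w => f.eval w)^[n] w ∉ filledJulia f) :
    w ∉ filledJulia f := by
  induction n generalizing w with
  | zero => simpa using h
  | succ n ih =>
    rw [Function.iterate_succ_apply] at h
    exact fun hw => ih h (eval_not_mem hw)

theorem semi_iter (hd : 2 ≤ f.natDegree) (hP : Half f P) (n : ℕ) {u : ℂ} (hu : 0 < u.re) :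
    (fun w => f.eval w)^[n] (P u) = P ((f.natDegree : ℂ) ^ n * u) := by
  induction n with
  | zero => simp
  | succ n ih =>
    rw [Function.iterate_succ_apply', ih]
    have h1 : (0 : ℝ) < ((f.natDegree : ℂ) ^ n * u).re := by
      have : ((f.natDegree : ℂ) ^ n * u) = (((f.natDegree : ℝ) ^ n : ℝ) : ℂ) * u := by push_cast; rfl
      rw [this, Complex.re_ofReal_mul]
      positivity
    show f.eval (P _) = _
    rw [hP.semi _ h1]
    congr 1
    ring

theorem ray_div (s c : ℝ) (d n : ℕ) :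
    ((s : ℂ) + c * Complex.I) / (d : ℂ) ^ n =
      ((s / (d : ℝ) ^ n : ℝ) : ℂ) + ((c / (d : ℝ) ^ n : ℝ) : ℂ) * Complex.I := by
  push_cast
  ring

/-- A branch carries a ray to a ray. -/
theorem ray_of_branch (hd : 2 ≤ f.natDegree) (hP : Half f P) {z : ℂ} {r s₁ a : ℝ} (hr : 0 < r)
    (hs₁ : 0 < s₁) (hmaps : ∀ s : ℝ, 0 < s → s ≤ s₁ → P (s + a * Complex.I) ∈ Metric.ball z r)
    {n : ℕ} {g : ℂ → ℂ} (hg : DifferentiableOn ℂ g (Metric.ball z (2 * r)))
    (hg2 : ∀ y ∈ Metric.ball z (2 * r), (fun w => f.eval w)^[n] (g y) = y) :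
    ∃ m : ℤ, ∀ s : ℝ, 0 < s → s ≤ s₁ → g (P (s + a * Complex.I)) =
      P (((s : ℂ) + ((a + m : ℝ) : ℂ) * Complex.I) / (f.natDegree : ℂ) ^ n) := by
  have hne0 : (f.natDegree : ℂ) ≠ 0 := by exact_mod_cast (by omega : f.natDegree ≠ 0)
  have hne : (f.natDegree : ℂ) ^ n ≠ 0 := pow_ne_zero _ hne0
  have hball : ∀ s : ℝ, 0 < s → s ≤ s₁ → P (s + a * Complex.I) ∈ Metric.ball z (2 * r) :=
    fun s h1 h2 => ball_sub hr (hmaps s h1 h2)
  -- the index at the top
  have hmem : P (s₁ + a * Complex.I) ∉ filledJulia f := by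
    have h1 : P (s₁ + a * Complex.I) ∈ P '' HP := ⟨_, by simpa [HP] using hs₁, rfl⟩
    rw [hP.range] at h1
    exact h1
  have hv : g (P (s₁ + a * Complex.I)) ∉ filledJulia f := by
    refine iter_not_mem n ?_
    rw [hg2 _ (hball s₁ hs₁ le_rfl)]
    exact hmem
  have hv' : g (P (s₁ + a * Complex.I)) ∈ P '' HP := by rw [hP.range]; exact hv
  obtain ⟨u, hu, huv⟩ := hv'
  have h2 : P ((f.natDegree : ℂ) ^ n * u) = P (s₁ + a * Complex.I) := by
    rw [← semi_iter hd hP n hu, huv, hg2 _ (hball s₁ hs₁ le_rfl)]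
  have hdu : (f.natDegree : ℂ) ^ n * u ∈ HP := by
    show 0 < ((f.natDegree : ℂ) ^ n * u).re
    have : ((f.natDegree : ℂ) ^ n * u) = (((f.natDegree : ℝ) ^ n : ℝ) : ℂ) * u := by push_cast; rfl
    rw [this, Complex.re_ofReal_mul]
    have : 0 < u.re := hu
    positivity
  obtain ⟨m, hm⟩ := hP.inj _ hdu _ (by simpa [HP] using hs₁) h2
  refine ⟨m, ?_⟩
  have hu' : u = ((s₁ : ℂ) + ((a + m : ℝ) : ℂ) * Complex.I) / (f.natDegree : ℂ) ^ n := by
    rw [eq_div_iff hne, mul_comm, hm]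
    push_cast
    ring
  have hmemHP : ∀ s : ℝ, 0 < s →
      ((s : ℂ) + ((a + m : ℝ) : ℂ) * Complex.I) / (f.natDegree : ℂ) ^ n ∈ HP := by
    intro s hs
    rw [ray_div]
    show 0 < (((s / (f.natDegree : ℝ) ^ n : ℝ) : ℂ) + _).re
    rw [re_ray]
    positivity
  have key := uniq (f.comp^[n] X) ((fun s : ℝ => (s : ℂ)) '' Set.Ioc 0 s₁)
    (fun u => g (P (u + a * Complex.I)))
    (fun u => P ((u + ((a + m : ℝ) : ℂ) * Complex.I) / (f.natDegree : ℂ) ^ n))
    (isPreconnected_Ioc.image _ Complex.continuous_ofReal.continuousOn)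
    (by
      refine hg.continuousOn.comp (hP.diff.continuousOn.comp (by fun_prop) ?_) ?_
      · rintro _ ⟨s, hs, rfl⟩
        show 0 < ((s : ℂ) + a * Complex.I).re
        rw [re_ray]; exact hs.1
      · rintro _ ⟨s, hs, rfl⟩
        exact hball s hs.1 hs.2)
    (by
      refine hP.diff.continuousOn.comp (by fun_prop) ?_
      rintro _ ⟨s, hs, rfl⟩
      exact hmemHP s hs.1)
    (by
      rintro _ ⟨s, hs, rfl⟩
      show (f.comp^[n] X).eval (g (P (s + a * Complex.I))) = (f.comp^[n] X).eval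
        (P ((s + ((a + m : ℝ) : ℂ) * Complex.I) / (f.natDegree : ℂ) ^ n))
      rw [iter_eval, iter_eval, hg2 _ (hball s hs.1 hs.2), semi_iter hd hP n (hmemHP s hs.1),
        mul_div_cancel₀ _ hne, ← per_int hP m]
      congr 1
      push_cast
      ring)
    (by
      rintro _ ⟨s, hs, rfl⟩
      exact branch_deriv_ne hg hg2 (hball s hs.1 hs.2))
    s₁ ⟨s₁, ⟨hs₁, le_rfl⟩, rfl⟩ (by
      show g (P (s₁ + a * Complex.I)) = P ((s₁ + ((a + m : ℝ) : ℂ) * Complex.I) / _)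
      rw [← hu', huv])
  intro s h1 h3
  exact key ⟨s, ⟨h1, h3⟩, rfl⟩

theorem land_of_branch {z : ℂ} {r s₁ a : ℝ} (hd : 2 ≤ f.natDegree) (hr : 0 < r)
    (hs₁ : 0 < s₁) {n : ℕ} {g : ℂ → ℂ} (hg : DifferentiableOn ℂ g (Metric.ball z (2 * r)))
    (hz : Land P a z) {c : ℝ}
    (hc : ∀ s : ℝ, 0 < s → s ≤ s₁ → g (P (s + a * Complex.I)) =
      P (((s : ℂ) + (c : ℂ) * Complex.I) / (f.natDegree : ℂ) ^ n)) :
    Land P (c / (f.natDegree : ℝ) ^ n) (g z) := by
  have hD : (0 : ℝ) < (f.natDegree : ℝ) ^ n := by positivity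
  have hgz : ContinuousAt g z :=
    (hg.continuousOn).continuousAt (Metric.ball_mem_nhds z (by linarith))
  have h1 : Tendsto (fun s : ℝ => s * (f.natDegree : ℝ) ^ n) (𝓝[>] 0) (𝓝[>] 0) := by
    refine tendsto_nhdsWithin_iff.mpr ⟨?_, ?_⟩
    · have : Tendsto (fun s : ℝ => s * (f.natDegree : ℝ) ^ n) (𝓝 0)
          (𝓝 (0 * (f.natDegree : ℝ) ^ n)) := (continuous_id.mul continuous_const).tendsto 0
      rw [zero_mul] at this
      exact this.mono_left nhdsWithin_le_nhds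
    · filter_upwards [self_mem_nhdsWithin] with s hs
      exact mul_pos hs hD
  have h2 : Tendsto (fun s : ℝ => g (P (((s * (f.natDegree : ℝ) ^ n : ℝ) : ℂ) + a * Complex.I)))
      (𝓝[>] 0) (𝓝 (g z)) := (hgz.tendsto.comp hz).comp h1
  refine h2.congr' ?_
  have h3 : ∀ᶠ s : ℝ in 𝓝[>] 0, s * (f.natDegree : ℝ) ^ n ∈ Set.Ioc 0 s₁ := by
    refine h1.eventually ?_
    exact Ioc_mem_nhdsGT hs₁
  filter_upwards [h3] with s hs
  rw [hc _ hs.1 hs.2, ray_div, mul_div_cancel_right₀ _ hD.ne']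

end

end Uns83

open Uns83 in
/-- Row UNS. -/
theorem uns (hA : AreaStatement) : UnsStatement := by
  intro f P hd hP m₀ a b z ha hb _ hcrit
  classical
  -- the radius
  have hfin : ({y | ∃ c, f.derivative.eval c = 0 ∧ ∃ k < m₀,
      (fun w => f.eval w)^[k + 1] c = y} : Set ℂ).Finite := by
    refine (((f.derivative.roots.toFinset ×ˢ Finset.range m₀).image
      fun p : ℂ × ℕ => (fun w => f.eval w)^[p.2 + 1] p.1).finite_toSet).subset ?_
    rintro y ⟨c, hc, k, hk, rfl⟩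
    simp only [Finset.coe_image, Set.mem_image, Finset.mem_coe, Finset.mem_product,
      Finset.mem_range, Multiset.mem_toFinset, Prod.exists]
    exact ⟨c, k, ⟨(Polynomial.mem_roots (derivative_ne hd)).mpr hc, hk⟩, rfl⟩
  have hopen : {y | ∃ c, f.derivative.eval c = 0 ∧ ∃ k < m₀,
      (fun w => f.eval w)^[k + 1] c = y}ᶜ ∈ 𝓝 z := by
    refine hfin.isClosed.isOpen_compl.mem_nhds ?_
    rintro ⟨c, hc, k, hk, h⟩
    exact hcrit c hc k hk h
  obtain ⟨ρ, hρ, hρs⟩ := Metric.mem_nhds_iff.mp hopen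
  set r := ρ / 2 with hr_def
  have hr : 0 < r := by positivity
  have h2r : 2 * r = ρ := by rw [hr_def]; ring
  have hcr : ∀ c, f.derivative.eval c = 0 → ∀ k < m₀,
      (fun w => f.eval w)^[k + 1] c ∉ Metric.ball z (2 * r) := by
    intro c hc k hk h
    rw [h2r] at h
    exact hρs h ⟨c, hc, k, hk, rfl⟩
  have hev : ∀ᶠ s : ℝ in 𝓝[>] 0, P (s + a * Complex.I) ∈ Metric.ball z r ∧
      P (s + b * Complex.I) ∈ Metric.ball z r :=
    (ha.eventually (Metric.ball_mem_nhds z hr)).and (hb.eventually (Metric.ball_mem_nhds z hr))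
  obtain ⟨s₀, hs₀, hs₀'⟩ := mem_nhdsGT_iff_exists_Ioo_subset.mp hev
  set s₁ := s₀ / 2 with hs₁_def
  have hs₀p : 0 < s₀ := hs₀
  have hs₁ : 0 < s₁ := by positivity
  have hmap : ∀ s : ℝ, 0 < s → s ≤ s₁ → P (s + a * Complex.I) ∈ Metric.ball z r ∧
      P (s + b * Complex.I) ∈ Metric.ball z r := fun s h1 h2 =>
    hs₀' ⟨h1, by linarith [hs₁_def]⟩
  let S : Set ℂ := (fun s : ℝ => (s : ℂ) + a * Complex.I) '' Set.Ioc 0 s₁
  have hB : SBox f P z r S m₀ :=
    { hr := hr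
      ne := ⟨_, s₁, ⟨hs₁, le_rfl⟩, rfl⟩
      pre := isPreconnected_Ioc.image _ (by fun_prop)
      sub := by
        rintro _ ⟨s, hs, rfl⟩
        rw [re_ray]; exact hs.1
      maps := by
        rintro _ ⟨s, hs, rfl⟩
        exact (hmap s hs.1 hs.2).1
      crit := hcr }
  refine ⟨s₁, WsetS f P z r S, hs₁, fun k hk => Wset_empty hB hk, fun k => Uns83.Wset_card hd hP hB k, ?_⟩
  intro δ hδ
  obtain ⟨M, hM⟩ := Uns83.Bset_card hA hd hP hB hδ
  refine ⟨M, BsetS f P z r S δ, hM, fun n => ?_⟩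
  have hD : (0 : ℝ) < (f.natDegree : ℝ) ^ n := by positivity
  have hg : ∀ j : ℕ, j < f.natDegree ^ n → Reg f.natDegree (WsetS f P z r S) n j →
      ∃ g, UnivS f P z r S n j g := fun j hj hr => Uns83.exists_univ hd hP hB n j hj hr
  choose! g hg using hg
  have hz2 : z ∈ Metric.ball z (2 * r) := Metric.mem_ball_self (by linarith)
  refine ⟨fun j => g j z, ?_, ?_⟩
  · intro i j hi hj hri hrj h
    exact Uns83.univ_disj hd hP hB (hg i hi hri) (hg j hj hrj) hi hj hz2 hz2 h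
  · intro j hj hrj
    obtain ⟨hg1, hg2, hg3⟩ := hg j hj hrj
    obtain ⟨m, hm⟩ := ray_of_branch hd hP hr hs₁ (fun s h1 h2 => (hmap s h1 h2).2) hg1 hg2
    have hja : ∀ s : ℝ, 0 < s → s ≤ s₁ → g j (P (s + a * Complex.I)) =
        P (((s : ℂ) + ((a + j : ℝ) : ℂ) * Complex.I) / (f.natDegree : ℂ) ^ n) := by
      intro s h1 h2
      rw [hg3 _ ⟨s, ⟨h1, h2⟩, rfl⟩]
      congr 2
      push_cast
      ring
    refine ⟨m, ?_, ?_, ?_⟩
    · exact land_of_branch hd hr hs₁ hg1 ha hja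
    · exact land_of_branch hd hr hs₁ hg1 hb hm
    · intro hjB s hs hs'
      have hsm : ∀ y ∈ Metric.ball z r, ∀ y' ∈ Metric.ball z r, ‖g j y - g j y'‖ ≤ δ := by
        intro y hy y' hy'
        by_contra hcon
        exact hjB (Uns83.mem_Bset.mpr ⟨hj, g j, hg j hj hrj, y, hy, y', hy', (not_le.mp hcon).le⟩)
      have hpos : 0 < s * (f.natDegree : ℝ) ^ n := mul_pos hs hD
      have h4 := hja _ hpos hs'
      have h5 := hm _ hpos hs'
      rw [ray_div, mul_div_cancel_right₀ _ hD.ne'] at h4 h5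
      rw [← h4, ← h5]
      exact ⟨hsm _ (hmap _ hpos hs').1 _ (Metric.mem_ball_self hr),
        hsm _ (hmap _ hpos hs').2 _ (Metric.mem_ball_self hr)⟩

end Pool.Agent.Imp
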