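import Pool.Agent.Lib.MP_1c105c_an.Main
import Pool.Agent.Lib.MP_1c105c_an.Main2
import Pool.Agent.Lib.MP_1c105c_an.Main3
import Pool.Agent.Lib.MP_1c105c_an.Main4
import Pool.Agent.Lib.MP_1c105c_an.Main5
import Pool.Agent.Lib.MP_1c105c_an.Bai
import Pool.Agent.Lib.MP_1c105c_an.Res
import Pool.Agent.Lib.MP_1c105c_an.Area
import Pool.Agent.Lib.MP_1c105c_an.Count
import Pool.Agent.Lib.MP_1c105c_an.Hau
import Pool.Agent.Lib.MP_1c105c_an.Dim
import Pool.Agent.Lib.MP_1c105c_an.Exa
import Pool.Agent.Lib.MP_1c105c_an.Int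
import Pool.Agent.Lib.MP_1c105c_an.App
import Pool.Agent.Lib.MP_1c105c_an.Cro
import Pool.Agent.Lib.MP_1c105c_an.Lgk
import Pool.Agent.Lib.MP_1c105c_an.Jan
import Pool.Agent.Lib.MP_1c105c_an.Cik
import Pool.Agent.Lib.MP_1c105c_an.Impr
import Pool.Agent.Lib.MP_1c105c_an.Sml
import Pool.Agent.Lib.MP_1c105c_an.Lpb
import Pool.Agent.Lib.MP_1c105c_an.Bin
import Pool.Agent.Lib.MP_1c105c_an.Uns
import Pool.Agent.Lib.MP_1c105c_an.Nc
import Pool.Agent.Lib.MP_1c105c_an.Cnt
import Pool.Agent.Lib.MP_1c105c_an.Sho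
import Pool.Agent.Lib.MP_1c105c_an.Len
import Pool.Agent.Lib.MP_1c105c_an.Hyp
import Pool.Agent.Lib.MP_1c105c_an.Jac
import Pool.Agent.Lib.MP_1c105c_an.Bia
import Pool.Agent.Lib.MP_1c105c_an.Rju
import Pool.Agent.Lib.MP_1c105c_an.Koe
import Pool.Agent.Lib.MP_1c105c_an.Psi
import Pool.Agent.Lib.MP_1c105c_an.Ene
import Pool.Agent.Lib.MP_1c105c_an.Jmp
import Pool.Agent.Lib.MP_1c105c_an.Crs
import Pool.Agent.Lib.MP_1c105c_an.Lim
import Pool.Agent.Lib.MP_1c105c_an.Nci
import Pool.Agent.Lib.MP_1c105c_an.Dep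
import Pool.Agent.Lib.MP_1c105c_an.Pul
import Pool.Agent.Lib.MP_1c105c_an.Quad
import Pool.Agent.Lib.MP_1c105c_an.Crxd
import Pool.Agent.Lib.MP_1c105c_an.Rotd
import Pool.Agent.Lib.MP_1c105c_an.Spad

/-! MP_1c105c_an: the zero-one law (fifth form) and the separation theorem for unicritical
polynomials with small cycles, without hypotheses. -/

set_option autoImplicit false

open Filter Topology Set Polynomial

namespace Pool.Agent.Imp

namespace Sc

theorem tar2 : Target2 :=
  main2 half bai (exc inv) inf jul (loc jul) (abs2 (exc inv) inv area jul (exa jul) int)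
    (den half jul) (dim count hau)
    (main half inv bai (res inv) (abs (exc inv) inv area) (dim count hau))

theorem tar3 : Target3 :=
  main3 half inf (sml inv) (cik jul (app jul) cro (lgk jul) jan) (imp half) tar2

theorem bia0 : BiaStatement :=
  bia (bin lpb jul) (uns area) (nc jul (lgk jul)) cnt64
    (sho (bin lpb jul) (uns area) (nc jul (lgk jul)) cnt64) len hyp64 (jac jul (lgk jul) jan)

theorem tar5 : Target5 :=
  main5 tar2 (main4 tar2 tar3 half inf (sml inv) bia0) half (sml inv)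

theorem dep0 : DepStatement := dep rju koe (psi (app jul) hyp64 jul) ene

theorem spad0 : SpadStatement := spad rotd dep0 (pul deg) (crxd (crs jmp) quad)

end Sc

end Pool.Agent.Imp
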