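import Pool.Agent.Lib.MP_1c105c_an.Defs15
import Pool.Agent.Lib.MP_1c105c_an.Spap

/-! MP_1c105c_an: the separation theorem for accumulation points of rays (SPAA). -/

set_option autoImplicit false

open Filter Topology Set Polynomial

namespace Pool.Agent.Imp

theorem acc_add {P : ℂ → ℂ} (hper : ∀ u : ℂ, P (u + Complex.I) = P u) {s : ℝ} {w : ℂ} (m : ℤ)
    (h : w ∈ Acc P (s + m)) : w ∈ Acc P s := by
  have hP : ∀ (m : ℤ) (u : ℂ), P (u + m * Complex.I) = P u := by
    intro m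
    induction m using Int.induction_on with
    | zero => intro u; simp
    | succ i ih =>
      intro u
      have e : u + ((i : ℤ) + 1 : ℤ) * Complex.I = u + (i : ℤ) * Complex.I + Complex.I := by
        push_cast
        ring
      rw [e, hper, ih]
    | pred i ih =>
      intro u
      have e : u + (-(i : ℤ) - 1 : ℤ) * Complex.I + Complex.I = u + (-(i : ℤ) : ℤ) * Complex.I := by
        push_cast
        ring
      rw [← hper, e, ih]
  have e : (fun x : ℝ => P (x + s * Complex.I)) =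
      fun x : ℝ => P (x + ((s + m : ℝ) : ℂ) * Complex.I) := by
    funext x
    rw [← hP m]
    congr 1
    push_cast
    ring
  show MapClusterPt w (𝓝[>] (0 : ℝ)) fun x : ℝ => P (x + s * Complex.I)
  rw [e]
  exact h

/-- Accumulation points are mapped to accumulation points. -/
theorem acc_map {f : ℂ[X]} {P : ℂ → ℂ} (hd : 2 ≤ f.natDegree) (hP : Half f P) {s : ℝ} {w : ℂ}
    (h : w ∈ Acc P s) : f.eval w ∈ Acc P (f.natDegree * s) := by
  have hd0 : (0 : ℝ) < f.natDegree := by exact_mod_cast (show 0 < f.natDegree by omega)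
  have h1 : MapClusterPt (f.eval w) (𝓝[>] (0 : ℝ))
      (fun x : ℝ => f.eval (P (x + s * Complex.I))) :=
    h.continuousAt_comp f.continuous.continuousAt
  have h2 : Tendsto (fun x : ℝ => (f.natDegree : ℝ) * x) (𝓝[>] 0) (𝓝[>] 0) := by
    refine tendsto_nhdsWithin_iff.2 ⟨?_, ?_⟩
    · have hc : Continuous fun x : ℝ => (f.natDegree : ℝ) * x := by fun_prop
      have := hc.tendsto 0
      rw [mul_zero] at this
      exact this.mono_left nhdsWithin_le_nhds
    · filter_upwards [self_mem_nhdsWithin] with x hx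
      have hx' : (0 : ℝ) < x := hx
      exact mul_pos hd0 hx'
  have h3 : MapClusterPt (f.eval w) (𝓝[>] (0 : ℝ))
      ((fun x : ℝ => P (x + ((f.natDegree * s : ℝ) : ℂ) * Complex.I)) ∘
        fun x : ℝ => (f.natDegree : ℝ) * x) := by
    refine h1.congrFun ?_
    filter_upwards [self_mem_nhdsWithin] with x hx
    have hx' : (0 : ℝ) < x := hx
    have hu : (x : ℂ) + s * Complex.I ∈ HP := by
      show 0 < ((x : ℂ) + s * Complex.I).re
      simpa using hx'
    show f.eval (P (x + s * Complex.I)) = _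
    rw [hP.semi _ hu]
    show P _ = P _
    congr 1
    push_cast
    ring
  exact MapClusterPt.of_comp h2 h3

theorem acc_iter {f : ℂ[X]} {P : ℂ → ℂ} (hd : 2 ≤ f.natDegree) (hP : Half f P) {s : ℝ} {w : ℂ}
    (h : w ∈ Acc P s) (n : ℕ) :
    (fun w => f.eval w)^[n] w ∈ Acc P ((f.natDegree : ℝ) ^ n * s) := by
  induction n with
  | zero => simpa using h
  | succ n ih =>
    rw [Function.iterate_succ_apply', pow_succ', mul_assoc]
    exact acc_map hd hP ih

theorem acc_pull (acp : AcpStatement) {f : ℂ[X]} {P : ℂ → ℂ} (hd : 2 ≤ f.natDegree)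
    (hP : Half f P) (n : ℕ) : ∀ (s : ℝ) (w w' : ℂ), w ∈ Acc P s →
      (fun w => f.eval w)^[n] w' = w → ∃ (s' : ℝ) (m : ℤ), (f.natDegree : ℝ) ^ n * s' = s + m ∧
      w' ∈ Acc P s' := by
  induction n with
  | zero =>
    intro s w w' hw hw'
    refine ⟨s, 0, by simp, ?_⟩
    have : w' = w := hw'
    rw [this]
    exact hw
  | succ n ih =>
    intro s w w' hw hw'
    rw [Function.iterate_succ_apply'] at hw'
    obtain ⟨s₁, m₁, h1, h2⟩ := acp f P hd hP s w ((fun w => f.eval w)^[n] w') hw hw'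
    obtain ⟨s₂, m₂, h3, h4⟩ := ih s₁ _ w' h2 rfl
    refine ⟨s₂, m₁ + f.natDegree * m₂, ?_, h4⟩
    push_cast
    rw [pow_succ', mul_assoc, h3]
    linear_combination h1

/-- SPAA. -/
theorem spaa (rotp : RotpStatement) (pul : PulStatement) (crxa : CrxaStatement)
    (acp : AcpStatement) (acf : AcfStatement) {f : ℂ[X]}
    {P : ℂ → ℂ} (hd : 2 ≤ f.natDegree) (hP : Half f P)
    (hinf : ∀ R : ℝ, ∃ M : ℝ, ∀ u : ℂ, M ≤ u.re → R ≤ ‖P u‖) {α c : ℂ} {p : ℕ} (hp : 1 ≤ p)
    (hα : (fun w => f.eval w)^[p] α = α)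
    (hsm : RayCyclesP f P α) (hc : ∀ z, f.derivative.eval z = 0 → z = c) {E : Set ℂ} {n : ℕ}
    {s : ℝ} {w : ℂ} (hE : IsCompact E) (hEp : IsPreconnected E) (hEK : E ⊆ filledJulia f)
    (hcE : (fun w => f.eval w)^[n + 1] c ∈ E) (hwE : w ∈ E) (hs : w ∈ Acc P s) :
    ∃ j, (fun w => f.eval w)^[j] α ∈ E ∨ (fun w => f.eval w)^[j] α ∈ Acc P s := by
  by_contra hcon
  push Not at hcon
  have hαE : ∀ j : ℕ, (fun w => f.eval w)^[j] α ∉ E := fun j => (hcon j).1
  have hαA : ∀ j : ℕ, (fun w => f.eval w)^[j] α ∉ Acc P s := fun j => (hcon j).2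
  have hF : 1 ≤ (Nr.It f n).natDegree := by
    rw [Nr.it_deg]
    exact Nat.one_le_pow _ _ (by omega)
  -- the pull back that contains the critical value
  obtain ⟨E', hE'c, hE'p, hcE', hmap, w', hw'E, hw'⟩ := pul (Nr.It f n) E (f.eval c) w hF hE hEp
    (by
      rw [Nr.it_eval]
      rw [Function.iterate_succ_apply] at hcE
      exact hcE) hwE
  rw [Nr.it_eval] at hw'
  obtain ⟨s', m', hsm', hs'⟩ := acc_pull acp hd hP n s w w' hs hw'
  have hE'K : E' ⊆ filledJulia f := fun z hz => by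
    have h1 := hEK (hmap z hz)
    rw [Nr.it_eval] at h1
    exact (Uco.iter_filled n z).1 h1
  have hαE' : ∀ j : ℕ, (fun w => f.eval w)^[j] α ∉ E' := fun j h => by
    have h1 := hmap _ h
    rw [Nr.it_eval, ← Function.iterate_add_apply] at h1
    exact hαE _ h1
  have hαA' : ∀ j : ℕ, (fun w => f.eval w)^[j] α ∉ Acc P s' := fun j h => by
    have h1 := acc_iter hd hP h n
    rw [hsm', ← Function.iterate_add_apply] at h1
    exact hαA _ (acc_add hP.per m' h1)
  have hαK := per_mem hp hα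
  -- the discs
  have hdisc : ∀ j : ℕ, ∃ r : ℝ, 0 < r ∧
      (∀ z ∈ Metric.ball ((fun w => f.eval w)^[j] α) r, f.eval z ∉ E') ∧
      ∀ z ∈ Metric.ball ((fun w => f.eval w)^[j] α) r, ∀ x : ℝ, 0 < x →
        f.eval z ≠ P (x + s' * Complex.I) := by
    intro j
    have hj : f.eval ((fun w => f.eval w)^[j] α) = (fun w => f.eval w)^[j + 1] α := by
      rw [Function.iterate_succ_apply']
    obtain ⟨ρ, hρ, hρ'⟩ := acf f P hd hP hinf ((fun w => f.eval w)^[j + 1] α) s'
      ((Uco.iter_filled (j + 1) α).2 hαK) (hαA' (j + 1))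
    obtain ⟨ρ₁, hρ₁, hρ₁'⟩ := Metric.isOpen_iff.1 hE'c.isClosed.isOpen_compl _ (hαE' (j + 1))
    have hcont : ContinuousAt (fun z => f.eval z) ((fun w => f.eval w)^[j] α) :=
      f.continuous.continuousAt
    obtain ⟨r, hr, hr'⟩ := Metric.continuousAt_iff.1 hcont (min ρ ρ₁) (lt_min hρ hρ₁)
    rw [hj] at hr'
    refine ⟨r, hr, fun z hz hz' => ?_, fun z hz x hx hz' => ?_⟩
    · exact hρ₁' ((hr' hz).trans_le (min_le_right _ _)) hz'
    · refine hρ' x hx ?_
      rw [← hz']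
      exact (hr' hz).trans_le (min_le_left _ _)
  choose R hR hD1 hD2 using hdisc
  obtain ⟨r, hr, hrR⟩ : ∃ r : ℝ, 0 < r ∧ ∀ j < p, r ≤ R j := by
    obtain ⟨j₀, -, hmin⟩ := Finset.exists_min_image (Finset.range p) R
      ⟨0, Finset.mem_range.2 (by omega)⟩
    exact ⟨R j₀, hR j₀, fun j hj => hmin j (Finset.mem_range.2 hj)⟩
  have hcrx : ∀ j : ℕ, ∃ b : ℝ, ∀ (t : ℝ) (z : ℂ),
      z ∈ Metric.ball ((fun w => f.eval w)^[j] α) (R j) → Land P t z →
      0 < Int.fract (t - b) ∧ Int.fract (t - b) < 1 / f.natDegree := fun j =>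
    crxa f P hd hP hinf c w' s' E' (Metric.ball ((fun w => f.eval w)^[j] α) (R j)) hc hE'p hE'K
      hcE' hw'E hs' Metric.isOpen_ball (convex_ball _ _).isPreconnected (hD1 j) (hD2 j)
  choose b hb using hcrx
  -- the cycles
  have hcyc : ∀ ε : {ε : ℝ // 0 < ε}, ∃ (z : ℂ) (t : ℝ) (n : ℕ) (m : ℤ) (δ : ℝ), 1 ≤ n ∧
      (f.natDegree : ℝ) ^ n * t = t + m ∧ Land P t z ∧ 0 < δ ∧
      (∀ k : ℕ, ‖(fun w => f.eval w)^[k] z - (fun w => f.eval w)^[k] α‖ < ε) ∧
      ∀ k : ℕ, δ ≤ ‖(fun w => f.eval w)^[k] z - (fun w => f.eval w)^[k] α‖ := by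
    rintro ⟨ε, hε⟩
    obtain ⟨z, t, n, m, hn, ht, hl, hne, hk⟩ := hsm ε hε
    obtain ⟨δ, hδ, hδk⟩ := per_apart hp hn hα (land_per hd hP ht hl) hne
    exact ⟨z, t, n, m, δ, hn, ht, hl, hδ, hk, hδk⟩
  choose z t q m δ hq ht hl hδ hk hδk using hcyc
  let e : ℕ → {ε : ℝ // 0 < ε} := fun i => Nat.rec ⟨r, hr⟩
    (fun _ x => ⟨min x.1 (δ x), lt_min x.2 (hδ x)⟩) i
  have he0 : (e 0).1 = r := rfl
  have hes : ∀ i, (e (i + 1)).1 = min (e i).1 (δ (e i)) := fun i => rfl
  have hanti : ∀ i j, i ≤ j → (e j).1 ≤ (e i).1 := by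
    intro i j hij
    induction j, hij using Nat.le_induction with
    | base => exact le_rfl
    | succ j _ ih =>
      rw [hes]
      exact (min_le_left _ _).trans ih
  have hlt : ∀ i j, i < j → (e j).1 ≤ δ (e i) := by
    intro i j hij
    refine (hanti (i + 1) j hij).trans ?_
    rw [hes]
    exact min_le_right _ _
  obtain ⟨i, j, N, k, hij, hjp, hN⟩ := rotp f.natDegree p (fun j => b (j % p))
    (fun i => t (e i)) (fun i => q (e i)) (fun i => m (e i)) hd hp (fun j => by simp)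
    (fun i => ⟨hq (e i), ht (e i)⟩) (fun i k => by
      have h1 := land_iter hd hP (hl (e i)) k
      have h2 := hk (e i) k
      refine hb (k % p) _ _ ?_ h1
      rw [mem_ball_iff_norm, ← per_mod hα k]
      refine h2.trans_le (((hanti 0 i (Nat.zero_le _)).trans (le_of_eq he0)).trans
        (hrR (k % p) (Nat.mod_lt _ (by omega)))))
  have h1 := land_iter hd hP (hl (e i)) (N * p)
  rw [hN] at h1
  have h2 := Rep.land_unique (Rep.land_add hP.per k h1) (hl (e j))
  have h3 := hδk (e i) (N * p)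
  have h4 : (fun w => f.eval w)^[N * p] α = α := by
    rw [mul_comm, Function.iterate_mul, Function.iterate_fixed hα]
  rw [h2, h4] at h3
  have h5 := hk (e j) 0
  simp only [Function.iterate_zero, id_eq] at h5
  have h6 := hlt i j hij
  linarith

end Pool.Agent.Imp
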