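import Pool.Agent.Lib.MP_1c105c_an.Scp
import Pool.Agent.Lib.MP_1c105c_an.Spaa
import Pool.Agent.Lib.MP_1c105c_an.Imo
import Pool.Agent.Lib.MP_1c105c_an.Acp
import Pool.Agent.Lib.MP_1c105c_an.Acf
import Pool.Agent.Lib.MP_1c105c_an.Acl
import Pool.Agent.Lib.MP_1c105c_an.Crxa
import Pool.Agent.Lib.MP_1c105c_an.Ims

/-! MP_1c105c_an: rays that accumulate at the orbit of the critical value, without hypotheses. -/

set_option autoImplicit false

open Filter Topology Set Polynomial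

namespace Pool.Agent.Imp

namespace Sc

/-- The separation theorem for accumulation points of rays. -/
theorem spaa0 {f : ℂ[X]} {P : ℂ → ℂ} (hd : 2 ≤ f.natDegree) (hP : Half f P)
    (hinf : ∀ R : ℝ, ∃ M : ℝ, ∀ u : ℂ, M ≤ u.re → R ≤ ‖P u‖) {α c : ℂ} {p : ℕ} (hp : 1 ≤ p)
    (hα : (fun w => f.eval w)^[p] α = α) (hsm : NearCycles f α)
    (hc : ∀ z, f.derivative.eval z = 0 → z = c) {E : Set ℂ} {n : ℕ} {s : ℝ} {w : ℂ}
    (hE : IsCompact E) (hEp : IsPreconnected E) (hEK : E ⊆ filledJulia f)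
    (hcE : (fun w => f.eval w)^[n + 1] c ∈ E) (hwE : w ∈ E) (hs : w ∈ Acc P s) :
    ∃ j, (fun w => f.eval w)^[j] α ∈ E ∨ (fun w => f.eval w)^[j] α ∈ Acc P s :=
  spaa rotp (pul deg) (crxa (crs jmp) quad) acp acf hd hP hinf hp hα
    (rays_of_near dep0 hd hP hinf hp hα hsm) hc hE hEp hEK hcE hwE hs

variable {f : ℂ[X]} {ψ : ℂ → ℂ} {α c : ℂ} {p : ℕ}

/-- The separation theorem for accumulation sets of rays. -/
theorem acc_sep (hd : 2 ≤ f.natDegree) (hψ : IsInverseBoettcher f ψ) (hp : 1 ≤ p)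
    (hα : (fun w => f.eval w)^[p] α = α) (hsm : NearCycles f α)
    (hc : ∀ z, f.derivative.eval z = 0 → z = c) (E : Set ℂ) (n : ℕ) (θ : ℝ) (hE : IsClosed E)
    (hEp : IsPreconnected E) (hEK : E ⊆ filledJulia f)
    (hcE : (fun w => f.eval w)^[n + 1] c ∈ E) (hθ : accumulation ψ θ ⊆ E) :
    ∃ j : ℕ, (fun w => f.eval w)^[j] α ∈ E := by
  obtain ⟨hP, -, -⟩ := half f ψ hd hψ
  obtain ⟨hKc, hKb, -⟩ := jul f _ hd hP
  obtain ⟨w, hw⟩ := (I64.acn f ψ hd hψ θ).1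
  obtain ⟨j, hj⟩ := spaa0 hd hP (inf f ψ hψ) hp hα hsm hc
    (Metric.isCompact_of_isClosed_isBounded hE (hKb.subset hEK)) hEp hEK hcE (hθ hw)
    ((acl ψ θ w).1 hw)
  exact ⟨j, hj.elim id fun h => hθ ((acl ψ θ _).2 h)⟩

/-- A ray that accumulates at the critical orbit accumulates at the cycle. -/
theorem acc_mem (hd : 2 ≤ f.natDegree) (hψ : IsInverseBoettcher f ψ) (hp : 1 ≤ p)
    (hα : (fun w => f.eval w)^[p] α = α) (hsm : NearCycles f α)
    (hc : ∀ z, f.derivative.eval z = 0 → z = c) {n : ℕ} {θ : ℝ}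
    (h : (fun w => f.eval w)^[n + 1] c ∈ accumulation ψ θ) :
    ∃ j : ℕ, (fun w => f.eval w)^[j] α ∈ accumulation ψ θ := by
  obtain ⟨hP, -, -⟩ := half f ψ hd hψ
  obtain ⟨hKc, hKb, -⟩ := jul f _ hd hP
  obtain ⟨j, hj⟩ := spaa0 hd hP (inf f ψ hψ) hp hα hsm hc (isCompact_singleton
    (x := (fun w => f.eval w)^[n + 1] c)) isPreconnected_singleton
    (by
      rw [Set.singleton_subset_iff]
      exact hKc.frontier_subset (impression_julia hψ θ ((I64.acn f ψ hd hψ θ).2 h))) rfl rfl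
    ((acl ψ θ _).1 h)
  refine ⟨j, ?_⟩
  rcases hj with hj | hj
  · rw [Set.mem_singleton_iff.1 hj]
    exact h
  · exact (acl ψ θ _).2 hj

/-- An impression that meets the critical orbit meets the cycle. -/
theorem imp_mem (hd : 2 ≤ f.natDegree) (hψ : IsInverseBoettcher f ψ) (hp : 1 ≤ p)
    (hα : (fun w => f.eval w)^[p] α = α) (hsm : NearCycles f α)
    (hc : ∀ z, f.derivative.eval z = 0 → z = c) {n : ℕ} {θ : ℝ}
    (h : (fun w => f.eval w)^[n + 1] c ∈ impression ψ θ) :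
    ∃ j : ℕ, (fun w => f.eval w)^[j] α ∈ impression ψ θ := by
  obtain ⟨hP, -, -⟩ := half f ψ hd hψ
  obtain ⟨hKc, hKb, -⟩ := jul f _ hd hP
  exact acc_sep hd hψ hp hα hsm hc _ n θ (Orb94.impression_closed ψ θ) (I64.imc f ψ hd hψ θ)
    (fun z hz => hKc.frontier_subset (impression_julia hψ θ hz)) h (I64.acn f ψ hd hψ θ).2

/-- The points of the Julia set in the closure of the critical orbit lie in impressions that meet
the cycle. -/
theorem post_mem (hd : 2 ≤ f.natDegree) (hψ : IsInverseBoettcher f ψ) (hp : 1 ≤ p)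
    (hα : (fun w => f.eval w)^[p] α = α) (hsm : NearCycles f α)
    (hc : ∀ z, f.derivative.eval z = 0 → z = c) {y : ℂ} (hy : y ∈ closure (postcritical f))
    (hyJ : y ∈ julia f) :
    ∃ θ : ℝ, y ∈ impression ψ θ ∧ ∃ j : ℕ, (fun w => f.eval w)^[j] α ∈ impression ψ θ := by
  obtain ⟨hP, -, -⟩ := half f ψ hd hψ
  exact post_imp I64.imc I64.imj I64.ims I64.acn hd hψ hp hα
    (cyc_julia hd hP (rays_of_near dep0 hd hP (inf f ψ hψ) hp hα hsm)) hc
    (acc_sep hd hψ hp hα hsm hc) hy hyJ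

end Sc

end Pool.Agent.Imp
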