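import Pool.Agent.Lib.MP_1c105c_an.Defs18
import Pool.Agent.Lib.MP_1c105c_an.Spaa
import Pool.Agent.Lib.MP_1c105c_an.Ptw
import Pool.Agent.Lib.MP_1c105c_an.Thr

/-! MP_1c105c_an: the separation theorem for several critical points (SPAG). -/

set_option autoImplicit false

open Filter Topology Set Polynomial

namespace Pool.Agent.Imp

namespace Spag

open Thr58

variable {f : ℂ[X]} {P : ℂ → ℂ}

/-- The open ray. -/
def R0 (P : ℂ → ℂ) (s : ℝ) : Set ℂ := (fun x : ℝ => P (x + s * Complex.I)) '' Ioi 0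

theorem r0_pre (hP : Half f P) (s : ℝ) : IsPreconnected (R0 P s) :=
  isPreconnected_Ioi.image _ (ray_cont hP s)

theorem acc_closure {s : ℝ} {w : ℂ} (h : w ∈ Acc P s) : w ∈ closure (R0 P s) := by
  have h' : MapClusterPt w (𝓝[>] (0 : ℝ)) fun x : ℝ => P (x + s * Complex.I) := h
  rw [mem_closure_iff_nhds]
  intro U hU
  have h1 := (mapClusterPt_iff_frequently.1 h') U hU
  obtain ⟨x, hx, hx0⟩ := (h1.and_eventually self_mem_nhdsWithin).exists
  exact ⟨_, hx, x, hx0, rfl⟩

/-- A connected set with an accumulation point of a ray, together with the ray. -/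
theorem union_pre (hP : Half f P) {s : ℝ} {w : ℂ} {E : Set ℂ} (hE : IsPreconnected E)
    (hw : w ∈ E) (h : w ∈ Acc P s) : IsPreconnected (E ∪ R0 P s) := by
  have h1 : IsPreconnected (insert w (R0 P s)) :=
    (r0_pre hP s).subset_closure (Set.subset_insert _ _)
      (Set.insert_subset (acc_closure h) subset_closure)
  have h2 : E ∪ R0 P s = E ∪ insert w (R0 P s) := by
    ext y
    simp only [mem_union, mem_insert_iff]
    constructor
    · rintro (hy | hy)
      · exact Or.inl hy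
      · exact Or.inr (Or.inr hy)
    · rintro (hy | hy | hy)
      · exact Or.inl hy
      · exact Or.inl (hy ▸ hw)
      · exact Or.inr hy
  rw [h2]
  exact IsPreconnected.union w hw (Set.mem_insert _ _) hE h1

/-- Critical points are joined to infinity. -/
theorem esc_crit (pul : PulStatement) (acp : AcpStatement) (hd : 2 ≤ f.natDegree)
    (hP : Half f P) (hinf : ∀ R : ℝ, ∃ M : ℝ, ∀ u : ℂ, M ≤ u.re → R ≤ ‖P u‖) {z w : ℂ}
    {E : Set ℂ} {s : ℝ} (hE : IsCompact E) (hEp : IsPreconnected E) (hzE : f.eval z ∈ E)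
    (hwE : w ∈ E) (hws : w ∈ Acc P s) {p : ℂ → Prop}
    (hp : ∀ y, (f.eval y ∈ E ∨ ∃ x : ℝ, 0 < x ∧ f.eval y = P (x + s * Complex.I)) → p y) :
    Esc p z := by
  obtain ⟨E', hE'c, hE'p, hz, hmap, w', hw', hfw⟩ := pul f E z w (by omega) hE hEp hzE hwE
  obtain ⟨s', m, hs', hacc⟩ := acp f P hd hP s w w' hws hfw
  have hd0 : (0 : ℝ) < f.natDegree := by exact_mod_cast (show 0 < f.natDegree by omega)
  refine ⟨E' ∪ R0 P s', union_pre hP hE'p hw' hacc, Or.inl hz, fun R => ?_, ?_⟩
  · obtain ⟨M, hM⟩ := hinf (R + 1)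
    have hM1 : (0 : ℝ) < max M 1 := lt_of_lt_of_le one_pos (le_max_right _ _)
    refine ⟨P ((max M 1 : ℝ) + s' * Complex.I), Or.inr ⟨max M 1, hM1, rfl⟩, ?_⟩
    have := hM ((max M 1 : ℝ) + s' * Complex.I) (by rw [ray_re]; exact le_max_left _ _)
    linarith
  · rintro y (hy | ⟨x, hx, rfl⟩)
    · exact hp y (Or.inl (hmap y hy))
    · refine hp _ (Or.inr ⟨f.natDegree * x, mul_pos hd0 hx, ?_⟩)
      show f.eval (P (x + s' * Complex.I)) = _
      rw [hP.semi _ (ray_HP hx s'), ← per_ray hP (f.natDegree * x) s m, ← hs']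
      congr 1
      push_cast
      ring

/-- The branch of the inverse near a noncritical value. -/
theorem loc_branch {β : ℂ} {R : ℝ} (hR : 0 < R)
    (hcv : ∀ c, f.derivative.eval c = 0 → f.eval c ∉ Metric.ball (f.eval β) R) :
    ∃ (g : ℂ → ℂ) (ρ : ℝ), 0 < ρ ∧ ρ ≤ R ∧ ContinuousOn g (Metric.ball (f.eval β) R) ∧
      (∀ y ∈ Metric.ball (f.eval β) R, f.eval (g y) = y) ∧
      ∀ z ∈ Metric.ball β ρ, f.eval z ∈ Metric.ball (f.eval β) R ∧ g (f.eval z) = z := by
  have hsc : SimplyConnectedSpace (Metric.ball (f.eval β) R) := by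
    have : ContractibleSpace (Metric.ball (f.eval β) R) :=
      (convex_ball _ R).contractibleSpace ⟨_, Metric.mem_ball_self hR⟩
    exact SimplyConnectedSpace.ofContractible _
  obtain ⟨g, hg, hfg, hgβ⟩ := liv f (Metric.ball (f.eval β) R) (fun v => v) Metric.isOpen_ball
    hsc differentiableOn_id (fun z hz c hc he => hcv c hc (by rw [he]; exact hz)) (f.eval β)
    (Metric.mem_ball_self hR) β rfl
  have hcont : ContinuousAt (fun z => f.eval z) β := f.continuous.continuousAt
  obtain ⟨ρ, hρ, hρ'⟩ := Metric.continuousAt_iff.1 hcont R hR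
  refine ⟨g, min ρ R, lt_min hρ hR, min_le_right _ _, hg.continuousOn, hfg, ?_⟩
  have hmap : ∀ z ∈ Metric.ball β (min ρ R), f.eval z ∈ Metric.ball (f.eval β) R := fun z hz =>
    hρ' (lt_of_lt_of_le hz (min_le_left _ _))
  have key := uniq f (Metric.ball β (min ρ R)) (fun z => g (f.eval z)) (fun z => z)
    (convex_ball _ _).isPreconnected
    (hg.continuousOn.comp f.continuous.continuousOn hmap) continuousOn_id
    (fun z hz => hfg _ (hmap z hz))
    (fun z hz h0 => hcv _ h0 (by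
      show f.eval (g (f.eval z)) ∈ _
      rw [hfg _ (hmap z hz)]
      exact hmap z hz)) β (Metric.mem_ball_self (lt_min hρ hR)) hgβ
  exact fun z hz => ⟨hmap z hz, key hz⟩

/-- The core of SPAG: the critical values are in sets that are joined to infinity by rays off the
orbit of `α`. -/
theorem core (hol : HolStatement) (comb : CombStatement) (pul : PulStatement)
    (acp : AcpStatement) (acf : AcfStatement) (hd : 2 ≤ f.natDegree) (hP : Half f P)
    (hinf : ∀ R : ℝ, ∃ M : ℝ, ∀ u : ℂ, M ≤ u.re → R ≤ ‖P u‖) {α : ℂ} {p : ℕ} (hp : 1 ≤ p)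
    (hα : (fun w => f.eval w)^[p] α = α) (hsm : RayCyclesP f P α) {m : ℕ} (hm : 1 ≤ m)
    (e : Fin m → Set ℂ) (s : Fin m → ℝ) (w : Fin m → ℂ) (hE : ∀ l, IsCompact (e l))
    (hEp : ∀ l, IsPreconnected (e l)) (hEK : ∀ l, e l ⊆ filledJulia f) (hw : ∀ l, w l ∈ e l)
    (hacc : ∀ l, w l ∈ Acc P (s l)) (hOe : ∀ l (j : ℕ), (fun w => f.eval w)^[j] α ∉ e l)
    (hOa : ∀ l (j : ℕ), (fun w => f.eval w)^[j] α ∉ Acc P (s l))
    (hcrit : ∀ z, f.derivative.eval z = 0 → ∃ l, f.eval z ∈ e l) : False := by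
  have hd0 : (0 : ℝ) < f.natDegree := by exact_mod_cast (show 0 < f.natDegree by omega)
  have hd1 : (1 : ℝ) < f.natDegree := by exact_mod_cast (show 1 < f.natDegree by omega)
  have hαK := per_mem hp hα
  have : Nonempty (Fin m) := ⟨⟨0, hm⟩⟩
  -- discs around the points of the cycle that miss the sets and the rays
  have hdisc : ∀ j : ℕ, ∃ R : ℝ, 0 < R ∧ (∀ l, ∀ y ∈ Metric.ball ((fun w => f.eval w)^[j] α) R,
      y ∉ e l) ∧ ∀ l, ∀ x : ℝ, 0 < x →
        P (x + s l * Complex.I) ∉ Metric.ball ((fun w => f.eval w)^[j] α) R := by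
    intro j
    have h1 : ∀ l, ∃ R : ℝ, 0 < R ∧ (∀ y ∈ Metric.ball ((fun w => f.eval w)^[j] α) R,
        y ∉ e l) ∧ ∀ x : ℝ, 0 < x →
          P (x + s l * Complex.I) ∉ Metric.ball ((fun w => f.eval w)^[j] α) R := by
      intro l
      obtain ⟨ρ, hρ, hρ'⟩ := acf f P hd hP hinf ((fun w => f.eval w)^[j] α) (s l)
        ((Uco.iter_filled j α).2 hαK) (hOa l j)
      obtain ⟨ρ₁, hρ₁, hρ₁'⟩ := Metric.isOpen_iff.1 (hE l).isClosed.isOpen_compl _ (hOe l j)
      exact ⟨min ρ ρ₁, lt_min hρ hρ₁,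
        fun y hy => hρ₁' (Metric.ball_subset_ball (min_le_right _ _) hy),
        fun x hx h => hρ' x hx (Metric.ball_subset_ball (min_le_left _ _) h)⟩
    choose R hR hR1 hR2 using h1
    obtain ⟨l₀, -, hmin⟩ := Finset.exists_min_image Finset.univ R Finset.univ_nonempty
    exact ⟨R l₀, hR l₀,
      fun l y hy => hR1 l y (Metric.ball_subset_ball (hmin l (Finset.mem_univ l)) hy),
      fun l x hx h => hR2 l x hx (Metric.ball_subset_ball (hmin l (Finset.mem_univ l)) h)⟩
  choose R hR hR1 hR2 using hdisc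
  have hnext : ∀ j : ℕ, f.eval ((fun w => f.eval w)^[j] α) = (fun w => f.eval w)^[j + 1] α := by
    intro j
    rw [Function.iterate_succ_apply']
  -- the branches
  have hbr : ∀ j : ℕ, ∃ (g : ℂ → ℂ) (ρ : ℝ), 0 < ρ ∧ ρ ≤ R (j + 1) ∧
      ContinuousOn g (Metric.ball ((fun w => f.eval w)^[j + 1] α) (R (j + 1))) ∧
      (∀ y ∈ Metric.ball ((fun w => f.eval w)^[j + 1] α) (R (j + 1)), f.eval (g y) = y) ∧
      ∀ z ∈ Metric.ball ((fun w => f.eval w)^[j] α) ρ,
        f.eval z ∈ Metric.ball ((fun w => f.eval w)^[j + 1] α) (R (j + 1)) ∧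
          g (f.eval z) = z := by
    intro j
    have h1 := loc_branch (f := f) (β := (fun w => f.eval w)^[j] α) (R := R (j + 1))
      (hR (j + 1)) (by
        intro c hc h
        obtain ⟨l, hl⟩ := hcrit c hc
        rw [hnext j] at h
        exact hR1 (j + 1) l _ h hl)
    rw [hnext j] at h1
    exact h1
  choose g ρ hρ hρR hgc hfg hgf using hbr
  -- small discs
  obtain ⟨r, hr, hrρ, hrR⟩ : ∃ r : ℝ, 0 < r ∧ (∀ j < p, r ≤ ρ j) ∧ ∀ j < p, r ≤ R j := by
    obtain ⟨j₀, -, hmin⟩ := Finset.exists_min_image (Finset.range p) (fun j => min (ρ j) (R j))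
      ⟨0, Finset.mem_range.2 (by omega)⟩
    refine ⟨min (ρ j₀) (R j₀), lt_min (hρ j₀) (hR j₀), fun j hj => ?_, fun j hj => ?_⟩
    · exact (hmin j (Finset.mem_range.2 hj)).trans (min_le_left _ _)
    · exact (hmin j (Finset.mem_range.2 hj)).trans (min_le_right _ _)
  -- the cycles
  have hcyc : ∀ ε : {ε : ℝ // 0 < ε}, ∃ (z : ℂ) (t : ℝ) (n : ℕ) (m : ℤ) (δ : ℝ), 1 ≤ n ∧
      (f.natDegree : ℝ) ^ n * t = t + m ∧ Land P t z ∧ 0 < δ ∧
      (∀ k : ℕ, ‖(fun w => f.eval w)^[k] z - (fun w => f.eval w)^[k] α‖ < ε) ∧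
      ∀ k : ℕ, δ ≤ ‖(fun w => f.eval w)^[k] z - (fun w => f.eval w)^[k] α‖ := by
    rintro ⟨ε, hε⟩
    obtain ⟨z, t, n, m, hn, ht, hl, hne, hk⟩ := hsm ε hε
    obtain ⟨δ, hδ, hδk⟩ := per_apart hp hn hα (land_per hd hP ht hl) hne
    exact ⟨z, t, n, m, δ, hn, ht, hl, hδ, hk, hδk⟩
  choose z t q n δ hq ht hl hδ hk hδk using hcyc
  let E : ℕ → {ε : ℝ // 0 < ε} := fun i => Nat.rec ⟨r, hr⟩
    (fun _ x => ⟨min x.1 (δ x), lt_min x.2 (hδ x)⟩) i
  have he0 : (E 0).1 = r := rfl
  have hes : ∀ i, (E (i + 1)).1 = min (E i).1 (δ (E i)) := fun i => rfl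
  have hanti : ∀ i j, i ≤ j → (E j).1 ≤ (E i).1 := by
    intro i j hij
    induction j, hij using Nat.le_induction with
    | base => exact le_rfl
    | succ j _ ih =>
      rw [hes]
      exact (min_le_left _ _).trans ih
  have hlt : ∀ i j, i < j → (E j).1 ≤ δ (E i) := by
    intro i j hij
    refine (hanti (i + 1) j hij).trans ?_
    rw [hes]
    exact min_le_right _ _
  have hle : ∀ i, (E i).1 ≤ r := fun i => (hanti 0 i (Nat.zero_le _)).trans (le_of_eq he0)
  -- the landing points are in the small discs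
  have hin : ∀ i k : ℕ, (fun w => f.eval w)^[k] (z (E i)) ∈
      Metric.ball ((fun w => f.eval w)^[k % p] α) r := by
    intro i k
    rw [mem_ball_iff_norm, ← per_mod hα k]
    exact (hk (E i) k).trans_le (hle i)
  have hland : ∀ i k : ℕ, Land P ((f.natDegree : ℝ) ^ k * t (E i))
      ((fun w => f.eval w)^[k] (z (E i))) := fun i k => land_iter hd hP (hl (E i)) k
  -- the rays are not those of the angles `s l`
  have hns : ∀ (i k : ℕ) (l : Fin m) (j : ℤ), (f.natDegree : ℝ) ^ k * t (E i) ≠ s l + j := by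
    intro i k l j h
    have h1 := hland i k
    rw [h] at h1
    have h2 : Land P (s l) ((fun w => f.eval w)^[k] (z (E i))) :=
      Tendsto.congr (fun x => per_ray hP x (s l) j) h1
    have h4 : w l = (fun w => f.eval w)^[k] (z (E i)) := by
      have h5 : MapClusterPt (w l) (𝓝[>] (0 : ℝ)) fun x : ℝ => P (x + s l * Complex.I) := hacc l
      have h6 : ClusterPt (w l) (𝓝 ((fun w => f.eval w)^[k] (z (E i)))) := by
        have h7 : ClusterPt (w l) (map (fun x : ℝ => P (x + s l * Complex.I)) (𝓝[>] (0 : ℝ))) := h5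
        exact h7.mono h2
      by_contra hne
      exact h6.ne (disjoint_nhds_nhds.2 hne).eq_bot
    have h5 := hin i k
    refine hR1 (k % p) l _ (lt_of_lt_of_le h5 (hrR _ (Nat.mod_lt _ (by omega)))) ?_
    rw [← h4]
    exact hw l
  -- points of the rays in the discs
  have hpt : ∀ i k : ℕ, ∃ x : ℝ, 0 < x ∧
      P (x + ((f.natDegree : ℝ) ^ k * t (E i) : ℝ) * Complex.I) ∈
        Metric.ball ((fun w => f.eval w)^[k % p] α) (ρ (k % p)) := by
    intro i k
    have h1 : Metric.ball ((fun w => f.eval w)^[k % p] α) (ρ (k % p)) ∈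
        𝓝 ((fun w => f.eval w)^[k] (z (E i))) := Metric.isOpen_ball.mem_nhds
      (lt_of_lt_of_le (hin i k) (hrρ _ (Nat.mod_lt _ (by omega))))
    obtain ⟨x, hx, hx0⟩ := ((Tendsto.eventually (hland i k) h1).and self_mem_nhdsWithin).exists
    exact ⟨x, hx0, hx⟩
  obtain ⟨i, j, N, k, hij, hjp, hN⟩ := comb f.natDegree p m s (fun i => t (E i))
    (fun i => q (E i)) (fun i => n (E i)) hd hp hm (fun i => ⟨hq (E i), ht (E i)⟩) hns (by
      intro i i' k k' hkk hfr
      obtain ⟨x₁, hx₁, hx₁'⟩ := hpt i k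
      obtain ⟨x₂, hx₂, hx₂'⟩ := hpt i' k'
      rw [← hkk] at hx₂'
      obtain ⟨u, hu⟩ : ∃ u : ℝ, u = (f.natDegree : ℝ) ^ k * t (E i) := ⟨_, rfl⟩
      obtain ⟨u', hu'⟩ : ∃ u' : ℝ, u' = (f.natDegree : ℝ) ^ k' * t (E i') := ⟨_, rfl⟩
      have e1 : (f.natDegree : ℝ) ^ (k + 1) * t (E i) = f.natDegree * u := by
        rw [hu, pow_succ]; ring
      have e2 : (f.natDegree : ℝ) ^ (k' + 1) * t (E i') = f.natDegree * u' := by
        rw [hu', pow_succ]; ring
      rw [← hu] at hx₁'
      rw [← hu'] at hx₂'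
      simp only [e1, e2] at hfr
      show Int.fract ((f.natDegree : ℝ) ^ k' * t (E i') - (f.natDegree : ℝ) ^ k * t (E i)) =
        Int.fract ((f.natDegree : ℝ) ^ (k' + 1) * t (E i') -
          (f.natDegree : ℝ) ^ (k + 1) * t (E i)) / f.natDegree
      rw [e1, e2, ← hu, ← hu']
      obtain ⟨δ', hδ'⟩ : ∃ δ' : ℝ, δ' = Int.fract (f.natDegree * u' - f.natDegree * u) := ⟨_, rfl⟩
      obtain ⟨M, hM⟩ : ∃ M : ℤ, M = ⌊f.natDegree * u' - f.natDegree * u⌋ := ⟨_, rfl⟩
      have hδ0 : 0 ≤ δ' := by rw [hδ']; exact Int.fract_nonneg _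
      have hδ1 : δ' < 1 := by rw [hδ']; exact Int.fract_lt_one _
      have hMδ : f.natDegree * u' - f.natDegree * u = M + δ' := by
        rw [hM, hδ']
        exact (Int.floor_add_fract _).symm
      rw [← hδ'] at hfr ⊢
      set j := k % p with hj
      have h1 := hgf j _ hx₁'
      have h2 := hgf j _ hx₂'
      -- the points of the images of the rays
      have q1 : f.eval (P (x₁ + u * Complex.I)) =
          P (((f.natDegree * x₁ : ℝ) : ℂ) + (f.natDegree * u : ℝ) * Complex.I) := by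
        rw [hP.semi _ (ray_HP hx₁ u)]
        congr 1
        push_cast
        ring
      have q2 : f.eval (P (x₂ + u' * Complex.I)) =
          P (((f.natDegree * x₂ : ℝ) : ℂ) + (f.natDegree * u + δ' : ℝ) * Complex.I) := by
        rw [hP.semi _ (ray_HP hx₂ u'), ← per_ray hP (f.natDegree * x₂) (f.natDegree * u + δ') M]
        congr 1
        have e3 : f.natDegree * u + δ' + M = f.natDegree * u' := by linarith
        rw [e3]
        push_cast
        ring
      rw [q1] at h1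
      rw [q2] at h2
      have key := hol f P hd hP (f.natDegree * u) (f.natDegree * u + δ') (R (j + 1))
        ((fun w => f.eval w)^[j + 1] α) (g j)
        (((f.natDegree * x₁ : ℝ) : ℂ) + (f.natDegree * u : ℝ) * Complex.I)
        (((f.natDegree * x₂ : ℝ) : ℂ) + (f.natDegree * u + δ' : ℝ) * Complex.I) (by linarith)
        (hgc j) (hfg j) ?_ ?_ ?_ ?_ ?_ ?_ ?_ h1.1 h2.1 ?_
      · rw [h2.2] at key
        have e4 : (((f.natDegree * x₂ : ℝ) : ℂ) + (f.natDegree * u + δ' : ℝ) * Complex.I) /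
            f.natDegree = ((x₂ : ℝ) : ℂ) + ((u + δ' / f.natDegree : ℝ) : ℂ) * Complex.I := by
          have : (f.natDegree : ℂ) ≠ 0 := by exact_mod_cast hd0.ne'
          push_cast
          field_simp
        rw [e4] at key
        obtain ⟨-, j', hj'⟩ := inj' hP (by rw [ray_re]; exact hx₂) (by rw [ray_re]; exact hx₂) key
        rw [ray_im, ray_im] at hj'
        have e5 : u' - u = δ' / f.natDegree + j' := by linarith
        rw [e5, Int.fract_add_intCast, Int.fract_eq_self]
        exact ⟨div_nonneg hδ0 hd0.le, (div_lt_one hd0).2 (by linarith)⟩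
      · -- critical points are joined to infinity
        intro z hz
        obtain ⟨l, hlz⟩ := hcrit z hz
        refine esc_crit pul acp hd hP hinf (hE l) (hEp l) hlz (hw l) (hacc l) ?_
        rintro y (hy | ⟨x, hx, hy⟩)
        · refine ⟨fun h => hR1 (j + 1) l _ h hy, fun v hv _ _ hyv => ?_⟩
          rw [hyv] at hy
          exact not_K hP hv (hEK l hy)
        · refine ⟨fun h => hR2 (j + 1) l x hx (by rw [← hy]; exact h), fun v hv hv1 hv2 hyv => ?_⟩
          rw [hy] at hyv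
          obtain ⟨-, j', hj'⟩ := inj' hP (by rw [ray_re]; exact hx) hv hyv
          rw [ray_im] at hj'
          have h3 := hfr l
          have e6 : s l - f.natDegree * u = (v.im - f.natDegree * u) + j' := by linarith
          rw [e6, Int.fract_add_intCast, Int.fract_eq_self.2 ⟨by linarith, by linarith⟩] at h3
          linarith
      · rw [ray_re]; exact mul_pos hd0 hx₁
      · rw [ray_im]
      · rw [ray_im]; linarith
      · rw [ray_re]; exact mul_pos hd0 hx₂
      · rw [ray_im]; linarith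
      · rw [ray_im]
      · rw [h1.2]
        congr 1
        have : (f.natDegree : ℂ) ≠ 0 := by exact_mod_cast hd0.ne'
        push_cast
        field_simp)
  have h1 := hland i (N * p)
  rw [hN] at h1
  have h2 := Rep.land_unique (Rep.land_add hP.per k h1) (hl (E j))
  have h3 := hδk (E i) (N * p)
  have h4 : (fun w => f.eval w)^[N * p] α = α := by
    rw [mul_comm, Function.iterate_mul, Function.iterate_fixed hα]
  rw [h2, h4] at h3
  have h5 := hk (E j) 0
  simp only [Function.iterate_zero, id_eq] at h5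
  have h6 := hlt i j hij
  linarith

end Spag

/-- SPAG: for some critical point `c`, the cycle of `α` separates the points `f^n(c)`, `n ≥ 1`,
from the accumulation sets of rays. -/
theorem spag (hol : HolStatement) (comb : CombStatement) (pul : PulStatement)
    (acp : AcpStatement) (acf : AcfStatement) {f : ℂ[X]} {P : ℂ → ℂ} (hd : 2 ≤ f.natDegree)
    (hP : Half f P) (hinf : ∀ R : ℝ, ∃ M : ℝ, ∀ u : ℂ, M ≤ u.re → R ≤ ‖P u‖) {α : ℂ} {p : ℕ}
    (hp : 1 ≤ p) (hα : (fun w => f.eval w)^[p] α = α) (hsm : RayCyclesP f P α) :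
    ∃ c, f.derivative.eval c = 0 ∧ ∀ (E : Set ℂ) (n : ℕ) (s : ℝ) (w : ℂ), IsCompact E →
      IsPreconnected E → E ⊆ filledJulia f → (fun w => f.eval w)^[n + 1] c ∈ E → w ∈ E →
      w ∈ Acc P s → ∃ j, (fun w => f.eval w)^[j] α ∈ E ∨ (fun w => f.eval w)^[j] α ∈ Acc P s := by
  by_contra hcon
  push Not at hcon
  -- the pull backs that contain the critical values
  have hpull : ∀ c, f.derivative.eval c = 0 → ∃ (E' : Set ℂ) (s' : ℝ) (w' : ℂ), IsCompact E' ∧
      IsPreconnected E' ∧ E' ⊆ filledJulia f ∧ f.eval c ∈ E' ∧ w' ∈ E' ∧ w' ∈ Acc P s' ∧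
      (∀ j : ℕ, (fun w => f.eval w)^[j] α ∉ E') ∧
      ∀ j : ℕ, (fun w => f.eval w)^[j] α ∉ Acc P s' := by
    intro c hc
    obtain ⟨E, n, s, w, hE, hEp, hEK, hcE, hwE, hs, hO⟩ := hcon c hc
    have hF : 1 ≤ (Nr.It f n).natDegree := by
      rw [Nr.it_deg]
      exact Nat.one_le_pow _ _ (by omega)
    obtain ⟨E', hE'c, hE'p, hcE', hmap, w', hw'E, hw'⟩ := pul (Nr.It f n) E (f.eval c) w hF hE
      hEp (by
        rw [Nr.it_eval]
        rw [Function.iterate_succ_apply] at hcE
        exact hcE) hwE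
    rw [Nr.it_eval] at hw'
    obtain ⟨s', m', hsm', hs'⟩ := acc_pull acp hd hP n s w w' hs hw'
    refine ⟨E', s', w', hE'c, hE'p, fun z hz => ?_, hcE', hw'E, hs', fun j h => ?_, fun j h => ?_⟩
    · have h1 := hEK (hmap z hz)
      rw [Nr.it_eval] at h1
      exact (Uco.iter_filled n z).1 h1
    · have h1 := hmap _ h
      rw [Nr.it_eval, ← Function.iterate_add_apply] at h1
      exact (hO _).1 h1
    · have h1 := acc_iter hd hP h n
      rw [hsm', ← Function.iterate_add_apply] at h1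
      exact (hO _).2 (acc_add hP.per m' h1)
  choose E s w h1 h2 h3 h4 h5 h6 h7 h8 using hpull
  have hne : f.derivative ≠ 0 := by
    intro h0
    have hdeg : f.derivative.degree = (f.natDegree - 1 : ℕ) := degree_derivative (by omega)
    rw [h0, degree_zero] at hdeg
    exact absurd hdeg (by simp)
  obtain ⟨c₀, hc₀⟩ : ∃ c, f.derivative.eval c = 0 := by
    obtain ⟨z, hz⟩ := IsAlgClosed.exists_root f.derivative (by
      have hdeg : f.derivative.degree = (f.natDegree - 1 : ℕ) := degree_derivative (by omega)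
      rw [hdeg]
      intro h
      have h1 : f.natDegree - 1 = 0 := by exact_mod_cast h
      omega)
    exact ⟨z, hz⟩
  set S : Finset ℂ := f.derivative.roots.toFinset with hS
  have hmem : ∀ z, z ∈ S ↔ f.derivative.eval z = 0 := by
    intro z
    rw [hS, Multiset.mem_toFinset, mem_roots hne]
    rfl
  have hm : 1 ≤ S.card := Finset.card_pos.2 ⟨c₀, (hmem c₀).2 hc₀⟩
  let e : Fin S.card ≃ S := S.equivFin.symm
  have he : ∀ l, f.derivative.eval (e l : ℂ) = 0 := fun l => (hmem _).1 (e l).2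
  refine Spag.core hol comb pul acp acf hd hP hinf hp hα hsm hm (fun l => E (e l) (he l))
    (fun l => s (e l) (he l)) (fun l => w (e l) (he l)) (fun l => h1 _ (he l))
    (fun l => h2 _ (he l)) (fun l => h3 _ (he l)) (fun l => h5 _ (he l)) (fun l => h6 _ (he l))
    (fun l => h7 _ (he l)) (fun l => h8 _ (he l)) fun z hz => ?_
  refine ⟨e.symm ⟨z, (hmem z).2 hz⟩, ?_⟩
  have h9 : ((e (e.symm ⟨z, (hmem z).2 hz⟩) : S) : ℂ) = z := by rw [Equiv.apply_symm_apply]
  have h10 := h4 (e (e.symm ⟨z, (hmem z).2 hz⟩) : S) (he _)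
  rw [congrArg f.eval h9] at h10
  exact h10

end Pool.Agent.Imp
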