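import Pool.Agent.Lib.MP_1c105c_an.Sca
import Pool.Agent.Lib.MP_1c105c_an.Spag

/-! MP_1c105c_an: small cycles near a periodic orbit of a polynomial with several critical
points. -/

set_option autoImplicit false

open Filter Topology Set Polynomial

namespace Pool.Agent.Imp

namespace Scg

/-- The orbit of the critical value of `c`. -/
def Orb (f : ℂ[X]) (c : ℂ) : Set ℂ := {z | ∃ n : ℕ, (fun w => f.eval w)^[n + 1] c = z}

/-- The property of the critical point `c` in SPAG. -/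
def Sep (f : ℂ[X]) (P : ℂ → ℂ) (α c : ℂ) : Prop :=
  ∀ (E : Set ℂ) (n : ℕ) (s : ℝ) (w : ℂ), IsCompact E →
    IsPreconnected E → E ⊆ filledJulia f → (fun w => f.eval w)^[n + 1] c ∈ E → w ∈ E →
    w ∈ Acc P s → ∃ j, (fun w => f.eval w)^[j] α ∈ E ∨ (fun w => f.eval w)^[j] α ∈ Acc P s

theorem acc_of_land {P : ℂ → ℂ} {t : ℝ} {z : ℂ} (h : Land P t z) : z ∈ Acc P t := by
  have h' : Tendsto (fun x : ℝ => P (x + t * Complex.I)) (𝓝[>] 0) (𝓝 z) := h
  exact h'.mapClusterPt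

theorem eq_of_land {P : ℂ → ℂ} {t : ℝ} {z w : ℂ} (h : Land P t z) (hw : w ∈ Acc P t) : w = z := by
  have h5 : MapClusterPt w (𝓝[>] (0 : ℝ)) fun x : ℝ => P (x + t * Complex.I) := hw
  have h6 : ClusterPt w (𝓝 z) := by
    have h7 : ClusterPt w (map (fun x : ℝ => P (x + t * Complex.I)) (𝓝[>] (0 : ℝ))) := h5
    exact h7.mono h
  by_contra hne
  exact h6.ne (disjoint_nhds_nhds.2 hne).eq_bot

theorem sep_land {f : ℂ[X]} {P : ℂ → ℂ} {α c : ℂ} (hsep : Sep f P α c) {E : Set ℂ} {n : ℕ}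
    {t : ℝ} {w : ℂ} (hE : IsCompact E) (hEp : IsPreconnected E) (hEK : E ⊆ filledJulia f)
    (hcE : (fun w => f.eval w)^[n + 1] c ∈ E) (hwE : w ∈ E) (hw : Land P t w) :
    ∃ j, (fun w => f.eval w)^[j] α ∈ E := by
  obtain ⟨j, hj⟩ := hsep E n t w hE hEp hEK hcE hwE (acc_of_land hw)
  refine ⟨j, hj.elim id fun h => ?_⟩
  rw [eq_of_land hw h]
  exact hwE

variable {f : ℂ[X]} {ψ : ℂ → ℂ} {α c : ℂ} {p : ℕ}

/-- The separation theorem for accumulation sets of rays. -/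
theorem acc_sep (hd : 2 ≤ f.natDegree) (hψ : IsInverseBoettcher f ψ)
    (hsep : Sep f (fun u => ψ (Complex.exp (2 * Real.pi * u))) α c) (E : Set ℂ) (n : ℕ) (θ : ℝ)
    (hE : IsClosed E) (hEp : IsPreconnected E) (hEK : E ⊆ filledJulia f)
    (hcE : (fun w => f.eval w)^[n + 1] c ∈ E) (hθ : accumulation ψ θ ⊆ E) :
    ∃ j : ℕ, (fun w => f.eval w)^[j] α ∈ E := by
  obtain ⟨hP, -, -⟩ := half f ψ hd hψ
  obtain ⟨hKc, hKb, -⟩ := jul f _ hd hP
  obtain ⟨w, hw⟩ := (I64.acn f ψ hd hψ θ).1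
  obtain ⟨j, hj⟩ := hsep E n θ w (Metric.isCompact_of_isClosed_isBounded hE (hKb.subset hEK)) hEp
    hEK hcE (hθ hw) ((acl ψ θ w).1 hw)
  exact ⟨j, hj.elim id fun h => hθ ((acl ψ θ _).2 h)⟩

/-- A ray that accumulates at the critical orbit accumulates at the cycle. -/
theorem acc_mem (hd : 2 ≤ f.natDegree) (hψ : IsInverseBoettcher f ψ)
    (hsep : Sep f (fun u => ψ (Complex.exp (2 * Real.pi * u))) α c) {n : ℕ} {θ : ℝ}
    (h : (fun w => f.eval w)^[n + 1] c ∈ accumulation ψ θ) :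
    ∃ j : ℕ, (fun w => f.eval w)^[j] α ∈ accumulation ψ θ := by
  obtain ⟨hP, -, -⟩ := half f ψ hd hψ
  obtain ⟨hKc, hKb, -⟩ := jul f _ hd hP
  obtain ⟨j, hj⟩ := hsep {(fun w => f.eval w)^[n + 1] c} n θ _ isCompact_singleton
    isPreconnected_singleton
    (by
      rw [Set.singleton_subset_iff]
      exact hKc.frontier_subset (impression_julia hψ θ ((I64.acn f ψ hd hψ θ).2 h))) rfl rfl
    ((acl ψ θ _).1 h)
  refine ⟨j, ?_⟩
  rcases hj with hj | hj
  · rw [Set.mem_singleton_iff.1 hj]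
    exact h
  · exact (acl ψ θ _).2 hj

/-- An impression that meets the critical orbit meets the cycle. -/
theorem imp_mem (hd : 2 ≤ f.natDegree) (hψ : IsInverseBoettcher f ψ)
    (hsep : Sep f (fun u => ψ (Complex.exp (2 * Real.pi * u))) α c) {n : ℕ} {θ : ℝ}
    (h : (fun w => f.eval w)^[n + 1] c ∈ impression ψ θ) :
    ∃ j : ℕ, (fun w => f.eval w)^[j] α ∈ impression ψ θ := by
  obtain ⟨hP, -, -⟩ := half f ψ hd hψ
  obtain ⟨hKc, hKb, -⟩ := jul f _ hd hP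
  exact acc_sep hd hψ hsep _ n θ (Orb94.impression_closed ψ θ) (I64.imc f ψ hd hψ θ)
    (fun z hz => hKc.frontier_subset (impression_julia hψ θ hz)) h (I64.acn f ψ hd hψ θ).2

/-- Points of the Julia set in the closure of the critical orbit. -/
theorem orb_imp (hd : 2 ≤ f.natDegree) (hψ : IsInverseBoettcher f ψ) (hp : 1 ≤ p)
    (hα : (fun w => f.eval w)^[p] α = α) (hαJ : ∀ j : ℕ, (fun w => f.eval w)^[j] α ∈ julia f)
    (hc : f.derivative.eval c = 0)
    (hsep : Sep f (fun u => ψ (Complex.exp (2 * Real.pi * u))) α c) {y : ℂ}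
    (hy : y ∈ closure (Orb f c)) (hyJ : y ∈ julia f) :
    ∃ θ : ℝ, y ∈ impression ψ θ ∧ ∃ j : ℕ, (fun w => f.eval w)^[j] α ∈ impression ψ θ := by
  obtain ⟨hP, -, -⟩ := half f ψ hd hψ
  obtain ⟨hKc, hKb, -⟩ := jul f _ hd hP
  have hKcomp : IsCompact (filledJulia f) := Metric.isCompact_of_isClosed_isBounded hKc hKb
  have hmem : y ∈ closure (⋃ j ∈ Finset.range p, {z | ∃ θ : ℝ, z ∈ impression ψ θ ∧
      (fun w => f.eval w)^[j] α ∈ impression ψ θ}) := by
    rw [Metric.mem_closure_iff]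
    intro δ hδ
    obtain ⟨x, ⟨n, rfl⟩, hxy⟩ := Metric.mem_closure_iff.1 hy (δ / 2) (by positivity)
    have hxK : (fun w => f.eval w)^[n + 1] c ∈ filledJulia f := by
      rw [Uco.iter_filled]
      exact Cv8.crit_mem hP (by omega : 1 ≤ f.natDegree) hP.semi hc
    obtain ⟨ζ, S, hζ, hζy, hSc, hSp, hSK, hxS, hζS, hSζ⟩ := seg_near hKcomp hxK hyJ
    obtain ⟨t, ht⟩ := I64.imj f ψ hd hψ ζ hζ
    obtain ⟨j, hj⟩ := acc_sep hd hψ hsep (S ∪ impression ψ t) n t
      (hSc.union (Orb94.impression_closed ψ t))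
      (IsPreconnected.union ζ hζS ht hSp (I64.imc f ψ hd hψ t))
      (Set.union_subset hSK fun z hz => hKc.frontier_subset (impression_julia hψ t hz))
      (Or.inl hxS) ((I64.acn f ψ hd hψ t).2.trans Set.subset_union_right)
    refine ⟨ζ, ?_, ?_⟩
    · simp only [Set.mem_iUnion, Finset.mem_range]
      refine ⟨j % p, Nat.mod_lt _ hp, t, ht, ?_⟩
      rw [← per_mod hα]
      rcases hj with hj | hj
      · rw [hSζ _ hj (hαJ j)]
        exact ht
      · exact hj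
    · rw [dist_eq_norm]
      rw [dist_eq_norm] at hxy
      have h1 : ‖y - ζ‖ ≤ ‖y - (fun w => f.eval w)^[n + 1] c‖ +
          ‖(fun w => f.eval w)^[n + 1] c - ζ‖ :=
        norm_sub_le_norm_sub_add_norm_sub _ _ _
      rw [norm_sub_rev ((fun w => f.eval w)^[n + 1] c) y] at hζy
      linarith
  rw [Finset.closure_biUnion] at hmem
  simp only [Set.mem_iUnion, Finset.mem_range] at hmem
  obtain ⟨j, -, hj⟩ := hmem
  obtain ⟨θ, h1, h2⟩ := I64.ims ψ _ y hj
  exact ⟨θ, h1, j, h2⟩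

/-- The Julia set is not connected im kleinen on the closure of the critical orbit, except possibly
at the points of the cycle. -/
theorem not_cik (hd : 2 ≤ f.natDegree) (hψ : IsInverseBoettcher f ψ) (hp : 1 ≤ p)
    (hα : (fun w => f.eval w)^[p] α = α) (hc : f.derivative.eval c = 0)
    (hsep : Sep f (fun u => ψ (Complex.exp (2 * Real.pi * u))) α c)
    (hdim : dimH (goodAngles f ψ)ᶜ < 1) {y : ℂ} (hy : y ∈ closure (Orb f c))
    (hyα : ∀ j : ℕ, y ≠ (fun w => f.eval w)^[j] α) : ¬ CikAt (julia f) y := by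
  intro hcik
  obtain ⟨hP, -, -⟩ := half f ψ hd hψ
  obtain ⟨hKc, -, -, -, -⟩ := jul f _ hd hP
  obtain ⟨μ, hμ, hμy⟩ := cyc_dist hp hα hyα
  obtain ⟨ρ, hρ, h⟩ := cik_filled (ε := μ / 2) (by positivity) hcik hKc
  obtain ⟨x, ⟨n, rfl⟩, hxy⟩ := Metric.mem_closure_iff.1 hy ρ hρ
  obtain ⟨t, w, hwO, hwc, hw⟩ := good_dense hd hψ hdim Metric.isOpen_ball
    (Metric.mem_ball_self hρ) hcik.1
  have hxK : (fun w => f.eval w)^[n + 1] c ∈ filledJulia f := by
    rw [Uco.iter_filled]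
    exact Cv8.crit_mem hP (by omega : 1 ≤ f.natDegree) hP.semi hc
  rw [dist_comm, dist_eq_norm] at hxy
  rw [mem_ball_iff_norm] at hwO
  obtain ⟨E, hEc, hEp, hEK, hxE, hwE, hEs⟩ := h _ hxK hxy w hwc.1 hwO
  obtain ⟨j, hj⟩ := sep_land hsep hEc hEp hEK hxE hwE (land_of_hasLim hw)
  have h1 := hEs _ hj
  rw [norm_sub_rev] at h1
  linarith [hμy j]

/-- The critical orbit is not dense in the Julia set. -/
theorem not_dense (hd : 2 ≤ f.natDegree) (hψ : IsInverseBoettcher f ψ) (hp : 1 ≤ p)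
    (hα : (fun w => f.eval w)^[p] α = α) (hc : f.derivative.eval c = 0)
    (hsep : Sep f (fun u => ψ (Complex.exp (2 * Real.pi * u))) α c)
    (hdim : dimH (goodAngles f ψ)ᶜ < 1) : ¬ julia f ⊆ closure (Orb f c) := by
  intro hsub
  obtain ⟨hP, -, -⟩ := half f ψ hd hψ
  have hnull : MeasureTheory.volume (goodAngles f ψ)ᶜ = 0 := Main2.null_of_dimH hdim
  set P : ℂ → ℂ := fun u => ψ (Complex.exp (2 * Real.pi * u)) with hPdef
  obtain ⟨hKc, hKb, hJ2, -, hJ5⟩ := jul f P hd hP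
  have hlim : ∃ (t : ℝ) (z : ℂ), HasLim P t z := by
    obtain ⟨t, ht⟩ : (goodAngles f ψ).Nonempty := by
      by_contra hne
      rw [Set.not_nonempty_iff_eq_empty] at hne
      rw [hne, compl_empty, Real.volume_univ] at hnull
      exact ENNReal.top_ne_zero hnull
    obtain ⟨z, hz, -⟩ := ht
    exact ⟨t, z, (Main2.lim_iff ψ t z).1 hz⟩
  obtain ⟨t, z, hz, hzα⟩ := exc inv f P hd hP hlim
    ((Finset.range p).image fun j => (fun w => f.eval w)^[j] α)
  have hzα' : ∀ j : ℕ, z ≠ (fun w => f.eval w)^[j] α := by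
    intro j h
    apply hzα
    rw [h, per_mod hα j]
    exact Finset.mem_image_of_mem _ (Finset.mem_range.2 (Nat.mod_lt _ hp))
  obtain ⟨μ, hμ, hμz⟩ := cyc_dist hp hα hzα'
  obtain ⟨t', w, hwO, hwc, -⟩ := good_dense hd hψ hdim Metric.isOpen_ball
    (Metric.mem_ball_self hμ) (hJ5 t z hz)
  refine not_cik hd hψ hp hα hc hsep hdim (hsub hwc.1) ?_ hwc
  rintro j rfl
  rw [mem_ball_iff_norm, norm_sub_rev] at hwO
  linarith [hμz j]

end Scg

end Pool.Agent.Imp
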