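import Pool.Agent.Lib.MP_1c105c_an.Defs18

/-! MP_1c105c_an, row TOP: all preimages of some point of a simple closed curve are joined to
infinity off the preimage of the curve (helper72). -/

set_option autoImplicit false

open Filter Topology Set Polynomial

namespace Pool.Agent.Imp

namespace Top72

/-- Lifts of a curve without critical values. -/
theorem liftCurve {f : ℂ[X]} {c : ℝ → ℂ} (hc : Continuous c)
    (hreg : ∀ z, f.derivative.eval z = 0 → ∀ x, f.eval z ≠ c x) {w : ℂ} (hw : f.eval w = c 0) :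
    ∃ Z : ℝ → ℂ, Continuous Z ∧ Z 0 = w ∧ ∀ x, f.eval (Z x) = c x := by
  set S : Set ℂ := (f.eval '' {k | f.derivative.eval k = 0})ᶜ with hS
  have hcov : IsCoveringMap (S.restrictPreimage fun z => f.eval z) :=
    (f.isCoveringMapOn_eval).isCoveringMap_restrictPreimage
  have hcS : ∀ x, c x ∈ S := by
    rintro x ⟨z, hz, hzx⟩
    exact hreg z hz x hzx
  let γ : C(ℝ, S) := ⟨fun x => ⟨c x, hcS x⟩, hc.subtype_mk hcS⟩
  have hwS : w ∈ (fun z => f.eval z) ⁻¹' S := by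
    show f.eval w ∈ S
    rw [hw]
    exact hcS 0
  obtain ⟨F, ⟨h1, h2⟩, -⟩ := hcov.existsUnique_continuousMap_lifts γ 0 ⟨w, hwS⟩
    (Subtype.ext hw)
  refine ⟨fun x => (F x : (fun z => f.eval z) ⁻¹' S), continuous_subtype_val.comp F.continuous,
    congrArg Subtype.val h1, fun x => ?_⟩
  exact congrArg Subtype.val (congrFun h2 x)

/-- A slope that is not in a finite set. -/
theorem exists_slope {f : ℂ[X]} (hf : f.derivative ≠ 0) (a : ℂ) :
    ∃ t : ℝ, ∀ z, f.derivative.eval z = 0 → ((f.eval z - a).im / (f.eval z - a).re) ≠ t := by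
  obtain ⟨t, ht⟩ := Infinite.exists_notMem_finset
    (f.derivative.roots.toFinset.image fun z => (f.eval z - a).im / (f.eval z - a).re)
  refine ⟨t, fun z hz h => ht ?_⟩
  exact Finset.mem_image.2 ⟨z, Multiset.mem_toFinset.2 ((mem_roots hf).2 hz), h⟩

/-- The last point of a periodic curve on a half line. -/
theorem exists_last {c : ℝ → ℂ} (hc : Continuous c) (hper : ∀ x, c (x + 1) = c x) {w : ℂ}
    (hw : w ≠ 0) :
    ∃ T x₀ : ℝ, 0 ≤ T ∧ c x₀ = c 0 + T * w ∧ ∀ s x : ℝ, 0 ≤ s → c x = c 0 + s * w → s ≤ T := by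
  let K : Set (ℝ × ℝ) := {p | p.2 ∈ Icc (0 : ℝ) 1 ∧ 0 ≤ p.1 ∧ c p.2 = c 0 + p.1 * w}
  have hperi : Function.Periodic c 1 := hper
  have hK0 : ((0, 0) : ℝ × ℝ) ∈ K := ⟨⟨le_rfl, zero_le_one⟩, le_rfl, by simp⟩
  have hclosed : IsClosed K := by
    have h1 : IsClosed {p : ℝ × ℝ | p.2 ∈ Icc (0 : ℝ) 1} := isClosed_Icc.preimage continuous_snd
    have h2 : IsClosed {p : ℝ × ℝ | 0 ≤ p.1} := isClosed_le continuous_const continuous_fst
    have h3 : IsClosed {p : ℝ × ℝ | c p.2 = c 0 + p.1 * w} :=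
      isClosed_eq (hc.comp continuous_snd) (by fun_prop)
    exact h1.inter (h2.inter h3)
  obtain ⟨B, hB⟩ := (isCompact_Icc (a := (0 : ℝ)) (b := 1)).exists_bound_of_continuousOn
    hc.continuousOn
  have hwp : 0 < ‖w‖ := norm_pos_iff.2 hw
  have hbd : K ⊆ Icc 0 ((B + ‖c 0‖) / ‖w‖) ×ˢ Icc 0 1 := by
    rintro p ⟨h1, h2, h3⟩
    refine ⟨⟨h2, ?_⟩, h1⟩
    rw [le_div_iff₀ hwp]
    have h4 : (p.1 : ℂ) * w = c p.2 - c 0 := by rw [h3]; ring
    have h5 : ‖(p.1 : ℂ) * w‖ = p.1 * ‖w‖ := by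
      rw [norm_mul, Complex.norm_real, Real.norm_of_nonneg h2]
    rw [← h5, h4]
    exact (norm_sub_le _ _).trans (add_le_add (hB _ h1) le_rfl)
  have hcomp : IsCompact K :=
    (isCompact_Icc.prod isCompact_Icc).of_isClosed_subset hclosed hbd
  obtain ⟨p, hp, hmax⟩ := hcomp.exists_isMaxOn ⟨_, hK0⟩ continuous_fst.continuousOn
  refine ⟨p.1, p.2, hp.2.1, hp.2.2, fun s x hs hx => ?_⟩
  have hfr : c (Int.fract x) = c x := by
    have h1 := hperi.sub_zsmul_eq (x := x) ⌊x⌋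
    rw [zsmul_one] at h1
    exact h1
  exact hmax (show ((s, Int.fract x) : ℝ × ℝ) ∈ K from
    ⟨⟨Int.fract_nonneg x, (Int.fract_lt_one x).le⟩, hs, hfr.trans hx⟩)

end Top72

open Top72

/-- Row TOP. -/
theorem top : TopStatement := by
  intro f c hd hc hper _ hreg
  have hf : f.derivative ≠ 0 := by
    intro h
    have := derivative_eq_zero.1 h
    omega
  obtain ⟨t, ht⟩ := exists_slope hf (c 0)
  have hw : (⟨1, t⟩ : ℂ) ≠ 0 := fun h => by
    have := congrArg Complex.re h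
    simp at this
  obtain ⟨T, x₀, hT, hx₀, hlast⟩ := exists_last hc hper hw
  refine ⟨x₀, fun z hz => ?_⟩
  have hδ : Continuous fun s : ℝ => c 0 + ((T + |s| : ℝ) : ℂ) * ⟨1, t⟩ := by fun_prop
  have hδreg : ∀ y, f.derivative.eval y = 0 →
      ∀ s : ℝ, f.eval y ≠ c 0 + ((T + |s| : ℝ) : ℂ) * ⟨1, t⟩ := by
    intro y hy s h
    have h1 : f.eval y - c 0 = ((T + |s| : ℝ) : ℂ) * ⟨1, t⟩ := by rw [h]; ring
    have hre : (f.eval y - c 0).re = T + |s| := by rw [h1]; simp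
    have him : (f.eval y - c 0).im = (T + |s|) * t := by rw [h1]; simp
    rcases (add_nonneg hT (abs_nonneg s)).eq_or_lt with h0 | h0
    · refine hreg y hy 0 ?_
      rw [h, ← h0]
      simp
    · refine ht y hy ?_
      rw [hre, him]
      field_simp
  obtain ⟨Z, hZ, hZ0, hZf⟩ := liftCurve hδ hδreg (w := z) (by
    show f.eval z = c 0 + ((T + |(0 : ℝ)| : ℝ) : ℂ) * ⟨1, t⟩
    rw [hz, hx₀, abs_zero, add_zero])
  refine ⟨range Z, isPreconnected_range hZ, ⟨0, hZ0⟩, fun R => ?_, ?_⟩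
  · by_contra hcon
    push Not at hcon
    obtain ⟨B, hB⟩ := (isCompact_closedBall (0 : ℂ) R).exists_bound_of_continuousOn
      f.continuous.continuousOn
    have h1 : ∀ s : ℝ, ‖c 0 + ((T + |s| : ℝ) : ℂ) * ⟨1, t⟩‖ ≤ B := by
      intro s
      rw [← hZf s]
      exact hB _ (by
        rw [mem_closedBall_zero_iff]
        exact hcon _ ⟨s, rfl⟩)
    have h2 := (Complex.abs_re_le_norm _).trans (h1 (B + |(c 0).re| + 1))
    have h3 : (c 0 + ((T + |B + |(c 0).re| + 1| : ℝ) : ℂ) * ⟨1, t⟩).re =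
        (c 0).re + (T + |B + |(c 0).re| + 1|) := by simp
    rw [h3] at h2
    have h4 := le_abs_self ((c 0).re + (T + |B + |(c 0).re| + 1|))
    have h5 := le_abs_self (B + |(c 0).re| + 1)
    have h6 := neg_abs_le (c 0).re
    linarith
  · rintro y ⟨s, rfl⟩ x hx
    have h1 := hlast (T + |s|) x (add_nonneg hT (abs_nonneg s)) (by rw [← hx, hZf])
    have h2 : |s| = 0 := le_antisymm (by linarith) (abs_nonneg s)
    have h3 : s = 0 := abs_eq_zero.1 h2
    rw [h3, hZ0]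

end Pool.Agent.Imp
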