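import Pool.Agent.Lib.MP_1c105c_an.Defs18

/-! MP_1c105c_an, row TOR: two disjoint closed curves that do not wind around each other. -/

set_option autoImplicit false

open Filter Topology Set Polynomial

namespace Pool.Agent.Imp

open Lgk98

namespace Tor51

/-- two continuous logarithms of the same function differ by a constant -/
theorem diff {A : Type} [TopologicalSpace A] [PreconnectedSpace A] {g₁ g₂ : A → ℂ}
    (h₁ : Continuous g₁) (h₂ : Continuous g₂)
    (he : ∀ x, Complex.exp (g₁ x) = Complex.exp (g₂ x)) (a x : A) :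
    g₁ x = g₂ x + (g₁ a - g₂ a) := by
  have h3 : Continuous fun x => g₂ x + (g₁ a - g₂ a) := by fun_prop
  have hk : Complex.exp (g₁ a - g₂ a) = 1 := by
    rw [Complex.exp_sub, he a, div_self (Complex.exp_ne_zero _)]
  have h4 := Complex.isCoveringMap_exp.isSeparatedMap.eq_of_comp_eq
    Complex.isCoveringMap_exp.isLocalHomeomorph.isLocallyInjective h₁ h3 (by
      funext x
      refine Subtype.ext ?_
      show Complex.exp (g₁ x) = Complex.exp (g₂ x + (g₁ a - g₂ a))
      rw [Complex.exp_add, hk, mul_one, he x]) a (by ring)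
  exact congrFun h4 x

/-- a continuous function without zeros on the plane has a continuous logarithm -/
theorem exists_log {F : ℝ × ℝ → ℂ} (hF : Continuous F) (h0 : ∀ z, F z ≠ 0) :
    ∃ Λ : ℝ × ℝ → ℂ, Continuous Λ ∧ ∀ z, Complex.exp (Λ z) = F z := by
  obtain ⟨Λ, ⟨-, hΛ⟩, -⟩ := Complex.isCoveringMapOn_exp.existsUnique_continuousMap_lifts
    (⟨F, hF⟩ : C(ℝ × ℝ, ℂ)) (a₀ := ((0, 0) : ℝ × ℝ)) (Complex.exp_log (h0 (0, 0)))
    (fun z => h0 z)
  exact ⟨Λ, Λ.continuous, fun z => congrFun hΛ z⟩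

/-- a periodic curve on which a logarithm exists -/
theorem per {G : ℝ → ℂ} {N : ℝ} (hG : Continuous G) (hper : ∀ x, G (x + N) = G x) {w : ℂ}
    (hlog : HasLog (range G) w) {l : ℝ → ℂ} (hl : Continuous l)
    (hle : ∀ x, Complex.exp (l x) = G x - w) (x : ℝ) : l (x + N) = l x := by
  obtain ⟨L, hL, hLe⟩ := hlog
  have h1 : Continuous fun x => L (G x) := hL.comp_continuous hG fun x => mem_range_self x
  have h2 := diff hl h1 (fun x => by rw [hle x, hLe _ (mem_range_self x)]) 0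
  rw [h2 (x + N), h2 x, hper x]

end Tor51

open Tor51

theorem tor : TorStatement := by
  intro G H N x₀ y₀ hG hH hGN hHN hne hlG hlH L hL hLe x
  obtain ⟨Λ, hΛ, hΛe⟩ := exists_log (F := fun z : ℝ × ℝ => G z.1 - H z.2) (by fun_prop)
    (fun z => sub_ne_zero.2 (hne z.1 z.2))
  -- the period in the first variable
  have h1 : ∀ z : ℝ × ℝ, Λ (z.1 + N, z.2) = Λ z := by
    intro z
    have h2 := diff (g₁ := fun z : ℝ × ℝ => Λ (z.1 + N, z.2)) (g₂ := Λ) (by fun_prop) hΛ
      (fun z => by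
        show Complex.exp (Λ (z.1 + N, z.2)) = Complex.exp (Λ z)
        rw [hΛe, hΛe]
        show G (z.1 + N) - H z.2 = G z.1 - H z.2
        rw [hGN]) (0, y₀) z
    have h3 := per hG hGN hlG (l := fun x => Λ (x, y₀)) (by fun_prop) (fun x => hΛe (x, y₀)) 0
    have h4 : Λ ((0 : ℝ) + N, y₀) - Λ (0, y₀) = 0 := sub_eq_zero.2 h3
    rw [h2]
    show Λ z + (Λ ((0 : ℝ) + N, y₀) - Λ (0, y₀)) = Λ z
    rw [h4, add_zero]
  -- the period in the second variable
  have h2 : ∀ z : ℝ × ℝ, Λ (z.1, z.2 + N) = Λ z := by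
    intro z
    have h2 := diff (g₁ := fun z : ℝ × ℝ => Λ (z.1, z.2 + N)) (g₂ := Λ) (by fun_prop) hΛ
      (fun z => by
        show Complex.exp (Λ (z.1, z.2 + N)) = Complex.exp (Λ z)
        rw [hΛe, hΛe]
        show G z.1 - H (z.2 + N) = G z.1 - H z.2
        rw [hHN]) (x₀, 0) z
    have h3 := per hH hHN hlH (l := fun y => Λ (x₀, y) + Real.pi * Complex.I) (by fun_prop)
      (fun y => by
        rw [Complex.exp_add, Complex.exp_pi_mul_I, hΛe]
        ring) 0
    have h4 : Λ (x₀, (0 : ℝ) + N) - Λ (x₀, 0) = 0 := sub_eq_zero.2 (add_right_cancel h3)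
    rw [h2]
    show Λ z + (Λ (x₀, (0 : ℝ) + N) - Λ (x₀, 0)) = Λ z
    rw [h4, add_zero]
  have h3 := diff hL (g₂ := fun x => Λ (x, x)) (by fun_prop) (fun x => by rw [hLe, hΛe]) 0
  rw [h3 (x + N), h3 x]
  have h4 : Λ (x + N, x + N) = Λ (x, x) := by
    rw [h1 (x, x + N), h2 (x, x)]
  show Λ (x + N, x + N) + _ = Λ (x, x) + _
  rw [h4]

end Pool.Agent.Imp
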