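import Pool.Agent.Lib.MP_1c105c_an.Scg
import Pool.Agent.Lib.MP_1c105c_an.Odd
import Pool.Agent.Lib.MP_1c105c_an.Tor
import Pool.Agent.Lib.MP_1c105c_an.Top
import Pool.Agent.Lib.MP_1c105c_an.Mona
import Pool.Agent.Lib.MP_1c105c_an.Gap
import Pool.Agent.Lib.MP_1c105c_an.Hol
import Pool.Agent.Lib.MP_1c105c_an.Comb

/-! MP_1c105c_an: the separation theorem for polynomials with several critical points, without
hypotheses. -/

set_option autoImplicit false

open Filter Topology Set Polynomial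

namespace Pool.Agent.Imp

namespace Scg

/-- If small cycles accumulate at the cycle of `α`, some critical point has the property `Sep`. -/
theorem exists_sep {f : ℂ[X]} {P : ℂ → ℂ} (hd : 2 ≤ f.natDegree) (hP : Half f P)
    (hinf : ∀ R : ℝ, ∃ M : ℝ, ∀ u : ℂ, M ≤ u.re → R ≤ ‖P u‖) {α : ℂ} {p : ℕ} (hp : 1 ≤ p)
    (hα : (fun w => f.eval w)^[p] α = α) (hsm : NearCycles f α) :
    ∃ c, f.derivative.eval c = 0 ∧ Sep f P α c :=
  spag (hol (mona64 (mon64 odd tor lft top) lft) gap) comb (pul deg) acp acf hd hP hinf hp hα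
    (rays_of_near Sc.dep0 hd hP hinf hp hα hsm)

end Scg

end Pool.Agent.Imp
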