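import Pool.Agent.Lib.MP_1c105c_an.Defs4

/-! MP_1c105c_an, row SHO: short chords. -/

set_option autoImplicit false

open Filter Topology Set Polynomial

namespace Pool.Agent.Imp

namespace Sho

theorem per_int {f : ℂ[X]} {P : ℂ → ℂ} (H : Half f P) (m : ℤ) (u : ℂ) :
    P (u + m * Complex.I) = P u := by
  induction m using Int.induction_on generalizing u with
  | zero => simp
  | succ i ih =>
    have : u + ((i : ℤ) + 1 : ℤ) * Complex.I = (u + (i : ℤ) * Complex.I) + Complex.I := by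
      push_cast; ring
    rw [this, H.per, ih]
  | pred i ih =>
    have h1 := H.per (u + ((-(i : ℤ) - 1 : ℤ) : ℂ) * Complex.I)
    have : u + ((-(i : ℤ) - 1 : ℤ) : ℂ) * Complex.I + Complex.I
        = u + ((-(i : ℤ) : ℤ) : ℂ) * Complex.I := by
      push_cast; ring
    rw [this, ih] at h1
    exact h1.symm

theorem land_add {f : ℂ[X]} {P : ℂ → ℂ} (H : Half f P) {t : ℝ} {z : ℂ} (h : Land P t z)
    (m : ℤ) : Land P (t + m) z := by
  have e : (fun s : ℝ => P (s + ((t + m : ℝ) : ℂ) * Complex.I))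
      = fun s : ℝ => P (s + t * Complex.I) := by
    funext s
    rw [← per_int H m (s + t * Complex.I)]
    congr 1
    push_cast
    ring
  rw [Land, e]
  exact h

theorem land_unique {P : ℂ → ℂ} {t : ℝ} {z z' : ℂ} (h : Land P t z) (h' : Land P t z') :
    z = z' :=
  tendsto_nhds_unique h h'

/-- a regular index in every interval of length `l` -/
theorem exists_reg {d m₀ n : ℕ} (hd : 2 ≤ d) {W : ℕ → Finset ℕ} (cnt : CntStatement)
    (hW : ∀ k < m₀, W k = ∅) (hW' : ∀ k, (W k).card ≤ d - 1) {l : ℝ} (hl : 0 < l) (hl1 : l ≤ 1)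
    (hm : 4 * (d : ℝ) ≤ l * d ^ m₀) (hn : 8 ≤ l * (d : ℝ) ^ n) (a x : ℝ) (j₀ : ℕ) :
    ∃ i : ℕ, i < d ^ n ∧ Reg d W n i ∧ i ≠ j₀ ∧ ∃ q : ℤ, x < (a + i) / (d : ℝ) ^ n + q ∧
      (a + i) / (d : ℝ) ^ n + q < x + l := by
  classical
  by_contra hcon
  push Not at hcon
  have hd0 : (0 : ℝ) < d := by
    have : 0 < d := by omega
    exact_mod_cast this
  have hN0 : (0 : ℝ) < (d : ℝ) ^ n := pow_pos hd0 n
  have hNpos : 0 < d ^ n := pow_pos (by omega) n
  have hNZ : (0 : ℤ) < (d : ℤ) ^ n := by exact_mod_cast hNpos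
  set A : ℝ := (d : ℝ) ^ n * x - a with hA
  set K : ℕ := ⌈l * (d : ℝ) ^ n⌉₊ - 1 with hK
  have hc : l * (d : ℝ) ^ n ≤ ⌈l * (d : ℝ) ^ n⌉₊ := Nat.le_ceil _
  have hc1 : (⌈l * (d : ℝ) ^ n⌉₊ : ℝ) < l * (d : ℝ) ^ n + 1 := Nat.ceil_lt_add_one (by positivity)
  have hc8 : 8 ≤ ⌈l * (d : ℝ) ^ n⌉₊ := by
    have : (8 : ℝ) ≤ ⌈l * (d : ℝ) ^ n⌉₊ := hn.trans hc
    exact_mod_cast this
  have hKr : (K : ℝ) = ⌈l * (d : ℝ) ^ n⌉₊ - 1 := by
    rw [hK, Nat.cast_sub (by omega), Nat.cast_one]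
  have hKlt : (K : ℝ) < l * (d : ℝ) ^ n := by rw [hKr]; linarith
  have hKge : l * (d : ℝ) ^ n - 1 ≤ K := by rw [hKr]; linarith
  have hKN : K ≤ d ^ n := by
    have : (K : ℝ) ≤ (d : ℝ) ^ n := by nlinarith
    exact_mod_cast this
  -- the residues
  let r : ℕ → ℕ := fun κ => ((⌊A⌋ + 1 + κ) % (d : ℤ) ^ n).toNat
  have hr : ∀ κ : ℕ, ((r κ : ℕ) : ℤ) = (⌊A⌋ + 1 + κ) % (d : ℤ) ^ n := fun κ =>
    Int.toNat_of_nonneg (Int.emod_nonneg _ hNZ.ne')
  have hrlt : ∀ κ : ℕ, r κ < d ^ n := by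
    intro κ
    have h1 : ((r κ : ℕ) : ℤ) < (d : ℤ) ^ n := by
      rw [hr]; exact Int.emod_lt_of_pos _ hNZ
    exact_mod_cast h1
  have hinj : ∀ κ ∈ Finset.range K, ∀ κ' ∈ Finset.range K, r κ = r κ' → κ = κ' := by
    intro κ hκ κ' hκ' h
    rw [Finset.mem_range] at hκ hκ'
    have h1 : (⌊A⌋ + 1 + (κ : ℤ)) % (d : ℤ) ^ n = (⌊A⌋ + 1 + (κ' : ℤ)) % (d : ℤ) ^ n := by
      rw [← hr, ← hr, h]
    have h2 : (d : ℤ) ^ n ∣ (κ' : ℤ) - κ := by
      have := Int.ModEq.dvd h1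
      have e : ⌊A⌋ + 1 + (κ' : ℤ) - (⌊A⌋ + 1 + (κ : ℤ)) = (κ' : ℤ) - κ := by ring
      rwa [e] at this
    have hKZ : (K : ℤ) ≤ (d : ℤ) ^ n := by exact_mod_cast hKN
    have h3 : |(κ' : ℤ) - κ| < (d : ℤ) ^ n := by
      rw [abs_lt]
      constructor <;> omega
    have h4 := Int.eq_zero_of_abs_lt_dvd h2 h3
    omega
  set T : Finset ℕ := (Finset.range K).image r with hT
  have hTcard : T.card = K := by
    rw [hT, Finset.card_image_of_injOn, Finset.card_range]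
    intro κ hκ κ' hκ' h
    exact hinj κ (by simpa using hκ) κ' (by simpa using hκ') h
  have hirr : ∀ i ∈ T.erase j₀, i < d ^ n ∧ ¬ Reg d W n i := by
    intro i hi
    rw [Finset.mem_erase] at hi
    obtain ⟨hi0, hi⟩ := hi
    rw [hT, Finset.mem_image] at hi
    obtain ⟨κ, hκ, rfl⟩ := hi
    rw [Finset.mem_range] at hκ
    refine ⟨hrlt κ, fun hreg => ?_⟩
    have h := hcon (r κ) (hrlt κ) hreg hi0 ((⌊A⌋ + 1 + (κ : ℤ)) / (d : ℤ) ^ n)
    -- the point
    have e1 : (a + (r κ : ℝ)) / (d : ℝ) ^ n + (((⌊A⌋ + 1 + (κ : ℤ)) / (d : ℤ) ^ n : ℤ) : ℝ)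
        = (a + (⌊A⌋ + 1 + κ)) / (d : ℝ) ^ n := by
      have h1 : (((⌊A⌋ + 1 + (κ : ℤ)) % (d : ℤ) ^ n : ℤ) : ℝ)
          + (d : ℝ) ^ n * (((⌊A⌋ + 1 + (κ : ℤ)) / (d : ℤ) ^ n : ℤ) : ℝ) = ⌊A⌋ + 1 + κ := by
        have := Int.emod_add_mul_ediv (⌊A⌋ + 1 + (κ : ℤ)) ((d : ℤ) ^ n)
        have h2 := congrArg (fun z : ℤ => (z : ℝ)) this
        push_cast at h2 ⊢
        exact h2
      have h3 : ((r κ : ℕ) : ℝ) = (((⌊A⌋ + 1 + (κ : ℤ)) % (d : ℤ) ^ n : ℤ) : ℝ) := by
        rw [← hr]; simp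
      rw [h3, div_add' _ _ _ hN0.ne']
      congr 1
      rw [← h1]
      ring
    rw [e1] at h
    have hfl := Int.floor_le A
    have hfl' := Int.lt_floor_add_one A
    have h5 : x < (a + (⌊A⌋ + 1 + κ)) / (d : ℝ) ^ n := by
      rw [lt_div_iff₀ hN0]
      have : (0 : ℝ) ≤ κ := Nat.cast_nonneg _
      nlinarith
    have h6 := h h5
    have h7 : (a + (⌊A⌋ + 1 + κ)) / (d : ℝ) ^ n < x + l := by
      rw [div_lt_iff₀ hN0]
      have h8 : (κ : ℝ) + 1 ≤ K := by exact_mod_cast hκ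
      nlinarith
    linarith
  have hcnt := cnt d m₀ n W hd hW hW' _ hirr
  have hcard : K - 1 ≤ (T.erase j₀).card := by
    rw [← hTcard]
    exact Finset.pred_card_le_card_erase
  have hcardr : (K : ℝ) - 1 ≤ (T.erase j₀).card := by
    have h1 : K ≤ (T.erase j₀).card + 1 := by omega
    have h2 : (K : ℝ) ≤ (T.erase j₀).card + 1 := by exact_mod_cast h1
    linarith
  have hcntr : ((T.erase j₀).card : ℝ) * (d : ℝ) ^ m₀ ≤ (d : ℝ) ^ n * d := by
    have : (((T.erase j₀).card * d ^ m₀ : ℕ) : ℝ) ≤ ((d ^ (n + 1) : ℕ) : ℝ) := by exact_mod_cast hcnt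
    push_cast at this
    rw [pow_succ] at this
    exact this
  have hM0 : (0 : ℝ) < (d : ℝ) ^ m₀ := pow_pos hd0 m₀
  -- contradiction
  have h1 : (l * (d : ℝ) ^ n - 2) * (d : ℝ) ^ m₀ ≤ (d : ℝ) ^ n * d :=
    le_trans (mul_le_mul_of_nonneg_right (by linarith) hM0.le) hcntr
  have h2 : (d : ℝ) ^ n * (4 * d) ≤ (d : ℝ) ^ n * (l * d ^ m₀) :=
    mul_le_mul_of_nonneg_left hm hN0.le
  have h3 : 4 * ((l * (d : ℝ) ^ n - 2) * (d : ℝ) ^ m₀) ≤ (l * (d : ℝ) ^ n) * (d : ℝ) ^ m₀ := by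
    nlinarith
  have h4 : 4 * (l * (d : ℝ) ^ n - 2) ≤ l * (d : ℝ) ^ n := by
    have : (4 * (l * (d : ℝ) ^ n - 2)) * (d : ℝ) ^ m₀ ≤ (l * (d : ℝ) ^ n) * (d : ℝ) ^ m₀ := by
      linarith
    exact le_of_mul_le_mul_right this hM0
  linarith

end Sho

open Sho in
theorem sho (bin : BinStatement) (uns : UnsStatement) (nc : NcStatement) (cnt : CntStatement) :
    ShoStatement := by
  classical
  intro f P hf H hinf hbi l₀ hl₀
  -- the length
  set l : ℝ := min l₀ (1 / 2) with hldef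
  have hl : 0 < l := lt_min hl₀ (by norm_num)
  have hl1 : l ≤ 1 / 2 := min_le_right _ _
  have hll : l ≤ l₀ := min_le_left _ _
  set d : ℕ := f.natDegree with hd
  have hd1 : (1 : ℝ) < d := by
    have : 1 < d := by omega
    exact_mod_cast this
  have hd0 : (0 : ℝ) < d := by linarith
  obtain ⟨m₀, hm₀⟩ : ∃ m₀ : ℕ, 4 * (d : ℝ) ≤ l * d ^ m₀ := by
    obtain ⟨m, hm⟩ := pow_unbounded_of_one_lt (4 * (d : ℝ) / l) hd1
    refine ⟨m, ?_⟩
    rw [div_lt_iff₀ hl] at hm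
    linarith
  obtain ⟨n, hn⟩ : ∃ n : ℕ, 8 ≤ l * (d : ℝ) ^ n := by
    obtain ⟨m, hm⟩ := pow_unbounded_of_one_lt (8 / l) hd1
    refine ⟨m, ?_⟩
    rw [div_lt_iff₀ hl] at hm
    linarith
  -- the exceptional set
  have hf' : f.derivative ≠ 0 := by
    intro h
    have h1 := Polynomial.natDegree_eq_zero_of_derivative_eq_zero h
    omega
  set E : Finset ℂ := (f.derivative.roots.toFinset ×ˢ Finset.range m₀).image
    fun p => (fun w => f.eval w)^[p.2 + 1] p.1 with hE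
  obtain ⟨z, ⟨a, b, ha, hb, hab⟩, hz⟩ := bin f P hf H hbi E
  obtain ⟨s₁, W, hs₁, hW, hW', hun⟩ := uns f P hf H m₀ a b z ha hb hab (by
    intro c hc k hk h
    refine hz ?_
    rw [hE, Finset.mem_image]
    refine ⟨(c, k), ?_, h⟩
    rw [Finset.mem_product, Multiset.mem_toFinset, Polynomial.mem_roots hf', Finset.mem_range]
    exact ⟨hc, hk⟩)
  obtain ⟨M, B, hB, hun⟩ := hun 1 one_pos
  obtain ⟨w, hw, hch⟩ := hun n
  have hN0 : (0 : ℝ) < (d : ℝ) ^ n := pow_pos hd0 n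
  -- the regular indices and the partners
  choose! j' hj' using hch
  set Rg : Finset ℕ := (Finset.range (d ^ n)).filter fun j => Reg d W n j with hRg
  set al : ℕ → ℝ := fun j => (a + j) / (d : ℝ) ^ n with hal
  set be : ℕ → ℝ := fun j => (b + j' j) / (d : ℝ) ^ n with hbe
  have hne : ∀ j (m : ℤ), be j ≠ al j + m := by
    intro j m h
    refine hab (m * (d : ℤ) ^ n + j - j' j) ?_
    have h1 : (b + (j' j : ℝ)) / (d : ℝ) ^ n = (a + j) / (d : ℝ) ^ n + m := h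
    rw [div_add' _ _ _ hN0.ne', div_left_inj' hN0.ne'] at h1
    push_cast
    linarith
  have hLa : ∀ j ∈ Rg, Land P (al j) (w j) := fun j hj => by
    rw [hRg, Finset.mem_filter, Finset.mem_range] at hj
    exact (hj' j hj.1 hj.2).1
  have hLb : ∀ j ∈ Rg, Land P (be j) (w j) := fun j hj => by
    rw [hRg, Finset.mem_filter, Finset.mem_range] at hj
    exact (hj' j hj.1 hj.2).2.1
  have hwinj : ∀ i ∈ Rg, ∀ j ∈ Rg, w i = w j → i = j := by
    intro i hi j hj h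
    rw [hRg, Finset.mem_filter, Finset.mem_range] at hi hj
    exact hw i j hi.1 hj.1 hi.2 hj.2 h
  -- an index in every interval
  have hex : ∀ (x : ℝ) (j₀ : ℕ), ∃ i ∈ Rg, i ≠ j₀ ∧ ∃ q : ℤ, x < al i + q ∧ al i + q < x + l := by
    intro x j₀
    obtain ⟨i, hi, hreg, hne, q, h1, h2⟩ := exists_reg hf cnt hW hW' hl (by linarith) hm₀ hn a x j₀
    exact ⟨i, by rw [hRg, Finset.mem_filter, Finset.mem_range]; exact ⟨hi, hreg⟩, hne, q, h1, h2⟩
  -- the lengths of the arcs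
  let len : ℕ × Bool → ℝ := fun p => if p.2 then Int.fract (be p.1 - al p.1)
    else Int.fract (al p.1 - be p.1)
  obtain ⟨j₁, hj₁, -⟩ := hex 0 0
  obtain ⟨p, hp, hmin⟩ := Finset.exists_min_image (Rg ×ˢ (Finset.univ : Finset Bool)) len
    ⟨(j₁, true), by simp [hj₁]⟩
  obtain ⟨j, ε⟩ := p
  have hj : j ∈ Rg := (Finset.mem_product.1 hp).1
  -- the arc
  obtain ⟨x, y, hxy, hlx, hly, hxw⟩ : ∃ x y : ℝ, y = x + len (j, ε) ∧ Land P x (w j) ∧
      Land P y (w j) ∧ 0 < len (j, ε) ∧ len (j, ε) < 1 := by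
    cases ε with
    | true =>
      have h0 : len (j, true) = Int.fract (be j - al j) := rfl
      have h1 : al j + Int.fract (be j - al j) = be j + (-⌊be j - al j⌋ : ℤ) := by
        rw [← Int.self_sub_floor]; push_cast; ring
      refine ⟨al j, al j + len (j, true), rfl, hLa j hj, ?_, ?_, ?_⟩
      · rw [h0, h1]
        exact land_add H (hLb j hj) _
      · rw [h0]
        refine lt_of_le_of_ne (Int.fract_nonneg _) fun h => ?_
        rw [← h, add_zero] at h1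
        refine hne j ⌊be j - al j⌋ ?_
        push_cast at h1
        linarith
      · rw [h0]; exact Int.fract_lt_one _
    | false =>
      have h0 : len (j, false) = Int.fract (al j - be j) := rfl
      have h1 : be j + Int.fract (al j - be j) = al j + (-⌊al j - be j⌋ : ℤ) := by
        rw [← Int.self_sub_floor]; push_cast; ring
      refine ⟨be j, be j + len (j, false), rfl, hLb j hj, ?_, ?_, ?_⟩
      · rw [h0, h1]
        exact land_add H (hLa j hj) _
      · rw [h0]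
        refine lt_of_le_of_ne (Int.fract_nonneg _) fun h => ?_
        rw [← h, add_zero] at h1
        exact hne j _ h1
      · rw [h0]; exact Int.fract_lt_one _
  by_cases hle : len (j, ε) ≤ l
  · exact ⟨x, y, w j, by linarith [hxw.1], by linarith, hlx, hly⟩
  exfalso
  rw [not_le] at hle
  obtain ⟨i, hi, hij, q, hq1, hq2⟩ := hex x j
  have hwij : w j ≠ w i := fun h => hij (hwinj i hi j hj h.symm)
  set α : ℝ := al i + q with hα
  have hLα : Land P α (w i) := land_add H (hLa i hi) q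
  -- the partner in `[x, x + 1)`
  set β : ℝ := be i + (-⌊be i - x⌋ : ℤ) with hβ
  have hβ' : β = x + Int.fract (be i - x) := by
    rw [hβ, ← Int.self_sub_floor]; push_cast; ring
  have hLβ : Land P β (w i) := land_add H (hLb i hi) _
  have hβ0 : x ≤ β := by rw [hβ']; linarith [Int.fract_nonneg (be i - x)]
  have hβ1 : β < x + 1 := by rw [hβ']; linarith [Int.fract_lt_one (be i - x)]
  have hβx : β ≠ x := by
    intro h
    rw [h] at hLβ
    exact hwij (land_unique hlx hLβ)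
  have hβy : β ≠ y := by
    intro h
    rw [h] at hLβ
    exact hwij (land_unique hly hLβ)
  have hxβ : x < β := lt_of_le_of_ne hβ0 (Ne.symm hβx)
  have hαy : α < y := by linarith
  rcases lt_or_gt_of_ne hβy with hlt | hgt
  · -- a shorter arc
    have hαβ : α ≠ β := by
      intro h
      refine hne i (q + ⌊be i - x⌋) ?_
      have h1 : al i + q = be i + (-⌊be i - x⌋ : ℤ) := h
      push_cast at h1 ⊢
      linarith
    rcases lt_or_gt_of_ne hαβ with h1 | h1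
    · -- `α < β`
      have h2 := hmin (i, true) (by simp [hi])
      have h3 : len (i, true) = β - α := by
        show Int.fract (be i - al i) = β - α
        rw [Int.fract_eq_iff]
        refine ⟨by linarith, by linarith, q + ⌊be i - x⌋, ?_⟩
        rw [hα, hβ]; push_cast; ring
      rw [h3] at h2
      linarith
    · have h2 := hmin (i, false) (by simp [hi])
      have h3 : len (i, false) = α - β := by
        show Int.fract (al i - be i) = α - β
        rw [Int.fract_eq_iff]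
        refine ⟨by linarith, by linarith, -q - ⌊be i - x⌋, ?_⟩
        rw [hα, hβ]; push_cast; ring
      rw [h3] at h2
      linarith
  · exact nc f P hf H hinf x y α β (w j) (w i) hlx hly hLα hLβ hwij hq1 hαy hgt hβ1

end Pool.Agent.Imp
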