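import Pool.Agent.Lib.MP_1c105c_an.Nr
import Pool.Agent.Lib.MP_1c105c_an.Ene
import Pool.Agent.Lib.MP_1c105c_an.Koe
import Pool.Agent.Lib.MP_1c105c_an.Hyp

/-! MP_1c105c_an, row SNA: the snail lemma by energy (proof by helper94). -/

set_option autoImplicit false

open MeasureTheory Set Metric Filter Topology Polynomial
open scoped ENNReal

namespace Pool.Agent.Imp.Sna

open AreaAux EneAux

/-- the logarithmic derivative is large somewhere -/
theorem exists_big {h : ℂ → ℂ} (hd : DifferentiableOn ℂ h HP) (h0 : ∀ v ∈ HP, h v ≠ 0)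
    {D c η s : ℝ} (hD : 2 ≤ D) (hη : 0 < η) (hηc : η * D * Real.exp (η * D) < c)
    (hs : 0 < s) (hst : c * ‖h ((s / D : ℝ) : ℂ)‖ ≤ ‖h (s : ℂ) - h ((s / D : ℝ) : ℂ)‖) :
    ∃ x : ℝ, s / D ≤ x ∧ x ≤ s ∧ η ≤ x * ‖deriv h x / h x‖ := by
  by_contra hcon
  push Not at hcon
  have hD0 : 0 < D := by linarith
  have hsD : 0 < s / D := by positivity
  have hsDs : s / D ≤ s := div_le_self hs.le (by linarith)
  have hmem : ∀ x : ℝ, s / D ≤ x → ((x : ℝ) : ℂ) ∈ HP := fun x hx => by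
    show 0 < ((x : ℝ) : ℂ).re
    rw [Complex.ofReal_re]
    linarith
  set K : ℝ := η * D / s with hK
  have hK0 : 0 < K := by positivity
  have hder : ∀ x : ℝ, s / D ≤ x → HasDerivAt (fun x : ℝ => h (x : ℂ)) (deriv h x) x := by
    intro x hx
    exact (hd.differentiableAt (isOpen_HP.mem_nhds (hmem x hx))).hasDerivAt.comp_ofReal
  have hbd : ∀ x : ℝ, s / D ≤ x → x ≤ s → ‖deriv h x‖ ≤ K * ‖h x‖ := by
    intro x hx hxs
    have hx0 : 0 < x := by linarith
    have h1 := (hcon x hx hxs).le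
    have hn : 0 < ‖h (x : ℂ)‖ := norm_pos_iff.mpr (h0 _ (hmem x hx))
    rw [norm_div, mul_div_assoc', div_le_iff₀ hn] at h1
    have h2 : ‖deriv h (x : ℂ)‖ ≤ η / x * ‖h (x : ℂ)‖ := by
      rw [div_mul_eq_mul_div, le_div_iff₀ hx0, mul_comm]
      exact h1
    refine h2.trans (mul_le_mul_of_nonneg_right ?_ hn.le)
    rw [hK, div_le_div_iff₀ hx0 hs]
    have h3 : s ≤ x * D := by rwa [div_le_iff₀ hD0] at hx
    nlinarith
  have hlen : s - s / D ≤ s := by linarith
  have hgr : ∀ x : ℝ, s / D ≤ x → x ≤ s →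
      ‖h (x : ℂ)‖ ≤ ‖h ((s / D : ℝ) : ℂ)‖ * Real.exp (η * D) := by
    intro x hx hxs
    have h1 := norm_le_gronwallBound_of_norm_deriv_right_le
      (f := fun x : ℝ => h (x : ℂ)) (f' := fun x : ℝ => deriv h (x : ℂ))
      (δ := ‖h ((s / D : ℝ) : ℂ)‖) (K := K) (ε := 0) (a := s / D) (b := s)
      (fun y hy => (hder y hy.1).continuousAt.continuousWithinAt)
      (fun y hy => (hder y hy.1).hasDerivWithinAt) le_rfl
      (fun y hy => by rw [add_zero]; exact hbd y hy.1 hy.2.le) x ⟨hx, hxs⟩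
    rw [gronwallBound_ε0] at h1
    refine h1.trans (mul_le_mul_of_nonneg_left (Real.exp_le_exp.mpr ?_) (norm_nonneg _))
    have h2 : K * (x - s / D) ≤ K * s := mul_le_mul_of_nonneg_left (by linarith) hK0.le
    refine h2.trans (le_of_eq ?_)
    rw [hK]
    field_simp
  have hn0 : 0 < ‖h ((s / D : ℝ) : ℂ)‖ := norm_pos_iff.mpr (h0 _ (hmem _ le_rfl))
  have h1 := norm_image_sub_le_of_norm_deriv_le_segment' (f := fun x : ℝ => h (x : ℂ))
    (f' := fun x : ℝ => deriv h (x : ℂ)) (a := s / D) (b := s)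
    (C := K * (‖h ((s / D : ℝ) : ℂ)‖ * Real.exp (η * D)))
    (fun y hy => (hder y hy.1).hasDerivWithinAt)
    (fun y hy => (hbd y hy.1 hy.2.le).trans
      (mul_le_mul_of_nonneg_left (hgr y hy.1 hy.2.le) hK0.le)) s ⟨hsDs, le_rfl⟩
  have h2 : K * (‖h ((s / D : ℝ) : ℂ)‖ * Real.exp (η * D)) * (s - s / D) ≤
      K * (‖h ((s / D : ℝ) : ℂ)‖ * Real.exp (η * D)) * s :=
    mul_le_mul_of_nonneg_left hlen (by positivity)
  have h3 : K * (‖h ((s / D : ℝ) : ℂ)‖ * Real.exp (η * D)) * s =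
      η * D * Real.exp (η * D) * ‖h ((s / D : ℝ) : ℂ)‖ := by
    rw [hK]
    field_simp
  have h4 := hst.trans (h1.trans (h2.trans h3.le))
  have h5 := le_of_mul_le_mul_right h4 hn0
  linarith

/-- the mass of a ring -/
theorem ring_mass {B : ℝ} (hB : 0 < B) (N : ℕ) :
    ∫⁻ z in {w : ℂ | B / 2 ^ N < ‖w‖ ∧ ‖w‖ ≤ B}, dens z ≤ N * ENNReal.ofReal (4 * Real.pi) := by
  induction N with
  | zero =>
    have h : {w : ℂ | B / 2 ^ 0 < ‖w‖ ∧ ‖w‖ ≤ B} = ∅ := by
      rw [Set.eq_empty_iff_forall_notMem]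
      rintro w ⟨h1, h2⟩
      rw [pow_zero, div_one] at h1
      linarith
    rw [h, Measure.restrict_empty, lintegral_zero_measure]
    exact zero_le
  | succ N ih =>
    set r : ℝ := B / 2 ^ (N + 1) with hr
    have hr0 : 0 < r := by positivity
    have h2r : B / 2 ^ N = 2 * r := by
      rw [hr, pow_succ]
      field_simp
    have hsub : {w : ℂ | r < ‖w‖ ∧ ‖w‖ ≤ B} ⊆
        {w : ℂ | r < ‖w‖ ∧ ‖w‖ ≤ 2 * r} ∪ {w : ℂ | B / 2 ^ N < ‖w‖ ∧ ‖w‖ ≤ B} := by
      rintro w ⟨h1, h2⟩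
      rcases le_or_gt ‖w‖ (2 * r) with h3 | h3
      · exact Or.inl ⟨h1, h3⟩
      · exact Or.inr ⟨by rw [h2r]; exact h3, h2⟩
    have hone : ∫⁻ z in {w : ℂ | r < ‖w‖ ∧ ‖w‖ ≤ 2 * r}, dens z ≤
        ENNReal.ofReal (4 * Real.pi) := by
      have hm : MeasurableSet {w : ℂ | r < ‖w‖ ∧ ‖w‖ ≤ 2 * r} :=
        (isOpen_lt continuous_const continuous_norm).measurableSet.inter
          (isClosed_le continuous_norm continuous_const).measurableSet
      calc ∫⁻ z in {w : ℂ | r < ‖w‖ ∧ ‖w‖ ≤ 2 * r}, dens z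
          ≤ ∫⁻ _ in {w : ℂ | r < ‖w‖ ∧ ‖w‖ ≤ 2 * r}, ENNReal.ofReal ((r ^ 2)⁻¹) := by
            refine setLIntegral_mono' hm fun w hw => ?_
            rw [dens]
            refine ENNReal.ofReal_le_ofReal ?_
            have h1 : r < ‖w‖ := hw.1
            gcongr
        _ = ENNReal.ofReal ((r ^ 2)⁻¹) * volume {w : ℂ | r < ‖w‖ ∧ ‖w‖ ≤ 2 * r} := by
            rw [setLIntegral_const]
        _ ≤ ENNReal.ofReal ((r ^ 2)⁻¹) * volume (closedBall (0 : ℂ) (2 * r)) := by
            gcongr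
            intro w hw
            rw [mem_closedBall_zero_iff]
            exact hw.2
        _ = ENNReal.ofReal (4 * Real.pi) := by
            rw [Complex.volume_closedBall]
            have hpi : ((NNReal.pi : NNReal) : ℝ≥0∞) = ENNReal.ofReal Real.pi := by
              rw [ENNReal.ofReal, NNReal.pi.eq_1]
              congr 1
              exact NNReal.eq (by
                rw [Real.coe_toNNReal _ Real.pi_pos.le]
                rfl)
            rw [hpi, ← ENNReal.ofReal_pow (by positivity), ← ENNReal.ofReal_mul (by positivity),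
              ← ENNReal.ofReal_mul (by positivity)]
            congr 1
            field_simp
            ring
    calc ∫⁻ z in {w : ℂ | r < ‖w‖ ∧ ‖w‖ ≤ B}, dens z
        ≤ ∫⁻ z in {w : ℂ | r < ‖w‖ ∧ ‖w‖ ≤ 2 * r} ∪ {w : ℂ | B / 2 ^ N < ‖w‖ ∧ ‖w‖ ≤ B},
            dens z := lintegral_mono_set hsub
      _ ≤ (∫⁻ z in {w : ℂ | r < ‖w‖ ∧ ‖w‖ ≤ 2 * r}, dens z) +
            ∫⁻ z in {w : ℂ | B / 2 ^ N < ‖w‖ ∧ ‖w‖ ≤ B}, dens z := lintegral_union_le _ _ _
      _ ≤ ENNReal.ofReal (4 * Real.pi) + N * ENNReal.ofReal (4 * Real.pi) := by gcongr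
      _ = ((N + 1 : ℕ) : ℝ≥0∞) * ENNReal.ofReal (4 * Real.pi) := by
            push_cast
            ring

/-- the part of the cone in which `h` is not too small -/
theorem slow {h : ℂ → ℂ} (hd : DifferentiableOn ℂ h HP) (h0 : ∀ v ∈ HP, h v ≠ 0)
    {D ε s : ℝ} (hD : 2 ≤ D) (hε : 0 < ε) (hs : 0 < s) (hsD : s * D ≤ 1)
    (hstep : ∀ v : ℂ, 0 < v.re → v.re ≤ s → |v.im| ≤ v.re →
      ‖h (D * v)‖ ≤ (1 + ε) * ‖h v‖) :
    ∃ μ : ℝ, 0 < μ ∧ ∀ (k : ℕ) (v : ℂ), |v.im| ≤ v.re → s / D ^ k ≤ v.re → v.re ≤ 1 →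
      μ ≤ (1 + ε) ^ k * ‖h v‖ := by
  have hD0 : 0 < D := by linarith
  have hs1 : s ≤ 1 := by nlinarith
  set C : Set ℂ := {v | |v.im| ≤ v.re ∧ s ≤ v.re ∧ v.re ≤ 1} with hC
  have hCc : IsCompact C := by
    refine isCompact_of_isClosed_isBounded ?_ ?_
    · exact (isClosed_le (continuous_abs.comp Complex.continuous_im) Complex.continuous_re).inter
        ((isClosed_le continuous_const Complex.continuous_re).inter
          (isClosed_le Complex.continuous_re continuous_const))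
    · refine isBounded_iff_forall_norm_le.mpr ⟨2, fun v hv => ?_⟩
      obtain ⟨h1, h2, h3⟩ := hv
      refine (Complex.norm_le_abs_re_add_abs_im v).trans ?_
      rw [abs_of_pos (by linarith : 0 < v.re)]
      linarith
  have hCne : C.Nonempty := ⟨(s : ℂ), by
    show |((s : ℝ) : ℂ).im| ≤ ((s : ℝ) : ℂ).re ∧ s ≤ ((s : ℝ) : ℂ).re ∧ ((s : ℝ) : ℂ).re ≤ 1
    rw [Complex.ofReal_re, Complex.ofReal_im, abs_zero]
    exact ⟨hs.le, le_rfl, hs1⟩⟩
  have hCH : C ⊆ HP := fun v hv => by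
    show 0 < v.re
    linarith [hv.2.1]
  obtain ⟨v₀, hv₀, hmin⟩ := hCc.exists_isMinOn hCne (f := fun v => ‖h v‖)
    ((hd.continuousOn.mono hCH).norm)
  have hμ : 0 < ‖h v₀‖ := norm_pos_iff.mpr (h0 _ (hCH hv₀))
  refine ⟨‖h v₀‖, hμ, fun k => ?_⟩
  induction k with
  | zero =>
    intro v h1 h2 h3
    rw [pow_zero, div_one] at h2
    rw [pow_zero, one_mul]
    exact hmin ⟨h1, h2, h3⟩
  | succ k ih =>
    intro v h1 h2 h3
    have hpos : 0 < v.re := lt_of_lt_of_le (by positivity) h2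
    have hone : (1 : ℝ) ≤ (1 + ε) ^ (k + 1) := one_le_pow₀ (by linarith)
    rcases le_or_gt v.re s with h4 | h4
    · have hre : ((D : ℂ) * v).re = D * v.re := by simp
      have him : ((D : ℂ) * v).im = D * v.im := by simp
      have h5 := ih ((D : ℂ) * v) (by
          rw [hre, him, abs_mul, abs_of_pos hD0]
          exact mul_le_mul_of_nonneg_left h1 hD0.le) (by
          rw [hre]
          rw [pow_succ, ← div_div, div_le_iff₀ hD0] at h2
          linarith) (by
          rw [hre]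
          nlinarith)
      refine h5.trans ?_
      rw [pow_succ, mul_assoc]
      exact mul_le_mul_of_nonneg_left (hstep v hpos h4 h1) (by positivity)
    · have h5 : ‖h v₀‖ ≤ ‖h v‖ := hmin ⟨h1, h4.le, h3⟩
      have h6 := norm_nonneg (h v)
      nlinarith

/-- a ball where the energy is large -/
theorem energy_ge {h : ℂ → ℂ} (hd : DifferentiableOn ℂ h HP) (h0 : ∀ v ∈ HP, h v ≠ 0)
    {η x : ℝ} (hη : 0 < η) (hx : 0 < x) (hb : η ≤ x * ‖deriv h x / h x‖) :
    ENNReal.ofReal (Real.pi * η ^ 2 / 4) ≤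
      ∫⁻ z in ball (x : ℂ) (x / 2), ENNReal.ofReal (‖deriv h z / h z‖ ^ 2) := by
  have hsub : ball (x : ℂ) (x / 2) ⊆ HP := by
    intro u hu
    rw [mem_ball, dist_eq_norm] at hu
    have h1 := (Complex.abs_re_le_norm (u - x)).trans_lt hu
    rw [Complex.sub_re, Complex.ofReal_re, abs_lt] at h1
    show 0 < u.re
    linarith
  have hh : DifferentiableOn ℂ (fun u => deriv h u / h u) (ball (x : ℂ) (x / 2)) :=
    ((hd.deriv isOpen_HP).div hd h0).mono hsub
  refine le_trans ?_ (ball_ge' (h := fun u => deriv h u / h u) (by linarith) hh)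
  refine ENNReal.ofReal_le_ofReal ?_
  have h2 : η ^ 2 ≤ (x * ‖deriv h x / h x‖) ^ 2 := pow_le_pow_left₀ hη.le hb 2
  have hpi := Real.pi_pos
  calc Real.pi * η ^ 2 / 4 ≤ Real.pi * (x * ‖deriv h x / h x‖) ^ 2 / 4 := by gcongr
    _ = Real.pi * (x / 2) ^ 2 * ‖deriv h x / h x‖ ^ 2 := by ring

/-- the energy is the mass of the image -/
theorem energy_eq {h : ℂ → ℂ} {U : Set ℂ} (hU : IsOpen U) (hd : DifferentiableOn ℂ h U)
    (hi : InjOn h U) : ∫⁻ z in U, ENNReal.ofReal (‖deriv h z / h z‖ ^ 2) =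
      ∫⁻ z in h '' U, dens z := by
  rw [lintegral_image_eq_lintegral_abs_det_fderiv_mul volume hU.measurableSet
    (f' := fun z => (ContinuousLinearMap.toSpanSingleton ℂ (deriv h z)).restrictScalars ℝ)
    (fun z hz => ((hd.differentiableAt (hU.mem_nhds hz)).hasDerivAt.hasFDerivAt.restrictScalars
      ℝ).hasFDerivWithinAt) hi]
  refine setLIntegral_congr_fun hU.measurableSet fun u hu => ?_
  rw [det_mul, abs_of_nonneg (by positivity), dens, ← ENNReal.ofReal_mul (by positivity)]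
  congr 1
  rw [norm_div, div_pow, div_eq_mul_inv]

/-- the snail lemma in the half plane -/
theorem snail {h : ℂ → ℂ} (hd : DifferentiableOn ℂ h HP) (h0 : ∀ v ∈ HP, h v ≠ 0)
    (hi : ∀ u ∈ HP, ∀ v ∈ HP, |u.im| < 1 / 2 → |v.im| < 1 / 2 → h u = h v → u = v)
    {D : ℝ} (hD : 2 ≤ D) {B : ℝ} (hB : ∀ v ∈ HP, v.re ≤ 1 → ‖h v‖ ≤ B) {l : ℂ} (hl : ‖l‖ = 1)
    (hl1 : l ≠ 1)
    (hc : ∀ ε : ℝ, 0 < ε → ∃ s : ℝ, 0 < s ∧ ∀ v : ℂ, 0 < v.re → v.re ≤ s → |v.im| ≤ v.re →
      ‖h (D * v) - l * h v‖ ≤ ε * ‖h v‖) : False := by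
  have hD0 : 0 < D := by linarith
  set c : ℝ := ‖l - 1‖ / 2 with hcdef
  have hc0 : 0 < c := by
    have : 0 < ‖l - 1‖ := norm_pos_iff.mpr (sub_ne_zero.mpr hl1)
    positivity
  -- the constant η
  set e : ℝ := min 1 (c / 4) with he
  have he0 : 0 < e := lt_min one_pos (by positivity)
  set η : ℝ := e / D with hηdef
  have hη : 0 < η := by positivity
  have hηc : η * D * Real.exp (η * D) < c := by
    have h1 : η * D = e := by rw [hηdef]; field_simp
    rw [h1]
    have h2 : Real.exp e ≤ Real.exp 1 := Real.exp_le_exp.mpr (min_le_left _ _)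
    have h3 := Real.exp_one_lt_d9
    have h4 : e ≤ c / 4 := min_le_right _ _
    have h5 : Real.exp e < 3 := by linarith
    nlinarith [Real.exp_pos e]
  obtain ⟨s₁, hs₁, hc₁⟩ := hc c hc0
  set s₀ : ℝ := min (s₁ * D) (1 / 2) with hs₀def
  have hs₀ : 0 < s₀ := lt_min (by positivity) (by norm_num)
  have hs₀h : s₀ ≤ 1 / 2 := min_le_right _ _
  have hbig : ∀ s : ℝ, 0 < s → s ≤ s₀ → ∃ x : ℝ, s / D ≤ x ∧ x ≤ s ∧
      η ≤ x * ‖deriv h x / h x‖ := by
    intro s hs hss
    refine exists_big hd h0 hD hη hηc hs ?_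
    have h1 : s / D ≤ s₁ := by
      rw [div_le_iff₀ hD0]
      exact hss.trans (min_le_left _ _)
    have h2 := hc₁ ((s / D : ℝ) : ℂ) (by rw [Complex.ofReal_re]; positivity)
      (by rw [Complex.ofReal_re]; exact h1)
      (by rw [Complex.ofReal_re, Complex.ofReal_im, abs_zero]; positivity)
    have h3 : (D : ℂ) * ((s / D : ℝ) : ℂ) = (s : ℂ) := by
      rw [← Complex.ofReal_mul]
      congr 1
      field_simp
    rw [h3] at h2
    set w := h ((s / D : ℝ) : ℂ) with hw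
    have h4 : ‖l - 1‖ * ‖w‖ ≤ ‖h (s : ℂ) - w‖ + ‖h (s : ℂ) - l * w‖ := by
      rw [← norm_mul]
      have h5 : (l - 1) * w = (h (s : ℂ) - w) - (h (s : ℂ) - l * w) := by ring
      rw [h5]
      exact norm_sub_le _ _
    have h6 : ‖l - 1‖ = 2 * c := by rw [hcdef]; ring
    rw [h6] at h4
    linarith
  -- the points and balls
  have hex : ∀ j : ℕ, ∃ x : ℝ, s₀ / D ^ (3 * j) / D ≤ x ∧ x ≤ s₀ / D ^ (3 * j) ∧
      η ≤ x * ‖deriv h x / h x‖ := by
    intro j
    refine hbig _ (by positivity) (div_le_self hs₀.le (one_le_pow₀ (by linarith)))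
  choose x hx1 hx2 hx3 using hex
  have hx0 : ∀ j, 0 < x j := fun j => lt_of_lt_of_le (by positivity) (hx1 j)
  have hxs : ∀ j, x j ≤ 1 / 2 := fun j =>
    ((hx2 j).trans (div_le_self hs₀.le (one_le_pow₀ (by linarith)))).trans hs₀h
  have hball : ∀ j, ∀ z ∈ ball (x j : ℂ) (x j / 2), x j / 2 < z.re ∧ z.re < 3 / 2 * x j ∧
      |z.im| < x j / 2 := by
    intro j z hz
    rw [mem_ball, dist_eq_norm] at hz
    have h4 := (Complex.abs_re_le_norm (z - x j)).trans_lt hz
    have h5 := (Complex.abs_im_le_norm (z - x j)).trans_lt hz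
    rw [Complex.sub_re, Complex.ofReal_re, abs_lt] at h4
    rw [Complex.sub_im, Complex.ofReal_im, sub_zero] at h5
    exact ⟨by linarith, by linarith, h5⟩
  have hdis : ∀ j k : ℕ, j < k → Disjoint (ball (x j : ℂ) (x j / 2)) (ball (x k : ℂ) (x k / 2)) := by
    intro j k hjk
    rw [Set.disjoint_left]
    intro z hz hz'
    have h1 := (hball j z hz).1
    have h2 := (hball k z hz').2.1
    have h3 := hx1 j
    have h4 := hx2 k
    have h5 : s₀ / D ^ (3 * k) ≤ s₀ / D ^ (3 * j) / D ^ 3 := by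
      rw [div_div, ← pow_add]
      refine div_le_div_of_nonneg_left hs₀.le (by positivity) ?_
      exact pow_le_pow_right₀ (by linarith) (by omega)
    set y := s₀ / D ^ (3 * j) with hy
    have hy0 : 0 < y := by positivity
    have h6 : y / D ^ 3 * 3 ≤ y / D := by
      rw [div_mul_eq_mul_div, div_le_div_iff₀ (by positivity) hD0]
      have h7 : 3 * D ≤ D ^ 3 := by nlinarith [sq_nonneg (D - 2)]
      nlinarith
    linarith
  -- the choice of q and ε
  obtain ⟨q, hq⟩ := exists_nat_gt (49 / η ^ 2)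
  have hq49 : 49 < q * η ^ 2 := by
    rwa [div_lt_iff₀ (by positivity)] at hq
  have hq0 : (0 : ℝ) < q := by
    by_contra hcon
    have h1 : (q : ℝ) * η ^ 2 ≤ 0 := mul_nonpos_of_nonpos_of_nonneg (not_lt.mp hcon) (by positivity)
    linarith
  set ε : ℝ := 1 / (2 * q) with hεdef
  have hε : 0 < ε := by positivity
  have hε2 : (1 + ε) ^ q ≤ 2 := by
    have h1 : (1 + ε) ^ q ≤ Real.exp (q * ε) := by
      rw [mul_comm, Real.exp_mul, Real.rpow_natCast]
      refine pow_le_pow_left₀ (by positivity) ?_ q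
      linarith [Real.add_one_le_exp ε]
    have h2 : (q : ℝ) * ε = 1 / 2 := by rw [hεdef]; field_simp
    have h3 : Real.exp (1 / 2) ≤ 2 := by
      have h4 : Real.exp (1 / 2) ^ 2 = Real.exp 1 := by
        rw [← Real.exp_nat_mul]
        norm_num
      have h5 := Real.exp_one_lt_d9
      have h6 := Real.exp_pos (1 / 2)
      nlinarith
    rw [h2] at h1
    linarith
  obtain ⟨s₂, hs₂, hc₂⟩ := hc ε hε
  set s : ℝ := min s₂ (1 / D) with hsdef
  have hs : 0 < s := lt_min hs₂ (by positivity)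
  obtain ⟨μ, hμ, hslow⟩ := slow hd h0 hD hε hs (by
      have h1 : s ≤ 1 / D := min_le_right _ _
      rwa [le_div_iff₀ hD0] at h1) (by
      intro v hv1 hv2 hv3
      have h1 := hc₂ v hv1 (hv2.trans (min_le_left _ _)) hv3
      have h2 : ‖h (D * v)‖ ≤ ‖h (D * v) - l * h v‖ + ‖l * h v‖ := by
        have h3 : h (D * v) = (h (D * v) - l * h v) + l * h v := by ring
        calc ‖h (D * v)‖ = ‖(h (D * v) - l * h v) + l * h v‖ := by rw [← h3]
          _ ≤ _ := norm_add_le _ _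
      rw [norm_mul, hl, one_mul] at h2
      linarith)
  -- a power of `D` that compares `s` and `s₀`
  obtain ⟨m, hm⟩ := pow_unbounded_of_one_lt (2 * s / s₀) (by linarith : (1 : ℝ) < D)
  have hms : s / D ^ m ≤ s₀ / 2 := by
    rw [div_lt_iff₀ hs₀] at hm
    rw [div_le_iff₀ (by positivity)]
    nlinarith
  have hB0 : 0 < B := by
    have h1 : ((1 : ℝ) : ℂ) ∈ HP := by
      show 0 < ((1 : ℝ) : ℂ).re
      rw [Complex.ofReal_re]
      exact one_pos
    have h2 := hB _ h1 (by rw [Complex.ofReal_re])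
    exact lt_of_lt_of_le (norm_pos_iff.mpr (h0 _ h1)) h2
  -- the number of additional rings
  obtain ⟨C, hC⟩ := pow_unbounded_of_one_lt (B / μ * (1 + ε) ^ (m + 4)) (one_lt_two (α := ℝ))
  -- the estimate for `q * k` balls
  have key : ∀ k : ℕ, (k : ℝ) * (q * (η ^ 2 / 4)) ≤ 4 * (3 * k + C) := by
    intro k
    set n := q * k with hn
    set U : Set ℂ := ⋃ j ∈ Finset.range n, ball (x j : ℂ) (x j / 2) with hU
    have hUo : IsOpen U := isOpen_biUnion fun j _ => isOpen_ball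
    have hUmem : ∀ z ∈ U, 0 < z.re ∧ z.re ≤ 1 ∧ |z.im| < 1 / 2 ∧ |z.im| ≤ z.re ∧
        s₀ / D ^ (3 * n + 1) / 2 ≤ z.re := by
      intro z hz
      rw [hU, mem_iUnion₂] at hz
      obtain ⟨j, hj, hz⟩ := hz
      obtain ⟨h1, h2, h3⟩ := hball j z hz
      have h4 := hx0 j
      have h5 := hxs j
      refine ⟨by linarith, by linarith, by linarith, by linarith, ?_⟩
      have h6 := hx1 j
      have h7 : s₀ / D ^ (3 * n + 1) ≤ s₀ / D ^ (3 * j) / D := by
        rw [div_div, ← pow_succ]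
        refine div_le_div_of_nonneg_left hs₀.le (by positivity) ?_
        refine pow_le_pow_right₀ (by linarith) ?_
        have := Finset.mem_range.mp hj
        omega
      linarith
    have hUH : U ⊆ HP := fun z hz => (hUmem z hz).1
    have hinj : InjOn h U := fun u hu v hv huv =>
      hi u (hUH hu) v (hUH hv) (hUmem u hu).2.2.1 (hUmem v hv).2.2.1 huv
    have hlow : (n : ℝ≥0∞) * ENNReal.ofReal (Real.pi * η ^ 2 / 4) ≤
        ∫⁻ z in U, ENNReal.ofReal (‖deriv h z / h z‖ ^ 2) := by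
      rw [hU, lintegral_biUnion_finset (fun j _ k _ hjk => by
        rcases lt_or_gt_of_ne hjk with h1 | h1
        · exact hdis j k h1
        · exact (hdis k j h1).symm) (fun j _ => isOpen_ball.measurableSet)]
      calc (n : ℝ≥0∞) * ENNReal.ofReal (Real.pi * η ^ 2 / 4)
          = ∑ _j ∈ Finset.range n, ENNReal.ofReal (Real.pi * η ^ 2 / 4) := by
            rw [Finset.sum_const, Finset.card_range, nsmul_eq_mul]
        _ ≤ _ := Finset.sum_le_sum fun j _ => energy_ge hd h0 hη (hx0 j) (hx3 j)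
    rw [energy_eq hUo (hd.mono hUH) hinj] at hlow
    have himg : h '' U ⊆ {w : ℂ | B / 2 ^ (3 * k + C) < ‖w‖ ∧ ‖w‖ ≤ B} := by
      rintro _ ⟨z, hz, rfl⟩
      obtain ⟨h1, h2, h3, h4, h5⟩ := hUmem z hz
      refine ⟨?_, hB z h1 h2⟩
      have h6 : s / D ^ (3 * n + 1 + m) ≤ z.re := by
        refine le_trans ?_ h5
        rw [pow_add, mul_comm, ← div_div, div_div _ _ (2 : ℝ), mul_comm _ (2 : ℝ), ← div_div]
        exact div_le_div_of_nonneg_right hms (by positivity)
      have h7 := hslow (3 * n + 1 + m) z h4 h6 h2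
      have h8 : (1 + ε) ^ (3 * n + 1 + m) ≤ 2 ^ (3 * k) * (1 + ε) ^ (m + 4) := by
        have h9 : 3 * n + 1 + m ≤ q * (3 * k) + (m + 4) := by
          rw [hn]
          have : 3 * (q * k) = q * (3 * k) := by ring
          omega
        calc (1 + ε) ^ (3 * n + 1 + m) ≤ (1 + ε) ^ (q * (3 * k) + (m + 4)) :=
              pow_le_pow_right₀ (by linarith) h9
          _ = ((1 + ε) ^ q) ^ (3 * k) * (1 + ε) ^ (m + 4) := by rw [pow_add, pow_mul]
          _ ≤ 2 ^ (3 * k) * (1 + ε) ^ (m + 4) := by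
              refine mul_le_mul_of_nonneg_right ?_ (by positivity)
              exact pow_le_pow_left₀ (by positivity) hε2 _
      have h10 : 0 < ‖h z‖ := norm_pos_iff.mpr (h0 z h1)
      have h11 : μ ≤ 2 ^ (3 * k) * (1 + ε) ^ (m + 4) * ‖h z‖ :=
        h7.trans (mul_le_mul_of_nonneg_right h8 h10.le)
      rw [div_lt_iff₀ (by positivity), pow_add]
      have h12 : B * (1 + ε) ^ (m + 4) < μ * 2 ^ C := by
        rw [div_mul_eq_mul_div, div_lt_iff₀ hμ] at hC
        linarith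
      have h13 : B * (1 + ε) ^ (m + 4) <
          (2 ^ (3 * k) * (1 + ε) ^ (m + 4) * ‖h z‖) * 2 ^ C :=
        h12.trans_le (mul_le_mul_of_nonneg_right h11 (by positivity))
      have h14 : (0 : ℝ) < (1 + ε) ^ (m + 4) := by positivity
      have h15 : B * (1 + ε) ^ (m + 4) <
          (‖h z‖ * (2 ^ (3 * k) * 2 ^ C)) * (1 + ε) ^ (m + 4) := by
        refine h13.trans_le (le_of_eq ?_)
        ring
      exact lt_of_mul_lt_mul_right h15 h14.le
    have h1 := (hlow.trans (lintegral_mono_set himg)).trans (ring_mass hB0 (3 * k + C))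
    have h2 : (n : ℝ) * (Real.pi * η ^ 2 / 4) ≤ ((3 * k + C : ℕ) : ℝ) * (4 * Real.pi) := by
      have h3 : ENNReal.ofReal ((n : ℝ) * (Real.pi * η ^ 2 / 4)) ≤
          ENNReal.ofReal (((3 * k + C : ℕ) : ℝ) * (4 * Real.pi)) := by
        rw [ENNReal.ofReal_mul (Nat.cast_nonneg _), ENNReal.ofReal_mul (Nat.cast_nonneg _),
          ENNReal.ofReal_natCast, ENNReal.ofReal_natCast]
        exact h1
      rwa [ENNReal.ofReal_le_ofReal_iff (by positivity)] at h3
    rw [hn] at h2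
    push_cast at h2
    have hpi := Real.pi_pos
    have h3 : ((k : ℝ) * (q * (η ^ 2 / 4))) * Real.pi ≤ (4 * (3 * k + C)) * Real.pi := by
      linarith
    exact le_of_mul_le_mul_right h3 hpi
  obtain ⟨k, hk⟩ := exists_nat_gt (16 * (C : ℝ))
  have h1 := key k
  have h2 : (k : ℝ) * (49 / 4) ≤ k * (q * (η ^ 2 / 4)) := by
    refine mul_le_mul_of_nonneg_left ?_ (Nat.cast_nonneg k)
    linarith
  linarith

end Pool.Agent.Imp.Sna

namespace Pool.Agent.Imp

open Sna Koe in
/-- SNA: the snail lemma. -/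
theorem sna : SnaStatement := by
  intro f P hd hP t k z₀ htk hland
  have hfix : f.eval z₀ = z₀ := by
    have h1 := Rep.land_mul hd hP hland
    rw [htk] at h1
    exact Rep.land_unique (Rep.land_add hP.per k h1) hland
  have hK : z₀ ∈ filledJulia f := by
    refine ⟨‖z₀‖, fun n => ?_⟩
    rw [Function.iterate_fixed hfix n]
  have hdC : (2 : ℝ) ≤ (f.natDegree : ℝ) := by exact_mod_cast hd
  have hmem : ∀ v ∈ HP, v + t * Complex.I ∈ HP := by
    intro v hv
    have hv' : 0 < v.re := hv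
    show 0 < (v + t * Complex.I).re
    simpa using hv'
  set Q : ℂ → ℂ := fun v => P (v + t * Complex.I) - z₀ with hQ
  have hQd : DifferentiableOn ℂ Q HP := by
    refine DifferentiableOn.sub_const ?_ z₀
    exact hP.diff.comp (by fun_prop) fun v hv => hmem v hv
  have hQ0 : ∀ v ∈ HP, Q v ≠ 0 := by
    intro v hv h
    have h1 : P (v + t * Complex.I) = z₀ := sub_eq_zero.mp h
    have h2 : z₀ ∈ P '' HP := ⟨_, hmem v hv, h1⟩
    rw [hP.range] at h2
    exact h2 hK
  have hQi : ∀ u ∈ HP, ∀ v ∈ HP, |u.im| < 1 / 2 → |v.im| < 1 / 2 → Q u = Q v → u = v := by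
    intro u hu v hv h1 h2 h
    obtain ⟨j, hj⟩ := hP.inj _ (hmem u hu) _ (hmem v hv) (sub_left_injective h)
    have h3 : u = v + j * Complex.I := by linear_combination hj
    have h4 : u.im = v.im + j := by
      have := congrArg Complex.im h3
      simpa using this
    rw [abs_lt] at h1 h2
    have h5 : ((j : ℤ) : ℝ) < 1 := by linarith
    have h6 : (-1 : ℝ) < ((j : ℤ) : ℝ) := by linarith
    have h7 : j < 1 := by exact_mod_cast h5
    have h8 : -1 < j := by exact_mod_cast h6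
    have h9 : j = 0 := by omega
    rw [h3, h9]
    simp
  obtain ⟨R, hR⟩ := hP.bdd
  have hQB : ∀ v ∈ HP, v.re ≤ 1 → ‖Q v‖ ≤ R + ‖z₀‖ := by
    intro v hv hv1
    refine (norm_sub_le _ _).trans ?_
    have h1 := hR (v + t * Complex.I) (hmem v hv) (by simpa using hv1)
    linarith
  have hsemi : ∀ v ∈ HP, Q (f.natDegree * v) = G f z₀ (Q v) := by
    intro v hv
    have h1 := hP.semi _ (hmem v hv)
    have h2 : (f.natDegree : ℂ) * (v + t * Complex.I) =
        (f.natDegree * v + t * Complex.I) + k * Complex.I := by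
      have h3 : (f.natDegree : ℂ) * t = t + k := by exact_mod_cast congrArg (Complex.ofReal) htk
      linear_combination Complex.I * h3
    rw [h2, Rep.per_int hP.per] at h1
    simp only [hQ, G]
    rw [add_sub_cancel, h1]
  have hsmall : ∀ κ : ℝ, 0 < κ → ∃ s : ℝ, 0 < s ∧ ∀ v : ℂ, 0 < v.re → v.re ≤ s →
      |v.im| ≤ v.re → ‖Q v‖ ≤ κ := by
    intro κ hκ
    obtain ⟨s, hs, hs1⟩ := hyp64 f P hd hP (κ / 2) 1 (by positivity) one_pos
    have h1 := (Metric.tendsto_nhds.mp hland) (κ / 2) (by positivity)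
    obtain ⟨δ, hδ, hδ1⟩ := (mem_nhdsGT_iff_exists_Ioo_subset (a := (0 : ℝ))).mp h1
    have hδ0 : (0 : ℝ) < δ := hδ
    refine ⟨min s (δ / 2), lt_min hs (by positivity), fun v h2 h3 h4 => ?_⟩
    have h5 := hs1 (v + t * Complex.I) (((v.re : ℝ) : ℂ) + t * Complex.I) (by simpa using h2)
      (by simpa using h3.trans (min_le_left _ _)) (by simp) (by simp) (by simpa using h4)
    have h6 : v.re ∈ Ioo (0 : ℝ) δ := ⟨h2, by linarith [h3.trans (min_le_right _ _)]⟩
    have h7 : dist (P (((v.re : ℝ) : ℂ) + t * Complex.I)) z₀ < κ / 2 := hδ1 h6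
    rw [dist_eq_norm] at h7
    have h8 : Q v = (P (v + t * Complex.I) - P (((v.re : ℝ) : ℂ) + t * Complex.I)) +
        (P (((v.re : ℝ) : ℂ) + t * Complex.I) - z₀) := by
      simp only [hQ]
      ring
    rw [h8]
    refine (norm_add_le _ _).trans ?_
    linarith
  obtain ⟨C, hC, hquad⟩ := quad f z₀ hfix
  by_contra hcon
  push Not at hcon
  obtain ⟨hle, hne⟩ := hcon
  rcases lt_or_eq_of_le hle with hlt | heq
  · -- attracting
    set l := f.derivative.eval z₀ with hl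
    set r : ℝ := min 1 ((1 - ‖l‖) / C) with hr
    have hr0 : 0 < r := lt_min one_pos (div_pos (by linarith) hC)
    have hstep : ∀ w : ℂ, ‖w‖ ≤ r → ‖G f z₀ w‖ ≤ ‖w‖ := by
      intro w hw
      have h1 := hquad w (hw.trans (min_le_left _ _))
      have h2 : ‖G f z₀ w‖ ≤ ‖G f z₀ w - l * w‖ + ‖l * w‖ := by
        have h3 : G f z₀ w = (G f z₀ w - l * w) + l * w := by ring
        calc ‖G f z₀ w‖ = ‖(G f z₀ w - l * w) + l * w‖ := by rw [← h3]
          _ ≤ _ := norm_add_le _ _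
      rw [norm_mul] at h2
      have h4 : C * ‖w‖ ≤ 1 - ‖l‖ := by
        have h5 : ‖w‖ ≤ (1 - ‖l‖) / C := hw.trans (min_le_right _ _)
        rw [le_div_iff₀ hC] at h5
        linarith
      have h6 := norm_nonneg w
      nlinarith
    have hball : ∀ w : ℂ, ‖w‖ ≤ r → z₀ + w ∈ filledJulia f := by
      intro w hw
      refine ⟨‖z₀‖ + r, fun n => ?_⟩
      have h1 : ∀ n : ℕ, ‖(fun w => f.eval w)^[n] (z₀ + w) - z₀‖ ≤ r := by
        intro n
        induction n with
        | zero =>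
          rw [Function.iterate_zero, id, add_sub_cancel_left]
          exact hw
        | succ n ih =>
          rw [Function.iterate_succ_apply']
          have h2 := hstep _ ih
          simp only [G, add_sub_cancel] at h2
          exact h2.trans ih
      have h2 := norm_sub_norm_le ((fun w => f.eval w)^[n] (z₀ + w)) z₀
      linarith [h1 n]
    obtain ⟨s, hs, hs1⟩ := hsmall r hr0
    have h1 : ((s : ℝ) : ℂ) ∈ HP := by
      show 0 < ((s : ℝ) : ℂ).re
      rw [Complex.ofReal_re]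
      exact hs
    have h2 := hs1 (s : ℂ) h1 (by rw [Complex.ofReal_re])
      (by rw [Complex.ofReal_re, Complex.ofReal_im, abs_zero]; exact hs.le)
    have h3 := hball _ h2
    have h4 : z₀ + Q s = P (s + t * Complex.I) := by
      simp only [hQ]
      ring
    rw [h4] at h3
    have h5 : P (s + t * Complex.I) ∈ P '' HP := ⟨_, hmem _ h1, rfl⟩
    rw [hP.range] at h5
    exact h5 h3
  · refine snail hQd hQ0 hQi hdC hQB heq hne fun ε hε => ?_
    obtain ⟨s, hs, hs1⟩ := hsmall (min 1 (ε / C)) (lt_min one_pos (by positivity))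
    refine ⟨s, hs, fun v h1 h2 h3 => ?_⟩
    have h4 := hs1 v h1 h2 h3
    have h5 := hquad (Q v) (h4.trans (min_le_left _ _))
    have h6 : Q (((f.natDegree : ℝ) : ℂ) * v) = G f z₀ (Q v) := by
      rw [Complex.ofReal_natCast]
      exact hsemi v h1
    rw [h6]
    refine h5.trans ?_
    have h7 : C * ‖Q v‖ ≤ ε := by
      have h8 : ‖Q v‖ ≤ ε / C := h4.trans (min_le_right _ _)
      rw [le_div_iff₀ hC] at h8
      linarith
    have h9 := norm_nonneg (Q v)
    nlinarith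

end Pool.Agent.Imp
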